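import Pool.Agent.Lib_helper10.T2.Defs

/-! T2, block BAS: elementary facts -/

namespace Pool.Agent.T2

open Filter Topology MeasureTheory

theorem nn_cast_pr (z : G) : (nn z : ℤ) = z.re ^ 2 + z.im ^ 2 := by
  unfold nn
  rw [GaussianInt.abs_natCast_norm, Zsqrtd.norm_def]
  ring

theorem bas_cast_real (z : G) : (nn z : ℝ) = (z.re : ℝ) ^ 2 + (z.im : ℝ) ^ 2 := by
  have h := nn_cast_pr z
  have h2 : ((nn z : ℤ) : ℝ) = ((z.re ^ 2 + z.im ^ 2 : ℤ) : ℝ) := by rw [h]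
  push_cast at h2
  exact h2

theorem nn_norm_pr (z : G) : (nn z : ℝ) = ‖(z : ℂ)‖ ^ 2 := by
  rw [bas_cast_real, ← Complex.normSq_eq_norm_sq, Complex.normSq_apply,
    ← GaussianInt.intCast_re, ← GaussianInt.intCast_im]
  ring

theorem nn_mul_pr (z w : G) : nn (z * w) = nn z * nn w := by
  unfold nn
  rw [Zsqrtd.norm_mul, Int.natAbs_mul]

theorem nn_pos_pr {z : G} : 0 < nn z ↔ z ≠ 0 := by
  unfold nn
  rw [Int.natAbs_pos, ne_eq, ne_eq, GaussianInt.norm_eq_zero]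

theorem nn_star_pr (z : G) : nn (star z) = nn z := by
  unfold nn
  rw [Zsqrtd.norm_conj]

theorem nn_nat_pr (n : ℕ) : nn (n : G) = n ^ 2 := by
  have h := nn_cast_pr (n : G)
  have h1 : ((n : G)).re = n := by simp
  have h2 : ((n : G)).im = 0 := by simp
  rw [h1, h2] at h
  have h3 : ((nn (n : G) : ℕ) : ℤ) = ((n ^ 2 : ℕ) : ℤ) := by
    rw [h]; push_cast; ring
  exact_mod_cast h3

theorem lam_mul_pr (a b : ℕ) : lam (a * b) = lam a * lam b := by
  unfold lam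
  by_cases ha : a = 0
  · simp [ha]
  by_cases hb : b = 0
  · simp [hb]
  have hab : a * b ≠ 0 := mul_ne_zero ha hb
  rw [if_neg ha, if_neg hb, if_neg hab, ArithmeticFunction.cardFactors_mul ha hb, pow_add]

theorem lam_prime_pr {p : ℕ} (hp : p.Prime) : lam p = -1 := by
  unfold lam
  rw [if_neg hp.ne_zero, ArithmeticFunction.cardFactors_apply_prime hp]
  norm_num

theorem bas_lam_pm (n : ℕ) (hn : n ≠ 0) : lam n = 1 ∨ lam n = -1 := by
  unfold lam
  rw [if_neg hn]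
  exact neg_one_pow_eq_or ℝ _

theorem lam_abs_pr (n : ℕ) : |lam n| ≤ 1 := by
  by_cases hn : n = 0
  · unfold lam; simp [hn]
  · rcases bas_lam_pm n hn with h | h <;> rw [h] <;> simp

theorem lam_sq_pr {n : ℕ} (hn : n ≠ 0) : lam n ^ 2 = 1 := by
  rcases bas_lam_pm n hn with h | h <;> rw [h] <;> norm_num

theorem bas_lam_one : lam 1 = 1 := by
  unfold lam
  simp

theorem gl_mul_pr (z w : G) : gl (z * w) = gl z * gl w := by
  unfold gl
  rw [nn_mul_pr, lam_mul_pr]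

theorem gl_nat_pr {n : ℕ} (hn : 1 ≤ n) : gl (n : G) = 1 := by
  unfold gl
  rw [nn_nat_pr, pow_two, lam_mul_pr, ← pow_two]
  exact lam_sq_pr (by omega)

theorem gl_zero_pr : gl 0 = 0 := by
  unfold gl
  have : nn 0 = 0 := by
    unfold nn; simp
  rw [this]
  unfold lam
  simp

theorem gl_one_pr : gl 1 = 1 := by
  have := gl_nat_pr (n := 1) le_rfl
  simpa using this

theorem bas_nn_ui : nn ui = 1 := by
  have h := nn_cast_pr ui
  have h2 : ((nn ui : ℕ) : ℤ) = ((1 : ℕ) : ℤ) := by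
    rw [h]; simp [ui]
  exact_mod_cast h2

theorem gl_ui_pr : gl ui = 1 := by
  unfold gl
  rw [bas_nn_ui, bas_lam_one]

theorem gl_abs_pr (z : G) : |gl z| ≤ 1 := lam_abs_pr _

theorem gl_star_pr (z : G) : gl (star z) = gl z := by
  unfold gl
  rw [nn_star_pr]

theorem ang_mul_pr (k : ℤ) (z w : G) : ang k (z * w) = ang k z * ang k w := by
  unfold ang
  rw [GaussianInt.toComplex_mul, norm_mul, Complex.ofReal_mul, mul_div_mul_comm, mul_zpow]

theorem bas_ne {z : G} (hz : z ≠ 0) : (z : ℂ) ≠ 0 := by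
  intro h
  exact hz (GaussianInt.toComplex_eq_zero.1 h)

theorem bas_nrm_ne {z : G} (hz : z ≠ 0) : (‖(z : ℂ)‖ : ℂ) ≠ 0 := by
  have := norm_ne_zero_iff.2 (bas_ne hz)
  exact_mod_cast this

theorem bas_div_ne {z : G} (hz : z ≠ 0) : (z : ℂ) / (‖(z : ℂ)‖ : ℂ) ≠ 0 :=
  div_ne_zero (bas_ne hz) (bas_nrm_ne hz)

theorem bas_div_norm {z : G} (hz : z ≠ 0) : ‖(z : ℂ) / (‖(z : ℂ)‖ : ℂ)‖ = 1 := by
  rw [norm_div, Complex.norm_real, norm_norm, div_self (norm_ne_zero_iff.2 (bas_ne hz))]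

theorem ang_add_pr (k l : ℤ) {z : G} (hz : z ≠ 0) : ang (k + l) z = ang k z * ang l z := by
  unfold ang
  exact zpow_add₀ (bas_div_ne hz) k l

theorem ang_norm_pr (k : ℤ) {z : G} (hz : z ≠ 0) : ‖ang k z‖ = 1 := by
  unfold ang
  rw [norm_zpow, bas_div_norm hz, one_zpow]

theorem ang_le_pr (k : ℤ) (z : G) : ‖ang k z‖ ≤ 1 := by
  by_cases hz : z = 0
  · subst hz
    unfold ang
    by_cases hk : k = 0
    · simp [hk]
    · rw [GaussianInt.toComplex_zero, zero_div, zero_zpow k hk]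
      simp
  · exact (ang_norm_pr k hz).le

theorem ang_conj_pr (k : ℤ) {z : G} (hz : z ≠ 0) :
    (starRingEnd ℂ) (ang k z) = ang (-k) z := by
  unfold ang
  rw [map_zpow₀, zpow_neg, ← inv_zpow]
  congr 1
  exact (Complex.inv_eq_conj (bas_div_norm hz)).symm

theorem ang_zero'_pr {z : G} : ang 0 z = 1 := by
  unfold ang
  simp

theorem ang_nat_pr (k : ℤ) {n : ℕ} (hn : 1 ≤ n) : ang k (n : G) = 1 := by
  unfold ang
  have h1 : ((n : G) : ℂ) = (n : ℂ) := by simp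
  have h2 : (n : ℂ) ≠ 0 := by exact_mod_cast (by omega : n ≠ 0)
  rw [h1, Complex.norm_natCast, Complex.ofReal_natCast, div_self h2, one_zpow]

theorem ang_star_pr (k : ℤ) {z : G} (hz : z ≠ 0) : ang k (star z) = ang (-k) z := by
  rw [← ang_conj_pr k hz]
  unfold ang
  rw [GaussianInt.toComplex_star, map_zpow₀, map_div₀, Complex.conj_ofReal, RCLike.norm_conj]

theorem mem_Bl_pr {x : ℝ} {z : G} : z ∈ Bl x ↔ z ≠ 0 ∧ (nn z : ℝ) ≤ x := by
  unfold Bl
  rw [Finset.mem_filter]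
  constructor
  · rintro ⟨-, h⟩
    exact h
  · intro h
    refine ⟨?_, h⟩
    have hx : 0 ≤ x := le_trans (Nat.cast_nonneg _) h.2
    have hn : nn z ≤ ⌊x⌋₊ := Nat.le_floor h.2
    have hc := nn_cast_pr z
    have hn' : (nn z : ℤ) ≤ (⌊x⌋₊ : ℤ) := by exact_mod_cast hn
    unfold box
    rw [Finset.mem_map]
    refine ⟨(z.re, z.im), ?_, ?_⟩
    · rw [Finset.mem_product, Finset.mem_Icc, Finset.mem_Icc]
      have h1 : z.re ^ 2 ≤ (⌊x⌋₊ : ℤ) := by nlinarith [sq_nonneg z.im]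
      have h2 : z.im ^ 2 ≤ (⌊x⌋₊ : ℤ) := by nlinarith [sq_nonneg z.re]
      have key : ∀ a : ℤ, a ^ 2 ≤ (⌊x⌋₊ : ℤ) → -(⌊x⌋₊ : ℤ) ≤ a ∧ a ≤ (⌊x⌋₊ : ℤ) := by
        intro a ha
        have h3 : |a| ≤ a ^ 2 := by
          rw [← sq_abs]
          rcases eq_or_ne a 0 with h0 | h0
          · simp [h0]
          · have : 1 ≤ |a| := Int.one_le_abs h0
            nlinarith
        have h4 := abs_le.1 (h3.trans ha)
        exact h4
      exact ⟨key _ h1, key _ h2⟩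
    · rfl

theorem prm_ne_pr {z : G} (h : Prm z) : z ≠ 0 := by
  rintro rfl
  unfold Prm at h
  simp at h

theorem mem_PB_pr {x : ℝ} {z : G} : z ∈ PB x ↔ Prm z ∧ (nn z : ℝ) ≤ x := by
  classical
  unfold PB
  rw [Finset.mem_filter, mem_Bl_pr]
  constructor
  · rintro ⟨⟨-, h⟩, h2⟩
    exact ⟨h2, h⟩
  · rintro ⟨h, h2⟩
    exact ⟨⟨prm_ne_pr h, h2⟩, h⟩

theorem mem_Ks_pr {K : ℝ} {k : ℤ} : k ∈ Ks K ↔ |(k : ℝ)| ≤ K := by
  unfold Ks
  rw [Finset.mem_Icc, abs_le, Int.le_floor, neg_le, Int.le_floor]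
  push_cast
  constructor
  · rintro ⟨h1, h2⟩
    exact ⟨by linarith, h2⟩
  · rintro ⟨h1, h2⟩
    exact ⟨by linarith, h2⟩

/-- divisibility by a natural number is divisibility of the coordinates -/
theorem bas_dvd {n : ℕ} {z : G} : (n : G) ∣ z ↔ (n : ℤ) ∣ z.re ∧ (n : ℤ) ∣ z.im := by
  have := Zsqrtd.intCast_dvd (d := -1) (n : ℤ) z
  rw [← this]
  simp

theorem bas_dvd_gcd {n : ℕ} {z : G} : (n : G) ∣ z ↔ n ∣ Int.gcd z.re z.im := by
  rw [bas_dvd]
  constructor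
  · rintro ⟨h1, h2⟩
    exact Int.dvd_gcd h1 h2
  · intro h
    have h' : (n : ℤ) ∣ (Int.gcd z.re z.im : ℤ) := by exact_mod_cast h
    exact ⟨h'.trans (Int.gcd_dvd_left _ _), h'.trans (Int.gcd_dvd_right _ _)⟩

theorem prm_iff_pr {z : G} : Prm z ↔ ∀ n : ℕ, (n : G) ∣ z → n = 1 := by
  unfold Prm
  constructor
  · intro h n hn
    rw [bas_dvd_gcd, h] at hn
    exact Nat.dvd_one.1 hn
  · intro h
    exact h _ (bas_dvd_gcd.2 dvd_rfl)

theorem prm_mul_left_pr {z w : G} (h : Prm (z * w)) : Prm z := by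
  rw [prm_iff_pr] at h ⊢
  intro n hn
  exact h n (hn.mul_right w)

theorem prm_star_pr {z : G} : Prm (star z) ↔ Prm z := by
  unfold Prm
  rw [Zsqrtd.re_star, Zsqrtd.im_star, Int.gcd_neg]

theorem content_pr {z : G} (hz : z ≠ 0) : ∃ (n : ℕ) (w : G), 1 ≤ n ∧ Prm w ∧ z = n * w := by
  have hg : 0 < Int.gcd z.re z.im := by
    rw [Int.gcd_pos_iff]
    by_contra hcon
    push Not at hcon
    exact hz (Zsqrtd.ext hcon.1 hcon.2)
  obtain ⟨w, hw⟩ : ((Int.gcd z.re z.im : ℕ) : G) ∣ z := bas_dvd_gcd.2 dvd_rfl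
  refine ⟨Int.gcd z.re z.im, w, hg, ?_, hw⟩
  rw [prm_iff_pr]
  rintro n ⟨v, hv⟩
  have h1 : ((Int.gcd z.re z.im * n : ℕ) : G) ∣ z := by
    refine ⟨v, ?_⟩
    push_cast
    rw [mul_assoc, ← hv]
    exact hw
  rw [bas_dvd_gcd] at h1
  have h2 : Int.gcd z.re z.im * n ≤ Int.gcd z.re z.im := Nat.le_of_dvd hg h1
  have h3 : n ≤ 1 := by
    by_contra hcon
    push Not at hcon
    nlinarith
  have h4 : n ≠ 0 := by
    rintro rfl
    rw [mul_zero, zero_dvd_iff] at h1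
    omega
  omega

theorem bas_gcd_mul {n : ℕ} {w : G} (hw : Prm w) :
    Int.gcd ((n : G) * w).re ((n : G) * w).im = n := by
  have h1 : ((n : G) * w).re = n * w.re := by simp
  have h2 : ((n : G) * w).im = n * w.im := by simp
  rw [h1, h2, Int.gcd_mul_left]
  unfold Prm at hw
  rw [hw]
  simp

theorem content_unique_pr {n n' : ℕ} {w w' : G} (hn : 1 ≤ n) (hn' : 1 ≤ n') (hw : Prm w)
    (hw' : Prm w') (h : (n : G) * w = n' * w') : n = n' ∧ w = w' := by
  have h1 := bas_gcd_mul (n := n) hw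
  have h2 := bas_gcd_mul (n := n') hw'
  rw [h] at h1
  have h3 : n = n' := h1.symm.trans h2
  refine ⟨h3, ?_⟩
  subst h3
  have h4 : (n : G) ≠ 0 := by
    intro h0
    have := nn_nat_pr n
    rw [h0] at this
    have h5 : nn (0 : G) = 0 := by unfold nn; simp
    rw [h5] at this
    have : 0 < n ^ 2 := by positivity
    omega
  exact mul_left_cancel₀ h4 h

theorem det_mul_pr (z u v : G) : det (z * u) (z * v) = nn z * det u v := by
  rw [nn_cast_pr]
  unfold det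
  simp only [Zsqrtd.re_mul, Zsqrtd.im_mul]
  ring

theorem ip_sq_add_pr (u v : G) : (nn u : ℤ) * nn v = ip u v ^ 2 + det u v ^ 2 := by
  rw [nn_cast_pr, nn_cast_pr]
  unfold ip det
  ring

end Pool.Agent.T2


namespace Pool.Agent.T2

theorem nn_cast : type_of% @nn_cast_pr := @nn_cast_pr
theorem nn_norm : type_of% @nn_norm_pr := @nn_norm_pr
theorem nn_mul : type_of% @nn_mul_pr := @nn_mul_pr
theorem nn_pos : type_of% @nn_pos_pr := @nn_pos_pr
theorem nn_star : type_of% @nn_star_pr := @nn_star_pr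
theorem nn_nat : type_of% @nn_nat_pr := @nn_nat_pr
theorem lam_mul : type_of% @lam_mul_pr := @lam_mul_pr
theorem lam_prime : type_of% @lam_prime_pr := @lam_prime_pr
theorem lam_abs : type_of% @lam_abs_pr := @lam_abs_pr
theorem lam_sq : type_of% @lam_sq_pr := @lam_sq_pr
theorem gl_mul : type_of% @gl_mul_pr := @gl_mul_pr
theorem gl_nat : type_of% @gl_nat_pr := @gl_nat_pr
theorem gl_zero : type_of% @gl_zero_pr := @gl_zero_pr
theorem gl_one : type_of% @gl_one_pr := @gl_one_pr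
theorem gl_ui : type_of% @gl_ui_pr := @gl_ui_pr
theorem gl_abs : type_of% @gl_abs_pr := @gl_abs_pr
theorem gl_star : type_of% @gl_star_pr := @gl_star_pr
theorem ang_mul : type_of% @ang_mul_pr := @ang_mul_pr
theorem ang_add : type_of% @ang_add_pr := @ang_add_pr
theorem ang_norm : type_of% @ang_norm_pr := @ang_norm_pr
theorem ang_le : type_of% @ang_le_pr := @ang_le_pr
theorem ang_conj : type_of% @ang_conj_pr := @ang_conj_pr
theorem ang_zero' : type_of% @ang_zero'_pr := @ang_zero'_pr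
theorem ang_nat : type_of% @ang_nat_pr := @ang_nat_pr
theorem ang_star : type_of% @ang_star_pr := @ang_star_pr
theorem mem_Bl : type_of% @mem_Bl_pr := @mem_Bl_pr
theorem mem_PB : type_of% @mem_PB_pr := @mem_PB_pr
theorem mem_Ks : type_of% @mem_Ks_pr := @mem_Ks_pr
theorem prm_ne : type_of% @prm_ne_pr := @prm_ne_pr
theorem prm_mul_left : type_of% @prm_mul_left_pr := @prm_mul_left_pr
theorem prm_star : type_of% @prm_star_pr := @prm_star_pr
theorem prm_iff : type_of% @prm_iff_pr := @prm_iff_pr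
theorem content : type_of% @content_pr := @content_pr
theorem content_unique : type_of% @content_unique_pr := @content_unique_pr
theorem det_mul : type_of% @det_mul_pr := @det_mul_pr
theorem ip_sq_add : type_of% @ip_sq_add_pr := @ip_sq_add_pr

end Pool.Agent.T2
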