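import Pool.Agent.Lib_helper10.T2.Defs
import Pool.Agent.Lib_helper35.Var.Sieve
import Pool.Agent.Lib_helper10.T2F.BAS

/-! T2, block LSG: the large sieve for primitive elements -/

namespace Pool.Agent.T2

open Filter Topology MeasureTheory

/-- the angle divided by `2π` -/
noncomputable def lsg_t (z : G) : ℝ := Complex.arg (z : ℂ) / (2 * Real.pi)

theorem lsg_re (z : G) : (z : ℂ).re = (z.re : ℝ) := (GaussianInt.intCast_re z).symm

theorem lsg_im (z : G) : (z : ℂ).im = (z.im : ℝ) := (GaussianInt.intCast_im z).symm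

theorem lsg_ne {z : G} (hz : z ≠ 0) : (z : ℂ) ≠ 0 := by
  intro h
  apply hz
  have h1 := lsg_re z
  have h2 := lsg_im z
  rw [h] at h1 h2
  simp only [Complex.zero_re, Complex.zero_im] at h1 h2
  have h3 : z.re = 0 := by exact_mod_cast h1.symm
  have h4 : z.im = 0 := by exact_mod_cast h2.symm
  exact Zsqrtd.ext h3 h4

theorem lsg_ang (k : ℤ) {z : G} (hz : z ≠ 0) :
    ang k z = Pool.Agent.Var35.e ((k : ℝ) * lsg_t z) := by
  have hz' := lsg_ne hz
  have hn : (‖(z : ℂ)‖ : ℂ) ≠ 0 := by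
    simpa using hz'
  have h1 : (z : ℂ) / (‖(z : ℂ)‖ : ℂ) = Complex.exp (Complex.arg (z : ℂ) * Complex.I) := by
    rw [div_eq_iff hn]
    conv_lhs => rw [← Complex.norm_mul_exp_arg_mul_I (z : ℂ)]
    ring
  unfold ang Pool.Agent.Var35.e lsg_t
  rw [h1, ← Complex.exp_int_mul]
  congr 1
  have hpi : (Real.pi : ℂ) ≠ 0 := by exact_mod_cast Real.pi_ne_zero
  push_cast
  field_simp

/-- sine and cosine of the difference of the angles -/
theorem lsg_sin (z w : G) : ‖(z : ℂ)‖ * ‖(w : ℂ)‖ *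
    Real.sin (Complex.arg (w : ℂ) - Complex.arg (z : ℂ)) = (det z w : ℝ) := by
  have hz1 := Complex.norm_mul_cos_arg (z : ℂ)
  have hz2 := Complex.norm_mul_sin_arg (z : ℂ)
  have hw1 := Complex.norm_mul_cos_arg (w : ℂ)
  have hw2 := Complex.norm_mul_sin_arg (w : ℂ)
  rw [Real.sin_sub]
  have : (det z w : ℝ) = (z : ℂ).re * (w : ℂ).im - (z : ℂ).im * (w : ℂ).re := by
    rw [lsg_re, lsg_im, lsg_re, lsg_im]
    unfold det
    push_cast
    ring
  rw [this, ← hz1, ← hz2, ← hw1, ← hw2]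
  ring

theorem lsg_cos (z w : G) : ‖(z : ℂ)‖ * ‖(w : ℂ)‖ *
    Real.cos (Complex.arg (w : ℂ) - Complex.arg (z : ℂ)) = (ip z w : ℝ) := by
  have hz1 := Complex.norm_mul_cos_arg (z : ℂ)
  have hz2 := Complex.norm_mul_sin_arg (z : ℂ)
  have hw1 := Complex.norm_mul_cos_arg (w : ℂ)
  have hw2 := Complex.norm_mul_sin_arg (w : ℂ)
  rw [Real.cos_sub]
  have : (ip z w : ℝ) = (z : ℂ).re * (w : ℂ).re + (z : ℂ).im * (w : ℂ).im := by
    rw [lsg_re, lsg_im, lsg_re, lsg_im]
    unfold ip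
    push_cast
    ring
  rw [this, ← hz1, ← hz2, ← hw1, ← hw2]
  ring

/-- parallel primitive elements -/
theorem lsg_par {z w : G} (hz : Prm z) (hw : Prm w) (h : det z w = 0) : z = w ∨ z = -w := by
  unfold det at h
  unfold Prm at hz hw
  have h' : z.re * w.im = z.im * w.re := by linarith
  have hz' : IsCoprime z.re z.im := Int.isCoprime_iff_gcd_eq_one.2 hz
  have hw' : IsCoprime w.re w.im := Int.isCoprime_iff_gcd_eq_one.2 hw
  have h1 : z.re ∣ w.re := hz'.dvd_of_dvd_mul_left ⟨w.im, h'.symm⟩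
  have h2 : w.re ∣ z.re := hw'.dvd_of_dvd_mul_right ⟨z.im, by rw [h']; ring⟩
  have h3 : z.im ∣ w.im := hz'.symm.dvd_of_dvd_mul_left ⟨w.re, h'⟩
  have h4 : w.im ∣ z.im := hw'.symm.dvd_of_dvd_mul_right ⟨z.re, by rw [← h']; ring⟩
  have h5 : z.re.natAbs = w.re.natAbs := Nat.dvd_antisymm (Int.natAbs_dvd_natAbs.2 h1)
    (Int.natAbs_dvd_natAbs.2 h2)
  have h6 : z.im.natAbs = w.im.natAbs := Nat.dvd_antisymm (Int.natAbs_dvd_natAbs.2 h3)
    (Int.natAbs_dvd_natAbs.2 h4)
  rcases Int.natAbs_eq_natAbs_iff.1 h5 with h7 | h7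
  · rcases Int.natAbs_eq_natAbs_iff.1 h6 with h8 | h8
    · left
      exact Zsqrtd.ext h7 h8
    · by_cases h0 : w.re = 0
      · right
        refine Zsqrtd.ext ?_ ?_
        · rw [h7, h0]; simp [h0]
        · rw [h8]; simp
      · left
        have h9 : w.re * w.im = w.re * (-w.im) := by
          rw [h7, h8] at h'
          linarith
        have h10 := mul_left_cancel₀ h0 h9
        refine Zsqrtd.ext h7 ?_
        rw [h8]
        omega
  · rcases Int.natAbs_eq_natAbs_iff.1 h6 with h8 | h8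
    · by_cases h0 : w.re = 0
      · left
        refine Zsqrtd.ext ?_ h8
        rw [h7, h0]; simp
      · right
        have h9 : w.re * (-w.im) = w.re * w.im := by
          rw [h7, h8] at h'
          linarith
        have h10 := mul_left_cancel₀ h0 h9
        refine Zsqrtd.ext (by rw [h7]; simp) ?_
        rw [h8]
        simp only [Zsqrtd.im_neg]
        omega
    · right
      exact Zsqrtd.ext (by rw [h7]; simp) (by rw [h8]; simp)

/-- the directions are well separated -/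
theorem lsg_sep {x : ℝ} (hx : 1 ≤ x) :
    Pool.Agent.Var35.Sep (PB x) lsg_t (1 / (2 * Real.pi * x)) := by
  intro z hz w hw hzw n
  obtain ⟨hz1, hz2⟩ := mem_PB.1 hz
  obtain ⟨hw1, hw2⟩ := mem_PB.1 hw
  have hpi := Real.pi_pos
  have hx0 : 0 < x := by linarith
  have hzn := lsg_ne (prm_ne hz1)
  have hwn := lsg_ne (prm_ne hw1)
  have hzp : 0 < ‖(z : ℂ)‖ := norm_pos_iff.2 hzn
  have hwp : 0 < ‖(w : ℂ)‖ := norm_pos_iff.2 hwn
  rw [nn_norm] at hz2 hw2
  have hprod : ‖(z : ℂ)‖ * ‖(w : ℂ)‖ ≤ x := by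
    nlinarith [sq_nonneg (‖(z : ℂ)‖ - ‖(w : ℂ)‖)]
  set θ : ℝ := Complex.arg (w : ℂ) - Complex.arg (z : ℂ) with hθ
  have hrel : lsg_t z - lsg_t w - n = -(θ + n * (2 * Real.pi)) / (2 * Real.pi) := by
    unfold lsg_t
    rw [hθ]
    field_simp
    ring
  rw [hrel, abs_div, abs_neg, abs_of_pos (by positivity : (0 : ℝ) < 2 * Real.pi)]
  rw [div_le_div_iff₀ (by positivity) (by positivity)]
  have key : 1 / x ≤ |θ + n * (2 * Real.pi)| := by
    by_cases hd : det z w = 0
    · rcases lsg_par hz1 hw1 hd with h | h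
      · exact absurd h hzw
      · have hc := lsg_cos z w
        have hip : (ip z w : ℝ) < 0 := by
          have : ip z w = -((nn w : ℤ)) := by
            rw [nn_cast, h]
            unfold ip
            simp only [Zsqrtd.re_neg, Zsqrtd.im_neg]
            ring
          rw [this]
          have h0 : 0 < nn w := nn_pos.2 (prm_ne hw1)
          have h1 : (0 : ℤ) < (nn w : ℤ) := by exact_mod_cast h0
          have h2 : (-(nn w : ℤ)) < 0 := by linarith
          exact_mod_cast h2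
        rw [← hc] at hip
        have hcos : Real.cos θ < 0 := by
          by_contra hcon
          push Not at hcon
          have : 0 ≤ ‖(z : ℂ)‖ * ‖(w : ℂ)‖ * Real.cos θ := by positivity
          linarith
        rw [← Real.cos_add_int_mul_two_pi θ n] at hcos
        by_contra hcon
        push Not at hcon
        have hlt : |θ + n * (2 * Real.pi)| < 1 := by
          have : 1 / x ≤ 1 := by
            rw [div_le_one hx0]; exact hx
          linarith
        have h3 := abs_lt.1 hlt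
        have h4 : 0 < Real.cos (θ + n * (2 * Real.pi)) := by
          apply Real.cos_pos_of_mem_Ioo
          constructor
          · linarith [Real.pi_gt_three]
          · linarith [Real.pi_gt_three]
        linarith
    · have hs := lsg_sin z w
      have h1 : (1 : ℝ) ≤ |(det z w : ℝ)| := by
        have : (1 : ℤ) ≤ |det z w| := Int.one_le_abs hd
        exact_mod_cast this
      rw [← hs, abs_mul, abs_of_pos (by positivity : 0 < ‖(z : ℂ)‖ * ‖(w : ℂ)‖)] at h1
      have h2 : 1 ≤ x * |Real.sin θ| := by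
        refine h1.trans ?_
        exact mul_le_mul_of_nonneg_right hprod (abs_nonneg _)
      have h3 : |Real.sin θ| ≤ |θ + n * (2 * Real.pi)| := by
        rw [← Real.sin_add_int_mul_two_pi θ n]
        exact Real.abs_sin_le_abs
      rw [div_le_iff₀ hx0]
      nlinarith
  rw [div_le_iff₀ hx0] at key
  nlinarith

/-- the frequencies as a shifted range -/
theorem lsg_sum {K : ℝ} (hK : 0 ≤ K) (f : ℤ → ℝ) :
    ∑ k ∈ Ks K, f k = ∑ m ∈ Finset.range (2 * ⌊K⌋₊ + 1), f ((m : ℤ) - (⌊K⌋₊ : ℤ)) := by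
  have hz : ⌊K⌋ = (⌊K⌋₊ : ℤ) := (Int.natCast_floor_eq_floor hK).symm
  unfold Ks
  rw [hz]
  refine Finset.sum_bij' (fun k _ => (k + (⌊K⌋₊ : ℤ)).toNat)
    (fun m _ => (m : ℤ) - (⌊K⌋₊ : ℤ)) ?_ ?_ ?_ ?_ ?_
  · intro k hk
    rw [Finset.mem_Icc] at hk
    rw [Finset.mem_range]
    omega
  · intro m hm
    rw [Finset.mem_range] at hm
    rw [Finset.mem_Icc]
    omega
  · intro k hk
    rw [Finset.mem_Icc] at hk
    omega
  · intro m hm
    omega
  · intro k hk
    rw [Finset.mem_Icc] at hk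
    congr 1
    omega

theorem large_sieve_pr : ∃ C : ℝ, 1 ≤ C ∧ ∀ K x : ℝ, 0 ≤ K → 1 ≤ x → ∀ c : G → ℂ,
    ∑ k ∈ Ks K, ‖∑ z ∈ PB x, c z * ang k z‖ ^ 2 ≤ C * (K + x) * ∑ z ∈ PB x, ‖c z‖ ^ 2 := by
  classical
  refine ⟨220, by norm_num, ?_⟩
  intro K x hK hx c
  have hpi := Real.pi_pos
  have hpi4 := Real.pi_lt_four
  have hx0 : 0 < x := by linarith
  have hδ : 0 < 1 / (2 * Real.pi * x) := by positivity
  have hδ1 : 1 / (2 * Real.pi * x) ≤ 1 := by
    rw [div_le_one (by positivity)]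
    nlinarith [Real.pi_gt_three]
  have h1 := Pool.Agent.Var35.dual_ls (PB x) lsg_t _ hδ hδ1 (lsg_sep hx)
    (fun z => c z * Pool.Agent.Var35.e (-((⌊K⌋₊ : ℝ) * lsg_t z))) (2 * ⌊K⌋₊ + 1)
  have h2 : ∑ z ∈ PB x, ‖c z * Pool.Agent.Var35.e (-((⌊K⌋₊ : ℝ) * lsg_t z))‖ ^ 2 =
      ∑ z ∈ PB x, ‖c z‖ ^ 2 := by
    refine Finset.sum_congr rfl fun z _ => ?_
    rw [norm_mul, Pool.Agent.Var35.norm_e, mul_one]
  rw [h2] at h1
  have hfl : (⌊K⌋₊ : ℝ) ≤ K := Nat.floor_le hK
  have hC : 22 * (((2 * ⌊K⌋₊ + 1 : ℕ) : ℝ) + 1 / (1 / (2 * Real.pi * x))) ≤ 220 * (K + x) := by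
    rw [one_div_one_div]
    push_cast
    nlinarith
  rw [lsg_sum hK]
  refine (le_of_eq ?_).trans (h1.trans (mul_le_mul_of_nonneg_right hC
    (Finset.sum_nonneg fun _ _ => by positivity)))
  refine Finset.sum_congr rfl fun m _ => ?_
  congr 2
  refine Finset.sum_congr rfl fun z hz => ?_
  rw [lsg_ang _ (prm_ne (mem_PB.1 hz).1), mul_assoc, ← Pool.Agent.Var35.e_add]
  congr 2
  push_cast
  ring

end Pool.Agent.T2


namespace Pool.Agent.T2

theorem large_sieve : type_of% @large_sieve_pr := @large_sieve_pr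

end Pool.Agent.T2
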