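import Pool.Agent.Lib_helper10.T2.Defs
import Pool.Agent.Lib_helper90.PNT.WienerIkehara

/-! T2, block MER (helper47): sums over primes `1 mod 4`. -/

set_option autoImplicit false

namespace Pool.Agent.T2

open Filter Topology MeasureTheory

theorem block_le_pr : ∃ C : ℝ, 1 ≤ C ∧ ∀ (M : ℝ) (B : Finset ℕ), 2 ≤ M → Pset B →
    (∀ p ∈ B, M < (p : ℝ) ∧ (p : ℝ) ≤ 2 * M) → (B.card : ℝ) ≤ C * M / Real.log M := by
  refine ⟨3, by norm_num, fun M B hM hB hp => ?_⟩
  have hM0 : 0 < M := by linarith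
  have hlog : 0 < Real.log M := Real.log_pos (by linarith)
  rw [le_div_iff₀ hlog]
  have h1 : (B.card : ℝ) * Real.log M ≤ ∑ p ∈ B, Real.log p := by
    rw [← nsmul_eq_mul]
    apply Finset.card_nsmul_le_sum
    intro p hpB
    exact Real.log_le_log hM0 (hp p hpB).1.le
  have h2 : ∑ p ∈ B, Real.log p ≤ Chebyshev.theta (2 * M) := by
    unfold Chebyshev.theta
    apply Finset.sum_le_sum_of_subset_of_nonneg
    · intro p hpB
      rw [Finset.mem_filter, Finset.mem_Ioc]
      exact ⟨⟨(hB p hpB).1.pos, Nat.le_floor (hp p hpB).2⟩, (hB p hpB).1⟩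
    · intro p hp' _
      rw [Finset.mem_filter] at hp'
      exact Real.log_nonneg (by exact_mod_cast hp'.2.one_lt.le)
  have h3 := Chebyshev.theta_le_log4_mul_x (x := 2 * M) (by linarith)
  have h4 : Real.log 4 = 2 * Real.log 2 := by
    rw [show (4 : ℝ) = 2 ^ 2 by norm_num, Real.log_pow]; norm_num
  have h5 := Real.log_two_lt_d9
  nlinarith

theorem mer_mem {P Q : ℝ} {p : ℕ} : p ∈ pr1 P Q ↔
    p.Prime ∧ p % 4 = 1 ∧ P < (p : ℝ) ∧ (p : ℝ) ≤ Q := by
  classical
  unfold pr1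
  rw [Finset.mem_filter, Finset.mem_range]
  constructor
  · rintro ⟨-, h⟩; exact h
  · intro h
    refine ⟨?_, h⟩
    rw [Nat.lt_succ_iff]
    exact Nat.le_floor h.2.2.2

theorem mer_pset (P Q : ℝ) : Pset (pr1 P Q) := by
  intro p hp
  rw [mer_mem] at hp
  exact ⟨hp.1, hp.2.1⟩

theorem mer_disj {i j : ℕ} (hij : i ≠ j) :
    Disjoint (pr1 (2 ^ i) (2 ^ (i + 1))) (pr1 (2 ^ j) (2 ^ (j + 1))) := by
  rw [Finset.disjoint_left]
  intro p hp hp'
  rw [mer_mem] at hp hp'
  rcases lt_or_gt_of_ne hij with h | h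
  · have h1 : (2 : ℝ) ^ (i + 1) ≤ 2 ^ j := pow_le_pow_right₀ (by norm_num) h
    linarith [hp.2.2.2, hp'.2.2.1]
  · have h1 : (2 : ℝ) ^ (j + 1) ≤ 2 ^ i := pow_le_pow_right₀ (by norm_num) h
    linarith [hp.2.2.1, hp'.2.2.2]

/-- the reciprocal sum over a dyadic block, upper bound -/
theorem mer_dy_upper : ∃ C : ℝ, 1 ≤ C ∧ ∀ j : ℕ, 1 ≤ j →
    rs (pr1 (2 ^ j) (2 ^ (j + 1))) ≤ C / j := by
  obtain ⟨C, hC, h⟩ := block_le_pr
  refine ⟨2 * C, by linarith, fun j hj => ?_⟩
  have hj0 : (0 : ℝ) < j := by exact_mod_cast hj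
  have h2 : (2 : ℝ) ≤ 2 ^ j := by
    calc (2 : ℝ) = 2 ^ 1 := by norm_num
      _ ≤ 2 ^ j := pow_le_pow_right₀ (by norm_num) hj
  have hp0 : (0 : ℝ) < 2 ^ j := by positivity
  have hcard := h (2 ^ j) (pr1 (2 ^ j) (2 ^ (j + 1))) h2 (mer_pset _ _) (fun p hp => by
    rw [mer_mem] at hp
    refine ⟨hp.2.2.1, ?_⟩
    rw [pow_succ] at hp
    linarith [hp.2.2.2])
  have h1 : rs (pr1 (2 ^ j) (2 ^ (j + 1))) ≤
      ((pr1 (2 ^ j) (2 ^ (j + 1))).card : ℝ) * (1 / 2 ^ j) := by
    unfold rs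
    rw [← nsmul_eq_mul]
    apply Finset.sum_le_card_nsmul
    intro p hp
    rw [mer_mem] at hp
    exact one_div_le_one_div_of_le hp0 hp.2.2.1.le
  have hl : Real.log (2 ^ j) = j * Real.log 2 := by rw [Real.log_pow]
  have hl2 : (1 / 2 : ℝ) < Real.log 2 := by linarith [Real.log_two_gt_d9]
  calc rs (pr1 (2 ^ j) (2 ^ (j + 1))) ≤ (C * 2 ^ j / Real.log (2 ^ j)) * (1 / 2 ^ j) := by
        refine h1.trans (mul_le_mul_of_nonneg_right hcard (by positivity))
    _ = C / (j * Real.log 2) := by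
        rw [hl]; field_simp
    _ ≤ 2 * C / j := by
        rw [div_le_div_iff₀ (by positivity) hj0]
        nlinarith [mul_pos hj0 (show (0:ℝ) < C by linarith)]

/-- the harmonic sum -/
theorem mer_harm (a b : ℕ) (ha : 1 ≤ a) (hab : a ≤ b) :
    ∑ j ∈ Finset.Icc a b, (1 : ℝ) / j ≤ 1 + Real.log ((b : ℝ) / a) := by
  induction b, hab using Nat.le_induction with
  | base =>
    have ha0 : (a : ℝ) ≠ 0 := by positivity
    rw [Finset.Icc_self, Finset.sum_singleton, div_self ha0, Real.log_one, add_zero]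
    rw [div_le_one (by positivity)]
    exact_mod_cast ha
  | succ b hab ih =>
    rw [Finset.sum_Icc_succ_top (by omega)]
    have ha0 : (0 : ℝ) < a := by exact_mod_cast ha
    have hb0 : (0 : ℝ) < b := by exact_mod_cast (lt_of_lt_of_le ha hab)
    have h1 : Real.log (((b + 1 : ℕ) : ℝ) / a) = Real.log ((b : ℝ) / a) +
        Real.log (((b + 1 : ℕ) : ℝ) / b) := by
      rw [← Real.log_mul (by positivity) (by positivity)]
      congr 1
      field_simp
    have h2 : (1 : ℝ) / ((b + 1 : ℕ) : ℝ) ≤ Real.log (((b + 1 : ℕ) : ℝ) / b) := by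
      have h3 := Real.one_sub_inv_le_log_of_pos (x := ((b + 1 : ℕ) : ℝ) / b) (by positivity)
      refine le_trans (le_of_eq ?_) h3
      push_cast
      field_simp
      ring
    linarith

theorem mer_log_le (a b : ℕ) (hab : a ≤ b) :
    Real.log (((b : ℝ) + 1) / (a + 1)) ≤ ∑ j ∈ Finset.Ico a b, (1 : ℝ) / (j + 1) := by
  induction b, hab using Nat.le_induction with
  | base =>
    have ha0 : (a : ℝ) + 1 ≠ 0 := by positivity
    rw [Finset.Ico_self, Finset.sum_empty, div_self ha0, Real.log_one]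
  | succ b hab ih =>
    rw [Finset.sum_Ico_succ_top hab]
    have h1 : Real.log ((((b + 1 : ℕ) : ℝ) + 1) / (a + 1)) = Real.log (((b : ℝ) + 1) / (a + 1)) +
        Real.log ((((b + 1 : ℕ) : ℝ) + 1) / (b + 1)) := by
      rw [← Real.log_mul (by positivity) (by positivity)]
      congr 1
      field_simp
    have h2 : Real.log ((((b + 1 : ℕ) : ℝ) + 1) / (b + 1)) ≤ (1 : ℝ) / (b + 1) := by
      have h3 := Real.log_le_sub_one_of_pos (x := (((b + 1 : ℕ) : ℝ) + 1) / (b + 1)) (by positivity)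
      refine h3.trans (le_of_eq ?_)
      push_cast
      field_simp
      ring
    linarith

theorem mer_upper_pr : ∃ C : ℝ, 1 ≤ C ∧ ∀ P Q : ℝ, 2 ≤ P → P ≤ Q →
    rs (pr1 P Q) ≤ C * (1 + Real.log (Real.log Q / Real.log P)) := by
  obtain ⟨C, hC, h⟩ := mer_dy_upper
  refine ⟨3 * C, by linarith, fun P Q hP hPQ => ?_⟩
  have hl2 : 0 < Real.log 2 := Real.log_pos (by norm_num)
  have hlP : Real.log 2 ≤ Real.log P := Real.log_le_log (by norm_num) hP
  have hlQ : Real.log P ≤ Real.log Q := Real.log_le_log (by linarith) hPQ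
  set a := ⌊Real.log P / Real.log 2⌋₊ with ha
  set b := ⌊Real.log Q / Real.log 2⌋₊ with hb
  have ha1 : 1 ≤ a := by
    apply Nat.le_floor
    rw [Nat.cast_one, one_le_div hl2]
    exact hlP
  have hab : a ≤ b := Nat.floor_le_floor (by gcongr)
  have hsub : pr1 P Q ⊆ (Finset.Icc a b).biUnion (fun j => pr1 (2 ^ j) (2 ^ (j + 1))) := by
    classical
    intro p hp
    rw [mer_mem] at hp
    rw [Finset.mem_biUnion]
    obtain ⟨hpp, h4, hPp, hpQ⟩ := hp
    have hp2 : 2 ≤ p := hpp.two_le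
    have hodd : p ≠ 2 := by omega
    -- j with 2^j < p ≤ 2^(j+1)
    obtain ⟨j, hj⟩ : ∃ j : ℕ, 2 ^ j < p ∧ p ≤ 2 ^ (j + 1) := by
      refine ⟨Nat.log 2 (p - 1), ?_, ?_⟩
      · have := Nat.pow_log_le_self 2 (x := p - 1) (by omega)
        omega
      · have := Nat.lt_pow_succ_log_self (b := 2) (by norm_num) (p - 1)
        omega
    have hj1 : ((2 : ℝ) ^ j) < p := by exact_mod_cast hj.1
    have hj2 : (p : ℝ) ≤ 2 ^ (j + 1) := by exact_mod_cast hj.2
    refine ⟨j, ?_, ?_⟩
    · rw [Finset.mem_Icc]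
      constructor
      · -- a ≤ j : P < p ≤ 2^(j+1) so log P / log 2 < j+1
        have h1 : Real.log P < (j + 1 : ℕ) * Real.log 2 := by
          rw [← Real.log_pow]
          exact Real.log_lt_log (by linarith) (by linarith)
        have h2 : Real.log P / Real.log 2 < (j + 1 : ℕ) := by
          rw [div_lt_iff₀ hl2]; exact h1
        have h3 : a < j + 1 := (Nat.floor_lt (div_nonneg (by linarith) hl2.le)).2 h2
        omega
      · have h1 : (j : ℕ) * Real.log 2 ≤ Real.log Q := by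
          rw [← Real.log_pow]
          exact Real.log_le_log (by positivity) (by linarith)
        apply Nat.le_floor
        rw [le_div_iff₀ hl2]
        exact h1
    · rw [mer_mem]
      exact ⟨hpp, h4, hj1, hj2⟩
  have h1 : rs (pr1 P Q) ≤ ∑ j ∈ Finset.Icc a b, rs (pr1 (2 ^ j) (2 ^ (j + 1))) := by
    classical
    unfold rs
    refine (Finset.sum_le_sum_of_subset_of_nonneg hsub (fun p _ _ => by positivity)).trans ?_
    rw [Finset.sum_biUnion]
    intro i _ j _ hij
    exact mer_disj hij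
  have h2 : ∑ j ∈ Finset.Icc a b, rs (pr1 (2 ^ j) (2 ^ (j + 1))) ≤
      ∑ j ∈ Finset.Icc a b, C * ((1 : ℝ) / j) := by
    apply Finset.sum_le_sum
    intro j hj
    rw [Finset.mem_Icc] at hj
    refine (h j (by omega)).trans (le_of_eq (by ring))
  rw [← Finset.mul_sum] at h2
  have h3 := mer_harm a b ha1 hab
  have ha0 : (1 : ℝ) ≤ a := by exact_mod_cast ha1
  have hblt : (b : ℝ) ≤ Real.log Q / Real.log 2 := Nat.floor_le (div_nonneg (by linarith) hl2.le)
  have hagt : Real.log P / Real.log 2 < (a : ℝ) + 1 := Nat.lt_floor_add_one _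
  have hb0 : (0 : ℝ) < b := by
    have : (a : ℝ) ≤ b := by exact_mod_cast hab
    linarith
  have h4 : (b : ℝ) / a ≤ 2 * (Real.log Q / Real.log P) := by
    have h5 : Real.log P / Real.log 2 ≤ 2 * (a : ℝ) := by linarith
    rw [div_le_iff₀ (by linarith)]
    have hP0 : 0 < Real.log P := by linarith
    rw [div_le_iff₀ hl2] at h5
    calc (b : ℝ) ≤ Real.log Q / Real.log 2 := hblt
      _ ≤ 2 * (Real.log Q / Real.log P) * a := by
        rw [div_le_iff₀ hl2]
        calc Real.log Q = (Real.log Q / Real.log P) * Real.log P := by field_simp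
          _ ≤ (Real.log Q / Real.log P) * (2 * a * Real.log 2) :=
            mul_le_mul_of_nonneg_left h5 (div_nonneg (by linarith) hP0.le)
          _ = _ := by ring
  have hP0 : 0 < Real.log P := by linarith
  have hratio : 1 ≤ Real.log Q / Real.log P := by rw [one_le_div hP0]; exact hlQ
  have h6 : Real.log ((b : ℝ) / a) ≤ 1 + Real.log (Real.log Q / Real.log P) := by
    calc Real.log ((b : ℝ) / a) ≤ Real.log (2 * (Real.log Q / Real.log P)) :=
          Real.log_le_log (by positivity) h4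
      _ = Real.log 2 + Real.log (Real.log Q / Real.log P) :=
          Real.log_mul (by norm_num) (by linarith)
      _ ≤ _ := by linarith [Real.log_two_lt_d9]
  have h7 : 0 ≤ Real.log (Real.log Q / Real.log P) := Real.log_nonneg hratio
  calc rs (pr1 P Q) ≤ C * ∑ j ∈ Finset.Icc a b, (1 : ℝ) / j := h1.trans h2
    _ ≤ C * (2 + Real.log (Real.log Q / Real.log P)) :=
        mul_le_mul_of_nonneg_left (by linarith) (by linarith)
    _ ≤ 3 * C * (1 + Real.log (Real.log Q / Real.log P)) := by nlinarith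

/-- the sum of the logarithms over the primes `1 mod 4` in `(t, 2t]` -/
theorem mer_theta : ∃ T₀ : ℝ, ∀ t : ℝ, T₀ ≤ t →
    0.45 * t ≤ ∑ p ∈ pr1 t (2 * t), Real.log p := by
  classical
  have h := Pool.Agent.Lib_helper90.PNT.pnt_residueClass (q := 4) (a := 1) isUnit_one
  have htot : ((Nat.totient 4 : ℕ) : ℝ)⁻¹ = 1 / 2 := by
    have : Nat.totient 4 = 2 := by decide
    rw [this]; norm_num
  rw [htot] at h
  set R : ℕ → ℝ := ArithmeticFunction.vonMangoldt.residueClass (1 : ZMod 4) with hR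
  set A : ℝ → ℝ := fun x => ∑ k ∈ Finset.Icc 1 ⌊x⌋₊, R k with hA
  obtain ⟨C, hC⟩ := Chebyshev.psi_sub_theta_le_mul_sqrt
  -- eventually A x / x within 0.01 of 1/2
  have h1 : ∀ᶠ x : ℝ in atTop, 0.49 * x ≤ A x ∧ A x ≤ 0.51 * x := by
    have h2 := h.eventually (Ioo_mem_nhds (show (0.49 : ℝ) < 1 / 2 by norm_num)
      (show (1 / 2 : ℝ) < 0.51 by norm_num))
    filter_upwards [h2, eventually_gt_atTop 0] with x hx hx0
    rw [lt_div_iff₀ hx0, div_lt_iff₀ hx0] at hx
    exact ⟨hx.1.le, hx.2.le⟩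
  obtain ⟨T₁, hT₁⟩ := eventually_atTop.1 h1
  -- the key inequality
  have key : ∀ t : ℝ, 1 ≤ t → A (2 * t) - A t ≤
      ∑ p ∈ pr1 t (2 * t), Real.log p + C * Real.sqrt (2 * t) := by
    intro t ht
    have hfl : ⌊t⌋₊ ≤ ⌊2 * t⌋₊ := Nat.floor_le_floor (by linarith)
    have hsplit : A (2 * t) - A t = ∑ k ∈ Finset.Ioc ⌊t⌋₊ ⌊2 * t⌋₊, R k := by
      simp only [hA]
      rw [sub_eq_iff_eq_add, ← Finset.sum_union]
      · apply Finset.sum_congr _ (fun _ _ => rfl)
        ext k
        simp only [Finset.mem_union, Finset.mem_Ioc, Finset.mem_Icc]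
        omega
      · rw [Finset.disjoint_left]
        intro k
        simp only [Finset.mem_Ioc, Finset.mem_Icc]
        omega
    rw [hsplit, ← Finset.sum_filter_add_sum_filter_not _ (fun k : ℕ => k.Prime)]
    have hp1 : ∑ k ∈ (Finset.Ioc ⌊t⌋₊ ⌊2 * t⌋₊).filter (fun k : ℕ => k.Prime), R k ≤
        ∑ p ∈ pr1 t (2 * t), Real.log p := by
      have hsub : pr1 t (2 * t) ⊆ (Finset.Ioc ⌊t⌋₊ ⌊2 * t⌋₊).filter (fun k : ℕ => k.Prime) := by
        intro p hp
        rw [mer_mem] at hp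
        rw [Finset.mem_filter, Finset.mem_Ioc]
        exact ⟨⟨(Nat.floor_lt (by linarith)).2 hp.2.2.1, Nat.le_floor hp.2.2.2⟩, hp.1⟩
      rw [← Finset.sum_subset hsub]
      · apply Finset.sum_le_sum
        intro p hp
        rw [mer_mem] at hp
        refine (ArithmeticFunction.vonMangoldt.residueClass_le _ _).trans (le_of_eq ?_)
        exact ArithmeticFunction.vonMangoldt_apply_prime hp.1
      · intro p hp hnp
        rw [Finset.mem_filter, Finset.mem_Ioc] at hp
        rw [mer_mem] at hnp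
        have h4 : p % 4 ≠ 1 := by
          intro h4
          apply hnp
          refine ⟨hp.2, h4, ?_, ?_⟩
          · exact (Nat.floor_lt (by linarith)).1 hp.1.1
          · exact (Nat.le_floor_iff (by linarith)).1 hp.1.2
        rw [hR]
        unfold ArithmeticFunction.vonMangoldt.residueClass
        rw [Set.indicator_of_notMem]
        intro hmem
        apply h4
        rw [Set.mem_ofPred_eq] at hmem
        have h5 : ((p : ℕ) : ZMod 4) = ((1 : ℕ) : ZMod 4) := by rw [hmem]; simp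
        rw [ZMod.natCast_eq_natCast_iff] at h5
        exact h5
    have hp2 : ∑ k ∈ (Finset.Ioc ⌊t⌋₊ ⌊2 * t⌋₊).filter (fun k : ℕ => ¬ k.Prime), R k ≤
        C * Real.sqrt (2 * t) := by
      refine le_trans ?_ (hC (2 * t))
      rw [Chebyshev.psi_sub_theta_eq_sum_not_prime]
      refine le_trans (Finset.sum_le_sum (fun k _ =>
        ArithmeticFunction.vonMangoldt.residueClass_le (1 : ZMod 4) k)) ?_
      apply Finset.sum_le_sum_of_subset_of_nonneg
      · intro k hk
        simp only [Finset.mem_filter, Finset.mem_Ioc] at hk ⊢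
        exact ⟨⟨by omega, hk.1.2⟩, hk.2⟩
      · intro k _ _
        exact ArithmeticFunction.vonMangoldt_nonneg
    linarith
  -- square root is small
  have h3 : ∀ᶠ t : ℝ in atTop, C * Real.sqrt (2 * t) ≤ 0.02 * t := by
    have h4 : ∀ᶠ t : ℝ in atTop, (100 * (|C| + 1)) ^ 2 ≤ t := eventually_ge_atTop _
    filter_upwards [h4, eventually_ge_atTop 1] with t ht ht1
    have h5 : Real.sqrt (2 * t) ≤ 2 * Real.sqrt t := by
      rw [Real.sqrt_mul (by norm_num)]
      have : Real.sqrt 2 ≤ 2 := by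
        rw [Real.sqrt_le_left (by norm_num)]; norm_num
      exact mul_le_mul_of_nonneg_right this (Real.sqrt_nonneg _)
    have h6 : 100 * (|C| + 1) ≤ Real.sqrt t := by
      apply Real.le_sqrt_of_sq_le ht
    have h7 : Real.sqrt t * Real.sqrt t = t := Real.mul_self_sqrt (by linarith)
    have h8 : 0 ≤ Real.sqrt t := Real.sqrt_nonneg _
    have h9 : C ≤ |C| := le_abs_self C
    have h10 : 0 ≤ |C| := abs_nonneg C
    calc C * Real.sqrt (2 * t) ≤ |C| * (2 * Real.sqrt t) :=
          mul_le_mul h9 h5 (Real.sqrt_nonneg _) h10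
      _ ≤ 0.02 * (Real.sqrt t * Real.sqrt t) := by nlinarith
      _ = 0.02 * t := by rw [h7]
  obtain ⟨T₂, hT₂⟩ := eventually_atTop.1 h3
  refine ⟨max (max T₁ T₂) 1, fun t ht => ?_⟩
  have ht1 : T₁ ≤ t := le_trans (le_trans (le_max_left _ _) (le_max_left _ _)) ht
  have ht2 : T₂ ≤ t := le_trans (le_trans (le_max_right _ _) (le_max_left _ _)) ht
  have ht3 : 1 ≤ t := le_trans (le_max_right _ _) ht
  have e1 := hT₁ t ht1
  have e2 := hT₁ (2 * t) (by linarith)
  have e3 := hT₂ t ht2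
  have e4 := key t ht3
  have e5 : 0.45 * t ≤ 0.49 * (2 * t) - 0.51 * t - 0.02 * t := by linarith
  linarith [e1.2, e2.1]

/-- the reciprocal sum over a dyadic block, lower bound -/
theorem mer_dy_lower : ∃ j₀ : ℕ, ∀ j : ℕ, j₀ ≤ j →
    (1 / 4) * (1 / ((j : ℝ) + 1)) ≤ rs (pr1 (2 ^ j) (2 ^ (j + 1))) := by
  obtain ⟨T₀, hT⟩ := mer_theta
  obtain ⟨j₀, hj₀⟩ := pow_unbounded_of_one_lt T₀ (show (1 : ℝ) < 2 by norm_num)
  refine ⟨j₀, fun j hj => ?_⟩
  have hp0 : (0 : ℝ) < 2 ^ j := by positivity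
  have h1 := hT (2 ^ j) (hj₀.le.trans (pow_le_pow_right₀ (by norm_num) hj))
  have e : (2 : ℝ) * 2 ^ j = 2 ^ (j + 1) := by rw [pow_succ]; ring
  rw [e] at h1
  have hl2 : 0 < Real.log 2 := Real.log_pos (by norm_num)
  have hL : 0 < ((j : ℝ) + 1) * Real.log 2 := by positivity
  have h2 : (∑ p ∈ pr1 (2 ^ j) (2 ^ (j + 1)), Real.log p) ≤
      (((j : ℝ) + 1) * Real.log 2 * 2 ^ (j + 1)) * rs (pr1 (2 ^ j) (2 ^ (j + 1))) := by
    unfold rs
    rw [Finset.mul_sum]
    apply Finset.sum_le_sum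
    intro p hp
    rw [mer_mem] at hp
    have hp1 : (0 : ℝ) < p := by linarith [hp.2.2.1]
    have hlp : Real.log p ≤ ((j : ℝ) + 1) * Real.log 2 := by
      have := Real.log_le_log hp1 hp.2.2.2
      rw [Real.log_pow] at this
      push_cast at this
      exact this
    rw [mul_one_div, le_div_iff₀ hp1]
    exact mul_le_mul hlp hp.2.2.2 hp1.le hL.le
  have h3 : 0.45 * 2 ^ j ≤ (((j : ℝ) + 1) * Real.log 2 * 2 ^ (j + 1)) *
      rs (pr1 (2 ^ j) (2 ^ (j + 1))) := h1.trans h2
  have h4 : (0.225 : ℝ) ≤ ((j : ℝ) + 1) * Real.log 2 * rs (pr1 (2 ^ j) (2 ^ (j + 1))) := by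
    have h5 : (((j : ℝ) + 1) * Real.log 2 * 2 ^ (j + 1)) * rs (pr1 (2 ^ j) (2 ^ (j + 1))) =
        (2 * (((j : ℝ) + 1) * Real.log 2 * rs (pr1 (2 ^ j) (2 ^ (j + 1))))) * 2 ^ j := by
      rw [pow_succ]; ring
    rw [h5] at h3
    have := le_of_mul_le_mul_right h3 hp0
    linarith
  have h6 : Real.log 2 < 0.6931471808 := Real.log_two_lt_d9
  have hrs : 0 ≤ rs (pr1 (2 ^ j) (2 ^ (j + 1))) := Finset.sum_nonneg (fun p _ => by positivity)
  have hj1 : 0 < (j : ℝ) + 1 := by positivity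
  rw [mul_one_div, div_le_iff₀ hj1]
  have h7 : ((j : ℝ) + 1) * Real.log 2 * rs (pr1 (2 ^ j) (2 ^ (j + 1))) ≤
      0.6931471808 * (rs (pr1 (2 ^ j) (2 ^ (j + 1))) * ((j : ℝ) + 1)) := by
    have : 0 ≤ rs (pr1 (2 ^ j) (2 ^ (j + 1))) * ((j : ℝ) + 1) := mul_nonneg hrs hj1.le
    nlinarith
  linarith

theorem mer_lower_pr : ∃ C : ℝ, 1 ≤ C ∧ ∀ P Q : ℝ, 2 ≤ P → P ≤ Q →
    (1 / 4) * Real.log (Real.log Q / Real.log P) - C ≤ rs (pr1 P Q) := by
  classical
  obtain ⟨j₀, hj₀⟩ := mer_dy_lower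
  refine ⟨j₀ + 2, by have : (0 : ℝ) ≤ j₀ := Nat.cast_nonneg _
                     linarith, fun P Q hP hPQ => ?_⟩
  have hl2 : 0 < Real.log 2 := Real.log_pos (by norm_num)
  have hlP : Real.log 2 ≤ Real.log P := Real.log_le_log (by norm_num) hP
  have hlQ : Real.log P ≤ Real.log Q := Real.log_le_log (by linarith) hPQ
  have hP0 : 0 < Real.log P := by linarith
  have hQ0 : 0 < Real.log Q := by linarith
  have hrs : 0 ≤ rs (pr1 P Q) := Finset.sum_nonneg (fun p _ => by positivity)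
  have hj0' : (0 : ℝ) ≤ j₀ := Nat.cast_nonneg _
  set a := ⌈Real.log P / Real.log 2⌉₊ with ha
  set b := ⌊Real.log Q / Real.log 2⌋₊ with hb
  have haP : Real.log P / Real.log 2 ≤ a := Nat.le_ceil _
  have haP' : (a : ℝ) < Real.log P / Real.log 2 + 1 := Nat.ceil_lt_add_one (by positivity)
  have hbQ : (b : ℝ) ≤ Real.log Q / Real.log 2 := Nat.floor_le (by positivity)
  have hbQ' : Real.log Q / Real.log 2 < (b : ℝ) + 1 := Nat.lt_floor_add_one _
  -- the ratio
  have hr : Real.log (Real.log Q / Real.log P) ≤ Real.log (((b : ℝ) + 1) / (a + 1)) + 2 := by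
    have h1 : (a : ℝ) + 1 ≤ 3 * (Real.log P / Real.log 2) := by
      have : 1 ≤ Real.log P / Real.log 2 := by rw [one_le_div hl2]; exact hlP
      linarith
    have h2 : Real.log Q / Real.log P ≤ 3 * (((b : ℝ) + 1) / (a + 1)) := by
      rw [div_le_iff₀ hP0]
      rw [mul_comm 3, mul_assoc, div_mul_eq_mul_div, le_div_iff₀ (by positivity)]
      have e1 : Real.log Q ≤ ((b : ℝ) + 1) * Real.log 2 := by
        rw [div_lt_iff₀ hl2] at hbQ'; exact hbQ'.le
      have e2 : ((a : ℝ) + 1) * Real.log 2 ≤ 3 * Real.log P := by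
        have := mul_le_mul_of_nonneg_right h1 hl2.le
        rw [mul_assoc, div_mul_cancel₀ _ hl2.ne'] at this
        exact this
      calc Real.log Q * ((a : ℝ) + 1) ≤ (((b : ℝ) + 1) * Real.log 2) * ((a : ℝ) + 1) :=
            mul_le_mul_of_nonneg_right e1 (by positivity)
        _ = ((b : ℝ) + 1) * (((a : ℝ) + 1) * Real.log 2) := by ring
        _ ≤ ((b : ℝ) + 1) * (3 * Real.log P) := mul_le_mul_of_nonneg_left e2 (by positivity)
    have h3 : Real.log 3 ≤ 2 := by
      have := Real.log_le_sub_one_of_pos (show (0 : ℝ) < 3 by norm_num)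
      linarith
    calc Real.log (Real.log Q / Real.log P) ≤ Real.log (3 * (((b : ℝ) + 1) / (a + 1))) :=
          Real.log_le_log (by positivity) h2
      _ = Real.log 3 + Real.log (((b : ℝ) + 1) / (a + 1)) :=
          Real.log_mul (by norm_num) (by positivity)
      _ ≤ _ := by linarith
  rcases le_or_gt a b with hab | hab
  · have h1 := mer_log_le a b hab
    have hsub : (Finset.Ico a b).biUnion (fun j => pr1 (2 ^ j) (2 ^ (j + 1))) ⊆ pr1 P Q := by
      intro p hp
      rw [Finset.mem_biUnion] at hp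
      obtain ⟨j, hj, hp⟩ := hp
      rw [Finset.mem_Ico] at hj
      rw [mer_mem] at hp ⊢
      refine ⟨hp.1, hp.2.1, ?_, ?_⟩
      · refine lt_of_le_of_lt ?_ hp.2.2.1
        rw [← Real.log_le_log_iff (by linarith) (by positivity), Real.log_pow]
        rw [div_le_iff₀ hl2] at haP
        refine haP.trans (mul_le_mul_of_nonneg_right ?_ hl2.le)
        exact_mod_cast hj.1
      · refine hp.2.2.2.trans ?_
        rw [← Real.log_le_log_iff (by positivity) (by linarith), Real.log_pow]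
        rw [le_div_iff₀ hl2] at hbQ
        refine le_trans (mul_le_mul_of_nonneg_right ?_ hl2.le) hbQ
        exact_mod_cast hj.2
    have h2 : ∑ j ∈ Finset.Ico a b, rs (pr1 (2 ^ j) (2 ^ (j + 1))) ≤ rs (pr1 P Q) := by
      unfold rs
      refine le_trans (le_of_eq ?_) (Finset.sum_le_sum_of_subset_of_nonneg hsub
        (fun p _ _ => by positivity))
      rw [Finset.sum_biUnion]
      intro i _ j _ hij
      exact mer_disj hij
    have h3 : ∑ j ∈ Finset.Ico a b, ((1 / 4) * ((1 : ℝ) / ((j : ℝ) + 1)) -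
        (if j < j₀ then (1 : ℝ) else 0)) ≤ ∑ j ∈ Finset.Ico a b, rs (pr1 (2 ^ j) (2 ^ (j + 1))) := by
      apply Finset.sum_le_sum
      intro j _
      by_cases hj : j < j₀
      · rw [if_pos hj]
        have h5 : (0 : ℝ) ≤ rs (pr1 (2 ^ j) (2 ^ (j + 1))) :=
          Finset.sum_nonneg (fun p _ => by positivity)
        have h6 : (1 : ℝ) / ((j : ℝ) + 1) ≤ 1 := by
          rw [div_le_one (by positivity)]
          have : (0 : ℝ) ≤ j := Nat.cast_nonneg _
          linarith
        linarith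
      · rw [if_neg hj, sub_zero]
        exact hj₀ j (not_lt.1 hj)
    rw [Finset.sum_sub_distrib, ← Finset.mul_sum] at h3
    have h4 : ∑ j ∈ Finset.Ico a b, (if j < j₀ then (1 : ℝ) else 0) ≤ j₀ := by
      rw [← Finset.sum_filter, Finset.sum_const, nsmul_eq_mul, mul_one]
      have : ((Finset.Ico a b).filter (fun j => j < j₀)).card ≤ (Finset.range j₀).card := by
        apply Finset.card_le_card
        intro j hj
        rw [Finset.mem_filter] at hj
        exact Finset.mem_range.2 hj.2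
      rw [Finset.card_range] at this
      exact_mod_cast this
    linarith
  · have h1 : Real.log (((b : ℝ) + 1) / (a + 1)) ≤ 0 := by
      apply Real.log_nonpos (by positivity)
      rw [div_le_one (by positivity)]
      have : (b : ℝ) < a := by exact_mod_cast hab
      linarith
    linarith

end Pool.Agent.T2


namespace Pool.Agent.T2

theorem mer_lower : type_of% @mer_lower_pr := @mer_lower_pr
theorem mer_upper : type_of% @mer_upper_pr := @mer_upper_pr
theorem block_le : type_of% @block_le_pr := @block_le_pr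

end Pool.Agent.T2
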