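import Pool.Agent.Lib_helper10.T2.Defs
import Pool.Agent.Lib_helper68.SEL.K7A
import Pool.Agent.Lib_helper10.T2F.BAS

/-! T2, block CNT: lattice points in a disc -/

namespace Pool.Agent.T2

open Filter Topology MeasureTheory

theorem cnt_dvd (m : ℕ) (w : G) : (m : G) ∣ w ↔ (m : ℤ) ∣ w.re ∧ (m : ℤ) ∣ w.im := by
  have h : ((m : ℕ) : G) = ((m : ℤ) : G) := by push_cast; rfl
  rw [h]
  exact Zsqrtd.intCast_dvd _ _

theorem cnt_norm (z : G) : ‖(z.im : ℂ) * Complex.I + (z.re : ℂ)‖ ^ 2 = (nn z : ℝ) := by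
  rw [← Complex.normSq_eq_norm_sq, Complex.normSq_apply]
  have h := nn_cast z
  have h2 : (nn z : ℝ) = (z.re : ℝ) ^ 2 + (z.im : ℝ) ^ 2 := by exact_mod_cast h
  rw [h2]
  simp
  ring

open Classical in
theorem class_count_pr (m : ℕ) (hm : 1 ≤ m) : ∃ C : ℝ, 1 ≤ C ∧ ∀ (c : G) (x : ℝ), 1 ≤ x →
    |(((Bl x).filter (fun z => (m : G) ∣ z - c)).card : ℝ) - Real.pi * x / (m : ℝ) ^ 2| ≤
      C * Real.sqrt x := by
  obtain ⟨C, hC, h⟩ := Pool.Agent.SEL.lattice_all_pr
  refine ⟨2 * C + 1, by linarith, fun c x hx => ?_⟩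
  have hx0 : 0 ≤ x := by linarith
  set S₀ : Finset G := (insert 0 (Bl x)).filter (fun z => (m : G) ∣ z - c) with hS₀
  set T : Finset G := (Bl x).filter (fun z => (m : G) ∣ z - c) with hT
  have hinj : Function.Injective (fun z : G => ((z.im, z.re) : ℤ × ℤ)) := by
    intro a b hab
    simp only [Prod.mk.injEq] at hab
    exact Zsqrtd.ext hab.2 hab.1
  have hmem : ∀ z : G, z ∈ insert 0 (Bl x) ↔ (nn z : ℝ) ≤ x := by
    intro z
    rw [Finset.mem_insert, mem_Bl]
    constructor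
    · rintro (h0 | h0)
      · rw [h0]
        have : nn (0 : G) = 0 := by simp [nn]
        rw [this]
        simpa using hx0
      · exact h0.2
    · intro h1
      by_cases h0 : z = 0
      · exact Or.inl h0
      · exact Or.inr ⟨h0, h1⟩
  have hnorm : ∀ v : ℤ × ℤ, ‖(v.1 : ℂ) * Complex.I + (v.2 : ℂ)‖ ≤ Real.sqrt x ↔
      (nn (⟨v.2, v.1⟩ : G) : ℝ) ≤ x := by
    intro v
    rw [← cnt_norm ⟨v.2, v.1⟩, Real.le_sqrt (norm_nonneg _)]
    exact hx0
  have hS := h m (by omega) c.im c.re Complex.I (by norm_num) (Real.sqrt x) (Real.sqrt_nonneg _)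
    (S₀.image (fun z : G => ((z.im, z.re) : ℤ × ℤ))) (by
      intro v
      rw [Finset.mem_image, hnorm]
      constructor
      · rintro ⟨z, hz, rfl⟩
        rw [hS₀, Finset.mem_filter, hmem, cnt_dvd] at hz
        exact ⟨by simpa using hz.2.2, by simpa using hz.2.1, hz.1⟩
      · rintro ⟨h1, h2, h3⟩
        refine ⟨⟨v.2, v.1⟩, ?_, rfl⟩
        rw [hS₀, Finset.mem_filter, hmem, cnt_dvd]
        exact ⟨h3, by simpa using h2, by simpa using h1⟩)
  rw [Finset.card_image_of_injective _ hinj, Complex.I_im, mul_one, Real.sq_sqrt hx0] at hS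
  have hTS : T.card ≤ S₀.card := by
    apply Finset.card_le_card
    intro z hz
    rw [hT, Finset.mem_filter] at hz
    rw [hS₀, Finset.mem_filter]
    exact ⟨Finset.mem_insert_of_mem hz.1, hz.2⟩
  have hST : S₀.card ≤ T.card + 1 := by
    calc S₀.card ≤ (insert 0 T).card := by
          apply Finset.card_le_card
          intro z hz
          rw [hS₀, Finset.mem_filter, Finset.mem_insert] at hz
          rw [Finset.mem_insert, hT, Finset.mem_filter]
          rcases hz.1 with h0 | h0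
          · exact Or.inl h0
          · exact Or.inr ⟨h0, hz.2⟩
      _ ≤ T.card + 1 := Finset.card_insert_le _ _
  have h1 : (T.card : ℝ) ≤ S₀.card := by exact_mod_cast hTS
  have h2 : (S₀.card : ℝ) ≤ T.card + 1 := by exact_mod_cast hST
  have h3 : 1 ≤ Real.sqrt x := by
    rw [Real.one_le_sqrt]
    exact hx
  rw [abs_le] at hS ⊢
  have h4 : C * (Real.sqrt x + 1) ≤ 2 * C * Real.sqrt x := by nlinarith
  constructor
  · linarith [hS.1]
  · linarith [hS.2]

theorem ball_count_pr : ∃ C : ℝ, 1 ≤ C ∧ ∀ x : ℝ, 1 ≤ x →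
    |((Bl x).card : ℝ) - Real.pi * x| ≤ C * Real.sqrt x := by
  classical
  obtain ⟨C, hC, h⟩ := class_count_pr 1 le_rfl
  refine ⟨C, hC, fun x hx => ?_⟩
  have h1 := h 0 x hx
  rw [Finset.filter_true_of_mem (fun z _ => by simp)] at h1
  simpa using h1

theorem ball_le_pr : ∃ C : ℝ, 1 ≤ C ∧ ∀ x : ℝ, 0 ≤ x → ((Bl x).card : ℝ) ≤ C * x := by
  obtain ⟨C, hC, h⟩ := ball_count_pr
  refine ⟨C + 4, by linarith, fun x hx => ?_⟩
  by_cases h1 : 1 ≤ x
  · have h2 := (abs_le.mp (h x h1)).2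
    have h3 : Real.sqrt x ≤ x := by
      rw [Real.sqrt_le_left hx]
      nlinarith
    have h4 := Real.pi_lt_four
    nlinarith
  · have : Bl x = ∅ := by
      rw [Finset.eq_empty_iff_forall_notMem]
      intro z hz
      rw [mem_Bl] at hz
      have h2 : 1 ≤ nn z := nn_pos.mpr hz.1
      have h3 : (1 : ℝ) ≤ nn z := by exact_mod_cast h2
      linarith [hz.2]
    rw [this]
    simp
    positivity

end Pool.Agent.T2


namespace Pool.Agent.T2

theorem class_count : type_of% @class_count_pr := @class_count_pr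
theorem ball_count : type_of% @ball_count_pr := @ball_count_pr
theorem ball_le : type_of% @ball_le_pr := @ball_le_pr

end Pool.Agent.T2
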