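import Pool.Agent.Lib_helper10.T2.Defs
import Pool.Agent.Lib_helper10.T2F.BAS
import Pool.Agent.Lib_helper10.T2F.CNT
import Pool.Agent.Lib_helper10.T2F.LSG

/-! T2, block TJA: the first level -/

namespace Pool.Agent.T2

open Filter Topology MeasureTheory

theorem tja_chi_le {m : G} (χ : MChar m) (z : G) : ‖χ.f z‖ ≤ 1 := by
  by_cases h : IsCoprime z m
  · exact (χ.nrm z h).le
  · rw [χ.zero z h]; simp

theorem tja_Sm : ∃ C : ℝ, 1 ≤ C ∧ ∀ (m : G) (χ : MChar m) (K x : ℝ), 0 ≤ K → K ≤ x → 1 ≤ x →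
    ∑ k ∈ Ks K, ‖Sm χ k x‖ ^ 2 ≤ C * x ^ 2 := by
  obtain ⟨C₁, hC₁, h₁⟩ := large_sieve
  obtain ⟨C₂, hC₂, h₂⟩ := ball_le
  refine ⟨2 * C₁ * C₂, by nlinarith, ?_⟩
  intro m χ K x hK hKx hx
  have h := h₁ K x hK hx (fun z => (gl z : ℂ) * χ.f z)
  have e : ∀ k, Sm χ k x = ∑ z ∈ PB x, ((gl z : ℂ) * χ.f z) * ang k z := by
    intro k
    unfold Sm xi
    exact Finset.sum_congr rfl fun z _ => by ring
  simp only [e]
  refine h.trans ?_
  have hc : ∑ z ∈ PB x, ‖(gl z : ℂ) * χ.f z‖ ^ 2 ≤ C₂ * x := by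
    calc ∑ z ∈ PB x, ‖(gl z : ℂ) * χ.f z‖ ^ 2 ≤ ∑ z ∈ PB x, (1 : ℝ) := by
          refine Finset.sum_le_sum fun z _ => ?_
          have h1 : ‖(gl z : ℂ)‖ ≤ 1 := by
            rw [Complex.norm_real]; exact gl_abs z
          have h2 := tja_chi_le χ z
          rw [norm_mul]
          have h3 := mul_le_mul h1 h2 (norm_nonneg _) zero_le_one
          rw [one_mul] at h3
          exact pow_le_one₀ (by positivity) h3
      _ = ((PB x).card : ℝ) := by simp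
      _ ≤ ((Bl x).card : ℝ) := by
          have hsub : PB x ⊆ Bl x := by
            intro z hz
            rw [mem_PB] at hz
            rw [mem_Bl]
            exact ⟨prm_ne hz.1, hz.2⟩
          exact_mod_cast Finset.card_le_card hsub
      _ ≤ C₂ * x := h₂ x (by linarith)
  have h0 : 0 ≤ C₁ * (K + x) := by
    have : 0 ≤ K + x := by linarith
    positivity
  calc C₁ * (K + x) * ∑ z ∈ PB x, ‖(gl z : ℂ) * χ.f z‖ ^ 2 ≤ C₁ * (K + x) * (C₂ * x) :=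
        mul_le_mul_of_nonneg_left hc h0
    _ ≤ C₁ * (x + x) * (C₂ * x) := by
        have h1 : C₁ * (K + x) ≤ C₁ * (x + x) :=
          mul_le_mul_of_nonneg_left (by linarith) (by linarith)
        have h2 : 0 ≤ C₂ * x := by positivity
        exact mul_le_mul_of_nonneg_right h1 h2
    _ = 2 * C₁ * C₂ * x ^ 2 := by ring

/-- the geometric sum -/
theorem tja_geom {ρ α P : ℝ} (hρ : 1 < ρ) (hρ2 : ρ ≤ 2) (hα : 0 < α) (hα1 : α ≤ 1 / 4)
    (hP : 2 ≤ P) (V : ℕ) (S : Finset ℕ) (hS : ∀ v ∈ S, v < V ∧ P / 2 ≤ ρ ^ v) :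
    ∑ v ∈ S, (ρ ^ v : ℝ) ^ (-α) ≤ 8 * (P ^ (-α) / (α * (ρ - 1))) := by
  have hρ0 : (0 : ℝ) < ρ := by linarith
  have hP0 : (0 : ℝ) < P := by linarith
  rcases S.eq_empty_or_nonempty with h0 | hne
  · subst h0
    have h1 : 0 ≤ P ^ (-α) / (α * (ρ - 1)) :=
      div_nonneg (Real.rpow_nonneg hP0.le _) (mul_nonneg hα.le (by linarith))
    simpa using h1
  · set q : ℝ := ρ ^ (-α) with hq
    have hq0 : 0 < q := Real.rpow_pos_of_pos hρ0 _
    have hq1 : q < 1 := Real.rpow_lt_one_of_one_lt_of_neg hρ (by linarith)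
    have hqv : ∀ v : ℕ, (ρ ^ v : ℝ) ^ (-α) = q ^ v := by
      intro v
      rw [hq, ← Real.rpow_natCast, ← Real.rpow_mul hρ0.le, ← Real.rpow_natCast,
        ← Real.rpow_mul hρ0.le, mul_comm]
    set v₀ := S.min' hne with hv₀
    have hv₀S : v₀ ∈ S := S.min'_mem hne
    have hsub : S ⊆ Finset.Ico v₀ V := by
      intro v hv
      rw [Finset.mem_Ico]
      exact ⟨S.min'_le v hv, (hS v hv).1⟩
    -- lower bound for `1 - q`
    have hlog : (ρ - 1) / 2 ≤ Real.log ρ := by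
      have h1 : 1 - ρ⁻¹ ≤ Real.log ρ := Real.one_sub_inv_le_log_of_pos hρ0
      have h2 : 1 - ρ⁻¹ = (ρ - 1) / ρ := by field_simp
      have h3 : (ρ - 1) / 2 ≤ (ρ - 1) / ρ :=
        div_le_div_of_nonneg_left (by linarith) hρ0 hρ2
      linarith
    have hlog0 : 0 < Real.log ρ := Real.log_pos hρ
    have hlog1 : Real.log ρ ≤ 1 := by
      have := Real.log_le_sub_one_of_pos hρ0
      linarith
    have h1q : α * (ρ - 1) / 4 ≤ 1 - q := by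
      have hqe : q = Real.exp (-(α * Real.log ρ)) := by
        rw [hq, Real.rpow_def_of_pos hρ0]; congr 1; ring
      have ht0 : 0 ≤ α * Real.log ρ := by positivity
      have ht1 : α * Real.log ρ ≤ 1 := by nlinarith
      have hexp : Real.exp (-(α * Real.log ρ)) ≤ 1 - α * Real.log ρ / 2 := by
        have h5 : 1 + α * Real.log ρ ≤ Real.exp (α * Real.log ρ) := by
          have := Real.add_one_le_exp (α * Real.log ρ); linarith
        rw [Real.exp_neg]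
        have h6 : (Real.exp (α * Real.log ρ))⁻¹ ≤ (1 + α * Real.log ρ)⁻¹ :=
          inv_anti₀ (by linarith) h5
        have h7 : (1 + α * Real.log ρ)⁻¹ ≤ 1 - α * Real.log ρ / 2 := by
          rw [inv_le_iff_one_le_mul₀ (by linarith)]
          nlinarith
        linarith
      have h8 : α * ((ρ - 1) / 2) ≤ α * Real.log ρ := mul_le_mul_of_nonneg_left hlog hα.le
      rw [hqe]
      linarith
    have hpos : 0 < α * (ρ - 1) / 4 := by
      have : 0 < ρ - 1 := by linarith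
      positivity
    have hqv0 : q ^ v₀ ≤ 2 * P ^ (-α) := by
      rw [← hqv]
      have h1 : (ρ ^ v₀ : ℝ) ^ (-α) ≤ (P / 2) ^ (-α) :=
        Real.rpow_le_rpow_of_nonpos (by linarith) (hS v₀ hv₀S).2 (by linarith)
      have h2 : (P / 2) ^ (-α) = P ^ (-α) * 2 ^ α := by
        rw [Real.div_rpow hP0.le (by norm_num), Real.rpow_neg (by norm_num : (0 : ℝ) ≤ 2),
          div_inv_eq_mul]
      have h3 : (2 : ℝ) ^ α ≤ 2 := by
        calc (2 : ℝ) ^ α ≤ 2 ^ (1 : ℝ) :=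
              Real.rpow_le_rpow_of_exponent_le (by norm_num) (by linarith)
          _ = 2 := by simp
      have h4 : 0 ≤ P ^ (-α) := Real.rpow_nonneg hP0.le _
      calc (ρ ^ v₀ : ℝ) ^ (-α) ≤ P ^ (-α) * 2 ^ α := by rw [← h2]; exact h1
        _ ≤ P ^ (-α) * 2 := mul_le_mul_of_nonneg_left h3 h4
        _ = 2 * P ^ (-α) := by ring
    calc ∑ v ∈ S, (ρ ^ v : ℝ) ^ (-α) = ∑ v ∈ S, q ^ v := Finset.sum_congr rfl fun v _ => hqv v
      _ ≤ ∑ v ∈ Finset.Ico v₀ V, q ^ v :=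
          Finset.sum_le_sum_of_subset_of_nonneg hsub fun v _ _ => by positivity
      _ ≤ q ^ v₀ / (1 - q) := geom_sum_Ico_le_of_lt_one hq0.le hq1
      _ ≤ (2 * P ^ (-α)) / (α * (ρ - 1) / 4) := by
          have h4 : 0 ≤ 2 * P ^ (-α) := by
            have := Real.rpow_nonneg hP0.le (-α)
            positivity
          exact div_le_div₀ h4 hqv0 hpos h1q
      _ = 8 * (P ^ (-α) / (α * (ρ - 1))) := by
          have : ρ - 1 ≠ 0 := by linarith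
          field_simp
          ring

theorem level_one_pr : ∃ C : ℝ, 1 ≤ C ∧ ∀ (m : G) (χ : MChar m) (Y H ρ P Q α : ℝ) (B : Finset ℕ)
    (V : ℕ) (T : Finset ℤ), 1 ≤ Y → 1 < ρ → ρ ≤ 2 → 0 < α → α ≤ 1 / 4 → 2 ≤ P → Q ≤ H → H ≤ Y →
    Pset B → (∀ p ∈ B, P < (p : ℝ) ∧ (p : ℝ) ≤ Q ∧ (p : ℝ) ≤ ρ ^ V) → T ⊆ Ks (Y / H) →
    (∀ k ∈ T, ∀ v < V, ‖Qs χ k (blk ρ v B)‖ ≤ (ρ ^ v) ^ (1 - α)) →
      ∑ k ∈ T, ‖∑ v ∈ Finset.range V, Qs χ k (blk ρ v B) * Sm χ k (Y / ρ ^ v)‖ ^ 2 ≤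
        C * Y ^ 2 * (P ^ (-α) / (α * (ρ - 1))) ^ 2 := by
  classical
  obtain ⟨C₁, hC₁, h₁⟩ := tja_Sm
  refine ⟨64 * C₁, by linarith, ?_⟩
  intro m χ Y H ρ P Q α B V T hY hρ hρ2 hα hα1 hP hQH hHY _hB hBp hT hTk
  have hρ0 : (0 : ℝ) < ρ := by linarith
  set S : Finset ℕ := (Finset.range V).filter (fun v => (blk ρ v B).Nonempty) with hSdef
  -- the facts on nonempty blocks
  have hS : ∀ v ∈ S, v < V ∧ P / 2 ≤ ρ ^ v ∧ 0 < H ∧ (ρ ^ v : ℝ) ≤ H := by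
    intro v hv
    rw [hSdef, Finset.mem_filter, Finset.mem_range] at hv
    obtain ⟨hvV, p, hp⟩ := hv
    unfold blk at hp
    rw [Finset.mem_filter] at hp
    obtain ⟨hpB, hp1, hp2⟩ := hp
    obtain ⟨hpP, hpQ, _⟩ := hBp p hpB
    have h2 : (ρ ^ (v + 1) : ℝ) ≤ 2 * ρ ^ v := by
      rw [pow_succ]
      have : (0 : ℝ) < ρ ^ v := by positivity
      nlinarith
    refine ⟨hvV, by linarith, by linarith, by linarith⟩
  have hSum : ∀ k ∈ T, ‖∑ v ∈ Finset.range V, Qs χ k (blk ρ v B) * Sm χ k (Y / ρ ^ v)‖ ^ 2 ≤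
      (∑ v ∈ S, (ρ ^ v : ℝ) ^ (-α)) *
        ∑ v ∈ S, (ρ ^ v : ℝ) ^ (2 - α) * ‖Sm χ k (Y / ρ ^ v)‖ ^ 2 := by
    intro k hk
    have e1 : ∑ v ∈ Finset.range V, Qs χ k (blk ρ v B) * Sm χ k (Y / ρ ^ v) =
        ∑ v ∈ S, Qs χ k (blk ρ v B) * Sm χ k (Y / ρ ^ v) := by
      rw [hSdef, Finset.sum_filter]
      refine Finset.sum_congr rfl fun v _ => ?_
      split_ifs with h
      · rfl
      · rw [Finset.not_nonempty_iff_eq_empty] at h
        rw [h]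
        simp [Qs]
    rw [e1]
    have e2 : ‖∑ v ∈ S, Qs χ k (blk ρ v B) * Sm χ k (Y / ρ ^ v)‖ ≤
        ∑ v ∈ S, (ρ ^ v : ℝ) ^ (1 - α) * ‖Sm χ k (Y / ρ ^ v)‖ := by
      refine (norm_sum_le _ _).trans (Finset.sum_le_sum fun v hv => ?_)
      rw [norm_mul]
      exact mul_le_mul_of_nonneg_right (hTk k hk v (hS v hv).1) (norm_nonneg _)
    refine (pow_le_pow_left₀ (norm_nonneg _) e2 2).trans ?_
    refine Finset.sum_sq_le_sum_mul_sum_of_sq_le_mul S (fun v _ => by positivity)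
      (fun v _ => by positivity) (fun v _ => le_of_eq ?_)
    have hpv : (0 : ℝ) < ρ ^ v := by positivity
    have e3 : (ρ ^ v : ℝ) ^ (-α) * (ρ ^ v : ℝ) ^ (2 - α) = ((ρ ^ v : ℝ) ^ (1 - α)) ^ 2 := by
      rw [← Real.rpow_add hpv, ← Real.rpow_natCast ((ρ ^ v : ℝ) ^ (1 - α)) 2,
        ← Real.rpow_mul hpv.le]
      congr 1
      push_cast
      ring
    rw [mul_pow, ← e3]
    ring
  set W : ℝ := ∑ v ∈ S, (ρ ^ v : ℝ) ^ (-α) with hW
  have hW0 : 0 ≤ W := Finset.sum_nonneg fun v _ => by positivity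
  have hWle : W ≤ 8 * (P ^ (-α) / (α * (ρ - 1))) :=
    tja_geom hρ hρ2 hα hα1 hP V S fun v hv => ⟨(hS v hv).1, (hS v hv).2.1⟩
  have hv2 : ∀ v ∈ S, (ρ ^ v : ℝ) ^ (2 - α) * ∑ k ∈ T, ‖Sm χ k (Y / ρ ^ v)‖ ^ 2 ≤
      C₁ * Y ^ 2 * (ρ ^ v : ℝ) ^ (-α) := by
    intro v hv
    obtain ⟨_, _, hH0, hvH⟩ := hS v hv
    have hpv : (0 : ℝ) < ρ ^ v := by positivity
    have hY0 : (0 : ℝ) < Y := by linarith
    have h1 : ∑ k ∈ T, ‖Sm χ k (Y / ρ ^ v)‖ ^ 2 ≤ C₁ * (Y / ρ ^ v) ^ 2 := by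
      refine (Finset.sum_le_sum_of_subset_of_nonneg hT fun k _ _ => by positivity).trans ?_
      refine h₁ m χ (Y / H) (Y / ρ ^ v) (by positivity) ?_ ?_
      · exact div_le_div_of_nonneg_left hY0.le hpv hvH
      · rw [le_div_iff₀ hpv]; linarith
    have e3 : (ρ ^ v : ℝ) ^ (2 - α) = (ρ ^ v : ℝ) ^ (-α) * (ρ ^ v) ^ 2 := by
      rw [← Real.rpow_natCast (ρ ^ v) 2, ← Real.rpow_add hpv]
      congr 1
      push_cast
      ring
    calc (ρ ^ v : ℝ) ^ (2 - α) * ∑ k ∈ T, ‖Sm χ k (Y / ρ ^ v)‖ ^ 2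
        ≤ (ρ ^ v : ℝ) ^ (2 - α) * (C₁ * (Y / ρ ^ v) ^ 2) :=
          mul_le_mul_of_nonneg_left h1 (by positivity)
      _ = C₁ * Y ^ 2 * (ρ ^ v : ℝ) ^ (-α) := by
          rw [e3]
          field_simp
  calc ∑ k ∈ T, ‖∑ v ∈ Finset.range V, Qs χ k (blk ρ v B) * Sm χ k (Y / ρ ^ v)‖ ^ 2
      ≤ ∑ k ∈ T, W * ∑ v ∈ S, (ρ ^ v : ℝ) ^ (2 - α) * ‖Sm χ k (Y / ρ ^ v)‖ ^ 2 :=
        Finset.sum_le_sum hSum
    _ = W * ∑ v ∈ S, (ρ ^ v : ℝ) ^ (2 - α) * ∑ k ∈ T, ‖Sm χ k (Y / ρ ^ v)‖ ^ 2 := by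
        rw [← Finset.mul_sum, Finset.sum_comm]
        congr 1
        exact Finset.sum_congr rfl fun v _ => by rw [Finset.mul_sum]
    _ ≤ W * ∑ v ∈ S, C₁ * Y ^ 2 * (ρ ^ v : ℝ) ^ (-α) :=
        mul_le_mul_of_nonneg_left (Finset.sum_le_sum hv2) hW0
    _ = C₁ * Y ^ 2 * W ^ 2 := by
        rw [← Finset.mul_sum, ← hW]
        ring
    _ ≤ C₁ * Y ^ 2 * (8 * (P ^ (-α) / (α * (ρ - 1)))) ^ 2 := by
        refine mul_le_mul_of_nonneg_left (pow_le_pow_left₀ hW0 hWle 2) ?_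
        have : 0 ≤ C₁ := by linarith
        positivity
    _ = 64 * C₁ * Y ^ 2 * (P ^ (-α) / (α * (ρ - 1))) ^ 2 := by ring

end Pool.Agent.T2


namespace Pool.Agent.T2

theorem level_one : type_of% @level_one_pr := @level_one_pr

end Pool.Agent.T2
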