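import Pool.Agent.Lib_helper10.T2.Defs
import Pool.Agent.Lib_helper10.T2F.BAS

/-! T2, block PEL: prime elements -/

namespace Pool.Agent.T2

open Filter Topology MeasureTheory

theorem pel_isUnit {z : G} (h : nn z = 1) : IsUnit z := Zsqrtd.norm_eq_one_iff.1 h

theorem pel_nn_one {z : G} (h : IsUnit z) : nn z = 1 := Zsqrtd.norm_eq_one_iff.2 h

theorem pel_nn_dvd {z w : G} (h : z ∣ w) : nn z ∣ nn w := by
  obtain ⟨v, rfl⟩ := h
  rw [nn_mul]
  exact dvd_mul_right _ _

/-- an element of prime norm is prime -/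
theorem pel_prime_of_nn {z : G} (h : (nn z).Prime) : Prime z := by
  rw [← irreducible_iff_prime]
  constructor
  · intro hu
    rw [pel_nn_one hu] at h
    exact Nat.not_prime_one h
  · intro a b hab
    rw [hab, nn_mul] at h
    rcases Nat.prime_mul_iff.1 h with ⟨-, hb⟩ | ⟨-, ha⟩
    · exact Or.inr (pel_isUnit hb)
    · exact Or.inl (pel_isUnit ha)

theorem pel_exists {p : ℕ} (hp : p.Prime) (h4 : p % 4 = 1) :
    ∃ z : G, 0 < z.im ∧ z.im < z.re ∧ nn z = p := by
  have : Fact p.Prime := ⟨hp⟩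
  obtain ⟨a, b, hab⟩ := Nat.Prime.sq_add_sq (p := p) (by omega)
  have key : ∀ a b : ℕ, a ^ 2 + b ^ 2 = p → b < a →
      ∃ z : G, 0 < z.im ∧ z.im < z.re ∧ nn z = p := by
    intro a b hab hlt
    have hb : b ≠ 0 := by
      rintro rfl
      have : a ^ 2 = p := by simpa using hab
      rw [← this] at hp
      exact Nat.Prime.not_prime_pow (le_refl 2) hp
    refine ⟨⟨a, b⟩, ?_, ?_, ?_⟩
    · have : 0 < b := Nat.pos_of_ne_zero hb
      show (0 : ℤ) < (b : ℤ)
      exact_mod_cast this
    · show (b : ℤ) < (a : ℤ)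
      exact_mod_cast hlt
    · have h1 := nn_cast (⟨a, b⟩ : G)
      have h2 : ((nn (⟨a, b⟩ : G) : ℕ) : ℤ) = ((p : ℕ) : ℤ) := by
        rw [h1, ← hab]; push_cast; rfl
      exact_mod_cast h2
  rcases lt_trichotomy a b with h | h | h
  · exact key b a (by rw [add_comm]; exact hab) h
  · subst h
    exfalso
    omega
  · exact key a b hab h

theorem pel_spec_pr {p : ℕ} (hp : p.Prime) (h4 : p % 4 = 1) :
    nn (pel p) = p ∧ 0 < (pel p).im ∧ (pel p).im < (pel p).re := by
  have h := pel_exists hp h4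
  have hs := h.choose_spec
  have he : pel p = h.choose := by
    unfold pel
    rw [dif_pos h]
  rw [he]
  exact ⟨hs.2.2, hs.1, hs.2.1⟩

theorem pel_prime_pr {p : ℕ} (hp : p.Prime) (h4 : p % 4 = 1) : Prime (pel p) := by
  apply pel_prime_of_nn
  rw [(pel_spec_pr hp h4).1]
  exact hp

theorem pel_star_prime_pr {p : ℕ} (hp : p.Prime) (h4 : p % 4 = 1) : Prime (star (pel p)) := by
  apply pel_prime_of_nn
  rw [nn_star, (pel_spec_pr hp h4).1]
  exact hp

theorem pel_gl_pr {p : ℕ} (hp : p.Prime) (h4 : p % 4 = 1) : gl (pel p) = -1 := by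
  unfold gl
  rw [(pel_spec_pr hp h4).1]
  exact lam_prime hp

theorem pel_star_mul (z : G) : z * star z = (nn z : G) := by
  rw [← Zsqrtd.norm_eq_mul_conj]
  have h : ((nn z : ℕ) : ℤ) = z.norm := GaussianInt.abs_natCast_norm z
  rw [← h]
  simp

theorem pel_mul_star_pr {p : ℕ} (hp : p.Prime) (h4 : p % 4 = 1) :
    pel p * star (pel p) = (p : G) := by
  rw [pel_star_mul, (pel_spec_pr hp h4).1]

/-- the units -/
theorem pel_units {u : G} (h : IsUnit u) : (u.re = 0 ∨ u.im = 0) ∧ -1 ≤ u.re ∧ u.re ≤ 1 ∧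
    -1 ≤ u.im ∧ u.im ≤ 1 := by
  have h1 := pel_nn_one h
  have h2 := nn_cast u
  rw [h1] at h2
  have h3 : u.re ^ 2 + u.im ^ 2 = 1 := by
    rw [← h2]; simp
  have ha : -1 ≤ u.re := by nlinarith [sq_nonneg u.im]
  have hb : u.re ≤ 1 := by nlinarith [sq_nonneg u.im]
  have hc : -1 ≤ u.im := by nlinarith [sq_nonneg u.re]
  have hd : u.im ≤ 1 := by nlinarith [sq_nonneg u.re]
  refine ⟨?_, ha, hb, hc, hd⟩
  by_contra hcon
  push Not at hcon
  have he : u.re ^ 2 = 1 := by
    have : u.re = 1 ∨ u.re = -1 := by omega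
    rcases this with h | h <;> rw [h] <;> norm_num
  have hf : u.im ^ 2 = 1 := by
    have : u.im = 1 ∨ u.im = -1 := by omega
    rcases this with h | h <;> rw [h] <;> norm_num
  omega

theorem pel_not_star_pr {p q : ℕ} (hp : p.Prime) (h4 : p % 4 = 1) (hq : q.Prime)
    (h4q : q % 4 = 1) : ¬ Associated (pel p) (star (pel q)) := by
  rintro ⟨u, hu⟩
  obtain ⟨-, hp1, hp2⟩ := pel_spec_pr hp h4
  obtain ⟨-, hq1, hq2⟩ := pel_spec_pr hq h4q
  obtain ⟨h0, h1, h2, h3, h4'⟩ := pel_units u.isUnit
  have hr := congrArg Zsqrtd.re hu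
  have hi := congrArg Zsqrtd.im hu
  rw [Zsqrtd.re_mul, Zsqrtd.re_star] at hr
  rw [Zsqrtd.im_mul, Zsqrtd.im_star] at hi
  generalize (pel p).re = a at *
  generalize (pel p).im = b at *
  generalize (pel q).re = c at *
  generalize (pel q).im = d at *
  generalize (u : G).re = x at *
  generalize (u : G).im = y at *
  rcases h0 with h | h
  · subst h
    have : y = -1 ∨ y = 0 ∨ y = 1 := by omega
    rcases this with h | h | h <;> subst h <;> omega
  · subst h
    have : x = -1 ∨ x = 0 ∨ x = 1 := by omega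
    rcases this with h | h | h <;> subst h <;> omega

theorem pel_inj_pr {p q : ℕ} (hp : p.Prime) (h4 : p % 4 = 1) (hq : q.Prime) (h4q : q % 4 = 1)
    (h : pel p ∣ pel q) : p = q := by
  have h1 := pel_nn_dvd h
  rw [(pel_spec_pr hp h4).1, (pel_spec_pr hq h4q).1] at h1
  exact (Nat.prime_dvd_prime_iff_eq hp hq).1 h1

/-- `1 + i` is prime -/
theorem pel_two_prime : Prime (1 + ui) := by
  apply pel_prime_of_nn
  have h := nn_cast (1 + ui)
  have h2 : ((nn (1 + ui) : ℕ) : ℤ) = ((2 : ℕ) : ℤ) := by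
    rw [h]; simp [ui]
  have h3 : nn (1 + ui) = 2 := by exact_mod_cast h2
  rw [h3]
  exact Nat.prime_two

theorem pel_nn_two : nn (1 + ui) = 2 := by
  have h := nn_cast (1 + ui)
  have h2 : ((nn (1 + ui) : ℕ) : ℤ) = ((2 : ℕ) : ℤ) := by
    rw [h]; simp [ui]
  exact_mod_cast h2

theorem pel_two_sq : (1 + ui) ^ 2 * (-ui) = ((2 : ℕ) : G) := by
  rw [Zsqrtd.ext_iff]
  constructor <;> simp [ui, pow_two]

theorem pel_two_sq' : (1 + ui) ^ 2 = ((2 : ℕ) : G) * ui := by
  rw [Zsqrtd.ext_iff]
  constructor <;> simp [ui, pow_two]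

theorem pel_prm_mul_pr {p : ℕ} (hp : p.Prime) (h4 : p % 4 = 1) {w : G} :
    Prm (pel p * w) ↔ Prm w ∧ ¬ star (pel p) ∣ w := by
  have hpp := pel_prime_pr hp h4
  have hnp := (pel_spec_pr hp h4).1
  constructor
  · intro h
    rw [prm_iff] at h
    constructor
    · rw [prm_iff]
      intro n hn
      exact h n (hn.mul_left _)
    · rintro ⟨v, rfl⟩
      have h1 := h p ⟨v, by rw [← mul_assoc, pel_mul_star_pr hp h4]⟩
      exact hp.one_lt.ne' h1
  · rintro ⟨hw, hs⟩
    have hw0 : w ≠ 0 := prm_ne hw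
    rw [prm_iff] at hw
    rw [prm_iff]
    intro n hn
    by_contra hn1
    have hr := Nat.minFac_prime hn1
    have hrd : ((n.minFac : ℕ) : G) ∣ pel p * w := by
      refine dvd_trans ?_ hn
      obtain ⟨k, hk⟩ := Nat.minFac_dvd n
      exact ⟨(k : G), by rw [← Nat.cast_mul, ← hk]⟩
    generalize n.minFac = r at hr hrd
    have : Fact r.Prime := ⟨hr⟩
    have hmod : r = 2 ∨ r % 4 = 1 ∨ r % 4 = 3 := by
      rcases hr.eq_two_or_odd with h | h
      · exact Or.inl h
      · omega
    rcases hmod with h | h | h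
    · subst h
      have h1 : (1 + ui) ^ 2 ∣ pel p * w := by
        rw [pel_two_sq']
        obtain ⟨v, hv⟩ := hrd
        rw [hv]
        refine ⟨-ui * v, ?_⟩
        have : ui * ui = -1 := by
          rw [Zsqrtd.ext_iff]; constructor <;> simp [ui]
        linear_combination (((2 : ℕ) : G) * v) * this
      have h2 : ¬ (1 + ui) ∣ pel p := by
        intro hd
        have h3 := pel_nn_dvd hd
        rw [pel_nn_two, hnp] at h3
        have := (Nat.prime_dvd_prime_iff_eq Nat.prime_two hp).1 h3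
        omega
      have h3 := pel_two_prime.pow_dvd_of_dvd_mul_left 2 h2 h1
      have h4' : ((2 : ℕ) : G) ∣ w := by
        refine dvd_trans ?_ h3
        rw [pel_two_sq']
        exact dvd_mul_right _ _
      have := hw 2 h4'
      omega
    · by_cases hrp : r = p
      · subst hrp
        rw [← pel_mul_star_pr hr h] at hrd
        exact hs ((mul_dvd_mul_iff_left hpp.ne_zero).1 hrd)
      · have hq := pel_prime_pr hr h
        have hq' := pel_star_prime_pr hr h
        have h1 : pel r ∣ w := by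
          have h2 : pel r ∣ pel p * w := by
            refine dvd_trans ?_ hrd
            rw [← pel_mul_star_pr hr h]
            exact dvd_mul_right _ _
          rcases hq.dvd_or_dvd h2 with h3 | h3
          · exact absurd (pel_inj_pr hr h hp h4 h3) hrp
          · exact h3
        have h1' : star (pel r) ∣ w := by
          have h2 : star (pel r) ∣ pel p * w := by
            refine dvd_trans ?_ hrd
            rw [← pel_mul_star_pr hr h]
            exact dvd_mul_left _ _
          rcases hq'.dvd_or_dvd h2 with h3 | h3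
          · have h5 := pel_nn_dvd h3
            rw [nn_star, (pel_spec_pr hr h).1, hnp] at h5
            exact absurd ((Nat.prime_dvd_prime_iff_eq hr hp).1 h5) hrp
          · exact h3
        obtain ⟨v, rfl⟩ := h1
        rcases hq'.dvd_or_dvd h1' with h3 | h3
        · have h5 := (hq'.dvd_prime_iff_associated hq).1 h3
          exact pel_not_star_pr hr h hr h h5.symm
        · have h6 : ((r : ℕ) : G) ∣ pel r * v := by
            rw [← pel_mul_star_pr hr h]
            exact mul_dvd_mul_left _ h3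
          exact hr.one_lt.ne' (hw r h6)
    · have hq := GaussianInt.prime_of_nat_prime_of_mod_four_eq_three r h
      rcases hq.dvd_or_dvd hrd with h3 | h3
      · have h5 := pel_nn_dvd h3
        have h5' : nn ((r : ℕ) : G) ∣ p := by
          rw [hnp] at h5
          exact h5
        rw [nn_nat] at h5'
        have h6 : r ∣ p := (dvd_pow_self r two_ne_zero).trans h5'
        have := (Nat.prime_dvd_prime_iff_eq hr hp).1 h6
        omega
      · exact hr.one_lt.ne' (hw r h3)

theorem pel_prod_prm_pr {l : List ℕ} (hl : ∀ p ∈ l, p.Prime ∧ p % 4 = 1) :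
    Prm ((l.map pel).prod) := by
  induction l with
  | nil =>
    simp [Prm]
  | cons p l ih =>
    have hp := hl p (by simp)
    have hl' : ∀ q ∈ l, q.Prime ∧ q % 4 = 1 := fun q hq => hl q (by simp [hq])
    rw [List.map_cons, List.prod_cons, pel_prm_mul_pr hp.1 hp.2]
    refine ⟨ih hl', ?_⟩
    intro hd
    have hsp := pel_star_prime_pr hp.1 hp.2
    rw [hsp.dvd_prod_iff] at hd
    obtain ⟨a, ha, hda⟩ := hd
    rw [List.mem_map] at ha
    obtain ⟨q, hq, rfl⟩ := ha
    have hq' := hl' q hq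
    have h5 := (hsp.dvd_prime_iff_associated (pel_prime_pr hq'.1 hq'.2)).1 hda
    exact pel_not_star_pr hq'.1 hq'.2 hp.1 hp.2 h5.symm

theorem pel_dvd_list {π : G} (h : Prime π) : ∀ l : List ℕ, π ∣ ((l.prod : ℕ) : G) →
    ∃ r ∈ l, π ∣ ((r : ℕ) : G) := by
  intro l
  induction l with
  | nil =>
    intro hd
    rw [List.prod_nil, Nat.cast_one] at hd
    exact absurd (isUnit_of_dvd_one hd) h.not_isUnit
  | cons a l ih =>
    intro hd
    rw [List.prod_cons, Nat.cast_mul] at hd
    rcases h.dvd_or_dvd hd with h1 | h1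
    · exact ⟨a, by simp, h1⟩
    · obtain ⟨r, hr, h2⟩ := ih h1
      exact ⟨r, by simp [hr], h2⟩

theorem gauss_prime_pr {π : G} (h : Prime π) : Associated π (1 + ui) ∨
    (∃ p : ℕ, p.Prime ∧ p % 4 = 1 ∧ (Associated π (pel p) ∨ Associated π (star (pel p)))) ∨
    (∃ q : ℕ, q.Prime ∧ q % 4 = 3 ∧ Associated π (q : G)) := by
  have h1 : π ∣ ((nn π : ℕ) : G) := ⟨star π, (pel_star_mul π).symm⟩
  have hn0 : nn π ≠ 0 := (nn_pos.2 h.ne_zero).ne'
  rw [← Nat.prod_primeFactorsList hn0] at h1
  obtain ⟨r, hr, hd⟩ := pel_dvd_list h _ h1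
  have hrp : r.Prime := Nat.prime_of_mem_primeFactorsList hr
  have : Fact r.Prime := ⟨hrp⟩
  have hmod : r = 2 ∨ r % 4 = 1 ∨ r % 4 = 3 := by
    rcases hrp.eq_two_or_odd with h | h
    · exact Or.inl h
    · omega
  rcases hmod with h2 | h2 | h2
  · left
    subst h2
    rw [← pel_two_sq] at hd
    rcases h.dvd_or_dvd hd with h3 | h3
    · exact (h.dvd_prime_iff_associated pel_two_prime).1 (h.dvd_of_dvd_pow h3)
    · exfalso
      have h4 : IsUnit (-ui : G) := by
        apply pel_isUnit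
        have h5 := nn_cast (-ui)
        have h6 : ((nn (-ui) : ℕ) : ℤ) = ((1 : ℕ) : ℤ) := by
          rw [h5]; simp [ui]
        exact_mod_cast h6
      exact h.not_isUnit (isUnit_of_dvd_unit h3 h4)
  · right; left
    refine ⟨r, hrp, h2, ?_⟩
    rw [← pel_mul_star_pr hrp h2] at hd
    rcases h.dvd_or_dvd hd with h3 | h3
    · exact Or.inl ((h.dvd_prime_iff_associated (pel_prime_pr hrp h2)).1 h3)
    · exact Or.inr ((h.dvd_prime_iff_associated (pel_star_prime_pr hrp h2)).1 h3)
  · right; right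
    refine ⟨r, hrp, h2, ?_⟩
    exact (h.dvd_prime_iff_associated
      (GaussianInt.prime_of_nat_prime_of_mod_four_eq_three r h2)).1 hd

end Pool.Agent.T2


namespace Pool.Agent.T2

theorem pel_spec : type_of% @pel_spec_pr := @pel_spec_pr
theorem pel_prime : type_of% @pel_prime_pr := @pel_prime_pr
theorem pel_star_prime : type_of% @pel_star_prime_pr := @pel_star_prime_pr
theorem pel_gl : type_of% @pel_gl_pr := @pel_gl_pr
theorem pel_mul_star : type_of% @pel_mul_star_pr := @pel_mul_star_pr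
theorem pel_not_star : type_of% @pel_not_star_pr := @pel_not_star_pr
theorem pel_inj : type_of% @pel_inj_pr := @pel_inj_pr
theorem pel_prm_mul : type_of% @pel_prm_mul_pr := @pel_prm_mul_pr
theorem pel_prod_prm : type_of% @pel_prod_prm_pr := @pel_prod_prm_pr
theorem gauss_prime : type_of% @gauss_prime_pr := @gauss_prime_pr

end Pool.Agent.T2
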