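import Pool.Agent.Lib_helper10.T2.Defs
import Pool.Agent.Lib_helper10.T2F.BAS
import Pool.Agent.Lib_helper10.T2F.CNT
import Pool.Agent.Lib_helper10.T2F.LSG
import Pool.Agent.Lib_helper10.T2F.PEL

/-! T2, block MOM: the moment_pr inequality -/

namespace Pool.Agent.T2

open Finset

/-- the same primitive part -/
def MomSim (U V : G) : Prop := ∃ r s : ℕ, 1 ≤ r ∧ 1 ≤ s ∧ (s : G) * U = (r : G) * V

theorem mom_sim_symm {U V : G} (h : MomSim U V) : MomSim V U := by
  obtain ⟨r, s, hr, hs, h⟩ := h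
  exact ⟨s, r, hs, hr, h.symm⟩

theorem mom_sim_coprime {U V : G} (h : MomSim U V) :
    ∃ r s : ℕ, 1 ≤ r ∧ 1 ≤ s ∧ Nat.Coprime r s ∧ (s : G) * U = (r : G) * V := by
  obtain ⟨r, s, hr, hs, h⟩ := h
  obtain ⟨g, r', s', hg, hco, hr', hs'⟩ := Nat.exists_coprime' (m := r) (n := s)
    (Nat.gcd_pos_of_pos_left _ hr)
  refine ⟨r', s', ?_, ?_, hco, ?_⟩
  · rcases Nat.eq_zero_or_pos r' with h0 | h0
    · rw [h0] at hr'; simp at hr'; omega
    · exact h0
  · rcases Nat.eq_zero_or_pos s' with h0 | h0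
    · rw [h0] at hs'; simp at hs'; omega
    · exact h0
  · have hg0 : (g : G) ≠ 0 := by
      exact_mod_cast (by omega : g ≠ 0)
    rw [hr', hs'] at h
    push_cast at h
    apply mul_left_cancel₀ hg0
    linear_combination h

theorem mom_sim_cancel {π U V : G} (hπ : π ≠ 0) (h : MomSim (π * U) (π * V)) : MomSim U V := by
  obtain ⟨r, s, hr, hs, h⟩ := h
  refine ⟨r, s, hr, hs, ?_⟩
  apply mul_left_cancel₀ hπ
  linear_combination h

theorem mom_sim_nat {p : ℕ} {U V : G} (hp : 1 ≤ p) (h : MomSim ((p : G) * U) V) : MomSim U V := by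
  obtain ⟨r, s, hr, hs, h⟩ := h
  refine ⟨r, s * p, hr, Nat.mul_pos hs hp, ?_⟩
  push_cast
  linear_combination h

theorem mom_sim_prm {U V : G} (hU : Prm U) (hV : Prm V) (h : MomSim U V) : U = V := by
  obtain ⟨r, s, hr, hs, h⟩ := h
  exact (content_unique hs hr hU hV h).2

theorem mom_dvd_nat {p r : ℕ} {π : G} (hp : p.Prime) (hπ : nn π = p) (h : π ∣ (r : G)) : p ∣ r := by
  obtain ⟨y, hy⟩ := h
  have h1 : nn (r : G) = p * nn y := by rw [hy, nn_mul, hπ]
  rw [nn_nat] at h1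
  exact hp.dvd_of_dvd_pow (h1 ▸ dvd_mul_right _ _)

theorem mom_pel_ne {p : ℕ} (hp : p.Prime) (h4 : p % 4 = 1) : pel p ≠ 0 := (pel_prime hp h4).ne_zero

/-- the basic trichotomy -/
theorem mom_cases {p : ℕ} (hp : p.Prime) (h4 : p % 4 = 1) {l l' : ℕ} {q : Fin l → ℕ}
    {q' : Fin l' → ℕ} (hq : ∀ i, (q i).Prime ∧ q i % 4 = 1) (hq' : ∀ i, (q' i).Prime ∧ q' i % 4 = 1)
    {w w' : G} (h : MomSim (pel p * ((∏ i, pel (q i)) * w)) ((∏ i, pel (q' i)) * w')) :
    (star (pel p) ∣ w) ∨ (∃ j, q' j = p) ∨ pel p ∣ w' := by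
  obtain ⟨r, s, hr, hs, hco, h⟩ := mom_sim_coprime h
  have hP := pel_prime hp h4
  have hP' := pel_star_prime hp h4
  have h1 : pel p ∣ (r : G) * ((∏ i, pel (q' i)) * w') := by
    rw [← h]; exact ⟨(s : G) * ((∏ i, pel (q i)) * w), by ring⟩
  rcases hP.dvd_or_dvd h1 with h2 | h2
  · left
    have h3 : p ∣ r := mom_dvd_nat hp (pel_spec hp h4).1 h2
    obtain ⟨r₂, hr₂⟩ := h3
    have h5 : (s : G) * ((∏ i, pel (q i)) * w) =
        star (pel p) * ((r₂ : G) * ((∏ i, pel (q' i)) * w')) := by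
      apply mul_left_cancel₀ (mom_pel_ne hp h4)
      have e : (r : G) = pel p * star (pel p) * r₂ := by
        rw [pel_mul_star hp h4, hr₂]; push_cast; ring
      rw [e] at h
      linear_combination h
    have h6 : star (pel p) ∣ (s : G) * ((∏ i, pel (q i)) * w) := ⟨_, h5⟩
    rcases hP'.dvd_or_dvd h6 with h7 | h7
    · exfalso
      have h8 : p ∣ s := mom_dvd_nat hp (by rw [nn_star]; exact (pel_spec hp h4).1) h7
      have h9 : p ∣ Nat.gcd r s := Nat.dvd_gcd ⟨r₂, hr₂⟩ h8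
      rw [hco] at h9
      exact hp.one_lt.ne' (Nat.dvd_one.mp h9)
    · rcases hP'.dvd_or_dvd h7 with h8 | h8
      · exfalso
        obtain ⟨i, _, hi⟩ := (Prime.dvd_finsetProd_iff hP' _).1 h8
        have h9 : Associated (star (pel p)) (pel (q i)) :=
          hP'.associated_of_dvd (pel_prime (hq i).1 (hq i).2) hi
        exact pel_not_star (hq i).1 (hq i).2 hp h4 h9.symm
      · exact h8
  · right
    rcases hP.dvd_or_dvd h2 with h3 | h3
    · left
      obtain ⟨j, _, hj⟩ := (Prime.dvd_finsetProd_iff hP _).1 h3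
      exact ⟨j, (pel_inj hp h4 (hq' j).1 (hq' j).2 hj).symm⟩
    · right; exact h3

open Classical in
/-- the pairs with the same primitive part -/
noncomputable def momD (B : Finset ℕ) (l l' : ℕ) (x x' : ℝ) :
    Finset (((Fin l → ℕ) × G) × ((Fin l' → ℕ) × G)) :=
  ((Fintype.piFinset (fun _ : Fin l => B) ×ˢ PB x) ×ˢ
    (Fintype.piFinset (fun _ : Fin l' => B) ×ˢ PB x')).filter (fun t =>
      MomSim ((∏ i, pel (t.1.1 i)) * t.1.2) ((∏ i, pel (t.2.1 i)) * t.2.2))

theorem mem_momD {B : Finset ℕ} {l l' : ℕ} {x x' : ℝ} {t : ((Fin l → ℕ) × G) × ((Fin l' → ℕ) × G)} :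
    t ∈ momD B l l' x x' ↔ ((∀ i, t.1.1 i ∈ B) ∧ t.1.2 ∈ PB x) ∧ ((∀ i, t.2.1 i ∈ B) ∧ t.2.2 ∈ PB x') ∧
      MomSim ((∏ i, pel (t.1.1 i)) * t.1.2) ((∏ i, pel (t.2.1 i)) * t.2.2) := by
  unfold momD
  simp only [mem_filter, mem_product, Fintype.mem_piFinset]
  tauto

theorem momD_swap (B : Finset ℕ) (l l' : ℕ) (x x' : ℝ) :
    (momD B l l' x x').card = (momD B l' l x' x).card := by
  apply Finset.card_bij (fun t _ => (t.2, t.1))
  · intro t ht
    rw [mem_momD] at ht ⊢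
    exact ⟨ht.2.1, ht.1, mom_sim_symm ht.2.2⟩
  · intro t _ t' _ h
    simp only [Prod.mk.injEq] at h
    exact Prod.ext h.2 h.1
  · intro t ht
    refine ⟨(t.2, t.1), ?_, rfl⟩
    rw [mem_momD] at ht ⊢
    exact ⟨ht.2.1, ht.1, mom_sim_symm ht.2.2⟩

/-- division by a prime element, in a ball of primitive elements -/
theorem mom_PB_div {p : ℕ} (hp : p.Prime) {π w v : G} (hπ : nn π = p) (hw : w = π * v) {x : ℝ}
    (h : w ∈ PB x) : v ∈ PB (x / p) := by
  rw [mem_PB] at h ⊢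
  have hp0 : (0 : ℝ) < p := by exact_mod_cast hp.pos
  constructor
  · apply prm_mul_left (w := π)
    rw [mul_comm, ← hw]; exact h.1
  · have h1 : (nn w : ℝ) = p * nn v := by rw [hw, nn_mul, hπ]; push_cast; ring
    rw [le_div_iff₀ hp0]
    linarith [h.2]

/-- the recurrence, second index zero -/
theorem momD_rec_zero {B : Finset ℕ} (hB : Pset B) (l : ℕ) (x x' : ℝ) :
    (momD B (l + 1) 0 x x').card ≤ ∑ p ∈ B, ((momD B l 0 (x / p) x').card +
      (momD B l 0 x (x' / p)).card) := by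
  classical
  have hcov : momD B (l + 1) 0 x x' ⊆ B.biUnion (fun p =>
      (momD B l 0 (x / p) x').image (fun t =>
        ((Fin.cons p t.1.1, star (pel p) * t.1.2), t.2)) ∪
      (momD B l 0 x (x' / p)).image (fun t =>
        ((Fin.cons p t.1.1, t.1.2), (t.2.1, pel p * t.2.2)))) := by
    rintro ⟨⟨q, w⟩, ⟨q', w'⟩⟩ ht
    rw [mem_momD] at ht
    obtain ⟨⟨hq, hw⟩, ⟨hq', hw'⟩, hsim⟩ := ht
    simp only at hq hw hq' hw' hsim
    have hp := (hB _ (hq 0)).1
    have h4 := (hB _ (hq 0)).2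
    rw [Fin.prod_univ_succ, mul_assoc] at hsim
    have hπ := mom_pel_ne hp h4
    rw [mem_biUnion]
    refine ⟨q 0, hq 0, ?_⟩
    rw [mem_union, mem_image, mem_image]
    rcases mom_cases hp h4 (fun i => hB _ (hq _)) (fun i => hB _ (hq' i)) hsim with h | h | h
    · left
      obtain ⟨v, hv⟩ := h
      refine ⟨((fun i => q i.succ, v), (q', w')), ?_, ?_⟩
      · rw [mem_momD]
        refine ⟨⟨fun i => hq _, mom_PB_div hp (by rw [nn_star]; exact (pel_spec hp h4).1) hv hw⟩,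
          ⟨hq', hw'⟩, ?_⟩
        apply mom_sim_nat hp.one_le
        have e : ((q 0 : ℕ) : G) * ((∏ i : Fin l, pel (q i.succ)) * v) =
            pel (q 0) * ((∏ i : Fin l, pel (q i.succ)) * w) := by
          rw [hv, ← pel_mul_star hp h4]; ring
        simp only
        rw [e]; exact hsim
      · simp only [Prod.mk.injEq, and_true]
        exact ⟨Fin.cons_self_tail q, hv.symm⟩
    · obtain ⟨j, _⟩ := h
      exact j.elim0
    · right
      obtain ⟨v, hv⟩ := h
      refine ⟨((fun i => q i.succ, w), (q', v)), ?_, ?_⟩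
      · rw [mem_momD]
        refine ⟨⟨fun i => hq _, hw⟩, ⟨hq', mom_PB_div hp (pel_spec hp h4).1 hv hw'⟩, ?_⟩
        apply mom_sim_cancel hπ
        have e : pel (q 0) * ((∏ i, pel (q' i)) * v) = (∏ i, pel (q' i)) * w' := by
          rw [hv]; ring
        simp only
        rw [e]; exact hsim
      · simp only [Prod.mk.injEq, true_and, and_true]
        exact ⟨Fin.cons_self_tail q, hv.symm⟩
  refine (card_le_card hcov).trans (card_biUnion_le.trans (sum_le_sum fun p _ => ?_))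
  exact (card_union_le _ _).trans (add_le_add card_image_le card_image_le)

/-- the recurrence -/
theorem momD_rec {B : Finset ℕ} (hB : Pset B) (l l' : ℕ) (x x' : ℝ) :
    (momD B (l + 1) (l' + 1) x x').card ≤ ∑ p ∈ B, ((momD B l (l' + 1) (x / p) x').card +
      ((l' + 1) * (momD B l l' x x').card + (momD B l (l' + 1) x (x' / p)).card)) := by
  classical
  have hcov : momD B (l + 1) (l' + 1) x x' ⊆ B.biUnion (fun p =>
      (momD B l (l' + 1) (x / p) x').image (fun t =>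
        ((Fin.cons p t.1.1, star (pel p) * t.1.2), t.2)) ∪
      ((univ : Finset (Fin (l' + 1))).biUnion (fun j => (momD B l l' x x').image (fun t =>
        ((Fin.cons p t.1.1, t.1.2), (j.insertNth p t.2.1, t.2.2)))) ∪
      (momD B l (l' + 1) x (x' / p)).image (fun t =>
        ((Fin.cons p t.1.1, t.1.2), (t.2.1, pel p * t.2.2))))) := by
    rintro ⟨⟨q, w⟩, ⟨q', w'⟩⟩ ht
    rw [mem_momD] at ht
    obtain ⟨⟨hq, hw⟩, ⟨hq', hw'⟩, hsim⟩ := ht
    simp only at hq hw hq' hw' hsim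
    have hp := (hB _ (hq 0)).1
    have h4 := (hB _ (hq 0)).2
    rw [Fin.prod_univ_succ, mul_assoc] at hsim
    have hπ := mom_pel_ne hp h4
    rw [mem_biUnion]
    refine ⟨q 0, hq 0, ?_⟩
    rw [mem_union, mem_union, mem_image, mem_image, mem_biUnion]
    rcases mom_cases hp h4 (fun i => hB _ (hq _)) (fun i => hB _ (hq' i)) hsim with h | h | h
    · left
      obtain ⟨v, hv⟩ := h
      refine ⟨((fun i => q i.succ, v), (q', w')), ?_, ?_⟩
      · rw [mem_momD]
        refine ⟨⟨fun i => hq _, mom_PB_div hp (by rw [nn_star]; exact (pel_spec hp h4).1) hv hw⟩,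
          ⟨hq', hw'⟩, ?_⟩
        apply mom_sim_nat hp.one_le
        have e : ((q 0 : ℕ) : G) * ((∏ i : Fin l, pel (q i.succ)) * v) =
            pel (q 0) * ((∏ i : Fin l, pel (q i.succ)) * w) := by
          rw [hv, ← pel_mul_star hp h4]; ring
        simp only
        rw [e]; exact hsim
      · simp only [Prod.mk.injEq, and_true]
        exact ⟨Fin.cons_self_tail q, hv.symm⟩
    · right; left
      obtain ⟨j, hj⟩ := h
      refine ⟨j, mem_univ _, ?_⟩
      rw [mem_image]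
      refine ⟨((fun i => q i.succ, w), (fun i => q' (j.succAbove i), w')), ?_, ?_⟩
      · rw [mem_momD]
        refine ⟨⟨fun i => hq _, hw⟩, ⟨fun i => hq' _, hw'⟩, ?_⟩
        apply mom_sim_cancel hπ
        have e : pel (q 0) * ((∏ i, pel (q' (j.succAbove i))) * w') = (∏ i, pel (q' i)) * w' := by
          rw [Fin.prod_univ_succAbove _ j, hj]; ring
        simp only
        rw [e]; exact hsim
      · simp only [Prod.mk.injEq, and_true]
        refine ⟨Fin.cons_self_tail q, ?_⟩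
        rw [← hj]
        exact Fin.insertNth_self_removeNth j q'
    · right; right
      obtain ⟨v, hv⟩ := h
      refine ⟨((fun i => q i.succ, w), (q', v)), ?_, ?_⟩
      · rw [mem_momD]
        refine ⟨⟨fun i => hq _, hw⟩, ⟨hq', mom_PB_div hp (pel_spec hp h4).1 hv hw'⟩, ?_⟩
        apply mom_sim_cancel hπ
        have e : pel (q 0) * ((∏ i, pel (q' i)) * v) = (∏ i, pel (q' i)) * w' := by
          rw [hv]; ring
        simp only
        rw [e]; exact hsim
      · simp only [Prod.mk.injEq, true_and, and_true]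
        exact ⟨Fin.cons_self_tail q, hv.symm⟩
  refine (card_le_card hcov).trans (card_biUnion_le.trans (sum_le_sum fun p _ => ?_))
  refine (card_union_le _ _).trans (add_le_add card_image_le ?_)
  refine (card_union_le _ _).trans (add_le_add ?_ card_image_le)
  refine card_biUnion_le.trans ?_
  refine (sum_le_card_nsmul _ _ _ (fun j _ => card_image_le)).trans ?_
  simp

theorem mom_card_le {M : ℝ} {B : Finset ℕ} (hM : 1 ≤ M) (hB : Pset B)
    (h : ∀ p ∈ B, M < (p : ℝ) ∧ (p : ℝ) ≤ 2 * M) : (B.card : ℝ) ≤ 2 * M := by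
  have h1 : B ⊆ Finset.Icc 1 ⌊2 * M⌋₊ := by
    intro p hp
    rw [mem_Icc]
    exact ⟨(hB p hp).1.one_le, Nat.le_floor (h p hp).2⟩
  have h2 := card_le_card h1
  rw [Nat.card_Icc] at h2
  have h3 : B.card ≤ ⌊2 * M⌋₊ := by omega
  calc (B.card : ℝ) ≤ (⌊2 * M⌋₊ : ℝ) := by exact_mod_cast h3
    _ ≤ 2 * M := Nat.floor_le (by linarith)

/-- the base case -/
theorem momD_base {C : ℝ} (hC : ∀ x : ℝ, 0 ≤ x → ((Bl x).card : ℝ) ≤ C * x) (B : Finset ℕ)
    {x x' : ℝ} (hx : 0 ≤ x) (hx' : 0 ≤ x') (hC0 : 0 ≤ C) :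
    ((momD B 0 0 x x').card : ℝ) ≤ C * Real.sqrt (x * x') := by
  classical
  have h1 : (momD B 0 0 x x').card ≤ (Bl (min x x')).card := by
    apply Finset.card_le_card_of_injOn (fun t => t.1.2)
    · intro t ht
      have ht' := mem_momD.1 (Finset.mem_coe.1 ht)
      obtain ⟨⟨_, hw⟩, ⟨_, hw'⟩, hs⟩ := ht'
      simp only [univ_eq_empty, prod_empty, one_mul] at hs
      rw [mem_PB] at hw hw'
      have he := mom_sim_prm hw.1 hw'.1 hs
      rw [Finset.mem_coe, mem_Bl]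
      refine ⟨prm_ne hw.1, le_min hw.2 ?_⟩
      show (nn t.1.2 : ℝ) ≤ x'
      rw [he]; exact hw'.2
    · intro t ht t' ht' he
      have h2 := mem_momD.1 (Finset.mem_coe.1 ht)
      have h3 := mem_momD.1 (Finset.mem_coe.1 ht')
      obtain ⟨⟨_, hw⟩, ⟨_, hw'⟩, hs⟩ := h2
      obtain ⟨⟨_, hv⟩, ⟨_, hv'⟩, hs'⟩ := h3
      simp only [univ_eq_empty, prod_empty, one_mul] at hs hs'
      rw [mem_PB] at hw hw' hv hv'
      have e1 := mom_sim_prm hw.1 hw'.1 hs
      have e2 := mom_sim_prm hv.1 hv'.1 hs'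
      simp only at he
      apply Prod.ext
      · exact Prod.ext (Subsingleton.elim _ _) he
      · exact Prod.ext (Subsingleton.elim _ _) (by rw [← e1, ← e2, he])
  have h2 := hC (min x x') (le_min hx hx')
  have h3 : min x x' ≤ Real.sqrt (x * x') := by
    apply Real.le_sqrt_of_sq_le
    rw [sq]
    exact mul_le_mul (min_le_left _ _) (min_le_right _ _) (le_min hx hx') hx
  calc ((momD B 0 0 x x').card : ℝ) ≤ ((Bl (min x x')).card : ℝ) := by exact_mod_cast h1
    _ ≤ C * min x x' := h2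
    _ ≤ C * Real.sqrt (x * x') := mul_le_mul_of_nonneg_left h3 hC0

theorem mom_sqrt_div {M : ℝ} (hM : 1 ≤ M) {p : ℕ} (hp : M < (p : ℝ)) {y : ℝ} (hy : 0 ≤ y) :
    Real.sqrt (y / p) ≤ Real.sqrt 2 * Real.sqrt y / Real.sqrt (2 * M) := by
  rw [← Real.sqrt_mul (by norm_num : (0:ℝ) ≤ 2), ← Real.sqrt_div (by positivity)]
  apply Real.sqrt_le_sqrt
  rw [mul_div_mul_left _ _ (by norm_num : (2:ℝ) ≠ 0)]
  exact div_le_div_of_nonneg_left hy (by linarith) hp.le

theorem mom_sqrt2 : Real.sqrt 2 ≤ 3 / 2 := by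
  rw [Real.sqrt_le_left (by norm_num)]; norm_num

/-- the sum over `p` of a bound with `√(y/p)` -/
theorem mom_sum_p {M : ℝ} (hM : 1 ≤ M) {B : Finset ℕ} (hB : Pset B)
    (h : ∀ p ∈ B, M < (p : ℝ) ∧ (p : ℝ) ≤ 2 * M) {y : ℝ} (hy : 0 ≤ y) :
    ∑ p ∈ B, Real.sqrt (y / p) ≤ 3 / 2 * Real.sqrt (2 * M) * Real.sqrt y := by
  have hs : 0 < Real.sqrt (2 * M) := Real.sqrt_pos.2 (by linarith)
  have hss : Real.sqrt (2 * M) * Real.sqrt (2 * M) = 2 * M := Real.mul_self_sqrt (by linarith)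
  calc ∑ p ∈ B, Real.sqrt (y / p)
      ≤ ∑ p ∈ B, Real.sqrt 2 * Real.sqrt y / Real.sqrt (2 * M) :=
        sum_le_sum fun p hp => mom_sqrt_div hM (h p hp).1 hy
    _ = B.card * (Real.sqrt 2 * Real.sqrt y / Real.sqrt (2 * M)) := by
        rw [sum_const, nsmul_eq_mul]
    _ ≤ (2 * M) * (Real.sqrt 2 * Real.sqrt y / Real.sqrt (2 * M)) :=
        mul_le_mul_of_nonneg_right (mom_card_le hM hB h) (by positivity)
    _ = Real.sqrt 2 * Real.sqrt (2 * M) * Real.sqrt y := by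
        have e : (2 * M) * (Real.sqrt 2 * Real.sqrt y / Real.sqrt (2 * M)) =
            (Real.sqrt (2 * M) * Real.sqrt (2 * M)) *
              (Real.sqrt 2 * Real.sqrt y / Real.sqrt (2 * M)) := by rw [hss]
        rw [e]
        generalize Real.sqrt (2 * M) = S at hs
        field_simp
    _ ≤ 3 / 2 * Real.sqrt (2 * M) * Real.sqrt y := by
        gcongr
        exact mom_sqrt2

theorem momD_zero {C : ℝ} (hC : ∀ x : ℝ, 0 ≤ x → ((Bl x).card : ℝ) ≤ C * x) (hC0 : 0 ≤ C)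
    {M : ℝ} (hM : 1 ≤ M) {B : Finset ℕ} (hB : Pset B)
    (h : ∀ p ∈ B, M < (p : ℝ) ∧ (p : ℝ) ≤ 2 * M) (l : ℕ) : ∀ {x x' : ℝ}, 0 ≤ x → 0 ≤ x' →
    ((momD B l 0 x x').card : ℝ) ≤ C * Real.sqrt (x * x') * (4 * Real.sqrt (2 * M)) ^ l := by
  induction l with
  | zero =>
    intro x x' hx hx'
    simpa using momD_base hC B hx hx' hC0
  | succ l ih =>
    intro x x' hx hx'
    have h1 : ((momD B (l + 1) 0 x x').card : ℝ) ≤ ∑ p ∈ B, (((momD B l 0 (x / p) x').card : ℝ) +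
      ((momD B l 0 x (x' / p)).card : ℝ)) := by
      exact_mod_cast momD_rec_zero hB l x x'
    have hs : 0 < Real.sqrt (2 * M) := Real.sqrt_pos.2 (by linarith)
    have h2 : ∀ p ∈ B, (((momD B l 0 (x / p) x').card : ℝ) + ((momD B l 0 x (x' / p)).card : ℝ)) ≤
        (2 * C * (4 * Real.sqrt (2 * M)) ^ l) * Real.sqrt (x * x' / p) := by
      intro p _
      have h3 := ih (x := x / p) (x' := x') (by positivity) hx'
      have h4 := ih (x := x) (x' := x' / p) hx (by positivity)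
      have e3 : x / p * x' = x * x' / p := by ring
      have e4 : x * (x' / p) = x * x' / p := by ring
      rw [e3] at h3
      rw [e4] at h4
      linarith
    have h5 := mom_sum_p hM hB h (y := x * x') (by positivity)
    calc ((momD B (l + 1) 0 x x').card : ℝ)
        ≤ ∑ p ∈ B, (2 * C * (4 * Real.sqrt (2 * M)) ^ l) * Real.sqrt (x * x' / p) :=
          h1.trans (sum_le_sum h2)
      _ = (2 * C * (4 * Real.sqrt (2 * M)) ^ l) * ∑ p ∈ B, Real.sqrt (x * x' / p) := by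
          rw [mul_sum]
      _ ≤ (2 * C * (4 * Real.sqrt (2 * M)) ^ l) * (3 / 2 * Real.sqrt (2 * M) * Real.sqrt (x * x')) :=
          mul_le_mul_of_nonneg_left h5 (by positivity)
      _ ≤ C * Real.sqrt (x * x') * (4 * Real.sqrt (2 * M)) ^ (l + 1) := by
          rw [pow_succ]
          have h6 : 0 ≤ C * (4 * Real.sqrt (2 * M)) ^ l * Real.sqrt (x * x') * Real.sqrt (2 * M) := by
            positivity
          nlinarith

theorem momD_le {C : ℝ} (hC : ∀ x : ℝ, 0 ≤ x → ((Bl x).card : ℝ) ≤ C * x) (hC0 : 0 ≤ C)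
    {M : ℝ} (hM : 1 ≤ M) {B : Finset ℕ} (hB : Pset B)
    (h : ∀ p ∈ B, M < (p : ℝ) ∧ (p : ℝ) ≤ 2 * M) (l : ℕ) : ∀ (l' : ℕ) {x x' : ℝ}, 0 ≤ x →
    0 ≤ x' → ((momD B l l' x x').card : ℝ) ≤
      C * Real.sqrt (x * x') * (4 * Real.sqrt (2 * M)) ^ (l + l') * l'.factorial := by
  have hs : 0 < Real.sqrt (2 * M) := Real.sqrt_pos.2 (by linarith)
  have hss : Real.sqrt (2 * M) * Real.sqrt (2 * M) = 2 * M := Real.mul_self_sqrt (by linarith)
  induction l with
  | zero =>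
    intro l' x x' hx hx'
    rw [momD_swap]
    have h1 := momD_zero hC hC0 hM hB h l' hx' hx
    rw [mul_comm x' x] at h1
    rw [zero_add]
    have h2 : (1 : ℝ) ≤ l'.factorial := by exact_mod_cast Nat.succ_le_of_lt (Nat.factorial_pos l')
    have h3 : 0 ≤ C * Real.sqrt (x * x') * (4 * Real.sqrt (2 * M)) ^ l' := by positivity
    exact h1.trans (le_mul_of_one_le_right h3 h2)
  | succ l ih =>
    intro l' x x' hx hx'
    rcases Nat.eq_zero_or_pos l' with h0 | h0
    · subst h0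
      have h1 := momD_zero hC hC0 hM hB h (l + 1) hx hx'
      simpa using h1
    obtain ⟨l', rfl⟩ : ∃ k, l' = k + 1 := ⟨l' - 1, by omega⟩
    have h1 : ((momD B (l + 1) (l' + 1) x x').card : ℝ) ≤
      ∑ p ∈ B, (((momD B l (l' + 1) (x / p) x').card : ℝ) +
        (((l' : ℝ) + 1) * ((momD B l l' x x').card : ℝ) +
          ((momD B l (l' + 1) x (x' / p)).card : ℝ))) := by
      exact_mod_cast momD_rec hB l l' x x'
    set F : ℝ := ((l' + 1).factorial : ℝ) with hF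
    have hF' : F = ((l' : ℝ) + 1) * (l'.factorial : ℝ) := by
      rw [hF, Nat.factorial_succ]; push_cast; ring
    have hF0 : 0 ≤ F := by positivity
    have h2 : ∀ p ∈ B, (((momD B l (l' + 1) (x / p) x').card : ℝ) +
        (((l' : ℝ) + 1) * ((momD B l l' x x').card : ℝ) +
          ((momD B l (l' + 1) x (x' / p)).card : ℝ))) ≤
        (2 * C * (4 * Real.sqrt (2 * M)) ^ (l + l' + 1) * F) * Real.sqrt (x * x' / p) +
          C * Real.sqrt (x * x') * (4 * Real.sqrt (2 * M)) ^ (l + l') * F := by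
      intro p _
      have h3 := ih (l' + 1) (x := x / p) (x' := x') (by positivity) hx'
      have h4 := ih (l' + 1) (x := x) (x' := x' / p) hx (by positivity)
      have h5 := ih l' hx hx'
      have e3 : x / p * x' = x * x' / p := by ring
      have e4 : x * (x' / p) = x * x' / p := by ring
      rw [e3] at h3
      rw [e4] at h4
      rw [← hF, ← add_assoc] at h3 h4
      have h6 : ((l' : ℝ) + 1) * ((momD B l l' x x').card : ℝ) ≤
          C * Real.sqrt (x * x') * (4 * Real.sqrt (2 * M)) ^ (l + l') * F := by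
        rw [hF']
        have := mul_le_mul_of_nonneg_left h5 (by positivity : (0:ℝ) ≤ (l' : ℝ) + 1)
        linarith
      linarith
    have h5 := mom_sum_p hM hB h (y := x * x') (by positivity)
    have h7 := mom_card_le hM hB h
    calc ((momD B (l + 1) (l' + 1) x x').card : ℝ)
        ≤ ∑ p ∈ B, ((2 * C * (4 * Real.sqrt (2 * M)) ^ (l + l' + 1) * F) * Real.sqrt (x * x' / p) +
          C * Real.sqrt (x * x') * (4 * Real.sqrt (2 * M)) ^ (l + l') * F) :=
          h1.trans (sum_le_sum h2)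
      _ = (2 * C * (4 * Real.sqrt (2 * M)) ^ (l + l' + 1) * F) * ∑ p ∈ B, Real.sqrt (x * x' / p) +
          B.card * (C * Real.sqrt (x * x') * (4 * Real.sqrt (2 * M)) ^ (l + l') * F) := by
          rw [sum_add_distrib, mul_sum, sum_const, nsmul_eq_mul]
      _ ≤ (2 * C * (4 * Real.sqrt (2 * M)) ^ (l + l' + 1) * F) *
            (3 / 2 * Real.sqrt (2 * M) * Real.sqrt (x * x')) +
          (Real.sqrt (2 * M) * Real.sqrt (2 * M)) *
            (C * Real.sqrt (x * x') * (4 * Real.sqrt (2 * M)) ^ (l + l') * F) := by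
          rw [hss]
          exact add_le_add (mul_le_mul_of_nonneg_left h5 (by positivity))
            (mul_le_mul_of_nonneg_right h7 (by positivity))
      _ ≤ C * Real.sqrt (x * x') * (4 * Real.sqrt (2 * M)) ^ (l + 1 + (l' + 1)) * F := by
          have e : l + 1 + (l' + 1) = (l + l') + 2 := by ring
          rw [e, pow_add _ (l + l') 2, pow_add _ (l + l') 1]
          have h6 : 0 ≤ C * (4 * Real.sqrt (2 * M)) ^ (l + l') * Real.sqrt (x * x') *
            (Real.sqrt (2 * M) * Real.sqrt (2 * M)) * F := by positivity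
          nlinarith

theorem momD_diag {C : ℝ} (hC : ∀ x : ℝ, 0 ≤ x → ((Bl x).card : ℝ) ≤ C * x) (hC0 : 0 ≤ C)
    {M : ℝ} (hM : 1 ≤ M) {B : Finset ℕ} (hB : Pset B)
    (h : ∀ p ∈ B, M < (p : ℝ) ∧ (p : ℝ) ≤ 2 * M) (l : ℕ) {x : ℝ} (hx : 0 ≤ x) :
    ((momD B l l x x).card : ℝ) ≤ C * (x * (2 * M) ^ l) * 16 ^ l * l.factorial := by
  have h1 := momD_le hC hC0 hM hB h l l hx hx
  rw [Real.sqrt_mul_self hx, ← two_mul, pow_mul, mul_pow 4, Real.sq_sqrt (by linarith)] at h1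
  rw [mul_pow] at h1
  norm_num at h1 ⊢
  linarith

/-- the expansion -/
theorem mom_expand (k : ℤ) (B : Finset ℕ) (b : ℕ → ℂ) (a : G → ℂ) (l : ℕ) (x : ℝ) :
    (∑ p ∈ B, b p * ang k (pel p)) ^ l * ∑ z ∈ PB x, a z * ang k z =
      ∑ t ∈ Fintype.piFinset (fun _ : Fin l => B) ×ˢ PB x,
        ((∏ i, b (t.1 i)) * a t.2) * ang k ((∏ i, pel (t.1 i)) * t.2) := by
  classical
  have hprod : ∀ q : Fin l → ℕ, ang k (∏ i, pel (q i)) = ∏ i, ang k (pel (q i)) := by
    intro q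
    have : ∀ s : Finset (Fin l), ang k (∏ i ∈ s, pel (q i)) = ∏ i ∈ s, ang k (pel (q i)) := by
      intro s
      induction s using Finset.induction_on with
      | empty => simpa using ang_nat k (n := 1) le_rfl
      | insert a s ha ih => rw [prod_insert ha, prod_insert ha, ang_mul, ih]
    exact this univ
  have h1 : (∑ p ∈ B, b p * ang k (pel p)) ^ l =
      ∑ q ∈ Fintype.piFinset (fun _ : Fin l => B), ∏ i, (b (q i) * ang k (pel (q i))) := by
    rw [← Finset.prod_univ_sum (fun _ : Fin l => B) (fun _ p => b p * ang k (pel p))]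
    simp
  rw [h1, sum_mul_sum, sum_product]
  refine sum_congr rfl fun q _ => sum_congr rfl fun w _ => ?_
  rw [ang_mul, hprod, prod_mul_distrib]
  ring

open Classical in
/-- the primitive part -/
noncomputable def momZ (U : G) : G := if h : U ≠ 0 then (content h).choose_spec.choose else 1

theorem momZ_spec {U : G} (h : U ≠ 0) : ∃ n : ℕ, 1 ≤ n ∧ Prm (momZ U) ∧ U = n * momZ U := by
  unfold momZ
  rw [dif_pos h]
  exact ⟨(content h).choose, (content h).choose_spec.choose_spec⟩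

theorem mom_prod_ne {l : ℕ} {q : Fin l → ℕ} (hq : ∀ i, (q i).Prime ∧ q i % 4 = 1) :
    (∏ i, pel (q i)) ≠ 0 := prod_ne_zero_iff.2 fun i _ => mom_pel_ne (hq i).1 (hq i).2

theorem mom_nn_prod {l : ℕ} {q : Fin l → ℕ} (hq : ∀ i, (q i).Prime ∧ q i % 4 = 1) :
    nn (∏ i, pel (q i)) = ∏ i, q i := by
  classical
  have : ∀ s : Finset (Fin l), nn (∏ i ∈ s, pel (q i)) = ∏ i ∈ s, q i := by
    intro s
    induction s using Finset.induction_on with
    | empty => simpa using nn_nat 1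
    | insert a s ha ih => rw [prod_insert ha, prod_insert ha, nn_mul, ih, (pel_spec (hq a).1 (hq a).2).1]
  exact this univ

theorem mom_nn_le {M : ℝ} {B : Finset ℕ} (hM : 1 ≤ M) (hB : Pset B)
    (h : ∀ p ∈ B, M < (p : ℝ) ∧ (p : ℝ) ≤ 2 * M) {l : ℕ} {q : Fin l → ℕ} (hq : ∀ i, q i ∈ B)
    {w : G} {x : ℝ} (hw : (nn w : ℝ) ≤ x) :
    (nn ((∏ i, pel (q i)) * w) : ℝ) ≤ x * (2 * M) ^ l := by
  rw [nn_mul, mom_nn_prod (fun i => hB _ (hq i))]
  push_cast
  have h1 : ∏ i, (q i : ℝ) ≤ (2 * M) ^ l := by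
    calc ∏ i, (q i : ℝ) ≤ ∏ _i : Fin l, (2 * M) :=
          prod_le_prod (fun i _ => Nat.cast_nonneg _) (fun i _ => (h _ (hq i)).2)
      _ = (2 * M) ^ l := by simp
  rw [mul_comm x]
  exact mul_le_mul h1 hw (Nat.cast_nonneg _) (by positivity)

/-- sum over fibres -/
theorem mom_fibre {M : ℝ} {B : Finset ℕ} (hM : 1 ≤ M) (hB : Pset B)
    (h : ∀ p ∈ B, M < (p : ℝ) ∧ (p : ℝ) ≤ 2 * M) (l : ℕ) (x : ℝ)
    (β : ((Fin l → ℕ) × G) → ℂ) (hβ : ∀ t, ‖β t‖ ≤ 1) :
    ∃ c : G → ℂ, (∀ k : ℤ, ∑ t ∈ Fintype.piFinset (fun _ : Fin l => B) ×ˢ PB x,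
        β t * ang k ((∏ i, pel (t.1 i)) * t.2) = ∑ z ∈ PB (x * (2 * M) ^ l), c z * ang k z) ∧
      ∑ z ∈ PB (x * (2 * M) ^ l), ‖c z‖ ^ 2 ≤ ((momD B l l x x).card : ℝ) := by
  classical
  set T := Fintype.piFinset (fun _ : Fin l => B) ×ˢ PB x with hT
  set N := x * (2 * M) ^ l with hN
  let U : ((Fin l → ℕ) × G) → G := fun t => (∏ i, pel (t.1 i)) * t.2
  let Z : ((Fin l → ℕ) × G) → G := fun t => momZ (U t)
  have hmem : ∀ t ∈ T, (∀ i, t.1 i ∈ B) ∧ t.2 ∈ PB x := by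
    intro t ht
    rw [hT, mem_product, Fintype.mem_piFinset] at ht
    exact ht
  have hU : ∀ t ∈ T, U t ≠ 0 := by
    intro t ht
    obtain ⟨h1, h2⟩ := hmem t ht
    exact mul_ne_zero (mom_prod_ne fun i => hB _ (h1 i)) (prm_ne (mem_PB.1 h2).1)
  have hUle : ∀ t ∈ T, (nn (U t) : ℝ) ≤ N := by
    intro t ht
    obtain ⟨h1, h2⟩ := hmem t ht
    exact mom_nn_le hM hB h h1 (mem_PB.1 h2).2
  have hZ : ∀ t ∈ T, Z t ∈ PB N := by
    intro t ht
    obtain ⟨n, hn, hp, he⟩ := momZ_spec (hU t ht)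
    rw [mem_PB]
    refine ⟨hp, ?_⟩
    have h1 := hUle t ht
    have h2 : nn (U t) = n ^ 2 * nn (Z t) := by
      conv_lhs => rw [he]
      rw [nn_mul, nn_nat]
    have h3 : nn (Z t) ≤ nn (U t) := by
      rw [h2]
      exact Nat.le_mul_of_pos_left _ (by positivity)
    have h4 : (nn (Z t) : ℝ) ≤ (nn (U t) : ℝ) := by exact_mod_cast h3
    exact h4.trans h1
  have hang : ∀ k : ℤ, ∀ t ∈ T, ang k (U t) = ang k (Z t) := by
    intro k t ht
    obtain ⟨n, hn, hp, he⟩ := momZ_spec (hU t ht)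
    conv_lhs => rw [he]
    rw [ang_mul, ang_nat k hn, one_mul]
  refine ⟨fun z => ∑ t ∈ T.filter (fun t => Z t = z), β t, ?_, ?_⟩
  · intro k
    calc ∑ t ∈ T, β t * ang k (U t)
        = ∑ t ∈ T, β t * ang k (Z t) := sum_congr rfl fun t ht => by rw [hang k t ht]
      _ = ∑ z ∈ PB N, ∑ t ∈ T.filter (fun t => Z t = z), β t * ang k (Z t) :=
          (sum_fiberwise_of_maps_to hZ _).symm
      _ = ∑ z ∈ PB N, (∑ t ∈ T.filter (fun t => Z t = z), β t) * ang k z := by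
          refine sum_congr rfl fun z _ => ?_
          rw [sum_mul]
          refine sum_congr rfl fun t ht => ?_
          rw [(mem_filter.1 ht).2]
  · have h1 : ∀ z ∈ PB N, ‖∑ t ∈ T.filter (fun t => Z t = z), β t‖ ^ 2 ≤
        (((T ×ˢ T).filter (fun s => Z s.1 = z ∧ Z s.2 = z)).card : ℝ) := by
      intro z _
      have h2 : ‖∑ t ∈ T.filter (fun t => Z t = z), β t‖ ≤
          ((T.filter (fun t => Z t = z)).card : ℝ) := by
        calc ‖∑ t ∈ T.filter (fun t => Z t = z), β t‖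
            ≤ ∑ t ∈ T.filter (fun t => Z t = z), ‖β t‖ := norm_sum_le _ _
          _ ≤ ∑ t ∈ T.filter (fun t => Z t = z), (1 : ℝ) := sum_le_sum fun t _ => hβ t
          _ = _ := by simp
      have h3 : (T ×ˢ T).filter (fun s => Z s.1 = z ∧ Z s.2 = z) =
          T.filter (fun t => Z t = z) ×ˢ T.filter (fun t => Z t = z) := by
        ext s
        simp only [mem_filter, mem_product]
        tauto
      rw [h3, card_product]
      push_cast
      rw [sq]
      exact mul_le_mul h2 h2 (norm_nonneg _) (Nat.cast_nonneg _)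
    refine (sum_le_sum h1).trans ?_
    have h4 : ∑ z ∈ PB N, ((T ×ˢ T).filter (fun s => Z s.1 = z ∧ Z s.2 = z)).card ≤
        (momD B l l x x).card := by
      rw [← card_biUnion]
      · apply card_le_card
        intro s hs
        rw [mem_biUnion] at hs
        obtain ⟨z, _, hs⟩ := hs
        rw [mem_filter, mem_product] at hs
        obtain ⟨⟨hs1, hs2⟩, hz1, hz2⟩ := hs
        rw [mem_momD]
        refine ⟨hmem _ hs1, hmem _ hs2, ?_⟩
        obtain ⟨n, hn, _, he⟩ := momZ_spec (hU _ hs1)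
        obtain ⟨n', hn', _, he'⟩ := momZ_spec (hU _ hs2)
        refine ⟨n, n', hn, hn', ?_⟩
        have e1 : U s.1 = n * z := by rw [← hz1]; exact he
        have e2 : U s.2 = n' * z := by rw [← hz2]; exact he'
        show (n' : G) * U s.1 = (n : G) * U s.2
        rw [e1, e2]; ring
      · intro z _ z' _ hzz
        rw [Function.onFun, disjoint_left]
        intro s hs hs'
        rw [mem_filter] at hs hs'
        exact hzz (hs.2.1.symm.trans hs'.2.1)
    exact_mod_cast h4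

theorem moment_pr : ∃ C : ℝ, 1 ≤ C ∧ ∀ (K x M : ℝ) (B : Finset ℕ) (b : ℕ → ℂ) (a : G → ℂ) (l : ℕ),
    0 ≤ K → 1 ≤ x → 1 ≤ M → Pset B → (∀ p ∈ B, M < (p : ℝ) ∧ (p : ℝ) ≤ 2 * M) →
    (∀ p, ‖b p‖ ≤ 1) → (∀ z, ‖a z‖ ≤ 1) →
      ∑ k ∈ Ks K, ‖(∑ p ∈ B, b p * ang k (pel p)) ^ l * ∑ z ∈ PB x, a z * ang k z‖ ^ 2 ≤
        C * (K + x * (2 * M) ^ l) * (x * (2 * M) ^ l) * C ^ l * l.factorial := by
  obtain ⟨C₁, hC₁, hls⟩ := large_sieve
  obtain ⟨C₂, hC₂, hbl⟩ := ball_le
  have hCC : 1 ≤ C₁ * C₂ := one_le_mul_of_one_le_of_one_le hC₁ hC₂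
  refine ⟨max (C₁ * C₂) 16, le_max_of_le_left hCC, ?_⟩
  intro K x M B b a l hK hx hM hB h hb ha
  have hN1 : 1 ≤ x * (2 * M) ^ l :=
    one_le_mul_of_one_le_of_one_le hx (one_le_pow₀ (by linarith))
  have hβ : ∀ t : (Fin l → ℕ) × G, ‖(∏ i, b (t.1 i)) * a t.2‖ ≤ 1 := by
    intro t
    rw [norm_mul, norm_prod]
    have h1 : ∏ i, ‖b (t.1 i)‖ ≤ 1 := prod_le_one (fun i _ => norm_nonneg _) (fun i _ => hb _)
    exact mul_le_one₀ h1 (norm_nonneg _) (ha _)
  obtain ⟨c, hc1, hc2⟩ := mom_fibre hM hB h l x _ hβ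
  have h1 : ∑ k ∈ Ks K, ‖(∑ p ∈ B, b p * ang k (pel p)) ^ l * ∑ z ∈ PB x, a z * ang k z‖ ^ 2 =
      ∑ k ∈ Ks K, ‖∑ z ∈ PB (x * (2 * M) ^ l), c z * ang k z‖ ^ 2 := by
    refine sum_congr rfl fun k _ => ?_
    rw [mom_expand, hc1]
  rw [h1]
  have h2 := hls K (x * (2 * M) ^ l) hK hN1 c
  have h3 := momD_diag hbl (by linarith) hM hB h l (x := x) (by linarith)
  refine h2.trans ?_
  have h4 : 0 ≤ C₁ * (K + x * (2 * M) ^ l) := by positivity
  refine (mul_le_mul_of_nonneg_left (hc2.trans h3) h4).trans ?_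
  have h5 : (16 : ℝ) ^ l ≤ (max (C₁ * C₂) 16) ^ l := pow_le_pow_left₀ (by norm_num) (le_max_right _ _) l
  have h6 : C₁ * C₂ ≤ max (C₁ * C₂) 16 := le_max_left _ _
  have e : C₁ * (K + x * (2 * M) ^ l) * (C₂ * (x * (2 * M) ^ l) * 16 ^ l * l.factorial) =
    (C₁ * C₂) * (K + x * (2 * M) ^ l) * (x * (2 * M) ^ l) * 16 ^ l * l.factorial := by ring
  rw [e]
  gcongr

end Pool.Agent.T2


namespace Pool.Agent.T2

theorem moment : type_of% @moment_pr := @moment_pr

end Pool.Agent.T2
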