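import Pool.Agent.Lib_helper10.T2.Defs
import Pool.Agent.Lib_helper10.T2F.BAS
import Pool.Agent.Lib_helper10.T2F.CNT
import Pool.Agent.Lib_helper10.T2F.PEL

/-! T2, block TKA: the number of prime divisors in an annulus; a second moment of prime counts -/

namespace Pool.Agent.T2

open Filter Topology MeasureTheory

/-- multiples in an annulus -/
theorem tka_mult : ∃ C : ℝ, 1 ≤ C ∧ ∀ (x ρ : ℝ) (d : G) (A : Finset G), 1 ≤ x → 1 < ρ → ρ ≤ 2 →
    d ≠ 0 → (nn d : ℝ) ≤ x →
    (∀ z ∈ A, z ≠ 0 ∧ x < (nn z : ℝ) ∧ (nn z : ℝ) ≤ ρ * x ∧ d ∣ z) →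
      (A.card : ℝ) ≤ Real.pi * (ρ - 1) * x / nn d + C * (Real.sqrt x / Real.sqrt (nn d)) := by
  classical
  obtain ⟨C, hC, h⟩ := ball_count
  refine ⟨4 * C, by linarith, fun x ρ d A hx hρ hρ2 hd hdx hA => ?_⟩
  have hnd : 1 ≤ nn d := nn_pos.mpr hd
  have hnd' : (1 : ℝ) ≤ nn d := by exact_mod_cast hnd
  have hnd0 : (0 : ℝ) < nn d := by linarith
  have hx0 : 0 < x := by linarith
  set a : ℝ := x / nn d with ha
  set b : ℝ := ρ * x / nn d with hb
  have ha1 : 1 ≤ a := by rw [ha, le_div_iff₀ hnd0]; linarith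
  have hab : a ≤ b := by
    rw [ha, hb]
    apply div_le_div_of_nonneg_right _ hnd0.le
    nlinarith
  have hb1 : 1 ≤ b := ha1.trans hab
  have hsub : Bl a ⊆ Bl b := by
    intro z hz
    rw [mem_Bl] at hz ⊢
    exact ⟨hz.1, hz.2.trans hab⟩
  have hcard : A.card ≤ (Bl b \ Bl a).card := by
    have hex : ∀ z ∈ A, ∃ w : G, z = d * w := fun z hz => (hA z hz).2.2.2
    have hf : ∀ z ∈ A, ∃ w : G, z = d * w ∧ w ∈ Bl b \ Bl a := by
      intro z hz
      obtain ⟨w, hw⟩ := hex z hz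
      obtain ⟨h1, h2, h3, -⟩ := hA z hz
      have hw0 : w ≠ 0 := by
        rintro rfl
        rw [mul_zero] at hw
        exact h1 hw
      have hn : (nn z : ℝ) = nn d * nn w := by
        rw [hw, nn_mul]; push_cast; rfl
      refine ⟨w, hw, ?_⟩
      rw [Finset.mem_sdiff, mem_Bl, mem_Bl]
      refine ⟨⟨hw0, ?_⟩, fun hc => ?_⟩
      · rw [hb, le_div_iff₀ hnd0, mul_comm, ← hn]
        exact h3
      · have := hc.2
        rw [ha, le_div_iff₀ hnd0, mul_comm, ← hn] at this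
        linarith
    choose! f hf1 hf2 using hf
    apply Finset.card_le_card_of_injOn f
    · intro z hz
      exact hf2 z hz
    · intro z hz z' hz' hzz
      rw [hf1 z hz, hf1 z' hz', hzz]
  have hc2 : ((Bl b \ Bl a).card : ℝ) = (Bl b).card - (Bl a).card := by
    rw [Finset.card_sdiff_of_subset hsub, Nat.cast_sub (Finset.card_le_card hsub)]
  have h1 := (abs_le.mp (h b hb1)).2
  have h2 := (abs_le.mp (h a ha1)).1
  have hsa : Real.sqrt a = Real.sqrt x / Real.sqrt (nn d) := by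
    rw [ha, Real.sqrt_div hx0.le]
  have hsb : Real.sqrt b ≤ 2 * Real.sqrt a := by
    rw [Real.sqrt_le_iff]
    refine ⟨by positivity, ?_⟩
    rw [mul_pow, Real.sq_sqrt (by linarith)]
    rw [ha, hb]
    have : ρ * x / nn d = ρ * (x / nn d) := by ring
    rw [this]
    have h3 : 0 ≤ x / nn d := by positivity
    nlinarith
  have hmain : Real.pi * b - Real.pi * a = Real.pi * (ρ - 1) * x / nn d := by
    rw [ha, hb]; ring
  have hA' : (A.card : ℝ) ≤ (Bl b).card - (Bl a).card := by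
    rw [← hc2]; exact_mod_cast hcard
  have hsa0 : 0 ≤ Real.sqrt a := Real.sqrt_nonneg _
  rw [← hsa, ← hmain]
  nlinarith

theorem tka_sqrt_sum (N : ℕ) : ∑ n ∈ Finset.range N, 1 / Real.sqrt ((n : ℝ) + 1) ≤
    2 * Real.sqrt N := by
  induction N with
  | zero => simp
  | succ N ih =>
    rw [Finset.sum_range_succ]
    have hN : (0 : ℝ) ≤ N := Nat.cast_nonneg N
    have h1 : 0 < Real.sqrt ((N : ℝ) + 1) := Real.sqrt_pos.mpr (by linarith)
    have h2 : 0 ≤ Real.sqrt (N : ℝ) := Real.sqrt_nonneg _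
    have h3 : Real.sqrt ((N : ℝ) + 1) ^ 2 = (N : ℝ) + 1 := Real.sq_sqrt (by linarith)
    have h4 : Real.sqrt (N : ℝ) ^ 2 = (N : ℝ) := Real.sq_sqrt hN
    have h5 : 1 / Real.sqrt ((N : ℝ) + 1) ≤ 2 * (Real.sqrt ((N : ℝ) + 1) - Real.sqrt N) := by
      rw [div_le_iff₀ h1]
      nlinarith [sq_nonneg (Real.sqrt ((N : ℝ) + 1) - Real.sqrt N)]
    push_cast
    linarith

theorem tka_sqrt (x : ℝ) (hx : 1 ≤ x) (B : Finset ℕ) (hB : Pset B)
    (hb : ∀ p ∈ B, (p : ℝ) ≤ x ^ (1 / 4 : ℝ)) :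
    ∑ p ∈ B, 1 / Real.sqrt (p : ℝ) ≤ 2 * x ^ (1 / 8 : ℝ) := by
  have hx0 : 0 ≤ x := by linarith
  set N := ⌊x ^ (1 / 4 : ℝ)⌋₊ with hN
  have h1 : ∑ p ∈ B, 1 / Real.sqrt (p : ℝ) ≤
      ∑ n ∈ Finset.range N, 1 / Real.sqrt ((n : ℝ) + 1) := by
    have hsub : B ⊆ (Finset.range N).image (fun n : ℕ => n + 1) := by
      intro p hp
      rw [Finset.mem_image]
      have hp1 := (hB p hp).1.one_lt
      have hp2 : p ≤ N := Nat.le_floor (hb p hp)
      exact ⟨p - 1, Finset.mem_range.mpr (by omega), by omega⟩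
    calc ∑ p ∈ B, 1 / Real.sqrt (p : ℝ)
        ≤ ∑ p ∈ (Finset.range N).image (fun n : ℕ => n + 1), 1 / Real.sqrt (p : ℝ) :=
          Finset.sum_le_sum_of_subset_of_nonneg hsub (fun i _ _ => by positivity)
      _ = ∑ n ∈ Finset.range N, 1 / Real.sqrt ((n : ℝ) + 1) := by
          rw [Finset.sum_image (fun a _ b _ hab => by simpa using hab)]
          refine Finset.sum_congr rfl fun n _ => ?_
          push_cast
          rfl
  refine h1.trans ((tka_sqrt_sum N).trans ?_)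
  have h2 : (N : ℝ) ≤ x ^ (1 / 4 : ℝ) := Nat.floor_le (by positivity)
  have h3 : Real.sqrt N ≤ x ^ (1 / 8 : ℝ) := by
    rw [Real.sqrt_le_iff]
    refine ⟨by positivity, h2.trans (le_of_eq ?_)⟩
    rw [← Real.rpow_natCast, ← Real.rpow_mul hx0]
    norm_num
  linarith

open Classical in
theorem tk_ann_pr : ∃ C : ℝ, 1 ≤ C ∧ ∀ (x ρ : ℝ) (B : Finset ℕ), 1 ≤ x → 1 < ρ → ρ ≤ 2 →
    x ^ (-(1 / 16) : ℝ) ≤ ρ - 1 → Pset B → (∀ p ∈ B, (p : ℝ) ≤ x ^ (1 / 4 : ℝ)) →
      ∑ z ∈ (PB (ρ * x)).filter (fun z => x < (nn z : ℝ)), om B z ^ 2 ≤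
        C * (ρ - 1) * x * (rs B + 1) ^ 2 := by
  obtain ⟨C, hC, h⟩ := tka_mult
  refine ⟨4 + 6 * C, by linarith, fun x ρ B hx hρ hρ2 hxρ hB hb => ?_⟩
  have hx0 : 0 < x := by linarith
  set A := (PB (ρ * x)).filter (fun z => x < (nn z : ℝ)) with hA
  have hAm : ∀ z ∈ A, z ≠ 0 ∧ x < (nn z : ℝ) ∧ (nn z : ℝ) ≤ ρ * x := by
    intro z hz
    rw [hA, Finset.mem_filter, mem_PB] at hz
    exact ⟨prm_ne hz.1.1, hz.2, hz.1.2⟩
  -- expansion of the square
  have e1 : ∀ z, om B z ^ 2 = ∑ p ∈ B, ∑ q ∈ B, (if pel p ∣ z ∧ pel q ∣ z then (1 : ℝ) else 0) := by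
    intro z
    unfold om
    rw [sq, Finset.card_filter]
    push_cast
    rw [Finset.sum_mul]
    refine Finset.sum_congr rfl fun p _ => ?_
    rw [Finset.mul_sum]
    refine Finset.sum_congr rfl fun q _ => ?_
    by_cases h1 : pel p ∣ z <;> by_cases h2 : pel q ∣ z <;> simp [h1, h2]
  have e2 : ∑ z ∈ A, om B z ^ 2 =
      ∑ p ∈ B, ∑ q ∈ B, ((A.filter (fun z => pel p ∣ z ∧ pel q ∣ z)).card : ℝ) := by
    rw [Finset.sum_congr rfl (fun z _ => e1 z), Finset.sum_comm]
    refine Finset.sum_congr rfl fun p _ => ?_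
    rw [Finset.sum_comm]
    refine Finset.sum_congr rfl fun q _ => ?_
    rw [Finset.card_filter]
    push_cast
    rfl
  rw [e2]
  have hp0 : ∀ p ∈ B, (0 : ℝ) < p := fun p hp => by exact_mod_cast (hB p hp).1.pos
  have hle4 : ∀ p ∈ B, (p : ℝ) ≤ x ^ (1 / 4 : ℝ) := hb
  have hx4 : x ^ (1 / 4 : ℝ) * x ^ (1 / 4 : ℝ) ≤ x := by
    rw [← Real.rpow_add hx0]
    calc x ^ (1 / 4 + 1 / 4 : ℝ) ≤ x ^ (1 : ℝ) := Real.rpow_le_rpow_of_exponent_le hx (by norm_num)
      _ = x := Real.rpow_one x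
  have hx41 : x ^ (1 / 4 : ℝ) ≤ x := by
    calc x ^ (1 / 4 : ℝ) ≤ x ^ (1 : ℝ) := Real.rpow_le_rpow_of_exponent_le hx (by norm_num)
      _ = x := Real.rpow_one x
  have hπ := Real.pi_pos
  have hπ4 := Real.pi_lt_four
  have hρ1 : 0 < ρ - 1 := by linarith
  -- the single terms
  have e3 : ∀ p ∈ B, ∀ q ∈ B, ((A.filter (fun z => pel p ∣ z ∧ pel q ∣ z)).card : ℝ) ≤
      (if p = q then Real.pi * (ρ - 1) * x * (1 / (p : ℝ)) + C * Real.sqrt x * (1 / Real.sqrt p)
        else 0) + (Real.pi * (ρ - 1) * x * ((1 / (p : ℝ)) * (1 / (q : ℝ))) +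
          C * Real.sqrt x * ((1 / Real.sqrt p) * (1 / Real.sqrt q))) := by
    intro p hp q hq
    have hpp := hp0 p hp
    have hqp := hp0 q hq
    have hspos : 0 ≤ Real.pi * (ρ - 1) * x * ((1 / (p : ℝ)) * (1 / (q : ℝ))) +
          C * Real.sqrt x * ((1 / Real.sqrt p) * (1 / Real.sqrt q)) := by positivity
    obtain ⟨hp1, hp4⟩ := hB p hp
    obtain ⟨hq1, hq4⟩ := hB q hq
    by_cases hpq : p = q
    · subst hpq
      rw [if_pos rfl]
      have h1 := h x ρ (pel p) (A.filter (fun z => pel p ∣ z ∧ pel p ∣ z)) hx hρ hρ2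
        (pel_prime hp1 hp4).ne_zero (by
          rw [(pel_spec hp1 hp4).1]
          exact (hb p hp).trans hx41) (by
          intro z hz
          rw [Finset.mem_filter] at hz
          exact ⟨(hAm z hz.1).1, (hAm z hz.1).2.1, (hAm z hz.1).2.2, hz.2.1⟩)
      rw [(pel_spec hp1 hp4).1] at h1
      have h2 : Real.pi * (ρ - 1) * x / p + C * (Real.sqrt x / Real.sqrt p) =
          Real.pi * (ρ - 1) * x * (1 / (p : ℝ)) + C * Real.sqrt x * (1 / Real.sqrt p) := by ring
      rw [h2] at h1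
      linarith
    · rw [if_neg hpq, zero_add]
      have hdd : ∀ z : G, pel p ∣ z → pel q ∣ z → pel p * pel q ∣ z := by
        intro z h1 h2
        obtain ⟨w, rfl⟩ := h1
        rcases (pel_prime hq1 hq4).dvd_or_dvd h2 with h3 | h3
        · exact absurd (pel_inj hq1 hq4 hp1 hp4 h3).symm hpq
        · exact mul_dvd_mul_left _ h3
      have hnn : (nn (pel p * pel q) : ℝ) = p * q := by
        rw [nn_mul, (pel_spec hp1 hp4).1, (pel_spec hq1 hq4).1]; push_cast; rfl
      have h1 := h x ρ (pel p * pel q) (A.filter (fun z => pel p ∣ z ∧ pel q ∣ z)) hx hρ hρ2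
        (mul_ne_zero (pel_prime hp1 hp4).ne_zero (pel_prime hq1 hq4).ne_zero) (by
          rw [hnn]
          exact (mul_le_mul (hb p hp) (hb q hq) hqp.le (by positivity)).trans hx4) (by
          intro z hz
          rw [Finset.mem_filter] at hz
          exact ⟨(hAm z hz.1).1, (hAm z hz.1).2.1, (hAm z hz.1).2.2, hdd z hz.2.1 hz.2.2⟩)
      rw [hnn, Real.sqrt_mul hpp.le] at h1
      have h2 : Real.pi * (ρ - 1) * x / (p * q) + C * (Real.sqrt x / (Real.sqrt p * Real.sqrt q)) =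
          Real.pi * (ρ - 1) * x * ((1 / (p : ℝ)) * (1 / (q : ℝ))) +
          C * Real.sqrt x * ((1 / Real.sqrt p) * (1 / Real.sqrt q)) := by
        rw [one_div_mul_one_div, one_div_mul_one_div]; ring
      rw [h2] at h1
      exact h1
  set s := ∑ p ∈ B, 1 / Real.sqrt (p : ℝ) with hs
  have hs0 : 0 ≤ s := Finset.sum_nonneg fun p _ => by positivity
  have hrs0 : 0 ≤ rs B := Finset.sum_nonneg fun p _ => by positivity
  have hs1 := tka_sqrt x hx B hB hb
  rw [← hs] at hs1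
  have e4 : ∑ p ∈ B, ∑ q ∈ B, ((if p = q then Real.pi * (ρ - 1) * x * (1 / (p : ℝ)) +
        C * Real.sqrt x * (1 / Real.sqrt p) else 0) +
        (Real.pi * (ρ - 1) * x * ((1 / (p : ℝ)) * (1 / (q : ℝ))) +
          C * Real.sqrt x * ((1 / Real.sqrt p) * (1 / Real.sqrt q)))) =
      Real.pi * (ρ - 1) * x * (rs B + rs B ^ 2) + C * Real.sqrt x * (s + s ^ 2) := by
    have h1 : ∀ p ∈ B, ∑ q ∈ B, ((if p = q then Real.pi * (ρ - 1) * x * (1 / (p : ℝ)) +
        C * Real.sqrt x * (1 / Real.sqrt p) else 0) +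
        (Real.pi * (ρ - 1) * x * ((1 / (p : ℝ)) * (1 / (q : ℝ))) +
          C * Real.sqrt x * ((1 / Real.sqrt p) * (1 / Real.sqrt q)))) =
        (Real.pi * (ρ - 1) * x * (1 / (p : ℝ)) + C * Real.sqrt x * (1 / Real.sqrt p)) +
        (Real.pi * (ρ - 1) * x * rs B * (1 / (p : ℝ)) +
          C * Real.sqrt x * s * (1 / Real.sqrt p)) := by
      intro p hp
      rw [Finset.sum_add_distrib, Finset.sum_add_distrib, Finset.sum_ite_eq, if_pos hp]
      congr 2
      · rw [← Finset.mul_sum, ← Finset.mul_sum]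
        unfold rs
        ring
      · rw [← Finset.mul_sum, ← Finset.mul_sum, ← hs]
        ring
    rw [Finset.sum_congr rfl h1]
    simp only [Finset.sum_add_distrib, ← Finset.mul_sum]
    rw [← hs]
    have : ∑ p ∈ B, 1 / (p : ℝ) = rs B := rfl
    rw [this]
    ring
  refine (Finset.sum_le_sum fun p hp => Finset.sum_le_sum fun q hq => e3 p hp q hq).trans ?_
  rw [e4]
  have hx8 : x ^ (1 / 8 : ℝ) ≤ x ^ (1 / 4 : ℝ) :=
    Real.rpow_le_rpow_of_exponent_le hx (by norm_num)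
  have hx88 : x ^ (1 / 8 : ℝ) * x ^ (1 / 8 : ℝ) = x ^ (1 / 4 : ℝ) := by
    rw [← Real.rpow_add hx0]; norm_num
  have hss : s + s ^ 2 ≤ 6 * x ^ (1 / 4 : ℝ) := by nlinarith
  have herr : Real.sqrt x * x ^ (1 / 4 : ℝ) ≤ (ρ - 1) * x := by
    rw [Real.sqrt_eq_rpow, ← Real.rpow_add hx0]
    calc x ^ (1 / 2 + 1 / 4 : ℝ) ≤ x ^ (-(1 / 16) + 1 : ℝ) :=
          Real.rpow_le_rpow_of_exponent_le hx (by norm_num)
      _ = x ^ (-(1 / 16) : ℝ) * x := by rw [Real.rpow_add hx0, Real.rpow_one]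
      _ ≤ (ρ - 1) * x := mul_le_mul_of_nonneg_right hxρ hx0.le
  have hT1 : Real.pi * (ρ - 1) * x * (rs B + rs B ^ 2) ≤ 4 * ((ρ - 1) * x * (rs B + 1) ^ 2) := by
    have h1 : rs B + rs B ^ 2 ≤ (rs B + 1) ^ 2 := by nlinarith
    have h2 : 0 ≤ (ρ - 1) * x := by positivity
    calc Real.pi * (ρ - 1) * x * (rs B + rs B ^ 2) =
          Real.pi * (((ρ - 1) * x) * (rs B + rs B ^ 2)) := by ring
      _ ≤ 4 * (((ρ - 1) * x) * (rs B + 1) ^ 2) := by
          apply mul_le_mul hπ4.le (mul_le_mul_of_nonneg_left h1 h2) (by positivity) (by norm_num)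
      _ = _ := by ring
  have hT2 : C * Real.sqrt x * (s + s ^ 2) ≤ 6 * C * ((ρ - 1) * x * (rs B + 1) ^ 2) := by
    have h1 : (1 : ℝ) ≤ (rs B + 1) ^ 2 := by nlinarith
    calc C * Real.sqrt x * (s + s ^ 2) ≤ C * Real.sqrt x * (6 * x ^ (1 / 4 : ℝ)) := by
          apply mul_le_mul_of_nonneg_left hss (by positivity)
      _ = 6 * C * (Real.sqrt x * x ^ (1 / 4 : ℝ)) := by ring
      _ ≤ 6 * C * ((ρ - 1) * x) := by
          apply mul_le_mul_of_nonneg_left herr (by positivity)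
      _ = 6 * C * ((ρ - 1) * x * 1) := by ring
      _ ≤ 6 * C * ((ρ - 1) * x * (rs B + 1) ^ 2) := by
          apply mul_le_mul_of_nonneg_left _ (by positivity)
          apply mul_le_mul_of_nonneg_left h1 (by positivity)
  calc _ ≤ 4 * ((ρ - 1) * x * (rs B + 1) ^ 2) + 6 * C * ((ρ - 1) * x * (rs B + 1) ^ 2) :=
        add_le_add hT1 hT2
    _ = _ := by ring

theorem tka_pi {y : ℝ} (hy : 2 ≤ y) : (Nat.primeCounting ⌊y⌋₊ : ℝ) ≤ 5 * y / Real.log y := by
  have hy1 : 1 < y := by linarith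
  have hy0 : 0 < y := by linarith
  have h1 := Chebyshev.pi_le_log4_mul_div hy1
  have hl : 0 < Real.log y := Real.log_pos hy1
  have h2 : Real.log (Real.sqrt y) = Real.log y / 2 := Real.log_sqrt hy0.le
  rw [h2] at h1
  have h3 : Real.log y ≤ 2 * Real.sqrt y := by
    have h4 : Real.log (Real.sqrt y) ≤ Real.sqrt y := by
      have := Real.log_le_sub_one_of_pos (Real.sqrt_pos.mpr hy0)
      linarith
    linarith
  have h5 : Real.sqrt y ≤ 2 * y / Real.log y := by
    rw [le_div_iff₀ hl]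
    have h6 : Real.sqrt y * Real.sqrt y = y := Real.mul_self_sqrt hy0.le
    nlinarith [Real.sqrt_nonneg y]
  have h7 : Real.log 4 < 1.4 := by
    have : Real.log 4 = 2 * Real.log 2 := by
      rw [show (4 : ℝ) = 2 ^ 2 by norm_num, Real.log_pow]; norm_num
    rw [this]
    have := Real.log_two_lt_d9
    linarith
  have h8 : Real.log 4 * y / (Real.log y / 2) ≤ 2.8 * y / Real.log y := by
    have : Real.log 4 * y / (Real.log y / 2) = (2 * Real.log 4 * y) / Real.log y := by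
      field_simp
    rw [this]
    apply div_le_div_of_nonneg_right _ hl.le
    nlinarith
  have h9 : 2.8 * y / Real.log y + 2 * y / Real.log y ≤ 5 * y / Real.log y := by
    rw [← add_div]
    apply div_le_div_of_nonneg_right _ hl.le
    linarith
  linarith

open Classical in
theorem tk_cop_pr : ∃ C : ℝ, 1 ≤ C ∧ ∀ x P : ℝ, 1 ≤ x → 2 ≤ P →
    ∑ w ∈ PB (2 * x), (((Finset.range (⌊x⌋₊ + 1)).filter (fun p : ℕ => p.Prime ∧ P < (p : ℝ) ∧
      (p : ℝ) ^ 2 * nn w ≤ 2 * x)).card : ℝ) ^ 2 ≤ C * x / Real.log P := by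
  obtain ⟨C, hC, h⟩ := ball_le
  refine ⟨4000 * C, by linarith, fun x P hx hP => ?_⟩
  have hx0 : 0 < x := by linarith
  have hP0 : 0 < P := by linarith
  have hlP : 0 < Real.log P := Real.log_pos (by linarith)
  have hl2 : 0 < Real.log 2 := Real.log_pos (by norm_num)
  have hl2' := Real.log_two_gt_d9
  have hl2'' := Real.log_two_lt_d9
  set cn : G → ℝ := fun w => (((Finset.range (⌊x⌋₊ + 1)).filter (fun p : ℕ => p.Prime ∧
    P < (p : ℝ) ∧ (p : ℝ) ^ 2 * nn w ≤ 2 * x)).card : ℝ) with hcn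
  set j₀ : ℕ := ⌈Real.log P / Real.log 2⌉₊ with hj₀
  have hj1 : 1 ≤ j₀ := by
    rw [hj₀, Nat.one_le_ceil_iff]
    positivity
  have hj2 : Real.log P / Real.log 2 ≤ j₀ := Nat.le_ceil _
  set N : ℕ := Nat.log 2 ⌊2 * x⌋₊ + 1 with hN
  -- the bound for one element
  have key : ∀ w ∈ PB (2 * x), cn w ^ 2 ≤ ∑ i ∈ Finset.Ico j₀ N,
      (if (nn w : ℝ) ≤ 2 * x / 2 ^ i then 500 * 2 ^ i * ((i : ℝ) ^ 2)⁻¹ else 0) := by
    intro w hw
    rw [mem_PB] at hw
    have hw0 := prm_ne hw.1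
    have hn1 : 1 ≤ nn w := nn_pos.mpr hw0
    have hn1' : (1 : ℝ) ≤ nn w := by exact_mod_cast hn1
    have hn0 : (0 : ℝ) < nn w := by linarith
    by_cases hc : (Finset.range (⌊x⌋₊ + 1)).filter (fun p : ℕ => p.Prime ∧
      P < (p : ℝ) ∧ (p : ℝ) ^ 2 * nn w ≤ 2 * x) = ∅
    · have : cn w = 0 := by rw [hcn]; simp only [hc, Finset.card_empty, Nat.cast_zero]
      rw [this]
      simp only [ne_eq, OfNat.ofNat_ne_zero, not_false_eq_true, zero_pow]
      apply Finset.sum_nonneg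
      intro i _
      split_ifs <;> positivity
    · obtain ⟨p, hp⟩ := Finset.nonempty_iff_ne_empty.mpr hc
      rw [Finset.mem_filter] at hp
      obtain ⟨-, hp1, hp2, hp3⟩ := hp
      set T : ℝ := 2 * x / nn w with hT
      have hTP : P ^ 2 < T := by
        rw [hT, lt_div_iff₀ hn0]
        have : P ^ 2 < (p : ℝ) ^ 2 := by nlinarith
        nlinarith
      have hT4 : 4 < T := by nlinarith
      have hT0 : 0 < T := by linarith
      have hsT : 2 ≤ Real.sqrt T := by
        rw [Real.le_sqrt (by norm_num)]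
        · linarith
        · exact hT0.le
      have hlT : 0 < Real.log T := Real.log_pos (by linarith)
      -- number of primes
      have hcard : cn w ≤ 5 * Real.sqrt T / Real.log (Real.sqrt T) := by
        refine le_trans ?_ (tka_pi hsT)
        rw [hcn]
        simp only
        rw [Nat.primeCounting, Nat.primeCounting', Nat.count_eq_card_filter_range]
        apply Nat.cast_le.mpr
        apply Finset.card_le_card
        intro q hq
        rw [Finset.mem_filter] at hq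
        obtain ⟨-, hq1, hq2, hq3⟩ := hq
        rw [Finset.mem_filter, Finset.mem_range]
        refine ⟨?_, hq1⟩
        rw [Nat.lt_succ_iff]
        apply Nat.le_floor
        rw [Real.le_sqrt (by positivity)]
        · rw [hT, le_div_iff₀ hn0]
          exact hq3
        · exact hT0.le
      have hcn0 : 0 ≤ cn w := by rw [hcn]; positivity
      set i : ℕ := Nat.log 2 ⌊T⌋₊ with hi
      have hTf : ⌊T⌋₊ ≠ 0 := by
        have : 4 ≤ ⌊T⌋₊ := Nat.le_floor (by push_cast; linarith)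
        omega
      have hi1 : (2 : ℝ) ^ i ≤ T := by
        have h1 : 2 ^ i ≤ ⌊T⌋₊ := Nat.pow_log_le_self 2 hTf
        have h2 : ((2 ^ i : ℕ) : ℝ) ≤ (⌊T⌋₊ : ℝ) := by exact_mod_cast h1
        have h3 := Nat.floor_le hT0.le
        push_cast at h2
        linarith
      have hi2 : T < (2 : ℝ) ^ (i + 1) := by
        have h1 : ⌊T⌋₊ < 2 ^ (i + 1) := Nat.lt_pow_succ_log_self (by norm_num) _
        have h2 : T < ⌊T⌋₊ + 1 := Nat.lt_floor_add_one T
        have h3 : ((⌊T⌋₊ + 1 : ℕ) : ℝ) ≤ ((2 ^ (i + 1) : ℕ) : ℝ) := by exact_mod_cast h1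
        push_cast at h3
        linarith
      have hlogi : Real.log T < (i + 1) * Real.log 2 := by
        have := Real.log_lt_log hT0 hi2
        rw [Real.log_pow] at this
        push_cast at this
        exact this
      have hlogi2 : i * Real.log 2 ≤ Real.log T := by
        have := Real.log_le_log (by positivity) hi1
        rw [Real.log_pow] at this
        exact this
      have hlogP : 2 * Real.log P < Real.log T := by
        have := Real.log_lt_log (by positivity) hTP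
        rw [Real.log_pow] at this
        push_cast at this
        exact this
      have hlP2 : Real.log 2 ≤ Real.log P := Real.log_le_log (by norm_num) hP
      have hij : j₀ ≤ i := by
        rw [hj₀, Nat.ceil_le, div_le_iff₀ hl2]
        nlinarith
      have hi0 : (1 : ℝ) ≤ i := by exact_mod_cast hj1.trans hij
      have hiN : i < N := by
        rw [hN, Nat.lt_succ_iff, hi]
        apply Nat.log_mono_right
        apply Nat.floor_mono
        rw [hT]
        exact div_le_self (by positivity) hn1'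
      have hfin : cn w ^ 2 ≤ 500 * 2 ^ i * ((i : ℝ) ^ 2)⁻¹ := by
        have h1 : cn w ^ 2 ≤ (5 * Real.sqrt T / Real.log (Real.sqrt T)) ^ 2 :=
          pow_le_pow_left₀ hcn0 hcard 2
        have h2 : (5 * Real.sqrt T / Real.log (Real.sqrt T)) ^ 2 = 100 * T / Real.log T ^ 2 := by
          rw [div_pow, mul_pow, Real.sq_sqrt hT0.le, Real.log_sqrt hT0.le]
          field_simp
          ring
        rw [h2] at h1
        refine h1.trans ?_
        rw [div_le_iff₀ (by positivity)]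
        have h3 : (i * Real.log 2) ^ 2 ≤ Real.log T ^ 2 := pow_le_pow_left₀ (by positivity) hlogi2 2
        have h4 : (0.4 : ℝ) * (i : ℝ) ^ 2 ≤ Real.log T ^ 2 := by
          have : (0.4 : ℝ) ≤ Real.log 2 ^ 2 := by nlinarith
          nlinarith [sq_nonneg (i : ℝ)]
        have h5 : (0 : ℝ) < (i : ℝ) ^ 2 := by positivity
        have h6 : (0.4 : ℝ) ≤ ((i : ℝ) ^ 2)⁻¹ * Real.log T ^ 2 := by
          rw [inv_mul_eq_div, le_div_iff₀ h5]
          exact h4
        have h7 : 100 * T ≤ 500 * 2 ^ i * 0.4 := by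
          rw [pow_succ] at hi2
          linarith
        calc 100 * T ≤ 500 * 2 ^ i * 0.4 := h7
          _ ≤ 500 * 2 ^ i * (((i : ℝ) ^ 2)⁻¹ * Real.log T ^ 2) :=
              mul_le_mul_of_nonneg_left h6 (by positivity)
          _ = 500 * 2 ^ i * ((i : ℝ) ^ 2)⁻¹ * Real.log T ^ 2 := by ring
      refine hfin.trans ?_
      have hmem : i ∈ Finset.Ico j₀ N := Finset.mem_Ico.mpr ⟨hij, hiN⟩
      have hle : (nn w : ℝ) ≤ 2 * x / 2 ^ i := by
        rw [le_div_iff₀ (by positivity)]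
        rw [hT, le_div_iff₀ hn0] at hi1
        linarith
      refine le_trans (le_of_eq ?_) (Finset.single_le_sum (f := fun i : ℕ =>
        (if (nn w : ℝ) ≤ 2 * x / 2 ^ i then 500 * 2 ^ i * ((i : ℝ) ^ 2)⁻¹ else 0))
        (fun i _ => by split_ifs <;> positivity) hmem)
      simp only [if_pos hle]
  calc ∑ w ∈ PB (2 * x), cn w ^ 2 ≤ ∑ w ∈ PB (2 * x), ∑ i ∈ Finset.Ico j₀ N,
        (if (nn w : ℝ) ≤ 2 * x / 2 ^ i then 500 * 2 ^ i * ((i : ℝ) ^ 2)⁻¹ else 0) :=
        Finset.sum_le_sum key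
    _ = ∑ i ∈ Finset.Ico j₀ N, ∑ w ∈ PB (2 * x),
        (if (nn w : ℝ) ≤ 2 * x / 2 ^ i then 500 * 2 ^ i * ((i : ℝ) ^ 2)⁻¹ else 0) :=
        Finset.sum_comm
    _ ≤ ∑ i ∈ Finset.Ico j₀ N, (1000 * C * x) * ((i : ℝ) ^ 2)⁻¹ := by
        apply Finset.sum_le_sum
        intro i _
        rw [← Finset.sum_filter, Finset.sum_const, nsmul_eq_mul]
        have h1 : (((PB (2 * x)).filter (fun w => (nn w : ℝ) ≤ 2 * x / 2 ^ i)).card : ℝ) ≤
            C * (2 * x / 2 ^ i) := by
          refine le_trans ?_ (h (2 * x / 2 ^ i) (by positivity))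
          apply Nat.cast_le.mpr
          apply Finset.card_le_card
          intro w hw
          rw [Finset.mem_filter, mem_PB] at hw
          rw [mem_Bl]
          exact ⟨prm_ne hw.1.1, hw.2⟩
        have h2 : (0 : ℝ) < 2 ^ i := by positivity
        calc _ ≤ (C * (2 * x / 2 ^ i)) * (500 * 2 ^ i * ((i : ℝ) ^ 2)⁻¹) :=
              mul_le_mul_of_nonneg_right h1 (by positivity)
          _ = (1000 * C * x) * ((i : ℝ) ^ 2)⁻¹ := by
              field_simp
              ring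
    _ = (1000 * C * x) * ∑ i ∈ Finset.Ico j₀ N, ((i : ℝ) ^ 2)⁻¹ := by rw [Finset.mul_sum]
    _ ≤ (1000 * C * x) * (2 / j₀) := by
        apply mul_le_mul_of_nonneg_left _ (by positivity)
        have h1 := sum_Ioo_inv_sq_le (α := ℝ) (j₀ - 1) N
        have h2 : Finset.Ioo (j₀ - 1) N = Finset.Ico j₀ N := by
          ext i
          simp only [Finset.mem_Ioo, Finset.mem_Ico]
          omega
        rw [h2] at h1
        have h3 : ((j₀ - 1 : ℕ) : ℝ) + 1 = j₀ := by
          rw [Nat.cast_sub hj1]; push_cast; ring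
        rw [h3] at h1
        exact h1
    _ ≤ (1000 * C * x) * (2 / (Real.log P / Real.log 2)) := by
        apply mul_le_mul_of_nonneg_left _ (by positivity)
        apply div_le_div_of_nonneg_left (by norm_num) (by positivity) hj2
    _ ≤ 4000 * C * x / Real.log P := by
        have : (1000 * C * x) * (2 / (Real.log P / Real.log 2)) =
            (2000 * Real.log 2) * C * x / Real.log P := by
          field_simp
          ring
        rw [this]
        apply div_le_div_of_nonneg_right _ hlP.le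
        have : (2000 * Real.log 2) ≤ 4000 := by linarith
        have hCx : 0 ≤ C * x := by positivity
        nlinarith

end Pool.Agent.T2


namespace Pool.Agent.T2

theorem tk_ann : type_of% @tk_ann_pr := @tk_ann_pr
theorem tk_cop : type_of% @tk_cop_pr := @tk_cop_pr

end Pool.Agent.T2
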