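import Pool.Agent.Lib_helper10.T2.Defs
import Pool.Agent.Lib_helper10.T2F.BAS

namespace Pool.Agent.T2

open Filter Topology MeasureTheory

/-- the content -/
def moe_g (z : G) : ℕ := Int.gcd z.re z.im

theorem moe_nat_mul (d : ℕ) (z : G) : ((d : G) * z) = ⟨(d : ℤ) * z.re, (d : ℤ) * z.im⟩ := by
  apply Zsqrtd.ext
  · simp
  · simp

theorem moe_dvd (d : ℕ) (z : G) : (d : G) ∣ z ↔ d ∣ moe_g z := by
  constructor
  · rintro ⟨w, rfl⟩
    rw [moe_nat_mul]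
    unfold moe_g
    apply Int.dvd_gcd <;> exact Dvd.intro _ rfl
  · intro h
    unfold moe_g at h
    have h1 : (d : ℤ) ∣ z.re := (Int.natCast_dvd_natCast.mpr h).trans (Int.gcd_dvd_left ..)
    have h2 : (d : ℤ) ∣ z.im := (Int.natCast_dvd_natCast.mpr h).trans (Int.gcd_dvd_right ..)
    obtain ⟨a, ha⟩ := h1
    obtain ⟨b, hb⟩ := h2
    refine ⟨⟨a, b⟩, ?_⟩
    rw [moe_nat_mul]
    apply Zsqrtd.ext
    · exact ha
    · exact hb

theorem moe_g_mul (d : ℕ) (z : G) : moe_g ((d : G) * z) = d * moe_g z := by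
  rw [moe_nat_mul]
  unfold moe_g
  rw [Int.gcd_mul_left]
  simp

theorem moe_prm (z : G) : Prm z ↔ moe_g z = 1 := Iff.rfl

theorem moe_g_pos {z : G} (hz : z ≠ 0) : 1 ≤ moe_g z := by
  by_contra h
  have h0 : moe_g z = 0 := by omega
  apply hz
  unfold moe_g at h0
  rw [Int.gcd_eq_zero_iff] at h0
  apply Zsqrtd.ext
  · exact h0.1
  · exact h0.2

theorem moe_content (z : G) (hz : z ≠ 0) : ∃ w : G, Prm w ∧ z = (moe_g z : G) * w := by
  obtain ⟨w, hw⟩ := (moe_dvd (moe_g z) z).mpr dvd_rfl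
  refine ⟨w, ?_, hw⟩
  have h1 : moe_g z = moe_g z * moe_g w := by
    conv_lhs => rw [hw, moe_g_mul]
  have h2 := moe_g_pos hz
  rw [moe_prm]
  exact (Nat.eq_of_mul_eq_mul_left h2 (by omega : moe_g z * 1 = moe_g z * moe_g w)).symm

theorem moe_nn (d : ℕ) (z : G) : (nn ((d : G) * z) : ℝ) = (d : ℝ) ^ 2 * (nn z : ℝ) := by
  rw [nn_mul, nn_nat]
  push_cast
  ring

theorem moe_le {x : ℝ} {D : ℕ} (hD : x < ((D : ℝ) + 1) ^ 2) {z : G} (hz : z ∈ Bl x) :
    moe_g z ∈ Finset.Icc 1 D := by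
  rw [mem_Bl] at hz
  obtain ⟨w, hw, hzw⟩ := moe_content z hz.1
  have h1 := moe_g_pos hz.1
  rw [Finset.mem_Icc]
  refine ⟨h1, ?_⟩
  by_contra hcon
  push Not at hcon
  have hwp : 1 ≤ nn w := nn_pos.mpr (prm_ne hw)
  have h2 : (nn z : ℝ) = (moe_g z : ℝ) ^ 2 * (nn w : ℝ) := by
    conv_lhs => rw [hzw]
    exact moe_nn _ _
  have h3 : ((D : ℝ) + 1) ≤ (moe_g z : ℝ) := by exact_mod_cast hcon
  have h4 : ((D : ℝ) + 1) ^ 2 ≤ (moe_g z : ℝ) ^ 2 := by
    have : (0 : ℝ) ≤ (D : ℝ) + 1 := by positivity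
    exact pow_le_pow_left₀ this h3 2
  have h5 : (1 : ℝ) ≤ (nn w : ℝ) := by exact_mod_cast hwp
  have h6 : (moe_g z : ℝ) ^ 2 ≤ (moe_g z : ℝ) ^ 2 * (nn w : ℝ) :=
    le_mul_of_one_le_right (by positivity) h5
  linarith [hz.2]

theorem moe_inj {d : ℕ} (hd : 1 ≤ d) {z w : G} (h : (d : G) * z = (d : G) * w) : z = w := by
  have h0 : (d : G) ≠ 0 := by
    have : (d : ℕ) ≠ 0 := by omega
    exact_mod_cast this
  exact mul_left_cancel₀ h0 h

open Classical in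
theorem moe_bij (F : G → ℂ) (x : ℝ) (d : ℕ) (hd : 1 ≤ d) :
    ∑ z ∈ Bl (x / (d : ℝ) ^ 2), F (d * z) = ∑ z ∈ (Bl x).filter (fun z => (d : G) ∣ z), F z := by
  have hdp : (0 : ℝ) < (d : ℝ) ^ 2 := by
    have : (0 : ℝ) < (d : ℝ) := by exact_mod_cast hd
    positivity
  have hd0 : (d : G) ≠ 0 := by
    have : (d : ℕ) ≠ 0 := by omega
    exact_mod_cast this
  refine Finset.sum_bij (fun z _ => (d : G) * z) ?_ ?_ ?_ ?_
  · intro z hz
    rw [mem_Bl, le_div_iff₀ hdp] at hz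
    rw [Finset.mem_filter, mem_Bl]
    refine ⟨⟨mul_ne_zero hd0 hz.1, ?_⟩, dvd_mul_right _ _⟩
    rw [moe_nn, mul_comm]
    exact hz.2
  · intro z _ w _ h
    exact moe_inj hd h
  · intro z hz
    rw [Finset.mem_filter, mem_Bl] at hz
    obtain ⟨⟨hz0, hzx⟩, w, hw⟩ := hz
    refine ⟨w, ?_, hw.symm⟩
    rw [mem_Bl, le_div_iff₀ hdp]
    refine ⟨?_, ?_⟩
    · rintro rfl
      rw [mul_zero] at hw
      exact hz0 hw
    · rw [hw, moe_nn, mul_comm] at hzx
      exact hzx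
  · intro z _
    rfl

open Classical in
theorem moe_bij' (F : G → ℂ) (x : ℝ) (d : ℕ) (hd : 1 ≤ d) :
    ∑ z ∈ PB (x / (d : ℝ) ^ 2), F (d * z) = ∑ z ∈ (Bl x).filter (fun z => moe_g z = d), F z := by
  have hdp : (0 : ℝ) < (d : ℝ) ^ 2 := by
    have : (0 : ℝ) < (d : ℝ) := by exact_mod_cast hd
    positivity
  have hd0 : (d : G) ≠ 0 := by
    have : (d : ℕ) ≠ 0 := by omega
    exact_mod_cast this
  refine Finset.sum_bij (fun z _ => (d : G) * z) ?_ ?_ ?_ ?_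
  · intro z hz
    rw [mem_PB, le_div_iff₀ hdp] at hz
    rw [Finset.mem_filter, mem_Bl]
    refine ⟨⟨mul_ne_zero hd0 (prm_ne hz.1), ?_⟩, ?_⟩
    · rw [moe_nn, mul_comm]
      exact hz.2
    · rw [moe_g_mul, (moe_prm z).mp hz.1, mul_one]
  · intro z _ w _ h
    exact moe_inj hd h
  · intro z hz
    rw [Finset.mem_filter, mem_Bl] at hz
    obtain ⟨⟨hz0, hzx⟩, hg⟩ := hz
    obtain ⟨w, hw, hzw⟩ := moe_content z hz0
    rw [hg] at hzw
    refine ⟨w, ?_, hzw.symm⟩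
    rw [mem_PB, le_div_iff₀ hdp]
    refine ⟨hw, ?_⟩
    rw [hzw, moe_nn, mul_comm] at hzx
    exact hzx
  · intro z _
    rfl

theorem all_prim_pr (F : G → ℂ) (x : ℝ) (D : ℕ) (hD : x < ((D : ℝ) + 1) ^ 2) :
    ∑ z ∈ Bl x, F z = ∑ d ∈ Finset.Icc 1 D, ∑ z ∈ PB (x / (d : ℝ) ^ 2), F (d * z) := by
  classical
  rw [← Finset.sum_fiberwise_of_maps_to (s := Bl x) (t := Finset.Icc 1 D) (g := moe_g)
    (fun z hz => moe_le hD hz)]
  apply Finset.sum_congr rfl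
  intro d hd
  rw [Finset.mem_Icc] at hd
  rw [moe_bij' F x d hd.1]

theorem prim_moebius_pr (F : G → ℂ) (x : ℝ) (D : ℕ) (hD : x < ((D : ℝ) + 1) ^ 2) :
    ∑ z ∈ PB x, F z = ∑ d ∈ Finset.Icc 1 D, (ArithmeticFunction.moebius d : ℂ) *
      ∑ z ∈ Bl (x / (d : ℝ) ^ 2), F (d * z) := by
  classical
  have h1 : ∀ d ∈ Finset.Icc 1 D, (ArithmeticFunction.moebius d : ℂ) *
      ∑ z ∈ Bl (x / (d : ℝ) ^ 2), F (d * z) =
      ∑ z ∈ Bl x, if (d : G) ∣ z then (ArithmeticFunction.moebius d : ℂ) * F z else 0 := by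
    intro d hd
    rw [Finset.mem_Icc] at hd
    rw [moe_bij F x d hd.1, Finset.mul_sum, Finset.sum_filter]
  rw [Finset.sum_congr rfl h1, Finset.sum_comm]
  have h2 : ∀ z ∈ Bl x, (∑ d ∈ Finset.Icc 1 D,
      if (d : G) ∣ z then (ArithmeticFunction.moebius d : ℂ) * F z else 0) =
      if Prm z then F z else 0 := by
    intro z hz
    have hg := moe_le hD hz
    rw [Finset.mem_Icc] at hg
    rw [← Finset.sum_filter]
    have h3 : (Finset.Icc 1 D).filter (fun d : ℕ => (d : G) ∣ z) = (moe_g z).divisors := by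
      ext d
      rw [Finset.mem_filter, Finset.mem_Icc, moe_dvd, Nat.mem_divisors]
      constructor
      · rintro ⟨_, h⟩
        exact ⟨h, by omega⟩
      · rintro ⟨h, _⟩
        have := Nat.le_of_dvd (by omega) h
        have := Nat.pos_of_dvd_of_pos h (by omega)
        exact ⟨⟨by omega, by omega⟩, h⟩
    rw [h3, ← Finset.sum_mul]
    have h4 : (∑ i ∈ (moe_g z).divisors, (ArithmeticFunction.moebius i : ℂ)) =
        if moe_g z = 1 then 1 else 0 := by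
      have h5 := ArithmeticFunction.coe_moebius_mul_coe_zeta (R := ℂ)
      have h6 := congrArg (fun f : ArithmeticFunction ℂ => f (moe_g z)) h5
      simp only [ArithmeticFunction.one_apply] at h6
      rw [ArithmeticFunction.coe_mul_zeta_apply] at h6
      simp only [ArithmeticFunction.intCoe_apply] at h6
      exact h6
    rw [h4, moe_prm]
    split_ifs <;> simp
  rw [Finset.sum_congr rfl h2, ← Finset.sum_filter]
  rfl

end Pool.Agent.T2


namespace Pool.Agent.T2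

theorem prim_moebius : type_of% @prim_moebius_pr := @prim_moebius_pr
theorem all_prim : type_of% @all_prim_pr := @all_prim_pr

end Pool.Agent.T2
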