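import Pool.Agent.Lib_helper10.T2.Defs
import Pool.Agent.Lib_helper10.T2F.CNT
import Pool.Agent.Lib_helper10.T2F.MOE

namespace Pool.Agent.T2

open Filter Topology MeasureTheory

/-- the terms `μ(d)/d²` -/
noncomputable def pct_a (d : ℕ) : ℝ := (ArithmeticFunction.moebius d : ℝ) / (d : ℝ) ^ 2

theorem pct_mu (d : ℕ) : |(ArithmeticFunction.moebius d : ℝ)| ≤ 1 := by
  have h := ArithmeticFunction.abs_moebius_le_one (n := d)
  exact_mod_cast h

theorem pct_a_le (d : ℕ) : |pct_a d| ≤ 1 / (d : ℝ) ^ 2 := by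
  unfold pct_a
  rw [abs_div, abs_of_nonneg (by positivity : (0 : ℝ) ≤ (d : ℝ) ^ 2)]
  exact div_le_div_of_nonneg_right (pct_mu d) (by positivity)

theorem pct_sum2 : Summable (fun d : ℕ => 1 / (d : ℝ) ^ 2) := hasSum_zeta_two.summable

theorem pct_summable : Summable pct_a := by
  apply Summable.of_norm_bounded pct_sum2
  intro d
  rw [Real.norm_eq_abs]
  exact pct_a_le d

theorem pct_c_pos : 0 < ∑' d, pct_a d := by
  have h1 : HasSum (fun d : ℕ => pct_a d + 1 / (d : ℝ) ^ 2) ((∑' d, pct_a d) + Real.pi ^ 2 / 6) :=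
    pct_summable.hasSum.add hasSum_zeta_two
  have h2 : pct_a 1 + 1 / ((1 : ℕ) : ℝ) ^ 2 ≤ (∑' d, pct_a d) + Real.pi ^ 2 / 6 := by
    apply le_hasSum h1 1
    intro j _
    have := pct_a_le j
    rw [abs_le] at this
    linarith [this.1]
  have h3 : pct_a 1 + 1 / ((1 : ℕ) : ℝ) ^ 2 = 2 := by
    unfold pct_a
    simp
    norm_num
  rw [h3] at h2
  have h4 := Real.pi_lt_d2
  have h5 := Real.pi_pos
  nlinarith

theorem pct_tail (D : ℕ) (hD : 1 ≤ D) :
    |(∑' d, pct_a d) - ∑ d ∈ Finset.Icc 1 D, pct_a d| ≤ 1 / (D : ℝ) := by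
  have h0 : ∀ N, ∑ d ∈ Finset.Icc 1 N, pct_a d = ∑ d ∈ Finset.range (N + 1), pct_a d := by
    intro N
    rw [Finset.sum_range_succ', Finset.range_eq_Ico, Finset.sum_Ico_add' (fun d => pct_a d) 0 N 1]
    have : pct_a 0 = 0 := by unfold pct_a; simp
    rw [this, add_zero]
    rfl
  have h1 : Tendsto (fun N => ∑ d ∈ Finset.Icc 1 N, pct_a d) atTop (𝓝 (∑' d, pct_a d)) := by
    have h2 := pct_summable.hasSum.tendsto_sum_nat
    have h3 := (tendsto_add_atTop_iff_nat 1).mpr h2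
    exact h3.congr (fun N => (h0 N).symm)
  have h2 : Tendsto (fun N => |(∑ d ∈ Finset.Icc 1 N, pct_a d) - ∑ d ∈ Finset.Icc 1 D, pct_a d|) atTop
      (𝓝 |(∑' d, pct_a d) - ∑ d ∈ Finset.Icc 1 D, pct_a d|) := (h1.sub_const _).abs
  apply le_of_tendsto h2
  rw [eventually_atTop]
  refine ⟨D, fun N hN => ?_⟩
  have h3 : (∑ d ∈ Finset.Icc 1 N, pct_a d) - ∑ d ∈ Finset.Icc 1 D, pct_a d =
      ∑ d ∈ Finset.Ioc D N, pct_a d := by
    rw [sub_eq_iff_eq_add, add_comm]
    have : Finset.Icc 1 N = Finset.Icc 1 D ∪ Finset.Ioc D N := by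
      ext k
      simp only [Finset.mem_Icc, Finset.mem_union, Finset.mem_Ioc]
      omega
    rw [this, Finset.sum_union]
    rw [Finset.disjoint_left]
    intro k hk hk'
    rw [Finset.mem_Icc] at hk
    rw [Finset.mem_Ioc] at hk'
    omega
  rw [h3]
  calc |∑ d ∈ Finset.Ioc D N, pct_a d| ≤ ∑ d ∈ Finset.Ioc D N, |pct_a d| :=
        Finset.abs_sum_le_sum_abs _ _
    _ ≤ ∑ d ∈ Finset.Ioc D N, ((d : ℝ) ^ 2)⁻¹ := by
        apply Finset.sum_le_sum
        intro d _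
        have := pct_a_le d
        rwa [one_div] at this
    _ ≤ (D : ℝ)⁻¹ - (N : ℝ)⁻¹ := sum_Ioc_inv_sq_le_sub (by omega) hN
    _ ≤ 1 / (D : ℝ) := by
        rw [one_div]
        have : (0 : ℝ) ≤ (N : ℝ)⁻¹ := by positivity
        linarith

theorem pct_harm (D : ℕ) : ∑ d ∈ Finset.Icc 1 D, 1 / (d : ℝ) ≤ 2 * Real.sqrt D := by
  induction D with
  | zero => simp
  | succ n ih =>
    rw [Finset.sum_Icc_succ_top (by omega)]
    have h1 : (0 : ℝ) ≤ (n : ℝ) := by positivity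
    set s := Real.sqrt n with hs
    set t := Real.sqrt ((n + 1 : ℕ) : ℝ) with ht
    have hs2 : s ^ 2 = n := Real.sq_sqrt h1
    have ht2 : t ^ 2 = n + 1 := by
      rw [ht, Real.sq_sqrt (by positivity)]
      push_cast
      ring
    have hs0 : 0 ≤ s := Real.sqrt_nonneg _
    have ht1 : 1 ≤ t := by
      rw [ht]
      rw [Real.one_le_sqrt]
      push_cast
      linarith
    have h2 : ((n + 1 : ℕ) : ℝ) = t ^ 2 := by rw [ht2]; push_cast; ring
    rw [h2]
    have h3 : 1 / t ^ 2 ≤ 2 * t - 2 * s := by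
      rw [div_le_iff₀ (by positivity)]
      have h4 : t ^ 2 - s ^ 2 = 1 := by rw [ht2, hs2]; ring
      have h5 : s ≤ t := by nlinarith
      have h6 : (t - s) * (t + s) = 1 := by linarith [h4, (by ring : (t - s) * (t + s) = t ^ 2 - s ^ 2)]
      nlinarith [mul_nonneg (sub_nonneg.mpr h5) (sub_nonneg.mpr h5), mul_nonneg (sub_nonneg.mpr h5) hs0,
        mul_nonneg (sub_nonneg.mpr h5) (sub_nonneg.mpr ht1),
        mul_nonneg (mul_nonneg (sub_nonneg.mpr h5) (sub_nonneg.mpr ht1)) (by linarith : 0 ≤ t)]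
    linarith

theorem prim_count_pr : ∃ c₀ C : ℝ, 0 < c₀ ∧ 1 ≤ C ∧ ∀ x : ℝ, 1 ≤ x →
    |((PB x).card : ℝ) - c₀ * x| ≤ C * x ^ (3 / 4 : ℝ) := by
  obtain ⟨C, hC1, hC⟩ := ball_count
  refine ⟨Real.pi * ∑' d, pct_a d, 2 * C + 2 * Real.pi,
    mul_pos Real.pi_pos pct_c_pos, by linarith [Real.pi_pos], ?_⟩
  intro x hx
  set D : ℕ := ⌊Real.sqrt x⌋₊ with hDdef
  have hx0 : 0 < x := by linarith
  have hs1 : 1 ≤ Real.sqrt x := by rwa [Real.one_le_sqrt]
  have hss : Real.sqrt x ^ 2 = x := Real.sq_sqrt hx0.le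
  have hDle : (D : ℝ) ≤ Real.sqrt x := Nat.floor_le (by linarith)
  have hDlt : Real.sqrt x < (D : ℝ) + 1 := Nat.lt_floor_add_one _
  have hD1 : 1 ≤ D := by
    rw [hDdef, Nat.one_le_floor_iff]
    exact hs1
  have hD1' : (1 : ℝ) ≤ (D : ℝ) := by exact_mod_cast hD1
  have hxD : x < ((D : ℝ) + 1) ^ 2 := by
    rw [← hss]
    exact pow_lt_pow_left₀ hDlt (by linarith) (by norm_num)
  have h1 := prim_moebius (fun _ => (1 : ℂ)) x D hxD
  simp only [Finset.sum_const, nsmul_eq_mul, mul_one] at h1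
  have h2 : ((PB x).card : ℝ) = ∑ d ∈ Finset.Icc 1 D, (ArithmeticFunction.moebius d : ℝ) *
      ((Bl (x / (d : ℝ) ^ 2)).card : ℝ) := by
    have := congrArg Complex.re h1
    rw [Complex.natCast_re, Complex.re_sum] at this
    rw [this]
    apply Finset.sum_congr rfl
    intro d _
    have e : ((ArithmeticFunction.moebius d : ℂ) * ((Bl (x / (d : ℝ) ^ 2)).card : ℂ)) =
        (((ArithmeticFunction.moebius d : ℝ) * ((Bl (x / (d : ℝ) ^ 2)).card : ℝ) : ℝ) : ℂ) := by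
      push_cast
      ring
    rw [e, Complex.ofReal_re]
  have h3 : ((PB x).card : ℝ) - Real.pi * x * ∑ d ∈ Finset.Icc 1 D, pct_a d =
      ∑ d ∈ Finset.Icc 1 D, (ArithmeticFunction.moebius d : ℝ) *
        (((Bl (x / (d : ℝ) ^ 2)).card : ℝ) - Real.pi * (x / (d : ℝ) ^ 2)) := by
    rw [h2, Finset.mul_sum, ← Finset.sum_sub_distrib]
    apply Finset.sum_congr rfl
    intro d _
    unfold pct_a
    ring
  have h4 : |((PB x).card : ℝ) - Real.pi * x * ∑ d ∈ Finset.Icc 1 D, pct_a d| ≤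
      C * Real.sqrt x * (2 * Real.sqrt D) := by
    rw [h3]
    calc _ ≤ ∑ d ∈ Finset.Icc 1 D, |(ArithmeticFunction.moebius d : ℝ) *
        (((Bl (x / (d : ℝ) ^ 2)).card : ℝ) - Real.pi * (x / (d : ℝ) ^ 2))| :=
          Finset.abs_sum_le_sum_abs _ _
      _ ≤ ∑ d ∈ Finset.Icc 1 D, C * Real.sqrt x * (1 / (d : ℝ)) := by
          apply Finset.sum_le_sum
          intro d hd
          rw [Finset.mem_Icc] at hd
          have hd1 : (1 : ℝ) ≤ (d : ℝ) := by exact_mod_cast hd.1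
          have hd2 : (d : ℝ) ≤ Real.sqrt x := by
            have : (d : ℝ) ≤ (D : ℝ) := by exact_mod_cast hd.2
            linarith
          have hd3 : 1 ≤ x / (d : ℝ) ^ 2 := by
            rw [one_le_div (by positivity), ← hss]
            exact pow_le_pow_left₀ (by linarith) hd2 2
          have h5 := hC _ hd3
          rw [abs_mul]
          have h6 : Real.sqrt (x / (d : ℝ) ^ 2) = Real.sqrt x * (1 / (d : ℝ)) := by
            rw [Real.sqrt_div hx0.le, Real.sqrt_sq (by linarith)]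
            ring
          rw [h6] at h5
          calc |(ArithmeticFunction.moebius d : ℝ)| * |((Bl (x / (d : ℝ) ^ 2)).card : ℝ) -
              Real.pi * (x / (d : ℝ) ^ 2)| ≤ 1 * (C * (Real.sqrt x * (1 / (d : ℝ)))) :=
                mul_le_mul (pct_mu d) h5 (abs_nonneg _) (by norm_num)
            _ = C * Real.sqrt x * (1 / (d : ℝ)) := by ring
      _ = C * Real.sqrt x * ∑ d ∈ Finset.Icc 1 D, 1 / (d : ℝ) := by rw [Finset.mul_sum]
      _ ≤ C * Real.sqrt x * (2 * Real.sqrt D) :=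
          mul_le_mul_of_nonneg_left (pct_harm D) (by positivity)
  have hq : x ^ (3 / 4 : ℝ) = Real.sqrt x * Real.sqrt (Real.sqrt x) := by
    rw [Real.sqrt_eq_rpow, Real.sqrt_eq_rpow, ← Real.rpow_mul hx0.le, ← Real.rpow_add hx0]
    norm_num
  have hqs : 1 ≤ Real.sqrt (Real.sqrt x) := by
    rw [Real.one_le_sqrt]
    exact hs1
  have h5 : Real.sqrt D ≤ Real.sqrt (Real.sqrt x) := Real.sqrt_le_sqrt hDle
  have h6 : C * Real.sqrt x * (2 * Real.sqrt D) ≤ 2 * C * x ^ (3 / 4 : ℝ) := by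
    rw [hq]
    have : C * Real.sqrt x * (2 * Real.sqrt D) = 2 * C * (Real.sqrt x * Real.sqrt D) := by ring
    rw [this]
    apply mul_le_mul_of_nonneg_left _ (by linarith)
    exact mul_le_mul_of_nonneg_left h5 (by linarith)
  have h7 : |Real.pi * x * (∑ d ∈ Finset.Icc 1 D, pct_a d) - Real.pi * (∑' d, pct_a d) * x| ≤
      2 * Real.pi * x ^ (3 / 4 : ℝ) := by
    have e : Real.pi * x * (∑ d ∈ Finset.Icc 1 D, pct_a d) - Real.pi * (∑' d, pct_a d) * x =
        -(Real.pi * x * ((∑' d, pct_a d) - ∑ d ∈ Finset.Icc 1 D, pct_a d)) := by ring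
    rw [e, abs_neg, abs_mul, abs_of_pos (mul_pos Real.pi_pos hx0)]
    calc Real.pi * x * |(∑' d, pct_a d) - ∑ d ∈ Finset.Icc 1 D, pct_a d| ≤
        Real.pi * x * (1 / (D : ℝ)) :=
          mul_le_mul_of_nonneg_left (pct_tail D hD1) (by positivity)
      _ ≤ Real.pi * (2 * Real.sqrt x) := by
          rw [mul_assoc]
          apply mul_le_mul_of_nonneg_left _ Real.pi_pos.le
          rw [mul_one_div, div_le_iff₀ (by linarith)]
          nlinarith
      _ ≤ 2 * Real.pi * x ^ (3 / 4 : ℝ) := by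
          rw [hq]
          have h8 : Real.sqrt x ≤ Real.sqrt x * Real.sqrt (Real.sqrt x) :=
            le_mul_of_one_le_right (by linarith) hqs
          nlinarith [Real.pi_pos]
  calc |((PB x).card : ℝ) - Real.pi * (∑' d, pct_a d) * x| ≤
      |((PB x).card : ℝ) - Real.pi * x * ∑ d ∈ Finset.Icc 1 D, pct_a d| +
      |Real.pi * x * (∑ d ∈ Finset.Icc 1 D, pct_a d) - Real.pi * (∑' d, pct_a d) * x| := by
        have := abs_add_le (((PB x).card : ℝ) - Real.pi * x * ∑ d ∈ Finset.Icc 1 D, pct_a d)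
          (Real.pi * x * (∑ d ∈ Finset.Icc 1 D, pct_a d) - Real.pi * (∑' d, pct_a d) * x)
        rwa [sub_add_sub_cancel] at this
    _ ≤ (2 * C + 2 * Real.pi) * x ^ (3 / 4 : ℝ) := by
        linarith

end Pool.Agent.T2


namespace Pool.Agent.T2

theorem prim_count : type_of% @prim_count_pr := @prim_count_pr

end Pool.Agent.T2
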