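import Pool.Agent.Lib_helper10.T2.Defs
import Pool.Agent.Lib_helper10.T2F.BAS
import Pool.Agent.Lib_helper10.T2F.PCT
import Pool.Agent.Lib_helper10.T2F.PEL

/-! T2, block TKV: the inequality of Turan and Kubilius for primitive Gaussian integers. -/

namespace Pool.Agent.T2

open Filter Topology MeasureTheory

open Classical in
/-- multiples of a nonzero element: upper bound -/
theorem tkv_up (π : G) (hπ : π ≠ 0) (x : ℝ) :
    ((PB x).filter (fun z => π ∣ z)).card ≤ (PB (x / nn π)).card := by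
  have hpos : (0 : ℝ) < nn π := by
    have := nn_pos.mpr hπ
    exact_mod_cast this
  have hsub : (PB x).filter (fun z => π ∣ z) ⊆ (PB (x / nn π)).image (fun w => π * w) := by
    intro z hz
    rw [Finset.mem_filter] at hz
    obtain ⟨hz1, w, rfl⟩ := hz
    rw [mem_PB] at hz1
    rw [Finset.mem_image]
    refine ⟨w, ?_, rfl⟩
    rw [mem_PB]
    refine ⟨prm_mul_left (w := π) (by rw [mul_comm]; exact hz1.1), ?_⟩
    rw [le_div_iff₀ hpos]
    have := hz1.2
    rw [nn_mul] at this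
    push_cast at this
    linarith
  exact (Finset.card_le_card hsub).trans Finset.card_image_le

open Classical in
/-- both prime elements -/
theorem tkv_up2 {p q : ℕ} (hp : p.Prime) (h4 : p % 4 = 1) (hq : q.Prime) (h4q : q % 4 = 1)
    (hpq : p ≠ q) (x : ℝ) :
    ((PB x).filter (fun z => pel p ∣ z ∧ pel q ∣ z)).card ≤ (PB (x / (p * q))).card := by
  have h1 := pel_prime hp h4
  have h2 := pel_prime hq h4q
  have hne : pel p * pel q ≠ 0 := mul_ne_zero h1.ne_zero h2.ne_zero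
  have hn : (nn (pel p * pel q) : ℝ) = p * q := by
    rw [nn_mul, (pel_spec hp h4).1, (pel_spec hq h4q).1]; push_cast; ring
  have h3 := tkv_up (pel p * pel q) hne x
  rw [hn] at h3
  refine le_trans (Finset.card_le_card ?_) h3
  intro z hz
  rw [Finset.mem_filter] at hz ⊢
  refine ⟨hz.1, ?_⟩
  obtain ⟨⟨w, rfl⟩, hd⟩ := hz.2
  rcases h2.dvd_or_dvd hd with h | h
  · exact absurd (pel_inj hq h4q hp h4 h).symm hpq
  · exact mul_dvd_mul_left _ h

open Classical in
/-- multiples of a prime element: lower bound -/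
theorem tkv_low {p : ℕ} (hp : p.Prime) (h4 : p % 4 = 1) (x : ℝ) :
    (PB (x / p)).card ≤ ((PB x).filter (fun z => pel p ∣ z)).card + (PB (x / (p * p))).card := by
  have h1 := pel_prime hp h4
  have h2 := pel_star_prime hp h4
  have hppos : (0 : ℝ) < p := by exact_mod_cast hp.pos
  have hA : ((PB (x / p)).filter (fun w => ¬ star (pel p) ∣ w)).card ≤
      ((PB x).filter (fun z => pel p ∣ z)).card := by
    rw [← Finset.card_image_of_injective ((PB (x / p)).filter (fun w => ¬ star (pel p) ∣ w))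
      (mul_right_injective₀ h1.ne_zero)]
    apply Finset.card_le_card
    intro z hz
    rw [Finset.mem_image] at hz
    obtain ⟨w, hw, rfl⟩ := hz
    rw [Finset.mem_filter, mem_PB] at hw
    rw [Finset.mem_filter, mem_PB]
    refine ⟨⟨(pel_prm_mul hp h4).mpr ⟨hw.1.1, hw.2⟩, ?_⟩, dvd_mul_right _ _⟩
    have := hw.1.2
    rw [le_div_iff₀ hppos] at this
    simp only [nn_mul, (pel_spec hp h4).1]
    push_cast
    linarith
  have hB : ((PB (x / p)).filter (fun w => star (pel p) ∣ w)).card ≤ (PB (x / (p * p))).card := by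
    have := tkv_up (star (pel p)) h2.ne_zero (x / p)
    rw [nn_star, (pel_spec hp h4).1, div_div] at this
    exact this
  have hC := Finset.card_filter_add_card_filter_not (s := PB (x / p)) (fun w => star (pel p) ∣ w)
  omega

theorem tkv_R_le (x : ℝ) (hx : 1 ≤ x) (B : Finset ℕ) (hB : Pset B)
    (hb : ∀ p ∈ B, (p : ℝ) ≤ x ^ (1 / 4 : ℝ)) : rs B ≤ 3 * x ^ (1 / 8 : ℝ) := by
  have hx0 : 0 < x := by linarith
  have h1 : 1 ≤ x ^ (1 / 4 : ℝ) := Real.one_le_rpow hx (by norm_num)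
  set N : ℕ := ⌊x ^ (1 / 4 : ℝ)⌋₊ with hN
  have hN1 : 1 ≤ N := Nat.one_le_floor_iff _ |>.mpr h1
  have hsub : B ⊆ Finset.Icc 1 N := by
    intro p hp
    rw [Finset.mem_Icc]
    exact ⟨(hB p hp).1.one_le, Nat.le_floor (hb p hp)⟩
  have h2 : rs B ≤ ∑ n ∈ Finset.Icc 1 N, 1 / (n : ℝ) := by
    unfold rs
    exact Finset.sum_le_sum_of_subset_of_nonneg hsub (fun _ _ _ => by positivity)
  have h3 : ∑ n ∈ Finset.Icc 1 N, 1 / (n : ℝ) ≤ 1 + Real.log N := by
    have := harmonic_le_one_add_log N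
    rw [harmonic_eq_sum_Icc] at this
    push_cast at this
    simpa [one_div] using this
  have h4 : Real.log N ≤ Real.log (x ^ (1 / 4 : ℝ)) := by
    apply Real.log_le_log
    · exact_mod_cast hN1
    · exact Nat.floor_le (by positivity)
  rw [Real.log_rpow hx0] at h4
  have h5 : Real.log x ≤ x ^ (1 / 8 : ℝ) / (1 / 8) := Real.log_le_rpow_div hx0.le (by norm_num)
  have h6 : 1 ≤ x ^ (1 / 8 : ℝ) := Real.one_le_rpow hx (by norm_num)
  linarith

theorem tk_var_pr : ∃ C : ℝ, 1 ≤ C ∧ ∀ (x : ℝ) (B : Finset ℕ), 1 ≤ x → Pset B →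
    (∀ p ∈ B, (p : ℝ) ≤ x ^ (1 / 4 : ℝ)) → 1 ≤ rs B →
      ∑ z ∈ PB x, (om B z - rs B) ^ 2 ≤ C * x * rs B := by
  classical
  obtain ⟨c₀, C, hc₀, hC1, hcnt⟩ := prim_count
  refine ⟨20 * C + 4 * c₀ + 20, by linarith, ?_⟩
  intro x B hx hB hb hR1
  have hx0 : 0 < x := by linarith
  set R := rs B with hRdef
  have hR0 : 0 ≤ R := by linarith
  set N : ℝ → ℝ := fun y => ((PB y).card : ℝ) with hNdef
  have hNx : N x ≤ c₀ * x + C * x ^ (3 / 4 : ℝ) := by
    have := abs_le.mp (hcnt x hx)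
    simp only [hNdef]; linarith [this.2]
  -- facts about the powers
  have hR8 := tkv_R_le x hx B hB hb
  have hp14 : ∀ p ∈ B, (p : ℝ) ≤ x ^ (1 / 4 : ℝ) := hb
  have hppos : ∀ p ∈ B, (1 : ℝ) ≤ p := fun p hp => by exact_mod_cast (hB p hp).1.one_le
  -- `N (x / t)` for `1 ≤ t ≤ x ^ (1/2)`
  have hNt : ∀ t : ℝ, 1 ≤ t → t ≤ x ^ (1 / 2 : ℝ) →
      |N (x / t) - c₀ * (x / t)| ≤ C * (x / t) * x ^ (-(1 / 8) : ℝ) := by
    intro t ht1 ht2
    have ht0 : 0 < t := by linarith
    have hxt : x ^ (1 / 2 : ℝ) ≤ x / t := by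
      rw [le_div_iff₀ ht0]
      calc x ^ (1 / 2 : ℝ) * t ≤ x ^ (1 / 2 : ℝ) * x ^ (1 / 2 : ℝ) := by gcongr
        _ = x := by rw [← Real.rpow_add hx0]; norm_num
    have h1 : 1 ≤ x / t := le_trans (Real.one_le_rpow hx (by norm_num)) hxt
    have h2 := hcnt (x / t) h1
    refine h2.trans ?_
    have h3 : (x / t) ^ (3 / 4 : ℝ) = (x / t) * (x / t) ^ (-(1 / 4) : ℝ) := by
      nth_rewrite 2 [← Real.rpow_one (x / t)]
      rw [← Real.rpow_add (by linarith)]; norm_num
    have h4 : (x / t) ^ (-(1 / 4) : ℝ) ≤ x ^ (-(1 / 8) : ℝ) := by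
      calc (x / t) ^ (-(1 / 4) : ℝ) ≤ (x ^ (1 / 2 : ℝ)) ^ (-(1 / 4) : ℝ) :=
            Real.rpow_le_rpow_of_nonpos (by positivity) hxt (by norm_num)
        _ = x ^ (-(1 / 8) : ℝ) := by rw [← Real.rpow_mul hx0.le]; norm_num
    rw [h3, mul_assoc]
    gcongr
  have h14sq : x ^ (1 / 4 : ℝ) * x ^ (1 / 4 : ℝ) = x ^ (1 / 2 : ℝ) := by
    rw [← Real.rpow_add hx0]; norm_num
  have h1412 : x ^ (1 / 4 : ℝ) ≤ x ^ (1 / 2 : ℝ) :=
    Real.rpow_le_rpow_of_exponent_le hx (by norm_num)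
  have hx8 : x ^ (-(1 / 8) : ℝ) ≤ 1 := Real.rpow_le_one_of_one_le_of_nonpos hx (by norm_num)
  have hx80 : 0 ≤ x ^ (-(1 / 8) : ℝ) := by positivity
  -- first moment: lower bound
  have hA_low : ∀ p ∈ B, c₀ * x * (1 / (p : ℝ)) - C * x * x ^ (-(1 / 8) : ℝ) * (1 / (p : ℝ)) -
      (c₀ + C) * x * (1 / (p : ℝ)) * (1 / (p : ℝ)) ≤
        (((PB x).filter (fun z => pel p ∣ z)).card : ℝ) := by
    intro p hp
    obtain ⟨hp1, hp4⟩ := hB p hp
    have h1 : ((PB (x / p)).card : ℝ) ≤ (((PB x).filter (fun z => pel p ∣ z)).card : ℝ) +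
        ((PB (x / (p * p))).card : ℝ) := by exact_mod_cast tkv_low hp1 hp4 x
    have h2 := abs_le.mp (hNt p (hppos p hp) ((hp14 p hp).trans h1412))
    have h3 := abs_le.mp (hNt (p * p) (by nlinarith [hppos p hp]) (by
      rw [← h14sq]; exact mul_le_mul (hp14 p hp) (hp14 p hp) (by positivity) (by positivity)))
    simp only [hNdef] at h2 h3
    have hp0 : (0 : ℝ) < p := by linarith [hppos p hp]
    have e1 : x / p = x * (1 / (p : ℝ)) := by ring
    have e2 : x / ((p : ℝ) * p) = x * (1 / (p : ℝ)) * (1 / (p : ℝ)) := by field_simp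
    have h4 : C * (x / ((p : ℝ) * p)) * x ^ (-(1 / 8) : ℝ) ≤ C * (x / ((p : ℝ) * p)) := by
      have : 0 ≤ C * (x / ((p : ℝ) * p)) := by positivity
      nlinarith
    rw [e2] at h3 h4
    rw [e1] at h2
    rw [e1] at h1
    rw [e2] at h1
    nlinarith [h2.1, h3.2]
  -- upper bounds
  have hA_up : ∀ p ∈ B, (((PB x).filter (fun z => pel p ∣ z)).card : ℝ) ≤
      (c₀ + C) * x * (1 / (p : ℝ)) := by
    intro p hp
    obtain ⟨hp1, hp4⟩ := hB p hp
    have h1 : (((PB x).filter (fun z => pel p ∣ z)).card : ℝ) ≤ ((PB (x / p)).card : ℝ) := by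
      have := tkv_up (pel p) (pel_prime hp1 hp4).ne_zero x
      rw [(pel_spec hp1 hp4).1] at this
      exact_mod_cast this
    have h2 := abs_le.mp (hNt p (hppos p hp) ((hp14 p hp).trans h1412))
    simp only [hNdef] at h2
    have hp0 : (0 : ℝ) < p := by linarith [hppos p hp]
    have e1 : x / p = x * (1 / (p : ℝ)) := by ring
    have h4 : C * (x / (p : ℝ)) * x ^ (-(1 / 8) : ℝ) ≤ C * (x / (p : ℝ)) := by
      have : 0 ≤ C * (x / (p : ℝ)) := by positivity
      nlinarith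
    rw [e1] at h2 h4 h1
    nlinarith [h2.2]
  have hAA_up : ∀ p ∈ B, ∀ q ∈ B, p ≠ q →
      (((PB x).filter (fun z => pel p ∣ z ∧ pel q ∣ z)).card : ℝ) ≤
      (c₀ * x + C * x * x ^ (-(1 / 8) : ℝ)) * ((1 / (p : ℝ)) * (1 / (q : ℝ))) := by
    intro p hp q hq hpq
    obtain ⟨hp1, hp4⟩ := hB p hp
    obtain ⟨hq1, hq4⟩ := hB q hq
    have h1 : (((PB x).filter (fun z => pel p ∣ z ∧ pel q ∣ z)).card : ℝ) ≤
        ((PB (x / (p * q))).card : ℝ) := by exact_mod_cast tkv_up2 hp1 hp4 hq1 hq4 hpq x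
    have h2 := abs_le.mp (hNt (p * q) (by nlinarith [hppos p hp, hppos q hq]) (by
      rw [← h14sq]; exact mul_le_mul (hp14 p hp) (hp14 q hq) (by positivity) (by positivity)))
    simp only [hNdef] at h2
    have e1 : x / ((p : ℝ) * q) = x * (1 / (p : ℝ) * (1 / (q : ℝ))) := by
      have hp0 : (0 : ℝ) < p := by linarith [hppos p hp]
      have hq0 : (0 : ℝ) < q := by linarith [hppos q hq]
      field_simp
    rw [e1] at h2 h1
    nlinarith [h2.2]
  -- moments as sums
  have hom : ∀ z : G, om B z = ∑ p ∈ B, (if pel p ∣ z then (1 : ℝ) else 0) := by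
    intro z
    unfold om
    rw [Finset.card_filter]
    push_cast
    rfl
  have hM1 : ∑ z ∈ PB x, om B z = ∑ p ∈ B, (((PB x).filter (fun z => pel p ∣ z)).card : ℝ) := by
    simp_rw [hom]
    rw [Finset.sum_comm]
    apply Finset.sum_congr rfl
    intro p _
    rw [Finset.card_filter]
    push_cast
    rfl
  have hM2 : ∑ z ∈ PB x, om B z ^ 2 = ∑ p ∈ B, ∑ q ∈ B,
      (((PB x).filter (fun z => pel p ∣ z ∧ pel q ∣ z)).card : ℝ) := by
    simp_rw [hom, sq, Finset.sum_mul_sum]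
    rw [Finset.sum_comm]
    apply Finset.sum_congr rfl
    intro p _
    rw [Finset.sum_comm]
    apply Finset.sum_congr rfl
    intro q _
    rw [Finset.card_filter]
    push_cast
    apply Finset.sum_congr rfl
    intro z _
    by_cases h1 : pel p ∣ z <;> by_cases h2 : pel q ∣ z <;> simp [h1, h2]
  -- bounds of the moments
  have hsum1 : ∑ p ∈ B, (1 / (p : ℝ)) = R := rfl
  have hM1_low : c₀ * x * R - C * x * x ^ (-(1 / 8) : ℝ) * R - (c₀ + C) * x ≤
      ∑ z ∈ PB x, om B z := by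
    rw [hM1]
    have h1 := Finset.sum_le_sum hA_low
    rw [Finset.sum_sub_distrib, Finset.sum_sub_distrib, ← Finset.mul_sum, ← Finset.mul_sum,
      hsum1] at h1
    have h2 : ∑ p ∈ B, (c₀ + C) * x * (1 / (p : ℝ)) * (1 / (p : ℝ)) ≤ (c₀ + C) * x := by
      have h3 : ∑ p ∈ B, (1 / (p : ℝ)) * (1 / (p : ℝ)) ≤ 1 := by
        have h4 : ∀ p ∈ B, (1 / (p : ℝ)) * (1 / (p : ℝ)) ≤ 1 / ((p : ℝ) - 1) - 1 / p := by
          intro p hp
          have : (2 : ℝ) ≤ p := by exact_mod_cast (hB p hp).1.two_le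
          have h5 : 1 / ((p : ℝ) - 1) - 1 / p = (1 / ((p : ℝ) - 1)) * (1 / p) := by
            have : (p : ℝ) - 1 ≠ 0 := by linarith
            have : (p : ℝ) ≠ 0 := by linarith
            field_simp
            ring
          rw [h5]
          gcongr
          · linarith
          · linarith
        have h6 : ∀ n : ℕ, ∑ p ∈ Finset.Icc 2 n, (1 / ((p : ℝ) - 1) - 1 / p) ≤ 1 := by
          intro n
          have h7 : ∀ n : ℕ, 1 ≤ n →
              ∑ p ∈ Finset.Icc 2 n, (1 / ((p : ℝ) - 1) - 1 / p) = 1 - 1 / (n : ℝ) := by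
            intro n hn
            induction n, hn using Nat.le_induction with
            | base => simp
            | succ n hn ih =>
              rw [Finset.sum_Icc_succ_top (by omega), ih]
              push_cast
              have : (n : ℝ) ≠ 0 := by positivity
              rw [add_sub_cancel_right]
              ring
          rcases Nat.eq_zero_or_pos n with rfl | hn
          · simp
          · rw [h7 n hn]
            have : 0 ≤ 1 / (n : ℝ) := by positivity
            linarith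
        have h8 : B ⊆ Finset.Icc 2 (B.sup id) := by
          intro p hp
          rw [Finset.mem_Icc]
          exact ⟨(hB p hp).1.two_le, Finset.le_sup (f := id) hp⟩
        calc ∑ p ∈ B, (1 / (p : ℝ)) * (1 / (p : ℝ)) ≤ ∑ p ∈ B, (1 / ((p : ℝ) - 1) - 1 / p) :=
              Finset.sum_le_sum h4
          _ ≤ ∑ p ∈ Finset.Icc 2 (B.sup id), (1 / ((p : ℝ) - 1) - 1 / p) := by
              apply Finset.sum_le_sum_of_subset_of_nonneg h8
              intro p hp _
              rw [Finset.mem_Icc] at hp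
              have : (2 : ℝ) ≤ p := by exact_mod_cast hp.1
              rw [sub_nonneg]
              apply one_div_le_one_div_of_le <;> linarith
          _ ≤ 1 := h6 _
      have h9 : ∑ p ∈ B, (c₀ + C) * x * (1 / (p : ℝ)) * (1 / (p : ℝ)) =
          (c₀ + C) * x * ∑ p ∈ B, (1 / (p : ℝ)) * (1 / (p : ℝ)) := by
        rw [Finset.mul_sum]
        apply Finset.sum_congr rfl
        intro p _; ring
      rw [h9]
      have : 0 ≤ (c₀ + C) * x := by positivity
      nlinarith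
    linarith
  have hM2_up : ∑ z ∈ PB x, om B z ^ 2 ≤
      (c₀ + C) * x * R + (c₀ * x + C * x * x ^ (-(1 / 8) : ℝ)) * R ^ 2 := by
    rw [hM2]
    have h1 : ∀ p ∈ B, ∑ q ∈ B, (((PB x).filter (fun z => pel p ∣ z ∧ pel q ∣ z)).card : ℝ) ≤
        (c₀ + C) * x * (1 / (p : ℝ)) + (c₀ * x + C * x * x ^ (-(1 / 8) : ℝ)) *
          ((1 / (p : ℝ)) * R) := by
      intro p hp
      rw [← Finset.add_sum_erase B _ hp]
      apply add_le_add
      · simp only [and_self]
        exact hA_up p hp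
      · calc ∑ q ∈ B.erase p, (((PB x).filter (fun z => pel p ∣ z ∧ pel q ∣ z)).card : ℝ)
            ≤ ∑ q ∈ B.erase p, (c₀ * x + C * x * x ^ (-(1 / 8) : ℝ)) *
              ((1 / (p : ℝ)) * (1 / (q : ℝ))) := by
              apply Finset.sum_le_sum
              intro q hq
              rw [Finset.mem_erase] at hq
              exact hAA_up p hp q hq.2 (fun h => hq.1 h.symm)
          _ ≤ ∑ q ∈ B, (c₀ * x + C * x * x ^ (-(1 / 8) : ℝ)) *
              ((1 / (p : ℝ)) * (1 / (q : ℝ))) := by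
              apply Finset.sum_le_sum_of_subset_of_nonneg (Finset.erase_subset _ _)
              intro q _ _
              positivity
          _ = _ := by
              rw [← hsum1, Finset.mul_sum, Finset.mul_sum]
    calc ∑ p ∈ B, ∑ q ∈ B, (((PB x).filter (fun z => pel p ∣ z ∧ pel q ∣ z)).card : ℝ)
        ≤ ∑ p ∈ B, ((c₀ + C) * x * (1 / (p : ℝ)) + (c₀ * x + C * x * x ^ (-(1 / 8) : ℝ)) *
          ((1 / (p : ℝ)) * R)) := Finset.sum_le_sum h1
      _ = _ := by
          rw [Finset.sum_add_distrib, ← Finset.mul_sum, ← Finset.mul_sum, ← Finset.sum_mul, hsum1]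
          ring
  -- conclusion
  have hexp : ∑ z ∈ PB x, (om B z - R) ^ 2 =
      ∑ z ∈ PB x, om B z ^ 2 - 2 * R * ∑ z ∈ PB x, om B z + R ^ 2 * N x := by
    have : ∀ z ∈ PB x, (om B z - R) ^ 2 = om B z ^ 2 - 2 * R * om B z + R ^ 2 := by
      intro z _; ring
    rw [Finset.sum_congr rfl this, Finset.sum_add_distrib, Finset.sum_sub_distrib,
      ← Finset.mul_sum, Finset.sum_const, nsmul_eq_mul]
    simp only [hNdef]
    ring
  rw [hexp]
  have h34 : x ^ (3 / 4 : ℝ) ≤ x * x ^ (-(1 / 8) : ℝ) := by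
    have : x * x ^ (-(1 / 8) : ℝ) = x ^ (7 / 8 : ℝ) := by
      nth_rewrite 1 [← Real.rpow_one x]
      rw [← Real.rpow_add hx0]; norm_num
    rw [this]
    exact Real.rpow_le_rpow_of_exponent_le hx (by norm_num)
  have hRx : x ^ (-(1 / 8) : ℝ) * R ≤ 3 := by
    calc x ^ (-(1 / 8) : ℝ) * R ≤ x ^ (-(1 / 8) : ℝ) * (3 * x ^ (1 / 8 : ℝ)) := by gcongr
      _ = 3 * (x ^ (-(1 / 8) : ℝ) * x ^ (1 / 8 : ℝ)) := by ring
      _ = 3 := by rw [← Real.rpow_add hx0]; norm_num
  set y := x ^ (-(1 / 8) : ℝ) with hy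
  have hN2 : R ^ 2 * N x ≤ R ^ 2 * (c₀ * x + C * (x * y)) := by
    apply mul_le_mul_of_nonneg_left _ (by positivity)
    calc N x ≤ c₀ * x + C * x ^ (3 / 4 : ℝ) := hNx
      _ ≤ _ := by gcongr
  have h5 : 2 * R * (c₀ * x * R - C * x * y * R - (c₀ + C) * x) ≤ 2 * R * ∑ z ∈ PB x, om B z := by
    gcongr
  have h6 : C * x * R * (y * R) ≤ C * x * R * 3 := by
    apply mul_le_mul_of_nonneg_left hRx (by positivity)
  have h7 : 0 ≤ C * x * R := by positivity
  have h8 : 0 ≤ c₀ * x * R := by positivity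
  have h9 : 0 ≤ x * R := by positivity
  nlinarith

end Pool.Agent.T2


namespace Pool.Agent.T2

theorem tk_var : type_of% @tk_var_pr := @tk_var_pr

end Pool.Agent.T2
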