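import Pool.Agent.Lib_helper10.T2.Defs
import Pool.Agent.Lib_helper10.T2F.BAS
import Pool.Agent.Lib_helper10.T2F.MOM

namespace Pool.Agent.T2

open Filter Topology MeasureTheory

theorem ucd_chi_le {m : G} (χ : MChar m) (z : G) : ‖χ.f z‖ ≤ 1 := by
  by_cases h : IsCoprime z m
  · exact (χ.nrm z h).le
  · rw [χ.zero z h]; simp

theorem ucd_one_mem : (1 : G) ∈ PB 1 := by
  rw [mem_PB]
  refine ⟨?_, ?_⟩
  · unfold Prm; simp
  · simp [nn]

open Classical in
theorem few_large_pr : ∃ C : ℝ, 1 ≤ C ∧ ∀ (m : G) (χ : MChar m) (X M α : ℝ) (B : Finset ℕ) (l : ℕ),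
    1 ≤ X → 1 ≤ M → 0 < α → α ≤ 1 / 4 → Pset B → (∀ p ∈ B, M < (p : ℝ) ∧ (p : ℝ) ≤ 2 * M) →
    X ≤ M ^ l → M ^ l ≤ X * M →
      (((Ks X).filter (fun k => M ^ (1 - α) < ‖Qs χ k B‖)).card : ℝ) ≤
        C * (X * M) ^ (2 * α) * C ^ l * l.factorial := by
  obtain ⟨C, hC, hmom⟩ := moment
  refine ⟨4 * C, by linarith, ?_⟩
  intro m χ X M α B l hX hM hα hα1 hB hBM hXl hlX
  have h := hmom X 1 M B (fun p => χ.f (pel p)) (fun z => if z = 1 then 1 else 0) l
    (by linarith) le_rfl hM hB hBM (fun p => ucd_chi_le χ _) (fun z => by split_ifs <;> simp)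
  have hin : ∀ k : ℤ, ∑ z ∈ PB 1, (if z = (1 : G) then (1 : ℂ) else 0) * ang k z = 1 := by
    intro k
    rw [Finset.sum_eq_single (1 : G)]
    · have : ang k (1 : G) = 1 := by
        have := ang_nat k (n := 1) le_rfl
        simpa using this
      simp [this]
    · intro b _ hb; simp [hb]
    · intro h; exact absurd ucd_one_mem h
  have hQ : ∀ k : ℤ, ∑ p ∈ B, χ.f (pel p) * ang k (pel p) = Qs χ k B := fun k => rfl
  simp only [hin, mul_one, hQ, one_mul] at h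
  set T := (Ks X).filter (fun k => M ^ (1 - α) < ‖Qs χ k B‖) with hT
  have hM0 : (0 : ℝ) < M := by linarith
  have hMl : (1 : ℝ) ≤ M ^ l := one_le_pow₀ hM
  -- lower bound
  have hlow : (T.card : ℝ) * ((M ^ (1 - α)) ^ l) ^ 2 ≤ ∑ k ∈ Ks X, ‖Qs χ k B ^ l‖ ^ 2 := by
    calc (T.card : ℝ) * ((M ^ (1 - α)) ^ l) ^ 2 = ∑ k ∈ T, ((M ^ (1 - α)) ^ l) ^ 2 := by
          rw [Finset.sum_const, nsmul_eq_mul]
      _ ≤ ∑ k ∈ T, ‖Qs χ k B ^ l‖ ^ 2 := by
          apply Finset.sum_le_sum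
          intro k hk
          have hk' := (Finset.mem_filter.mp hk).2
          rw [norm_pow]
          have h0 : (0 : ℝ) ≤ M ^ (1 - α) := Real.rpow_nonneg hM0.le _
          gcongr
      _ ≤ ∑ k ∈ Ks X, ‖Qs χ k B ^ l‖ ^ 2 :=
          Finset.sum_le_sum_of_subset_of_nonneg (Finset.filter_subset _ _)
            (fun _ _ _ => by positivity)
  have hup : ∑ k ∈ Ks X, ‖Qs χ k B ^ l‖ ^ 2 ≤ 4 * C * (M ^ l) ^ 2 * (4 * C) ^ l * l.factorial := by
    refine le_trans h ?_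
    have h1 : X + (2 * M) ^ l ≤ 2 * (2 * M) ^ l := by
      have : X ≤ (2 * M) ^ l := by
        refine le_trans hXl ?_
        exact pow_le_pow_left₀ hM0.le (by linarith) l
      linarith
    calc C * (X + (2 * M) ^ l) * ((2 * M) ^ l) * C ^ l * l.factorial
        ≤ C * (2 * (2 * M) ^ l) * ((2 * M) ^ l) * C ^ l * l.factorial := by gcongr
      _ = 2 * C * (M ^ l) ^ 2 * (4 * C) ^ l * l.factorial := by
          rw [mul_pow, mul_pow, show (4 : ℝ) = 2 * 2 by norm_num, mul_pow]; ring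
      _ ≤ 4 * C * (M ^ l) ^ 2 * (4 * C) ^ l * l.factorial := by
          gcongr
          linarith
  have hpow : ((M ^ (1 - α)) ^ l) ^ 2 * (M ^ l) ^ (2 * α) = (M ^ l) ^ 2 := by
    rw [← Real.rpow_natCast (M ^ (1 - α)) l, ← Real.rpow_mul hM0.le,
      ← Real.rpow_natCast M l, ← Real.rpow_mul hM0.le, ← Real.rpow_natCast _ 2,
      ← Real.rpow_natCast _ 2, ← Real.rpow_mul hM0.le, ← Real.rpow_mul hM0.le,
      ← Real.rpow_add hM0]
    congr 1
    push_cast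
    ring
  have hpos : (0 : ℝ) < ((M ^ (1 - α)) ^ l) ^ 2 := by positivity
  have hfin : (T.card : ℝ) * ((M ^ (1 - α)) ^ l) ^ 2 ≤
      (4 * C * (M ^ l) ^ (2 * α) * (4 * C) ^ l * l.factorial) * ((M ^ (1 - α)) ^ l) ^ 2 := by
    refine le_trans (le_trans hlow hup) (le_of_eq ?_)
    rw [← hpow]; ring
  have hcard := le_of_mul_le_mul_right hfin hpos
  refine le_trans hcard ?_
  have h2 : (M ^ l) ^ (2 * α) ≤ (X * M) ^ (2 * α) :=
    Real.rpow_le_rpow (by positivity) hlX (by linarith)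
  gcongr

end Pool.Agent.T2


namespace Pool.Agent.T2

theorem few_large : type_of% @few_large_pr := @few_large_pr

end Pool.Agent.T2
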