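import Pool.Agent.Lib_helper10.T2.Defs
import Pool.Agent.Lib_helper10.T2F.BAS
import Pool.Agent.Lib_helper10.T2F.LSG
import Pool.Agent.Lib_helper10.T2F.MER
import Pool.Agent.Lib_helper10.T2F.TJA
import Pool.Agent.Lib_helper10.T2F.TJB
import Pool.Agent.Lib_helper10.T2F.TKR
import Pool.Agent.Lib_helper10.T2F.UCD

/-! T2, block LEV: typical frequencies -/

namespace Pool.Agent.T2

open Filter Topology MeasureTheory

/-- covers -/
theorem lev_cover {ι κ : Type} [DecidableEq ι] (S : Finset ι) (R : Finset κ) (T : κ → Finset ι)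
    (f : ι → ℝ) (hf : ∀ k, 0 ≤ f k) (h : ∀ k ∈ S, ∃ u ∈ R, k ∈ T u) :
    ∑ k ∈ S, f k ≤ ∑ u ∈ R, ∑ k ∈ T u, f k := by
  calc ∑ k ∈ S, f k ≤ ∑ k ∈ S, ∑ u ∈ R, (if k ∈ T u then f k else 0) := by
        apply Finset.sum_le_sum
        intro k hk
        obtain ⟨u, hu, hku⟩ := h k hk
        have := Finset.single_le_sum (f := fun u => if k ∈ T u then f k else 0)
          (fun u _ => by split_ifs; exacts [hf k, le_rfl]) hu
        simpa [hku] using this
    _ = ∑ u ∈ R, ∑ k ∈ S, (if k ∈ T u then f k else 0) := Finset.sum_comm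
    _ = ∑ u ∈ R, ∑ k ∈ S.filter (fun k => k ∈ T u), f k := by
        simp only [Finset.sum_filter]
    _ ≤ ∑ u ∈ R, ∑ k ∈ T u, f k := by
        apply Finset.sum_le_sum
        intro u _
        apply Finset.sum_le_sum_of_subset_of_nonneg
        · intro k hk; exact (Finset.mem_filter.1 hk).2
        · intro k _ _; exact hf k

/-- factorials against exponentials -/
theorem lev_fac {C E A b : ℝ} (n : ℕ) (hC : 1 ≤ C) (hE : 4 * C ≤ E) (hb : E / 2 ≤ b)
    (hAb : b ≤ A) (hA : A ≤ E ^ (n + 1)) :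
    C ^ ⌈A / b⌉₊ * ((⌈A / b⌉₊).factorial : ℝ) ≤
      Real.exp (4 * (n + 1) * A * Real.log E / E) := by
  set l := ⌈A / b⌉₊ with hl
  have hE0 : 0 < E := by linarith
  have hb0 : 0 < b := by linarith
  have hA0 : 0 < A := by linarith
  have hl1 : (l : ℝ) ≤ A / b + 1 := (Nat.ceil_lt_add_one (by positivity)).le
  have hl2 : (1 : ℝ) ≤ A / b := by rw [le_div_iff₀ hb0]; linarith
  have hl3 : A / b ≤ A / (E / 2) := div_le_div_of_nonneg_left hA0.le (by positivity) hb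
  have hl4 : A / (E / 2) = 2 * A / E := by field_simp
  have hl5 : (l : ℝ) ≤ 4 * A / E := by
    have : 4 * A / E = 2 * (2 * A / E) := by ring
    rw [this]; rw [hl4] at hl3; linarith
  have h1 : (C * l : ℝ) ≤ E ^ (n + 1) := by
    calc (C * l : ℝ) ≤ C * (4 * A / E) := by gcongr
      _ = (4 * C) * A / E := by ring
      _ ≤ E * A / E := by gcongr
      _ = A := by field_simp
      _ ≤ E ^ (n + 1) := hA
  have hfac : ((l.factorial : ℕ) : ℝ) ≤ (l : ℝ) ^ l := by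
    exact_mod_cast Nat.factorial_le_pow l
  have hlogE : 0 ≤ Real.log E := Real.log_nonneg (by linarith)
  calc C ^ l * (l.factorial : ℝ) ≤ C ^ l * (l : ℝ) ^ l := by gcongr
    _ = (C * l) ^ l := by rw [mul_pow]
    _ ≤ (E ^ (n + 1)) ^ l := by gcongr
    _ = Real.exp ((n + 1) * Real.log E * l) := by
        rw [← Real.exp_log hE0]
        rw [← Real.exp_nat_mul, ← Real.exp_nat_mul, Real.log_exp]
        congr 1
        push_cast
        ring
    _ ≤ Real.exp ((n + 1) * Real.log E * (4 * A / E)) := by gcongr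
    _ = _ := by congr 1; ring

/-- the choice of the exponent -/
theorem lev_pow {A b : ℝ} (hb : 0 < b) (hA : 0 ≤ A) :
    Real.exp A ≤ Real.exp b ^ ⌈A / b⌉₊ ∧ Real.exp b ^ ⌈A / b⌉₊ ≤ Real.exp A * Real.exp b := by
  rw [← Real.exp_nat_mul, ← Real.exp_add]
  constructor
  · apply Real.exp_le_exp.2
    have := Nat.le_ceil (A / b)
    rw [div_le_iff₀ hb] at this
    exact this
  · apply Real.exp_le_exp.2
    have h1 : ((⌈A / b⌉₊ : ℕ) : ℝ) ≤ A / b + 1 := (Nat.ceil_lt_add_one (by positivity)).le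
    calc ((⌈A / b⌉₊ : ℕ) : ℝ) * b ≤ (A / b + 1) * b := by gcongr
      _ = A + b := by field_simp

/-- the first estimate: error term and main term -/
theorem lev_A : ∃ C : ℝ, 1 ≤ C ∧ ∀ (m : G) (χ : MChar m) (Y ρ P : ℝ) (B : Finset ℕ) (V : ℕ)
    (T : Finset ℤ), 1 ≤ Y → 1 < ρ → ρ ≤ 2 → Y ^ (-(1 / 16) : ℝ) ≤ ρ - 1 → 2 ≤ P → Pset B →
    (∀ p ∈ B, P < (p : ℝ) ∧ (p : ℝ) ≤ Y ^ (1 / 4 : ℝ) ∧ (p : ℝ) ≤ ρ ^ V) → 1 ≤ rs B →
    T ⊆ Ks Y →
    ∑ k ∈ T, ‖Sm χ k Y‖ ^ 2 ≤ C * Y ^ 2 * (1 / rs B + (ρ - 1)) +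
      2 * ∑ k ∈ T, ‖∑ v ∈ Finset.range V, Qs χ k (blk ρ v B) * Sm χ k (Y / ρ ^ v)‖ ^ 2 := by
  obtain ⟨C₁, hC₁, h1⟩ := tk_rep
  obtain ⟨C₂, hC₂, h2⟩ := large_sieve
  refine ⟨18 * C₁ * C₂, by nlinarith, ?_⟩
  intro m χ Y ρ P B V T hY hρ hρ2 hYρ hP hB hBp hrs hT
  obtain ⟨c, hc, hrep⟩ := h1 m χ Y ρ P B V hY hρ hρ2 hYρ hP hB hBp hrs
  have hls := h2 Y (2 * Y) (by linarith) (by linarith) c
  have hlogP : (1 / 2 : ℝ) ≤ Real.log P := by
    have : Real.log 2 ≤ Real.log P := Real.log_le_log (by norm_num) hP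
    have := Real.log_two_gt_d9
    linarith
  have hrs0 : 0 < rs B := by linarith
  have h3 : 1 / (rs B ^ 2 * Real.log P) ≤ 2 * (1 / rs B) := by
    rw [div_le_iff₀ (by positivity)]
    have : 2 * (1 / rs B) * (rs B ^ 2 * Real.log P) = 2 * rs B * Real.log P := by field_simp
    rw [this]
    nlinarith
  have h4 : ∑ k ∈ T, ‖∑ z ∈ PB (2 * Y), c z * ang k z‖ ^ 2 ≤
      9 * C₁ * C₂ * Y ^ 2 * (1 / rs B + (ρ - 1)) := by
    calc ∑ k ∈ T, ‖∑ z ∈ PB (2 * Y), c z * ang k z‖ ^ 2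
        ≤ ∑ k ∈ Ks Y, ‖∑ z ∈ PB (2 * Y), c z * ang k z‖ ^ 2 :=
          Finset.sum_le_sum_of_subset_of_nonneg hT (fun _ _ _ => by positivity)
      _ ≤ C₂ * (Y + 2 * Y) * ∑ z ∈ PB (2 * Y), ‖c z‖ ^ 2 := hls
      _ ≤ C₂ * (Y + 2 * Y) * (C₁ * Y * (1 / rs B + (ρ - 1) + 1 / (rs B ^ 2 * Real.log P))) := by
          gcongr
      _ ≤ C₂ * (Y + 2 * Y) * (C₁ * Y * (1 / rs B + (ρ - 1) + 2 * (1 / rs B))) := by
          gcongr
      _ ≤ C₂ * (Y + 2 * Y) * (C₁ * Y * (3 * (1 / rs B + (ρ - 1)))) := by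
          gcongr
          linarith
      _ = _ := by ring
  have h5 : ∀ k, ‖Sm χ k Y‖ ^ 2 ≤ 2 * ‖∑ z ∈ PB (2 * Y), c z * ang k z‖ ^ 2 +
      2 * ‖∑ v ∈ Finset.range V, Qs χ k (blk ρ v B) * Sm χ k (Y / ρ ^ v)‖ ^ 2 := by
    intro k
    have h6 := hrep k
    set S := ∑ v ∈ Finset.range V, Qs χ k (blk ρ v B) * Sm χ k (Y / ρ ^ v) with hS
    set R := ∑ z ∈ PB (2 * Y), c z * ang k z with hR
    have h7 : Sm χ k Y = R - (1 / (rs B : ℂ)) * S := by rw [← h6]; ring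
    have h8 : ‖(1 / (rs B : ℂ)) * S‖ ≤ ‖S‖ := by
      rw [norm_mul]
      have : ‖(1 / (rs B : ℂ))‖ ≤ 1 := by
        rw [norm_div, norm_one, Complex.norm_real, Real.norm_of_nonneg hrs0.le,
          div_le_one hrs0]
        exact hrs
      nlinarith [norm_nonneg S]
    have h9 : ‖Sm χ k Y‖ ≤ ‖R‖ + ‖S‖ := by
      rw [h7]
      exact (norm_sub_le _ _).trans (by linarith)
    have := norm_nonneg R
    have := norm_nonneg S
    have := norm_nonneg (Sm χ k Y)
    nlinarith [sq_nonneg (‖R‖ - ‖S‖)]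
  calc ∑ k ∈ T, ‖Sm χ k Y‖ ^ 2
      ≤ ∑ k ∈ T, (2 * ‖∑ z ∈ PB (2 * Y), c z * ang k z‖ ^ 2 +
      2 * ‖∑ v ∈ Finset.range V, Qs χ k (blk ρ v B) * Sm χ k (Y / ρ ^ v)‖ ^ 2) :=
        Finset.sum_le_sum (fun k _ => h5 k)
    _ = 2 * ∑ k ∈ T, ‖∑ z ∈ PB (2 * Y), c z * ang k z‖ ^ 2 + 2 * ∑ k ∈ T,
      ‖∑ v ∈ Finset.range V, Qs χ k (blk ρ v B) * Sm χ k (Y / ρ ^ v)‖ ^ 2 := by
        rw [Finset.sum_add_distrib, Finset.mul_sum, Finset.mul_sum]
    _ ≤ _ := by nlinarith [h4]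

theorem lev_mem_blk {ρ : ℝ} {v : ℕ} {B : Finset ℕ} {p : ℕ} :
    p ∈ blk ρ v B ↔ p ∈ B ∧ ρ ^ v < (p : ℝ) ∧ (p : ℝ) ≤ ρ ^ (v + 1) := by
  classical
  unfold blk
  rw [Finset.mem_filter]

/-- the size of a nonempty block -/
theorem lev_blk {ρ L R : ℝ} {v : ℕ} {B : Finset ℕ} (hρ : 1 < ρ) (hρ2 : ρ ≤ 2)
    (hB : ∀ p ∈ B, Real.exp L < (p : ℝ) ∧ (p : ℝ) ≤ Real.exp R) (hne : (blk ρ v B).Nonempty) :
    L - 1 ≤ v * Real.log ρ ∧ v * Real.log ρ ≤ R ∧ ρ ^ v = Real.exp (v * Real.log ρ) := by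
  obtain ⟨p, hp⟩ := hne
  rw [lev_mem_blk] at hp
  obtain ⟨hpB, h1, h2⟩ := hp
  obtain ⟨h3, h4⟩ := hB p hpB
  have hρ0 : 0 < ρ := by linarith
  have h5 : ρ ^ v = Real.exp (v * Real.log ρ) := by
    rw [Real.exp_nat_mul, Real.exp_log hρ0]
  have h6 : ρ ^ (v + 1) = Real.exp (v * Real.log ρ + Real.log ρ) := by
    rw [pow_succ, Real.exp_add, h5, Real.exp_log hρ0]
  have h7 : Real.log ρ ≤ 1 := by
    have := Real.log_le_sub_one_of_pos hρ0
    linarith
  refine ⟨?_, ?_, h5⟩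
  · have : Real.exp L < Real.exp (v * Real.log ρ + Real.log ρ) := by
      rw [← h6]; linarith
    have := Real.exp_lt_exp.1 this
    linarith
  · have : Real.exp (v * Real.log ρ) < Real.exp R := by
      rw [← h5]; linarith
    exact (Real.exp_lt_exp.1 this).le

theorem lev_blk_mem {ρ : ℝ} {v : ℕ} {B : Finset ℕ} (hρ : 1 < ρ) (hρ2 : ρ ≤ 2) (hB : Pset B) :
    Pset (blk ρ v B) ∧ ∀ p ∈ blk ρ v B, ρ ^ v < (p : ℝ) ∧ (p : ℝ) ≤ 2 * ρ ^ v := by
  refine ⟨fun p hp => hB p (lev_mem_blk.1 hp).1, fun p hp => ?_⟩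
  obtain ⟨_, h1, h2⟩ := lev_mem_blk.1 hp
  refine ⟨h1, h2.trans ?_⟩
  rw [pow_succ]
  have : 0 < ρ ^ v := by positivity
  nlinarith

theorem lev_Qs_empty {m : G} (χ : MChar m) (k : ℤ) : Qs χ k ∅ = 0 := by
  simp [Qs]

/-- the estimate on the levels from the second one on -/
theorem lev_C : ∃ C : ℝ, 1 ≤ C ∧ ∀ (m : G) (χ : MChar m) (Y K E ρ ρ' a a' : ℝ)
    (B B' : Finset ℕ) (V V' : ℕ) (T : Finset ℤ), C ≤ E → 0 ≤ K → K ≤ Y → Real.exp (E ^ 8) ≤ Y →
    1 < ρ → ρ ≤ 2 → 1 < ρ' → ρ' ≤ 2 → 0 < a' → a' ≤ a → a ≤ 1 / 4 → Pset B → Pset B' →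
    (∀ p ∈ B, Real.exp (E ^ 4) < (p : ℝ) ∧ (p : ℝ) ≤ Real.exp (E ^ 8)) →
    (∀ p ∈ B', Real.exp E < (p : ℝ) ∧ (p : ℝ) ≤ Real.exp (E ^ 2)) →
    64 * Real.log E ≤ (a - a') * E → 4 ≤ (a - a') * E ^ 2 → T ⊆ Ks K →
    (∀ k ∈ T, ∀ v < V, ‖Qs χ k (blk ρ v B)‖ ≤ (ρ ^ v) ^ (1 - a)) →
    (∀ k ∈ T, ∃ u < V', (ρ' ^ u) ^ (1 - a') < ‖Qs χ k (blk ρ' u B')‖) →
      ∑ k ∈ T, ‖∑ v ∈ Finset.range V, Qs χ k (blk ρ v B) * Sm χ k (Y / ρ ^ v)‖ ^ 2 ≤
        C * Y ^ 2 * ((V : ℝ) ^ 2 * V') * Real.exp (-E ^ 2) := by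
  obtain ⟨C, hC, hstep⟩ := level_step
  refine ⟨8 * C, by linarith, ?_⟩
  intro m χ Y K E ρ ρ' a a' B B' V V' T hE hK0 hKY hEY hρ hρ2 hρ' hρ2' ha' haa' ha hB hB' hBp
    hBp' hg1 hg2 hT hgood hbad
  classical
  have hE8 : 8 ≤ E := by linarith
  have hE0 : 0 < E := by linarith
  have hY0 : 0 < Y := lt_of_lt_of_le (Real.exp_pos _) hEY
  have hE2 : 64 ≤ E ^ 2 := by nlinarith
  have hE4 : E ^ 4 = E ^ 2 * E ^ 2 := by ring
  -- one term
  have key : ∀ v < V, ∀ u < V', ∑ k ∈ T.filter (fun k => (ρ' ^ u) ^ (1 - a') <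
      ‖Qs χ k (blk ρ' u B')‖), ‖Qs χ k (blk ρ v B) * Sm χ k (Y / ρ ^ v)‖ ^ 2 ≤
      C * Y ^ 2 * Real.exp (-E ^ 2) := by
    intro v hv u hu
    by_cases h1 : (blk ρ v B).Nonempty
    swap
    · rw [Finset.not_nonempty_iff_eq_empty] at h1
      rw [h1]
      simp only [lev_Qs_empty, zero_mul, norm_zero]
      rw [Finset.sum_eq_zero (fun _ _ => by norm_num)]
      positivity
    by_cases h2 : (blk ρ' u B').Nonempty
    swap
    · rw [Finset.not_nonempty_iff_eq_empty] at h2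
      rw [h2]
      simp only [lev_Qs_empty, norm_zero]
      rw [Finset.filter_false_of_mem, Finset.sum_empty]
      · positivity
      · intro k hk
        have : 0 < (ρ' ^ u) ^ (1 - a') := by positivity
        linarith
    obtain ⟨hA1, hA2, hA3⟩ := lev_blk hρ hρ2 hBp h1
    obtain ⟨hb1, hb2, hb3⟩ := lev_blk hρ' hρ2' hBp' h2
    set A := (v : ℝ) * Real.log ρ with hAdef
    set b := (u : ℝ) * Real.log ρ' with hbdef
    have hb4 : E / 2 ≤ b := by linarith
    have hb0 : 0 < b := by linarith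
    have hA4 : E ^ 4 / 2 ≤ A := by
      have : (2 : ℝ) ≤ E ^ 4 := by rw [hE4]; nlinarith
      linarith
    have hbA : b ≤ A := by
      have : E ^ 2 ≤ E ^ 4 / 2 := by rw [hE4]; nlinarith
      linarith
    have hA0 : 0 < A := by linarith
    obtain ⟨hp1, hp2⟩ := lev_pow hb0 hA0.le
    have hfac := lev_fac 7 hC (by linarith : 4 * C ≤ E) hb4 hbA (by norm_num; exact hA2)
    set l := ⌈A / b⌉₊ with hl
    rw [← hA3, ← hb3] at hp2
    rw [← hb3, ← hA3] at hp1
    have h3 := hstep m χ Y K (ρ ^ v) (ρ' ^ u) a a' (blk ρ v B) (blk ρ' u B') l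
      (T.filter (fun k => (ρ' ^ u) ^ (1 - a') < ‖Qs χ k (blk ρ' u B')‖))
      (by rw [hA3]; exact Real.one_le_exp hA0.le)
      (by rw [hA3]; exact (Real.exp_le_exp.2 hA2).trans hEY)
      (by rw [hb3]; exact Real.one_le_exp hb0.le) hK0 hKY ha' haa' ha
      (lev_blk_mem hρ' hρ2' hB').1 (lev_blk_mem hρ' hρ2' hB').2 hp1 hp2
      ((Finset.filter_subset _ _).trans hT)
      (fun k hk => hgood k (Finset.mem_filter.1 hk).1 v hv)
      (fun k hk => (Finset.mem_filter.1 hk).2.le)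
    refine h3.trans ?_
    rw [hA3, hb3, ← Real.exp_mul, ← Real.exp_mul]
    have h4 : Real.exp (A * -(2 * (a - a'))) * Real.exp (b * (2 * a')) *
        Real.exp (4 * (((7 : ℕ) : ℝ) + 1) * A * Real.log E / E) ≤ Real.exp (-E ^ 2) := by
      rw [← Real.exp_add, ← Real.exp_add]
      apply Real.exp_le_exp.2
      have h5 : 4 * (((7 : ℕ) : ℝ) + 1) * A * Real.log E / E ≤ (a - a') * A / 2 := by
        rw [div_le_iff₀ hE0]
        have : 64 * Real.log E * A ≤ (a - a') * E * A := by gcongr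
        push_cast
        linarith
      have h6 : b * (2 * a') ≤ E ^ 2 / 2 := by
        have : b * (2 * a') ≤ E ^ 2 * (1 / 2) :=
          mul_le_mul hb2 (by linarith) (by linarith) (by positivity)
        linarith
      have h7 : 2 * E ^ 2 ≤ (a - a') * A := by
        calc 2 * E ^ 2 ≤ ((a - a') * E ^ 2) * E ^ 2 / 2 := by
              linarith [mul_le_mul_of_nonneg_right hg2 (sq_nonneg E)]
          _ = (a - a') * (E ^ 4 / 2) := by ring
          _ ≤ (a - a') * A := by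
            have : 0 ≤ a - a' := by linarith
            gcongr
      linarith [sq_nonneg E]
    calc C * Y ^ 2 * Real.exp (A * -(2 * (a - a'))) * Real.exp (b * (2 * a')) * C ^ l *
          (l.factorial : ℝ)
        = C * Y ^ 2 * (Real.exp (A * -(2 * (a - a'))) * Real.exp (b * (2 * a')) * (C ^ l *
          (l.factorial : ℝ))) := by ring
      _ ≤ C * Y ^ 2 * (Real.exp (A * -(2 * (a - a'))) * Real.exp (b * (2 * a')) *
          Real.exp (4 * (((7 : ℕ) : ℝ) + 1) * A * Real.log E / E)) := by gcongr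
      _ ≤ C * Y ^ 2 * Real.exp (-E ^ 2) := by gcongr
  -- the sum over `u`
  have key2 : ∀ v < V, ∑ k ∈ T, ‖Qs χ k (blk ρ v B) * Sm χ k (Y / ρ ^ v)‖ ^ 2 ≤
      V' * (C * Y ^ 2 * Real.exp (-E ^ 2)) := by
    intro v hv
    calc ∑ k ∈ T, ‖Qs χ k (blk ρ v B) * Sm χ k (Y / ρ ^ v)‖ ^ 2
        ≤ ∑ u ∈ Finset.range V', ∑ k ∈ T.filter (fun k => (ρ' ^ u) ^ (1 - a') <
          ‖Qs χ k (blk ρ' u B')‖), ‖Qs χ k (blk ρ v B) * Sm χ k (Y / ρ ^ v)‖ ^ 2 := by
          apply lev_cover _ _ _ _ (fun _ => by positivity)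
          intro k hk
          obtain ⟨u, hu, hu'⟩ := hbad k hk
          exact ⟨u, Finset.mem_range.2 hu, Finset.mem_filter.2 ⟨hk, hu'⟩⟩
      _ ≤ ∑ u ∈ Finset.range V', C * Y ^ 2 * Real.exp (-E ^ 2) :=
          Finset.sum_le_sum (fun u hu => key v hv u (Finset.mem_range.1 hu))
      _ = _ := by rw [Finset.sum_const, Finset.card_range, nsmul_eq_mul]
  calc ∑ k ∈ T, ‖∑ v ∈ Finset.range V, Qs χ k (blk ρ v B) * Sm χ k (Y / ρ ^ v)‖ ^ 2
      ≤ ∑ k ∈ T, (V : ℝ) * ∑ v ∈ Finset.range V,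
        ‖Qs χ k (blk ρ v B) * Sm χ k (Y / ρ ^ v)‖ ^ 2 := by
        apply Finset.sum_le_sum
        intro k _
        have h1 := sq_sum_le_card_mul_sum_sq (s := Finset.range V)
          (f := fun v => ‖Qs χ k (blk ρ v B) * Sm χ k (Y / ρ ^ v)‖)
        rw [Finset.card_range] at h1
        refine le_trans ?_ h1
        have := norm_sum_le (Finset.range V) (fun v => Qs χ k (blk ρ v B) * Sm χ k (Y / ρ ^ v))
        gcongr
    _ = (V : ℝ) * ∑ v ∈ Finset.range V, ∑ k ∈ T,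
        ‖Qs χ k (blk ρ v B) * Sm χ k (Y / ρ ^ v)‖ ^ 2 := by
        rw [← Finset.mul_sum, Finset.sum_comm]
    _ ≤ (V : ℝ) * ∑ v ∈ Finset.range V, (V' * (C * Y ^ 2 * Real.exp (-E ^ 2))) := by
        gcongr with v hv
        exact key2 v (Finset.mem_range.1 hv)
    _ = C * Y ^ 2 * ((V : ℝ) ^ 2 * V') * Real.exp (-E ^ 2) := by
        rw [Finset.sum_const, Finset.card_range, nsmul_eq_mul]; ring
    _ ≤ 8 * C * Y ^ 2 * ((V : ℝ) ^ 2 * V') * Real.exp (-E ^ 2) := by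
        gcongr
        linarith

/-- powers of logarithms are small -/
theorem lev_log (n : ℕ) (c : ℝ) (hc : 0 < c) : ∃ F₀ : ℝ, ∀ F : ℝ, F₀ ≤ F →
    Real.log F ^ n ≤ c * F := by
  have h := (Real.isLittleO_pow_log_id_atTop (n := n)).bound hc
  obtain ⟨F₀, hF₀⟩ := eventually_atTop.1 h
  refine ⟨max F₀ 1, fun F hF => ?_⟩
  have h1 := hF₀ F ((le_max_left _ _).trans hF)
  have h2 : 1 ≤ F := (le_max_right _ _).trans hF
  rw [id, Real.norm_of_nonneg (by linarith : (0 : ℝ) ≤ F),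
    Real.norm_of_nonneg (pow_nonneg (Real.log_nonneg h2) n)] at h1
  exact h1

open Classical in
/-- few frequencies are bad for the last level -/
theorem lev_D (α : ℝ) (hα : 0 < α) : ∃ F₀ : ℝ, 1 ≤ F₀ ∧
    ∀ (m : G) (χ : MChar m) (X F ρ a : ℝ) (B : Finset ℕ) (V : ℕ), F₀ ≤ F → 1 ≤ X →
    F ^ 4 ≤ Real.log X → Real.log X ≤ F ^ 16 → 1 < ρ → ρ ≤ 2 → 0 < a → a ≤ α / 4 → a ≤ 1 / 4 →
    Pset B → (∀ p ∈ B, Real.exp F < (p : ℝ) ∧ (p : ℝ) ≤ Real.exp (F ^ 2)) → (V : ℝ) ≤ F ^ 4 →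
    (((Ks X).filter (fun k => ∃ u < V, (ρ ^ u) ^ (1 - a) < ‖Qs χ k (blk ρ u B)‖)).card : ℝ) ≤
      X ^ α := by
  obtain ⟨C, hC, hfew⟩ := few_large
  obtain ⟨F₁, hF₁⟩ := lev_log 1 (α / 256) (by positivity)
  refine ⟨max (max F₁ (4 * C)) (24 / α + 8), ?_, ?_⟩
  · have : 0 < 24 / α := by positivity
    exact le_max_of_le_right (by linarith)
  intro m χ X F ρ a B V hF hX hXF hXF' hρ hρ2 ha haα ha4 hB hBp hV
  have hF1 : F₁ ≤ F := (le_max_left _ _).trans ((le_max_left _ _).trans hF)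
  have hF2 : 4 * C ≤ F := (le_max_right _ _).trans ((le_max_left _ _).trans hF)
  have hF3 : 24 / α + 8 ≤ F := (le_max_right _ _).trans hF
  have hF4 : 24 ≤ α * F := by
    have : 24 / α ≤ F := by linarith
    rw [div_le_iff₀ hα] at this
    linarith
  have hF8 : 8 ≤ F := by
    have : 0 < 24 / α := by positivity
    linarith
  have hlogF := hF₁ F hF1
  rw [pow_one] at hlogF
  have hF0 : 0 < F := by linarith
  set A := Real.log X with hA
  have hXA : X = Real.exp A := (Real.exp_log (by linarith)).symm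
  have hF64 : 64 ≤ F ^ 2 := by nlinarith
  have hF4e : F ^ 4 = F ^ 2 * F ^ 2 := by ring
  have hA0 : 0 < A := lt_of_lt_of_le (by positivity) hXF
  -- one block
  have key : ∀ u < V, (((Ks X).filter (fun k => (ρ ^ u) ^ (1 - a) <
      ‖Qs χ k (blk ρ u B)‖)).card : ℝ) ≤ Real.exp (α / 2 * A + F ^ 2 / 2 +
        64 * A * Real.log F / F + Real.log F) := by
    intro u hu
    by_cases h2 : (blk ρ u B).Nonempty
    swap
    · rw [Finset.not_nonempty_iff_eq_empty] at h2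
      rw [h2]
      simp only [lev_Qs_empty, norm_zero]
      rw [Finset.filter_false_of_mem, Finset.card_empty]
      · push_cast; positivity
      · intro k hk
        have : 0 < (ρ ^ u) ^ (1 - a) := by positivity
        linarith
    obtain ⟨hb1, hb2, hb3⟩ := lev_blk hρ hρ2 hBp h2
    set b := (u : ℝ) * Real.log ρ with hbdef
    have hb4 : F / 2 ≤ b := by linarith
    have hb0 : 0 < b := by linarith
    have hbA : b ≤ A := by
      have : F ^ 2 ≤ F ^ 4 := by rw [hF4e]; nlinarith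
      linarith
    obtain ⟨hp1, hp2⟩ := lev_pow hb0 hA0.le
    have hfac := lev_fac 15 hC hF2 hb4 hbA (by norm_num; exact hXF')
    set l := ⌈A / b⌉₊ with hl
    rw [← hXA, ← hb3] at hp2
    rw [← hb3, ← hXA] at hp1
    have h3 := hfew m χ X (ρ ^ u) a (blk ρ u B) l hX
      (by rw [hb3]; exact Real.one_le_exp hb0.le) ha ha4
      (lev_blk_mem hρ hρ2 hB).1 (lev_blk_mem hρ hρ2 hB).2 hp1 hp2
    refine h3.trans ?_
    rw [hb3, hXA, ← Real.exp_add, ← Real.exp_mul]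
    have hCF : C ≤ Real.exp (Real.log F) := by rw [Real.exp_log hF0]; linarith
    have h4 : (A + b) * (2 * a) ≤ α / 2 * A + F ^ 2 / 2 := by
      have h6 : A * (2 * a) ≤ A * (α / 2) := mul_le_mul_of_nonneg_left (by linarith) hA0.le
      have : b * (2 * a) ≤ F ^ 2 * (1 / 2) := by
        apply mul_le_mul hb2 (by linarith) (by linarith) (by positivity)
      linarith
    calc C * Real.exp ((A + b) * (2 * a)) * C ^ l * (l.factorial : ℝ)
        = C * Real.exp ((A + b) * (2 * a)) * (C ^ l * (l.factorial : ℝ)) := by ring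
      _ ≤ Real.exp (Real.log F) * Real.exp (α / 2 * A + F ^ 2 / 2) *
          Real.exp (4 * (((15 : ℕ) : ℝ) + 1) * A * Real.log F / F) := by gcongr
      _ = _ := by
        rw [← Real.exp_add, ← Real.exp_add]
        congr 1
        push_cast
        ring
  have hcard : (((Ks X).filter (fun k => ∃ u < V, (ρ ^ u) ^ (1 - a) <
      ‖Qs χ k (blk ρ u B)‖)).card : ℝ) ≤ V * Real.exp (α / 2 * A + F ^ 2 / 2 +
        64 * A * Real.log F / F + Real.log F) := by
    have h1 := lev_cover ((Ks X).filter (fun k => ∃ u < V, (ρ ^ u) ^ (1 - a) <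
      ‖Qs χ k (blk ρ u B)‖)) (Finset.range V) (fun u => (Ks X).filter (fun k =>
      (ρ ^ u) ^ (1 - a) < ‖Qs χ k (blk ρ u B)‖)) (fun _ => 1) (fun _ => zero_le_one) (by
        intro k hk
        obtain ⟨hk1, u, hu, hu'⟩ := Finset.mem_filter.1 hk
        exact ⟨u, Finset.mem_range.2 hu, Finset.mem_filter.2 ⟨hk1, hu'⟩⟩)
    simp only [Finset.sum_const, nsmul_eq_mul, mul_one] at h1
    refine h1.trans ?_
    calc ∑ u ∈ Finset.range V, (((Ks X).filter (fun k => (ρ ^ u) ^ (1 - a) <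
          ‖Qs χ k (blk ρ u B)‖)).card : ℝ)
        ≤ ∑ u ∈ Finset.range V, Real.exp (α / 2 * A + F ^ 2 / 2 +
        64 * A * Real.log F / F + Real.log F) :=
          Finset.sum_le_sum (fun u hu => key u (Finset.mem_range.1 hu))
      _ = _ := by rw [Finset.sum_const, Finset.card_range, nsmul_eq_mul]
  refine hcard.trans ?_
  have hF4exp : F ^ 4 = Real.exp (4 * Real.log F) := by
    have := Real.exp_nat_mul (Real.log F) 4
    rw [Real.exp_log hF0] at this
    rw [← this]; norm_num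
  have hXα : X ^ α = Real.exp (A * α) := by rw [hXA, ← Real.exp_mul]
  calc (V : ℝ) * Real.exp (α / 2 * A + F ^ 2 / 2 + 64 * A * Real.log F / F + Real.log F)
      ≤ F ^ 4 * Real.exp (α / 2 * A + F ^ 2 / 2 + 64 * A * Real.log F / F + Real.log F) := by
        gcongr
    _ = Real.exp (4 * Real.log F + (α / 2 * A + F ^ 2 / 2 + 64 * A * Real.log F / F +
        Real.log F)) := by rw [hF4exp, ← Real.exp_add]
    _ ≤ Real.exp (A * α) := by
        apply Real.exp_le_exp.2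
        have h5 : 64 * A * Real.log F / F ≤ α / 4 * A := by
          rw [div_le_iff₀ hF0]
          calc 64 * A * Real.log F ≤ 64 * A * (α / 256 * F) := by gcongr
            _ = α / 4 * A * F := by ring
        -- F ^ 2 ≤ A / F ^ 2, log F ≤ F
        have h6 : Real.log F ≤ F := (Real.log_le_sub_one_of_pos hF0).trans (by linarith)
        have h7 : F ^ 2 / 2 + 5 * F ≤ α / 4 * A := by
          have : F ^ 2 / 2 + 5 * F ≤ 2 * F ^ 2 := by nlinarith
          have h8 : 2 * F ^ 2 ≤ α / 4 * F ^ 4 := by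
            have : 8 ≤ α * F ^ 2 := by nlinarith
            calc 2 * F ^ 2 = 8 * F ^ 2 / 4 := by ring
              _ ≤ (α * F ^ 2) * F ^ 2 / 4 := by gcongr
              _ = _ := by ring
          have h9 : α / 4 * F ^ 4 ≤ α / 4 * A := by gcongr
          linarith
        linarith
    _ = X ^ α := hXα.symm

/-- the logarithm of the lower end of level `j` -/
noncomputable def levF (L : ℝ) (j : ℕ) : ℝ := L ^ (4 ^ j)
/-- the ratio of level `j` -/
noncomputable def levR (c : ℝ) (j : ℕ) : ℝ := 1 + c / 4 ^ j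
/-- the exponent of level `j` -/
noncomputable def levA (α : ℝ) (j : ℕ) : ℝ := α / 4 * (1 - 1 / 2 ^ (j + 1))
/-- the primes of level `j` -/
noncomputable def levB (L : ℝ) (j : ℕ) : Finset ℕ :=
  pr1 (Real.exp (levF L j)) (Real.exp (levF L j ^ 2))
/-- the number of blocks of level `j` -/
noncomputable def levV (L c : ℝ) (j : ℕ) : ℕ := ⌈levF L j ^ 2 / Real.log (levR c j)⌉₊
/-- frequencies with a large block of level `j` -/
def levBad {m : G} (χ : MChar m) (L c α : ℝ) (j : ℕ) (k : ℤ) : Prop :=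
  ∃ u < levV L c j, (levR c j ^ u) ^ (1 - levA α j) < ‖Qs χ k (blk (levR c j) u (levB L j))‖

theorem lev_mem_B {L : ℝ} {j p : ℕ} (h : p ∈ levB L j) : p.Prime ∧ p % 4 = 1 ∧
    Real.exp (levF L j) < (p : ℝ) ∧ (p : ℝ) ≤ Real.exp (levF L j ^ 2) := by
  classical
  unfold levB pr1 at h
  exact (Finset.mem_filter.1 h).2

theorem lev_F_succ (L : ℝ) (j : ℕ) : levF L (j + 1) = levF L j ^ 4 := by
  unfold levF
  rw [← pow_mul, pow_succ]

theorem lev_F_ge {L : ℝ} (hL : 1 ≤ L) (j : ℕ) : L ≤ levF L j := by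
  unfold levF
  exact le_self_pow₀ hL (by positivity)

theorem lev_F_mono {L : ℝ} (hL : 1 ≤ L) {i j : ℕ} (h : i ≤ j) : levF L i ≤ levF L j := by
  unfold levF
  exact pow_le_pow_right₀ hL (Nat.pow_le_pow_right (by norm_num) h)

theorem lev_F_log {L : ℝ} (hL : 1 ≤ Real.log L) (j : ℕ) : (4 : ℝ) ^ j ≤ Real.log (levF L j) := by
  unfold levF
  rw [Real.log_pow]
  push_cast
  nlinarith [show (0 : ℝ) < 4 ^ j by positivity]

theorem lev_R {c : ℝ} (hc : 0 < c) (hc1 : c ≤ 1) (j : ℕ) :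
    1 < levR c j ∧ levR c j ≤ 2 ∧ c / 4 ^ j / 2 ≤ Real.log (levR c j) := by
  have h1 : 0 < c / 4 ^ j := by positivity
  have h2 : c / 4 ^ j ≤ 1 := by
    rw [div_le_one (by positivity)]
    exact hc1.trans (one_le_pow₀ (by norm_num))
  unfold levR
  refine ⟨by linarith, by linarith, ?_⟩
  have h3 := Real.one_sub_inv_le_log_of_pos (show 0 < 1 + c / 4 ^ j by linarith)
  refine le_trans ?_ h3
  rw [le_sub_iff_add_le, ← le_sub_iff_add_le', inv_le_comm₀ (by linarith) (by linarith)]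
  rw [inv_le_comm₀ (by linarith) (by linarith), inv_le_iff_one_le_mul₀ (by linarith)]
  nlinarith

theorem lev_A_bd {α : ℝ} (hα : 0 < α) (hα1 : α ≤ 1) (j : ℕ) : 0 < levA α j ∧ levA α j ≤ α / 4 ∧
    levA α j ≤ 1 / 4 ∧ levA α (j + 1) - levA α j = α / 4 / 2 ^ (j + 2) := by
  have h1 : (2 : ℝ) ≤ 2 ^ (j + 1) := by
    rw [pow_succ]
    have : (1 : ℝ) ≤ 2 ^ j := one_le_pow₀ (by norm_num)
    linarith
  have h2 : (1 : ℝ) / 2 ^ (j + 1) ≤ 1 / 2 := div_le_div_of_nonneg_left zero_le_one (by norm_num) h1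
  have h3 : (0 : ℝ) < 1 / 2 ^ (j + 1) := by positivity
  have h4 : levA α j ≤ α / 4 := by
    unfold levA
    nlinarith
  refine ⟨by unfold levA; have : 0 < α / 4 := by positivity
             nlinarith, h4, by linarith, ?_⟩
  unfold levA
  rw [pow_succ 2 (j + 1)]
  field_simp
  ring

theorem lev_V {L c : ℝ} (hc : 0 < c) (hc1 : c ≤ 1) (hL : 1 ≤ Real.log L) (j : ℕ)
    (hF : Real.log (levF L j) ≤ c / 4 * levF L j) (hF1 : 2 ≤ levF L j) :
    (levV L c j : ℝ) ≤ levF L j ^ 4 ∧ ∀ p ∈ levB L j, (p : ℝ) ≤ levR c j ^ (levV L c j) := by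
  obtain ⟨h1, h2, h3⟩ := lev_R hc hc1 j
  have h4 := lev_F_log hL j
  set F := levF L j with hFdef
  have hlog : 0 < Real.log (levR c j) := Real.log_pos h1
  have hF0 : 0 < F := by linarith
  constructor
  · unfold levV
    rw [← hFdef]
    have h5 : ((⌈F ^ 2 / Real.log (levR c j)⌉₊ : ℕ) : ℝ) ≤ F ^ 2 / Real.log (levR c j) + 1 :=
      (Nat.ceil_lt_add_one (by positivity)).le
    have h8 : 2 / F ≤ c / 4 ^ j / 2 := by
      rw [div_div, div_le_div_iff₀ hF0 (by positivity)]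
      nlinarith
    have h6 : F ^ 2 / Real.log (levR c j) ≤ F ^ 3 / 2 := by
      rw [div_le_iff₀ hlog]
      calc F ^ 2 = F ^ 3 / 2 * (2 / F) := by field_simp
        _ ≤ F ^ 3 / 2 * (c / 4 ^ j / 2) := mul_le_mul_of_nonneg_left h8 (by positivity)
        _ ≤ F ^ 3 / 2 * Real.log (levR c j) := by gcongr
    have h7 : F ^ 3 / 2 + 1 ≤ F ^ 4 := by
      have : 8 ≤ F ^ 3 := by
        calc (8 : ℝ) = 2 ^ 3 := by norm_num
          _ ≤ F ^ 3 := by gcongr
      nlinarith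
    linarith
  · intro p hp
    refine (lev_mem_B hp).2.2.2.trans ?_
    rw [← hFdef]
    have h5 : F ^ 2 ≤ levV L c j * Real.log (levR c j) := by
      have := Nat.le_ceil (F ^ 2 / Real.log (levR c j))
      rw [div_le_iff₀ hlog] at this
      exact this
    calc Real.exp (F ^ 2) ≤ Real.exp (levV L c j * Real.log (levR c j)) := Real.exp_le_exp.2 h5
      _ = levR c j ^ (levV L c j) := by
        rw [Real.exp_nat_mul, Real.exp_log (by linarith)]

theorem lev_exp_neg {x : ℝ} (hx : 0 < x) : Real.exp (-x) ≤ 1 / x := by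
  rw [Real.exp_neg, ← one_div]
  exact one_div_le_one_div_of_le hx (by linarith [Real.add_one_le_exp x])

/-- one level -/
theorem lev_lvl (δ α ε F₀ : ℝ) (hδ : 0 < δ) (hα : 0 < α) (hα1 : α ≤ 1) (hε : 0 < ε) :
    ∃ c L : ℝ, 0 < c ∧ c ≤ 1 ∧ 1 ≤ Real.log L ∧ 2 ≤ L ∧ F₀ ≤ L ∧
    (∀ j, (levV L c j : ℝ) ≤ levF L j ^ 4) ∧ L ^ 2 ≤ δ * L ^ 4 ∧
    ∀ (m : G) (χ : MChar m) (A Y : ℝ) (j : ℕ) (T : Finset ℤ), levF L j ^ 4 ≤ A →
      Real.exp (δ * A) ≤ Y → T ⊆ Ks (Y / Real.exp (L ^ 2)) →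
      (∀ k ∈ T, ¬ levBad χ L c α j k) → (∀ k ∈ T, ∀ i < j, levBad χ L c α i k) →
        ∑ k ∈ T, ‖Sm χ k Y‖ ^ 2 ≤ ε / 2 * (1 / 4) ^ j * Y ^ 2 := by
  obtain ⟨CA, hCA, hA⟩ := lev_A
  obtain ⟨C1, hC1, h1⟩ := level_one
  obtain ⟨CC, hCC, hC⟩ := lev_C
  obtain ⟨CM, hCM, hM⟩ := mer_lower
  set c : ℝ := min 1 (ε / (8 * CA)) with hcdef
  have hc0 : 0 < c := lt_min one_pos (by positivity)
  have hc1 : c ≤ 1 := min_le_left _ _
  have hcε : CA * c ≤ ε / 8 := by
    have : c ≤ ε / (8 * CA) := min_le_right _ _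
    calc CA * c ≤ CA * (ε / (8 * CA)) := by gcongr
      _ = ε / 8 := by field_simp
  set κ : ℝ := 8 * CA / ε + 1 with hκ
  have hκ1 : 1 ≤ κ := by
    have : 0 < 8 * CA / ε := by positivity
    linarith
  have hκε : CA / κ ≤ ε / 8 := by
    rw [div_le_iff₀ (by linarith)]
    have : ε / 8 * (8 * CA / ε) = CA := by field_simp
    rw [hκ, mul_add, this]
    linarith
  set a0 : ℝ := α / 8 with ha0
  have ha0' : 0 < a0 := by positivity
  obtain ⟨F₁, hF₁⟩ := lev_log 1 (c / 4) (by positivity)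
  obtain ⟨F₂, hF₂⟩ := lev_log 2 (α / 1024) (by positivity)
  have hlim := Real.tendsto_pow_mul_exp_neg_atTop_nhds_zero 37
  obtain ⟨F₃, hF₃⟩ := eventually_atTop.1 (hlim.eventually (gt_mem_nhds
    (show (0 : ℝ) < ε / (32 * CC) by positivity)))
  obtain ⟨L, hL⟩ : ∃ L : ℝ, F₀ ≤ L ∧ F₁ ≤ L ∧ F₂ ≤ L ∧ F₃ ≤ L ∧ 2 ≤ L ∧
      Real.exp (4 * (κ + CM)) ≤ L ∧ CC ≤ L ∧ 4 / δ ≤ L ∧ 8 * C1 / (ε * a0 ^ 4 * c ^ 2) ≤ L := by
    refine ⟨max F₀ (max F₁ (max F₂ (max F₃ (max 2 (max (Real.exp (4 * (κ + CM))) (max CC (max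
      (4 / δ) (8 * C1 / (ε * a0 ^ 4 * c ^ 2))))))))), ?_⟩
    simp only [le_max_iff, le_refl, true_or, or_true, and_self]
  obtain ⟨hL0, hL1, hL2, hL3, hL4, hL5, hL6, hL7, hL8⟩ := hL
  have hLlog : 4 * (κ + CM) ≤ Real.log L := by
    rw [Real.le_log_iff_exp_le (by linarith)]; exact hL5
  have hLlog1 : 1 ≤ Real.log L := by linarith
  have hL1' : 1 ≤ L := by linarith
  -- facts on the levels
  have hFge : ∀ j, L ≤ levF L j := lev_F_ge hL1'
  have hδF : ∀ j, 4 ≤ δ * levF L j := by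
    intro j
    have := hL7.trans (hFge j)
    rw [div_le_iff₀ hδ] at this
    linarith
  have hFlog : ∀ j, Real.log (levF L j) ≤ c / 4 * levF L j := by
    intro j
    have := hF₁ (levF L j) (hL1.trans (hFge j))
    rwa [pow_one] at this
  have hV : ∀ j, (levV L c j : ℝ) ≤ levF L j ^ 4 ∧ ∀ p ∈ levB L j,
      (p : ℝ) ≤ levR c j ^ (levV L c j) := fun j =>
    lev_V hc0 hc1 hLlog1 j (hFlog j) (hL4.trans (hFge j))
  refine ⟨c, L, hc0, hc1, hLlog1, hL4, hL0, fun j => (hV j).1, ?_, ?_⟩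
  · have h4 := hδF 0
    have : levF L 0 = L := by unfold levF; simp
    rw [this] at h4
    have : L ^ 2 * 1 ≤ L ^ 2 * (δ * L * L) := by
      gcongr
      nlinarith
    nlinarith
  intro m χ A Y j T hAF hAY hT hgood hbad
  set F := levF L j with hF
  have hF2 : 2 ≤ F := hL4.trans (hFge j)
  have hF0 : 0 < F := by linarith
  have hδFj := hδF j
  rw [← hF] at hδFj
  have hδA : 4 * F ^ 3 ≤ δ * A := by
    calc 4 * F ^ 3 ≤ (δ * F) * F ^ 3 := by gcongr
      _ = δ * F ^ 4 := by ring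
      _ ≤ δ * A := by gcongr
  have hF23 : F ^ 2 ≤ F ^ 3 := pow_le_pow_right₀ (by linarith) (by norm_num)
  have hF3 : 0 < F ^ 3 := by positivity
  have hY1 : 1 ≤ Y := by
    refine le_trans ?_ hAY
    exact Real.one_le_exp (by linarith)
  have hY0 : 0 < Y := by linarith
  obtain ⟨hR1, hR2, hR3⟩ := lev_R hc0 hc1 j
  obtain ⟨ha1, ha2, ha3, ha4⟩ := lev_A_bd hα hα1 j
  have h4j := lev_F_log hLlog1 j
  rw [← hF] at h4j
  have hFlogj := hFlog j
  rw [← hF] at hFlogj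
  have h4j0 : (0 : ℝ) < 4 ^ j := by positivity
  have h4j1 : (1 : ℝ) ≤ 4 ^ j := one_le_pow₀ (by norm_num)
  have hRc : levR c j - 1 = c / 4 ^ j := by unfold levR; ring
  -- reciprocal sum
  have hrs : 4 ^ j * κ ≤ rs (levB L j) := by
    have h2 := hM (Real.exp F) (Real.exp (F ^ 2)) (by
      have := Real.add_one_le_exp F
      linarith) (Real.exp_le_exp.2 (le_self_pow₀ (by linarith) two_ne_zero))
    rw [Real.log_exp, Real.log_exp, show F ^ 2 / F = F by field_simp] at h2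
    have h3 : Real.log F = 4 ^ j * Real.log L := by
      rw [hF]; unfold levF; rw [Real.log_pow]; push_cast; ring
    rw [h3] at h2
    refine le_trans ?_ h2
    have : 4 ^ j * (4 * (κ + CM)) ≤ 4 ^ j * Real.log L := by gcongr
    have e := le_mul_of_one_le_left (show 0 ≤ CM by linarith) h4j1
    linarith
  have hrs1 : 1 ≤ rs (levB L j) := by
    refine le_trans ?_ hrs
    exact one_le_mul_of_one_le_of_one_le h4j1 hκ1
  -- the conditions on `Y`
  have hYρ : Y ^ (-(1 / 16) : ℝ) ≤ levR c j - 1 := by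
    rw [hRc]
    have e1 : Y ^ (-(1 / 16) : ℝ) ≤ (Real.exp (δ * A)) ^ (-(1 / 16) : ℝ) :=
      Real.rpow_le_rpow_of_nonpos (Real.exp_pos _) hAY (by norm_num)
    rw [← Real.exp_mul] at e1
    have e2 : Real.exp (δ * A * -(1 / 16)) ≤ Real.exp (-(F ^ 3 / 4)) := by
      apply Real.exp_le_exp.2
      linarith
    have e3 : Real.exp (-(F ^ 3 / 4)) ≤ 1 / (F ^ 3 / 4) := lev_exp_neg (by positivity)
    have e4 : 1 / (F ^ 3 / 4) ≤ 4 / F := by
      rw [div_le_div_iff₀ (by positivity) hF0]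
      linarith [le_self_pow₀ (show 1 ≤ F by linarith) three_ne_zero]
    have e5 : 4 / F ≤ c / 4 ^ j := by
      rw [div_le_div_iff₀ hF0 h4j0]
      linarith
    linarith
  have hY4 : Real.exp (F ^ 2) ≤ Y ^ (1 / 4 : ℝ) := by
    have e1 : (Real.exp (δ * A)) ^ (1 / 4 : ℝ) ≤ Y ^ (1 / 4 : ℝ) :=
      Real.rpow_le_rpow (Real.exp_pos _).le hAY (by norm_num)
    rw [← Real.exp_mul] at e1
    refine le_trans (Real.exp_le_exp.2 ?_) e1
    linarith
  have hHY : Real.exp (L ^ 2) ≤ Y := by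
    refine le_trans (Real.exp_le_exp.2 ?_) hAY
    have : L ^ 2 ≤ F ^ 2 := by
      have := hFge j
      gcongr
    linarith
  have hKY : Y / Real.exp (L ^ 2) ≤ Y := by
    apply div_le_self hY0.le
    exact Real.one_le_exp (by positivity)
  have hTY : T ⊆ Ks Y := by
    intro k hk
    have := hT hk
    rw [mem_Ks] at this ⊢
    linarith
  have hPs : Pset (levB L j) := fun p hp => ⟨(lev_mem_B hp).1, (lev_mem_B hp).2.1⟩
  have hmain := hA m χ Y (levR c j) (Real.exp F) (levB L j) (levV L c j) T hY1 hR1 hR2 hYρ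
    (by have := Real.add_one_le_exp F
        linarith) hPs (fun p hp => ⟨(lev_mem_B hp).2.2.1, ((lev_mem_B hp).2.2.2).trans hY4,
      (hV j).2 p hp⟩) hrs1 hTY
  have herr : CA * Y ^ 2 * (1 / rs (levB L j) + (levR c j - 1)) ≤ ε / 4 * (1 / 4) ^ j * Y ^ 2 := by
    rw [hRc, one_div_pow]
    have e1 : 1 / rs (levB L j) ≤ 1 / (4 ^ j * κ) :=
      one_div_le_one_div_of_le (by positivity) hrs
    calc CA * Y ^ 2 * (1 / rs (levB L j) + c / 4 ^ j)
        ≤ CA * Y ^ 2 * (1 / (4 ^ j * κ) + c / 4 ^ j) := by gcongr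
      _ = (CA / κ + CA * c) * (1 / 4 ^ j) * Y ^ 2 := by field_simp
      _ ≤ (ε / 8 + ε / 8) * (1 / 4 ^ j) * Y ^ 2 := by gcongr
      _ = _ := by ring
  have hgood' : ∀ k ∈ T, ∀ v < levV L c j, ‖Qs χ k (blk (levR c j) v (levB L j))‖ ≤
      (levR c j ^ v) ^ (1 - levA α j) := by
    intro k hk v hv
    by_contra hcon
    push Not at hcon
    exact hgood k hk ⟨v, hv, hcon⟩
  have hsec : 2 * ∑ k ∈ T, ‖∑ v ∈ Finset.range (levV L c j), Qs χ k (blk (levR c j) v (levB L j)) *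
      Sm χ k (Y / levR c j ^ v)‖ ^ 2 ≤ ε / 4 * (1 / 4) ^ j * Y ^ 2 := by
    rcases j with _ | i
    · -- the first level
      have hF00 : F = L := by rw [hF]; unfold levF; simp
      have h2 := h1 m χ Y (Real.exp (L ^ 2)) (levR c 0) (Real.exp L) (Real.exp (L ^ 2)) (levA α 0)
        (levB L 0) (levV L c 0) T hY1 hR1 hR2 ha1 ha3
        (by have := Real.add_one_le_exp L
            linarith) le_rfl hHY hPs (fun p hp => by
              obtain ⟨e1, e2, e3, e4⟩ := lev_mem_B hp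
              rw [← hF, hF00] at e3 e4
              exact ⟨e3, e4, (hV 0).2 p hp⟩) hT hgood'
      have ha00 : levA α 0 = a0 := by unfold levA; rw [ha0]; norm_num; ring
      have hR0 : levR c 0 - 1 = c := by unfold levR; norm_num
      rw [ha00, hR0, ← Real.exp_mul] at h2
      have h3 : Real.exp (L * -a0) ≤ 1 / (L * a0) := by
        have := lev_exp_neg (show 0 < L * a0 by positivity)
        rwa [show L * -a0 = -(L * a0) by ring]
      have h4 : C1 * (Real.exp (L * -a0) / (a0 * c)) ^ 2 ≤ ε / 8 := by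
        calc C1 * (Real.exp (L * -a0) / (a0 * c)) ^ 2
            ≤ C1 * (1 / (L * a0) / (a0 * c)) ^ 2 := by gcongr
          _ = C1 / (a0 ^ 4 * c ^ 2) / L ^ 2 := by field_simp
          _ ≤ ε / 8 := by
            rw [div_le_iff₀ (by positivity)]
            rw [div_le_iff₀ (by positivity)] at hL8
            rw [div_le_iff₀ (by positivity)]
            have e1 : L ≤ L ^ 2 := le_self_pow₀ hL1' two_ne_zero
            have e2 : L * (ε * a0 ^ 4 * c ^ 2) ≤ L ^ 2 * (ε * a0 ^ 4 * c ^ 2) := by gcongr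
            linarith
      have h5 : ∑ k ∈ T, ‖∑ v ∈ Finset.range (levV L c 0), Qs χ k (blk (levR c 0) v (levB L 0)) *
          Sm χ k (Y / levR c 0 ^ v)‖ ^ 2 ≤ ε / 8 * Y ^ 2 := by
        refine h2.trans ?_
        calc C1 * Y ^ 2 * (Real.exp (L * -a0) / (a0 * c)) ^ 2
            = (C1 * (Real.exp (L * -a0) / (a0 * c)) ^ 2) * Y ^ 2 := by ring
          _ ≤ ε / 8 * Y ^ 2 := by gcongr
      rw [pow_zero, mul_one]
      linarith
    · -- the other levels
      set E := levF L i with hE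
      have hFE : F = E ^ 4 := by rw [hF, lev_F_succ]
      have hEL : L ≤ E := hFge i
      have hE2 : 2 ≤ E := by linarith
      have hE0 : 0 < E := by linarith
      obtain ⟨hR1', hR2', _⟩ := lev_R hc0 hc1 i
      obtain ⟨hb1, hb2, hb3, hb4⟩ := lev_A_bd hα hα1 i
      have h4i := lev_F_log hLlog1 i
      rw [← hE] at h4i
      have hPs' : Pset (levB L i) := fun p hp => ⟨(lev_mem_B hp).1, (lev_mem_B hp).2.1⟩
      have hlogE1 : 1 ≤ Real.log E :=
        hLlog1.trans (Real.log_le_log (by linarith) hEL)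
      have hEsq := hF₂ E (hL2.trans hEL)
      have h2i : (2 : ℝ) ^ (i + 2) ≤ 4 * Real.log E := by
        calc (2 : ℝ) ^ (i + 2) = 4 * 2 ^ i := by ring
          _ ≤ 4 * 4 ^ i := by
            have : (2 : ℝ) ^ i ≤ 4 ^ i := by gcongr; norm_num
            linarith
          _ ≤ 4 * Real.log E := by linarith
      have hgap : α / (16 * Real.log E) ≤ levA α (i + 1) - levA α i := by
        rw [hb4, div_div]
        apply div_le_div_of_nonneg_left hα.le (by positivity)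
        linarith
      have hg1 : 64 * Real.log E ≤ (levA α (i + 1) - levA α i) * E := by
        calc 64 * Real.log E = (1024 * Real.log E ^ 2) / (16 * Real.log E) := by
              field_simp
              norm_num
          _ ≤ (α * E) / (16 * Real.log E) :=
              div_le_div_of_nonneg_right (by linarith) (by positivity)
          _ = α / (16 * Real.log E) * E := by ring
          _ ≤ (levA α (i + 1) - levA α i) * E := by gcongr
      have hg2 : 4 ≤ (levA α (i + 1) - levA α i) * E ^ 2 := by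
        have : (levA α (i + 1) - levA α i) * E ^ 2 = ((levA α (i + 1) - levA α i) * E) * E := by
          ring
        rw [this]
        exact le_trans (by norm_num) (mul_le_mul (show (64 : ℝ) ≤ (levA α (i + 1) - levA α i) * E by
          linarith) hE2 (by norm_num) (by linarith))
      have hg3 : levA α i ≤ levA α (i + 1) := by
        have : 0 < α / (16 * Real.log E) := by positivity
        linarith
      have hE8 : F ^ 2 = E ^ 8 := by rw [hFE]; ring
      have h2 := hC m χ Y (Y / Real.exp (L ^ 2)) E (levR c (i + 1)) (levR c i) (levA α (i + 1))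
        (levA α i) (levB L (i + 1)) (levB L i) (levV L c (i + 1)) (levV L c i) T
        (hL6.trans hEL) (by positivity) hKY (by
          refine le_trans (Real.exp_le_exp.2 ?_) hAY
          rw [← hE8]
          linarith) hR1 hR2 hR1' hR2' hb1 hg3 ha3 hPs hPs' (fun p hp => by
            obtain ⟨e1, e2, e3, e4⟩ := lev_mem_B hp
            rw [← hF, hFE] at e3
            rw [← hF, hE8] at e4
            exact ⟨e3, e4⟩) (fun p hp => by
            obtain ⟨e1, e2, e3, e4⟩ := lev_mem_B hp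
            exact ⟨e3, e4⟩) hg1 hg2 hT hgood' (fun k hk => hbad k hk i (Nat.lt_succ_self i))
      have hV1 : (levV L c (i + 1) : ℝ) ≤ E ^ 16 := by
        refine (hV (i + 1)).1.trans ?_
        rw [← hF, hFE]
        exact le_of_eq (by ring)
      have hV2 : (levV L c i : ℝ) ≤ E ^ 4 := (hV i).1
      have h3 := hF₃ E (hL3.trans hEL)
      have h4 : Real.exp (-E ^ 2) ≤ Real.exp (-E) := by
        apply Real.exp_le_exp.2
        exact neg_le_neg (le_self_pow₀ (by linarith) two_ne_zero)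
      have h5 : 2 * (CC * E ^ 36 * Real.exp (-E)) ≤ ε / 4 * (1 / 4) ^ (i + 1) := by
        have e1 : E ^ 37 * Real.exp (-E) ≤ ε / (32 * CC) := h3.le
        rw [le_div_iff₀ (by positivity)] at e1
        have e2 : 1 / (4 * E) ≤ (1 / 4) ^ (i + 1) := by
          rw [one_div_pow]
          apply one_div_le_one_div_of_le (by positivity)
          rw [pow_succ]
          have : Real.log E ≤ E := (Real.log_le_sub_one_of_pos hE0).trans (by linarith)
          linarith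
        calc 2 * (CC * E ^ 36 * Real.exp (-E))
            = (E ^ 37 * Real.exp (-E) * (32 * CC)) / (16 * E) := by field_simp; norm_num
          _ ≤ ε / (16 * E) := by gcongr
          _ = ε / 4 * (1 / (4 * E)) := by field_simp; norm_num
          _ ≤ ε / 4 * (1 / 4) ^ (i + 1) := by gcongr
      calc 2 * ∑ k ∈ T, ‖∑ v ∈ Finset.range (levV L c (i + 1)),
          Qs χ k (blk (levR c (i + 1)) v (levB L (i + 1))) * Sm χ k (Y / levR c (i + 1) ^ v)‖ ^ 2
          ≤ 2 * (CC * Y ^ 2 * ((levV L c (i + 1) : ℝ) ^ 2 * levV L c i) * Real.exp (-E ^ 2)) := by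
            gcongr
        _ ≤ 2 * (CC * Y ^ 2 * ((E ^ 16) ^ 2 * E ^ 4) * Real.exp (-E)) := by gcongr
        _ = 2 * (CC * E ^ 36 * Real.exp (-E)) * Y ^ 2 := by ring
        _ ≤ ε / 4 * (1 / 4) ^ (i + 1) * Y ^ 2 := by gcongr
  calc ∑ k ∈ T, ‖Sm χ k Y‖ ^ 2 ≤ ε / 4 * (1 / 4) ^ j * Y ^ 2 + ε / 4 * (1 / 4) ^ j * Y ^ 2 :=
        hmain.trans (add_le_add herr hsec)
    _ = _ := by ring

theorem lev_geom (n : ℕ) : ∑ j ∈ Finset.range n, (1 / 4 : ℝ) ^ j = 4 / 3 * (1 - (1 / 4) ^ n) := by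
  induction n with
  | zero => simp
  | succ n ih => rw [Finset.sum_range_succ, ih, pow_succ]; ring

theorem mr_typical_pr {m : G} (χ : MChar m) (δ α ε : ℝ) (hδ : 0 < δ) (hδ1 : δ ≤ 1) (hα : 0 < α)
    (hα1 : α ≤ 1) (hε : 0 < ε) : ∃ H X₀ : ℝ, 1 ≤ H ∧ ∀ X : ℝ, X₀ ≤ X → ∃ U : Finset ℤ,
    U ⊆ Ks X ∧ (U.card : ℝ) ≤ X ^ α ∧ ∀ Y : ℝ, X ^ δ ≤ Y → Y ≤ X →
      ∑ k ∈ Ks (Y / H) \ U, ‖Sm χ k Y‖ ^ 2 ≤ ε * Y ^ 2 := by
  classical
  obtain ⟨F₀, hF₀, hD⟩ := lev_D α hα
  obtain ⟨c, L, hc0, hc1, hL1, hL2, hLF, hV, hLδ, hlvl⟩ := lev_lvl δ α ε F₀ hδ hα hα1 hε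
  have hL0 : 0 < L := by linarith
  have hL1' : 1 ≤ L := by linarith
  refine ⟨Real.exp (L ^ 2), Real.exp (L ^ 4), Real.one_le_exp (by positivity), ?_⟩
  intro X hX
  have hX1 : 1 ≤ X := (Real.one_le_exp (by positivity)).trans hX
  have hX0 : 0 < X := by linarith
  set A := Real.log X with hA
  have hAL : L ^ 4 ≤ A := by rw [hA, Real.le_log_iff_exp_le hX0]; exact hX
  have hex : ∃ n, A < levF L n ^ 4 := by
    obtain ⟨n, hn⟩ := exists_nat_gt A
    refine ⟨n, hn.trans ?_⟩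
    have h1 : (4 : ℝ) ^ n ≤ levF L n := by
      have := lev_F_log hL1 n
      have h2 := lev_F_ge hL1' n
      have h3 := Real.log_le_sub_one_of_pos (show 0 < levF L n by linarith)
      linarith
    have h2 : (n : ℝ) < 4 ^ n := by exact_mod_cast Nat.lt_pow_self (by norm_num)
    have h3 : levF L n ≤ levF L n ^ 4 := le_self_pow₀ (hL1'.trans (lev_F_ge hL1' n)) (by norm_num)
    linarith
  obtain ⟨J, hJ1, hJ2⟩ : ∃ J, levF L J ^ 4 ≤ A ∧ A < levF L (J + 1) ^ 4 := by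
    have h1 := Nat.find_spec hex
    have h2 := fun i => Nat.find_min hex (m := i)
    rcases h3 : Nat.find hex with _ | J
    · rw [h3] at h1
      have : levF L 0 = L := by unfold levF; simp
      rw [this] at h1
      linarith
    · refine ⟨J, ?_, ?_⟩
      · have := h2 J (by rw [h3]; exact Nat.lt_succ_self J)
        exact not_lt.1 this
      · rw [h3] at h1; exact h1
  refine ⟨(Ks X).filter (fun k => ∀ j ≤ J, levBad χ L c α j k), Finset.filter_subset _ _, ?_, ?_⟩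
  · obtain ⟨hR1, hR2, _⟩ := lev_R hc0 hc1 J
    obtain ⟨ha1, ha2, ha3, _⟩ := lev_A_bd hα hα1 J
    have h1 := hD m χ X (levF L J) (levR c J) (levA α J) (levB L J) (levV L c J)
      (hLF.trans (lev_F_ge hL1' J)) hX1 hJ1 (by
        rw [lev_F_succ, ← pow_mul] at hJ2
        exact hJ2.le) hR1 hR2 ha1 ha2 ha3
      (fun p hp => ⟨(lev_mem_B hp).1, (lev_mem_B hp).2.1⟩)
      (fun p hp => (lev_mem_B hp).2.2) (hV J)
    refine le_trans ?_ h1
    norm_cast
    apply Finset.card_le_card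
    intro k hk
    rw [Finset.mem_filter] at hk ⊢
    exact ⟨hk.1, hk.2 J le_rfl⟩
  · intro Y hY1 hY2
    have hexpY : Real.exp (δ * A) ≤ Y := by
      rw [mul_comm, Real.exp_mul, hA, Real.exp_log hX0]
      exact hY1
    have hY0 : 0 < Y := lt_of_lt_of_le (Real.exp_pos _) hexpY
    set S := Ks (Y / Real.exp (L ^ 2)) \ (Ks X).filter (fun k => ∀ j ≤ J, levBad χ L c α j k)
      with hS
    have h1 := lev_cover S (Finset.range (J + 1)) (fun j => (Ks (Y / Real.exp (L ^ 2))).filter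
      (fun k => ¬ levBad χ L c α j k ∧ ∀ i < j, levBad χ L c α i k)) (fun k => ‖Sm χ k Y‖ ^ 2)
      (fun k => by positivity) (by
        intro k hk
        rw [hS, Finset.mem_sdiff, Finset.mem_filter, not_and] at hk
        obtain ⟨hk1, hk2⟩ := hk
        have hkX : k ∈ Ks X := by
          rw [mem_Ks] at hk1 ⊢
          have : Y / Real.exp (L ^ 2) ≤ Y := div_le_self hY0.le (Real.one_le_exp (by positivity))
          linarith
        have hk3 := hk2 hkX
        push Not at hk3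
        have hex2 : ∃ j, ¬ levBad χ L c α j k := by
          obtain ⟨j, _, hj⟩ := hk3
          exact ⟨j, hj⟩
        refine ⟨Nat.find hex2, ?_, ?_⟩
        · obtain ⟨j, hj, hj'⟩ := hk3
          exact Finset.mem_range.2 (Nat.lt_succ_of_le ((Nat.find_min' hex2 hj').trans hj))
        · rw [Finset.mem_filter]
          refine ⟨hk1, Nat.find_spec hex2, fun i hi => ?_⟩
          have := Nat.find_min hex2 hi
          exact not_not.1 this)
    calc ∑ k ∈ S, ‖Sm χ k Y‖ ^ 2 ≤ _ := h1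
      _ ≤ ∑ j ∈ Finset.range (J + 1), ε / 2 * (1 / 4) ^ j * Y ^ 2 := by
        apply Finset.sum_le_sum
        intro j hj
        have hjJ : j ≤ J := Nat.lt_succ_iff.1 (Finset.mem_range.1 hj)
        have hmono := lev_F_mono hL1' hjJ
        have hpos : 0 ≤ levF L j := by
          have := lev_F_ge hL1' j
          linarith
        apply hlvl m χ A Y j _ ((pow_le_pow_left₀ hpos hmono 4).trans hJ1) hexpY
          (Finset.filter_subset _ _)
        · intro k hk; exact (Finset.mem_filter.1 hk).2.1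
        · intro k hk; exact (Finset.mem_filter.1 hk).2.2
      _ = ε / 2 * Y ^ 2 * ∑ j ∈ Finset.range (J + 1), (1 / 4 : ℝ) ^ j := by
        rw [Finset.mul_sum]
        apply Finset.sum_congr rfl
        intro j _; ring
      _ ≤ ε / 2 * Y ^ 2 * 2 := by
        rw [lev_geom]
        have : (0 : ℝ) < (1 / 4) ^ (J + 1) := by positivity
        gcongr
        linarith
      _ = ε * Y ^ 2 := by ring

end Pool.Agent.T2


namespace Pool.Agent.T2

theorem mr_typical : type_of% @mr_typical_pr := @mr_typical_pr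

end Pool.Agent.T2
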