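import Pool.Agent.Lib_helper10.T2.Defs

/-! T2, block SLW (helper75): Selberg weights. -/

namespace Pool.Agent.T2

open Filter Topology MeasureTheory

theorem slw_sqf (S : Finset ℕ) (hS : ∀ p ∈ S, p.Prime) : Squarefree (∏ p ∈ S, p) := by
  refine Finset.squarefree_prod_of_pairwise_isCoprime (fun p hp q hq hpq ↦ ?_)
    (fun p hp => (hS p hp).prime.squarefree)
  exact Nat.coprime_iff_isRelPrime.mp ((Nat.coprime_primes (hS p hp) (hS q hq)).mpr hpq)

theorem slw_mem (S : Finset ℕ) (hS : ∀ p ∈ S, p.Prime) {p : ℕ} (hp : p.Prime)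
    (h : p ∣ ∏ q ∈ S, q) : p ∈ S := by
  obtain ⟨q, hq, hpq⟩ := (hp.prime.dvd_finsetProd_iff (fun q => q)).mp h
  rw [(Nat.prime_dvd_prime_iff_eq hp (hS q hq)).mp hpq]
  exact hq

theorem slw_dvd_iff (S : Finset ℕ) (hS : ∀ p ∈ S, p.Prime) (d : ℕ) :
    d ∣ ∏ q ∈ S, q ↔ Squarefree d ∧ ∀ p : ℕ, p.Prime → p ∣ d → p ∈ S := by
  constructor
  · intro h
    exact ⟨Squarefree.squarefree_of_dvd h (slw_sqf S hS), fun p hp hpd => slw_mem S hS hp (hpd.trans h)⟩
  · rintro ⟨h1, h2⟩
    rw [← Nat.prod_primeFactors_of_squarefree h1]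
    apply Finset.prod_dvd_prod_of_subset
    intro p hp
    exact h2 p (Nat.prime_of_mem_primeFactors hp) (Nat.dvd_of_mem_primeFactors hp)

/-- the sieve problem -/
noncomputable def slw_s (S : Finset ℕ) (hS : ∀ p ∈ S, p.Prime) (h : ℕ → ℝ)
    (hh : ∀ p ∈ S, 0 < h p ∧ h p < 1) : BoundingSieve where
  support := ∅
  prodPrimes := ∏ p ∈ S, p
  prodPrimes_squarefree := slw_sqf S hS
  weights := fun _ => 0
  weights_nonneg := fun _ => le_rfl
  totalMass := 0
  nu := ArithmeticFunction.prodPrimeFactors h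
  nu_mult := ArithmeticFunction.IsMultiplicative.prodPrimeFactors h
  nu_pos_of_prime := by
    intro p hp hpd
    rw [ArithmeticFunction.prodPrimeFactors_apply hp.ne_zero, hp.primeFactors, Finset.prod_singleton]
    exact (hh p (slw_mem S hS hp hpd)).1
  nu_lt_one_of_prime := by
    intro p hp hpd
    rw [ArithmeticFunction.prodPrimeFactors_apply hp.ne_zero, hp.primeFactors, Finset.prod_singleton]
    exact (hh p (slw_mem S hS hp hpd)).2

section

variable (s : BoundingSieve) (R : ℝ)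

/-- the support of the weights -/
noncomputable def slw_D : Finset ℕ := s.prodPrimes.divisors.filter (fun d => (d : ℝ) ≤ R)

/-- the mass -/
noncomputable def slw_G : ℝ := ∑ e ∈ slw_D s R, s.selbergTerms e

open Classical in
/-- the weights -/
noncomputable def slw_w (d : ℕ) : ℝ :=
  if d ∈ slw_D s R then (ArithmeticFunction.moebius d : ℝ) * (s.nu d)⁻¹ * (slw_G s R)⁻¹ *
    ∑ e ∈ (slw_D s R).filter (fun e => d ∣ e), s.selbergTerms e else 0

variable {s R}

theorem slw_mem_D {d : ℕ} : d ∈ slw_D s R ↔ d ∣ s.prodPrimes ∧ (d : ℝ) ≤ R := by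
  rw [slw_D, Finset.mem_filter, Nat.mem_divisors]
  exact ⟨fun h => ⟨h.1.1, h.2⟩, fun h => ⟨⟨h.1, BoundingSieve.prodPrimes_ne_zero⟩, h.2⟩⟩

theorem slw_D_sqf {d : ℕ} (h : d ∈ slw_D s R) : Squarefree d :=
  BoundingSieve.squarefree_of_dvd_prodPrimes (slw_mem_D.mp h).1

theorem slw_D_closed {d e : ℕ} (he : e ∈ slw_D s R) (hd : d ∣ e) : d ∈ slw_D s R := by
  rw [slw_mem_D] at he ⊢
  refine ⟨hd.trans he.1, le_trans ?_ he.2⟩
  have he0 : 0 < e := Nat.pos_of_ne_zero (ne_zero_of_dvd_ne_zero BoundingSieve.prodPrimes_ne_zero he.1)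
  exact_mod_cast Nat.le_of_dvd he0 hd

theorem slw_g_pos {d : ℕ} (h : d ∈ slw_D s R) : 0 < s.selbergTerms d :=
  BoundingSieve.selbergTerms_pos (slw_mem_D.mp h).1

theorem slw_G_pos (hR : 1 ≤ R) : 0 < slw_G s R := by
  apply Finset.sum_pos (fun e he => slw_g_pos he)
  exact ⟨1, slw_mem_D.mpr ⟨one_dvd _, by exact_mod_cast hR⟩⟩

theorem slw_w_one (hR : 1 ≤ R) : slw_w s R 1 = 1 := by
  have h1 : (1 : ℕ) ∈ slw_D s R := slw_mem_D.mpr ⟨one_dvd _, by exact_mod_cast hR⟩
  have hG := slw_G_pos (s := s) hR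
  have hf : (slw_D s R).filter (fun e => 1 ∣ e) = slw_D s R := by
    apply Finset.filter_true_of_mem
    intro e _
    exact one_dvd e
  rw [slw_w, if_pos h1, hf, ArithmeticFunction.moebius_apply_one, s.nu_mult.map_one]
  change ((1 : ℤ) : ℝ) * (1 : ℝ)⁻¹ * (slw_G s R)⁻¹ * slw_G s R = 1
  rw [mul_assoc, inv_mul_cancel₀ hG.ne']
  simp

/-- the sum over the multiples of `d` -/
theorem slw_mult_le {d : ℕ} (hd : d ∈ slw_D s R) :
    (s.nu d)⁻¹ * ∑ e ∈ (slw_D s R).filter (fun e => d ∣ e), s.selbergTerms e ≤ slw_G s R := by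
  have hdP := (slw_mem_D.mp hd).1
  have hd0 : 0 < d := Nat.pos_of_ne_zero (ne_zero_of_dvd_ne_zero BoundingSieve.prodPrimes_ne_zero hdP)
  -- each term
  have hterm : ∀ e ∈ (slw_D s R).filter (fun e => d ∣ e),
      (s.nu d)⁻¹ * s.selbergTerms e = ∑ l ∈ d.divisors, s.selbergTerms (l * (e / d)) := by
    intro e he
    rw [Finset.mem_filter] at he
    obtain ⟨he, k, rfl⟩ := he
    have hsq := slw_D_sqf he
    have hco : Nat.Coprime d k := Nat.coprime_of_squarefree_mul hsq
    rw [Nat.mul_div_cancel_left k hd0, BoundingSieve.selbergTerms_isMultiplicative.map_mul_of_coprime hco]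
    have h1 := BoundingSieve.sum_divisors_selbergTerms_eq_selbergTerms_mul_nu_inv hdP
    rw [← Finset.sum_filter, Nat.divisors_filter_dvd_of_dvd BoundingSieve.prodPrimes_ne_zero hdP] at h1
    calc (s.nu d)⁻¹ * (s.selbergTerms d * s.selbergTerms k)
        = (s.selbergTerms d * (s.nu d)⁻¹) * s.selbergTerms k := by ring
      _ = (∑ l ∈ d.divisors, s.selbergTerms l) * s.selbergTerms k := by rw [h1]
      _ = ∑ l ∈ d.divisors, s.selbergTerms (l * k) := by
          rw [Finset.sum_mul]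
          apply Finset.sum_congr rfl
          intro l hl
          have hlk : Nat.Coprime l k := Nat.Coprime.coprime_dvd_left (Nat.dvd_of_mem_divisors hl) hco
          rw [BoundingSieve.selbergTerms_isMultiplicative.map_mul_of_coprime hlk]
  rw [Finset.mul_sum, Finset.sum_congr rfl hterm, ← Finset.sum_product']
  have hinj : Set.InjOn (fun x : ℕ × ℕ => x.2 * (x.1 / d))
      (((slw_D s R).filter (fun e => d ∣ e)) ×ˢ d.divisors : Finset (ℕ × ℕ)) := by
    rintro ⟨e, l⟩ h ⟨e', l'⟩ h' heq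
    rw [Finset.mem_coe, Finset.mem_product, Finset.mem_filter] at h h'
    obtain ⟨⟨he, k, rfl⟩, hl⟩ := h
    obtain ⟨⟨he', k', rfl⟩, hl'⟩ := h'
    simp only at heq hl hl' he he' ⊢
    rw [Nat.mul_div_cancel_left k hd0, Nat.mul_div_cancel_left k' hd0] at heq
    have hco : Nat.Coprime d k := Nat.coprime_of_squarefree_mul (slw_D_sqf he)
    have hco' : Nat.Coprime d k' := Nat.coprime_of_squarefree_mul (slw_D_sqf he')
    have g1 : ∀ {a b : ℕ}, a ∣ d → Nat.Coprime d b → Nat.gcd (a * b) d = a := by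
      intro a b ha hb
      rw [Nat.Coprime.gcd_mul_right_cancel a hb.symm]
      exact Nat.gcd_eq_left ha
    have e1 := g1 (Nat.dvd_of_mem_divisors hl) hco
    have e2 := g1 (Nat.dvd_of_mem_divisors hl') hco'
    rw [heq, e2] at e1
    subst e1
    have hl0 : 0 < l' := Nat.pos_of_mem_divisors hl
    have := Nat.eq_of_mul_eq_mul_left hl0 heq
    rw [this]
  rw [← Finset.sum_image (f := fun n => s.selbergTerms n) hinj]
  apply Finset.sum_le_sum_of_subset_of_nonneg
  · intro n hn
    rw [Finset.mem_image] at hn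
    obtain ⟨⟨e, l⟩, h, rfl⟩ := hn
    rw [Finset.mem_product, Finset.mem_filter] at h
    obtain ⟨⟨he, k, rfl⟩, hl⟩ := h
    simp only at he hl ⊢
    apply slw_D_closed he
    rw [Nat.mul_div_cancel_left k hd0]
    exact Nat.mul_dvd_mul_right (Nat.dvd_of_mem_divisors hl) k
  · intro n hn _
    exact (slw_g_pos hn).le

theorem slw_w_abs (hR : 1 ≤ R) (d : ℕ) : |slw_w s R d| ≤ 1 := by
  have hG := slw_G_pos (s := s) hR
  rw [slw_w]
  split_ifs with hd
  · have h1 := slw_mult_le hd
    have hnu : 0 < s.nu d := BoundingSieve.nu_pos_of_dvd_prodPrimes (slw_mem_D.mp hd).1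
    have hsum : 0 ≤ ∑ e ∈ (slw_D s R).filter (fun e => d ∣ e), s.selbergTerms e := by
      apply Finset.sum_nonneg
      intro e he
      exact (slw_g_pos (Finset.mem_filter.mp he).1).le
    have hμ : |(ArithmeticFunction.moebius d : ℝ)| ≤ 1 := by
      exact_mod_cast ArithmeticFunction.abs_moebius_le_one (n := d)
    rw [show (ArithmeticFunction.moebius d : ℝ) * (s.nu d)⁻¹ * (slw_G s R)⁻¹ *
        ∑ e ∈ (slw_D s R).filter (fun e => d ∣ e), s.selbergTerms e
      = (ArithmeticFunction.moebius d : ℝ) * ((slw_G s R)⁻¹ * ((s.nu d)⁻¹ *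
        ∑ e ∈ (slw_D s R).filter (fun e => d ∣ e), s.selbergTerms e)) by ring, abs_mul,
      abs_of_nonneg (by positivity : 0 ≤ (slw_G s R)⁻¹ * ((s.nu d)⁻¹ *
        ∑ e ∈ (slw_D s R).filter (fun e => d ∣ e), s.selbergTerms e))]
    have h2 : (slw_G s R)⁻¹ * ((s.nu d)⁻¹ *
        ∑ e ∈ (slw_D s R).filter (fun e => d ∣ e), s.selbergTerms e) ≤ 1 := by
      rw [inv_mul_le_iff₀ hG, mul_one]
      exact h1
    exact mul_le_one₀ hμ (by positivity) h2
  · simp

theorem slw_mob_sum (m : ℕ) :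
    ∑ k ∈ m.divisors, (ArithmeticFunction.moebius k : ℝ) = if m = 1 then 1 else 0 := by
  have h := congrArg (fun f : ArithmeticFunction ℝ => f m) (ArithmeticFunction.coe_moebius_mul_coe_zeta (R := ℝ))
  simp only [ArithmeticFunction.coe_mul_zeta_apply, ArithmeticFunction.one_apply,
    ArithmeticFunction.intCoe_apply] at h
  exact h

theorem slw_mob {l e : ℕ} (he : e ∈ slw_D s R) :
    ∑ d ∈ slw_D s R, (if l ∣ d ∧ d ∣ e then (ArithmeticFunction.moebius d : ℝ) else 0)
      = if l = e then (ArithmeticFunction.moebius l : ℝ) else 0 := by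
  have hsq := slw_D_sqf he
  by_cases hle : l ∣ e
  · obtain ⟨m, rfl⟩ := hle
    have hco : Nat.Coprime l m := Nat.coprime_of_squarefree_mul hsq
    have hl0 : l ≠ 0 := by rintro rfl; rw [zero_mul] at hsq; exact not_squarefree_zero hsq
    have hm0 : m ≠ 0 := by rintro rfl; rw [mul_zero] at hsq; exact not_squarefree_zero hsq
    rw [← Finset.sum_filter]
    have hset : (slw_D s R).filter (fun d => l ∣ d ∧ d ∣ l * m) = m.divisors.image (fun k => l * k) := by
      ext d
      rw [Finset.mem_filter, Finset.mem_image]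
      constructor
      · rintro ⟨-, ⟨k, rfl⟩, h2⟩
        exact ⟨k, Nat.mem_divisors.mpr ⟨(Nat.mul_dvd_mul_iff_left (Nat.pos_of_ne_zero hl0)).mp h2, hm0⟩, rfl⟩
      · rintro ⟨k, hk, rfl⟩
        have h3 : l * k ∣ l * m := Nat.mul_dvd_mul_left l (Nat.dvd_of_mem_divisors hk)
        exact ⟨slw_D_closed he h3, dvd_mul_right l k, h3⟩
    rw [hset, Finset.sum_image (fun a _ b _ hab => Nat.eq_of_mul_eq_mul_left (Nat.pos_of_ne_zero hl0) hab)]
    have h4 : ∀ k ∈ m.divisors, (ArithmeticFunction.moebius (l * k) : ℝ)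
        = (ArithmeticFunction.moebius l : ℝ) * (ArithmeticFunction.moebius k : ℝ) := by
      intro k hk
      have : Nat.Coprime l k := Nat.Coprime.coprime_dvd_right (Nat.dvd_of_mem_divisors hk) hco
      rw [ArithmeticFunction.isMultiplicative_moebius.map_mul_of_coprime this]
      push_cast
      rfl
    rw [Finset.sum_congr rfl h4, ← Finset.mul_sum, slw_mob_sum m]
    by_cases hm1 : m = 1
    · subst hm1
      simp
    · have : l ≠ l * m := by
        intro h
        apply hm1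
        have := Nat.eq_of_mul_eq_mul_left (Nat.pos_of_ne_zero hl0) (show l * m = l * 1 by rw [mul_one]; exact h.symm)
        exact this
      rw [if_neg hm1, if_neg this, mul_zero]
  · have hne : l ≠ e := by
      rintro rfl
      exact hle (dvd_refl l)
    rw [if_neg hne]
    apply Finset.sum_eq_zero
    intro d _
    rw [if_neg]
    rintro ⟨h1, h2⟩
    exact hle (h1.trans h2)

open Classical in
theorem slw_inner (l : ℕ) :
    (∑ d ∈ s.prodPrimes.divisors, if l ∣ d then s.nu d * slw_w s R d else 0)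
      = if l ∈ slw_D s R then (ArithmeticFunction.moebius l : ℝ) * s.selbergTerms l * (slw_G s R)⁻¹ else 0 := by
  have h1 : (∑ d ∈ s.prodPrimes.divisors, if l ∣ d then s.nu d * slw_w s R d else 0)
      = ∑ d ∈ slw_D s R, if l ∣ d then s.nu d * slw_w s R d else 0 := by
    symm
    apply Finset.sum_subset (Finset.filter_subset _ _)
    intro d _ hd
    have hw : slw_w s R d = 0 := by
      unfold slw_w
      exact if_neg hd
    rw [hw, mul_zero, ite_self]
  have h2 : ∀ d ∈ slw_D s R, (if l ∣ d then s.nu d * slw_w s R d else 0)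
      = ∑ e ∈ slw_D s R, (slw_G s R)⁻¹ * s.selbergTerms e *
        (if l ∣ d ∧ d ∣ e then (ArithmeticFunction.moebius d : ℝ) else 0) := by
    intro d hd
    have hnu : s.nu d ≠ 0 := BoundingSieve.nu_ne_zero (slw_mem_D.mp hd).1
    by_cases hl : l ∣ d
    · rw [if_pos hl, slw_w, if_pos hd, Finset.sum_filter]
      rw [show s.nu d * ((ArithmeticFunction.moebius d : ℝ) * (s.nu d)⁻¹ * (slw_G s R)⁻¹ *
          ∑ e ∈ slw_D s R, if d ∣ e then s.selbergTerms e else 0)
        = ((ArithmeticFunction.moebius d : ℝ) * (slw_G s R)⁻¹) *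
          ∑ e ∈ slw_D s R, if d ∣ e then s.selbergTerms e else 0 by field_simp, Finset.mul_sum]
      apply Finset.sum_congr rfl
      intro e _
      by_cases he : d ∣ e
      · rw [if_pos he, if_pos ⟨hl, he⟩]
        ring
      · rw [if_neg he, if_neg (fun h => he h.2)]
        ring
    · rw [if_neg hl]
      symm
      apply Finset.sum_eq_zero
      intro e _
      rw [if_neg (fun h => hl h.1), mul_zero]
  rw [h1, Finset.sum_congr rfl h2, Finset.sum_comm]
  have h3 : ∀ e ∈ slw_D s R, ∑ d ∈ slw_D s R, (slw_G s R)⁻¹ * s.selbergTerms e *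
        (if l ∣ d ∧ d ∣ e then (ArithmeticFunction.moebius d : ℝ) else 0)
      = if l = e then (ArithmeticFunction.moebius l : ℝ) * s.selbergTerms l * (slw_G s R)⁻¹ else 0 := by
    intro e he
    rw [← Finset.mul_sum, slw_mob he]
    by_cases hle : l = e
    · subst hle
      rw [if_pos rfl, if_pos rfl]
      ring
    · rw [if_neg hle, if_neg hle, mul_zero]
  rw [Finset.sum_congr rfl h3, Finset.sum_ite_eq]

theorem slw_main (hR : 1 ≤ R) :
    s.mainSum (BoundingSieve.lambdaSquared (slw_w s R)) = 1 / slw_G s R := by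
  classical
  have hG := slw_G_pos (s := s) hR
  rw [BoundingSieve.mainSum_lambdaSquared_eq_sum_mul_sum_sq]
  have h1 : ∀ l ∈ s.prodPrimes.divisors, (s.selbergTerms l)⁻¹ *
        (∑ d ∈ s.prodPrimes.divisors, if l ∣ d then s.nu d * slw_w s R d else 0) ^ 2
      = if l ∈ slw_D s R then s.selbergTerms l * ((slw_G s R)⁻¹) ^ 2 else 0 := by
    intro l _
    rw [slw_inner]
    split_ifs with hl
    · have hg := slw_g_pos hl
      have hμ : (ArithmeticFunction.moebius l : ℝ) ^ 2 = 1 := by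
        exact_mod_cast ArithmeticFunction.moebius_sq_eq_one_of_squarefree (slw_D_sqf hl)
      rw [mul_pow, mul_pow, hμ, one_mul, sq (s.selbergTerms l)]
      field_simp
    · simp
  rw [Finset.sum_congr rfl h1, ← Finset.sum_filter]
  have h2 : s.prodPrimes.divisors.filter (fun l => l ∈ slw_D s R) = slw_D s R := by
    ext l
    rw [Finset.mem_filter]
    constructor
    · exact fun h => h.2
    · exact fun h => ⟨(Finset.mem_filter.mp h).1, h⟩
  rw [h2, ← Finset.sum_mul]
  change slw_G s R * ((slw_G s R)⁻¹) ^ 2 = 1 / slw_G s R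
  field_simp

theorem slw_theta_ne {d : ℕ} (h : BoundingSieve.lambdaSquared (slw_w s R) d ≠ 0) :
    d ∣ s.prodPrimes ∧ (d : ℝ) ≤ R ^ 2 := by
  unfold BoundingSieve.lambdaSquared at h
  obtain ⟨d1, _, h⟩ := Finset.exists_ne_zero_of_sum_ne_zero h
  obtain ⟨d2, _, h⟩ := Finset.exists_ne_zero_of_sum_ne_zero h
  rw [ite_ne_right_iff] at h
  obtain ⟨hd, h⟩ := h
  have hd1 : d1 ∈ slw_D s R := by
    by_contra hc
    apply h
    rw [slw_w, if_neg hc, zero_mul]
  have hd2 : d2 ∈ slw_D s R := by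
    by_contra hc
    apply h
    have hw : slw_w s R d2 = 0 := by
      unfold slw_w
      exact if_neg hc
    rw [hw, mul_zero]
  rw [slw_mem_D] at hd1 hd2
  refine ⟨hd ▸ Nat.lcm_dvd hd1.1 hd2.1, ?_⟩
  have p1 : 0 < d1 := Nat.pos_of_ne_zero (ne_zero_of_dvd_ne_zero BoundingSieve.prodPrimes_ne_zero hd1.1)
  have p2 : 0 < d2 := Nat.pos_of_ne_zero (ne_zero_of_dvd_ne_zero BoundingSieve.prodPrimes_ne_zero hd2.1)
  have h3 : d ≤ d1 * d2 := by
    rw [hd]
    exact Nat.le_of_dvd (Nat.mul_pos p1 p2) (Nat.lcm_dvd_mul d1 d2)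
  calc (d : ℝ) ≤ ((d1 * d2 : ℕ) : ℝ) := by exact_mod_cast h3
    _ = (d1 : ℝ) * d2 := by push_cast; ring
    _ ≤ R * R := mul_le_mul hd1.2 hd2.2 (by positivity) (le_trans (by positivity) hd1.2)
    _ = R ^ 2 := by ring

theorem slw_theta_le (hR : 1 ≤ R) (d : ℕ) :
    |BoundingSieve.lambdaSquared (slw_w s R) d| ≤ 3 ^ d.primeFactors.card := by
  by_cases h0 : BoundingSieve.lambdaSquared (slw_w s R) d = 0
  · rw [h0, abs_zero]
    positivity
  · have hsq : Squarefree d := BoundingSieve.squarefree_of_dvd_prodPrimes (slw_theta_ne h0).1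
    have hcard := Nat.card_pair_lcm_eq hsq
    have hω : ArithmeticFunction.cardDistinctFactors d = d.primeFactors.card := by
      rw [ArithmeticFunction.cardDistinctFactors_apply]
      rfl
    rw [hω] at hcard
    unfold BoundingSieve.lambdaSquared
    rw [← Finset.sum_product', ← Finset.sum_filter]
    refine (Finset.abs_sum_le_sum_abs _ _).trans ?_
    calc _ ≤ ∑ x ∈ (d.divisors ×ˢ d.divisors).filter (fun x => d = x.1.lcm x.2), (1 : ℝ) := by
          apply Finset.sum_le_sum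
          intro x _
          rw [abs_mul]
          exact mul_le_one₀ (slw_w_abs hR _) (abs_nonneg _) (slw_w_abs hR _)
      _ = (3 : ℝ) ^ d.primeFactors.card := by
          rw [Finset.sum_const, nsmul_eq_mul, mul_one]
          have : (d.divisors ×ˢ d.divisors).filter (fun x => d = x.1.lcm x.2)
              = (d.divisors ×ˢ d.divisors).filter (fun x => x.1.lcm x.2 = d) := by
            apply Finset.filter_congr
            intro x _
            exact eq_comm
          rw [this, hcard]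
          push_cast
          rfl

end

open Classical in
theorem selberg_weights_pr (S : Finset ℕ) (hS : ∀ p ∈ S, p.Prime) (h : ℕ → ℝ)
    (hh : ∀ p ∈ S, 0 < h p ∧ h p < 1) (R : ℝ) (hR : 1 ≤ R) : ∃ θ : ℕ → ℝ,
    (∀ d, θ d ≠ 0 → Squarefree d ∧ (∀ p : ℕ, p.Prime → p ∣ d → p ∈ S) ∧ (d : ℝ) ≤ R ^ 2) ∧
    (∀ d, |θ d| ≤ 3 ^ d.primeFactors.card) ∧ θ 1 = 1 ∧
    (∀ n : ℕ, 1 ≤ n → 0 ≤ ∑ d ∈ n.divisors, θ d) ∧
    ∑ d ∈ Finset.Icc 1 ⌊R ^ 2⌋₊, θ d * ∏ p ∈ d.primeFactors, h p ≤
      1 / ∑ d ∈ (Finset.Icc 1 ⌊R⌋₊).filter (fun d : ℕ => Squarefree d ∧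
        ∀ p : ℕ, p.Prime → p ∣ d → p ∈ S), ∏ p ∈ d.primeFactors, h p / (1 - h p) := by
  set s := slw_s S hS h hh with hs
  have hP : s.prodPrimes = ∏ p ∈ S, p := rfl
  have hnu : ∀ d, d ≠ 0 → s.nu d = ∏ p ∈ d.primeFactors, h p := by
    intro d hd
    exact ArithmeticFunction.prodPrimeFactors_apply hd
  refine ⟨BoundingSieve.lambdaSquared (slw_w s R), ?_, slw_theta_le hR, ?_, ?_, ?_⟩
  · intro d hd
    obtain ⟨h1, h2⟩ := slw_theta_ne hd
    rw [hP, slw_dvd_iff S hS] at h1
    exact ⟨h1.1, h1.2, h2⟩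
  · unfold BoundingSieve.lambdaSquared
    simp [slw_w_one hR]
  · intro n _
    have h1 := BoundingSieve.upperMoebius_lambdaSquared (slw_w s R) (slw_w_one hR) n
    refine le_trans ?_ h1
    split_ifs
    · exact zero_le_one
    · exact le_rfl
  · have hmain := slw_main (s := s) hR
    -- the left side
    have hL : ∑ d ∈ Finset.Icc 1 ⌊R ^ 2⌋₊, BoundingSieve.lambdaSquared (slw_w s R) d *
        ∏ p ∈ d.primeFactors, h p = s.mainSum (BoundingSieve.lambdaSquared (slw_w s R)) := by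
      unfold BoundingSieve.mainSum
      have h1 : ∑ d ∈ s.prodPrimes.divisors, BoundingSieve.lambdaSquared (slw_w s R) d * s.nu d
          = ∑ d ∈ s.prodPrimes.divisors, BoundingSieve.lambdaSquared (slw_w s R) d *
            ∏ p ∈ d.primeFactors, h p := by
        apply Finset.sum_congr rfl
        intro d hd
        rw [hnu d (Nat.pos_of_mem_divisors hd).ne']
      rw [h1]
      have h2 : ∀ A B : Finset ℕ, (∀ d, BoundingSieve.lambdaSquared (slw_w s R) d ≠ 0 → d ∈ B) →
          ∑ d ∈ A, BoundingSieve.lambdaSquared (slw_w s R) d * ∏ p ∈ d.primeFactors, h p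
          = ∑ d ∈ A ∩ B, BoundingSieve.lambdaSquared (slw_w s R) d * ∏ p ∈ d.primeFactors, h p := by
        intro A B hB
        symm
        apply Finset.sum_subset Finset.inter_subset_left
        intro d hdA hd
        have : BoundingSieve.lambdaSquared (slw_w s R) d = 0 := by
          by_contra hc
          exact hd (Finset.mem_inter.mpr ⟨hdA, hB d hc⟩)
        rw [this, zero_mul]
      rw [h2 (Finset.Icc 1 ⌊R ^ 2⌋₊) s.prodPrimes.divisors, h2 s.prodPrimes.divisors (Finset.Icc 1 ⌊R ^ 2⌋₊),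
        Finset.inter_comm]
      · intro d hd
        obtain ⟨h1, h2⟩ := slw_theta_ne hd
        rw [Finset.mem_Icc]
        exact ⟨Nat.pos_of_ne_zero (ne_zero_of_dvd_ne_zero BoundingSieve.prodPrimes_ne_zero h1),
          Nat.le_floor h2⟩
      · intro d hd
        exact Nat.mem_divisors.mpr ⟨(slw_theta_ne hd).1, BoundingSieve.prodPrimes_ne_zero⟩
    -- the right side
    have hRt : ∑ d ∈ (Finset.Icc 1 ⌊R⌋₊).filter (fun d : ℕ => Squarefree d ∧
        ∀ p : ℕ, p.Prime → p ∣ d → p ∈ S), ∏ p ∈ d.primeFactors, h p / (1 - h p) = slw_G s R := by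
      unfold slw_G
      have hset : (Finset.Icc 1 ⌊R⌋₊).filter (fun d : ℕ => Squarefree d ∧
          ∀ p : ℕ, p.Prime → p ∣ d → p ∈ S) = slw_D s R := by
        ext d
        rw [Finset.mem_filter, slw_mem_D, hP, slw_dvd_iff S hS, Finset.mem_Icc]
        constructor
        · rintro ⟨⟨h1, h2⟩, h3⟩
          exact ⟨h3, (Nat.le_floor_iff (by linarith)).mp h2⟩
        · rintro ⟨h3, h4⟩
          refine ⟨⟨?_, Nat.le_floor h4⟩, h3⟩
          exact Nat.pos_of_ne_zero h3.1.ne_zero
      rw [hset]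
      apply Finset.sum_congr rfl
      intro d hd
      have hd0 : d ≠ 0 := (slw_D_sqf hd).ne_zero
      rw [BoundingSieve.selbergTerms_apply, hnu d hd0, ← Finset.prod_mul_distrib]
      apply Finset.prod_congr rfl
      intro p hp
      have hpp := Nat.prime_of_mem_primeFactors hp
      rw [hnu p hpp.ne_zero, hpp.primeFactors, Finset.prod_singleton, div_eq_mul_inv]
    rw [hL, hRt, hmain]

end Pool.Agent.T2


namespace Pool.Agent.T2

theorem selberg_weights : type_of% @selberg_weights_pr := @selberg_weights_pr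

end Pool.Agent.T2
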