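import Pool.Agent.Lib_helper10.T2.Defs
import Pool.Agent.Lib_helper58.Planch

/-! T2, package C, block PLM. -/

namespace Pool.Agent.T2

open Filter Topology MeasureTheory FourierTransform

/-- the partial sums -/
noncomputable def plm_A (a : ℕ → ℂ) (u : ℝ) : ℂ := ∑ k ∈ Finset.Icc 1 ⌊u⌋₊, a k

/-- the function on the additive side -/
noncomputable def plm_g (a : ℕ → ℂ) (σ : ℝ) : ℝ → ℂ :=
  (Set.Ioi (0 : ℝ)).indicator (fun x => plm_A a (Real.exp x) * ((Real.exp (-(σ * x)) : ℝ) : ℂ))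

theorem plm_A_meas (a : ℕ → ℂ) : Measurable (plm_A a) := by
  have : plm_A a = (fun n : ℕ => ∑ k ∈ Finset.Icc 1 n, a k) ∘ (fun u : ℝ => ⌊u⌋₊) := rfl
  rw [this]
  exact (measurable_from_top).comp Nat.measurable_floor

theorem plm_g_meas (a : ℕ → ℂ) (σ : ℝ) : Measurable (plm_g a σ) := by
  apply Measurable.indicator _ measurableSet_Ioi
  apply Measurable.mul
  · exact (plm_A_meas a).comp Real.measurable_exp
  · apply Complex.measurable_ofReal.comp
    exact (Real.measurable_exp.comp ((measurable_id.const_mul σ).neg))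

theorem plm_bound (a : ℕ → ℂ) (C : ℝ) (ha : ∀ n : ℕ, 1 ≤ n →
      ‖∑ k ∈ Finset.Icc 1 n, a k‖ ≤ C * n * (1 + Real.log n)) {σ : ℝ} (hσ : 1 < σ) :
    ∃ C' : ℝ, 0 ≤ C' ∧ ∀ x : ℝ, 0 < x →
      ‖plm_g a σ x‖ ≤ C' * Real.exp (-((σ - 1) / 2) * x) := by
  have hC : 0 ≤ C := by
    have := ha 1 le_rfl
    simp only [Nat.cast_one, Real.log_one, add_zero, mul_one] at this
    exact le_trans (norm_nonneg _) this
  have hb : 0 < σ - 1 := by linarith
  refine ⟨C * (1 + 2 / (σ - 1)), by positivity, ?_⟩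
  intro x hx
  rw [plm_g, Set.indicator_of_mem (Set.mem_Ioi.mpr hx), norm_mul, Complex.norm_real,
    Real.norm_eq_abs, abs_of_pos (Real.exp_pos _)]
  have h1 : 1 ≤ ⌊Real.exp x⌋₊ := by
    rw [Nat.one_le_floor_iff]
    exact Real.one_le_exp hx.le
  have h2 : ‖plm_A a (Real.exp x)‖ ≤ C * Real.exp x * (1 + x) := by
    refine le_trans (ha _ h1) ?_
    have h3 : ((⌊Real.exp x⌋₊ : ℕ) : ℝ) ≤ Real.exp x := Nat.floor_le (Real.exp_pos _).le
    have h4 : (0 : ℝ) < ((⌊Real.exp x⌋₊ : ℕ) : ℝ) := by exact_mod_cast h1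
    have h5 : Real.log ((⌊Real.exp x⌋₊ : ℕ) : ℝ) ≤ x := by
      rw [Real.log_le_iff_le_exp h4]
      exact h3
    have h6 : 0 ≤ Real.log ((⌊Real.exp x⌋₊ : ℕ) : ℝ) := Real.log_nonneg (by exact_mod_cast h1)
    apply mul_le_mul _ _ (by linarith) (by positivity)
    · exact mul_le_mul_of_nonneg_left h3 hC
    · linarith
  have h7 : 1 + x ≤ (1 + 2 / (σ - 1)) * Real.exp ((σ - 1) / 2 * x) := by
    have h8 : (σ - 1) / 2 * x + 1 ≤ Real.exp ((σ - 1) / 2 * x) := Real.add_one_le_exp _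
    have h9 : x ≤ 2 / (σ - 1) * Real.exp ((σ - 1) / 2 * x) := by
      rw [div_mul_eq_mul_div, le_div_iff₀ hb]
      linarith
    have h10 : 1 ≤ Real.exp ((σ - 1) / 2 * x) := Real.one_le_exp (by positivity)
    linarith
  calc ‖plm_A a (Real.exp x)‖ * Real.exp (-(σ * x)) ≤
      (C * Real.exp x * (1 + x)) * Real.exp (-(σ * x)) :=
        mul_le_mul_of_nonneg_right h2 (Real.exp_pos _).le
    _ ≤ (C * Real.exp x * ((1 + 2 / (σ - 1)) * Real.exp ((σ - 1) / 2 * x))) *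
        Real.exp (-(σ * x)) := by
        apply mul_le_mul_of_nonneg_right _ (Real.exp_pos _).le
        exact mul_le_mul_of_nonneg_left h7 (by positivity)
    _ = C * (1 + 2 / (σ - 1)) * (Real.exp x * Real.exp ((σ - 1) / 2 * x) *
        Real.exp (-(σ * x))) := by ring
    _ = C * (1 + 2 / (σ - 1)) * Real.exp (-((σ - 1) / 2) * x) := by
        rw [← Real.exp_add, ← Real.exp_add]
        congr 2
        ring

theorem plm_int (a : ℕ → ℂ) (C : ℝ) (ha : ∀ n : ℕ, 1 ≤ n →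
      ‖∑ k ∈ Finset.Icc 1 n, a k‖ ≤ C * n * (1 + Real.log n)) {σ : ℝ} (hσ : 1 < σ) :
    Integrable (plm_g a σ) ∧ Integrable (fun x => ‖plm_g a σ x‖ ^ 2) := by
  obtain ⟨C', hC', hb⟩ := plm_bound a C ha hσ
  have hs : 0 < (σ - 1) / 2 := by linarith
  constructor
  · have h1 : IntegrableOn (plm_g a σ) (Set.Ioi 0) := by
      apply Integrable.mono' ((exp_neg_integrableOn_Ioi 0 hs).const_mul C')
      · exact (plm_g_meas a σ).aestronglyMeasurable
      · exact (ae_restrict_iff' measurableSet_Ioi).mpr (Eventually.of_forall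
          (fun x hx => hb x hx))
    have h2 : plm_g a σ = (Set.Ioi (0 : ℝ)).indicator (plm_g a σ) := by
      rw [plm_g, Set.indicator_indicator, Set.inter_self]
    rw [h2]
    exact (integrable_indicator_iff measurableSet_Ioi).mpr h1
  · have h1 : IntegrableOn (fun x => ‖plm_g a σ x‖ ^ 2) (Set.Ioi 0) := by
      apply Integrable.mono' ((exp_neg_integrableOn_Ioi 0 (show 0 < σ - 1 by linarith)).const_mul
        (C' ^ 2))
      · exact ((plm_g_meas a σ).norm.pow_const 2).aestronglyMeasurable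
      · refine (ae_restrict_iff' measurableSet_Ioi).mpr (Eventually.of_forall ?_)
        intro x hx
        rw [Real.norm_eq_abs, abs_of_nonneg (by positivity)]
        calc ‖plm_g a σ x‖ ^ 2 ≤ (C' * Real.exp (-((σ - 1) / 2) * x)) ^ 2 :=
              pow_le_pow_left₀ (norm_nonneg _) (hb x hx) 2
          _ = C' ^ 2 * Real.exp (-(σ - 1) * x) := by
              rw [mul_pow, sq (Real.exp _), ← Real.exp_add]
              congr 2
              ring
    have h2 : (fun x => ‖plm_g a σ x‖ ^ 2) =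
        (Set.Ioi (0 : ℝ)).indicator (fun x => ‖plm_g a σ x‖ ^ 2) := by
      funext x
      by_cases hx : x ∈ Set.Ioi (0 : ℝ)
      · rw [Set.indicator_of_mem hx]
      · rw [Set.indicator_of_notMem hx, plm_g, Set.indicator_of_notMem hx, norm_zero]
        norm_num
    rw [h2]
    exact (integrable_indicator_iff measurableSet_Ioi).mpr h1

theorem plm_exp_image : Real.exp '' (Set.Ioi (0 : ℝ)) = Set.Ioi 1 := by
  ext u
  constructor
  · rintro ⟨x, hx, rfl⟩
    exact Real.one_lt_exp_iff.mpr hx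
  · intro hu
    refine ⟨Real.log u, ?_, ?_⟩
    · exact Real.log_pos hu
    · exact Real.exp_log (lt_trans one_pos hu)

/-- change of variables -/
theorem plm_cov {F : Type*} [NormedAddCommGroup F] [NormedSpace ℝ F] (G : ℝ → F) :
    ∫ u in Set.Ioi (1 : ℝ), G u = ∫ x in Set.Ioi (0 : ℝ), Real.exp x • G (Real.exp x) := by
  rw [← plm_exp_image, integral_image_eq_integral_abs_deriv_smul measurableSet_Ioi
    (fun x _ => (Real.hasDerivAt_exp x).hasDerivWithinAt) (Real.exp_injective.injOn)]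
  simp only [abs_of_pos (Real.exp_pos _)]

theorem plm_bigO (a : ℕ → ℂ) (C : ℝ) (ha : ∀ n : ℕ, 1 ≤ n →
      ‖∑ k ∈ Finset.Icc 1 n, a k‖ ≤ C * n * (1 + Real.log n)) {r : ℝ} (hr : 1 < r) :
    (fun n : ℕ => ∑ k ∈ Finset.Icc 1 n, a k) =O[atTop] fun n : ℕ => (n : ℝ) ^ r := by
  have hC : 0 ≤ C := by
    have := ha 1 le_rfl
    simp only [Nat.cast_one, Real.log_one, add_zero, mul_one] at this
    exact le_trans (norm_nonneg _) this
  have hb : 0 < r - 1 := by linarith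
  apply Asymptotics.IsBigO.of_bound (C * (1 + 1 / (r - 1)))
  filter_upwards [eventually_ge_atTop 1] with n hn
  refine le_trans (ha n hn) ?_
  have hn1 : (1 : ℝ) ≤ n := by exact_mod_cast hn
  have hn0 : (0 : ℝ) < n := by linarith
  rw [Real.norm_eq_abs, abs_of_nonneg (by positivity)]
  have h1 : Real.log n ≤ (n : ℝ) ^ (r - 1) / (r - 1) := Real.log_le_rpow_div hn0.le hb
  have h2 : (1 : ℝ) ≤ (n : ℝ) ^ (r - 1) := Real.one_le_rpow hn1 hb.le
  have h3 : 1 + Real.log n ≤ (1 + 1 / (r - 1)) * (n : ℝ) ^ (r - 1) := by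
    have : (1 + 1 / (r - 1)) * (n : ℝ) ^ (r - 1) =
      (n : ℝ) ^ (r - 1) + (n : ℝ) ^ (r - 1) / (r - 1) := by ring
    rw [this]
    linarith
  have h4 : (n : ℝ) ^ r = n * (n : ℝ) ^ (r - 1) := by
    rw [Real.rpow_sub_one hn0.ne']
    field_simp
  calc C * n * (1 + Real.log n) ≤ C * n * ((1 + 1 / (r - 1)) * (n : ℝ) ^ (r - 1)) :=
        mul_le_mul_of_nonneg_left h3 (by positivity)
    _ = C * (1 + 1 / (r - 1)) * (n : ℝ) ^ r := by rw [h4]; ring

theorem plm_fourier (a : ℕ → ℂ) (C : ℝ) (ha : ∀ n : ℕ, 1 ≤ n →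
      ‖∑ k ∈ Finset.Icc 1 n, a k‖ ≤ C * n * (1 + Real.log n))
    (h1 : ∀ s : ℂ, 1 < s.re → LSeriesSummable a s) {σ : ℝ} (hσ : 1 < σ) (t : ℝ) :
    LSeries a (σ + t * Complex.I) / (σ + t * Complex.I) = 𝓕 (plm_g a σ) (t / (2 * Real.pi)) := by
  obtain ⟨s, hs⟩ : ∃ s : ℂ, s = σ + t * Complex.I := ⟨_, rfl⟩
  rw [← hs]
  have hre : s.re = σ := by rw [hs]; simp
  have hs0 : s ≠ 0 := by
    intro h
    rw [h, Complex.zero_re] at hre
    linarith
  have hL := LSeries_eq_mul_integral a (r := (1 + σ) / 2) (by linarith) (s := s)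
    (by rw [hre]; linarith) (h1 s (by rw [hre]; exact hσ)) (plm_bigO a C ha (by linarith))
  rw [hL, mul_div_assoc, mul_comm, div_mul_cancel₀ _ hs0, plm_cov,
    Real.fourier_real_eq_integral_exp_smul]
  have h2 : (fun v : ℝ => Complex.exp (((-2 * Real.pi * v * (t / (2 * Real.pi)) : ℝ) : ℂ) *
      Complex.I) • plm_g a σ v) = (Set.Ioi (0 : ℝ)).indicator (fun x : ℝ =>
        Real.exp x • ((∑ k ∈ Finset.Icc 1 ⌊Real.exp x⌋₊, a k) *
          ((Real.exp x : ℝ) : ℂ) ^ (-(s + 1)))) := by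
    funext x
    by_cases hx : x ∈ Set.Ioi (0 : ℝ)
    · rw [Set.indicator_of_mem hx, plm_g, Set.indicator_of_mem hx, plm_A]
      have e1 : ((Real.exp x : ℝ) : ℂ) ^ (-(s + 1)) = Complex.exp (-(s + 1) * x) := by
        rw [Complex.cpow_def_of_ne_zero (by exact_mod_cast (Real.exp_pos x).ne'),
          ← Complex.ofReal_log (Real.exp_pos x).le, Real.log_exp, mul_comm]
      rw [e1, smul_eq_mul, Complex.real_smul]
      have e2 : Complex.exp (((-2 * Real.pi * x * (t / (2 * Real.pi)) : ℝ) : ℂ) * Complex.I) *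
          ((Real.exp (-(σ * x)) : ℝ) : ℂ) = ((Real.exp x : ℝ) : ℂ) *
            Complex.exp (-(s + 1) * x) := by
        rw [Complex.ofReal_exp, Complex.ofReal_exp, ← Complex.exp_add, ← Complex.exp_add]
        congr 1
        have hpi : (-2 * Real.pi * x * (t / (2 * Real.pi)) : ℝ) = -(x * t) := by
          field_simp
        rw [hpi, hs]
        push_cast
        ring
      calc Complex.exp (((-2 * Real.pi * x * (t / (2 * Real.pi)) : ℝ) : ℂ) * Complex.I) *
          ((∑ k ∈ Finset.Icc 1 ⌊Real.exp x⌋₊, a k) * ((Real.exp (-(σ * x)) : ℝ) : ℂ)) =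
          (∑ k ∈ Finset.Icc 1 ⌊Real.exp x⌋₊, a k) *
          (Complex.exp (((-2 * Real.pi * x * (t / (2 * Real.pi)) : ℝ) : ℂ) * Complex.I) *
          ((Real.exp (-(σ * x)) : ℝ) : ℂ)) := by ring
        _ = _ := by rw [e2]; ring
    · rw [Set.indicator_of_notMem hx, plm_g, Set.indicator_of_notMem hx, smul_zero]
  rw [h2, integral_indicator measurableSet_Ioi]

theorem mellin_plancherel_pr (a : ℕ → ℂ) (C : ℝ) (ha : ∀ n : ℕ, 1 ≤ n →
      ‖∑ k ∈ Finset.Icc 1 n, a k‖ ≤ C * n * (1 + Real.log n))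
    (h1 : ∀ s : ℂ, 1 < s.re → LSeriesSummable a s) {σ : ℝ} (hσ : 1 < σ) :
    Integrable (fun t : ℝ => ‖LSeries a (σ + t * Complex.I) / (σ + t * Complex.I)‖ ^ 2) ∧
    ∫ t : ℝ, ‖LSeries a (σ + t * Complex.I) / (σ + t * Complex.I)‖ ^ 2 =
      2 * Real.pi * ∫ u in Set.Ioi (1 : ℝ), ‖∑ k ∈ Finset.Icc 1 ⌊u⌋₊, a k‖ ^ 2 *
        u ^ (-(2 * σ + 1)) := by
  obtain ⟨hi1, hi2⟩ := plm_int a C ha hσ
  have hm : MemLp (plm_g a σ) 2 :=
    (memLp_two_iff_integrable_sq_norm (plm_g_meas a σ).aestronglyMeasurable).mpr hi2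
  have hP := Pool.Agent.H58.plancherel (plm_g a σ) hi1 hm
  have hcont : Continuous (𝓕 (plm_g a σ)) :=
    (VectorFourier.fourierIntegral_continuous Real.continuous_fourierChar
      (by exact (innerSL ℝ (E := ℝ)).continuous₂) hi1)
  have hpi : 0 < 2 * Real.pi := by positivity
  have key : ∀ f : ℝ → ℂ, ∀ x, ‖‖f x‖ ^ 2‖ₑ = ‖f x‖ₑ ^ 2 := by
    intro f x
    rw [enorm_pow, enorm_norm]
  have hfin : ∫⁻ x, ‖plm_g a σ x‖ₑ ^ 2 < ⊤ := by
    have := hi2.2
    rw [hasFiniteIntegral_iff_enorm] at this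
    simpa only [key] using this
  have hF2 : Integrable (fun y => ‖𝓕 (plm_g a σ) y‖ ^ 2) := by
    refine ⟨(hcont.norm.pow 2).aestronglyMeasurable, ?_⟩
    rw [hasFiniteIntegral_iff_enorm]
    simp only [key]
    rw [hP]
    exact hfin
  have hEq : ∫ y, ‖𝓕 (plm_g a σ) y‖ ^ 2 = ∫ x, ‖plm_g a σ x‖ ^ 2 := by
    rw [integral_eq_lintegral_of_nonneg_ae (Eventually.of_forall (fun _ => by positivity))
      hF2.1, integral_eq_lintegral_of_nonneg_ae (Eventually.of_forall (fun _ => by positivity))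
      hi2.1]
    congr 1
    have e : ∀ f : ℝ → ℂ, ∫⁻ x, ENNReal.ofReal (‖f x‖ ^ 2) = ∫⁻ x, ‖f x‖ₑ ^ 2 := by
      intro f
      apply lintegral_congr
      intro x
      rw [ENNReal.ofReal_pow (norm_nonneg _), ofReal_norm]
    rw [e, e, hP]
  have hfun : (fun t : ℝ => ‖LSeries a (σ + t * Complex.I) / (σ + t * Complex.I)‖ ^ 2) =
      fun t : ℝ => (fun y => ‖𝓕 (plm_g a σ) y‖ ^ 2) (t / (2 * Real.pi)) := by
    funext t
    rw [plm_fourier a C ha h1 hσ t]
  rw [hfun]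
  constructor
  · exact hF2.comp_div hpi.ne'
  · rw [Measure.integral_comp_div (fun y => ‖𝓕 (plm_g a σ) y‖ ^ 2) (2 * Real.pi),
      abs_of_pos hpi, smul_eq_mul, hEq]
    congr 1
    rw [plm_cov]
    have h2 : (fun x => ‖plm_g a σ x‖ ^ 2) = (Set.Ioi (0 : ℝ)).indicator (fun x : ℝ =>
        Real.exp x • (‖∑ k ∈ Finset.Icc 1 ⌊Real.exp x⌋₊, a k‖ ^ 2 *
          (Real.exp x) ^ (-(2 * σ + 1)))) := by
      funext x
      by_cases hx : x ∈ Set.Ioi (0 : ℝ)
      · rw [Set.indicator_of_mem hx, plm_g, Set.indicator_of_mem hx, plm_A, norm_mul,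
          Complex.norm_real, Real.norm_eq_abs, abs_of_pos (Real.exp_pos _), mul_pow,
          smul_eq_mul, ← Real.exp_mul, sq (Real.exp _), ← Real.exp_add]
        calc ‖∑ k ∈ Finset.Icc 1 ⌊Real.exp x⌋₊, a k‖ ^ 2 *
              Real.exp (-(σ * x) + -(σ * x)) =
            ‖∑ k ∈ Finset.Icc 1 ⌊Real.exp x⌋₊, a k‖ ^ 2 *
              (Real.exp x * Real.exp (x * -(2 * σ + 1))) := by
              rw [← Real.exp_add]
              congr 2
              ring
          _ = _ := by ring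
      · rw [Set.indicator_of_notMem hx, plm_g, Set.indicator_of_notMem hx, norm_zero]
        norm_num
    rw [h2, integral_indicator measurableSet_Ioi]

end Pool.Agent.T2


namespace Pool.Agent.T2

theorem mellin_plancherel : type_of% @mellin_plancherel_pr := @mellin_plancherel_pr

end Pool.Agent.T2
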