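import Pool.Agent.Lib_helper10.T2.DefsB
import Pool.Agent.Lib_helper90.PNT.WienerIkehara

/-! T2, block BPR (helper81): primes in short intervals and residue classes. -/

set_option autoImplicit false

namespace Pool.Agent.T2

open Filter Topology

/-- the sum of `log p` over the primes of a residue class in `(x, y]` -/
noncomputable def bprT (q : ℕ) (a : ZMod q) (x y : ℝ) : ℝ :=
  ∑ p ∈ (Finset.Ioc ⌊x⌋₊ ⌊y⌋₊).filter (fun p : ℕ => p.Prime ∧ (p : ZMod q) = a), Real.log p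

theorem bpr_sqrt (K : ℝ) (η : ℝ) (hη : 0 < η) :
    Tendsto (fun P : ℝ => K * Real.sqrt ((1 + η) * P) / P) atTop (𝓝 0) := by
  have h1 : Tendsto (fun P : ℝ => (K * Real.sqrt (1 + η)) * (Real.sqrt P)⁻¹) atTop (𝓝 0) := by
    have h2 : Tendsto (fun P : ℝ => (Real.sqrt P)⁻¹) atTop (𝓝 0) :=
      tendsto_inv_atTop_zero.comp Real.tendsto_sqrt_atTop
    have h3 := h2.const_mul (K * Real.sqrt (1 + η))
    rwa [mul_zero] at h3
  refine h1.congr' ?_
  filter_upwards [eventually_gt_atTop (0 : ℝ)] with P hP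
  rw [Real.sqrt_mul (by linarith), mul_div_assoc, mul_div_assoc, Real.sqrt_div_self, mul_assoc]

open ArithmeticFunction in
theorem bpr_lim {q : ℕ} [NeZero q] {a : ZMod q} (ha : IsUnit a) {η : ℝ} (hη : 0 < η) :
    Tendsto (fun P : ℝ => bprT q a P ((1 + η) * P) / P) atTop (𝓝 (η * (q.totient : ℝ)⁻¹)) := by
  have h := Pool.Agent.Lib_helper90.PNT.pnt_residueClass ha
  set φ : ℝ := (q.totient : ℝ)⁻¹ with hφ
  set R : ℕ → ℝ := vonMangoldt.residueClass a with hR
  set A : ℝ → ℝ := fun x => ∑ k ∈ Finset.Icc 1 ⌊x⌋₊, R k with hA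
  obtain ⟨C, hC⟩ := Chebyshev.psi_sub_theta_le_mul_sqrt
  have h1 : Tendsto (fun P : ℝ => A ((1 + η) * P) / P) atTop (𝓝 ((1 + η) * φ)) := by
    have h2 : Tendsto (fun P : ℝ => (1 + η) * P) atTop atTop :=
      tendsto_id.const_mul_atTop (by linarith)
    have h3 := (h.comp h2).const_mul (1 + η)
    refine h3.congr' ?_
    filter_upwards [eventually_gt_atTop (0 : ℝ)] with P hP
    simp only [Function.comp]
    rw [hA]
    field_simp
  have h2 : Tendsto (fun P : ℝ => A ((1 + η) * P) / P - A P / P) atTop (𝓝 (η * φ)) := by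
    have := h1.sub h
    have e : (1 + η) * φ - φ = η * φ := by ring
    rwa [e] at this
  have h3 : Tendsto (fun P : ℝ => A ((1 + η) * P) / P - A P / P -
      C * Real.sqrt ((1 + η) * P) / P) atTop (𝓝 (η * φ)) := by
    have := h2.sub (bpr_sqrt C η hη)
    rwa [sub_zero] at this
  -- the key identity
  have key : ∀ t : ℝ, 1 ≤ t → bprT q a t ((1 + η) * t) ≤ A ((1 + η) * t) - A t ∧
      A ((1 + η) * t) - A t ≤ bprT q a t ((1 + η) * t) + C * Real.sqrt ((1 + η) * t) := by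
    intro t ht
    have hle : t ≤ (1 + η) * t := by nlinarith
    have hfl : ⌊t⌋₊ ≤ ⌊(1 + η) * t⌋₊ := Nat.floor_le_floor hle
    have hsplit : A ((1 + η) * t) - A t = ∑ k ∈ Finset.Ioc ⌊t⌋₊ ⌊(1 + η) * t⌋₊, R k := by
      simp only [hA]
      rw [sub_eq_iff_eq_add, ← Finset.sum_union]
      · apply Finset.sum_congr _ (fun _ _ => rfl)
        ext k
        simp only [Finset.mem_union, Finset.mem_Ioc, Finset.mem_Icc]
        omega
      · rw [Finset.disjoint_left]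
        intro k
        simp only [Finset.mem_Ioc, Finset.mem_Icc]
        omega
    rw [hsplit, ← Finset.sum_filter_add_sum_filter_not _ (fun k : ℕ => k.Prime)]
    have hp1 : ∑ k ∈ (Finset.Ioc ⌊t⌋₊ ⌊(1 + η) * t⌋₊).filter (fun k : ℕ => k.Prime), R k =
        bprT q a t ((1 + η) * t) := by
      unfold bprT
      have hsub : (Finset.Ioc ⌊t⌋₊ ⌊(1 + η) * t⌋₊).filter
          (fun p : ℕ => p.Prime ∧ (p : ZMod q) = a) ⊆
          (Finset.Ioc ⌊t⌋₊ ⌊(1 + η) * t⌋₊).filter (fun k : ℕ => k.Prime) := by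
        intro p hp
        rw [Finset.mem_filter] at hp ⊢
        exact ⟨hp.1, hp.2.1⟩
      rw [← Finset.sum_subset hsub]
      · apply Finset.sum_congr rfl
        intro p hp
        rw [Finset.mem_filter] at hp
        rw [hR]
        unfold vonMangoldt.residueClass
        rw [Set.indicator_of_mem]
        · exact vonMangoldt_apply_prime hp.2.1
        · exact hp.2.2
      · intro p hp hnp
        rw [Finset.mem_filter] at hp hnp
        rw [hR]
        unfold vonMangoldt.residueClass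
        rw [Set.indicator_of_notMem]
        intro hmem
        exact hnp ⟨hp.1, hp.2, hmem⟩
    have hp2 : ∑ k ∈ (Finset.Ioc ⌊t⌋₊ ⌊(1 + η) * t⌋₊).filter (fun k : ℕ => ¬ k.Prime), R k ≤
        C * Real.sqrt ((1 + η) * t) := by
      refine le_trans ?_ (hC ((1 + η) * t))
      rw [Chebyshev.psi_sub_theta_eq_sum_not_prime]
      refine le_trans (Finset.sum_le_sum (fun k _ => vonMangoldt.residueClass_le a k)) ?_
      apply Finset.sum_le_sum_of_subset_of_nonneg
      · intro k hk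
        simp only [Finset.mem_filter, Finset.mem_Ioc] at hk ⊢
        exact ⟨⟨by omega, hk.1.2⟩, hk.2⟩
      · intro k _ _
        exact vonMangoldt_nonneg
    have hp3 : 0 ≤ ∑ k ∈ (Finset.Ioc ⌊t⌋₊ ⌊(1 + η) * t⌋₊).filter (fun k : ℕ => ¬ k.Prime), R k :=
      Finset.sum_nonneg (fun k _ => vonMangoldt.residueClass_nonneg a k)
    rw [hp1]
    constructor <;> linarith
  refine tendsto_of_tendsto_of_tendsto_of_le_of_le' h3 h2 ?_ ?_
  · filter_upwards [eventually_ge_atTop (1 : ℝ)] with P hP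
    have hP0 : 0 < P := by linarith
    rw [← sub_div, ← sub_div]
    apply div_le_div_of_nonneg_right _ hP0.le
    linarith [(key P hP).2]
  · filter_upwards [eventually_ge_atTop (1 : ℝ)] with P hP
    have hP0 : 0 < P := by linarith
    rw [← sub_div]
    apply div_le_div_of_nonneg_right _ hP0.le
    exact (key P hP).1

theorem bpr_mem {η : ℝ} {P p : ℕ} : p ∈ QP η P ↔
    p.Prime ∧ p % 4 = 1 ∧ (P : ℝ) < (p : ℝ) ∧ (p : ℝ) ≤ (1 + η) * P := by
  classical
  unfold QP pr1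
  rw [Finset.mem_filter, Finset.mem_range]
  constructor
  · rintro ⟨-, h⟩; exact h
  · intro h
    refine ⟨?_, h⟩
    rw [Nat.lt_succ_iff]
    exact Nat.le_floor h.2.2.2

/-- bounds for a set of primes of a class, from above -/
theorem bpr_up {q : ℕ} {a : ZMod q} {η : ℝ} {P : ℕ} (hP : 2 ≤ P) {F : Finset ℕ}
    (hF : ∀ p ∈ F, p.Prime ∧ (p : ZMod q) = a ∧ (P : ℝ) < (p : ℝ) ∧ (p : ℝ) ≤ (1 + η) * P) :
    (F.card : ℝ) * Real.log P ≤ bprT q a P ((1 + η) * P) := by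
  have hP0 : (0 : ℝ) < P := by exact_mod_cast (by omega : 0 < P)
  have h1 : (F.card : ℝ) * Real.log P ≤ ∑ p ∈ F, Real.log p := by
    rw [← nsmul_eq_mul]
    apply Finset.card_nsmul_le_sum
    intro p hp
    exact Real.log_le_log hP0 (hF p hp).2.2.1.le
  refine h1.trans ?_
  unfold bprT
  apply Finset.sum_le_sum_of_subset_of_nonneg
  · intro p hp
    obtain ⟨a1, a2, a3, a4⟩ := hF p hp
    rw [Finset.mem_filter, Finset.mem_Ioc]
    exact ⟨⟨(Nat.floor_lt hP0.le).2 a3, Nat.le_floor a4⟩, a1, a2⟩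
  · intro p hp _
    rw [Finset.mem_filter] at hp
    exact Real.log_nonneg (by exact_mod_cast hp.2.1.one_lt.le)

/-- bound from below for the whole set -/
theorem bpr_low {η : ℝ} (hη : 0 < η) {P : ℕ} (hP : 2 ≤ P) :
    bprT 4 1 P ((1 + η) * P) ≤ ((QP η P).card : ℝ) * Real.log ((1 + η) * P) := by
  have hP0 : (0 : ℝ) < P := by exact_mod_cast (by omega : 0 < P)
  have hsub : (Finset.Ioc ⌊(P : ℝ)⌋₊ ⌊(1 + η) * (P : ℝ)⌋₊).filter
      (fun p : ℕ => p.Prime ∧ (p : ZMod 4) = 1) ⊆ QP η P := by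
    intro p hp
    rw [Finset.mem_filter, Finset.mem_Ioc] at hp
    rw [bpr_mem]
    refine ⟨hp.2.1, ?_, (Nat.floor_lt hP0.le).1 hp.1.1,
      (Nat.le_floor_iff (by positivity)).1 hp.1.2⟩
    have h5 : ((p : ℕ) : ZMod 4) = ((1 : ℕ) : ZMod 4) := by rw [hp.2.2]; simp
    rw [ZMod.natCast_eq_natCast_iff] at h5
    exact h5
  unfold bprT
  have h2 : ∑ p ∈ (Finset.Ioc ⌊(P : ℝ)⌋₊ ⌊(1 + η) * (P : ℝ)⌋₊).filter
      (fun p : ℕ => p.Prime ∧ (p : ZMod 4) = 1), Real.log p ≤ ∑ p ∈ QP η P, Real.log p := by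
    apply Finset.sum_le_sum_of_subset_of_nonneg hsub
    intro p hp _
    rw [bpr_mem] at hp
    exact Real.log_nonneg (by exact_mod_cast hp.1.one_lt.le)
  refine h2.trans ?_
  rw [← nsmul_eq_mul]
  apply Finset.sum_le_card_nsmul
  intro p hp
  rw [bpr_mem] at hp
  exact Real.log_le_log (by exact_mod_cast hp.1.pos) hp.2.2.2

/-- the asymptotics for `1 mod 4` -/
theorem bpr_four {η ε : ℝ} (hη : 0 < η) (hε : 0 < ε) : ∃ P₀ : ℕ, ∀ P : ℕ, P₀ ≤ P →
    (η / 2 - ε) * P ≤ bprT 4 1 P ((1 + η) * P) ∧ bprT 4 1 P ((1 + η) * P) ≤ (η / 2 + ε) * P := by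
  have h := bpr_lim (q := 4) (a := 1) isUnit_one hη
  have htot : ((Nat.totient 4 : ℕ) : ℝ)⁻¹ = 1 / 2 := by
    have : Nat.totient 4 = 2 := by decide
    rw [this]; norm_num
  rw [htot] at h
  have h2 := h.eventually (Ioo_mem_nhds (show η / 2 - ε < η * (1 / 2) by linarith)
    (show η * (1 / 2) < η / 2 + ε by linarith))
  have h3 := (h2.and (eventually_gt_atTop (0 : ℝ)))
  have h4 := tendsto_natCast_atTop_atTop.eventually h3
  obtain ⟨P₀, h5⟩ := eventually_atTop.1 h4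
  refine ⟨P₀, fun P hP => ?_⟩
  obtain ⟨h6, h7⟩ := h5 P hP
  rw [lt_div_iff₀ h7, div_lt_iff₀ h7] at h6
  exact ⟨h6.1.le, h6.2.le⟩

/-- the upper bound for all classes modulo `L` -/
theorem bpr_all (L : ℕ) [NeZero L] {η ε : ℝ} (hη : 0 < η) (hε : 0 < ε) : ∃ P₀ : ℕ, ∀ P : ℕ,
    P₀ ≤ P → ∀ a : ZMod L, IsUnit a →
      bprT L a P ((1 + η) * P) ≤ (η / (L.totient : ℝ) + ε) * P := by
  classical
  have h : ∀ a : ZMod L, ∀ᶠ P : ℕ in atTop, IsUnit a →
      bprT L a P ((1 + η) * P) ≤ (η / (L.totient : ℝ) + ε) * P := by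
    intro a
    by_cases ha : IsUnit a
    · have h := bpr_lim ha hη
      have h2 := h.eventually_lt_const (show η * (L.totient : ℝ)⁻¹ < η / (L.totient : ℝ) + ε by
        rw [div_eq_mul_inv]; linarith)
      have h3 := (h2.and (eventually_gt_atTop (0 : ℝ)))
      filter_upwards [tendsto_natCast_atTop_atTop.eventually h3] with P hP _
      obtain ⟨h6, h7⟩ := hP
      rw [div_lt_iff₀ h7] at h6
      exact h6.le
    · exact Eventually.of_forall (fun P h => absurd h ha)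
  have h2 : ∀ᶠ P : ℕ in atTop, ∀ a : ZMod L, IsUnit a →
      bprT L a P ((1 + η) * P) ≤ (η / (L.totient : ℝ) + ε) * P := eventually_all.2 h
  obtain ⟨P₀, h5⟩ := eventually_atTop.1 h2
  exact ⟨P₀, h5⟩

/-- logarithms -/
theorem bpr_log {κ : ℝ} (hκ : 0 < κ) : ∃ P₀ : ℕ, 3 ≤ P₀ ∧ ∀ P : ℕ, P₀ ≤ P → ∀ η : ℝ, 0 < η →
    η ≤ 1 → 1 ≤ Real.log P ∧ Real.log ((1 + η) * P) ≤ (1 + κ) * Real.log P := by
  have h1 : ∀ᶠ P : ℕ in atTop, max 1 (1 / κ) ≤ Real.log P :=
    (Real.tendsto_log_atTop.comp tendsto_natCast_atTop_atTop).eventually_ge_atTop _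
  obtain ⟨P₀, h2⟩ := eventually_atTop.1 h1
  refine ⟨max P₀ 3, le_max_right _ _, fun P hP η hη hη1 => ?_⟩
  have h3 := h2 P (le_trans (le_max_left _ _) hP)
  have hP3 : 3 ≤ P := le_trans (le_max_right _ _) hP
  have hP0 : (0 : ℝ) < P := by exact_mod_cast (by omega : 0 < P)
  have h4 : 1 ≤ Real.log P := le_trans (le_max_left _ _) h3
  have h5 : 1 / κ ≤ Real.log P := le_trans (le_max_right _ _) h3
  refine ⟨h4, ?_⟩
  rw [Real.log_mul (by linarith) hP0.ne']
  have h6 : Real.log (1 + η) ≤ 1 := by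
    have := Real.log_le_sub_one_of_pos (show 0 < 1 + η by linarith)
    linarith
  rw [div_le_iff₀ hκ] at h5
  linarith

theorem qp_lower_pr : ∃ c : ℝ, 0 < c ∧ ∀ η : ℝ, 0 < η → η ≤ 1 → ∃ P₀ : ℕ, ∀ P : ℕ, P₀ ≤ P →
    c * η * P / Real.log P ≤ ((QP η P).card : ℝ) := by
  refine ⟨1 / 8, by norm_num, fun η hη hη1 => ?_⟩
  obtain ⟨P₁, hP₁⟩ := bpr_four hη (show 0 < η / 4 by linarith)
  obtain ⟨P₂, hP₂3, hP₂⟩ := bpr_log (show (0 : ℝ) < 1 by norm_num)
  refine ⟨max P₁ P₂, fun P hP => ?_⟩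
  have h1 := (hP₁ P (le_trans (le_max_left _ _) hP)).1
  obtain ⟨h2, h3⟩ := hP₂ P (le_trans (le_max_right _ _) hP) η hη hη1
  have hP3 : 3 ≤ P := le_trans hP₂3 (le_trans (le_max_right _ _) hP)
  have h4 := bpr_low hη (show 2 ≤ P by omega)
  have hc : (0 : ℝ) ≤ ((QP η P).card : ℝ) := Nat.cast_nonneg _
  rw [div_le_iff₀ (by linarith)]
  have h5 : ((QP η P).card : ℝ) * Real.log ((1 + η) * P) ≤
      ((QP η P).card : ℝ) * ((1 + 1) * Real.log P) := mul_le_mul_of_nonneg_left h3 hc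
  linarith

theorem qp_upper_pr : ∃ C : ℝ, 1 ≤ C ∧ ∀ η : ℝ, 0 < η → η ≤ 1 → ∃ P₀ : ℕ, ∀ P : ℕ, P₀ ≤ P →
    ((QP η P).card : ℝ) ≤ C * η * P / Real.log P := by
  refine ⟨1, le_refl _, fun η hη hη1 => ?_⟩
  obtain ⟨P₁, hP₁⟩ := bpr_four hη (show 0 < η / 2 by linarith)
  obtain ⟨P₂, hP₂3, hP₂⟩ := bpr_log (show (0 : ℝ) < 1 by norm_num)
  refine ⟨max P₁ P₂, fun P hP => ?_⟩
  have h1 := (hP₁ P (le_trans (le_max_left _ _) hP)).2
  obtain ⟨h2, h3⟩ := hP₂ P (le_trans (le_max_right _ _) hP) η hη hη1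
  have hP3 : 3 ≤ P := le_trans hP₂3 (le_trans (le_max_right _ _) hP)
  rw [le_div_iff₀ (by linarith)]
  have h4 := bpr_up (q := 4) (a := 1) (show 2 ≤ P by omega) (F := QP η P) (fun p hp => by
    rw [bpr_mem] at hp
    refine ⟨hp.1, ?_, hp.2.2⟩
    have : ((p : ℕ) : ZMod 4) = ((1 : ℕ) : ZMod 4) := by
      rw [ZMod.natCast_eq_natCast_iff]; exact hp.2.1
    rw [this]; simp)
  linarith

open Classical in
theorem qp_class_pr (d : ℕ) (hd : 1 ≤ d) (η : ℝ) (hη : 0 < η) (hη1 : η ≤ 1) : ∃ P₀ : ℕ, ∀ P : ℕ,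
    P₀ ≤ P → ∀ c : ℤ, (((QP η P).filter (fun p : ℕ => (d : ℤ) ∣ (p : ℤ) - c)).card : ℝ) ≤
      3 / (Nat.totient d : ℝ) * (QP η P).card := by
  set L := Nat.lcm 4 d with hL
  have hL0 : L ≠ 0 := Nat.lcm_ne_zero (by norm_num) (by omega)
  have : NeZero L := ⟨hL0⟩
  have hφd : (0 : ℝ) < (Nat.totient d : ℝ) := by exact_mod_cast Nat.totient_pos.2 (by omega)
  have hφL : (Nat.totient d : ℝ) ≤ (Nat.totient L : ℝ) := by
    exact_mod_cast Nat.le_of_dvd (Nat.totient_pos.2 (Nat.pos_of_ne_zero hL0))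
      (Nat.totient_dvd_of_dvd (Nat.dvd_lcm_right 4 d))
  set ε := η / (20 * (Nat.totient d : ℝ)) with hε
  have hε0 : 0 < ε := by positivity
  obtain ⟨P₁, hP₁⟩ := bpr_all L hη hε0
  obtain ⟨P₂, hP₂⟩ := bpr_four hη (show 0 < η / 20 by linarith)
  obtain ⟨P₃, hP₃3, hP₃⟩ := bpr_log (show (0 : ℝ) < 1 / 5 by norm_num)
  refine ⟨max (max P₁ P₂) (max P₃ (L + 1)), fun P hP c => ?_⟩
  have hPa : P₁ ≤ P := le_trans (le_trans (le_max_left _ _) (le_max_left _ _)) hP
  have hPb : P₂ ≤ P := le_trans (le_trans (le_max_right _ _) (le_max_left _ _)) hP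
  have hPc : P₃ ≤ P := le_trans (le_trans (le_max_left _ _) (le_max_right _ _)) hP
  have hPd : L + 1 ≤ P := le_trans (le_trans (le_max_right _ _) (le_max_right _ _)) hP
  set F := (QP η P).filter (fun p : ℕ => (d : ℤ) ∣ (p : ℤ) - c) with hF
  have hc : (0 : ℝ) ≤ ((QP η P).card : ℝ) := Nat.cast_nonneg _
  rcases Finset.eq_empty_or_nonempty F with hFe | ⟨p₀, hp₀⟩
  · rw [hFe, Finset.card_empty, Nat.cast_zero]
    positivity
  · rw [hF, Finset.mem_filter, bpr_mem] at hp₀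
    have hcop : Nat.Coprime p₀ L := by
      rw [Nat.Prime.coprime_iff_not_dvd hp₀.1.1]
      intro hdvd
      have h1 := Nat.le_of_dvd (Nat.pos_of_ne_zero hL0) hdvd
      have h2 : P < p₀ := by exact_mod_cast hp₀.1.2.2.1
      omega
    have hunit : IsUnit (p₀ : ZMod L) := (ZMod.isUnit_iff_coprime p₀ L).2 hcop
    have h1 := hP₁ P hPa _ hunit
    have h2 := (hP₂ P hPb).1
    obtain ⟨h3, h4⟩ := hP₃ P hPc η hη hη1
    have hP2 : 2 ≤ P := by omega
    have h5 := bpr_low hη hP2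
    have h6 := bpr_up (q := L) (a := (p₀ : ZMod L)) hP2 (F := F) (fun p hp => by
      rw [hF, Finset.mem_filter, bpr_mem] at hp
      refine ⟨hp.1.1, ?_, hp.1.2.2⟩
      rw [ZMod.natCast_eq_natCast_iff]
      rw [hL]
      have e4 : p ≡ p₀ [MOD 4] := by
        unfold Nat.ModEq; rw [hp.1.2.1, hp₀.1.2.1]
      have ed : p ≡ p₀ [MOD d] := by
        rw [← Int.natCast_modEq_iff, Int.modEq_iff_dvd]
        have := dvd_sub hp₀.2 hp.2
        have e : ((p₀ : ℤ) - c) - ((p : ℤ) - c) = (p₀ : ℤ) - p := by ring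
        rwa [e] at this
      rw [← Int.natCast_modEq_iff, Int.modEq_iff_dvd] at e4 ed ⊢
      rw [Int.natCast_dvd] at e4 ed ⊢
      exact Nat.lcm_dvd e4 ed)
    -- `N log P ≤ (η/φ(L) + ε) P`, `(η/2 - η/20) P ≤ |Q| (6/5) log P`
    have hP0 : (0 : ℝ) < P := by exact_mod_cast (by omega : 0 < P)
    have h7 : (F.card : ℝ) * Real.log P ≤ (21 / 20) * (η / (Nat.totient d : ℝ)) * P := by
      have h8 : η / (L.totient : ℝ) ≤ η / (d.totient : ℝ) :=
        div_le_div_of_nonneg_left hη.le hφd hφL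
      have h9 : ε = (1 / 20) * (η / (Nat.totient d : ℝ)) := by
        rw [hε]; field_simp
      calc (F.card : ℝ) * Real.log P ≤ (η / (L.totient : ℝ) + ε) * P := h6.trans h1
        _ ≤ (η / (d.totient : ℝ) + ε) * P := by gcongr
        _ = _ := by rw [h9]; ring
    have h10 : (9 / 20) * η * P ≤ ((QP η P).card : ℝ) * ((6 / 5) * Real.log P) := by
      have h11 : ((QP η P).card : ℝ) * Real.log ((1 + η) * P) ≤
          ((QP η P).card : ℝ) * ((1 + 1 / 5) * Real.log P) := mul_le_mul_of_nonneg_left h4 hc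
      have h12 : (η / 2 - η / 20) * P = (9 / 20) * η * P := by ring
      rw [h12] at h2
      have h13 : ((QP η P).card : ℝ) * ((1 + 1 / 5) * Real.log P) =
          ((QP η P).card : ℝ) * ((6 / 5) * Real.log P) := by ring
      linarith
    have hlog : 0 < Real.log P := by linarith
    have h14 : (F.card : ℝ) * Real.log P ≤
        (3 / (Nat.totient d : ℝ) * (QP η P).card) * Real.log P := by
      have h15 : η * P ≤ (8 / 3) * (((QP η P).card : ℝ) * Real.log P) := by linarith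
      calc (F.card : ℝ) * Real.log P ≤ (21 / 20) * (η / (Nat.totient d : ℝ)) * P := h7
        _ = (21 / 20) / (Nat.totient d : ℝ) * (η * P) := by ring
        _ ≤ (21 / 20) / (Nat.totient d : ℝ) * ((8 / 3) * (((QP η P).card : ℝ) * Real.log P)) :=
            mul_le_mul_of_nonneg_left h15 (by positivity)
        _ = (14 / 5) / (Nat.totient d : ℝ) * (((QP η P).card : ℝ) * Real.log P) := by ring
        _ ≤ 3 / (Nat.totient d : ℝ) * (((QP η P).card : ℝ) * Real.log P) := by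
            apply mul_le_mul_of_nonneg_right _ (by positivity)
            apply div_le_div_of_nonneg_right (by norm_num) hφd.le
        _ = _ := by ring
    exact le_of_mul_le_mul_right h14 hlog

end Pool.Agent.T2


namespace Pool.Agent.T2

theorem qp_lower : type_of% @qp_lower_pr := @qp_lower_pr
theorem qp_upper : type_of% @qp_upper_pr := @qp_upper_pr
theorem qp_class : type_of% @qp_class_pr := @qp_class_pr

end Pool.Agent.T2
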