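import Pool.Agent.Lib_helper10.T2.Defs
import Pool.Agent.Lib_helper39.T2X.EXL3
import Pool.Agent.Lib_helper39.T2X.EXL4
import Pool.Agent.Lib_helper10.T2F.BAS

/-! T2, block EXW (helper34). Line sums by Weyl differencing (theorems abs_test, root_excl, split_sum
of helper44), small frequencies by comparison with the integral over the disc. -/

/-! T2, block EXW, part 1: small frequencies (comparison with the integral over the disc) -/

namespace Pool.Agent.T2

section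

open Filter Topology MeasureTheory

/-- the angular character on the plane -/
noncomputable def exwA (k : ℤ) (w : ℂ) : ℂ := (w / (‖w‖ : ℂ)) ^ k

theorem exwA_ang (k : ℤ) (z : G) : ang k z = exwA k (z : ℂ) := rfl

theorem exw_unit_norm {w : ℂ} (hw : w ≠ 0) : ‖w / (‖w‖ : ℂ)‖ = 1 := by
  have h : ‖w‖ ≠ 0 := norm_ne_zero_iff.2 hw
  rw [norm_div, Complex.norm_real, norm_norm, div_self h]

theorem exwA_norm {k : ℤ} {w : ℂ} (hw : w ≠ 0) : ‖exwA k w‖ = 1 := by
  rw [exwA, norm_zpow, exw_unit_norm hw, one_zpow]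

theorem exwA_zero {k : ℤ} (hk : k ≠ 0) : exwA k 0 = 0 := by
  rw [exwA, zero_div, zero_zpow k hk]

theorem exwA_le {k : ℤ} (hk : k ≠ 0) (w : ℂ) : ‖exwA k w‖ ≤ 1 := by
  rcases eq_or_ne w 0 with rfl | hw
  · rw [exwA_zero hk]; simp
  · exact (exwA_norm hw).le

theorem exwA_meas (k : ℤ) : Measurable (exwA k) := by
  unfold exwA
  apply Measurable.pow_const
  exact measurable_id.div (Complex.measurable_ofReal.comp measurable_norm)

/-- powers of unit complex numbers -/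
theorem exw_pow_sub {a b : ℂ} (ha : ‖a‖ = 1) (hb : ‖b‖ = 1) (n : ℕ) :
    ‖a ^ n - b ^ n‖ ≤ n * ‖a - b‖ := by
  induction n with
  | zero => simp
  | succ n ih =>
    have h : a ^ (n + 1) - b ^ (n + 1) = a ^ n * (a - b) + (a ^ n - b ^ n) * b := by ring
    rw [h]
    refine (norm_add_le _ _).trans ?_
    rw [norm_mul, norm_mul, norm_pow, ha, hb, one_pow, one_mul, mul_one]
    push_cast
    linarith

theorem exw_zpow_sub {a b : ℂ} (ha : ‖a‖ = 1) (hb : ‖b‖ = 1) (k : ℤ) :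
    ‖a ^ k - b ^ k‖ ≤ |(k : ℝ)| * ‖a - b‖ := by
  rcases Int.natAbs_eq k with h | h
  · rw [h, zpow_natCast, zpow_natCast]
    have := exw_pow_sub ha hb k.natAbs
    have e : |((k.natAbs : ℤ) : ℝ)| = (k.natAbs : ℝ) := by simp
    rw [e]; exact this
  · have ha0 : a ≠ 0 := by intro h; rw [h] at ha; simp at ha
    have hb0 : b ≠ 0 := by intro h; rw [h] at hb; simp at hb
    rw [h, zpow_neg, zpow_neg, zpow_natCast, zpow_natCast]
    have e : |((-(k.natAbs : ℤ) : ℤ) : ℝ)| = (k.natAbs : ℝ) := by simp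
    rw [e]
    have h1 : (a ^ k.natAbs)⁻¹ - (b ^ k.natAbs)⁻¹ =
        (b ^ k.natAbs - a ^ k.natAbs) * ((a ^ k.natAbs)⁻¹ * (b ^ k.natAbs)⁻¹) := by
      have h2 : a ^ k.natAbs ≠ 0 := pow_ne_zero _ ha0
      have h3 : b ^ k.natAbs ≠ 0 := pow_ne_zero _ hb0
      field_simp
    rw [h1, norm_mul, norm_mul, norm_inv, norm_inv, norm_pow, norm_pow, ha, hb]
    simp only [one_pow, inv_one, mul_one]
    rw [norm_sub_rev]
    exact exw_pow_sub ha hb _

theorem exw_dir_sub {z w : ℂ} (hz : z ≠ 0) (hw : w ≠ 0) :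
    ‖z / (‖z‖ : ℂ) - w / (‖w‖ : ℂ)‖ ≤ 2 * ‖z - w‖ / ‖z‖ := by
  have hz0 : 0 < ‖z‖ := norm_pos_iff.2 hz
  have hw0 : 0 < ‖w‖ := norm_pos_iff.2 hw
  have hzc : (‖z‖ : ℂ) ≠ 0 := by exact_mod_cast hz0.ne'
  have hwc : (‖w‖ : ℂ) ≠ 0 := by exact_mod_cast hw0.ne'
  have h : z / (‖z‖ : ℂ) - w / (‖w‖ : ℂ) =
      ((z - w) + (w / (‖w‖ : ℂ)) * ((‖w‖ - ‖z‖ : ℝ) : ℂ)) / (‖z‖ : ℂ) := by
    push_cast
    field_simp
    ring
  rw [h, norm_div, Complex.norm_real, norm_norm]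
  apply div_le_div_of_nonneg_right _ hz0.le
  refine (norm_add_le _ _).trans ?_
  rw [norm_mul, exw_unit_norm hw, one_mul, Complex.norm_real, Real.norm_eq_abs]
  have := abs_norm_sub_norm_le w z
  rw [norm_sub_rev] at this
  linarith

theorem exwA_sub {k : ℤ} {z w : ℂ} (hz : z ≠ 0) (hw : w ≠ 0) :
    ‖exwA k z - exwA k w‖ ≤ |(k : ℝ)| * (2 * ‖z - w‖ / ‖z‖) :=
  (exw_zpow_sub (exw_unit_norm hz) (exw_unit_norm hw) k).trans
    (mul_le_mul_of_nonneg_left (exw_dir_sub hz hw) (abs_nonneg _))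

/-- the integral over a disc -/
theorem exwA_int {k : ℤ} (hk : k ≠ 0) (R : ℝ) :
    ∫ w in Metric.closedBall (0 : ℂ) R, exwA k w = 0 := by
  set t : ℝ := Real.pi / k with ht
  set a : ℂ := Complex.exp (t * Complex.I) with ha
  have ha1 : ‖a‖ = 1 := Complex.norm_exp_ofReal_mul_I t
  have ha0 : a ≠ 0 := Complex.exp_ne_zero _
  have hkc : (k : ℂ) ≠ 0 := by exact_mod_cast hk
  have hak : a ^ k = -1 := by
    rw [ha, ← Complex.exp_int_mul, ht]
    push_cast
    rw [show (k : ℂ) * (Real.pi / k * Complex.I) = Real.pi * Complex.I by field_simp]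
    exact Complex.exp_pi_mul_I
  have hfun : ∀ w : ℂ, exwA k (a * w) = - exwA k w := by
    intro w
    rw [exwA, exwA, norm_mul, ha1, one_mul, mul_div_assoc, mul_zpow, hak]
    ring
  let c : Circle := ⟨a, mem_sphere_zero_iff_norm.2 ha1⟩
  have hmp : MeasurePreserving (fun w : ℂ => a * w) volume volume := by
    have := (rotation c).measurePreserving
    exact this
  have hemb : MeasurableEmbedding (fun w : ℂ => a * w) := by
    have := (rotation c).toHomeomorph.measurableEmbedding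
    exact this
  have hpre : (fun w : ℂ => a * w) ⁻¹' Metric.closedBall (0 : ℂ) R =
      Metric.closedBall (0 : ℂ) R := by
    ext w
    simp [ha1]
  have h1 := hmp.setIntegral_preimage_emb hemb (exwA k) (Metric.closedBall (0 : ℂ) R)
  rw [hpre] at h1
  have h2 : ∫ w in Metric.closedBall (0 : ℂ) R, exwA k (a * w) =
      - ∫ w in Metric.closedBall (0 : ℂ) R, exwA k w := by
    simp_rw [hfun]
    rw [integral_neg]
  rw [h2] at h1
  have h3 : (2 : ℂ) * ∫ w in Metric.closedBall (0 : ℂ) R, exwA k w = 0 := by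
    linear_combination (-1 : ℂ) * h1
  rcases mul_eq_zero.1 h3 with h | h
  · norm_num at h
  · exact h

end

end Pool.Agent.T2

/-! T2, block EXW, part 2: small frequencies, cells -/

namespace Pool.Agent.T2

section

open Filter Topology MeasureTheory

theorem exw_dvd (m : ℕ) (z : G) : (m : G) ∣ z ↔ (m : ℤ) ∣ z.re ∧ (m : ℤ) ∣ z.im := by
  have : (m : G) = ((m : ℤ) : G) := by push_cast; rfl
  rw [this, Zsqrtd.intCast_dvd]

theorem exw_toC (z : G) : ((z : ℂ).re = z.re) ∧ ((z : ℂ).im = z.im) :=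
  ⟨(GaussianInt.intCast_re z).symm, (GaussianInt.intCast_im z).symm⟩

theorem exw_norm_sq (z : G) : ‖(z : ℂ)‖ ^ 2 = (z.re : ℝ) ^ 2 + (z.im : ℝ) ^ 2 := by
  rw [Complex.sq_norm, Complex.normSq_apply, (exw_toC z).1, (exw_toC z).2]
  ring

theorem exw_nn (z : G) : (nn z : ℝ) = (z.re : ℝ) ^ 2 + (z.im : ℝ) ^ 2 := by
  rw [nn_norm, exw_norm_sq]

theorem exw_one_le {z : G} (hz : z ≠ 0) : 1 ≤ ‖(z : ℂ)‖ := by
  have h1 : 0 < nn z := nn_pos.2 hz
  have h2 : (1 : ℝ) ≤ nn z := by exact_mod_cast h1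
  rw [nn_norm] at h2
  have h3 := norm_nonneg (z : ℂ)
  nlinarith

/-- a crude bound for the number of elements -/
theorem exw_card {x : ℝ} (hx : 1 ≤ x) : ((Bl x).card : ℝ) ≤ 9 * x := by
  set M : ℕ := ⌊Real.sqrt x⌋₊ with hM
  have hs0 : 0 ≤ Real.sqrt x := Real.sqrt_nonneg x
  have hs1 : 1 ≤ Real.sqrt x := Real.one_le_sqrt.2 hx
  have hss : Real.sqrt x ^ 2 = x := Real.sq_sqrt (by linarith)
  have hMle : (M : ℝ) ≤ Real.sqrt x := Nat.floor_le hs0
  have hsub : Bl x ⊆ box M := by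
    intro z hz
    obtain ⟨hz0, hzx⟩ := mem_Bl.1 hz
    rw [exw_nn] at hzx
    have key : ∀ a : ℤ, (a : ℝ) ^ 2 ≤ x → -(M : ℤ) ≤ a ∧ a ≤ M := by
      intro a ha
      have h1 : |(a : ℝ)| ≤ Real.sqrt x := Real.abs_le_sqrt ha
      have h2 : ((a.natAbs : ℕ) : ℝ) ≤ Real.sqrt x := by
        rw [Nat.cast_natAbs, Int.cast_abs]; exact h1
      have h3 : a.natAbs ≤ M := Nat.le_floor h2
      omega
    have h1 := key z.re (by nlinarith [sq_nonneg (z.im : ℝ)])
    have h2 := key z.im (by nlinarith [sq_nonneg (z.re : ℝ)])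
    rw [box, Finset.mem_map]
    refine ⟨(z.re, z.im), ?_, rfl⟩
    rw [Finset.mem_product, Finset.mem_Icc, Finset.mem_Icc]
    exact ⟨h1, h2⟩
  have h1 : (Bl x).card ≤ (box M).card := Finset.card_le_card hsub
  have h2 : (box M).card = (2 * M + 1) * (2 * M + 1) := by
    rw [box, Finset.card_map, Finset.card_product, Int.card_Icc]
    have : (((M : ℤ) + 1 - -(M : ℤ)).toNat) = 2 * M + 1 := by omega
    rw [this]
  have h3 : ((Bl x).card : ℝ) ≤ (2 * M + 1) * (2 * M + 1) := by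
    rw [h2] at h1; exact_mod_cast h1
  refine h3.trans ?_
  have h4 : (2 * (M : ℝ) + 1) ≤ 3 * Real.sqrt x := by linarith
  have h5 : (0 : ℝ) ≤ 2 * (M : ℝ) + 1 := by positivity
  calc (2 * (M : ℝ) + 1) * (2 * M + 1) ≤ (3 * Real.sqrt x) * (3 * Real.sqrt x) := by gcongr
    _ = 9 * x := by rw [← hss]; ring_nf; rw [Real.sqrt_sq (by positivity)]

/-- cells -/
def exwQ (m : ℕ) (z : G) : Set ℂ :=
  {w | ((z.re : ℝ) ≤ w.re ∧ w.re < z.re + m) ∧ ((z.im : ℝ) ≤ w.im ∧ w.im < z.im + m)}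

theorem exwQ_eq (m : ℕ) (z : G) : exwQ m z = Complex.measurableEquivRealProd ⁻¹'
    (Set.Ico (z.re : ℝ) (z.re + m) ×ˢ Set.Ico (z.im : ℝ) (z.im + m)) := by
  ext w
  simp [exwQ, Complex.measurableEquivRealProd_apply]

theorem exwQ_meas (m : ℕ) (z : G) : MeasurableSet (exwQ m z) := by
  rw [exwQ_eq]
  exact Complex.measurableEquivRealProd.measurable (measurableSet_Ico.prod measurableSet_Ico)

theorem exwQ_vol (m : ℕ) (z : G) : volume (exwQ m z) = ENNReal.ofReal ((m : ℝ) ^ 2) := by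
  rw [exwQ_eq, Complex.volume_preserving_equiv_real_prod.measure_preimage
    (measurableSet_Ico.prod measurableSet_Ico).nullMeasurableSet, Measure.volume_eq_prod,
    Measure.prod_prod, Real.volume_Ico, Real.volume_Ico, ← ENNReal.ofReal_mul (by simp)]
  congr 1
  ring

theorem exwQ_real (m : ℕ) (z : G) : volume.real (exwQ m z) = (m : ℝ) ^ 2 := by
  rw [Measure.real, exwQ_vol, ENNReal.toReal_ofReal (by positivity)]

theorem exwQ_dist {m : ℕ} {z : G} {w : ℂ} (h : w ∈ exwQ m z) : ‖(z : ℂ) - w‖ ≤ 2 * m := by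
  obtain ⟨⟨h1, h2⟩, h3, h4⟩ := h
  have h5 := Complex.norm_le_abs_re_add_abs_im ((z : ℂ) - w)
  rw [Complex.sub_re, Complex.sub_im, (exw_toC z).1, (exw_toC z).2] at h5
  have h6 : |(z.re : ℝ) - w.re| ≤ m := by rw [abs_le]; constructor <;> linarith
  have h7 : |(z.im : ℝ) - w.im| ≤ m := by rw [abs_le]; constructor <;> linarith
  linarith

theorem exwQ_disj {m : ℕ} {c z z' : G} (h : (m : G) ∣ z - c) (h' : (m : G) ∣ z' - c) {w : ℂ}
    (hw : w ∈ exwQ m z) (hw' : w ∈ exwQ m z') : z = z' := by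
  obtain ⟨⟨h1, h2⟩, h3, h4⟩ := hw
  obtain ⟨⟨h1', h2'⟩, h3', h4'⟩ := hw'
  have hd : (m : G) ∣ z - z' := by
    have := dvd_sub h h'
    rwa [sub_sub_sub_cancel_right] at this
  rw [exw_dvd] at hd
  have key : ∀ a b : ℤ, (m : ℤ) ∣ a - b → ((a : ℝ) < b + m) → ((b : ℝ) < a + m) → a = b := by
    intro a b hab h5 h6
    have h7 : a < b + m := by exact_mod_cast h5
    have h8 : b < a + m := by exact_mod_cast h6
    have h9 : a - b = 0 := Int.eq_zero_of_abs_lt_dvd hab (by rw [abs_lt]; constructor <;> omega)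
    omega
  have e1 := key z.re z'.re (by simpa using hd.1) (by linarith) (by linarith)
  have e2 := key z.im z'.im (by simpa using hd.2) (by linarith) (by linarith)
  exact Zsqrtd.ext e1 e2

theorem exwQ_cover {m : ℕ} (hm : 1 ≤ m) (c : G) (w : ℂ) :
    ∃ z : G, (m : G) ∣ z - c ∧ w ∈ exwQ m z := by
  have hm0 : (0 : ℝ) < m := by exact_mod_cast hm
  set a : ℤ := ⌊(w.re - c.re) / m⌋ with ha
  set b : ℤ := ⌊(w.im - c.im) / m⌋ with hb
  have ha1 : (a : ℝ) ≤ (w.re - c.re) / m := Int.floor_le _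
  have ha2 : (w.re - c.re) / m < a + 1 := Int.lt_floor_add_one _
  have hb1 : (b : ℝ) ≤ (w.im - c.im) / m := Int.floor_le _
  have hb2 : (w.im - c.im) / m < b + 1 := Int.lt_floor_add_one _
  rw [le_div_iff₀ hm0] at ha1 hb1
  rw [div_lt_iff₀ hm0] at ha2 hb2
  refine ⟨⟨c.re + m * a, c.im + m * b⟩, ?_, ?_⟩
  · rw [exw_dvd]
    simp
  · refine ⟨⟨?_, ?_⟩, ?_, ?_⟩ <;> push_cast <;> nlinarith

theorem exwA_intOn {k : ℤ} (hk : k ≠ 0) {s : Set ℂ} (hs : volume s ≠ ⊤) :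
    IntegrableOn (exwA k) s := by
  apply Measure.integrableOn_of_bounded (M := 1) hs (exwA_meas k).aestronglyMeasurable
  exact Filter.Eventually.of_forall fun w => exwA_le hk w

theorem exw_cell {m : ℕ} {k : ℤ} (hk : k ≠ 0) {z : G} (hz : z ≠ 0) :
    ‖(m : ℂ) ^ 2 * exwA k z - ∫ w in exwQ m z, exwA k w‖ ≤
      |(k : ℝ)| * (8 * m / ‖(z : ℂ)‖) * (m : ℝ) ^ 2 := by
  have hz1 := exw_one_le hz
  have hzc : (z : ℂ) ≠ 0 := by intro h; rw [h, norm_zero] at hz1; linarith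
  have hk1 : 1 ≤ |(k : ℝ)| := by
    have : 1 ≤ |k| := Int.one_le_abs hk
    exact_mod_cast this
  have hvt : volume (exwQ m z) ≠ ⊤ := by rw [exwQ_vol]; exact ENNReal.ofReal_ne_top
  have h1 : (m : ℂ) ^ 2 * exwA k z - ∫ w in exwQ m z, exwA k w =
      ∫ w in exwQ m z, (exwA k z - exwA k w) := by
    have hc : IntegrableOn (fun _ : ℂ => exwA k (z : ℂ)) (exwQ m z) volume :=
      integrableOn_const hvt (by simp)
    rw [integral_sub hc (exwA_intOn hk hvt), setIntegral_const,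
      exwQ_real, Complex.real_smul]
    push_cast
    rfl
  rw [h1, ← exwQ_real m z]
  apply norm_setIntegral_le_of_norm_le_const hvt.lt_top
  intro w hw
  have hd := exwQ_dist hw
  rcases le_or_gt ‖(z : ℂ)‖ (4 * m) with h | h
  · have h2 : ‖exwA k z - exwA k w‖ ≤ 2 := by
      refine (norm_sub_le _ _).trans ?_
      have := exwA_le hk (z : ℂ)
      have := exwA_le hk w
      linarith
    have h3 : 2 ≤ 8 * (m : ℝ) / ‖(z : ℂ)‖ := by
      rw [le_div_iff₀ (by linarith)]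
      linarith
    have h4 : (0 : ℝ) ≤ 8 * (m : ℝ) / ‖(z : ℂ)‖ := by positivity
    nlinarith
  · have hw0 : w ≠ 0 := by
      intro h5
      rw [h5, sub_zero] at hd
      have : (0 : ℝ) ≤ m := by positivity
      linarith
    refine (exwA_sub hzc hw0).trans ?_
    apply mul_le_mul_of_nonneg_left _ (abs_nonneg _)
    apply div_le_div_of_nonneg_right _ (by linarith)
    have : (0 : ℝ) ≤ m := by positivity
    linarith

theorem exw_recip {x : ℝ} (hx : 1 ≤ x) :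
    ∑ z ∈ Bl x, 1 / ‖(z : ℂ)‖ ≤ 18 * x ^ (3 / 4 : ℝ) := by
  classical
  have hx0 : 0 < x := by linarith
  have hs1 : 1 ≤ Real.sqrt x := Real.one_le_sqrt.2 hx
  rw [← Finset.sum_filter_add_sum_filter_not (Bl x) (fun z => (nn z : ℝ) ≤ Real.sqrt x)]
  have h1 : ∑ z ∈ (Bl x).filter (fun z => (nn z : ℝ) ≤ Real.sqrt x), 1 / ‖(z : ℂ)‖ ≤
      9 * Real.sqrt x := by
    have hsub : (Bl x).filter (fun z => (nn z : ℝ) ≤ Real.sqrt x) ⊆ Bl (Real.sqrt x) := by
      intro z hz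
      rw [Finset.mem_filter] at hz
      exact mem_Bl.2 ⟨(mem_Bl.1 hz.1).1, hz.2⟩
    refine (Finset.sum_le_sum_of_subset_of_nonneg hsub fun _ _ _ => by positivity).trans ?_
    refine le_trans ?_ (exw_card hs1)
    have : ∑ z ∈ Bl (Real.sqrt x), 1 / ‖(z : ℂ)‖ ≤ ∑ z ∈ Bl (Real.sqrt x), (1 : ℝ) := by
      apply Finset.sum_le_sum
      intro z hz
      have := exw_one_le (mem_Bl.1 hz).1
      rw [div_le_one (by linarith)]
      exact this
    refine this.trans ?_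
    simp
  have h2 : ∑ z ∈ (Bl x).filter (fun z => ¬ (nn z : ℝ) ≤ Real.sqrt x), 1 / ‖(z : ℂ)‖ ≤
      9 * x ^ (3 / 4 : ℝ) := by
    have h3 : ∀ z ∈ (Bl x).filter (fun z => ¬ (nn z : ℝ) ≤ Real.sqrt x),
        1 / ‖(z : ℂ)‖ ≤ x ^ (-(1 / 4) : ℝ) := by
      intro z hz
      rw [Finset.mem_filter, not_le] at hz
      have hz1 := exw_one_le (mem_Bl.1 hz.1).1
      have h4 : x ^ (1 / 4 : ℝ) ≤ ‖(z : ℂ)‖ := by
        apply le_of_sq_le_sq _ (by positivity)
        rw [← nn_norm, ← Real.rpow_natCast, ← Real.rpow_mul hx0.le]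
        norm_num
        rw [← Real.sqrt_eq_rpow]
        exact hz.2.le
      rw [Real.rpow_neg hx0.le, ← one_div]
      apply one_div_le_one_div_of_le (by positivity) h4
    refine (Finset.sum_le_sum h3).trans ?_
    rw [Finset.sum_const, nsmul_eq_mul]
    have h5 : ((((Bl x).filter (fun z => ¬ (nn z : ℝ) ≤ Real.sqrt x)).card : ℕ) : ℝ) ≤ 9 * x := by
      refine le_trans ?_ (exw_card hx)
      exact_mod_cast Finset.card_filter_le _ _
    calc _ ≤ 9 * x * x ^ (-(1 / 4) : ℝ) := by gcongr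
      _ = 9 * x ^ (3 / 4 : ℝ) := by
        rw [mul_assoc]
        congr 1
        nth_rewrite 1 [← Real.rpow_one x]
        rw [← Real.rpow_add hx0]
        norm_num
  have h6 : Real.sqrt x ≤ x ^ (3 / 4 : ℝ) := by
    rw [Real.sqrt_eq_rpow]
    exact Real.rpow_le_rpow_of_exponent_le hx (by norm_num)
  linarith

end

end Pool.Agent.T2

/-! T2, block EXW, part 3: small frequencies -/

namespace Pool.Agent.T2

section

open Filter Topology MeasureTheory

/-- the annulus -/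
def exwN (s t : ℝ) : Set ℂ := Metric.closedBall (0 : ℂ) (s + t) \ Metric.closedBall (0 : ℂ) (s - t)

theorem exwN_real {s t : ℝ} (ht : 0 ≤ t) (hst : t ≤ s) :
    volume.real (exwN s t) = 4 * Real.pi * t * s ∧ volume (exwN s t) ≠ ⊤ := by
  have hb : ∀ r : ℝ, 0 ≤ r → volume.real (Metric.closedBall (0 : ℂ) r) = Real.pi * r ^ 2 := by
    intro r hr
    rw [Measure.real, Complex.volume_closedBall, ENNReal.toReal_mul, ENNReal.toReal_pow,
      ENNReal.toReal_ofReal hr]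
    simp [mul_comm]
  have hfin : ∀ r : ℝ, volume (Metric.closedBall (0 : ℂ) r) ≠ ⊤ := fun r =>
    (isCompact_closedBall _ _).measure_lt_top.ne
  refine ⟨?_, ?_⟩
  · rw [exwN, measureReal_sdiff (Metric.closedBall_subset_closedBall (by linarith))
      Metric.isClosed_closedBall.measurableSet (hfin _), hb _ (by linarith), hb _ (by linarith)]
    ring
  · exact ne_top_of_le_ne_top (hfin (s + t)) (measure_mono Set.sdiff_subset)

theorem exw_set_norm {k : ℤ} (hk : k ≠ 0) {s : Set ℂ} (hs : volume s ≠ ⊤) :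
    ‖∫ w in s, exwA k w‖ ≤ volume.real s := by
  have := norm_setIntegral_le_of_norm_le_const (f := exwA k) (C := 1) hs.lt_top
    (fun w _ => exwA_le hk w)
  rwa [one_mul] at this

open Classical in
theorem exw_small (m : ℕ) (hm : 1 ≤ m) {x : ℝ} (hx : 1 ≤ x) {k : ℤ} (hk : k ≠ 0) (c : G) :
    ‖∑ z ∈ (Bl x).filter (fun z => (m : G) ∣ z - c), ang k z‖ ≤
      (200 * m + 36 * m ^ 2) * |(k : ℝ)| * x ^ (3 / 4 : ℝ) := by
  set T : Finset G := (Bl x).filter (fun z => (m : G) ∣ z - c) with hT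
  set s : ℝ := Real.sqrt x with hs
  have hx0 : 0 < x := by linarith
  have hs1 : 1 ≤ s := Real.one_le_sqrt.2 hx
  have hss : s ^ 2 = x := Real.sq_sqrt hx0.le
  have hm1 : (1 : ℝ) ≤ m := by exact_mod_cast hm
  have hk1 : 1 ≤ |(k : ℝ)| := by
    have : 1 ≤ |k| := Int.one_le_abs hk
    exact_mod_cast this
  have hX1 : 1 ≤ x ^ (3 / 4 : ℝ) := Real.one_le_rpow hx (by norm_num)
  have hsX : s ≤ x ^ (3 / 4 : ℝ) := by
    rw [hs, Real.sqrt_eq_rpow]
    exact Real.rpow_le_rpow_of_exponent_le hx (by norm_num)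
  have hkX : x ^ (3 / 4 : ℝ) ≤ |(k : ℝ)| * x ^ (3 / 4 : ℝ) := by nlinarith
  have hkX1 : 1 ≤ |(k : ℝ)| * x ^ (3 / 4 : ℝ) := hX1.trans hkX
  rcases lt_or_ge s (2 * m) with hsm | hsm
  · have h1 : ‖∑ z ∈ T, ang k z‖ ≤ 9 * x := by
      refine (norm_sum_le _ _).trans ?_
      have : ∑ z ∈ T, ‖ang k z‖ ≤ ∑ z ∈ T, (1 : ℝ) :=
        Finset.sum_le_sum fun z _ => exwA_le hk _
      refine this.trans ?_
      rw [Finset.sum_const, nsmul_eq_mul, mul_one]
      refine le_trans ?_ (exw_card hx)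
      exact_mod_cast Finset.card_filter_le _ _
    have h2 : x ≤ 4 * (m : ℝ) ^ 2 := by rw [← hss]; nlinarith
    have h3 : (36 : ℝ) * m ^ 2 ≤ (200 * m + 36 * m ^ 2) * (|(k : ℝ)| * x ^ (3 / 4 : ℝ)) := by
      have : (36 : ℝ) * m ^ 2 * 1 ≤
          (200 * m + 36 * m ^ 2) * (|(k : ℝ)| * x ^ (3 / 4 : ℝ)) := by
        apply mul_le_mul _ hkX1 zero_le_one (by positivity)
        linarith
      linarith
    rw [mul_assoc]
    linarith
  · set U : Set ℂ := ⋃ z ∈ T, exwQ m z with hU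
    set D : Set ℂ := Metric.closedBall (0 : ℂ) s with hD
    have hvQ : ∀ z : G, volume (exwQ m z) ≠ ⊤ := fun z => by
      rw [exwQ_vol]; exact ENNReal.ofReal_ne_top
    have hDm : MeasurableSet D := Metric.isClosed_closedBall.measurableSet
    have hUm : MeasurableSet U := Finset.measurableSet_biUnion _ fun z _ => exwQ_meas m z
    have hDf : volume D ≠ ⊤ := (isCompact_closedBall _ _).measure_lt_top.ne
    have hUf : volume U ≠ ⊤ := by
      refine ne_top_of_le_ne_top ?_ (measure_biUnion_finset_le T (fun z => exwQ m z))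
      exact ENNReal.sum_ne_top.2 fun z _ => hvQ z
    -- the integral over U
    have hIU : ∫ w in U, exwA k w = ∑ z ∈ T, ∫ w in exwQ m z, exwA k w := by
      rw [hU]
      apply integral_biUnion_finset
      · intro z _; exact exwQ_meas m z
      · intro z hz z' hz' hne
        rw [Function.onFun, Set.disjoint_left]
        intro w hw hw'
        exact hne (exwQ_disj (Finset.mem_filter.1 hz).2 (Finset.mem_filter.1 hz').2 hw hw')
      · intro z _; exact exwA_intOn hk (hvQ z)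
    have hE1 : ‖(m : ℂ) ^ 2 * ∑ z ∈ T, ang k z - ∫ w in U, exwA k w‖ ≤
        144 * (m : ℝ) ^ 3 * (|(k : ℝ)| * x ^ (3 / 4 : ℝ)) := by
      rw [hIU, Finset.mul_sum, ← Finset.sum_sub_distrib]
      refine (norm_sum_le _ _).trans ?_
      have h1 : ∑ z ∈ T, ‖(m : ℂ) ^ 2 * ang k z - ∫ w in exwQ m z, exwA k w‖ ≤
          ∑ z ∈ T, 8 * (m : ℝ) ^ 3 * |(k : ℝ)| * (1 / ‖(z : ℂ)‖) := by
        apply Finset.sum_le_sum
        intro z hz
        have hz0 := (mem_Bl.1 (Finset.mem_filter.1 hz).1).1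
        refine (exw_cell hk hz0).trans (le_of_eq ?_)
        ring
      refine h1.trans ?_
      rw [← Finset.mul_sum]
      have h2 : ∑ z ∈ T, 1 / ‖(z : ℂ)‖ ≤ 18 * x ^ (3 / 4 : ℝ) := by
        refine le_trans ?_ (exw_recip hx)
        exact Finset.sum_le_sum_of_subset_of_nonneg (Finset.filter_subset _ _)
          fun _ _ _ => by positivity
      calc _ ≤ 8 * (m : ℝ) ^ 3 * |(k : ℝ)| * (18 * x ^ (3 / 4 : ℝ)) := by gcongr
        _ = _ := by ring
    have hint : ∀ S : Set ℂ, volume S ≠ ⊤ → IntegrableOn (exwA k) S := fun S h =>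
      exwA_intOn hk h
    have hsub1 : U \ D ⊆ exwN s (2 * m) := by
      rintro w ⟨hwU, hwD⟩
      rw [hU, Set.mem_iUnion₂] at hwU
      obtain ⟨z, hz, hwz⟩ := hwU
      have hzx := (mem_Bl.1 (Finset.mem_filter.1 hz).1).2
      have hzs : ‖(z : ℂ)‖ ≤ s := by
        apply le_of_sq_le_sq _ (by linarith)
        rw [← nn_norm, hss]; exact hzx
      have hd := exwQ_dist hwz
      have hw2 : ‖w‖ ≤ ‖(z : ℂ)‖ + ‖(z : ℂ) - w‖ := by
        have := norm_sub_le (z : ℂ) ((z : ℂ) - w)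
        rwa [sub_sub_cancel] at this
      rw [hD, mem_closedBall_zero_iff, not_le] at hwD
      refine ⟨?_, ?_⟩
      · rw [mem_closedBall_zero_iff]; linarith
      · rw [mem_closedBall_zero_iff, not_le]; linarith
    have hsub2 : D \ U ⊆ exwN s (2 * m) ∪ exwQ m 0 := by
      rintro w ⟨hwD, hwU⟩
      obtain ⟨z, hz, hwz⟩ := exwQ_cover hm c w
      rcases eq_or_ne z 0 with rfl | hz0
      · exact Or.inr hwz
      · left
        have hzT : z ∉ T := by
          intro h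
          apply hwU
          rw [hU, Set.mem_iUnion₂]
          exact ⟨z, h, hwz⟩
        have hzx : x < nn z := by
          by_contra h
          rw [not_lt] at h
          exact hzT (Finset.mem_filter.2 ⟨mem_Bl.2 ⟨hz0, h⟩, hz⟩)
        have hzs : s < ‖(z : ℂ)‖ := by
          rw [nn_norm] at hzx
          rw [hs, Real.sqrt_lt' (by
            rcases (norm_nonneg (z : ℂ)).eq_or_lt with h | h
            · rw [← h] at hzx; norm_num at hzx; linarith
            · exact h)]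
          exact hzx
        have hd := exwQ_dist hwz
        rw [hD, mem_closedBall_zero_iff] at hwD
        have hw2 : ‖(z : ℂ)‖ ≤ ‖(z : ℂ) - w‖ + ‖w‖ := by
          have := norm_add_le ((z : ℂ) - w) w
          rwa [sub_add_cancel] at this
        refine ⟨?_, ?_⟩
        · rw [mem_closedBall_zero_iff]; linarith
        · rw [mem_closedBall_zero_iff, not_le]; linarith
    obtain ⟨hN, hNf⟩ := exwN_real (s := s) (t := 2 * m) (by positivity) hsm
    have hv1 : volume.real (U \ D) ≤ 8 * Real.pi * m * s := by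
      refine (measureReal_mono hsub1 hNf).trans (le_of_eq ?_)
      rw [hN]; ring
    have hv2 : volume.real (D \ U) ≤ 8 * Real.pi * m * s + m ^ 2 := by
      have h1 : volume (exwN s (2 * m) ∪ exwQ m 0) ≠ ⊤ :=
        ne_top_of_le_ne_top (ENNReal.add_ne_top.2 ⟨hNf, hvQ 0⟩) (measure_union_le _ _)
      refine (measureReal_mono hsub2 h1).trans ?_
      refine (measureReal_union_le _ _).trans ?_
      rw [hN, exwQ_real]
      apply le_of_eq; ring
    have hE2 : ‖∫ w in U, exwA k w‖ ≤ 16 * Real.pi * m * s + m ^ 2 := by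
      have h1 : ∫ w in U, exwA k w = (∫ w in U ∩ D, exwA k w) + ∫ w in U \ D, exwA k w :=
        (integral_inter_add_sdiff hDm (hint U hUf)).symm
      have h2 : ∫ w in D, exwA k w = (∫ w in D ∩ U, exwA k w) + ∫ w in D \ U, exwA k w :=
        (integral_inter_add_sdiff hUm (hint D hDf)).symm
      rw [hD, exwA_int hk, ← hD, Set.inter_comm] at h2
      have h3 : ∫ w in U, exwA k w = (∫ w in U \ D, exwA k w) - ∫ w in D \ U, exwA k w := by
        rw [h1]
        linear_combination -h2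
      rw [h3]
      refine (norm_sub_le _ _).trans ?_
      have h4 := exw_set_norm hk (s := U \ D)
        (ne_top_of_le_ne_top hUf (measure_mono Set.sdiff_subset))
      have h5 := exw_set_norm hk (s := D \ U)
        (ne_top_of_le_ne_top hDf (measure_mono Set.sdiff_subset))
      linarith
    have hpi : Real.pi ≤ 3.15 := Real.pi_lt_d2.le
    have hpi0 : 0 < Real.pi := Real.pi_pos
    have hE3 : (m : ℝ) ^ 2 * ‖∑ z ∈ T, ang k z‖ ≤
        144 * (m : ℝ) ^ 3 * (|(k : ℝ)| * x ^ (3 / 4 : ℝ)) + (16 * Real.pi * m * s + m ^ 2) := by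
      have h1 : (m : ℝ) ^ 2 * ‖∑ z ∈ T, ang k z‖ = ‖(m : ℂ) ^ 2 * ∑ z ∈ T, ang k z‖ := by
        rw [norm_mul, norm_pow, Complex.norm_natCast]
      rw [h1]
      have h2 := norm_add_le ((m : ℂ) ^ 2 * ∑ z ∈ T, ang k z - ∫ w in U, exwA k w)
        (∫ w in U, exwA k w)
      rw [sub_add_cancel] at h2
      linarith
    set P : ℝ := |(k : ℝ)| * x ^ (3 / 4 : ℝ) with hP
    have hsP : s ≤ P := hsX.trans hkX
    have hP1 : 1 ≤ P := hkX1
    have hm2 : (0 : ℝ) < (m : ℝ) ^ 2 := by positivity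
    have hfin : (m : ℝ) ^ 2 * ‖∑ z ∈ T, ang k z‖ ≤
        (m : ℝ) ^ 2 * ((200 * m + 36 * m ^ 2) * P) := by
      refine hE3.trans ?_
      have h1 : 16 * Real.pi * m * s ≤ 52 * (m : ℝ) ^ 3 * P := by
        have h2 : 16 * Real.pi ≤ 52 := by linarith
        have h3 : (m : ℝ) ≤ (m : ℝ) ^ 3 := by nlinarith [sq_nonneg ((m : ℝ) - 1), mul_pos hm2 (lt_of_lt_of_le one_pos hm1)]
        calc 16 * Real.pi * m * s ≤ 52 * (m : ℝ) ^ 3 * P := by gcongr
          _ = _ := rfl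
      have h4 : (m : ℝ) ^ 2 ≤ (m : ℝ) ^ 3 * P := by
        have h5 : (m : ℝ) ^ 2 * 1 ≤ (m : ℝ) ^ 2 * (m * P) := by
          apply mul_le_mul_of_nonneg_left _ hm2.le
          nlinarith
        calc (m : ℝ) ^ 2 = (m : ℝ) ^ 2 * 1 := by ring
          _ ≤ (m : ℝ) ^ 2 * (m * P) := h5
          _ = _ := by ring
      have h6 : 0 ≤ (m : ℝ) ^ 3 * P := by positivity
      have h7 : 0 ≤ (m : ℝ) ^ 4 * P := by positivity
      nlinarith
    have := le_of_mul_le_mul_left hfin hm2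
    rw [mul_assoc]
    exact this

end

end Pool.Agent.T2

/-! T2, block EXW, part 4: the phase on a line and its derivatives -/

namespace Pool.Agent.T2

section

open Polynomial
open Pool.Agent.T2.EXL (ee ee_add ee_norm Up Up_der Up_coeff Up_eval_rec Up_upper
  root_excl split_sum abs_test Cw Cw_pos harm_bound S)

/-- the constant `1/(2π)` -/
noncomputable def exwK : ℝ := 1 / (2 * Real.pi)

theorem exwK_pos : 0 < exwK := by
  have := Real.pi_pos
  unfold exwK; positivity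

/-- the phase and its derivatives -/
noncomputable def exwF (k y : ℝ) : ℕ → ℝ → ℝ
  | 0, x => -(k * exwK) * Real.arctan (x / y)
  | (i + 1), x => (-1) ^ (i + 1) * (k * exwK * (i.factorial : ℝ) * y) *
      ((Up 0 (y ^ 2) (i + 1)).eval x / (x ^ 2 + y ^ 2) ^ (i + 1))

theorem exwF_der (k : ℝ) {y : ℝ} (hy : y ≠ 0) (i : ℕ) (x : ℝ) :
    HasDerivAt (exwF k y i) (exwF k y (i + 1) x) x := by
  have hy2 : 0 < y ^ 2 := by positivity
  have hpos : 0 < x ^ 2 + y ^ 2 := by positivity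
  cases i with
  | zero =>
    have h1 := (Real.hasDerivAt_arctan (x / y)).comp x ((hasDerivAt_id x).div_const y)
    have h2 := h1.const_mul (-(k * exwK))
    refine h2.congr_deriv ?_
    simp only [exwF, Up, Nat.factorial_zero, Nat.cast_one, mul_one, eval_one, zero_add, pow_one]
    have e : 1 + (x / y) ^ 2 = (x ^ 2 + y ^ 2) / y ^ 2 := by
      field_simp
      ring
    rw [e]
    field_simp
  | succ i =>
    have h1 : HasDerivAt (fun x => (Up 0 (y ^ 2) (i + 1)).eval x)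
        (((i : ℝ) + 1) * (Up 0 (y ^ 2) i).eval x) x := by
      have := (Up 0 (y ^ 2) (i + 1)).hasDerivAt x
      rw [(Up_der 0 (y ^ 2) i).1, eval_mul, eval_C] at this
      exact this
    have h2 : HasDerivAt (fun x : ℝ => x ^ 2 + y ^ 2) (2 * x) x := by
      have e1 : HasDerivAt (fun x : ℝ => x ^ 2) (2 * x) x := by
        simpa using hasDerivAt_pow 2 x
      exact e1.add_const _
    have h3 : HasDerivAt (fun x : ℝ => (x ^ 2 + y ^ 2) ^ (i + 1))
        (((i + 1 : ℕ) : ℝ) * (x ^ 2 + y ^ 2) ^ i * (2 * x)) x := by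
      have := h2.fun_pow (i + 1)
      simpa using this
    have h4 := (h1.div h3 (by positivity)).const_mul
      ((-1) ^ (i + 1) * (k * exwK * (i.factorial : ℝ) * y))
    refine h4.congr_deriv ?_
    simp only [exwF]
    rw [Up_eval_rec, Nat.factorial_succ]
    have e1 : x ^ 2 + (0 : ℝ) * x + y ^ 2 = x ^ 2 + y ^ 2 := by ring
    rw [e1]
    set N := x ^ 2 + y ^ 2 with hN
    set U0 := eval x (Up 0 (y ^ 2) i)
    set U1 := eval x (Up 0 (y ^ 2) (i + 1))
    have hN0 : N ≠ 0 := hpos.ne'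
    rw [show i + 1 + 1 = i + 2 from rfl]
    have e2 : (((i : ℝ) + 1) * U0 * N ^ (i + 1) -
        U1 * (((i + 1 : ℕ) : ℝ) * N ^ i * (2 * x))) / (N ^ (i + 1)) ^ 2 =
        -((i : ℝ) + 1) * (((2 * x + 0) * U1 - N * U0) / N ^ (i + 2)) := by
      rw [div_eq_iff (by positivity)]
      have : ((2 * x + 0) * U1 - N * U0) / N ^ (i + 2) * (N ^ (i + 1)) ^ 2 =
          ((2 * x + 0) * U1 - N * U0) * N ^ i := by
        rw [div_mul_eq_mul_div, div_eq_iff (by positivity)]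
        ring
      rw [mul_assoc (-((i : ℝ) + 1)), this]
      push_cast
      ring
    rw [e2]
    push_cast
    ring

/-- the constant in the upper bound -/
noncomputable def exwC (i : ℕ) : ℝ := exwK * (i.factorial : ℝ) * 4 ^ i * 2 ^ (i + 1)

theorem exwC_nonneg (i : ℕ) : 0 ≤ exwC i := by
  have := exwK_pos
  unfold exwC; positivity

theorem exwF_upper (k : ℝ) {y : ℝ} (hy : y ≠ 0) (i : ℕ) (x : ℝ) :
    |exwF k y (i + 1) x| ≤ |k| * exwC i / |y| ^ (i + 1) := by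
  have hκ := exwK_pos
  have hy0 : 0 < |y| := abs_pos.2 hy
  set s : ℝ := |x| + |y| with hs
  have hx0 := abs_nonneg x
  have hs0 : 0 < s := by positivity
  have hN : s ^ 2 / 2 ≤ x ^ 2 + y ^ 2 := by
    rw [hs, ← sq_abs x, ← sq_abs y]
    nlinarith [sq_nonneg (|x| - |y|)]
  have hN0 : 0 < x ^ 2 + y ^ 2 := lt_of_lt_of_le (by positivity) hN
  simp only [exwF]
  rw [abs_mul, abs_mul, abs_pow, abs_neg, abs_one, one_pow, one_mul, abs_div, abs_mul, abs_mul,
    abs_mul, abs_of_pos hκ, Nat.abs_cast, abs_pow, abs_of_pos hN0]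
  have h1 := (Up_upper 0 1 hy0 x i).1
  have e0 : Up (((0 : ℤ) : ℝ) * |y|) (((1 : ℤ) : ℝ) * |y| ^ 2) (i + 1) = Up 0 (y ^ 2) (i + 1) := by
    rw [Int.cast_zero, zero_mul, Int.cast_one, one_mul, sq_abs]
  rw [e0] at h1
  have e00 : (3 + 2 * |((0 : ℤ) : ℝ)| + |((1 : ℤ) : ℝ)|) = 4 := by norm_num
  rw [e00, ← hs] at h1
  have h2 : |(Up 0 (y ^ 2) (i + 1)).eval x| / (x ^ 2 + y ^ 2) ^ (i + 1) ≤
      (4 * s) ^ i / (s ^ 2 / 2) ^ (i + 1) := by
    apply div_le_div₀ (by positivity) h1 (by positivity)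
    exact pow_le_pow_left₀ (by positivity) hN _
  have h3 : (4 * s) ^ i / (s ^ 2 / 2) ^ (i + 1) = 4 ^ i * 2 ^ (i + 1) / s ^ (i + 2) := by
    rw [div_pow, div_div_eq_mul_div, div_eq_div_iff (by positivity) (by positivity)]
    ring
  calc |k| * exwK * (i.factorial : ℝ) * |y| *
        (|(Up 0 (y ^ 2) (i + 1)).eval x| / (x ^ 2 + y ^ 2) ^ (i + 1))
      ≤ |k| * exwK * (i.factorial : ℝ) * |y| * ((4 * s) ^ i / (s ^ 2 / 2) ^ (i + 1)) := by gcongr
    _ = |k| * (exwK * (i.factorial : ℝ) * 4 ^ i * 2 ^ (i + 1)) * (|y| / s ^ (i + 2)) := by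
        rw [h3]; ring
    _ ≤ |k| * (exwK * (i.factorial : ℝ) * 4 ^ i * 2 ^ (i + 1)) * (1 / |y| ^ (i + 1)) := by
        refine mul_le_mul_of_nonneg_left ?_ (by positivity)
        rw [div_le_div_iff₀ (by positivity) (by positivity), one_mul]
        have : |y| * |y| ^ (i + 1) = |y| ^ (i + 2) := by ring
        rw [this]
        apply pow_le_pow_left₀ hy0.le
        rw [hs]; linarith
    _ = _ := by rw [exwC]; ring

theorem exwF_lower (k : ℝ) {y : ℝ} (hy : y ≠ 0) (i : ℕ) {x ρ R : ℝ} (hR : x ^ 2 + y ^ 2 ≤ R)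
    (hU : ((i : ℝ) + 1) * ρ ^ i ≤ |(Up 0 (y ^ 2) (i + 1)).eval x|) :
    |k| * exwK * (i.factorial : ℝ) * |y| * (((i : ℝ) + 1) * ρ ^ i) / R ^ (i + 1) ≤
      |exwF k y (i + 1) x| := by
  have hκ := exwK_pos
  have hy2 : 0 < y ^ 2 := by positivity
  have hN : 0 < x ^ 2 + y ^ 2 := by positivity
  simp only [exwF]
  rw [abs_mul, abs_mul, abs_pow, abs_neg, abs_one, one_pow, one_mul, abs_div, abs_mul, abs_mul,
    abs_mul, abs_of_pos hκ, Nat.abs_cast, abs_pow, abs_of_pos hN, mul_div_assoc]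
  refine mul_le_mul_of_nonneg_left ?_ (by positivity)
  have hR0 : 0 < R := lt_of_lt_of_le hN hR
  apply div_le_div₀ (abs_nonneg _) hU (by positivity)
  exact pow_le_pow_left₀ hN.le hR _

/-- along a progression -/
noncomputable def exwG (m : ℕ) (c1 k y : ℝ) (i : ℕ) (u : ℝ) : ℝ :=
  (m : ℝ) ^ i * exwF k y i (c1 + m * u)

theorem exwG_der (m : ℕ) (c1 k : ℝ) {y : ℝ} (hy : y ≠ 0) (i : ℕ) (u : ℝ) :
    HasDerivAt (exwG m c1 k y i) (exwG m c1 k y (i + 1) u) u := by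
  have h1 : HasDerivAt (fun u : ℝ => c1 + m * u) (m : ℝ) u := by
    simpa using ((hasDerivAt_id u).const_mul (m : ℝ)).const_add c1
  have h2 := (exwF_der k hy i (c1 + m * u)).comp u h1
  have h3 := h2.const_mul ((m : ℝ) ^ i)
  refine h3.congr_deriv ?_
  simp only [exwG]
  ring

/-- the common constant -/
noncomputable def exwT (m r : ℕ) : ℝ := 1 + (m : ℝ) ^ (r + 1) * exwC r + (m : ℝ) ^ (r + 2) * exwC (r + 1)

theorem exwT_one (m r : ℕ) : 1 ≤ exwT m r := by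
  have h1 := exwC_nonneg r
  have h2 := exwC_nonneg (r + 1)
  have h3 : 0 ≤ (m : ℝ) ^ (r + 1) * exwC r := by positivity
  have h4 : 0 ≤ (m : ℝ) ^ (r + 2) * exwC (r + 1) := by positivity
  unfold exwT; linarith

/-- the basic test with `Y = q ^ N` -/
theorem exw_test {m : ℕ} (hm : 1 ≤ m) (r : ℕ) {c1 k y q Y : ℝ} (hq : 1 ≤ q) (hY : 1 ≤ Y)
    (hk : k ≠ 0) (hy : Y ≤ |y|) {a b : ℤ}
    (hR : ∀ u : ℝ, (a : ℝ) ≤ u → u ≤ (b : ℝ) - 1 → (c1 + m * u) ^ 2 + y ^ 2 ≤ (q * Y) ^ 2)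
    (hU : ∀ u : ℝ, (a : ℝ) ≤ u → u ≤ (b : ℝ) - 1 →
      ((r : ℝ) + 1) * Y ^ r ≤ |(Up 0 (y ^ 2) (r + 1)).eval (c1 + m * u)|)
    {Ct : ℝ} (hCt : exwT m r ≤ Ct) (H : ℕ) (hH : 1 ≤ H)
    (hHr : (H : ℝ) ^ r * (|k| * Ct / Y ^ (r + 1)) ≤ 1 / 2) (hHL : (H : ℝ) ≤ 3 * (q * Y)) {ℓ : ℝ}
    (hℓ : 0 ≤ ℓ) (hs : ∑ h ∈ Finset.Ico 1 H, (1 / (h : ℝ)) ≤ ℓ) :
    ‖S (fun n => exwG m c1 k y 0 n) a b‖ ^ (2 ^ r) ≤ Cw r * (3 * (q * Y)) ^ (2 ^ r) *
      (1 / H + ((1 / exwK + Ct / exwK ^ 2) * q ^ (4 * r + 4) * Y ^ r / |k|) * (ℓ / H) ^ r) := by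
  have hκ := exwK_pos
  have hq0 : 0 < q := by linarith
  have hY0 : 0 < Y := by linarith
  have hy0 : 0 < |y| := lt_of_lt_of_le hY0 hy
  have hyn : y ≠ 0 := abs_pos.1 hy0
  have hk0 : 0 < |k| := abs_pos.2 hk
  have hm1 : (1 : ℝ) ≤ m := by exact_mod_cast hm
  have hC0 := exwC_nonneg r
  have hC1 := exwC_nonneg (r + 1)
  have hT1 := exwT_one m r
  have hCt1 : 1 ≤ Ct := hT1.trans hCt
  have hCr : (m : ℝ) ^ (r + 1) * exwC r ≤ Ct := by
    refine le_trans ?_ hCt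
    have h4 : 0 ≤ (m : ℝ) ^ (r + 2) * exwC (r + 1) := by positivity
    unfold exwT; linarith
  have hCr1 : (m : ℝ) ^ (r + 2) * exwC (r + 1) ≤ Ct := by
    refine le_trans ?_ hCt
    have h4 : 0 ≤ (m : ℝ) ^ (r + 1) * exwC r := by positivity
    unfold exwT; linarith
  have hLen : ((b - a : ℤ) : ℝ) ≤ 3 * (q * Y) := by
    have hqY : 1 ≤ q * Y := by nlinarith
    rcases le_or_gt b a with h | h
    · have : ((b - a : ℤ) : ℝ) ≤ 0 := by
        have : b - a ≤ 0 := by omega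
        exact_mod_cast this
      linarith
    · have h1 : (a : ℝ) ≤ b - 1 := by
        have : (a : ℝ) + 1 ≤ b := by exact_mod_cast h
        linarith
      have hx : ∀ u : ℝ, (a : ℝ) ≤ u → u ≤ (b : ℝ) - 1 → |c1 + m * u| ≤ q * Y := by
        intro u h1 h2
        apply abs_le_of_sq_le_sq _ (by positivity)
        have := hR u h1 h2
        nlinarith [sq_nonneg y]
      have h2 := hx a le_rfl h1
      have h3 := hx (b - 1) h1 le_rfl
      rw [abs_le] at h2 h3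
      have h4 : (m : ℝ) * ((b : ℝ) - 1 - a) ≤ 2 * (q * Y) := by nlinarith [h2.1, h3.2]
      have h5 : (b : ℝ) - 1 - a ≤ (m : ℝ) * ((b : ℝ) - 1 - a) := by nlinarith
      push_cast
      linarith
  set l0 : ℝ := exwK * |k| / (q ^ (2 * r + 2) * Y ^ (r + 1)) with hl0
  have main := abs_test r (exwG m c1 k y) a (b - 1) a b le_rfl le_rfl
    (fun i _ x hx => exwG_der m c1 k hyn i x) l0 (|k| * Ct / Y ^ (r + 1))
    (|k| * Ct / Y ^ (r + 2)) (by positivity) (by positivity)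
    (by
      intro u hu
      have h1 := exwF_lower k hyn r (ρ := Y) (hR u hu.1 hu.2) (hU u hu.1 hu.2)
      have h2 : |exwG m c1 k y (r + 1) u| = (m : ℝ) ^ (r + 1) * |exwF k y (r + 1) (c1 + m * u)| := by
        rw [exwG, abs_mul, abs_of_nonneg (by positivity : (0 : ℝ) ≤ (m : ℝ) ^ (r + 1))]
      rw [h2]
      have h3 : |exwF k y (r + 1) (c1 + m * u)| ≤
          (m : ℝ) ^ (r + 1) * |exwF k y (r + 1) (c1 + m * u)| := by
        have : (1 : ℝ) ≤ (m : ℝ) ^ (r + 1) := one_le_pow₀ hm1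
        nlinarith [abs_nonneg (exwF k y (r + 1) (c1 + m * u))]
      refine le_trans ?_ (h1.trans h3)
      rw [hl0]
      have h4 : ((q * Y) ^ 2) ^ (r + 1) = q ^ (2 * r + 2) * Y ^ (r + 1) * Y ^ (r + 1) := by ring
      rw [h4, div_le_div_iff₀ (by positivity) (by positivity)]
      have h5 : (1 : ℝ) ≤ (r.factorial : ℝ) := by exact_mod_cast Nat.one_le_iff_ne_zero.2 (Nat.factorial_ne_zero r)
      have h6 : (1 : ℝ) ≤ (r : ℝ) + 1 := by
        have : (0 : ℝ) ≤ r := Nat.cast_nonneg _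
        linarith
      have h7 : Y ^ (r + 1) ≤ |y| * Y ^ r := by
        rw [pow_succ, mul_comm]
        gcongr
      have h8 : Y ^ (r + 1) ≤ (r.factorial : ℝ) * |y| * (((r : ℝ) + 1) * Y ^ r) := by
        calc Y ^ (r + 1) ≤ |y| * Y ^ r := h7
          _ = 1 * |y| * (1 * Y ^ r) := by ring
          _ ≤ _ := by gcongr
      calc exwK * |k| * (q ^ (2 * r + 2) * Y ^ (r + 1) * Y ^ (r + 1))
          = exwK * |k| * (q ^ (2 * r + 2) * Y ^ (r + 1)) * Y ^ (r + 1) := by ring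
        _ ≤ exwK * |k| * (q ^ (2 * r + 2) * Y ^ (r + 1)) *
            ((r.factorial : ℝ) * |y| * (((r : ℝ) + 1) * Y ^ r)) := by gcongr
        _ = _ := by ring)
    (by
      intro u hu
      have h1 := exwF_upper k hyn r (c1 + m * u)
      rw [exwG, abs_mul, abs_of_nonneg (by positivity : (0 : ℝ) ≤ (m : ℝ) ^ (r + 1))]
      calc (m : ℝ) ^ (r + 1) * |exwF k y (r + 1) (c1 + m * u)|
          ≤ (m : ℝ) ^ (r + 1) * (|k| * exwC r / |y| ^ (r + 1)) := by gcongr
        _ = |k| * ((m : ℝ) ^ (r + 1) * exwC r) / |y| ^ (r + 1) := by ring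
        _ ≤ |k| * Ct / Y ^ (r + 1) := by gcongr)
    (by
      intro u hu
      have h1 := exwF_upper k hyn (r + 1) (c1 + m * u)
      rw [exwG, abs_mul, abs_of_nonneg (by positivity : (0 : ℝ) ≤ (m : ℝ) ^ (r + 2))]
      calc (m : ℝ) ^ (r + 2) * |exwF k y (r + 2) (c1 + m * u)|
          ≤ (m : ℝ) ^ (r + 2) * (|k| * exwC (r + 1) / |y| ^ (r + 1 + 1)) := by gcongr
        _ = |k| * ((m : ℝ) ^ (r + 2) * exwC (r + 1)) / |y| ^ (r + 2) := by ring
        _ ≤ |k| * Ct / Y ^ (r + 2) := by gcongr)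
    H hH hHr (3 * (q * Y)) ℓ hLen hHL hℓ hs
  refine main.trans ?_
  have hCw := Cw_pos r
  apply mul_le_mul_of_nonneg_left _ (by positivity)
  apply add_le_add_right
  apply mul_le_mul_of_nonneg_right _ (by positivity)
  have e1 : (1 / l0 + 3 * (q * Y) * (|k| * Ct / Y ^ (r + 2)) / l0 ^ 2) / (3 * (q * Y)) =
      (1 / (3 * exwK) * q ^ (2 * r + 1) + Ct / exwK ^ 2 * q ^ (4 * r + 4)) * Y ^ r / |k| := by
    rw [hl0]
    have h1 : q ^ (2 * r + 2) = q ^ (2 * r + 1) * q := by ring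
    have h2 : q ^ (4 * r + 4) = (q ^ (2 * r + 1)) ^ 2 * q ^ 2 := by ring
    have h3 : Y ^ (r + 2) = Y ^ r * Y ^ 2 := by ring
    have h4 : Y ^ (r + 1) = Y ^ r * Y := by ring
    rw [h1, h2, h3, h4]
    field_simp
  rw [e1]
  apply div_le_div_of_nonneg_right _ hk0.le
  apply mul_le_mul_of_nonneg_right _ (by positivity)
  have e2 : q ^ (2 * r + 1) ≤ q ^ (4 * r + 4) := pow_le_pow_right₀ hq (by omega)
  have e4 : 1 / (3 * exwK) ≤ 1 / exwK := by
    apply one_div_le_one_div_of_le hκ; linarith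
  calc 1 / (3 * exwK) * q ^ (2 * r + 1) + Ct / exwK ^ 2 * q ^ (4 * r + 4)
      ≤ 1 / exwK * q ^ (4 * r + 4) + Ct / exwK ^ 2 * q ^ (4 * r + 4) := by gcongr
    _ = _ := by ring

end

end Pool.Agent.T2

/-! T2, block EXW, part 5: the sums on a line -/

namespace Pool.Agent.T2

section

open Polynomial
open Pool.Agent.T2.EXL (ee ee_add ee_norm Up Up_der Up_coeff Up_eval_rec Up_upper
  root_excl split_sum abs_test Cw Cw_pos harm_bound S)

/-- medium frequencies -/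
theorem exw_med {m : ℕ} (hm : 1 ≤ m) {c1 k y q Y : ℝ} (hq : 1 ≤ q) (hqY : q ≤ Y)
    {Ct : ℝ} (hCt : exwT m 0 ≤ Ct) (hk : q ^ 5 ≤ |k|) (hk2 : 2 * Ct * |k| ≤ Y)
    (hy : Y ≤ |y|) {a b : ℤ}
    (hR : ∀ u : ℝ, (a : ℝ) ≤ u → u ≤ (b : ℝ) - 1 → (c1 + m * u) ^ 2 + y ^ 2 ≤ (q * Y) ^ 2) :
    ‖S (fun n => exwG m c1 k y 0 n) a b‖ ≤
      (3 + 3 * (1 / exwK + Ct / exwK ^ 2)) * Y := by
  have hκ := exwK_pos
  have hq0 : 0 < q := by linarith
  have hY1 : 1 ≤ Y := hq.trans hqY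
  have hY0 : 0 < Y := by linarith
  have hk0 : 0 < |k| := lt_of_lt_of_le (by positivity) hk
  have hCt1 : 1 ≤ Ct := (exwT_one m 0).trans hCt
  have hH : q ≤ ((⌊q⌋₊ + 1 : ℕ) : ℝ) := by
    push_cast; exact (Nat.lt_floor_add_one q).le
  have hH2 : ((⌊q⌋₊ + 1 : ℕ) : ℝ) ≤ 3 * (q * Y) := by
    push_cast
    have e1 : (⌊q⌋₊ : ℝ) ≤ q := Nat.floor_le hq0.le
    nlinarith
  have main := exw_test hm 0 (c1 := c1) hq hY1 (abs_pos.1 hk0) hy hR (by
      intro u _ _
      simp [Up]) hCt (⌊q⌋₊ + 1) (by omega) (by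
      rw [pow_zero, one_mul, zero_add, pow_one, div_le_iff₀ hY0]
      linarith) hH2 (ℓ := ((⌊q⌋₊ + 1 : ℕ) : ℝ)) (by positivity) (by
      have : ∀ h ∈ Finset.Ico 1 (⌊q⌋₊ + 1), (1 / (h : ℝ)) ≤ 1 := by
        intro h hh
        rw [Finset.mem_Ico] at hh
        have : (1 : ℝ) ≤ h := by exact_mod_cast hh.1
        rw [div_le_one (by linarith)]
        exact this
      refine (Finset.sum_le_sum this).trans ?_
      simp)
  simp only [pow_zero, pow_one, mul_one, Cw, one_mul, mul_zero, zero_add] at main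
  refine main.trans ?_
  rw [mul_add]
  have e1 : 3 * (q * Y) * (1 / ((⌊q⌋₊ + 1 : ℕ) : ℝ)) ≤ 3 * Y := by
    rw [mul_one_div, div_le_iff₀ (by positivity)]
    have : 3 * (q * Y) = 3 * Y * q := by ring
    rw [this]
    gcongr
  have e2 : 3 * (q * Y) * ((1 / exwK + Ct / exwK ^ 2) * q ^ 4 / |k|) ≤
      3 * (1 / exwK + Ct / exwK ^ 2) * Y := by
    rw [mul_div_assoc', div_le_iff₀ hk0]
    calc 3 * (q * Y) * ((1 / exwK + Ct / exwK ^ 2) * q ^ 4)
        = 3 * (1 / exwK + Ct / exwK ^ 2) * Y * q ^ 5 := by ring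
      _ ≤ 3 * (1 / exwK + Ct / exwK ^ 2) * Y * |k| := by gcongr
  push_cast at e1 ⊢
  linarith

/-- large frequencies -/
theorem exw_large {m : ℕ} (hm : 1 ≤ m) (r N B : ℕ) (hr : 1 ≤ r)
    (h1 : 2 ^ r * r + 1 + B ≤ N * (r + 1)) (h2 : 5 * r + 4 + 2 ^ r ≤ N)
    {Ct : ℝ} (hCt : exwT m r ≤ Ct) :
    ∃ C : ℝ, 0 ≤ C ∧ ∀ c1 k y q : ℝ, 1 ≤ q → 2 * Ct ≤ q → q ^ N ≤ 2 * Ct * |k| →
    |k| ≤ q ^ B → q ^ N ≤ |y| → ∀ a b : ℤ,
    (∀ u : ℝ, (a : ℝ) ≤ u → u ≤ (b : ℝ) - 1 → (c1 + m * u) ^ 2 + y ^ 2 ≤ (q * q ^ N) ^ 2) →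
    ‖S (fun n => exwG m c1 k y 0 n) a b‖ ≤ C * q ^ N := by
  have hκ := exwK_pos
  have hCt1 : 1 ≤ Ct := (exwT_one m r).trans hCt
  have hCw := Cw_pos r
  have hm1 : (1 : ℝ) ≤ m := by exact_mod_cast hm
  set e : ℕ := 2 ^ r with he
  have he1 : 1 ≤ e := Nat.one_le_two_pow
  set C3 : ℝ := (1 / exwK + Ct / exwK ^ 2) * ((2 * ((N : ℝ) + 1)) ^ r * (2 * Ct)) with hC3
  have hC3' : 0 ≤ C3 := by positivity
  set C4 : ℝ := Cw r * 3 ^ e * (2 + C3) + 1 with hC4
  have hC4' : 1 ≤ C4 := by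
    rw [hC4]
    have : 0 ≤ Cw r * 3 ^ e * (2 + C3) := by positivity
    linarith
  refine ⟨2 ^ r * (C4 + 3), by positivity, ?_⟩
  intro c1 k y q hq hq2 hk hk2 hy a b hR
  have hq0 : 0 < q := by linarith
  set Y : ℝ := q ^ N with hYd
  have hY1 : 1 ≤ Y := one_le_pow₀ hq
  have hY0 : 0 < Y := by linarith
  have hy0 : 0 < |y| := lt_of_lt_of_le hY0 hy
  have hyn : y ≠ 0 := abs_pos.1 hy0
  have hk0 : 0 < |k| := by
    by_contra h
    have h1 : |k| = 0 := le_antisymm (not_lt.1 h) (abs_nonneg k)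
    rw [h1, mul_zero] at hk
    linarith
  have hr0 : (0 : ℝ) < r := by exact_mod_cast hr
  -- the number `H`
  set w : ℝ := Y ^ (r + 1) / (2 * Ct * |k|) with hw
  have hw0 : 0 < w := by positivity
  set h₀ : ℝ := w ^ (1 / (r : ℝ)) with hh0
  have hh0p : 0 < h₀ := Real.rpow_pos_of_pos hw0 _
  have hhr : h₀ ^ r = w := by
    rw [hh0, ← Real.rpow_natCast, ← Real.rpow_mul hw0.le, one_div, inv_mul_cancel₀ hr0.ne',
      Real.rpow_one]
  have hlow : q ^ e ≤ h₀ := by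
    refine le_of_pow_le_pow_left₀ (n := r) (by omega) hh0p.le ?_
    rw [hhr, hw, le_div_iff₀ (by positivity)]
    calc (q ^ e) ^ r * (2 * Ct * |k|) ≤ (q ^ e) ^ r * (q * q ^ B) := by gcongr
      _ = q ^ (e * r + 1 + B) := by rw [← pow_mul]; ring
      _ ≤ q ^ (N * (r + 1)) := pow_le_pow_right₀ hq h1
      _ = Y ^ (r + 1) := by rw [hYd, ← pow_mul]
  have hup : h₀ ≤ Y := by
    refine le_of_pow_le_pow_left₀ (n := r) (by omega) hY0.le ?_
    rw [hhr, hw, div_le_iff₀ (by positivity), pow_succ]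
    gcongr
  have hqe : (1 : ℝ) ≤ q ^ e := one_le_pow₀ hq
  have hh1 : 1 ≤ h₀ := hqe.trans hlow
  set H : ℕ := ⌊h₀⌋₊ with hH
  have hH1 : 1 ≤ H := by
    rw [hH]; exact Nat.one_le_floor_iff _ |>.2 hh1
  have hHr : (1 : ℝ) ≤ H := by exact_mod_cast hH1
  have hHle : (H : ℝ) ≤ h₀ := Nat.floor_le hh0p.le
  have hHge : h₀ ≤ 2 * H := by
    have : h₀ < H + 1 := Nat.lt_floor_add_one _
    linarith
  -- sum of 1/h
  have hℓ : ∑ h ∈ Finset.Ico 1 H, (1 / (h : ℝ)) ≤ ((N : ℝ) + 1) * q := by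
    refine (harm_bound H).trans ?_
    have h1 : Real.log H ≤ Real.log (q ^ N) := Real.log_le_log (by linarith) (hHle.trans hup)
    rw [Real.log_pow] at h1
    have h2 : Real.log q ≤ q := (Real.log_le_sub_one_of_pos hq0).trans (by linarith)
    have h3 : (N : ℝ) * Real.log q ≤ N * q := by gcongr
    linarith
  -- the polynomial
  set P : ℝ[X] := Up 0 (y ^ 2) (r + 1) with hP
  have hPc : P.natDegree ≤ r ∧ P.coeff r = (r : ℝ) + 1 := (Up_coeff 0 (y ^ 2) r).1
  obtain ⟨Z, hZl, hZ⟩ := root_excl P r hPc.1 (by rw [hPc.2]; positivity)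
  have hsplit := split_sum (fun n => ee (exwG m c1 k y 0 n)) (fun n => (ee_norm _).le) Y
    (C4 * Y) hY0.le (by positivity) (Z.map (fun ζ => (ζ - c1) / m)) a b (by
    intro a₁ b₁ ha₁ hb₁ hx
    have hsub : ∀ x : ℝ, (a₁ : ℝ) ≤ x → x ≤ (b₁ : ℝ) - 1 → (a : ℝ) ≤ x ∧ x ≤ (b : ℝ) - 1 := by
      intro x h1 h2
      have h3 : (a : ℝ) ≤ a₁ := by exact_mod_cast ha₁
      have h4 : (b₁ : ℝ) ≤ b := by exact_mod_cast hb₁
      exact ⟨by linarith, by linarith⟩
    have hR' : ∀ u : ℝ, (a₁ : ℝ) ≤ u → u ≤ (b₁ : ℝ) - 1 →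
        (c1 + m * u) ^ 2 + y ^ 2 ≤ (q * Y) ^ 2 := fun u h1 h2 =>
      hR u (hsub u h1 h2).1 (hsub u h1 h2).2
    change ‖S (fun n => exwG m c1 k y 0 n) a₁ b₁‖ ≤ _
    have main := exw_test hm r (c1 := c1) hq hY1 (abs_pos.1 hk0) hy hR' (by
        intro u hu1 hu2
        have h6 := hZ Y hY0.le (c1 + m * u) (by
          intro ζ hζ
          have h7 := hx u hu1 hu2 ((ζ - c1) / m) (List.mem_map.2 ⟨ζ, hζ, rfl⟩)
          have h8 : c1 + m * u - ζ = m * (u - (ζ - c1) / m) := by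
            field_simp
            ring
          rw [h8, abs_mul, abs_of_nonneg (by linarith : (0 : ℝ) ≤ m)]
          nlinarith [abs_nonneg (u - (ζ - c1) / m)])
        rw [hPc.2, abs_of_pos (by positivity)] at h6
        exact h6) hCt H hH1 (by
        calc (H : ℝ) ^ r * (|k| * Ct / Y ^ (r + 1)) ≤ h₀ ^ r * (|k| * Ct / Y ^ (r + 1)) := by gcongr
          _ = 1 / 2 := by
              rw [hhr, hw]
              field_simp) (by
        have : Y ≤ 3 * (q * Y) := by nlinarith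
        linarith) (ℓ := ((N : ℝ) + 1) * q) (by positivity) hℓ
    rw [← he] at main
    -- the two terms
    have e1 : 1 / (H : ℝ) ≤ 2 / q ^ e := by
      rw [div_le_div_iff₀ (by positivity) (by positivity)]
      linarith
    have e2 : (((N : ℝ) + 1) * q / (H : ℝ)) ^ r ≤
        (2 * ((N : ℝ) + 1)) ^ r * q ^ r * (2 * Ct * |k|) / Y ^ (r + 1) := by
      have e3 : (((N : ℝ) + 1) * q / (H : ℝ)) ^ r ≤ ((2 * ((N : ℝ) + 1)) * q / h₀) ^ r := by
        apply pow_le_pow_left₀ (by positivity)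
        rw [div_le_div_iff₀ (by positivity) hh0p]
        calc ((N : ℝ) + 1) * q * h₀ ≤ ((N : ℝ) + 1) * q * (2 * H) := by gcongr
          _ = _ := by ring
      refine e3.trans (le_of_eq ?_)
      rw [div_pow, hhr, hw, mul_pow, div_div_eq_mul_div]
    have e4 : (1 / exwK + Ct / exwK ^ 2) * q ^ (4 * r + 4) * Y ^ r / |k| *
        (((N : ℝ) + 1) * q / (H : ℝ)) ^ r ≤ C3 / q ^ e := by
      calc (1 / exwK + Ct / exwK ^ 2) * q ^ (4 * r + 4) * Y ^ r / |k| *
            (((N : ℝ) + 1) * q / (H : ℝ)) ^ r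
          ≤ (1 / exwK + Ct / exwK ^ 2) * q ^ (4 * r + 4) * Y ^ r / |k| *
            ((2 * ((N : ℝ) + 1)) ^ r * q ^ r * (2 * Ct * |k|) / Y ^ (r + 1)) := by gcongr
        _ = C3 * (q ^ (5 * r + 4) / Y) := by
            rw [hC3]
            have h5 : q ^ (5 * r + 4) = q ^ (4 * r + 4) * q ^ r := by ring
            rw [h5, pow_succ Y r]
            field_simp
        _ ≤ C3 * (1 / q ^ e) := by
            apply mul_le_mul_of_nonneg_left _ hC3'
            rw [div_le_div_iff₀ hY0 (by positivity), one_mul, ← pow_add]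
            exact pow_le_pow_right₀ hq h2
        _ = _ := by ring
    have e5 : ‖S (fun n => exwG m c1 k y 0 n) a₁ b₁‖ ^ e ≤ (C4 * Y) ^ e := by
      refine main.trans ?_
      calc _ ≤ Cw r * (3 * (q * Y)) ^ e * ((2 + C3) / q ^ e) := by
            apply mul_le_mul_of_nonneg_left _ (by positivity)
            rw [add_div 2 C3]
            exact add_le_add e1 e4
        _ = Cw r * 3 ^ e * (2 + C3) * Y ^ e := by
            rw [mul_pow, mul_pow]
            field_simp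
        _ ≤ C4 * Y ^ e := by
            apply mul_le_mul_of_nonneg_right _ (by positivity)
            rw [hC4]; linarith
        _ ≤ C4 ^ e * Y ^ e := by
            apply mul_le_mul_of_nonneg_right _ (by positivity)
            calc C4 = C4 ^ 1 := (pow_one _).symm
              _ ≤ C4 ^ e := pow_le_pow_right₀ hC4' he1
        _ = (C4 * Y) ^ e := by rw [mul_pow]
    exact le_of_pow_le_pow_left₀ (n := e) (by omega) (by positivity) e5)
  rw [List.length_map, hZl] at hsplit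
  change ‖S (fun n => exwG m c1 k y 0 n) a b‖ ≤ _ at hsplit
  refine hsplit.trans ?_
  have e2 : 2 ^ r * (C4 * Y + 2 * Y + 1) ≤ 2 ^ r * (C4 + 3) * Y := by
    have : C4 * Y + 2 * Y + 1 ≤ (C4 + 3) * Y := by nlinarith
    calc (2 : ℝ) ^ r * (C4 * Y + 2 * Y + 1) ≤ 2 ^ r * ((C4 + 3) * Y) := by gcongr
      _ = _ := by ring
  linarith

end

end Pool.Agent.T2

/-! T2, block EXW, part 6: lines, assembly -/

namespace Pool.Agent.T2

section

open Pool.Agent.T2.EXL (ee ee_norm S)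

theorem exw_omega (k : ℤ) {y : ℝ} (hy : y ≠ 0) : ∃ ω : ℂ, ‖ω‖ = 1 ∧
    ∀ x : ℝ, exwA k (⟨x, y⟩ : ℂ) = ω * ee (exwF k y 0 x) := by
  have hy0 : 0 < |y| := abs_pos.2 hy
  have hyc : ((|y| : ℝ) : ℂ) ≠ 0 := by exact_mod_cast hy0.ne'
  refine ⟨(Complex.I * ((y / |y| : ℝ) : ℂ)) ^ k, ?_, ?_⟩
  · rw [norm_zpow, norm_mul, Complex.norm_I, one_mul, Complex.norm_real, norm_div, norm_abs_eq_norm,
      div_self (norm_ne_zero_iff.2 hy), one_zpow]
  · intro x
    set t : ℝ := x / y with ht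
    set θ : ℝ := Real.arctan t with hθ
    have hs : 0 < 1 + t ^ 2 := by positivity
    have hs0 : 0 < Real.sqrt (1 + t ^ 2) := Real.sqrt_pos.2 hs
    have hsc : ((Real.sqrt (1 + t ^ 2) : ℝ) : ℂ) ≠ 0 := by exact_mod_cast hs0.ne'
    have h1 : Complex.exp (-(θ : ℂ) * Complex.I) =
        (1 - t * Complex.I) / (Real.sqrt (1 + t ^ 2) : ℝ) := by
      have h2 : (-(θ : ℂ)) = ((-θ : ℝ) : ℂ) := by push_cast; rfl
      rw [h2, Complex.exp_mul_I, ← Complex.ofReal_cos, ← Complex.ofReal_sin, Real.cos_neg,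
        Real.sin_neg, hθ, Real.cos_arctan, Real.sin_arctan]
      push_cast
      field_simp
      ring
    have h3 : ‖(⟨x, y⟩ : ℂ)‖ = |y| * Real.sqrt (1 + t ^ 2) := by
      have h4 : x = t * y := by rw [ht]; field_simp
      rw [Complex.norm_def, Complex.normSq_mk, ← Real.sqrt_sq hy0.le,
        ← Real.sqrt_mul (by positivity), sq_abs]
      congr 1
      rw [h4]; ring
    have h5 : (⟨x, y⟩ : ℂ) / (‖(⟨x, y⟩ : ℂ)‖ : ℂ) =
        (Complex.I * ((y / |y| : ℝ) : ℂ)) * Complex.exp (-(θ : ℂ) * Complex.I) := by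
      rw [h3, h1]
      have h6 : (⟨x, y⟩ : ℂ) = (t * y : ℝ) + (y : ℝ) * Complex.I := by
        rw [Complex.mk_eq_add_mul_I]
        congr 2
        rw [ht]; field_simp
      rw [h6]
      push_cast
      field_simp
      ring_nf
      rw [Complex.I_sq]
      ring
    rw [exwA, h5, mul_zpow, ← Complex.exp_int_mul]
    congr 1
    rw [Pool.Agent.T2.EXL.ee]
    congr 1
    simp only [exwF, exwK]
    rw [← ht, ← hθ]
    have hpi : (Real.pi : ℂ) ≠ 0 := by exact_mod_cast Real.pi_ne_zero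
    push_cast
    field_simp

open Classical in
theorem exw_line {m : ℕ} (hm : 1 ≤ m) (c : G) {x : ℝ} (y : ℤ) (hy0 : y ≠ 0)
    (hy : (y : ℝ) ^ 2 ≤ x) (hyc : (m : ℤ) ∣ y - c.im) (k : ℤ) :
    ∃ a b : ℤ, (∀ u : ℝ, (a : ℝ) ≤ u → u ≤ (b : ℝ) - 1 →
      ((c.re : ℝ) + m * u) ^ 2 + (y : ℝ) ^ 2 ≤ x) ∧
    ‖∑ z ∈ ((Bl x).filter (fun z => (m : G) ∣ z - c)).filter (fun z => z.im = y), ang k z‖ =
      ‖S (fun n => exwG m c.re k y 0 n) a b‖ := by
  have hm0 : (0 : ℝ) < m := by exact_mod_cast hm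
  have hmz : (m : ℤ) ≠ 0 := by exact_mod_cast (by omega : m ≠ 0)
  have hyr : (y : ℝ) ≠ 0 := by exact_mod_cast hy0
  set s : ℝ := Real.sqrt (x - (y : ℝ) ^ 2) with hs
  have hs0 : 0 ≤ s := Real.sqrt_nonneg _
  have hss : s ^ 2 = x - (y : ℝ) ^ 2 := Real.sq_sqrt (by linarith)
  have key : ∀ u : ℝ, ((-s - c.re) / m ≤ u ∧ u ≤ (s - c.re) / m) ↔
      ((c.re : ℝ) + m * u) ^ 2 + (y : ℝ) ^ 2 ≤ x := by
    intro u
    rw [div_le_iff₀ hm0, le_div_iff₀ hm0]
    constructor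
    · rintro ⟨h1, h2⟩
      have : ((c.re : ℝ) + m * u) ^ 2 ≤ s ^ 2 := by
        apply sq_le_sq'
        · linarith
        · linarith
      linarith
    · intro h
      have h1 : ((c.re : ℝ) + m * u) ^ 2 ≤ s ^ 2 := by linarith
      have h2 := abs_le_of_sq_le_sq' h1 hs0
      constructor
      · linarith [h2.1]
      · linarith [h2.2]
  set a : ℤ := ⌈(-s - c.re) / m⌉ with ha
  set b : ℤ := ⌊(s - c.re) / m⌋ + 1 with hb
  have hmem : ∀ n : ℤ, (a ≤ n ∧ n < b) ↔ ((c.re : ℝ) + m * n) ^ 2 + (y : ℝ) ^ 2 ≤ x := by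
    intro n
    rw [← key, ha, hb, Int.ceil_le, Int.lt_add_one_iff, Int.le_floor]
  refine ⟨a, b, ?_, ?_⟩
  · intro u h1 h2
    rw [← key]
    refine ⟨(Int.le_ceil _).trans h1, ?_⟩
    have h3 : ((b : ℤ) : ℝ) - 1 = (⌊(s - c.re) / m⌋ : ℝ) := by rw [hb]; push_cast; ring
    rw [h3] at h2
    exact h2.trans (Int.floor_le _)
  · obtain ⟨ω, hω, hF⟩ := exw_omega k hyr
    have hset : ((Bl x).filter (fun z => (m : G) ∣ z - c)).filter (fun z => z.im = y) =
        (Finset.Ico a b).image (fun n : ℤ => (⟨c.re + m * n, y⟩ : G)) := by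
      ext z
      simp only [Finset.mem_filter, Finset.mem_image, Finset.mem_Ico, mem_Bl]
      constructor
      · rintro ⟨⟨⟨h1, h2⟩, h3⟩, h4⟩
        rw [exw_dvd] at h3
        obtain ⟨⟨n, hn⟩, -⟩ := h3
        have hn' : z.re = c.re + m * n := by
          have : (z - c).re = z.re - c.re := by simp
          rw [this] at hn
          linarith
        refine ⟨n, ?_, ?_⟩
        · rw [hmem]
          rw [exw_nn, hn', h4] at h2
          push_cast at h2
          exact h2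
        · exact Zsqrtd.ext hn'.symm h4.symm
      · rintro ⟨n, hn, rfl⟩
        rw [hmem] at hn
        refine ⟨⟨⟨?_, ?_⟩, ?_⟩, rfl⟩
        · intro h
          have := congrArg Zsqrtd.im h
          simp only [Zsqrtd.im_zero] at this
          exact hy0 this
        · rw [exw_nn]
          push_cast
          exact hn
        · rw [exw_dvd]
          refine ⟨⟨n, ?_⟩, ?_⟩
          · simp
          · simpa using hyc
    rw [hset, Finset.sum_image]
    · have h5 : ∀ n ∈ Finset.Ico a b, ang k (⟨c.re + m * n, y⟩ : G) =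
          ω * ee (exwG m c.re k y 0 n) := by
        intro n _
        rw [exwA_ang, exwG, pow_zero, one_mul]
        have h6 : (((⟨c.re + m * n, y⟩ : G)) : ℂ) = (⟨(c.re : ℝ) + m * n, (y : ℝ)⟩ : ℂ) := by
          rw [GaussianInt.toComplex_def₂]
          push_cast
          rfl
        rw [h6]
        exact hF _
      rw [Finset.sum_congr rfl h5, ← Finset.mul_sum, norm_mul, hω, one_mul]
      rfl
    · intro n1 _ n2 _ h
      have := congrArg Zsqrtd.re h
      simp only [add_right_inj] at this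
      exact mul_left_cancel₀ hmz this

/-- summation over the lines -/
theorem exw_total {m : ℕ} (hm : 1 ≤ m) (c : G) {k : ℤ} (hk : k ≠ 0) {q Y C : ℝ} (hq : 1 ≤ q)
    (hY : 1 ≤ Y) (hC : 0 ≤ C)
    (hline : ∀ y : ℝ, Y ≤ |y| → ∀ a b : ℤ, (∀ u : ℝ, (a : ℝ) ≤ u → u ≤ (b : ℝ) - 1 →
      ((c.re : ℝ) + m * u) ^ 2 + y ^ 2 ≤ (q * Y) ^ 2) →
      ‖S (fun n => exwG m c.re k y 0 n) a b‖ ≤ C * Y)
    (T : Finset G) (hT : ∀ z, z ∈ T ↔ (z ≠ 0 ∧ (nn z : ℝ) ≤ (q * Y) ^ 2) ∧ (m : G) ∣ z - c) :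
    ‖∑ z ∈ T, ang k z‖ ≤ (3 * C + 9) * (q * Y ^ 2) := by
  classical
  have hqY : 1 ≤ q * Y := by nlinarith
  have hqY0 : 0 ≤ q * Y := by linarith
  have hY0 : 0 < Y := by linarith
  set M : ℕ := ⌊q * Y⌋₊ with hM
  have hMle : (M : ℝ) ≤ q * Y := Nat.floor_le hqY0
  have hcoord : ∀ a : ℤ, (a : ℝ) ^ 2 ≤ (q * Y) ^ 2 → a ∈ Finset.Icc (-(M : ℤ)) M := by
    intro a ha
    have h1 : |(a : ℝ)| ≤ q * Y := abs_le_of_sq_le_sq ha hqY0
    have h2 : ((a.natAbs : ℕ) : ℝ) ≤ q * Y := by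
      rw [Nat.cast_natAbs, Int.cast_abs]; exact h1
    have h3 : a.natAbs ≤ M := Nat.le_floor h2
    rw [Finset.mem_Icc]
    omega
  have hTc : ∀ z ∈ T, z.re ∈ Finset.Icc (-(M : ℤ)) M ∧ z.im ∈ Finset.Icc (-(M : ℤ)) M := by
    intro z hz
    have h1 := ((hT z).1 hz).1.2
    rw [exw_nn] at h1
    exact ⟨hcoord _ (by nlinarith [sq_nonneg (z.im : ℝ)]),
      hcoord _ (by nlinarith [sq_nonneg (z.re : ℝ)])⟩
  have hTB : T = (Bl ((q * Y) ^ 2)).filter (fun z => (m : G) ∣ z - c) := by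
    ext z
    rw [Finset.mem_filter, mem_Bl, hT]
  have hcardM : (((Finset.Icc (-(M : ℤ)) M).card : ℕ) : ℝ) ≤ 3 * (q * Y) := by
    rw [Int.card_Icc]
    have : (((M : ℤ) + 1 - -(M : ℤ)).toNat) = 2 * M + 1 := by omega
    rw [this]
    push_cast
    linarith
  rw [← Finset.sum_fiberwise_of_maps_to (fun z hz => (hTc z hz).2)]
  refine (norm_sum_le _ _).trans ?_
  have hbound : ∀ y ∈ Finset.Icc (-(M : ℤ)) M, ‖∑ z ∈ T with z.im = y, ang k z‖ ≤
      C * Y + (if |(y : ℝ)| < Y then 3 * (q * Y) else 0) := by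
    intro y _
    split_ifs with hyY
    · have h1 : ‖∑ z ∈ T with z.im = y, ang k z‖ ≤ 3 * (q * Y) := by
        refine (norm_sum_le _ _).trans ?_
        have h2 : ∑ z ∈ T with z.im = y, ‖ang k z‖ ≤ ∑ z ∈ T with z.im = y, (1 : ℝ) :=
          Finset.sum_le_sum fun z _ => exwA_le hk _
        refine h2.trans ?_
        rw [Finset.sum_const, nsmul_eq_mul, mul_one]
        refine le_trans ?_ hcardM
        have h3 : (T.filter (fun z => z.im = y)).card ≤ (Finset.Icc (-(M : ℤ)) M).card := by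
          apply Finset.card_le_card_of_injOn (fun z => z.re)
          · intro z hz
            exact (hTc z (Finset.mem_filter.1 hz).1).1
          · intro z hz z' hz' h
            have e1 := (Finset.mem_filter.1 hz).2
            have e2 := (Finset.mem_filter.1 hz').2
            exact Zsqrtd.ext h (e1.trans e2.symm)
        exact_mod_cast h3
      have : 0 ≤ C * Y := by positivity
      linarith
    · rw [not_lt] at hyY
      rw [add_zero]
      by_cases hne : ∃ z ∈ T, z.im = y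
      · obtain ⟨z, hz, hzy⟩ := hne
        obtain ⟨⟨h1, h2⟩, h3⟩ := (hT z).1 hz
        have hy0 : y ≠ 0 := by
          rintro rfl
          simp only [Int.cast_zero, abs_zero] at hyY
          linarith
        have hyx : (y : ℝ) ^ 2 ≤ (q * Y) ^ 2 := by
          rw [exw_nn, hzy] at h2
          nlinarith [sq_nonneg (z.re : ℝ)]
        have hyc : (m : ℤ) ∣ y - c.im := by
          rw [exw_dvd] at h3
          rw [← hzy]
          simpa using h3.2
        obtain ⟨a, b, h4, h5⟩ := exw_line hm c y hy0 hyx hyc k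
        rw [hTB, h5]
        exact hline y hyY a b h4
      · have : T.filter (fun z => z.im = y) = ∅ := by
          rw [Finset.filter_eq_empty_iff]
          intro z hz hzy
          exact hne ⟨z, hz, hzy⟩
        rw [this, Finset.sum_empty, norm_zero]
        positivity
  refine (Finset.sum_le_sum hbound).trans ?_
  rw [Finset.sum_add_distrib, Finset.sum_const, nsmul_eq_mul, ← Finset.sum_filter,
    Finset.sum_const, nsmul_eq_mul]
  have hcardY : ((((Finset.Icc (-(M : ℤ)) M).filter (fun y : ℤ => |(y : ℝ)| < Y)).card : ℕ) : ℝ) ≤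
      3 * Y := by
    set M' : ℕ := ⌊Y⌋₊ with hM'
    have hM'le : (M' : ℝ) ≤ Y := Nat.floor_le hY0.le
    have h1 : (Finset.Icc (-(M : ℤ)) M).filter (fun y : ℤ => |(y : ℝ)| < Y) ⊆
        Finset.Icc (-(M' : ℤ)) M' := by
      intro y hy
      have h2 := (Finset.mem_filter.1 hy).2
      have h3 : ((y.natAbs : ℕ) : ℝ) ≤ Y := by
        rw [Nat.cast_natAbs, Int.cast_abs]; exact h2.le
      have h4 : y.natAbs ≤ M' := Nat.le_floor h3
      rw [Finset.mem_Icc]
      omega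
    have h2 := Finset.card_le_card h1
    rw [Int.card_Icc] at h2
    have h3 : (((M' : ℤ) + 1 - -(M' : ℤ)).toNat) = 2 * M' + 1 := by omega
    rw [h3] at h2
    have h4 : ((((Finset.Icc (-(M : ℤ)) M).filter (fun y : ℤ => |(y : ℝ)| < Y)).card : ℕ) : ℝ) ≤
        ((2 * M' + 1 : ℕ) : ℝ) := by exact_mod_cast h2
    refine h4.trans ?_
    push_cast
    linarith
  calc _ ≤ 3 * (q * Y) * (C * Y) + 3 * Y * (3 * (q * Y)) := by gcongr
    _ = _ := by ring

theorem exw_params (A : ℕ) (hA : 1 ≤ A) : ∃ r N : ℕ, 1 ≤ r ∧ 11 ≤ N ∧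
    2 ^ r * r + 1 + (2 * N + 2) * A ≤ N * (r + 1) ∧ 5 * r + 4 + 2 ^ r ≤ N := by
  refine ⟨4 * A, 8 * 2 ^ (4 * A), by omega, ?_, ?_, ?_⟩
  all_goals
    have h1 : 16 * A ≤ 2 ^ (4 * A) := by
      induction A with
      | zero => omega
      | succ n ih =>
        rcases Nat.eq_zero_or_pos n with rfl | hn
        · norm_num
        · have h2 := ih hn
          have h3 : 2 ^ (4 * (n + 1)) = 16 * 2 ^ (4 * n) := by
            rw [mul_add, pow_add]; norm_num; ring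
          omega
    set e := 2 ^ (4 * A) with he
  · omega
  · have h2 : 1 ≤ e := by omega
    have h3 : A ≤ A * e := Nat.le_mul_of_pos_right A h2
    nlinarith
  · omega

open Classical in
theorem exp_sum_pr (A : ℝ) (hA : 1 ≤ A) (m : ℕ) (hm : 1 ≤ m) : ∃ κ C : ℝ, 0 < κ ∧ κ ≤ 1 / 4 ∧
    1 ≤ C ∧ ∀ x : ℝ, 1 ≤ x → ∀ k : ℤ, k ≠ 0 → |(k : ℝ)| ≤ x ^ A → ∀ c : G,
      ‖∑ z ∈ (Bl x).filter (fun z => (m : G) ∣ z - c), ang k z‖ ≤ C * x ^ (1 - κ) := by
  have hAn : 1 ≤ ⌈A⌉₊ := Nat.one_le_ceil_iff.2 (by linarith)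
  obtain ⟨r, N, hr, hN, h1, h2⟩ := exw_params ⌈A⌉₊ hAn
  have hT0 := exwT_one m 0
  have hTr := exwT_one m r
  set Ct : ℝ := exwT m 0 + exwT m r with hCt
  have hCt1 : 1 ≤ Ct := by linarith
  obtain ⟨C1, hC1, hlarge⟩ := exw_large hm r N _ hr h1 h2 (Ct := Ct) (by linarith)
  set C2 : ℝ := 3 + 3 * (1 / exwK + Ct / exwK ^ 2) with hC2
  have hκ := exwK_pos
  have hC20 : 0 ≤ C2 := by positivity
  have hN0 : (0 : ℝ) < 2 * (N : ℝ) + 2 := by positivity
  have hN11 : (11 : ℝ) ≤ N := by exact_mod_cast hN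
  refine ⟨1 / (2 * (N : ℝ) + 2), 18 * Ct + (200 * m + 36 * m ^ 2) + (3 * (C1 + C2) + 9),
    by positivity, ?_, ?_, ?_⟩
  · apply one_div_le_one_div_of_le (by norm_num)
    linarith
  · have : (0 : ℝ) ≤ 200 * m + 36 * m ^ 2 := by positivity
    linarith
  intro x hx k hk hkA c
  have hx0 : 0 < x := by linarith
  set T : Finset G := (Bl x).filter (fun z => (m : G) ∣ z - c) with hT
  set q : ℝ := x ^ (1 / (2 * (N : ℝ) + 2)) with hq
  have hq1 : 1 ≤ q := Real.one_le_rpow hx (by positivity)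
  have hq0 : 0 < q := by linarith
  have hqp : ∀ n : ℕ, q ^ n = x ^ ((n : ℝ) / (2 * (N : ℝ) + 2)) := by
    intro n
    rw [hq, ← Real.rpow_natCast, ← Real.rpow_mul hx0.le]
    congr 1
    ring
  have hxq : x = (q * q ^ N) ^ 2 := by
    have h3 : (q * q ^ N) ^ 2 = q ^ (2 * N + 2) := by ring
    rw [h3, hqp]
    push_cast
    rw [div_self hN0.ne', Real.rpow_one]
  have hmain : x ^ (1 - 1 / (2 * (N : ℝ) + 2)) = q * (q ^ N) ^ 2 := by
    have h3 : q * (q ^ N) ^ 2 = q ^ (2 * N + 1) := by ring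
    rw [h3, hqp]
    congr 1
    push_cast
    field_simp
    ring
  rw [hmain]
  set Y : ℝ := q ^ N with hY
  have hY1 : 1 ≤ Y := one_le_pow₀ hq1
  have hqY2 : 1 ≤ q * Y ^ 2 := by nlinarith [one_le_pow₀ hY1 (n := 2)]
  have hm0 : (0 : ℝ) ≤ 200 * m + 36 * m ^ 2 := by positivity
  have hk1 : 1 ≤ |(k : ℝ)| := by
    have : 1 ≤ |k| := Int.one_le_abs hk
    exact_mod_cast this
  have hfinish : ∀ a b : ℝ, a ≤ 18 * Ct + (200 * m + 36 * m ^ 2) + (3 * (C1 + C2) + 9) →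
      b ≤ a * (q * Y ^ 2) →
      b ≤ (18 * Ct + (200 * m + 36 * m ^ 2) + (3 * (C1 + C2) + 9)) * (q * Y ^ 2) := by
    intro a b ha hb
    refine hb.trans ?_
    apply mul_le_mul_of_nonneg_right ha (by linarith)
  rcases lt_or_ge q (2 * Ct) with hq2 | hq2
  · -- small `x`
    apply hfinish (18 * Ct) _ (by linarith)
    have h3 : ‖∑ z ∈ T, ang k z‖ ≤ 9 * x := by
      refine (norm_sum_le _ _).trans ?_
      have : ∑ z ∈ T, ‖ang k z‖ ≤ ∑ z ∈ T, (1 : ℝ) :=
        Finset.sum_le_sum fun z _ => exwA_le hk _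
      refine this.trans ?_
      rw [Finset.sum_const, nsmul_eq_mul, mul_one]
      refine le_trans ?_ (exw_card hx)
      exact_mod_cast Finset.card_filter_le _ _
    refine h3.trans ?_
    calc 9 * x = 9 * q * (q * Y ^ 2) := by rw [hxq]; ring
      _ ≤ 9 * (2 * Ct) * (q * Y ^ 2) := by gcongr
      _ = _ := by ring
  rcases lt_or_ge |(k : ℝ)| (q ^ 5) with hk5 | hk5
  · -- small frequencies
    apply hfinish (200 * m + 36 * m ^ 2) _ (by linarith)
    refine (exw_small m hm hx hk c).trans ?_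
    rw [mul_assoc]
    apply mul_le_mul_of_nonneg_left _ hm0
    calc |(k : ℝ)| * x ^ (3 / 4 : ℝ) ≤ q ^ 5 * x ^ (3 / 4 : ℝ) := by gcongr
      _ = x ^ (((5 : ℕ) : ℝ) / (2 * (N : ℝ) + 2) + 3 / 4) := by
          rw [hqp, ← Real.rpow_add hx0]
      _ ≤ x ^ (1 - 1 / (2 * (N : ℝ) + 2)) := by
          apply Real.rpow_le_rpow_of_exponent_le hx
          have h3 : 6 / (2 * (N : ℝ) + 2) ≤ 1 / 4 := by
            rw [div_le_div_iff₀ hN0 (by norm_num)]
            linarith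
          have h4 : 6 / (2 * (N : ℝ) + 2) =
              ((5 : ℕ) : ℝ) / (2 * (N : ℝ) + 2) + 1 / (2 * (N : ℝ) + 2) := by
            rw [← add_div]; norm_num
          linarith
      _ = q * Y ^ 2 := hmain
  have hTmem : ∀ z, z ∈ T ↔ (z ≠ 0 ∧ (nn z : ℝ) ≤ (q * Y) ^ 2) ∧ (m : G) ∣ z - c := by
    intro z
    rw [hT, Finset.mem_filter, mem_Bl, ← hxq]
  rcases le_or_gt (2 * Ct * |(k : ℝ)|) Y with hkm | hkm
  · -- medium frequencies
    apply hfinish (3 * C2 + 9) _ (by linarith)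
    have hqY : q ≤ Y := by
      calc q = q ^ 1 := (pow_one q).symm
        _ ≤ q ^ N := pow_le_pow_right₀ hq1 (by omega)
    exact exw_total hm c hk hq1 hY1 hC20 (fun y hy a b hR =>
      exw_med hm hq1 hqY (by linarith) hk5 hkm hy hR) T hTmem
  · -- large frequencies
    apply hfinish (3 * C1 + 9) _ (by linarith)
    have hkB : |(k : ℝ)| ≤ q ^ ((2 * N + 2) * ⌈A⌉₊) := by
      refine hkA.trans ?_
      rw [hqp]
      apply Real.rpow_le_rpow_of_exponent_le hx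
      push_cast
      rw [mul_div_assoc, mul_comm, div_mul_cancel₀ _ hN0.ne']
      exact Nat.le_ceil A
    exact exw_total hm c hk hq1 hY1 hC1 (fun y hy a b hR =>
      hlarge c.re k y q hq1 hq2 hkm.le hkB hy a b hR) T hTmem

end

end Pool.Agent.T2


namespace Pool.Agent.T2

theorem exp_sum : type_of% @exp_sum_pr := @exp_sum_pr

end Pool.Agent.T2
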