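import Pool.Agent.Lib_helper10.T2.Defs
import Pool.Agent.Lib_helper10.T2F.BAS
import Pool.Agent.Lib_helper10.T2F.CNT
import Pool.Agent.Lib_helper10.T2F.EXW
import Pool.Agent.Lib_helper10.T2F.MOE

/-! T2, block EXP (helper34): consequences of exp_sum -/

namespace Pool.Agent.T2

section

open Filter Topology MeasureTheory

theorem exp_dvd (m : ℕ) (z : G) : (m : G) ∣ z ↔ (m : ℤ) ∣ z.re ∧ (m : ℤ) ∣ z.im := by
  have : (m : G) = ((m : ℤ) : G) := by push_cast; rfl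
  rw [this, Zsqrtd.intCast_dvd]

theorem exp_star_mul (m : G) : ((nn m : ℕ) : G) = m * star m := by
  have h1 : ((nn m : ℕ) : ℤ) = m.norm := by
    rw [nn]
    exact Int.natAbs_of_nonneg (GaussianInt.norm_nonneg m)
  have h2 : ((nn m : ℕ) : G) = (((nn m : ℕ) : ℤ) : G) := by push_cast; rfl
  rw [h2, h1, Zsqrtd.norm_eq_mul_conj]

theorem exp_per_pr (A : ℝ) (hA : 1 ≤ A) (m : G) (hm : m ≠ 0) : ∃ κ C : ℝ, 0 < κ ∧ κ ≤ 1 / 4 ∧
    1 ≤ C ∧ ∀ f : G → ℂ, (∀ z w, f (z + m * w) = f z) → (∀ z, ‖f z‖ ≤ 1) →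
    ∀ x : ℝ, 1 ≤ x → ∀ k : ℤ, k ≠ 0 → |(k : ℝ)| ≤ x ^ A →
      ‖∑ z ∈ Bl x, f z * ang k z‖ ≤ C * x ^ (1 - κ) := by
  classical
  set M : ℕ := nn m with hM
  have hM1 : 1 ≤ M := nn_pos.2 hm
  have hMz : (0 : ℤ) < M := by exact_mod_cast hM1
  obtain ⟨κ, C, hκ, hκ4, hC, h⟩ := exp_sum A hA M hM1
  have hMr : (1 : ℝ) ≤ (M : ℝ) ^ 2 := by
    apply one_le_pow₀
    exact_mod_cast hM1
  refine ⟨κ, (M : ℝ) ^ 2 * C, hκ, hκ4, by nlinarith, ?_⟩
  intro f hf hf1 x hx k hk hkx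
  have hfM : ∀ z c : G, (M : G) ∣ z - c → f z = f c := by
    rintro z c ⟨w, hw⟩
    have h1 : z = c + m * (star m * w) := by
      rw [← mul_assoc, ← exp_star_mul, ← hw]; ring
    rw [h1, hf]
  set R : Finset (ℤ × ℤ) := Finset.Ico (0 : ℤ) M ×ˢ Finset.Ico (0 : ℤ) M with hR
  have hmaps : ∀ z ∈ Bl x, (z.re % (M : ℤ), z.im % (M : ℤ)) ∈ R := by
    intro z _
    rw [hR, Finset.mem_product, Finset.mem_Ico, Finset.mem_Ico]
    exact ⟨⟨Int.emod_nonneg _ hMz.ne', Int.emod_lt_of_pos _ hMz⟩,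
      Int.emod_nonneg _ hMz.ne', Int.emod_lt_of_pos _ hMz⟩
  rw [← Finset.sum_fiberwise_of_maps_to hmaps]
  refine (norm_sum_le _ _).trans ?_
  have hb : ∀ p ∈ R, ‖∑ z ∈ Bl x with (z.re % (M : ℤ), z.im % (M : ℤ)) = p, f z * ang k z‖ ≤
      C * x ^ (1 - κ) := by
    rintro ⟨i, j⟩ hp
    rw [hR, Finset.mem_product, Finset.mem_Ico, Finset.mem_Ico] at hp
    simp only at hp
    have hset : (Bl x).filter (fun z => (z.re % (M : ℤ), z.im % (M : ℤ)) = (i, j)) =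
        (Bl x).filter (fun z => (M : G) ∣ z - ⟨i, j⟩) := by
      apply Finset.filter_congr
      intro z _
      rw [exp_dvd, Prod.mk.injEq]
      have e1 : (z - (⟨i, j⟩ : G)).re = z.re - i := by simp
      have e2 : (z - (⟨i, j⟩ : G)).im = z.im - j := by simp
      rw [e1, e2]
      have key : ∀ a i : ℤ, 0 ≤ i → i < M → (a % (M : ℤ) = i ↔ (M : ℤ) ∣ a - i) := by
        intro a i h0 h1
        constructor
        · intro h2
          have h3 := Int.mul_ediv_add_emod a M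
          exact ⟨a / M, by linarith⟩
        · rintro ⟨t, ht⟩
          have h3 : a = i + M * t := by linarith
          rw [h3, Int.add_mul_emod_self_left, Int.emod_eq_of_lt h0 h1]
      rw [key z.re i hp.1.1 hp.1.2, key z.im j hp.2.1 hp.2.2]
    rw [hset]
    have h1 : ∑ z ∈ (Bl x).filter (fun z => (M : G) ∣ z - ⟨i, j⟩), f z * ang k z =
        f ⟨i, j⟩ * ∑ z ∈ (Bl x).filter (fun z => (M : G) ∣ z - ⟨i, j⟩), ang k z := by
      rw [Finset.mul_sum]
      apply Finset.sum_congr rfl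
      intro z hz
      rw [hfM z ⟨i, j⟩ (Finset.mem_filter.1 hz).2]
    rw [h1, norm_mul]
    have h2 := h x hx k hk hkx ⟨i, j⟩
    have h3 := hf1 (⟨i, j⟩ : G)
    have h4 : (0 : ℝ) ≤ C * x ^ (1 - κ) := (norm_nonneg _).trans h2
    calc ‖f ⟨i, j⟩‖ * _ ≤ 1 * (C * x ^ (1 - κ)) :=
          mul_le_mul h3 h2 (norm_nonneg _) zero_le_one
      _ = _ := one_mul _
  refine (Finset.sum_le_sum hb).trans ?_
  rw [Finset.sum_const, nsmul_eq_mul, hR, Finset.card_product, Int.card_Ico]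
  apply le_of_eq
  have : ((M : ℤ) - 0).toNat = M := by simp
  rw [this]
  push_cast
  ring

theorem exp_prim_pr (A : ℝ) (hA : 1 ≤ A) : ∃ κ C : ℝ, 0 < κ ∧ κ ≤ 1 / 4 ∧ 1 ≤ C ∧
    ∀ x : ℝ, 1 ≤ x → ∀ k : ℤ, k ≠ 0 → |(k : ℝ)| ≤ x ^ A →
      ‖∑ z ∈ PB x, ang k z‖ ≤ C * x ^ (1 - κ) := by
  classical
  obtain ⟨κ, C, hκ, hκ4, hC, h⟩ := exp_per_pr (2 * A) (by linarith) 1 one_ne_zero
  obtain ⟨C₀, hC₀, hball⟩ := ball_le
  refine ⟨κ / 4, C + 2 * C₀, by linarith, by linarith, by linarith, ?_⟩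
  intro x hx k hk hkx
  have hx0 : 0 < x := by linarith
  set D : ℕ := ⌊Real.sqrt x⌋₊ with hD
  have hs0 : 0 ≤ Real.sqrt x := Real.sqrt_nonneg x
  have hDx : x < ((D : ℝ) + 1) ^ 2 := by
    have h1 : Real.sqrt x < D + 1 := Nat.lt_floor_add_one _
    rw [← Real.sq_sqrt hx0.le]
    apply pow_lt_pow_left₀ h1 hs0 (by norm_num)
  have hDle : (D : ℝ) ≤ Real.sqrt x := Nat.floor_le hs0
  rw [prim_moebius (fun z => ang k z) x D hDx]
  set z₀ : ℝ := x ^ (κ / 4) with hz₀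
  have hz1 : 1 ≤ z₀ := Real.one_le_rpow hx (by linarith)
  set K : ℕ := ⌊z₀⌋₊ with hK
  have hKle : (K : ℝ) ≤ z₀ := Nat.floor_le (by linarith)
  have hKlt : z₀ < K + 1 := Nat.lt_floor_add_one _
  have hX : (1 : ℝ) ≤ x ^ (1 - κ) := Real.one_le_rpow hx (by linarith)
  refine (norm_sum_le _ _).trans ?_
  -- the bound for each divisor
  have hb : ∀ d ∈ Finset.Icc 1 D, ‖(ArithmeticFunction.moebius d : ℂ) *
      ∑ z ∈ Bl (x / (d : ℝ) ^ 2), ang k (d * z)‖ ≤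
      (if d ≤ K then C * x ^ (1 - κ) else C₀ * x * ((d : ℝ) ^ 2)⁻¹) := by
    intro d hd
    rw [Finset.mem_Icc] at hd
    have hd1 : (1 : ℝ) ≤ d := by exact_mod_cast hd.1
    have hdD : (d : ℝ) ≤ Real.sqrt x := le_trans (by exact_mod_cast hd.2) hDle
    have hd2 : (d : ℝ) ^ 2 ≤ x := by
      rw [← Real.sq_sqrt hx0.le]
      exact pow_le_pow_left₀ (by linarith) hdD 2
    have hmu : ‖(ArithmeticFunction.moebius d : ℂ)‖ ≤ 1 := by
      rw [Complex.norm_intCast, ← Int.cast_abs]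
      exact_mod_cast ArithmeticFunction.abs_moebius_le_one
    have hang : ∑ z ∈ Bl (x / (d : ℝ) ^ 2), ang k (d * z) =
        ∑ z ∈ Bl (x / (d : ℝ) ^ 2), ang k z := by
      apply Finset.sum_congr rfl
      intro z _
      rw [ang_mul, ang_nat k hd.1, one_mul]
    rw [hang, norm_mul]
    have hnn := norm_nonneg (∑ z ∈ Bl (x / (d : ℝ) ^ 2), ang k z)
    have h1 : ‖(ArithmeticFunction.moebius d : ℂ)‖ * ‖∑ z ∈ Bl (x / (d : ℝ) ^ 2), ang k z‖ ≤
        ‖∑ z ∈ Bl (x / (d : ℝ) ^ 2), ang k z‖ := mul_le_of_le_one_left hnn hmu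
    refine h1.trans ?_
    have hxd1 : 1 ≤ x / (d : ℝ) ^ 2 := by
      rw [le_div_iff₀ (by positivity), one_mul]; exact hd2
    split_ifs with hdK
    · have hdz : (d : ℝ) ≤ z₀ := le_trans (by exact_mod_cast hdK) hKle
      have hdx : (d : ℝ) ^ 2 ≤ x ^ (1 / 2 : ℝ) := by
        calc (d : ℝ) ^ 2 ≤ z₀ ^ 2 := pow_le_pow_left₀ (by linarith) hdz 2
          _ = x ^ (κ / 4 * 2) := by
              rw [hz₀, ← Real.rpow_natCast, ← Real.rpow_mul hx0.le]
              norm_num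
          _ ≤ x ^ (1 / 2 : ℝ) := Real.rpow_le_rpow_of_exponent_le hx (by linarith)
      have hxd : x ^ (1 / 2 : ℝ) ≤ x / (d : ℝ) ^ 2 := by
        rw [le_div_iff₀ (by positivity)]
        calc x ^ (1 / 2 : ℝ) * (d : ℝ) ^ 2 ≤ x ^ (1 / 2 : ℝ) * x ^ (1 / 2 : ℝ) := by gcongr
          _ = x := by rw [← Real.rpow_add hx0]; norm_num
      have hkd : |(k : ℝ)| ≤ (x / (d : ℝ) ^ 2) ^ (2 * A) := by
        refine hkx.trans ?_
        calc x ^ A = (x ^ (1 / 2 : ℝ)) ^ (2 * A) := by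
              rw [← Real.rpow_mul hx0.le]; congr 1; ring
          _ ≤ (x / (d : ℝ) ^ 2) ^ (2 * A) :=
              Real.rpow_le_rpow (by positivity) hxd (by linarith)
      have h2 := h (fun _ => 1) (fun _ _ => rfl) (fun _ => by simp) _ hxd1 k hk hkd
      simp only [one_mul] at h2
      refine h2.trans ?_
      apply mul_le_mul_of_nonneg_left _ (by linarith)
      apply Real.rpow_le_rpow (by linarith) _ (by linarith)
      apply div_le_self hx0.le
      exact one_le_pow₀ hd1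
    · have h2 : ‖∑ z ∈ Bl (x / (d : ℝ) ^ 2), ang k z‖ ≤ ((Bl (x / (d : ℝ) ^ 2)).card : ℝ) := by
        refine (norm_sum_le _ _).trans ?_
        refine (Finset.sum_le_sum fun z _ => ang_le k z).trans ?_
        simp
      refine h2.trans ((hball _ (by linarith)).trans (le_of_eq ?_))
      ring
  refine (Finset.sum_le_sum hb).trans ?_
  rw [Finset.sum_ite]
  have hA1 : ∑ d ∈ (Finset.Icc 1 D).filter (fun d => d ≤ K), C * x ^ (1 - κ) ≤
      C * x ^ (1 - κ / 4) := by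
    rw [Finset.sum_const, nsmul_eq_mul]
    have hcard : (((Finset.Icc 1 D).filter (fun d => d ≤ K)).card : ℝ) ≤ z₀ := by
      refine le_trans ?_ hKle
      have h1 : (Finset.Icc 1 D).filter (fun d => d ≤ K) ⊆ Finset.Icc 1 K := by
        intro d hd
        rw [Finset.mem_filter, Finset.mem_Icc] at hd
        rw [Finset.mem_Icc]
        exact ⟨hd.1.1, hd.2⟩
      have h2 := Finset.card_le_card h1
      rw [Nat.card_Icc] at h2
      have h3 : ((Finset.Icc 1 D).filter (fun d => d ≤ K)).card ≤ K := by omega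
      exact_mod_cast h3
    calc _ ≤ z₀ * (C * x ^ (1 - κ)) := by gcongr
      _ = C * (x ^ (κ / 4) * x ^ (1 - κ)) := by rw [hz₀]; ring
      _ = C * x ^ (κ / 4 + (1 - κ)) := by rw [← Real.rpow_add hx0]
      _ ≤ C * x ^ (1 - κ / 4) := by
          apply mul_le_mul_of_nonneg_left _ (by linarith)
          exact Real.rpow_le_rpow_of_exponent_le hx (by linarith)
  have hA2 : ∑ d ∈ (Finset.Icc 1 D).filter (fun d => ¬ d ≤ K), C₀ * x * ((d : ℝ) ^ 2)⁻¹ ≤
      2 * C₀ * x ^ (1 - κ / 4) := by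
    rw [← Finset.mul_sum]
    have h1 : ∑ d ∈ (Finset.Icc 1 D).filter (fun d => ¬ d ≤ K), ((d : ℝ) ^ 2)⁻¹ ≤ 2 / z₀ := by
      have hsub : (Finset.Icc 1 D).filter (fun d => ¬ d ≤ K) ⊆ Finset.Ioo K (D + 1) := by
        intro d hd
        rw [Finset.mem_filter, Finset.mem_Icc] at hd
        rw [Finset.mem_Ioo]
        omega
      refine (Finset.sum_le_sum_of_subset_of_nonneg hsub fun _ _ _ => by positivity).trans ?_
      refine (sum_Ioo_inv_sq_le K (D + 1)).trans ?_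
      apply div_le_div_of_nonneg_left (by norm_num) (by linarith) hKlt.le
    calc _ ≤ C₀ * x * (2 / z₀) := by gcongr
      _ = 2 * C₀ * (x ^ (1 : ℝ) * x ^ (-(κ / 4))) := by
          rw [hz₀, Real.rpow_neg hx0.le, Real.rpow_one]
          ring
      _ = 2 * C₀ * x ^ (1 - κ / 4) := by
          rw [← Real.rpow_add hx0]
          congr 1
  linarith

end

end Pool.Agent.T2


namespace Pool.Agent.T2

theorem exp_per : type_of% @exp_per_pr := @exp_per_pr
theorem exp_prim : type_of% @exp_prim_pr := @exp_prim_pr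

end Pool.Agent.T2
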