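import Pool.Agent.Lib_helper10.T2.Defs
import Pool.Agent.Lib_helper10.T2F.BAS
import Pool.Agent.Lib_helper10.T2F.CNT
import Pool.Agent.Lib_helper10.T2F.EXP

/-! T2, block HMO: the inequality of Halasz and Montgomery -/

namespace Pool.Agent.T2

open Filter Topology MeasureTheory

/-- duality -/
theorem hmo_dual {ι κ : Type*} (U : Finset ι) (S : Finset κ) (a : ι → κ → ℂ) (Δ : ℝ) (hΔ : 0 ≤ Δ)
    (h : ∀ b : ι → ℂ, ∑ z ∈ S, ‖∑ k ∈ U, b k * a k z‖ ^ 2 ≤ Δ * ∑ k ∈ U, ‖b k‖ ^ 2)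
    (c : κ → ℂ) :
    ∑ k ∈ U, ‖∑ z ∈ S, c z * a k z‖ ^ 2 ≤ Δ * ∑ z ∈ S, ‖c z‖ ^ 2 := by
  classical
  set T : ι → ℂ := fun k => ∑ z ∈ S, c z * a k z with hT
  set A : ℝ := ∑ k ∈ U, ‖T k‖ ^ 2 with hA
  have hA0 : 0 ≤ A := Finset.sum_nonneg fun k _ => by positivity
  set W : κ → ℂ := fun z => ∑ k ∈ U, (starRingEnd ℂ) (T k) * a k z with hW
  have h1 : (A : ℂ) = ∑ z ∈ S, c z * W z := by
    have e1 : (A : ℂ) = ∑ k ∈ U, (starRingEnd ℂ) (T k) * T k := by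
      rw [hA, Complex.ofReal_sum]
      refine Finset.sum_congr rfl fun k _ => ?_
      rw [← Complex.normSq_eq_conj_mul_self, Complex.normSq_eq_norm_sq]
    rw [e1]
    simp only [hT, hW, Finset.mul_sum]
    rw [Finset.sum_comm]
    refine Finset.sum_congr rfl fun z _ => Finset.sum_congr rfl fun k _ => by ring
  have h2 : A ≤ ∑ z ∈ S, ‖c z‖ * ‖W z‖ := by
    have e1 : A = ‖(A : ℂ)‖ := by rw [Complex.norm_real, Real.norm_of_nonneg hA0]
    rw [e1, h1]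
    refine (norm_sum_le _ _).trans (Finset.sum_le_sum fun z _ => ?_)
    rw [norm_mul]
  have h3 : A ^ 2 ≤ (∑ z ∈ S, ‖c z‖ ^ 2) * ∑ z ∈ S, ‖W z‖ ^ 2 :=
    (pow_le_pow_left₀ hA0 h2 2).trans (Finset.sum_mul_sq_le_sq_mul_sq _ _ _)
  have h4 : ∑ z ∈ S, ‖W z‖ ^ 2 ≤ Δ * A := by
    refine (h fun k => (starRingEnd ℂ) (T k)).trans (le_of_eq ?_)
    simp [hA]
  rcases hA0.eq_or_lt with h0 | h0
  · rw [← h0]
    exact mul_nonneg hΔ (Finset.sum_nonneg fun z _ => by positivity)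
  · have h5 : A * A ≤ A * (Δ * ∑ z ∈ S, ‖c z‖ ^ 2) := by
      have hc0 : 0 ≤ ∑ z ∈ S, ‖c z‖ ^ 2 := Finset.sum_nonneg fun z _ => by positivity
      nlinarith [mul_le_mul_of_nonneg_left h4 hc0]
    exact le_of_mul_le_mul_left h5 h0

/-- the Gram matrix bound -/
theorem hmo_gram {ι κ : Type*} [DecidableEq ι] (U : Finset ι) (S : Finset κ) (w : κ → ℝ)
    (a : ι → κ → ℂ) (D E : ℝ)
    (hD : ∀ k ∈ U, ‖∑ z ∈ S, (w z : ℂ) * (a k z * (starRingEnd ℂ) (a k z))‖ ≤ D)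
    (hE : ∀ k ∈ U, ∀ l ∈ U, k ≠ l →
      ‖∑ z ∈ S, (w z : ℂ) * (a k z * (starRingEnd ℂ) (a l z))‖ ≤ E) (hE0 : 0 ≤ E)
    (b : ι → ℂ) :
    ∑ z ∈ S, w z * ‖∑ k ∈ U, b k * a k z‖ ^ 2 ≤ (D + E * U.card) * ∑ k ∈ U, ‖b k‖ ^ 2 := by
  set G : ι → ι → ℂ := fun k l => ∑ z ∈ S, (w z : ℂ) * (a k z * (starRingEnd ℂ) (a l z)) with hG
  set L : ℝ := ∑ z ∈ S, w z * ‖∑ k ∈ U, b k * a k z‖ ^ 2 with hL
  have h1 : (L : ℂ) = ∑ k ∈ U, ∑ l ∈ U, b k * (starRingEnd ℂ) (b l) * G k l := by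
    have e1 : (L : ℂ) = ∑ z ∈ S, (w z : ℂ) *
        ((∑ k ∈ U, b k * a k z) * (starRingEnd ℂ) (∑ l ∈ U, b l * a l z)) := by
      rw [hL, Complex.ofReal_sum]
      refine Finset.sum_congr rfl fun z _ => ?_
      rw [Complex.mul_conj, Complex.normSq_eq_norm_sq]
      push_cast
      ring
    have e2 : ∀ z ∈ S, (w z : ℂ) *
        ((∑ k ∈ U, b k * a k z) * (starRingEnd ℂ) (∑ l ∈ U, b l * a l z)) =
        ∑ k ∈ U, ∑ l ∈ U, b k * (starRingEnd ℂ) (b l) *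
          ((w z : ℂ) * (a k z * (starRingEnd ℂ) (a l z))) := by
      intro z _
      rw [map_sum, Finset.sum_mul_sum, Finset.mul_sum]
      refine Finset.sum_congr rfl fun k _ => ?_
      rw [Finset.mul_sum]
      refine Finset.sum_congr rfl fun l _ => ?_
      rw [map_mul]
      ring
    rw [e1, Finset.sum_congr rfl e2, Finset.sum_comm]
    refine Finset.sum_congr rfl fun k _ => ?_
    rw [Finset.sum_comm]
    refine Finset.sum_congr rfl fun l _ => ?_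
    rw [hG, Finset.mul_sum]
  have h2 : L ≤ ∑ k ∈ U, ∑ l ∈ U, ‖b k‖ * ‖b l‖ * ‖G k l‖ := by
    refine (le_abs_self L).trans ?_
    rw [← Complex.norm_real L |>.trans (Real.norm_eq_abs L), h1]
    refine (norm_sum_le _ _).trans (Finset.sum_le_sum fun k _ => ?_)
    refine (norm_sum_le _ _).trans (Finset.sum_le_sum fun l _ => ?_)
    rw [norm_mul, norm_mul, RCLike.norm_conj]
  refine h2.trans ?_
  have h3 : ∀ k ∈ U, ∀ l ∈ U, ‖b k‖ * ‖b l‖ * ‖G k l‖ ≤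
      (if k = l then D * ‖b k‖ ^ 2 else 0) + E * ((‖b k‖ ^ 2 + ‖b l‖ ^ 2) / 2) := by
    intro k hk l hl
    have hbk := norm_nonneg (b k)
    have hbl := norm_nonneg (b l)
    by_cases hkl : k = l
    · subst hkl
      simp only [if_true]
      have := hD k hk
      have e : ‖b k‖ * ‖b k‖ * ‖G k k‖ ≤ D * ‖b k‖ ^ 2 := by
        calc ‖b k‖ * ‖b k‖ * ‖G k k‖ ≤ ‖b k‖ * ‖b k‖ * D :=
              mul_le_mul_of_nonneg_left this (by positivity)
          _ = D * ‖b k‖ ^ 2 := by ring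
      have e2 : 0 ≤ E * ((‖b k‖ ^ 2 + ‖b k‖ ^ 2) / 2) := by positivity
      linarith
    · simp only [if_neg hkl, zero_add]
      have e1 := hE k hk l hl hkl
      have e2 : ‖b k‖ * ‖b l‖ ≤ (‖b k‖ ^ 2 + ‖b l‖ ^ 2) / 2 := by nlinarith [sq_nonneg (‖b k‖ - ‖b l‖)]
      calc ‖b k‖ * ‖b l‖ * ‖G k l‖ ≤ (‖b k‖ ^ 2 + ‖b l‖ ^ 2) / 2 * E :=
            mul_le_mul e2 e1 (norm_nonneg _) (by positivity)
        _ = _ := by ring
  refine (Finset.sum_le_sum fun k hk => Finset.sum_le_sum fun l hl => h3 k hk l hl).trans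
    (le_of_eq ?_)
  have h4 : ∀ k ∈ U, ∑ l ∈ U, ((if k = l then D * ‖b k‖ ^ 2 else 0) +
      E * ((‖b k‖ ^ 2 + ‖b l‖ ^ 2) / 2)) =
      D * ‖b k‖ ^ 2 + E / 2 * (U.card * ‖b k‖ ^ 2 + ∑ l ∈ U, ‖b l‖ ^ 2) := by
    intro k hk
    rw [Finset.sum_add_distrib, Finset.sum_ite_eq, if_pos hk, ← Finset.mul_sum,
      ← Finset.sum_div, Finset.sum_add_distrib, Finset.sum_const, nsmul_eq_mul]
    ring
  rw [Finset.sum_congr rfl h4, Finset.sum_add_distrib, ← Finset.mul_sum, ← Finset.mul_sum,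
    Finset.sum_add_distrib, Finset.sum_const, nsmul_eq_mul, ← Finset.mul_sum]
  ring

theorem hal_mon_pr (δ : ℝ) (hδ : 0 < δ) (hδ1 : δ ≤ 1) : ∃ α C : ℝ, 0 < α ∧ 1 ≤ C ∧
    ∀ X : ℝ, 1 ≤ X → ∀ U : Finset ℤ, U ⊆ Ks X → (U.card : ℝ) ≤ X ^ α →
    ∀ x : ℝ, X ^ δ ≤ x → ∀ c : G → ℂ,
      ∑ k ∈ U, ‖∑ z ∈ PB x, c z * ang k z‖ ^ 2 ≤ C * x * ∑ z ∈ PB x, ‖c z‖ ^ 2 := by
  have hA : 1 ≤ 1 / δ + 1 := by
    have : 0 < 1 / δ := by positivity
    linarith
  obtain ⟨κ, C₁, hκ, hκ1, hC₁, hexp⟩ := exp_prim (1 / δ + 1) hA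
  obtain ⟨C₂, hC₂, hball⟩ := ball_le
  -- for x < 2
  set N₀ : ℝ := 2 * (2 : ℝ) ^ (1 / δ) + 1 with hN₀
  have hN₀1 : 1 ≤ N₀ := by
    have : (0:ℝ) < (2 : ℝ) ^ (1 / δ) := by positivity
    linarith
  refine ⟨δ * κ, C₂ + C₁ + 2 * C₂ * N₀, by positivity, by nlinarith, ?_⟩
  intro X hX U hU hUc x hx c
  have hX0 : 0 < X := by linarith
  have hx1 : 1 ≤ x := (Real.one_le_rpow hX hδ.le).trans hx
  have hx0 : 0 < x := by linarith
  have hcard : ((PB x).card : ℝ) ≤ C₂ * x := by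
    refine le_trans ?_ (hball x hx0.le)
    have : (PB x).card ≤ (Bl x).card := by
      classical
      unfold PB
      exact Finset.card_filter_le _ _
    exact_mod_cast this
  have hne : ∀ z ∈ PB x, z ≠ 0 := fun z hz => prm_ne (mem_PB.1 hz).1
  have hX2 : X ≤ x ^ (1 / δ) := by
    have h1 : (X ^ δ) ^ (1 / δ) ≤ x ^ (1 / δ) :=
      Real.rpow_le_rpow (by positivity) hx (by positivity)
    rwa [← Real.rpow_mul hX0.le, mul_one_div, div_self hδ.ne', Real.rpow_one] at h1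
  set E : ℝ := if 2 ≤ x then C₁ * x ^ (1 - κ) else C₂ * x with hE
  have hE0 : 0 ≤ E := by
    rw [hE]; split_ifs <;> positivity
  have hgr : ∀ k l : ℤ, ∀ z ∈ PB x, ang k z * (starRingEnd ℂ) (ang l z) = ang (k - l) z := by
    intro k l z hz
    rw [ang_conj l (hne z hz), ← ang_add _ _ (hne z hz), sub_eq_add_neg]
  have key : ∀ b : ℤ → ℂ, ∑ z ∈ PB x, ‖∑ k ∈ U, b k * ang k z‖ ^ 2 ≤
      (C₂ * x + E * U.card) * ∑ k ∈ U, ‖b k‖ ^ 2 := by
    intro b
    have h := hmo_gram U (PB x) (fun _ => 1) (fun k z => ang k z) (C₂ * x) E ?_ ?_ hE0 b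
    · simpa using h
    · intro k _
      refine le_trans (norm_sum_le _ _) (le_trans ?_ hcard)
      have : ∀ z ∈ PB x, ‖((1 : ℝ) : ℂ) * (ang k z * (starRingEnd ℂ) (ang k z))‖ ≤ 1 := by
        intro z hz
        rw [hgr k k z hz, sub_self, ang_zero']
        simp
      refine (Finset.sum_le_sum this).trans ?_
      simp
    · intro k hk l hl hkl
      have e1 : ∑ z ∈ PB x, (((1 : ℝ) : ℂ)) * (ang k z * (starRingEnd ℂ) (ang l z)) =
          ∑ z ∈ PB x, ang (k - l) z := by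
        refine Finset.sum_congr rfl fun z hz => ?_
        rw [hgr k l z hz]; simp
      rw [e1, hE]
      split_ifs with h2
      · refine hexp x hx1 (k - l) (sub_ne_zero.2 hkl) ?_
        have hk' := mem_Ks.1 (hU hk)
        have hl' := mem_Ks.1 (hU hl)
        have e2 : |((k - l : ℤ) : ℝ)| ≤ 2 * X := by
          push_cast
          calc |(k : ℝ) - l| ≤ |(k : ℝ)| + |(l : ℝ)| := abs_sub _ _
            _ ≤ 2 * X := by linarith
        refine e2.trans ?_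
        rw [Real.rpow_add hx0, Real.rpow_one, mul_comm]
        exact mul_le_mul hX2 h2 (by norm_num) (by positivity)
      · refine le_trans (norm_sum_le _ _) (le_trans ?_ hcard)
        refine (Finset.sum_le_sum fun z _ => ang_le (k - l) z).trans ?_
        simp
  have hfin := hmo_dual U (PB x) (fun k z => ang k z) (C₂ * x + E * U.card)
    (by positivity) key c
  refine hfin.trans (mul_le_mul_of_nonneg_right ?_
    (Finset.sum_nonneg fun z _ => by positivity))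
  have hEU : E * U.card ≤ (C₁ + 2 * C₂ * N₀) * x := by
    rw [hE]
    split_ifs with h2
    · have e1 : (U.card : ℝ) ≤ x ^ κ := by
        refine hUc.trans ?_
        rw [Real.rpow_mul hX0.le]
        exact Real.rpow_le_rpow (by positivity) hx hκ.le
      calc C₁ * x ^ (1 - κ) * U.card ≤ C₁ * x ^ (1 - κ) * x ^ κ :=
            mul_le_mul_of_nonneg_left e1 (by positivity)
        _ = C₁ * x := by
            rw [mul_assoc, ← Real.rpow_add hx0]; simp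
        _ ≤ (C₁ + 2 * C₂ * N₀) * x := by
            refine mul_le_mul_of_nonneg_right ?_ hx0.le
            have : 0 ≤ 2 * C₂ * N₀ := by positivity
            linarith
    · have hXb : X ≤ (2 : ℝ) ^ (1 / δ) :=
        hX2.trans (Real.rpow_le_rpow hx0.le (by linarith) (by positivity))
      have e1 : (U.card : ℝ) ≤ N₀ := by
        have e2 : U.card ≤ (Ks X).card := Finset.card_le_card hU
        have e3 : ((Ks X).card : ℝ) ≤ 2 * X + 1 := by
          unfold Ks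
          rw [Int.card_Icc]
          have hf : (0:ℤ) ≤ ⌊X⌋ := Int.floor_nonneg.2 hX0.le
          have hf1 := Int.floor_le X
          have : ((⌊X⌋ + 1 - -⌊X⌋).toNat : ℤ) = 2 * ⌊X⌋ + 1 := by
            rw [Int.toNat_of_nonneg (by omega)]; ring
          have h' : (((⌊X⌋ + 1 - -⌊X⌋).toNat : ℤ) : ℝ) = 2 * ⌊X⌋ + 1 := by
            rw [this]; push_cast; ring
          rw [Int.cast_natCast] at h'
          rw [h']
          linarith
        calc (U.card : ℝ) ≤ (Ks X).card := by exact_mod_cast e2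
          _ ≤ 2 * X + 1 := e3
          _ ≤ N₀ := by rw [hN₀]; linarith
      calc C₂ * x * U.card ≤ C₂ * x * N₀ := mul_le_mul_of_nonneg_left e1 (by positivity)
        _ ≤ (C₁ + 2 * C₂ * N₀) * x := by
            have h0 : 0 ≤ C₂ * N₀ * x := by positivity
            have h1 : 0 ≤ C₁ * x := by positivity
            nlinarith
  calc C₂ * x + E * U.card ≤ C₂ * x + (C₁ + 2 * C₂ * N₀) * x := by linarith
    _ = (C₂ + C₁ + 2 * C₂ * N₀) * x := by ring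

end Pool.Agent.T2


namespace Pool.Agent.T2

theorem hal_mon : type_of% @hal_mon_pr := @hal_mon_pr

end Pool.Agent.T2
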