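import Pool.Agent.Lib_helper10.T2.Defs
import Pool.Agent.Lib_helper10.T2F.BAS

namespace Pool.Agent.T2

open Filter Topology MeasureTheory

theorem agg_filter_eq {k n : ℕ} (h : k ≤ n) :
    (open Classical in (Bl (k : ℝ)).filter (fun z => nn z = k)) =
      (open Classical in (Bl (n : ℝ)).filter (fun z => nn z = k)) := by
  classical
  ext z
  simp only [Finset.mem_filter, mem_Bl]
  constructor
  · rintro ⟨⟨h0, _⟩, h2⟩
    refine ⟨⟨h0, ?_⟩, h2⟩
    rw [h2]; exact_mod_cast h
  · rintro ⟨⟨h0, _⟩, h2⟩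
    refine ⟨⟨h0, ?_⟩, h2⟩
    rw [h2]

open Classical in
theorem aggregate_pr {f : G → ℂ} {s : ℂ} (hs : 1 < s.re)
    (hf : Summable (fun z : G => ‖f z * (nn z : ℂ) ^ (-s)‖)) :
    LSeriesSummable (fun n => ∑ z ∈ (Bl n).filter (fun z => nn z = n), f z) s ∧
    Dsum f s = LSeries (fun n => ∑ z ∈ (Bl n).filter (fun z => nn z = n), f z) s := by
  have hs0 : s ≠ 0 := by
    intro h
    rw [h] at hs
    simp at hs
    linarith
  have h1 : HasSum (fun z : G => f z * (nn z : ℂ) ^ (-s)) (Dsum f s) := (hf.of_norm).hasSum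
  have h2 := h1.tsum_fiberwise nn
  have h3 : (fun c : ℕ => ∑' b : nn ⁻¹' {c}, f (b : G) * (nn (b : G) : ℂ) ^ (-s)) =
      LSeries.term (fun n => ∑ z ∈ (Bl n).filter (fun z => nn z = n), f z) s := by
    funext n
    by_cases hn : n = 0
    · subst hn
      rw [LSeries.term_zero]
      have : ∀ b : nn ⁻¹' {0}, f (b : G) * (nn (b : G) : ℂ) ^ (-s) = 0 := by
        rintro ⟨b, hb⟩
        have hb' : nn b = 0 := hb
        rw [hb', Nat.cast_zero, Complex.zero_cpow (neg_ne_zero.mpr hs0), mul_zero]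
      rw [tsum_congr this, tsum_zero]
    · rw [LSeries.term_of_ne_zero hn]
      have hset : (nn ⁻¹' {n} : Set G) =
          (((Bl (n : ℝ)).filter (fun z => nn z = n) : Finset G) : Set G) := by
        ext z
        simp only [Set.mem_preimage, Set.mem_singleton_iff, Finset.coe_filter, Set.mem_ofPred_eq,
          mem_Bl]
        constructor
        · intro hz
          refine ⟨⟨?_, ?_⟩, hz⟩
          · rw [← nn_pos, hz]; omega
          · rw [hz]
        · exact fun h => h.2
      rw [hset]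
      rw [Finset.tsum_subtype' ((Bl (n : ℝ)).filter (fun z => nn z = n))
        (fun b : G => f b * (nn b : ℂ) ^ (-s))]
      rw [Finset.sum_div]
      refine Finset.sum_congr rfl fun z hz => ?_
      rw [(Finset.mem_filter.mp hz).2, Complex.cpow_neg, div_eq_mul_inv]
  rw [h3] at h2
  exact ⟨h2.summable, h2.tsum_eq.symm⟩

open Classical in
theorem aggregate_sum_pr (f : G → ℂ) (n : ℕ) : ∑ k ∈ Finset.Icc 1 n,
    ∑ z ∈ (Bl k).filter (fun z => nn z = k), f z = ∑ z ∈ Bl n, f z := by
  have h1 : ∀ z ∈ Bl (n : ℝ), nn z ∈ Finset.Icc 1 n := by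
    intro z hz
    rw [mem_Bl] at hz
    rw [Finset.mem_Icc]
    refine ⟨nn_pos.mpr hz.1, by exact_mod_cast hz.2⟩
  rw [← Finset.sum_fiberwise_of_maps_to h1]
  refine Finset.sum_congr rfl fun k hk => ?_
  have := agg_filter_eq (Finset.mem_Icc.mp hk).2
  rw [← this]

end Pool.Agent.T2


namespace Pool.Agent.T2

theorem aggregate : type_of% @aggregate_pr := @aggregate_pr
theorem aggregate_sum : type_of% @aggregate_sum_pr := @aggregate_sum_pr

end Pool.Agent.T2
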