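import Pool.Agent.Lib_helper10.T2.Defs
import Pool.Agent.Lib_helper10.T2F.BAS
import Pool.Agent.Lib_helper10.T2F.PEL

/-! T2, block VMG: the von Mangoldt function -/

namespace Pool.Agent.T2

open Filter Topology MeasureTheory

open Classical in
/-- the four associates -/
noncomputable def vmg_A (w : G) : Finset G := {w, -w, ui * w, -(ui * w)}

theorem vmg_unit {u : G} (hu : IsUnit u) : u = 1 ∨ u = -1 ∨ u = ui ∨ u = -ui := by
  have h1 : nn u = 1 := by
    obtain ⟨v, hv⟩ := hu.exists_right_inv
    have h2 : nn u * nn v = 1 := by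
      rw [← nn_mul, hv]
      have := nn_nat 1
      simpa using this
    exact Nat.eq_one_of_mul_eq_one_right h2
  have h3 : u.re ^ 2 + u.im ^ 2 = 1 := by
    rw [← nn_cast, h1]; rfl
  have h4 : u.re ≤ 1 := by nlinarith [sq_nonneg u.im]
  have h5 : -1 ≤ u.re := by nlinarith [sq_nonneg u.im]
  have h6 : u.im ≤ 1 := by nlinarith [sq_nonneg u.re]
  have h7 : -1 ≤ u.im := by nlinarith [sq_nonneg u.re]
  have h8 : u.re = -1 ∨ u.re = 0 ∨ u.re = 1 := by omega
  have h9 : u.im = -1 ∨ u.im = 0 ∨ u.im = 1 := by omega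
  have e1 : ∀ a b : ℤ, u.re = a → u.im = b → u = ⟨a, b⟩ := fun a b ha hb => Zsqrtd.ext ha hb
  rcases h8 with h8 | h8 | h8 <;> rcases h9 with h9 | h9 | h9 <;> rw [h8, h9] at h3 <;>
    first
    | (exfalso; revert h3; decide)
    | skip
  · right; left; exact Zsqrtd.ext (by rw [h8]; rfl) (by rw [h9]; rfl)
  · right; right; right; exact Zsqrtd.ext (by rw [h8]; rfl) (by rw [h9]; rfl)
  · right; right; left; exact Zsqrtd.ext (by rw [h8]; rfl) (by rw [h9]; rfl)
  · left; exact Zsqrtd.ext (by rw [h8]; rfl) (by rw [h9]; rfl)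

theorem vmg_ui_sq : ui * ui = -1 := by
  refine Zsqrtd.ext ?_ ?_ <;> simp [ui]

theorem vmg_mem {d w : G} : d ∈ vmg_A w ↔ Associated d w := by
  unfold vmg_A
  simp only [Finset.mem_insert, Finset.mem_singleton]
  constructor
  · intro h
    rcases h with h | h | h | h
    · rw [h]
    · refine associated_of_dvd_dvd ⟨-1, by rw [h]; ring⟩ ⟨-1, by rw [h]; ring⟩
    · refine associated_of_dvd_dvd ⟨-ui, ?_⟩ ⟨ui, by rw [h]; ring⟩
      rw [h]
      have := vmg_ui_sq
      linear_combination w * this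
    · refine associated_of_dvd_dvd ⟨ui, ?_⟩ ⟨-ui, by rw [h]; ring⟩
      rw [h]
      have := vmg_ui_sq
      linear_combination w * this
  · intro h
    obtain ⟨u, hu⟩ := h.symm
    rcases vmg_unit u.isUnit with h1 | h1 | h1 | h1
    · left; rw [← hu, h1]; ring
    · right; left; rw [← hu, h1]; ring
    · right; right; left; rw [← hu, h1]; ring
    · right; right; right; rw [← hu, h1]; ring

theorem vmg_card {w : G} (hw : w ≠ 0) : (vmg_A w).card = 4 := by
  have hw' : ¬ (w.re = 0 ∧ w.im = 0) := fun h => hw (Zsqrtd.ext h.1 h.2)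
  have r1 : (ui * w).re = -w.im := by simp [ui]
  have r2 : (ui * w).im = w.re := by simp [ui]
  have e1 : w ≠ -w := by
    intro h
    have h1 := congrArg Zsqrtd.re h
    have h2 := congrArg Zsqrtd.im h
    simp only [Zsqrtd.re_neg, Zsqrtd.im_neg] at h1 h2
    omega
  have e2 : w ≠ ui * w := by
    intro h
    have h1 := congrArg Zsqrtd.re h
    have h2 := congrArg Zsqrtd.im h
    rw [r1] at h1; rw [r2] at h2
    omega
  have e3 : w ≠ -(ui * w) := by
    intro h
    have h1 := congrArg Zsqrtd.re h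
    have h2 := congrArg Zsqrtd.im h
    simp only [Zsqrtd.re_neg, Zsqrtd.im_neg, r1, r2] at h1 h2
    omega
  have e4 : -w ≠ ui * w := by
    intro h
    have h1 := congrArg Zsqrtd.re h
    have h2 := congrArg Zsqrtd.im h
    simp only [Zsqrtd.re_neg, Zsqrtd.im_neg, r1, r2] at h1 h2
    omega
  have e5 : -w ≠ -(ui * w) := by
    intro h
    exact e2 (neg_injective h)
  have e6 : ui * w ≠ -(ui * w) := by
    intro h
    have h1 := congrArg Zsqrtd.re h
    have h2 := congrArg Zsqrtd.im h
    simp only [Zsqrtd.re_neg, Zsqrtd.im_neg, r1, r2] at h1 h2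
    omega
  unfold vmg_A
  rw [Finset.card_insert_of_notMem, Finset.card_insert_of_notMem, Finset.card_insert_of_notMem,
    Finset.card_singleton]
  · simpa using e6
  · simp only [Finset.mem_insert, Finset.mem_singleton, not_or]
    exact ⟨e4, e5⟩
  · simp only [Finset.mem_insert, Finset.mem_singleton, not_or]
    exact ⟨e1, e2, e3⟩

theorem vmg_nn_dvd {a b : G} (h : a ∣ b) : nn a ∣ nn b := by
  obtain ⟨c, rfl⟩ := h
  rw [nn_mul]
  exact Dvd.intro _ rfl

theorem vmg_nn_assoc {a b : G} (h : Associated a b) : nn a = nn b :=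
  Nat.dvd_antisymm (vmg_nn_dvd h.dvd) (vmg_nn_dvd h.symm.dvd)

theorem vmg_nn_one {u : G} (h : nn u = 1) : IsUnit u := by
  rw [← Zsqrtd.norm_eq_one_iff]
  exact h

theorem vmg_nn_pow (a : G) (j : ℕ) : nn (a ^ j) = nn a ^ j := by
  induction j with
  | zero =>
    have := nn_nat 1
    simpa using this
  | succ j ih => rw [pow_succ, pow_succ, nn_mul, ih]

theorem vmg_nn_prime {π : G} (h : Prime π) : 2 ≤ nn π := by
  have h0 : 0 < nn π := nn_pos.2 h.ne_zero
  have h1 : nn π ≠ 1 := fun h1 => h.not_isUnit (vmg_nn_one h1)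
  omega

theorem vM_nonneg_pr (z : G) : 0 ≤ vM z := by
  unfold vM
  split_ifs with h
  · have := Real.log_natCast_nonneg (nn h.choose)
    positivity
  · exact le_refl _

theorem vM_eq_pr {π z : G} {j : ℕ} (hπ : Prime π) (hj : 1 ≤ j) (h : Associated z (π ^ j)) :
    vM z = Real.log (nn π) / 4 ∧ kap z = 1 / (4 * j) := by
  have hex : ∃ π : G, Prime π ∧ ∃ j : ℕ, 1 ≤ j ∧ Associated z (π ^ j) := ⟨π, hπ, j, hj, h⟩
  have h1 : vM z = Real.log (nn π) / 4 := by
    unfold vM
    rw [dif_pos hex]
    obtain ⟨hp, j', hj', ha⟩ := hex.choose_spec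
    have hd : π ∣ hex.choose ^ j' := by
      refine (dvd_pow_self π (show j ≠ 0 by omega)).trans ?_
      exact (h.symm.trans ha).dvd
    have hd' := hπ.dvd_of_dvd_pow hd
    have := hπ.associated_of_dvd hp hd'
    rw [vmg_nn_assoc this]
  refine ⟨h1, ?_⟩
  unfold kap
  rw [h1, vmg_nn_assoc h, vmg_nn_pow]
  push_cast
  rw [Real.log_pow]
  have h2 : (2 : ℝ) ≤ (nn π : ℝ) := by exact_mod_cast vmg_nn_prime hπ
  have h3 : Real.log (nn π : ℝ) ≠ 0 := by
    have := Real.log_pos (by linarith : (1 : ℝ) < nn π)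
    exact this.ne'
  have h4 : (j : ℝ) ≠ 0 := by
    have : j ≠ 0 := by omega
    exact_mod_cast this
  field_simp

theorem vmg_zero {z : G} (h : vM z ≠ 0) : ∃ π : G, Prime π ∧ ∃ j : ℕ, 1 ≤ j ∧
    Associated z (π ^ j) := by
  by_contra hcon
  apply h
  unfold vM
  rw [dif_neg hcon]

open Classical in
theorem vM_sum_pr {z : G} (hz : z ≠ 0) :
    ∑ d ∈ (Bl (nn z)).filter (fun d => d ∣ z), vM d = Real.log (nn z) := by
  revert hz
  refine UniqueFactorizationMonoid.induction_on_prime z ?_ ?_ ?_
  · intro h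
    exact absurd rfl h
  · intro u hu _
    have h1 : nn u = 1 := by
      obtain ⟨v, hv⟩ := hu.exists_right_inv
      have h2 : nn u * nn v = 1 := by
        rw [← nn_mul, hv]
        have := nn_nat 1
        simpa using this
      exact Nat.eq_one_of_mul_eq_one_right h2
    rw [h1]
    simp only [Nat.cast_one, Real.log_one]
    refine Finset.sum_eq_zero fun d hd => ?_
    rw [Finset.mem_filter] at hd
    by_contra hne
    obtain ⟨π, hπ, j, hj, ha⟩ := vmg_zero hne
    have h3 : π ∣ u := (dvd_pow_self π (by omega)).trans (ha.symm.dvd.trans hd.2)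
    exact hπ.not_isUnit (isUnit_of_dvd_unit h3 hu)
  · intro a p ha hp ih _
    have ih' := ih ha
    have hpa : p * a ≠ 0 := mul_ne_zero hp.ne_zero ha
    have hfin : FiniteMultiplicity p a := FiniteMultiplicity.of_prime_left hp ha
    set v := multiplicity p a with hv
    have hva : p ^ v ∣ a := pow_multiplicity_dvd p a
    have hva' : ¬ p ^ (v + 1) ∣ a := hfin.not_pow_dvd_of_multiplicity_lt (Nat.lt_succ_self _)
    have hpn : 0 < nn p := nn_pos.2 hp.ne_zero
    have han : 0 < nn a := nn_pos.2 ha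
    have hsub : (Bl (nn a)).filter (fun d => d ∣ a) ⊆
        (Bl (nn (p * a))).filter (fun d => d ∣ p * a) := by
      intro d hd
      rw [Finset.mem_filter, mem_Bl] at hd ⊢
      refine ⟨⟨hd.1.1, ?_⟩, hd.2.trans (dvd_mul_left a p)⟩
      have : nn d ≤ nn (p * a) := by
        rw [nn_mul]
        have h1 : nn d ≤ nn a := by exact_mod_cast hd.1.2
        nlinarith
      exact_mod_cast this
    have hsub2 : vmg_A (p ^ (v + 1)) ⊆ (Bl (nn (p * a))).filter (fun d => d ∣ p * a) \
        (Bl (nn a)).filter (fun d => d ∣ a) := by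
      intro d hd
      have hd' := vmg_mem.1 hd
      have h1 : d ∣ p * a := by
        refine hd'.dvd.trans ?_
        rw [pow_succ']
        exact mul_dvd_mul_left p hva
      have h2 : ¬ d ∣ a := fun h => hva' (hd'.symm.dvd.trans h)
      rw [Finset.mem_sdiff, Finset.mem_filter, Finset.mem_filter, mem_Bl]
      refine ⟨⟨⟨?_, ?_⟩, h1⟩, fun h => h2 h.2⟩
      · intro h0
        rw [h0] at h1
        exact hpa (zero_dvd_iff.1 h1)
      · have := Nat.le_of_dvd (nn_pos.2 hpa) (vmg_nn_dvd h1)
        exact_mod_cast this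
    have hvan : ∀ d ∈ (Bl (nn (p * a))).filter (fun d => d ∣ p * a) \
        (Bl (nn a)).filter (fun d => d ∣ a), d ∉ vmg_A (p ^ (v + 1)) → vM d = 0 := by
      intro d hd hdA
      rw [Finset.mem_sdiff, Finset.mem_filter, Finset.mem_filter, mem_Bl, mem_Bl] at hd
      obtain ⟨⟨⟨hd0, hd1⟩, hd2⟩, hd3⟩ := hd
      have hnd : ¬ d ∣ a := by
        intro h
        apply hd3
        refine ⟨⟨hd0, ?_⟩, h⟩
        exact_mod_cast Nat.le_of_dvd han (vmg_nn_dvd h)
      by_contra hne
      obtain ⟨q, hq, j, hj, haj⟩ := vmg_zero hne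
      apply hdA
      rw [vmg_mem]
      have hqd : q ^ j ∣ p * a := haj.symm.dvd.trans hd2
      have hqn : ¬ q ^ j ∣ a := fun h => hnd (haj.dvd.trans h)
      have hqp : Associated q p := by
        by_contra hcon
        apply hqn
        have hnot : ¬ q ∣ p := fun h => hcon (hq.associated_of_dvd hp h)
        exact hq.pow_dvd_of_dvd_mul_left j hnot hqd
      have hpj : Associated (q ^ j) (p ^ j) := hqp.pow_pow
      have h1 : p ^ j ∣ p * a := hpj.symm.dvd.trans hqd
      have h2 : ¬ p ^ j ∣ a := fun h => hqn (hpj.dvd.trans h)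
      have h3 : j = v + 1 := by
        obtain ⟨i, rfl⟩ : ∃ i, j = i + 1 := ⟨j - 1, by omega⟩
        rw [pow_succ'] at h1
        have h4 : p ^ i ∣ a := (mul_dvd_mul_iff_left hp.ne_zero).1 h1
        have h5 : i ≤ v := hfin.le_multiplicity_of_pow_dvd h4
        have h6 : ¬ (i + 1 ≤ v) := fun h => h2 ((pow_dvd_pow p h).trans hva)
        omega
      rw [← h3]
      exact haj.trans hpj
    rw [← Finset.sum_sdiff hsub, ih', ← Finset.sum_subset hsub2 hvan]
    have hconst : ∀ d ∈ vmg_A (p ^ (v + 1)), vM d = Real.log (nn p) / 4 := by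
      intro d hd
      exact (vM_eq_pr hp (by omega) (vmg_mem.1 hd)).1
    rw [Finset.sum_congr rfl hconst, Finset.sum_const, vmg_card (pow_ne_zero _ hp.ne_zero), nn_mul]
    push_cast
    rw [Real.log_mul (by exact_mod_cast hpn.ne') (by exact_mod_cast han.ne')]
    simp only [nsmul_eq_mul]
    push_cast
    ring

theorem vmg_nn_12 : nn (1 + ui) = 2 := by
  unfold nn ui
  decide

open Classical in
/-- candidates for the prime powers of norm `n` -/
noncomputable def vmg_E (n : ℕ) : Finset G :=
  vmg_A (pel n.minFac ^ (n.factorization n.minFac)) ∪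
  (vmg_A (star (pel n.minFac) ^ (n.factorization n.minFac)) ∪
  (vmg_A ((1 + ui) ^ (n.factorization n.minFac)) ∪
  vmg_A ((n.minFac : G) ^ (n.factorization n.minFac / 2))))

theorem vmg_A_card (w : G) : (vmg_A w).card ≤ 4 := by
  unfold vmg_A
  exact Finset.card_le_four

theorem vmg_E_card (n : ℕ) : (vmg_E n).card ≤ 16 := by
  unfold vmg_E
  refine (Finset.card_union_le _ _).trans ?_
  have h1 := vmg_A_card (pel n.minFac ^ (n.factorization n.minFac))
  have h2 := vmg_A_card (star (pel n.minFac) ^ (n.factorization n.minFac))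
  have h3 := vmg_A_card ((1 + ui) ^ (n.factorization n.minFac))
  have h4 := vmg_A_card ((n.minFac : G) ^ (n.factorization n.minFac / 2))
  have h5 := Finset.card_union_le (vmg_A (star (pel n.minFac) ^ (n.factorization n.minFac)))
    (vmg_A ((1 + ui) ^ (n.factorization n.minFac)) ∪
      vmg_A ((n.minFac : G) ^ (n.factorization n.minFac / 2)))
  have h6 := Finset.card_union_le (vmg_A ((1 + ui) ^ (n.factorization n.minFac)))
      (vmg_A ((n.minFac : G) ^ (n.factorization n.minFac / 2)))
  omega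

theorem vmg_fac {p j : ℕ} (hp : p.Prime) (hj : 1 ≤ j) :
    (p ^ j).minFac = p ∧ (p ^ j).factorization (p ^ j).minFac = j := by
  have h1 : (p ^ j).minFac = p := by
    rw [Nat.pow_minFac (by omega), hp.minFac_eq]
  refine ⟨h1, ?_⟩
  rw [h1, hp.factorization_pow]
  simp

/-- the value of the von Mangoldt function at a prime power -/
theorem vmg_key {z : G} (h : vM z ≠ 0) : z ∈ vmg_E (nn z) ∧
    vM z ≤ ArithmeticFunction.vonMangoldt (nn z) / 2 := by
  obtain ⟨π, hπ, j, hj, ha⟩ := vmg_zero h
  have hv := (vM_eq_pr hπ hj ha).1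
  have hn := vmg_nn_assoc ha
  rw [vmg_nn_pow] at hn
  rcases gauss_prime hπ with h1 | ⟨p, hp, h4, h1⟩ | ⟨q, hq, h4, h1⟩
  · have h2 : nn π = 2 := by rw [vmg_nn_assoc h1, vmg_nn_12]
    rw [h2] at hn hv
    have hf := vmg_fac Nat.prime_two hj
    constructor
    · unfold vmg_E
      rw [hn, hf.2, hf.1]
      simp only [Finset.mem_union, vmg_mem]
      right; right; left
      exact ha.trans h1.pow_pow
    · rw [hv, hn, ArithmeticFunction.vonMangoldt_apply_pow (by omega),
        ArithmeticFunction.vonMangoldt_apply_prime Nat.prime_two]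
      have := Real.log_pos (by norm_num : (1 : ℝ) < 2)
      push_cast
      linarith
  · have h2 : nn π = p := by
      rcases h1 with h1 | h1
      · rw [vmg_nn_assoc h1, (pel_spec hp h4).1]
      · rw [vmg_nn_assoc h1, nn_star, (pel_spec hp h4).1]
    rw [h2] at hn hv
    have hf := vmg_fac hp hj
    constructor
    · unfold vmg_E
      rw [hn, hf.2, hf.1]
      simp only [Finset.mem_union, vmg_mem]
      rcases h1 with h1 | h1
      · left
        exact ha.trans h1.pow_pow
      · right; left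
        exact ha.trans h1.pow_pow
    · rw [hv, hn, ArithmeticFunction.vonMangoldt_apply_pow (by omega),
        ArithmeticFunction.vonMangoldt_apply_prime hp]
      have := Real.log_natCast_nonneg p
      linarith
  · have h2 : nn π = q ^ 2 := by rw [vmg_nn_assoc h1, nn_nat]
    rw [h2, ← pow_mul] at hn
    rw [h2] at hv
    have hf := vmg_fac (j := 2 * j) hq (by omega)
    constructor
    · unfold vmg_E
      rw [hn, hf.2, hf.1]
      simp only [Finset.mem_union, vmg_mem]
      right; right; right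
      have h3 : 2 * j / 2 = j := by omega
      rw [h3]
      exact ha.trans h1.pow_pow
    · rw [hv, hn, ArithmeticFunction.vonMangoldt_apply_pow (by omega),
        ArithmeticFunction.vonMangoldt_apply_prime hq]
      push_cast
      rw [Real.log_pow]
      push_cast
      apply le_of_eq
      ring

theorem vM_cheb_pr : ∃ C : ℝ, 1 ≤ C ∧ ∀ x : ℝ, 1 ≤ x → ∑ z ∈ Bl x, vM z ≤ C * x := by
  classical
  refine ⟨8 * (Real.log 4 + 4), ?_, ?_⟩
  · have := Real.log_pos (by norm_num : (1 : ℝ) < 4)
    linarith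
  · intro x hx
    have hmaps : ∀ z ∈ Bl x, nn z ∈ Finset.Icc 0 ⌊x⌋₊ := by
      intro z hz
      rw [Finset.mem_Icc]
      exact ⟨Nat.zero_le _, Nat.le_floor (mem_Bl.1 hz).2⟩
    rw [← Finset.sum_fiberwise_of_maps_to hmaps]
    have h1 : ∀ n ∈ Finset.Icc 0 ⌊x⌋₊, ∑ z ∈ (Bl x).filter (fun z => nn z = n), vM z ≤
        8 * ArithmeticFunction.vonMangoldt n := by
      intro n _
      have hΛ := ArithmeticFunction.vonMangoldt_nonneg (n := n)
      have hs : ∑ z ∈ (Bl x).filter (fun z => nn z = n), vM z ≤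
          ∑ z ∈ vmg_E n, ArithmeticFunction.vonMangoldt n / 2 := by
        have h2 : ∑ z ∈ (Bl x).filter (fun z => nn z = n), vM z =
            ∑ z ∈ ((Bl x).filter (fun z => nn z = n)).filter (fun z => vM z ≠ 0), vM z := by
          rw [Finset.sum_filter_ne_zero]
        rw [h2]
        refine (Finset.sum_le_sum (g := fun _ => ArithmeticFunction.vonMangoldt n / 2) ?_).trans ?_
        · intro z hz
          rw [Finset.mem_filter, Finset.mem_filter] at hz
          have := (vmg_key hz.2).2
          rwa [hz.1.2] at this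
        · refine Finset.sum_le_sum_of_subset_of_nonneg ?_ ?_
          · intro z hz
            rw [Finset.mem_filter, Finset.mem_filter] at hz
            have := (vmg_key hz.2).1
            rwa [hz.1.2] at this
          · intro _ _ _
            positivity
      refine hs.trans ?_
      rw [Finset.sum_const, nsmul_eq_mul]
      have h3 : ((vmg_E n).card : ℝ) ≤ 16 := by exact_mod_cast vmg_E_card n
      nlinarith
    refine (Finset.sum_le_sum h1).trans ?_
    rw [← Finset.mul_sum, ← Chebyshev.psi_eq_sum_Icc]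
    have := Chebyshev.psi_le_const_mul_self (by linarith : 0 ≤ x)
    linarith

end Pool.Agent.T2


namespace Pool.Agent.T2

theorem vM_sum : type_of% @vM_sum_pr := @vM_sum_pr
theorem vM_nonneg : type_of% @vM_nonneg_pr := @vM_nonneg_pr
theorem vM_eq : type_of% @vM_eq_pr := @vM_eq_pr
theorem vM_cheb : type_of% @vM_cheb_pr := @vM_cheb_pr

end Pool.Agent.T2
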