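import Pool.Agent.Lib_helper10.T2.Defs
import Pool.Agent.Lib_helper10.T2F.BAS
import Pool.Agent.Lib_helper10.T2F.CNT
import Pool.Agent.Lib_helper10.T2F.VMG

namespace Pool.Agent.T2

open Filter Topology MeasureTheory


theorem dsr_norm_term (f : G → ℂ) {s : ℂ} (hs : 1 < s.re) (z : G) :
    ‖f z * (nn z : ℂ) ^ (-s)‖ = ‖f z‖ * (nn z : ℝ) ^ (-s.re) := by
  rw [norm_mul]
  congr 1
  rcases Nat.eq_zero_or_pos (nn z) with h | h
  · rw [h, Nat.cast_zero, Nat.cast_zero, Complex.zero_cpow, Real.zero_rpow, norm_zero]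
    · linarith
    · intro h0
      have := congrArg Complex.re h0
      rw [Complex.neg_re, Complex.zero_re] at this
      linarith
  · rw [Complex.norm_natCast_cpow_of_pos h, Complex.neg_re]

theorem dsr_Bl_succ_le (a : G → ℝ) (ha : ∀ z, 0 ≤ a z) {σ : ℝ} (hσ : 1 < σ) (C : ℝ)
    (hC : ∀ x : ℝ, 1 ≤ x → ∑ z ∈ Bl x, a z ≤ C * x) (J : ℕ) :
    ∑ z ∈ Bl (2 ^ J : ℝ), a z * (nn z : ℝ) ^ (-σ) ≤
      C + 2 * C * ∑ j ∈ Finset.range J, ((2 : ℝ) ^ (-(σ - 1))) ^ j := by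
  induction J with
  | zero =>
    simp only [pow_zero, Finset.range_zero, Finset.sum_empty, mul_zero, add_zero]
    refine le_trans (Finset.sum_le_sum fun z hz => ?_) (le_trans (hC 1 le_rfl) (by rw [mul_one]))
    rw [mem_Bl] at hz
    have h1 : 1 ≤ (nn z : ℝ) := by
      have := nn_pos.2 hz.1
      exact_mod_cast this
    calc a z * (nn z : ℝ) ^ (-σ) ≤ a z * 1 := by
          refine mul_le_mul_of_nonneg_left ?_ (ha z)
          exact Real.rpow_le_one_of_one_le_of_nonpos h1 (by linarith)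
      _ = a z := mul_one _
  | succ J ih =>
    have hsub : Bl (2 ^ J : ℝ) ⊆ Bl (2 ^ (J + 1) : ℝ) := by
      intro z hz
      rw [mem_Bl] at hz ⊢
      refine ⟨hz.1, hz.2.trans ?_⟩
      rw [pow_succ]
      have : (0 : ℝ) < 2 ^ J := by positivity
      linarith
    rw [← Finset.sum_sdiff hsub, Finset.sum_range_succ, mul_add]
    have h2 : ∑ z ∈ Bl (2 ^ (J + 1) : ℝ) \ Bl (2 ^ J : ℝ), a z * (nn z : ℝ) ^ (-σ)
        ≤ 2 * C * ((2 : ℝ) ^ (-(σ - 1))) ^ J := by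
      have h3 : ∀ z ∈ Bl (2 ^ (J + 1) : ℝ) \ Bl (2 ^ J : ℝ),
          a z * (nn z : ℝ) ^ (-σ) ≤ a z * ((2 : ℝ) ^ J) ^ (-σ) := by
        intro z hz
        rw [Finset.mem_sdiff, mem_Bl, mem_Bl] at hz
        refine mul_le_mul_of_nonneg_left ?_ (ha z)
        have h4 : (2 : ℝ) ^ J < nn z := by
          by_contra h5
          exact hz.2 ⟨hz.1.1, not_lt.1 h5⟩
        exact Real.rpow_le_rpow_of_nonpos (by positivity) h4.le (by linarith)
      refine (Finset.sum_le_sum h3).trans ?_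
      rw [← Finset.sum_mul]
      have h5 : ∑ z ∈ Bl (2 ^ (J + 1) : ℝ) \ Bl (2 ^ J : ℝ), a z ≤ C * 2 ^ (J + 1) :=
        (Finset.sum_le_sum_of_subset_of_nonneg Finset.sdiff_subset fun z _ _ => ha z).trans
          (hC _ (one_le_pow₀ (by norm_num)))
      refine (mul_le_mul_of_nonneg_right h5 (by positivity)).trans (le_of_eq ?_)
      have h6 : ((2 : ℝ) ^ J) ^ (-σ) = ((2 : ℝ) ^ (-(σ - 1))) ^ J * (2 ^ J)⁻¹ := by
        rw [← Real.rpow_natCast, ← Real.rpow_mul (by norm_num), ← Real.rpow_natCast,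
          ← Real.rpow_mul (by norm_num), ← Real.rpow_neg (by norm_num), ← Real.rpow_add (by norm_num)]
        congr 1
        ring
      rw [h6, pow_succ]
      field_simp
    linarith

theorem dsr_sum_le (a : G → ℝ) (ha : ∀ z, 0 ≤ a z) {σ : ℝ} (hσ : 1 < σ) (C : ℝ) (hC0 : 0 ≤ C)
    (hC : ∀ x : ℝ, 1 ≤ x → ∑ z ∈ Bl x, a z ≤ C * x) (S : Finset G) :
    ∑ z ∈ S, a z * (nn z : ℝ) ^ (-σ) ≤ C + 2 * C / (1 - (2 : ℝ) ^ (-(σ - 1))) := by
  classical
  obtain ⟨J, hJ⟩ : ∃ J : ℕ, ∀ z ∈ S, (nn z : ℝ) ≤ 2 ^ J := by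
    obtain ⟨M, hM⟩ : ∃ M : ℕ, ∀ z ∈ S, nn z ≤ M := by
      refine ⟨S.sup nn, fun z hz => Finset.le_sup hz⟩
    refine ⟨M, fun z hz => ?_⟩
    have h1 : nn z ≤ 2 ^ M := (hM z hz).trans Nat.lt_two_pow_self.le
    exact_mod_cast h1
  have hr : (2 : ℝ) ^ (-(σ - 1)) < 1 := Real.rpow_lt_one_of_one_lt_of_neg (by norm_num) (by linarith)
  have hr0 : 0 < (2 : ℝ) ^ (-(σ - 1)) := by positivity
  have h1 : ∑ z ∈ S, a z * (nn z : ℝ) ^ (-σ) ≤ ∑ z ∈ Bl (2 ^ J : ℝ), a z * (nn z : ℝ) ^ (-σ) := by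
    have h2 : ∑ z ∈ S, a z * (nn z : ℝ) ^ (-σ) = ∑ z ∈ S.filter (fun z => z ≠ 0), a z * (nn z : ℝ) ^ (-σ) := by
      rw [Finset.sum_filter]
      refine Finset.sum_congr rfl fun z _ => ?_
      split_ifs with h
      · rfl
      · have h0 : z = 0 := not_not.1 h
        have h3 : nn z = 0 := by
          rcases Nat.eq_zero_or_pos (nn z) with h4 | h4
          · exact h4
          · exact absurd h0 (nn_pos.1 h4)
        rw [h3, Nat.cast_zero, Real.zero_rpow (by linarith), mul_zero]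
    rw [h2]
    refine Finset.sum_le_sum_of_subset_of_nonneg ?_ fun z _ _ => mul_nonneg (ha z) (by positivity)
    intro z hz
    rw [Finset.mem_filter] at hz
    rw [mem_Bl]
    exact ⟨hz.2, hJ z hz.1⟩
  refine h1.trans ((dsr_Bl_succ_le a ha hσ C hC J).trans ?_)
  have h3 : ∑ j ∈ Finset.range J, ((2 : ℝ) ^ (-(σ - 1))) ^ j ≤ (1 - (2 : ℝ) ^ (-(σ - 1)))⁻¹ := by
    have := Summable.sum_le_tsum (Finset.range J) (fun j _ => pow_nonneg hr0.le j)
      (summable_geometric_of_lt_one hr0.le hr)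
    rwa [tsum_geometric_of_lt_one hr0.le hr] at this
  have h4 := mul_le_mul_of_nonneg_left h3 (show (0 : ℝ) ≤ 2 * C by linarith)
  rw [div_eq_mul_inv]
  linarith

theorem dsr_summ (a : G → ℝ) (ha : ∀ z, 0 ≤ a z) {σ : ℝ} (hσ : 1 < σ) (C : ℝ) (hC0 : 0 ≤ C)
    (hC : ∀ x : ℝ, 1 ≤ x → ∑ z ∈ Bl x, a z ≤ C * x) :
    Summable (fun z => a z * (nn z : ℝ) ^ (-σ)) :=
  summable_of_sum_le (fun z => mul_nonneg (ha z) (by positivity)) (dsr_sum_le a ha hσ C hC0 hC)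

theorem dsr_tsum_le_ (a : G → ℝ) (ha : ∀ z, 0 ≤ a z) {σ : ℝ} (hσ : 1 < σ) (hσ2 : σ ≤ 2) (C : ℝ) (hC0 : 0 ≤ C)
    (hC : ∀ x : ℝ, 1 ≤ x → ∑ z ∈ Bl x, a z ≤ C * x) :
    ∑' z, a z * (nn z : ℝ) ^ (-σ) ≤ 5 * C / (σ - 1) := by
  refine (Summable.tsum_le_of_sum_le (dsr_summ a ha hσ C hC0 hC) (dsr_sum_le a ha hσ C hC0 hC)).trans ?_
  have hu : 0 < σ - 1 := by linarith
  -- 1 - 2^{-u} >= u/2
  have h1 : (2 : ℝ) ^ (-(σ - 1)) ≤ 1 - (σ - 1) / 2 := by
    have h2 := rpow_one_add_le_one_add_mul_self (s := (-(1 / 2) : ℝ)) (by norm_num) hu.le (by linarith)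
    have h3 : (1 + -(1 / 2) : ℝ) ^ (σ - 1) = (2 : ℝ) ^ (-(σ - 1)) := by
      rw [Real.rpow_neg (by norm_num), ← Real.inv_rpow (by norm_num)]
      norm_num
    rw [h3] at h2
    linarith
  have h4 : 0 < 1 - (2 : ℝ) ^ (-(σ - 1)) := by linarith
  have h5 : 2 * C / (1 - (2 : ℝ) ^ (-(σ - 1))) ≤ 4 * C / (σ - 1) := by
    rw [div_le_div_iff₀ h4 hu]
    nlinarith
  have h6 : C ≤ C / (σ - 1) := by
    rw [le_div_iff₀ hu]
    nlinarith
  have h7 : 5 * C / (σ - 1) = C / (σ - 1) + 4 * C / (σ - 1) := by ring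
  linarith

theorem dsr_nn_zero : nn (0 : G) = 0 := by
  rcases Nat.eq_zero_or_pos (nn (0 : G)) with h | h
  · exact h
  · exact absurd rfl (nn_pos.1 h)

theorem dsr_one_sum (C : ℝ) (hC : ∀ x : ℝ, 0 ≤ x → ((Bl x).card : ℝ) ≤ C * x) (x : ℝ) (hx : 1 ≤ x) :
    ∑ z ∈ Bl x, (1 : ℝ) ≤ C * x := by
  rw [Finset.sum_const, nsmul_eq_mul, mul_one]
  exact hC x (by linarith)



/-! block DSR: convergence of Dirichlet series, logarithms -/

theorem dsum_summable_pr {f : G → ℂ} (hf : ∀ z, ‖f z‖ ≤ 1) {s : ℂ} (hs : 1 < s.re) :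
    Summable (fun z : G => ‖f z * (nn z : ℂ) ^ (-s)‖) ∧
    Summable (fun z : G => ‖(Real.log (nn z) : ℂ) * f z * (nn z : ℂ) ^ (-s)‖) := by
  obtain ⟨C, hC1, hC⟩ := ball_le
  have hone := fun σ (hσ : 1 < σ) => dsr_summ (fun _ => (1 : ℝ)) (fun _ => zero_le_one) (σ := σ) hσ C (by linarith) (dsr_one_sum C hC)
  constructor
  · refine Summable.of_nonneg_of_le (fun _ => norm_nonneg _) (fun z => ?_) (hone s.re hs)
    rw [dsr_norm_term f hs]
    exact mul_le_mul_of_nonneg_right (hf z) (by positivity)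
  · set e := (s.re - 1) / 2 with he
    have he0 : 0 < e := by rw [he]; linarith
    have h1 : 1 < s.re - e := by rw [he]; linarith
    refine Summable.of_nonneg_of_le (fun _ => norm_nonneg _) (fun z => ?_) ((hone (s.re - e) h1).mul_left (1 / e))
    rw [dsr_norm_term (fun z => (Real.log (nn z) : ℂ) * f z) hs z]
    rcases Nat.eq_zero_or_pos (nn z) with h | h
    · rw [h, Nat.cast_zero, Real.zero_rpow (by linarith), Real.zero_rpow (by linarith)]
      simp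
    · have h2 : (1 : ℝ) ≤ nn z := by exact_mod_cast h
      have h0 : (0 : ℝ) < nn z := by linarith
      have h3 : ‖(Real.log (nn z) : ℂ) * f z‖ ≤ Real.log (nn z) := by
        rw [norm_mul, Complex.norm_real, Real.norm_of_nonneg (Real.log_nonneg h2)]
        exact mul_le_of_le_one_right (Real.log_nonneg h2) (hf z)
      have h4 := Real.log_le_rpow_div h0.le he0
      calc ‖(Real.log (nn z) : ℂ) * f z‖ * (nn z : ℝ) ^ (-s.re)
          ≤ ((nn z : ℝ) ^ e / e) * (nn z : ℝ) ^ (-s.re) :=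
            mul_le_mul_of_nonneg_right (h3.trans h4) (by positivity)
        _ = 1 / e * (1 * (nn z : ℝ) ^ (-(s.re - e))) := by
            have h5 : (nn z : ℝ) ^ (-(s.re - e)) = (nn z : ℝ) ^ e * (nn z : ℝ) ^ (-s.re) := by
              rw [← Real.rpow_add h0]; congr 1; ring
            rw [h5]; ring

theorem dsum_bound_pr : ∃ C : ℝ, 1 ≤ C ∧ ∀ f : G → ℂ, (∀ z, ‖f z‖ ≤ 1) → ∀ s : ℂ, 1 < s.re →
    s.re ≤ 2 → ‖Dsum f s‖ ≤ C / (s.re - 1) ∧
      ‖∑' z : G, (vM z : ℂ) * f z * (nn z : ℂ) ^ (-s)‖ ≤ C / (s.re - 1) := by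
  obtain ⟨C, hC1, hC⟩ := ball_le
  obtain ⟨D, hD1, hD⟩ := vM_cheb
  refine ⟨5 * C + 5 * D, by linarith, fun f hf s hs hs2 => ?_⟩
  have hs0 : 0 < s.re - 1 := by linarith
  constructor
  · unfold Dsum
    refine (norm_tsum_le_tsum_norm (dsum_summable_pr hf hs).1).trans ?_
    have h1 := dsr_summ (fun _ => (1 : ℝ)) (fun _ => zero_le_one) hs C (by linarith) (dsr_one_sum C hC)
    refine (Summable.tsum_le_tsum (fun z => ?_) (dsum_summable_pr hf hs).1 h1).trans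
      ((dsr_tsum_le_ (fun _ => (1 : ℝ)) (fun _ => zero_le_one) hs hs2 C (by linarith) (dsr_one_sum C hC)).trans ?_)
    · rw [dsr_norm_term f hs]
      exact mul_le_mul_of_nonneg_right (hf z) (by positivity)
    · exact div_le_div_of_nonneg_right (by linarith) hs0.le
  · have h1 := dsr_summ vM vM_nonneg hs D (by linarith) hD
    have h2 : Summable (fun z : G => ‖(vM z : ℂ) * f z * (nn z : ℂ) ^ (-s)‖) := by
      refine Summable.of_nonneg_of_le (fun _ => norm_nonneg _) (fun z => ?_) h1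
      rw [dsr_norm_term (fun z => (vM z : ℂ) * f z) hs z, norm_mul, Complex.norm_real,
        Real.norm_of_nonneg (vM_nonneg z)]
      exact mul_le_mul_of_nonneg_right (mul_le_of_le_one_right (vM_nonneg z) (hf z)) (by positivity)
    refine (norm_tsum_le_tsum_norm h2).trans ?_
    refine (Summable.tsum_le_tsum (fun z => ?_) h2 h1).trans
      ((dsr_tsum_le_ vM vM_nonneg hs hs2 D (by linarith) hD).trans ?_)
    · rw [dsr_norm_term (fun z => (vM z : ℂ) * f z) hs z, norm_mul, Complex.norm_real,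
        Real.norm_of_nonneg (vM_nonneg z)]
      exact mul_le_mul_of_nonneg_right (mul_le_of_le_one_right (vM_nonneg z) (hf z)) (by positivity)
    · exact div_le_div_of_nonneg_right (by linarith) hs0.le



open Classical in
/-- the double series over divisors -/
noncomputable def dsr_HH (f : G → ℂ) (s : ℂ) (q : G × G) : ℂ :=
  if q.1 ≠ 0 ∧ q.1 ∣ q.2 then (vM q.1 : ℂ) * (f q.2 * (nn q.2 : ℂ) ^ (-s)) else 0

/-- the product series -/
noncomputable def dsr_FF (f : G → ℂ) (s : ℂ) (q : G × G) : ℂ :=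
  ((vM q.1 : ℂ) * f q.1 * (nn q.1 : ℂ) ^ (-s)) * (f q.2 * (nn q.2 : ℂ) ^ (-s))

open Classical in
/-- the change of variables -/
noncomputable def dsr_PH (q : G × G) : G × G := (q.1, if q.1 = 0 then q.2 else q.1 * q.2)

theorem dsr_HH_pos (f : G → ℂ) (s : ℂ) {a b : G} (h : a ≠ 0 ∧ a ∣ b) :
    dsr_HH f s (a, b) = (vM a : ℂ) * (f b * (nn b : ℂ) ^ (-s)) := by
  unfold dsr_HH
  exact if_pos h

theorem dsr_HH_neg (f : G → ℂ) (s : ℂ) {a b : G} (h : ¬ (a ≠ 0 ∧ a ∣ b)) : dsr_HH f s (a, b) = 0 := by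
  unfold dsr_HH
  exact if_neg h

theorem dsr_PH_zero (b : G) : dsr_PH (0, b) = (0, b) := by
  unfold dsr_PH
  rw [if_pos rfl]

theorem dsr_PH_ne {a : G} (ha : a ≠ 0) (b : G) : dsr_PH (a, b) = (a, a * b) := by
  unfold dsr_PH
  rw [if_neg ha]

theorem dsr_PH_inj : Function.Injective dsr_PH := by
  rintro ⟨a, b⟩ ⟨c, d⟩ h
  by_cases ha : a = 0
  · subst ha
    rw [dsr_PH_zero] at h
    by_cases hc : c = 0
    · subst hc
      rw [dsr_PH_zero] at h
      exact h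
    · rw [dsr_PH_ne hc] at h
      exact absurd (congrArg Prod.fst h).symm hc
  · rw [dsr_PH_ne ha] at h
    by_cases hc : c = 0
    · subst hc
      rw [dsr_PH_zero] at h
      exact absurd (congrArg Prod.fst h) ha
    · rw [dsr_PH_ne hc] at h
      have h1 : a = c := congrArg Prod.fst h
      subst h1
      have h2 : a * b = a * d := congrArg Prod.snd h
      rw [mul_left_cancel₀ ha h2]

theorem dsr_cpow_zero {s : ℂ} (hs : 1 < s.re) : ((nn (0 : G) : ℕ) : ℂ) ^ (-s) = 0 := by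
  have hs0 : -s ≠ 0 := by
    intro h0
    have := congrArg Complex.re h0
    rw [Complex.neg_re, Complex.zero_re] at this
    linarith
  rw [dsr_nn_zero, Nat.cast_zero, Complex.zero_cpow hs0]

theorem dsr_HH_PH {f : G → ℂ} (hf : CM f) {s : ℂ} (hs : 1 < s.re) : dsr_HH f s ∘ dsr_PH = dsr_FF f s := by
  funext q
  obtain ⟨a, b⟩ := q
  rw [Function.comp_apply]
  unfold dsr_FF
  by_cases ha : a = 0
  · subst ha
    rw [dsr_PH_zero, dsr_HH_neg f s (fun h => h.1 rfl)]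
    simp only
    rw [dsr_cpow_zero hs, mul_zero, zero_mul]
  · rw [dsr_PH_ne ha, dsr_HH_pos f s ⟨ha, dvd_mul_right a b⟩, hf.mul, nn_mul, Nat.cast_mul,
      Complex.natCast_mul_natCast_cpow]
    ring

theorem dsr_HH_range (f : G → ℂ) (s : ℂ) (q : G × G) (h : q ∉ Set.range dsr_PH) : dsr_HH f s q = 0 := by
  obtain ⟨a, b⟩ := q
  refine dsr_HH_neg f s fun hc => ?_
  obtain ⟨w, hw⟩ := hc.2
  exact h ⟨(a, w), by rw [dsr_PH_ne hc.1, hw]⟩


theorem dsr_sum_FF {f : G → ℂ} {s : ℂ}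
    (h2 : Summable (fun z : G => ‖(vM z : ℂ) * f z * (nn z : ℂ) ^ (-s)‖))
    (h3 : Summable (fun z : G => ‖f z * (nn z : ℂ) ^ (-s)‖)) : Summable (dsr_FF f s) :=
  summable_mul_of_summable_norm (f := fun z : G => (vM z : ℂ) * f z * (nn z : ℂ) ^ (-s))
    (g := fun z : G => f z * (nn z : ℂ) ^ (-s)) h2 h3

theorem dsr_tsum_FF {f : G → ℂ} {s : ℂ}
    (h2 : Summable (fun z : G => ‖(vM z : ℂ) * f z * (nn z : ℂ) ^ (-s)‖))
    (h3 : Summable (fun z : G => ‖f z * (nn z : ℂ) ^ (-s)‖)) :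
    Dsum f s * ∑' z : G, (vM z : ℂ) * f z * (nn z : ℂ) ^ (-s) = ∑' q, dsr_FF f s q := by
  rw [mul_comm]
  exact tsum_mul_tsum_of_summable_norm (f := fun z : G => (vM z : ℂ) * f z * (nn z : ℂ) ^ (-s))
    (g := fun z : G => f z * (nn z : ℂ) ^ (-s)) h2 h3

theorem dsr_sum_HH {f : G → ℂ} (hf : CM f) {s : ℂ} (hs : 1 < s.re) (h : Summable (dsr_FF f s)) : Summable (dsr_HH f s) := by
  rw [← dsr_HH_PH hf hs] at h
  exact (dsr_PH_inj.summable_iff (dsr_HH_range f s)).1 h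

theorem dsr_tsum_HH {f : G → ℂ} (hf : CM f) {s : ℂ} (hs : 1 < s.re) : ∑' q, dsr_FF f s q = ∑' q, dsr_HH f s q := by
  rw [← dsr_HH_PH hf hs]
  exact dsr_PH_inj.tsum_eq (fun q hq => by
    by_contra h
    exact hq (dsr_HH_range f s q h))

theorem dsr_comm_HH {f : G → ℂ} {s : ℂ} (h : Summable (dsr_HH f s)) :
    ∑' q, dsr_HH f s q = ∑' z, ∑' d, dsr_HH f s (d, z) := by
  rw [h.tsum_prod]
  exact (Summable.tsum_comm (f := fun d z => dsr_HH f s (d, z)) h).symm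

open Classical in
theorem dsr_inner_HH (f : G → ℂ) {s : ℂ} (hs : 1 < s.re) (z : G) :
    (Real.log (nn z) : ℂ) * f z * (nn z : ℂ) ^ (-s) = ∑' d, dsr_HH f s (d, z) := by
  by_cases hz : z = 0
  · subst hz
    rw [dsr_cpow_zero hs, mul_zero]
    have : ∀ d : G, dsr_HH f s (d, 0) = 0 := by
      intro d
      by_cases hd : d ≠ 0 ∧ d ∣ 0
      · rw [dsr_HH_pos f s hd, dsr_cpow_zero hs, mul_zero, mul_zero]
      · exact dsr_HH_neg f s hd
    simp only [this, tsum_zero]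
  · have h5 : ∀ d ∈ (Bl (nn z)).filter (fun d => d ∣ z), dsr_HH f s (d, z) = (vM d : ℂ) * (f z * (nn z : ℂ) ^ (-s)) := by
      intro d hd
      rw [Finset.mem_filter, mem_Bl] at hd
      exact dsr_HH_pos f s ⟨hd.1.1, hd.2⟩
    have h6 : ∀ d, d ∉ (Bl (nn z)).filter (fun d => d ∣ z) → dsr_HH f s (d, z) = 0 := by
      intro d hd
      refine dsr_HH_neg f s ?_
      rintro ⟨h6, h7⟩
      apply hd
      rw [Finset.mem_filter, mem_Bl]
      refine ⟨⟨h6, ?_⟩, h7⟩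
      obtain ⟨w, hw⟩ := h7
      have h8 : nn z = nn d * nn w := by rw [hw, nn_mul]
      have h9 : nn d ≤ nn z := Nat.le_of_dvd (nn_pos.2 hz) ⟨nn w, h8⟩
      exact_mod_cast h9
    rw [tsum_eq_sum h6, Finset.sum_congr rfl h5, ← Finset.sum_mul, ← vM_sum hz]
    push_cast
    ring

theorem dsr_sum_vM {f : G → ℂ} (hf : ∀ z, ‖f z‖ ≤ 1) {s : ℂ} (hs : 1 < s.re) :
    Summable (fun z : G => ‖(vM z : ℂ) * f z * (nn z : ℂ) ^ (-s)‖) := by
  obtain ⟨D, hD1, hD⟩ := vM_cheb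
  have h1 := dsr_summ vM vM_nonneg hs D (by linarith) hD
  refine Summable.of_nonneg_of_le (fun _ => norm_nonneg _) (fun z => ?_) h1
  rw [dsr_norm_term (fun z => (vM z : ℂ) * f z) hs z, norm_mul, Complex.norm_real,
    Real.norm_of_nonneg (vM_nonneg z)]
  exact mul_le_mul_of_nonneg_right (mul_le_of_le_one_right (vM_nonneg z) (hf z)) (by positivity)


theorem log_conv_pr {f : G → ℂ} (hf : CM f) {s : ℂ} (hs : 1 < s.re) :
    ∑' z : G, (Real.log (nn z) : ℂ) * f z * (nn z : ℂ) ^ (-s) =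
      Dsum f s * ∑' z : G, (vM z : ℂ) * f z * (nn z : ℂ) ^ (-s) := by
  have h2 := dsr_sum_vM hf.bd hs
  have h3 := (dsum_summable_pr hf.bd hs).1
  rw [dsr_tsum_FF h2 h3, dsr_tsum_HH hf hs, dsr_comm_HH (dsr_sum_HH hf hs (dsr_sum_FF h2 h3))]
  exact tsum_congr fun z => dsr_inner_HH f hs z

end Pool.Agent.T2


namespace Pool.Agent.T2

theorem dsum_summable : type_of% @dsum_summable_pr := @dsum_summable_pr
theorem dsum_bound : type_of% @dsum_bound_pr := @dsum_bound_pr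
theorem log_conv : type_of% @log_conv_pr := @log_conv_pr

end Pool.Agent.T2
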