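import Pool.Agent.Lib_helper10.T2.Defs
import Pool.Agent.Lib_helper10.T2F.AGG
import Pool.Agent.Lib_helper10.T2F.BAS
import Pool.Agent.Lib_helper10.T2F.CNT
import Pool.Agent.Lib_helper10.T2F.DSR
import Pool.Agent.Lib_helper10.T2F.PLM
import Pool.Agent.Lib_helper10.T2F.VMG

/-! T2, block MVB: the mean square of the partial sums -/

namespace Pool.Agent.T2

open Filter Topology MeasureTheory

open Classical in
/-- aggregated coefficients -/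
noncomputable def mvb_ag (g : G → ℂ) (n : ℕ) : ℂ := ∑ z ∈ (Bl n).filter (fun z => nn z = n), g z

lemma mvb_Bl_floor {u : ℝ} (hu : 0 ≤ u) : Bl u = Bl ((⌊u⌋₊ : ℕ) : ℝ) := by
  ext z
  rw [mem_Bl, mem_Bl]
  constructor
  · rintro ⟨h1, h2⟩
    exact ⟨h1, by exact_mod_cast Nat.le_floor h2⟩
  · rintro ⟨h1, h2⟩
    refine ⟨h1, h2.trans (Nat.floor_le hu)⟩

lemma mvb_sum (g : G → ℂ) {u : ℝ} (hu : 0 ≤ u) :
    ∑ k ∈ Finset.Icc 1 ⌊u⌋₊, mvb_ag g k = ∑ z ∈ Bl u, g z := by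
  rw [mvb_Bl_floor hu]
  exact aggregate_sum g ⌊u⌋₊

lemma mvb_vM_le {z : G} (hz : z ≠ 0) : vM z ≤ Real.log (nn z) := by
  classical
  rw [← vM_sum hz]
  refine Finset.single_le_sum (f := fun d => vM d) (fun d _ => vM_nonneg d) ?_
  simp only [Finset.mem_filter, mem_Bl]
  exact ⟨⟨hz, le_refl _⟩, dvd_refl z⟩

lemma mvb_summ_v {f : G → ℂ} (hf : CM f) {s : ℂ} (hs : 1 < s.re) :
    Summable (fun z : G => ‖(vM z : ℂ) * f z * (nn z : ℂ) ^ (-s)‖) := by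
  have h := (dsum_summable hf.bd hs).2
  refine Summable.of_nonneg_of_le (fun z => norm_nonneg _) (fun z => ?_) h
  rcases eq_or_ne z 0 with rfl | hz
  · simp [hf.zero]
  · rw [norm_mul, norm_mul, norm_mul, norm_mul, Complex.norm_real, Complex.norm_real,
      Real.norm_eq_abs, Real.norm_eq_abs, abs_of_nonneg (vM_nonneg z)]
    have h1 := mvb_vM_le hz
    have h2 : vM z ≤ |Real.log (nn z)| := h1.trans (le_abs_self _)
    gcongr

lemma mvb_log_bound : ∃ C : ℝ, 1 ≤ C ∧ ∀ f : G → ℂ, CM f → ∀ n : ℕ, 1 ≤ n →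
    ‖∑ k ∈ Finset.Icc 1 n, mvb_ag (fun z => (Real.log (nn z) : ℂ) * f z) k‖ ≤
      C * n * (1 + Real.log n) := by
  obtain ⟨C, hC, h⟩ := ball_le
  refine ⟨C, hC, fun f hf n hn => ?_⟩
  have h0 := aggregate_sum (fun z => (Real.log (nn z) : ℂ) * f z) n
  have h1 : ∑ k ∈ Finset.Icc 1 n, mvb_ag (fun z => (Real.log (nn z) : ℂ) * f z) k =
      ∑ z ∈ Bl n, (Real.log (nn z) : ℂ) * f z := h0
  rw [h1]
  have hn1 : (1 : ℝ) ≤ n := by exact_mod_cast hn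
  have hlog : 0 ≤ Real.log n := Real.log_nonneg hn1
  have h2 : ∀ z ∈ Bl n, ‖(Real.log (nn z) : ℂ) * f z‖ ≤ Real.log n := by
    intro z hz
    rw [mem_Bl] at hz
    have h3 : 0 < nn z := nn_pos.2 hz.1
    have h4 : (1 : ℝ) ≤ nn z := by exact_mod_cast h3
    rw [norm_mul, Complex.norm_real, Real.norm_eq_abs, abs_of_nonneg (Real.log_nonneg h4)]
    have h5 : Real.log (nn z) ≤ Real.log n := Real.log_le_log (by linarith) hz.2
    nlinarith [hf.bd z, Real.log_nonneg h4, norm_nonneg (f z)]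
  calc ‖∑ z ∈ Bl n, (Real.log (nn z) : ℂ) * f z‖
      ≤ ∑ z ∈ Bl n, ‖(Real.log (nn z) : ℂ) * f z‖ := norm_sum_le _ _
    _ ≤ ∑ z ∈ Bl n, Real.log n := Finset.sum_le_sum h2
    _ = ((Bl n).card : ℝ) * Real.log n := by rw [Finset.sum_const, nsmul_eq_mul]
    _ ≤ (C * n) * Real.log n := mul_le_mul_of_nonneg_right (h n (by linarith)) hlog
    _ ≤ C * n * (1 + Real.log n) := by
        apply mul_le_mul_of_nonneg_left (by linarith)
        positivity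

lemma mvb_v_bound : ∃ C : ℝ, 1 ≤ C ∧ ∀ f : G → ℂ, CM f → ∀ u : ℝ, 1 ≤ u →
    ‖∑ z ∈ Bl u, (vM z : ℂ) * f z‖ ≤ C * u := by
  obtain ⟨C, hC, h⟩ := vM_cheb
  refine ⟨C, hC, fun f hf u hu => ?_⟩
  refine (norm_sum_le _ _).trans ((Finset.sum_le_sum fun z _ => ?_).trans (h u hu))
  rw [norm_mul, Complex.norm_real, Real.norm_eq_abs, abs_of_nonneg (vM_nonneg z)]
  nlinarith [hf.bd z, vM_nonneg z, norm_nonneg (f z)]

lemma mvb_cauchy {T : ℝ} (hT : 0 < T) :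
    Integrable (fun t : ℝ => (T ^ 2 + t ^ 2)⁻¹) ∧
      ∫ t : ℝ, (T ^ 2 + t ^ 2)⁻¹ = Real.pi / T := by
  have e : (fun t : ℝ => (T ^ 2 + t ^ 2)⁻¹) =
      fun t : ℝ => (T ^ 2)⁻¹ * (1 + (t / T) ^ 2)⁻¹ := by
    funext t
    have h1 : T ^ 2 + t ^ 2 = T ^ 2 * (1 + (t / T) ^ 2) := by
      field_simp
    rw [h1, mul_inv]
  have hi : Integrable (fun t : ℝ => (1 + (t / T) ^ 2)⁻¹) :=
    integrable_inv_one_add_sq.comp_div hT.ne'
  refine ⟨?_, ?_⟩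
  · rw [e]
    exact hi.const_mul _
  · rw [e, integral_const_mul]
    have h2 : ∫ t : ℝ, (1 + (t / T) ^ 2)⁻¹ = |T| • ∫ x : ℝ, (1 + x ^ 2)⁻¹ :=
      Measure.integral_comp_div (fun x : ℝ => (1 + x ^ 2)⁻¹) T
    rw [h2, integral_univ_inv_one_add_sq, abs_of_pos hT, smul_eq_mul]
    field_simp

theorem mean_square_pr : ∃ C : ℝ, 1 ≤ C ∧ ∀ f : G → ℂ, CM f → ∀ L T M : ℝ, 1 ≤ L → 1 ≤ T → 0 ≤ M →
    (∀ t : ℝ, |t| ≤ T → ‖Dsum f ((1 + 1 / L : ℝ) + t * Complex.I)‖ ≤ M) →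
      ∫ u in Set.Ioi (1 : ℝ), ‖∑ z ∈ Bl u, (Real.log (nn z) : ℂ) * f z‖ ^ 2 *
        u ^ (-(3 + 2 / L)) ≤ C * (M ^ 2 * L + L ^ 4 / T) := by
  obtain ⟨C₁, hC₁, hl⟩ := mvb_log_bound
  obtain ⟨C₂, hC₂, hv⟩ := mvb_v_bound
  obtain ⟨C₃, hC₃, hd⟩ := dsum_bound
  refine ⟨C₂ ^ 2 + C₃ ^ 4, by nlinarith [pow_pos (lt_of_lt_of_le one_pos hC₃) 4], ?_⟩
  intro f hf L T M hL hT hM hb
  set σ : ℝ := 1 + 1 / L with hσ
  have hL0 : 0 < L := by linarith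
  have hT0 : 0 < T := by linarith
  have hiL : 0 < 1 / L := by positivity
  have hσ1 : 1 < σ := by rw [hσ]; linarith
  have hσ2 : σ ≤ 2 := by
    have : 1 / L ≤ 1 := by rw [div_le_one hL0]; exact hL
    rw [hσ]; linarith
  set fl : G → ℂ := fun z => (Real.log (nn z) : ℂ) * f z with hfl
  set fv : G → ℂ := fun z => (vM z : ℂ) * f z with hfv
  -- the Dirichlet series
  have hre : ∀ t : ℝ, (((σ : ℝ) : ℂ) + t * Complex.I).re = σ := by intro t; simp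
  have sl : ∀ s : ℂ, 1 < s.re → LSeriesSummable (mvb_ag fl) s ∧ Dsum fl s = LSeries (mvb_ag fl) s :=
    fun s hs => aggregate hs (dsum_summable hf.bd hs).2
  have sv : ∀ s : ℂ, 1 < s.re → LSeriesSummable (mvb_ag fv) s ∧ Dsum fv s = LSeries (mvb_ag fv) s :=
    fun s hs => aggregate hs (mvb_summ_v hf hs)
  have hconv : ∀ s : ℂ, 1 < s.re → LSeries (mvb_ag fl) s = Dsum f s * LSeries (mvb_ag fv) s := by
    intro s hs
    rw [← (sl s hs).2, ← (sv s hs).2]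
    exact log_conv hf hs
  -- bounds of partial sums
  have hvb : ∀ n : ℕ, 1 ≤ n → ‖∑ k ∈ Finset.Icc 1 n, mvb_ag fv k‖ ≤ C₂ * n * (1 + Real.log n) := by
    intro n hn
    have hn1 : (1 : ℝ) ≤ n := by exact_mod_cast hn
    have h0 : ∑ k ∈ Finset.Icc 1 n, mvb_ag fv k = ∑ z ∈ Bl n, fv z := aggregate_sum fv n
    rw [h0]
    refine (hv f hf n hn1).trans ?_
    have : 0 ≤ Real.log n := Real.log_nonneg hn1
    have h2 : 0 ≤ C₂ * n := by positivity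
    nlinarith
  obtain ⟨il, el⟩ := mellin_plancherel (mvb_ag fl) C₁ (hl f hf) (fun s hs => (sl s hs).1) hσ1
  obtain ⟨iv, ev⟩ := mellin_plancherel (mvb_ag fv) C₂ hvb (fun s hs => (sv s hs).1) hσ1
  obtain ⟨ic, ec⟩ := mvb_cauchy hT0
  -- pointwise bound
  have hpt : ∀ t : ℝ, ‖LSeries (mvb_ag fl) (σ + t * Complex.I) / (σ + t * Complex.I)‖ ^ 2 ≤
      M ^ 2 * ‖LSeries (mvb_ag fv) (σ + t * Complex.I) / (σ + t * Complex.I)‖ ^ 2 +
        2 * (C₃ * L) ^ 4 * (T ^ 2 + t ^ 2)⁻¹ := by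
    intro t
    set s : ℂ := (σ : ℂ) + t * Complex.I with hs
    have hs1 : 1 < s.re := by rw [hs, hre]; exact hσ1
    have hsn : t ^ 2 ≤ ‖s‖ ^ 2 := by
      have h1 : |s.im| ≤ ‖s‖ := Complex.abs_im_le_norm s
      have h2 : s.im = t := by rw [hs]; simp
      rw [h2] at h1
      calc t ^ 2 = |t| ^ 2 := (sq_abs t).symm
        _ ≤ ‖s‖ ^ 2 := by gcongr
    have hs0 : 0 < ‖s‖ := by
      have h1 : |s.re| ≤ ‖s‖ := Complex.abs_re_le_norm s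
      have h2 : 1 < |s.re| := lt_of_lt_of_le hs1 (le_abs_self _)
      linarith
    have hpos : 0 ≤ 2 * (C₃ * L) ^ 4 * (T ^ 2 + t ^ 2)⁻¹ := by positivity
    rw [hconv s hs1]
    by_cases ht : |t| ≤ T
    · have h1 := hb t ht
      have h2 : ‖Dsum f s * LSeries (mvb_ag fv) s / s‖ ≤ M * ‖LSeries (mvb_ag fv) s / s‖ := by
        rw [mul_div_assoc, norm_mul]
        exact mul_le_mul_of_nonneg_right h1 (norm_nonneg _)
      have h3 : ‖Dsum f s * LSeries (mvb_ag fv) s / s‖ ^ 2 ≤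
          (M * ‖LSeries (mvb_ag fv) s / s‖) ^ 2 := by
        gcongr
      rw [mul_pow] at h3
      linarith
    · have ht' : T < |t| := not_le.1 ht
      obtain ⟨h1, h2⟩ := hd f hf.bd s hs1 (by rw [hs, hre]; exact hσ2)
      have e1 : C₃ / (s.re - 1) = C₃ * L := by
        rw [hs, hre, hσ]; field_simp; ring
      rw [e1] at h1 h2
      have h2' : ‖LSeries (mvb_ag fv) s‖ ≤ C₃ * L := by
        rw [← (sv s hs1).2]; exact h2
      have hCL : 0 ≤ C₃ * L := by positivity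
      have h3 : ‖Dsum f s * LSeries (mvb_ag fv) s‖ ≤ (C₃ * L) ^ 2 := by
        rw [norm_mul, sq]
        exact mul_le_mul h1 h2' (norm_nonneg _) hCL
      have htt : T ^ 2 < t ^ 2 := by
        rw [← sq_abs t]
        exact pow_lt_pow_left₀ ht' hT0.le (by norm_num)
      have hT2 : 0 < T ^ 2 := by positivity
      have h4 : ‖Dsum f s * LSeries (mvb_ag fv) s / s‖ ^ 2 ≤ 2 * (C₃ * L) ^ 4 * (T ^ 2 + t ^ 2)⁻¹ := by
        rw [norm_div, div_pow, ← div_eq_mul_inv]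
        have h5 : ‖Dsum f s * LSeries (mvb_ag fv) s‖ ^ 2 ≤ (C₃ * L) ^ 4 := by
          calc ‖Dsum f s * LSeries (mvb_ag fv) s‖ ^ 2 ≤ ((C₃ * L) ^ 2) ^ 2 := by gcongr
            _ = (C₃ * L) ^ 4 := by ring
        rw [div_le_div_iff₀ (by positivity) (by positivity)]
        have h6 : T ^ 2 + t ^ 2 ≤ 2 * ‖s‖ ^ 2 := by linarith
        have h7 : 0 ≤ (C₃ * L) ^ 4 := by positivity
        calc ‖Dsum f s * LSeries (mvb_ag fv) s‖ ^ 2 * (T ^ 2 + t ^ 2)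
            ≤ (C₃ * L) ^ 4 * (2 * ‖s‖ ^ 2) := by gcongr
          _ = 2 * (C₃ * L) ^ 4 * ‖s‖ ^ 2 := by ring
      have h8 : 0 ≤ M ^ 2 * ‖LSeries (mvb_ag fv) s / s‖ ^ 2 := by positivity
      linarith
  -- integrate
  have hint : ∫ t : ℝ, ‖LSeries (mvb_ag fl) (σ + t * Complex.I) / (σ + t * Complex.I)‖ ^ 2 ≤
      M ^ 2 * (∫ t : ℝ, ‖LSeries (mvb_ag fv) (σ + t * Complex.I) / (σ + t * Complex.I)‖ ^ 2) +
        2 * (C₃ * L) ^ 4 * (Real.pi / T) := by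
    rw [← ec, ← integral_const_mul, ← integral_const_mul,
      ← integral_add (iv.const_mul _) (ic.const_mul _)]
    exact integral_mono il ((iv.const_mul _).add (ic.const_mul _)) hpt
  have hexp : (-(2 * σ + 1) : ℝ) = -(3 + 2 / L) := by rw [hσ]; field_simp; ring
  -- the integral for the von Mangoldt function
  have hLv : ∫ u in Set.Ioi (1 : ℝ), ‖∑ k ∈ Finset.Icc 1 ⌊u⌋₊, mvb_ag fv k‖ ^ 2 *
      u ^ (-(2 * σ + 1)) ≤ C₂ ^ 2 * (L / 2) := by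
    have hlt : (-(1 + 2 / L) : ℝ) < -1 := by
      have : 0 < 2 / L := by positivity
      linarith
    have h1 : ∫ u in Set.Ioi (1 : ℝ), C₂ ^ 2 * u ^ (-(1 + 2 / L) : ℝ) = C₂ ^ 2 * (L / 2) := by
      rw [integral_const_mul, integral_Ioi_rpow_of_lt hlt one_pos, Real.one_rpow]
      field_simp
      ring
    rw [← h1]
    refine integral_mono_of_nonneg ?_
      ((integrableOn_Ioi_rpow_of_lt hlt one_pos).const_mul _) ?_
    · refine (ae_restrict_iff' measurableSet_Ioi).2 (Eventually.of_forall fun u hu => ?_)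
      have hu0 : 0 < u := lt_trans one_pos hu
      have : 0 ≤ ‖∑ k ∈ Finset.Icc 1 ⌊u⌋₊, mvb_ag fv k‖ ^ 2 * u ^ (-(2 * σ + 1)) := by positivity
      exact this
    · refine (ae_restrict_iff' measurableSet_Ioi).2 (Eventually.of_forall fun u hu => ?_)
      have hu1 : 1 < u := hu
      have hu0 : 0 < u := lt_trans one_pos hu1
      have h2 : ‖∑ k ∈ Finset.Icc 1 ⌊u⌋₊, mvb_ag fv k‖ ≤ C₂ * u := by
        rw [mvb_sum fv hu0.le]
        exact hv f hf u hu1.le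
      have h3 : u ^ (-(2 * σ + 1)) * u ^ 2 = u ^ (-(1 + 2 / L) : ℝ) := by
        rw [← Real.rpow_natCast u 2, ← Real.rpow_add hu0, hexp]
        congr 1
        push_cast
        ring
      have h4 : ‖∑ k ∈ Finset.Icc 1 ⌊u⌋₊, mvb_ag fv k‖ ^ 2 ≤ (C₂ * u) ^ 2 := by gcongr
      calc ‖∑ k ∈ Finset.Icc 1 ⌊u⌋₊, mvb_ag fv k‖ ^ 2 * u ^ (-(2 * σ + 1))
          ≤ (C₂ * u) ^ 2 * u ^ (-(2 * σ + 1)) := by gcongr
        _ = C₂ ^ 2 * (u ^ (-(2 * σ + 1)) * u ^ 2) := by ring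
        _ = C₂ ^ 2 * u ^ (-(1 + 2 / L) : ℝ) := by rw [h3]
  -- conclusion
  have hfin : ∫ u in Set.Ioi (1 : ℝ), ‖∑ z ∈ Bl u, (Real.log (nn z) : ℂ) * f z‖ ^ 2 *
        u ^ (-(3 + 2 / L)) = ∫ u in Set.Ioi (1 : ℝ), ‖∑ k ∈ Finset.Icc 1 ⌊u⌋₊, mvb_ag fl k‖ ^ 2 *
        u ^ (-(2 * σ + 1)) := by
    refine setIntegral_congr_fun measurableSet_Ioi fun u hu => ?_
    have hu0 : 0 < u := lt_trans one_pos hu
    rw [mvb_sum fl hu0.le, hexp]
  rw [hfin]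
  have hpi := Real.pi_pos
  have h10 : 2 * Real.pi * (∫ u in Set.Ioi (1 : ℝ), ‖∑ k ∈ Finset.Icc 1 ⌊u⌋₊, mvb_ag fl k‖ ^ 2 *
        u ^ (-(2 * σ + 1))) ≤ 2 * Real.pi * ((C₂ ^ 2 + C₃ ^ 4) * (M ^ 2 * L + L ^ 4 / T)) := by
    rw [← el]
    refine hint.trans ?_
    rw [ev]
    have h11 : M ^ 2 * (2 * Real.pi * ∫ u in Set.Ioi (1 : ℝ),
        ‖∑ k ∈ Finset.Icc 1 ⌊u⌋₊, mvb_ag fv k‖ ^ 2 * u ^ (-(2 * σ + 1))) ≤
        M ^ 2 * (2 * Real.pi * (C₂ ^ 2 * (L / 2))) := by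
      gcongr
    have h12 : 2 * (C₃ * L) ^ 4 * (Real.pi / T) = 2 * Real.pi * (C₃ ^ 4 * (L ^ 4 / T)) := by ring
    rw [h12]
    refine (add_le_add h11 le_rfl).trans ?_
    have h13 : M ^ 2 * (2 * Real.pi * (C₂ ^ 2 * (L / 2))) + 2 * Real.pi * (C₃ ^ 4 * (L ^ 4 / T)) =
        2 * Real.pi * (C₂ ^ 2 * (M ^ 2 * L) / 2 + C₃ ^ 4 * (L ^ 4 / T)) := by ring
    rw [h13]
    apply mul_le_mul_of_nonneg_left _ (by positivity)
    have h14 : 0 ≤ M ^ 2 * L := by positivity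
    have h15 : 0 ≤ L ^ 4 / T := by positivity
    have h16 : 0 ≤ C₂ ^ 2 := by positivity
    have h17 : 0 ≤ C₃ ^ 4 := by positivity
    nlinarith [mul_nonneg h16 h14, mul_nonneg h16 h15, mul_nonneg h17 h14, mul_nonneg h17 h15]
  exact le_of_mul_le_mul_left h10 (by positivity)

end Pool.Agent.T2


namespace Pool.Agent.T2

theorem mean_square : type_of% @mean_square_pr := @mean_square_pr

end Pool.Agent.T2
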