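import Pool.Agent.Lib_helper10.T2.Defs
import Pool.Agent.Lib_helper10.T2F.BAS
import Pool.Agent.Lib_helper10.T2F.DSR
import Pool.Agent.Lib_helper10.T2F.VMG

/-! T2, block LGF: the logarithm of a Dirichlet series with completely multiplicative coefficients -/

namespace Pool.Agent.T2

open Filter Topology MeasureTheory

lemma lgf_nn_le_iff {z : G} : nn z = 0 ↔ z = 0 := by
  constructor
  · intro h
    by_contra h0
    exact absurd (nn_pos.2 h0) (by omega)
  · rintro rfl
    by_contra h0
    exact (nn_pos.1 (Nat.pos_of_ne_zero h0)) rfl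

lemma lgf_term_norm {z : G} (hz : z ≠ 0) (a s : ℂ) :
    ‖a * (nn z : ℂ) ^ (-s)‖ = ‖a‖ * (nn z : ℝ) ^ (-s.re) := by
  rw [norm_mul]
  congr 1
  have h : 0 < nn z := nn_pos.2 hz
  have := Complex.norm_natCast_cpow_of_pos h (-s)
  rw [this]
  simp

/-- summability of the norms as real powers -/
lemma lgf_summ {g : G → ℂ} (hg : ∀ z, ‖g z‖ ≤ 1) {σ : ℝ} (hσ : 1 < σ) :
    Summable (fun z : G => ‖g z‖ * (nn z : ℝ) ^ (-σ)) := by
  have h := (dsum_summable hg (s := (σ : ℂ)) (by simpa using hσ)).1
  refine (h.congr fun z => ?_)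
  rw [norm_mul]
  congr 1
  rcases eq_or_ne z 0 with rfl | hz
  · have h0 : nn (0 : G) = 0 := lgf_nn_le_iff.2 rfl
    rw [h0]
    have h1 : (-(σ : ℂ)) ≠ 0 := by
      intro h2
      have h3 : ((-σ : ℝ) : ℂ) = 0 := by push_cast; exact h2
      have := Complex.ofReal_eq_zero.1 h3
      linarith
    have h2 : (-σ : ℝ) ≠ 0 := by linarith
    rw [Nat.cast_zero, Complex.zero_cpow h1, Nat.cast_zero, Real.zero_rpow h2, norm_zero]
  · have h : 0 < nn z := nn_pos.2 hz
    rw [Complex.norm_natCast_cpow_of_pos h]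
    simp

/-- a Dirichlet series may be differentiated term by term -/
lemma lgf_deriv {g : G → ℂ} (hg : ∀ z, ‖g z‖ ≤ 1) (h0 : g 0 = 0) {s : ℂ} (hs : 1 < s.re) :
    HasDerivAt (Dsum g) (-∑' z : G, (Real.log (nn z) : ℂ) * g z * (nn z : ℂ) ^ (-s)) s := by
  set σ : ℝ := (1 + s.re) / 2 with hσ
  have hσ1 : 1 < σ := by rw [hσ]; linarith
  have hσs : σ < s.re := by rw [hσ]; linarith
  set U : Set ℂ := {w : ℂ | σ < w.re} with hU
  have hUo : IsOpen U := isOpen_lt continuous_const Complex.continuous_re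
  have hd : ∀ z : G, ∀ w : ℂ, HasDerivAt (fun w : ℂ => g z * (nn z : ℂ) ^ (-w))
      (-((Real.log (nn z) : ℂ) * g z * (nn z : ℂ) ^ (-w))) w := by
    intro z w
    rcases eq_or_ne z 0 with rfl | hz
    · simp only [h0, zero_mul, mul_zero, neg_zero]
      exact hasDerivAt_const _ _
    · have hp : (nn z : ℂ) ≠ 0 := by
        have := nn_pos.2 hz
        exact_mod_cast this.ne'
      have h1 : HasDerivAt (fun w : ℂ => (nn z : ℂ) ^ (-w))
          ((nn z : ℂ) ^ (-w) * Complex.log (nn z) * (-1)) w := by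
        have h2 : HasDerivAt (fun w : ℂ => -w) (-1) w := hasDerivAt_neg w
        exact h2.const_cpow (Or.inl hp)
      have h3 := h1.const_mul (g z)
      have h4 : Complex.log (nn z) = (Real.log (nn z) : ℂ) := by
        rw [Complex.ofReal_log (Nat.cast_nonneg _)]
        simp
      rw [h4] at h3
      have h5 : -((Real.log (nn z) : ℂ) * g z * (nn z : ℂ) ^ (-w)) =
          g z * ((nn z : ℂ) ^ (-w) * (Real.log (nn z) : ℂ) * (-1)) := by ring
      rw [h5]
      exact h3
  have hle : ∀ (z : G) (w : ℂ), w ∈ U → ‖g z * (nn z : ℂ) ^ (-w)‖ ≤ ‖g z‖ * (nn z : ℝ) ^ (-σ) := by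
    intro z w hw
    rcases eq_or_ne z 0 with rfl | hz
    · simp [h0]
    · rw [lgf_term_norm hz]
      apply mul_le_mul_of_nonneg_left _ (norm_nonneg _)
      have h1 : (1 : ℝ) ≤ nn z := by
        have := nn_pos.2 hz
        exact_mod_cast this
      apply Real.rpow_le_rpow_of_exponent_le h1
      have : σ < w.re := hw
      linarith
  have hsU : s ∈ U := hσs
  have hsum := Complex.hasSum_deriv_of_summable_norm (lgf_summ hg hσ1)
    (fun z => fun w _ => ((hd z w).differentiableAt).differentiableWithinAt) hUo hle hsU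
  have hdiff := Complex.differentiableOn_tsum_of_summable_norm (lgf_summ hg hσ1)
    (fun z => fun w _ => ((hd z w).differentiableAt).differentiableWithinAt) hUo hle
  have hdA : DifferentiableAt ℂ (Dsum g) s := by
    have := (hdiff s hsU).differentiableAt (hUo.mem_nhds hsU)
    exact this
  have e : deriv (Dsum g) s = -∑' z : G, (Real.log (nn z) : ℂ) * g z * (nn z : ℂ) ^ (-s) := by
    have h1 : deriv (fun w : ℂ => ∑' z : G, g z * (nn z : ℂ) ^ (-w)) s =
        ∑' z : G, deriv (fun w : ℂ => g z * (nn z : ℂ) ^ (-w)) s := hsum.tsum_eq.symm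
    have h2 : deriv (Dsum g) s = deriv (fun w : ℂ => ∑' z : G, g z * (nn z : ℂ) ^ (-w)) s := rfl
    rw [h2, h1, ← tsum_neg]
    congr 1
    funext z
    exact (hd z s).deriv
  rw [← e]
  exact hdA.hasDerivAt

lemma lgf_vM_one {z : G} (h : nn z = 1) : vM z = 0 := by
  unfold vM
  rw [dif_neg]
  rintro ⟨π, hπ, j, hj, ha⟩
  have hu : IsUnit z := by
    exact Zsqrtd.norm_eq_one_iff.1 h
  have h2 : IsUnit (π ^ j) := ha.isUnit hu
  exact hπ.not_isUnit ((isUnit_pow_iff (by omega)).1 h2)

lemma lgf_vM_zero : vM 0 = 0 := by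
  unfold vM
  rw [dif_neg]
  rintro ⟨π, hπ, j, hj, ha⟩
  have h1 : π ^ j = 0 := ha.symm.eq_zero_iff.2 rfl
  exact hπ.ne_zero (pow_eq_zero_iff (by omega) |>.1 h1)

lemma lgf_kap (z : G) : |kap z| ≤ 1 := by
  by_cases h : ∃ π : G, Prime π ∧ ∃ j : ℕ, 1 ≤ j ∧ Associated z (π ^ j)
  · obtain ⟨π, hπ, j, hj, ha⟩ := h
    rw [(vM_eq hπ hj ha).2, abs_of_nonneg (by positivity)]
    rw [div_le_one (by positivity)]
    have : (1 : ℝ) ≤ j := by exact_mod_cast hj
    linarith
  · have h1 : vM z = 0 := by
      unfold vM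
      rw [dif_neg h]
    unfold kap
    rw [h1, zero_div, abs_zero]
    exact zero_le_one

lemma lgf_kap_log (z : G) : Real.log (nn z) * kap z = vM z := by
  unfold kap
  rcases eq_or_ne z 0 with rfl | hz
  · rw [lgf_vM_zero]; simp
  · by_cases h1 : nn z = 1
    · rw [lgf_vM_one h1]; simp
    · have h2 : 0 < nn z := nn_pos.2 hz
      have h3 : (1 : ℝ) < nn z := by
        have : 1 < nn z := by omega
        exact_mod_cast this
      have h4 : Real.log (nn z) ≠ 0 := (Real.log_pos h3).ne'
      field_simp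

lemma lgf_kap_small {z : G} (h : nn z ≤ 1) : kap z = 0 := by
  have h1 : Real.log (nn z) = 0 := by
    have h2 : nn z = 0 ∨ nn z = 1 := by omega
    rcases h2 with h2 | h2 <;> rw [h2] <;> simp
  unfold kap
  rw [h1, div_zero]

/-- the limit of a Dirichlet series at infinity -/
lemma lgf_tendsto {g : G → ℂ} (hg : ∀ z, ‖g z‖ ≤ 1) (h0 : g 0 = 0) (t : ℝ) :
    Tendsto (fun σ : ℝ => Dsum g (σ + t * Complex.I)) atTop
      (𝓝 (∑' z : G, if nn z = 1 then g z else 0)) := by
  have hb := lgf_summ hg (σ := 2) (by norm_num)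
  refine tendsto_tsum_of_dominated_convergence hb ?_ ?_
  · intro z
    rcases eq_or_ne z 0 with rfl | hz
    · have h1 : nn (0 : G) = 0 := lgf_nn_le_iff.2 rfl
      simp [h0]
    · by_cases h1 : nn z = 1
      · rw [if_pos h1]
        refine tendsto_const_nhds.congr fun σ => ?_
        rw [h1]; simp
      · rw [if_neg h1]
        have h2 : 0 < nn z := nn_pos.2 hz
        have h3 : (1 : ℝ) < nn z := by
          have : 1 < nn z := by omega
          exact_mod_cast this
        rw [tendsto_zero_iff_norm_tendsto_zero]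
        have h4 : Tendsto (fun σ : ℝ => ‖g z‖ * (nn z : ℝ) ^ (-σ)) atTop (𝓝 (‖g z‖ * 0)) := by
          apply Tendsto.const_mul
          have := tendsto_rpow_atTop_of_base_lt_one ((nn z : ℝ)⁻¹) (by
            have : (0 : ℝ) < (nn z : ℝ)⁻¹ := by positivity
            linarith) (inv_lt_one_of_one_lt₀ h3)
          refine this.congr fun σ => ?_
          rw [Real.inv_rpow (by positivity), Real.rpow_neg (by positivity)]
        rw [mul_zero] at h4
        refine h4.congr fun σ => ?_
        rw [lgf_term_norm hz]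
        simp
  · filter_upwards [eventually_ge_atTop (2 : ℝ)] with σ hσ z
    rcases eq_or_ne z 0 with rfl | hz
    · simp [h0]
    · rw [lgf_term_norm hz]
      apply mul_le_mul_of_nonneg_left _ (norm_nonneg _)
      have h1 : (1 : ℝ) ≤ nn z := by
        have := nn_pos.2 hz
        exact_mod_cast this
      apply Real.rpow_le_rpow_of_exponent_le h1
      simp
      linarith

lemma lgf_units : ∀ z : G, nn z = 1 ↔ z = 1 ∨ z = -1 ∨ z = ui ∨ z = -ui := by
  rintro ⟨a, b⟩
  have h := nn_cast ⟨a, b⟩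
  constructor
  · intro h1
    rw [h1] at h
    push_cast at h
    have h4 : a ≤ 1 := by nlinarith [sq_nonneg b]
    have h5 : -1 ≤ a := by nlinarith [sq_nonneg b]
    have h6 : b ≤ 1 := by nlinarith [sq_nonneg a]
    have h7 : -1 ≤ b := by nlinarith [sq_nonneg a]
    interval_cases a <;> interval_cases b <;> first | (exfalso; revert h; decide) | decide
  · rintro (h1 | h1 | h1 | h1) <;> rw [h1] <;> decide

theorem log_formula_pr {f : G → ℂ} (hf : CM f) {s : ℂ} (hs : 1 < s.re) :
    Dsum f s = 4 * Complex.exp (Esum f s) := by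
  have hE : Esum f = Dsum (fun z => (kap z : ℂ) * f z) := rfl
  have hk : ∀ z, ‖(kap z : ℂ) * f z‖ ≤ 1 := by
    intro z
    rw [norm_mul, Complex.norm_real, Real.norm_eq_abs]
    nlinarith [lgf_kap z, hf.bd z, abs_nonneg (kap z), norm_nonneg (f z)]
  have hk0 : (kap 0 : ℂ) * f 0 = 0 := by rw [hf.zero, mul_zero]
  set U : Set ℂ := {w : ℂ | 1 < w.re} with hU
  have hUo : IsOpen U := isOpen_lt continuous_const Complex.continuous_re
  have hUc : IsPreconnected U := (convex_halfSpace_re_gt 1).isPreconnected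
  set Gf : ℂ → ℂ := fun w => Dsum f w * Complex.exp (-Esum f w) with hG
  have hder : ∀ w ∈ U, HasDerivAt Gf 0 w := by
    intro w hw
    have h1 := lgf_deriv hf.bd hf.zero (s := w) hw
    have h2 := lgf_deriv hk hk0 (s := w) hw
    rw [← hE] at h2
    have h3 : (∑' z : G, (Real.log (nn z) : ℂ) * ((kap z : ℂ) * f z) * (nn z : ℂ) ^ (-w)) =
        ∑' z : G, (vM z : ℂ) * f z * (nn z : ℂ) ^ (-w) := by
      congr 1
      funext z
      rw [← lgf_kap_log z]
      push_cast
      ring
    rw [h3] at h2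
    have h4 : HasDerivAt Gf ((-∑' z : G, (Real.log (nn z) : ℂ) * f z * (nn z : ℂ) ^ (-w)) *
        Complex.exp (-Esum f w) + Dsum f w * (Complex.exp (-Esum f w) *
          - -∑' z : G, (vM z : ℂ) * f z * (nn z : ℂ) ^ (-w))) w := h1.mul (h2.neg.cexp)
    rw [log_conv hf hw] at h4
    have h5 : ((-(Dsum f w * ∑' z : G, (vM z : ℂ) * f z * (nn z : ℂ) ^ (-w))) *
        Complex.exp (-Esum f w) + Dsum f w * (Complex.exp (-Esum f w) *
          - -∑' z : G, (vM z : ℂ) * f z * (nn z : ℂ) ^ (-w))) = 0 := by ring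
    rw [h5] at h4
    exact h4
  have hconst : ∀ w ∈ U, Gf w = Gf s := by
    intro w hw
    exact hUo.is_const_of_deriv_eq_zero hUc
      (fun z hz => (hder z hz).differentiableAt.differentiableWithinAt)
      (fun z hz => (hder z hz).deriv) hw hs
  have hlim1 := lgf_tendsto hf.bd hf.zero s.im
  have hlim2 := lgf_tendsto hk hk0 s.im
  rw [← hE] at hlim2
  have e2 : (∑' z : G, if nn z = 1 then (kap z : ℂ) * f z else 0) = 0 := by
    have : (fun z : G => if nn z = 1 then (kap z : ℂ) * f z else 0) = fun _ => 0 := by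
      funext z
      by_cases h : nn z = 1
      · rw [if_pos h, lgf_kap_small (by omega)]; simp
      · rw [if_neg h]
    rw [this, tsum_zero]
  have e1 : (∑' z : G, if nn z = 1 then f z else 0) = 4 := by
    have h1 : ∀ z ∉ ({1, -1, ui, -ui} : Finset G), (if nn z = 1 then f z else 0) = 0 := by
      intro z hz
      rw [if_neg]
      intro h
      apply hz
      have := (lgf_units z).1 h
      simpa using this
    rw [tsum_eq_sum h1]
    have hm1 : f (-1) = 1 := by
      have : (-1 : G) = ui * ui := by decide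
      rw [this, hf.mul, hf.unit, one_mul]
    have hmu : f (-ui) = 1 := by
      have : (-ui : G) = (-1) * ui := by ring
      rw [this, hf.mul, hf.unit, hm1, one_mul]
    have h2 : ∀ z ∈ ({1, -1, ui, -ui} : Finset G), (if nn z = 1 then f z else 0) = 1 := by
      intro z hz
      have hz' : z = 1 ∨ z = -1 ∨ z = ui ∨ z = -ui := by simpa using hz
      rw [if_pos ((lgf_units z).2 hz')]
      rcases hz' with rfl | rfl | rfl | rfl
      · exact hf.one
      · exact hm1
      · exact hf.unit
      · exact hmu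
    rw [Finset.sum_congr rfl h2]
    have h3 : ({1, -1, ui, -ui} : Finset G).card = 4 := by decide
    simp [h3]
  rw [e1] at hlim1
  rw [e2] at hlim2
  have hlim : Tendsto (fun σ : ℝ => Gf (σ + s.im * Complex.I)) atTop (𝓝 (4 * Complex.exp (-0))) :=
    hlim1.mul ((Complex.continuous_exp.tendsto _).comp hlim2.neg)
  have hlim' : Tendsto (fun σ : ℝ => Gf (σ + s.im * Complex.I)) atTop (𝓝 (Gf s)) := by
    apply tendsto_const_nhds.congr'
    filter_upwards [eventually_gt_atTop (1 : ℝ)] with σ hσ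
    exact (hconst _ (by simpa [hU] using hσ)).symm
  have h5 := tendsto_nhds_unique hlim' hlim
  rw [neg_zero, Complex.exp_zero, mul_one] at h5
  have h6 : Dsum f s * Complex.exp (-Esum f s) = 4 := h5
  have h7 : Complex.exp (-Esum f s) * Complex.exp (Esum f s) = 1 := by
    rw [← Complex.exp_add, neg_add_cancel, Complex.exp_zero]
  calc Dsum f s = Dsum f s * (Complex.exp (-Esum f s) * Complex.exp (Esum f s)) := by
        rw [h7, mul_one]
    _ = (Dsum f s * Complex.exp (-Esum f s)) * Complex.exp (Esum f s) := by ring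
    _ = 4 * Complex.exp (Esum f s) := by rw [h6]

end Pool.Agent.T2


namespace Pool.Agent.T2

theorem log_formula : type_of% @log_formula_pr := @log_formula_pr

end Pool.Agent.T2
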