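import Pool.Agent.Lib_helper10.T2.Defs
import Pool.Agent.Lib_helper10.T2F.BAS
import Pool.Agent.Lib_helper10.T2F.DSR
import Pool.Agent.Lib_helper10.T2F.LGF
import Pool.Agent.Lib_helper10.T2F.PEL
import Pool.Agent.Lib_helper10.T2F.VMG

/-! T2, package C, block TFO: three, four, one. -/

namespace Pool.Agent.T2

open Filter Topology MeasureTheory

theorem tfo_nn_one : nn (1 : G) = 1 := by
  have := nn_nat 1
  simpa using this

theorem tfo_nn_unit (u : Gˣ) : nn (u : G) = 1 := by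
  have h : nn (u : G) * nn ((u⁻¹ : Gˣ) : G) = 1 := by
    rw [← nn_mul, ← Units.val_mul, mul_inv_cancel, Units.val_one, tfo_nn_one]
  exact Nat.eq_one_of_mul_eq_one_right h

theorem tfo_nn_assoc {z w : G} (h : Associated z w) : nn z = nn w := by
  obtain ⟨u, rfl⟩ := h
  rw [nn_mul, tfo_nn_unit, mul_one]

theorem tfo_fin : Finite Gˣ := by
  have h : ∀ u : Gˣ, (u : G) ∈ Bl 1 := fun u => by
    rw [mem_Bl, tfo_nn_unit]
    exact ⟨u.ne_zero, by norm_num⟩
  refine Finite.of_injective (fun u : Gˣ => (⟨(u : G), h u⟩ : (Bl 1 : Finset G))) ?_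
  intro u v huv
  have := congrArg Subtype.val huv
  exact Units.ext this

theorem tfo_nn_pow (z : G) (j : ℕ) : nn (z ^ j) = nn z ^ j := by
  induction j with
  | zero => rw [pow_zero, pow_zero, tfo_nn_one]
  | succ j ih => rw [pow_succ, nn_mul, ih, pow_succ]

theorem tfo_prime_nn {π : G} (h : Prime π) : 2 ≤ nn π := by
  have h0 : 0 < nn π := nn_pos.2 h.ne_zero
  by_contra h1
  have h2 : nn π = 1 := by omega
  apply h.not_isUnit
  rw [Zsqrtd.isUnit_iff_norm_isUnit]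
  have h3 := nn_cast π
  unfold nn at h2
  rw [Int.isUnit_iff_natAbs_eq]
  exact h2

theorem tfo_vM_zero {z : G} (h : ¬ ∃ π : G, Prime π ∧ ∃ j : ℕ, 1 ≤ j ∧ Associated z (π ^ j)) :
    vM z = 0 := by
  unfold vM
  rw [dif_neg h]

theorem tfo_kap (z : G) : 0 ≤ kap z ∧ kap z ≤ 1 / 4 := by
  by_cases h : ∃ π : G, Prime π ∧ ∃ j : ℕ, 1 ≤ j ∧ Associated z (π ^ j)
  · obtain ⟨π, hπ, j, hj, hz⟩ := h
    rw [(vM_eq hπ hj hz).2]
    have hj' : (1 : ℝ) ≤ j := by exact_mod_cast hj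
    constructor
    · positivity
    · rw [div_le_div_iff₀ (by positivity) (by norm_num)]
      linarith
  · unfold kap
    rw [tfo_vM_zero h]
    norm_num

theorem tfo_kap_zero : kap 0 = 0 := by
  unfold kap
  rw [tfo_vM_zero, zero_div]
  rintro ⟨π, hπ, j, hj, hz⟩
  have hz2 := (associated_zero_iff_eq_zero (π ^ j)).1 hz.symm
  exact hπ.ne_zero (pow_eq_zero_iff (by omega) |>.1 hz2)

/-! ### the exceptional sums -/

theorem tfo_s0 : Summable (fun z : G => 1 / (nn z : ℝ) ^ 2) := by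
  have h := (dsum_summable (f := fun _ => 1) (fun _ => by simp) (s := 2) (by norm_num)).1
  refine h.congr fun z => ?_
  rw [one_mul]
  by_cases hz : z = 0
  · subst hz
    have : nn (0 : G) = 0 := by
      by_contra h1
      exact (nn_pos.1 (Nat.pos_of_ne_zero h1)) rfl
    rw [this]
    norm_num
  · have h1 : (0 : ℝ) < nn z := by exact_mod_cast nn_pos.2 hz
    have h2 := Complex.norm_cpow_eq_rpow_re_of_pos h1 (-2)
    rw [Complex.ofReal_natCast] at h2
    rw [h2]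
    have e : (-2 : ℂ).re = -2 := by norm_num
    rw [e, Real.rpow_neg h1.le, one_div]
    norm_num

theorem tfo_s1 : Summable (fun p : Gˣ × (G × ℕ) => (1 : ℝ) *
    ((1 / (nn p.2.1 : ℝ) ^ 2) * (1 / 2 : ℝ) ^ p.2.2)) := by
  have := tfo_fin
  have h1 : Summable (fun p : G × ℕ => (1 / (nn p.1 : ℝ) ^ 2) * (1 / 2 : ℝ) ^ p.2) :=
    tfo_s0.mul_of_nonneg summable_geometric_two (fun z => by positivity) (fun n => by positivity)
  have h2 : Summable (fun _ : Gˣ => (1 : ℝ)) := Summable.of_finite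
  exact h2.mul_of_nonneg h1 (fun _ => by norm_num) (fun p => by positivity)

theorem tfo_s2 : Summable (fun p : Gˣ × ℕ => (1 : ℝ) * (1 / (p.2 : ℝ) ^ 2)) := by
  have := tfo_fin
  have h1 : Summable (fun n : ℕ => 1 / (n : ℝ) ^ 2) :=
    Real.summable_one_div_nat_pow.2 (by norm_num)
  have h2 : Summable (fun _ : Gˣ => (1 : ℝ)) := Summable.of_finite
  exact h2.mul_of_nonneg h1 (fun _ => by norm_num) (fun p => by positivity)

/-- higher prime powers -/
def tfo_A : Set G := {z : G | ∃ π : G, Prime π ∧ ∃ j : ℕ, 2 ≤ j ∧ Associated z (π ^ j)}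

/-- natural numbers -/
def tfo_B : Set G := {z : G | ∃ n : ℕ, Associated z (n : G)}

theorem tfo_sumA : Summable (tfo_A.indicator (fun z => 1 / (nn z : ℝ))) := by
  rw [← summable_subtype_iff_indicator]
  have hex : ∀ z : tfo_A, ∃ p : Gˣ × (G × ℕ), (z : G) * p.1 = p.2.1 ^ p.2.2 ∧ Prime p.2.1 ∧
      2 ≤ p.2.2 := by
    rintro ⟨z, π, hπ, j, hj, u, hu⟩
    exact ⟨(u, π, j), hu, hπ, hj⟩
  choose sec h1 h2 h3 using hex
  have hinj : Function.Injective sec := by
    intro z z' h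
    have e1 := h1 z
    have e2 := h1 z'
    rw [h] at e1
    rw [← e2] at e1
    exact Subtype.ext (mul_right_cancel₀ (Units.ne_zero _) e1)
  refine ((tfo_s1.comp_injective hinj).mul_left 4).of_nonneg_of_le (fun z => by
    simp only [Function.comp]; positivity) fun z => ?_
  simp only [Function.comp]
  have e : nn (z : G) = nn (sec z).2.1 ^ (sec z).2.2 := by
    rw [← tfo_nn_pow]
    exact tfo_nn_assoc ⟨(sec z).1, h1 z⟩
  have h4 := tfo_prime_nn (h2 z)
  have h5 := h3 z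
  obtain ⟨i, hi⟩ : ∃ i, (sec z).2.2 = i + 2 := ⟨(sec z).2.2 - 2, by omega⟩
  rw [e, hi]
  have h6 : (2 : ℝ) ≤ nn (sec z).2.1 := by exact_mod_cast h4
  push_cast
  set N : ℝ := (nn (sec z).2.1 : ℝ) with hN
  have h7 : (2 : ℝ) ^ i ≤ N ^ i := pow_le_pow_left₀ (by norm_num) h6 i
  have h8 : 4 * (1 * (1 / N ^ 2 * (1 / 2) ^ (i + 2))) = 1 / (N ^ 2 * 2 ^ i) := by
    rw [pow_add, div_pow, one_pow]
    field_simp
    norm_num
  rw [h8, pow_add]
  refine div_le_div_of_nonneg_left (by norm_num) (by positivity) ?_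
  nlinarith [pow_pos (by linarith : (0 : ℝ) < N) 2]

theorem tfo_sumB : Summable (tfo_B.indicator (fun z => 1 / (nn z : ℝ))) := by
  rw [← summable_subtype_iff_indicator]
  have hex : ∀ z : tfo_B, ∃ p : Gˣ × ℕ, (z : G) * p.1 = (p.2 : G) := by
    rintro ⟨z, n, u, hu⟩
    exact ⟨(u, n), hu⟩
  choose sec h1 using hex
  have hinj : Function.Injective sec := by
    intro z z' h
    have e1 := h1 z
    have e2 := h1 z'
    rw [h] at e1
    rw [← e2] at e1
    exact Subtype.ext (mul_right_cancel₀ (Units.ne_zero _) e1)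
  refine (tfo_s2.comp_injective hinj).congr fun z => ?_
  simp only [Function.comp]
  have e : nn (z : G) = (sec z).2 ^ 2 := by
    rw [← nn_nat]
    exact tfo_nn_assoc ⟨(sec z).1, h1 z⟩
  rw [e]
  push_cast
  ring

/-- the exceptional terms -/
noncomputable def tfo_h (z : G) : ℝ := kap z * (1 + gl z) * (nn z : ℝ)⁻¹

theorem tfo_gl_one (z : G) : 0 ≤ 1 + gl z ∧ 1 + gl z ≤ 2 := by
  have := abs_le.1 (gl_abs z)
  constructor <;> linarith [this.1, this.2]

theorem tfo_h_nonneg (z : G) : 0 ≤ tfo_h z := by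
  unfold tfo_h
  have h1 := (tfo_kap z).1
  have h2 := (tfo_gl_one z).1
  positivity

theorem tfo_supp {z : G} (h : kap z * (1 + gl z) ≠ 0) : z ∈ tfo_A ∪ tfo_B := by
  have h1 : kap z ≠ 0 := left_ne_zero_of_mul h
  have h2 : 1 + gl z ≠ 0 := right_ne_zero_of_mul h
  have h3 : ∃ π : G, Prime π ∧ ∃ j : ℕ, 1 ≤ j ∧ Associated z (π ^ j) := by
    by_contra h3
    apply h1
    unfold kap
    rw [tfo_vM_zero h3, zero_div]
  obtain ⟨π, hπ, j, hj, hz⟩ := h3
  rcases Nat.lt_or_ge j 2 with hj2 | hj2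
  · right
    have hj1 : j = 1 := by omega
    subst hj1
    rw [pow_one] at hz
    have hgl : gl z = lam (nn π) := by
      unfold gl
      rw [tfo_nn_assoc hz]
    rcases gauss_prime hπ with h4 | ⟨p, hp, hp4, h4⟩ | ⟨p, hp, hp4, h4⟩
    · exfalso
      apply h2
      rw [hgl, tfo_nn_assoc h4]
      have : nn (1 + ui) = 2 := by
        have := nn_cast (1 + ui)
        have e1 : (1 + ui : G).re = 1 := by simp [ui]
        have e2 : (1 + ui : G).im = 1 := by simp [ui]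
        rw [e1, e2] at this
        norm_num at this
        exact_mod_cast this
      rw [this, lam_prime Nat.prime_two]
      norm_num
    · exfalso
      apply h2
      have h5 : nn π = p := by
        rcases h4 with h4 | h4
        · rw [tfo_nn_assoc h4, (pel_spec hp hp4).1]
        · rw [tfo_nn_assoc h4, nn_star, (pel_spec hp hp4).1]
      rw [hgl, h5, lam_prime hp]
      norm_num
    · exact ⟨p, hz.trans h4⟩
  · left
    exact ⟨π, hπ, j, hj2, hz⟩

theorem tfo_h_summable : Summable tfo_h := by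
  refine (tfo_sumA.add tfo_sumB).of_nonneg_of_le tfo_h_nonneg fun z => ?_
  have h1 := tfo_kap z
  have h2 := tfo_gl_one z
  have hA : 0 ≤ tfo_A.indicator (fun z => 1 / (nn z : ℝ)) z :=
    Set.indicator_nonneg (fun z _ => by positivity) z
  have hB : 0 ≤ tfo_B.indicator (fun z => 1 / (nn z : ℝ)) z :=
    Set.indicator_nonneg (fun z _ => by positivity) z
  have hle : tfo_h z ≤ 1 / (nn z : ℝ) := by
    unfold tfo_h
    rw [one_div]
    have h3 : kap z * (1 + gl z) ≤ 1 := by nlinarith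
    have h4 : (0 : ℝ) ≤ (nn z : ℝ)⁻¹ := by positivity
    nlinarith
  by_cases h : kap z * (1 + gl z) = 0
  · have : tfo_h z = 0 := by unfold tfo_h; rw [h, zero_mul]
    rw [this]
    positivity
  · rcases tfo_supp h with h3 | h3
    · rw [Set.indicator_of_mem h3]
      linarith
    · rw [Set.indicator_of_mem h3]
      linarith

/-! ### the logarithms -/

theorem tfo_nn_cpow {z : G} (hz : z ≠ 0) (s : ℂ) :
    ‖(nn z : ℂ) ^ (-s)‖ = (nn z : ℝ) ^ (-s.re) := by
  have h1 : (0 : ℝ) < nn z := by exact_mod_cast nn_pos.2 hz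
  have h2 := Complex.norm_cpow_eq_rpow_re_of_pos h1 (-s)
  rw [Complex.ofReal_natCast] at h2
  rw [h2, Complex.neg_re]

theorem tfo_E_summable {f : G → ℂ} (hf : ∀ z, ‖f z‖ ≤ 1) {s : ℂ} (hs : 1 < s.re) :
    Summable (fun z : G => (kap z : ℂ) * f z * (nn z : ℂ) ^ (-s)) := by
  refine Summable.of_norm ?_
  refine (dsum_summable (f := fun _ => 1) (fun _ => by simp) hs).1.of_nonneg_of_le
    (fun z => norm_nonneg _) fun z => ?_
  rw [norm_mul, norm_mul, norm_mul, Complex.norm_real, Real.norm_of_nonneg (tfo_kap z).1]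
  refine mul_le_mul_of_nonneg_right ?_ (norm_nonneg _)
  rw [norm_one]
  have h1 := tfo_kap z
  have h2 := hf z
  have h3 := norm_nonneg (f z)
  nlinarith

/-- the value at zero is replaced by zero -/
noncomputable def tfo_z (f : G → ℂ) (z : G) : ℂ := if z = 0 then 0 else f z

theorem tfo_z_Dsum (f : G → ℂ) {s : ℂ} (hs : 1 < s.re) : Dsum (tfo_z f) s = Dsum f s := by
  unfold Dsum tfo_z
  refine tsum_congr fun z => ?_
  split_ifs with h
  · subst h
    have h0 : nn (0 : G) = 0 := by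
      by_contra h1
      exact (nn_pos.1 (Nat.pos_of_ne_zero h1)) rfl
    have hs0 : -s ≠ 0 := by
      intro h1
      rw [neg_eq_zero] at h1
      rw [h1, Complex.zero_re] at hs
      linarith
    rw [h0, Nat.cast_zero, Complex.zero_cpow hs0, mul_zero, mul_zero]
  · rfl

theorem tfo_z_CM {f : G → ℂ} (h1 : f 1 = 1) (hu : f ui = 1) (hm : ∀ z w, f (z * w) = f z * f w)
    (hb : ∀ z, ‖f z‖ ≤ 1) : CM (tfo_z f) where
  zero := by simp [tfo_z]
  one := by simp [tfo_z, h1]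
  unit := by
    have : ui ≠ 0 := by
      intro h
      have := congrArg Zsqrtd.im h
      simp [ui] at this
    simp [tfo_z, this, hu]
  mul z w := by
    unfold tfo_z
    by_cases hz : z = 0
    · simp [hz]
    · by_cases hw : w = 0
      · simp [hw]
      · rw [if_neg hz, if_neg hw, if_neg (mul_ne_zero hz hw), hm]
  bd z := by
    unfold tfo_z
    split_ifs
    · simp
    · exact hb z

theorem tfo_xi_mul {m : G} (χ : MChar m) (k : ℤ) (z w : G) :
    xi χ k (z * w) = xi χ k z * xi χ k w := by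
  unfold xi
  rw [χ.mul, ang_mul]
  ring

theorem tfo_xi_bd {m : G} (χ : MChar m) (k : ℤ) (z : G) : ‖xi χ k z‖ ≤ 1 := by
  unfold xi
  rw [norm_mul]
  have h1 : ‖χ.f z‖ ≤ 1 := by
    by_cases h : IsCoprime z m
    · rw [χ.nrm z h]
    · rw [χ.zero z h, norm_zero]
      norm_num
  have h2 := ang_le k z
  have h3 := norm_nonneg (χ.f z)
  have h4 := norm_nonneg (ang k z)
  nlinarith

theorem tfo_xi_one {m : G} (χ : MChar m) (k : ℤ) : xi χ k 1 = 1 := by
  unfold xi
  have := ang_nat k (n := 1) le_rfl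
  rw [Nat.cast_one] at this
  rw [χ.one, this, one_mul]

theorem tfo_gxi_CM {m : G} (χ : MChar m) (k : ℤ) (hu : xi χ k ui = 1) :
    CM (fun z => (gl z : ℂ) * xi χ k z) where
  zero := by simp [gl_zero]
  one := by simp [gl_one, tfo_xi_one]
  unit := by simp [gl_ui, hu]
  mul z w := by
    rw [gl_mul, tfo_xi_mul]
    push_cast
    ring
  bd z := by
    rw [norm_mul, Complex.norm_real, Real.norm_eq_abs]
    have h1 := gl_abs z
    have h2 := tfo_xi_bd χ k z
    have h3 := norm_nonneg (xi χ k z)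
    have h4 := abs_nonneg (gl z)
    nlinarith

/-- the sum of the two logarithms -/
theorem tfo_log_add {m : G} (χ : MChar m) (k : ℤ) {s : ℂ} (hs : 1 < s.re) :
    (Esum (fun z => (gl z : ℂ) * xi χ k z) s).re + (Esum (tfo_z (xi χ k)) s).re ≤ ∑' z, tfo_h z := by
  have hb1 : ∀ z, ‖(gl z : ℂ) * xi χ k z‖ ≤ 1 := fun z => by
    rw [norm_mul, Complex.norm_real, Real.norm_eq_abs]
    have h1 := gl_abs z
    have h2 := tfo_xi_bd χ k z
    have h3 := norm_nonneg (xi χ k z)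
    have h4 := abs_nonneg (gl z)
    nlinarith
  have hb2 : ∀ z, ‖tfo_z (xi χ k) z‖ ≤ 1 := fun z => by
    unfold tfo_z
    split_ifs
    · simp
    · exact tfo_xi_bd χ k z
  have s1 := tfo_E_summable hb1 hs
  have s2 := tfo_E_summable hb2 hs
  have e : Esum (fun z => (gl z : ℂ) * xi χ k z) s + Esum (tfo_z (xi χ k)) s =
      ∑' z : G, ((kap z : ℂ) * ((gl z : ℂ) * xi χ k z) * (nn z : ℂ) ^ (-s) +
        (kap z : ℂ) * tfo_z (xi χ k) z * (nn z : ℂ) ^ (-s)) := by
    unfold Esum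
    rw [s1.tsum_add s2]
  rw [← Complex.add_re, e]
  have hle : ∀ z : G, ‖(kap z : ℂ) * ((gl z : ℂ) * xi χ k z) * (nn z : ℂ) ^ (-s) +
      (kap z : ℂ) * tfo_z (xi χ k) z * (nn z : ℂ) ^ (-s)‖ ≤ tfo_h z := by
    intro z
    by_cases hz : z = 0
    · subst hz
      rw [tfo_kap_zero]
      simp [tfo_h, tfo_kap_zero]
    · have e2 : tfo_z (xi χ k) z = xi χ k z := by simp [tfo_z, hz]
      rw [e2]
      have e3 : (kap z : ℂ) * ((gl z : ℂ) * xi χ k z) * (nn z : ℂ) ^ (-s) +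
          (kap z : ℂ) * xi χ k z * (nn z : ℂ) ^ (-s) =
          ((kap z * (1 + gl z) : ℝ) : ℂ) * (xi χ k z * (nn z : ℂ) ^ (-s)) := by
        push_cast
        ring
      have h1 := (tfo_kap z).1
      have h2 := (tfo_gl_one z).1
      rw [e3, norm_mul, norm_mul, Complex.norm_real, Real.norm_of_nonneg (by positivity),
        tfo_nn_cpow hz]
      unfold tfo_h
      refine mul_le_mul_of_nonneg_left ?_ (by positivity)
      have h3 : (1 : ℝ) ≤ nn z := by exact_mod_cast nn_pos.2 hz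
      have h4 : (nn z : ℝ) ^ (-s.re) ≤ (nn z : ℝ)⁻¹ := by
        rw [← Real.rpow_neg_one]
        exact Real.rpow_le_rpow_of_exponent_le h3 (by linarith)
      have h5 := tfo_xi_bd χ k z
      have h6 := norm_nonneg (xi χ k z)
      have h7 : 0 ≤ (nn z : ℝ) ^ (-s.re) := by positivity
      nlinarith
  refine (Complex.re_le_norm _).trans ?_
  refine (norm_tsum_le_tsum_norm (tfo_h_summable.of_nonneg_of_le (fun z => norm_nonneg _) hle)).trans
    ?_
  exact (tfo_h_summable.of_nonneg_of_le (fun z => norm_nonneg _) hle).tsum_le_tsum hle tfo_h_summable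

/-- three, four, one -/
theorem tfo_341 {m : G} (χ : MChar m) (k : ℤ) {σ : ℝ} (hσ : 1 < σ) (t : ℝ) :
    0 ≤ 3 * (Esum (tfo_z fun _ => 1) (σ : ℂ)).re +
      4 * (Esum (tfo_z (xi χ k)) (σ + t * Complex.I)).re +
      (Esum (tfo_z fun z => xi χ k z ^ 2) (σ + 2 * t * Complex.I)).re := by
  have hb1 : ∀ z, ‖tfo_z (fun _ => (1 : ℂ)) z‖ ≤ 1 := fun z => by
    unfold tfo_z
    split_ifs <;> simp
  have hb2 : ∀ z, ‖tfo_z (xi χ k) z‖ ≤ 1 := fun z => by
    unfold tfo_z
    split_ifs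
    · simp
    · exact tfo_xi_bd χ k z
  have hb3 : ∀ z, ‖tfo_z (fun z => xi χ k z ^ 2) z‖ ≤ 1 := fun z => by
    unfold tfo_z
    split_ifs
    · simp
    · rw [norm_pow]
      exact pow_le_one₀ (norm_nonneg _) (tfo_xi_bd χ k z)
  have s1 := tfo_E_summable hb1 (s := (σ : ℂ)) (by simpa using hσ)
  have s2 := tfo_E_summable hb2 (s := σ + t * Complex.I) (by simpa using hσ)
  have s3 := tfo_E_summable hb3 (s := σ + 2 * t * Complex.I) (by simpa using hσ)
  unfold Esum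
  rw [Complex.re_tsum s1, Complex.re_tsum s2, Complex.re_tsum s3, ← tsum_mul_left,
    ← tsum_mul_left]
  have r1 := (Complex.hasSum_re s1.hasSum).summable.mul_left 3
  have r2 := (Complex.hasSum_re s2.hasSum).summable.mul_left 4
  have r3 := (Complex.hasSum_re s3.hasSum).summable
  rw [← r1.tsum_add r2, ← (r1.add r2).tsum_add r3]
  refine tsum_nonneg fun z => ?_
  by_cases hz : z = 0
  · subst hz
    simp [tfo_kap_zero]
  have hN : (nn z : ℂ) ≠ 0 := by
    have := nn_pos.2 hz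
    exact_mod_cast this.ne'
  have hN0 : (0 : ℝ) < nn z := by exact_mod_cast nn_pos.2 hz
  have e0 : (nn z : ℂ) ^ (-(σ : ℂ)) = (((nn z : ℝ) ^ (-σ) : ℝ) : ℂ) := by
    rw [Complex.ofReal_cpow hN0.le]
    push_cast
    rfl
  have e1 : (nn z : ℂ) ^ (-(σ + t * Complex.I)) =
      (nn z : ℂ) ^ (-(σ : ℂ)) * (nn z : ℂ) ^ (-(t * Complex.I)) := by
    rw [← Complex.cpow_add _ _ hN]
    congr 1
    ring
  have e2 : (nn z : ℂ) ^ (-(σ + 2 * t * Complex.I)) =
      (nn z : ℂ) ^ (-(σ : ℂ)) * ((nn z : ℂ) ^ (-(t * Complex.I))) ^ 2 := by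
    rw [sq, ← Complex.cpow_add _ _ hN, ← Complex.cpow_add _ _ hN]
    congr 1
    ring
  have e3 : ∀ f : G → ℂ, tfo_z f z = f z := fun f => by simp [tfo_z, hz]
  rw [e3, e3, e3, e1, e2, e0]
  set w : ℂ := xi χ k z * (nn z : ℂ) ^ (-(t * Complex.I)) with hw
  have hwn : ‖w‖ ≤ 1 := by
    rw [hw, norm_mul, tfo_nn_cpow hz]
    have : (t * Complex.I : ℂ).re = 0 := by simp
    rw [this, neg_zero, Real.rpow_zero, mul_one]
    exact tfo_xi_bd χ k z
  have hk := (tfo_kap z).1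
  set r : ℝ := kap z * (nn z : ℝ) ^ (-σ) with hr
  have hr0 : 0 ≤ r := by positivity
  have f1 : (kap z : ℂ) * 1 * (((nn z : ℝ) ^ (-σ) : ℝ) : ℂ) = (r : ℂ) := by
    rw [hr]; push_cast; ring
  have f2 : (kap z : ℂ) * xi χ k z * ((((nn z : ℝ) ^ (-σ) : ℝ) : ℂ) *
      (nn z : ℂ) ^ (-(t * Complex.I))) = (r : ℂ) * w := by
    rw [hr, hw]; push_cast; ring
  have f3 : (kap z : ℂ) * xi χ k z ^ 2 * ((((nn z : ℝ) ^ (-σ) : ℝ) : ℂ) *
      ((nn z : ℂ) ^ (-(t * Complex.I))) ^ 2) = (r : ℂ) * w ^ 2 := by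
    rw [hr, hw]; push_cast; ring
  rw [f1, f2, f3, Complex.ofReal_re, Complex.re_ofReal_mul, Complex.re_ofReal_mul]
  have h1 : w.re ^ 2 + w.im ^ 2 ≤ 1 := by
    have := Complex.sq_norm w
    rw [Complex.normSq_apply] at this
    have h2 : ‖w‖ ^ 2 ≤ 1 := pow_le_one₀ (norm_nonneg _) hwn
    nlinarith
  have h2 : (w ^ 2).re = w.re ^ 2 - w.im ^ 2 := by
    rw [sq, Complex.mul_re]
    ring
  rw [h2]
  have h3 : 0 ≤ 3 + 4 * w.re + (w.re ^ 2 - w.im ^ 2) := by nlinarith [sq_nonneg (1 + w.re)]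
  nlinarith [mul_nonneg hr0 h3]

theorem sup_inv_pr : ∃ C : ℝ, 1 ≤ C ∧ ∀ (m : G) (χ : MChar m) (k : ℤ), xi χ k ui = 1 →
    ∀ σ t : ℝ, 1 < σ → σ ≤ 2 →
      ‖Dsum (fun z => (gl z : ℂ) * xi χ k z) (σ + t * Complex.I)‖ *
        ‖Dsum (xi χ k) (σ + t * Complex.I)‖ ≤ C := by
  refine ⟨16 * Real.exp (∑' z, tfo_h z), ?_, fun m χ k hu σ t h1 _ => ?_⟩
  · have : 1 ≤ Real.exp (∑' z, tfo_h z) := Real.one_le_exp (tsum_nonneg tfo_h_nonneg)
    linarith
  · have hs : 1 < (σ + t * Complex.I : ℂ).re := by simpa using h1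
    rw [← tfo_z_Dsum (xi χ k) hs, log_formula (tfo_gxi_CM χ k hu) hs,
      log_formula (tfo_z_CM (tfo_xi_one χ k) hu (tfo_xi_mul χ k) (tfo_xi_bd χ k)) hs, norm_mul,
      norm_mul, Complex.norm_exp, Complex.norm_exp]
    have h2 := tfo_log_add χ k hs
    have h4 : ‖(4 : ℂ)‖ = 4 := by norm_num
    rw [h4]
    calc _ = 16 * Real.exp ((Esum (fun z => (gl z : ℂ) * xi χ k z) (σ + t * Complex.I)).re +
          (Esum (tfo_z (xi χ k)) (σ + t * Complex.I)).re) := by
          rw [Real.exp_add]; ring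
      _ ≤ _ := by
          refine mul_le_mul_of_nonneg_left (Real.exp_le_exp.2 h2) (by norm_num)

theorem sup_reduce_pr : ∃ C : ℝ, 1 ≤ C ∧ ∀ (m : G) (χ : MChar m) (k : ℤ), xi χ k ui = 1 →
    ∀ σ t : ℝ, 1 < σ → σ ≤ 2 →
      ‖Dsum (fun z => (gl z : ℂ) * xi χ k z) (σ + t * Complex.I)‖ ≤
        C * (1 / (σ - 1)) ^ (3 / 4 : ℝ) *
          ‖Dsum (fun z => xi χ k z ^ 2) (σ + 2 * t * Complex.I)‖ ^ (1 / 4 : ℝ) := by
  obtain ⟨C0, hC0, hD⟩ := dsum_bound
  refine ⟨Real.exp (∑' z, tfo_h z) * C0 ^ (3 / 4 : ℝ), ?_, fun m χ k hu σ t h1 h2 => ?_⟩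
  · have h1 : 1 ≤ Real.exp (∑' z, tfo_h z) := Real.one_le_exp (tsum_nonneg tfo_h_nonneg)
    have h2 : 1 ≤ C0 ^ (3 / 4 : ℝ) := Real.one_le_rpow hC0 (by norm_num)
    nlinarith
  · have hs : 1 < (σ + t * Complex.I : ℂ).re := by simpa using h1
    have hs1 : 1 < (σ : ℂ).re := by simpa using h1
    have hs2 : 1 < (σ + 2 * t * Complex.I : ℂ).re := by simpa using h1
    have hu2 : (fun z => xi χ k z ^ 2) ui = 1 := by simp [hu]
    have c1 := tfo_gxi_CM χ k hu
    have c2 : CM (tfo_z fun _ => 1) := tfo_z_CM rfl rfl (fun _ _ => by simp) (fun _ => by simp)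
    have c3 : CM (tfo_z fun z => xi χ k z ^ 2) :=
      tfo_z_CM (by simp [tfo_xi_one]) hu2 (fun z w => by rw [tfo_xi_mul]; ring) (fun z => by
        rw [norm_pow]
        exact pow_le_one₀ (norm_nonneg _) (tfo_xi_bd χ k z))
    have h4 : ‖(4 : ℂ)‖ = 4 := by norm_num
    have hd : ‖Dsum (tfo_z fun _ => 1) (σ : ℂ)‖ ≤ C0 / (σ - 1) := by
      rw [tfo_z_Dsum _ hs1]
      have := (hD (fun _ => 1) (fun _ => by simp) (σ : ℂ) hs1 (by simpa using h2)).1
      simpa using this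
    have g1 := tfo_log_add χ k hs
    have g2 := tfo_341 χ k h1 t
    rw [← tfo_z_Dsum (fun z => xi χ k z ^ 2) hs2, log_formula c1 hs, log_formula c3 hs2, norm_mul,
      norm_mul, h4, Complex.norm_exp, Complex.norm_exp]
    rw [log_formula c2 hs1, norm_mul, h4, Complex.norm_exp] at hd
    set a := (Esum (fun z => (gl z : ℂ) * xi χ k z) (σ + t * Complex.I)).re with ha
    set b := (Esum (tfo_z (xi χ k)) (σ + t * Complex.I)).re with hb
    set e := (Esum (tfo_z fun _ => 1) (σ : ℂ)).re with he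
    set g := (Esum (tfo_z fun z => xi χ k z ^ 2) (σ + 2 * t * Complex.I)).re with hg
    set H := ∑' z, tfo_h z with hH
    have g3 : a ≤ H + (3 / 4 * e + 1 / 4 * g) := by linarith
    have e1 : (4 * Real.exp g) ^ (1 / 4 : ℝ) = 4 ^ (1 / 4 : ℝ) * Real.exp (1 / 4 * g) := by
      rw [Real.mul_rpow (by norm_num) (Real.exp_pos _).le, ← Real.exp_mul]
      congr 2
      ring
    have e2 : (4 * Real.exp e) ^ (3 / 4 : ℝ) = 4 ^ (3 / 4 : ℝ) * Real.exp (3 / 4 * e) := by
      rw [Real.mul_rpow (by norm_num) (Real.exp_pos _).le, ← Real.exp_mul]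
      congr 2
      ring
    have e3 : (4 : ℝ) ^ (3 / 4 : ℝ) * 4 ^ (1 / 4 : ℝ) = 4 := by
      rw [← Real.rpow_add (by norm_num)]
      norm_num
    have hσ0 : 0 < σ - 1 := by linarith
    have g4 : (4 * Real.exp e) ^ (3 / 4 : ℝ) ≤ C0 ^ (3 / 4 : ℝ) * (1 / (σ - 1)) ^ (3 / 4 : ℝ) := by
      rw [← Real.mul_rpow (by linarith) (by positivity)]
      refine Real.rpow_le_rpow (by positivity) ?_ (by norm_num)
      rw [mul_one_div]
      exact hd
    calc 4 * Real.exp a ≤ 4 * Real.exp (H + (3 / 4 * e + 1 / 4 * g)) := by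
          refine mul_le_mul_of_nonneg_left (Real.exp_le_exp.2 g3) (by norm_num)
      _ = Real.exp H * (4 * Real.exp e) ^ (3 / 4 : ℝ) * (4 * Real.exp g) ^ (1 / 4 : ℝ) := by
          rw [e1, e2, Real.exp_add, Real.exp_add]
          calc _ = Real.exp H * (((4 : ℝ) ^ (3 / 4 : ℝ) * 4 ^ (1 / 4 : ℝ)) *
                (Real.exp (3 / 4 * e) * Real.exp (1 / 4 * g))) := by rw [e3]; ring
            _ = _ := by ring
      _ ≤ Real.exp H * (C0 ^ (3 / 4 : ℝ) * (1 / (σ - 1)) ^ (3 / 4 : ℝ)) *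
          (4 * Real.exp g) ^ (1 / 4 : ℝ) := by gcongr
      _ = _ := by ring

end Pool.Agent.T2


namespace Pool.Agent.T2

theorem sup_reduce : type_of% @sup_reduce_pr := @sup_reduce_pr
theorem sup_inv : type_of% @sup_inv_pr := @sup_inv_pr

end Pool.Agent.T2
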