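import Pool.Agent.Lib_helper10.T2.Defs
import Pool.Agent.Lib_helper10.T2F.BAS
import Pool.Agent.Lib_helper10.T2F.CNT
import Pool.Agent.Lib_helper10.T2F.DSR
import Pool.Agent.Lib_helper10.T2F.EXP
import Pool.Agent.Lib_helper10.T2F.TFO

/-! T2, block SUK (helper47): the bound for the Dirichlet series, nonzero frequencies. -/

set_option autoImplicit false

namespace Pool.Agent.T2

open Filter Topology MeasureTheory

theorem suk_nn_pos {z : G} (hz : z ≠ 0) : (1 : ℝ) ≤ nn z := by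
  exact_mod_cast nn_pos.2 hz

theorem suk_Bl_mono {x y : ℝ} (h : x ≤ y) : Bl x ⊆ Bl y := by
  intro z hz
  rw [mem_Bl] at hz ⊢
  exact ⟨hz.1, hz.2.trans h⟩

theorem suk_Bl_floor (x : ℝ) (hx : 0 ≤ x) : Bl ((⌊x⌋₊ : ℕ) : ℝ) = Bl x := by
  ext z
  rw [mem_Bl, mem_Bl]
  constructor
  · rintro ⟨h1, h2⟩
    exact ⟨h1, h2.trans (Nat.floor_le hx)⟩
  · rintro ⟨h1, h2⟩
    refine ⟨h1, ?_⟩
    exact_mod_cast Nat.le_floor h2

theorem suk_small : ∃ C : ℝ, 1 ≤ C ∧ ∀ x : ℝ, 1 ≤ x →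
    ∑ z ∈ Bl x, 1 / (nn z : ℝ) ≤ C * (1 + Real.log x) := by
  classical
  obtain ⟨C, hC, hb⟩ := ball_le
  have key : ∀ J : ℕ, ∑ z ∈ Bl ((2 : ℝ) ^ J), 1 / (nn z : ℝ) ≤ 2 * C * (J + 1) := by
    intro J
    induction J with
    | zero =>
      rw [pow_zero]
      calc ∑ z ∈ Bl (1 : ℝ), 1 / (nn z : ℝ) ≤ ∑ z ∈ Bl (1 : ℝ), (1 : ℝ) := by
            apply Finset.sum_le_sum
            intro z hz
            rw [mem_Bl] at hz
            have := suk_nn_pos hz.1
            rw [div_le_one (by linarith)]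
            exact this
        _ = (Bl (1 : ℝ)).card := by simp
        _ ≤ C * 1 := hb 1 (by norm_num)
        _ ≤ _ := by push_cast; linarith
    | succ J ih =>
      have hp : (0 : ℝ) < 2 ^ J := by positivity
      have hsub : Bl ((2 : ℝ) ^ J) ⊆ Bl ((2 : ℝ) ^ (J + 1)) :=
        suk_Bl_mono (pow_le_pow_right₀ (by norm_num) (by omega))
      rw [← Finset.sum_sdiff hsub]
      have h1 : ∑ z ∈ Bl ((2 : ℝ) ^ (J + 1)) \ Bl ((2 : ℝ) ^ J), 1 / (nn z : ℝ) ≤
          ∑ z ∈ Bl ((2 : ℝ) ^ (J + 1)) \ Bl ((2 : ℝ) ^ J), 1 / (2 : ℝ) ^ J := by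
        apply Finset.sum_le_sum
        intro z hz
        rw [Finset.mem_sdiff, mem_Bl, mem_Bl] at hz
        have h2 : (2 : ℝ) ^ J < nn z := by
          by_contra hcon
          exact hz.2 ⟨hz.1.1, not_lt.1 hcon⟩
        exact one_div_le_one_div_of_le hp h2.le
      have h3 : ∑ z ∈ Bl ((2 : ℝ) ^ (J + 1)) \ Bl ((2 : ℝ) ^ J), 1 / (2 : ℝ) ^ J ≤ 2 * C := by
        rw [Finset.sum_const, nsmul_eq_mul]
        have h4 : ((Bl ((2 : ℝ) ^ (J + 1)) \ Bl ((2 : ℝ) ^ J)).card : ℝ) ≤ C * 2 ^ (J + 1) := by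
          refine le_trans ?_ (hb (2 ^ (J + 1)) (by positivity))
          exact_mod_cast Finset.card_le_card Finset.sdiff_subset
        calc ((Bl ((2 : ℝ) ^ (J + 1)) \ Bl ((2 : ℝ) ^ J)).card : ℝ) * (1 / 2 ^ J) ≤
              (C * 2 ^ (J + 1)) * (1 / 2 ^ J) := mul_le_mul_of_nonneg_right h4 (by positivity)
          _ = 2 * C := by rw [pow_succ]; field_simp
      push_cast
      linarith
  refine ⟨4 * C, by linarith, fun x hx => ?_⟩
  have hl2 : 0 < Real.log 2 := Real.log_pos (by norm_num)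
  have hlx : 0 ≤ Real.log x := Real.log_nonneg hx
  set J := ⌈Real.log x / Real.log 2⌉₊ with hJ
  have h1 : x ≤ 2 ^ J := by
    rw [← Real.log_le_log_iff (by linarith) (by positivity), Real.log_pow, ← div_le_iff₀ hl2]
    exact Nat.le_ceil _
  have h2 : (J : ℝ) < Real.log x / Real.log 2 + 1 := Nat.ceil_lt_add_one (by positivity)
  have h3 : Real.log x / Real.log 2 ≤ 2 * Real.log x := by
    rw [div_le_iff₀ hl2]
    nlinarith [Real.log_two_gt_d9]
  calc ∑ z ∈ Bl x, 1 / (nn z : ℝ) ≤ ∑ z ∈ Bl ((2 : ℝ) ^ J), 1 / (nn z : ℝ) :=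
        Finset.sum_le_sum_of_subset_of_nonneg (suk_Bl_mono h1) (fun z _ _ => by positivity)
    _ ≤ 2 * C * (J + 1) := key J
    _ ≤ 4 * C * (1 + Real.log x) := by nlinarith

open Classical in
theorem suk_agg_sum (f : G → ℂ) (n : ℕ) : ∑ k ∈ Finset.Icc 1 n,
    ∑ z ∈ (Bl k).filter (fun z => nn z = k), f z = ∑ z ∈ Bl n, f z := by
  rw [← Finset.sum_fiberwise_of_maps_to (s := Bl n) (t := Finset.Icc 1 n) (g := nn)]
  · apply Finset.sum_congr rfl
    intro k hk
    rw [Finset.mem_Icc] at hk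
    apply Finset.sum_congr _ (fun _ _ => rfl)
    ext z
    simp only [Finset.mem_filter, mem_Bl]
    constructor
    · rintro ⟨⟨h1, h2⟩, h3⟩
      refine ⟨⟨h1, ?_⟩, h3⟩
      rw [h3]; exact_mod_cast hk.2
    · rintro ⟨⟨h1, h2⟩, h3⟩
      refine ⟨⟨h1, ?_⟩, h3⟩
      rw [h3]
  · intro z hz
    rw [mem_Bl] at hz
    rw [Finset.mem_Icc]
    exact ⟨nn_pos.2 hz.1, by exact_mod_cast hz.2⟩

open Classical in
theorem suk_agg {f : G → ℂ} {s : ℂ} (hs : 1 < s.re)
    (hf : Summable (fun z : G => ‖f z * (nn z : ℂ) ^ (-s)‖)) :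
    HasSum (LSeries.term (fun n => ∑ z ∈ (Bl n).filter (fun z => nn z = n), f z) s)
      (Dsum f s) := by
  have hs0 : s ≠ 0 := by
    intro h
    rw [h] at hs
    simp at hs
    linarith
  have h1 : HasSum (fun z : G => f z * (nn z : ℂ) ^ (-s)) (Dsum f s) := hf.of_norm.hasSum
  have h2 := h1.tsum_fiberwise nn
  have e : LSeries.term (fun n => ∑ z ∈ (Bl n).filter (fun z => nn z = n), f z) s =
      fun c : ℕ => ∑' b : (nn ⁻¹' {c} : Set G), f b * (nn (b : G) : ℂ) ^ (-s) := by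
    funext n
    rcases Nat.eq_zero_or_pos n with hn | hn
    · subst hn
      rw [LSeries.term_zero]
      symm
      have h3 : ∀ b : (nn ⁻¹' {0} : Set G), f b * (nn (b : G) : ℂ) ^ (-s) = 0 := by
        rintro ⟨b, hb⟩
        have hb' : nn b = 0 := hb
        show f b * (nn b : ℂ) ^ (-s) = 0
        rw [hb', Nat.cast_zero, Complex.zero_cpow (neg_ne_zero.2 hs0), mul_zero]
      rw [tsum_congr h3, tsum_zero]
    · rw [LSeries.term_of_ne_zero hn.ne']
      have hset : (nn ⁻¹' {n} : Set G) = (((Bl n).filter (fun z => nn z = n) : Finset G) : Set G) := by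
        ext z
        simp only [Set.mem_preimage, Set.mem_singleton_iff, Finset.coe_filter, mem_Bl,
          Set.mem_ofPred_eq]
        constructor
        · intro h
          refine ⟨⟨?_, by rw [h]⟩, h⟩
          rw [← nn_pos, h]
          exact hn
        · intro h
          exact h.2
      rw [hset]
      rw [Finset.tsum_subtype' ((Bl n).filter (fun z => nn z = n))
        (fun b => f b * (nn (b : G) : ℂ) ^ (-s))]
      rw [Finset.sum_div]
      apply Finset.sum_congr rfl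
      intro z hz
      rw [Finset.mem_filter] at hz
      rw [hz.2, Complex.cpow_neg, div_eq_mul_inv]
  rw [e]
  exact h2

/-- the tail -/
theorem suk_tail {F : G → ℂ} (hF : ∀ z, ‖F z‖ ≤ 1) {κ C U : ℝ} (hκ : 0 < κ) (hκ1 : κ ≤ 1 / 4)
    (hC : 1 ≤ C) (hU : 1 ≤ U)
    (hb : ∀ x : ℝ, U ≤ x → ‖∑ z ∈ Bl x, F z‖ ≤ C * x ^ (1 - κ)) {s : ℂ} (hs : 1 < s.re) :
    ‖Dsum F s‖ ≤ ∑ z ∈ Bl U, 1 / (nn z : ℝ) + ‖s‖ * (4 * C / κ * U ^ (-(κ / 2))) := by
  classical
  have hs0 : s ≠ 0 := by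
    intro h
    rw [h] at hs
    simp at hs
    linarith
  set F2 : G → ℂ := fun z => if z ∈ Bl U then 0 else F z with hF2
  have hF2b : ∀ z, ‖F2 z‖ ≤ 1 := by
    intro z
    simp only [hF2]
    split_ifs
    · simp
    · exact hF z
  have hsumF := (dsum_summable hF hs).1.of_norm
  have hsumF2 := (dsum_summable hF2b hs).1
  -- decomposition
  have hdec : Dsum F s = ∑ z ∈ Bl U, F z * (nn z : ℂ) ^ (-s) + Dsum F2 s := by
    unfold Dsum
    have h1 : ∀ z, F z * (nn z : ℂ) ^ (-s) =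
        (if z ∈ Bl U then F z * (nn z : ℂ) ^ (-s) else 0) + F2 z * (nn z : ℂ) ^ (-s) := by
      intro z
      simp only [hF2]
      split_ifs <;> simp
    have h2 : Summable (fun z => if z ∈ Bl U then F z * (nn z : ℂ) ^ (-s) else 0) := by
      apply summable_of_ne_finset_zero (s := Bl U)
      intro z hz
      rw [if_neg hz]
    rw [tsum_congr h1, h2.tsum_add hsumF2.of_norm]
    congr 1
    rw [tsum_eq_sum (s := Bl U)]
    · apply Finset.sum_congr rfl
      intro z hz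
      rw [if_pos hz]
    · intro z hz
      rw [if_neg hz]
  -- the finite part
  have hfin : ‖∑ z ∈ Bl U, F z * (nn z : ℂ) ^ (-s)‖ ≤ ∑ z ∈ Bl U, 1 / (nn z : ℝ) := by
    refine (norm_sum_le _ _).trans (Finset.sum_le_sum fun z hz => ?_)
    rw [mem_Bl] at hz
    have hn1 := suk_nn_pos hz.1
    have hn0 : 0 < nn z := nn_pos.2 hz.1
    rw [norm_mul, Complex.norm_natCast_cpow_of_pos hn0, Complex.neg_re]
    calc ‖F z‖ * (nn z : ℝ) ^ (-s.re) ≤ 1 * (nn z : ℝ) ^ (-1 : ℝ) := by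
          apply mul_le_mul (hF z) _ (by positivity) (by norm_num)
          exact Real.rpow_le_rpow_of_exponent_le hn1 (by linarith)
      _ = 1 / (nn z : ℝ) := by rw [one_mul, Real.rpow_neg_one, one_div]
  -- the tail
  set a : ℕ → ℂ := fun n => ∑ z ∈ (Bl n).filter (fun z => nn z = n), F2 z with ha
  have hag := suk_agg hs hsumF2
  have hSum : LSeriesSummable a s := hag.summable
  have hval : Dsum F2 s = LSeries a s := hag.tsum_eq.symm
  have hpart : ∀ u : ℝ, 0 ≤ u → ∑ k ∈ Finset.Icc 1 ⌊u⌋₊, a k = ∑ z ∈ Bl u, F2 z := by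
    intro u hu
    rw [ha, suk_agg_sum, suk_Bl_floor u hu]
  have hbound : ∀ u : ℝ, 1 ≤ u → ‖∑ z ∈ Bl u, F2 z‖ ≤ 2 * C * U ^ (-(κ / 2)) * u ^ (1 - κ / 2) := by
    intro u hu
    rcases lt_or_ge u U with h | h
    · have : ∑ z ∈ Bl u, F2 z = 0 := by
        apply Finset.sum_eq_zero
        intro z hz
        simp only [hF2]
        rw [if_pos (suk_Bl_mono h.le hz)]
      rw [this, norm_zero]
      positivity
    · have h1 : ∑ z ∈ Bl u, F2 z = ∑ z ∈ Bl u, F z - ∑ z ∈ Bl U, F z := by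
        rw [eq_sub_iff_add_eq, ← Finset.sum_sdiff (suk_Bl_mono h), ← Finset.sum_sdiff (suk_Bl_mono h)]
        have h2 : ∑ z ∈ Bl U, F2 z = 0 := by
          apply Finset.sum_eq_zero
          intro z hz
          simp only [hF2]
          rw [if_pos hz]
        rw [h2, add_zero]
        congr 1
        apply Finset.sum_congr rfl
        intro z hz
        rw [Finset.mem_sdiff] at hz
        simp only [hF2]
        rw [if_neg hz.2]
      rw [h1]
      have h3 : U ^ (1 - κ) ≤ u ^ (1 - κ) := Real.rpow_le_rpow (by linarith) h (by linarith)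
      have h4 : u ^ (1 - κ) = u ^ (-(κ / 2)) * u ^ (1 - κ / 2) := by
        rw [← Real.rpow_add (by linarith)]
        congr 1
        ring
      have h5 : u ^ (-(κ / 2)) ≤ U ^ (-(κ / 2)) :=
        Real.rpow_le_rpow_of_nonpos (by linarith) h (by linarith)
      have h6 : 0 ≤ u ^ (1 - κ / 2) := by positivity
      calc ‖∑ z ∈ Bl u, F z - ∑ z ∈ Bl U, F z‖ ≤ C * u ^ (1 - κ) + C * U ^ (1 - κ) :=
            (norm_sub_le _ _).trans (add_le_add (hb u h) (hb U le_rfl))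
        _ ≤ 2 * C * u ^ (1 - κ) := by nlinarith
        _ = 2 * C * (u ^ (-(κ / 2)) * u ^ (1 - κ / 2)) := by rw [h4]
        _ ≤ 2 * C * (U ^ (-(κ / 2)) * u ^ (1 - κ / 2)) := by
            apply mul_le_mul_of_nonneg_left _ (by linarith)
            exact mul_le_mul_of_nonneg_right h5 h6
        _ = _ := by ring
  have hO : (fun n : ℕ => ∑ k ∈ Finset.Icc 1 n, a k) =O[atTop] fun n => (n : ℝ) ^ (1 - κ / 2) := by
    apply Asymptotics.IsBigO.of_bound (2 * C * U ^ (-(κ / 2)))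
    filter_upwards [eventually_ge_atTop 1] with n hn
    have hn1 : (1 : ℝ) ≤ n := by exact_mod_cast hn
    have h1 := hpart n (by positivity)
    rw [Nat.floor_natCast] at h1
    rw [h1, Real.norm_of_nonneg (by positivity)]
    exact hbound n hn1
  have hint := LSeries_eq_mul_integral a (r := 1 - κ / 2) (by linarith) (s := s) (by linarith) hSum hO
  have htail : ‖Dsum F2 s‖ ≤ ‖s‖ * (4 * C / κ * U ^ (-(κ / 2))) := by
    rw [hval, hint, norm_mul]
    apply mul_le_mul_of_nonneg_left _ (norm_nonneg _)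
    have hlt : -(κ / 2) - s.re < -1 := by linarith
    have hI := integrableOn_Ioi_rpow_of_lt hlt (show (0 : ℝ) < 1 by norm_num)
    refine (norm_integral_le_of_norm_le (hI.const_mul (2 * C * U ^ (-(κ / 2)))) ?_).trans ?_
    · rw [ae_restrict_iff' measurableSet_Ioi]
      refine Eventually.of_forall fun t ht => ?_
      have ht1 : 1 < t := ht
      rw [hpart t (by linarith), norm_mul, Complex.norm_cpow_eq_rpow_re_of_pos (by linarith)]
      have e1 : t ^ (-(κ / 2) - s.re) = t ^ (1 - κ / 2) * t ^ (-(s + 1)).re := by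
        rw [← Real.rpow_add (by linarith)]
        congr 1
        simp only [Complex.neg_re, Complex.add_re, Complex.one_re]
        ring
      rw [e1, ← mul_assoc]
      exact mul_le_mul_of_nonneg_right (hbound t ht1.le) (by positivity)
    · rw [integral_const_mul, integral_Ioi_rpow_of_lt hlt (by norm_num), Real.one_rpow]
      have e2 : -1 / (-(κ / 2) - s.re + 1) ≤ 2 / κ := by
        have e4 : -(κ / 2) - s.re + 1 = -(κ / 2 + s.re - 1) := by ring
        rw [e4, neg_div_neg_eq, div_le_div_iff₀ (by linarith) hκ]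
        linarith
      have e3 : 0 ≤ 2 * C * U ^ (-(κ / 2)) := by positivity
      calc 2 * C * U ^ (-(κ / 2)) * (-1 / (-(κ / 2) - s.re + 1)) ≤
            2 * C * U ^ (-(κ / 2)) * (2 / κ) := mul_le_mul_of_nonneg_left e2 e3
        _ = _ := by ring
  rw [hdec]
  exact (norm_add_le _ _).trans (add_le_add hfin htail)

theorem suk_norm_le {m : G} (χ : MChar m) (z : G) : ‖χ.f z‖ ≤ 1 := by
  by_cases h : IsCoprime z m
  · rw [χ.nrm z h]
  · rw [χ.zero z h, norm_zero]
    norm_num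

theorem sup_nonzero_pr {m : G} (hm : m ≠ 0) (χ : MChar m) (η K₀ : ℝ) (hη : 0 < η) (hK : 1 ≤ K₀) :
    ∃ X₀ : ℝ, ∀ X : ℝ, X₀ ≤ X → ∀ k : ℤ, k ≠ 0 → |(k : ℝ)| ≤ X → xi χ k ui = 1 → ∀ t : ℝ,
      |t| ≤ K₀ * Real.log X → ‖Dsum (fun z => (gl z : ℂ) * xi χ k z)
        ((1 + 1 / Real.log X : ℝ) + t * Complex.I)‖ ≤ η * Real.log X := by
  obtain ⟨C₁, hC₁, hred⟩ := sup_reduce
  obtain ⟨C₃, hC₃, hsmall⟩ := suk_small
  set δ : ℝ := (η / C₁) ^ 4 with hδdef
  have hC₁0 : 0 < C₁ := by linarith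
  have hδ : 0 < δ := by positivity
  set θ : ℝ := min 1 (δ / (4 * C₃)) with hθdef
  have hθ0 : 0 < θ := lt_min (by norm_num) (by positivity)
  have hθ1 : θ ≤ 1 := min_le_left _ _
  have hθ2 : C₃ * θ ≤ δ / 4 := by
    have : θ ≤ δ / (4 * C₃) := min_le_right _ _
    calc C₃ * θ ≤ C₃ * (δ / (4 * C₃)) := mul_le_mul_of_nonneg_left this (by linarith)
      _ = δ / 4 := by field_simp
  have hA1 : 1 ≤ 2 / θ := by rw [one_le_div hθ0]; linarith
  obtain ⟨κ, C, hκ, hκ1, hC, hexp⟩ := exp_per (2 / θ) hA1 m hm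
  -- the limit
  set c' : ℝ := (δ / 4) / ((2 + 2 * K₀) * (4 * C / κ)) with hc'
  have hc'0 : 0 < c' := by positivity
  have hlim : ∀ᶠ X : ℝ in atTop, X ^ (-(θ * (κ / 2))) ≤ c' := by
    have := tendsto_rpow_neg_atTop (show 0 < θ * (κ / 2) by positivity)
    exact (this.eventually (gt_mem_nhds hc'0)).mono fun x hx => hx.le
  have hlog : ∀ᶠ X : ℝ in atTop, max 1 (4 * C₃ / δ) ≤ Real.log X :=
    Real.tendsto_log_atTop.eventually_ge_atTop _
  obtain ⟨X₀, hX₀⟩ := eventually_atTop.1 (hlim.and (hlog.and (eventually_ge_atTop 2)))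
  refine ⟨X₀, fun X hX k hk hkX hxi t ht => ?_⟩
  obtain ⟨h1, h2, h3⟩ := hX₀ X hX
  set L := Real.log X with hL
  have hL1 : 1 ≤ L := le_trans (le_max_left _ _) h2
  have hL2 : 4 * C₃ / δ ≤ L := le_trans (le_max_right _ _) h2
  have hX0 : 0 < X := by linarith
  have hσ1 : 1 < 1 + 1 / L := by
    have : 0 < 1 / L := by positivity
    linarith
  have hσ2 : 1 + 1 / L ≤ 2 := by
    have : 1 / L ≤ 1 := by rw [div_le_one (by linarith)]; exact hL1
    linarith
  -- the square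
  set F : G → ℂ := fun z => xi χ k z ^ 2 with hFdef
  have hFb : ∀ z, ‖F z‖ ≤ 1 := by
    intro z
    simp only [hFdef, xi, norm_pow, norm_mul]
    have e1 := suk_norm_le χ z
    have e2 := ang_le k z
    have e3 : ‖χ.f z‖ * ‖ang k z‖ ≤ 1 * 1 := mul_le_mul e1 e2 (norm_nonneg _) (by norm_num)
    rw [one_mul] at e3
    exact pow_le_one₀ (by positivity) e3
  have hFeq : ∀ z, F z = χ.f z ^ 2 * ang (k * 2) z := by
    intro z
    simp only [hFdef, xi, mul_pow]
    congr 1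
    unfold ang
    rw [zpow_mul]
    norm_cast
  set U : ℝ := X ^ θ with hU
  have hU1 : 1 ≤ U := Real.one_le_rpow (by linarith) hθ0.le
  have hbd : ∀ x : ℝ, U ≤ x → ‖∑ z ∈ Bl x, F z‖ ≤ C * x ^ (1 - κ) := by
    intro x hx
    have e0 : ∑ z ∈ Bl x, F z = ∑ z ∈ Bl x, (fun z => χ.f z ^ 2) z * ang (k * 2) z :=
      Finset.sum_congr rfl fun z _ => hFeq z
    rw [e0]
    apply hexp
    · intro z w
      rw [χ.per]
    · intro z
      rw [norm_pow]
      exact pow_le_one₀ (norm_nonneg _) (suk_norm_le χ z)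
    · linarith
    · omega
    · have e1 : (X ^ θ) ^ (2 / θ) = X ^ 2 := by
        rw [← Real.rpow_mul hX0.le, mul_div_cancel₀ _ hθ0.ne']
        norm_cast
      have e2 : X ^ 2 ≤ x ^ (2 / θ) := by
        rw [← e1]
        exact Real.rpow_le_rpow (by positivity) hx (by positivity)
      push_cast
      rw [abs_mul, abs_two]
      nlinarith
  -- the Dirichlet series of the square
  have hs : 1 < (((1 + 1 / L : ℝ) : ℂ) + 2 * (t : ℂ) * Complex.I).re := by
    simp
    linarith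
  have hD := suk_tail hFb hκ hκ1 hC hU1 hbd hs
  have hsn : ‖((1 + 1 / L : ℝ) : ℂ) + 2 * (t : ℂ) * Complex.I‖ ≤ (2 + 2 * K₀) * L := by
    calc ‖((1 + 1 / L : ℝ) : ℂ) + 2 * (t : ℂ) * Complex.I‖ ≤
          ‖((1 + 1 / L : ℝ) : ℂ)‖ + ‖2 * (t : ℂ) * Complex.I‖ := norm_add_le _ _
      _ = (1 + 1 / L) + 2 * |t| := by
          rw [Complex.norm_real, Real.norm_of_nonneg (by linarith)]
          simp
      _ ≤ 2 + 2 * (K₀ * L) := by linarith
      _ ≤ (2 + 2 * K₀) * L := by nlinarith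
  have hsm := hsmall U hU1
  have hlU : Real.log U = θ * L := by rw [hU, Real.log_rpow hX0]
  rw [hlU] at hsm
  have hUk : U ^ (-(κ / 2)) = X ^ (-(θ * (κ / 2))) := by
    rw [hU, ← Real.rpow_mul hX0.le]
    congr 1
    ring
  have hDle : ‖Dsum F (((1 + 1 / L : ℝ) : ℂ) + 2 * (t : ℂ) * Complex.I)‖ ≤ δ * L := by
    have e1 : C₃ * (1 + θ * L) ≤ δ / 2 * L := by
      have e3 : C₃ ≤ δ / 4 * L := by
        rw [div_le_iff₀ hδ] at hL2
        linarith
      nlinarith
    have e2 : ‖((1 + 1 / L : ℝ) : ℂ) + 2 * (t : ℂ) * Complex.I‖ * (4 * C / κ * U ^ (-(κ / 2))) ≤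
        δ / 4 * L := by
      rw [hUk]
      calc ‖((1 + 1 / L : ℝ) : ℂ) + 2 * (t : ℂ) * Complex.I‖ *
            (4 * C / κ * X ^ (-(θ * (κ / 2)))) ≤
            ((2 + 2 * K₀) * L) * (4 * C / κ * c') := by
              apply mul_le_mul hsn _ (by positivity) (by positivity)
              exact mul_le_mul_of_nonneg_left h1 (by positivity)
        _ = δ / 4 * L := by
              rw [hc']
              field_simp
    nlinarith [hD, hsm]
  have hfin := hred m χ k hxi (1 + 1 / L) t hσ1 hσ2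
  refine hfin.trans ?_
  have e5 : 1 / (1 + 1 / L - 1) = L := by
    rw [add_sub_cancel_left, one_div_one_div]
  rw [e5]
  calc C₁ * L ^ (3 / 4 : ℝ) * ‖Dsum F (((1 + 1 / L : ℝ) : ℂ) + 2 * (t : ℂ) * Complex.I)‖ ^ (1 / 4 : ℝ)
      ≤ C₁ * L ^ (3 / 4 : ℝ) * (δ * L) ^ (1 / 4 : ℝ) := by
        apply mul_le_mul_of_nonneg_left _ (by positivity)
        exact Real.rpow_le_rpow (norm_nonneg _) hDle (by norm_num)
    _ = η * L := by
        rw [Real.mul_rpow hδ.le (by linarith)]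
        have e6 : δ ^ (1 / 4 : ℝ) = η / C₁ := by
          rw [hδdef, ← Real.rpow_natCast, ← Real.rpow_mul (by positivity)]
          norm_num
        rw [e6]
        have e7 : L ^ (3 / 4 : ℝ) * L ^ (1 / 4 : ℝ) = L := by
          rw [← Real.rpow_add (by linarith)]
          norm_num
        calc C₁ * L ^ (3 / 4 : ℝ) * (η / C₁ * L ^ (1 / 4 : ℝ)) =
              (C₁ * (η / C₁)) * (L ^ (3 / 4 : ℝ) * L ^ (1 / 4 : ℝ)) := by ring
          _ = η * L := by rw [e7]; field_simp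

end Pool.Agent.T2


namespace Pool.Agent.T2

theorem sup_nonzero : type_of% @sup_nonzero_pr := @sup_nonzero_pr

end Pool.Agent.T2
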