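import Pool.Agent.Lib_helper10.T2.Defs
import Pool.Agent.Lib_helper10.T2F.BAS
import Pool.Agent.Lib_helper10.T2F.CNT
import Pool.Agent.Lib_helper10.T2F.DSR

/-! T2, block DSP: Dirichlet series with periodic coefficients over the Gaussian integers -/

namespace Pool.Agent.T2

open Filter Topology MeasureTheory

/-- partial sums -/
noncomputable def dsp_A (f : G → ℂ) (u : ℝ) : ℂ := ∑ z ∈ Bl u, f z

theorem dsp_Bl_floor (u : ℝ) : Bl u = Bl (⌊u⌋₊ : ℝ) := by
  ext z
  rw [mem_Bl, mem_Bl]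
  constructor
  · rintro ⟨h1, h2⟩
    exact ⟨h1, by exact_mod_cast Nat.le_floor h2⟩
  · rintro ⟨h1, h2⟩
    refine ⟨h1, ?_⟩
    have h3 : nn z ≤ ⌊u⌋₊ := by exact_mod_cast h2
    have h4 : 0 < nn z := nn_pos.2 h1
    rcases le_or_gt 0 u with hu | hu
    · exact le_trans (by exact_mod_cast h3) (Nat.floor_le hu)
    · rw [Nat.floor_of_nonpos hu.le] at h3
      omega

theorem dsp_A_meas (f : G → ℂ) : Measurable (dsp_A f) := by
  have h : dsp_A f = (fun n : ℕ => ∑ z ∈ Bl (n : ℝ), f z) ∘ (fun u : ℝ => ⌊u⌋₊) := by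
    funext u
    simp only [dsp_A, Function.comp_apply]
    rw [dsp_Bl_floor u]
  rw [h]
  exact (measurable_from_top).comp Nat.measurable_floor

/-! the sum over classes -/

/-- representatives -/
noncomputable def dsp_rep (N : ℕ) : Finset G :=
  ((Finset.range N) ×ˢ (Finset.range N)).image (fun p => (⟨(p.1 : ℤ), (p.2 : ℤ)⟩ : G))

theorem dsp_dvd (N : ℕ) (z : G) : (N : G) ∣ z ↔ (N : ℤ) ∣ z.re ∧ (N : ℤ) ∣ z.im := by
  have := Zsqrtd.intCast_dvd (d := -1) (N : ℤ) z
  rw [← this]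
  simp

theorem dsp_rep_card (N : ℕ) : (dsp_rep N).card ≤ N * N := by
  refine le_trans Finset.card_image_le ?_
  simp

theorem dsp_part1 {m : G} (hm : m ≠ 0) (f : G → ℂ) (hf : ∀ z w, f (z + m * w) = f z)
    (hb : ∀ z, ‖f z‖ ≤ 1) : ∃ (C : ℝ) (r : ℂ), 1 ≤ C ∧
    (∀ x : ℝ, 1 ≤ x → ‖∑ z ∈ Bl x, f z - r * x‖ ≤ C * Real.sqrt x) := by
  classical
  set N : ℕ := nn m with hN
  have hN0 : 0 < N := nn_pos.2 hm
  have hNm : (N : G) = m * star m := by
    have h1 := Zsqrtd.norm_eq_mul_conj m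
    have h2 : ((nn m : ℕ) : ℤ) = m.norm := by
      rw [nn]
      exact Int.natAbs_of_nonneg (GaussianInt.norm_nonneg m)
    rw [← h1, ← h2]
    simp [hN]
  have hper : ∀ z w, (N : G) ∣ z - w → f z = f w := by
    rintro z w ⟨v, hv⟩
    have : z = w + m * (star m * v) := by
      rw [← mul_assoc, ← hNm, ← hv]; ring
    rw [this, hf]
  obtain ⟨C, hC1, hC⟩ := class_count N hN0
  refine ⟨max 1 ((N * N : ℕ) * C), ∑ c ∈ dsp_rep N, f c * (Real.pi / (N : ℝ) ^ 2 : ℝ),
    le_max_left _ _, fun x hx => ?_⟩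
  have hmap : ∀ z ∈ Bl x, (⟨z.re % N, z.im % N⟩ : G) ∈ dsp_rep N := by
    intro z _
    rw [dsp_rep, Finset.mem_image]
    refine ⟨((z.re % N).toNat, (z.im % N).toNat), ?_, ?_⟩
    · have h1 := Int.emod_lt_of_pos z.re (b := (N : ℤ)) (by exact_mod_cast hN0)
      have h2 := Int.emod_lt_of_pos z.im (b := (N : ℤ)) (by exact_mod_cast hN0)
      have h3 := Int.emod_nonneg z.re (b := (N : ℤ)) (by positivity)
      have h4 := Int.emod_nonneg z.im (b := (N : ℤ)) (by positivity)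
      simp only [Finset.mem_product, Finset.mem_range]
      omega
    · have h3 := Int.emod_nonneg z.re (b := (N : ℤ)) (by positivity)
      have h4 := Int.emod_nonneg z.im (b := (N : ℤ)) (by positivity)
      simp only [Int.toNat_of_nonneg h3, Int.toNat_of_nonneg h4]
  have hfib : ∑ z ∈ Bl x, f z = ∑ c ∈ dsp_rep N,
      f c * (((Bl x).filter (fun z => (N : G) ∣ z - c)).card : ℂ) := by
    rw [← Finset.sum_fiberwise_of_maps_to hmap]
    refine Finset.sum_congr rfl fun c hc => ?_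
    have hset : (Bl x).filter (fun z => (⟨z.re % N, z.im % N⟩ : G) = c) =
        (Bl x).filter (fun z => (N : G) ∣ z - c) := by
      ext z
      simp only [Finset.mem_filter, and_congr_right_iff]
      intro _
      rw [dsp_rep, Finset.mem_image] at hc
      obtain ⟨⟨a, b⟩, hab, rfl⟩ := hc
      simp only [Finset.mem_product, Finset.mem_range] at hab
      rw [dsp_dvd]
      simp only [Zsqrtd.re_sub, Zsqrtd.im_sub]
      constructor
      · intro h
        have h1 : z.re % N = a := congrArg Zsqrtd.re h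
        have h2 : z.im % N = b := congrArg Zsqrtd.im h
        rw [← h1, ← h2]
        exact ⟨Int.dvd_self_sub_emod, Int.dvd_self_sub_emod⟩
      · rintro ⟨h1, h2⟩
        have h3 : z.re % N = (a : ℤ) % N := Int.emod_eq_emod_iff_emod_sub_eq_zero.2
            (Int.emod_eq_zero_of_dvd h1)
        have h4 : z.im % N = (b : ℤ) % N := Int.emod_eq_emod_iff_emod_sub_eq_zero.2
            (Int.emod_eq_zero_of_dvd h2)
        rw [h3, h4, Int.emod_eq_of_lt (by positivity) (by exact_mod_cast hab.1),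
          Int.emod_eq_of_lt (by positivity) (by exact_mod_cast hab.2)]
    rw [hset, Finset.sum_congr rfl (fun z hz => hper z c (Finset.mem_filter.1 hz).2)]
    simp [mul_comm]
  rw [hfib, Finset.sum_mul, ← Finset.sum_sub_distrib]
  refine le_trans (norm_sum_le _ _) ?_
  have hb2 : ∀ c ∈ dsp_rep N, ‖f c * (((Bl x).filter (fun z => (N : G) ∣ z - c)).card : ℂ) -
      f c * ((Real.pi / (N : ℝ) ^ 2 : ℝ) : ℂ) * x‖ ≤ C * Real.sqrt x := by
    intro c _
    have h1 : f c * (((Bl x).filter (fun z => (N : G) ∣ z - c)).card : ℂ) -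
        f c * ((Real.pi / (N : ℝ) ^ 2 : ℝ) : ℂ) * x = f c *
        (((((Bl x).filter (fun z => (N : G) ∣ z - c)).card : ℝ) -
          Real.pi * x / (N : ℝ) ^ 2 : ℝ) : ℂ) := by
      push_cast; ring
    rw [h1, norm_mul, Complex.norm_real, Real.norm_eq_abs]
    calc _ ≤ 1 * (C * Real.sqrt x) := mul_le_mul (hb c) (hC c x hx) (abs_nonneg _) zero_le_one
      _ = _ := one_mul _
  refine le_trans (Finset.sum_le_sum hb2) ?_
  rw [Finset.sum_const, nsmul_eq_mul]
  have h3 : ((dsp_rep N).card : ℝ) ≤ ((N * N : ℕ) : ℝ) := by exact_mod_cast dsp_rep_card N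
  calc ((dsp_rep N).card : ℝ) * (C * Real.sqrt x) ≤ ((N * N : ℕ) : ℝ) * (C * Real.sqrt x) :=
        mul_le_mul_of_nonneg_right h3 (by positivity)
    _ = (((N * N : ℕ) : ℝ) * C) * Real.sqrt x := by ring
    _ ≤ _ := mul_le_mul_of_nonneg_right (le_max_right _ _) (Real.sqrt_nonneg _)

/-! the integral representation -/

/-- the power integral over a half line -/
theorem dsp_int (V : ℝ) (hV : 0 < V) {s : ℂ} (hs : 0 < s.re) :
    ∫ u in Set.Ioi V, (u : ℂ) ^ (-s - 1) = (V : ℂ) ^ (-s) / s := by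
  rw [integral_Ioi_cpow_of_lt (by simp; linarith) hV]
  have : -s - 1 + 1 = -s := by ring
  rw [this]
  have hs0 : s ≠ 0 := by rintro rfl; simp at hs
  field_simp

/-- the function whose sum is the partial sum -/
noncomputable def dsp_h (f : G → ℂ) (s : ℂ) (z : G) (u : ℝ) : ℂ :=
  f z * (if z ∈ Bl u then (u : ℂ) ^ (-s - 1) else 0)

theorem dsp_h_int (f : G → ℂ) {s : ℂ} (hs : 0 < s.re) (U : ℝ) (hU : 1 ≤ U) {z : G} (hz : z ≠ 0) :
    IntegrableOn (dsp_h f s z) (Set.Ioi U) ∧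
    ∫ u in Set.Ioi U, dsp_h f s z u = f z * ((max (nn z : ℝ) U : ℝ) : ℂ) ^ (-s) / s := by
  have hn : (1 : ℝ) ≤ nn z := by exact_mod_cast nn_pos.2 hz
  have hV : 0 < max (nn z : ℝ) U := lt_of_lt_of_le (by linarith) (le_max_left _ _)
  have hi : IntegrableOn (fun u : ℝ => (u : ℂ) ^ (-s - 1)) (Set.Ioi (max (nn z : ℝ) U)) :=
    integrableOn_Ioi_cpow_of_lt (by simp; linarith) hV
  have heq : ∀ u ∈ Set.Ioi U, dsp_h f s z u =
      f z * (Set.Ici (nn z : ℝ)).indicator (fun u : ℝ => (u : ℂ) ^ (-s - 1)) u := by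
    intro u _
    rw [dsp_h]
    by_cases h : (nn z : ℝ) ≤ u
    · rw [if_pos (mem_Bl.2 ⟨hz, h⟩), Set.indicator_of_mem (by exact h)]
    · rw [if_neg (fun h' => h (mem_Bl.1 h').2), Set.indicator_of_notMem (by exact h)]
  have hsets : Set.Ioi (max (nn z : ℝ) U) =ᵐ[volume] (Set.Ioi U ∩ Set.Ici (nn z : ℝ) : Set ℝ) := by
    have h1 : (Set.Ioi U ∩ Set.Ici (nn z : ℝ) : Set ℝ) =ᵐ[volume]
        (Set.Ioi U ∩ Set.Ioi (nn z : ℝ) : Set ℝ) :=
      (ae_eq_refl _).inter Ioi_ae_eq_Ici.symm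
    refine (Filter.EventuallyEq.trans (Filter.EventuallyEq.of_eq ?_) h1.symm)
    rw [Set.Ioi_inter_Ioi, max_comm]
  constructor
  · rw [integrableOn_congr_fun heq measurableSet_Ioi]
    refine Integrable.const_mul ?_ _
    rw [integrable_indicator_iff measurableSet_Ici, IntegrableOn,
      Measure.restrict_restrict measurableSet_Ici, Set.inter_comm]
    exact (integrableOn_congr_set_ae hsets).1 hi
  · rw [setIntegral_congr_fun measurableSet_Ioi heq, integral_const_mul,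
      setIntegral_indicator measurableSet_Ici, ← setIntegral_congr_set hsets, dsp_int _ hV hs]
    ring

theorem dsp_h_norm (f : G → ℂ) (hb : ∀ z, ‖f z‖ ≤ 1) {s : ℂ} (hs : 0 < s.re) (U : ℝ) (hU : 1 ≤ U)
    {z : G} (hz : z ≠ 0) :
    ∫ u in Set.Ioi U, ‖dsp_h f s z u‖ ≤ (nn z : ℝ) ^ (-s.re) / s.re := by
  have hn : (1 : ℝ) ≤ nn z := by exact_mod_cast nn_pos.2 hz
  have h1 := dsp_h_int (fun _ => 1) (s := (s.re : ℂ)) (by simpa using hs) U hU hz
  have h2 : ∫ u in Set.Ioi U, ‖dsp_h f s z u‖ ≤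
      ∫ u in Set.Ioi U, ‖dsp_h (fun _ => 1) (s.re : ℂ) z u‖ := by
    refine setIntegral_mono_on (dsp_h_int f hs U hU hz).1.norm h1.1.norm measurableSet_Ioi ?_
    intro u hu
    have hu0 : 0 < u := lt_of_lt_of_le (by linarith) (le_of_lt hu)
    simp only [dsp_h, norm_mul]
    refine mul_le_mul (by simpa using hb z) ?_ (norm_nonneg _) (norm_nonneg _)
    split_ifs
    · rw [Complex.norm_cpow_eq_rpow_re_of_pos hu0, Complex.norm_cpow_eq_rpow_re_of_pos hu0]
      simp
    · simp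
  refine le_trans h2 ?_
  have h3 : ∀ u ∈ Set.Ioi U, ‖dsp_h (fun _ => 1) (s.re : ℂ) z u‖ =
      (dsp_h (fun _ => 1) (s.re : ℂ) z u).re := by
    intro u hu
    have hu0 : 0 < u := lt_of_lt_of_le (by linarith) (le_of_lt hu)
    simp only [dsp_h, one_mul]
    split_ifs
    · rw [Complex.norm_cpow_eq_rpow_re_of_pos hu0]
      have : (-(s.re : ℂ) - 1) = ((-s.re - 1 : ℝ) : ℂ) := by push_cast; ring
      rw [this, ← Complex.ofReal_cpow hu0.le]
      simp
    · simp
  rw [setIntegral_congr_fun measurableSet_Ioi h3]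
  have h4 : ∫ u in Set.Ioi U, (dsp_h (fun _ => 1) (s.re : ℂ) z u).re =
      (∫ u in Set.Ioi U, dsp_h (fun _ => 1) (s.re : ℂ) z u).re := by
    have := (Complex.reCLM.integral_comp_comm h1.1)
    simpa using this
  rw [h4, h1.2, one_mul]
  have h5 : ((max (nn z : ℝ) U : ℝ) : ℂ) ^ (-(s.re : ℂ)) / (s.re : ℂ) =
      (((max (nn z : ℝ) U) ^ (-s.re) / s.re : ℝ) : ℂ) := by
    have : (-(s.re : ℂ)) = ((-s.re : ℝ) : ℂ) := by push_cast; ring
    rw [this, ← Complex.ofReal_cpow (le_trans (by linarith) (le_max_left _ _))]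
    push_cast
    rfl
  rw [h5, Complex.ofReal_re]
  refine div_le_div_of_nonneg_right ?_ hs.le
  exact Real.rpow_le_rpow_of_nonpos (by linarith) (le_max_left _ _) (by linarith)

theorem dsp_h_zero (f : G → ℂ) (s : ℂ) : dsp_h f s 0 = fun _ => 0 := by
  funext u
  rw [dsp_h, if_neg (fun h => (mem_Bl.1 h).1 rfl), mul_zero]

theorem dsp_tsum (f : G → ℂ) (s : ℂ) (u : ℝ) :
    ∑' z, dsp_h f s z u = dsp_A f u * (u : ℂ) ^ (-s - 1) := by
  rw [tsum_eq_sum (s := Bl u)]
  · rw [dsp_A, Finset.sum_mul]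
    refine Finset.sum_congr rfl fun z hz => ?_
    rw [dsp_h, if_pos hz]
  · intro z hz
    rw [dsp_h, if_neg hz, mul_zero]

theorem dsp_norm_cpow {z : G} (hz : z ≠ 0) (s : ℂ) :
    ‖(nn z : ℂ) ^ (-s)‖ = (nn z : ℝ) ^ (-s.re) := by
  have hn : 0 < nn z := nn_pos.2 hz
  rw [Complex.norm_natCast_cpow_of_pos hn]
  simp

theorem dsp_countable : Countable G :=
  Function.Injective.countable (f := fun z : G => (z.re, z.im)) (fun z w h => by
    simp only [Prod.mk.injEq] at h
    exact Zsqrtd.ext h.1 h.2)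

theorem dsp_gen (B : ℝ → ℂ) (hB : Measurable B) (C β : ℝ) (hC : 0 ≤ C) {s : ℂ} (hs : β < s.re)
    (U : ℝ) (hU : 1 ≤ U) (hb : ∀ u ∈ Set.Ioi U, ‖B u‖ ≤ C * u ^ β) :
    IntegrableOn (fun u : ℝ => B u * (u : ℂ) ^ (-s - 1)) (Set.Ioi U) ∧
    ‖∫ u in Set.Ioi U, B u * (u : ℂ) ^ (-s - 1)‖ ≤ C * (U ^ (β - s.re) / (s.re - β)) := by
  have hU0 : 0 < U := by linarith
  have hm : IntegrableOn (fun u : ℝ => C * u ^ (β - s.re - 1)) (Set.Ioi U) :=
    (integrableOn_Ioi_rpow_of_lt (by linarith) hU0).const_mul C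
  have hb2 : ∀ u ∈ Set.Ioi U, ‖B u * (u : ℂ) ^ (-s - 1)‖ ≤ C * u ^ (β - s.re - 1) := by
    intro u hu
    have hu0 : 0 < u := lt_trans hU0 hu
    rw [norm_mul, Complex.norm_cpow_eq_rpow_re_of_pos hu0]
    calc ‖B u‖ * u ^ (-s - 1).re ≤ (C * u ^ β) * u ^ (-s.re - 1) := by
          refine mul_le_mul (hb u hu) (by simp) (by positivity) (by positivity)
      _ = C * u ^ (β - s.re - 1) := by
          rw [mul_assoc, ← Real.rpow_add hu0]
          congr 2
          ring
  have hmeas : AEStronglyMeasurable (fun u : ℝ => B u * (u : ℂ) ^ (-s - 1))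
      (volume.restrict (Set.Ioi U)) := by
    refine (hB.aestronglyMeasurable).mul ?_
    refine ContinuousOn.aestronglyMeasurable ?_ measurableSet_Ioi
    intro u hu
    have hu0 : 0 < u := lt_trans hU0 hu
    exact (Complex.continuousAt_ofReal_cpow_const u (-s - 1) (Or.inr hu0.ne')).continuousWithinAt
  refine ⟨?_, ?_⟩
  · exact Integrable.mono' hm hmeas ((ae_restrict_iff' measurableSet_Ioi).2
      (Filter.Eventually.of_forall hb2))
  · refine le_trans (norm_integral_le_of_norm_le hm ((ae_restrict_iff' measurableSet_Ioi).2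
      (Filter.Eventually.of_forall hb2))) ?_
    rw [integral_const_mul, integral_Ioi_rpow_of_lt (by linarith) hU0]
    have h1 : β - s.re - 1 + 1 = β - s.re := by ring
    rw [h1]
    apply le_of_eq
    congr 1
    have h2 : s.re - β ≠ 0 := by linarith
    have h3 : β - s.re ≠ 0 := by linarith
    field_simp
    ring

theorem dsp_main (f : G → ℂ) (hb : ∀ z, ‖f z‖ ≤ 1) {s : ℂ} (hs : 1 < s.re) (U : ℝ) (hU : 1 ≤ U) :
    IntegrableOn (fun u : ℝ => dsp_A f u * (u : ℂ) ^ (-s - 1)) (Set.Ioi U) ∧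
    Dsum f s = s * (∫ u in Set.Ioi U, dsp_A f u * (u : ℂ) ^ (-s - 1)) +
      ∑ z ∈ Bl U, f z * ((nn z : ℂ) ^ (-s) - (U : ℂ) ^ (-s)) := by
  have hs0 : 0 < s.re := by linarith
  have hsne : s ≠ 0 := by rintro rfl; simp at hs0
  have hsum := (dsum_summable hb hs).1
  have hsum1 := (dsum_summable (f := fun _ => (1 : ℂ)) (fun z => by simp) hs).1
  have hF : ∀ z, Integrable (dsp_h f s z) (volume.restrict (Set.Ioi U)) := by
    intro z
    by_cases hz : z = 0
    · rw [hz, dsp_h_zero]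
      exact integrable_zero _ _ _
    · exact (dsp_h_int f hs0 U hU hz).1
  have hN : Summable (fun z => ∫ u in Set.Ioi U, ‖dsp_h f s z u‖) := by
    refine Summable.of_nonneg_of_le (fun z => integral_nonneg fun u => norm_nonneg _)
      (fun z => ?_) (hsum1.mul_right (1 / s.re))
    by_cases hz : z = 0
    · rw [hz, dsp_h_zero]
      simp only [norm_zero, integral_zero]
      positivity
    · refine le_trans (dsp_h_norm f hb hs0 U hU hz) ?_
      rw [one_mul, dsp_norm_cpow hz]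
      apply le_of_eq
      ring
  have : Countable G := dsp_countable
  have hH := hasSum_integral_of_summable_integral_norm hF hN
  have hA : ∫ u in Set.Ioi U, ∑' z, dsp_h f s z u =
      ∫ u in Set.Ioi U, dsp_A f u * (u : ℂ) ^ (-s - 1) := by
    refine integral_congr_ae (Filter.Eventually.of_forall fun u => ?_)
    exact dsp_tsum f s u
  rw [hA] at hH
  refine ⟨?_, ?_⟩
  · obtain ⟨C, hC1, hC⟩ := ball_le
    refine (dsp_gen (dsp_A f) (dsp_A_meas f) C 1 (by linarith) hs U hU (fun u hu => ?_)).1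
    have hu0 : 0 ≤ u := le_trans (by linarith) (le_of_lt hu)
    rw [Real.rpow_one]
    refine le_trans ?_ (hC u hu0)
    rw [dsp_A]
    refine le_trans (norm_sum_le _ _) (le_trans (Finset.sum_le_sum (fun z _ => hb z)) ?_)
    simp
  have hg : HasSum (fun z : G => s * ∫ u in Set.Ioi U, dsp_h f s z u)
      (s * ∫ u in Set.Ioi U, dsp_A f u * (u : ℂ) ^ (-s - 1)) := hH.mul_left s
  have hD : HasSum (fun z : G => f z * (nn z : ℂ) ^ (-s)) (Dsum f s) :=
    (hsum.of_norm).hasSum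
  have hdiff := hD.sub hg
  have hfin : HasSum (fun z : G => f z * (nn z : ℂ) ^ (-s) - s * ∫ u in Set.Ioi U, dsp_h f s z u)
      (∑ z ∈ Bl U, (f z * (nn z : ℂ) ^ (-s) - s * ∫ u in Set.Ioi U, dsp_h f s z u)) := by
    refine hasSum_sum_of_ne_finset_zero fun z hz => ?_
    by_cases h0 : z = 0
    · rw [h0, dsp_h_zero]
      have h1 : (nn (0 : G) : ℂ) = 0 := by
        have : nn (0 : G) = 0 := by simp [nn]
        rw [this]; simp
      rw [h1, Complex.zero_cpow (by simpa using hsne)]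
      simp
    · have hz2 : U < (nn z : ℝ) := by
        by_contra h
        exact hz (mem_Bl.2 ⟨h0, not_lt.1 h⟩)
      rw [(dsp_h_int f hs0 U hU h0).2, max_eq_left hz2.le]
      push_cast
      field_simp
      ring
  have heq := hdiff.unique hfin
  have hfin2 : ∑ z ∈ Bl U, (f z * (nn z : ℂ) ^ (-s) - s * ∫ u in Set.Ioi U, dsp_h f s z u) =
      ∑ z ∈ Bl U, f z * ((nn z : ℂ) ^ (-s) - (U : ℂ) ^ (-s)) := by
    refine Finset.sum_congr rfl fun z hz => ?_
    rw [mem_Bl] at hz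
    rw [(dsp_h_int f hs0 U hU hz.1).2, max_eq_right hz.2]
    field_simp
  rw [← hfin2, ← heq]
  ring

/-! finite partial summation -/

theorem dsp_finite (f : G → ℂ) (x : ℝ) (hx : 1 ≤ x) :
    ∑ z ∈ Bl x, f z / (nn z : ℂ) = dsp_A f x / x +
      ∫ u in (1 : ℝ)..x, dsp_A f u * (u : ℂ) ^ (-(1 : ℂ) - 1) := by
  have hx0 : 0 < x := by linarith
  have hz1 : ∀ z ∈ Bl x, IntervalIntegrable (dsp_h f 1 z) volume 1 x ∧
      ∫ u in (1 : ℝ)..x, dsp_h f 1 z u = f z * (1 / (nn z : ℂ) - 1 / x) := by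
    intro z hz
    rw [mem_Bl] at hz
    have hn : (1 : ℝ) ≤ nn z := by exact_mod_cast nn_pos.2 hz.1
    have hn0 : (0 : ℝ) < nn z := by linarith
    have heq : ∀ u : ℝ, dsp_h f 1 z u =
        f z * (Set.Ici (nn z : ℝ)).indicator (fun u : ℝ => (u : ℂ) ^ (-(1 : ℂ) - 1)) u := by
      intro u
      rw [dsp_h]
      by_cases h : (nn z : ℝ) ≤ u
      · rw [if_pos (mem_Bl.2 ⟨hz.1, h⟩), Set.indicator_of_mem (by exact h)]
      · rw [if_neg (fun h' => h (mem_Bl.1 h').2), Set.indicator_of_notMem (by exact h)]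
    have hii := (dsp_h_int f (s := 1) (by simp) 1 le_rfl hz.1).1
    refine ⟨(intervalIntegrable_iff_integrableOn_Ioc_of_le hx).2
      (hii.mono_set Set.Ioc_subset_Ioi_self), ?_⟩
    rw [intervalIntegral.integral_of_le hx]
    have hfun : dsp_h f 1 z = fun u => f z * (Set.Ici (nn z : ℝ)).indicator
      (fun u : ℝ => (u : ℂ) ^ (-(1 : ℂ) - 1)) u := funext heq
    rw [hfun, integral_const_mul, setIntegral_indicator measurableSet_Ici]
    have hsets : (Set.Ioc 1 x ∩ Set.Ici (nn z : ℝ) : Set ℝ) =ᵐ[volume] Set.Ioc (nn z : ℝ) x := by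
      have h1 : (Set.Ioc 1 x ∩ Set.Ici (nn z : ℝ) : Set ℝ) =ᵐ[volume]
          (Set.Ioc 1 x ∩ Set.Ioi (nn z : ℝ) : Set ℝ) :=
        (ae_eq_refl _).inter Ioi_ae_eq_Ici.symm
      refine h1.trans (Filter.EventuallyEq.of_eq ?_)
      have h2 : (Set.Ioc 1 x ∩ Set.Ioi (nn z : ℝ) : Set ℝ) = Set.Ioc (nn z : ℝ) x := by
        ext u
        simp only [Set.mem_inter_iff, Set.mem_Ioc, Set.mem_Ioi]
        constructor
        · rintro ⟨⟨_, h3⟩, h4⟩
          exact ⟨h4, h3⟩
        · rintro ⟨h3, h4⟩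
          exact ⟨⟨by linarith, h4⟩, h3⟩
      exact h2
    rw [setIntegral_congr_set hsets, ← intervalIntegral.integral_of_le hz.2, integral_cpow]
    · congr 1
      have h3 : (-(1 : ℂ) - 1 + 1) = -1 := by ring
      rw [h3, Complex.cpow_neg_one, Complex.cpow_neg_one]
      push_cast
      ring
    · right
      refine ⟨by norm_num, ?_⟩
      rw [Set.uIcc_of_le hz.2]
      intro h
      linarith [h.1]
  have hA : ∀ u ∈ Set.uIcc (1 : ℝ) x, dsp_A f u * (u : ℂ) ^ (-(1 : ℂ) - 1) =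
      ∑ z ∈ Bl x, dsp_h f 1 z u := by
    intro u hu
    rw [Set.uIcc_of_le hx] at hu
    rw [← dsp_tsum, tsum_eq_sum (s := Bl x)]
    intro z hz
    rw [dsp_h, if_neg, mul_zero]
    intro h
    rw [mem_Bl] at h hz
    exact hz ⟨h.1, h.2.trans hu.2⟩
  rw [intervalIntegral.integral_congr hA, intervalIntegral.integral_finsetSum
    (fun z hz => (hz1 z hz).1), Finset.sum_congr rfl (fun z hz => (hz1 z hz).2), dsp_A,
    Finset.sum_div, ← Finset.sum_add_distrib]
  refine Finset.sum_congr rfl fun z hz => ?_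
  ring

/-- the harmonic sum -/
theorem dsp_harm : ∃ C : ℝ, 1 ≤ C ∧ ∀ x : ℝ, 1 ≤ x →
    ∑ z ∈ Bl x, 1 / (nn z : ℝ) ≤ C * (1 + Real.log x) := by
  obtain ⟨C, hC1, hC⟩ := ball_le
  refine ⟨C, hC1, fun x hx => ?_⟩
  have hx0 : 0 < x := by linarith
  have h1 := dsp_finite (fun _ => 1) x hx
  have h2 : ∀ u : ℝ, 0 ≤ u → ‖dsp_A (fun _ => 1) u‖ ≤ C * u := by
    intro u hu
    refine le_trans ?_ (hC u hu)
    rw [dsp_A]
    simp
  have h3 : (∑ z ∈ Bl x, 1 / (nn z : ℝ)) = ‖∑ z ∈ Bl x, (1 : ℂ) / (nn z : ℂ)‖ := by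
    have : ∑ z ∈ Bl x, (1 : ℂ) / (nn z : ℂ) = ((∑ z ∈ Bl x, 1 / (nn z : ℝ) : ℝ) : ℂ) := by
      push_cast
      rfl
    rw [this, Complex.norm_real, Real.norm_eq_abs, abs_of_nonneg]
    exact Finset.sum_nonneg fun z _ => by positivity
  rw [h3, h1]
  refine le_trans (norm_add_le _ _) ?_
  have h4 : ‖dsp_A (fun _ => 1) x / (x : ℂ)‖ ≤ C := by
    rw [norm_div, Complex.norm_real, Real.norm_eq_abs, abs_of_pos hx0, div_le_iff₀ hx0]
    exact h2 x hx0.le
  have h5 : ‖∫ u in (1 : ℝ)..x, dsp_A (fun _ => 1) u * (u : ℂ) ^ (-(1 : ℂ) - 1)‖ ≤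
      C * Real.log x := by
    have h6 : ∫ u in (1 : ℝ)..x, C * (1 / u) = C * Real.log x := by
      rw [intervalIntegral.integral_const_mul, integral_one_div_of_pos one_pos hx0]
      simp
    rw [← h6]
    refine intervalIntegral.norm_integral_le_of_norm_le hx ?_ ?_
    · refine Filter.Eventually.of_forall fun u hu => ?_
      have hu0 : 0 < u := by linarith [hu.1]
      rw [norm_mul, Complex.norm_cpow_eq_rpow_re_of_pos hu0]
      have h7 : (-(1 : ℂ) - 1).re = -2 := by norm_num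
      rw [h7]
      calc ‖dsp_A (fun _ => 1) u‖ * u ^ (-2 : ℝ) ≤ (C * u) * u ^ (-2 : ℝ) :=
            mul_le_mul_of_nonneg_right (h2 u hu0.le) (by positivity)
        _ = C * (1 / u) := by
            rw [Real.rpow_neg hu0.le]
            norm_num
            field_simp
    · refine ContinuousOn.intervalIntegrable ?_
      intro u hu
      rw [Set.uIcc_of_le hx] at hu
      have : u ≠ 0 := by linarith [hu.1]
      exact (continuousAt_const.mul (continuousAt_const.div continuousAt_id this)).continuousWithinAt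
  calc _ ≤ C + C * Real.log x := add_le_add h4 h5
    _ = C * (1 + Real.log x) := by ring

/-! complex exponentials -/

theorem dsp_pow_sub (U : ℝ) (hU : 1 ≤ U) {w : ℂ} (hw : w.re ≤ 0) :
    ‖(U : ℂ) ^ w - 1‖ ≤ ‖w‖ * Real.log U := by
  have hU0 : 0 < U := by linarith
  have hl : 0 ≤ Real.log U := Real.log_nonneg hU
  have h1 : (U : ℂ) ^ w = Complex.exp ((Real.log U : ℂ) * w) := by
    rw [Complex.cpow_def_of_ne_zero (by exact_mod_cast hU0.ne'), Complex.ofReal_log hU0.le]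
  rw [h1]
  have h2 : ∀ v : ℂ, v.re ≤ 0 → ‖Complex.exp v - 1‖ ≤ ‖v‖ := by
    intro v hv
    have hd : ∀ t ∈ Set.Icc (0 : ℝ) 1, HasDerivWithinAt (fun t : ℝ => Complex.exp (t * v))
        (v * Complex.exp (t * v)) (Set.Icc 0 1) t := by
      intro t _
      have : HasDerivAt (fun t : ℝ => Complex.exp (t * v)) (Complex.exp (t * v) * (1 * v)) t := by
        have h3 : HasDerivAt (fun t : ℝ => (t : ℂ) * v) (1 * v) t :=
          (Complex.ofRealCLM.hasDerivAt (x := t)).mul_const v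
        exact h3.cexp
      have h4 := this.hasDerivWithinAt (s := Set.Icc 0 1)
      have h5 : Complex.exp (t * v) * (1 * v) = v * Complex.exp (t * v) := by
        rw [one_mul, mul_comm]
      rw [h5] at h4
      exact h4
    have := norm_image_sub_le_of_norm_deriv_le_segment_01' (f := fun t : ℝ => Complex.exp (t * v))
      (C := ‖v‖) hd (fun t ht => by
        rw [norm_mul, Complex.norm_exp]
        have h5 : ((t : ℂ) * v).re ≤ 0 := by
          simp only [Complex.mul_re, Complex.ofReal_re, Complex.ofReal_im, zero_mul, sub_zero]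
          exact mul_nonpos_of_nonneg_of_nonpos ht.1 hv
        calc ‖v‖ * Real.exp ((t : ℂ) * v).re ≤ ‖v‖ * 1 :=
              mul_le_mul_of_nonneg_left (Real.exp_le_one_iff.2 h5) (norm_nonneg _)
          _ = ‖v‖ := mul_one _)
    simpa using this
  refine le_trans (h2 _ ?_) ?_
  · simp only [Complex.mul_re, Complex.ofReal_re, Complex.ofReal_im, zero_mul, sub_zero]
    exact mul_nonpos_of_nonneg_of_nonpos hl hw
  · rw [norm_mul, Complex.norm_real, Real.norm_eq_abs, abs_of_nonneg hl, mul_comm]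

theorem dsum_periodic_pr {m : G} (hm : m ≠ 0) (f : G → ℂ) (hf : ∀ z w, f (z + m * w) = f z)
    (hb : ∀ z, ‖f z‖ ≤ 1) : ∃ (C : ℝ) (r : ℂ), 1 ≤ C ∧
    (∀ x : ℝ, 1 ≤ x → ‖∑ z ∈ Bl x, f z - r * x‖ ≤ C * Real.sqrt x) ∧
    (∀ s : ℂ, 1 < s.re → s.re ≤ 2 →
      ‖Dsum f s - r / (s - 1)‖ ≤ C * (1 + Real.log (2 + |s.im|))) ∧
    (r = 0 → ∃ L : ℂ, Tendsto (fun x : ℝ => ∑ z ∈ Bl x, f z / (nn z : ℂ)) atTop (𝓝 L) ∧
      ∀ s : ℂ, 1 < s.re → s.re ≤ 2 → |s.im| ≤ 1 → ‖Dsum f s - L‖ ≤ C * ‖s - 1‖) := by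
  obtain ⟨C, r, hC1, hC⟩ := dsp_part1 hm f hf hb
  obtain ⟨C', hC'1, hC'⟩ := dsp_harm
  have hC0 : 0 ≤ C := by linarith
  have hmA := dsp_A_meas f
  set C₂ : ℝ := 18 * C + 3 * C' + 2 * ‖r‖ with hC₂
  have hr0 := norm_nonneg r
  refine ⟨C₂, r, by rw [hC₂]; linarith, fun x hx => ?_, fun s hs hs2 => ?_, fun hr => ?_⟩
  · refine le_trans (hC x hx) (mul_le_mul_of_nonneg_right ?_ (Real.sqrt_nonneg _))
    rw [hC₂]; linarith
  · -- the logarithmic bound
    set U : ℝ := (2 + |s.im|) ^ 2 with hU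
    have ht := abs_nonneg s.im
    have hU1 : 1 ≤ U := by rw [hU]; nlinarith
    have hU0 : 0 < U := by linarith
    have hUc : (U : ℂ) ≠ 0 := by exact_mod_cast hU0.ne'
    have hs1 : s - 1 ≠ 0 := by
      intro h
      have := congrArg Complex.re h
      simp at this
      linarith
    have hE : Measurable (fun u : ℝ => dsp_A f u - r * u) :=
      hmA.sub (measurable_const.mul Complex.measurable_ofReal)
    have hEb : ∀ u : ℝ, 1 ≤ u → ‖dsp_A f u - r * u‖ ≤ C * u ^ (1 / 2 : ℝ) := by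
      intro u hu
      rw [← Real.sqrt_eq_rpow]
      exact hC u hu
    obtain ⟨hE1, hE2⟩ := dsp_gen _ hE C (1 / 2) hC0 (s := s) (by linarith) U hU1
      (fun u hu => hEb u (le_trans hU1 (le_of_lt hu)))
    have hi2 : IntegrableOn (fun u : ℝ => r * (u : ℂ) ^ (-s)) (Set.Ioi U) :=
      (integrableOn_Ioi_cpow_of_lt (by simpa using hs) hU0).const_mul r
    have hsplit : ∫ u in Set.Ioi U, dsp_A f u * (u : ℂ) ^ (-s - 1) =
        (∫ u in Set.Ioi U, (dsp_A f u - r * u) * (u : ℂ) ^ (-s - 1)) +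
          r * ((U : ℂ) ^ (1 - s) / (s - 1)) := by
      have h1 : ∀ u ∈ Set.Ioi U, dsp_A f u * (u : ℂ) ^ (-s - 1) =
          (dsp_A f u - r * u) * (u : ℂ) ^ (-s - 1) + r * (u : ℂ) ^ (-s) := by
        intro u hu
        have hu0 : (u : ℂ) ≠ 0 := by
          have : 0 < u := lt_trans hU0 hu
          exact_mod_cast this.ne'
        have h2 : (u : ℂ) ^ (-s) = (u : ℂ) ^ (-s - 1) * u := by
          rw [Complex.cpow_sub _ _ hu0, Complex.cpow_one]
          field_simp
        rw [h2]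
        ring
      rw [setIntegral_congr_fun measurableSet_Ioi h1, integral_add hE1 hi2, integral_const_mul,
        integral_Ioi_cpow_of_lt (by simpa using hs) hU0]
      have h3 : -s + 1 = 1 - s := by ring
      rw [h3]
      have h4 : (1 - s) ≠ 0 := by
        intro h
        apply hs1
        rw [← neg_sub, h, neg_zero]
      congr 2
      rw [neg_div, ← div_neg, neg_sub]
    have hD := (dsp_main f hb hs U hU1).2
    rw [hsplit] at hD
    have hhead : ∑ z ∈ Bl U, f z * ((nn z : ℂ) ^ (-s) - (U : ℂ) ^ (-s)) =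
        (∑ z ∈ Bl U, f z * (nn z : ℂ) ^ (-s)) - dsp_A f U * (U : ℂ) ^ (-s) := by
      rw [dsp_A, Finset.sum_mul, ← Finset.sum_sub_distrib]
      exact Finset.sum_congr rfl fun z _ => by ring
    have hUs : (U : ℂ) ^ (1 - s) = U * (U : ℂ) ^ (-s) := by
      rw [sub_eq_add_neg, Complex.cpow_add _ _ hUc, Complex.cpow_one]
    have hfin : Dsum f s - r / (s - 1) = r * (((U : ℂ) ^ (1 - s) - 1) / (s - 1)) +
        s * (∫ u in Set.Ioi U, (dsp_A f u - r * u) * (u : ℂ) ^ (-s - 1)) +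
        (∑ z ∈ Bl U, f z * (nn z : ℂ) ^ (-s)) - (dsp_A f U - r * U) * (U : ℂ) ^ (-s) := by
      rw [hD, hhead, hUs]
      field_simp
      ring
    have hlog : Real.log U = 2 * Real.log (2 + |s.im|) := by
      rw [hU, Real.log_pow]; norm_num
    have hlog0 : 0 ≤ Real.log (2 + |s.im|) := Real.log_nonneg (by linarith)
    have hsn : ‖s‖ ≤ 2 + |s.im| := by
      refine le_trans (Complex.norm_le_abs_re_add_abs_im s) ?_
      rw [abs_of_pos (by linarith)]
      linarith
    have hUhalf : U ^ (1 / 2 : ℝ) = 2 + |s.im| := by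
      rw [hU, ← Real.sqrt_eq_rpow, Real.sqrt_sq (by linarith)]
    have hUneg : U ^ (1 / 2 - s.re) ≤ (2 + |s.im|)⁻¹ := by
      calc U ^ (1 / 2 - s.re) ≤ U ^ (-(1 / 2) : ℝ) :=
            Real.rpow_le_rpow_of_exponent_le hU1 (by linarith)
        _ = (2 + |s.im|)⁻¹ := by rw [Real.rpow_neg hU0.le, hUhalf]
    have b1 : ‖r * (((U : ℂ) ^ (1 - s) - 1) / (s - 1))‖ ≤ ‖r‖ * (2 * Real.log (2 + |s.im|)) := by
      rw [norm_mul, norm_div]
      refine mul_le_mul_of_nonneg_left ?_ hr0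
      rw [div_le_iff₀ (norm_pos_iff.2 hs1)]
      refine le_trans (dsp_pow_sub U hU1 (by simp; linarith)) ?_
      rw [hlog, norm_sub_rev]
      apply le_of_eq; ring
    have b2 : ‖s * (∫ u in Set.Ioi U, (dsp_A f u - r * u) * (u : ℂ) ^ (-s - 1))‖ ≤ 2 * C := by
      rw [norm_mul]
      calc ‖s‖ * ‖∫ u in Set.Ioi U, (dsp_A f u - r * u) * (u : ℂ) ^ (-s - 1)‖
          ≤ (2 + |s.im|) * (C * ((2 + |s.im|)⁻¹ / (1 / 2))) := by
            refine mul_le_mul hsn (le_trans hE2 ?_) (norm_nonneg _) (by positivity)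
            refine mul_le_mul_of_nonneg_left ?_ hC0
            exact div_le_div₀ (by positivity) hUneg (by norm_num) (by linarith)
        _ = 2 * C := by
            have : 2 + |s.im| ≠ 0 := by positivity
            field_simp
    have b3 : ‖∑ z ∈ Bl U, f z * (nn z : ℂ) ^ (-s)‖ ≤ C' * (1 + 2 * Real.log (2 + |s.im|)) := by
      rw [← hlog]
      refine le_trans (norm_sum_le _ _) (le_trans (Finset.sum_le_sum fun z hz => ?_) (hC' U hU1))
      rw [mem_Bl] at hz
      have hn : (1 : ℝ) ≤ nn z := by exact_mod_cast nn_pos.2 hz.1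
      rw [norm_mul, dsp_norm_cpow hz.1]
      calc ‖f z‖ * (nn z : ℝ) ^ (-s.re) ≤ 1 * (nn z : ℝ) ^ (-1 : ℝ) := by
            refine mul_le_mul (hb z) ?_ (by positivity) (by norm_num)
            exact Real.rpow_le_rpow_of_exponent_le hn (by linarith)
        _ = 1 / (nn z : ℝ) := by
            rw [Real.rpow_neg_one]; ring
    have b4 : ‖(dsp_A f U - r * U) * (U : ℂ) ^ (-s)‖ ≤ C := by
      rw [norm_mul, Complex.norm_cpow_eq_rpow_re_of_pos hU0]
      calc ‖dsp_A f U - r * U‖ * U ^ (-s).re ≤ (C * U ^ (1 / 2 : ℝ)) * U ^ (-s.re) := by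
            refine mul_le_mul (hEb U hU1) (by simp) (by positivity) (by positivity)
        _ = C * U ^ (1 / 2 - s.re) := by
            rw [mul_assoc, ← Real.rpow_add hU0]
            ring_nf
        _ ≤ C * 1 := by
            refine mul_le_mul_of_nonneg_left (le_trans hUneg ?_) hC0
            exact inv_le_one_of_one_le₀ (by linarith)
        _ = C := mul_one C
    rw [hfin]
    refine le_trans (norm_sub_le _ _) ?_
    refine le_trans (add_le_add (le_trans (norm_add₃_le) (add_le_add (add_le_add b1 b2) b3)) b4) ?_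
    have h9 : 0 ≤ C * Real.log (2 + |s.im|) := mul_nonneg hC0 hlog0
    have h10 : 0 ≤ C' * Real.log (2 + |s.im|) := mul_nonneg (by linarith) hlog0
    rw [hC₂]
    nlinarith
  · -- the case without a pole
    have hAb : ∀ u : ℝ, 1 ≤ u → ‖dsp_A f u‖ ≤ C * u ^ (1 / 2 : ℝ) := by
      intro u hu
      rw [← Real.sqrt_eq_rpow]
      have := hC u hu
      rw [hr, zero_mul, sub_zero] at this
      exact this
    obtain ⟨hI1, _⟩ := dsp_gen _ hmA C (1 / 2) hC0 (s := 1) (by norm_num) 1 le_rfl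
      (fun u hu => hAb u (le_of_lt hu))
    refine ⟨∫ u in Set.Ioi (1 : ℝ), dsp_A f u * (u : ℂ) ^ (-(1 : ℂ) - 1), ?_, ?_⟩
    · have h1 : Tendsto (fun x : ℝ => ∫ u in (1 : ℝ)..x, dsp_A f u * (u : ℂ) ^ (-(1 : ℂ) - 1)) atTop
          (𝓝 (∫ u in Set.Ioi (1 : ℝ), dsp_A f u * (u : ℂ) ^ (-(1 : ℂ) - 1))) :=
        intervalIntegral_tendsto_integral_Ioi 1 hI1 tendsto_id
      have h2 : Tendsto (fun x : ℝ => dsp_A f x / x) atTop (𝓝 0) := by
        refine squeeze_zero_norm' (a := fun x : ℝ => C * x ^ (-(1 / 2) : ℝ)) ?_ ?_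
        · filter_upwards [eventually_ge_atTop (1 : ℝ)] with x hx
          have hx0 : 0 < x := by linarith
          rw [norm_div, Complex.norm_real, Real.norm_eq_abs, abs_of_pos hx0, div_le_iff₀ hx0]
          refine le_trans (hAb x hx) ?_
          rw [mul_assoc]
          refine mul_le_mul_of_nonneg_left (le_of_eq ?_) hC0
          nth_rewrite 3 [← Real.rpow_one x]
          rw [← Real.rpow_add hx0]
          norm_num
        · have := (tendsto_rpow_neg_atTop (y := 1 / 2) (by norm_num)).const_mul C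
          simpa using this
      have h3 := h2.add h1
      rw [zero_add] at h3
      refine h3.congr' ?_
      filter_upwards [eventually_ge_atTop (1 : ℝ)] with x hx
      rw [dsp_finite f x hx]
    · intro s hs hs2 _
      obtain ⟨hJ1, hJ2⟩ := dsp_gen _ hmA C (1 / 2) hC0 (s := s) (by linarith) 1 le_rfl
        (fun u hu => hAb u (le_of_lt hu))
      have hD := (dsp_main f hb hs 1 le_rfl).2
      have hhead : ∑ z ∈ Bl 1, f z * ((nn z : ℂ) ^ (-s) - ((1 : ℝ) : ℂ) ^ (-s)) = 0 := by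
        refine Finset.sum_eq_zero fun z hz => ?_
        rw [mem_Bl] at hz
        have h1 : nn z ≤ 1 := by exact_mod_cast hz.2
        have h2 := nn_pos.2 hz.1
        have h3 : nn z = 1 := by omega
        rw [h3]; simp
      rw [hhead, add_zero] at hD
      set J : ℂ := ∫ u in Set.Ioi (1 : ℝ), dsp_A f u * (u : ℂ) ^ (-s - 1) with hJ
      set I : ℂ := ∫ u in Set.Ioi (1 : ℝ), dsp_A f u * (u : ℂ) ^ (-(1 : ℂ) - 1) with hI
      have h4 : Dsum f s - I = (s - 1) * J + (J - I) := by rw [hD]; ring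
      have h5 : ‖J‖ ≤ 2 * C := by
        refine le_trans hJ2 ?_
        rw [Real.one_rpow]
        have : 1 / (s.re - 1 / 2) ≤ 2 := by
          rw [div_le_iff₀ (by linarith)]; linarith
        calc C * (1 / (s.re - 1 / 2)) ≤ C * 2 := mul_le_mul_of_nonneg_left this hC0
          _ = 2 * C := by ring
      have h6 : J - I = ∫ u in Set.Ioi (1 : ℝ), (dsp_A f u * ((u : ℂ) ^ (1 - s) - 1)) *
          (u : ℂ) ^ (-(1 : ℂ) - 1) := by
        rw [hJ, hI, ← integral_sub hJ1 hI1]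
        refine setIntegral_congr_fun measurableSet_Ioi fun u hu => ?_
        have hu0 : (u : ℂ) ≠ 0 := by
          have : (0 : ℝ) < u := lt_trans one_pos hu
          exact_mod_cast this.ne'
        have h7 : (u : ℂ) ^ (-s - 1) = (u : ℂ) ^ (1 - s) * (u : ℂ) ^ (-(1 : ℂ) - 1) := by
          rw [← Complex.cpow_add _ _ hu0]
          congr 1; ring
        rw [h7]; ring
      have h8 : ‖J - I‖ ≤ 16 * C * ‖s - 1‖ := by
        rw [h6]
        have hmm : Measurable (fun u : ℝ => dsp_A f u * ((u : ℂ) ^ (1 - s) - 1)) :=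
          hmA.mul ((Complex.measurable_ofReal.pow_const _).sub measurable_const)
        have h9 := (dsp_gen _ hmm (4 * C * ‖s - 1‖) (3 / 4) (by positivity) (s := 1)
          (by norm_num) 1 le_rfl (fun u hu => ?_)).2
        · refine le_trans h9 ?_
          rw [Real.one_rpow]
          norm_num
          apply le_of_eq; ring
        · have hu1 : 1 ≤ u := le_of_lt hu
          have hu0 : 0 < u := by linarith
          rw [norm_mul]
          calc ‖dsp_A f u‖ * ‖(u : ℂ) ^ (1 - s) - 1‖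
              ≤ (C * u ^ (1 / 2 : ℝ)) * (‖s - 1‖ * (4 * u ^ (1 / 4 : ℝ))) := by
                refine mul_le_mul (hAb u hu1) ?_ (norm_nonneg _) (by positivity)
                refine le_trans (dsp_pow_sub u hu1 (by simp; linarith)) ?_
                rw [norm_sub_rev]
                refine mul_le_mul_of_nonneg_left ?_ (norm_nonneg _)
                have := Real.log_le_rpow_div hu0.le (ε := 1 / 4) (by norm_num)
                linarith
            _ = 4 * C * ‖s - 1‖ * u ^ (3 / 4 : ℝ) := by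
                have : u ^ (3 / 4 : ℝ) = u ^ (1 / 2 : ℝ) * u ^ (1 / 4 : ℝ) := by
                  rw [← Real.rpow_add hu0]; norm_num
                rw [this]; ring
      rw [h4]
      refine le_trans (norm_add_le _ _) ?_
      rw [norm_mul]
      have h10 : ‖s - 1‖ * ‖J‖ ≤ ‖s - 1‖ * (2 * C) := mul_le_mul_of_nonneg_left h5 (norm_nonneg _)
      have h11 := norm_nonneg (s - 1)
      have h12 : (18 * C) * ‖s - 1‖ ≤ C₂ * ‖s - 1‖ :=
        mul_le_mul_of_nonneg_right (by rw [hC₂]; linarith) h11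
      linarith

end Pool.Agent.T2


namespace Pool.Agent.T2

theorem dsum_periodic : type_of% @dsum_periodic_pr := @dsum_periodic_pr

end Pool.Agent.T2
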