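import Pool.Agent.Lib_helper10.T2.Defs
import Pool.Agent.Lib_helper10.T2F.AGG
import Pool.Agent.Lib_helper10.T2F.BAS
import Pool.Agent.Lib_helper10.T2F.DSP
import Pool.Agent.Lib_helper10.T2F.DSR

/-! T2, block NVR: a real character over the Gaussian integers has nonzero value at one. -/

namespace Pool.Agent.T2

open Filter Topology MeasureTheory Complex Set HurwitzZeta Asymptotics

/-- pairs of integers as Gaussian integers -/
def nvr_equiv : ℤ × ℤ ≃ G where
  toFun p := ⟨p.1, p.2⟩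
  invFun z := (z.re, z.im)
  left_inv p := by simp
  right_inv z := by cases z; rfl

theorem nvr_coset (a b : ℝ) {t : ℝ} (ht : 0 < t) :
    HasSum (fun w : G => Real.exp (-Real.pi * (((w.re : ℝ) + a) ^ 2 + ((w.im : ℝ) + b) ^ 2) * t))
      (evenKernel (a : UnitAddCircle) t * evenKernel (b : UnitAddCircle) t) := by
  have h1 := hasSum_int_evenKernel a ht
  have h2 := hasSum_int_evenKernel b ht
  have h3 : Summable (fun p : ℤ × ℤ => Real.exp (-Real.pi * ((p.1 : ℝ) + a) ^ 2 * t) *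
      Real.exp (-Real.pi * ((p.2 : ℝ) + b) ^ 2 * t)) :=
    Summable.mul_of_nonneg h1.summable h2.summable (fun _ => (Real.exp_pos _).le)
      (fun _ => (Real.exp_pos _).le)
  have h4 := h1.mul h2 h3
  rw [← nvr_equiv.hasSum_iff]
  refine h4.congr_fun ?_
  intro p
  simp only [Function.comp_apply, nvr_equiv, Equiv.coe_fn_mk]
  rw [← Real.exp_add]
  congr 1
  ring

/-- the norm on a coset -/
theorem nvr_norm {m : G} (hm : m ≠ 0) (c w : G) :
    (nn (c + m * w) : ℝ) = (nn m : ℝ) * (((w.re : ℝ) + ((c : ℂ) / (m : ℂ)).re) ^ 2 +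
      ((w.im : ℝ) + ((c : ℂ) / (m : ℂ)).im) ^ 2) := by
  rw [nn_norm, nn_norm]
  have hm' : (m : ℂ) ≠ 0 := by
    intro h
    apply hm
    exact GaussianInt.toComplex_eq_zero.1 h
  have h1 : ((c + m * w : G) : ℂ) = (m : ℂ) * ((w : ℂ) + (c : ℂ) / (m : ℂ)) := by
    rw [GaussianInt.toComplex_add, GaussianInt.toComplex_mul, mul_add, mul_div_cancel₀ _ hm',
      add_comm]
  rw [h1, norm_mul, mul_pow]
  congr 1
  rw [← Complex.normSq_eq_norm_sq, Complex.normSq_apply]
  simp only [Complex.add_re, Complex.add_im, ← GaussianInt.intCast_re, ← GaussianInt.intCast_im]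
  ring

/-- the quotient -/
abbrev nvr_Q (m : G) := G ⧸ (Ideal.span {m} : Ideal G)

theorem nvr_mk_eq {m : G} (z w : G) :
    ((Ideal.Quotient.mk (Ideal.span {m}) z : nvr_Q m) = Ideal.Quotient.mk (Ideal.span {m}) w) ↔
      ∃ u, z = w + m * u := by
  rw [Ideal.Quotient.eq, Ideal.mem_span_singleton]
  constructor
  · rintro ⟨u, hu⟩
    exact ⟨u, by rw [← hu]; ring⟩
  · rintro ⟨u, hu⟩
    exact ⟨u, by rw [hu]; ring⟩

theorem nvr_finite {m : G} (hm : m ≠ 0) : Finite (nvr_Q m) := by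
  have hM : 0 < nn m := nn_pos.2 hm
  have h1 : (m : G) ∣ (nn m : G) := by
    refine ⟨star m, ?_⟩
    apply GaussianInt.toComplex_injective
    rw [GaussianInt.toComplex_mul, GaussianInt.toComplex_star, Complex.mul_conj,
      Complex.normSq_eq_norm_sq, ← nn_norm]
    simp
  refine Finite.of_surjective (fun p : Fin (nn m) × Fin (nn m) =>
    (Ideal.Quotient.mk (Ideal.span {m}) (⟨(p.1 : ℕ), (p.2 : ℕ)⟩ : G) : nvr_Q m)) ?_
  intro q
  obtain ⟨z, rfl⟩ := Ideal.Quotient.mk_surjective q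
  have hMz : (0 : ℤ) < nn m := by exact_mod_cast hM
  have hr := Int.emod_nonneg z.re hMz.ne'
  have hi := Int.emod_nonneg z.im hMz.ne'
  have hr2 := Int.emod_lt_of_pos z.re hMz
  have hi2 := Int.emod_lt_of_pos z.im hMz
  refine ⟨(⟨(z.re % nn m).toNat, by omega⟩, ⟨(z.im % nn m).toNat, by omega⟩), ?_⟩
  simp only
  rw [Ideal.Quotient.eq, Ideal.mem_span_singleton]
  refine h1.trans ?_
  refine ⟨⟨-(z.re / nn m), -(z.im / nn m)⟩, ?_⟩
  have e1 := Int.emod_add_mul_ediv z.re (nn m)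
  have e2 := Int.emod_add_mul_ediv z.im (nn m)
  rw [Zsqrtd.ext_iff]
  constructor
  · simp [Int.toNat_of_nonneg hr]
    linarith
  · simp [Int.toNat_of_nonneg hi]
    linarith

open Classical in
theorem nvr_theta {m : G} (hm : m ≠ 0) [Fintype (nvr_Q m)] (f : G → ℂ)
    (hf : ∀ z w, f (z + m * w) = f z) {t : ℝ} (ht : 0 < t) :
    HasSum (fun z : G => f z * (Real.exp (-Real.pi * (nn z : ℝ) * t) : ℝ))
      (∑ q : nvr_Q m, f (Quotient.out q) *
        ((evenKernel ((((Quotient.out q : G) : ℂ) / (m : ℂ)).re : UnitAddCircle) (nn m * t) *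
        evenKernel ((((Quotient.out q : G) : ℂ) / (m : ℂ)).im : UnitAddCircle) (nn m * t) : ℝ)
          : ℂ)) := by
  have hM : (0 : ℝ) < nn m := by exact_mod_cast nn_pos.2 hm
  have key : ∀ q : nvr_Q m, HasSum (fun z : G => if (Ideal.Quotient.mk (Ideal.span {m}) z : nvr_Q m)
      = q then f z * (Real.exp (-Real.pi * (nn z : ℝ) * t) : ℝ) else 0)
      (f (Quotient.out q) *
        ((evenKernel ((((Quotient.out q : G) : ℂ) / (m : ℂ)).re : UnitAddCircle) (nn m * t) *
        evenKernel ((((Quotient.out q : G) : ℂ) / (m : ℂ)).im : UnitAddCircle) (nn m * t) : ℝ)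
          : ℂ)) := by
    intro q
    set c : G := Quotient.out q with hc
    have hq : (Ideal.Quotient.mk (Ideal.span {m}) c : nvr_Q m) = q := Quotient.out_eq q
    have hinj : Function.Injective (fun w : G => c + m * w) := by
      intro u v huv
      simp only [add_right_inj] at huv
      exact mul_left_cancel₀ hm huv
    rw [← hinj.hasSum_iff]
    · have h1 := (hasSum_ofReal.2 (nvr_coset (((c : ℂ) / (m : ℂ)).re) (((c : ℂ) / (m : ℂ)).im)
        (mul_pos hM ht))).mul_left (f c)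
      refine h1.congr_fun ?_
      intro w
      simp only [Function.comp_apply]
      rw [if_pos (by rw [← hq, nvr_mk_eq]; exact ⟨w, rfl⟩), hf, nvr_norm hm]
      congr 3
      ring
    · intro z hz
      rw [if_neg]
      intro h
      apply hz
      rw [← hq, nvr_mk_eq] at h
      obtain ⟨u, hu⟩ := h
      exact ⟨u, hu.symm⟩
  have h2 := hasSum_sum (s := Finset.univ) (fun q _ => key q)
  refine h2.congr_fun ?_
  intro z
  rw [Finset.sum_ite_eq]
  simp

theorem nvr_prod_bigO {A B : ℝ → ℝ} {a b p q : ℝ} (hp : 0 < p) (hq : 0 < q)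
    (hA : (fun t => A t - a) =O[atTop] fun t => Real.exp (-p * t))
    (hB : (fun t => B t - b) =O[atTop] fun t => Real.exp (-q * t)) (r : ℝ) :
    (fun t => A t * B t - a * b) =O[atTop] fun t : ℝ => t ^ r := by
  have h1 : ∀ r : ℝ, (fun t => A t - a) =O[atTop] fun t : ℝ => t ^ r := fun r =>
    hA.trans (isLittleO_exp_neg_mul_rpow_atTop hp r).isBigO
  have h2 : ∀ r : ℝ, (fun t => B t - b) =O[atTop] fun t : ℝ => t ^ r := fun r =>
    hB.trans (isLittleO_exp_neg_mul_rpow_atTop hq r).isBigO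
  have h3 : (fun t => (A t - a) * (B t - b)) =O[atTop] fun t : ℝ => t ^ r := by
    have h := (h1 r).mul (h2 0)
    refine h.congr' (Eventually.of_forall fun _ => rfl) ?_
    filter_upwards with t
    simp
  have h4 := ((h2 r).const_mul_left a)
  have h5 := ((h1 r).const_mul_left b)
  refine ((h3.add h4).add h5).congr' ?_ (Eventually.of_forall fun _ => rfl)
  filter_upwards with t
  ring

theorem nvr_even_bigO (a : UnitAddCircle) {n : ℝ} (hn : 0 < n) : ∃ p : ℝ, 0 < p ∧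
    (fun t : ℝ => evenKernel a (n * t) - (if a = 0 then 1 else 0)) =O[atTop]
      fun t => Real.exp (-p * t) := by
  obtain ⟨p, hp, h⟩ := isBigO_atTop_evenKernel_sub a
  refine ⟨p * n, mul_pos hp hn, ?_⟩
  have h2 : Tendsto (fun t : ℝ => n * t) atTop atTop := tendsto_id.const_mul_atTop hn
  refine (h.comp_tendsto h2).congr' (Eventually.of_forall fun _ => rfl) ?_
  filter_upwards with t
  simp only [Function.comp_apply]
  congr 1
  ring

theorem nvr_cos_bigO (a : UnitAddCircle) {n : ℝ} (hn : 0 < n) : ∃ p : ℝ, 0 < p ∧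
    (fun t : ℝ => cosKernel a (t / n) - 1) =O[atTop] fun t => Real.exp (-p * t) := by
  obtain ⟨p, hp, h⟩ := isBigO_atTop_cosKernel_sub a
  refine ⟨p / n, div_pos hp hn, ?_⟩
  have h2 : Tendsto (fun t : ℝ => t / n) atTop atTop := tendsto_id.atTop_div_const hn
  refine (h.comp_tendsto h2).congr' (Eventually.of_forall fun _ => rfl) ?_
  filter_upwards with t
  simp only [Function.comp_apply]
  congr 1
  ring

/-- the real part of the representative divided by the modulus, modulo one -/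
noncomputable def nvr_al {m : G} (q : nvr_Q m) : UnitAddCircle :=
  ((((Quotient.out q : G) : ℂ) / (m : ℂ)).re : ℝ)

/-- the imaginary part of the representative divided by the modulus, modulo one -/
noncomputable def nvr_be {m : G} (q : nvr_Q m) : UnitAddCircle :=
  ((((Quotient.out q : G) : ℂ) / (m : ℂ)).im : ℝ)

open Classical in
theorem nvr_ind {m : G} (hm : m ≠ 0) (q : nvr_Q m) :
    ((if nvr_al q = 0 then 1 else 0 : ℝ) * (if nvr_be q = 0 then 1 else 0 : ℝ)) =
      if q = 0 then 1 else 0 := by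
  have hm' : (m : ℂ) ≠ 0 := by
    intro h
    exact hm (GaussianInt.toComplex_eq_zero.1 h)
  set c : G := Quotient.out q with hc
  have hq : (Ideal.Quotient.mk (Ideal.span {m}) c : nvr_Q m) = q := Quotient.out_eq q
  have h1 : (nvr_al q = 0 ∧ nvr_be q = 0) ↔ q = 0 := by
    unfold nvr_al nvr_be
    rw [← hc, AddCircle.coe_eq_zero_iff, AddCircle.coe_eq_zero_iff]
    constructor
    · rintro ⟨⟨k, hk⟩, ⟨l, hl⟩⟩
      rw [← hq, Ideal.Quotient.eq_zero_iff_mem, Ideal.mem_span_singleton]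
      refine ⟨⟨k, l⟩, ?_⟩
      apply GaussianInt.toComplex_injective
      rw [GaussianInt.toComplex_mul]
      have h3 : (c : ℂ) / (m : ℂ) = ((⟨k, l⟩ : G) : ℂ) := by
        apply Complex.ext
        · rw [← hk, GaussianInt.re_toComplex]
          simp
        · rw [← hl, GaussianInt.im_toComplex]
          simp
      rw [← h3, mul_div_cancel₀ _ hm']
    · intro h
      rw [← hq, Ideal.Quotient.eq_zero_iff_mem, Ideal.mem_span_singleton] at h
      obtain ⟨u, hu⟩ := h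
      have h3 : (c : ℂ) / (m : ℂ) = (u : ℂ) := by
        rw [hu, GaussianInt.toComplex_mul, mul_div_cancel_left₀ _ hm']
      rw [h3]
      exact ⟨⟨u.re, by simp [GaussianInt.intCast_re]⟩, ⟨u.im, by simp [GaussianInt.intCast_im]⟩⟩
  by_cases ha : nvr_al q = 0
  · by_cases hb : nvr_be q = 0
    · rw [if_pos ha, if_pos hb, if_pos (h1.1 ⟨ha, hb⟩), mul_one]
    · rw [if_pos ha, if_neg hb, if_neg (fun h => hb (h1.2 h).2), mul_zero]
  · rw [if_neg ha, if_neg (fun h => ha (h1.2 h).1), zero_mul]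

/-- the pair of theta functions -/
noncomputable def nvr_pair {m : G} (hm : m ≠ 0) [Fintype (nvr_Q m)] (f : G → ℂ) :
    WeakFEPair ℂ where
  f := fun t => ∑ q : nvr_Q m, f (Quotient.out q) *
    ((evenKernel (nvr_al q) (nn m * t) * evenKernel (nvr_be q) (nn m * t) : ℝ) : ℂ)
  g := fun t => ∑ q : nvr_Q m, f (Quotient.out q) * (1 / (nn m : ℂ)) *
    ((cosKernel (nvr_al q) (t / nn m) * cosKernel (nvr_be q) (t / nn m) : ℝ) : ℂ)
  k := 1
  hk := one_pos
  ε := 1
  hε := one_ne_zero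
  f₀ := ∑ q : nvr_Q m, f (Quotient.out q) *
    (((if nvr_al q = 0 then 1 else 0) * (if nvr_be q = 0 then 1 else 0) : ℝ) : ℂ)
  g₀ := ∑ q : nvr_Q m, f (Quotient.out q) * (1 / (nn m : ℂ)) * ((1 * 1 : ℝ) : ℂ)
  hf_int := by
    have hM : (0 : ℝ) < nn m := by exact_mod_cast nn_pos.2 hm
    refine ContinuousOn.locallyIntegrableOn ?_ measurableSet_Ioi
    refine continuousOn_finsetSum _ (fun q _ => ContinuousOn.mul continuousOn_const ?_)
    refine continuous_ofReal.comp_continuousOn ?_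
    have h1 : MapsTo (fun t : ℝ => (nn m : ℝ) * t) (Ioi 0) (Ioi 0) := fun t ht => mul_pos hM ht
    have h2 : ContinuousOn (fun t : ℝ => (nn m : ℝ) * t) (Ioi 0) := by fun_prop
    exact ((continuousOn_evenKernel _).comp h2 h1).mul ((continuousOn_evenKernel _).comp h2 h1)
  hg_int := by
    have hM : (0 : ℝ) < nn m := by exact_mod_cast nn_pos.2 hm
    refine ContinuousOn.locallyIntegrableOn ?_ measurableSet_Ioi
    refine continuousOn_finsetSum _ (fun q _ => ContinuousOn.mul continuousOn_const ?_)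
    refine continuous_ofReal.comp_continuousOn ?_
    have h1 : MapsTo (fun t : ℝ => t / (nn m : ℝ)) (Ioi 0) (Ioi 0) := fun t ht => div_pos ht hM
    have h2 : ContinuousOn (fun t : ℝ => t / (nn m : ℝ)) (Ioi 0) := by fun_prop
    exact ((continuousOn_cosKernel _).comp h2 h1).mul ((continuousOn_cosKernel _).comp h2 h1)
  h_feq := by
    intro x hx
    have hx : (0 : ℝ) < x := hx
    have hM : (0 : ℝ) < nn m := by exact_mod_cast nn_pos.2 hm
    rw [smul_eq_mul, Finset.mul_sum]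
    refine Finset.sum_congr rfl (fun q _ => ?_)
    rw [evenKernel_functional_equation (nvr_al q), evenKernel_functional_equation (nvr_be q)]
    have h1 : 1 / ((nn m : ℝ) * (1 / x)) = x / nn m := by
      field_simp
    have h2 : (1 / ((nn m : ℝ) * (1 / x)) ^ (1 / 2 : ℝ)) * (1 / ((nn m : ℝ) * (1 / x)) ^ (1 / 2 : ℝ))
        = x * (1 / nn m) := by
      rw [div_mul_div_comm, one_mul, ← Real.rpow_add (by positivity)]
      norm_num
    rw [h1, mul_mul_mul_comm, h2]
    push_cast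
    rw [Real.rpow_one]
    ring
  hf_top := by
    intro r
    have hM : (0 : ℝ) < nn m := by exact_mod_cast nn_pos.2 hm
    have h1 : ∀ q : nvr_Q m, (fun t : ℝ => f (Quotient.out q) *
        ((evenKernel (nvr_al q) (nn m * t) * evenKernel (nvr_be q) (nn m * t) -
          (if nvr_al q = 0 then 1 else 0) * (if nvr_be q = 0 then 1 else 0) : ℝ) : ℂ)) =O[atTop]
          fun t : ℝ => t ^ r := by
      intro q
      obtain ⟨p, hp, h⟩ := nvr_even_bigO (nvr_al q) hM
      obtain ⟨p', hp', h'⟩ := nvr_even_bigO (nvr_be q) hM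
      exact (isBigO_ofReal_left.2 (nvr_prod_bigO hp hp' h h' r)).const_mul_left _
    refine (IsBigO.sum (s := Finset.univ) (fun q _ => h1 q)).congr' ?_
      (Eventually.of_forall fun _ => rfl)
    filter_upwards with t
    simp only [Finset.sum_apply]
    rw [← Finset.sum_sub_distrib]
    refine Finset.sum_congr rfl (fun q _ => ?_)
    push_cast
    ring
  hg_top := by
    intro r
    have hM : (0 : ℝ) < nn m := by exact_mod_cast nn_pos.2 hm
    have h1 : ∀ q : nvr_Q m, (fun t : ℝ => f (Quotient.out q) * (1 / (nn m : ℂ)) *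
        ((cosKernel (nvr_al q) (t / nn m) * cosKernel (nvr_be q) (t / nn m) -
          1 * 1 : ℝ) : ℂ)) =O[atTop] fun t : ℝ => t ^ r := by
      intro q
      obtain ⟨p, hp, h⟩ := nvr_cos_bigO (nvr_al q) hM
      obtain ⟨p', hp', h'⟩ := nvr_cos_bigO (nvr_be q) hM
      exact (isBigO_ofReal_left.2 (nvr_prod_bigO hp hp' h h' r)).const_mul_left _
    refine (IsBigO.sum (s := Finset.univ) (fun q _ => h1 q)).congr' ?_
      (Eventually.of_forall fun _ => rfl)
    filter_upwards with t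
    simp only [Finset.sum_apply]
    rw [← Finset.sum_sub_distrib]
    refine Finset.sum_congr rfl (fun q _ => ?_)
    push_cast
    ring

theorem nvr_out {m : G} (f : G → ℂ) (hf : ∀ z w, f (z + m * w) = f z) (z : G) :
    f (Quotient.out (Ideal.Quotient.mk (Ideal.span {m}) z : nvr_Q m)) = f z := by
  have h : (Ideal.Quotient.mk (Ideal.span {m})
      (Quotient.out (Ideal.Quotient.mk (Ideal.span {m}) z : nvr_Q m)) : nvr_Q m) =
      Ideal.Quotient.mk (Ideal.span {m}) z := Quotient.out_eq _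
  rw [nvr_mk_eq] at h
  obtain ⟨u, hu⟩ := h
  rw [hu, hf]

theorem nvr_f0 {m : G} (hm : m ≠ 0) [Fintype (nvr_Q m)] (f : G → ℂ)
    (hf : ∀ z w, f (z + m * w) = f z) : (nvr_pair hm f).f₀ = f 0 := by
  classical
  unfold nvr_pair
  simp only
  have h1 : ∀ q : nvr_Q m, f (Quotient.out q) *
    (((if nvr_al q = 0 then 1 else 0) * (if nvr_be q = 0 then 1 else 0) : ℝ) : ℂ) =
      if q = 0 then f (Quotient.out q) else 0 := by
    intro q
    have h2 := nvr_ind hm q
    by_cases hq : q = 0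
    · rw [if_pos hq] at h2 ⊢
      have h3 : (((if nvr_al q = 0 then 1 else 0) * (if nvr_be q = 0 then 1 else 0) : ℝ) : ℂ) =
          1 := by
        rw [← ofReal_one]
        congr 1
      rw [h3, mul_one]
    · rw [if_neg hq] at h2 ⊢
      have h3 : (((if nvr_al q = 0 then 1 else 0) * (if nvr_be q = 0 then 1 else 0) : ℝ) : ℂ) =
          0 := by
        rw [← ofReal_zero]
        congr 1
      rw [h3, mul_zero]
  rw [Finset.sum_congr rfl (fun q _ => h1 q), Finset.sum_ite_eq']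
  simp only [Finset.mem_univ, if_true]
  have h4 := nvr_out (m := m) f hf 0
  rwa [map_zero] at h4

theorem nvr_hasSum {m : G} (hm : m ≠ 0) [Fintype (nvr_Q m)] (f : G → ℂ)
    (hf : ∀ z w, f (z + m * w) = f z) {t : ℝ} (ht : 0 < t) :
    HasSum (fun z : G => if (nn z : ℝ) = 0 then 0 else
      f z * (Real.exp (-Real.pi * (nn z : ℝ) * t) : ℝ))
      ((nvr_pair hm f).f t - (nvr_pair hm f).f₀) := by
  classical
  rw [nvr_f0 hm f hf]
  have h1 := nvr_theta hm f hf ht
  have h2 := h1.sub (hasSum_ite_eq (0 : G) (f 0))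
  refine h2.congr_fun ?_
  intro z
  by_cases hz : z = 0
  · rw [if_pos (by rw [hz]; simp [nn]), if_pos hz, hz]
    simp [nn]
  · have h3 : 0 < nn z := nn_pos.2 hz
    rw [if_neg (by exact_mod_cast h3.ne'), if_neg hz, sub_zero]

theorem nvr_mellin {m : G} (hm : m ≠ 0) [Fintype (nvr_Q m)] (f : G → ℂ)
    (hf : ∀ z w, f (z + m * w) = f z) (hb : ∀ z, ‖f z‖ ≤ 1) {s : ℂ} (hs : 1 < s.re) :
    (Real.pi : ℂ) ^ (-s) * Complex.Gamma s * Dsum f s = (nvr_pair hm f).Λ s := by
  have hs0 : 0 < s.re := by linarith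
  have hs1 : s ≠ 0 := by
    intro h
    rw [h] at hs0
    simp at hs0
  have h1 := (nvr_pair hm f).hasMellin (s := s) hs
  have : Countable G := nvr_equiv.symm.injective.countable
  have hsum := (dsum_summable hb hs).1
  have h2 := hasSum_mellin_pi_mul₀ (a := f) (p := fun z => (nn z : ℝ))
    (F := fun t => (nvr_pair hm f).f t - (nvr_pair hm f).f₀) (s := s)
    (fun z => Nat.cast_nonneg _) hs0 (fun t ht => nvr_hasSum hm f hf ht) ?_
  · rw [h1.2] at h2
    rw [← h2.tsum_eq, Dsum, ← tsum_mul_left]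
    refine tsum_congr (fun z => ?_)
    rw [cpow_neg ((nn z : ℕ) : ℂ) s, div_eq_mul_inv]
    push_cast
    ring
  · refine hsum.congr (fun z => ?_)
    rcases Nat.eq_zero_or_pos (nn z) with h | h
    · rw [h]
      simp [Real.zero_rpow hs0.ne', zero_cpow (neg_ne_zero.2 hs1)]
    · rw [norm_mul]
      have h3 : ‖((nn z : ℕ) : ℂ) ^ (-s)‖ = (nn z : ℝ) ^ (-s.re) := by
        rw [norm_natCast_cpow_of_pos h, neg_re]
      rw [h3, Real.rpow_neg (Nat.cast_nonneg _)]
      rfl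

/-- the continuation times `s - 1` -/
noncomputable def nvr_E {m : G} (hm : m ≠ 0) [Fintype (nvr_Q m)] (f : G → ℂ) (s : ℂ) : ℂ :=
  (Real.pi : ℂ) ^ s * ((s - 1) * (Complex.Gamma s)⁻¹ * (nvr_pair hm f).Λ₀ s -
    (s - 1) * (nvr_pair hm f).f₀ * (Complex.Gamma (s + 1))⁻¹ +
      (nvr_pair hm f).g₀ * (Complex.Gamma s)⁻¹)

theorem nvr_pi_diff : Differentiable ℂ (fun s : ℂ => (Real.pi : ℂ) ^ s) := by
  intro s
  exact (differentiableAt_id).const_cpow (Or.inl (ofReal_ne_zero.2 Real.pi_ne_zero))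

theorem nvr_E_diff {m : G} (hm : m ≠ 0) [Fintype (nvr_Q m)] (f : G → ℂ) :
    Differentiable ℂ (nvr_E hm f) := by
  have h1 := (nvr_pair hm f).differentiable_Λ₀
  have h2 : Differentiable ℂ (fun s : ℂ => (Complex.Gamma s)⁻¹) := differentiable_one_div_Gamma
  have h3 : Differentiable ℂ (fun s : ℂ => (Complex.Gamma (s + 1))⁻¹) :=
    h2.comp (differentiable_id.add_const 1)
  have h0 := nvr_pi_diff
  have h4 : Differentiable ℂ (fun s : ℂ => s - 1) := differentiable_id.sub_const 1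
  exact h0.mul ((((h4.mul h2).mul h1).sub ((h4.mul_const _).mul h3)).add (h2.const_mul _))

theorem nvr_E_eq {m : G} (hm : m ≠ 0) [Fintype (nvr_Q m)] (f : G → ℂ)
    (hf : ∀ z w, f (z + m * w) = f z) (hb : ∀ z, ‖f z‖ ≤ 1) {s : ℂ} (hs : 1 < s.re) :
    nvr_E hm f s = (s - 1) * Dsum f s := by
  have hs0 : 0 < s.re := by linarith
  have hs1 : s ≠ 0 := by
    intro h
    rw [h] at hs0
    simp at hs0
  have hs2 : s - 1 ≠ 0 := by
    intro h
    rw [sub_eq_zero] at h
    rw [h] at hs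
    simp at hs
  have hs3 : 1 - s ≠ 0 := by
    intro h
    apply hs2
    linear_combination -h
  have h1 := nvr_mellin hm f hf hb hs
  have hG : Complex.Gamma s ≠ 0 := Gamma_ne_zero_of_re_pos hs0
  have hpi : (Real.pi : ℂ) ≠ 0 := ofReal_ne_zero.2 Real.pi_ne_zero
  have hp : (Real.pi : ℂ) ^ s ≠ 0 := by
    rw [Ne, cpow_eq_zero_iff]
    exact fun h => hpi h.1
  have h2 : Dsum f s = (Real.pi : ℂ) ^ s * (Complex.Gamma s)⁻¹ * (nvr_pair hm f).Λ s := by
    rw [← h1, cpow_neg]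
    field_simp
  rw [h2, nvr_E, Gamma_add_one s hs1]
  have h3 : (nvr_pair hm f).Λ s = (nvr_pair hm f).Λ₀ s - (1 / s) * (nvr_pair hm f).f₀ -
      (1 / (1 - s)) * (nvr_pair hm f).g₀ := by
    rw [WeakFEPair.Λ]
    simp only [smul_eq_mul]
    have h4 : ((nvr_pair hm f).k : ℂ) = 1 := by
      show ((1 : ℝ) : ℂ) = 1
      simp
    have h5 : (nvr_pair hm f).ε = 1 := rfl
    rw [h4, h5]
  rw [h3]
  field_simp
  ring

theorem nvr_E_neg {m : G} (hm : m ≠ 0) [Fintype (nvr_Q m)] (f : G → ℂ) :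
    nvr_E hm f (-1) = 0 := by
  have h1 : Complex.Gamma (-1) = 0 := by
    have := Complex.Gamma_neg_nat_eq_zero 1
    simpa using this
  rw [nvr_E, h1, neg_add_cancel, Complex.Gamma_zero]
  simp

/-- the continuation if both constants vanish -/
noncomputable def nvr_L {m : G} (hm : m ≠ 0) [Fintype (nvr_Q m)] (f : G → ℂ) (s : ℂ) : ℂ :=
  (Real.pi : ℂ) ^ s * (Complex.Gamma s)⁻¹ * (nvr_pair hm f).Λ₀ s

theorem nvr_L_diff {m : G} (hm : m ≠ 0) [Fintype (nvr_Q m)] (f : G → ℂ) :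
    Differentiable ℂ (nvr_L hm f) := by
  have h1 := (nvr_pair hm f).differentiable_Λ₀
  have h2 : Differentiable ℂ (fun s : ℂ => (Complex.Gamma s)⁻¹) := differentiable_one_div_Gamma
  exact (nvr_pi_diff.mul h2).mul h1

theorem nvr_L_eq {m : G} (hm : m ≠ 0) [Fintype (nvr_Q m)] (f : G → ℂ)
    (hf : ∀ z w, f (z + m * w) = f z) (hb : ∀ z, ‖f z‖ ≤ 1) (h0 : (nvr_pair hm f).f₀ = 0)
    (h0' : (nvr_pair hm f).g₀ = 0) {s : ℂ} (hs : 1 < s.re) :
    nvr_L hm f s = Dsum f s := by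
  have hs2 : s - 1 ≠ 0 := by
    intro h
    rw [sub_eq_zero] at h
    rw [h] at hs
    simp at hs
  have h1 := nvr_E_eq hm f hf hb hs
  apply mul_left_cancel₀ hs2
  rw [← h1, nvr_E, h0, h0', nvr_L]
  ring

theorem nvr_g0 {m : G} (hm : m ≠ 0) [Fintype (nvr_Q m)] (χ : MChar m)
    (hn : ∃ z, χ.f z = -1) : (nvr_pair hm χ.f).g₀ = 0 := by
  classical
  obtain ⟨z0, hz0⟩ := hn
  have hcop : IsCoprime z0 m := by
    by_contra h
    rw [χ.zero z0 h] at hz0
    norm_num at hz0
  have hu : IsUnit (Ideal.Quotient.mk (Ideal.span {m}) z0 : nvr_Q m) := by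
    obtain ⟨a, b, hab⟩ := hcop
    refine IsUnit.of_mul_eq_one (Ideal.Quotient.mk (Ideal.span {m}) a) ?_
    rw [← map_mul, ← map_one (Ideal.Quotient.mk (Ideal.span {m})), nvr_mk_eq]
    exact ⟨-b, by linear_combination hab⟩
  obtain ⟨u, hu⟩ := hu
  have h1 : ∑ q : nvr_Q m, χ.f (Quotient.out q) =
      ∑ q : nvr_Q m, χ.f (Quotient.out (Units.mulLeft u q)) :=
    (Equiv.sum_comp (Units.mulLeft u) (fun q : nvr_Q m => χ.f (Quotient.out q))).symm
  have h2 : ∀ q : nvr_Q m, χ.f (Quotient.out (Units.mulLeft u q)) =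
      - χ.f (Quotient.out q) := by
    intro q
    have h3 : (Units.mulLeft u q : nvr_Q m) =
        Ideal.Quotient.mk (Ideal.span {m}) (z0 * Quotient.out q) := by
      rw [map_mul, ← hu]
      have h4 : (Ideal.Quotient.mk (Ideal.span {m}) (Quotient.out q) : nvr_Q m) = q :=
        Quotient.out_eq q
      rw [h4]
      rfl
    rw [h3, nvr_out χ.f χ.per, χ.mul, hz0]
    ring
  have h5 : ∑ q : nvr_Q m, χ.f (Quotient.out q) = 0 := by
    rw [Finset.sum_congr rfl (fun q _ => h2 q), Finset.sum_neg_distrib] at h1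
    linear_combination h1 / 2
  show ∑ q : nvr_Q m, χ.f (Quotient.out q) * (1 / (nn m : ℂ)) * ((1 * 1 : ℝ) : ℂ) = 0
  rw [← Finset.sum_mul, ← Finset.sum_mul, h5]
  ring

theorem nvr_chi0 {m : G} (χ : MChar m) (hn : ∃ z, χ.f z = -1) : χ.f 0 = 0 := by
  apply χ.zero
  intro h
  rw [isCoprime_zero_left] at h
  obtain ⟨z0, hz0⟩ := hn
  obtain ⟨w, hw⟩ := h.exists_right_inv
  have h1 := χ.per 1 (w * (z0 - 1))
  have h2 : 1 + m * (w * (z0 - 1)) = z0 := by
    rw [← mul_assoc, hw]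
    ring
  rw [h2, hz0, χ.one] at h1
  norm_num at h1

theorem nvr_bd {m : G} (χ : MChar m) (z : G) : ‖χ.f z‖ ≤ 1 := by
  by_cases h : IsCoprime z m
  · rw [χ.nrm z h]
  · rw [χ.zero z h]
    simp

theorem nvr_units {z : G} (hz : nn z = 1) : z = 1 ∨ z = -1 ∨ z = ui ∨ z = -ui := by
  have h := nn_cast z
  rw [hz] at h
  push_cast at h
  have h1 : z.re ^ 2 ≤ 1 := by nlinarith [sq_nonneg z.im]
  have h2 : z.im ^ 2 ≤ 1 := by nlinarith [sq_nonneg z.re]
  have h3 : -1 ≤ z.re ∧ z.re ≤ 1 := by constructor <;> nlinarith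
  have h4 : -1 ≤ z.im ∧ z.im ≤ 1 := by constructor <;> nlinarith
  obtain ⟨h3a, h3b⟩ := h3
  obtain ⟨h4a, h4b⟩ := h4
  obtain ⟨a, b⟩ := z
  simp only at *
  interval_cases a <;> interval_cases b <;>
    first
      | (exfalso; omega)
      | exact Or.inl rfl
      | exact Or.inr (Or.inl rfl)
      | exact Or.inr (Or.inr (Or.inl rfl))
      | exact Or.inr (Or.inr (Or.inr rfl))

theorem nvr_chi_unit {m : G} (χ : MChar m) (hi : χ.f ui = 1) {z : G} (hz : nn z = 1) :
    χ.f z = 1 := by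
  have h1 : χ.f (-1) = 1 := by
    have : (-1 : G) = ui * ui := by
      rw [Zsqrtd.ext_iff]
      simp [ui]
    rw [this, χ.mul, hi, one_mul]
  rcases nvr_units hz with h | h | h | h
  · rw [h, χ.one]
  · rw [h, h1]
  · rw [h, hi]
  · have : -ui = (-1 : G) * ui := by ring
    rw [h, this, χ.mul, hi, h1, one_mul]

theorem nvr_unit_iff {z : G} : IsUnit z ↔ nn z = 1 := by
  constructor
  · intro h
    obtain ⟨w, hw⟩ := h.exists_right_inv
    have h1 : nn z * nn w = nn 1 := by rw [← nn_mul, hw]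
    have h2 : nn (1 : G) = 1 := by simp [nn]
    rw [h2] at h1
    exact Nat.eq_one_of_mul_eq_one_right h1
  · intro h
    rcases nvr_units h with h | h | h | h
    · rw [h]; exact isUnit_one
    · rw [h]; exact isUnit_one.neg
    · rw [h]
      refine IsUnit.of_mul_eq_one (-ui) ?_
      rw [Zsqrtd.ext_iff]
      simp [ui]
    · rw [h]
      refine IsUnit.of_mul_eq_one ui ?_
      rw [Zsqrtd.ext_iff]
      simp [ui]

open Classical in
/-- divisors -/
noncomputable def nvr_D (z : G) : Finset G := (Bl (nn z)).filter (fun d => d ∣ z)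

theorem nvr_mem_D {z d : G} (hz : z ≠ 0) : d ∈ nvr_D z ↔ d ∣ z := by
  classical
  unfold nvr_D
  rw [Finset.mem_filter, mem_Bl]
  constructor
  · exact fun h => h.2
  · intro h
    refine ⟨⟨?_, ?_⟩, h⟩
    · rintro rfl
      exact hz (zero_dvd_iff.1 h)
    · obtain ⟨w, rfl⟩ := h
      rw [nn_mul]
      have hw : w ≠ 0 := right_ne_zero_of_mul hz
      have h1 : 0 < nn w := nn_pos.2 hw
      exact_mod_cast Nat.le_mul_of_pos_right _ h1

theorem nvr_D_mul {π w : G} (hπ : Prime π) (hw : w ≠ 0) (hd : ¬ π ∣ w) (j : ℕ) (f : G → ℂ)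
    (hf : ∀ z w, f (z * w) = f z * f w) (h1 : f 1 = 1) :
    ∑ d ∈ nvr_D (π ^ j * w), f d = (∑ i ∈ Finset.range (j + 1), f π ^ i) * ∑ d ∈ nvr_D w, f d := by
  classical
  have hpow : ∀ i : ℕ, f (π ^ i) = f π ^ i := by
    intro i
    induction i with
    | zero => simp [h1]
    | succ n ih => rw [pow_succ, hf, ih, pow_succ]
  have hz : π ^ j * w ≠ 0 := mul_ne_zero (pow_ne_zero _ hπ.ne_zero) hw
  have hpd : ∀ d, d ∣ w → ¬ π ∣ d := fun d h1 h2 => hd (h2.trans h1)
  rw [Finset.sum_mul_sum, ← Finset.sum_product']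
  symm
  refine Finset.sum_bij (fun p _ => π ^ p.1 * p.2) ?_ ?_ ?_ ?_
  · rintro ⟨i, d⟩ hp
    rw [Finset.mem_product, Finset.mem_range, nvr_mem_D hw] at hp
    rw [nvr_mem_D hz]
    exact mul_dvd_mul (pow_dvd_pow _ (by omega)) hp.2
  · rintro ⟨i, d⟩ hp ⟨i', d'⟩ hp' heq
    rw [Finset.mem_product, Finset.mem_range, nvr_mem_D hw] at hp hp'
    simp only at hp hp' heq
    have hii : i = i' := by
      rcases lt_trichotomy i i' with h | h | h
      · exfalso
        obtain ⟨k, rfl⟩ := Nat.exists_eq_add_of_lt h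
        rw [show i + k + 1 = i + (k + 1) by ring, pow_add, mul_assoc] at heq
        have h2 := mul_left_cancel₀ (pow_ne_zero _ hπ.ne_zero) heq
        apply hpd d hp.2
        rw [h2]
        exact Dvd.dvd.mul_right (dvd_pow_self _ (by omega)) _
      · exact h
      · exfalso
        obtain ⟨k, rfl⟩ := Nat.exists_eq_add_of_lt h
        rw [show i' + k + 1 = i' + (k + 1) by ring, pow_add, mul_assoc] at heq
        have h2 := mul_left_cancel₀ (pow_ne_zero _ hπ.ne_zero) heq.symm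
        apply hpd d' hp'.2
        rw [h2]
        exact Dvd.dvd.mul_right (dvd_pow_self _ (by omega)) _
    subst hii
    have h2 := mul_left_cancel₀ (pow_ne_zero _ hπ.ne_zero) heq
    rw [h2]
  · intro v hv
    rw [nvr_mem_D hz] at hv
    obtain ⟨d₁, d₂, hd₁, hd₂, rfl⟩ := exists_dvd_and_dvd_of_dvd_mul hv
    rw [dvd_prime_pow hπ] at hd₁
    obtain ⟨i, hi, hass⟩ := hd₁
    obtain ⟨u, hu⟩ := hass.symm
    refine ⟨(i, u * d₂), ?_, ?_⟩
    · rw [Finset.mem_product, Finset.mem_range, nvr_mem_D hw]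
      refine ⟨by simp only; omega, ?_⟩
      simp only
      exact (Units.mul_left_dvd).2 hd₂
    · simp only
      rw [← mul_assoc, hu]
  · rintro ⟨i, d⟩ _
    simp only
    rw [hf, hpow]

open scoped ComplexOrder in
theorem nvr_r_nonneg {m : G} (χ : MChar m) (hi : χ.f ui = 1)
    (hr : ∀ z, IsCoprime z m → χ.f z = 1 ∨ χ.f z = -1) :
    ∀ (n : ℕ) (z : G), z ≠ 0 → nn z ≤ n → 0 ≤ ∑ d ∈ nvr_D z, χ.f d := by
  intro n
  induction n with
  | zero =>
    intro z hz h
    have := nn_pos.2 hz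
    omega
  | succ n ih =>
    intro z hz hn
    by_cases hu : IsUnit z
    · refine Finset.sum_nonneg (fun d hd => ?_)
      rw [nvr_mem_D hz] at hd
      have h1 : IsUnit d := isUnit_of_dvd_unit hd hu
      rw [nvr_chi_unit χ hi (nvr_unit_iff.1 h1)]
      exact zero_le_one
    · obtain ⟨π, hπ, hdvd⟩ := WfDvdMonoid.exists_irreducible_factor hu hz
      have hπ' : Prime π := hπ.prime
      obtain ⟨j, w, hw, hzw⟩ := WfDvdMonoid.max_power_factor hz hπ
      have hj : j ≠ 0 := by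
        rintro rfl
        rw [pow_zero, one_mul] at hzw
        exact hw (hzw ▸ hdvd)
      have hw0 : w ≠ 0 := by
        rintro rfl
        exact hw (dvd_zero _)
      have hlt : nn w < nn z := by
        rw [hzw, nn_mul]
        have h1 : 1 < nn (π ^ j) := by
          have h2 : nn (π ^ j) ≠ 1 := by
            intro h3
            rw [← nvr_unit_iff, isUnit_pow_iff hj] at h3
            exact hπ.not_isUnit h3
          have h4 : 0 < nn (π ^ j) := nn_pos.2 (pow_ne_zero _ hπ.ne_zero)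
          omega
        have h5 : 0 < nn w := nn_pos.2 hw0
        nlinarith
      rw [hzw, nvr_D_mul hπ' hw0 hw j χ.f χ.mul χ.one]
      refine mul_nonneg ?_ (ih w hw0 (by omega))
      have h3 : χ.f π = 0 ∨ χ.f π = 1 ∨ χ.f π = -1 := by
        by_cases h : IsCoprime π m
        · exact Or.inr (hr π h)
        · exact Or.inl (χ.zero π h)
      rcases h3 with h | h | h
      · rw [h]
        exact Finset.sum_nonneg (fun i _ => by
          rcases Nat.eq_zero_or_pos i with h | h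
          · rw [h]; simp
          · rw [zero_pow h.ne'])
      · rw [h]
        exact Finset.sum_nonneg (fun i _ => by simp)
      · rw [h]
        rw [neg_one_geom_sum]
        split_ifs <;> simp

open Classical in
/-- sums over the sphere -/
noncomputable def nvr_A (f : G → ℂ) (n : ℕ) : ℂ := ∑ z ∈ (Bl n).filter (fun z => nn z = n), f z

open Classical in
theorem nvr_conv (f : G → ℂ) {n : ℕ} (hn : n ≠ 0) :
    LSeries.convolution (nvr_A (fun _ => 1)) (nvr_A f) n =
      nvr_A (fun z => ∑ d ∈ nvr_D z, f d) n := by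
  rw [LSeries.convolution_def]
  unfold nvr_A
  simp only [Finset.sum_mul_sum, one_mul]
  have h1 : ∀ p : ℕ × ℕ, ∑ u ∈ (Bl p.1).filter (fun z => nn z = p.1),
      ∑ v ∈ (Bl p.2).filter (fun z => nn z = p.2), f v =
      ∑ q ∈ ((Bl p.1).filter (fun z => nn z = p.1)) ×ˢ ((Bl p.2).filter (fun z => nn z = p.2)),
        f q.2 := by
    intro p
    rw [Finset.sum_product]
  rw [Finset.sum_congr rfl (fun p _ => h1 p), Finset.sum_sigma', Finset.sum_sigma']
  have hmem : ∀ (k : ℕ) (z : G), z ∈ (Bl k).filter (fun z => nn z = k) ↔ z ≠ 0 ∧ nn z = k := by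
    intro k z
    rw [Finset.mem_filter, mem_Bl]
    constructor
    · exact fun h => ⟨h.1.1, h.2⟩
    · exact fun h => ⟨⟨h.1, by rw [h.2]⟩, h.2⟩
  refine Finset.sum_bij' (fun x _ => ⟨x.2.1 * x.2.2, x.2.2⟩)
    (fun y _ => ⟨(nn (y.1 / y.2), nn y.2), (y.1 / y.2, y.2)⟩) ?_ ?_ ?_ ?_ ?_
  · rintro ⟨⟨a, b⟩, ⟨u, v⟩⟩ hx
    rw [Finset.mem_sigma, Nat.mem_divisorsAntidiagonal, Finset.mem_product, hmem, hmem] at hx
    simp only at hx
    obtain ⟨⟨hab, _⟩, ⟨hu, hua⟩, ⟨hv, hvb⟩⟩ := hx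
    rw [Finset.mem_sigma, hmem]
    simp only
    rw [nvr_mem_D (mul_ne_zero hu hv)]
    exact ⟨⟨mul_ne_zero hu hv, by rw [nn_mul, hua, hvb, hab]⟩, dvd_mul_left _ _⟩
  · rintro ⟨z, d⟩ hy
    rw [Finset.mem_sigma, hmem] at hy
    simp only at hy
    obtain ⟨⟨hz, hzn⟩, hd⟩ := hy
    rw [nvr_mem_D hz] at hd
    obtain ⟨w, rfl⟩ := hd
    have hd0 : d ≠ 0 := left_ne_zero_of_mul hz
    have hw0 : w ≠ 0 := right_ne_zero_of_mul hz
    rw [Finset.mem_sigma, Nat.mem_divisorsAntidiagonal, Finset.mem_product, hmem, hmem]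
    simp only
    rw [mul_div_cancel_left₀ _ hd0]
    refine ⟨⟨?_, hn⟩, ⟨hw0, trivial⟩, ⟨hd0, trivial⟩⟩
    rw [← hzn, nn_mul, mul_comm]
  · rintro ⟨⟨a, b⟩, ⟨u, v⟩⟩ hx
    rw [Finset.mem_sigma, Nat.mem_divisorsAntidiagonal, Finset.mem_product, hmem, hmem] at hx
    simp only at hx
    obtain ⟨⟨hab, _⟩, ⟨hu, hua⟩, ⟨hv, hvb⟩⟩ := hx
    simp only
    rw [mul_div_cancel_right₀ _ hv, hua, hvb]
  · rintro ⟨z, d⟩ hy
    rw [Finset.mem_sigma, hmem] at hy
    simp only at hy
    obtain ⟨⟨hz, hzn⟩, hd⟩ := hy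
    rw [nvr_mem_D hz] at hd
    obtain ⟨w, rfl⟩ := hd
    have hd0 : d ≠ 0 := left_ne_zero_of_mul hz
    simp only
    rw [mul_div_cancel_left₀ _ hd0, mul_comm]
  · rintro ⟨⟨a, b⟩, ⟨u, v⟩⟩ _
    rfl

open scoped ComplexOrder in
theorem nvr_a_nonneg {m : G} (χ : MChar m) (hi : χ.f ui = 1)
    (hr : ∀ z, IsCoprime z m → χ.f z = 1 ∨ χ.f z = -1) :
    0 ≤ LSeries.convolution (nvr_A (fun _ => 1)) (nvr_A χ.f) := by
  classical
  intro n
  rcases eq_or_ne n 0 with h | h
  · rw [h, LSeries.convolution_map_zero]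
    rfl
  · rw [nvr_conv _ h, nvr_A]
    refine Finset.sum_nonneg (fun z hz => ?_)
    rw [Finset.mem_filter, mem_Bl] at hz
    exact nvr_r_nonneg χ hi hr _ z hz.1.1 le_rfl

open scoped ComplexOrder in
theorem nvr_a_one {m : G} (χ : MChar m) (hi : χ.f ui = 1)
    (hr : ∀ z, IsCoprime z m → χ.f z = 1 ∨ χ.f z = -1) :
    0 < LSeries.convolution (nvr_A (fun _ => 1)) (nvr_A χ.f) 1 := by
  classical
  rw [nvr_conv _ one_ne_zero, nvr_A]
  have h1 : nn (1 : G) = 1 := by simp [nn]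
  refine Finset.sum_pos' (fun z hz => ?_) ⟨1, ?_, ?_⟩
  · rw [Finset.mem_filter, mem_Bl] at hz
    exact nvr_r_nonneg χ hi hr _ z hz.1.1 le_rfl
  · rw [Finset.mem_filter, mem_Bl]
    exact ⟨⟨one_ne_zero, by rw [h1]⟩, h1⟩
  · refine Finset.sum_pos (fun d hd => ?_) ⟨1, (nvr_mem_D one_ne_zero).2 dvd_rfl⟩
    rw [nvr_mem_D one_ne_zero] at hd
    have h2 : IsUnit d := isUnit_of_dvd_one hd
    rw [nvr_chi_unit χ hi (nvr_unit_iff.1 h2)]
    exact zero_lt_one

theorem nvr_series {f : G → ℂ} (hb : ∀ z, ‖f z‖ ≤ 1) {s : ℂ} (hs : 1 < s.re) :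
    LSeriesSummable (nvr_A f) s ∧ Dsum f s = LSeries (nvr_A f) s := by
  have h := aggregate (f := f) hs (dsum_summable hb hs).1
  unfold nvr_A
  convert h

theorem nonvanish_pr {m : G} (hm : m ≠ 0) (χ : MChar m) (hi : χ.f ui = 1)
    (hr : ∀ z, IsCoprime z m → χ.f z = 1 ∨ χ.f z = -1) (hn : ∃ z, χ.f z = -1) :
    ¬ Tendsto (fun x : ℝ => ∑ z ∈ Bl x, χ.f z / (nn z : ℂ)) atTop (𝓝 0) := by
  intro hT
  have := nvr_finite hm
  have := Fintype.ofFinite (nvr_Q m)
  have h1m : (1 : G) ≠ 0 := one_ne_zero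
  have := nvr_finite h1m
  have := Fintype.ofFinite (nvr_Q (1 : G))
  have hf0 : (nvr_pair hm χ.f).f₀ = 0 := by
    rw [nvr_f0 hm χ.f χ.per]
    exact nvr_chi0 χ hn
  have hg0 := nvr_g0 hm χ hn
  have hL : ∀ s : ℂ, 1 < s.re → nvr_L hm χ.f s = Dsum χ.f s := fun s hs =>
    nvr_L_eq hm χ.f χ.per (nvr_bd χ) hf0 hg0 hs
  have hLd := nvr_L_diff hm χ.f
  obtain ⟨C, r, hC, -, h2, h3⟩ := dsum_periodic hm χ.f χ.per (nvr_bd χ)
  -- sequence tending to one from the right
  have hseq : Tendsto (fun ε : ℝ => (1 + ε : ℂ)) (𝓝[>] 0) (𝓝 1) := by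
    have : Tendsto (fun ε : ℝ => (1 + ε : ℂ)) (𝓝 0) (𝓝 (1 + ((0 : ℝ) : ℂ))) := by
      apply Continuous.tendsto
      fun_prop
    rw [ofReal_zero, add_zero] at this
    exact this.mono_left nhdsWithin_le_nhds
  have hLlim : Tendsto (fun ε : ℝ => nvr_L hm χ.f (1 + ε)) (𝓝[>] 0) (𝓝 (nvr_L hm χ.f 1)) :=
    (hLd.continuous.tendsto 1).comp hseq
  have hεlim : Tendsto (fun ε : ℝ => (ε : ℂ)) (𝓝[>] 0) (𝓝 0) := by
    have : Tendsto (fun ε : ℝ => (ε : ℂ)) (𝓝 0) (𝓝 ((0 : ℝ) : ℂ)) :=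
      continuous_ofReal.tendsto 0
    rw [ofReal_zero] at this
    exact this.mono_left nhdsWithin_le_nhds
  have hev : ∀ᶠ ε : ℝ in 𝓝[>] 0, 0 < ε ∧ ε ≤ 1 := by
    have := Ioc_mem_nhdsGT (zero_lt_one' ℝ)
    filter_upwards [this] with ε hε
    exact hε
  -- the residue vanishes
  have hr0 : r = 0 := by
    have h4 : ∀ᶠ ε : ℝ in 𝓝[>] 0, ‖(ε : ℂ) * nvr_L hm χ.f (1 + ε) - r‖ ≤
        ε * (C * (1 + Real.log 2)) := by
      filter_upwards [hev] with ε hε
      have hs : 1 < (1 + (ε : ℂ)).re := by simp; exact hε.1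
      have hs' : (1 + (ε : ℂ)).re ≤ 2 := by simp; linarith [hε.2]
      have h5 := h2 (1 + ε) hs hs'
      rw [← hL _ hs] at h5
      have hε0 : (ε : ℂ) ≠ 0 := ofReal_ne_zero.2 hε.1.ne'
      have h6 : (ε : ℂ) * nvr_L hm χ.f (1 + ε) - r =
          (ε : ℂ) * (nvr_L hm χ.f (1 + ε) - r / (1 + ε - 1)) := by
        rw [add_sub_cancel_left]
        field_simp
      rw [h6, norm_mul, norm_real, Real.norm_of_nonneg hε.1.le]
      refine mul_le_mul_of_nonneg_left (h5.trans ?_) hε.1.le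
      simp
    have h7 : Tendsto (fun ε : ℝ => ‖(ε : ℂ) * nvr_L hm χ.f (1 + ε) - r‖) (𝓝[>] 0)
        (𝓝 ‖0 * nvr_L hm χ.f 1 - r‖) := ((hεlim.mul hLlim).sub_const r).norm
    have h8 : Tendsto (fun ε : ℝ => ε * (C * (1 + Real.log 2))) (𝓝[>] 0) (𝓝 0) := by
      have : Tendsto (fun ε : ℝ => ε * (C * (1 + Real.log 2))) (𝓝 0)
          (𝓝 (0 * (C * (1 + Real.log 2)))) := by
        apply Continuous.tendsto
        fun_prop
      rw [zero_mul] at this
      exact this.mono_left nhdsWithin_le_nhds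
    have h9 := le_of_tendsto_of_tendsto h7 h8 h4
    rw [zero_mul, zero_sub, norm_neg] at h9
    exact norm_le_zero_iff.1 h9
  obtain ⟨L, hL1, hL2⟩ := h3 hr0
  have hL0 : L = 0 := tendsto_nhds_unique hL1 hT
  have hLone : nvr_L hm χ.f 1 = 0 := by
    have h4 : ∀ᶠ ε : ℝ in 𝓝[>] 0, ‖nvr_L hm χ.f (1 + ε)‖ ≤ C * ε := by
      filter_upwards [hev] with ε hε
      have hs : 1 < (1 + (ε : ℂ)).re := by simp; exact hε.1
      have hs' : (1 + (ε : ℂ)).re ≤ 2 := by simp; linarith [hε.2]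
      have h5 := hL2 (1 + ε) hs hs' (by simp)
      rw [← hL _ hs, hL0, sub_zero, add_sub_cancel_left, norm_real,
        Real.norm_of_nonneg hε.1.le] at h5
      exact h5
    have h8 : Tendsto (fun ε : ℝ => C * ε) (𝓝[>] 0) (𝓝 0) := by
      have : Tendsto (fun ε : ℝ => C * ε) (𝓝 0) (𝓝 (C * 0)) := by
        apply Continuous.tendsto
        fun_prop
      rw [mul_zero] at this
      exact this.mono_left nhdsWithin_le_nhds
    have h9 := le_of_tendsto_of_tendsto hLlim.norm h8 h4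
    exact norm_le_zero_iff.1 h9
  -- the entire function
  set K : ℂ → ℂ := dslope (nvr_L hm χ.f) 1 with hK
  have hKd : Differentiable ℂ K := by
    rw [← differentiableOn_univ, hK, Complex.differentiableOn_dslope univ_mem,
      differentiableOn_univ]
    exact hLd
  have hKeq : ∀ s : ℂ, (s - 1) * K s = nvr_L hm χ.f s := by
    intro s
    have := sub_smul_dslope (nvr_L hm χ.f) 1 s
    rw [smul_eq_mul, hLone, sub_zero] at this
    exact this
  set D : ℂ → ℂ := fun s => nvr_E h1m (fun _ => 1) s * K s with hD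
  have hDd : Differentiable ℂ D := (nvr_E_diff h1m _).mul hKd
  have hone : ∀ z : G, ‖(1 : ℂ)‖ ≤ 1 := fun _ => by simp
  have hDeq : EqOn D (LSeries (LSeries.convolution (nvr_A (fun _ => 1)) (nvr_A χ.f)))
      {s : ℂ | (1 : ℝ) < s.re} := by
    intro s hs
    have hs : 1 < s.re := hs
    have h4 := nvr_series (f := fun _ => 1) hone hs
    have h5 := nvr_series (f := χ.f) (nvr_bd χ) hs
    rw [LSeries_convolution' h4.1 h5.1, ← h4.2, ← h5.2, ← hL s hs, ← hKeq s]
    simp only [hD]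
    rw [nvr_E_eq h1m _ (fun _ _ => rfl) hone hs]
    ring
  have habs : LSeries.abscissaOfAbsConv (LSeries.convolution (nvr_A (fun _ => 1)) (nvr_A χ.f)) ≤
      ((1 : ℝ) : EReal) := by
    apply LSeries.abscissaOfAbsConv_le_of_forall_lt_LSeriesSummable
    intro y hy
    have hy' : 1 < (y : ℂ).re := by simpa using hy
    exact (nvr_series (f := fun _ => 1) hone hy').1.convolution
      (nvr_series (f := χ.f) (nvr_bd χ) hy').1
  have hpos := LSeries.positive_of_differentiable_of_eqOn (nvr_a_nonneg χ hi hr)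
    (nvr_a_one χ hi hr) hDd habs hDeq (-1)
  have hzero : D ((-1 : ℝ) : ℂ) = 0 := by
    simp only [hD]
    have : ((-1 : ℝ) : ℂ) = -1 := by push_cast; rfl
    rw [this, nvr_E_neg, zero_mul]
  have hlt := (Complex.lt_def.1 hpos).1
  rw [hzero] at hlt
  simp at hlt

example : type_of% @nonvanish_pr := @nonvanish_pr

end Pool.Agent.T2


namespace Pool.Agent.T2

theorem nonvanish : type_of% @nonvanish_pr := @nonvanish_pr

end Pool.Agent.T2
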