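import Pool.Agent.Lib_helper10.T2.Defs
import Pool.Agent.Lib_helper10.T2F.BAS
import Pool.Agent.Lib_helper10.T2F.CNT
import Pool.Agent.Lib_helper10.T2F.DSP
import Pool.Agent.Lib_helper10.T2F.NVR
import Pool.Agent.Lib_helper10.T2F.TFO

namespace Pool.Agent.T2

open Filter Topology MeasureTheory

/-! ### residues modulo a natural number -/

/-- the residue ring -/
abbrev suz_V (M : ℕ) : Type := G ⧸ (Ideal.span {(M : G)} : Ideal G)

theorem suz_fin (M : ℕ) (hM : 1 ≤ M) : Finite (suz_V M) := by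
  let f : Fin M × Fin M → suz_V M := fun q =>
    Ideal.Quotient.mk _ (⟨((q.1 : ℕ) : ℤ), ((q.2 : ℕ) : ℤ)⟩ : G)
  refine Finite.of_surjective f ?_
  intro v
  obtain ⟨z, rfl⟩ := Ideal.Quotient.mk_surjective v
  have hM0 : (M : ℤ) ≠ 0 := by exact_mod_cast (by omega : M ≠ 0)
  have hMp : (0 : ℤ) < M := by exact_mod_cast (by omega : 0 < M)
  have h1 : (z.re % M).toNat < M := by
    have := Int.emod_lt_of_pos z.re hMp
    have := Int.emod_nonneg z.re hM0
    omega
  have h2 : (z.im % M).toNat < M := by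
    have := Int.emod_lt_of_pos z.im hMp
    have := Int.emod_nonneg z.im hM0
    omega
  refine ⟨(⟨_, h1⟩, ⟨_, h2⟩), ?_⟩
  simp only [f]
  rw [Ideal.Quotient.eq, Ideal.mem_span_singleton]
  refine ⟨⟨-(z.re / M), -(z.im / M)⟩, ?_⟩
  have e1 := Int.emod_add_mul_ediv z.re M
  have e2 := Int.emod_add_mul_ediv z.im M
  have e3 := Int.toNat_of_nonneg (Int.emod_nonneg z.re hM0)
  have e4 := Int.toNat_of_nonneg (Int.emod_nonneg z.im hM0)
  rw [Zsqrtd.ext_iff]
  constructor
  · simp only [Int.toNat_of_nonneg (Int.emod_nonneg z.re hM0), Zsqrtd.re_sub, Zsqrtd.re_mul,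
      Zsqrtd.re_natCast, Zsqrtd.im_natCast]
    linarith
  · simp only [Int.toNat_of_nonneg (Int.emod_nonneg z.im hM0), Zsqrtd.im_sub, Zsqrtd.im_mul,
      Zsqrtd.re_natCast, Zsqrtd.im_natCast]
    linarith

theorem suz_dvd (m : G) : m ∣ ((nn m : ℕ) : G) := by
  refine ⟨star m, ?_⟩
  have h := nn_cast m
  rw [Zsqrtd.ext_iff]
  constructor
  · simp [Zsqrtd.re_mul]
    rw [h]; ring
  · simp [Zsqrtd.im_mul]
    ring

theorem suz_per {m : G} {f : G → ℂ} (hf : ∀ z w, f (z + m * w) = f z) {z z' : G}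
    (h : ((nn m : ℕ) : G) ∣ z - z') : f z = f z' := by
  obtain ⟨w, hw⟩ := (suz_dvd m).trans h
  have : z = z' + m * w := by rw [← hw]; ring
  rw [this, hf]

theorem suz_mk {m : G} {f : G → ℂ} (hf : ∀ z w, f (z + m * w) = f z) (z : G) :
    f (Quotient.out (Ideal.Quotient.mk (Ideal.span {((nn m : ℕ) : G)}) z)) = f z := by
  refine suz_per hf ?_
  rw [← Ideal.mem_span_singleton, ← Ideal.Quotient.eq]
  exact Ideal.Quotient.mk_out _

open Classical in
/-- the sum over the residues -/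
noncomputable def suz_S (m : G) (f : G → ℂ) [Fintype (suz_V (nn m))] : ℂ :=
  ∑ v : suz_V (nn m), f (Quotient.out v)

open Classical in
theorem suz_mean {m : G} (hm : m ≠ 0) {f : G → ℂ} (hf : ∀ z w, f (z + m * w) = f z)
    [Fintype (suz_V (nn m))] {r : ℂ} {C : ℝ}
    (hr : ∀ x : ℝ, 1 ≤ x → ‖∑ z ∈ Bl x, f z - r * x‖ ≤ C * Real.sqrt x) :
    r = (Real.pi / (nn m : ℝ) ^ 2 : ℝ) * suz_S m f := by
  have hM : 1 ≤ nn m := nn_pos.2 hm
  obtain ⟨D, hD1, hD⟩ := class_count (nn m) hM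
  set a : ℝ := Real.pi / (nn m : ℝ) ^ 2 with ha
  set B : ℝ := ∑ v : suz_V (nn m), ‖f (Quotient.out v)‖ with hB
  have key : ∀ x : ℝ, 1 ≤ x → ‖∑ z ∈ Bl x, f z - (a : ℂ) * suz_S m f * x‖ ≤ B * D * Real.sqrt x := by
    intro x hx
    have h1 : ∑ z ∈ Bl x, f z = ∑ v : suz_V (nn m), f (Quotient.out v) *
        (((Bl x).filter (fun z => ((nn m : ℕ) : G) ∣ z - Quotient.out v)).card : ℂ) := by
      rw [← Finset.sum_fiberwise (Bl x) (fun z => (Ideal.Quotient.mk (Ideal.span {((nn m : ℕ) : G)}) z : suz_V (nn m))) f]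
      refine Finset.sum_congr rfl fun v _ => ?_
      have h2 : (Bl x).filter (fun z => (Ideal.Quotient.mk (Ideal.span {((nn m : ℕ) : G)}) z : suz_V (nn m)) = v)
          = (Bl x).filter (fun z => ((nn m : ℕ) : G) ∣ z - Quotient.out v) := by
        ext z
        rw [Finset.mem_filter, Finset.mem_filter, ← Ideal.mem_span_singleton, ← Ideal.Quotient.eq]
        have h3 : (Ideal.Quotient.mk (Ideal.span {((nn m : ℕ) : G)}) (Quotient.out v) : suz_V (nn m)) = v :=
          Ideal.Quotient.mk_out v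
        rw [h3]
      rw [h2]
      have h4 : ∀ z ∈ (Bl x).filter (fun z => ((nn m : ℕ) : G) ∣ z - Quotient.out v), f z = f (Quotient.out v) := by
        intro z hz
        rw [Finset.mem_filter] at hz
        exact suz_per hf hz.2
      rw [Finset.sum_congr rfl h4, Finset.sum_const, nsmul_eq_mul, mul_comm]
    have h5 : ∑ z ∈ Bl x, f z - (a : ℂ) * suz_S m f * x = ∑ v : suz_V (nn m), f (Quotient.out v) *
        (((((Bl x).filter (fun z => ((nn m : ℕ) : G) ∣ z - Quotient.out v)).card : ℝ) - Real.pi * x / (nn m : ℝ) ^ 2 : ℝ) : ℂ) := by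
      rw [h1]
      unfold suz_S
      rw [Finset.mul_sum, Finset.sum_mul, ← Finset.sum_sub_distrib]
      refine Finset.sum_congr rfl fun v _ => ?_
      rw [ha]
      push_cast
      ring
    rw [h5]
    refine (norm_sum_le _ _).trans ?_
    rw [hB, Finset.sum_mul, Finset.sum_mul]
    refine Finset.sum_le_sum fun v _ => ?_
    rw [norm_mul, Complex.norm_real, Real.norm_eq_abs, mul_assoc]
    exact mul_le_mul_of_nonneg_left (hD _ x hx) (norm_nonneg _)
  -- compare
  have h6 : ∀ x : ℝ, 1 ≤ x → ‖r - (a : ℂ) * suz_S m f‖ * Real.sqrt x ≤ C + B * D := by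
    intro x hx
    have hx0 : 0 < x := by linarith
    have hs : 0 < Real.sqrt x := Real.sqrt_pos.2 hx0
    have h7 : ‖(r - (a : ℂ) * suz_S m f) * x‖ ≤ (C + B * D) * Real.sqrt x := by
      have e : (r - (a : ℂ) * suz_S m f) * x = (∑ z ∈ Bl x, f z - (a : ℂ) * suz_S m f * x)
          - (∑ z ∈ Bl x, f z - r * x) := by ring
      rw [e]
      refine (norm_sub_le _ _).trans ?_
      have := key x hx
      have := hr x hx
      linarith
    rw [norm_mul, Complex.norm_real, Real.norm_of_nonneg hx0.le] at h7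
    have h8 : x = Real.sqrt x * Real.sqrt x := (Real.mul_self_sqrt hx0.le).symm
    have h9 : ‖r - (a : ℂ) * suz_S m f‖ * Real.sqrt x * Real.sqrt x ≤ (C + B * D) * Real.sqrt x := by
      calc _ = ‖r - (a : ℂ) * suz_S m f‖ * (Real.sqrt x * Real.sqrt x) := by ring
        _ ≤ _ := by rw [← h8]; exact h7
    exact le_of_mul_le_mul_right h9 hs
  by_contra hne
  have h10 : 0 < ‖r - (a : ℂ) * suz_S m f‖ := norm_pos_iff.2 (sub_ne_zero.2 hne)
  set e := ‖r - (a : ℂ) * suz_S m f‖ with he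
  have h11 := h6 (((|C + B * D| + 1) / e) ^ 2 + 1) (by have := sq_nonneg ((|C + B * D| + 1) / e); linarith)
  have h12 : (|C + B * D| + 1) / e ≤ Real.sqrt (((|C + B * D| + 1) / e) ^ 2 + 1) := by
    refine Real.le_sqrt_of_sq_le ?_
    linarith
  have h13 : e * ((|C + B * D| + 1) / e) ≤ C + B * D := (mul_le_mul_of_nonneg_left h12 h10.le).trans h11
  rw [mul_div_cancel₀ _ h10.ne'] at h13
  have := le_abs_self (C + B * D)
  linarith

/-- orthogonality -/
theorem suz_orth {m : G} {f : G → ℂ} (hf : ∀ z w, f (z + m * w) = f z)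
    [Fintype (suz_V (nn m))] (hmul : ∀ z w, f (z * w) = f z * f w) {z0 : G} (h0 : IsCoprime z0 m)
    (h1 : f z0 ≠ 1) : suz_S m f = 0 := by
  obtain ⟨a, b, hab⟩ := h0
  -- a z0 + b m = 1
  set I := (Ideal.span {((nn m : ℕ) : G)} : Ideal G) with hI
  let q : G →+* suz_V (nn m) := Ideal.Quotient.mk I
  have hq : ∀ v : suz_V (nn m), q (Quotient.out v) = v := fun v => Ideal.Quotient.mk_out v
  have hqm : ∀ z, f (Quotient.out (q z)) = f z := fun z => suz_mk hf z
  have hone : q a * q z0 + q b * q m = 1 := by rw [← map_mul, ← map_mul, ← map_add, hab, map_one]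
  let e : suz_V (nn m) × suz_V (nn m) ≃ suz_V (nn m) × suz_V (nn m) :=
    { toFun := fun v => (q z0 * v.1 + q m * v.2, -(q b) * v.1 + q a * v.2)
      invFun := fun v => (q a * v.1 - q m * v.2, q b * v.1 + q z0 * v.2)
      left_inv := by
        intro v
        ext
        · simp only
          linear_combination v.1 * hone
        · simp only
          linear_combination v.2 * hone
      right_inv := by
        intro v
        ext
        · simp only
          linear_combination v.1 * hone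
        · simp only
          linear_combination v.2 * hone }
  have h2 : ∑ v : suz_V (nn m) × suz_V (nn m), f (Quotient.out (e v).1)
      = ∑ v : suz_V (nn m) × suz_V (nn m), f (Quotient.out v.1) :=
    Equiv.sum_comp e (fun v => f (Quotient.out v.1))
  have h3 : ∀ v : suz_V (nn m) × suz_V (nn m), f (Quotient.out (e v).1) = f z0 * f (Quotient.out v.1) := by
    rintro ⟨v, w⟩
    have h4 : (e (v, w)).1 = q (z0 * Quotient.out v + m * Quotient.out w) := by
      simp only [e, Equiv.coe_fn_mk, map_add, map_mul, hq]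
    rw [h4, hqm, hf, hmul]
  rw [Finset.sum_congr rfl (fun v _ => h3 v), ← Finset.mul_sum] at h2
  have h5 : ∑ v : suz_V (nn m) × suz_V (nn m), f (Quotient.out v.1)
      = (Fintype.card (suz_V (nn m)) : ℂ) * suz_S m f := by
    rw [Fintype.sum_prod_type]
    simp only [Finset.sum_const, Finset.card_univ, nsmul_eq_mul]
    rw [← Finset.mul_sum]
    rfl
  rw [h5] at h2
  have h6 : (f z0 - 1) * ((Fintype.card (suz_V (nn m)) : ℂ) * suz_S m f) = 0 := by
    rw [sub_mul, one_mul, h2, sub_self]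
  rcases mul_eq_zero.1 h6 with h7 | h7
  · exact absurd (sub_eq_zero.1 h7) h1
  · rcases mul_eq_zero.1 h7 with h8 | h8
    · exfalso
      have : Fintype.card (suz_V (nn m)) ≠ 0 := Fintype.card_ne_zero
      exact this (by exact_mod_cast h8)
    · exact h8

/-! ### the bound -/

theorem suz_xi {m : G} (χ : MChar m) : xi χ 0 = χ.f := by
  funext z
  unfold xi
  rw [ang_zero', mul_one]

theorem suz_bd {m : G} (χ : MChar m) (z : G) : ‖χ.f z‖ ≤ 1 := by
  by_cases h : IsCoprime z m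
  · exact (χ.nrm z h).le
  · rw [χ.zero z h, norm_zero]; exact zero_le_one

theorem suz_log (C K₀ δ : ℝ) (hC : 0 ≤ C) (hK : 0 ≤ K₀) (hδ : 0 < δ) : ∃ L₀ : ℝ, 1 ≤ L₀ ∧
    ∀ L : ℝ, L₀ ≤ L → C * (1 + Real.log (2 + K₀ * L)) ≤ δ * L := by
  have hc : 0 < δ / (2 * (C + 1) * (2 + K₀)) := by positivity
  obtain ⟨Y, hY⟩ := eventually_atTop.1 (Real.isLittleO_log_id_atTop.def hc)
  refine ⟨max 1 (max Y (2 * C / δ)), le_max_left _ _, fun L hL => ?_⟩
  have hL1 : 1 ≤ L := (le_max_left _ _).trans hL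
  have hL2 : Y ≤ L := (le_max_left _ _).trans ((le_max_right _ _).trans hL)
  have hL3 : 2 * C / δ ≤ L := (le_max_right _ _).trans ((le_max_right _ _).trans hL)
  have h1 : Y ≤ (2 + K₀) * L := by nlinarith
  have h2 := hY _ h1
  have hpos : 0 < (2 + K₀) * L := by positivity
  rw [id, Real.norm_of_nonneg hpos.le] at h2
  have h3 : Real.log (2 + K₀ * L) ≤ Real.log ((2 + K₀) * L) := by
    refine Real.log_le_log (by positivity) ?_
    nlinarith
  have h4 : Real.log ((2 + K₀) * L) ≤ δ / (2 * (C + 1)) * L := by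
    refine (le_abs_self _).trans (h2.trans (le_of_eq ?_))
    field_simp
  have h5 : C * (δ / (2 * (C + 1)) * L) ≤ δ / 2 * L := by
    have h6 : C * (δ / (2 * (C + 1)) * L) = (C / (C + 1)) * (δ / 2 * L) := by field_simp
    rw [h6]
    exact mul_le_of_le_one_left (by positivity) (by rw [div_le_one (by positivity)]; linarith)
  have h7 : C ≤ δ / 2 * L := by
    rw [div_le_iff₀ hδ] at hL3
    linarith
  have h8 : C * Real.log (2 + K₀ * L) ≤ δ / 2 * L :=
    (mul_le_mul_of_nonneg_left (h3.trans h4) hC).trans h5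
  linarith

theorem suz_far {m : G} (χ : MChar m) (hui : xi χ 0 ui = 1) (η K₀ : ℝ) (hη : 0 < η) (hK : 0 ≤ K₀)
    (r2 : ℂ) (C2 : ℝ) (hC2 : 0 ≤ C2)
    (h2 : ∀ s : ℂ, 1 < s.re → s.re ≤ 2 →
      ‖Dsum (fun z => xi χ 0 z ^ 2) s - r2 / (s - 1)‖ ≤ C2 * (1 + Real.log (2 + |s.im|))) :
    ∃ T L₀ : ℝ, 0 < T ∧ 1 ≤ L₀ ∧ ∀ L : ℝ, L₀ ≤ L → ∀ t : ℝ, |t| ≤ K₀ * L → (r2 = 0 ∨ T ≤ |t| * L) →
      ‖Dsum (fun z => (gl z : ℂ) * xi χ 0 z) ((1 + 1 / L : ℝ) + t * Complex.I)‖ ≤ η * L := by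
  obtain ⟨C1, hC1, h1⟩ := sup_reduce
  have hC10 : 0 < C1 := by linarith
  set δ : ℝ := (η / C1) ^ 4 with hδ
  have hδ0 : 0 < δ := by positivity
  obtain ⟨L₀, hL₀, hlog⟩ := suz_log C2 (2 * K₀) (δ / 2) hC2 (by positivity) (by positivity)
  refine ⟨1 + ‖r2‖ / δ, L₀, by positivity, hL₀, fun L hL t ht hcase => ?_⟩
  have hL1 : 1 ≤ L := hL₀.trans hL
  have hL0 : 0 < L := by linarith
  have hσ1 : 1 < 1 + 1 / L := by
    have : 0 < 1 / L := by positivity
    linarith
  have hσ2 : 1 + 1 / L ≤ 2 := by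
    have : 1 / L ≤ 1 := by rw [div_le_one hL0]; exact hL1
    linarith
  have h3 := h1 m χ 0 hui (1 + 1 / L) t hσ1 hσ2
  set s : ℂ := ((1 + 1 / L : ℝ) : ℂ) + 2 * t * Complex.I with hs
  have hre : s.re = 1 + 1 / L := by
    rw [hs]; simp
  have him : s.im = 2 * t := by
    rw [hs]; simp
  have h4 := h2 s (by rw [hre]; exact hσ1) (by rw [hre]; exact hσ2)
  rw [him] at h4
  have h5 : ‖r2 / (s - 1)‖ ≤ δ / 2 * L := by
    rcases hcase with h | h
    · rw [h, zero_div, norm_zero]; positivity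
    · have h6 : 2 * |t| ≤ ‖s - 1‖ := by
        have := Complex.abs_im_le_norm (s - 1)
        rw [Complex.sub_im, him, Complex.one_im, sub_zero, abs_mul, abs_two] at this
        exact this
      have h7 : 0 < |t| := by
        by_contra hc
        have hz : |t| = 0 := le_antisymm (not_lt.1 hc) (abs_nonneg t)
        rw [hz, zero_mul] at h
        have : 0 ≤ ‖r2‖ / δ := by positivity
        linarith
      rw [norm_div]
      have h8 : ‖r2‖ ≤ δ * (|t| * L) := by
        have h9 : ‖r2‖ / δ ≤ |t| * L := by linarith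
        rw [div_le_iff₀ hδ0] at h9
        linarith
      rw [div_le_iff₀ (by linarith)]
      have h10 : δ / 2 * L * (2 * |t|) ≤ δ / 2 * L * ‖s - 1‖ := mul_le_mul_of_nonneg_left h6 (by positivity)
      linarith
  have h6 : C2 * (1 + Real.log (2 + |2 * t|)) ≤ δ / 2 * L := by
    refine le_trans (mul_le_mul_of_nonneg_left ?_ hC2) (hlog L hL)
    have : |2 * t| ≤ 2 * K₀ * L := by rw [abs_mul, abs_two]; linarith
    have := Real.log_le_log (by positivity) (show 2 + |2 * t| ≤ 2 + 2 * K₀ * L by linarith)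
    linarith
  have h7 : ‖Dsum (fun z => xi χ 0 z ^ 2) s‖ ≤ δ * L := by
    have e : Dsum (fun z => xi χ 0 z ^ 2) s = (Dsum (fun z => xi χ 0 z ^ 2) s - r2 / (s - 1)) + r2 / (s - 1) := by ring
    rw [e]
    refine (norm_add_le _ _).trans ?_
    linarith
  refine h3.trans ?_
  have h8 : (1 / (1 + 1 / L - 1)) = L := by
    rw [add_sub_cancel_left, one_div_one_div]
  rw [h8]
  have h9 : ‖Dsum (fun z => xi χ 0 z ^ 2) s‖ ^ (1 / 4 : ℝ) ≤ (δ * L) ^ (1 / 4 : ℝ) :=
    Real.rpow_le_rpow (norm_nonneg _) h7 (by norm_num)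
  have h10 : (δ * L) ^ (1 / 4 : ℝ) = (η / C1) * L ^ (1 / 4 : ℝ) := by
    rw [Real.mul_rpow hδ0.le hL0.le, hδ]
    congr 1
    rw [← Real.rpow_natCast, ← Real.rpow_mul (by positivity)]
    norm_num
  rw [h10] at h9
  have h11 : L ^ (3 / 4 : ℝ) * L ^ (1 / 4 : ℝ) = L := by
    rw [← Real.rpow_add hL0]; norm_num
  calc C1 * L ^ (3 / 4 : ℝ) * ‖Dsum (fun z => xi χ 0 z ^ 2) s‖ ^ (1 / 4 : ℝ)
      ≤ C1 * L ^ (3 / 4 : ℝ) * ((η / C1) * L ^ (1 / 4 : ℝ)) := mul_le_mul_of_nonneg_left h9 (by positivity)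
    _ = (C1 * (η / C1)) * (L ^ (3 / 4 : ℝ) * L ^ (1 / 4 : ℝ)) := by ring
    _ = η * L := by rw [h11, mul_div_cancel₀ _ hC10.ne']

theorem suz_near {m : G} (hm : m ≠ 0) (χ : MChar m) (hui : χ.f ui = 1) (T : ℝ) (hT : 0 < T)
    (hreal : ∀ z, IsCoprime z m → χ.f z = 1 ∨ χ.f z = -1) :
    ∃ c L₀ : ℝ, 0 < c ∧ 1 ≤ L₀ ∧ ∀ L : ℝ, L₀ ≤ L → ∀ t : ℝ, |t| * L ≤ T →
      c ≤ ‖Dsum (xi χ 0) ((1 + 1 / L : ℝ) + t * Complex.I)‖ := by
  rw [suz_xi]
  obtain ⟨C, r, hC, hr, hs, h0⟩ := dsum_periodic hm χ.f χ.per (suz_bd χ)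
  have hnorm : ∀ L t : ℝ, 1 ≤ L → |t| * L ≤ T →
      ‖(((1 + 1 / L : ℝ) : ℂ) + t * Complex.I) - 1‖ ≤ (1 + T) / L := by
    intro L t hL ht
    have hL0 : 0 < L := by linarith
    have e : (((1 + 1 / L : ℝ) : ℂ) + t * Complex.I) - 1 = ((1 / L : ℝ) : ℂ) + t * Complex.I := by
      push_cast; ring
    rw [e]
    refine (norm_add_le _ _).trans ?_
    rw [Complex.norm_real, norm_mul, Complex.norm_I, Complex.norm_real, mul_one,
      Real.norm_of_nonneg (by positivity), Real.norm_eq_abs, add_div]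
    have : |t| ≤ T / L := by rw [le_div_iff₀ hL0]; exact ht
    linarith
  have hre : ∀ L t : ℝ, (((1 + 1 / L : ℝ) : ℂ) + t * Complex.I).re = 1 + 1 / L := by
    intro L t; simp
  have him : ∀ L t : ℝ, (((1 + 1 / L : ℝ) : ℂ) + t * Complex.I).im = t := by
    intro L t; simp
  have hσ : ∀ L : ℝ, 1 ≤ L → 1 < 1 + 1 / L ∧ 1 + 1 / L ≤ 2 := by
    intro L hL
    have hL0 : 0 < L := by linarith
    constructor
    · have : 0 < 1 / L := by positivity
      linarith
    · have : 1 / L ≤ 1 := by rw [div_le_one hL0]; exact hL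
      linarith
  by_cases hr0 : r = 0
  · -- nonvanishing
    obtain ⟨L1, hL1, hL1s⟩ := h0 hr0
    have hn : ∃ z, χ.f z = -1 := by
      by_contra hno
      push Not at hno
      have h01 : ∀ z, χ.f z = 0 ∨ χ.f z = 1 := by
        intro z
        by_cases hz : IsCoprime z m
        · rcases hreal z hz with h | h
          · exact Or.inr h
          · exact absurd h (hno z)
        · exact Or.inl (χ.zero z hz)
      have := suz_fin (nn m) (nn_pos.2 hm)
      have := Fintype.ofFinite (suz_V (nn m))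
      have h1 := suz_mean hm χ.per hr
      rw [hr0] at h1
      have hpi : ((Real.pi / (nn m : ℝ) ^ 2 : ℝ) : ℂ) ≠ 0 := by
        have hM : (0 : ℝ) < nn m := by exact_mod_cast nn_pos.2 hm
        have : (0 : ℝ) < Real.pi / (nn m : ℝ) ^ 2 := by have := Real.pi_pos; positivity
        exact_mod_cast this.ne'
      have h2 : suz_S m χ.f = 0 := (mul_eq_zero.1 h1.symm).resolve_left hpi
      have h3 : (suz_S m χ.f).re = ∑ v : suz_V (nn m), (χ.f (Quotient.out v)).re := by
        unfold suz_S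
        rw [Complex.re_sum]
      rw [h2, Complex.zero_re] at h3
      have h4 : ∀ v ∈ (Finset.univ : Finset (suz_V (nn m))), 0 ≤ (χ.f (Quotient.out v)).re := by
        intro v _
        rcases h01 (Quotient.out v) with h | h <;> rw [h] <;> simp
      have h5 := (Finset.sum_eq_zero_iff_of_nonneg h4).1 h3.symm
        (Ideal.Quotient.mk (Ideal.span {((nn m : ℕ) : G)}) 1) (Finset.mem_univ _)
      rw [suz_mk χ.per, χ.one] at h5
      exact one_ne_zero h5
    have hL1ne : L1 ≠ 0 := by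
      intro h
      rw [h] at hL1
      exact nonvanish hm χ hui hreal hn hL1
    have hpos : 0 < ‖L1‖ := norm_pos_iff.2 hL1ne
    refine ⟨‖L1‖ / 2, max 1 (max T (2 * C * (1 + T) / ‖L1‖)), by positivity, le_max_left _ _,
      fun L hL t ht => ?_⟩
    have hL1' : 1 ≤ L := (le_max_left _ _).trans hL
    have hL2 : T ≤ L := (le_max_left _ _).trans ((le_max_right _ _).trans hL)
    have hL3 : 2 * C * (1 + T) / ‖L1‖ ≤ L := (le_max_right _ _).trans ((le_max_right _ _).trans hL)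
    have hL0 : 0 < L := by linarith
    have ht1 : |t| ≤ 1 := by
      have : |t| * L ≤ 1 * L := by linarith
      exact le_of_mul_le_mul_right this hL0
    have h1 := hL1s (((1 + 1 / L : ℝ) : ℂ) + t * Complex.I) (by rw [hre]; exact (hσ L hL1').1)
      (by rw [hre]; exact (hσ L hL1').2) (by rw [him]; exact ht1)
    have h2 := hnorm L t hL1' ht
    have h3 : C * ((1 + T) / L) ≤ ‖L1‖ / 2 := by
      rw [div_le_iff₀ hpos] at hL3
      rw [mul_div_assoc', div_le_iff₀ hL0]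
      linarith
    have h4 : ‖Dsum χ.f (((1 + 1 / L : ℝ) : ℂ) + t * Complex.I) - L1‖ ≤ ‖L1‖ / 2 :=
      h1.trans ((mul_le_mul_of_nonneg_left h2 (by linarith)).trans h3)
    have h5 := norm_sub_norm_le L1 (L1 - Dsum χ.f (((1 + 1 / L : ℝ) : ℂ) + t * Complex.I))
    rw [sub_sub_cancel, norm_sub_rev] at h5
    have h6 : ‖L1 - Dsum χ.f (((1 + 1 / L : ℝ) : ℂ) + t * Complex.I)‖ ≤ ‖L1‖ / 2 := by
      rw [norm_sub_rev]; exact h4
    have h7 := norm_sub_norm_le L1 (Dsum χ.f (((1 + 1 / L : ℝ) : ℂ) + t * Complex.I))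
    linarith
  · have hpos : 0 < ‖r‖ := norm_pos_iff.2 hr0
    have hlogT : 0 ≤ C * (1 + Real.log (2 + T)) := by
      have : 0 ≤ Real.log (2 + T) := Real.log_nonneg (by linarith)
      have : 0 ≤ C := by linarith
      positivity
    refine ⟨1, max 1 ((1 + C * (1 + Real.log (2 + T))) * (1 + T) / ‖r‖), one_pos, le_max_left _ _,
      fun L hL t ht => ?_⟩
    have hL1' : 1 ≤ L := (le_max_left _ _).trans hL
    have hL3 : (1 + C * (1 + Real.log (2 + T))) * (1 + T) / ‖r‖ ≤ L := (le_max_right _ _).trans hL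
    have hL0 : 0 < L := by linarith
    have h1 := hs (((1 + 1 / L : ℝ) : ℂ) + t * Complex.I) (by rw [hre]; exact (hσ L hL1').1)
      (by rw [hre]; exact (hσ L hL1').2)
    rw [him] at h1
    have h2 := hnorm L t hL1' ht
    set s := (((1 + 1 / L : ℝ) : ℂ) + t * Complex.I) with hsdef
    have hs0 : 0 < ‖s - 1‖ := by
      rw [norm_pos_iff]
      intro h
      have := congrArg Complex.re h
      rw [Complex.sub_re, hre, Complex.one_re, Complex.zero_re, add_sub_cancel_left] at this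
      have h3 : 0 < 1 / L := by positivity
      linarith
    have h3 : ‖r‖ * L / (1 + T) ≤ ‖r / (s - 1)‖ := by
      rw [norm_div, div_le_div_iff₀ (by linarith) hs0]
      have h4 : ‖s - 1‖ * L ≤ 1 + T := by
        rw [le_div_iff₀ hL0] at h2
        exact h2
      calc ‖r‖ * L * ‖s - 1‖ = ‖r‖ * (‖s - 1‖ * L) := by ring
        _ ≤ ‖r‖ * (1 + T) := mul_le_mul_of_nonneg_left h4 hpos.le
    have h4 : 1 + C * (1 + Real.log (2 + T)) ≤ ‖r‖ * L / (1 + T) := by
      rw [div_le_iff₀ hpos] at hL3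
      rw [le_div_iff₀ (by linarith)]
      linarith
    have ht1 : |t| ≤ T := by
      refine le_trans ?_ ht
      exact le_mul_of_one_le_right (abs_nonneg t) hL1'
    have h5 : C * (1 + Real.log (2 + |t|)) ≤ C * (1 + Real.log (2 + T)) := by
      have := Real.log_le_log (by positivity) (show 2 + |t| ≤ 2 + T by linarith)
      exact mul_le_mul_of_nonneg_left (by linarith) (by linarith)
    have h6 := norm_sub_norm_le (r / (s - 1)) (r / (s - 1) - Dsum χ.f s)
    rw [sub_sub_cancel] at h6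
    rw [norm_sub_rev] at h1
    linarith

theorem sup_zero_pr {m : G} (hm : m ≠ 0) (χ : MChar m) (η K₀ : ℝ) (hη : 0 < η) (hK : 1 ≤ K₀) :
    ∃ X₀ : ℝ, ∀ X : ℝ, X₀ ≤ X → χ.f ui = 1 → ∀ t : ℝ,
      |t| ≤ K₀ * Real.log X → ‖Dsum (fun z => (gl z : ℂ) * χ.f z)
        ((1 + 1 / Real.log X : ℝ) + t * Complex.I)‖ ≤ η * Real.log X := by
  by_cases hui : χ.f ui = 1
  swap
  · exact ⟨0, fun X _ h => absurd h hui⟩
  have hui' : xi χ 0 ui = 1 := by rw [suz_xi]; exact hui
  have hper : ∀ z w, (fun z => xi χ 0 z ^ 2) (z + m * w) = (fun z => xi χ 0 z ^ 2) z := by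
    intro z w
    simp only [suz_xi, χ.per]
  have hb : ∀ z, ‖(fun z => xi χ 0 z ^ 2) z‖ ≤ 1 := by
    intro z
    simp only [suz_xi, norm_pow]
    exact pow_le_one₀ (norm_nonneg _) (suz_bd χ z)
  obtain ⟨C2, r2, hC2, hr2, h2, -⟩ := dsum_periodic hm (fun z => xi χ 0 z ^ 2) hper hb
  obtain ⟨T, L₁, hT, hL₁, hfar⟩ := suz_far χ hui' η K₀ hη (by linarith) r2 C2 (by linarith) h2
  obtain ⟨L₂, hL₂, hnear⟩ : ∃ L₂ : ℝ, 1 ≤ L₂ ∧ ∀ L : ℝ, L₂ ≤ L → ∀ t : ℝ, r2 ≠ 0 → |t| * L ≤ T →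
      ‖Dsum (fun z => (gl z : ℂ) * xi χ 0 z) ((1 + 1 / L : ℝ) + t * Complex.I)‖ ≤ η * L := by
    by_cases hr : r2 = 0
    · exact ⟨1, le_rfl, fun L _ t h => absurd hr h⟩
    · have hreal : ∀ z, IsCoprime z m → χ.f z = 1 ∨ χ.f z = -1 := by
        intro z hz
        by_contra hc
        have hc1 : (fun z => xi χ 0 z ^ 2) z ≠ 1 := by
          simp only [suz_xi]
          intro h
          exact hc (mul_self_eq_one_iff.1 (by rw [← sq]; exact h))
        have := suz_fin (nn m) (nn_pos.2 hm)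
        have := Fintype.ofFinite (suz_V (nn m))
        have h3 := suz_orth (f := fun z => xi χ 0 z ^ 2) hper
          (fun z w => by simp only [suz_xi, χ.mul]; ring) hz hc1
        have h4 := suz_mean hm hper hr2
        rw [h3, mul_zero] at h4
        exact hr h4
      obtain ⟨c, L₀, hc, hL₀, hlow⟩ := suz_near hm χ hui T hT hreal
      obtain ⟨C3, hC3, hinv⟩ := sup_inv
      refine ⟨max L₀ (C3 / (c * η)), hL₀.trans (le_max_left _ _), fun L hL t _ ht => ?_⟩
      have hL1 : L₀ ≤ L := (le_max_left _ _).trans hL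
      have hL3 : C3 / (c * η) ≤ L := (le_max_right _ _).trans hL
      have hL0 : 0 < L := by linarith
      have hσ1 : 1 < 1 + 1 / L := by
        have : 0 < 1 / L := by positivity
        linarith
      have hσ2 : 1 + 1 / L ≤ 2 := by
        have : 1 / L ≤ 1 := by rw [div_le_one hL0]; linarith
        linarith
      have h5 := hinv m χ 0 hui' (1 + 1 / L) t hσ1 hσ2
      have h6 := hlow L hL1 t ht
      rw [div_le_iff₀ (by positivity)] at hL3
      have h7 : ‖Dsum (fun z => (gl z : ℂ) * xi χ 0 z) ((1 + 1 / L : ℝ) + t * Complex.I)‖ * c ≤ C3 :=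
        (mul_le_mul_of_nonneg_left h6 (norm_nonneg _)).trans h5
      have h8 : ‖Dsum (fun z => (gl z : ℂ) * xi χ 0 z) ((1 + 1 / L : ℝ) + t * Complex.I)‖ * c ≤ (η * L) * c := by
        linarith
      exact le_of_mul_le_mul_right h8 hc
  refine ⟨Real.exp (max L₁ L₂), fun X hX _ t ht => ?_⟩
  have hX0 : 0 < X := (Real.exp_pos _).trans_le hX
  have hLX : max L₁ L₂ ≤ Real.log X := (Real.le_log_iff_exp_le hX0).2 hX
  have e : (fun z => (gl z : ℂ) * χ.f z) = fun z => (gl z : ℂ) * xi χ 0 z := by rw [suz_xi]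
  rw [e]
  by_cases hr : r2 = 0
  · exact hfar _ ((le_max_left _ _).trans hLX) t ht (Or.inl hr)
  · rcases le_total T (|t| * Real.log X) with h | h
    · exact hfar _ ((le_max_left _ _).trans hLX) t ht (Or.inr h)
    · exact hnear _ ((le_max_right _ _).trans hLX) t hr h

end Pool.Agent.T2


namespace Pool.Agent.T2

theorem sup_zero : type_of% @sup_zero_pr := @sup_zero_pr

end Pool.Agent.T2
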