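import Pool.Agent.Lib_helper10.T2.Defs
import Pool.Agent.Lib_helper10.T2F.BAS
import Pool.Agent.Lib_helper10.T2F.CNT
import Pool.Agent.Lib_helper10.T2F.MOE
import Pool.Agent.Lib_helper10.T2F.MVB
import Pool.Agent.Lib_helper10.T2F.SUK
import Pool.Agent.Lib_helper10.T2F.SUZ

/-! T2, block PTW: every single frequency. -/

namespace Pool.Agent.T2

open Filter Topology MeasureTheory

/-- the sum over all nonzero elements -/
noncomputable def ptw_S (f : G → ℂ) (x : ℝ) : ℂ := ∑ z ∈ Bl x, f z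

/-- the sum with the logarithm -/
noncomputable def ptw_B (f : G → ℂ) (x : ℝ) : ℂ := ∑ z ∈ Bl x, (Real.log (nn z) : ℂ) * f z

theorem ptw_Bl_floor (u : ℝ) : Bl u = Bl (⌊u⌋₊ : ℝ) := by
  ext z
  rw [mem_Bl, mem_Bl]
  constructor
  · rintro ⟨h1, h2⟩
    refine ⟨h1, ?_⟩
    exact_mod_cast Nat.le_floor h2
  · rintro ⟨h1, h2⟩
    refine ⟨h1, ?_⟩
    have h3 : nn z ≤ ⌊u⌋₊ := by exact_mod_cast h2
    have h4 : nn z ≠ 0 := (nn_pos.mpr h1).ne'
    exact (Nat.le_floor_iff' h4).mp h3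

theorem ptw_Bl_div (Y d : ℕ) : Bl ((Y : ℝ) / (d : ℝ) ^ 2) = Bl ((Y / d ^ 2 : ℕ) : ℝ) := by
  rw [ptw_Bl_floor]
  congr 2
  have := Nat.floor_div_natCast (K := ℝ) (Y : ℝ) (d ^ 2)
  rw [Nat.floor_natCast] at this
  push_cast at this
  exact this

theorem ptw_Bl_zero : Bl (0 : ℝ) = ∅ := by
  ext z
  rw [mem_Bl]
  simp only [Finset.notMem_empty, iff_false, not_and, not_le]
  intro h
  exact_mod_cast nn_pos.mpr h

theorem ptw_chi_le {m : G} (χ : MChar m) (z : G) : ‖χ.f z‖ ≤ 1 := by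
  by_cases h : IsCoprime z m
  · rw [χ.nrm z h]
  · rw [χ.zero z h]; simp

theorem ptw_ang_one (k : ℤ) : ang k 1 = 1 := by
  have := ang_nat k (n := 1) le_rfl
  simpa using this

theorem ptw_CM {m : G} (χ : MChar m) (k : ℤ) (h : xi χ k ui = 1) :
    CM (fun z => (gl z : ℂ) * xi χ k z) where
  zero := by simp [gl_zero]
  one := by simp [gl_one, xi, χ.one, ptw_ang_one]
  unit := by simp [gl_ui, h]
  mul := by
    intro z w
    simp only [xi, gl_mul, χ.mul, ang_mul]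
    push_cast
    ring
  bd := by
    intro z
    simp only [xi, norm_mul]
    have h1 : ‖(gl z : ℂ)‖ ≤ 1 := by
      rw [Complex.norm_real, Real.norm_eq_abs]; exact gl_abs z
    have h2 := ptw_chi_le χ z
    have h3 := ang_le k z
    calc ‖(gl z : ℂ)‖ * (‖χ.f z‖ * ‖ang k z‖) ≤ 1 * (1 * 1) := by gcongr
      _ = 1 := by norm_num

/-- the vanishing of the sums if the character is not trivial on units -/
theorem ptw_zero {m : G} (χ : MChar m) (k : ℤ) (h : xi χ k ui ≠ 1) (Y : ℝ) : Sm χ k Y = 0 := by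
  have hnu : nn ui = 1 := by
    have := nn_cast ui
    simp [ui] at this
    exact_mod_cast this
  have huu : ui * (-ui) = 1 := by
    ext <;> simp [ui]
  have h1 : Sm χ k Y = xi χ k ui * Sm χ k Y := by
    unfold Sm
    rw [Finset.mul_sum]
    symm
    apply Finset.sum_nbij' (i := fun z => ui * z) (j := fun z => (-ui) * z)
    · intro z hz
      rw [mem_PB] at hz ⊢
      refine ⟨prm_mul_left (w := -ui) (by
        rw [mul_comm, ← mul_assoc, mul_comm (-ui) ui, huu, one_mul]; exact hz.1), ?_⟩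
      rw [nn_mul, hnu, one_mul]; exact hz.2
    · intro z hz
      rw [mem_PB] at hz ⊢
      refine ⟨prm_mul_left (w := ui) (by
        rw [mul_comm, ← mul_assoc, huu, one_mul]; exact hz.1), ?_⟩
      rw [nn_mul]
      have : nn (-ui) = 1 := by
        have := nn_cast (-ui)
        simp [ui] at this
        exact_mod_cast this
      rw [this, one_mul]; exact hz.2
    · intro z _
      rw [← mul_assoc, mul_comm (-ui) ui, huu, one_mul]
    · intro z _
      rw [← mul_assoc, huu, one_mul]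
    · intro z _
      rw [gl_mul, gl_ui, one_mul]
      simp only [xi, χ.mul, ang_mul]
      ring
  have h2 : (1 - xi χ k ui) * Sm χ k Y = 0 := by
    rw [sub_mul, one_mul, ← h1, sub_self]
  rcases mul_eq_zero.mp h2 with h3 | h3
  · exact absurd (sub_eq_zero.mp h3).symm h
  · exact h3

/-- partial summation: the elementary estimate -/
theorem ptw_T (A : ℝ) (hA : ∀ x : ℝ, 0 ≤ x → ((Bl x).card : ℝ) ≤ A * x) (n : ℕ) (hn : 1 ≤ n) :
    ∑ z ∈ Bl (n : ℝ), (Real.log n - Real.log (nn z)) ≤ A * n := by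
  have hA0 : 0 ≤ A := by
    have := hA 1 zero_le_one
    have h2 : (0 : ℝ) ≤ ((Bl 1).card : ℝ) := by positivity
    linarith
  induction n, hn using Nat.le_induction with
  | base =>
    have : ∀ z ∈ Bl ((1 : ℕ) : ℝ), (Real.log ((1 : ℕ) : ℝ) - Real.log (nn z)) = 0 := by
      intro z hz
      rw [mem_Bl] at hz
      have h1 : nn z ≤ 1 := by exact_mod_cast hz.2
      have h2 : 0 < nn z := nn_pos.mpr hz.1
      have h3 : nn z = 1 := by omega
      rw [h3]; simp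
    rw [Finset.sum_eq_zero this]
    positivity
  | succ n hn ih =>
    have hn0 : (0 : ℝ) < n := by exact_mod_cast hn
    have hsub : Bl (n : ℝ) ⊆ Bl ((n + 1 : ℕ) : ℝ) := by
      intro z hz
      rw [mem_Bl] at hz ⊢
      refine ⟨hz.1, hz.2.trans ?_⟩
      push_cast; linarith
    have h1 : ∑ z ∈ Bl ((n + 1 : ℕ) : ℝ), (Real.log ((n + 1 : ℕ) : ℝ) - Real.log (nn z)) =
        ∑ z ∈ Bl (n : ℝ), (Real.log ((n + 1 : ℕ) : ℝ) - Real.log (nn z)) := by
      symm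
      apply Finset.sum_subset hsub
      intro z hz hz2
      rw [mem_Bl] at hz hz2
      have h2 : nn z ≤ n + 1 := by exact_mod_cast hz.2
      have h3 : ¬ nn z ≤ n := fun h => hz2 ⟨hz.1, by exact_mod_cast h⟩
      have h4 : nn z = n + 1 := by omega
      rw [h4, sub_self]
    rw [h1]
    have h2 : ∑ z ∈ Bl (n : ℝ), (Real.log ((n + 1 : ℕ) : ℝ) - Real.log (nn z)) =
        ∑ z ∈ Bl (n : ℝ), (Real.log n - Real.log (nn z)) +
          ((Bl (n : ℝ)).card : ℝ) * (Real.log ((n + 1 : ℕ) : ℝ) - Real.log n) := by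
      rw [← nsmul_eq_mul, ← Finset.sum_const, ← Finset.sum_add_distrib]
      apply Finset.sum_congr rfl
      intro z _; ring
    rw [h2]
    have h3 : Real.log ((n + 1 : ℕ) : ℝ) - Real.log n ≤ 1 / n := by
      rw [← Real.log_div (by positivity) hn0.ne']
      have h4 : ((n + 1 : ℕ) : ℝ) / n = 1 + 1 / n := by push_cast; field_simp
      rw [h4]
      have := Real.log_le_sub_one_of_pos (x := 1 + 1 / (n : ℝ)) (by positivity)
      linarith
    have h5 : 0 ≤ Real.log ((n + 1 : ℕ) : ℝ) - Real.log n := by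
      have : Real.log n ≤ Real.log ((n + 1 : ℕ) : ℝ) := Real.log_le_log hn0 (by push_cast; linarith)
      linarith
    have h6 : ((Bl (n : ℝ)).card : ℝ) * (Real.log ((n + 1 : ℕ) : ℝ) - Real.log n) ≤ A := by
      calc ((Bl (n : ℝ)).card : ℝ) * (Real.log ((n + 1 : ℕ) : ℝ) - Real.log n)
          ≤ (A * n) * (1 / n) := by
            apply mul_le_mul (hA n hn0.le) h3 h5 (by positivity)
        _ = A := by field_simp
    have h7 : A * ((n + 1 : ℕ) : ℝ) = A * n + A := by push_cast; ring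
    rw [h7]
    linarith

theorem ptw_partial {f : G → ℂ} (hb : ∀ z, ‖f z‖ ≤ 1) (A : ℝ)
    (hA : ∀ x : ℝ, 0 ≤ x → ((Bl x).card : ℝ) ≤ A * x) (n : ℕ) (hn : 1 ≤ n) :
    ‖ptw_S f n‖ * Real.log n ≤ ‖ptw_B f n‖ + A * n := by
  have hn1 : (1 : ℝ) ≤ n := by exact_mod_cast hn
  have h1 : (Real.log n : ℂ) * ptw_S f n =
      ptw_B f n + ∑ z ∈ Bl (n : ℝ), ((Real.log n - Real.log (nn z) : ℝ) : ℂ) * f z := by
    unfold ptw_S ptw_B
    rw [Finset.mul_sum, ← Finset.sum_add_distrib]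
    apply Finset.sum_congr rfl
    intro z _
    push_cast
    ring
  have h2 : ‖∑ z ∈ Bl (n : ℝ), ((Real.log n - Real.log (nn z) : ℝ) : ℂ) * f z‖ ≤ A * n := by
    refine le_trans (norm_sum_le _ _) (le_trans (Finset.sum_le_sum ?_) (ptw_T A hA n hn))
    intro z hz
    rw [mem_Bl] at hz
    rw [norm_mul, Complex.norm_real, Real.norm_eq_abs]
    have h3 : (0 : ℝ) < nn z := by exact_mod_cast nn_pos.mpr hz.1
    have h4 : 0 ≤ Real.log n - Real.log (nn z) := by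
      have := Real.log_le_log h3 hz.2
      linarith
    rw [abs_of_nonneg h4]
    have := hb z
    nlinarith
  have h5 : ‖ptw_S f n‖ * Real.log n = ‖(Real.log n : ℂ) * ptw_S f n‖ := by
    rw [norm_mul, Complex.norm_real, Real.norm_eq_abs, abs_of_nonneg (Real.log_nonneg hn1),
      mul_comm]
  rw [h5, h1]
  exact (norm_add_le _ _).trans (by linarith)

theorem ptw_S_le {f : G → ℂ} (hb : ∀ z, ‖f z‖ ≤ 1) (A : ℝ)
    (hA : ∀ x : ℝ, 0 ≤ x → ((Bl x).card : ℝ) ≤ A * x) (x : ℝ) (hx : 0 ≤ x) :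
    ‖ptw_S f x‖ ≤ A * x := by
  unfold ptw_S
  calc ‖∑ z ∈ Bl x, f z‖ ≤ ∑ z ∈ Bl x, ‖f z‖ := norm_sum_le _ _
    _ ≤ ∑ z ∈ Bl x, (1 : ℝ) := Finset.sum_le_sum (fun z _ => hb z)
    _ = ((Bl x).card : ℝ) := by simp
    _ ≤ A * x := hA x hx

theorem ptw_B_le {f : G → ℂ} (hb : ∀ z, ‖f z‖ ≤ 1) (A : ℝ)
    (hA : ∀ x : ℝ, 0 ≤ x → ((Bl x).card : ℝ) ≤ A * x) (x : ℝ) (hx : 1 ≤ x) :
    ‖ptw_B f x‖ ≤ A * x * Real.log x := by
  unfold ptw_B
  calc ‖∑ z ∈ Bl x, (Real.log (nn z) : ℂ) * f z‖ ≤ ∑ z ∈ Bl x, ‖(Real.log (nn z) : ℂ) * f z‖ :=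
        norm_sum_le _ _
    _ ≤ ∑ z ∈ Bl x, Real.log x := by
        apply Finset.sum_le_sum
        intro z hz
        rw [mem_Bl] at hz
        have h3 : 0 < nn z := nn_pos.mpr hz.1
        have h3' : (1 : ℝ) ≤ nn z := by exact_mod_cast h3
        rw [norm_mul, Complex.norm_real, Real.norm_eq_abs, abs_of_nonneg (Real.log_nonneg h3')]
        have h4 := Real.log_le_log (by linarith) hz.2
        have h5 := hb z
        have h6 := Real.log_nonneg h3'
        have h7 : 0 ≤ ‖f z‖ := norm_nonneg _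
        nlinarith
    _ = ((Bl x).card : ℝ) * Real.log x := by rw [Finset.sum_const, nsmul_eq_mul]
    _ ≤ A * x * Real.log x := by
        apply mul_le_mul_of_nonneg_right (hA x (by linarith)) (Real.log_nonneg hx)

theorem ptw_int {f : G → ℂ} (hb : ∀ z, ‖f z‖ ≤ 1) (A : ℝ)
    (hA : ∀ x : ℝ, 0 ≤ x → ((Bl x).card : ℝ) ≤ A * x) (L : ℝ) (hL : 1 ≤ L) :
    IntegrableOn (fun u : ℝ => ‖ptw_B f u‖ ^ 2 * u ^ (-(3 + 2 / L))) (Set.Ioi 1) := by
  have hL0 : 0 < L := by linarith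
  have hmeas : Measurable (fun u : ℝ => ‖ptw_B f u‖ ^ 2 * u ^ (-(3 + 2 / L))) := by
    have h1 : (fun u : ℝ => ptw_B f u) = (fun n : ℕ => ptw_B f (n : ℝ)) ∘ (fun u : ℝ => ⌊u⌋₊) := by
      funext u
      simp only [Function.comp, ptw_B]
      rw [ptw_Bl_floor]
    have h2 : Measurable (fun u : ℝ => ptw_B f u) := by
      rw [h1]
      exact (measurable_from_top).comp Nat.measurable_floor
    exact (h2.norm.pow_const 2).mul (by fun_prop)
  have hdom : IntegrableOn (fun u : ℝ => (A ^ 2 * (16 * L ^ 2)) * u ^ (-(1 + 3 / (2 * L))))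
      (Set.Ioi 1) := by
    apply Integrable.const_mul
    apply integrableOn_Ioi_rpow_of_lt _ zero_lt_one
    have : 0 < 3 / (2 * L) := by positivity
    linarith
  refine Integrable.mono' hdom hmeas.aestronglyMeasurable ?_
  rw [ae_restrict_iff' measurableSet_Ioi]
  refine Eventually.of_forall (fun u hu => ?_)
  have hu1 : (1 : ℝ) < u := hu
  have hu0 : 0 < u := by linarith
  rw [Real.norm_eq_abs, abs_of_nonneg (by positivity)]
  have h1 := ptw_B_le hb A hA u hu1.le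
  have h2 : Real.log u ≤ u ^ (1 / (4 * L)) / (1 / (4 * L)) :=
    Real.log_le_rpow_div hu0.le (by positivity)
  have h3 : u ^ (1 / (4 * L)) / (1 / (4 * L)) = 4 * L * u ^ (1 / (4 * L)) := by
    field_simp
  rw [h3] at h2
  have h4 : 0 ≤ Real.log u := Real.log_nonneg hu1.le
  have hA0 : 0 ≤ A := by
    have := hA 1 zero_le_one
    have h2 : (0 : ℝ) ≤ ((Bl 1).card : ℝ) := by positivity
    linarith
  calc ‖ptw_B f u‖ ^ 2 * u ^ (-(3 + 2 / L))
      ≤ (A * u * (4 * L * u ^ (1 / (4 * L)))) ^ 2 * u ^ (-(3 + 2 / L)) := by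
        gcongr
        exact h1.trans (by gcongr)
    _ = (A ^ 2 * (16 * L ^ 2)) * (u ^ (2 : ℝ) * (u ^ (1 / (4 * L)) * u ^ (1 / (4 * L))) *
          u ^ (-(3 + 2 / L))) := by
        rw [Real.rpow_two]; ring
    _ = _ := by
        rw [← Real.rpow_add hu0, ← Real.rpow_add hu0, ← Real.rpow_add hu0]
        congr 2
        field_simp
        ring

/-- from the integral to the sum -/
theorem ptw_sumB {f : G → ℂ} (hb : ∀ z, ‖f z‖ ≤ 1) (A : ℝ)
    (hA : ∀ x : ℝ, 0 ≤ x → ((Bl x).card : ℝ) ≤ A * x) (X : ℝ) (hX3 : 3 ≤ X)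
    (hX : 1 ≤ Real.log X) :
    ∑ n ∈ Finset.Icc 1 ⌊X⌋₊, ‖ptw_B f (n : ℝ)‖ ^ 2 / (n : ℝ) ^ 3 ≤
      256 * ∫ u in Set.Ioi (1 : ℝ), ‖ptw_B f u‖ ^ 2 * u ^ (-(3 + 2 / Real.log X)) := by
  have hX0 : 0 < X := by linarith
  have hlogX : Real.exp (Real.log X) = X := Real.exp_log hX0
  set L := Real.log X with hLdef
  have hL0 : 0 < L := by linarith
  set F : ℝ → ℝ := fun u => ‖ptw_B f u‖ ^ 2 * u ^ (-(3 + 2 / L)) with hFdef
  have hFint : IntegrableOn F (Set.Ioi 1) := ptw_int hb A hA L hX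
  set N := ⌊X⌋₊ with hN
  have hIcc : Finset.Icc 1 N = Finset.Ico 1 (N + 1) := by
    ext n; simp only [Finset.mem_Icc, Finset.mem_Ico]; omega
  have hii : ∀ n : ℕ, 1 ≤ n → IntervalIntegrable F volume (n : ℝ) ((n + 1 : ℕ) : ℝ) := by
    intro n hn
    rw [intervalIntegrable_iff_integrableOn_Ioc_of_le (by push_cast; linarith)]
    apply hFint.mono_set
    intro u hu
    have : (1 : ℝ) ≤ n := by exact_mod_cast hn
    exact lt_of_le_of_lt this hu.1
  have hterm : ∀ n ∈ Finset.Ico 1 (N + 1), ‖ptw_B f (n : ℝ)‖ ^ 2 / (n : ℝ) ^ 3 ≤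
      256 * ∫ u in (n : ℝ)..((n + 1 : ℕ) : ℝ), F u := by
    intro n hn
    rw [Finset.mem_Ico] at hn
    have hn1 : (1 : ℝ) ≤ n := by exact_mod_cast hn.1
    have hn0 : (0 : ℝ) < n := by linarith
    have hnX : (n : ℝ) ≤ X := by
      have : n ≤ N := by omega
      exact (Nat.le_floor_iff hX0.le).mp this
    have h1 : ∫ _u in (n : ℝ)..((n + 1 : ℕ) : ℝ), ‖ptw_B f (n : ℝ)‖ ^ 2 *
        ((n : ℝ) + 1) ^ (-(3 + 2 / L)) ≤ ∫ u in (n : ℝ)..((n + 1 : ℕ) : ℝ), F u := by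
      apply intervalIntegral.integral_mono_on_of_le_Ioo (by push_cast; linarith)
        intervalIntegrable_const (hii n hn.1)
      intro u hu
      have hfl : ⌊u⌋₊ = n := by
        rw [Nat.floor_eq_iff (by linarith [hu.1])]
        refine ⟨hu.1.le, ?_⟩
        have := hu.2; push_cast at this; exact this
      have hB : ptw_B f u = ptw_B f (n : ℝ) := by
        unfold ptw_B
        rw [ptw_Bl_floor u, hfl]
      simp only [hFdef, hB]
      apply mul_le_mul_of_nonneg_left _ (by positivity)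
      apply Real.rpow_le_rpow_of_nonpos (by linarith [hu.1])
      · have := hu.2; push_cast at this; exact this.le
      · have : 0 < 2 / L := by positivity
        linarith
    rw [intervalIntegral.integral_const] at h1
    have h2 : (((n + 1 : ℕ) : ℝ) - n) = 1 := by push_cast; ring
    rw [h2, one_smul] at h1
    have h3 : 1 / (n : ℝ) ^ 3 ≤ 256 * ((n : ℝ) + 1) ^ (-(3 + 2 / L)) := by
      have h4 : (2 * (n : ℝ)) ^ (-(3 + 2 / L)) ≤ ((n : ℝ) + 1) ^ (-(3 + 2 / L)) := by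
        apply Real.rpow_le_rpow_of_nonpos (by linarith) (by linarith)
        have : 0 < 2 / L := by positivity
        linarith
      have h5 : (2 * (n : ℝ)) ^ (3 + 2 / L) ≤ 256 * (n : ℝ) ^ 3 := by
        rw [Real.rpow_add (by linarith)]
        have h6 : (2 * (n : ℝ)) ^ (3 : ℝ) = 8 * (n : ℝ) ^ 3 := by
          rw [show (3 : ℝ) = ((3 : ℕ) : ℝ) by norm_num, Real.rpow_natCast]; ring
        have h7 : (2 * (n : ℝ)) ^ (2 / L) ≤ 32 := by
          rw [Real.rpow_def_of_pos (by linarith)]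
          have h8 : Real.log (2 * (n : ℝ)) * (2 / L) ≤ 2 + 2 * Real.log 2 := by
            rw [Real.log_mul (by norm_num) hn0.ne']
            have h9 : Real.log n ≤ L := Real.log_le_log hn0 hnX
            have h10 : 0 ≤ Real.log 2 := Real.log_nonneg (by norm_num)
            rw [mul_div_assoc', div_le_iff₀ hL0]
            nlinarith
          calc Real.exp (Real.log (2 * (n : ℝ)) * (2 / L)) ≤ Real.exp (2 + 2 * Real.log 2) :=
                Real.exp_le_exp.mpr h8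
            _ = Real.exp 1 ^ 2 * 4 := by
                rw [Real.exp_add, two_mul (Real.log 2), Real.exp_add, Real.exp_log (by norm_num),
                  ← Real.exp_nat_mul]
                norm_num
            _ ≤ 32 := by
                have := Real.exp_one_lt_d9
                have h0 := Real.exp_pos 1
                nlinarith
        rw [h6]
        have : 0 < 8 * (n : ℝ) ^ 3 := by positivity
        nlinarith
      have h11 : (0 : ℝ) < (2 * (n : ℝ)) ^ (3 + 2 / L) := by positivity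
      calc 1 / (n : ℝ) ^ 3 = 256 * (1 / (256 * (n : ℝ) ^ 3)) := by field_simp
        _ ≤ 256 * (1 / (2 * (n : ℝ)) ^ (3 + 2 / L)) := by
            gcongr
        _ = 256 * (2 * (n : ℝ)) ^ (-(3 + 2 / L)) := by
            rw [Real.rpow_neg (by positivity), one_div]
        _ ≤ _ := by gcongr
    calc ‖ptw_B f (n : ℝ)‖ ^ 2 / (n : ℝ) ^ 3 = ‖ptw_B f (n : ℝ)‖ ^ 2 * (1 / (n : ℝ) ^ 3) := by ring
      _ ≤ ‖ptw_B f (n : ℝ)‖ ^ 2 * (256 * ((n : ℝ) + 1) ^ (-(3 + 2 / L))) := by gcongr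
      _ = 256 * (‖ptw_B f (n : ℝ)‖ ^ 2 * ((n : ℝ) + 1) ^ (-(3 + 2 / L))) := by ring
      _ ≤ _ := by gcongr
  rw [hIcc]
  refine (Finset.sum_le_sum hterm).trans ?_
  rw [← Finset.mul_sum]
  apply mul_le_mul_of_nonneg_left _ (by norm_num)
  have hadj := intervalIntegral.sum_integral_adjacent_intervals_Ico (f := F) (μ := volume)
    (a := fun k : ℕ => (k : ℝ)) (m := 1) (n := N + 1) (by omega)
    (fun k hk => hii k hk.1)
  rw [hadj]
  simp only [Nat.cast_one]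
  rw [intervalIntegral.integral_of_le (by push_cast; linarith [show (0 : ℝ) ≤ N by positivity])]
  apply setIntegral_mono_set hFint
  · exact Eventually.of_forall (fun u => by
      by_cases hu : 0 ≤ u
      · simp only [hFdef]; positivity
      · simp only [hFdef, Pi.zero_apply]
        have : ptw_B f u = 0 := by
          unfold ptw_B
          rw [ptw_Bl_floor u, Nat.floor_of_nonpos (by linarith), Nat.cast_zero, ptw_Bl_zero,
            Finset.sum_empty]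
        rw [this]; simp)
  · exact (Set.Ioc_subset_Ioi_self).eventuallyLE

theorem ptw_harm (M : ℕ) (hM : 1 ≤ M) : ∑ n ∈ Finset.Icc 1 M, 1 / (n : ℝ) ≤ 1 + Real.log M := by
  have := harmonic_le_one_add_log M
  rw [harmonic_eq_sum_Icc] at this
  push_cast at this
  simpa [one_div] using this

/-- the sums over all elements -/
theorem ptw_sumS {f : G → ℂ} (hb : ∀ z, ‖f z‖ ≤ 1) (A : ℝ) (hA1 : 1 ≤ A)
    (hA : ∀ x : ℝ, 0 ≤ x → ((Bl x).card : ℝ) ≤ A * x) (X θ I : ℝ) (hX3 : 3 ≤ X)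
    (hX : 1 ≤ Real.log X) (hθ : 0 < θ) (hθ1 : θ ≤ 1)
    (hI : ∑ n ∈ Finset.Icc 1 ⌊X⌋₊, ‖ptw_B f (n : ℝ)‖ ^ 2 / (n : ℝ) ^ 3 ≤ I) :
    ∑ n ∈ Finset.Icc 1 ⌊X⌋₊, ‖ptw_S f (n : ℝ)‖ ^ 2 / (n : ℝ) ^ 3 ≤
      A ^ 2 * (1 + θ * Real.log X) +
        2 / (θ ^ 2 * Real.log X ^ 2) * (I + A ^ 2 * (1 + Real.log X)) := by
  classical
  have hX0 : 0 < X := by linarith
  set L := Real.log X with hLdef
  have hL0 : 0 < L := by linarith
  set N := ⌊X⌋₊ with hN
  have hN1 : 1 ≤ N := Nat.one_le_floor_iff _ |>.mpr (by linarith)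
  have hN0 : (0 : ℝ) < N := by exact_mod_cast hN1
  have hNX : (N : ℝ) ≤ X := Nat.floor_le hX0.le
  set g : ℕ → ℝ := fun n => ‖ptw_S f (n : ℝ)‖ ^ 2 / (n : ℝ) ^ 3 with hg
  have hXθ1 : 1 ≤ X ^ θ := Real.one_le_rpow (by linarith) hθ.le
  set M := ⌊X ^ θ⌋₊ with hM
  have hM1 : 1 ≤ M := Nat.one_le_floor_iff _ |>.mpr hXθ1
  have hlow : ∀ n ∈ (Finset.Icc 1 N).filter (fun n : ℕ => (n : ℝ) < X ^ θ),
      g n ≤ A ^ 2 * (1 / (n : ℝ)) := by
    intro n hn
    rw [Finset.mem_filter, Finset.mem_Icc] at hn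
    have hn1 : (1 : ℝ) ≤ n := by exact_mod_cast hn.1.1
    have hn0 : (0 : ℝ) < n := by linarith
    have h1 := ptw_S_le hb A hA n hn0.le
    simp only [hg]
    calc ‖ptw_S f (n : ℝ)‖ ^ 2 / (n : ℝ) ^ 3 ≤ (A * n) ^ 2 / (n : ℝ) ^ 3 := by gcongr
      _ = A ^ 2 * (1 / (n : ℝ)) := by field_simp
  have hhigh : ∀ n ∈ (Finset.Icc 1 N).filter (fun n : ℕ => ¬ (n : ℝ) < X ^ θ),
      g n ≤ 2 / (θ ^ 2 * L ^ 2) *
        (‖ptw_B f (n : ℝ)‖ ^ 2 / (n : ℝ) ^ 3 + A ^ 2 * (1 / (n : ℝ))) := by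
    intro n hn
    rw [Finset.mem_filter, Finset.mem_Icc, not_lt] at hn
    have hn1 : (1 : ℝ) ≤ n := by exact_mod_cast hn.1.1
    have hn0 : (0 : ℝ) < n := by linarith
    have hlog : θ * L ≤ Real.log n := by
      have := Real.log_le_log (by positivity) hn.2
      rwa [Real.log_rpow hX0] at this
    have h1 := ptw_partial hb A hA n hn.1.1
    have h2 : ‖ptw_S f (n : ℝ)‖ * (θ * L) ≤ ‖ptw_B f (n : ℝ)‖ + A * n :=
      le_trans (mul_le_mul_of_nonneg_left hlog (norm_nonneg _)) h1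
    have hθL : 0 < θ * L := by positivity
    have h3 : ‖ptw_S f (n : ℝ)‖ ≤ (‖ptw_B f (n : ℝ)‖ + A * n) / (θ * L) := by
      rw [le_div_iff₀ hθL]; exact h2
    have h4 : ‖ptw_S f (n : ℝ)‖ ^ 2 ≤ 2 / (θ ^ 2 * L ^ 2) * (‖ptw_B f (n : ℝ)‖ ^ 2 + (A * n) ^ 2) := by
      calc ‖ptw_S f (n : ℝ)‖ ^ 2 ≤ ((‖ptw_B f (n : ℝ)‖ + A * n) / (θ * L)) ^ 2 := by gcongr
        _ = 1 / (θ ^ 2 * L ^ 2) * (‖ptw_B f (n : ℝ)‖ + A * n) ^ 2 := by
            field_simp
        _ ≤ 1 / (θ ^ 2 * L ^ 2) * (2 * (‖ptw_B f (n : ℝ)‖ ^ 2 + (A * n) ^ 2)) := by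
            gcongr
            nlinarith [sq_nonneg (‖ptw_B f (n : ℝ)‖ - A * n)]
        _ = _ := by ring
    simp only [hg]
    calc ‖ptw_S f (n : ℝ)‖ ^ 2 / (n : ℝ) ^ 3
        ≤ (2 / (θ ^ 2 * L ^ 2) * (‖ptw_B f (n : ℝ)‖ ^ 2 + (A * n) ^ 2)) / (n : ℝ) ^ 3 := by gcongr
      _ = _ := by
          have : ((A * n) ^ 2) / (n : ℝ) ^ 3 = A ^ 2 * (1 / (n : ℝ)) := by field_simp
          rw [mul_div_assoc, add_div, this]
  rw [← Finset.sum_filter_add_sum_filter_not (Finset.Icc 1 N) (fun n : ℕ => (n : ℝ) < X ^ θ)]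
  apply add_le_add
  · refine (Finset.sum_le_sum hlow).trans ?_
    rw [← Finset.mul_sum]
    apply mul_le_mul_of_nonneg_left _ (by positivity)
    calc ∑ n ∈ (Finset.Icc 1 N).filter (fun n : ℕ => (n : ℝ) < X ^ θ), 1 / (n : ℝ)
        ≤ ∑ n ∈ Finset.Icc 1 M, 1 / (n : ℝ) := by
          apply Finset.sum_le_sum_of_subset_of_nonneg
          · intro n hn
            rw [Finset.mem_filter, Finset.mem_Icc] at hn
            rw [Finset.mem_Icc]
            exact ⟨hn.1.1, Nat.le_floor hn.2.le⟩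
          · intro n _ _; positivity
      _ ≤ 1 + Real.log M := ptw_harm M hM1
      _ ≤ 1 + θ * L := by
          have h1 : Real.log M ≤ Real.log (X ^ θ) := by
            apply Real.log_le_log
            · exact_mod_cast hM1
            · exact Nat.floor_le (by positivity)
          rw [Real.log_rpow hX0] at h1
          linarith
  · refine (Finset.sum_le_sum hhigh).trans ?_
    rw [← Finset.mul_sum]
    apply mul_le_mul_of_nonneg_left _ (by positivity)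
    rw [Finset.sum_add_distrib, ← Finset.mul_sum]
    apply add_le_add
    · refine le_trans ?_ hI
      apply Finset.sum_le_sum_of_subset_of_nonneg (Finset.filter_subset _ _)
      intro n _ _; positivity
    · apply mul_le_mul_of_nonneg_left _ (by positivity)
      calc ∑ n ∈ (Finset.Icc 1 N).filter (fun n : ℕ => ¬ (n : ℝ) < X ^ θ), 1 / (n : ℝ)
          ≤ ∑ n ∈ Finset.Icc 1 N, 1 / (n : ℝ) := by
            apply Finset.sum_le_sum_of_subset_of_nonneg (Finset.filter_subset _ _)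
            intro n _ _; positivity
        _ ≤ 1 + Real.log N := ptw_harm N hN1
        _ ≤ 1 + L := by
            have := Real.log_le_log hN0 hNX
            linarith

/-- the sum over the multiples -/
theorem ptw_mult (f : G → ℂ) (N d : ℕ) (hd : 1 ≤ d) :
    ∑ Y ∈ Finset.Icc 1 N, ‖ptw_S f ((Y : ℝ) / (d : ℝ) ^ 2)‖ ^ 2 / (Y : ℝ) ^ 3 ≤
      (1 / (d : ℝ) ^ 4) * ∑ n ∈ Finset.Icc 1 N, ‖ptw_S f (n : ℝ)‖ ^ 2 / (n : ℝ) ^ 3 := by
  classical
  have hd0 : (0 : ℝ) < d := by exact_mod_cast hd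
  have hd2 : 0 < d ^ 2 := by positivity
  set h : ℕ × ℕ → ℝ := fun t => ‖ptw_S f (t.1 : ℝ)‖ ^ 2 / ((d : ℝ) ^ 2 * t.1) ^ 3 with hh
  have hS0 : ptw_S f ((0 : ℕ) : ℝ) = 0 := by
    unfold ptw_S
    rw [Nat.cast_zero, ptw_Bl_zero, Finset.sum_empty]
  have h1 : ∀ Y ∈ Finset.Icc 1 N, ‖ptw_S f ((Y : ℝ) / (d : ℝ) ^ 2)‖ ^ 2 / (Y : ℝ) ^ 3 ≤
      h (Y / d ^ 2, Y % d ^ 2) := by
    intro Y hY
    rw [Finset.mem_Icc] at hY
    have e1 : ptw_S f ((Y : ℝ) / (d : ℝ) ^ 2) = ptw_S f ((Y / d ^ 2 : ℕ) : ℝ) := by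
      unfold ptw_S
      rw [ptw_Bl_div]
    rw [e1]
    simp only [hh]
    rcases Nat.eq_zero_or_pos (Y / d ^ 2) with h0 | h0
    · rw [h0, hS0]; simp
    · have h2 : d ^ 2 * (Y / d ^ 2) ≤ Y := Nat.mul_div_le Y (d ^ 2)
      have h3 : (d : ℝ) ^ 2 * ((Y / d ^ 2 : ℕ) : ℝ) ≤ Y := by exact_mod_cast h2
      have h4 : (0 : ℝ) < ((Y / d ^ 2 : ℕ) : ℝ) := by exact_mod_cast h0
      gcongr
  refine (Finset.sum_le_sum h1).trans ?_
  have hinj : Set.InjOn (fun Y : ℕ => (Y / d ^ 2, Y % d ^ 2)) (Finset.Icc 1 N : Finset ℕ) := by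
    intro Y _ Z _ hYZ
    simp only [Prod.mk.injEq] at hYZ
    rw [← Nat.div_add_mod Y (d ^ 2), ← Nat.div_add_mod Z (d ^ 2), hYZ.1, hYZ.2]
  rw [← Finset.sum_image (f := h) hinj]
  calc ∑ t ∈ (Finset.Icc 1 N).image (fun Y : ℕ => (Y / d ^ 2, Y % d ^ 2)), h t
      ≤ ∑ t ∈ (Finset.range (N + 1)) ×ˢ (Finset.range (d ^ 2)), h t := by
        apply Finset.sum_le_sum_of_subset_of_nonneg
        · intro t ht
          rw [Finset.mem_image] at ht
          obtain ⟨Y, hY, rfl⟩ := ht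
          rw [Finset.mem_Icc] at hY
          rw [Finset.mem_product, Finset.mem_range, Finset.mem_range]
          refine ⟨?_, Nat.mod_lt _ hd2⟩
          have := Nat.div_le_self Y (d ^ 2)
          simp only
          omega
        · intro t _ _
          simp only [hh]
          positivity
    _ = ∑ n ∈ Finset.range (N + 1), ((d ^ 2 : ℕ) : ℝ) *
          (‖ptw_S f (n : ℝ)‖ ^ 2 / ((d : ℝ) ^ 2 * n) ^ 3) := by
        rw [Finset.sum_product]
        apply Finset.sum_congr rfl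
        intro n _
        simp only [hh]
        rw [Finset.sum_const, Finset.card_range, nsmul_eq_mul]
    _ = ∑ n ∈ Finset.Icc 1 N, ((d ^ 2 : ℕ) : ℝ) *
          (‖ptw_S f (n : ℝ)‖ ^ 2 / ((d : ℝ) ^ 2 * n) ^ 3) := by
        rw [Finset.range_eq_Ico, Finset.sum_eq_sum_Ico_succ_bot (by omega)]
        rw [hS0]
        simp only [norm_zero, ne_eq, OfNat.ofNat_ne_zero, not_false_eq_true, zero_pow, zero_div,
          mul_zero, zero_add]
        apply Finset.sum_congr _ (fun _ _ => rfl)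
        ext n; simp only [Finset.mem_Icc, Finset.mem_Ico]; omega
    _ = _ := by
        rw [Finset.mul_sum]
        apply Finset.sum_congr rfl
        intro n hn
        rw [Finset.mem_Icc] at hn
        have hn0 : (0 : ℝ) < n := by exact_mod_cast hn.1
        push_cast
        field_simp

theorem ptw_inv_sq (n : ℕ) : ∑ d ∈ Finset.Icc 1 n, 1 / (d : ℝ) ^ 2 ≤ 2 := by
  have h7 : ∀ n : ℕ, 1 ≤ n → ∑ d ∈ Finset.Icc 1 n, 1 / (d : ℝ) ^ 2 ≤ 2 - 1 / (n : ℝ) := by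
    intro n hn
    induction n, hn using Nat.le_induction with
    | base => norm_num
    | succ n hn ih =>
      rw [Finset.sum_Icc_succ_top (by omega)]
      have hn0 : (0 : ℝ) < n := by exact_mod_cast hn
      have : 1 / ((n + 1 : ℕ) : ℝ) ^ 2 ≤ 1 / (n : ℝ) - 1 / ((n + 1 : ℕ) : ℝ) := by
        push_cast
        rw [div_sub_div _ _ (by positivity) (by positivity), div_le_div_iff₀ (by positivity)
          (by positivity)]
        nlinarith
      linarith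
  rcases Nat.eq_zero_or_pos n with rfl | hn
  · simp
  · have := h7 n hn
    have : 0 ≤ 1 / (n : ℝ) := by positivity
    linarith

/-- the sums over the primitive elements -/
theorem ptw_sumM {m : G} (χ : MChar m) (k : ℤ) (h : xi χ k ui = 1) (N : ℕ) :
    ∑ Y ∈ Finset.Icc 1 N, ‖Sm χ k Y‖ ^ 2 / (Y : ℝ) ^ 3 ≤
      4 * ∑ n ∈ Finset.Icc 1 N,
        ‖ptw_S (fun z => (gl z : ℂ) * xi χ k z) (n : ℝ)‖ ^ 2 / (n : ℝ) ^ 3 := by
  classical
  set f : G → ℂ := fun z => (gl z : ℂ) * xi χ k z with hf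
  have hCM : CM f := ptw_CM χ k h
  have h1 : ∀ Y ∈ Finset.Icc 1 N, ‖Sm χ k Y‖ ^ 2 ≤
      2 * ∑ d ∈ Finset.Icc 1 N, (d : ℝ) ^ 2 * ‖ptw_S f ((Y : ℝ) / (d : ℝ) ^ 2)‖ ^ 2 := by
    intro Y hY
    rw [Finset.mem_Icc] at hY
    have h2 : Sm χ k Y = ∑ d ∈ Finset.Icc 1 N, (ArithmeticFunction.moebius d : ℂ) *
        ∑ z ∈ Bl ((Y : ℝ) / (d : ℝ) ^ 2), f (d * z) := by
      apply prim_moebius f (Y : ℝ) N
      have : (Y : ℝ) ≤ N := by exact_mod_cast hY.2
      nlinarith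
    have h3 : ‖Sm χ k Y‖ ≤ ∑ d ∈ Finset.Icc 1 N, ‖ptw_S f ((Y : ℝ) / (d : ℝ) ^ 2)‖ := by
      rw [h2]
      refine (norm_sum_le _ _).trans (Finset.sum_le_sum ?_)
      intro d _
      have h4 : ∑ z ∈ Bl ((Y : ℝ) / (d : ℝ) ^ 2), f (d * z) =
          f (d : G) * ptw_S f ((Y : ℝ) / (d : ℝ) ^ 2) := by
        unfold ptw_S
        rw [Finset.mul_sum]
        apply Finset.sum_congr rfl
        intro z _
        exact hCM.mul _ _
      rw [h4, norm_mul, norm_mul]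
      have h5 : ‖((ArithmeticFunction.moebius d : ℤ) : ℂ)‖ ≤ 1 := by
        rw [Complex.norm_intCast]
        have := ArithmeticFunction.abs_moebius_le_one (n := d)
        exact_mod_cast this
      have h6 := hCM.bd (d : G)
      calc ‖((ArithmeticFunction.moebius d : ℤ) : ℂ)‖ *
            (‖f (d : G)‖ * ‖ptw_S f ((Y : ℝ) / (d : ℝ) ^ 2)‖)
          ≤ 1 * (1 * ‖ptw_S f ((Y : ℝ) / (d : ℝ) ^ 2)‖) := by gcongr
        _ = _ := by ring
    have h7 : (∑ d ∈ Finset.Icc 1 N, ‖ptw_S f ((Y : ℝ) / (d : ℝ) ^ 2)‖) ^ 2 ≤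
        (∑ d ∈ Finset.Icc 1 N, 1 / (d : ℝ) ^ 2) *
          ∑ d ∈ Finset.Icc 1 N, (d : ℝ) ^ 2 * ‖ptw_S f ((Y : ℝ) / (d : ℝ) ^ 2)‖ ^ 2 := by
      have := Finset.sum_mul_sq_le_sq_mul_sq (Finset.Icc 1 N) (fun d : ℕ => 1 / (d : ℝ))
        (fun d : ℕ => (d : ℝ) * ‖ptw_S f ((Y : ℝ) / (d : ℝ) ^ 2)‖)
      calc (∑ d ∈ Finset.Icc 1 N, ‖ptw_S f ((Y : ℝ) / (d : ℝ) ^ 2)‖) ^ 2
          = (∑ d ∈ Finset.Icc 1 N, 1 / (d : ℝ) *
              ((d : ℝ) * ‖ptw_S f ((Y : ℝ) / (d : ℝ) ^ 2)‖)) ^ 2 := by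
            congr 1
            apply Finset.sum_congr rfl
            intro d hd
            rw [Finset.mem_Icc] at hd
            have : (0 : ℝ) < d := by exact_mod_cast hd.1
            field_simp
        _ ≤ _ := this
        _ = _ := by
            congr 1
            · apply Finset.sum_congr rfl
              intro d _; rw [div_pow, one_pow]
            · apply Finset.sum_congr rfl
              intro d _; rw [mul_pow]
    have h8 := ptw_inv_sq N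
    have h9 : 0 ≤ ∑ d ∈ Finset.Icc 1 N, (d : ℝ) ^ 2 * ‖ptw_S f ((Y : ℝ) / (d : ℝ) ^ 2)‖ ^ 2 :=
      Finset.sum_nonneg (fun d _ => by positivity)
    calc ‖Sm χ k Y‖ ^ 2 ≤ (∑ d ∈ Finset.Icc 1 N, ‖ptw_S f ((Y : ℝ) / (d : ℝ) ^ 2)‖) ^ 2 := by
          gcongr
      _ ≤ _ := h7
      _ ≤ _ := by gcongr
  calc ∑ Y ∈ Finset.Icc 1 N, ‖Sm χ k Y‖ ^ 2 / (Y : ℝ) ^ 3
      ≤ ∑ Y ∈ Finset.Icc 1 N, (2 * ∑ d ∈ Finset.Icc 1 N,
          (d : ℝ) ^ 2 * ‖ptw_S f ((Y : ℝ) / (d : ℝ) ^ 2)‖ ^ 2) / (Y : ℝ) ^ 3 := by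
        apply Finset.sum_le_sum
        intro Y hY
        have := h1 Y hY
        gcongr
    _ = 2 * ∑ d ∈ Finset.Icc 1 N, (d : ℝ) ^ 2 *
          ∑ Y ∈ Finset.Icc 1 N, ‖ptw_S f ((Y : ℝ) / (d : ℝ) ^ 2)‖ ^ 2 / (Y : ℝ) ^ 3 := by
        simp_rw [Finset.mul_sum, Finset.sum_div]
        rw [Finset.sum_comm]
        apply Finset.sum_congr rfl
        intro d _
        apply Finset.sum_congr rfl
        intro Y _
        ring
    _ ≤ 2 * ∑ d ∈ Finset.Icc 1 N, (d : ℝ) ^ 2 * ((1 / (d : ℝ) ^ 4) *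
          ∑ n ∈ Finset.Icc 1 N, ‖ptw_S f (n : ℝ)‖ ^ 2 / (n : ℝ) ^ 3) := by
        apply mul_le_mul_of_nonneg_left _ (by norm_num)
        apply Finset.sum_le_sum
        intro d hd
        rw [Finset.mem_Icc] at hd
        apply mul_le_mul_of_nonneg_left (ptw_mult f N d hd.1) (by positivity)
    _ = 2 * ((∑ d ∈ Finset.Icc 1 N, 1 / (d : ℝ) ^ 2) *
          ∑ n ∈ Finset.Icc 1 N, ‖ptw_S f (n : ℝ)‖ ^ 2 / (n : ℝ) ^ 3) := by
        rw [Finset.sum_mul]
        congr 1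
        apply Finset.sum_congr rfl
        intro d hd
        rw [Finset.mem_Icc] at hd
        have : (0 : ℝ) < d := by exact_mod_cast hd.1
        field_simp
    _ ≤ 2 * (2 * ∑ n ∈ Finset.Icc 1 N, ‖ptw_S f (n : ℝ)‖ ^ 2 / (n : ℝ) ^ 3) := by
        have h9 : 0 ≤ ∑ n ∈ Finset.Icc 1 N, ‖ptw_S f (n : ℝ)‖ ^ 2 / (n : ℝ) ^ 3 :=
          Finset.sum_nonneg (fun d _ => by positivity)
        have := ptw_inv_sq N
        gcongr
    _ = _ := by ring

theorem mr_point_pr {m : G} (hm : m ≠ 0) (χ : MChar m) (ε : ℝ) (hε : 0 < ε) :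
    ∃ X₀ : ℝ, ∀ X : ℝ, X₀ ≤ X → ∀ k ∈ Ks X,
      ∑ Y ∈ Finset.Icc 1 ⌊X⌋₊, ‖Sm χ k Y‖ ^ 2 / (Y : ℝ) ^ 3 ≤ ε * Real.log X := by
  obtain ⟨A, hA1, hA⟩ := ball_le
  obtain ⟨C, hC1, hC⟩ := mean_square
  have hA0 : 0 < A := by linarith
  have hC0 : 0 < C := by linarith
  -- the parameters
  set θ : ℝ := min 1 (ε / (32 * A ^ 2)) with hθdef
  have hθ : 0 < θ := lt_min one_pos (by positivity)
  have hθ1 : θ ≤ 1 := min_le_left _ _
  have hθ2 : A ^ 2 * θ ≤ ε / 32 := by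
    have : θ ≤ ε / (32 * A ^ 2) := min_le_right _ _
    calc A ^ 2 * θ ≤ A ^ 2 * (ε / (32 * A ^ 2)) := by gcongr
      _ = ε / 32 := by field_simp
  set δ : ℝ := ε * θ ^ 2 / (32 * 1024 * C) with hδdef
  have hδ : 0 < δ := by positivity
  set η : ℝ := min 1 δ with hηdef
  have hη : 0 < η := lt_min one_pos hδ
  have hη1 : η ≤ 1 := min_le_left _ _
  have hη2 : η ^ 2 ≤ δ := by
    have : η ≤ δ := min_le_right _ _
    nlinarith
  set K₀ : ℝ := max 1 (1 / δ) with hKdef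
  have hK1 : 1 ≤ K₀ := le_max_left _ _
  have hK2 : 1 / K₀ ≤ δ := by
    have h1 : 1 / δ ≤ K₀ := le_max_right _ _
    rw [div_le_iff₀ (by linarith)]
    rw [div_le_iff₀ hδ] at h1
    linarith
  obtain ⟨X₁, hX₁⟩ := sup_nonzero hm χ η K₀ hη hK1
  obtain ⟨X₂, hX₂⟩ := sup_zero hm χ η K₀ hη hK1
  set L₀ : ℝ := max 1 (max (32 * A ^ 2 / ε) (128 * A ^ 2 / (θ ^ 2 * ε))) with hL₀
  refine ⟨max 3 (max (Real.exp L₀) (max X₁ X₂)), ?_⟩
  intro X hX k hk
  have hX3 : 3 ≤ X := le_trans (le_max_left _ _) hX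
  have hXe : Real.exp L₀ ≤ X := le_trans (le_trans (le_max_left _ _) (le_max_right _ _)) hX
  have hXX1 : X₁ ≤ X := le_trans (le_trans (le_trans (le_max_left _ _) (le_max_right _ _))
    (le_max_right _ _)) hX
  have hXX2 : X₂ ≤ X := le_trans (le_trans (le_trans (le_max_right _ _) (le_max_right _ _))
    (le_max_right _ _)) hX
  have hX0 : 0 < X := by linarith
  have hL : L₀ ≤ Real.log X := by
    rw [← Real.log_exp L₀]
    exact Real.log_le_log (Real.exp_pos _) hXe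
  set L := Real.log X with hLdef
  have hL1 : 1 ≤ L := le_trans (le_max_left _ _) hL
  have hL0 : 0 < L := by linarith
  have hL2 : 32 * A ^ 2 / ε ≤ L :=
    le_trans (le_trans (le_max_left _ _) (le_max_right _ _)) hL
  have hL3 : 128 * A ^ 2 / (θ ^ 2 * ε) ≤ L :=
    le_trans (le_trans (le_max_right _ _) (le_max_right _ _)) hL
  by_cases hxi : xi χ k ui = 1
  swap
  · have : ∀ Y ∈ Finset.Icc 1 ⌊X⌋₊, ‖Sm χ k Y‖ ^ 2 / (Y : ℝ) ^ 3 = 0 := by
      intro Y _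
      rw [ptw_zero χ k hxi]
      simp
    rw [Finset.sum_eq_zero this]
    positivity
  set f : G → ℂ := fun z => (gl z : ℂ) * xi χ k z with hf
  have hCM : CM f := ptw_CM χ k hxi
  -- the bound for the Dirichlet series
  have hsup : ∀ t : ℝ, |t| ≤ K₀ * L →
      ‖Dsum f ((1 + 1 / L : ℝ) + t * Complex.I)‖ ≤ η * L := by
    intro t ht
    by_cases hk0 : k = 0
    · subst hk0
      have h1 : f = fun z => (gl z : ℂ) * χ.f z := by
        funext z
        simp only [hf, xi, ang_zero', mul_one]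
      have h2 : χ.f ui = 1 := by
        simpa [xi, ang_zero'] using hxi
      rw [h1]
      exact hX₂ X hXX2 h2 t ht
    · exact hX₁ X hXX1 k hk0 (mem_Ks.mp hk) hxi t ht
  have hms := hC f hCM L (K₀ * L) (η * L) hL1 (by nlinarith) (by positivity) hsup
  have hI : ∑ n ∈ Finset.Icc 1 ⌊X⌋₊, ‖ptw_B f (n : ℝ)‖ ^ 2 / (n : ℝ) ^ 3 ≤
      256 * (C * (2 * δ) * L ^ 3) := by
    refine (ptw_sumB hCM.bd A hA X hX3 hL1).trans ?_
    apply mul_le_mul_of_nonneg_left _ (by norm_num)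
    refine le_trans hms ?_
    have h1 : (η * L) ^ 2 * L + L ^ 4 / (K₀ * L) = (η ^ 2 + 1 / K₀) * L ^ 3 := by
      have : K₀ ≠ 0 := by linarith
      field_simp
    rw [h1]
    have h2 : (η ^ 2 + 1 / K₀) ≤ 2 * δ := by linarith
    calc C * ((η ^ 2 + 1 / K₀) * L ^ 3) ≤ C * ((2 * δ) * L ^ 3) := by gcongr
      _ = _ := by ring
  have hS := ptw_sumS hCM.bd A hA1 hA X θ _ hX3 hL1 hθ hθ1 hI
  have hM := ptw_sumM χ k hxi ⌊X⌋₊
  refine hM.trans ?_
  have h1 : A ^ 2 * (1 + θ * L) ≤ ε * L / 16 := by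
    have h2 : A ^ 2 ≤ ε * L / 32 := by
      rw [div_le_iff₀ hε] at hL2
      linarith
    nlinarith
  have h2 : 2 / (θ ^ 2 * L ^ 2) * (256 * (C * (2 * δ) * L ^ 3) + A ^ 2 * (1 + L)) ≤
      ε * L / 16 := by
    have h3 : 2 / (θ ^ 2 * L ^ 2) * (256 * (C * (2 * δ) * L ^ 3)) = ε * L / 32 := by
      rw [hδdef]
      field_simp
      ring
    have h4 : 2 / (θ ^ 2 * L ^ 2) * (A ^ 2 * (1 + L)) ≤ ε * L / 32 := by
      calc 2 / (θ ^ 2 * L ^ 2) * (A ^ 2 * (1 + L)) ≤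
          2 / (θ ^ 2 * L ^ 2) * (A ^ 2 * (2 * L ^ 2)) := by
            gcongr
            nlinarith
        _ = (128 * A ^ 2 / (θ ^ 2 * ε)) * (ε / 32) := by
            field_simp
            ring
        _ ≤ L * (ε / 32) := by gcongr
        _ = _ := by ring
    rw [mul_add, h3]
    linarith
  have h5 : 0 ≤ ε * L := by positivity
  linarith

end Pool.Agent.T2


namespace Pool.Agent.T2

theorem mr_point : type_of% @mr_point_pr := @mr_point_pr

end Pool.Agent.T2
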