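import Pool.Agent.Lib_helper10.T2.Defs

/-! T2, block SLG: the mass of the Selberg sieve for the primes `1 mod 4` -/

namespace Pool.Agent.T2

open Filter Topology MeasureTheory

/-- the arithmetic function `1/n` -/
noncomputable def slg_u : ArithmeticFunction ℝ := ⟨fun n => (n : ℝ)⁻¹, by simp⟩

/-- the arithmetic function `χ(n)/n`, `χ` the character modulo `4` -/
noncomputable def slg_v : ArithmeticFunction ℝ :=
  ⟨fun n => ((ZMod.χ₄ (n : ZMod 4) : ℤ) : ℝ) * (n : ℝ)⁻¹, by simp⟩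

/-- the convolution of the two -/
noncomputable def slg_F : ArithmeticFunction ℝ := slg_u * slg_v

theorem slg_u_apply (n : ℕ) : slg_u n = (n : ℝ)⁻¹ := rfl

theorem slg_v_apply (n : ℕ) :
    slg_v n = ((ZMod.χ₄ (n : ZMod 4) : ℤ) : ℝ) * (n : ℝ)⁻¹ := rfl

theorem slg_u_mult : slg_u.IsMultiplicative := by
  refine ⟨by simp [slg_u_apply], fun {m n} _ => ?_⟩
  rw [slg_u_apply, slg_u_apply, slg_u_apply, Nat.cast_mul, mul_inv]

theorem slg_v_mult : slg_v.IsMultiplicative := by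
  refine ⟨by simp [slg_v_apply], fun {m n} _ => ?_⟩
  rw [slg_v_apply, slg_v_apply, slg_v_apply, Nat.cast_mul, map_mul, Nat.cast_mul, mul_inv]
  push_cast
  ring

theorem slg_F_mult : slg_F.IsMultiplicative := slg_u_mult.mul slg_v_mult

theorem slg_F_pp {p : ℕ} (hp : p.Prime) (k : ℕ) :
    slg_F (p ^ k) = ((p : ℝ) ^ k)⁻¹ *
      ∑ i ∈ Finset.range (k + 1), (((ZMod.χ₄ (p : ZMod 4) : ℤ) : ℝ)) ^ i := by
  have hp0 : (p : ℝ) ≠ 0 := by exact_mod_cast hp.ne_zero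
  unfold slg_F
  rw [ArithmeticFunction.mul_apply,
    Nat.sum_divisorsAntidiagonal' (f := fun a b => slg_u a * slg_v b),
    Nat.sum_divisors_prime_pow hp, Finset.mul_sum]
  refine Finset.sum_congr rfl fun i hi => ?_
  have hik : i ≤ k := by
    have := Finset.mem_range.1 hi
    omega
  rw [Nat.pow_div hik hp.pos, slg_u_apply, slg_v_apply]
  push_cast
  rw [map_pow]
  push_cast
  have h1 : (p : ℝ) ^ k = (p : ℝ) ^ (k - i) * (p : ℝ) ^ i := by
    rw [← pow_add, Nat.sub_add_cancel hik]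
  rw [h1, mul_inv]
  ring

theorem slg_F_pp1 {p : ℕ} (hp : p.Prime) (h4 : p % 4 = 1) (k : ℕ) :
    slg_F (p ^ k) = ((k : ℝ) + 1) * ((p : ℝ) ^ k)⁻¹ := by
  rw [slg_F_pp hp, ZMod.χ₄_nat_one_mod_four h4]
  simp
  ring

theorem slg_sum_le {x : ℝ} (hx : x = 1 ∨ x = 0 ∨ x = -1) (k : ℕ) :
    0 ≤ ∑ i ∈ Finset.range (k + 1), x ^ i := by
  rcases hx with h | h | h
  · rw [h]; simp; positivity
  · rw [h]
    refine Finset.sum_nonneg fun i _ => ?_
    positivity
  · rw [h]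
    have h2 : ∀ n : ℕ, ∑ i ∈ Finset.range n, (-1 : ℝ) ^ i = if Even n then 0 else 1 := by
      intro n
      exact neg_one_geom_sum
    rw [h2]
    split_ifs <;> norm_num

theorem slg_chi_cases (n : ℕ) : (((ZMod.χ₄ (n : ZMod 4) : ℤ) : ℝ)) = 1 ∨
    (((ZMod.χ₄ (n : ZMod 4) : ℤ) : ℝ)) = 0 ∨ (((ZMod.χ₄ (n : ZMod 4) : ℤ) : ℝ)) = -1 := by
  rw [ZMod.χ₄_nat_eq_if_mod_four]
  split_ifs <;> simp

theorem slg_F_pp_nonneg {p : ℕ} (hp : p.Prime) (k : ℕ) : 0 ≤ slg_F (p ^ k) := by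
  rw [slg_F_pp hp]
  exact mul_nonneg (by positivity) (slg_sum_le (slg_chi_cases p) k)

theorem slg_F_eq {n : ℕ} (hn : n ≠ 0) :
    slg_F n = ∏ p ∈ n.primeFactors, slg_F (p ^ n.factorization p) := by
  rw [slg_F_mult.multiplicative_factorization slg_F hn]
  rfl

theorem slg_F_nonneg (n : ℕ) : 0 ≤ slg_F n := by
  by_cases hn : n = 0
  · rw [hn]; simp
  · rw [slg_F_eq hn]
    exact Finset.prod_nonneg fun p hp => slg_F_pp_nonneg (Nat.prime_of_mem_primeFactors hp) _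

theorem slg_two_or {p : ℕ} (hp : p.Prime) (h1 : p % 4 ≠ 1) : p = 2 ∨ p % 4 = 3 := by
  by_contra h
  push Not at h
  have h2 : p % 4 = 0 ∨ p % 4 = 2 := by omega
  have h3 : 2 ∣ p := by omega
  exact h.1 ((Nat.prime_dvd_prime_iff_eq Nat.prime_two hp).1 h3).symm

theorem slg_F_pp_le {p : ℕ} (hp : p.Prime) (h1 : p % 4 ≠ 1) (k : ℕ) :
    slg_F (p ^ k) ≤ ((p : ℝ) ^ k)⁻¹ := by
  rw [slg_F_pp hp]
  have hpos : 0 ≤ ((p : ℝ) ^ k)⁻¹ := by positivity
  refine mul_le_of_le_one_right hpos ?_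
  rcases slg_two_or hp h1 with h | h
  · subst h
    have : (((ZMod.χ₄ ((2 : ℕ) : ZMod 4) : ℤ) : ℝ)) = 0 := by
      rw [ZMod.χ₄_nat_eq_if_mod_four]
      simp
    rw [this, Finset.sum_range_succ']
    simp
  · rw [ZMod.χ₄_nat_three_mod_four h]
    have h2 : ∑ i ∈ Finset.range (k + 1), (((-1 : ℤ) : ℝ)) ^ i =
        if Even (k + 1) then 0 else 1 := by
      push_cast
      exact neg_one_geom_sum
    rw [h2]
    split_ifs <;> norm_num

theorem slg_F_pp_odd {p : ℕ} (hp : p.Prime) (h3 : p % 4 = 3) {k : ℕ} (hk : Odd k) :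
    slg_F (p ^ k) = 0 := by
  rw [slg_F_pp hp, ZMod.χ₄_nat_three_mod_four h3]
  have h2 : ∑ i ∈ Finset.range (k + 1), (((-1 : ℤ) : ℝ)) ^ i =
      if Even (k + 1) then 0 else 1 := by
    push_cast
    exact neg_one_geom_sum
  rw [h2, if_pos (by exact hk.add_one), mul_zero]

/-! the lower bound -/

theorem slg_v1 (k : ℕ) : slg_v (4 * k + 1) = 1 / (4 * (k : ℝ) + 1) := by
  rw [slg_v_apply, ZMod.χ₄_nat_one_mod_four (by omega)]
  push_cast
  ring

theorem slg_v2 (k : ℕ) : slg_v (4 * k + 2) = 0 := by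
  rw [slg_v_apply, ZMod.χ₄_nat_eq_if_mod_four, if_pos (by omega)]
  simp

theorem slg_v3 (k : ℕ) : slg_v (4 * k + 3) = -(1 / (4 * (k : ℝ) + 3)) := by
  rw [slg_v_apply, ZMod.χ₄_nat_three_mod_four (by omega)]
  push_cast
  ring

theorem slg_v4 (k : ℕ) : slg_v (4 * k + 4) = 0 := by
  rw [slg_v_apply, ZMod.χ₄_nat_eq_if_mod_four, if_pos (by omega)]
  simp

theorem slg_V_succ (M : ℕ) : ∑ m ∈ Finset.Ioc 0 (M + 1), slg_v m =
    ∑ m ∈ Finset.Ioc 0 M, slg_v m + slg_v (M + 1) :=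
  Finset.sum_Ioc_succ_top (Nat.zero_le M) _

theorem slg_V4 (k : ℕ) : ∑ m ∈ Finset.Ioc 0 (4 * k + 4), slg_v m =
    ∑ m ∈ Finset.Ioc 0 (4 * k), slg_v m + 1 / (4 * (k : ℝ) + 1) - 1 / (4 * (k : ℝ) + 3) := by
  rw [slg_V_succ (4 * k + 3), slg_V_succ (4 * k + 2), slg_V_succ (4 * k + 1), slg_V_succ (4 * k),
    slg_v1, slg_v2, slg_v3, slg_v4]
  ring

theorem slg_V4_ge (k : ℕ) : 2 / 3 ≤ ∑ m ∈ Finset.Ioc 0 (4 * k + 4), slg_v m := by
  induction k with
  | zero =>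
    rw [slg_V4]
    norm_num
  | succ k ih =>
    rw [slg_V4, show 4 * (k + 1) = 4 * k + 4 by ring]
    have h : 1 / (4 * ((k + 1 : ℕ) : ℝ) + 3) ≤ 1 / (4 * ((k + 1 : ℕ) : ℝ) + 1) :=
      one_div_le_one_div_of_le (by positivity) (by linarith)
    linarith

theorem slg_V_ge (M : ℕ) (hM : 1 ≤ M) : 2 / 3 ≤ ∑ m ∈ Finset.Ioc 0 M, slg_v m := by
  have h0 : ∀ k : ℕ, (0 : ℝ) ≤ 1 / (4 * (k : ℝ) + 1) := fun k => by positivity
  have h3 : ∀ k : ℕ, 2 / 3 ≤ ∑ m ∈ Finset.Ioc 0 (4 * k + 3), slg_v m := by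
    intro k
    have := slg_V4_ge k
    rwa [slg_V_succ (4 * k + 3), slg_v4, add_zero] at this
  have h2 : ∀ k : ℕ, 2 / 3 ≤ ∑ m ∈ Finset.Ioc 0 (4 * k + 2), slg_v m := by
    intro k
    have := h3 k
    rw [slg_V_succ (4 * k + 2), slg_v3] at this
    have h4 : (0 : ℝ) ≤ 1 / (4 * (k : ℝ) + 3) := by positivity
    linarith
  have h1 : ∀ k : ℕ, 2 / 3 ≤ ∑ m ∈ Finset.Ioc 0 (4 * k + 1), slg_v m := by
    intro k
    have := h2 k
    rwa [slg_V_succ (4 * k + 1), slg_v2, add_zero] at this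
  obtain ⟨k, r, hr, rfl⟩ : ∃ k r : ℕ, r < 4 ∧ M = 4 * k + r :=
    ⟨M / 4, M % 4, Nat.mod_lt _ (by norm_num), by omega⟩
  interval_cases r
  · obtain ⟨j, rfl⟩ : ∃ j, k = j + 1 := ⟨k - 1, by omega⟩
    have := slg_V4_ge j
    simpa [mul_add] using this
  · exact h1 k
  · exact h2 k
  · exact h3 k

theorem slg_lower (N : ℕ) : 2 / 3 * Real.log (N + 1) ≤ ∑ n ∈ Finset.Ioc 0 N, slg_F n := by
  unfold slg_F
  rw [ArithmeticFunction.sum_Ioc_mul_eq_sum_sum]
  have h1 : ∀ e ∈ Finset.Ioc 0 N, 2 / 3 * (e : ℝ)⁻¹ ≤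
      slg_u e * ∑ m ∈ Finset.Ioc 0 (N / e), slg_v m := by
    intro e he
    rw [Finset.mem_Ioc] at he
    rw [slg_u_apply, mul_comm]
    exact mul_le_mul_of_nonneg_left (slg_V_ge _ (Nat.div_pos he.2 he.1)) (by positivity)
  refine le_trans ?_ (Finset.sum_le_sum h1)
  rw [← Finset.mul_sum]
  refine mul_le_mul_of_nonneg_left ?_ (by norm_num)
  have h2 := log_add_one_le_harmonic N
  rw [harmonic_eq_sum_Icc] at h2
  push_cast at h2
  refine h2.trans (le_of_eq ?_)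
  rfl

/-! the upper bound -/

/-- the local factor -/
noncomputable def slg_H (p : ℕ) : ℝ :=
  (2 / (p : ℝ) - 1 / (p : ℝ) ^ 2) / (1 - (2 / (p : ℝ) - 1 / (p : ℝ) ^ 2))

theorem slg_geom (x : ℝ) (N : ℕ) : (1 - x) ^ 2 * ∑ j ∈ Finset.range (N + 1), ((j : ℝ) + 1) * x ^ j =
    1 - (N + 2) * x ^ (N + 1) + (N + 1) * x ^ (N + 2) := by
  induction N with
  | zero => simp; ring
  | succ N ih =>
    rw [Finset.sum_range_succ, mul_add, ih]
    push_cast
    ring

theorem slg_geom_le {x : ℝ} (h0 : 0 ≤ x) (h1 : x < 1) (N : ℕ) :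
    ∑ j ∈ Finset.range (N + 1), ((j : ℝ) + 1) * x ^ j ≤ 1 / (1 - x) ^ 2 := by
  have h2 : 0 < (1 - x) ^ 2 := pow_pos (by linarith) 2
  rw [le_div_iff₀ h2, mul_comm, slg_geom]
  have h3 : x ^ (N + 2) ≤ x ^ (N + 1) := pow_le_pow_of_le_one h0 h1.le (by omega)
  have h4 : 0 ≤ x ^ (N + 1) := pow_nonneg h0 _
  have h5 : ((N : ℝ) + 1) * x ^ (N + 2) ≤ ((N : ℝ) + 1) * x ^ (N + 1) :=
    mul_le_mul_of_nonneg_left h3 (by positivity)
  nlinarith

theorem slg_H_eq {p : ℕ} (hp : p.Prime) : slg_H p = 1 / (1 - (p : ℝ)⁻¹) ^ 2 - 1 := by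
  have h2 : (2 : ℝ) ≤ p := by exact_mod_cast hp.two_le
  have h0 : (p : ℝ) ≠ 0 := by positivity
  have h1 : (p : ℝ) - 1 ≠ 0 := by
    have : (0 : ℝ) < (p : ℝ) - 1 := by linarith
    exact this.ne'
  have h3 : 1 - (2 / (p : ℝ) - 1 / (p : ℝ) ^ 2) = ((p : ℝ) - 1) ^ 2 / (p : ℝ) ^ 2 := by
    field_simp
    ring
  have h4 : 1 - (p : ℝ)⁻¹ = ((p : ℝ) - 1) / p := by
    field_simp
  unfold slg_H
  rw [h3, h4]
  field_simp
  ring

theorem slg_H_nonneg {p : ℕ} (hp : p.Prime) : 0 ≤ slg_H p := by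
  rw [slg_H_eq hp]
  have h2 : (2 : ℝ) ≤ p := by exact_mod_cast hp.two_le
  have h3 : (p : ℝ)⁻¹ ≤ 1 / 2 := by
    rw [inv_eq_one_div]
    exact one_div_le_one_div_of_le (by norm_num) h2
  have h4 : 0 < (p : ℝ)⁻¹ := by positivity
  have h5 : (1 - (p : ℝ)⁻¹) ^ 2 ≤ 1 := by nlinarith
  have h6 : 0 < (1 - (p : ℝ)⁻¹) ^ 2 := pow_pos (by linarith) 2
  have := (one_le_div h6).2 h5
  linarith

theorem slg_local {p : ℕ} (hp : p.Prime) (h4 : p % 4 = 1) (N : ℕ) :
    ∑ j ∈ Finset.Icc 1 N, slg_F (p ^ j) ≤ slg_H p := by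
  have h2 : (2 : ℝ) ≤ p := by exact_mod_cast hp.two_le
  have h3 : (p : ℝ)⁻¹ ≤ 1 / 2 := by
    rw [inv_eq_one_div]
    exact one_div_le_one_div_of_le (by norm_num) h2
  have h5 : 0 ≤ (p : ℝ)⁻¹ := by positivity
  have h6 := slg_geom_le h5 (by linarith) N
  rw [slg_H_eq hp, Finset.range_eq_Ico, Finset.sum_eq_sum_Ico_succ_bot (by omega)] at *
  have h7 : ∑ j ∈ Finset.Icc 1 N, slg_F (p ^ j) =
      ∑ j ∈ Finset.Ico (0 + 1) (N + 1), ((j : ℝ) + 1) * (p : ℝ)⁻¹ ^ j := by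
    refine Finset.sum_congr ?_ fun j _ => ?_
    · ext j
      simp only [Finset.mem_Icc, Finset.mem_Ico]
      omega
    · rw [slg_F_pp1 hp h4, inv_pow]
  rw [h7]
  simp only [Nat.cast_zero, zero_add, pow_zero, mul_one] at h6 ⊢
  linarith

/-- the prime factors `1 mod 4` -/
def slg_S (n : ℕ) : Finset ℕ := n.primeFactors.filter (fun p => p % 4 = 1)

theorem slg_F_le_inv {n : ℕ} (hn : n ≠ 0) (h : slg_S n = ∅) : slg_F n ≤ (n : ℝ)⁻¹ := by
  rw [slg_F_eq hn]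
  have h1 : ∀ p ∈ n.primeFactors, slg_F (p ^ n.factorization p) ≤
      ((p : ℝ) ^ n.factorization p)⁻¹ := by
    intro p hp
    refine slg_F_pp_le (Nat.prime_of_mem_primeFactors hp) ?_ _
    intro h4
    have : p ∈ slg_S n := Finset.mem_filter.2 ⟨hp, h4⟩
    rw [h] at this
    simp at this
  refine (Finset.prod_le_prod (fun p hp =>
    slg_F_pp_nonneg (Nat.prime_of_mem_primeFactors hp) _) h1).trans (le_of_eq ?_)
  rw [Finset.prod_inv_distrib]
  congr 1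
  have h2 : n.factorization.prod (fun p k => p ^ k) = n := Nat.prod_factorization_pow_eq_self hn
  have h3 : ((n.factorization.prod (fun p k => p ^ k) : ℕ) : ℝ) = n := by rw [h2]
  rw [← h3, Finsupp.prod, Nat.cast_prod]
  simp

theorem slg_shape {n : ℕ} (hn : n ≠ 0) (h : slg_S n = ∅) (hF : slg_F n ≠ 0) :
    ∃ b : ℕ, 1 ≤ b ∧ (n = b ^ 2 ∨ n = 2 * b ^ 2) := by
  obtain ⟨a, b, hab, hsq⟩ := Nat.sq_mul_squarefree n
  have ha : a ≠ 0 := by rintro rfl; exact hn (by simpa using hab.symm)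
  have hb : b ≠ 0 := by rintro rfl; exact hn (by simpa using hab.symm)
  have key : ∀ q : ℕ, q.Prime → q ∣ a → q = 2 := by
    intro q hq hqa
    have hqn : q ∣ n := hab ▸ (hqa.mul_left _)
    have hqm : q ∈ n.primeFactors := Nat.mem_primeFactors.2 ⟨hq, hqn, hn⟩
    have h41 : q % 4 ≠ 1 := by
      intro h4
      have : q ∈ slg_S n := Finset.mem_filter.2 ⟨hqm, h4⟩
      rw [h] at this
      simp at this
    rcases slg_two_or hq h41 with h2 | h3
    · exact h2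
    · exfalso
      have hfa : a.factorization q = 1 := by
        have h5 := (Nat.squarefree_iff_factorization_le_one ha).1 hsq q
        have h6 := hq.factorization_pos_of_dvd ha hqa
        omega
      have hfn : n.factorization q = 2 * b.factorization q + 1 := by
        rw [← hab, Nat.factorization_mul (pow_ne_zero 2 hb) ha, Nat.factorization_pow]
        simp [hfa]
      have hodd : Odd (n.factorization q) := ⟨b.factorization q, hfn⟩
      refine hF ?_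
      rw [slg_F_eq hn]
      exact Finset.prod_eq_zero hqm (slg_F_pp_odd hq h3 hodd)
  have ha2 : a = 1 ∨ a = 2 := by
    by_cases h1 : a = 1
    · exact Or.inl h1
    · right
      obtain ⟨q, hq, hqa⟩ := Nat.exists_prime_and_dvd h1
      have hq2 := key q hq hqa
      subst hq2
      obtain ⟨c, hc⟩ := hqa
      have hc1 : c = 1 := by
        by_contra hc1
        obtain ⟨r, hr, hrc⟩ := Nat.exists_prime_and_dvd hc1
        have hr2 := key r hr (hc ▸ hrc.mul_left _)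
        subst hr2
        obtain ⟨e, he⟩ := hrc
        have : 2 * 2 ∣ a := ⟨e, by rw [hc, he]; ring⟩
        have := hsq 2 this
        rw [Nat.isUnit_iff] at this
        omega
      rw [hc, hc1]
  refine ⟨b, Nat.pos_of_ne_zero hb, ?_⟩
  rcases ha2 with h1 | h1
  · left; rw [← hab, h1, mul_one]
  · right; rw [← hab, h1, mul_comm]

theorem slg_zeta2 (N : ℕ) : ∑ b ∈ Finset.Icc 1 N, ((b : ℝ) ^ 2)⁻¹ ≤ 2 := by
  have h : ∀ N : ℕ, 1 ≤ N → ∑ b ∈ Finset.Icc 1 N, ((b : ℝ) ^ 2)⁻¹ ≤ 2 - 1 / (N : ℝ) := by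
    intro N hN
    induction N, hN using Nat.le_induction with
    | base => norm_num
    | succ n hn ih =>
      rw [Finset.sum_Icc_succ_top (by omega)]
      have hn' : (1 : ℝ) ≤ n := by exact_mod_cast hn
      have h1 : (((n + 1 : ℕ) : ℝ) ^ 2)⁻¹ ≤ 1 / (n : ℝ) - 1 / ((n + 1 : ℕ) : ℝ) := by
        push_cast
        rw [div_sub_div _ _ (by positivity) (by positivity), inv_eq_one_div,
          div_le_div_iff₀ (by positivity) (by positivity)]
        nlinarith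
      linarith
  by_cases hN : N = 0
  · subst hN; simp
  · have h1 := h N (Nat.pos_of_ne_zero hN)
    have h2 : (0 : ℝ) ≤ 1 / (N : ℝ) := by positivity
    linarith

open Classical in
theorem slg_base (N : ℕ) :
    ∑ n ∈ (Finset.Icc 1 N).filter (fun n => slg_S n = ∅), slg_F n ≤ 4 := by
  obtain ⟨A, hA⟩ : ∃ A : Finset ℕ, A = (Finset.Icc 1 N).image (fun b : ℕ => b ^ 2) := ⟨_, rfl⟩
  obtain ⟨B, hB⟩ : ∃ B : Finset ℕ, B = (Finset.Icc 1 N).image (fun b : ℕ => 2 * b ^ 2) := ⟨_, rfl⟩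
  have h1 : ∑ n ∈ (Finset.Icc 1 N).filter (fun n => slg_S n = ∅), slg_F n ≤
      ∑ n ∈ A ∪ B, ((n : ℕ) : ℝ)⁻¹ := by
    have h2 : ∑ n ∈ (Finset.Icc 1 N).filter (fun n => slg_S n = ∅), slg_F n =
        ∑ n ∈ ((Finset.Icc 1 N).filter (fun n => slg_S n = ∅)).filter (fun n => slg_F n ≠ 0),
          slg_F n := by
      rw [Finset.sum_filter_ne_zero]
    rw [h2]
    have h3 : ∑ n ∈ ((Finset.Icc 1 N).filter (fun n => slg_S n = ∅)).filter
        (fun n => slg_F n ≠ 0), slg_F n ≤ ∑ n ∈ ((Finset.Icc 1 N).filter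
          (fun n => slg_S n = ∅)).filter (fun n => slg_F n ≠ 0), ((n : ℕ) : ℝ)⁻¹ := by
      refine Finset.sum_le_sum fun n hn => ?_
      simp only [Finset.mem_filter, Finset.mem_Icc] at hn
      exact slg_F_le_inv (by omega) hn.1.2
    refine h3.trans (Finset.sum_le_sum_of_subset_of_nonneg ?_ fun n _ _ => by positivity)
    intro n hn
    simp only [Finset.mem_filter, Finset.mem_Icc] at hn
    obtain ⟨b, hb1, hb⟩ := slg_shape (by omega) hn.1.2 hn.2
    rw [Finset.mem_union, hA, hB, Finset.mem_image, Finset.mem_image]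
    have hbN : b ≤ N := by
      have : b ≤ b ^ 2 := by nlinarith
      rcases hb with hb | hb
      · omega
      · omega
    rcases hb with hb | hb
    · exact Or.inl ⟨b, Finset.mem_Icc.2 ⟨hb1, hbN⟩, hb.symm⟩
    · exact Or.inr ⟨b, Finset.mem_Icc.2 ⟨hb1, hbN⟩, hb.symm⟩
  refine h1.trans ?_
  have h4 : ∑ n ∈ A ∪ B, ((n : ℕ) : ℝ)⁻¹ ≤
      ∑ n ∈ A, ((n : ℕ) : ℝ)⁻¹ + ∑ n ∈ B, ((n : ℕ) : ℝ)⁻¹ := by
    have h5 := Finset.sum_union_inter (s₁ := A) (s₂ := B) (f := fun n : ℕ => (n : ℝ)⁻¹)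
    have h6 : 0 ≤ ∑ n ∈ A ∩ B, ((n : ℕ) : ℝ)⁻¹ := Finset.sum_nonneg fun n _ => by positivity
    linarith
  have h7 : ∑ n ∈ A, ((n : ℕ) : ℝ)⁻¹ = ∑ b ∈ Finset.Icc 1 N, ((b : ℝ) ^ 2)⁻¹ := by
    rw [hA, Finset.sum_image]
    · push_cast; rfl
    · intro a _ b _ hab
      exact Nat.pow_left_injective (n := 2) (by norm_num) hab
  have h8 : ∑ n ∈ B, ((n : ℕ) : ℝ)⁻¹ = ∑ b ∈ Finset.Icc 1 N, (1 / 2) * ((b : ℝ) ^ 2)⁻¹ := by
    rw [hB, Finset.sum_image]
    · refine Finset.sum_congr rfl fun b _ => ?_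
      push_cast
      rw [mul_inv]
      ring
    · intro a _ b _ hab
      have : a ^ 2 = b ^ 2 := by
        have h9 : 2 * a ^ 2 = 2 * b ^ 2 := hab
        omega
      exact Nat.pow_left_injective (n := 2) (by norm_num) this
  rw [h7, h8, ← Finset.mul_sum] at h4
  have h9 := slg_zeta2 N
  linarith

theorem slg_S_ordCompl {n p : ℕ} {s : Finset ℕ} (hp : p ∉ s) (h : slg_S n = insert p s) :
    slg_S (n / p ^ n.factorization p) = s := by
  have h1 : (n / p ^ n.factorization p).primeFactors = n.primeFactors.erase p := by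
    rw [← Nat.support_factorization, Nat.factorization_ordCompl, Finsupp.support_erase,
      Nat.support_factorization]
  unfold slg_S at h ⊢
  rw [h1, Finset.filter_erase, h, Finset.erase_insert hp]

open Classical in
theorem slg_fib (N : ℕ) (s : Finset ℕ) : (∀ p ∈ s, p.Prime ∧ p % 4 = 1) →
    ∑ n ∈ (Finset.Icc 1 N).filter (fun n => slg_S n = s), slg_F n ≤ 4 * ∏ p ∈ s, slg_H p := by
  induction s using Finset.induction_on with
  | empty =>
    intro _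
    simpa using slg_base N
  | insert p s hps ih =>
    intro hs
    have hp := (hs p (Finset.mem_insert_self p s)).1
    have hp4 := (hs p (Finset.mem_insert_self p s)).2
    have ih' := ih (fun q hq => hs q (Finset.mem_insert_of_mem hq))
    set T := (Finset.Icc 1 N).filter (fun n => slg_S n = insert p s) with hT
    set T' := (Finset.Icc 1 N).filter (fun n => slg_S n = s) with hT'
    let φ : ℕ → ℕ × ℕ := fun n => (n.factorization p, n / p ^ n.factorization p)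
    let g : ℕ × ℕ → ℝ := fun x => slg_F (p ^ x.1) * slg_F x.2
    have hmem : ∀ n ∈ T, 1 ≤ n ∧ n ≤ N ∧ slg_S n = insert p s := by
      intro n hn
      rw [hT, Finset.mem_filter, Finset.mem_Icc] at hn
      exact ⟨hn.1.1, hn.1.2, hn.2⟩
    have hFg : ∀ n ∈ T, slg_F n = g (φ n) := by
      intro n hn
      have h1 := hmem n hn
      have h2 : n = p ^ n.factorization p * (n / p ^ n.factorization p) :=
        (Nat.ordProj_mul_ordCompl_eq_self n p).symm
      have h3 : Nat.Coprime (p ^ n.factorization p) (n / p ^ n.factorization p) :=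
        Nat.Coprime.pow_left _ (Nat.coprime_ordCompl hp (by omega))
      conv_lhs => rw [h2]
      exact slg_F_mult.map_mul_of_coprime h3
    have hinj : Set.InjOn φ T := by
      intro a _ b _ hab
      have h1 : a.factorization p = b.factorization p := congrArg Prod.fst hab
      have h2 : a / p ^ a.factorization p = b / p ^ b.factorization p := congrArg Prod.snd hab
      rw [← Nat.ordProj_mul_ordCompl_eq_self a p, ← Nat.ordProj_mul_ordCompl_eq_self b p, h2, h1]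
    have hsub : T.image φ ⊆ (Finset.Icc 1 N) ×ˢ T' := by
      intro x hx
      obtain ⟨n, hn, rfl⟩ := Finset.mem_image.1 hx
      have h1 := hmem n hn
      have hn0 : n ≠ 0 := by omega
      have hpn : p ∈ n.primeFactors := by
        have : p ∈ slg_S n := by rw [h1.2.2]; exact Finset.mem_insert_self p s
        exact (Finset.mem_filter.1 this).1
      have hdvd := Nat.dvd_of_mem_primeFactors hpn
      rw [Finset.mem_product, Finset.mem_Icc, hT', Finset.mem_filter, Finset.mem_Icc]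
      refine ⟨⟨hp.factorization_pos_of_dvd hn0 hdvd, ?_⟩, ⟨?_, ?_⟩, slg_S_ordCompl hps h1.2.2⟩
      · exact (Nat.factorization_lt p hn0).le.trans h1.2.1
      · exact Nat.ordCompl_pos p hn0
      · exact (Nat.ordCompl_le n p).trans h1.2.1
    have hg : ∀ x, 0 ≤ g x := fun x => mul_nonneg (slg_F_nonneg _) (slg_F_nonneg _)
    calc ∑ n ∈ T, slg_F n = ∑ n ∈ T, g (φ n) := Finset.sum_congr rfl hFg
      _ = ∑ x ∈ T.image φ, g x := (Finset.sum_image hinj).symm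
      _ ≤ ∑ x ∈ (Finset.Icc 1 N) ×ˢ T', g x :=
          Finset.sum_le_sum_of_subset_of_nonneg hsub fun x _ _ => hg x
      _ = (∑ j ∈ Finset.Icc 1 N, slg_F (p ^ j)) * ∑ n ∈ T', slg_F n := by
          rw [Finset.sum_product, Finset.sum_mul_sum]
      _ ≤ slg_H p * (4 * ∏ q ∈ s, slg_H q) :=
          mul_le_mul (slg_local hp hp4 N) ih' (Finset.sum_nonneg fun n _ => slg_F_nonneg n)
            (slg_H_nonneg hp)
      _ = 4 * ∏ q ∈ insert p s, slg_H q := by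
          rw [Finset.prod_insert hps]
          ring

theorem slg_rad {s : Finset ℕ} (hs : ∀ p ∈ s, p.Prime) :
    Squarefree (∏ p ∈ s, p) ∧ (∏ p ∈ s, p).primeFactors = s := by
  have h1 : (∏ p ∈ s, p).primeFactors = s := Nat.primeFactors_prod hs
  refine ⟨?_, h1⟩
  have h0 : (∏ p ∈ s, p) ≠ 0 := Finset.prod_ne_zero_iff.2 fun p hp => (hs p hp).ne_zero
  rw [Nat.squarefree_iff_prime_squarefree]
  intro q hq hqq
  have hqs : q ∈ s := by
    rw [← h1]
    exact Nat.mem_primeFactors.2 ⟨hq, (dvd_mul_right q q).trans hqq, h0⟩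
  rw [← Finset.mul_prod_erase s _ hqs] at hqq
  have h2 : q ∣ ∏ p ∈ s.erase q, p := Nat.dvd_of_mul_dvd_mul_left hq.pos hqq
  rw [Prime.dvd_finsetProd_iff hq.prime] at h2
  obtain ⟨r, hr, hqr⟩ := h2
  rw [Finset.mem_erase] at hr
  exact hr.1 ((Nat.prime_dvd_prime_iff_eq hq (hs r hr.2)).1 hqr).symm

open Classical in
theorem selberg_mass_pr : ∃ c : ℝ, 0 < c ∧ ∀ R : ℝ, 2 ≤ R → c * Real.log R ≤
    ∑ d ∈ (Finset.Icc 1 ⌊R⌋₊).filter (fun d : ℕ => Squarefree d ∧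
      ∀ p : ℕ, p.Prime → p ∣ d → p % 4 = 1), ∏ p ∈ d.primeFactors,
        (2 / (p : ℝ) - 1 / (p : ℝ) ^ 2) / (1 - (2 / (p : ℝ) - 1 / (p : ℝ) ^ 2)) := by
  refine ⟨1 / 6, by norm_num, fun R hR => ?_⟩
  set N := ⌊R⌋₊ with hN
  set D := (Finset.Icc 1 N).filter (fun d : ℕ => Squarefree d ∧
      ∀ p : ℕ, p.Prime → p ∣ d → p % 4 = 1) with hD
  have h1 := slg_lower N
  have hmaps : ∀ n ∈ Finset.Icc 1 N, (∏ p ∈ slg_S n, p) ∈ D := by
    intro n hn
    rw [Finset.mem_Icc] at hn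
    have hpr : ∀ p ∈ slg_S n, p.Prime := fun p hp =>
      Nat.prime_of_mem_primeFactors (Finset.mem_filter.1 hp).1
    obtain ⟨h2, h3⟩ := slg_rad hpr
    have h4 : (∏ p ∈ slg_S n, p) ∣ n :=
      (Finset.prod_dvd_prod_of_subset _ _ _ (Finset.filter_subset _ _)).trans
        (Nat.prod_primeFactors_dvd n)
    rw [hD, Finset.mem_filter, Finset.mem_Icc]
    refine ⟨⟨Nat.pos_of_ne_zero h2.ne_zero, (Nat.le_of_dvd (by omega) h4).trans hn.2⟩, h2, ?_⟩
    intro p hp hpd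
    have : p ∈ slg_S n := by
      rw [← h3]
      exact Nat.mem_primeFactors.2 ⟨hp, hpd, h2.ne_zero⟩
    exact (Finset.mem_filter.1 this).2
  have h2 : ∑ n ∈ Finset.Ioc 0 N, slg_F n =
      ∑ d ∈ D, ∑ n ∈ (Finset.Icc 1 N).filter (fun n => (∏ p ∈ slg_S n, p) = d), slg_F n := by
    rw [Finset.sum_fiberwise_of_maps_to hmaps]
    rfl
  have h3 : ∀ d ∈ D, ∑ n ∈ (Finset.Icc 1 N).filter (fun n => (∏ p ∈ slg_S n, p) = d), slg_F n ≤
      4 * ∏ p ∈ d.primeFactors, slg_H p := by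
    intro d hd
    rw [hD, Finset.mem_filter] at hd
    refine le_trans ?_ (slg_fib N d.primeFactors fun p hp => ⟨Nat.prime_of_mem_primeFactors hp,
      hd.2.2 p (Nat.prime_of_mem_primeFactors hp) (Nat.dvd_of_mem_primeFactors hp)⟩)
    refine Finset.sum_le_sum_of_subset_of_nonneg ?_ fun n _ _ => slg_F_nonneg n
    intro n hn
    rw [Finset.mem_filter] at hn ⊢
    refine ⟨hn.1, ?_⟩
    have hpr : ∀ p ∈ slg_S n, p.Prime := fun p hp =>
      Nat.prime_of_mem_primeFactors (Finset.mem_filter.1 hp).1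
    rw [← hn.2, (slg_rad hpr).2]
  have h4 : Real.log R ≤ Real.log (N + 1) :=
    Real.log_le_log (by linarith) (Nat.lt_floor_add_one R).le
  have h5 := Finset.sum_le_sum h3
  rw [← h2, ← Finset.mul_sum] at h5
  have h6 : 1 / 6 * Real.log R ≤ ∑ d ∈ D, ∏ p ∈ d.primeFactors, slg_H p := by linarith
  exact h6

end Pool.Agent.T2


namespace Pool.Agent.T2

theorem selberg_mass : type_of% @selberg_mass_pr := @selberg_mass_pr

end Pool.Agent.T2
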