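import Pool.Agent.Lib_helper10.T2.Defs
import Pool.Agent.Lib_helper10.T2F.BAS
import Pool.Agent.Lib_helper10.T2F.CNT
import Pool.Agent.Lib_helper10.T2F.EXP
import Pool.Agent.Lib_helper10.T2F.PEL
import Pool.Agent.Lib_helper10.T2F.SLG
import Pool.Agent.Lib_helper10.T2F.SLW

/-! T2, block PHM: the inequality of Halasz and Montgomery for prime elements -/

namespace Pool.Agent.T2

open Filter Topology MeasureTheory

/-- the three divisors over a prime `1 mod 4` -/
noncomputable def phm_a (p : ℕ) (i : Fin 3) : G :=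
  if i = 0 then pel p else if i = 1 then star (pel p) else (p : G)

/-- their signs -/
noncomputable def phm_s (i : Fin 3) : ℝ := if i = 2 then -1 else 1

theorem phm_nn_a {p : ℕ} (hp : p.Prime) (h4 : p % 4 = 1) (i : Fin 3) :
    nn (phm_a p i) = if i = 2 then p ^ 2 else p := by
  have h := (pel_spec hp h4).1
  fin_cases i
  · simp [phm_a, h]
  · simp [phm_a, nn_star, h]
  · simp [phm_a, nn_nat]

theorem phm_mul_star (z : G) : z * star z = ((nn z : ℕ) : G) := by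
  have h := nn_cast z
  have h2 : ((nn z : ℕ) : G) = (((nn z : ℕ) : ℤ) : G) := by push_cast; rfl
  rw [h2]
  apply Zsqrtd.ext
  · rw [Zsqrtd.re_intCast, h]
    simp [Zsqrtd.re_mul, Zsqrtd.re_star, Zsqrtd.im_star]; ring
  · rw [Zsqrtd.im_intCast]
    simp [Zsqrtd.im_mul, Zsqrtd.re_star, Zsqrtd.im_star]; ring

theorem phm_star_dvd {a z : G} : star a ∣ z ↔ a ∣ star z := by
  constructor
  · rintro ⟨c, rfl⟩
    exact ⟨star c, by rw [star_mul, star_star, mul_comm]⟩
  · rintro ⟨c, hc⟩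
    refine ⟨star c, ?_⟩
    rw [← star_star z, hc, star_mul, mul_comm]

theorem phm_nn_dvd {a z : G} (h : a ∣ z) : nn a ∣ nn z := by
  obtain ⟨c, rfl⟩ := h
  rw [nn_mul]; exact dvd_mul_right _ _

theorem phm_dvd_iff {p : ℕ} (hp : p.Prime) (h4 : p % 4 = 1) (z : G) :
    p ∣ nn z ↔ (pel p ∣ z ∨ star (pel p) ∣ z) := by
  constructor
  · intro h
    have h1 : pel p ∣ z * star z := by
      rw [phm_mul_star]
      have h2 : pel p ∣ (p : G) := ⟨star (pel p), (pel_mul_star hp h4).symm⟩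
      refine h2.trans ?_
      exact_mod_cast Nat.cast_dvd_cast (α := G) h
    rcases (pel_prime hp h4).dvd_or_dvd h1 with h2 | h2
    · exact Or.inl h2
    · exact Or.inr (phm_star_dvd.2 h2)
  · rintro (h | h)
    · have := phm_nn_dvd h
      rwa [(pel_spec hp h4).1] at this
    · have := phm_nn_dvd h
      rwa [nn_star, (pel_spec hp h4).1] at this

theorem phm_coprime_of_nn {a b : G} (h : Nat.Coprime (nn a) (nn b)) : IsCoprime a b := by
  have h1 : IsCoprime ((nn a : ℕ) : ℤ) ((nn b : ℕ) : ℤ) := Nat.isCoprime_iff_coprime.2 h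
  obtain ⟨u, v, huv⟩ := h1
  refine ⟨(u : G) * star a, (v : G) * star b, ?_⟩
  have h2 : ((u * (nn a : ℕ) + v * (nn b : ℕ) : ℤ) : G) = ((1 : ℤ) : G) := by rw [huv]
  push_cast at h2
  rw [← phm_mul_star, ← phm_mul_star] at h2
  linear_combination h2

theorem phm_pel_coprime {p : ℕ} (hp : p.Prime) (h4 : p % 4 = 1) :
    IsCoprime (pel p) (star (pel p)) := by
  have h1 := pel_prime hp h4
  rw [← irreducible_iff_prime] at h1
  refine (h1.coprime_iff_not_dvd).2 fun h => ?_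
  have h2 := pel_star_prime hp h4
  exact pel_not_star hp h4 hp h4 ((pel_prime hp h4).associated_of_dvd h2 h)

theorem phm_p_dvd_iff {p : ℕ} (hp : p.Prime) (h4 : p % 4 = 1) (z : G) :
    ((p : G) ∣ z) ↔ (pel p ∣ z ∧ star (pel p) ∣ z) := by
  rw [← pel_mul_star hp h4]
  constructor
  · intro h
    exact ⟨(dvd_mul_right _ _).trans h, (dvd_mul_left _ _).trans h⟩
  · rintro ⟨h1, h2⟩
    exact (phm_pel_coprime hp h4).mul_dvd h1 h2

open Classical in
theorem phm_ind {p : ℕ} (hp : p.Prime) (h4 : p % 4 = 1) (z : G) :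
    (if p ∣ nn z then (1 : ℂ) else 0) =
      ∑ i : Fin 3, (phm_s i : ℂ) * (if phm_a p i ∣ z then 1 else 0) := by
  rw [Fin.sum_univ_three]
  simp only [phm_s, phm_a, phm_dvd_iff hp h4]
  have e1 : ((1 : Fin 3) = 0) = False := by simp
  have e2 : ((2 : Fin 3) = 0) = False := by simp
  have e3 : ((2 : Fin 3) = 1) = False := by simp
  have e4 : ((0 : Fin 3) = 2) = False := by simp
  have e5 : ((1 : Fin 3) = 2) = False := by simp
  simp only [e1, e2, e3, e4, e5, if_true, if_false, phm_p_dvd_iff hp h4]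
  by_cases h1 : pel p ∣ z <;> by_cases h2 : star (pel p) ∣ z <;> simp [h1, h2]

open Classical in
theorem phm_expand (P : Finset ℕ) (hP : Pset P) (z : G) :
    (if (∀ p ∈ P, p ∣ nn z) then (1 : ℂ) else 0) =
      ∑ e ∈ P.pi (fun _ => (Finset.univ : Finset (Fin 3))),
        ((∏ x ∈ P.attach, phm_s (e x.1 x.2) : ℝ) : ℂ) *
          (if (∏ x ∈ P.attach, phm_a x.1 (e x.1 x.2)) ∣ z then 1 else 0) := by
  have h1 : (if (∀ p ∈ P, p ∣ nn z) then (1 : ℂ) else 0) =
      ∏ p ∈ P, (if p ∣ nn z then (1 : ℂ) else 0) := by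
    rw [Finset.prod_ite_zero]
    simp
  have h2 : ∏ p ∈ P, (if p ∣ nn z then (1 : ℂ) else 0) =
      ∏ p ∈ P, ∑ i ∈ (Finset.univ : Finset (Fin 3)),
        (phm_s i : ℂ) * (if phm_a p i ∣ z then 1 else 0) :=
    Finset.prod_congr rfl fun p hp => phm_ind (hP p hp).1 (hP p hp).2 z
  rw [h1, h2, Finset.prod_sum]
  refine Finset.sum_congr rfl fun e _ => ?_
  rw [Finset.prod_mul_distrib]
  congr 1
  · push_cast; rfl
  · rw [Finset.prod_ite_zero]
    have h3 : (∀ x ∈ P.attach, phm_a x.1 (e x.1 x.2) ∣ z) ↔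
        (∏ x ∈ P.attach, phm_a x.1 (e x.1 x.2)) ∣ z := by
      constructor
      · intro h
        refine Finset.prod_dvd_of_coprime ?_ h
        intro x _ y _ hxy
        apply phm_coprime_of_nn
        have hx := hP x.1 x.2
        have hy := hP y.1 y.2
        have hne : x.1 ≠ y.1 := fun h => hxy (Subtype.ext h)
        have hc : Nat.Coprime x.1 y.1 := (Nat.coprime_primes hx.1 hy.1).2 hne
        rw [phm_nn_a hx.1 hx.2, phm_nn_a hy.1 hy.2]
        split_ifs
        · exact Nat.Coprime.pow _ _ hc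
        · exact Nat.Coprime.pow_left _ hc
        · exact Nat.Coprime.pow_right _ hc
        · exact hc
      · intro h x hx
        exact (Finset.dvd_prod_of_mem _ hx).trans h
    simp only [h3]
    simp

open Classical in
theorem phm_mul_sum {g : G} (hg : g ≠ 0) (F : G → ℂ) (x : ℝ) :
    ∑ z ∈ Bl x, (if g ∣ z then 1 else 0) * F z = ∑ w ∈ Bl (x / nn g), F (g * w) := by
  have hn : (0 : ℝ) < nn g := by exact_mod_cast nn_pos.2 hg
  have h1 : ∑ z ∈ Bl x, (if g ∣ z then 1 else 0) * F z =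
      ∑ z ∈ (Bl x).filter (fun z => g ∣ z), F z := by
    rw [Finset.sum_filter]
    refine Finset.sum_congr rfl fun z _ => ?_
    split_ifs <;> simp
  have h2 : (Bl x).filter (fun z => g ∣ z) = (Bl (x / nn g)).image (fun w => g * w) := by
    ext z
    simp only [Finset.mem_filter, Finset.mem_image, mem_Bl]
    constructor
    · rintro ⟨⟨hz, hzx⟩, ⟨w, rfl⟩⟩
      refine ⟨w, ⟨?_, ?_⟩, rfl⟩
      · rintro rfl; simp at hz
      · rw [nn_mul] at hzx
        push_cast at hzx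
        rw [le_div_iff₀ hn]; linarith
    · rintro ⟨w, ⟨hw, hwx⟩, rfl⟩
      refine ⟨⟨mul_ne_zero hg hw, ?_⟩, dvd_mul_right _ _⟩
      rw [nn_mul]
      push_cast
      rw [le_div_iff₀ hn] at hwx; linarith
  rw [h1, h2, Finset.sum_image]
  intro a _ b _ hab
  exact mul_left_cancel₀ hg hab

/-- the product of the chosen divisors -/
noncomputable def phm_g (P : Finset ℕ) (e : ∀ p ∈ P, Fin 3) : G :=
  ∏ x ∈ P.attach, phm_a x.1 (e x.1 x.2)

/-- the product of the signs -/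
noncomputable def phm_sg (P : Finset ℕ) (e : ∀ p ∈ P, Fin 3) : ℝ :=
  ∏ x ∈ P.attach, phm_s (e x.1 x.2)

theorem phm_nn_prod {ι : Type*} (s : Finset ι) (f : ι → G) :
    nn (∏ i ∈ s, f i) = ∏ i ∈ s, nn (f i) := by
  classical
  induction s using Finset.induction_on with
  | empty =>
    simp only [Finset.prod_empty]
    have := nn_nat 1
    simpa using this
  | insert a s ha ih => rw [Finset.prod_insert ha, Finset.prod_insert ha, nn_mul, ih]

theorem phm_nn_g {P : Finset ℕ} (hP : Pset P) (e : ∀ p ∈ P, Fin 3) :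
    nn (phm_g P e) = ∏ x ∈ P.attach, (if e x.1 x.2 = 2 then x.1 ^ 2 else x.1) := by
  rw [phm_g, phm_nn_prod]
  refine Finset.prod_congr rfl fun x _ => ?_
  exact phm_nn_a (hP x.1 x.2).1 (hP x.1 x.2).2 _

theorem phm_nn_g_pos {P : Finset ℕ} (hP : Pset P) (e : ∀ p ∈ P, Fin 3) :
    0 < nn (phm_g P e) := by
  rw [phm_nn_g hP]
  refine Finset.prod_pos fun x _ => ?_
  have := (hP x.1 x.2).1.pos
  split_ifs
  · positivity
  · exact this

theorem phm_nn_g_le {P : Finset ℕ} (hP : Pset P) (e : ∀ p ∈ P, Fin 3) :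
    nn (phm_g P e) ≤ (∏ p ∈ P, p) ^ 2 := by
  rw [phm_nn_g hP, ← Finset.prod_pow, ← Finset.prod_attach P (fun p => p ^ 2)]
  refine Finset.prod_le_prod' fun x _ => ?_
  have := (hP x.1 x.2).1.pos
  split_ifs
  · exact le_rfl
  · exact Nat.le_self_pow (by norm_num) _

theorem phm_sg_abs (P : Finset ℕ) (e : ∀ p ∈ P, Fin 3) : |phm_sg P e| = 1 := by
  rw [phm_sg, Finset.abs_prod]
  refine Finset.prod_eq_one fun x _ => ?_
  unfold phm_s
  split_ifs <;> simp

theorem phm_sum_sg {P : Finset ℕ} (hP : Pset P) :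
    ∑ e ∈ P.pi (fun _ => (Finset.univ : Finset (Fin 3))), phm_sg P e / nn (phm_g P e) =
      ∏ p ∈ P, (2 / (p : ℝ) - 1 / (p : ℝ) ^ 2) := by
  have h1 : ∀ p ∈ P, (2 / (p : ℝ) - 1 / (p : ℝ) ^ 2) =
      ∑ i ∈ (Finset.univ : Finset (Fin 3)), phm_s i / (nn (phm_a p i) : ℝ) := by
    intro p hp
    rw [Fin.sum_univ_three]
    simp only [phm_nn_a (hP p hp).1 (hP p hp).2]
    have hp0 : (p : ℝ) ≠ 0 := by exact_mod_cast (hP p hp).1.ne_zero
    simp [phm_s]
    field_simp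
    ring
  rw [Finset.prod_congr rfl h1, Finset.prod_sum]
  refine Finset.sum_congr rfl fun e _ => ?_
  rw [phm_sg, phm_g, phm_nn_prod, Finset.prod_div_distrib]
  push_cast
  rfl

open Classical in
theorem phm_divsum {d : ℕ} (hd : Squarefree d) (hP : Pset d.primeFactors) (F : G → ℂ) (x : ℝ) :
    ∑ z ∈ Bl x, (if d ∣ nn z then 1 else 0) * F z =
      ∑ e ∈ d.primeFactors.pi (fun _ => (Finset.univ : Finset (Fin 3))),
        (phm_sg d.primeFactors e : ℂ) *
          ∑ w ∈ Bl (x / nn (phm_g d.primeFactors e)), F (phm_g d.primeFactors e * w) := by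
  set P := d.primeFactors with hPdef
  have h1 : ∀ z : G, (d ∣ nn z) ↔ (∀ p ∈ P, p ∣ nn z) := by
    intro z
    constructor
    · intro h p hp
      exact (Nat.dvd_of_mem_primeFactors hp).trans h
    · intro h
      rw [← Nat.prod_primeFactors_of_squarefree hd]
      exact Finset.prod_primes_dvd _ (fun p hp => (Nat.prime_of_mem_primeFactors hp).prime) h
  have h2 : ∑ z ∈ Bl x, (if d ∣ nn z then 1 else 0) * F z =
      ∑ z ∈ Bl x, ∑ e ∈ P.pi (fun _ => (Finset.univ : Finset (Fin 3))),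
        (phm_sg P e : ℂ) * ((if phm_g P e ∣ z then 1 else 0) * F z) := by
    refine Finset.sum_congr rfl fun z _ => ?_
    simp only [h1]
    rw [phm_expand P hP z, Finset.sum_mul]
    refine Finset.sum_congr rfl fun e _ => ?_
    rw [mul_assoc]
    rfl
  rw [h2, Finset.sum_comm]
  refine Finset.sum_congr rfl fun e _ => ?_
  rw [← Finset.mul_sum, phm_mul_sum (nn_pos.1 (phm_nn_g_pos hP e))]

theorem phm_pi_card (P : Finset ℕ) :
    (P.pi (fun _ => (Finset.univ : Finset (Fin 3)))).card = 3 ^ P.card := by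
  rw [Finset.card_pi]
  simp

/-- duality -/
theorem phm_dual {ι κ : Type*} (U : Finset ι) (S : Finset κ) (a : ι → κ → ℂ) (Δ : ℝ) (hΔ : 0 ≤ Δ)
    (h : ∀ b : ι → ℂ, ∑ z ∈ S, ‖∑ k ∈ U, b k * a k z‖ ^ 2 ≤ Δ * ∑ k ∈ U, ‖b k‖ ^ 2)
    (c : κ → ℂ) :
    ∑ k ∈ U, ‖∑ z ∈ S, c z * a k z‖ ^ 2 ≤ Δ * ∑ z ∈ S, ‖c z‖ ^ 2 := by
  classical
  set T : ι → ℂ := fun k => ∑ z ∈ S, c z * a k z with hT
  set A : ℝ := ∑ k ∈ U, ‖T k‖ ^ 2 with hA
  have hA0 : 0 ≤ A := Finset.sum_nonneg fun k _ => by positivity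
  set W : κ → ℂ := fun z => ∑ k ∈ U, (starRingEnd ℂ) (T k) * a k z with hW
  have h1 : (A : ℂ) = ∑ z ∈ S, c z * W z := by
    have e1 : (A : ℂ) = ∑ k ∈ U, (starRingEnd ℂ) (T k) * T k := by
      rw [hA, Complex.ofReal_sum]
      refine Finset.sum_congr rfl fun k _ => ?_
      rw [← Complex.normSq_eq_conj_mul_self, Complex.normSq_eq_norm_sq]
    rw [e1]
    simp only [hT, hW, Finset.mul_sum]
    rw [Finset.sum_comm]
    refine Finset.sum_congr rfl fun z _ => Finset.sum_congr rfl fun k _ => by ring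
  have h2 : A ≤ ∑ z ∈ S, ‖c z‖ * ‖W z‖ := by
    have e1 : A = ‖(A : ℂ)‖ := by rw [Complex.norm_real, Real.norm_of_nonneg hA0]
    rw [e1, h1]
    refine (norm_sum_le _ _).trans (Finset.sum_le_sum fun z _ => ?_)
    rw [norm_mul]
  have h3 : A ^ 2 ≤ (∑ z ∈ S, ‖c z‖ ^ 2) * ∑ z ∈ S, ‖W z‖ ^ 2 :=
    (pow_le_pow_left₀ hA0 h2 2).trans (Finset.sum_mul_sq_le_sq_mul_sq _ _ _)
  have h4 : ∑ z ∈ S, ‖W z‖ ^ 2 ≤ Δ * A := by
    refine (h fun k => (starRingEnd ℂ) (T k)).trans (le_of_eq ?_)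
    simp [hA]
  rcases hA0.eq_or_lt with h0 | h0
  · rw [← h0]
    exact mul_nonneg hΔ (Finset.sum_nonneg fun z _ => by positivity)
  · have h5 : A * A ≤ A * (Δ * ∑ z ∈ S, ‖c z‖ ^ 2) := by
      have hc0 : 0 ≤ ∑ z ∈ S, ‖c z‖ ^ 2 := Finset.sum_nonneg fun z _ => by positivity
      nlinarith [mul_le_mul_of_nonneg_left h4 hc0]
    exact le_of_mul_le_mul_left h5 h0

/-- the Gram matrix bound -/
theorem phm_gram {ι κ : Type*} [DecidableEq ι] (U : Finset ι) (S : Finset κ) (w : κ → ℝ)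
    (a : ι → κ → ℂ) (D E : ℝ)
    (hD : ∀ k ∈ U, ‖∑ z ∈ S, (w z : ℂ) * (a k z * (starRingEnd ℂ) (a k z))‖ ≤ D)
    (hE : ∀ k ∈ U, ∀ l ∈ U, k ≠ l →
      ‖∑ z ∈ S, (w z : ℂ) * (a k z * (starRingEnd ℂ) (a l z))‖ ≤ E) (hE0 : 0 ≤ E)
    (b : ι → ℂ) :
    ∑ z ∈ S, w z * ‖∑ k ∈ U, b k * a k z‖ ^ 2 ≤ (D + E * U.card) * ∑ k ∈ U, ‖b k‖ ^ 2 := by
  set G : ι → ι → ℂ := fun k l => ∑ z ∈ S, (w z : ℂ) * (a k z * (starRingEnd ℂ) (a l z)) with hG
  set L : ℝ := ∑ z ∈ S, w z * ‖∑ k ∈ U, b k * a k z‖ ^ 2 with hL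
  have h1 : (L : ℂ) = ∑ k ∈ U, ∑ l ∈ U, b k * (starRingEnd ℂ) (b l) * G k l := by
    have e1 : (L : ℂ) = ∑ z ∈ S, (w z : ℂ) *
        ((∑ k ∈ U, b k * a k z) * (starRingEnd ℂ) (∑ l ∈ U, b l * a l z)) := by
      rw [hL, Complex.ofReal_sum]
      refine Finset.sum_congr rfl fun z _ => ?_
      rw [Complex.mul_conj, Complex.normSq_eq_norm_sq]
      push_cast
      ring
    have e2 : ∀ z ∈ S, (w z : ℂ) *
        ((∑ k ∈ U, b k * a k z) * (starRingEnd ℂ) (∑ l ∈ U, b l * a l z)) =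
        ∑ k ∈ U, ∑ l ∈ U, b k * (starRingEnd ℂ) (b l) *
          ((w z : ℂ) * (a k z * (starRingEnd ℂ) (a l z))) := by
      intro z _
      rw [map_sum, Finset.sum_mul_sum, Finset.mul_sum]
      refine Finset.sum_congr rfl fun k _ => ?_
      rw [Finset.mul_sum]
      refine Finset.sum_congr rfl fun l _ => ?_
      rw [map_mul]
      ring
    rw [e1, Finset.sum_congr rfl e2, Finset.sum_comm]
    refine Finset.sum_congr rfl fun k _ => ?_
    rw [Finset.sum_comm]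
    refine Finset.sum_congr rfl fun l _ => ?_
    rw [hG, Finset.mul_sum]
  have h2 : L ≤ ∑ k ∈ U, ∑ l ∈ U, ‖b k‖ * ‖b l‖ * ‖G k l‖ := by
    refine (le_abs_self L).trans ?_
    rw [← Complex.norm_real L |>.trans (Real.norm_eq_abs L), h1]
    refine (norm_sum_le _ _).trans (Finset.sum_le_sum fun k _ => ?_)
    refine (norm_sum_le _ _).trans (Finset.sum_le_sum fun l _ => ?_)
    rw [norm_mul, norm_mul, RCLike.norm_conj]
  refine h2.trans ?_
  have h3 : ∀ k ∈ U, ∀ l ∈ U, ‖b k‖ * ‖b l‖ * ‖G k l‖ ≤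
      (if k = l then D * ‖b k‖ ^ 2 else 0) + E * ((‖b k‖ ^ 2 + ‖b l‖ ^ 2) / 2) := by
    intro k hk l hl
    have hbk := norm_nonneg (b k)
    have hbl := norm_nonneg (b l)
    by_cases hkl : k = l
    · subst hkl
      simp only [if_true]
      have := hD k hk
      have e : ‖b k‖ * ‖b k‖ * ‖G k k‖ ≤ D * ‖b k‖ ^ 2 := by
        calc ‖b k‖ * ‖b k‖ * ‖G k k‖ ≤ ‖b k‖ * ‖b k‖ * D :=
              mul_le_mul_of_nonneg_left this (by positivity)
          _ = D * ‖b k‖ ^ 2 := by ring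
      have e2 : 0 ≤ E * ((‖b k‖ ^ 2 + ‖b k‖ ^ 2) / 2) := by positivity
      linarith
    · simp only [if_neg hkl, zero_add]
      have e1 := hE k hk l hl hkl
      have e2 : ‖b k‖ * ‖b l‖ ≤ (‖b k‖ ^ 2 + ‖b l‖ ^ 2) / 2 := by nlinarith [sq_nonneg (‖b k‖ - ‖b l‖)]
      calc ‖b k‖ * ‖b l‖ * ‖G k l‖ ≤ (‖b k‖ ^ 2 + ‖b l‖ ^ 2) / 2 * E :=
            mul_le_mul e2 e1 (norm_nonneg _) (by positivity)
        _ = _ := by ring
  refine (Finset.sum_le_sum fun k hk => Finset.sum_le_sum fun l hl => h3 k hk l hl).trans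
    (le_of_eq ?_)
  have h4 : ∀ k ∈ U, ∑ l ∈ U, ((if k = l then D * ‖b k‖ ^ 2 else 0) +
      E * ((‖b k‖ ^ 2 + ‖b l‖ ^ 2) / 2)) =
      D * ‖b k‖ ^ 2 + E / 2 * (U.card * ‖b k‖ ^ 2 + ∑ l ∈ U, ‖b l‖ ^ 2) := by
    intro k hk
    rw [Finset.sum_add_distrib, Finset.sum_ite_eq, if_pos hk, ← Finset.mul_sum,
      ← Finset.sum_div, Finset.sum_add_distrib, Finset.sum_const, nsmul_eq_mul]
    ring
  rw [Finset.sum_congr rfl h4, Finset.sum_add_distrib, ← Finset.mul_sum, ← Finset.mul_sum,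
    Finset.sum_add_distrib, Finset.sum_const, nsmul_eq_mul, ← Finset.mul_sum]
  ring


theorem phm_nine {d : ℕ} (hd : 1 ≤ d) : (9 : ℝ) ^ d.primeFactors.card ≤ (d : ℝ) ^ 4 := by
  have h1 : 2 ^ d.primeFactors.card ≤ d := by
    calc 2 ^ d.primeFactors.card = ∏ _p ∈ d.primeFactors, 2 := by
          rw [Finset.prod_const]
      _ ≤ ∏ p ∈ d.primeFactors, p :=
          Finset.prod_le_prod' fun p hp => (Nat.prime_of_mem_primeFactors hp).two_le
      _ ≤ d := Nat.le_of_dvd hd (Nat.prod_primeFactors_dvd d)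
  calc (9 : ℝ) ^ d.primeFactors.card ≤ ((2 : ℝ) ^ 4) ^ d.primeFactors.card :=
        pow_le_pow_left₀ (by norm_num) (by norm_num) _
    _ = ((2 : ℝ) ^ d.primeFactors.card) ^ 4 := by rw [← pow_mul, ← pow_mul, mul_comm]
    _ ≤ (d : ℝ) ^ 4 := by
        refine pow_le_pow_left₀ (by positivity) ?_ 4
        exact_mod_cast h1

theorem phm_sum_nine (D : ℕ) :
    ∑ d ∈ Finset.Icc 1 D, (9 : ℝ) ^ d.primeFactors.card ≤ (D : ℝ) ^ 5 := by
  calc ∑ d ∈ Finset.Icc 1 D, (9 : ℝ) ^ d.primeFactors.card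
      ≤ ∑ d ∈ Finset.Icc 1 D, (D : ℝ) ^ 4 := by
        refine Finset.sum_le_sum fun d hd => ?_
        rw [Finset.mem_Icc] at hd
        refine (phm_nine hd.1).trans ?_
        refine pow_le_pow_left₀ (by positivity) ?_ 4
        exact_mod_cast hd.2
    _ = (D : ℝ) ^ 5 := by
        rw [Finset.sum_const, Nat.card_Icc, nsmul_eq_mul]
        simp
        ring

open Classical in
theorem phm_err (θ : ℕ → ℝ) (D : ℕ)
    (hs : ∀ d ∈ Finset.Icc 1 D, θ d ≠ 0 → Squarefree d ∧ Pset d.primeFactors)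
    (hθ : ∀ d, |θ d| ≤ 3 ^ d.primeFactors.card) (F : G → ℂ) (x : ℝ)
    (main : ∀ d : ℕ, (∀ p ∈ d.primeFactors, Fin 3) → ℂ) (K : ℝ) (hK : 0 ≤ K)
    (h : ∀ d ∈ Finset.Icc 1 D, θ d ≠ 0 →
      ∀ e : (∀ p ∈ d.primeFactors, Fin 3),
        ‖∑ w ∈ Bl (x / nn (phm_g d.primeFactors e)), F (phm_g d.primeFactors e * w) -
          main d e‖ ≤ K) :
    ‖∑ z ∈ Bl x, ((∑ d ∈ Finset.Icc 1 D, θ d * (if d ∣ nn z then 1 else 0) : ℝ) : ℂ) * F z -
      ∑ d ∈ Finset.Icc 1 D, (θ d : ℂ) *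
        ∑ e ∈ d.primeFactors.pi (fun _ => (Finset.univ : Finset (Fin 3))),
          (phm_sg d.primeFactors e : ℂ) * main d e‖ ≤ K * (D : ℝ) ^ 5 := by
  have h1 : ∑ z ∈ Bl x, ((∑ d ∈ Finset.Icc 1 D, θ d * (if d ∣ nn z then 1 else 0) : ℝ) : ℂ) *
      F z = ∑ d ∈ Finset.Icc 1 D, (θ d : ℂ) *
        ∑ z ∈ Bl x, (if d ∣ nn z then 1 else 0) * F z := by
    simp only [Finset.mul_sum]
    rw [Finset.sum_comm]
    refine Finset.sum_congr rfl fun z _ => ?_
    push_cast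
    rw [Finset.sum_mul]
    refine Finset.sum_congr rfl fun d _ => ?_
    by_cases hdz : d ∣ nn z
    · simp only [hdz, if_true, Complex.ofReal_one]; ring
    · simp only [hdz, if_false, Complex.ofReal_zero]; ring
  rw [h1, ← Finset.sum_sub_distrib]
  refine (norm_sum_le _ _).trans ?_
  have h2 : ∀ d ∈ Finset.Icc 1 D, ‖(θ d : ℂ) * ∑ z ∈ Bl x, (if d ∣ nn z then 1 else 0) * F z -
      (θ d : ℂ) * ∑ e ∈ d.primeFactors.pi (fun _ => (Finset.univ : Finset (Fin 3))),
          (phm_sg d.primeFactors e : ℂ) * main d e‖ ≤ K * 9 ^ d.primeFactors.card := by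
    intro d hd
    by_cases h0 : θ d = 0
    · rw [h0]; simp; positivity
    obtain ⟨hsq, hP⟩ := hs d hd h0
    rw [← mul_sub, norm_mul, Complex.norm_real, Real.norm_eq_abs, phm_divsum hsq hP F x,
      ← Finset.sum_sub_distrib]
    have h3 : ‖∑ e ∈ d.primeFactors.pi (fun _ => (Finset.univ : Finset (Fin 3))),
        ((phm_sg d.primeFactors e : ℂ) *
          ∑ w ∈ Bl (x / nn (phm_g d.primeFactors e)), F (phm_g d.primeFactors e * w) -
          (phm_sg d.primeFactors e : ℂ) * main d e)‖ ≤ 3 ^ d.primeFactors.card * K := by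
      refine (norm_sum_le _ _).trans ?_
      have h4 : ∀ e ∈ d.primeFactors.pi (fun _ => (Finset.univ : Finset (Fin 3))),
          ‖(phm_sg d.primeFactors e : ℂ) *
          ∑ w ∈ Bl (x / nn (phm_g d.primeFactors e)), F (phm_g d.primeFactors e * w) -
          (phm_sg d.primeFactors e : ℂ) * main d e‖ ≤ K := by
        intro e _
        rw [← mul_sub, norm_mul, Complex.norm_real, Real.norm_eq_abs, phm_sg_abs, one_mul]
        exact h d hd h0 e
      refine (Finset.sum_le_sum h4).trans (le_of_eq ?_)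
      rw [Finset.sum_const, phm_pi_card, nsmul_eq_mul]
      push_cast; rfl
    calc |θ d| * _ ≤ 3 ^ d.primeFactors.card * (3 ^ d.primeFactors.card * K) :=
          mul_le_mul (hθ d) h3 (norm_nonneg _) (by positivity)
      _ = K * 9 ^ d.primeFactors.card := by
          rw [show (9 : ℝ) = 3 * 3 by norm_num, mul_pow]; ring
  refine (Finset.sum_le_sum h2).trans ?_
  rw [← Finset.mul_sum]
  exact mul_le_mul_of_nonneg_left (phm_sum_nine D) hK

theorem phm_w {θ : ℕ → ℝ} {R : ℝ}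
    (hθ : ∀ d, θ d ≠ 0 → (d : ℝ) ≤ R ^ 2) {n : ℕ} (hn : 1 ≤ n) :
    ∑ d ∈ n.divisors, θ d =
      ∑ d ∈ Finset.Icc 1 ⌊R ^ 2⌋₊, θ d * (if d ∣ n then 1 else 0) := by
  classical
  have h1 : ∑ d ∈ n.divisors, θ d = ∑ d ∈ n.divisors ∩ Finset.Icc 1 ⌊R ^ 2⌋₊, θ d := by
    symm
    refine Finset.sum_subset Finset.inter_subset_left ?_
    intro d hd hd2
    by_contra h0
    apply hd2
    rw [Finset.mem_inter]
    refine ⟨hd, ?_⟩
    rw [Finset.mem_Icc]
    refine ⟨Nat.pos_of_mem_divisors hd, ?_⟩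
    exact Nat.le_floor (hθ d h0)
  have h2 : ∑ d ∈ Finset.Icc 1 ⌊R ^ 2⌋₊, θ d * (if d ∣ n then 1 else 0) =
      ∑ d ∈ (Finset.Icc 1 ⌊R ^ 2⌋₊).filter (fun d => d ∣ n), θ d := by
    rw [Finset.sum_filter]
    refine Finset.sum_congr rfl fun d _ => ?_
    split_ifs <;> simp
  rw [h1, h2]
  congr 1
  ext d
  simp only [Finset.mem_inter, Finset.mem_filter, Nat.mem_divisors]
  constructor
  · rintro ⟨⟨h, _⟩, h'⟩; exact ⟨h', h⟩
  · rintro ⟨h', h⟩; exact ⟨⟨h, by omega⟩, h'⟩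

open Classical in
/-- the majorant of the primes -/
theorem phm_majorant (δ : ℝ) (hδ : 0 < δ) : ∃ κ C X₀ : ℝ, 0 < κ ∧ κ ≤ 1 / 4 ∧ 1 ≤ C ∧ 1 ≤ X₀ ∧
    ∀ X : ℝ, X₀ ≤ X → ∀ M : ℝ, X ^ δ ≤ M → ∃ w : G → ℝ,
      (∀ z ∈ Bl (2 * M), 0 ≤ w z) ∧
      (∀ p : ℕ, p.Prime → p % 4 = 1 → M < (p : ℝ) → w (pel p) = 1) ∧
      ∑ z ∈ Bl (2 * M), w z ≤ C * (M / Real.log M) ∧
      ∀ j : ℤ, j ≠ 0 → |(j : ℝ)| ≤ 2 * X →
        ‖∑ z ∈ Bl (2 * M), (w z : ℂ) * ang j z‖ ≤ C * M ^ (1 - 3 * κ / 4) := by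
  have hA : 1 ≤ 2 / δ + 1 := by
    have : 0 < 2 / δ := by positivity
    linarith
  obtain ⟨κ, C₁, hκ, hκ1, hC₁, hexp⟩ := exp_per (2 / δ + 1) hA 1 one_ne_zero
  obtain ⟨C₂, hC₂, hball⟩ := ball_count
  obtain ⟨c, hc, hmass⟩ := selberg_mass
  refine ⟨κ, 2 * C₁ + (2 * Real.pi * (40 / (c * κ)) + 8 * C₂), (2 : ℝ) ^ (40 / (κ * δ)), hκ, hκ1,
    ?_, ?_, ?_⟩
  · have h1 : 0 ≤ 2 * Real.pi * (40 / (c * κ)) := by positivity
    linarith
  · exact Real.one_le_rpow (by norm_num) (by positivity)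
  intro X hX M hM
  have hX1 : 1 ≤ X := (Real.one_le_rpow (by norm_num) (by positivity)).trans hX
  have hX0 : 0 < X := by linarith
  have hM2 : (2 : ℝ) ^ (40 / κ) ≤ M := by
    refine le_trans ?_ hM
    calc (2 : ℝ) ^ (40 / κ) = ((2 : ℝ) ^ (40 / (κ * δ))) ^ δ := by
          rw [← Real.rpow_mul (by norm_num)]
          congr 1
          field_simp
      _ ≤ X ^ δ := Real.rpow_le_rpow (by positivity) hX hδ.le
  have hM1 : 2 ≤ M := by
    refine le_trans ?_ hM2
    calc (2 : ℝ) = 2 ^ (1 : ℝ) := by simp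
      _ ≤ 2 ^ (40 / κ) := by
          refine Real.rpow_le_rpow_of_exponent_le (by norm_num) ?_
          rw [le_div_iff₀ hκ]; linarith
  have hM0 : 0 < M := by linarith
  have hlogM : 0 < Real.log M := Real.log_pos (by linarith)
  set R : ℝ := M ^ (κ / 40) with hR
  have hR2 : 2 ≤ R := by
    calc (2 : ℝ) = (2 ^ (40 / κ)) ^ (κ / 40) := by
          rw [← Real.rpow_mul (by norm_num)]
          rw [show 40 / κ * (κ / 40) = 1 by field_simp]
          simp
      _ ≤ R := Real.rpow_le_rpow (by positivity) hM2 (by positivity)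
  have hR0 : 0 < R := by linarith
  have hlogR : Real.log R = κ / 40 * Real.log M := Real.log_rpow hM0 _
  -- Selberg's weights
  set S : Finset ℕ := (Finset.range (⌊R⌋₊ + 1)).filter (fun p => p.Prime ∧ p % 4 = 1) with hS
  set h : ℕ → ℝ := fun p => 2 / (p : ℝ) - 1 / (p : ℝ) ^ 2 with hh
  have hhp : ∀ p ∈ S, 0 < h p ∧ h p < 1 := by
    intro p hp
    have hp1 := (Finset.mem_filter.1 hp).2.1
    have hp2 : (2 : ℝ) ≤ p := by exact_mod_cast hp1.two_le
    have hp0 : (0 : ℝ) < p := by linarith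
    have e : h p = 1 - (1 - 1 / (p : ℝ)) ^ 2 := by
      simp only [hh]; field_simp; ring
    have h1 : 0 < 1 / (p : ℝ) := by positivity
    have h2 : 1 / (p : ℝ) ≤ 1 / 2 := one_div_le_one_div_of_le (by norm_num) hp2
    rw [e]
    constructor <;> nlinarith
  obtain ⟨θ, hθ1, hθ2, hθ3, hθ4, hθ5⟩ := selberg_weights S
    (fun p hp => (Finset.mem_filter.1 hp).2.1) h hhp R (by linarith)
  set D : ℕ := ⌊R ^ 2⌋₊ with hD
  have hDR : (D : ℝ) ≤ R ^ 2 := Nat.floor_le (by positivity)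
  have hs : ∀ d ∈ Finset.Icc 1 D, θ d ≠ 0 → Squarefree d ∧ Pset d.primeFactors := by
    intro d _ h0
    obtain ⟨h1, h2, _⟩ := hθ1 d h0
    refine ⟨h1, fun p hp => ?_⟩
    exact (Finset.mem_filter.1 (h2 p (Nat.prime_of_mem_primeFactors hp)
      (Nat.dvd_of_mem_primeFactors hp))).2
  have hR10 : (R ^ 2) ^ 5 = M ^ (κ / 4) := by
    rw [← pow_mul, hR, ← Real.rpow_natCast, ← Real.rpow_mul hM0.le]
    congr 1
    push_cast; ring
  have hD5 : (D : ℝ) ^ 5 ≤ M ^ (κ / 4) := by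
    rw [← hR10]
    exact pow_le_pow_left₀ (by positivity) hDR 5
  -- norms of the divisors
  have hng : ∀ d ∈ Finset.Icc 1 D, θ d ≠ 0 → ∀ e : (∀ p ∈ d.primeFactors, Fin 3),
      (1 : ℝ) ≤ nn (phm_g d.primeFactors e) ∧
        (nn (phm_g d.primeFactors e) : ℝ) ≤ M ^ (1 / 2 : ℝ) := by
    intro d hd h0 e
    obtain ⟨hsq, hP⟩ := hs d hd h0
    refine ⟨by exact_mod_cast phm_nn_g_pos hP e, ?_⟩
    have h1 := phm_nn_g_le hP e
    rw [Nat.prod_primeFactors_of_squarefree hsq] at h1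
    have h2 : (nn (phm_g d.primeFactors e) : ℝ) ≤ (d : ℝ) ^ 2 := by exact_mod_cast h1
    have h3 : (d : ℝ) ≤ R ^ 2 := (hθ1 d h0).2.2
    calc (nn (phm_g d.primeFactors e) : ℝ) ≤ (d : ℝ) ^ 2 := h2
      _ ≤ (R ^ 2) ^ 2 := pow_le_pow_left₀ (by positivity) h3 2
      _ = M ^ (κ / 10) := by
          rw [← pow_mul, hR, ← Real.rpow_natCast, ← Real.rpow_mul hM0.le]
          congr 1
          push_cast; ring
      _ ≤ M ^ (1 / 2 : ℝ) := by
          refine Real.rpow_le_rpow_of_exponent_le (by linarith) ?_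
          linarith
  refine ⟨fun z => ∑ d ∈ (nn z).divisors, θ d, ?_, ?_, ?_, ?_⟩
  · intro z hz
    exact hθ4 _ (nn_pos.2 (mem_Bl.1 hz).1)
  · intro p hp h4 hMp
    simp only
    rw [(pel_spec hp h4).1, Nat.Prime.sum_divisors hp, hθ3]
    have : θ p = 0 := by
      by_contra h0
      have h1 := (hθ1 p h0).2.2
      have h2 : R ^ 2 ≤ M := by
        calc R ^ 2 = M ^ (κ / 20) := by
              rw [hR, ← Real.rpow_natCast, ← Real.rpow_mul hM0.le]
              congr 1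
              push_cast; ring
          _ ≤ M ^ (1 : ℝ) := by
              refine Real.rpow_le_rpow_of_exponent_le (by linarith) ?_
              linarith
          _ = M := Real.rpow_one M
      linarith
    rw [this]; ring
  · -- the total mass
    have hw : ∀ z ∈ Bl (2 * M), ∑ d ∈ (nn z).divisors, θ d =
        ∑ d ∈ Finset.Icc 1 D, θ d * (if d ∣ nn z then 1 else 0) := by
      intro z hz
      exact phm_w (fun d h0 => (hθ1 d h0).2.2) (nn_pos.2 (mem_Bl.1 hz).1)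
    rw [Finset.sum_congr rfl hw]
    set K : ℝ := C₂ * Real.sqrt (2 * M) with hK
    have herr := phm_err θ D hs hθ2 (fun _ => 1) (2 * M)
      (fun d e => ((Real.pi * (2 * M / nn (phm_g d.primeFactors e)) : ℝ) : ℂ)) K (by positivity)
      (by
        intro d hd h0 e
        obtain ⟨hn1, hn2⟩ := hng d hd h0 e
        have hy : 1 ≤ 2 * M / nn (phm_g d.primeFactors e) := by
          rw [le_div_iff₀ (by linarith)]
          have : M ^ (1 / 2 : ℝ) ≤ M ^ (1 : ℝ) :=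
            Real.rpow_le_rpow_of_exponent_le (by linarith) (by norm_num)
          rw [Real.rpow_one] at this
          linarith
        have h1 := hball _ hy
        have h2 : ∑ w ∈ Bl (2 * M / nn (phm_g d.primeFactors e)), (1 : ℂ) -
            ((Real.pi * (2 * M / nn (phm_g d.primeFactors e)) : ℝ) : ℂ) =
            (((Bl (2 * M / nn (phm_g d.primeFactors e))).card -
              Real.pi * (2 * M / nn (phm_g d.primeFactors e)) : ℝ) : ℂ) := by
          push_cast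
          simp
        rw [h2, Complex.norm_real, Real.norm_eq_abs]
        refine h1.trans ?_
        rw [hK]
        refine mul_le_mul_of_nonneg_left (Real.sqrt_le_sqrt ?_) (by linarith)
        exact div_le_self (by positivity) hn1)
    have e1 : ∑ d ∈ Finset.Icc 1 D, (θ d : ℂ) *
        ∑ e ∈ d.primeFactors.pi (fun _ => (Finset.univ : Finset (Fin 3))),
          (phm_sg d.primeFactors e : ℂ) *
            ((Real.pi * (2 * M / nn (phm_g d.primeFactors e)) : ℝ) : ℂ) =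
        ((2 * Real.pi * M * ∑ d ∈ Finset.Icc 1 D, θ d * ∏ p ∈ d.primeFactors, h p : ℝ) : ℂ) := by
      rw [Complex.ofReal_mul, Complex.ofReal_sum, Finset.mul_sum]
      refine Finset.sum_congr rfl fun d hd => ?_
      by_cases h0 : θ d = 0
      · simp [h0]
      obtain ⟨hsq, hP⟩ := hs d hd h0
      have e2 := phm_sum_sg hP
      have e3 : ∏ p ∈ d.primeFactors, h p = ∏ p ∈ d.primeFactors,
        (2 / (p : ℝ) - 1 / (p : ℝ) ^ 2) := rfl
      rw [e3, ← e2]
      push_cast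
      rw [Finset.mul_sum, Finset.mul_sum, Finset.mul_sum]
      refine Finset.sum_congr rfl fun e _ => ?_
      ring
    rw [e1] at herr
    have e4 : ∑ z ∈ Bl (2 * M),
        ((∑ d ∈ Finset.Icc 1 D, θ d * (if d ∣ nn z then 1 else 0) : ℝ) : ℂ) * (1 : ℂ) =
        ((∑ z ∈ Bl (2 * M), ∑ d ∈ Finset.Icc 1 D, θ d * (if d ∣ nn z then 1 else 0) : ℝ) : ℂ) := by
      push_cast
      simp
    rw [e4, ← Complex.ofReal_sub, Complex.norm_real, Real.norm_eq_abs] at herr
    have h1 := (abs_le.1 herr).2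
    -- main term
    set T : ℝ := ∑ d ∈ (Finset.Icc 1 ⌊R⌋₊).filter (fun d : ℕ => Squarefree d ∧
        ∀ p : ℕ, p.Prime → p ∣ d → p ∈ S), ∏ p ∈ d.primeFactors, h p / (1 - h p) with hT
    have hTm : c * Real.log R ≤ T := by
      refine (hmass R hR2).trans (le_of_eq ?_)
      rw [hT]
      refine Finset.sum_congr ?_ fun d _ => rfl
      ext d
      simp only [Finset.mem_filter, Finset.mem_Icc, hS, Finset.mem_range]
      constructor
      · rintro ⟨hd, hsq, h2⟩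
        refine ⟨hd, hsq, fun p hp hpd => ⟨?_, hp, h2 p hp hpd⟩⟩
        have := Nat.le_of_dvd (by omega) hpd
        omega
      · rintro ⟨hd, hsq, h2⟩
        exact ⟨hd, hsq, fun p hp hpd => (h2 p hp hpd).2.2⟩
    have hTpos : 0 < T := by
      have : 0 < Real.log R := Real.log_pos (by linarith)
      have : 0 < c * Real.log R := by positivity
      linarith
    have h2 : ∑ d ∈ Finset.Icc 1 D, θ d * ∏ p ∈ d.primeFactors, h p ≤
        1 / (c * (κ / 40 * Real.log M)) := by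
      refine hθ5.trans ?_
      rw [← hlogR]
      refine one_div_le_one_div_of_le ?_ hTm
      have : 0 < Real.log R := Real.log_pos (by linarith)
      positivity
    have h3 : 2 * Real.pi * M * ∑ d ∈ Finset.Icc 1 D, θ d * ∏ p ∈ d.primeFactors, h p ≤
        2 * Real.pi * (40 / (c * κ)) * (M / Real.log M) := by
      calc 2 * Real.pi * M * ∑ d ∈ Finset.Icc 1 D, θ d * ∏ p ∈ d.primeFactors, h p ≤
            2 * Real.pi * M * (1 / (c * (κ / 40 * Real.log M))) :=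
            mul_le_mul_of_nonneg_left h2 (by positivity)
        _ = 2 * Real.pi * (40 / (c * κ)) * (M / Real.log M) := by
            field_simp
    have h4 : K * (D : ℝ) ^ 5 ≤ 8 * C₂ * (M / Real.log M) := by
      have h5 : Real.log M ≤ M ^ (1 / 4 : ℝ) / (1 / 4) :=
        Real.log_le_rpow_div hM0.le (by norm_num)
      have h6 : Real.sqrt (2 * M) ≤ 2 * M ^ (1 / 2 : ℝ) := by
        rw [Real.sqrt_mul (by norm_num), ← Real.sqrt_eq_rpow]
        have : Real.sqrt 2 ≤ 2 := by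
          rw [Real.sqrt_le_left (by norm_num)]; norm_num
        exact mul_le_mul_of_nonneg_right this (Real.sqrt_nonneg _)
      have h7 : M ^ (κ / 4) ≤ M ^ (1 / 4 : ℝ) :=
        Real.rpow_le_rpow_of_exponent_le (by linarith) (by linarith)
      have h8 : M ^ (1 / 2 : ℝ) * M ^ (1 / 4 : ℝ) * M ^ (1 / 4 : ℝ) = M := by
        rw [← Real.rpow_add hM0, ← Real.rpow_add hM0]
        norm_num
      have h9 : K * (D : ℝ) ^ 5 ≤ C₂ * (2 * M ^ (1 / 2 : ℝ)) * M ^ (1 / 4 : ℝ) := by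
        rw [hK]
        refine mul_le_mul (mul_le_mul_of_nonneg_left h6 (by linarith)) (hD5.trans h7)
          (by positivity) (by positivity)
      rw [mul_div_assoc', le_div_iff₀ hlogM]
      calc K * (D : ℝ) ^ 5 * Real.log M ≤
            (C₂ * (2 * M ^ (1 / 2 : ℝ)) * M ^ (1 / 4 : ℝ)) * (M ^ (1 / 4 : ℝ) / (1 / 4)) :=
            mul_le_mul h9 h5 hlogM.le (by positivity)
        _ = 8 * C₂ * (M ^ (1 / 2 : ℝ) * M ^ (1 / 4 : ℝ) * M ^ (1 / 4 : ℝ)) := by ring
        _ = 8 * C₂ * M := by rw [h8]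
    have h5 : 0 ≤ 2 * C₁ * (M / Real.log M) := by positivity
    calc _ ≤ 2 * Real.pi * M * ∑ d ∈ Finset.Icc 1 D, θ d * ∏ p ∈ d.primeFactors, h p +
          K * (D : ℝ) ^ 5 := by linarith
      _ ≤ 2 * Real.pi * (40 / (c * κ)) * (M / Real.log M) + 8 * C₂ * (M / Real.log M) := by
          linarith
      _ ≤ _ := by
          rw [add_mul, add_mul (2 * Real.pi * (40 / (c * κ)))]
          linarith
  · -- the off-diagonal sums
    intro j hj hjX
    have hw : ∀ z ∈ Bl (2 * M), ((∑ d ∈ (nn z).divisors, θ d : ℝ) : ℂ) * ang j z =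
        ((∑ d ∈ Finset.Icc 1 D, θ d * (if d ∣ nn z then 1 else 0) : ℝ) : ℂ) * ang j z := by
      intro z hz
      rw [phm_w (fun d h0 => (hθ1 d h0).2.2) (nn_pos.2 (mem_Bl.1 hz).1)]
    simp only
    rw [Finset.sum_congr rfl hw]
    have hXM : X ≤ M ^ (1 / δ) := by
      have h1 : (X ^ δ) ^ (1 / δ) ≤ M ^ (1 / δ) :=
        Real.rpow_le_rpow (by positivity) hM (by positivity)
      rwa [← Real.rpow_mul hX0.le, mul_one_div, div_self hδ.ne', Real.rpow_one] at h1
    set K : ℝ := 2 * C₁ * M ^ (1 - κ) with hK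
    have herr := phm_err θ D hs hθ2 (fun z => ang j z) (2 * M) (fun _ _ => 0) K (by positivity)
      (by
        intro d hd h0 e
        obtain ⟨hn1, hn2⟩ := hng d hd h0 e
        set g := phm_g d.primeFactors e with hg
        have hy0 : 2 * M ^ (1 / 2 : ℝ) ≤ 2 * M / nn g := by
          rw [le_div_iff₀ (by linarith)]
          calc 2 * M ^ (1 / 2 : ℝ) * nn g ≤ 2 * M ^ (1 / 2 : ℝ) * M ^ (1 / 2 : ℝ) :=
                mul_le_mul_of_nonneg_left hn2 (by positivity)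
            _ = 2 * M := by
                rw [mul_assoc, ← Real.rpow_add hM0]; norm_num
        have hMh : 1 ≤ M ^ (1 / 2 : ℝ) := Real.one_le_rpow (by linarith) (by norm_num)
        have hy : 1 ≤ 2 * M / nn g := by linarith
        have hjy : |(j : ℝ)| ≤ (2 * M / nn g) ^ (2 / δ + 1) := by
          calc |(j : ℝ)| ≤ 2 * X := hjX
            _ ≤ 2 * M ^ (1 / δ) := by linarith
            _ ≤ (2 * M ^ (1 / 2 : ℝ)) ^ (2 / δ + 1) := by
                rw [Real.mul_rpow (by norm_num) (by positivity), ← Real.rpow_mul hM0.le]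
                refine mul_le_mul ?_ ?_ (by positivity) (by positivity)
                · calc (2 : ℝ) = 2 ^ (1 : ℝ) := by simp
                    _ ≤ 2 ^ (2 / δ + 1) :=
                      Real.rpow_le_rpow_of_exponent_le (by norm_num) hA
                · refine Real.rpow_le_rpow_of_exponent_le (by linarith) ?_
                  have : 1 / 2 * (2 / δ + 1) = 1 / δ + 1 / 2 := by field_simp
                  rw [this]; linarith
            _ ≤ (2 * M / nn g) ^ (2 / δ + 1) :=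
                Real.rpow_le_rpow (by positivity) hy0 (by positivity)
        have h1 := hexp (fun _ => 1) (fun _ _ => rfl) (fun _ => by simp) _ hy j hj hjy
        have h2 : ∑ w ∈ Bl (2 * M / nn g), ang j (g * w) - 0 =
            ang j g * ∑ w ∈ Bl (2 * M / nn g), 1 * ang j w := by
          rw [sub_zero, Finset.mul_sum]
          refine Finset.sum_congr rfl fun w _ => ?_
          rw [ang_mul, one_mul]
        rw [h2, norm_mul]
        calc ‖ang j g‖ * ‖∑ w ∈ Bl (2 * M / nn g), 1 * ang j w‖ ≤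
              1 * (C₁ * (2 * M / nn g) ^ (1 - κ)) :=
              mul_le_mul (ang_le _ _) h1 (norm_nonneg _) (by norm_num)
          _ ≤ C₁ * (2 * M) ^ (1 - κ) := by
              rw [one_mul]
              refine mul_le_mul_of_nonneg_left ?_ (by linarith)
              refine Real.rpow_le_rpow (by positivity) ?_ (by linarith)
              exact div_le_self (by positivity) hn1
          _ ≤ C₁ * (2 * M ^ (1 - κ)) := by
              refine mul_le_mul_of_nonneg_left ?_ (by linarith)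
              rw [Real.mul_rpow (by norm_num) hM0.le]
              refine mul_le_mul_of_nonneg_right ?_ (by positivity)
              calc (2 : ℝ) ^ (1 - κ) ≤ 2 ^ (1 : ℝ) :=
                    Real.rpow_le_rpow_of_exponent_le (by norm_num) (by linarith)
                _ = 2 := by simp
          _ = K := by rw [hK]; ring)
    have e0 : ∑ d ∈ Finset.Icc 1 D, (θ d : ℂ) *
        ∑ e ∈ d.primeFactors.pi (fun _ => (Finset.univ : Finset (Fin 3))),
          (phm_sg d.primeFactors e : ℂ) * (0 : ℂ) = 0 := by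
      simp
    rw [e0, sub_zero] at herr
    refine herr.trans ?_
    calc K * (D : ℝ) ^ 5 ≤ (2 * C₁ * M ^ (1 - κ)) * M ^ (κ / 4) :=
          mul_le_mul_of_nonneg_left hD5 (by positivity)
      _ = 2 * C₁ * M ^ (1 - 3 * κ / 4) := by
          rw [mul_assoc, ← Real.rpow_add hM0]
          congr 2; ring
      _ ≤ _ := by
          refine mul_le_mul_of_nonneg_right ?_ (by positivity)
          have : 0 ≤ 2 * Real.pi * (40 / (c * κ)) := by positivity
          linarith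

theorem prime_hm_pr (δ : ℝ) (hδ : 0 < δ) (hδ1 : δ ≤ 1) : ∃ α C X₀ : ℝ, 0 < α ∧ 1 ≤ C ∧
    ∀ X : ℝ, X₀ ≤ X → ∀ U : Finset ℤ, U ⊆ Ks X → (U.card : ℝ) ≤ X ^ α →
    ∀ M : ℝ, X ^ δ ≤ M → ∀ B : Finset ℕ, Pset B → (∀ p ∈ B, M < (p : ℝ) ∧ (p : ℝ) ≤ 2 * M) →
    ∀ b : ℕ → ℂ, (∀ p, ‖b p‖ ≤ 1) →
      ∑ k ∈ U, ‖∑ p ∈ B, b p * ang k (pel p)‖ ^ 2 ≤ C * (M / Real.log M) * B.card := by
  classical
  obtain ⟨κ, C, X₀, hκ, hκ1, hC, hX₀, hmaj⟩ := phm_majorant δ hδ
  refine ⟨δ * (κ / 4), C + C * (2 / κ), max X₀ 2, by positivity, ?_, ?_⟩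
  · have : 0 ≤ C * (2 / κ) := by positivity
    linarith
  intro X hX U hU hUc M hM B hB hBM b hb
  have hX0' : X₀ ≤ X := (le_max_left _ _).trans hX
  have hX2 : 2 ≤ X := (le_max_right _ _).trans hX
  have hX0 : 0 < X := by linarith
  have hM1 : 1 < M := by
    refine lt_of_lt_of_le ?_ hM
    exact Real.one_lt_rpow (by linarith) hδ
  have hM0 : 0 < M := by linarith
  have hlogM : 0 < Real.log M := Real.log_pos hM1
  obtain ⟨w, hw0, hw1, hwD, hwE⟩ := hmaj X hX0' M hM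
  set Δ : ℝ := C * (M / Real.log M) + C * M ^ (1 - 3 * κ / 4) * U.card with hΔ
  have hne : ∀ z ∈ Bl (2 * M), z ≠ 0 := fun z hz => (mem_Bl.1 hz).1
  have hgr : ∀ k l : ℤ, ∀ z ∈ Bl (2 * M), ang k z * (starRingEnd ℂ) (ang l z) = ang (k - l) z := by
    intro k l z hz
    rw [ang_conj l (hne z hz), ← ang_add _ _ (hne z hz), sub_eq_add_neg]
  have hpel : ∀ p ∈ B, pel p ∈ Bl (2 * M) := by
    intro p hp
    rw [mem_Bl]
    refine ⟨(pel_prime (hB p hp).1 (hB p hp).2).ne_zero, ?_⟩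
    rw [(pel_spec (hB p hp).1 (hB p hp).2).1]
    exact (hBM p hp).2
  have key : ∀ β : ℤ → ℂ, ∑ p ∈ B, ‖∑ k ∈ U, β k * ang k (pel p)‖ ^ 2 ≤
      Δ * ∑ k ∈ U, ‖β k‖ ^ 2 := by
    intro β
    have h1 : ∑ p ∈ B, ‖∑ k ∈ U, β k * ang k (pel p)‖ ^ 2 ≤
        ∑ z ∈ Bl (2 * M), w z * ‖∑ k ∈ U, β k * ang k z‖ ^ 2 := by
      have e1 : ∑ p ∈ B, ‖∑ k ∈ U, β k * ang k (pel p)‖ ^ 2 =
          ∑ z ∈ B.image pel, w z * ‖∑ k ∈ U, β k * ang k z‖ ^ 2 := by
        rw [Finset.sum_image]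
        · refine Finset.sum_congr rfl fun p hp => ?_
          rw [hw1 p (hB p hp).1 (hB p hp).2 (hBM p hp).1, one_mul]
        · intro p hp q hq hpq
          exact pel_inj (hB p hp).1 (hB p hp).2 (hB q hq).1 (hB q hq).2 (hpq ▸ dvd_rfl)
      rw [e1]
      refine Finset.sum_le_sum_of_subset_of_nonneg ?_ ?_
      · intro z hz
        obtain ⟨p, hp, rfl⟩ := Finset.mem_image.1 hz
        exact hpel p hp
      · intro z hz _
        exact mul_nonneg (hw0 z hz) (by positivity)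
    refine h1.trans ?_
    refine phm_gram U (Bl (2 * M)) w (fun k z => ang k z) (C * (M / Real.log M))
      (C * M ^ (1 - 3 * κ / 4)) ?_ ?_ (by positivity) β
    · intro k _
      have e1 : ∑ z ∈ Bl (2 * M), (w z : ℂ) * (ang k z * (starRingEnd ℂ) (ang k z)) =
          ((∑ z ∈ Bl (2 * M), w z : ℝ) : ℂ) := by
        rw [Complex.ofReal_sum]
        refine Finset.sum_congr rfl fun z hz => ?_
        rw [hgr k k z hz, sub_self, ang_zero', mul_one]
      rw [e1, Complex.norm_real, Real.norm_of_nonneg (Finset.sum_nonneg hw0)]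
      exact hwD
    · intro k hk l hl hkl
      have e1 : ∑ z ∈ Bl (2 * M), (w z : ℂ) * (ang k z * (starRingEnd ℂ) (ang l z)) =
          ∑ z ∈ Bl (2 * M), (w z : ℂ) * ang (k - l) z :=
        Finset.sum_congr rfl fun z hz => by rw [hgr k l z hz]
      rw [e1]
      refine hwE (k - l) (sub_ne_zero.2 hkl) ?_
      have hk' := mem_Ks.1 (hU hk)
      have hl' := mem_Ks.1 (hU hl)
      push_cast
      calc |(k : ℝ) - l| ≤ |(k : ℝ)| + |(l : ℝ)| := abs_sub _ _
        _ ≤ 2 * X := by linarith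
  have hfin := phm_dual U B (fun k p => ang k (pel p)) Δ (by positivity) key b
  have hbc : ∑ p ∈ B, ‖b p‖ ^ 2 ≤ (B.card : ℝ) := by
    calc ∑ p ∈ B, ‖b p‖ ^ 2 ≤ ∑ p ∈ B, (1 : ℝ) := by
          refine Finset.sum_le_sum fun p _ => ?_
          have := hb p
          have h0 := norm_nonneg (b p)
          nlinarith
      _ = B.card := by simp
  have hΔ' : Δ ≤ (C + C * (2 / κ)) * (M / Real.log M) := by
    have h1 : (U.card : ℝ) ≤ M ^ (κ / 4) := by
      refine hUc.trans ?_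
      rw [Real.rpow_mul hX0.le]
      exact Real.rpow_le_rpow (by positivity) hM (by positivity)
    have h2 : C * M ^ (1 - 3 * κ / 4) * U.card ≤ C * M ^ (1 - κ / 2) := by
      calc C * M ^ (1 - 3 * κ / 4) * U.card ≤ C * M ^ (1 - 3 * κ / 4) * M ^ (κ / 4) :=
            mul_le_mul_of_nonneg_left h1 (by positivity)
        _ = C * M ^ (1 - κ / 2) := by
            rw [mul_assoc, ← Real.rpow_add hM0]
            congr 2; ring
    have h3 : Real.log M ≤ M ^ (κ / 2) / (κ / 2) :=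
      Real.log_le_rpow_div hM0.le (by positivity)
    have h4 : M ^ (1 - κ / 2) ≤ 2 / κ * (M / Real.log M) := by
      rw [mul_div_assoc', le_div_iff₀ hlogM]
      calc M ^ (1 - κ / 2) * Real.log M ≤ M ^ (1 - κ / 2) * (M ^ (κ / 2) / (κ / 2)) :=
            mul_le_mul_of_nonneg_left h3 (by positivity)
        _ = 2 / κ * (M ^ (1 - κ / 2) * M ^ (κ / 2)) := by field_simp
        _ = 2 / κ * M := by
            rw [← Real.rpow_add hM0]; simp
    rw [hΔ]
    calc C * (M / Real.log M) + C * M ^ (1 - 3 * κ / 4) * U.card ≤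
          C * (M / Real.log M) + C * (2 / κ * (M / Real.log M)) := by
          have := mul_le_mul_of_nonneg_left h4 (by linarith : 0 ≤ C)
          linarith
      _ = _ := by ring
  calc ∑ k ∈ U, ‖∑ p ∈ B, b p * ang k (pel p)‖ ^ 2 ≤ Δ * ∑ p ∈ B, ‖b p‖ ^ 2 := hfin
    _ ≤ ((C + C * (2 / κ)) * (M / Real.log M)) * B.card :=
        mul_le_mul hΔ' hbc (Finset.sum_nonneg fun p _ => by positivity) (by positivity)

end Pool.Agent.T2


namespace Pool.Agent.T2

theorem prime_hm : type_of% @prime_hm_pr := @prime_hm_pr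

end Pool.Agent.T2
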