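import Pool.Agent.Lib_helper10.T2.Defs
import Pool.Agent.Lib_helper10.T2F.BAS
import Pool.Agent.Lib_helper10.T2F.CNT
import Pool.Agent.Lib_helper10.T2F.LEV
import Pool.Agent.Lib_helper10.T2F.LSG
import Pool.Agent.Lib_helper10.T2F.PTW
import Pool.Agent.Lib_helper10.T2F.SPA

/-! T2, block MRT: the theorem of Matomaki and Radziwill for characters -/

namespace Pool.Agent.T2

open Filter Topology MeasureTheory

/-- the trivial bound -/
theorem mrt_triv : ∃ D : ℝ, 1 ≤ D ∧ ∀ (m : G) (χ : MChar m) (Y K : ℝ), 1 ≤ Y → 0 ≤ K → K ≤ Y →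
    ∑ k ∈ Ks K, ‖Sm χ k Y‖ ^ 2 ≤ D * Y ^ 2 := by
  obtain ⟨C₁, hC₁, h1⟩ := large_sieve
  obtain ⟨C₂, hC₂, h2⟩ := ball_le
  refine ⟨2 * C₁ * C₂, by nlinarith, ?_⟩
  intro m χ Y K hY hK0 hKY
  classical
  have h3 := h1 K Y hK0 hY (fun z => (gl z : ℂ) * χ.f z)
  have h4 : ∀ k, Sm χ k Y = ∑ z ∈ PB Y, ((gl z : ℂ) * χ.f z) * ang k z := by
    intro k
    unfold Sm xi
    apply Finset.sum_congr rfl
    intro z _; ring
  have h5 : ∑ z ∈ PB Y, ‖(gl z : ℂ) * χ.f z‖ ^ 2 ≤ C₂ * Y := by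
    calc ∑ z ∈ PB Y, ‖(gl z : ℂ) * χ.f z‖ ^ 2 ≤ ∑ z ∈ PB Y, (1 : ℝ) := by
          apply Finset.sum_le_sum
          intro z _
          have e1 : ‖(gl z : ℂ)‖ ≤ 1 := by
            rw [Complex.norm_real, Real.norm_eq_abs]; exact gl_abs z
          have e2 : ‖χ.f z‖ ≤ 1 := by
            by_cases hz : IsCoprime z m
            · rw [χ.nrm z hz]
            · rw [χ.zero z hz, norm_zero]; exact zero_le_one
          have e3 : ‖(gl z : ℂ) * χ.f z‖ ≤ 1 := by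
            rw [norm_mul]; exact mul_le_one₀ e1 (norm_nonneg _) e2
          exact pow_le_one₀ (norm_nonneg _) e3
      _ = ((PB Y).card : ℝ) := by simp
      _ ≤ ((Bl Y).card : ℝ) := by
          norm_cast
          exact Finset.card_le_card (Finset.filter_subset _ _)
      _ ≤ C₂ * Y := h2 Y (by linarith)
  calc ∑ k ∈ Ks K, ‖Sm χ k Y‖ ^ 2
      = ∑ k ∈ Ks K, ‖∑ z ∈ PB Y, ((gl z : ℂ) * χ.f z) * ang k z‖ ^ 2 := by
        apply Finset.sum_congr rfl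
        intro k _; rw [h4 k]
    _ ≤ C₁ * (K + Y) * ∑ z ∈ PB Y, ‖(gl z : ℂ) * χ.f z‖ ^ 2 := h3
    _ ≤ C₁ * (Y + Y) * (C₂ * Y) := by gcongr
    _ = _ := by ring

theorem mrt_harm (X : ℝ) (hX : 1 ≤ X) : ∑ Y ∈ Finset.Icc 1 ⌊X⌋₊, 1 / (Y : ℝ) ≤
    1 + Real.log X := by
  have h := harmonic_floor_le_one_add_log X hX
  rw [harmonic_eq_sum_Icc] at h
  push_cast at h
  simpa using h

theorem mr_main_pr {m : G} (hm : m ≠ 0) (χ : MChar m) (ε : ℝ) (hε : 0 < ε) :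
    ∃ H X₀ : ℝ, 1 ≤ H ∧
    ∀ X : ℝ, X₀ ≤ X → ∑ Y ∈ Finset.Icc 1 ⌊X⌋₊,
      (∑ k ∈ Ks (Y / H), ‖Sm χ k Y‖ ^ 2) / (Y : ℝ) ^ 3 ≤ ε * Real.log X := by
  classical
  obtain ⟨D, hD, hD'⟩ := mrt_triv
  set δ : ℝ := min 1 (ε / (8 * D)) with hδdef
  have hδ : 0 < δ := lt_min one_pos (by positivity)
  have hδ1 : δ ≤ 1 := min_le_left _ _
  have hδε : D * δ ≤ ε / 8 := by
    have : δ ≤ ε / (8 * D) := min_le_right _ _
    calc D * δ ≤ D * (ε / (8 * D)) := by gcongr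
      _ = ε / 8 := by field_simp
  obtain ⟨α, X₁, N, hα, hα1, hsp⟩ := mr_sparse χ δ (ε / 16) hδ hδ1 (by positivity)
  obtain ⟨H, X₂, hH, hty⟩ := mr_typical χ δ α (ε / 16) hδ hδ1 hα hα1 (by positivity)
  obtain ⟨X₃, hpt⟩ := mr_point hm χ (ε / (4 * (N + 1))) (by positivity)
  refine ⟨H, max X₁ (max X₂ (max X₃ (Real.exp (8 * D / ε + 1)))), hH, ?_⟩
  intro X hX
  simp only [max_le_iff] at hX
  obtain ⟨hX1, hX2, hX3, hX4⟩ := hX
  have hDε : 0 < 8 * D / ε := by positivity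
  have hX0 : 0 < X := lt_of_lt_of_le (Real.exp_pos _) hX4
  have hXge1 : 1 ≤ X := (Real.one_le_exp (by positivity)).trans hX4
  have hlog : 8 * D / ε + 1 ≤ Real.log X := by
    rw [Real.le_log_iff_exp_le hX0]; exact hX4
  have hlog1 : 1 ≤ Real.log X := by linarith
  have hlogD : D ≤ ε / 8 * Real.log X := by
    have : ε / 8 * (8 * D / ε) = D := by field_simp
    nlinarith
  obtain ⟨U, hU, hUc, hUty⟩ := hty X hX2
  obtain ⟨U', hU', hU'c, hUsp⟩ := hsp X hX1 U hU hUc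
  have hXδ : 1 ≤ X ^ δ := Real.one_le_rpow hXge1 hδ.le
  -- pointwise bound
  have key : ∀ Y ∈ Finset.Icc 1 ⌊X⌋₊, (∑ k ∈ Ks ((Y : ℝ) / H), ‖Sm χ k Y‖ ^ 2) / (Y : ℝ) ^ 3 ≤
      (if (Y : ℝ) < X ^ δ then D * (1 / (Y : ℝ)) else 0) + ε / 8 * (1 / (Y : ℝ)) +
        ∑ k ∈ U', ‖Sm χ k Y‖ ^ 2 / (Y : ℝ) ^ 3 := by
    intro Y hY
    rw [Finset.mem_Icc] at hY
    have hY1 : (1 : ℝ) ≤ Y := by exact_mod_cast hY.1
    have hYX : (Y : ℝ) ≤ X := (Nat.le_floor_iff hX0.le).1 hY.2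
    have hY0 : (0 : ℝ) < Y := by linarith
    have hlast : 0 ≤ ∑ k ∈ U', ‖Sm χ k Y‖ ^ 2 / (Y : ℝ) ^ 3 :=
      Finset.sum_nonneg (fun _ _ => by positivity)
    split_ifs with hYδ
    · have h1 := hD' m χ Y (Y / H) hY1 (by positivity) (div_le_self hY0.le hH)
      have h2 : (∑ k ∈ Ks ((Y : ℝ) / H), ‖Sm χ k Y‖ ^ 2) / (Y : ℝ) ^ 3 ≤ D * (1 / (Y : ℝ)) := by
        rw [div_le_iff₀ (by positivity)]
        refine h1.trans (le_of_eq ?_)
        field_simp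
      have h3 : 0 ≤ ε / 8 * (1 / (Y : ℝ)) := by positivity
      linarith
    · have hYδ' : X ^ δ ≤ (Y : ℝ) := not_lt.1 hYδ
      have h1 := hUty Y hYδ' hYX
      have h2 := hUsp Y hYδ' hYX
      have h3 : ∑ k ∈ Ks ((Y : ℝ) / H), ‖Sm χ k Y‖ ^ 2 ≤
          ∑ k ∈ Ks ((Y : ℝ) / H) \ U, ‖Sm χ k Y‖ ^ 2 + (∑ k ∈ U \ U', ‖Sm χ k Y‖ ^ 2 +
          ∑ k ∈ U', ‖Sm χ k Y‖ ^ 2) := by
        rw [Finset.sum_sdiff hU']
        calc ∑ k ∈ Ks ((Y : ℝ) / H), ‖Sm χ k Y‖ ^ 2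
            ≤ ∑ k ∈ (Ks ((Y : ℝ) / H) \ U) ∪ U, ‖Sm χ k Y‖ ^ 2 := by
              apply Finset.sum_le_sum_of_subset_of_nonneg
              · intro k hk
                rw [Finset.mem_union, Finset.mem_sdiff]
                tauto
              · intro _ _ _; positivity
          _ = _ := Finset.sum_union Finset.sdiff_disjoint
      have h4 : ∑ k ∈ Ks ((Y : ℝ) / H), ‖Sm χ k Y‖ ^ 2 ≤ ε / 8 * (Y : ℝ) ^ 2 +
          ∑ k ∈ U', ‖Sm χ k Y‖ ^ 2 := by linarith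
      rw [← Finset.sum_div, zero_add, div_le_iff₀ (by positivity)]
      refine h4.trans (le_of_eq ?_)
      field_simp
  calc ∑ Y ∈ Finset.Icc 1 ⌊X⌋₊, (∑ k ∈ Ks ((Y : ℝ) / H), ‖Sm χ k Y‖ ^ 2) / (Y : ℝ) ^ 3
      ≤ ∑ Y ∈ Finset.Icc 1 ⌊X⌋₊, ((if (Y : ℝ) < X ^ δ then D * (1 / (Y : ℝ)) else 0) +
        ε / 8 * (1 / (Y : ℝ)) + ∑ k ∈ U', ‖Sm χ k Y‖ ^ 2 / (Y : ℝ) ^ 3) :=
        Finset.sum_le_sum key
    _ = ∑ Y ∈ Finset.Icc 1 ⌊X⌋₊, (if (Y : ℝ) < X ^ δ then D * (1 / (Y : ℝ)) else 0) +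
        ∑ Y ∈ Finset.Icc 1 ⌊X⌋₊, ε / 8 * (1 / (Y : ℝ)) +
        ∑ k ∈ U', ∑ Y ∈ Finset.Icc 1 ⌊X⌋₊, ‖Sm χ k Y‖ ^ 2 / (Y : ℝ) ^ 3 := by
        rw [Finset.sum_add_distrib, Finset.sum_add_distrib, Finset.sum_comm (s := U')]
    _ ≤ D * (1 + δ * Real.log X) + ε / 8 * (1 + Real.log X) +
        N * (ε / (4 * (N + 1)) * Real.log X) := by
        have e1 : ∑ Y ∈ Finset.Icc 1 ⌊X⌋₊, (if (Y : ℝ) < X ^ δ then D * (1 / (Y : ℝ)) else 0) ≤
            D * (1 + δ * Real.log X) := by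
          rw [← Finset.sum_filter, ← Finset.mul_sum]
          apply mul_le_mul_of_nonneg_left _ (by linarith)
          have h1 := mrt_harm (X ^ δ) hXδ
          rw [Real.log_rpow hX0] at h1
          refine le_trans ?_ h1
          apply Finset.sum_le_sum_of_subset_of_nonneg
          · intro Y hY
            rw [Finset.mem_filter, Finset.mem_Icc] at hY
            rw [Finset.mem_Icc]
            exact ⟨hY.1.1, Nat.le_floor hY.2.le⟩
          · intro _ _ _; positivity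
        have e2 : ∑ Y ∈ Finset.Icc 1 ⌊X⌋₊, ε / 8 * (1 / (Y : ℝ)) ≤ ε / 8 * (1 + Real.log X) := by
          rw [← Finset.mul_sum]
          exact mul_le_mul_of_nonneg_left (mrt_harm X hXge1) (by positivity)
        have e3 : ∑ k ∈ U', ∑ Y ∈ Finset.Icc 1 ⌊X⌋₊, ‖Sm χ k Y‖ ^ 2 / (Y : ℝ) ^ 3 ≤
            N * (ε / (4 * (N + 1)) * Real.log X) := by
          calc ∑ k ∈ U', ∑ Y ∈ Finset.Icc 1 ⌊X⌋₊, ‖Sm χ k Y‖ ^ 2 / (Y : ℝ) ^ 3
              ≤ ∑ k ∈ U', ε / (4 * (N + 1)) * Real.log X := by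
                apply Finset.sum_le_sum
                intro k hk
                exact hpt X hX3 k (hU (hU' hk))
            _ = U'.card * (ε / (4 * (N + 1)) * Real.log X) := by
                rw [Finset.sum_const, nsmul_eq_mul]
            _ ≤ N * (ε / (4 * (N + 1)) * Real.log X) := by
                gcongr
        linarith
    _ ≤ ε * Real.log X := by
        have e4 : D * (δ * Real.log X) ≤ ε / 8 * Real.log X := by
          rw [← mul_assoc]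
          gcongr
        have e5 : (N : ℝ) * (ε / (4 * (N + 1)) * Real.log X) ≤ ε / 4 * Real.log X := by
          have : (N : ℝ) * (ε / (4 * (N + 1))) ≤ ε / 4 := by
            rw [mul_div_assoc', div_le_iff₀ (by positivity)]
            nlinarith
          calc (N : ℝ) * (ε / (4 * (N + 1)) * Real.log X)
              = ((N : ℝ) * (ε / (4 * (N + 1)))) * Real.log X := by ring
            _ ≤ ε / 4 * Real.log X := by gcongr
        have e6 : ε / 8 ≤ ε / 8 * Real.log X := by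
          have : ε / 8 * 1 ≤ ε / 8 * Real.log X := by gcongr
          linarith
        nlinarith

end Pool.Agent.T2


namespace Pool.Agent.T2

theorem mr_main : type_of% @mr_main_pr := @mr_main_pr

end Pool.Agent.T2
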