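import Pool.Agent.Lib_helper10.T2.DefsE
import Pool.Agent.Lib_helper10.T2F.CNT
import Pool.Agent.Lib_helper10.T2F.MOE

/-! T2, block ECP: primitive elements in residue classes -/

namespace Pool.Agent.T2

open Filter Topology

/-- the terms `μ(d)/d²`, `d` prime to `q` -/
noncomputable def ecp_a (q d : ℕ) : ℝ :=
  if Nat.Coprime d q then (ArithmeticFunction.moebius d : ℝ) / (d : ℝ) ^ 2 else 0

theorem ecp_mu (d : ℕ) : |(ArithmeticFunction.moebius d : ℝ)| ≤ 1 := by
  have h := ArithmeticFunction.abs_moebius_le_one (n := d)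
  exact_mod_cast h

theorem ecp_a_le (q d : ℕ) : |ecp_a q d| ≤ 1 / (d : ℝ) ^ 2 := by
  unfold ecp_a
  split_ifs with h
  · rw [abs_div, abs_of_nonneg (by positivity : (0 : ℝ) ≤ (d : ℝ) ^ 2)]
    exact div_le_div_of_nonneg_right (ecp_mu d) (by positivity)
  · rw [abs_zero]
    positivity

theorem ecp_summable (q : ℕ) : Summable (ecp_a q) := by
  apply Summable.of_norm_bounded hasSum_zeta_two.summable
  intro d
  rw [Real.norm_eq_abs]
  exact ecp_a_le q d

theorem ecp_c_pos (q : ℕ) : 0 < ∑' d, ecp_a q d := by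
  have h1 : HasSum (fun d : ℕ => ecp_a q d + 1 / (d : ℝ) ^ 2)
      ((∑' d, ecp_a q d) + Real.pi ^ 2 / 6) :=
    (ecp_summable q).hasSum.add hasSum_zeta_two
  have h2 : ecp_a q 1 + 1 / ((1 : ℕ) : ℝ) ^ 2 ≤ (∑' d, ecp_a q d) + Real.pi ^ 2 / 6 := by
    apply le_hasSum h1 1
    intro j _
    have := ecp_a_le q j
    rw [abs_le] at this
    linarith [this.1]
  have h3 : ecp_a q 1 + 1 / ((1 : ℕ) : ℝ) ^ 2 = 2 := by
    unfold ecp_a
    simp
    norm_num
  rw [h3] at h2
  have h4 := Real.pi_lt_d2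
  have h5 := Real.pi_pos
  nlinarith

theorem ecp_harm (D : ℕ) : ∑ d ∈ Finset.Icc 1 D, 1 / (d : ℝ) ≤ 2 * Real.sqrt D := by
  induction D with
  | zero => simp
  | succ n ih =>
    rw [Finset.sum_Icc_succ_top (by omega)]
    have h1 : (0 : ℝ) ≤ (n : ℝ) := by positivity
    set s := Real.sqrt n with hs
    set t := Real.sqrt ((n + 1 : ℕ) : ℝ) with ht
    have hs2 : s ^ 2 = n := Real.sq_sqrt h1
    have ht2 : t ^ 2 = n + 1 := by
      rw [ht, Real.sq_sqrt (by positivity)]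
      push_cast
      ring
    have hs0 : 0 ≤ s := Real.sqrt_nonneg _
    have ht1 : 1 ≤ t := by
      rw [ht]
      rw [Real.one_le_sqrt]
      push_cast
      linarith
    have h2 : ((n + 1 : ℕ) : ℝ) = t ^ 2 := by rw [ht2]; push_cast; ring
    rw [h2]
    have h3 : 1 / t ^ 2 ≤ 2 * t - 2 * s := by
      rw [div_le_iff₀ (by positivity)]
      have h4 : t ^ 2 - s ^ 2 = 1 := by rw [ht2, hs2]; ring
      have h5 : s ≤ t := by nlinarith
      have h6 : (t - s) * (t + s) = 1 := by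
        linarith [h4, (by ring : (t - s) * (t + s) = t ^ 2 - s ^ 2)]
      nlinarith [mul_nonneg (sub_nonneg.mpr h5) (sub_nonneg.mpr h5),
        mul_nonneg (sub_nonneg.mpr h5) hs0,
        mul_nonneg (sub_nonneg.mpr h5) (sub_nonneg.mpr ht1),
        mul_nonneg (mul_nonneg (sub_nonneg.mpr h5) (sub_nonneg.mpr ht1)) (by linarith : 0 ≤ t)]
    linarith

theorem ecp_dvd_det {p : ℤ} {v w : G} (h : (p : G) ∣ v) : p ∣ det v w := by
  obtain ⟨u, rfl⟩ := h
  unfold det
  refine ⟨u.re * w.im - u.im * w.re, ?_⟩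
  simp
  ring

/-- if `d` is not prime to `q`, the class contains no multiple of `d` -/
theorem ecp_empty {q d : ℕ} {v₀ w₀ : G} (h0 : (q : ℤ) ∣ det v₀ w₀ - 1) (hd : ¬ Nat.Coprime d q)
    (z : G) : ¬ (q : G) ∣ (d : G) * z - v₀ := by
  intro h
  obtain ⟨p, hp, hpd, hpq⟩ := Nat.Prime.not_coprime_iff_dvd.mp hd
  have h1 : ((p : ℤ) : G) ∣ v₀ := by
    have e1 : ((p : ℤ) : G) ∣ (q : G) := by
      obtain ⟨k, rfl⟩ := hpq
      exact ⟨(k : G), by push_cast; ring⟩
    have e2 : ((p : ℤ) : G) ∣ (d : G) * z := by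
      obtain ⟨k, rfl⟩ := hpd
      exact ⟨(k : G) * z, by push_cast; ring⟩
    have e3 := dvd_sub e2 (e1.trans h)
    simpa using e3
  have h2 : (p : ℤ) ∣ det v₀ w₀ := ecp_dvd_det h1
  have h3 : (p : ℤ) ∣ det v₀ w₀ - 1 := (Int.natCast_dvd_natCast.mpr hpq).trans h0
  have h4 : (p : ℤ) ∣ 1 := by
    have := dvd_sub h2 h3
    simpa using this
  have h5 : p ∣ 1 := by exact_mod_cast h4
  exact hp.one_lt.ne' (Nat.dvd_one.mp h5)

/-- if `d` is prime to `q`, the class of `d z` is a class of `z` -/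
theorem ecp_class {q d : ℕ} (hd : Nat.Coprime d q) (v₀ : G) :
    ∃ c : G, ∀ z : G, (q : G) ∣ (d : G) * z - v₀ ↔ (q : G) ∣ z - c := by
  have h1 : IsCoprime (d : ℤ) (q : ℤ) := Nat.isCoprime_iff_coprime.mpr hd
  obtain ⟨a, b, hab⟩ := h1
  have hG : (a : G) * (d : G) + (b : G) * (q : G) = 1 := by
    have := congrArg (fun t : ℤ => (t : G)) hab
    push_cast at this
    exact this
  refine ⟨(a : G) * v₀, fun z => ⟨?_, ?_⟩⟩
  · rintro ⟨k, hk⟩
    refine ⟨(a : G) * k + (b : G) * z, ?_⟩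
    calc z - (a : G) * v₀ = ((a : G) * (d : G) + (b : G) * (q : G)) * z - (a : G) * v₀ := by
          rw [hG]; ring
      _ = (a : G) * ((d : G) * z - v₀) + (q : G) * ((b : G) * z) := by ring
      _ = _ := by rw [hk]; ring
  · rintro ⟨k, hk⟩
    refine ⟨(d : G) * k - (b : G) * v₀, ?_⟩
    have e : z = (a : G) * v₀ + (q : G) * k := by
      rw [← hk]; ring
    calc (d : G) * z - v₀ = (d : G) * z - ((a : G) * (d : G) + (b : G) * (q : G)) * v₀ := by
          rw [hG]; ring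
      _ = _ := by rw [e]; ring

open Classical in
theorem ecp_count (q : ℕ) (hq : 1 ≤ q) : ∃ C : ℝ, 1 ≤ C ∧ ∀ v₀ w₀ : G,
    (q : ℤ) ∣ det v₀ w₀ - 1 → ∀ x : ℝ, 1 ≤ x →
      |(((PB x).filter (fun v => (q : G) ∣ v - v₀)).card : ℝ) -
        Real.pi * x / (q : ℝ) ^ 2 * ∑ d ∈ Finset.Icc 1 ⌊Real.sqrt x⌋₊, ecp_a q d| ≤
      C * x ^ (3 / 4 : ℝ) := by
  obtain ⟨C, hC1, hC⟩ := class_count q hq
  refine ⟨2 * C, by linarith, ?_⟩
  intro v₀ w₀ h0 x hx
  set D : ℕ := ⌊Real.sqrt x⌋₊ with hDdef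
  have hx0 : 0 < x := by linarith
  have hs1 : 1 ≤ Real.sqrt x := by rwa [Real.one_le_sqrt]
  have hss : Real.sqrt x ^ 2 = x := Real.sq_sqrt hx0.le
  have hDle : (D : ℝ) ≤ Real.sqrt x := Nat.floor_le (by linarith)
  have hDlt : Real.sqrt x < (D : ℝ) + 1 := Nat.lt_floor_add_one _
  have hxD : x < ((D : ℝ) + 1) ^ 2 := by
    rw [← hss]
    exact pow_lt_pow_left₀ hDlt (by linarith) (by norm_num)
  have h1 := prim_moebius (fun z => if (q : G) ∣ z - v₀ then (1 : ℂ) else 0) x D hxD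
  have hcard : ∀ s : Finset G, ∀ P : G → Prop, (∑ z ∈ s, if P z then (1 : ℂ) else 0) =
      ((s.filter P).card : ℂ) := by
    intro s P
    rw [← Finset.sum_filter]
    simp
  simp only [hcard] at h1
  have h2 : (((PB x).filter (fun v => (q : G) ∣ v - v₀)).card : ℝ) =
      ∑ d ∈ Finset.Icc 1 D, (ArithmeticFunction.moebius d : ℝ) *
      (((Bl (x / (d : ℝ) ^ 2)).filter (fun z => (q : G) ∣ (d : G) * z - v₀)).card : ℝ) := by
    have := congrArg Complex.re h1
    rw [Complex.natCast_re, Complex.re_sum] at this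
    rw [this]
    apply Finset.sum_congr rfl
    intro d _
    have e : ((ArithmeticFunction.moebius d : ℂ) *
        (((Bl (x / (d : ℝ) ^ 2)).filter (fun z => (q : G) ∣ (d : G) * z - v₀)).card : ℂ)) =
        (((ArithmeticFunction.moebius d : ℝ) *
        (((Bl (x / (d : ℝ) ^ 2)).filter (fun z => (q : G) ∣ (d : G) * z - v₀)).card : ℝ) : ℝ) :
        ℂ) := by
      push_cast
      ring
    rw [e, Complex.ofReal_re]
  have h3 : |(((PB x).filter (fun v => (q : G) ∣ v - v₀)).card : ℝ) -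
      Real.pi * x / (q : ℝ) ^ 2 * ∑ d ∈ Finset.Icc 1 D, ecp_a q d| ≤
      C * Real.sqrt x * (2 * Real.sqrt D) := by
    rw [h2, Finset.mul_sum, ← Finset.sum_sub_distrib]
    calc _ ≤ ∑ d ∈ Finset.Icc 1 D, |(ArithmeticFunction.moebius d : ℝ) *
        (((Bl (x / (d : ℝ) ^ 2)).filter (fun z => (q : G) ∣ (d : G) * z - v₀)).card : ℝ) -
          Real.pi * x / (q : ℝ) ^ 2 * ecp_a q d| :=
          Finset.abs_sum_le_sum_abs _ _
      _ ≤ ∑ d ∈ Finset.Icc 1 D, C * Real.sqrt x * (1 / (d : ℝ)) := by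
          apply Finset.sum_le_sum
          intro d hd
          rw [Finset.mem_Icc] at hd
          have hd1 : (1 : ℝ) ≤ (d : ℝ) := by exact_mod_cast hd.1
          have hd2 : (d : ℝ) ≤ Real.sqrt x := by
            have : (d : ℝ) ≤ (D : ℝ) := by exact_mod_cast hd.2
            linarith
          have hd3 : 1 ≤ x / (d : ℝ) ^ 2 := by
            rw [one_le_div (by positivity), ← hss]
            exact pow_le_pow_left₀ (by linarith) hd2 2
          by_cases hco : Nat.Coprime d q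
          · obtain ⟨c, hc⟩ := ecp_class hco v₀
            have e1 : (Bl (x / (d : ℝ) ^ 2)).filter (fun z => (q : G) ∣ (d : G) * z - v₀) =
                (Bl (x / (d : ℝ) ^ 2)).filter (fun z => (q : G) ∣ z - c) :=
              Finset.filter_congr (fun z _ => hc z)
            rw [e1]
            have h5 := hC c _ hd3
            have h6 : Real.sqrt (x / (d : ℝ) ^ 2) = Real.sqrt x * (1 / (d : ℝ)) := by
              rw [Real.sqrt_div hx0.le, Real.sqrt_sq (by linarith)]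
              ring
            rw [h6] at h5
            have e2 : (ArithmeticFunction.moebius d : ℝ) *
                (((Bl (x / (d : ℝ) ^ 2)).filter (fun z => (q : G) ∣ z - c)).card : ℝ) -
                Real.pi * x / (q : ℝ) ^ 2 * ecp_a q d =
                (ArithmeticFunction.moebius d : ℝ) *
                ((((Bl (x / (d : ℝ) ^ 2)).filter (fun z => (q : G) ∣ z - c)).card : ℝ) -
                Real.pi * (x / (d : ℝ) ^ 2) / (q : ℝ) ^ 2) := by
              unfold ecp_a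
              rw [if_pos hco]
              ring
            rw [e2, abs_mul]
            calc |(ArithmeticFunction.moebius d : ℝ)| * |(((Bl (x / (d : ℝ) ^ 2)).filter
                (fun z => (q : G) ∣ z - c)).card : ℝ) -
                Real.pi * (x / (d : ℝ) ^ 2) / (q : ℝ) ^ 2| ≤
                1 * (C * (Real.sqrt x * (1 / (d : ℝ)))) :=
                  mul_le_mul (ecp_mu d) h5 (abs_nonneg _) (by norm_num)
              _ = C * Real.sqrt x * (1 / (d : ℝ)) := by ring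
          · have e1 : (Bl (x / (d : ℝ) ^ 2)).filter (fun z => (q : G) ∣ (d : G) * z - v₀) = ∅ :=
              Finset.filter_eq_empty_iff.mpr (fun z _ => ecp_empty h0 hco z)
            rw [e1]
            unfold ecp_a
            rw [if_neg hco]
            simp only [Finset.card_empty, Nat.cast_zero, mul_zero, sub_zero, abs_zero]
            positivity
      _ = C * Real.sqrt x * ∑ d ∈ Finset.Icc 1 D, 1 / (d : ℝ) := by rw [Finset.mul_sum]
      _ ≤ C * Real.sqrt x * (2 * Real.sqrt D) :=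
          mul_le_mul_of_nonneg_left (ecp_harm D) (by positivity)
  refine h3.trans ?_
  have hq' : x ^ (3 / 4 : ℝ) = Real.sqrt x * Real.sqrt (Real.sqrt x) := by
    rw [Real.sqrt_eq_rpow, Real.sqrt_eq_rpow, ← Real.rpow_mul hx0.le, ← Real.rpow_add hx0]
    norm_num
  have h5 : Real.sqrt D ≤ Real.sqrt (Real.sqrt x) := Real.sqrt_le_sqrt hDle
  rw [hq']
  have : C * Real.sqrt x * (2 * Real.sqrt D) = 2 * C * (Real.sqrt x * Real.sqrt D) := by ring
  rw [this]
  apply mul_le_mul_of_nonneg_left _ (by linarith)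
  exact mul_le_mul_of_nonneg_left h5 (by linarith)

open Classical in
theorem class_prim_pr (q : ℕ) (hq : 1 ≤ q) : ∃ c : ℝ, 0 < c ∧ ∀ v₀ w₀ : G,
    (q : ℤ) ∣ det v₀ w₀ - 1 → Tendsto (fun x : ℝ =>
      (((PB x).filter (fun v => (q : G) ∣ v - v₀)).card : ℝ) / x) atTop (𝓝 c) := by
  obtain ⟨C, hC1, hC⟩ := ecp_count q hq
  have hq0 : (0 : ℝ) < (q : ℝ) := by exact_mod_cast hq
  refine ⟨Real.pi / (q : ℝ) ^ 2 * ∑' d, ecp_a q d,
    mul_pos (div_pos Real.pi_pos (by positivity)) (ecp_c_pos q), ?_⟩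
  intro v₀ w₀ h0
  -- the partial sums
  have hfl : Tendsto (fun x : ℝ => ⌊Real.sqrt x⌋₊) atTop atTop :=
    tendsto_nat_floor_atTop.comp Real.tendsto_sqrt_atTop
  have hps : Tendsto (fun N : ℕ => ∑ d ∈ Finset.Icc 1 N, ecp_a q d) atTop
      (𝓝 (∑' d, ecp_a q d)) := by
    have h2 := (ecp_summable q).hasSum.tendsto_sum_nat
    have h3 := (tendsto_add_atTop_iff_nat 1).mpr h2
    refine h3.congr (fun N => ?_)
    rw [Finset.sum_range_succ', Finset.range_eq_Ico, Finset.sum_Ico_add' (fun d => ecp_a q d) 0 N 1]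
    have : ecp_a q 0 = 0 := by unfold ecp_a; simp
    rw [this, add_zero]
    rfl
  have hmain : Tendsto (fun x : ℝ => Real.pi / (q : ℝ) ^ 2 *
      ∑ d ∈ Finset.Icc 1 ⌊Real.sqrt x⌋₊, ecp_a q d) atTop
      (𝓝 (Real.pi / (q : ℝ) ^ 2 * ∑' d, ecp_a q d)) :=
    (hps.comp hfl).const_mul _
  have herr : Tendsto (fun x : ℝ => C * x ^ (-(1 / 4) : ℝ)) atTop (𝓝 0) := by
    have := (tendsto_rpow_neg_atTop (by norm_num : (0 : ℝ) < 1 / 4)).const_mul C
    simpa using this
  have hdiff : Tendsto (fun x : ℝ =>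
      (((PB x).filter (fun v => (q : G) ∣ v - v₀)).card : ℝ) / x -
      Real.pi / (q : ℝ) ^ 2 * ∑ d ∈ Finset.Icc 1 ⌊Real.sqrt x⌋₊, ecp_a q d) atTop (𝓝 0) := by
    apply squeeze_zero_norm' _ herr
    filter_upwards [eventually_ge_atTop (1 : ℝ)] with x hx
    have hx0 : 0 < x := by linarith
    have h := hC v₀ w₀ h0 x hx
    rw [Real.norm_eq_abs]
    have e : (((PB x).filter (fun v => (q : G) ∣ v - v₀)).card : ℝ) / x -
        Real.pi / (q : ℝ) ^ 2 * ∑ d ∈ Finset.Icc 1 ⌊Real.sqrt x⌋₊, ecp_a q d =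
        ((((PB x).filter (fun v => (q : G) ∣ v - v₀)).card : ℝ) -
        Real.pi * x / (q : ℝ) ^ 2 * ∑ d ∈ Finset.Icc 1 ⌊Real.sqrt x⌋₊, ecp_a q d) / x := by
      field_simp
    rw [e, abs_div, abs_of_pos hx0, div_le_iff₀ hx0]
    refine h.trans (le_of_eq ?_)
    rw [mul_assoc]
    congr 1
    calc x ^ (3 / 4 : ℝ) = x ^ (-(1 / 4) + 1 : ℝ) := by norm_num
      _ = x ^ (-(1 / 4) : ℝ) * x := by rw [Real.rpow_add hx0, Real.rpow_one]
  have := hdiff.add hmain
  simpa using this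

example : type_of% @class_prim_pr := @class_prim_pr

end Pool.Agent.T2


namespace Pool.Agent.T2

theorem class_prim : type_of% @class_prim_pr := @class_prim_pr

end Pool.Agent.T2
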