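import Pool.Agent.Lib_helper10.T2.DefsE

namespace Pool.Agent.T2

open Filter Topology

/-- the decomposition of a good integer -/
theorem egr_good {N z Z r : ℕ} (hN : 1 ≤ N) (hz : 2 ^ 16 ≤ z) (hNz : N ≤ z) (hZ : 1 ≤ Z)
    (hr : r ≠ 0)
    (h1 : ∀ p : ℕ, p.Prime → p ≤ z → p ^ r.factorization p ≤ Z)
    (h2 : ∀ p : ℕ, p.Prime → z < p → ¬ p ^ 2 ∣ r) :
    ∃ s t : ℕ, r = s * t ∧ Squarefree s ∧ Nat.Coprime s (t * N) ∧ t ≤ Z ^ z ∧
      (2 : ℝ) ^ s.primeFactors.card ≤ (s : ℝ) ^ (1 / 16 : ℝ) := by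
  classical
  set P := r.primeFactors.filter (fun p => z < p) with hP
  set Q := r.primeFactors.filter (fun p => ¬ z < p) with hQ
  set s := ∏ p ∈ P, p with hs
  set t := ∏ p ∈ Q, p ^ r.factorization p with ht
  have hPp : ∀ p ∈ P, p.Prime := fun p hp => Nat.prime_of_mem_primeFactors (Finset.mem_filter.1 hp).1
  have hQp : ∀ p ∈ Q, p.Prime := fun p hp => Nat.prime_of_mem_primeFactors (Finset.mem_filter.1 hp).1
  have hPz : ∀ p ∈ P, z < p := fun p hp => (Finset.mem_filter.1 hp).2
  have hQz : ∀ p ∈ Q, p ≤ z := fun p hp => not_lt.1 (Finset.mem_filter.1 hp).2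
  have hst : r = s * t := by
    have h3 : r = ∏ p ∈ r.primeFactors, p ^ r.factorization p :=
      (Nat.prod_factorization_pow_eq_self hr).symm
    have h4 : ∏ p ∈ P, p ^ r.factorization p = s := by
      apply Finset.prod_congr rfl
      intro p hp
      have hpp := hPp p hp
      have hpr := Nat.dvd_of_mem_primeFactors (Finset.mem_filter.1 hp).1
      have h5 : 1 ≤ r.factorization p := (hpp.dvd_iff_one_le_factorization hr).1 hpr
      have h6 : ¬ 2 ≤ r.factorization p := by
        intro h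
        exact h2 p hpp (hPz p hp) ((hpp.pow_dvd_iff_le_factorization hr).2 h)
      have h7 : r.factorization p = 1 := by omega
      rw [h7, pow_one]
    rw [← h4, ht, hP, hQ, Finset.prod_filter_mul_prod_filter_not]
    exact h3
  have hsP : s.primeFactors = P := Nat.primeFactors_prod hPp
  refine ⟨s, t, hst, ?_, ?_, ?_, ?_⟩
  · refine Finset.squarefree_prod_of_pairwise_isCoprime (fun p hp q hq hpq => ?_)
      fun p hp => (hPp p hp).squarefree
    simp only [← Nat.coprime_iff_isRelPrime]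
    exact (Nat.coprime_primes (hPp p hp) (hPp q hq)).mpr hpq
  · rw [hs]
    apply Nat.Coprime.prod_left
    intro p hp
    apply Nat.Coprime.mul_right
    · rw [ht]
      apply Nat.Coprime.prod_right
      intro q hq
      apply Nat.Coprime.pow_right
      rw [Nat.coprime_primes (hPp p hp) (hQp q hq)]
      have := hPz p hp
      have := hQz q hq
      omega
    · rw [Nat.Prime.coprime_iff_not_dvd (hPp p hp)]
      intro h
      have := Nat.le_of_dvd (by omega) h
      have := hPz p hp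
      omega
  · have h3 : t ≤ Z ^ Q.card := by
      rw [ht]
      apply Finset.prod_le_pow_card
      intro p hp
      exact h1 p (hQp p hp) (hQz p hp)
    have h4 : Q.card ≤ z := by
      have : Q ⊆ Finset.Icc 1 z := by
        intro p hp
        rw [Finset.mem_Icc]
        exact ⟨(hQp p hp).one_lt.le, hQz p hp⟩
      calc Q.card ≤ (Finset.Icc 1 z).card := Finset.card_le_card this
        _ = z := by simp
    exact h3.trans (Nat.pow_le_pow_right hZ h4)
  · rw [hsP, hs, Nat.cast_prod, ← Real.finsetProd_rpow _ _ (fun p _ => by positivity)]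
    rw [← Finset.prod_const]
    apply Finset.prod_le_prod
    · intro p _; norm_num
    · intro p hp
      have h3 : (2 : ℝ) ^ (16 : ℕ) ≤ p := by
        have := hPz p hp
        have h4 : 2 ^ 16 ≤ p := by omega
        exact_mod_cast h4
      calc (2 : ℝ) = ((2 : ℝ) ^ (16 : ℕ)) ^ (1 / 16 : ℝ) := by
            rw [← Real.rpow_natCast, ← Real.rpow_mul (by norm_num)]
            norm_num
        _ ≤ (p : ℝ) ^ (1 / 16 : ℝ) := by
            apply Real.rpow_le_rpow (by positivity) h3 (by norm_num)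

theorem egr_dvd_card (R m : ℕ) :
    (((Finset.Icc 1 R).filter (fun r => m ∣ r)).card : ℝ) ≤ R / m := by
  have h1 : (Finset.Icc 1 R).filter (fun r => m ∣ r) = (Finset.Ioc 0 R).filter (fun r => m ∣ r) := by
    rfl
  rw [h1, Nat.Ioc_filter_dvd_card_eq_div]
  exact Nat.cast_div_le

open Classical in
theorem good_rows_pr (ε : ℝ) (hε : 0 < ε) (N : ℕ) (hN : 1 ≤ N) : ∃ T : ℕ, 1 ≤ T ∧ ∀ R : ℕ,
    (((Finset.Icc 1 R).filter (fun r => ¬ ∃ s t : ℕ, r = s * t ∧ Squarefree s ∧
      Nat.Coprime s (t * N) ∧ t ≤ T ∧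
      (2 : ℝ) ^ s.primeFactors.card ≤ (s : ℝ) ^ (1 / 16 : ℝ))).card : ℝ) ≤ ε * R := by
  obtain ⟨z₁, hz₁⟩ := exists_nat_gt (2 / ε)
  set z := max (max (2 ^ 16) N) z₁ with hz
  have hz16 : 2 ^ 16 ≤ z := (le_max_left _ _).trans (le_max_left _ _)
  have hzN : N ≤ z := (le_max_right _ _).trans (le_max_left _ _)
  have hzz : z₁ ≤ z := le_max_right _ _
  have hz0 : 0 < z := by omega
  have hzr : (0 : ℝ) < z := by exact_mod_cast hz0
  have hzε : 1 / (z : ℝ) ≤ ε / 2 := by
    have h1 : 2 / ε ≤ z := hz₁.le.trans (by exact_mod_cast hzz)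
    rw [div_le_iff₀ hε] at h1
    rw [div_le_iff₀ hzr]
    linarith
  obtain ⟨Z₁, hZ₁⟩ := exists_nat_gt (2 * z / ε)
  set Z := max 1 Z₁ with hZ
  have hZ1 : 1 ≤ Z := le_max_left _ _
  have hZr : (0 : ℝ) < Z := by exact_mod_cast hZ1
  have hZε : (z : ℝ) / Z ≤ ε / 2 := by
    have h1 : 2 * z / ε ≤ Z := hZ₁.le.trans (by exact_mod_cast le_max_right _ _)
    rw [div_le_iff₀ hε] at h1
    rw [div_le_iff₀ hZr]
    linarith
  refine ⟨Z ^ z, Nat.one_le_pow _ _ hZ1, ?_⟩
  intro R
  set A : Finset ℕ := (Finset.Icc 1 z).filter Nat.Prime with hA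
  set e : ℕ → ℕ := fun p => Nat.log p Z + 1 with he
  have hsub : (Finset.Icc 1 R).filter (fun r => ¬ ∃ s t : ℕ, r = s * t ∧ Squarefree s ∧
      Nat.Coprime s (t * N) ∧ t ≤ Z ^ z ∧
      (2 : ℝ) ^ s.primeFactors.card ≤ (s : ℝ) ^ (1 / 16 : ℝ)) ⊆
      (A.biUnion (fun p => (Finset.Icc 1 R).filter (fun r => p ^ e p ∣ r))) ∪
      ((Finset.Ioc z R).biUnion (fun p => (Finset.Icc 1 R).filter (fun r => p ^ 2 ∣ r))) := by
    intro r hr
    obtain ⟨hrR, hbad⟩ := Finset.mem_filter.1 hr
    have hr1 := (Finset.mem_Icc.1 hrR).1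
    have hrle := (Finset.mem_Icc.1 hrR).2
    have hr0 : r ≠ 0 := by omega
    by_contra hcon
    apply hbad
    apply egr_good hN hz16 hzN hZ1 hr0
    · intro p hp hpz
      by_contra hlt
      push Not at hlt
      apply hcon
      rw [Finset.mem_union]
      left
      rw [Finset.mem_biUnion]
      refine ⟨p, ?_, ?_⟩
      · rw [hA, Finset.mem_filter, Finset.mem_Icc]
        exact ⟨⟨hp.one_lt.le, hpz⟩, hp⟩
      · rw [Finset.mem_filter]
        refine ⟨hrR, ?_⟩
        have h3 : e p ≤ r.factorization p := by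
          have h4 : p ^ Nat.log p Z < p ^ r.factorization p :=
            lt_of_le_of_lt (Nat.pow_log_le_self p (by omega)) hlt
          have := (Nat.pow_lt_pow_iff_right hp.one_lt).1 h4
          simp only [he]; omega
        exact (pow_dvd_pow p h3).trans (Nat.ordProj_dvd r p)
    · intro p hp hpz hdvd
      apply hcon
      rw [Finset.mem_union]
      right
      rw [Finset.mem_biUnion]
      refine ⟨p, ?_, ?_⟩
      · rw [Finset.mem_Ioc]
        refine ⟨hpz, ?_⟩
        have h3 : p ∣ r := (dvd_pow_self p two_ne_zero).trans hdvd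
        exact (Nat.le_of_dvd (by omega) h3).trans hrle
      · rw [Finset.mem_filter]
        exact ⟨hrR, hdvd⟩
  have hRr : (0 : ℝ) ≤ R := by positivity
  have hc1 : (((A.biUnion (fun p => (Finset.Icc 1 R).filter (fun r => p ^ e p ∣ r))).card : ℕ) : ℝ) ≤
      ε / 2 * R := by
    calc (((A.biUnion (fun p => (Finset.Icc 1 R).filter (fun r => p ^ e p ∣ r))).card : ℕ) : ℝ) ≤
          ((∑ p ∈ A, ((Finset.Icc 1 R).filter (fun r => p ^ e p ∣ r)).card : ℕ) : ℝ) := by
          exact_mod_cast Finset.card_biUnion_le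
      _ = ∑ p ∈ A, (((Finset.Icc 1 R).filter (fun r => p ^ e p ∣ r)).card : ℝ) := by push_cast; rfl
      _ ≤ ∑ p ∈ A, (R : ℝ) / Z := by
          apply Finset.sum_le_sum
          intro p hp
          have hpp := (Finset.mem_filter.1 hp).2
          have h3 : Z < p ^ e p := Nat.lt_pow_succ_log_self hpp.one_lt Z
          have h4 : (Z : ℝ) ≤ ((p ^ e p : ℕ) : ℝ) := by exact_mod_cast h3.le
          calc _ ≤ (R : ℝ) / ((p ^ e p : ℕ) : ℝ) := egr_dvd_card R _
            _ ≤ R / Z := by gcongr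
      _ = A.card * ((R : ℝ) / Z) := by rw [Finset.sum_const, nsmul_eq_mul]
      _ ≤ z * ((R : ℝ) / Z) := by
          have h3 : A.card ≤ z := by
            calc A.card ≤ (Finset.Icc 1 z).card := Finset.card_filter_le _ _
              _ = z := by simp
          have h4 : (A.card : ℝ) ≤ z := by exact_mod_cast h3
          gcongr
      _ = z / Z * R := by ring
      _ ≤ ε / 2 * R := by gcongr
  have hc2 : ((((Finset.Ioc z R).biUnion (fun p => (Finset.Icc 1 R).filter
      (fun r => p ^ 2 ∣ r))).card : ℕ) : ℝ) ≤ ε / 2 * R := by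
    calc ((((Finset.Ioc z R).biUnion (fun p => (Finset.Icc 1 R).filter
          (fun r => p ^ 2 ∣ r))).card : ℕ) : ℝ) ≤
          ((∑ p ∈ Finset.Ioc z R, ((Finset.Icc 1 R).filter (fun r => p ^ 2 ∣ r)).card : ℕ) : ℝ) := by
          exact_mod_cast Finset.card_biUnion_le
      _ = ∑ p ∈ Finset.Ioc z R, (((Finset.Icc 1 R).filter (fun r => p ^ 2 ∣ r)).card : ℝ) := by
          push_cast; rfl
      _ ≤ ∑ p ∈ Finset.Ioc z R, (R : ℝ) * ((p : ℝ) ^ 2)⁻¹ := by
          apply Finset.sum_le_sum
          intro p hp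
          have hpz := (Finset.mem_Ioc.1 hp).1
          have := egr_dvd_card R (p ^ 2)
          rw [div_eq_mul_inv] at this
          push_cast at this
          exact this
      _ = R * ∑ p ∈ Finset.Ioc z R, ((p : ℝ) ^ 2)⁻¹ := by rw [Finset.mul_sum]
      _ ≤ R * (ε / 2) := by
          apply mul_le_mul_of_nonneg_left _ hRr
          rcases le_total z R with h | h
          · have h3 := sum_Ioc_inv_sq_le_sub (α := ℝ) hz0.ne' h
            have h4 : (0 : ℝ) ≤ (R : ℝ)⁻¹ := by positivity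
            rw [one_div] at hzε
            linarith
          · rw [Finset.Ioc_eq_empty_of_le h, Finset.sum_empty]
            positivity
      _ = ε / 2 * R := by ring
  calc _ ≤ ((((A.biUnion (fun p => (Finset.Icc 1 R).filter (fun r => p ^ e p ∣ r))) ∪
      ((Finset.Ioc z R).biUnion (fun p => (Finset.Icc 1 R).filter (fun r => p ^ 2 ∣ r)))).card : ℕ) : ℝ) := by
        exact_mod_cast Finset.card_le_card hsub
    _ ≤ _ := by
        have := Finset.card_union_le (A.biUnion (fun p => (Finset.Icc 1 R).filter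
          (fun r => p ^ e p ∣ r))) ((Finset.Ioc z R).biUnion (fun p => (Finset.Icc 1 R).filter
          (fun r => p ^ 2 ∣ r)))
        have h5 : ((((A.biUnion (fun p => (Finset.Icc 1 R).filter (fun r => p ^ e p ∣ r))) ∪
          ((Finset.Ioc z R).biUnion (fun p => (Finset.Icc 1 R).filter
          (fun r => p ^ 2 ∣ r)))).card : ℕ) : ℝ) ≤ _ := Nat.cast_le.2 this
        push_cast at h5
        linarith

end Pool.Agent.T2


namespace Pool.Agent.T2

theorem good_rows : type_of% @good_rows_pr := @good_rows_pr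

end Pool.Agent.T2
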