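import Pool.Agent.Lib_helper10.T2.DefsE
import Pool.Agent.Lib_helper10.T2F.BAS
import Pool.Agent.Lib_helper10.T2F.CNT
import Pool.Agent.Lib_helper10.T2F.EGR
import Pool.Agent.Lib_helper10.T2F.EKL

/-! T2, block EWS: the exponential sum over the pairs of determinant one. -/

namespace Pool.Agent.T2

open Filter Topology

/-- `e(x)` -/
noncomputable def ews_e (x : ℝ) : ℂ := Complex.exp (2 * Real.pi * Complex.I * x)

theorem ews_norm (x : ℝ) : ‖ews_e x‖ = 1 := by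
  unfold ews_e
  have : (2 * Real.pi * Complex.I * x : ℂ) = ((2 * Real.pi * x : ℝ) : ℂ) * Complex.I := by
    push_cast; ring
  rw [this, Complex.norm_exp_ofReal_mul_I]

theorem ews_lip (x y : ℝ) : ‖ews_e x - ews_e y‖ ≤ 2 * Real.pi * |x - y| := by
  have h1 : ews_e x - ews_e y =
      ews_e y * (Complex.exp (Complex.I * ((2 * Real.pi * (x - y) : ℝ) : ℂ)) - 1) := by
    unfold ews_e
    rw [mul_sub, mul_one, ← Complex.exp_add]
    congr 2
    push_cast; ring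
  rw [h1, norm_mul, ews_norm, one_mul]
  refine (Real.norm_exp_I_mul_ofReal_sub_one_le).trans ?_
  rw [Real.norm_eq_abs, abs_mul, abs_of_pos (by positivity : (0 : ℝ) < 2 * Real.pi)]

theorem ews_dvd (q : ℕ) (z : G) : (q : G) ∣ z ↔ (q : ℤ) ∣ z.re ∧ (q : ℤ) ∣ z.im := by
  have := Zsqrtd.intCast_dvd (d := -1) (q : ℤ) z
  rw [← this]
  norm_cast

theorem ews_tau (q : ℕ) (hq : 1 ≤ q) (v₀ w₀ : G) (h0 : (q : ℤ) ∣ det v₀ w₀ - 1) :
    ∃ τ : ℕ, Int.gcd (v₀.re + τ * v₀.im) q = 1 := by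
  classical
  refine ⟨∏ p ∈ q.primeFactors.filter (fun p : ℕ => ¬ (p : ℤ) ∣ v₀.re), p, ?_⟩
  set τ : ℕ := ∏ p ∈ q.primeFactors.filter (fun p : ℕ => ¬ (p : ℤ) ∣ v₀.re), p with hτ
  by_contra hne
  obtain ⟨p, hp, hpd⟩ := Nat.exists_prime_and_dvd hne
  have hpi : Prime (p : ℤ) := Nat.prime_iff_prime_int.mp hp
  have h1 : (p : ℤ) ∣ v₀.re + τ * v₀.im :=
    (Int.natCast_dvd_natCast.mpr hpd).trans (Int.gcd_dvd_left ..)
  have h2 : (p : ℤ) ∣ (q : ℤ) := (Int.natCast_dvd_natCast.mpr hpd).trans (Int.gcd_dvd_right ..)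
  have h2' : p ∣ q := Int.natCast_dvd_natCast.mp h2
  by_cases hre : (p : ℤ) ∣ v₀.re
  · have h3 : (p : ℤ) ∣ (τ : ℤ) * v₀.im := (dvd_add_right hre).mp h1
    rcases hpi.dvd_or_dvd h3 with h4 | h4
    · have h5 : p ∣ τ := Int.natCast_dvd_natCast.mp h4
      rw [hτ] at h5
      obtain ⟨p', hp', hd⟩ := (Prime.dvd_finsetProd_iff hp.prime _).mp h5
      rw [Finset.mem_filter] at hp'
      have h6 := (Nat.prime_dvd_prime_iff_eq hp (Nat.prime_of_mem_primeFactors hp'.1)).mp hd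
      subst h6
      exact hp'.2 hre
    · have h5 : (p : ℤ) ∣ det v₀ w₀ - 1 := h2.trans h0
      have h6 : (p : ℤ) ∣ det v₀ w₀ := by
        unfold det
        exact dvd_sub (hre.mul_right _) (h4.mul_right _)
      have h7 : (p : ℤ) ∣ 1 := by
        have := dvd_sub h6 h5
        simpa using this
      exact hpi.not_isUnit (isUnit_of_dvd_one h7)
  · have h5 : p ∣ τ := by
      rw [hτ]
      apply Finset.dvd_prod_of_mem
      rw [Finset.mem_filter]
      exact ⟨Nat.mem_primeFactors.mpr ⟨hp, h2', by omega⟩, hre⟩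
    have h6 : (p : ℤ) ∣ (τ : ℤ) * v₀.im := (Int.natCast_dvd_natCast.mpr h5).mul_right _
    exact hre ((dvd_add_left h6).mp h1)

/-- the linear form -/
def ews_a (τ : ℕ) (v : G) : ℤ := v.re + τ * v.im

theorem ews_ident (τ : ℕ) (v w : G) :
    ews_a τ v * ip v w - ews_a τ w * (nn v : ℤ) = (v.im - τ * v.re) * det v w := by
  rw [nn_cast]
  unfold ews_a ip det
  ring

theorem ews_re_le (v : G) : |(v.re : ℝ)| ≤ Real.sqrt (nn v) ∧ |(v.im : ℝ)| ≤ Real.sqrt (nn v) := by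
  have h : (nn v : ℝ) = (v.re : ℝ) ^ 2 + (v.im : ℝ) ^ 2 := by
    have := nn_cast v
    exact_mod_cast this
  constructor
  · apply Real.abs_le_sqrt
    rw [h]; nlinarith [sq_nonneg (v.im : ℝ)]
  · apply Real.abs_le_sqrt
    rw [h]; nlinarith [sq_nonneg (v.re : ℝ)]

theorem ews_a_le (τ : ℕ) (v : G) : |(ews_a τ v : ℝ)| ≤ (1 + τ) * Real.sqrt (nn v) := by
  obtain ⟨h1, h2⟩ := ews_re_le v
  unfold ews_a
  push_cast
  calc |(v.re : ℝ) + τ * v.im| ≤ |(v.re : ℝ)| + |(τ : ℝ) * v.im| := abs_add_le _ _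
    _ = |(v.re : ℝ)| + τ * |(v.im : ℝ)| := by rw [abs_mul, Nat.abs_cast]
    _ ≤ Real.sqrt (nn v) + τ * Real.sqrt (nn v) := by gcongr
    _ = _ := by ring

/-- the comparison of the two phases -/
theorem ews_cmp (q : ℕ) (hq : 1 ≤ q) (τ : ℕ) (h : ℤ) (v w : G) (hv : v ≠ 0) (hd : det v w = 1)
    (ha : ews_a τ v ≠ 0) :
    ‖ews_e (h * ip v w / (q * nn v)) - ews_e (h * ews_a τ w / (q * ews_a τ v))‖ ≤
      2 * Real.pi * |(h : ℝ)| * (1 + τ) / Real.sqrt (nn v) := by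
  refine (ews_lip _ _).trans ?_
  have hn0 : (0 : ℝ) < nn v := by exact_mod_cast nn_pos.mpr hv
  have hq0 : (1 : ℝ) ≤ q := by exact_mod_cast hq
  have ha0 : (ews_a τ v : ℝ) ≠ 0 := by exact_mod_cast ha
  have ha1 : (1 : ℝ) ≤ |(ews_a τ v : ℝ)| := by
    have : 1 ≤ |ews_a τ v| := Int.one_le_abs ha
    exact_mod_cast this
  have hid : (ews_a τ v : ℝ) * ip v w - ews_a τ w * nn v = v.im - τ * v.re := by
    have := ews_ident τ v w
    rw [hd, mul_one] at this
    exact_mod_cast this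
  have h1 : (h : ℝ) * ip v w / (q * nn v) - h * ews_a τ w / (q * ews_a τ v) =
      h * (v.im - τ * v.re) / (q * (nn v * ews_a τ v)) := by
    rw [← hid]
    field_simp
  rw [h1, abs_div, abs_mul, abs_mul, abs_mul]
  have h2 : |(v.im : ℝ) - τ * v.re| ≤ (1 + τ) * Real.sqrt (nn v) := by
    obtain ⟨h3, h4⟩ := ews_re_le v
    calc |(v.im : ℝ) - τ * v.re| ≤ |(v.im : ℝ)| + |(τ : ℝ) * v.re| := abs_sub _ _
      _ = |(v.im : ℝ)| + τ * |(v.re : ℝ)| := by rw [abs_mul, Nat.abs_cast]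
      _ ≤ Real.sqrt (nn v) + τ * Real.sqrt (nn v) := by gcongr
      _ = _ := by ring
  have h5 : (nn v : ℝ) ≤ |(q : ℝ)| * (|(nn v : ℝ)| * |(ews_a τ v : ℝ)|) := by
    rw [Nat.abs_cast, Nat.abs_cast]
    have : (nn v : ℝ) * 1 ≤ nn v * |(ews_a τ v : ℝ)| := by gcongr
    nlinarith
  have hs : Real.sqrt (nn v) * Real.sqrt (nn v) = nn v := Real.mul_self_sqrt hn0.le
  have hs0 : 0 < Real.sqrt (nn v) := Real.sqrt_pos.mpr hn0
  calc 2 * Real.pi * (|(h : ℝ)| * |(v.im : ℝ) - τ * v.re| /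
        (|(q : ℝ)| * (|(nn v : ℝ)| * |(ews_a τ v : ℝ)|)))
      ≤ 2 * Real.pi * (|(h : ℝ)| * ((1 + τ) * Real.sqrt (nn v)) / nn v) := by gcongr
    _ = 2 * Real.pi * |(h : ℝ)| * (1 + τ) / Real.sqrt (nn v) := by
        have : |(h : ℝ)| * ((1 + τ) * Real.sqrt (nn v)) / nn v =
            |(h : ℝ)| * (1 + τ) / Real.sqrt (nn v) := by
          rw [div_eq_div_iff hn0.ne' hs0.ne', mul_assoc, mul_assoc, hs]
          ring
        rw [this]
        ring

/-- the integers `b` in a convex set form an interval -/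
theorem ews_interval (r τ : ℤ) (x : ℝ) (hx : 1 ≤ x) : ∃ B₁ B₂ : ℤ, B₁ ≤ B₂ ∧
    (B₂ : ℝ) - B₁ ≤ 3 * Real.sqrt x ∧
    ∀ b : ℤ, b ∈ Finset.Ico B₁ B₂ ↔ (((r - τ * b) ^ 2 + b ^ 2 : ℤ) : ℝ) ≤ x := by
  classical
  have hs1 : 1 ≤ Real.sqrt x := by rw [Real.one_le_sqrt]; exact hx
  have hx0 : 0 ≤ x := by linarith
  set M : ℤ := ⌊Real.sqrt x⌋ with hM
  set S : Finset ℤ := (Finset.Icc (-M) M).filter
    (fun b : ℤ => (((r - τ * b) ^ 2 + b ^ 2 : ℤ) : ℝ) ≤ x) with hS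
  have hmem : ∀ b : ℤ, b ∈ S ↔ (((r - τ * b) ^ 2 + b ^ 2 : ℤ) : ℝ) ≤ x := by
    intro b
    rw [hS, Finset.mem_filter, Finset.mem_Icc]
    constructor
    · exact fun h => h.2
    · intro h
      refine ⟨?_, h⟩
      have h1 : ((b : ℝ)) ^ 2 ≤ x := by
        push_cast at h
        nlinarith [sq_nonneg ((r : ℝ) - τ * b)]
      have h2 := Real.abs_le_sqrt h1
      have h3 : |b| ≤ M := by
        rw [hM, Int.le_floor]
        push_cast
        exact h2
      exact abs_le.mp h3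
  rcases S.eq_empty_or_nonempty with hE | hne
  · refine ⟨0, 0, le_rfl, by simp, ?_⟩
    intro b
    rw [← hmem b, hE]
    simp
  · refine ⟨S.min' hne, S.max' hne + 1, ?_, ?_, ?_⟩
    · have := S.min'_le_max' hne
      omega
    · have hIcc : ∀ b ∈ S, -M ≤ b ∧ b ≤ M := by
        intro b hb
        rw [hS, Finset.mem_filter, Finset.mem_Icc] at hb
        exact hb.1
      have h1 := (hIcc _ (S.min'_mem hne)).1
      have h2 := (hIcc _ (S.max'_mem hne)).2
      have h3 : (M : ℝ) ≤ Real.sqrt x := Int.floor_le _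
      have h1' : (-(M : ℝ)) ≤ S.min' hne := by exact_mod_cast h1
      have h2' : ((S.max' hne : ℤ) : ℝ) ≤ M := by exact_mod_cast h2
      push_cast
      linarith
    · intro b
      rw [Finset.mem_Ico, ← hmem b]
      constructor
      · rintro ⟨h1, h2⟩
        have h2' : b ≤ S.max' hne := by omega
        rcases eq_or_lt_of_le h1 with h3 | h3
        · rw [← h3]; exact S.min'_mem hne
        rcases eq_or_lt_of_le h2' with h4 | h4
        · rw [h4]; exact S.max'_mem hne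
        rw [hmem]
        have e1 := (hmem _).mp (S.min'_mem hne)
        have e2 := (hmem _).mp (S.max'_mem hne)
        set m := S.min' hne
        set n := S.max' hne
        have hmb : (m : ℝ) < b := by exact_mod_cast h3
        have hbn : (b : ℝ) < n := by exact_mod_cast h4
        push_cast at e1 e2 ⊢
        have hid : ((n : ℝ) - b) * (((r : ℝ) - τ * m) ^ 2 + m ^ 2) +
            (b - m) * (((r : ℝ) - τ * n) ^ 2 + n ^ 2) -
            (n - m) * (((r : ℝ) - τ * b) ^ 2 + b ^ 2) =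
            ((τ : ℝ) ^ 2 + 1) * ((n - b) * ((b - m) * (n - m))) := by ring
        have hpos : 0 ≤ ((τ : ℝ) ^ 2 + 1) * ((n - b) * ((b - m) * (n - m))) := by
          have h5 : 0 ≤ (n : ℝ) - b := by linarith
          have h6 : 0 ≤ (b : ℝ) - m := by linarith
          have h7 : 0 ≤ (n : ℝ) - m := by linarith
          positivity
        have h8 : ((n : ℝ) - b) * (((r : ℝ) - τ * m) ^ 2 + m ^ 2) ≤ (n - b) * x :=
          mul_le_mul_of_nonneg_left e1 (by linarith)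
        have h9 : ((b : ℝ) - m) * (((r : ℝ) - τ * n) ^ 2 + n ^ 2) ≤ (b - m) * x :=
          mul_le_mul_of_nonneg_left e2 (by linarith)
        have h10 : ((n : ℝ) - m) * (((r : ℝ) - τ * b) ^ 2 + b ^ 2) ≤ (n - m) * x := by
          nlinarith
        exact le_of_mul_le_mul_left h10 (by linarith)
      · intro hb
        have h1 := S.min'_le b hb
        have h2 := S.le_max' b hb
        exact ⟨h1, by omega⟩

/-- the point of a row -/
def ews_pt (r : ℤ) (τ : ℕ) (b : ℤ) : G := ⟨r - τ * b, b⟩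

theorem ews_pt_a (r : ℤ) (τ : ℕ) (b : ℤ) : ews_a τ (ews_pt r τ b) = r := by
  unfold ews_a ews_pt
  ring

theorem ews_pt_eq (r : ℤ) (τ : ℕ) (v : G) (h : ews_a τ v = r) : ews_pt r τ v.im = v := by
  unfold ews_a at h
  ext
  · simp only [ews_pt]; linarith
  · rfl

theorem ews_pt_prm (r : ℤ) (τ : ℕ) (b : ℤ) : Prm (ews_pt r τ b) ↔ Int.gcd b r = 1 := by
  unfold Prm ews_pt
  simp only
  rw [← Int.isCoprime_iff_gcd_eq_one, ← Int.isCoprime_iff_gcd_eq_one, isCoprime_comm (x := b)]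
  have : r - (τ : ℤ) * b = r + (-(τ : ℤ)) * b := by ring
  rw [this]
  exact IsCoprime.add_mul_right_left_iff

theorem ews_pt_nn (r : ℤ) (τ : ℕ) (b : ℤ) :
    (nn (ews_pt r τ b) : ℝ) = (((r - (τ : ℤ) * b) ^ 2 + b ^ 2 : ℤ) : ℝ) := by
  have := nn_cast (ews_pt r τ b)
  have h2 : ((nn (ews_pt r τ b) : ℤ) : ℝ) = (((r - (τ : ℤ) * b) ^ 2 + b ^ 2 : ℤ) : ℝ) := by
    rw [this]; rfl
  simpa using h2

theorem ews_pt_class (q : ℕ) (r : ℤ) (τ : ℕ) (v₀ : G) (hr : (q : ℤ) ∣ r - ews_a τ v₀) (b : ℤ) :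
    (q : G) ∣ ews_pt r τ b - v₀ ↔ (q : ℤ) ∣ b - v₀.im := by
  rw [ews_dvd]
  have e1 : (ews_pt r τ b - v₀).re = (r - ews_a τ v₀) - τ * (b - v₀.im) := by
    simp only [Zsqrtd.re_sub, ews_pt, ews_a]; ring
  have e2 : (ews_pt r τ b - v₀).im = b - v₀.im := by
    simp only [Zsqrtd.im_sub, ews_pt]
  rw [e1, e2]
  constructor
  · exact fun h => h.2
  · exact fun h => ⟨dvd_sub hr (h.mul_left _), h⟩

open Classical in
/-- the trivial bound of a row -/
theorem ews_row_triv (q : ℕ) (v₀ : G) (τ : ℕ) (F : G → ℂ) (hF : ∀ v, ‖F v‖ ≤ 1) (x : ℝ)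
    (hx : 1 ≤ x) (r : ℤ) :
    ‖∑ v ∈ (PB x).filter (fun v => (q : G) ∣ v - v₀ ∧ ews_a τ v = r), F v‖ ≤
      3 * Real.sqrt x := by
  obtain ⟨B₁, B₂, hB, hB2, hBm⟩ := ews_interval r τ x hx
  have h1 : ((PB x).filter (fun v => (q : G) ∣ v - v₀ ∧ ews_a τ v = r)).card ≤
      (Finset.Ico B₁ B₂).card := by
    apply Finset.card_le_card_of_injOn (fun v => v.im)
    · intro v hv
      rw [Finset.mem_coe, Finset.mem_filter, mem_PB] at hv
      rw [Finset.mem_coe, hBm, ← ews_pt_nn, ews_pt_eq r τ v hv.2.2]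
      exact hv.1.2
    · intro v hv w hw hvw
      rw [Finset.mem_coe, Finset.mem_filter] at hv hw
      rw [← ews_pt_eq r τ v hv.2.2, ← ews_pt_eq r τ w hw.2.2]
      simp only at hvw
      rw [hvw]
  calc ‖∑ v ∈ (PB x).filter (fun v => (q : G) ∣ v - v₀ ∧ ews_a τ v = r), F v‖
      ≤ ∑ v ∈ (PB x).filter (fun v => (q : G) ∣ v - v₀ ∧ ews_a τ v = r), ‖F v‖ := norm_sum_le _ _
    _ ≤ ∑ v ∈ (PB x).filter (fun v => (q : G) ∣ v - v₀ ∧ ews_a τ v = r), (1 : ℝ) :=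
        Finset.sum_le_sum (fun v _ => hF v)
    _ = (((PB x).filter (fun v => (q : G) ∣ v - v₀ ∧ ews_a τ v = r)).card : ℝ) := by simp
    _ ≤ ((Finset.Ico B₁ B₂).card : ℝ) := by exact_mod_cast h1
    _ = (B₂ : ℝ) - B₁ := by
        rw [Int.card_Ico]
        have : ((B₂ - B₁).toNat : ℤ) = B₂ - B₁ := Int.toNat_of_nonneg (by omega)
        exact_mod_cast this
    _ ≤ _ := hB2

open Classical in
/-- a good row -/
theorem ews_row (q : ℕ) (hq : 1 ≤ q) (v₀ w₀ : G) (τ : ℕ)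
    (hτ : Int.gcd (v₀.re + τ * v₀.im) q = 1) (W : G → G)
    (hW : ∀ v, Prm v → (q : G) ∣ v - v₀ → det v (W v) = 1 ∧ (q : G) ∣ W v - w₀)
    (h : ℤ) (hh : h ≠ 0) (x : ℝ) (hx : 1 ≤ x) (s t : ℕ) (hs : 1 ≤ s) (ht : 1 ≤ t)
    (hsq : Squarefree s) (hco : Nat.Coprime s (t * (q * h.natAbs))) :
    ‖∑ v ∈ (PB x).filter (fun v => (q : G) ∣ v - v₀ ∧ ews_a τ v = ((s * t : ℕ) : ℤ)),
      ews_e (h * ews_a τ (W v) / (q * ews_a τ v))‖ ≤
      q * t * (3 * Real.sqrt x / (q * t * s) + 2) *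
        (2 ^ s.primeFactors.card * (s : ℝ) ^ (3 / 4 : ℝ) * (3 + Real.log s)) := by
  have hs1 : (1 : ℝ) ≤ s := by exact_mod_cast hs
  have hlog : 0 ≤ Real.log s := Real.log_nonneg hs1
  set r : ℤ := ((s * t : ℕ) : ℤ) with hr
  rcases ((PB x).filter (fun v => (q : G) ∣ v - v₀ ∧ ews_a τ v = r)).eq_empty_or_nonempty
    with hE | ⟨u, hu⟩
  · rw [hE, Finset.sum_empty, norm_zero]
    positivity
  rw [Finset.mem_filter] at hu
  have hra : (q : ℤ) ∣ r - ews_a τ v₀ := by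
    rw [← hu.2.2]
    have h1 := (ews_dvd q _).mp hu.2.1
    have e : ews_a τ u - ews_a τ v₀ = (u - v₀).re + τ * (u - v₀).im := by
      simp only [Zsqrtd.re_sub, Zsqrtd.im_sub, ews_a]; ring
    rw [e]
    exact dvd_add h1.1 (h1.2.mul_left _)
  obtain ⟨B₁, B₂, hB, hB2, hBm⟩ := ews_interval r τ x hx
  -- the row as a sum over an interval
  have hsum : ∑ v ∈ (PB x).filter (fun v => (q : G) ∣ v - v₀ ∧ ews_a τ v = r),
      ews_e (h * ews_a τ (W v) / (q * ews_a τ v)) =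
      ∑ b ∈ (Finset.Ico B₁ B₂).filter (fun b => (q : ℤ) ∣ b - v₀.im ∧
        Int.gcd b ((s * t : ℕ) : ℤ) = 1),
        Complex.exp (2 * Real.pi * Complex.I *
          (h * ((fun b : ℤ => ews_a τ (W (ews_pt r τ b))) b : ℤ) / (q * (s * t) : ℕ))) := by
    apply Finset.sum_nbij' (i := fun v => v.im) (j := fun b => ews_pt r τ b)
    · intro v hv
      rw [Finset.mem_filter, mem_PB] at hv
      have e := ews_pt_eq r τ v hv.2.2
      rw [Finset.mem_filter, hBm]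
      refine ⟨?_, ?_, ?_⟩
      · rw [← ews_pt_nn, e]; exact hv.1.2
      · rw [← ews_pt_class q r τ v₀ hra, e]; exact hv.2.1
      · rw [← ews_pt_prm, e]; exact hv.1.1
    · intro b hb
      rw [Finset.mem_filter, hBm] at hb
      rw [Finset.mem_filter, mem_PB]
      refine ⟨⟨(ews_pt_prm r τ b).mpr hb.2.2, ?_⟩, ?_, ews_pt_a r τ b⟩
      · rw [ews_pt_nn]; exact hb.1
      · rw [ews_pt_class q r τ v₀ hra]; exact hb.2.1
    · intro v hv
      rw [Finset.mem_filter] at hv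
      exact ews_pt_eq r τ v hv.2.2
    · intro b _
      rfl
    · intro v hv
      rw [Finset.mem_filter] at hv
      have e := ews_pt_eq r τ v hv.2.2
      simp only
      rw [e, hv.2.2]
      unfold ews_e
      congr 2
      rw [hr]
      push_cast
      ring
  have hrq : Int.gcd r q = 1 := by
    have h1 : IsCoprime (v₀.re + τ * v₀.im) (q : ℤ) := Int.isCoprime_iff_gcd_eq_one.mpr hτ
    obtain ⟨k, hk⟩ := hra
    have h2 : r = (v₀.re + τ * v₀.im) + (q : ℤ) * k := by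
      have : ews_a τ v₀ = v₀.re + τ * v₀.im := rfl
      rw [this] at hk; linarith
    rw [← Int.isCoprime_iff_gcd_eq_one, h2]
    exact IsCoprime.add_mul_left_left_iff.mpr h1
  have htq : Nat.Coprime t q := by
    have h1 : Nat.Coprime (s * t) q := by
      rw [hr] at hrq
      exact_mod_cast hrq
    exact Nat.Coprime.coprime_mul_left h1
  have hstq : Nat.Coprime s (t * q) := by
    apply Nat.Coprime.coprime_dvd_right _ hco
    exact mul_dvd_mul_left _ (dvd_mul_right _ _)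
  have hsh : IsCoprime (s : ℤ) h := by
    rw [Int.isCoprime_iff_gcd_eq_one]
    show Nat.gcd (s : ℤ).natAbs h.natAbs = 1
    rw [Int.natAbs_natCast]
    apply Nat.Coprime.coprime_dvd_right _ hco
    exact Dvd.intro_left (t * q) (by ring)
  rw [hsum]
  have hkl := kl_row q t s h (ews_a τ w₀) v₀.im B₁ B₂ (fun b : ℤ => ews_a τ (W (ews_pt r τ b)))
    hq ht hs hsq hstq htq hsh hB (by
      intro b hb1 hb2
      have hP : Prm (ews_pt r τ b) := (ews_pt_prm r τ b).mpr hb1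
      have hC : (q : G) ∣ ews_pt r τ b - v₀ := (ews_pt_class q r τ v₀ hra b).mpr hb2
      obtain ⟨h1, h2⟩ := hW _ hP hC
      constructor
      · refine ⟨(W (ews_pt r τ b)).im, ?_⟩
        have e : b * ews_a τ (W (ews_pt r τ b)) + det (ews_pt r τ b) (W (ews_pt r τ b)) =
            r * (W (ews_pt r τ b)).im := by
          unfold ews_a det ews_pt
          simp only
          ring
        rw [h1] at e
        exact e
      · have h3 := (ews_dvd q _).mp h2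
        have e : ews_a τ (W (ews_pt r τ b)) - ews_a τ w₀ =
            (W (ews_pt r τ b) - w₀).re + τ * (W (ews_pt r τ b) - w₀).im := by
          simp only [Zsqrtd.re_sub, Zsqrtd.im_sub, ews_a]; ring
        rw [e]
        exact dvd_add h3.1 (h3.2.mul_left _))
  refine hkl.trans ?_
  have hq0 : (0 : ℝ) < q := by exact_mod_cast hq
  have ht0 : (0 : ℝ) < t := by exact_mod_cast ht
  gcongr

open Classical in
/-- the rows `a > 0` -/
theorem ews_pos (q : ℕ) (hq : 1 ≤ q) (v₀ w₀ : G) (τ : ℕ)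
    (hτ : Int.gcd (v₀.re + τ * v₀.im) q = 1) (W : G → G)
    (hW : ∀ v, Prm v → (q : G) ∣ v - v₀ → det v (W v) = 1 ∧ (q : G) ∣ W v - w₀)
    (h : ℤ) (hh : h ≠ 0) (ε : ℝ) (hε : 0 < ε) : ∃ X₀ : ℝ, ∀ x : ℝ, X₀ ≤ x →
    ‖∑ v ∈ (PB x).filter (fun v => (q : G) ∣ v - v₀ ∧ 0 < ews_a τ v),
      ews_e (h * ews_a τ (W v) / (q * ews_a τ v))‖ ≤ ε * x := by
  set K : ℝ := 1 + τ with hK
  have hK1 : 1 ≤ K := by rw [hK]; have : (0 : ℝ) ≤ τ := by positivity
                         linarith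
  have hK0 : 0 < K := by linarith
  have hq0 : (0 : ℝ) < q := by exact_mod_cast hq
  set ε₁ : ℝ := ε / (12 * K) with hε₁
  have hε₁0 : 0 < ε₁ := by positivity
  set δ : ℝ := ε / 12 with hδ
  have hδ0 : 0 < δ := by positivity
  have hN : 1 ≤ q * h.natAbs := Nat.mul_pos hq (Int.natAbs_pos.mpr hh)
  obtain ⟨T, hT1, hT⟩ := good_rows ε₁ hε₁0 (q * h.natAbs) hN
  have hT0 : (1 : ℝ) ≤ T := by exact_mod_cast hT1
  set C : ℝ := 19 * (3 * T / δ + 2 * q * T) * K with hC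
  have hC0 : 0 < C := by positivity
  refine ⟨max 1 ((2 * K * C / ε) ^ (16 : ℕ)), ?_⟩
  intro x hx
  have hx1 : 1 ≤ x := (le_max_left _ _).trans hx
  have hx0 : 0 < x := by linarith
  have hxC : (2 * K * C / ε) ^ (16 : ℕ) ≤ x := (le_max_right _ _).trans hx
  have hsx1 : 1 ≤ Real.sqrt x := by rw [Real.one_le_sqrt]; exact hx1
  have hsx0 : 0 < Real.sqrt x := by linarith
  set R : ℕ := ⌊K * Real.sqrt x⌋₊ with hR
  have hRle : (R : ℝ) ≤ K * Real.sqrt x := Nat.floor_le (by positivity)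
  set S := (PB x).filter (fun v => (q : G) ∣ v - v₀ ∧ 0 < ews_a τ v) with hS
  set F : G → ℂ := fun v => ews_e (h * ews_a τ (W v) / (q * ews_a τ v)) with hF
  have hF1 : ∀ v, ‖F v‖ ≤ 1 := fun v => (ews_norm _).le
  have hmaps : ∀ v ∈ S, (ews_a τ v).toNat ∈ Finset.Icc 1 R := by
    intro v hv
    rw [hS, Finset.mem_filter, mem_PB] at hv
    have h1 := ews_a_le τ v
    have h2 : Real.sqrt (nn v) ≤ Real.sqrt x := Real.sqrt_le_sqrt hv.1.2
    have h3 : (ews_a τ v : ℝ) ≤ K * Real.sqrt x := by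
      calc (ews_a τ v : ℝ) ≤ |(ews_a τ v : ℝ)| := le_abs_self _
        _ ≤ (1 + τ) * Real.sqrt (nn v) := h1
        _ ≤ K * Real.sqrt x := by rw [hK]; gcongr
    rw [Finset.mem_Icc]
    have h4 : (((ews_a τ v).toNat : ℤ)) = ews_a τ v := Int.toNat_of_nonneg hv.2.2.le
    refine ⟨by omega, ?_⟩
    rw [hR, Nat.le_floor_iff (by positivity)]
    have : (((ews_a τ v).toNat : ℕ) : ℝ) = (ews_a τ v : ℝ) := by exact_mod_cast h4
    rw [this]; exact h3
  rw [← Finset.sum_fiberwise_of_maps_to hmaps]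
  have hfib : ∀ r ∈ Finset.Icc 1 R, S.filter (fun v => (ews_a τ v).toNat = r) =
      (PB x).filter (fun v => (q : G) ∣ v - v₀ ∧ ews_a τ v = (r : ℤ)) := by
    intro r hr
    rw [Finset.mem_Icc] at hr
    ext v
    rw [hS, Finset.mem_filter, Finset.mem_filter, Finset.mem_filter]
    constructor
    · rintro ⟨⟨h1, h2, h3⟩, h4⟩
      refine ⟨h1, h2, ?_⟩
      omega
    · rintro ⟨h1, h2, h3⟩
      refine ⟨⟨h1, h2, ?_⟩, ?_⟩ <;> omega
  set good : ℕ → Prop := fun r => ∃ s t : ℕ, r = s * t ∧ Squarefree s ∧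
      Nat.Coprime s (t * (q * h.natAbs)) ∧ t ≤ T ∧
      (2 : ℝ) ^ s.primeFactors.card ≤ (s : ℝ) ^ (1 / 16 : ℝ) with hgood
  have hrow : ∀ r ∈ Finset.Icc 1 R, ‖∑ v ∈ S.filter (fun v => (ews_a τ v).toNat = r), F v‖ ≤
      (if ¬ good r then 3 * Real.sqrt x else 0) +
      (if (r : ℝ) ≤ δ * Real.sqrt x then 3 * Real.sqrt x else 0) + C * x ^ (7 / 16 : ℝ) := by
    intro r hr
    rw [hfib r hr]
    rw [Finset.mem_Icc] at hr
    have htriv := ews_row_triv q v₀ τ F hF1 x hx1 (r : ℤ)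
    have hpos : 0 ≤ C * x ^ (7 / 16 : ℝ) := by positivity
    by_cases hg : good r
    swap
    · rw [if_pos hg]
      have : 0 ≤ (if (r : ℝ) ≤ δ * Real.sqrt x then 3 * Real.sqrt x else 0) := by
        split_ifs <;> positivity
      linarith
    by_cases hsm : (r : ℝ) ≤ δ * Real.sqrt x
    · rw [if_neg (not_not.mpr hg), if_pos hsm]
      linarith
    rw [if_neg (not_not.mpr hg), if_neg hsm, zero_add, zero_add]
    push Not at hsm
    obtain ⟨s, t, hrst, hsq, hco, htT, h2s⟩ := hg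
    have hs1 : 1 ≤ s := by
      rcases Nat.eq_zero_or_pos s with h0 | h0
      · rw [h0] at hrst; omega
      · exact h0
    have ht1 : 1 ≤ t := by
      rcases Nat.eq_zero_or_pos t with h0 | h0
      · rw [h0] at hrst; omega
      · exact h0
    have hs0 : (0 : ℝ) < s := by exact_mod_cast hs1
    have ht0 : (0 : ℝ) < t := by exact_mod_cast ht1
    have htT' : (t : ℝ) ≤ T := by exact_mod_cast htT
    have hsR : (1 : ℝ) ≤ s := by exact_mod_cast hs1
    have hrow := ews_row q hq v₀ w₀ τ hτ W hW h hh x hx1 s t hs1 ht1 hsq hco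
    rw [← hrst] at hrow
    refine hrow.trans ?_
    have hr' : (r : ℝ) = s * t := by rw [hrst]; push_cast; ring
    -- `s` between
    have hslow : δ * Real.sqrt x / T ≤ s := by
      rw [div_le_iff₀ (by linarith)]
      have : (s : ℝ) * t ≤ s * T := by gcongr
      linarith
    have hsup : (s : ℝ) ≤ K * Real.sqrt x := by
      have h1 : (r : ℝ) ≤ R := by exact_mod_cast hr.2
      have h2 : (s : ℝ) * 1 ≤ s * t := by gcongr; exact_mod_cast ht1
      linarith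
    have e1 : (q : ℝ) * t * (3 * Real.sqrt x / (q * t * s) + 2) =
        3 * Real.sqrt x / s + 2 * q * t := by
      field_simp
    have e2 : 3 * Real.sqrt x / s + 2 * q * t ≤ 3 * T / δ + 2 * q * T := by
      have : 3 * Real.sqrt x / s ≤ 3 * T / δ := by
        rw [div_le_div_iff₀ hs0 hδ0]
        rw [div_le_iff₀ (by linarith)] at hslow
        nlinarith
      have : 2 * (q : ℝ) * t ≤ 2 * q * T := by gcongr
      linarith
    have e3 : 3 + Real.log s ≤ 19 * (s : ℝ) ^ (1 / 16 : ℝ) := by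
      have h1 : Real.log s ≤ (s : ℝ) ^ (1 / 16 : ℝ) / (1 / 16) :=
        Real.log_le_rpow_div hs0.le (by norm_num)
      have h2 : 1 ≤ (s : ℝ) ^ (1 / 16 : ℝ) := Real.one_le_rpow hsR (by norm_num)
      linarith
    have hlog : 0 ≤ Real.log s := Real.log_nonneg hsR
    have e4 : (2 : ℝ) ^ s.primeFactors.card * (s : ℝ) ^ (3 / 4 : ℝ) * (3 + Real.log s) ≤
        19 * (K * x ^ (7 / 16 : ℝ)) := by
      calc (2 : ℝ) ^ s.primeFactors.card * (s : ℝ) ^ (3 / 4 : ℝ) * (3 + Real.log s)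
          ≤ (s : ℝ) ^ (1 / 16 : ℝ) * (s : ℝ) ^ (3 / 4 : ℝ) * (19 * (s : ℝ) ^ (1 / 16 : ℝ)) := by
            gcongr
        _ = 19 * ((s : ℝ) ^ (1 / 16 : ℝ) * (s : ℝ) ^ (3 / 4 : ℝ) * (s : ℝ) ^ (1 / 16 : ℝ)) := by
            ring
        _ = 19 * (s : ℝ) ^ (7 / 8 : ℝ) := by
            rw [← Real.rpow_add hs0, ← Real.rpow_add hs0]; norm_num
        _ ≤ 19 * (K * Real.sqrt x) ^ (7 / 8 : ℝ) := by gcongr
        _ = 19 * (K ^ (7 / 8 : ℝ) * x ^ (7 / 16 : ℝ)) := by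
            rw [Real.mul_rpow hK0.le hsx0.le, Real.sqrt_eq_rpow, ← Real.rpow_mul hx0.le]
            norm_num
        _ ≤ 19 * (K * x ^ (7 / 16 : ℝ)) := by
            have : K ^ (7 / 8 : ℝ) ≤ K := by
              calc K ^ (7 / 8 : ℝ) ≤ K ^ (1 : ℝ) :=
                    Real.rpow_le_rpow_of_exponent_le hK1 (by norm_num)
                _ = K := Real.rpow_one K
            gcongr
    rw [e1]
    calc (3 * Real.sqrt x / s + 2 * q * t) *
          ((2 : ℝ) ^ s.primeFactors.card * (s : ℝ) ^ (3 / 4 : ℝ) * (3 + Real.log s))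
        ≤ (3 * T / δ + 2 * q * T) * (19 * (K * x ^ (7 / 16 : ℝ))) := by
          gcongr
      _ = C * x ^ (7 / 16 : ℝ) := by rw [hC]; ring
  refine (norm_sum_le _ _).trans ((Finset.sum_le_sum hrow).trans ?_)
  rw [Finset.sum_add_distrib, Finset.sum_add_distrib, ← Finset.sum_filter, ← Finset.sum_filter,
    Finset.sum_const, Finset.sum_const, Finset.sum_const, nsmul_eq_mul, nsmul_eq_mul,
    nsmul_eq_mul, Nat.card_Icc]
  have hb := hT R
  have c1 : (((Finset.Icc 1 R).filter (fun r => ¬ good r)).card : ℝ) * (3 * Real.sqrt x) ≤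
      ε / 4 * x := by
    calc (((Finset.Icc 1 R).filter (fun r => ¬ good r)).card : ℝ) * (3 * Real.sqrt x)
        ≤ (ε₁ * R) * (3 * Real.sqrt x) := by gcongr
      _ ≤ (ε₁ * (K * Real.sqrt x)) * (3 * Real.sqrt x) := by gcongr
      _ = 3 * ε₁ * K * (Real.sqrt x * Real.sqrt x) := by ring
      _ = ε / 4 * x := by
          rw [Real.mul_self_sqrt hx0.le, hε₁]
          field_simp
          ring
  have c2 : (((Finset.Icc 1 R).filter (fun r : ℕ => (r : ℝ) ≤ δ * Real.sqrt x)).card : ℝ) *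
      (3 * Real.sqrt x) ≤ ε / 4 * x := by
    have h1 : (((Finset.Icc 1 R).filter (fun r : ℕ => (r : ℝ) ≤ δ * Real.sqrt x)).card : ℝ) ≤
        δ * Real.sqrt x := by
      have h2 : ((Finset.Icc 1 R).filter (fun r : ℕ => (r : ℝ) ≤ δ * Real.sqrt x)).card ≤
          (Finset.Icc 1 ⌊δ * Real.sqrt x⌋₊).card := by
        apply Finset.card_le_card
        intro r hr
        rw [Finset.mem_filter, Finset.mem_Icc] at hr
        rw [Finset.mem_Icc]
        exact ⟨hr.1.1, Nat.le_floor hr.2⟩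
      rw [Nat.card_Icc, Nat.add_sub_cancel] at h2
      exact (by exact_mod_cast h2 : (((Finset.Icc 1 R).filter
        (fun r : ℕ => (r : ℝ) ≤ δ * Real.sqrt x)).card : ℝ) ≤ (⌊δ * Real.sqrt x⌋₊ : ℝ)).trans
        (Nat.floor_le (by positivity))
    calc _ ≤ (δ * Real.sqrt x) * (3 * Real.sqrt x) := by gcongr
      _ = 3 * δ * (Real.sqrt x * Real.sqrt x) := by ring
      _ = ε / 4 * x := by
          rw [Real.mul_self_sqrt hx0.le, hδ]
          ring
  have c3 : ((R + 1 - 1 : ℕ) : ℝ) * (C * x ^ (7 / 16 : ℝ)) ≤ ε / 2 * x := by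
    rw [Nat.add_sub_cancel]
    have h1 : 2 * K * C / ε ≤ x ^ (1 / 16 : ℝ) := by
      have h2 : ((2 * K * C / ε) ^ (16 : ℕ)) ^ (1 / 16 : ℝ) ≤ x ^ (1 / 16 : ℝ) := by
        gcongr
      have h3 : ((2 * K * C / ε) ^ (16 : ℕ)) ^ (1 / 16 : ℝ) = 2 * K * C / ε := by
        rw [← Real.rpow_natCast, ← Real.rpow_mul (by positivity)]
        norm_num
      rwa [h3] at h2
    calc (R : ℝ) * (C * x ^ (7 / 16 : ℝ)) ≤ (K * Real.sqrt x) * (C * x ^ (7 / 16 : ℝ)) := by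
          gcongr
      _ = (2 * K * C / ε) * (ε / 2 * (x ^ (1 / 2 : ℝ) * x ^ (7 / 16 : ℝ))) := by
          rw [Real.sqrt_eq_rpow]
          field_simp
      _ ≤ x ^ (1 / 16 : ℝ) * (ε / 2 * (x ^ (1 / 2 : ℝ) * x ^ (7 / 16 : ℝ))) := by gcongr
      _ = ε / 2 * (x ^ (1 / 16 : ℝ) * (x ^ (1 / 2 : ℝ) * x ^ (7 / 16 : ℝ))) := by ring
      _ = ε / 2 * x := by
          rw [← Real.rpow_add hx0, ← Real.rpow_add hx0]
          norm_num
  linarith

theorem ews_neg_nn (v : G) : nn (-v) = nn v := by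
  have h1 := nn_cast v
  have h2 := nn_cast (-v)
  simp only [Zsqrtd.re_neg, Zsqrtd.im_neg, neg_sq] at h2
  rw [← h1] at h2
  exact_mod_cast h2

theorem ews_neg_prm (v : G) : Prm (-v) ↔ Prm v := by
  unfold Prm
  simp only [Zsqrtd.re_neg, Zsqrtd.im_neg, Int.gcd_neg, Int.neg_gcd]

theorem ews_neg_a (τ : ℕ) (v : G) : ews_a τ (-v) = -ews_a τ v := by
  unfold ews_a
  simp only [Zsqrtd.re_neg, Zsqrtd.im_neg]
  ring

open Classical in
theorem ews_neg (q : ℕ) (hq : 1 ≤ q) (v₀ w₀ : G) (τ : ℕ)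
    (hτ : Int.gcd (v₀.re + τ * v₀.im) q = 1) (W : G → G)
    (hW : ∀ v, Prm v → (q : G) ∣ v - v₀ → det v (W v) = 1 ∧ (q : G) ∣ W v - w₀)
    (h : ℤ) (hh : h ≠ 0) (ε : ℝ) (hε : 0 < ε) : ∃ X₀ : ℝ, ∀ x : ℝ, X₀ ≤ x →
    ‖∑ v ∈ (PB x).filter (fun v => (q : G) ∣ v - v₀ ∧ ews_a τ v < 0),
      ews_e (h * ews_a τ (W v) / (q * ews_a τ v))‖ ≤ ε * x := by
  obtain ⟨X₀, hX⟩ := ews_pos q hq (-v₀) (-w₀) τ (by
    have e : (-v₀).re + (τ : ℤ) * (-v₀).im = -(v₀.re + τ * v₀.im) := by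
      simp only [Zsqrtd.re_neg, Zsqrtd.im_neg]; ring
    rw [e, Int.neg_gcd]; exact hτ) (fun v => -W (-v)) (by
    intro v hv hvq
    have h1 := hW (-v) ((ews_neg_prm v).mpr hv) (by
      have : -v - v₀ = -(v - -v₀) := by ring
      rw [this, dvd_neg]; exact hvq)
    constructor
    · have h2 := h1.1
      unfold det at h2 ⊢
      simp only [Zsqrtd.re_neg, Zsqrtd.im_neg] at h2 ⊢
      linarith
    · have : -W (-v) - -w₀ = -(W (-v) - w₀) := by ring
      rw [this, dvd_neg]; exact h1.2) h hh ε hε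
  refine ⟨X₀, fun x hx => ?_⟩
  have h1 := hX x hx
  have h2 : ∑ v ∈ (PB x).filter (fun v => (q : G) ∣ v - v₀ ∧ ews_a τ v < 0),
      ews_e (h * ews_a τ (W v) / (q * ews_a τ v)) =
      ∑ v ∈ (PB x).filter (fun v => (q : G) ∣ v - -v₀ ∧ 0 < ews_a τ v),
      ews_e (h * ews_a τ (-W (-v)) / (q * ews_a τ v)) := by
    apply Finset.sum_nbij' (i := fun v => -v) (j := fun v => -v)
    · intro v hv
      rw [Finset.mem_filter, mem_PB] at hv ⊢
      refine ⟨⟨(ews_neg_prm v).mpr hv.1.1, by rw [ews_neg_nn]; exact hv.1.2⟩, ?_, ?_⟩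
      · have : -v - -v₀ = -(v - v₀) := by ring
        rw [this, dvd_neg]; exact hv.2.1
      · rw [ews_neg_a]; omega
    · intro v hv
      rw [Finset.mem_filter, mem_PB] at hv ⊢
      refine ⟨⟨(ews_neg_prm v).mpr hv.1.1, by rw [ews_neg_nn]; exact hv.1.2⟩, ?_, ?_⟩
      · have : -v - v₀ = -(v - -v₀) := by ring
        rw [this, dvd_neg]; exact hv.2.1
      · rw [ews_neg_a]; omega
    · intro v _; exact neg_neg v
    · intro v _; exact neg_neg v
    · intro v _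
      simp only [neg_neg]
      rw [ews_neg_a, ews_neg_a]
      congr 1
      push_cast
      rw [mul_neg, mul_neg, neg_div_neg_eq]
  rw [h2]
  exact h1

open Classical in
theorem exp_pairs_pr (q : ℕ) (hq : 1 ≤ q) (v₀ w₀ : G) (h0 : (q : ℤ) ∣ det v₀ w₀ - 1) (W : G → G)
    (hW : ∀ v, Prm v → (q : G) ∣ v - v₀ → det v (W v) = 1 ∧ (q : G) ∣ W v - w₀)
    (h : ℤ) (hh : h ≠ 0) : Tendsto (fun x : ℝ => (1 / (x : ℂ)) *
      ∑ v ∈ (PB x).filter (fun v => (q : G) ∣ v - v₀),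
        Complex.exp (2 * Real.pi * Complex.I * (h * (ip v (W v)) / (q * nn v : ℕ)))) atTop
      (𝓝 0) := by
  obtain ⟨τ, hτ⟩ := ews_tau q hq v₀ w₀ h0
  obtain ⟨A, hA1, hA⟩ := ball_le
  rw [tendsto_zero_iff_norm_tendsto_zero, Metric.tendsto_atTop]
  intro ε hε
  obtain ⟨X₁, hX₁⟩ := ews_pos q hq v₀ w₀ τ hτ W hW h hh (ε / 8) (by positivity)
  obtain ⟨X₂, hX₂⟩ := ews_neg q hq v₀ w₀ τ hτ W hW h hh (ε / 8) (by positivity)
  set K : ℝ := 2 * Real.pi * |(h : ℝ)| * (1 + τ) with hK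
  have hK0 : 0 ≤ K := by positivity
  -- the constant of the error
  set D : ℝ := 3 + 2 * A + K * A with hD
  have hD0 : 0 < D := by positivity
  refine ⟨max 1 (max X₁ (max X₂ ((4 * D / ε) ^ 4))), ?_⟩
  intro x hx
  have hx1 : 1 ≤ x := (le_max_left _ _).trans hx
  have hxX1 : X₁ ≤ x := ((le_max_left _ _).trans (le_max_right _ _)).trans hx
  have hxX2 : X₂ ≤ x :=
    (((le_max_left _ _).trans (le_max_right _ _)).trans (le_max_right _ _)).trans hx
  have hxD : (4 * D / ε) ^ 4 ≤ x :=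
    (((le_max_right _ _).trans (le_max_right _ _)).trans (le_max_right _ _)).trans hx
  have hx0 : 0 < x := by linarith
  set F : G → ℂ := fun v => ews_e (h * ip v (W v) / (q * nn v)) with hF
  set Gf : G → ℂ := fun v => ews_e (h * ews_a τ (W v) / (q * ews_a τ v)) with hGf
  have hFeq : ∀ v : G, Complex.exp (2 * Real.pi * Complex.I *
      (h * (ip v (W v)) / (q * nn v : ℕ))) = F v := by
    intro v
    simp only [hF, ews_e]
    congr 2
    push_cast
    ring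
  simp_rw [hFeq]
  -- splitting
  have hsplit : ∑ v ∈ (PB x).filter (fun v => (q : G) ∣ v - v₀), F v =
      ∑ v ∈ (PB x).filter (fun v => (q : G) ∣ v - v₀ ∧ ews_a τ v = 0), F v +
      (∑ v ∈ (PB x).filter (fun v => (q : G) ∣ v - v₀ ∧ 0 < ews_a τ v), Gf v +
      ∑ v ∈ (PB x).filter (fun v => (q : G) ∣ v - v₀ ∧ ews_a τ v < 0), Gf v) +
      ∑ v ∈ (PB x).filter (fun v => (q : G) ∣ v - v₀ ∧ ews_a τ v ≠ 0), (F v - Gf v) := by
    have e1 : ∑ v ∈ (PB x).filter (fun v => (q : G) ∣ v - v₀), F v =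
        ∑ v ∈ (PB x).filter (fun v => (q : G) ∣ v - v₀ ∧ ews_a τ v = 0), F v +
        ∑ v ∈ (PB x).filter (fun v => (q : G) ∣ v - v₀ ∧ ews_a τ v ≠ 0), F v := by
      rw [← Finset.sum_filter_add_sum_filter_not _ (fun v => ews_a τ v = 0),
        Finset.filter_filter, Finset.filter_filter]
    have e2 : ∑ v ∈ (PB x).filter (fun v => (q : G) ∣ v - v₀ ∧ ews_a τ v ≠ 0), Gf v =
        ∑ v ∈ (PB x).filter (fun v => (q : G) ∣ v - v₀ ∧ 0 < ews_a τ v), Gf v +
        ∑ v ∈ (PB x).filter (fun v => (q : G) ∣ v - v₀ ∧ ews_a τ v < 0), Gf v := by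
      rw [← Finset.sum_filter_add_sum_filter_not ((PB x).filter
        (fun v => (q : G) ∣ v - v₀ ∧ ews_a τ v ≠ 0)) (fun v => 0 < ews_a τ v),
        Finset.filter_filter, Finset.filter_filter]
      congr 1
      · apply Finset.sum_congr _ (fun _ _ => rfl)
        ext v
        simp only [Finset.mem_filter]
        constructor
        · rintro ⟨h1, ⟨h2, h3⟩, h4⟩; exact ⟨h1, h2, h4⟩
        · rintro ⟨h1, h2, h4⟩; exact ⟨h1, ⟨h2, by omega⟩, h4⟩
      · apply Finset.sum_congr _ (fun _ _ => rfl)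
        ext v
        simp only [Finset.mem_filter]
        constructor
        · rintro ⟨h1, ⟨h2, h3⟩, h4⟩; exact ⟨h1, h2, by omega⟩
        · rintro ⟨h1, h2, h4⟩; exact ⟨h1, ⟨h2, by omega⟩, by omega⟩
    rw [e1, ← e2, Finset.sum_sub_distrib]
    ring
  have b0 := ews_row_triv q v₀ τ F (fun v => (ews_norm _).le) x hx1 0
  have b1 := hX₁ x hxX1
  have b2 := hX₂ x hxX2
  have hs1 : 1 ≤ Real.sqrt x := by rw [Real.one_le_sqrt]; exact hx1
  have b3 : ‖∑ v ∈ (PB x).filter (fun v => (q : G) ∣ v - v₀ ∧ ews_a τ v ≠ 0), (F v - Gf v)‖ ≤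
      2 * (A * Real.sqrt x) + K * x ^ (-(1 / 4) : ℝ) * (A * x) := by
    have hterm : ∀ v ∈ (PB x).filter (fun v => (q : G) ∣ v - v₀ ∧ ews_a τ v ≠ 0),
        ‖F v - Gf v‖ ≤ (if (nn v : ℝ) ≤ Real.sqrt x then 2 else 0) + K * x ^ (-(1 / 4) : ℝ) := by
      intro v hv
      rw [Finset.mem_filter, mem_PB] at hv
      have hv0 := prm_ne hv.1.1
      have h1 := (hW v hv.1.1 hv.2.1).1
      by_cases hn : (nn v : ℝ) ≤ Real.sqrt x
      · rw [if_pos hn]
        have : ‖F v - Gf v‖ ≤ 1 + 1 :=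
          (norm_sub_le _ _).trans (add_le_add (ews_norm _).le (ews_norm _).le)
        have : 0 ≤ K * x ^ (-(1 / 4) : ℝ) := by positivity
        linarith
      · rw [if_neg hn, zero_add]
        push Not at hn
        refine (ews_cmp q hq τ h v (W v) hv0 h1 hv.2.2).trans ?_
        rw [div_eq_mul_inv]
        apply mul_le_mul_of_nonneg_left _ hK0
        have h3 : x ^ (1 / 4 : ℝ) ≤ Real.sqrt (nn v) := by
          have h4 : Real.sqrt (Real.sqrt x) ≤ Real.sqrt (nn v) := Real.sqrt_le_sqrt hn.le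
          have h5 : Real.sqrt (Real.sqrt x) = x ^ (1 / 4 : ℝ) := by
            rw [Real.sqrt_eq_rpow, Real.sqrt_eq_rpow, ← Real.rpow_mul hx0.le]
            norm_num
          rwa [h5] at h4
        rw [Real.rpow_neg hx0.le]
        apply inv_anti₀ (by positivity) h3
    refine (norm_sum_le _ _).trans ((Finset.sum_le_sum hterm).trans ?_)
    rw [Finset.sum_add_distrib, ← Finset.sum_filter, Finset.sum_const, Finset.sum_const,
      nsmul_eq_mul, nsmul_eq_mul]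
    apply add_le_add
    · rw [mul_comm]
      apply mul_le_mul_of_nonneg_left _ (by norm_num)
      refine le_trans ?_ (hA (Real.sqrt x) (by positivity))
      norm_cast
      apply Finset.card_le_card
      intro v hv
      rw [Finset.mem_filter, Finset.mem_filter, mem_PB] at hv
      rw [mem_Bl]
      exact ⟨prm_ne hv.1.1.1, hv.2⟩
    · rw [mul_comm]
      apply mul_le_mul_of_nonneg_left _ (by positivity)
      refine le_trans ?_ (hA x hx0.le)
      norm_cast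
      apply Finset.card_le_card
      intro v hv
      rw [Finset.mem_filter, mem_PB] at hv
      rw [mem_Bl]
      exact ⟨prm_ne hv.1.1, hv.1.2⟩
  -- the total
  have hsq : Real.sqrt x ≤ x ^ (3 / 4 : ℝ) := by
    rw [Real.sqrt_eq_rpow]
    exact Real.rpow_le_rpow_of_exponent_le hx1 (by norm_num)
  have h34 : x ^ (-(1 / 4) : ℝ) * x = x ^ (3 / 4 : ℝ) := by
    nth_rewrite 2 [← Real.rpow_one x]
    rw [← Real.rpow_add hx0]; norm_num
  have hDx : D * x ^ (3 / 4 : ℝ) ≤ ε / 4 * x := by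
    have h1 : 4 * D / ε ≤ x ^ (1 / 4 : ℝ) := by
      have h2 : ((4 * D / ε) ^ (4 : ℕ)) ^ (1 / 4 : ℝ) ≤ x ^ (1 / 4 : ℝ) := by
        gcongr
      have h3 : ((4 * D / ε) ^ (4 : ℕ)) ^ (1 / 4 : ℝ) = 4 * D / ε := by
        rw [← Real.rpow_natCast, ← Real.rpow_mul (by positivity)]
        norm_num
      rwa [h3] at h2
    calc D * x ^ (3 / 4 : ℝ) = (4 * D / ε) * (ε / 4 * x ^ (3 / 4 : ℝ)) := by field_simp
      _ ≤ x ^ (1 / 4 : ℝ) * (ε / 4 * x ^ (3 / 4 : ℝ)) := by gcongr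
      _ = ε / 4 * (x ^ (1 / 4 : ℝ) * x ^ (3 / 4 : ℝ)) := by ring
      _ = ε / 4 * x := by rw [← Real.rpow_add hx0]; norm_num
  have htot : ‖∑ v ∈ (PB x).filter (fun v => (q : G) ∣ v - v₀), F v‖ ≤ ε / 2 * x := by
    rw [hsplit]
    have n1 := norm_add_le
      (∑ v ∈ (PB x).filter (fun v => (q : G) ∣ v - v₀ ∧ ews_a τ v = 0), F v +
      (∑ v ∈ (PB x).filter (fun v => (q : G) ∣ v - v₀ ∧ 0 < ews_a τ v), Gf v +
      ∑ v ∈ (PB x).filter (fun v => (q : G) ∣ v - v₀ ∧ ews_a τ v < 0), Gf v))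
      (∑ v ∈ (PB x).filter (fun v => (q : G) ∣ v - v₀ ∧ ews_a τ v ≠ 0), (F v - Gf v))
    have n2 := norm_add_le
      (∑ v ∈ (PB x).filter (fun v => (q : G) ∣ v - v₀ ∧ ews_a τ v = 0), F v)
      (∑ v ∈ (PB x).filter (fun v => (q : G) ∣ v - v₀ ∧ 0 < ews_a τ v), Gf v +
      ∑ v ∈ (PB x).filter (fun v => (q : G) ∣ v - v₀ ∧ ews_a τ v < 0), Gf v)
    have n3 := norm_add_le
      (∑ v ∈ (PB x).filter (fun v => (q : G) ∣ v - v₀ ∧ 0 < ews_a τ v), Gf v)
      (∑ v ∈ (PB x).filter (fun v => (q : G) ∣ v - v₀ ∧ ews_a τ v < 0), Gf v)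
    have e4 : K * x ^ (-(1 / 4) : ℝ) * (A * x) = K * A * x ^ (3 / 4 : ℝ) := by
      rw [← h34]; ring
    rw [e4] at b3
    have e5 : 3 * Real.sqrt x + 2 * (A * Real.sqrt x) + K * A * x ^ (3 / 4 : ℝ) ≤
        D * x ^ (3 / 4 : ℝ) := by
      rw [hD]
      have : 0 ≤ A := by linarith
      nlinarith
    linarith
  rw [Real.dist_eq, sub_zero, abs_of_nonneg (norm_nonneg _), norm_mul, norm_div, norm_one,
    Complex.norm_real, Real.norm_eq_abs, abs_of_pos hx0]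
  calc 1 / x * ‖∑ v ∈ (PB x).filter (fun v => (q : G) ∣ v - v₀), F v‖
      ≤ 1 / x * (ε / 2 * x) := by gcongr
    _ = ε / 2 := by field_simp
    _ < ε := by linarith

end Pool.Agent.T2


namespace Pool.Agent.T2

theorem exp_pairs : type_of% @exp_pairs_pr := @exp_pairs_pr

end Pool.Agent.T2
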