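import Pool.Agent.Lib_helper10.T2.DefsE

namespace Pool.Agent.T2

open Filter Topology

/-- averages -/
noncomputable def ewy_avg (A : ℝ → Finset G) (θ : G → ℝ) (f : C(AddCircle (1 : ℝ), ℂ)) (x : ℝ) : ℂ :=
  (1 / (x : ℂ)) * ∑ v ∈ A x, f ((θ v : ℝ) : AddCircle (1 : ℝ))

/-- the integral over the circle -/
noncomputable def ewy_int (f : C(AddCircle (1 : ℝ), ℂ)) : ℂ :=
  ∫ t in (0 : ℝ)..1, f ((t : ℝ) : AddCircle (1 : ℝ))

theorem ewy_int_cont (f : C(AddCircle (1 : ℝ), ℂ)) :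
    Continuous (fun t : ℝ => f ((t : ℝ) : AddCircle (1 : ℝ))) :=
  f.continuous.comp (AddCircle.continuous_mk' 1)

theorem ewy_int_add (f g : C(AddCircle (1 : ℝ), ℂ)) : ewy_int (f + g) = ewy_int f + ewy_int g := by
  unfold ewy_int
  rw [← intervalIntegral.integral_add ((ewy_int_cont f).intervalIntegrable _ _)
    ((ewy_int_cont g).intervalIntegrable _ _)]
  rfl

theorem ewy_int_smul (a : ℂ) (f : C(AddCircle (1 : ℝ), ℂ)) : ewy_int (a • f) = a * ewy_int f := by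
  unfold ewy_int
  rw [← intervalIntegral.integral_const_mul]
  rfl

theorem ewy_int_norm (f : C(AddCircle (1 : ℝ), ℂ)) : ‖ewy_int f‖ ≤ ‖f‖ := by
  unfold ewy_int
  have := intervalIntegral.norm_integral_le_of_norm_le_const (a := (0 : ℝ)) (b := 1)
    (f := fun t => f ((t : ℝ) : AddCircle (1 : ℝ))) (C := ‖f‖) (fun t _ => f.norm_coe_le_norm _)
  simpa using this

theorem ewy_int_fourier {n : ℤ} (hn : n ≠ 0) : ewy_int (fourier n) = 0 := by
  unfold ewy_int
  have h1 : ∀ t : ℝ, (fourier n : C(AddCircle (1 : ℝ), ℂ)) ((t : ℝ) : AddCircle (1 : ℝ)) =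
      Complex.exp ((2 * Real.pi * Complex.I * n) * t) := by
    intro t
    rw [fourier_coe_apply]
    simp
  simp_rw [h1]
  have h2 : (2 * Real.pi * Complex.I * n : ℂ) ≠ 0 := by
    have : (n : ℂ) ≠ 0 := by exact_mod_cast hn
    have := Complex.two_pi_I_ne_zero
    positivity
  rw [integral_exp_mul_complex h2]
  have h3 : Complex.exp (2 * Real.pi * Complex.I * n * ((1 : ℝ) : ℂ)) = 1 := by
    rw [Complex.exp_eq_one_iff]
    exact ⟨n, by push_cast; ring⟩
  rw [h3]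
  simp

theorem ewy_int_zero : ewy_int (fourier 0) = 1 := by
  unfold ewy_int
  simp

theorem ewy_cont (A : ℝ → Finset G) (θ : G → ℝ) (c : ℝ)
    (hc : Tendsto (fun x : ℝ => ((A x).card : ℝ) / x) atTop (𝓝 c))
    (he : ∀ h : ℤ, h ≠ 0 → Tendsto (fun x : ℝ => (1 / (x : ℂ)) *
      ∑ v ∈ A x, Complex.exp (2 * Real.pi * Complex.I * (h * θ v))) atTop (𝓝 0))
    (f : C(AddCircle (1 : ℝ), ℂ)) :
    Tendsto (ewy_avg A θ f) atTop (𝓝 (c * ewy_int f)) := by
  have hcl : f ∈ (Submodule.span ℂ (Set.range (@fourier (1 : ℝ)))).topologicalClosure := by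
    rw [span_fourier_closure_eq_top]; trivial
  have hspan : ∀ g ∈ Submodule.span ℂ (Set.range (@fourier (1 : ℝ))),
      Tendsto (ewy_avg A θ g) atTop (𝓝 (c * ewy_int g)) := by
    intro g hg
    induction hg using Submodule.span_induction with
    | mem g hg =>
      obtain ⟨n, rfl⟩ := hg
      rcases eq_or_ne n 0 with rfl | hn
      · rw [ewy_int_zero, mul_one]
        have h1 : Tendsto (fun x : ℝ => ((((A x).card : ℝ) / x : ℝ) : ℂ)) atTop (𝓝 (c : ℂ)) :=
          (Complex.continuous_ofReal.tendsto c).comp hc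
        refine h1.congr ?_
        intro x
        unfold ewy_avg
        simp
        ring
      · rw [ewy_int_fourier hn, mul_zero]
        refine (he n hn).congr ?_
        intro x
        unfold ewy_avg
        congr 1
        apply Finset.sum_congr rfl
        intro v _
        rw [fourier_coe_apply]
        congr 1
        simp
        ring
    | zero =>
      have h1 : ewy_int 0 = 0 := by unfold ewy_int; simp
      rw [h1, mul_zero]
      have h2 : ewy_avg A θ 0 = fun _ => 0 := by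
        funext x; unfold ewy_avg; simp
      rw [h2]
      exact tendsto_const_nhds
    | add f g _ _ hf hg =>
      rw [ewy_int_add, mul_add]
      refine (hf.add hg).congr ?_
      intro x
      unfold ewy_avg
      rw [← mul_add, ← Finset.sum_add_distrib]
      rfl
    | smul a f _ hf =>
      rw [ewy_int_smul]
      have h1 := hf.const_mul a
      have h2 : (c : ℂ) * (a * ewy_int f) = a * (c * ewy_int f) := by ring
      rw [h2]
      refine h1.congr ?_
      intro x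
      unfold ewy_avg
      simp only [ContinuousMap.coe_smul, Pi.smul_apply, smul_eq_mul]
      rw [← Finset.mul_sum]
      ring
  rw [Metric.tendsto_atTop]
  intro ε hε
  have hc0 : ∀ᶠ x in atTop, ((A x).card : ℝ) / x < |c| + 1 := by
    apply hc.eventually_lt_const
    have := le_abs_self c
    linarith
  set η := ε / (3 * (|c| + 1)) with hη
  have hc1 : 0 < |c| + 1 := by positivity
  have hη0 : 0 < η := by positivity
  obtain ⟨g, hg, hfg⟩ := Metric.mem_closure_iff.1 hcl η hη0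
  have hg1 := Metric.tendsto_atTop.1 (hspan g hg) (ε / 3) (by positivity)
  obtain ⟨X₁, hX₁⟩ := hg1
  obtain ⟨X₂, hX₂⟩ := eventually_atTop.1 hc0
  refine ⟨max (max X₁ X₂) 1, ?_⟩
  intro x hx
  have hx1 : X₁ ≤ x := ((le_max_left _ _).trans (le_max_left _ _)).trans hx
  have hx2 : X₂ ≤ x := ((le_max_right _ _).trans (le_max_left _ _)).trans hx
  have hx3 : (1 : ℝ) ≤ x := (le_max_right _ _).trans hx
  have hx0 : 0 < x := by linarith
  rw [dist_eq_norm] at hfg ⊢
  have h1 := hX₁ x hx1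
  rw [dist_eq_norm] at h1
  have h2 := hX₂ x hx2
  have h3 : ‖ewy_avg A θ f x - ewy_avg A θ g x‖ ≤ (|c| + 1) * ‖f - g‖ := by
    unfold ewy_avg
    rw [← mul_sub, ← Finset.sum_sub_distrib, norm_mul]
    have h4 : ‖∑ v ∈ A x, (f ((θ v : ℝ) : AddCircle (1 : ℝ)) - g ((θ v : ℝ) : AddCircle (1 : ℝ)))‖ ≤
        (A x).card * ‖f - g‖ := by
      calc _ ≤ ∑ v ∈ A x, ‖f ((θ v : ℝ) : AddCircle (1 : ℝ)) - g ((θ v : ℝ) : AddCircle (1 : ℝ))‖ :=
            norm_sum_le _ _
        _ ≤ ∑ v ∈ A x, ‖f - g‖ := by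
            apply Finset.sum_le_sum
            intro v _
            exact (f - g).norm_coe_le_norm _
        _ = _ := by rw [Finset.sum_const, nsmul_eq_mul]
    have h5 : ‖(1 / (x : ℂ))‖ = 1 / x := by
      rw [norm_div, norm_one, Complex.norm_real, Real.norm_of_nonneg hx0.le]
    rw [h5]
    calc _ ≤ 1 / x * ((A x).card * ‖f - g‖) := by gcongr
      _ = (A x).card / x * ‖f - g‖ := by ring
      _ ≤ _ := by gcongr
  have h6 : ‖(c : ℂ) * ewy_int g - c * ewy_int f‖ ≤ |c| * ‖f - g‖ := by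
    rw [← mul_sub, norm_mul, Complex.norm_real, Real.norm_eq_abs]
    have h7 : ewy_int g - ewy_int f = -(ewy_int (f - g)) := by
      have := ewy_int_add (f - g) g
      rw [sub_add_cancel] at this
      rw [this]; ring
    rw [h7, norm_neg]
    have := ewy_int_norm (f - g)
    gcongr
  have h8 : (|c| + 1) * ‖f - g‖ < ε / 3 := by
    calc (|c| + 1) * ‖f - g‖ < (|c| + 1) * η := by gcongr
      _ = ε / 3 := by rw [hη]; field_simp
  have h9 : |c| * ‖f - g‖ < ε / 3 := by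
    have := norm_nonneg (f - g)
    nlinarith
  have h10 : ewy_avg A θ f x - c * ewy_int f = (ewy_avg A θ f x - ewy_avg A θ g x) +
      (ewy_avg A θ g x - c * ewy_int g) + ((c : ℂ) * ewy_int g - c * ewy_int f) := by ring
  rw [h10]
  calc _ ≤ ‖ewy_avg A θ f x - ewy_avg A θ g x‖ + ‖ewy_avg A θ g x - c * ewy_int g‖ +
        ‖(c : ℂ) * ewy_int g - c * ewy_int f‖ := norm_add₃_le
    _ < ε := by linarith

/-- polynomials on the circle -/
theorem ewy_poly (A : ℝ → Finset G) (θ : G → ℝ) (c : ℝ)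
    (hc : Tendsto (fun x : ℝ => ((A x).card : ℝ) / x) atTop (𝓝 c))
    (he : ∀ h : ℤ, h ≠ 0 → Tendsto (fun x : ℝ => (1 / (x : ℂ)) *
      ∑ v ∈ A x, Complex.exp (2 * Real.pi * Complex.I * (h * θ v))) atTop (𝓝 0))
    (g : ℝ → ℝ) (hg : Continuous g) (h01 : g 0 = g 1) :
    Tendsto (fun x : ℝ => (∑ v ∈ A x, g (Int.fract (θ v))) / x) atTop
      (𝓝 (c * ∫ t in (0 : ℝ)..1, g t)) := by
  set F : C(AddCircle (1 : ℝ), ℂ) := ⟨AddCircle.liftIco 1 0 (fun t => ((g t : ℝ) : ℂ)),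
    AddCircle.liftIco_zero_continuous (by simp [h01]) (by fun_prop)⟩ with hF
  have hFv : ∀ t : ℝ, F ((t : ℝ) : AddCircle (1 : ℝ)) = ((g (Int.fract t) : ℝ) : ℂ) := by
    intro t
    have h1 : ((t : ℝ) : AddCircle (1 : ℝ)) = ((Int.fract t : ℝ) : AddCircle (1 : ℝ)) := by
      rw [← sub_eq_zero, ← AddCircle.coe_sub, AddCircle.coe_eq_zero_iff]
      exact ⟨⌊t⌋, by rw [Int.self_sub_fract]; simp⟩
    rw [h1]
    have h2 := AddCircle.liftIco_zero_coe_apply (p := (1 : ℝ)) (f := fun t : ℝ => ((g t : ℝ) : ℂ))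
      (x := Int.fract t) ⟨Int.fract_nonneg t, Int.fract_lt_one t⟩
    exact h2
  have h1 := ewy_cont A θ c hc he F
  have h2 : ewy_int F = ((∫ t in (0 : ℝ)..1, g t : ℝ) : ℂ) := by
    unfold ewy_int
    rw [← intervalIntegral.integral_ofReal]
    apply intervalIntegral.integral_congr
    intro t ht
    rw [Set.uIcc_of_le zero_le_one] at ht
    simp only [hFv]
    rcases ht.2.lt_or_eq with h | h
    · rw [Int.fract_eq_self.2 ⟨ht.1, h⟩]
    · rw [h]; simp [h01]
  rw [h2] at h1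
  have h3 := (Complex.continuous_re.tendsto _).comp h1
  have h4 : ((c : ℂ) * ((∫ t in (0 : ℝ)..1, g t : ℝ) : ℂ)).re = c * ∫ t in (0 : ℝ)..1, g t := by
    rw [← Complex.ofReal_mul, Complex.ofReal_re]
  rw [h4] at h3
  refine h3.congr ?_
  intro x
  unfold ewy_avg
  simp only [Function.comp_apply, hFv]
  rw [← Complex.ofReal_sum, ← Complex.ofReal_one, ← Complex.ofReal_div, ← Complex.ofReal_mul,
    Complex.ofReal_re]
  ring

theorem ewy_fract (A : ℝ → Finset G) (θ : G → ℝ) (c : ℝ)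
    (hc : Tendsto (fun x : ℝ => ((A x).card : ℝ) / x) atTop (𝓝 c))
    (he : ∀ h : ℤ, h ≠ 0 → Tendsto (fun x : ℝ => (1 / (x : ℂ)) *
      ∑ v ∈ A x, Complex.exp (2 * Real.pi * Complex.I * (h * θ v))) atTop (𝓝 0)) :
    Tendsto (fun x : ℝ => (∑ v ∈ A x, Int.fract (θ v)) / x) atTop (𝓝 (c / 2)) := by
  have hc0 : 0 ≤ c := by
    apply ge_of_tendsto hc
    filter_upwards [eventually_gt_atTop 0] with x hx
    positivity
  rw [Metric.tendsto_atTop]
  intro ε hε
  obtain ⟨n, hn⟩ := exists_nat_gt (2 * c / ε)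
  set N := n + 1 with hN
  have hNe : c / (N + 1 : ℝ) < ε / 2 := by
    rw [div_lt_iff₀ (by positivity)]
    rw [div_lt_iff₀ hε] at hn
    rw [hN]
    push_cast
    nlinarith
  have hp := ewy_poly A θ c hc he (fun t => t + (1 - t) ^ N) (by fun_prop) (by simp [hN])
  have hm := ewy_poly A θ c hc he (fun t => t - t ^ N) (by fun_prop) (by simp [hN])
  have hIp : ∫ t in (0 : ℝ)..1, (t + (1 - t) ^ N) = 1 / 2 + 1 / (N + 1 : ℝ) := by
    rw [intervalIntegral.integral_add ((by fun_prop : Continuous fun t : ℝ => t).intervalIntegrable _ _)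
      ((by fun_prop : Continuous fun t : ℝ => (1 - t) ^ N).intervalIntegrable _ _)]
    rw [intervalIntegral.integral_comp_sub_left (fun t : ℝ => t ^ N) (1 : ℝ)]
    simp
  have hIm : ∫ t in (0 : ℝ)..1, (t - t ^ N) = 1 / 2 - 1 / (N + 1 : ℝ) := by
    rw [intervalIntegral.integral_sub ((by fun_prop : Continuous fun t : ℝ => t).intervalIntegrable _ _)
      ((by fun_prop : Continuous fun t : ℝ => t ^ N).intervalIntegrable _ _)]
    simp
  rw [hIp] at hp
  rw [hIm] at hm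
  obtain ⟨X₁, hX₁⟩ := Metric.tendsto_atTop.1 hp (ε / 2) (by positivity)
  obtain ⟨X₂, hX₂⟩ := Metric.tendsto_atTop.1 hm (ε / 2) (by positivity)
  refine ⟨max (max X₁ X₂) 1, ?_⟩
  intro x hx
  have hx1 : X₁ ≤ x := ((le_max_left _ _).trans (le_max_left _ _)).trans hx
  have hx2 : X₂ ≤ x := ((le_max_right _ _).trans (le_max_left _ _)).trans hx
  have hx3 : (1 : ℝ) ≤ x := (le_max_right _ _).trans hx
  have hx0 : 0 < x := by linarith
  have h1 := hX₁ x hx1
  have h2 := hX₂ x hx2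
  rw [Real.dist_eq, abs_lt] at h1 h2 ⊢
  have h3 : (∑ v ∈ A x, Int.fract (θ v)) / x ≤
      (∑ v ∈ A x, (Int.fract (θ v) + (1 - Int.fract (θ v)) ^ N)) / x := by
    gcongr with v _
    have := (Int.fract_lt_one (θ v)).le
    have : 0 ≤ (1 - Int.fract (θ v)) ^ N := pow_nonneg (by linarith) _
    linarith
  have h4 : (∑ v ∈ A x, (Int.fract (θ v) - Int.fract (θ v) ^ N)) / x ≤
      (∑ v ∈ A x, Int.fract (θ v)) / x := by
    gcongr with v _
    have : 0 ≤ Int.fract (θ v) ^ N := pow_nonneg (Int.fract_nonneg _) _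
    linarith
  have h5 : c * (1 / 2 + 1 / (N + 1 : ℝ)) = c / 2 + c / (N + 1 : ℝ) := by ring
  have h6 : c * (1 / 2 - 1 / (N + 1 : ℝ)) = c / 2 - c / (N + 1 : ℝ) := by ring
  rw [h5] at h1
  rw [h6] at h2
  constructor <;> linarith [h1.1, h1.2, h2.1, h2.2]

theorem ewy_shift (A : ℝ → Finset G) (θ : G → ℝ)
    (he : ∀ h : ℤ, h ≠ 0 → Tendsto (fun x : ℝ => (1 / (x : ℂ)) *
      ∑ v ∈ A x, Complex.exp (2 * Real.pi * Complex.I * (h * θ v))) atTop (𝓝 0)) (ξ : ℝ) :
    ∀ h : ℤ, h ≠ 0 → Tendsto (fun x : ℝ => (1 / (x : ℂ)) *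
      ∑ v ∈ A x, Complex.exp (2 * Real.pi * Complex.I * (h * ((θ v - ξ : ℝ) : ℂ)))) atTop (𝓝 0) := by
  intro h hh
  have h1 := (he h hh).mul_const (Complex.exp (2 * Real.pi * Complex.I * (h * (-ξ))))
  rw [zero_mul] at h1
  refine h1.congr ?_
  intro x
  rw [mul_assoc, Finset.sum_mul]
  congr 1
  apply Finset.sum_congr rfl
  intro v _
  rw [← Complex.exp_add]
  congr 1
  push_cast
  ring

theorem weyl_count_pr (A : ℝ → Finset G) (θ : G → ℝ) (c : ℝ)
    (hc : Tendsto (fun x : ℝ => ((A x).card : ℝ) / x) atTop (𝓝 c))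
    (he : ∀ h : ℤ, h ≠ 0 → Tendsto (fun x : ℝ => (1 / (x : ℂ)) *
      ∑ v ∈ A x, Complex.exp (2 * Real.pi * Complex.I * (h * θ v))) atTop (𝓝 0))
    (ξ₁ ξ₂ : ℝ) (hξ : ξ₁ ≤ ξ₂) :
    Tendsto (fun x : ℝ => (∑ v ∈ A x, ((⌈ξ₂ - θ v⌉ - ⌈ξ₁ - θ v⌉ : ℤ) : ℝ)) / x) atTop
      (𝓝 (c * (ξ₂ - ξ₁))) := by
  have h1 := ewy_fract A (fun v => θ v - ξ₁) c hc (ewy_shift A θ he ξ₁)
  have h2 := ewy_fract A (fun v => θ v - ξ₂) c hc (ewy_shift A θ he ξ₂)
  have h3 := (hc.mul_const (ξ₂ - ξ₁)).add (h2.sub h1)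
  have h4 : c * (ξ₂ - ξ₁) + (c / 2 - c / 2) = c * (ξ₂ - ξ₁) := by ring
  rw [h4] at h3
  refine h3.congr ?_
  intro x
  have h5 : ∀ v : G, (((⌈ξ₂ - θ v⌉ - ⌈ξ₁ - θ v⌉ : ℤ) : ℝ)) =
      (ξ₂ - ξ₁) + (Int.fract (θ v - ξ₂) - Int.fract (θ v - ξ₁)) := by
    intro v
    have h6 : ∀ ξ : ℝ, ((⌈ξ - θ v⌉ : ℤ) : ℝ) = (ξ - θ v) + Int.fract (θ v - ξ) := by
      intro ξ
      have h7 : ⌈ξ - θ v⌉ = -⌊θ v - ξ⌋ := by
        rw [← Int.ceil_neg]
        congr 1; ring
      rw [h7, Int.fract]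
      push_cast
      ring
    push_cast
    rw [h6, h6]
    ring
  simp_rw [h5]
  rw [Finset.sum_add_distrib, Finset.sum_const, nsmul_eq_mul, Finset.sum_sub_distrib]
  ring

end Pool.Agent.T2


namespace Pool.Agent.T2

theorem weyl_count : type_of% @weyl_count_pr := @weyl_count_pr

end Pool.Agent.T2
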