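import Pool.Agent.Lib_helper10.T2.DefsE
import Pool.Agent.Lib_helper10.T2F.BAS
import Pool.Agent.Lib_helper10.T2F.ECP
import Pool.Agent.Lib_helper10.T2F.EWS
import Pool.Agent.Lib_helper10.T2F.EWY

/-! T2, block EQU: equidistribution of the pairs of determinant one -/

namespace Pool.Agent.T2

open Filter Topology

theorem equ_dvd_nat (q : ℕ) (z : G) : (q : G) ∣ z ↔ (q : ℤ) ∣ z.re ∧ (q : ℤ) ∣ z.im := by
  have h : ((q : ℤ) : G) = (q : G) := by push_cast; rfl
  rw [← h]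
  exact Zsqrtd.intCast_dvd _ _

theorem equ_dvd_int (q : ℤ) (z : G) : (q : G) ∣ z ↔ q ∣ z.re ∧ q ∣ z.im :=
  Zsqrtd.intCast_dvd _ _

theorem equ_mem_box {n : ℕ} {z : G} : z ∈ box n ↔ (|z.re| ≤ n ∧ |z.im| ≤ n) := by
  unfold box
  simp only [Finset.mem_map, Finset.mem_product, Finset.mem_Icc, Prod.exists]
  constructor
  · rintro ⟨a, b, ⟨⟨h1, h2⟩, h3, h4⟩, rfl⟩
    exact ⟨abs_le.mpr ⟨h1, h2⟩, abs_le.mpr ⟨h3, h4⟩⟩
  · rintro ⟨h1, h2⟩
    rw [abs_le] at h1 h2
    exact ⟨z.re, z.im, ⟨⟨h1.1, h1.2⟩, h2.1, h2.2⟩, rfl⟩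

theorem equ_nn_box {z : G} {x : ℝ} (h : (nn z : ℝ) ≤ x) : z ∈ box ⌊x⌋₊ := by
  have h1 : nn z ≤ ⌊x⌋₊ := Nat.le_floor h
  rw [equ_mem_box]
  have h2 := nn_cast z
  have h3 : (nn z : ℤ) ≤ (⌊x⌋₊ : ℤ) := by exact_mod_cast h1
  constructor
  · have h4 : |z.re| ≤ z.re ^ 2 := by
      rw [← sq_abs]
      rcases eq_or_ne z.re 0 with h0 | h0
      · simp [h0]
      · have : 1 ≤ |z.re| := Int.one_le_abs h0
        nlinarith
    nlinarith [sq_nonneg z.im]
  · have h4 : |z.im| ≤ z.im ^ 2 := by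
      rw [← sq_abs]
      rcases eq_or_ne z.im 0 with h0 | h0
      · simp [h0]
      · have : 1 ≤ |z.im| := Int.one_le_abs h0
        nlinarith
    nlinarith [sq_nonneg z.re]

theorem equ_fin_aux (D : ℤ) (a b ξ₁ ξ₂ Y : ℝ) (ha : 0 ≤ a) (hY : 0 ≤ Y) :
    {p : G × G | det p.1 p.2 = D ∧ a * Y < (nn p.1 : ℝ) ∧ (nn p.1 : ℝ) ≤ b * Y ∧
      ξ₁ * (nn p.1 : ℝ) ≤ (ip p.1 p.2 : ℝ) ∧ (ip p.1 p.2 : ℝ) < ξ₂ * (nn p.1 : ℝ)}.Finite := by
  set M : ℝ := max |ξ₁| |ξ₂| with hM
  have hM0 : 0 ≤ M := le_max_of_le_left (abs_nonneg _)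
  apply Set.Finite.subset
    (Finset.finite_toSet ((box ⌊b * Y⌋₊) ×ˢ (box ⌊(M * (b * Y)) ^ 2 + (D : ℝ) ^ 2⌋₊)))
  rintro ⟨v, w⟩ ⟨h1, h2, h3, h4, h5⟩
  simp only at h1 h2 h3 h4 h5
  rw [Finset.mem_coe, Finset.mem_product]
  refine ⟨equ_nn_box h3, equ_nn_box ?_⟩
  have hv0 : (0 : ℝ) < nn v := lt_of_le_of_lt (mul_nonneg ha hY) h2
  have hv1 : (1 : ℝ) ≤ nn v := by
    have : 0 < nn v := by exact_mod_cast hv0
    exact_mod_cast this
  have hip : |(ip v w : ℝ)| ≤ M * (b * Y) := by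
    have e1 : |(ip v w : ℝ)| ≤ M * nn v := by
      rw [abs_le]
      constructor
      · have : -M ≤ ξ₁ := by
          have := neg_abs_le ξ₁
          have h' : |ξ₁| ≤ M := le_max_left _ _
          linarith
        nlinarith
      · have : ξ₂ ≤ M := le_trans (le_abs_self _) (le_max_right _ _)
        nlinarith
    exact e1.trans (mul_le_mul_of_nonneg_left h3 hM0)
  have hs := ip_sq_add v w
  rw [h1] at hs
  have hs' : (nn v : ℝ) * nn w = (ip v w : ℝ) ^ 2 + (D : ℝ) ^ 2 := by exact_mod_cast hs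
  have e2 : (ip v w : ℝ) ^ 2 ≤ (M * (b * Y)) ^ 2 := by
    rw [← sq_abs]
    exact pow_le_pow_left₀ (abs_nonneg _) hip 2
  have e3 : (nn w : ℝ) ≤ nn v * nn w := by
    have : (0 : ℝ) ≤ nn w := Nat.cast_nonneg _
    nlinarith
  linarith

theorem reg_finite_pr (q : ℕ) (v₀ w₀ : G) (a b ξ₁ ξ₂ Y : ℝ) (ha : 0 ≤ a) (hY : 0 ≤ Y) :
    (Reg q v₀ w₀ a b ξ₁ ξ₂ Y).Finite := by
  apply Set.Finite.subset (equ_fin_aux 1 a b ξ₁ ξ₂ Y ha hY)
  rintro p ⟨h1, -, -, h2⟩
  exact ⟨h1, h2⟩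

/-- the completion of a primitive vector to a basis, in a residue class -/
theorem equ_bezout (q : ℕ) (v₀ w₀ : G) (h0 : (q : ℤ) ∣ det v₀ w₀ - 1) (v : G) (hv : Prm v)
    (hq : (q : G) ∣ v - v₀) : ∃ w : G, det v w = 1 ∧ (q : G) ∣ w - w₀ := by
  unfold Prm at hv
  have hb := Int.gcd_eq_gcd_ab v.re v.im
  rw [hv] at hb
  set s := Int.gcdA v.re v.im with hs
  set t := Int.gcdB v.re v.im with ht
  push_cast at hb
  rw [equ_dvd_nat] at hq
  obtain ⟨⟨k1, hk1⟩, k2, hk2⟩ := hq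
  obtain ⟨m, hm⟩ := h0
  simp only [Zsqrtd.re_sub, Zsqrtd.im_sub] at hk1 hk2
  unfold det at hm
  -- W0 = (-t, s), u = w0 - W0
  set α : ℤ := (w₀.re + t) * s + (w₀.im - s) * t with hα
  refine ⟨⟨-t + α * v.re, s + α * v.im⟩, ?_, ?_⟩
  · unfold det
    simp only
    linear_combination -hb
  · rw [equ_dvd_nat]
    simp only [Zsqrtd.re_sub, Zsqrtd.im_sub]
    have hβ : v.re * (w₀.im - s) - v.im * (w₀.re + t) =
        q * (m + k1 * w₀.im - k2 * w₀.re) := by
      have e1 : v.re = v₀.re + q * k1 := by linarith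
      have e2 : v.im = v₀.im + q * k2 := by linarith
      have e3 : v.re * s + v.im * t = 1 := by linarith
      have e4 : v.re * w₀.im - v.im * w₀.re = 1 + q * (m + k1 * w₀.im - k2 * w₀.re) := by
        rw [e1, e2]
        linear_combination hm
      linear_combination e4 - e3
    constructor
    · refine ⟨(m + k1 * w₀.im - k2 * w₀.re) * t, ?_⟩
      rw [hα]
      have e3 : v.re * s + v.im * t = 1 := by linarith
      linear_combination (t) * hβ + (w₀.re + t) * e3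
    · refine ⟨-((m + k1 * w₀.im - k2 * w₀.re) * s), ?_⟩
      rw [hα]
      have e3 : v.re * s + v.im * t = 1 := by linarith
      linear_combination (-s) * hβ + (w₀.im - s) * e3

/-- the vectors of determinant one with `v` -/
theorem equ_fiber (q : ℕ) (hq : 1 ≤ q) (w₀ v W w : G) (hW : det v W = 1)
    (hWq : (q : G) ∣ W - w₀) :
    (det v w = 1 ∧ (q : G) ∣ w - w₀) ↔ ∃ j : ℤ, w = W + (q : G) * (j : G) * v := by
  constructor
  · rintro ⟨h1, h2⟩
    have h3 : (q : G) ∣ w - W := by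
      have := dvd_sub h2 hWq
      simpa using this
    rw [equ_dvd_nat] at h3
    obtain ⟨⟨k1, hk1⟩, k2, hk2⟩ := h3
    simp only [Zsqrtd.re_sub, Zsqrtd.im_sub] at hk1 hk2
    unfold det at h1 hW
    refine ⟨k1 * W.im - k2 * W.re, ?_⟩
    have hq' : (q : ℤ) ≠ 0 := by positivity
    have e0 : v.re * k2 - v.im * k1 = 0 := by
      have : (q : ℤ) * (v.re * k2 - v.im * k1) = 0 := by
        linear_combination h1 - hW - v.re * hk2 + v.im * hk1
      rcases mul_eq_zero.mp this with h | h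
      · exact absurd h hq'
      · exact h
    apply Zsqrtd.ext
    · simp only [Zsqrtd.re_add, Zsqrtd.re_mul, Zsqrtd.im_mul, Zsqrtd.re_natCast,
        Zsqrtd.im_natCast, Zsqrtd.re_intCast, Zsqrtd.im_intCast]
      linear_combination hk1 - q * k1 * hW + q * W.re * e0
    · simp only [Zsqrtd.im_add, Zsqrtd.re_mul, Zsqrtd.im_mul, Zsqrtd.re_natCast,
        Zsqrtd.im_natCast, Zsqrtd.re_intCast, Zsqrtd.im_intCast]
      linear_combination hk2 - q * k2 * hW + q * W.im * e0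
  · rintro ⟨j, rfl⟩
    constructor
    · unfold det at *
      simp only [Zsqrtd.re_add, Zsqrtd.im_add, Zsqrtd.re_mul, Zsqrtd.im_mul, Zsqrtd.re_natCast,
        Zsqrtd.im_natCast, Zsqrtd.re_intCast, Zsqrtd.im_intCast]
      linear_combination hW
    · have : W + (q : G) * (j : G) * v - w₀ = (W - w₀) + (q : G) * ((j : G) * v) := by ring
      rw [this]
      exact dvd_add hWq (dvd_mul_right _ _)

theorem equ_ip (q : ℕ) (j : ℤ) (v W : G) :
    ip v (W + (q : G) * (j : G) * v) = ip v W + q * j * nn v := by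
  have h := nn_cast v
  unfold ip
  simp only [Zsqrtd.re_add, Zsqrtd.im_add, Zsqrtd.re_mul, Zsqrtd.im_mul, Zsqrtd.re_natCast,
    Zsqrtd.im_natCast, Zsqrtd.re_intCast, Zsqrtd.im_intCast]
  rw [h]
  ring

open Classical in
theorem equ_count (q : ℕ) (hq : 1 ≤ q) (v₀ w₀ : G) (W : G → G)
    (hW : ∀ v, Prm v → (q : G) ∣ v - v₀ → det v (W v) = 1 ∧ (q : G) ∣ W v - w₀)
    (a b ξ₁ ξ₂ Y : ℝ) (hξ : ξ₁ ≤ ξ₂) :
    ((Reg q v₀ w₀ a b ξ₁ ξ₂ Y).ncard : ℝ) =
      ∑ v ∈ (PB (b * Y)).filter (fun v => (q : G) ∣ v - v₀) \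
        (PB (a * Y)).filter (fun v => (q : G) ∣ v - v₀),
        ((⌈ξ₂ / q - (ip v (W v) : ℝ) / ((q * nn v : ℕ) : ℝ)⌉ -
          ⌈ξ₁ / q - (ip v (W v) : ℝ) / ((q * nn v : ℕ) : ℝ)⌉ : ℤ) : ℝ) := by
  set S := (PB (b * Y)).filter (fun v => (q : G) ∣ v - v₀) \
        (PB (a * Y)).filter (fun v => (q : G) ∣ v - v₀) with hS
  set L : G → ℤ := fun v => ⌈ξ₁ / q - (ip v (W v) : ℝ) / ((q * nn v : ℕ) : ℝ)⌉ with hL
  set U : G → ℤ := fun v => ⌈ξ₂ / q - (ip v (W v) : ℝ) / ((q * nn v : ℕ) : ℝ)⌉ with hU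
  have hq0 : (0 : ℝ) < q := by exact_mod_cast hq
  have hLU : ∀ v, L v ≤ U v := by
    intro v
    apply Int.ceil_le_ceil
    have : ξ₁ / q ≤ ξ₂ / q := div_le_div_of_nonneg_right hξ hq0.le
    linarith
  have hSm : ∀ v, v ∈ S ↔ (Prm v ∧ (q : G) ∣ v - v₀ ∧ a * Y < nn v ∧ (nn v : ℝ) ≤ b * Y) := by
    intro v
    rw [hS]
    simp only [Finset.mem_sdiff, Finset.mem_filter, mem_PB, not_and]
    constructor
    · rintro ⟨⟨⟨h1, h2⟩, h3⟩, h4⟩
      refine ⟨h1, h3, ?_, h2⟩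
      by_contra h5
      exact h4 ⟨h1, not_lt.mp h5⟩ h3
    · rintro ⟨h1, h2, h3, h4⟩
      refine ⟨⟨⟨h1, h4⟩, h2⟩, ?_⟩
      rintro ⟨-, h5⟩
      exact absurd h3 (not_lt.mpr h5)
  have hreg : Reg q v₀ w₀ a b ξ₁ ξ₂ Y =
      ((S.sigma (fun v => Finset.Ico (L v) (U v))).image
        (fun p : (_ : G) × ℤ => (p.1, W p.1 + (q : G) * (p.2 : G) * p.1)) : Finset (G × G)) := by
    ext ⟨v, w⟩
    simp only [Finset.coe_image, Set.mem_image, Finset.mem_coe, Finset.mem_sigma, Prod.mk.injEq,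
      Finset.mem_Ico]
    constructor
    · rintro ⟨h1, h2, h3, h4, h5, h6, h7⟩
      simp only at h1 h2 h3 h4 h5 h6 h7
      have hprm : Prm v := by
        unfold Prm
        rw [← Int.isCoprime_iff_gcd_eq_one]
        refine ⟨w.im, -w.re, ?_⟩
        unfold det at h1
        linarith
      obtain ⟨hW1, hW2⟩ := hW v hprm h2
      obtain ⟨j, hj⟩ := (equ_fiber q hq w₀ v (W v) w hW1 hW2).mp ⟨h1, h3⟩
      have hnn : (0 : ℝ) < nn v := by
        have := nn_pos.mpr (prm_ne hprm)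
        exact_mod_cast this
      refine ⟨⟨v, j⟩, ⟨(hSm v).mpr ⟨hprm, h2, h4, h5⟩, ?_, ?_⟩, rfl, hj.symm⟩
      · rw [hL]
        simp only
        rw [Int.ceil_le]
        rw [hj, equ_ip] at h6
        push_cast at h6 ⊢
        have h8 : ξ₁ ≤ (ip v (W v) : ℝ) / nn v + q * j := by
          rw [← sub_nonneg]
          have : (ip v (W v) : ℝ) / nn v + q * j - ξ₁ =
            ((ip v (W v) : ℝ) + q * j * nn v - ξ₁ * nn v) / nn v := by
            field_simp
          rw [this]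
          apply div_nonneg _ hnn.le
          linarith
        have h9 : ξ₁ / q ≤ ((ip v (W v) : ℝ) / nn v + q * j) / q :=
          div_le_div_of_nonneg_right h8 hq0.le
        have h10 : ((ip v (W v) : ℝ) / nn v + q * j) / q = (ip v (W v) : ℝ) / (q * nn v) + j := by
          field_simp
        rw [h10] at h9
        linarith
      · rw [hU]
        simp only
        rw [Int.lt_ceil]
        rw [hj, equ_ip] at h7
        push_cast at h7 ⊢
        have h8 : (ip v (W v) : ℝ) / nn v + q * j < ξ₂ := by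
          rw [← sub_pos]
          have : ξ₂ - ((ip v (W v) : ℝ) / nn v + q * j) =
            (ξ₂ * nn v - ((ip v (W v) : ℝ) + q * j * nn v)) / nn v := by
            field_simp
          rw [this]
          apply div_pos _ hnn
          linarith
        have h9 : ((ip v (W v) : ℝ) / nn v + q * j) / q < ξ₂ / q :=
          div_lt_div_of_pos_right h8 hq0
        have h10 : ((ip v (W v) : ℝ) / nn v + q * j) / q = (ip v (W v) : ℝ) / (q * nn v) + j := by
          field_simp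
        rw [h10] at h9
        linarith
    · rintro ⟨⟨v', j⟩, ⟨h1, h2, h3⟩, h4, h5⟩
      simp only at h1 h2 h3 h4 h5
      subst h4
      subst h5
      obtain ⟨hprm, hv0, hav, hbv⟩ := (hSm v').mp h1
      obtain ⟨hW1, hW2⟩ := hW v' hprm hv0
      obtain ⟨hd, hdw⟩ := (equ_fiber q hq w₀ v' (W v') _ hW1 hW2).mpr ⟨j, rfl⟩
      have hnn : (0 : ℝ) < nn v' := by
        have := nn_pos.mpr (prm_ne hprm)
        exact_mod_cast this
      refine ⟨hd, hv0, hdw, hav, hbv, ?_, ?_⟩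
      · simp only
        rw [equ_ip]
        rw [hL] at h2
        simp only at h2
        rw [Int.ceil_le] at h2
        push_cast at h2 ⊢
        have h8 : ξ₁ / q * (q * nn v') ≤ ((ip v' (W v') : ℝ) / (q * nn v') + j) * (q * nn v') := by
          apply mul_le_mul_of_nonneg_right _ (by positivity)
          linarith
        have h9 : ξ₁ / q * (q * nn v') = ξ₁ * nn v' := by field_simp
        have h10 : ((ip v' (W v') : ℝ) / (q * nn v') + j) * (q * nn v') =
            (ip v' (W v') : ℝ) + q * j * nn v' := by field_simp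
        rw [h9, h10] at h8
        exact h8
      · simp only
        rw [equ_ip]
        rw [hU] at h3
        simp only at h3
        rw [Int.lt_ceil] at h3
        push_cast at h3 ⊢
        have h8 : ((ip v' (W v') : ℝ) / (q * nn v') + j) * (q * nn v') < ξ₂ / q * (q * nn v') := by
          apply mul_lt_mul_of_pos_right _ (by positivity)
          linarith
        have h9 : ξ₂ / q * (q * nn v') = ξ₂ * nn v' := by field_simp
        have h10 : ((ip v' (W v') : ℝ) / (q * nn v') + j) * (q * nn v') =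
            (ip v' (W v') : ℝ) + q * j * nn v' := by field_simp
        rw [h9, h10] at h8
        exact h8
  rw [hreg, Set.ncard_coe_finset, Finset.card_image_of_injOn, Finset.card_sigma]
  · rw [Nat.cast_sum]
    apply Finset.sum_congr rfl
    intro v hv
    rw [Int.card_Ico]
    have h1 : 0 ≤ U v - L v := sub_nonneg.mpr (hLU v)
    have h3 : ((U v - L v).toNat : ℝ) = (((U v - L v).toNat : ℤ) : ℝ) :=
      (Int.cast_natCast _).symm
    rw [h3, Int.toNat_of_nonneg h1]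
  · rintro ⟨v, j⟩ hv ⟨v', j'⟩ hv' h
    simp only [Prod.mk.injEq] at h
    obtain ⟨h1, h2⟩ := h
    subst h1
    rw [Finset.mem_coe, Finset.mem_sigma] at hv
    have hprm := ((hSm v).mp hv.1).1
    have h3 : (q : G) * (j : G) * v = (q : G) * (j' : G) * v := by
      have := congrArg (fun z => z - W v) h2
      simpa using this
    have h4 : (q : G) * (j : G) = (q : G) * (j' : G) := mul_right_cancel₀ (prm_ne hprm) h3
    have hq' : (q : G) ≠ 0 := by
      have : q ≠ 0 := by omega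
      exact_mod_cast this
    have h5 : (j : G) = (j' : G) := mul_left_cancel₀ hq' h4
    have h6 : j = j' := by exact_mod_cast h5
    rw [h6]

open Classical in
theorem equi_pr (q : ℕ) (hq : 1 ≤ q) : ∃ c : ℝ, 0 < c ∧ ∀ v₀ w₀ : G, (q : ℤ) ∣ det v₀ w₀ - 1 →
    ∀ a b ξ₁ ξ₂ : ℝ, 0 ≤ a → a ≤ b → ξ₁ ≤ ξ₂ → Tendsto (fun Y : ℝ =>
      ((Reg q v₀ w₀ a b ξ₁ ξ₂ Y).ncard : ℝ) / Y) atTop (𝓝 (c * (b - a) * (ξ₂ - ξ₁))) := by
  obtain ⟨c, hc, hcl⟩ := class_prim q hq
  have hq0 : (0 : ℝ) < q := by exact_mod_cast hq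
  refine ⟨c / q, div_pos hc hq0, ?_⟩
  intro v₀ w₀ h0 a b ξ₁ ξ₂ ha hab hξ
  have hWex : ∀ v, ∃ w : G, Prm v → (q : G) ∣ v - v₀ → det v w = 1 ∧ (q : G) ∣ w - w₀ := by
    intro v
    by_cases h : Prm v ∧ (q : G) ∣ v - v₀
    · obtain ⟨w, hw⟩ := equ_bezout q v₀ w₀ h0 v h.1 h.2
      exact ⟨w, fun _ _ => hw⟩
    · exact ⟨0, fun h1 h2 => absurd ⟨h1, h2⟩ h⟩
  choose W hW using hWex
  set A : ℝ → Finset G := fun x => (PB x).filter (fun v => (q : G) ∣ v - v₀) with hA
  set θ : G → ℝ := fun v => (ip v (W v) : ℝ) / ((q * nn v : ℕ) : ℝ) with hθ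
  set F : ℝ → ℝ := fun x => ∑ v ∈ A x, ((⌈ξ₂ / q - θ v⌉ - ⌈ξ₁ / q - θ v⌉ : ℤ) : ℝ) with hF
  have hlim : Tendsto (fun x : ℝ => F x / x) atTop (𝓝 (c * (ξ₂ / q - ξ₁ / q))) := by
    apply weyl_count A θ c (hcl v₀ w₀ h0) _ (ξ₁ / q) (ξ₂ / q)
      (div_le_div_of_nonneg_right hξ hq0.le)
    intro h hh
    have := exp_pairs q hq v₀ w₀ h0 W hW h hh
    refine this.congr ?_
    intro x
    congr 1
    apply Finset.sum_congr rfl
    intro v _
    congr 2
    rw [hθ]
    push_cast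
    ring
  have hscale : ∀ t : ℝ, 0 ≤ t → Tendsto (fun Y : ℝ => F (t * Y) / Y) atTop
      (𝓝 (t * (c * (ξ₂ / q - ξ₁ / q)))) := by
    intro t ht
    rcases ht.eq_or_lt with h | h
    · subst h
      have hA0 : ∀ Y : ℝ, F (0 * Y) = 0 := by
        intro Y
        rw [hF]
        simp only
        have : A (0 * Y) = ∅ := by
          rw [hA]
          simp only [zero_mul]
          rw [Finset.filter_eq_empty_iff]
          intro v hv
          rw [mem_PB] at hv
          have h1 := nn_pos.mpr (prm_ne hv.1)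
          have h2 : (0 : ℝ) < nn v := by exact_mod_cast h1
          exact absurd hv.2 (not_le.mpr h2)
        rw [this, Finset.sum_empty]
      have e : (fun Y : ℝ => F (0 * Y) / Y) = fun _ => 0 := by
        funext Y
        rw [hA0, zero_div]
      rw [e, zero_mul]
      exact tendsto_const_nhds
    · have h1 : Tendsto (fun Y : ℝ => t * Y) atTop atTop :=
        Tendsto.const_mul_atTop h tendsto_id
      have h2 := (hlim.comp h1).const_mul t
      refine h2.congr ?_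
      intro Y
      simp only [Function.comp_apply]
      have ht' : t ≠ 0 := h.ne'
      rcases eq_or_ne Y 0 with hY | hY
      · subst hY
        simp
      · field_simp
  have hd := (hscale b (ha.trans hab)).sub (hscale a ha)
  have e1 : c / q * (b - a) * (ξ₂ - ξ₁) =
      b * (c * (ξ₂ / q - ξ₁ / q)) - a * (c * (ξ₂ / q - ξ₁ / q)) := by ring
  rw [e1]
  refine hd.congr' ?_
  filter_upwards [eventually_ge_atTop (0 : ℝ)] with Y hY
  rw [equ_count q hq v₀ w₀ W hW a b ξ₁ ξ₂ Y hξ]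
  rw [← sub_div]
  congr 1
  have hsub : A (a * Y) ⊆ A (b * Y) := by
    intro v hv
    rw [hA] at hv ⊢
    simp only [Finset.mem_filter, mem_PB] at hv ⊢
    refine ⟨⟨hv.1.1, hv.1.2.trans ?_⟩, hv.2⟩
    exact mul_le_mul_of_nonneg_right hab hY
  have := Finset.sum_sdiff (f := fun v => ((⌈ξ₂ / q - θ v⌉ - ⌈ξ₁ / q - θ v⌉ : ℤ) : ℝ)) hsub
  rw [hF]
  simp only
  linarith

end Pool.Agent.T2


namespace Pool.Agent.T2

theorem reg_finite : type_of% @reg_finite_pr := @reg_finite_pr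
theorem equi : type_of% @equi_pr := @equi_pr

end Pool.Agent.T2
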