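import Pool.Agent.Lib_helper10.T2.DefsE
import Pool.Agent.Lib_helper10.T2F.BAS
import Pool.Agent.Lib_helper10.T2F.EQU

/-! T2, block EPK: pairs of determinant `D` -/

namespace Pool.Agent.T2

open Filter Topology

theorem epk_dvd_nat (q : ℕ) (z : G) : (q : G) ∣ z ↔ (q : ℤ) ∣ z.re ∧ (q : ℤ) ∣ z.im := by
  have h : ((q : ℤ) : G) = (q : G) := by push_cast; rfl
  rw [← h]
  exact Zsqrtd.intCast_dvd _ _

theorem epk_mem_box {n : ℕ} {z : G} : z ∈ box n ↔ (|z.re| ≤ n ∧ |z.im| ≤ n) := by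
  unfold box
  simp only [Finset.mem_map, Finset.mem_product, Finset.mem_Icc, Prod.exists]
  constructor
  · rintro ⟨a, b, ⟨⟨h1, h2⟩, h3, h4⟩, rfl⟩
    exact ⟨abs_le.mpr ⟨h1, h2⟩, abs_le.mpr ⟨h3, h4⟩⟩
  · rintro ⟨h1, h2⟩
    rw [abs_le] at h1 h2
    exact ⟨z.re, z.im, ⟨⟨h1.1, h1.2⟩, h2.1, h2.2⟩, rfl⟩

theorem epk_nn_box {z : G} {x : ℝ} (h : (nn z : ℝ) ≤ x) : z ∈ box ⌊x⌋₊ := by
  have h1 : nn z ≤ ⌊x⌋₊ := Nat.le_floor h
  rw [epk_mem_box]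
  have h2 := nn_cast z
  have h3 : (nn z : ℤ) ≤ (⌊x⌋₊ : ℤ) := by exact_mod_cast h1
  constructor
  · have h4 : |z.re| ≤ z.re ^ 2 := by
      rw [← sq_abs]
      rcases eq_or_ne z.re 0 with h0 | h0
      · simp [h0]
      · have : 1 ≤ |z.re| := Int.one_le_abs h0
        nlinarith
    nlinarith [sq_nonneg z.im]
  · have h4 : |z.im| ≤ z.im ^ 2 := by
      rw [← sq_abs]
      rcases eq_or_ne z.im 0 with h0 | h0
      · simp [h0]
      · have : 1 ≤ |z.im| := Int.one_le_abs h0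
        nlinarith
    nlinarith [sq_nonneg z.re]

theorem epk_fin_aux (D : ℤ) (a b ξ₁ ξ₂ Y : ℝ) (ha : 0 ≤ a) (hY : 0 ≤ Y) :
    {p : G × G | det p.1 p.2 = D ∧ a * Y < (nn p.1 : ℝ) ∧ (nn p.1 : ℝ) ≤ b * Y ∧
      ξ₁ * (nn p.1 : ℝ) ≤ (ip p.1 p.2 : ℝ) ∧ (ip p.1 p.2 : ℝ) < ξ₂ * (nn p.1 : ℝ)}.Finite := by
  set M : ℝ := max |ξ₁| |ξ₂| with hM
  have hM0 : 0 ≤ M := le_max_of_le_left (abs_nonneg _)
  apply Set.Finite.subset
    (Finset.finite_toSet ((box ⌊b * Y⌋₊) ×ˢ (box ⌊(M * (b * Y)) ^ 2 + (D : ℝ) ^ 2⌋₊)))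
  rintro ⟨v, w⟩ ⟨h1, h2, h3, h4, h5⟩
  simp only at h1 h2 h3 h4 h5
  rw [Finset.mem_coe, Finset.mem_product]
  refine ⟨epk_nn_box h3, epk_nn_box ?_⟩
  have hv0 : (0 : ℝ) < nn v := lt_of_le_of_lt (mul_nonneg ha hY) h2
  have hv1 : (1 : ℝ) ≤ nn v := by
    have : 0 < nn v := by exact_mod_cast hv0
    exact_mod_cast this
  have hip : |(ip v w : ℝ)| ≤ M * (b * Y) := by
    have e1 : |(ip v w : ℝ)| ≤ M * nn v := by
      rw [abs_le]
      constructor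
      · have : -M ≤ ξ₁ := by
          have := neg_abs_le ξ₁
          have h' : |ξ₁| ≤ M := le_max_left _ _
          linarith
        nlinarith
      · have : ξ₂ ≤ M := le_trans (le_abs_self _) (le_max_right _ _)
        nlinarith
    exact e1.trans (mul_le_mul_of_nonneg_left h3 hM0)
  have hs := ip_sq_add v w
  rw [h1] at hs
  have hs' : (nn v : ℝ) * nn w = (ip v w : ℝ) ^ 2 + (D : ℝ) ^ 2 := by exact_mod_cast hs
  have e2 : (ip v w : ℝ) ^ 2 ≤ (M * (b * Y)) ^ 2 := by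
    rw [← sq_abs]
    exact pow_le_pow_left₀ (abs_nonneg _) hip 2
  have e3 : (nn w : ℝ) ≤ nn v * nn w := by
    have : (0 : ℝ) ≤ nn w := Nat.cast_nonneg _
    nlinarith
  linarith

theorem regk_finite_pr (D κ : ℤ) (a b ξ₁ ξ₂ Y : ℝ) (ha : 0 ≤ a) (hY : 0 ≤ Y) :
    (RegK D κ a b ξ₁ ξ₂ Y).Finite := by
  apply Set.Finite.subset (epk_fin_aux D a b ξ₁ ξ₂ Y ha hY)
  rintro p ⟨h1, -, h2⟩
  exact ⟨h1, h2⟩

theorem epk_one_dvd (z : G) : ((1 : ℕ) : G) ∣ z := by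
  rw [Nat.cast_one]
  exact one_dvd z

theorem epk_det (D κ : ℤ) (w v : G) : det w ((κ : G) * w + (D : G) * v) = D * det w v := by
  unfold det
  simp only [Zsqrtd.re_add, Zsqrtd.im_add, Zsqrtd.re_mul, Zsqrtd.im_mul, Zsqrtd.re_intCast,
    Zsqrtd.im_intCast]
  ring

theorem epk_ip (D κ : ℤ) (w v : G) :
    ip w ((κ : G) * w + (D : G) * v) = κ * nn w + D * ip w v := by
  rw [nn_cast]
  unfold ip
  simp only [Zsqrtd.re_add, Zsqrtd.im_add, Zsqrtd.re_mul, Zsqrtd.im_mul, Zsqrtd.re_intCast,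
    Zsqrtd.im_intCast]
  ring

theorem epk_det_star (w v : G) : det (star w) (-star v) = det w v := by
  unfold det
  simp only [Zsqrtd.re_star, Zsqrtd.im_star, Zsqrtd.re_neg, Zsqrtd.im_neg]
  ring

theorem epk_ip_star (w v : G) : ip (star w) (-star v) = - ip w v := by
  unfold ip
  simp only [Zsqrtd.re_star, Zsqrtd.im_star, Zsqrtd.re_neg, Zsqrtd.im_neg]
  ring

/-- the pairs of determinant `D` in terms of the pairs of determinant one -/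
theorem epk_mem (D κ : ℤ) (hD : D ≠ 0) (a b ξ₁ ξ₂ Y : ℝ) (w w' : G) :
    (w, w') ∈ RegK D κ a b ξ₁ ξ₂ Y ↔ ∃ v : G, w' = (κ : G) * w + (D : G) * v ∧ det w v = 1 ∧
      a * Y < (nn w : ℝ) ∧ (nn w : ℝ) ≤ b * Y ∧
      ξ₁ * (nn w : ℝ) ≤ κ * (nn w : ℝ) + D * (ip w v : ℝ) ∧
      κ * (nn w : ℝ) + D * (ip w v : ℝ) < ξ₂ * (nn w : ℝ) := by
  unfold RegK
  simp only [Set.mem_setOf_eq]
  constructor
  · rintro ⟨h1, ⟨v, hv⟩, h3, h4, h5, h6⟩
    have hw' : w' = (κ : G) * w + (D : G) * v := by rw [← hv]; ring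
    refine ⟨v, hw', ?_, h3, h4, ?_, ?_⟩
    · rw [hw', epk_det] at h1
      exact mul_left_cancel₀ hD (by rw [h1, mul_one])
    · rw [hw', epk_ip] at h5
      push_cast at h5
      exact h5
    · rw [hw', epk_ip] at h6
      push_cast at h6
      exact h6
  · rintro ⟨v, rfl, h1, h2, h3, h4, h5⟩
    refine ⟨?_, ⟨v, by ring⟩, h2, h3, ?_, ?_⟩
    · rw [epk_det, h1, mul_one]
    · rw [epk_ip]
      push_cast
      exact h4
    · rw [epk_ip]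
      push_cast
      exact h5

theorem epk_pos (D κ : ℤ) (hD : 0 < D) (a b ξ₁ ξ₂ Y : ℝ) :
    RegK D κ a b ξ₁ ξ₂ Y = (fun p : G × G => (p.1, (κ : G) * p.1 + (D : G) * p.2)) ''
      Reg 1 0 0 a b ((ξ₁ - κ) / |(D : ℝ)|) ((ξ₂ - κ) / |(D : ℝ)|) Y := by
  have hDr : (0 : ℝ) < D := by exact_mod_cast hD
  rw [abs_of_pos hDr]
  ext ⟨w, w'⟩
  rw [epk_mem D κ hD.ne']
  simp only [Set.mem_image, Prod.mk.injEq, Prod.exists]
  constructor
  · rintro ⟨v, rfl, h1, h2, h3, h4, h5⟩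
    refine ⟨w, v, ⟨h1, epk_one_dvd _, epk_one_dvd _, h2, h3, ?_, ?_⟩, rfl, rfl⟩
    · simp only
      rw [div_mul_eq_mul_div, div_le_iff₀ hDr]
      linarith
    · simp only
      rw [div_mul_eq_mul_div, lt_div_iff₀ hDr]
      linarith
  · rintro ⟨w₁, v, ⟨h1, -, -, h2, h3, h4, h5⟩, h6, h7⟩
    simp only at h1 h2 h3 h4 h5
    subst h6
    subst h7
    refine ⟨v, rfl, h1, h2, h3, ?_, ?_⟩
    · rw [div_mul_eq_mul_div, div_le_iff₀ hDr] at h4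
      linarith
    · rw [div_mul_eq_mul_div, lt_div_iff₀ hDr] at h5
      linarith

theorem epk_neg (D κ : ℤ) (hD : D < 0) (a b ξ₁ ξ₂ Y : ℝ) :
    RegK D κ a b ξ₁ ξ₂ Y = (fun p : G × G =>
        (star p.1, (κ : G) * star p.1 + (D : G) * (-star p.2))) ''
      Reg 1 0 0 a b ((ξ₁ - κ) / |(D : ℝ)|) ((ξ₂ - κ) / |(D : ℝ)|) Y := by
  have hDr : (D : ℝ) < 0 := by exact_mod_cast hD
  rw [abs_of_neg hDr]
  have hDn : (0 : ℝ) < -D := by linarith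
  ext ⟨w, w'⟩
  rw [epk_mem D κ hD.ne]
  simp only [Set.mem_image, Prod.mk.injEq, Prod.exists]
  constructor
  · rintro ⟨v, rfl, h1, h2, h3, h4, h5⟩
    refine ⟨star w, -star v, ⟨?_, epk_one_dvd _, epk_one_dvd _, ?_, ?_, ?_, ?_⟩, ?_, ?_⟩
    · simp only
      rw [epk_det_star, h1]
    · simp only
      rw [nn_star]
      exact h2
    · simp only
      rw [nn_star]
      exact h3
    · simp only
      rw [nn_star, epk_ip_star, div_mul_eq_mul_div, div_le_iff₀ hDn]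
      push_cast
      linarith
    · simp only
      rw [nn_star, epk_ip_star, div_mul_eq_mul_div, lt_div_iff₀ hDn]
      push_cast
      linarith
    · rw [star_star]
    · rw [star_star, star_neg, star_star, neg_neg]
  · rintro ⟨w₁, v, ⟨h1, -, -, h2, h3, h4, h5⟩, h6, h7⟩
    simp only at h1 h2 h3 h4 h5
    subst h6
    subst h7
    refine ⟨-star v, rfl, ?_, ?_, ?_, ?_, ?_⟩
    · rw [epk_det_star, h1]
    · rw [nn_star]
      exact h2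
    · rw [nn_star]
      exact h3
    · rw [nn_star, epk_ip_star]
      rw [div_mul_eq_mul_div, div_le_iff₀ hDn] at h4
      push_cast
      linarith
    · rw [nn_star, epk_ip_star]
      rw [div_mul_eq_mul_div, lt_div_iff₀ hDn] at h5
      push_cast
      linarith

theorem epk_ncard (D κ : ℤ) (hD : D ≠ 0) (a b ξ₁ ξ₂ Y : ℝ) :
    (RegK D κ a b ξ₁ ξ₂ Y).ncard =
      (Reg 1 0 0 a b ((ξ₁ - κ) / |(D : ℝ)|) ((ξ₂ - κ) / |(D : ℝ)|) Y).ncard := by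
  have hDG : (D : G) ≠ 0 := by exact_mod_cast hD
  rcases lt_or_gt_of_ne hD with h | h
  · rw [epk_neg D κ h, Set.ncard_image_of_injective]
    rintro ⟨w, v⟩ ⟨w₁, v₁⟩ he
    simp only [Prod.mk.injEq] at he
    obtain ⟨h1, h2⟩ := he
    have h3 : w = w₁ := star_injective h1
    subst h3
    have h4 : (D : G) * (-star v) = (D : G) * (-star v₁) := add_left_cancel h2
    have h5 := mul_left_cancel₀ hDG h4
    have h6 : star v = star v₁ := neg_injective h5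
    rw [star_injective h6]
  · rw [epk_pos D κ h, Set.ncard_image_of_injective]
    rintro ⟨w, v⟩ ⟨w₁, v₁⟩ he
    simp only [Prod.mk.injEq] at he
    obtain ⟨h1, h2⟩ := he
    subst h1
    have h4 : (D : G) * v = (D : G) * v₁ := add_left_cancel h2
    rw [mul_left_cancel₀ hDG h4]

theorem equi_det_pr : ∃ c : ℝ, 0 < c ∧ ∀ D κ : ℤ, D ≠ 0 → ∀ a b ξ₁ ξ₂ : ℝ, 0 ≤ a → a ≤ b →
    ξ₁ ≤ ξ₂ → Tendsto (fun Y : ℝ => ((RegK D κ a b ξ₁ ξ₂ Y).ncard : ℝ) / Y) atTop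
      (𝓝 (c * (b - a) * (ξ₂ - ξ₁) / |(D : ℝ)|)) := by
  obtain ⟨c, hc, h⟩ := equi 1 le_rfl
  refine ⟨c, hc, ?_⟩
  intro D κ hD a b ξ₁ ξ₂ ha hab hξ
  have hDa : (0 : ℝ) < |(D : ℝ)| := abs_pos.mpr (by exact_mod_cast hD)
  have h1 := h 0 0 (by simp) a b ((ξ₁ - κ) / |(D : ℝ)|) ((ξ₂ - κ) / |(D : ℝ)|) ha hab
    (div_le_div_of_nonneg_right (by linarith) hDa.le)
  have e : c * (b - a) * (ξ₂ - ξ₁) / |(D : ℝ)| =
      c * (b - a) * ((ξ₂ - κ) / |(D : ℝ)| - (ξ₁ - κ) / |(D : ℝ)|) := by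
    field_simp
    ring
  rw [e]
  refine h1.congr ?_
  intro Y
  rw [epk_ncard D κ hD]

end Pool.Agent.T2


namespace Pool.Agent.T2

theorem regk_finite : type_of% @regk_finite_pr := @regk_finite_pr
theorem equi_det : type_of% @equi_det_pr := @equi_det_pr

end Pool.Agent.T2
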