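import Pool.Agent.Lib_helper39.TA.Defs
import Pool.Agent.Lib_helper10.T2F.BAS
import Pool.Agent.Lib_helper10.T2F.EPK

/-!
# T2, block ABY: pairs near the boundary of a ratio window (MP_892e4c_nt)
-/

namespace Pool.Agent.T2

open Finset Filter Topology

/-- if `D` divides the determinant and the first vector is primitive, the second one is a
multiple of the first one modulo `D` -/
theorem aby_kappa (D : ℕ) (hD : 1 ≤ D) {v w : G} (hv : Prm v) (hdet : (D : ℤ) ∣ det v w) :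
    ∃ κ ∈ Finset.range D, ((D : ℤ) : G) ∣ w - (((κ : ℕ) : ℤ) : G) * v := by
  obtain ⟨m, hm⟩ := hdet
  have hb : (Int.gcd v.re v.im : ℤ) = v.re * Int.gcdA v.re v.im + v.im * Int.gcdB v.re v.im :=
    Int.gcd_eq_gcd_ab v.re v.im
  unfold Prm at hv
  rw [hv] at hb
  push_cast at hb
  set x := Int.gcdA v.re v.im with hx
  set y := Int.gcdB v.re v.im with hy
  set κ₀ : ℤ := x * w.re + y * w.im with hκ₀
  have hDpos : (0 : ℤ) < (D : ℤ) := by exact_mod_cast hD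
  set κ : ℤ := κ₀ % (D : ℤ) with hκ
  have hκ0 : 0 ≤ κ := Int.emod_nonneg _ hDpos.ne'
  have hκD : κ < (D : ℤ) := Int.emod_lt_of_pos _ hDpos
  refine ⟨κ.toNat, Finset.mem_range.mpr (by omega), ?_⟩
  have hκnat : ((κ.toNat : ℕ) : ℤ) = κ := Int.toNat_of_nonneg hκ0
  rw [hκnat]
  have hq : κ₀ = (D : ℤ) * (κ₀ / (D : ℤ)) + κ := (Int.mul_ediv_add_emod κ₀ (D : ℤ)).symm
  unfold det at hm
  refine ⟨⟨-y * m + (κ₀ / (D : ℤ)) * v.re, x * m + (κ₀ / (D : ℤ)) * v.im⟩, ?_⟩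
  have hκ' : κ = κ₀ - (D : ℤ) * (κ₀ / (D : ℤ)) := by linarith
  rw [Zsqrtd.ext_iff]
  simp only [Zsqrtd.re_sub, Zsqrtd.im_sub, Zsqrtd.re_mul, Zsqrtd.im_mul, Zsqrtd.re_intCast,
    Zsqrtd.im_intCast]
  rw [hκ']
  constructor
  · linear_combination w.re * hb - y * hm + v.re * hκ₀
  · linear_combination w.im * hb + x * hm + v.im * hκ₀

theorem boundary_count_pr : ∃ C : ℝ, 1 ≤ C ∧ ∀ D : ℕ, 1 ≤ D → ∀ r δ : ℝ, 0 < δ →
    ∃ Y₀ : ℝ, ∀ Y : ℝ, Y₀ ≤ Y → ∀ S : Finset (G × G), (∀ t ∈ S, Prm t.1 ∧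
      det t.1 t.2 = (D : ℤ) ∧ (nn t.1 : ℝ) ≤ Y ∧
      |(ip t.1 t.2 : ℝ) / (nn t.1 : ℝ) - r| ≤ δ) → (S.card : ℝ) ≤ C * δ * Y := by
  obtain ⟨c, hc, hequi⟩ := equi_det
  refine ⟨3 * c + 1, by linarith, ?_⟩
  intro D hD r δ hδ
  have hDR : (0 : ℝ) < (D : ℝ) := by exact_mod_cast hD
  have hDne : ((D : ℕ) : ℤ) ≠ 0 := by
    have : (0 : ℤ) < (D : ℤ) := by exact_mod_cast hD
    exact this.ne'
  have hev : ∀ᶠ Y in (atTop : Filter ℝ), ∀ κ ∈ Finset.range D,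
      ((RegK (D : ℤ) ((κ : ℕ) : ℤ) 0 1 (r - δ) (r + 2 * δ) Y).ncard : ℝ) / Y <
        (3 * c + 1) * δ / D := by
    rw [Filter.eventually_all_finset]
    intro κ _
    have h1 := hequi (D : ℤ) ((κ : ℕ) : ℤ) hDne 0 1 (r - δ) (r + 2 * δ) le_rfl zero_le_one
      (by linarith)
    apply h1.eventually_lt_const
    have : |(((D : ℕ) : ℤ) : ℝ)| = (D : ℝ) := by
      rw [Int.cast_natCast, abs_of_pos hDR]
    rw [this]
    rw [div_lt_div_iff_of_pos_right hDR]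
    nlinarith
  rw [Filter.eventually_atTop] at hev
  obtain ⟨Y₁, hY₁⟩ := hev
  refine ⟨max Y₁ 1, ?_⟩
  intro Y hY S hS
  have hYY₁ : Y₁ ≤ Y := le_trans (le_max_left _ _) hY
  have hYpos : 0 < Y := lt_of_lt_of_le one_pos (le_trans (le_max_right _ _) hY)
  have hcount := hY₁ Y hYY₁
  classical
  -- the covering
  have hfin : ∀ κ : ℕ, (RegK (D : ℤ) ((κ : ℕ) : ℤ) 0 1 (r - δ) (r + 2 * δ) Y).Finite :=
    fun κ => regk_finite _ _ _ _ _ _ _ le_rfl hYpos.le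
  have hcov : S ⊆ (Finset.range D).biUnion (fun κ => (hfin κ).toFinset) := by
    intro t ht
    obtain ⟨h1, h2, h3, h4⟩ := hS t ht
    obtain ⟨κ, hκ, hdvd⟩ := aby_kappa D hD (v := t.1) (w := t.2) h1 (by rw [h2])
    rw [Finset.mem_biUnion]
    refine ⟨κ, hκ, ?_⟩
    rw [Set.Finite.mem_toFinset]
    have hnn : (0 : ℝ) < (nn t.1 : ℝ) := by exact_mod_cast nn_pos.mpr (prm_ne h1)
    rw [abs_le] at h4
    refine ⟨h2, hdvd, by rw [zero_mul]; exact hnn, by rw [one_mul]; exact h3, ?_, ?_⟩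
    · have : r - δ ≤ (ip t.1 t.2 : ℝ) / (nn t.1 : ℝ) := by linarith [h4.1]
      rwa [le_div_iff₀ hnn] at this
    · have : (ip t.1 t.2 : ℝ) / (nn t.1 : ℝ) < r + 2 * δ := by linarith [h4.2]
      rwa [div_lt_iff₀ hnn] at this
  calc (S.card : ℝ) ≤ (((Finset.range D).biUnion (fun κ => (hfin κ).toFinset)).card : ℝ) := by
        exact_mod_cast Finset.card_le_card hcov
    _ ≤ ((∑ κ ∈ Finset.range D, (hfin κ).toFinset.card : ℕ) : ℝ) := by
        exact_mod_cast Finset.card_biUnion_le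
    _ = ∑ κ ∈ Finset.range D,
          ((RegK (D : ℤ) ((κ : ℕ) : ℤ) 0 1 (r - δ) (r + 2 * δ) Y).ncard : ℝ) := by
        push_cast
        apply Finset.sum_congr rfl
        intro κ _
        rw [Set.ncard_eq_toFinset_card _ (hfin κ)]
    _ ≤ ∑ κ ∈ Finset.range D, (3 * c + 1) * δ / D * Y := by
        apply Finset.sum_le_sum
        intro κ hκ
        have := (hcount κ hκ).le
        rwa [div_le_iff₀ hYpos] at this
    _ = (3 * c + 1) * δ * Y := by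
        rw [Finset.sum_const, Finset.card_range, nsmul_eq_mul]
        field_simp

end Pool.Agent.T2


namespace Pool.Agent.T2

theorem boundary_count : type_of% @boundary_count_pr := @boundary_count_pr

end Pool.Agent.T2
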