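import Pool.Agent.Lib_helper39.TA.Defs
import Pool.Agent.Lib_helper10.T2F.BAS
import Pool.Agent.Lib_helper10.T2F.CNT
import Pool.Agent.Lib_helper10.T2F.PEL

/-! T2, block AWB (helper90): bounds for the pair sums. -/

namespace Pool.Agent.T2

open Filter Topology

theorem awb_nn_ge_one {z : G} (hz : Prm z) : 1 ≤ nn z := nn_pos.2 (prm_ne hz)

theorem mem_PW_pr {α β : ℝ} (hα : 0 < α) {D k : ℕ} {t : G × G} : t ∈ PW α β D k ↔
    Prm t.1 ∧ Prm t.2 ∧ det t.1 t.2 = D ∧ 0 < ip t.1 t.2 ∧ 4 ^ k ≤ nn t.1 ∧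
      nn t.1 < 4 ^ (k + 1) ∧ α * (ip t.1 t.2 : ℝ) < (nn t.1 : ℝ) ∧
      (nn t.1 : ℝ) ≤ β * (ip t.1 t.2 : ℝ) := by
  classical
  unfold PW
  rw [Finset.mem_filter, Finset.mem_product, mem_PB, mem_PB]
  constructor
  · rintro ⟨⟨⟨h1, -⟩, h2, -⟩, h3, h4, h5, h6, h7, h8⟩
    exact ⟨h1, h2, h3, h4, h5, h6, h7, h8⟩
  · rintro ⟨h1, h2, h3, h4, h5, h6, h7, h8⟩
    have h6r : (nn t.1 : ℝ) < 4 ^ (k + 1) := by exact_mod_cast h6
    refine ⟨⟨⟨h1, h6r.le⟩, h2, ?_⟩, h3, h4, h5, h6, h7, h8⟩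
    have h9 := ip_sq_add t.1 t.2
    have h10 : (nn t.1 : ℝ) * nn t.2 = (ip t.1 t.2 : ℝ) ^ 2 + (D : ℝ) ^ 2 := by
      have := congrArg (Int.cast : ℤ → ℝ) h9
      push_cast at this
      rw [this, h3]
      push_cast
      ring
    have h11 : (1 : ℝ) ≤ nn t.1 := by exact_mod_cast awb_nn_ge_one h1
    have h12 : (0 : ℝ) ≤ nn t.2 := Nat.cast_nonneg _
    have h13 : (ip t.1 t.2 : ℝ) ≤ 4 ^ (k + 1) / α := by
      rw [le_div_iff₀ hα]
      linarith [mul_comm α (ip t.1 t.2 : ℝ)]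
    have h14 : (0 : ℝ) < ip t.1 t.2 := by exact_mod_cast h4
    have h15 : (ip t.1 t.2 : ℝ) ^ 2 ≤ (4 ^ (k + 1) / α) ^ 2 :=
      pow_le_pow_left₀ h14.le h13 2
    nlinarith

/-- elements of determinant zero with a primitive element are its multiples -/
theorem awb_mult {v x : G} (hv : Prm v) (h : det v x = 0) : ∃ j : ℤ, x = ⟨j * v.re, j * v.im⟩ := by
  unfold Prm at hv
  have hc : IsCoprime v.re v.im := Int.isCoprime_iff_gcd_eq_one.2 hv
  obtain ⟨a, b, hab⟩ := hc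
  have h' : v.re * x.im = v.im * x.re := by
    have : v.re * x.im - v.im * x.re = 0 := h
    linarith
  refine ⟨a * x.re + b * x.im, ?_⟩
  apply Zsqrtd.ext
  · show x.re = (a * x.re + b * x.im) * v.re
    linear_combination (-x.re) * hab - b * h'
  · show x.im = (a * x.re + b * x.im) * v.im
    linear_combination (-x.im) * hab + a * h'

/-- two elements of the same determinant with `v`, whose inner products with `v` differ by less
than `nn v`, are equal -/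
theorem awb_inj {v w w' : G} (hv : Prm v) (h : det v w = det v w')
    (h2 : |ip v w - ip v w'| < nn v) : w = w' := by
  have h0 : det v (w - w') = 0 := by
    have e : det v (w - w') = det v w - det v w' := by
      unfold det
      rw [Zsqrtd.re_sub, Zsqrtd.im_sub]
      ring
    rw [e, h, sub_self]
  obtain ⟨j, hj⟩ := awb_mult hv h0
  have hre : w.re - w'.re = j * v.re := by
    have := congrArg Zsqrtd.re hj
    rwa [Zsqrtd.re_sub] at this
  have him : w.im - w'.im = j * v.im := by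
    have := congrArg Zsqrtd.im hj
    rwa [Zsqrtd.im_sub] at this
  have h3 : ip v w - ip v w' = j * nn v := by
    rw [nn_cast]
    unfold ip
    linear_combination v.re * hre + v.im * him
  have hn : (0 : ℤ) < nn v := by exact_mod_cast awb_nn_ge_one hv
  rw [h3, abs_mul, abs_of_pos hn] at h2
  have h4 : |j| < 1 := by
    by_contra hcon
    rw [not_lt] at hcon
    nlinarith
  have h5 : j = 0 := Int.abs_lt_one_iff.1 h4
  rw [h5, zero_mul, sub_eq_zero] at hre him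
  exact Zsqrtd.ext hre him

theorem awb_det_symm (u v : G) : det u v = -det v u := by
  unfold det
  ring

theorem awb_ip_symm (u v : G) : ip u v = ip v u := by
  unfold ip
  ring

theorem awb_card (S : Finset (G × G)) (f : G × G → G) (g : G × G → ℕ) (M : ℕ) (x : ℝ) (d : G)
    (hd : d ≠ 0) (h1 : ∀ t ∈ S, d ∣ f t ∧ f t ≠ 0 ∧ (nn (f t) : ℝ) ≤ x) (h2 : ∀ t ∈ S, g t < M)
    (h3 : ∀ t ∈ S, ∀ t' ∈ S, f t = f t' → g t = g t' → t = t') :
    S.card ≤ (Bl (x / nn d)).card * M := by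
  classical
  have hn : (0 : ℝ) < nn d := by exact_mod_cast nn_pos.2 hd
  rw [← Finset.card_range M, ← Finset.card_product]
  have hu : ∀ t ∈ S, ∃ u, f t = d * u := fun t ht => (h1 t ht).1
  let U : G × G → G := fun t => if h : ∃ u, f t = d * u then h.choose else 0
  have hU : ∀ t ∈ S, f t = d * U t := by
    intro t ht
    have h := hu t ht
    simp only [U, dif_pos h]
    exact h.choose_spec
  refine Finset.card_le_card_of_injOn (fun t => (U t, g t)) ?_ ?_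
  · intro t ht
    have ht' : t ∈ S := ht
    rw [Finset.mem_coe, Finset.mem_product, mem_Bl, Finset.mem_range]
    refine ⟨⟨?_, ?_⟩, h2 t ht'⟩
    · intro h0
      apply (h1 t ht').2.1
      rw [hU t ht']
      show d * U t = 0
      rw [show U t = 0 from h0, mul_zero]
    · rw [le_div_iff₀ hn]
      have h4 := (h1 t ht').2.2
      rw [hU t ht', nn_mul] at h4
      push_cast at h4
      show (nn (U t) : ℝ) * nn d ≤ x
      linarith [mul_comm (nn d : ℝ) (nn (U t))]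
  · intro t ht t' ht' he
    have ht1 : t ∈ S := ht
    have ht2 : t' ∈ S := ht'
    have he' : (U t, g t) = (U t', g t') := he
    rw [Prod.mk.injEq] at he'
    refine h3 t ht1 t' ht2 ?_ he'.2
    rw [hU t ht1, hU t' ht2, he'.1]

/-- division by the same number with the same quotient -/
theorem awb_quot {a b : ℤ} {n : ℕ} (hn : 0 < n) (ha : 0 < a) (hb : 0 < b)
    (h : a.toNat / n = b.toNat / n) : |a - b| < n := by
  have h1 : (a.toNat : ℤ) = a := Int.toNat_of_nonneg ha.le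
  have h2 : (b.toNat : ℤ) = b := Int.toNat_of_nonneg hb.le
  have h3 := Nat.div_add_mod a.toNat n
  have h4 := Nat.div_add_mod b.toNat n
  have h5 := Nat.mod_lt a.toNat hn
  have h6 := Nat.mod_lt b.toNat hn
  rw [h] at h3
  rw [abs_lt]
  have e1 : (a.toNat : ℤ) = n * (b.toNat / n : ℕ) + (a.toNat % n : ℕ) := by exact_mod_cast h3.symm
  have e2 : (b.toNat : ℤ) = n * (b.toNat / n : ℕ) + (b.toNat % n : ℕ) := by exact_mod_cast h4.symm
  have e3 : ((a.toNat % n : ℕ) : ℤ) < n := by exact_mod_cast h5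
  have e4 : ((b.toNat % n : ℕ) : ℤ) < n := by exact_mod_cast h6
  have e5 : (0 : ℤ) ≤ ((a.toNat % n : ℕ) : ℤ) := Int.natCast_nonneg _
  have e6 : (0 : ℤ) ≤ ((b.toNat % n : ℕ) : ℤ) := Int.natCast_nonneg _
  rw [h1] at e1
  rw [h2] at e2
  constructor <;> linarith

theorem awb_inv_le {α β : ℝ} (hα : 0 < α) (hβ : α < β) {D k : ℕ} {t : G × G}
    (ht : t ∈ PW α β D k) : 1 / (ip t.1 t.2 : ℝ) ≤ β / 4 ^ k := by
  obtain ⟨h1, h2, h3, h4, h5, h6, h7, h8⟩ := (mem_PW_pr hα).1 ht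
  have h5r : (4 : ℝ) ^ k ≤ nn t.1 := by exact_mod_cast h5
  have h4r : (0 : ℝ) < ip t.1 t.2 := by exact_mod_cast h4
  rw [div_le_div_iff₀ h4r (by positivity)]
  linarith

open Classical in
theorem PW_div_pr (α β : ℝ) (hα : 0 < α) (hβ : α < β) : ∃ C : ℝ, 1 ≤ C ∧ ∀ (D k : ℕ) (d : G),
    d ≠ 0 → ∑ t ∈ (PW α β D k).filter (fun t => d ∣ t.1), 1 / (ip t.1 t.2 : ℝ) ≤
      C / nn d := by
  obtain ⟨C₀, hC₀, hB⟩ := ball_le
  have hβ0 : 0 < β := hα.trans hβ
  refine ⟨max 1 (C₀ * 4 * (⌊1 / α⌋₊ + 1 : ℕ) * β), le_max_left _ _, fun D k d hd => ?_⟩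
  have hn : (0 : ℝ) < nn d := by exact_mod_cast nn_pos.2 hd
  set S := (PW α β D k).filter (fun t => d ∣ t.1) with hS
  have hcard : S.card ≤ (Bl ((4 : ℝ) ^ (k + 1) / nn d)).card * (⌊1 / α⌋₊ + 1) := by
    refine awb_card S (fun t => t.1) (fun t => (ip t.1 t.2).toNat / nn t.1) (⌊1 / α⌋₊ + 1)
      ((4 : ℝ) ^ (k + 1)) d hd ?_ ?_ ?_
    · intro t ht
      rw [hS, Finset.mem_filter, mem_PW_pr hα] at ht
      obtain ⟨⟨h1, h2, h3, h4, h5, h6, h7, h8⟩, h9⟩ := ht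
      exact ⟨h9, prm_ne h1, by exact_mod_cast h6.le⟩
    · intro t ht
      rw [hS, Finset.mem_filter, mem_PW_pr hα] at ht
      obtain ⟨⟨h1, h2, h3, h4, h5, h6, h7, h8⟩, h9⟩ := ht
      have hn1 : 0 < nn t.1 := awb_nn_ge_one h1
      have hn1r : (0 : ℝ) < nn t.1 := by exact_mod_cast hn1
      rw [Nat.lt_succ_iff]
      refine Nat.le_floor ?_
      have e1 : (((ip t.1 t.2).toNat / nn t.1 : ℕ) : ℝ) ≤ ((ip t.1 t.2).toNat : ℝ) / nn t.1 :=
        Nat.cast_div_le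
      refine e1.trans ?_
      have e2 : ((ip t.1 t.2).toNat : ℝ) = (ip t.1 t.2 : ℝ) := by
        exact_mod_cast Int.toNat_of_nonneg h4.le
      rw [e2, div_le_div_iff₀ hn1r hα]
      linarith
    · intro t ht t' ht' hf hg
      rw [hS, Finset.mem_filter, mem_PW_pr hα] at ht ht'
      obtain ⟨⟨h1, h2, h3, h4, -⟩, -⟩ := ht
      obtain ⟨⟨h1', h2', h3', h4', -⟩, -⟩ := ht'
      have hf' : t.1 = t'.1 := hf
      have hg' : (ip t.1 t.2).toNat / nn t.1 = (ip t'.1 t'.2).toNat / nn t'.1 := hg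
      rw [← hf'] at hg' h3' h4'
      refine Prod.ext hf' (awb_inj h1 (h3.trans h3'.symm) ?_)
      exact awb_quot (awb_nn_ge_one h1) h4 h4' hg'
  have hB1 := hB ((4 : ℝ) ^ (k + 1) / nn d) (by positivity)
  calc ∑ t ∈ S, 1 / (ip t.1 t.2 : ℝ) ≤ ∑ t ∈ S, β / 4 ^ k := by
        refine Finset.sum_le_sum fun t ht => ?_
        rw [hS, Finset.mem_filter] at ht
        exact awb_inv_le hα hβ ht.1
    _ = S.card * (β / 4 ^ k) := by rw [Finset.sum_const, nsmul_eq_mul]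
    _ ≤ (C₀ * ((4 : ℝ) ^ (k + 1) / nn d) * (⌊1 / α⌋₊ + 1 : ℕ)) * (β / 4 ^ k) := by
        refine mul_le_mul_of_nonneg_right ?_ (by positivity)
        have : (S.card : ℝ) ≤ ((Bl ((4 : ℝ) ^ (k + 1) / nn d)).card : ℝ) * (⌊1 / α⌋₊ + 1 : ℕ) := by
          exact_mod_cast hcard
        exact this.trans (mul_le_mul_of_nonneg_right hB1 (Nat.cast_nonneg _))
    _ = (C₀ * 4 * (⌊1 / α⌋₊ + 1 : ℕ) * β) / nn d := by
        have h4k : (4 : ℝ) ^ k ≠ 0 := by positivity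
        field_simp
        ring
    _ ≤ _ := div_le_div_of_nonneg_right (le_max_right _ _) hn.le

open Classical in
theorem PW_div2_pr (α β : ℝ) (hα : 0 < α) (hβ : α < β) : ∃ C : ℝ, 1 ≤ C ∧ ∀ (k : ℕ) (d : G),
    d ≠ 0 → ∑ t ∈ (PW α β 1 k).filter (fun t => d ∣ t.2), 1 / (ip t.1 t.2 : ℝ) ≤
      C / nn d := by
  obtain ⟨C₀, hC₀, hB⟩ := ball_le
  have hβ0 : 0 < β := hα.trans hβ
  set M : ℕ := ⌊4 * β ^ 2 / α⌋₊ + 1 with hM
  refine ⟨max 1 (C₀ * 4 * (1 / α ^ 2 + 1) * M * β), le_max_left _ _, fun k d hd => ?_⟩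
  have hn : (0 : ℝ) < nn d := by exact_mod_cast nn_pos.2 hd
  set S := (PW α β 1 k).filter (fun t => d ∣ t.2) with hS
  have h4k : (0 : ℝ) < 4 ^ k := by positivity
  -- the norm of the second element
  have hnn : ∀ t ∈ PW α β 1 k, (4 : ℝ) ^ k / β ^ 2 ≤ nn t.2 ∧
      (nn t.2 : ℝ) ≤ 4 ^ (k + 1) * (1 / α ^ 2 + 1) := by
    intro t ht
    obtain ⟨h1, h2, h3, h4, h5, h6, h7, h8⟩ := (mem_PW_pr hα).1 ht
    have h9 := ip_sq_add t.1 t.2
    have h10 : (nn t.1 : ℝ) * nn t.2 = (ip t.1 t.2 : ℝ) ^ 2 + 1 := by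
      have := congrArg (Int.cast : ℤ → ℝ) h9
      push_cast at this
      rw [this, h3]
      push_cast
      ring
    have h5r : (4 : ℝ) ^ k ≤ nn t.1 := by exact_mod_cast h5
    have h6r : (nn t.1 : ℝ) < 4 ^ (k + 1) := by exact_mod_cast h6
    have h4r : (0 : ℝ) < ip t.1 t.2 := by exact_mod_cast h4
    have hn1 : (1 : ℝ) ≤ nn t.1 := by exact_mod_cast awb_nn_ge_one h1
    have hn0 : (0 : ℝ) < nn t.1 := by linarith
    constructor
    · rw [div_le_iff₀ (by positivity)]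
      have h11 : (nn t.1 : ℝ) ^ 2 ≤ (β * ip t.1 t.2) ^ 2 := pow_le_pow_left₀ hn0.le h8 2
      have h12 : (nn t.1 : ℝ) * nn t.1 ≤ nn t.1 * (nn t.2 * β ^ 2) := by
        calc (nn t.1 : ℝ) * nn t.1 = (nn t.1 : ℝ) ^ 2 := by ring
          _ ≤ β ^ 2 * (ip t.1 t.2 : ℝ) ^ 2 := by rw [← mul_pow]; exact h11
          _ ≤ β ^ 2 * ((ip t.1 t.2 : ℝ) ^ 2 + 1) := by nlinarith [sq_nonneg β]
          _ = nn t.1 * (nn t.2 * β ^ 2) := by rw [← h10]; ring
      exact h5r.trans (le_of_mul_le_mul_left h12 hn0)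
    · have h11 : (α * ip t.1 t.2) ^ 2 ≤ (nn t.1 : ℝ) ^ 2 :=
        pow_le_pow_left₀ (by positivity) h7.le 2
      have h12 : (ip t.1 t.2 : ℝ) ^ 2 ≤ (nn t.1 : ℝ) ^ 2 * (1 / α ^ 2) := by
        rw [mul_one_div, le_div_iff₀ (by positivity)]
        nlinarith
      have h13 : (nn t.1 : ℝ) * nn t.2 ≤ nn t.1 * (4 ^ (k + 1) * (1 / α ^ 2 + 1)) := by
        rw [h10]
        have h14 : (0 : ℝ) ≤ 1 / α ^ 2 := by positivity
        have h15 : (nn t.1 : ℝ) ^ 2 * (1 / α ^ 2) ≤ nn t.1 * 4 ^ (k + 1) * (1 / α ^ 2) := by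
          refine mul_le_mul_of_nonneg_right ?_ h14
          nlinarith
        have h16 : (1 : ℝ) ≤ nn t.1 * 4 ^ (k + 1) := by nlinarith
        nlinarith
      exact le_of_mul_le_mul_left h13 hn0
  have hcard : S.card ≤ (Bl ((4 : ℝ) ^ (k + 1) * (1 / α ^ 2 + 1) / nn d)).card * M := by
    refine awb_card S (fun t => t.2) (fun t => (ip t.1 t.2).toNat / nn t.2) M
      ((4 : ℝ) ^ (k + 1) * (1 / α ^ 2 + 1)) d hd ?_ ?_ ?_
    · intro t ht
      rw [hS, Finset.mem_filter] at ht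
      have h1 := (mem_PW_pr hα).1 ht.1
      exact ⟨ht.2, prm_ne h1.2.1, (hnn t ht.1).2⟩
    · intro t ht
      rw [hS, Finset.mem_filter] at ht
      obtain ⟨h1, h2, h3, h4, h5, h6, h7, h8⟩ := (mem_PW_pr hα).1 ht.1
      have hn2 : 0 < nn t.2 := awb_nn_ge_one h2
      have hn2r : (0 : ℝ) < nn t.2 := by exact_mod_cast hn2
      rw [hM, Nat.lt_succ_iff]
      refine Nat.le_floor ?_
      have e1 : (((ip t.1 t.2).toNat / nn t.2 : ℕ) : ℝ) ≤ ((ip t.1 t.2).toNat : ℝ) / nn t.2 :=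
        Nat.cast_div_le
      refine e1.trans ?_
      have e2 : ((ip t.1 t.2).toNat : ℝ) = (ip t.1 t.2 : ℝ) := by
        exact_mod_cast Int.toNat_of_nonneg h4.le
      rw [e2, div_le_div_iff₀ hn2r hα]
      have h6r : (nn t.1 : ℝ) < 4 ^ (k + 1) := by exact_mod_cast h6
      have e3 := (hnn t ht.1).1
      rw [div_le_iff₀ (by positivity)] at e3
      have e4 : (4 : ℝ) ^ (k + 1) = 4 * 4 ^ k := by rw [pow_succ]; ring
      rw [e4] at h6r
      calc (ip t.1 t.2 : ℝ) * α = α * ip t.1 t.2 := by ring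
        _ ≤ 4 * 4 ^ k := by linarith
        _ ≤ 4 * (nn t.2 * β ^ 2) := by linarith
        _ = 4 * β ^ 2 * nn t.2 := by ring
    · intro t ht t' ht' hf hg
      rw [hS, Finset.mem_filter, mem_PW_pr hα] at ht ht'
      obtain ⟨⟨h1, h2, h3, h4, -⟩, -⟩ := ht
      obtain ⟨⟨h1', h2', h3', h4', -⟩, -⟩ := ht'
      have hf' : t.2 = t'.2 := hf
      have hg' : (ip t.1 t.2).toNat / nn t.2 = (ip t'.1 t'.2).toNat / nn t'.2 := hg
      rw [← hf'] at hg' h3' h4'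
      refine Prod.ext (awb_inj h2 ?_ ?_) hf'
      · rw [awb_det_symm t.2 t.1, awb_det_symm t.2 t'.1, h3, h3']
      · rw [awb_ip_symm t.2 t.1, awb_ip_symm t.2 t'.1]
        exact awb_quot (awb_nn_ge_one h2) h4 h4' hg'
  have hB1 := hB ((4 : ℝ) ^ (k + 1) * (1 / α ^ 2 + 1) / nn d) (by positivity)
  calc ∑ t ∈ S, 1 / (ip t.1 t.2 : ℝ) ≤ ∑ t ∈ S, β / 4 ^ k := by
        refine Finset.sum_le_sum fun t ht => ?_
        rw [hS, Finset.mem_filter] at ht
        exact awb_inv_le hα hβ ht.1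
    _ = S.card * (β / 4 ^ k) := by rw [Finset.sum_const, nsmul_eq_mul]
    _ ≤ (C₀ * ((4 : ℝ) ^ (k + 1) * (1 / α ^ 2 + 1) / nn d) * M) * (β / 4 ^ k) := by
        refine mul_le_mul_of_nonneg_right ?_ (by positivity)
        have : (S.card : ℝ) ≤
            ((Bl ((4 : ℝ) ^ (k + 1) * (1 / α ^ 2 + 1) / nn d)).card : ℝ) * M := by
          exact_mod_cast hcard
        exact this.trans (mul_le_mul_of_nonneg_right hB1 (Nat.cast_nonneg _))
    _ = (C₀ * 4 * (1 / α ^ 2 + 1) * M * β) / nn d := by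
        have h4k' : (4 : ℝ) ^ k ≠ 0 := by positivity
        rw [pow_succ]
        field_simp
    _ ≤ _ := div_le_div_of_nonneg_right (le_max_right _ _) hn.le

theorem awb_abs {α β : ℝ} (hα : 0 < α) {D k : ℕ} {t : G × G} (ht : t ∈ PW α β D k) :
    |gl t.1 * gl t.2 / (ip t.1 t.2 : ℝ)| ≤ 1 / (ip t.1 t.2 : ℝ) := by
  obtain ⟨h1, h2, h3, h4, -⟩ := (mem_PW_pr hα).1 ht
  have h4r : (0 : ℝ) < ip t.1 t.2 := by exact_mod_cast h4
  rw [abs_div, abs_of_pos h4r, abs_mul]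
  refine div_le_div_of_nonneg_right ?_ h4r.le
  have e1 := gl_abs t.1
  have e2 := gl_abs t.2
  have e3 := abs_nonneg (gl t.1)
  have e4 := abs_nonneg (gl t.2)
  nlinarith

theorem BD_le_pr (α β : ℝ) (hα : 0 < α) (hβ : α < β) : ∃ C : ℝ, 1 ≤ C ∧ ∀ D k : ℕ,
    |BD α β D k| ≤ C := by
  classical
  obtain ⟨C, hC, h⟩ := PW_div_pr α β hα hβ
  refine ⟨C, hC, fun D k => ?_⟩
  have h1 := h D k 1 one_ne_zero
  have hn1 : (nn (1 : G) : ℝ) = 1 := by
    have : nn ((1 : ℕ) : G) = 1 ^ 2 := nn_nat 1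
    rw [Nat.cast_one] at this
    rw [this]
    norm_num
  rw [hn1, div_one] at h1
  have h2 : (PW α β D k).filter (fun t => (1 : G) ∣ t.1) = PW α β D k :=
    Finset.filter_true_of_mem fun t _ => one_dvd _
  rw [h2] at h1
  unfold BD
  refine (Finset.abs_sum_le_sum_abs _ _).trans (le_trans ?_ h1)
  exact Finset.sum_le_sum fun t ht => awb_abs hα ht

theorem BDp_le_pr (α β : ℝ) (hα : 0 < α) (hβ : α < β) : ∃ C : ℝ, 1 ≤ C ∧ ∀ p k : ℕ, p.Prime →
    p % 4 = 1 → |BDp α β p k| ≤ C / p := by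
  classical
  obtain ⟨C, hC, h⟩ := PW_div_pr α β hα hβ
  refine ⟨C, hC, fun p k hp h4 => ?_⟩
  have h0 : pel p ≠ 0 := (pel_prime hp h4).ne_zero
  have h1 := h p k (pel p) h0
  rw [(pel_spec hp h4).1] at h1
  unfold BDp
  refine (Finset.abs_sum_le_sum_abs _ _).trans (le_trans ?_ h1)
  exact Finset.sum_le_sum fun t ht => awb_abs hα (Finset.mem_filter.1 ht).1

end Pool.Agent.T2


namespace Pool.Agent.T2

theorem mem_PW : type_of% @mem_PW_pr := @mem_PW_pr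
theorem PW_div : type_of% @PW_div_pr := @PW_div_pr
theorem PW_div2 : type_of% @PW_div2_pr := @PW_div2_pr
theorem BD_le : type_of% @BD_le_pr := @BD_le_pr
theorem BDp_le : type_of% @BDp_le_pr := @BDp_le_pr

end Pool.Agent.T2
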