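import Pool.Agent.Lib_helper39.TA.Defs
import Pool.Agent.Lib_helper10.T2F.AWB
import Pool.Agent.Lib_helper10.T2F.BAS
import Pool.Agent.Lib_helper10.T2F.PEL

/-! T2, block ADI: dilation_pr by a prime element -/

namespace Pool.Agent.T2

open Filter Topology

theorem adi_ip_mul (z u v : G) : ip (z * u) (z * v) = (nn z : ℤ) * ip u v := by
  rw [nn_cast]
  unfold ip
  simp only [Zsqrtd.re_mul, Zsqrtd.im_mul]
  ring

theorem adi_disj {α β : ℝ} (hα : 0 < α) (D K : ℕ) :
    ((Finset.range K : Finset ℕ) : Set ℕ).PairwiseDisjoint (PW α β D) := by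
  intro k _ l _ hkl
  rw [Function.onFun, Finset.disjoint_left]
  intro t h1 h2
  rw [mem_PW hα] at h1 h2
  obtain ⟨-, -, -, -, a1, a2, -⟩ := h1
  obtain ⟨-, -, -, -, b1, b2, -⟩ := h2
  rcases lt_or_gt_of_ne hkl with h | h
  · have : 4 ^ (k + 1) ≤ 4 ^ l := Nat.pow_le_pow_right (by norm_num) h
    omega
  · have : 4 ^ (l + 1) ≤ 4 ^ k := Nat.pow_le_pow_right (by norm_num) h
    omega

open Classical in
theorem adi_sum {α β : ℝ} (hα : 0 < α) (D K : ℕ) (f : G × G → ℝ) :
    ∑ k ∈ Finset.range K, ∑ t ∈ PW α β D k, f t =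
      ∑ t ∈ (Finset.range K).biUnion (PW α β D), f t := by
  rw [Finset.sum_biUnion (adi_disj hα D K)]

open Classical in
theorem adi_mem {α β : ℝ} (hα : 0 < α) {D K : ℕ} {t : G × G} :
    t ∈ (Finset.range K).biUnion (PW α β D) ↔ Prm t.1 ∧ Prm t.2 ∧ det t.1 t.2 = D ∧
      0 < ip t.1 t.2 ∧ nn t.1 < 4 ^ K ∧ α * (ip t.1 t.2 : ℝ) < (nn t.1 : ℝ) ∧
      (nn t.1 : ℝ) ≤ β * (ip t.1 t.2 : ℝ) := by
  rw [Finset.mem_biUnion]
  constructor
  · rintro ⟨k, hk, h⟩
    rw [mem_PW hα] at h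
    obtain ⟨h1, h2, h3, h4, h5, h6, h7, h8⟩ := h
    refine ⟨h1, h2, h3, h4, lt_of_lt_of_le h6 ?_, h7, h8⟩
    exact Nat.pow_le_pow_right (by norm_num) (Finset.mem_range.1 hk)
  · rintro ⟨h1, h2, h3, h4, h5, h7, h8⟩
    have h0 : nn t.1 ≠ 0 := (nn_pos.2 (prm_ne h1)).ne'
    refine ⟨Nat.log 4 (nn t.1), Finset.mem_range.2 ?_, ?_⟩
    · exact Nat.log_lt_of_lt_pow h0 h5
    · rw [mem_PW hα]
      exact ⟨h1, h2, h3, h4, Nat.pow_log_le_self 4 h0, Nat.lt_pow_succ_log_self (by norm_num) _,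
        h7, h8⟩

theorem adi_conj (v w : G) : star v * w = ((ip v w : ℤ) : G) + ((det v w : ℤ) : G) * ui := by
  apply Zsqrtd.ext
  · simp [ip, det, ui]
  · simp [ip, det, ui]
    ring

/-- if `π` divides `v` and `det (v, w) = p`, then `π` divides `w` -/
theorem adi_dvd {p : ℕ} (hp : p.Prime) (h4 : p % 4 = 1) {v w : G} (hv : Prm v)
    (hd : det v w = p) (h : pel p ∣ v) : pel p ∣ w := by
  have h1 := ip_sq_add v w
  obtain ⟨z, rfl⟩ := h
  have hp' : Prime ((p : ℕ) : ℤ) := Nat.prime_iff_prime_int.1 hp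
  have h2 : (p : ℤ) ∣ ip (pel p * z) w := by
    refine hp'.dvd_of_dvd_pow (n := 2) ?_
    rw [nn_mul, (pel_spec hp h4).1, hd] at h1
    refine ⟨(nn z : ℤ) * nn w - p, ?_⟩
    push_cast at h1
    linear_combination (-1 : ℤ) * h1
  obtain ⟨m, hm⟩ := h2
  -- `conj(v) w = ip + i det`
  have h3 := adi_conj (pel p * z) w
  have h5 : pel p ∣ star (pel p * z) * w := by
    rw [h3, hm, hd]
    have h6 : pel p ∣ ((p : ℕ) : G) := ⟨star (pel p), (pel_mul_star hp h4).symm⟩
    refine dvd_add ?_ ?_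
    · push_cast
      exact h6.mul_right _
    · push_cast
      exact h6.mul_right _
  rcases (pel_prime hp h4).dvd_or_dvd h5 with h | h
  · exfalso
    -- `star π ∣ π z`
    have h6 : star (pel p) ∣ pel p * z := by
      obtain ⟨y, hy⟩ := h
      refine ⟨star y, ?_⟩
      rw [← star_star (pel p * z), hy, star_mul, mul_comm]
    have h7 := (pel_prm_mul hp h4 (w := z)).1 hv
    rcases (pel_star_prime hp h4).dvd_or_dvd h6 with h8 | h8
    · refine pel_not_star hp h4 hp h4 ?_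
      exact ((pel_star_prime hp h4).associated_of_dvd (pel_prime hp h4) h8).symm
    · exact h7.2 h8
  · exact h

theorem adi_log {p : ℕ} (hp : p.Prime) (h4 : p % 4 = 1) : 1 ≤ Real.log p := by
  have h5 : 5 ≤ p := by
    have := hp.two_le
    by_contra h
    interval_cases p <;> omega
  rw [Real.le_log_iff_exp_le (by exact_mod_cast hp.pos)]
  have h1 := Real.exp_one_lt_d9
  have h2 : (5 : ℝ) ≤ p := by exact_mod_cast h5
  linarith

open Classical in
theorem adi_count {p : ℕ} (hp : p.Prime) (h4 : p % 4 = 1) (K : ℕ) :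
    (((Finset.range K).filter (fun k => 4 ^ K < p * 4 ^ (k + 1))).card : ℝ) ≤ 2 * Real.log p := by
  have h1 : ((Finset.range K).filter (fun k => 4 ^ K < p * 4 ^ (k + 1))).card ≤
      (Finset.range (Nat.log 4 p + 1)).card := by
    refine Finset.card_le_card_of_injOn (fun k => K - 1 - k) ?_ ?_
    · intro k hk
      rw [Finset.mem_coe, Finset.mem_filter, Finset.mem_range] at hk
      rw [Finset.mem_coe, Finset.mem_range, Nat.lt_succ_iff]
      refine Nat.le_log_of_pow_le (by norm_num) ?_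
      have h2 : 4 ^ K = 4 ^ (K - 1 - k) * 4 ^ (k + 1) := by
        rw [← pow_add]
        congr 1
        omega
      rw [h2] at hk
      exact (Nat.lt_of_mul_lt_mul_right hk.2).le
    · intro k hk l hl h
      rw [Finset.mem_coe, Finset.mem_filter, Finset.mem_range] at hk hl
      have h' : K - 1 - k = K - 1 - l := h
      omega
  rw [Finset.card_range] at h1
  have h2 : (Nat.log 4 p : ℝ) ≤ Real.log p := by
    have h3 : (4 : ℝ) ^ (Nat.log 4 p) ≤ p := by exact_mod_cast Nat.pow_log_le_self 4 hp.ne_zero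
    have h5 : (Nat.log 4 p : ℝ) * Real.log 4 ≤ Real.log p := by
      rw [← Real.log_pow]
      exact Real.log_le_log (by positivity) h3
    have h6 : 1 ≤ Real.log 4 := by
      rw [Real.le_log_iff_exp_le (by norm_num)]
      have := Real.exp_one_lt_d9
      linarith
    have h7 : (0 : ℝ) ≤ (Nat.log 4 p : ℝ) := Nat.cast_nonneg _
    nlinarith
  have h3 := adi_log hp h4
  have h5 : (((Finset.range K).filter (fun k => 4 ^ K < p * 4 ^ (k + 1))).card : ℝ) ≤
      (Nat.log 4 p : ℝ) + 1 := by exact_mod_cast h1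
  linarith

open Classical in
theorem dilation_pr (α β : ℝ) (hα : 0 < α) (hβ : α < β) : ∃ C : ℝ, 1 ≤ C ∧ ∀ p K : ℕ, p.Prime →
    p % 4 = 1 → |∑ k ∈ Finset.range K, BD α β 1 k -
      ((p : ℝ) + 1) * ∑ k ∈ Finset.range K, BDp α β p k| ≤ C * (K / p + Real.log p) := by
  obtain ⟨C₁, hC₁, h₁⟩ := PW_div α β hα hβ
  obtain ⟨C₂, hC₂, h₂⟩ := PW_div2 α β hα hβ
  obtain ⟨C₃, hC₃, h₃⟩ := BDp_le α β hα hβ
  refine ⟨2 * C₁ + C₂ + C₃, by linarith, fun p K hp h4 => ?_⟩
  set π : G := pel p with hπ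
  have hnπ : nn π = p := (pel_spec hp h4).1
  have hp0 : (0 : ℝ) < p := by exact_mod_cast hp.pos
  have hπ0 : π ≠ 0 := (pel_prime hp h4).ne_zero
  set g : G × G → ℝ := fun t => gl t.1 * gl t.2 / (ip t.1 t.2 : ℝ) with hg
  set T₁ : Finset (G × G) := (Finset.range K).biUnion (PW α β 1) with hT₁
  set T : Finset (G × G) := ((Finset.range K).biUnion (PW α β p)).filter (fun t => π ∣ t.1) with hT
  have e1 : ∑ k ∈ Finset.range K, BD α β 1 k = ∑ t ∈ T₁, g t := adi_sum hα 1 K g
  have e2 : ∑ k ∈ Finset.range K, BDp α β p k = ∑ t ∈ T, g t := by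
    rw [hT, Finset.sum_filter, ← adi_sum hα p K (fun t => if π ∣ t.1 then g t else 0)]
    refine Finset.sum_congr rfl fun k _ => ?_
    unfold BDp
    rw [Finset.sum_filter]
  set T' : Finset (G × G) := T₁.filter (fun t => p * nn t.1 < 4 ^ K ∧ ¬ star π ∣ t.1 ∧
    ¬ star π ∣ t.2) with hT'
  -- the bijection
  have e3 : ∑ t ∈ T', g t = p * ∑ t ∈ T, g t := by
    rw [Finset.mul_sum]
    refine Finset.sum_bij (fun t _ => ((π * t.1, π * t.2) : G × G)) ?_ ?_ ?_ ?_
    · intro t ht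
      rw [hT', Finset.mem_filter, hT₁, adi_mem hα] at ht
      obtain ⟨⟨a1, a2, a3, a4, a5, a6, a7⟩, b1, b2, b3⟩ := ht
      rw [hT, Finset.mem_filter, adi_mem hα]
      have hip : (ip (π * t.1) (π * t.2) : ℝ) = p * (ip t.1 t.2 : ℝ) := by
        rw [adi_ip_mul, hnπ]
        push_cast
        rfl
      refine ⟨⟨(pel_prm_mul hp h4).2 ⟨a1, b2⟩, (pel_prm_mul hp h4).2 ⟨a2, b3⟩, ?_, ?_, ?_, ?_, ?_⟩,
        dvd_mul_right _ _⟩
      · show det (π * t.1) (π * t.2) = p
        rw [det_mul, hnπ, a3]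
        push_cast
        ring
      · show 0 < ip (π * t.1) (π * t.2)
        rw [adi_ip_mul, hnπ]
        exact mul_pos (by exact_mod_cast hp.pos) a4
      · show nn (π * t.1) < 4 ^ K
        rw [nn_mul, hnπ]
        exact b1
      · show α * (ip (π * t.1) (π * t.2) : ℝ) < (nn (π * t.1) : ℝ)
        rw [hip, nn_mul, hnπ]
        push_cast
        nlinarith
      · show (nn (π * t.1) : ℝ) ≤ β * (ip (π * t.1) (π * t.2) : ℝ)
        rw [hip, nn_mul, hnπ]
        push_cast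
        nlinarith
    · intro s _ t _ h
      have h1 := congrArg Prod.fst h
      have h2 := congrArg Prod.snd h
      exact Prod.ext (mul_left_cancel₀ hπ0 h1) (mul_left_cancel₀ hπ0 h2)
    · intro t ht
      rw [hT, Finset.mem_filter, adi_mem hα] at ht
      obtain ⟨⟨a1, a2, a3, a4, a5, a6, a7⟩, b1⟩ := ht
      have b2 := adi_dvd hp h4 a1 a3 b1
      obtain ⟨v, hv⟩ := b1
      obtain ⟨w, hw⟩ := b2
      rw [← hπ] at hw
      refine ⟨(v, w), ?_, Prod.ext hv.symm hw.symm⟩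
      rw [hv] at a1 a3 a4 a5 a6 a7
      rw [hw] at a2 a3 a4 a6 a7
      have a1' := (pel_prm_mul hp h4).1 a1
      have a2' := (pel_prm_mul hp h4).1 a2
      have hip : (ip (π * v) (π * w) : ℝ) = p * (ip v w : ℝ) := by
        rw [adi_ip_mul, hnπ]
        push_cast
        rfl
      rw [det_mul, hnπ] at a3
      rw [adi_ip_mul, hnπ] at a4
      rw [nn_mul, hnπ] at a5 a6 a7
      rw [hip] at a6 a7
      push_cast at a6 a7
      have hpZ : (0 : ℤ) < p := by exact_mod_cast hp.pos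
      rw [hT', Finset.mem_filter, hT₁, adi_mem hα]
      refine ⟨⟨a1'.1, a2'.1, ?_, ?_, ?_, ?_, ?_⟩, a5, a1'.2, a2'.2⟩
      · have : (p : ℤ) * det v w = p * 1 := by rw [a3, mul_one]
        exact_mod_cast mul_left_cancel₀ hpZ.ne' this
      · by_contra hc
        exact absurd a4 (not_lt.2 (mul_nonpos_of_nonneg_of_nonpos hpZ.le (not_lt.1 hc)))
      · refine lt_of_le_of_lt ?_ a5
        exact Nat.le_mul_of_pos_left _ hp.pos
      · have : (p : ℝ) * (α * (ip v w : ℝ)) < p * nn v := by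
          calc (p : ℝ) * (α * (ip v w : ℝ)) = α * (p * ip v w) := by ring
            _ < p * nn v := a6
        exact lt_of_mul_lt_mul_left this hp0.le
      · have : (p : ℝ) * nn v ≤ p * (β * ip v w) := by
          calc (p : ℝ) * nn v ≤ β * (p * ip v w) := a7
            _ = p * (β * ip v w) := by ring
        exact le_of_mul_le_mul_left this hp0
    · intro t ht
      show g t = p * g (π * t.1, π * t.2)
      simp only [hg]
      rw [adi_ip_mul, hnπ, gl_mul, gl_mul, pel_gl hp h4]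
      push_cast
      rw [mul_div_assoc']
      rw [show (p : ℝ) * (-1 * gl t.1 * (-1 * gl t.2)) = p * (gl t.1 * gl t.2) by ring,
        mul_div_mul_left _ _ hp0.ne']
  -- the bound of the rest
  have hT₁pos : ∀ t ∈ T₁, (0 : ℝ) < (ip t.1 t.2 : ℝ) := fun t ht => by
    rw [hT₁, adi_mem hα] at ht
    exact_mod_cast ht.2.2.2.1
  have hgle : ∀ t ∈ T₁, |g t| ≤ 1 / (ip t.1 t.2 : ℝ) := fun t ht => by
    have h := hT₁pos t ht
    simp only [hg]
    rw [abs_div, abs_of_pos h, abs_mul]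
    refine div_le_div_of_nonneg_right ?_ h.le
    calc |gl t.1| * |gl t.2| ≤ 1 * 1 :=
        mul_le_mul (gl_abs _) (gl_abs _) (abs_nonneg _) zero_le_one
      _ = 1 := one_mul 1
  have e4 : |∑ t ∈ T₁, g t - ∑ t ∈ T', g t| ≤
      ∑ t ∈ T₁, ((if 4 ^ K ≤ p * nn t.1 then 1 / (ip t.1 t.2 : ℝ) else 0) +
        (if star π ∣ t.1 then 1 / (ip t.1 t.2 : ℝ) else 0) +
        (if star π ∣ t.2 then 1 / (ip t.1 t.2 : ℝ) else 0)) := by
    rw [hT', Finset.sum_filter, ← Finset.sum_sub_distrib]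
    refine (Finset.abs_sum_le_sum_abs _ _).trans (Finset.sum_le_sum fun t ht => ?_)
    have h0 : 0 ≤ 1 / (ip t.1 t.2 : ℝ) := (one_div_pos.2 (hT₁pos t ht)).le
    have h1 := hgle t ht
    by_cases c1 : 4 ^ K ≤ p * nn t.1
    · rw [if_pos c1, if_neg (fun h => absurd h.1 (not_lt.2 c1)), sub_zero]
      have : 0 ≤ (if star π ∣ t.1 then 1 / (ip t.1 t.2 : ℝ) else 0) := by split_ifs <;> positivity
      have : 0 ≤ (if star π ∣ t.2 then 1 / (ip t.1 t.2 : ℝ) else 0) := by split_ifs <;> positivity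
      linarith
    · rw [if_neg c1]
      by_cases c2 : star π ∣ t.1
      · rw [if_pos c2, if_neg (fun h => h.2.1 c2), sub_zero]
        have : 0 ≤ (if star π ∣ t.2 then 1 / (ip t.1 t.2 : ℝ) else 0) := by split_ifs <;> positivity
        linarith
      · rw [if_neg c2]
        by_cases c3 : star π ∣ t.2
        · rw [if_pos c3, if_neg (fun h => h.2.2 c3), sub_zero]
          linarith
        · rw [if_neg c3, if_pos ⟨not_le.1 c1, c2, c3⟩, sub_self, abs_zero]
          simp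
  rw [Finset.sum_add_distrib, Finset.sum_add_distrib] at e4
  have hd0 : star π ≠ 0 := (pel_star_prime hp h4).ne_zero
  have hnd : (nn (star π) : ℝ) = p := by rw [nn_star, hnπ]
  have f1 : ∑ t ∈ T₁, (if 4 ^ K ≤ p * nn t.1 then 1 / (ip t.1 t.2 : ℝ) else 0) ≤
      C₁ * (2 * Real.log p) := by
    rw [hT₁, ← adi_sum hα 1 K (fun t => if 4 ^ K ≤ p * nn t.1 then 1 / (ip t.1 t.2 : ℝ) else 0)]
    have h5 : ∀ k ∈ Finset.range K, ∑ t ∈ PW α β 1 k,
        (if 4 ^ K ≤ p * nn t.1 then 1 / (ip t.1 t.2 : ℝ) else 0) ≤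
          if 4 ^ K < p * 4 ^ (k + 1) then C₁ else 0 := by
      intro k _
      by_cases c : 4 ^ K < p * 4 ^ (k + 1)
      · rw [if_pos c]
        have h6 := h₁ 1 k 1 one_ne_zero
        have h7 : nn (1 : G) = 1 := by
          have := nn_nat 1
          simpa using this
        rw [h7, Nat.cast_one, div_one, Finset.filter_true_of_mem (fun t _ => one_dvd t.1)] at h6
        refine le_trans (Finset.sum_le_sum fun t ht => ?_) h6
        rw [mem_PW hα] at ht
        have h8 : (0 : ℝ) < (ip t.1 t.2 : ℝ) := by exact_mod_cast ht.2.2.2.1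
        split_ifs
        · exact le_rfl
        · positivity
      · rw [if_neg c]
        refine (Finset.sum_eq_zero fun t ht => ?_).le
        rw [mem_PW hα] at ht
        rw [if_neg]
        intro h
        refine c (lt_of_le_of_lt h ?_)
        exact Nat.mul_lt_mul_of_pos_left ht.2.2.2.2.2.1 hp.pos
    refine (Finset.sum_le_sum h5).trans ?_
    rw [← Finset.sum_filter, Finset.sum_const, nsmul_eq_mul, mul_comm]
    exact mul_le_mul_of_nonneg_left (adi_count hp h4 K) (by linarith)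
  have f2 : ∑ t ∈ T₁, (if star π ∣ t.1 then 1 / (ip t.1 t.2 : ℝ) else 0) ≤ C₁ * (K / p) := by
    rw [hT₁, ← adi_sum hα 1 K (fun t => if star π ∣ t.1 then 1 / (ip t.1 t.2 : ℝ) else 0)]
    refine (Finset.sum_le_sum (g := fun _ => C₁ / (p : ℝ)) fun k _ => ?_).trans ?_
    · have := h₁ 1 k (star π) hd0
      rw [hnd, Finset.sum_filter] at this
      exact this
    · rw [Finset.sum_const, Finset.card_range, nsmul_eq_mul]
      exact le_of_eq (by ring)
  have f3 : ∑ t ∈ T₁, (if star π ∣ t.2 then 1 / (ip t.1 t.2 : ℝ) else 0) ≤ C₂ * (K / p) := by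
    rw [hT₁, ← adi_sum hα 1 K (fun t => if star π ∣ t.2 then 1 / (ip t.1 t.2 : ℝ) else 0)]
    refine (Finset.sum_le_sum (g := fun _ => C₂ / (p : ℝ)) fun k _ => ?_).trans ?_
    · have := h₂ k (star π) hd0
      rw [hnd, Finset.sum_filter] at this
      exact this
    · rw [Finset.sum_const, Finset.card_range, nsmul_eq_mul]
      exact le_of_eq (by ring)
  have f4 : |∑ k ∈ Finset.range K, BDp α β p k| ≤ C₃ * (K / p) := by
    refine (Finset.abs_sum_le_sum_abs _ _).trans ?_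
    refine (Finset.sum_le_sum fun k _ => h₃ p k hp h4).trans ?_
    rw [Finset.sum_const, Finset.card_range, nsmul_eq_mul]
    exact le_of_eq (by ring)
  have e5 : ∑ k ∈ Finset.range K, BD α β 1 k - ((p : ℝ) + 1) * ∑ k ∈ Finset.range K, BDp α β p k =
      (∑ t ∈ T₁, g t - ∑ t ∈ T', g t) - ∑ k ∈ Finset.range K, BDp α β p k := by
    rw [e1, e3, e2]
    ring
  rw [e5]
  refine (abs_sub _ _).trans ?_
  have hlog := adi_log hp h4
  have hKp : 0 ≤ (K : ℝ) / p := by positivity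
  have hC2log : 0 ≤ (C₂ + C₃) * Real.log p := by
    apply mul_nonneg <;> linarith
  have hC1K : 0 ≤ C₁ * ((K : ℝ) / p) := by
    apply mul_nonneg <;> linarith
  nlinarith [e4, f1, f2, f3, f4]

end Pool.Agent.T2


namespace Pool.Agent.T2

theorem dilation : type_of% @dilation_pr := @dilation_pr

end Pool.Agent.T2
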