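import Pool.Agent.Lib_helper39.TA.Defs

/-!
# T2, block AEN: conditional entropy (MP_892e4c_nt)
-/

namespace Pool.Agent.T2

open Finset

open Classical in
theorem aen_fb_pos {α σ : Type*} (Ω : Finset α) (h : α → σ) {x : α} (hx : x ∈ Ω) :
    0 < fb Ω h x := by
  unfold fb
  exact Finset.card_pos.mpr ⟨x, Finset.mem_filter.mpr ⟨hx, rfl⟩⟩

open Classical in
theorem aen_fb_pos_real {α σ : Type*} (Ω : Finset α) (h : α → σ) {x : α} (hx : x ∈ Ω) :
    (0 : ℝ) < (fb Ω h x : ℝ) := by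
  exact_mod_cast aen_fb_pos Ω h hx

open Classical in
theorem aen_fb_le {α σ σ' : Type*} (Ω : Finset α) (h : α → σ) (h' : α → σ') (x : α)
    (hh : ∀ y ∈ Ω, h' y = h' x → h y = h x) : fb Ω h' x ≤ fb Ω h x := by
  unfold fb
  apply Finset.card_le_card
  intro y hy
  rw [Finset.mem_filter] at hy ⊢
  exact ⟨hy.1, hh y hy.1 hy.2⟩

open Classical in
theorem aen_fb_congr {α σ σ' : Type*} (Ω : Finset α) (h : α → σ) (h' : α → σ') (x : α)
    (hh : ∀ y ∈ Ω, (h' y = h' x ↔ h y = h x)) : fb Ω h' x = fb Ω h x :=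
  le_antisymm (aen_fb_le Ω h h' x fun y hy => (hh y hy).1)
    (aen_fb_le Ω h' h x fun y hy => (hh y hy).2)

open Classical in
theorem aen_fb_same {α σ : Type*} (Ω : Finset α) (h : α → σ) {x y : α} (hxy : h x = h y) :
    fb Ω h x = fb Ω h y := by
  unfold fb
  rw [hxy]

/-- the sum of `1 / fb` over (a subset of) a fibre is at most one -/
theorem aen_sum_inv {α κ : Type*} (Ω : Finset α) (k : α → κ) (c : κ) (P : α → Prop)
    [DecidablePred P] (hP : ∀ x ∈ Ω, P x → k x = c) :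
    ∑ x ∈ Ω.filter P, (1 : ℝ) / (fb Ω k x : ℝ) ≤ 1 := by
  classical
  have hsub : Ω.filter P ⊆ Ω.filter (fun x => k x = c) := by
    intro x hx
    rw [Finset.mem_filter] at hx ⊢
    exact ⟨hx.1, hP x hx.1 hx.2⟩
  calc ∑ x ∈ Ω.filter P, (1 : ℝ) / (fb Ω k x : ℝ)
      ≤ ∑ x ∈ Ω.filter (fun x => k x = c), (1 : ℝ) / (fb Ω k x : ℝ) := by
        apply Finset.sum_le_sum_of_subset_of_nonneg hsub
        intro x _ _
        positivity
    _ = ∑ x ∈ Ω.filter (fun x => k x = c),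
          (1 : ℝ) / ((Ω.filter (fun x => k x = c)).card : ℝ) := by
        apply Finset.sum_congr rfl
        intro x hx
        rw [Finset.mem_filter] at hx
        unfold fb
        rw [hx.2]
    _ ≤ 1 := by
        rw [Finset.sum_const, nsmul_eq_mul]
        by_cases h0 : ((Ω.filter (fun x => k x = c)).card : ℝ) = 0
        · rw [h0]; simp
        · rw [mul_one_div, div_self h0]

theorem cE_nonneg_pr {α φ σ : Type*} (Ω : Finset α) (f : α → φ) (h : α → σ) : 0 ≤ cE Ω f h := by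
  unfold cE
  apply mul_nonneg (by positivity)
  apply Finset.sum_nonneg
  intro x hx
  apply Real.log_nonneg
  rw [le_div_iff₀ (aen_fb_pos_real Ω _ hx), one_mul]
  exact_mod_cast aen_fb_le Ω h (fun y => (f y, h y)) x
    (fun y _ hy => congrArg Prod.snd hy)

theorem cE_chain_pr {α φ ψ σ : Type*} (Ω : Finset α) (f : α → φ) (g : α → ψ) (h : α → σ) :
    cE Ω (fun x => (f x, g x)) h = cE Ω g h + cE Ω f (fun x => (g x, h x)) := by
  unfold cE
  rw [← mul_add, ← Finset.sum_add_distrib]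
  congr 1
  apply Finset.sum_congr rfl
  intro x hx
  have h1 := aen_fb_pos_real Ω h hx
  have h2 := aen_fb_pos_real Ω (fun y => (g y, h y)) hx
  have h3 := aen_fb_pos_real Ω (fun y => (f y, g y, h y)) hx
  have he : fb Ω (fun y => ((f y, g y), h y)) x = fb Ω (fun y => (f y, g y, h y)) x := by
    apply aen_fb_congr
    intro y _
    simp only [Prod.mk.injEq]
    tauto
  rw [he, ← Real.log_mul (by positivity) (by positivity)]
  congr 1
  field_simp

/-- the key inequality for `cE_cond_le_pr` -/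
theorem aen_key {α φ σ σ' : Type*} (Ω : Finset α) (f : α → φ) (h : α → σ) (h' : α → σ')
    (hh : ∀ x ∈ Ω, ∀ y ∈ Ω, h' x = h' y → h x = h y) :
    ∑ x ∈ Ω, ((fb Ω h' x : ℝ) * (fb Ω (fun y => (f y, h y)) x : ℝ)) /
      ((fb Ω (fun y => (f y, h' y)) x : ℝ) * (fb Ω h x : ℝ)) ≤ (Ω.card : ℝ) := by
  classical
  have hstep : ∀ x ∈ Ω, ((fb Ω h' x : ℝ) * (fb Ω (fun y => (f y, h y)) x : ℝ)) /
      ((fb Ω (fun y => (f y, h' y)) x : ℝ) * (fb Ω h x : ℝ)) =
      ∑ y ∈ Ω, ∑ z ∈ Ω, if h' y = h' x ∧ (f z = f x ∧ h z = h x) then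
        (1 : ℝ) / ((fb Ω (fun y => (f y, h' y)) x : ℝ) * (fb Ω h x : ℝ)) else 0 := by
    intro x hx
    have e1 : (fb Ω h' x : ℝ) = ∑ y ∈ Ω, if h' y = h' x then (1 : ℝ) else 0 := by
      unfold fb
      rw [Finset.sum_boole]
    have e2 : (fb Ω (fun y => (f y, h y)) x : ℝ) =
        ∑ z ∈ Ω, if (f z = f x ∧ h z = h x) then (1 : ℝ) else 0 := by
      unfold fb
      rw [Finset.sum_boole]
      simp only [Prod.mk.injEq]
    rw [e1, e2, Finset.sum_mul_sum, Finset.sum_div]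
    apply Finset.sum_congr rfl
    intro y _
    rw [Finset.sum_div]
    apply Finset.sum_congr rfl
    intro z _
    by_cases hy : h' y = h' x <;> by_cases hz : (f z = f x ∧ h z = h x) <;> simp [hy, hz]
  rw [Finset.sum_congr rfl hstep]
  -- reorder : sum over y, z, x
  have hre : ∑ x ∈ Ω, ∑ y ∈ Ω, ∑ z ∈ Ω, (if h' y = h' x ∧ (f z = f x ∧ h z = h x) then
        (1 : ℝ) / ((fb Ω (fun y => (f y, h' y)) x : ℝ) * (fb Ω h x : ℝ)) else 0) =
      ∑ y ∈ Ω, ∑ z ∈ Ω, ∑ x ∈ Ω, (if h' y = h' x ∧ (f z = f x ∧ h z = h x) then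
        (1 : ℝ) / ((fb Ω (fun y => (f y, h' y)) x : ℝ) * (fb Ω h x : ℝ)) else 0) := by
    rw [Finset.sum_comm]
    apply Finset.sum_congr rfl
    intro y _
    rw [Finset.sum_comm]
  rw [hre]
  have hy : ∀ y ∈ Ω, ∑ z ∈ Ω, ∑ x ∈ Ω, (if h' y = h' x ∧ (f z = f x ∧ h z = h x) then
        (1 : ℝ) / ((fb Ω (fun y => (f y, h' y)) x : ℝ) * (fb Ω h x : ℝ)) else 0) ≤ 1 := by
    intro y hy
    have hypos := aen_fb_pos_real Ω h hy
    have hz : ∀ z ∈ Ω, ∑ x ∈ Ω, (if h' y = h' x ∧ (f z = f x ∧ h z = h x) then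
        (1 : ℝ) / ((fb Ω (fun y => (f y, h' y)) x : ℝ) * (fb Ω h x : ℝ)) else 0) ≤
        if h z = h y then (1 : ℝ) / (fb Ω h y : ℝ) else 0 := by
      intro z hz
      by_cases hzy : h z = h y
      · rw [if_pos hzy]
        have e : ∑ x ∈ Ω, (if h' y = h' x ∧ (f z = f x ∧ h z = h x) then
            (1 : ℝ) / ((fb Ω (fun y => (f y, h' y)) x : ℝ) * (fb Ω h x : ℝ)) else 0) =
            (∑ x ∈ Ω.filter (fun x => h' y = h' x ∧ (f z = f x ∧ h z = h x)),
              (1 : ℝ) / (fb Ω (fun y => (f y, h' y)) x : ℝ)) * (1 / (fb Ω h y : ℝ)) := by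
          rw [← Finset.sum_filter, Finset.sum_mul]
          apply Finset.sum_congr rfl
          intro x hx
          rw [Finset.mem_filter] at hx
          have : fb Ω h x = fb Ω h y :=
            aen_fb_same Ω h (hh x hx.1 y hy hx.2.1.symm)
          rw [this]
          rw [one_div_mul_one_div]
        rw [e]
        have h1 := aen_sum_inv Ω (fun y => (f y, h' y)) (f z, h' y)
          (fun x => h' y = h' x ∧ (f z = f x ∧ h z = h x))
          (fun x _ hx => by rw [Prod.mk.injEq]; exact ⟨hx.2.1.symm, hx.1.symm⟩)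
        calc _ ≤ 1 * (1 / (fb Ω h y : ℝ)) := by
              apply mul_le_mul_of_nonneg_right h1 (by positivity)
          _ = _ := one_mul _
      · rw [if_neg hzy]
        apply le_of_eq
        apply Finset.sum_eq_zero
        intro x hx
        rw [if_neg]
        rintro ⟨ha, _, hb⟩
        apply hzy
        rw [hb]
        exact hh x hx y hy ha.symm
    calc _ ≤ ∑ z ∈ Ω, (if h z = h y then (1 : ℝ) / (fb Ω h y : ℝ) else 0) :=
          Finset.sum_le_sum hz
      _ = 1 := by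
          rw [← Finset.sum_filter, Finset.sum_const, nsmul_eq_mul]
          have : ((Ω.filter (fun z => h z = h y)).card : ℝ) = (fb Ω h y : ℝ) := by
            unfold fb; rfl
          rw [this, mul_one_div, div_self (ne_of_gt hypos)]
  calc _ ≤ ∑ y ∈ Ω, (1 : ℝ) := Finset.sum_le_sum hy
    _ = (Ω.card : ℝ) := by simp

theorem cE_cond_le_pr {α φ σ σ' : Type*} (Ω : Finset α) (f : α → φ) (h : α → σ) (h' : α → σ')
    (hh : ∀ x ∈ Ω, ∀ y ∈ Ω, h' x = h' y → h x = h y) : cE Ω f h' ≤ cE Ω f h := by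
  unfold cE
  apply mul_le_mul_of_nonneg_left _ (by positivity)
  rw [← sub_nonpos, ← Finset.sum_sub_distrib]
  have hle : ∀ x ∈ Ω, Real.log ((fb Ω h' x : ℝ) / (fb Ω (fun y => (f y, h' y)) x : ℝ)) -
      Real.log ((fb Ω h x : ℝ) / (fb Ω (fun y => (f y, h y)) x : ℝ)) ≤
      ((fb Ω h' x : ℝ) * (fb Ω (fun y => (f y, h y)) x : ℝ)) /
        ((fb Ω (fun y => (f y, h' y)) x : ℝ) * (fb Ω h x : ℝ)) - 1 := by
    intro x hx
    have h1 := aen_fb_pos_real Ω h hx
    have h2 := aen_fb_pos_real Ω h' hx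
    have h3 := aen_fb_pos_real Ω (fun y => (f y, h y)) hx
    have h4 := aen_fb_pos_real Ω (fun y => (f y, h' y)) hx
    rw [← Real.log_div (by positivity) (by positivity)]
    have e : (fb Ω h' x : ℝ) / (fb Ω (fun y => (f y, h' y)) x : ℝ) /
        ((fb Ω h x : ℝ) / (fb Ω (fun y => (f y, h y)) x : ℝ)) =
        ((fb Ω h' x : ℝ) * (fb Ω (fun y => (f y, h y)) x : ℝ)) /
        ((fb Ω (fun y => (f y, h' y)) x : ℝ) * (fb Ω h x : ℝ)) := by
      field_simp
    rw [e]
    exact Real.log_le_sub_one_of_pos (by positivity)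
  calc _ ≤ ∑ x ∈ Ω, (((fb Ω h' x : ℝ) * (fb Ω (fun y => (f y, h y)) x : ℝ)) /
        ((fb Ω (fun y => (f y, h' y)) x : ℝ) * (fb Ω h x : ℝ)) - 1) := Finset.sum_le_sum hle
    _ ≤ 0 := by
        rw [Finset.sum_sub_distrib]
        have := aen_key Ω f h h' hh
        simp only [Finset.sum_const, nsmul_eq_mul, mul_one]
        linarith

theorem cE_mono_pr {α φ φ' σ : Type*} (Ω : Finset α) (f : α → φ) (f' : α → φ') (h : α → σ)
    (hf : ∀ x ∈ Ω, ∀ y ∈ Ω, h x = h y → f' x = f' y → f x = f y) : cE Ω f h ≤ cE Ω f' h := by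
  unfold cE
  apply mul_le_mul_of_nonneg_left _ (by positivity)
  apply Finset.sum_le_sum
  intro x hx
  have h1 := aen_fb_pos_real Ω h hx
  have h3 := aen_fb_pos_real Ω (fun y => (f y, h y)) hx
  have h4 := aen_fb_pos_real Ω (fun y => (f' y, h y)) hx
  apply Real.log_le_log (by positivity)
  apply div_le_div_of_nonneg_left h1.le h4
  have := aen_fb_le Ω (fun y => (f y, h y)) (fun y => (f' y, h y)) x (by
    intro y hy e
    rw [Prod.mk.injEq] at e ⊢
    exact ⟨hf y hy x hx e.2 e.1, e.2⟩)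
  exact_mod_cast this

theorem cE_le_log_pr {α φ σ : Type*} (Ω : Finset α) (f : α → φ) (h : α → σ) (A : Finset φ)
    (hA : ∀ x ∈ Ω, f x ∈ A) : cE Ω f h ≤ Real.log A.card := by
  classical
  rcases Finset.eq_empty_or_nonempty Ω with rfl | hne
  · simp only [cE, Finset.card_empty, Finset.sum_empty, mul_zero]
    exact Real.log_natCast_nonneg _
  obtain ⟨x₀, hx₀⟩ := hne
  have hAc : (0 : ℝ) < (A.card : ℝ) := by
    exact_mod_cast Finset.card_pos.mpr ⟨f x₀, hA x₀ hx₀⟩
  have hΩ : (0 : ℝ) < (Ω.card : ℝ) := by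
    exact_mod_cast Finset.card_pos.mpr ⟨x₀, hx₀⟩
  have key : ∑ x ∈ Ω, (fb Ω h x : ℝ) / (fb Ω (fun y => (f y, h y)) x : ℝ) ≤
      (Ω.card : ℝ) * (A.card : ℝ) := by
    have hstep : ∀ x ∈ Ω, (fb Ω h x : ℝ) / (fb Ω (fun y => (f y, h y)) x : ℝ) =
        ∑ y ∈ Ω, ∑ c ∈ A, if h y = h x ∧ f x = c then
          (1 : ℝ) / (fb Ω (fun y => (f y, h y)) x : ℝ) else 0 := by
      intro x hx
      have e1 : (fb Ω h x : ℝ) = ∑ y ∈ Ω, if h y = h x then (1 : ℝ) else 0 := by
        unfold fb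
        rw [Finset.sum_boole]
      rw [e1, Finset.sum_div]
      apply Finset.sum_congr rfl
      intro y _
      by_cases hy : h y = h x
      · simp only [hy, if_true, true_and]
        rw [Finset.sum_ite_eq, if_pos (hA x hx)]
      · simp [hy]
    rw [Finset.sum_congr rfl hstep]
    have hre : ∑ x ∈ Ω, ∑ y ∈ Ω, ∑ c ∈ A, (if h y = h x ∧ f x = c then
          (1 : ℝ) / (fb Ω (fun y => (f y, h y)) x : ℝ) else 0) =
        ∑ y ∈ Ω, ∑ c ∈ A, ∑ x ∈ Ω, (if h y = h x ∧ f x = c then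
          (1 : ℝ) / (fb Ω (fun y => (f y, h y)) x : ℝ) else 0) := by
      rw [Finset.sum_comm]
      apply Finset.sum_congr rfl
      intro y _
      rw [Finset.sum_comm]
    rw [hre]
    calc _ ≤ ∑ y ∈ Ω, ∑ c ∈ A, (1 : ℝ) := by
          apply Finset.sum_le_sum
          intro y _
          apply Finset.sum_le_sum
          intro c _
          rw [← Finset.sum_filter]
          exact aen_sum_inv Ω (fun y => (f y, h y)) (c, h y) (fun x => h y = h x ∧ f x = c)
            (fun x _ hx => by rw [Prod.mk.injEq]; exact ⟨hx.2, hx.1.symm⟩)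
      _ = (Ω.card : ℝ) * (A.card : ℝ) := by
          simp
  have hle : ∀ x ∈ Ω, Real.log ((fb Ω h x : ℝ) / (fb Ω (fun y => (f y, h y)) x : ℝ)) ≤
      Real.log A.card +
        ((fb Ω h x : ℝ) / (fb Ω (fun y => (f y, h y)) x : ℝ) / (A.card : ℝ) - 1) := by
    intro x hx
    have h1 := aen_fb_pos_real Ω h hx
    have h3 := aen_fb_pos_real Ω (fun y => (f y, h y)) hx
    have := Real.log_le_sub_one_of_pos
      (x := (fb Ω h x : ℝ) / (fb Ω (fun y => (f y, h y)) x : ℝ) / (A.card : ℝ)) (by positivity)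
    rw [Real.log_div (by positivity) (by positivity)] at this
    linarith
  unfold cE
  rw [one_div, inv_mul_le_iff₀ hΩ]
  calc _ ≤ ∑ x ∈ Ω, (Real.log A.card +
        ((fb Ω h x : ℝ) / (fb Ω (fun y => (f y, h y)) x : ℝ) / (A.card : ℝ) - 1)) :=
        Finset.sum_le_sum hle
    _ = (Ω.card : ℝ) * Real.log A.card +
        ((∑ x ∈ Ω, (fb Ω h x : ℝ) / (fb Ω (fun y => (f y, h y)) x : ℝ)) / (A.card : ℝ) -
          (Ω.card : ℝ)) := by
        rw [Finset.sum_add_distrib, Finset.sum_sub_distrib, Finset.sum_div]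
        simp
    _ ≤ (Ω.card : ℝ) * Real.log A.card := by
        have : (∑ x ∈ Ω, (fb Ω h x : ℝ) / (fb Ω (fun y => (f y, h y)) x : ℝ)) / (A.card : ℝ) ≤
            (Ω.card : ℝ) := by
          rw [div_le_iff₀ hAc]
          exact key
        linarith

theorem aen_fb_comp {α σ : Type*} (Ω : Finset α) (T : α → α) (hT : ∀ x ∈ Ω, T x ∈ Ω)
    (hi : Set.InjOn T Ω) (h : α → σ) (x : α) :
    fb Ω (fun y => h (T y)) x = fb Ω h (T x) := by
  classical
  unfold fb
  have himg : Ω.image T = Ω := by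
    apply Finset.eq_of_subset_of_card_le
    · intro y hy
      rw [Finset.mem_image] at hy
      obtain ⟨z, hz, rfl⟩ := hy
      exact hT z hz
    · rw [Finset.card_image_of_injOn hi]
  have e : (Ω.filter (fun y => h y = h (T x))) =
      (Ω.filter (fun y => h (T y) = h (T x))).image T := by
    ext z
    rw [Finset.mem_filter, Finset.mem_image]
    constructor
    · rintro ⟨hz, hz2⟩
      rw [← himg, Finset.mem_image] at hz
      obtain ⟨y, hy, rfl⟩ := hz
      exact ⟨y, Finset.mem_filter.mpr ⟨hy, hz2⟩, rfl⟩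
    · rintro ⟨y, hy, rfl⟩
      rw [Finset.mem_filter] at hy
      exact ⟨hT y hy.1, hy.2⟩
  rw [e, Finset.card_image_of_injOn]
  intro a ha b hb hab
  have ha' : a ∈ Ω := (Finset.mem_filter.mp (Finset.mem_coe.mp ha)).1
  have hb' : b ∈ Ω := (Finset.mem_filter.mp (Finset.mem_coe.mp hb)).1
  exact hi (Finset.mem_coe.mpr ha') (Finset.mem_coe.mpr hb') hab

theorem cE_comp_pr {α φ σ : Type*} (Ω : Finset α) (T : α → α) (hT : ∀ x ∈ Ω, T x ∈ Ω)
    (hi : Set.InjOn T Ω) (f : α → φ) (h : α → σ) :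
    cE Ω (fun x => f (T x)) (fun x => h (T x)) = cE Ω f h := by
  classical
  have himg : Ω.image T = Ω := by
    apply Finset.eq_of_subset_of_card_le
    · intro y hy
      rw [Finset.mem_image] at hy
      obtain ⟨z, hz, rfl⟩ := hy
      exact hT z hz
    · rw [Finset.card_image_of_injOn hi]
  unfold cE
  congr 1
  have e2 : ∑ x ∈ Ω, Real.log ((fb Ω h x : ℝ) / (fb Ω (fun y => (f y, h y)) x : ℝ)) =
      ∑ x ∈ Ω, Real.log ((fb Ω h (T x) : ℝ) / (fb Ω (fun y => (f y, h y)) (T x) : ℝ)) := by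
    conv_lhs => rw [← himg]
    rw [Finset.sum_image (fun a ha b hb hab => hi ha hb hab)]
    rw [himg]
  rw [e2]
  apply Finset.sum_congr rfl
  intro x _
  rw [aen_fb_comp Ω T hT hi h x]
  rw [show (fun y => (f (T y), h (T y))) = (fun y => (fun z => (f z, h z)) (T y)) from rfl]
  rw [aen_fb_comp Ω T hT hi (fun z => (f z, h z)) x]

end Pool.Agent.T2


namespace Pool.Agent.T2

theorem cE_nonneg : type_of% @cE_nonneg_pr := @cE_nonneg_pr
theorem cE_chain : type_of% @cE_chain_pr := @cE_chain_pr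
theorem cE_cond_le : type_of% @cE_cond_le_pr := @cE_cond_le_pr
theorem cE_mono : type_of% @cE_mono_pr := @cE_mono_pr
theorem cE_le_log : type_of% @cE_le_log_pr := @cE_le_log_pr
theorem cE_comp : type_of% @cE_comp_pr := @cE_comp_pr

end Pool.Agent.T2
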