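import Pool.Agent.Lib_helper39.TA.Defs
import Pool.Agent.Lib_helper10.T2F.AEN

/-!
# T2, block ADS: the entropy decrement (MP_892e4c_nt)
-/

namespace Pool.Agent.T2

open Finset

theorem ads_iter_mem {α : Type*} (Ω : Finset α) (T : α → α) (hT : ∀ x ∈ Ω, T x ∈ Ω) (k : ℕ)
    {x : α} (hx : x ∈ Ω) : T^[k] x ∈ Ω := by
  induction k with
  | zero => exact hx
  | succ k ih => rw [Function.iterate_succ_apply']; exact hT _ ih

theorem ads_iter_inj {α : Type*} (Ω : Finset α) (T : α → α) (hT : ∀ x ∈ Ω, T x ∈ Ω)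
    (hi : Set.InjOn T Ω) (k : ℕ) : Set.InjOn (T^[k]) Ω := by
  induction k with
  | zero => intro a _ b _ hab; exact hab
  | succ k ih =>
    intro a ha b hb hab
    rw [Function.iterate_succ_apply', Function.iterate_succ_apply'] at hab
    exact ih ha hb (hi (Finset.mem_coe.mpr (ads_iter_mem Ω T hT k (Finset.mem_coe.mp ha)))
      (Finset.mem_coe.mpr (ads_iter_mem Ω T hT k (Finset.mem_coe.mp hb))) hab)

theorem ads_Wd_iff {α σ : Type*} (T : α → α) (s : α → σ) (L : ℕ) (x x' : α) :
    Wd T s L x = Wd T s L x' ↔ ∀ i < L, s (T^[i] x) = s (T^[i] x') := by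
  constructor
  · intro h i hi
    have := congrFun h ⟨i, hi⟩
    simpa [Wd] using this
  · intro h
    funext i
    simpa [Wd] using h i i.2

theorem ads_y_iter {α σ τ : Type*} (Ω : Finset α) (T : α → α) (hT : ∀ x ∈ Ω, T x ∈ Ω)
    (s : α → σ) (y : α → τ)
    (hy : ∀ x ∈ Ω, ∀ x' ∈ Ω, s x = s x' → y x = y x' → y (T x) = y (T x')) (k : ℕ)
    {x x' : α} (hx : x ∈ Ω) (hx' : x' ∈ Ω) (h0 : y x = y x')
    (hs : ∀ i < k, s (T^[i] x) = s (T^[i] x')) : y (T^[k] x) = y (T^[k] x') := by
  induction k with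
  | zero => exact h0
  | succ k ih =>
    rw [Function.iterate_succ_apply', Function.iterate_succ_apply']
    exact hy _ (ads_iter_mem Ω T hT k hx) _ (ads_iter_mem Ω T hT k hx') (hs k (Nat.lt_succ_self k))
      (ih fun i hi => hs i (Nat.lt_succ_of_lt hi))

theorem ads_block {α σ γ τ : Type*} (Ω : Finset α) (T : α → α) (hT : ∀ x ∈ Ω, T x ∈ Ω)
    (hi : Set.InjOn T Ω) (s : α → σ) (g : α → γ) (y : α → τ)
    (hy : ∀ x ∈ Ω, ∀ x' ∈ Ω, s x = s x' → y x = y x' → y (T x) = y (T x')) (M L : ℕ) (j : ℕ)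
    (hj : j ≤ M) :
    cE Ω (Wd T g (j * L)) (fun x => (y x, Wd T s (M * L) x)) ≤
      (j : ℝ) * cE Ω (Wd T g L) (fun x => (y x, Wd T s L x)) := by
  induction j with
  | zero =>
    have h := cE_le_log Ω (Wd T g (0 * L)) (fun x => (y x, Wd T s (M * L) x))
      ({fun i => absurd i.2 (by simp)} : Finset (Fin (0 * L) → γ)) (by
        intro x _
        rw [Finset.mem_singleton]
        funext i
        exact absurd i.2 (by simp))
    simpa using h
  | succ j ih =>
    have ih' := ih (Nat.le_of_succ_le hj)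
    set h : α → τ × (Fin (M * L) → σ) := fun x => (y x, Wd T s (M * L) x) with hh
    set Gj : α → (Fin L → γ) := fun x => Wd T g L (T^[j * L] x) with hGj
    have h1 : cE Ω (Wd T g ((j + 1) * L)) h ≤
        cE Ω (fun x => (Gj x, Wd T g (j * L) x)) h := by
      apply cE_mono
      intro x _ x' _ _ e
      rw [Prod.mk.injEq] at e
      obtain ⟨e1, e2⟩ := e
      rw [ads_Wd_iff] at e2
      simp only [hGj] at e1
      rw [ads_Wd_iff] at e1
      rw [ads_Wd_iff]
      intro i hi
      by_cases hij : i < j * L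
      · exact e2 i hij
      · have hle : j * L ≤ i := Nat.le_of_not_lt hij
        have hlt : i - j * L < L := by
          have : (j + 1) * L = j * L + L := by ring
          omega
        have := e1 (i - j * L) hlt
        rw [← Function.iterate_add_apply, ← Function.iterate_add_apply] at this
        rwa [Nat.sub_add_cancel hle] at this
    have h2 := cE_chain Ω Gj (Wd T g (j * L)) h
    have h3 : cE Ω Gj (fun x => (Wd T g (j * L) x, h x)) ≤
        cE Ω Gj (fun x => (y (T^[j * L] x), Wd T s L (T^[j * L] x))) := by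
      apply cE_cond_le
      intro x hx x' hx' e
      rw [Prod.mk.injEq] at e
      obtain ⟨_, e⟩ := e
      simp only [hh] at e
      rw [Prod.mk.injEq, ads_Wd_iff] at e
      obtain ⟨e0, e1⟩ := e
      have hjL : (j + 1) * L ≤ M * L := Nat.mul_le_mul_right L hj
      have hjL' : (j + 1) * L = j * L + L := by ring
      rw [Prod.mk.injEq]
      refine ⟨ads_y_iter Ω T hT s y hy (j * L) hx hx' e0 (fun i hi => e1 i (by omega)), ?_⟩
      rw [ads_Wd_iff]
      intro i hi
      rw [← Function.iterate_add_apply, ← Function.iterate_add_apply]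
      exact e1 (i + j * L) (by omega)
    have h4 : cE Ω Gj (fun x => (y (T^[j * L] x), Wd T s L (T^[j * L] x))) =
        cE Ω (Wd T g L) (fun x => (y x, Wd T s L x)) :=
      cE_comp Ω (T^[j * L]) (fun x hx => ads_iter_mem Ω T hT _ hx)
        (ads_iter_inj Ω T hT hi _) (Wd T g L) (fun x => (y x, Wd T s L x))
    push_cast
    linarith

theorem dec_step_pr {α σ γ τ : Type*} (Ω : Finset α) (T : α → α) (hT : ∀ x ∈ Ω, T x ∈ Ω)
    (hi : Set.InjOn T Ω) (s : α → σ) (g : α → γ) (y : α → τ) (E : Finset τ)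
    (hE : ∀ x ∈ Ω, y x ∈ E)
    (hy : ∀ x ∈ Ω, ∀ x' ∈ Ω, s x = s x' → y x = y x' → y (T x) = y (T x')) (m L : ℕ) :
    cE Ω (Wd T g (m * L)) (Wd T s (m * L)) ≤
      Real.log E.card + m * cE Ω (Wd T g L) (fun x => (y x, Wd T s L x)) := by
  have h1 : cE Ω (Wd T g (m * L)) (Wd T s (m * L)) ≤
      cE Ω (fun x => (Wd T g (m * L) x, y x)) (Wd T s (m * L)) := by
    apply cE_mono
    intro x _ x' _ _ e
    exact congrArg Prod.fst e
  have h2 := cE_chain Ω (Wd T g (m * L)) y (Wd T s (m * L))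
  have h3 := cE_le_log Ω y (Wd T s (m * L)) E hE
  have h4 := ads_block Ω T hT hi s g y hy m L m le_rfl
  linarith

end Pool.Agent.T2


namespace Pool.Agent.T2

theorem dec_step : type_of% @dec_step_pr := @dec_step_pr

end Pool.Agent.T2
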