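import Pool.Agent.Lib_helper39.TA.Defs

/-! T2, package A, block ADV: the inequality of Donsker and Varadhan with the bound of Hoeffding. -/

namespace Pool.Agent.T2

open Filter Topology

open Classical in
/-- counting over the classes -/
theorem adv_count {α κ τ : Type*} (Ω : Finset α) (g : α → κ) (y : α → τ) (P : Finset τ)
    (hP : ∀ x ∈ Ω, y x ∈ P) (G : α → τ → ℝ)
    (hG : ∀ x ∈ Ω, ∀ x' ∈ Ω, g x = g x' → ∀ t ∈ P, G x t = G x' t)
    (h0 : ∀ x ∈ Ω, ∀ t ∈ P, 0 ≤ G x t) (n : α → ℝ)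
    (hn : ∀ x ∈ Ω, n x = ((Ω.filter (fun z => g z = g x ∧ y z = y x)).card : ℝ)) :
    ∑ x ∈ Ω, G x (y x) / n x ≤ ∑ x ∈ Ω, (1 / (fb Ω g x : ℝ)) * ∑ t ∈ P, G x t := by
  have hpos : ∀ x ∈ Ω, (0 : ℝ) < (fb Ω g x : ℝ) := by
    intro x hx
    rw [Nat.cast_pos, fb, Finset.card_pos]
    exact ⟨x, Finset.mem_filter.2 ⟨hx, rfl⟩⟩
  have e1 : ∑ x ∈ Ω, G x (y x) / n x = ∑ x ∈ Ω, ∑ z ∈ Ω,
      (if g z = g x then (1 / (fb Ω g z : ℝ)) * (G z (y x) / n x) else 0) := by
    apply Finset.sum_congr rfl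
    intro x hx
    rw [← Finset.sum_filter]
    have : ∀ z ∈ Ω.filter (fun z => g z = g x),
        (1 / (fb Ω g z : ℝ)) * (G z (y x) / n x) = (1 / (fb Ω g x : ℝ)) * (G x (y x) / n x) := by
      intro z hz
      rw [Finset.mem_filter] at hz
      have h1 : fb Ω g z = fb Ω g x := by
        unfold fb
        rw [hz.2]
      rw [h1, hG z hz.1 x hx hz.2 _ (hP x hx)]
    rw [Finset.sum_congr rfl this, Finset.sum_const, nsmul_eq_mul]
    have h2 : ((Ω.filter (fun z => g z = g x)).card : ℝ) = (fb Ω g x : ℝ) := rfl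
    rw [h2, ← mul_assoc, mul_one_div_cancel (hpos x hx).ne', one_mul]
  rw [e1, Finset.sum_comm]
  apply Finset.sum_le_sum
  intro z hz
  rw [← Finset.sum_filter, ← Finset.mul_sum]
  apply mul_le_mul_of_nonneg_left _ (by positivity)
  rw [← Finset.sum_fiberwise_of_maps_to (t := P) (g := y)
    (fun x hx => hP x (Finset.mem_filter.1 hx).1)]
  apply Finset.sum_le_sum
  intro t ht
  have h3 : ∀ x ∈ (Ω.filter (fun x => g z = g x)).filter (fun x => y x = t),
      G z (y x) / n x =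
      G z t / (((Ω.filter (fun x => g z = g x)).filter (fun x => y x = t)).card : ℝ) := by
    intro x hx
    rw [Finset.mem_filter, Finset.mem_filter] at hx
    obtain ⟨⟨hx1, hx2⟩, hx3⟩ := hx
    rw [hn x hx1, hx3, Finset.filter_filter]
    congr 4
    ext w
    rw [hx2]
    constructor
    · rintro ⟨a, b⟩; exact ⟨a.symm, b⟩
    · rintro ⟨a, b⟩; exact ⟨a.symm, b⟩
  rw [Finset.sum_congr rfl h3, Finset.sum_const, nsmul_eq_mul]
  set c : ℝ := (((Ω.filter (fun x => g z = g x)).filter (fun x => y x = t)).card : ℝ) with hc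
  have hc0 : 0 ≤ c := by positivity
  rcases hc0.eq_or_lt with h | h
  · rw [← h, zero_mul]; exact h0 z hz t ht
  · rw [mul_div_cancel₀ _ h.ne']

theorem adv_pos {α κ : Type*} (Ω : Finset α) (g : α → κ) {x : α} (hx : x ∈ Ω) :
    (0 : ℝ) < (fb Ω g x : ℝ) := by
  classical
  rw [Nat.cast_pos, fb, Finset.card_pos]
  exact ⟨x, Finset.mem_filter.2 ⟨hx, rfl⟩⟩

theorem adv_log (p a b c d Z : ℝ) (ha : 0 < a) (hb : 0 < b) (hc : 0 < c) (hd : 0 < d)
    (hZ : 0 < Z) : p + (Real.log (b / d) - Real.log (c / a)) - Real.log Z ≤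
      Real.exp p * a * b / (Z * c) / d - 1 := by
  have h8 : 0 < Real.exp p * a * b / (Z * c) / d := by positivity
  have e : Real.log (Real.exp p * a * b / (Z * c) / d) =
      p + Real.log a + Real.log b - (Real.log Z + Real.log c) - Real.log d := by
    rw [Real.log_div (by positivity) hd.ne', Real.log_div (by positivity) (by positivity),
      Real.log_mul (by positivity) hb.ne', Real.log_mul (by positivity) ha.ne', Real.log_exp,
      Real.log_mul hZ.ne' hc.ne']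
  have h9 := Real.log_le_sub_one_of_pos h8
  rw [e] at h9
  rw [Real.log_div hb.ne' hd.ne', Real.log_div hc.ne' ha.ne']
  linarith

theorem adv_fbc {α κ : Type*} (Ω : Finset α) (g : α → κ) {x x' : α} (h : g x = g x') :
    fb Ω g x = fb Ω g x' := by
  classical
  unfold fb
  rw [h]

open Classical in
/-- the partition function -/
noncomputable def adv_Z {α σ τ : Type*} (Ω : Finset α) (h : α → σ) (y : α → τ)
    (P : Finset τ) (ψ : α → τ → ℝ) (x : α) : ℝ :=
  ∑ t ∈ P, ((Ω.filter (fun z => h z = h x ∧ y z = t)).card : ℝ) / (fb Ω h x : ℝ) *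
    Real.exp (ψ x t)

open Classical in
theorem adv_Zpos {α σ τ : Type*} (Ω : Finset α) (h : α → σ) (y : α → τ)
    (P : Finset τ) (ψ : α → τ → ℝ) {x : α} (hx : x ∈ Ω) (hP : y x ∈ P) :
    0 < adv_Z Ω h y P ψ x := by
  refine lt_of_lt_of_le ?_ (Finset.single_le_sum (f := fun t =>
        ((Ω.filter (fun z => h z = h x ∧ y z = t)).card : ℝ) / (fb Ω h x : ℝ) *
          Real.exp (ψ x t)) (fun t _ => by positivity) hP)
  have h1 : (0 : ℝ) < ((Ω.filter (fun z => h z = h x ∧ y z = y x)).card : ℝ) := by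
    rw [Nat.cast_pos, Finset.card_pos]
    exact ⟨x, Finset.mem_filter.2 ⟨hx, rfl, rfl⟩⟩
  have h2 := adv_pos Ω h hx
  positivity

open Classical in
/-- the weight -/
noncomputable def adv_G {α φ σ τ : Type*} (Ω : Finset α) (f : α → φ) (h : α → σ) (y : α → τ)
    (P : Finset τ) (ψ : α → τ → ℝ) (x : α) (t : τ) : ℝ :=
  Real.exp (ψ x t) * (fb Ω (fun z => (f z, h z)) x : ℝ) *
    ((Ω.filter (fun z => h z = h x ∧ y z = t)).card : ℝ) /
      (adv_Z Ω h y P ψ x * (fb Ω h x : ℝ))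

open Classical in
theorem adv_sum {α φ σ τ : Type*} (Ω : Finset α) (f : α → φ) (h : α → σ) (y : α → τ)
    (P : Finset τ) (ψ : α → τ → ℝ) {x : α} (hx : x ∈ Ω) (hP : y x ∈ P) :
    (1 / (fb Ω (fun z => (f z, h z)) x : ℝ)) * ∑ t ∈ P, adv_G Ω f h y P ψ x t = 1 := by
  have h1 := adv_pos Ω (fun z => (f z, h z)) hx
  have h2 := adv_pos Ω h hx
  have h3 := adv_Zpos Ω h y P ψ hx hP
  have h4 : ∑ t ∈ P, adv_G Ω f h y P ψ x t =
      (fb Ω (fun z => (f z, h z)) x : ℝ) / adv_Z Ω h y P ψ x * adv_Z Ω h y P ψ x := by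
    have : ∀ t ∈ P, adv_G Ω f h y P ψ x t =
        (fb Ω (fun z => (f z, h z)) x : ℝ) / adv_Z Ω h y P ψ x *
        (((Ω.filter (fun z => h z = h x ∧ y z = t)).card : ℝ) / (fb Ω h x : ℝ) *
          Real.exp (ψ x t)) := by
      intro t _
      unfold adv_G
      generalize adv_Z Ω h y P ψ x = Z at h3
      generalize (fb Ω (fun z => (f z, h z)) x : ℝ) = a at h1
      generalize (fb Ω h x : ℝ) = b at h2
      field_simp
    rw [Finset.sum_congr rfl this, ← Finset.mul_sum]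
    rfl
  rw [h4, div_mul_cancel₀ _ h3.ne', one_div, inv_mul_cancel₀ h1.ne']

open Classical in
theorem adv_step {α φ σ τ : Type*} (Ω : Finset α) (f : α → φ) (h : α → σ) (y : α → τ)
    (P : Finset τ) (ψ : α → τ → ℝ) {x : α} (hx : x ∈ Ω) (hP : y x ∈ P) :
    ψ x (y x) + (Real.log ((fb Ω (fun z => (y z, h z)) x : ℝ) /
        (fb Ω (fun z => (f z, y z, h z)) x : ℝ)) - Real.log ((fb Ω h x : ℝ) /
        (fb Ω (fun z => (f z, h z)) x : ℝ))) - Real.log (adv_Z Ω h y P ψ x) ≤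
      adv_G Ω f h y P ψ x (y x) / (fb Ω (fun z => (f z, y z, h z)) x : ℝ) - 1 := by
  have h6 : ((Ω.filter (fun z => h z = h x ∧ y z = y x)).card : ℝ) =
      (fb Ω (fun z => (y z, h z)) x : ℝ) := by
    unfold fb
    congr 2
    ext w
    simp only [Finset.mem_filter, Prod.mk.injEq]
    tauto
  unfold adv_G
  rw [h6]
  exact adv_log _ _ _ _ _ _ (adv_pos Ω _ hx) (adv_pos Ω _ hx) (adv_pos Ω _ hx)
    (adv_pos Ω _ hx) (adv_Zpos Ω h y P ψ hx hP)

open Classical in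
theorem adv_Gc {α φ σ τ : Type*} (Ω : Finset α) (f : α → φ) (h : α → σ) (y : α → τ)
    (P : Finset τ) (ψ : α → τ → ℝ)
    (hψ : ∀ x ∈ Ω, ∀ x' ∈ Ω, f x = f x' → h x = h x' → ∀ t ∈ P, ψ x t = ψ x' t)
    (x : α) (hx : x ∈ Ω) (x' : α) (hx' : x' ∈ Ω) (e : f x = f x') (e' : h x = h x') (t : τ)
    (ht : t ∈ P) : adv_G Ω f h y P ψ x t = adv_G Ω f h y P ψ x' t := by
  have h1 : adv_Z Ω h y P ψ x = adv_Z Ω h y P ψ x' := by
    apply Finset.sum_congr rfl
    intro s hs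
    rw [hψ x hx x' hx' e e' s hs, adv_fbc Ω h e', e']
  unfold adv_G
  rw [h1, hψ x hx x' hx' e e' t ht, adv_fbc Ω h e',
    adv_fbc Ω (fun z => (f z, h z)) (show (f x, h x) = (f x', h x') by rw [e, e']), e']

open Classical in
theorem adv_sumG {α φ σ τ : Type*} (Ω : Finset α) (f : α → φ) (h : α → σ) (y : α → τ)
    (P : Finset τ) (hP : ∀ x ∈ Ω, y x ∈ P) (ψ : α → τ → ℝ)
    (hψ : ∀ x ∈ Ω, ∀ x' ∈ Ω, f x = f x' → h x = h x' → ∀ t ∈ P, ψ x t = ψ x' t) :
    ∑ x ∈ Ω, adv_G Ω f h y P ψ x (y x) / (fb Ω (fun z => (f z, y z, h z)) x : ℝ) ≤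
      (Ω.card : ℝ) := by
  have key := adv_count Ω (fun z => (f z, h z)) y P hP (adv_G Ω f h y P ψ)
    (fun x hx x' hx' e t ht => adv_Gc Ω f h y P ψ hψ x hx x' hx' (congrArg Prod.fst e)
      (congrArg Prod.snd e) t ht)
    (by
      intro x hx t ht
      have h3 := adv_Zpos Ω h y P ψ hx (hP x hx)
      unfold adv_G
      positivity)
    (fun x => (fb Ω (fun z => (f z, y z, h z)) x : ℝ)) (by
      intro x hx
      show (fb Ω (fun z => (f z, y z, h z)) x : ℝ) = _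
      unfold fb
      congr 2
      ext w
      simp only [Finset.mem_filter, Prod.mk.injEq]
      tauto)
  refine key.trans (le_of_eq ?_)
  rw [Finset.sum_congr rfl (fun x hx => adv_sum Ω f h y P ψ hx (hP x hx)), Finset.sum_const,
    nsmul_eq_mul, mul_one]

open Classical in
/-- the inequality of Gibbs -/
theorem adv_gibbs {α φ σ τ : Type*} (Ω : Finset α) (f : α → φ) (h : α → σ) (y : α → τ)
    (P : Finset τ) (hP : ∀ x ∈ Ω, y x ∈ P) (ψ : α → τ → ℝ)
    (hψ : ∀ x ∈ Ω, ∀ x' ∈ Ω, f x = f x' → h x = h x' → ∀ t ∈ P, ψ x t = ψ x' t) :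
    ∑ x ∈ Ω, ψ x (y x) ≤
      (Ω.card : ℝ) * (cE Ω f h - cE Ω f (fun x => (y x, h x))) +
      ∑ x ∈ Ω, Real.log (adv_Z Ω h y P ψ x) := by
  rcases Ω.eq_empty_or_nonempty with hΩ | hΩ
  · subst hΩ; simp
  have hcard : (0 : ℝ) < (Ω.card : ℝ) := by
    rw [Nat.cast_pos, Finset.card_pos]; exact hΩ
  have hsum := Finset.sum_le_sum (fun x hx => adv_step Ω f h y P ψ hx (hP x hx))
  simp only [Finset.sum_sub_distrib, Finset.sum_add_distrib, Finset.sum_const, nsmul_eq_mul,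
    mul_one] at hsum
  have hG := adv_sumG Ω f h y P hP ψ hψ
  have hcE : (Ω.card : ℝ) * (cE Ω f h - cE Ω f (fun x => (y x, h x))) =
      ∑ x ∈ Ω, Real.log ((fb Ω h x : ℝ) / (fb Ω (fun z => (f z, h z)) x : ℝ)) -
      ∑ x ∈ Ω, Real.log ((fb Ω (fun z => (y z, h z)) x : ℝ) /
        (fb Ω (fun z => (f z, y z, h z)) x : ℝ)) := by
    unfold cE
    rw [← mul_sub, ← mul_assoc, mul_one_div_cancel hcard.ne', one_mul]
  rw [hcE]
  linarith

/-- the bound of Hoeffding -/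
theorem adv_hoeff {τ : Type*} (E : Finset τ) (hE : E.Nonempty) (v : τ → ℝ) (b : ℝ) (hb : 0 ≤ b)
    (hv : ∀ t ∈ E, |v t| ≤ b) (h0 : ∑ t ∈ E, v t = 0) :
    ∑ t ∈ E, Real.exp (v t) ≤ (E.card : ℝ) * Real.exp (b ^ 2 / 2) := by
  have hc : ∀ t ∈ E, Real.exp (v t) ≤ Real.cosh b + (v t / b) * Real.sinh b := by
    intro t ht
    rcases hb.eq_or_lt with h | h
    · subst h
      have : v t = 0 := abs_nonpos_iff.1 (hv t ht)
      rw [this]; simp
    · have h1 := abs_le.1 (hv t ht)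
      have hw1 : 0 ≤ (b - v t) / (2 * b) := div_nonneg (by linarith) (by linarith)
      have hw2 : 0 ≤ (b + v t) / (2 * b) := div_nonneg (by linarith) (by linarith)
      have hw3 : (b - v t) / (2 * b) + (b + v t) / (2 * b) = 1 := by field_simp; ring
      have hconv := convexOn_exp.2 (Set.mem_univ (-b)) (Set.mem_univ b) hw1 hw2 hw3
      simp only [smul_eq_mul] at hconv
      have e1 : (b - v t) / (2 * b) * -b + (b + v t) / (2 * b) * b = v t := by
        field_simp; ring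
      rw [e1] at hconv
      refine hconv.trans (le_of_eq ?_)
      rw [Real.cosh_eq, Real.sinh_eq]
      field_simp
      ring
  have h1 := Finset.sum_le_sum hc
  rw [Finset.sum_add_distrib, Finset.sum_const, nsmul_eq_mul, ← Finset.sum_mul, ← Finset.sum_div,
    h0, zero_div, zero_mul, add_zero] at h1
  refine h1.trans ?_
  apply mul_le_mul_of_nonneg_left _ (by positivity)
  exact Real.cosh_le_exp_half_sq b

theorem adv_logadd (c b : ℝ) (hc : 0 ≤ c) (hb : 0 ≤ b) :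
    Real.log (Real.exp c + b) ≤ c + b := by
  have h1 : Real.exp c + b ≤ Real.exp (c + b) := by
    rw [Real.exp_add]
    have h2 : 1 ≤ Real.exp c := Real.one_le_exp hc
    have h3 : b + 1 ≤ Real.exp b := Real.add_one_le_exp b
    nlinarith [mul_nonneg (sub_nonneg.2 h2) hb]
  calc Real.log (Real.exp c + b) ≤ Real.log (Real.exp (c + b)) :=
        Real.log_le_log (by positivity) h1
    _ = c + b := Real.log_exp _

open Classical in
theorem adv_Zle {α σ ι τ : Type*} [Fintype ι] (Ω : Finset α) (h : α → σ)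
    (y : α → ι → τ) (E : ι → Finset τ) (hE : ∀ x ∈ Ω, ∀ i, y x i ∈ E i) (Φ : ι → α → τ → ℝ)
    (B : ℝ) (hB : 0 ≤ B) (hb : ∀ i, ∀ x ∈ Ω, ∀ t ∈ E i, |Φ i x t| ≤ B)
    (h0 : ∀ i, ∀ x ∈ Ω, ∑ t ∈ E i, Φ i x t = 0) (l : ℝ) (hl : 0 < l) {x : α} (hx : x ∈ Ω) :
    adv_Z Ω h y (Fintype.piFinset E) (fun x t => l * ∑ i, Φ i x (t i)) x ≤
      Real.exp (l ^ 2 * B ^ 2 * Fintype.card ι / 2) + Real.exp (l * B * Fintype.card ι) *
      ∑ t ∈ Fintype.piFinset E,
    |((Ω.filter (fun z => h z = h x ∧ y z = t)).card : ℝ) / (fb Ω h x : ℝ) -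
      1 / ((Fintype.piFinset E).card : ℝ)| := by
  have hEne : ∀ i, (E i).Nonempty := fun i => ⟨y x i, hE x hx i⟩
  have hEc : ∀ i, (0 : ℝ) < ((E i).card : ℝ) := by
    intro i
    rw [Nat.cast_pos, Finset.card_pos]
    exact hEne i
  have hPc : ((Fintype.piFinset E).card : ℝ) = ∏ i, ((E i).card : ℝ) := by
    rw [Fintype.card_piFinset, Nat.cast_prod]
  have hPpos : (0 : ℝ) < ((Fintype.piFinset E).card : ℝ) := by
    rw [hPc]
    exact Finset.prod_pos (fun i _ => hEc i)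
  have hexp : ∀ t ∈ Fintype.piFinset E,
      Real.exp (l * ∑ i, Φ i x (t i)) ≤ Real.exp (l * B * Fintype.card ι) := by
    intro t ht
    rw [Fintype.mem_piFinset] at ht
    rw [Real.exp_le_exp, mul_assoc]
    apply mul_le_mul_of_nonneg_left _ hl.le
    calc ∑ i, Φ i x (t i) ≤ ∑ _i : ι, B :=
          Finset.sum_le_sum (fun i _ => (le_abs_self _).trans (hb i x hx _ (ht i)))
      _ = B * Fintype.card ι := by
          rw [Finset.sum_const, nsmul_eq_mul, Finset.card_univ, mul_comm]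
  have hmean : (1 / ((Fintype.piFinset E).card : ℝ)) *
      ∑ t ∈ Fintype.piFinset E, Real.exp (l * ∑ i, Φ i x (t i)) ≤
      Real.exp (l ^ 2 * B ^ 2 * Fintype.card ι / 2) := by
    have e1 : ∑ t ∈ Fintype.piFinset E, Real.exp (l * ∑ i, Φ i x (t i)) =
        ∏ i, ∑ j ∈ E i, Real.exp (l * Φ i x j) := by
      rw [Finset.prod_univ_sum]
      apply Finset.sum_congr rfl
      intro t _
      rw [Finset.mul_sum, Real.exp_sum]
    have e2 : ∏ i, ∑ j ∈ E i, Real.exp (l * Φ i x j) ≤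
        ∏ i, (((E i).card : ℝ) * Real.exp ((l * B) ^ 2 / 2)) := by
      apply Finset.prod_le_prod
      · intro i _
        exact Finset.sum_nonneg (fun j _ => (Real.exp_pos _).le)
      · intro i _
        apply adv_hoeff (E i) (hEne i) _ _ (by positivity)
        · intro t ht
          rw [abs_mul, abs_of_pos hl]
          exact mul_le_mul_of_nonneg_left (hb i x hx t ht) hl.le
        · rw [← Finset.mul_sum, h0 i x hx, mul_zero]
    rw [e1]
    calc (1 / ((Fintype.piFinset E).card : ℝ)) * ∏ i, ∑ j ∈ E i, Real.exp (l * Φ i x j)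
        ≤ (1 / ((Fintype.piFinset E).card : ℝ)) *
          ∏ i, (((E i).card : ℝ) * Real.exp ((l * B) ^ 2 / 2)) :=
          mul_le_mul_of_nonneg_left e2 (by positivity)
      _ = Real.exp (l ^ 2 * B ^ 2 * Fintype.card ι / 2) := by
          rw [Finset.prod_mul_distrib, ← hPc, ← mul_assoc, one_div_mul_cancel hPpos.ne',
            one_mul, Finset.prod_const, Finset.card_univ, ← Real.exp_nat_mul]
          congr 1
          ring
  have e0 : adv_Z Ω h y (Fintype.piFinset E) (fun x t => l * ∑ i, Φ i x (t i)) x =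
      (1 / ((Fintype.piFinset E).card : ℝ)) *
      ∑ t ∈ Fintype.piFinset E, Real.exp (l * ∑ i, Φ i x (t i)) +
      ∑ t ∈ Fintype.piFinset E,
      (((Ω.filter (fun z => h z = h x ∧ y z = t)).card : ℝ) / (fb Ω h x : ℝ) -
      1 / ((Fintype.piFinset E).card : ℝ)) * Real.exp (l * ∑ i, Φ i x (t i)) := by
    unfold adv_Z
    rw [Finset.mul_sum, ← Finset.sum_add_distrib]
    apply Finset.sum_congr rfl
    intro t _
    have hr : ∀ (a a' b c d : ℝ), a = a' → a / b * d = 1 / c * d + (a' / b - 1 / c) * d := by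
      intro a a' b c d e
      rw [e]
      ring
    exact hr _ _ _ _ _ (by congr)
  rw [e0]
  apply add_le_add hmean
  rw [Finset.mul_sum]
  apply Finset.sum_le_sum
  intro t ht
  rw [mul_comm (Real.exp _)]
  exact mul_le_mul (le_abs_self _) (hexp t ht) (Real.exp_pos _).le (abs_nonneg _)

theorem adv_one {α φ σ ι τ : Type*} [Fintype ι] (Ω : Finset α) (f : α → φ) (h : α → σ)
    (y : α → ι → τ) (E : ι → Finset τ) (hE : ∀ x ∈ Ω, ∀ i, y x i ∈ E i) (Φ : ι → α → τ → ℝ)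
    (hΦ : ∀ i, ∀ x ∈ Ω, ∀ x' ∈ Ω, f x = f x' → h x = h x' → ∀ t ∈ E i, Φ i x t = Φ i x' t)
    (B : ℝ) (hB : 0 ≤ B) (hb : ∀ i, ∀ x ∈ Ω, ∀ t ∈ E i, |Φ i x t| ≤ B)
    (h0 : ∀ i, ∀ x ∈ Ω, ∑ t ∈ E i, Φ i x t = 0) (l : ℝ) (hl : 0 < l) :
    ∑ x ∈ Ω, ∑ i, Φ i x (y x i) ≤
      (Ω.card : ℝ) * ((cE Ω f h - cE Ω f (fun x => (y x, h x))) / l +
        l * B ^ 2 * Fintype.card ι / 2) +
      Real.exp (l * B * Fintype.card ι) / l * TV Ω h y E := by
  classical
  have hP : ∀ x ∈ Ω, y x ∈ Fintype.piFinset E := by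
    intro x hx
    rw [Fintype.mem_piFinset]
    exact hE x hx
  have h1 := adv_gibbs Ω f h y (Fintype.piFinset E) hP (fun x t => l * ∑ i, Φ i x (t i)) (by
    intro x hx x' hx' e e' t ht
    rw [Fintype.mem_piFinset] at ht
    show l * ∑ i, Φ i x (t i) = l * ∑ i, Φ i x' (t i)
    congr 1
    exact Finset.sum_congr rfl (fun i _ => hΦ i x hx x' hx' e e' _ (ht i)))
  have h2 : ∑ x ∈ Ω, Real.log
      (adv_Z Ω h y (Fintype.piFinset E) (fun x t => l * ∑ i, Φ i x (t i)) x) ≤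
      (Ω.card : ℝ) * (l ^ 2 * B ^ 2 * Fintype.card ι / 2) +
      Real.exp (l * B * Fintype.card ι) * TV Ω h y E := by
    have h3 : TV Ω h y E = ∑ x ∈ Ω, ∑ t ∈ Fintype.piFinset E,
        |((Ω.filter (fun z => h z = h x ∧ y z = t)).card : ℝ) / (fb Ω h x : ℝ) -
      1 / ((Fintype.piFinset E).card : ℝ)| := by
      unfold TV
      rfl
    rw [h3, Finset.mul_sum, ← nsmul_eq_mul, ← Finset.sum_const, ← Finset.sum_add_distrib]
    apply Finset.sum_le_sum
    intro x hx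
    refine le_trans (Real.log_le_log (adv_Zpos Ω h y _ _ hx (hP x hx))
      (adv_Zle Ω h y E hE Φ B hB hb h0 l hl hx)) ?_
    exact adv_logadd _ _ (by positivity) (by positivity)
  have h4 : ∑ x ∈ Ω, (fun x t => l * ∑ i, Φ i x (t i)) x (y x) =
      l * ∑ x ∈ Ω, ∑ i, Φ i x (y x i) := by
    rw [Finset.mul_sum]
  have h5 : l * ∑ x ∈ Ω, ∑ i, Φ i x (y x i) ≤
      l * ((Ω.card : ℝ) * ((cE Ω f h - cE Ω f (fun x => (y x, h x))) / l +
        l * B ^ 2 * Fintype.card ι / 2) +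
      Real.exp (l * B * Fintype.card ι) / l * TV Ω h y E) := by
    have e5 : l * ((Ω.card : ℝ) * ((cE Ω f h - cE Ω f (fun x => (y x, h x))) / l +
        l * B ^ 2 * Fintype.card ι / 2) +
      Real.exp (l * B * Fintype.card ι) / l * TV Ω h y E) =
      (Ω.card : ℝ) * (cE Ω f h - cE Ω f (fun x => (y x, h x))) +
      ((Ω.card : ℝ) * (l ^ 2 * B ^ 2 * Fintype.card ι / 2) +
      Real.exp (l * B * Fintype.card ι) * TV Ω h y E) := by
      field_simp
      ring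
    rw [e5, ← h4]
    linarith
  exact le_of_mul_le_mul_left h5 hl

theorem dv_bound_pr {α φ σ ι τ : Type*} [Fintype ι] (Ω : Finset α) (f : α → φ) (h : α → σ)
    (y : α → ι → τ) (E : ι → Finset τ) (hE : ∀ x ∈ Ω, ∀ i, y x i ∈ E i) (Φ : ι → α → τ → ℝ)
    (hΦ : ∀ i, ∀ x ∈ Ω, ∀ x' ∈ Ω, f x = f x' → h x = h x' → ∀ t ∈ E i, Φ i x t = Φ i x' t)
    (B : ℝ) (hB : 0 ≤ B) (hb : ∀ i, ∀ x ∈ Ω, ∀ t ∈ E i, |Φ i x t| ≤ B)
    (h0 : ∀ i, ∀ x ∈ Ω, ∑ t ∈ E i, Φ i x t = 0) (l : ℝ) (hl : 0 < l) :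
    |∑ x ∈ Ω, ∑ i, Φ i x (y x i)| ≤
      (Ω.card : ℝ) * ((cE Ω f h - cE Ω f (fun x => (y x, h x))) / l +
        l * B ^ 2 * Fintype.card ι / 2) +
      Real.exp (l * B * Fintype.card ι) / l * TV Ω h y E := by
  rw [abs_le]
  constructor
  · have h1 := adv_one Ω f h y E hE (fun i x t => - Φ i x t)
      (fun i x hx x' hx' e e' t ht => by rw [hΦ i x hx x' hx' e e' t ht]) B hB
      (fun i x hx t ht => by rw [abs_neg]; exact hb i x hx t ht)
      (fun i x hx => by rw [Finset.sum_neg_distrib, h0 i x hx, neg_zero]) l hl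
    simp only [Finset.sum_neg_distrib] at h1
    linarith
  · exact adv_one Ω f h y E hE Φ hΦ B hB hb h0 l hl

end Pool.Agent.T2


namespace Pool.Agent.T2

theorem dv_bound : type_of% @dv_bound_pr := @dv_bound_pr

end Pool.Agent.T2
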