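import Pool.Agent.Lib_helper39.TA.Defs
import Pool.Agent.Lib_helper10.T2F.BAS
import Pool.Agent.Lib_helper10.T2F.EQU
import Pool.Agent.Lib_helper10.T2F.PEL

/-! T2, block AEQ: equidistribution of the frames -/

namespace Pool.Agent.T2

open Filter Topology

theorem aeq_dvd {q : ℕ} {z : G} : (q : G) ∣ z ↔ (q : ℤ) ∣ z.re ∧ (q : ℤ) ∣ z.im := by
  have h : (q : G) = ((q : ℤ) : G) := by push_cast; rfl
  rw [h]
  exact Zsqrtd.intCast_dvd _ _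

theorem regF_finite_pr (Q : Finset ℕ) (t : Q → ℤ × ℤ) (a b ξ₁ ξ₂ Y : ℝ) (ha : 0 ≤ a)
    (hY : 0 ≤ Y) : (RegF Q t a b ξ₁ ξ₂ Y).Finite := by
  refine (reg_finite 1 0 0 a b ξ₁ ξ₂ Y ha hY).subset ?_
  rintro s ⟨h1, -, h3, h4, h5, h6⟩
  refine ⟨h1, ?_, ?_, h3, h4, h5, h6⟩
  · rw [Nat.cast_one]; exact one_dvd _
  · rw [Nat.cast_one]; exact one_dvd _

theorem aeq_crt (Q : Finset ℕ) (hQ : Pset Q) (f : ℕ → ℤ) :
    ∃ m : ℤ, ∀ p ∈ Q, (p : ℤ) ∣ m - f p := by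
  have hne : ∀ p ∈ Q, (id p : ℕ) ≠ 0 := fun p hp => (hQ p hp).1.ne_zero
  have hpw : Set.Pairwise (Q : Set ℕ) (Function.onFun Nat.Coprime id) := fun p hp q hq hpq =>
    (Nat.coprime_primes (hQ p hp).1 (hQ q hq).1).2 hpq
  obtain ⟨k, hk⟩ := Nat.chineseRemainderOfFinset (fun p => (f p % p).toNat) id Q hne hpw
  refine ⟨k, fun p hp => ?_⟩
  have h := hk p hp
  have hp0 : (p : ℤ) ≠ 0 := by exact_mod_cast (hQ p hp).1.ne_zero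
  have h1 : (k : ℤ) ≡ ((f p % p).toNat : ℤ) [ZMOD p] := (Int.natCast_modEq_iff).2 h
  rw [Int.toNat_of_nonneg (Int.emod_nonneg _ hp0)] at h1
  have h2 : (k : ℤ) ≡ f p [ZMOD p] := h1.trans (Int.mod_modEq _ _)
  exact Int.modEq_iff_dvd.1 h2.symm

theorem aeq_bez {p : ℕ} (hp : p.Prime) {x y : ℤ} (h : ¬ ((p : ℤ) ∣ x ∧ (p : ℤ) ∣ y)) :
    ∃ r s : ℤ, (p : ℤ) ∣ x * r + y * s - 1 := by
  have hp' : Prime (p : ℤ) := Nat.prime_iff_prime_int.1 hp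
  by_cases hx : (p : ℤ) ∣ x
  · have hy : ¬ (p : ℤ) ∣ y := fun hy => h ⟨hx, hy⟩
    obtain ⟨u, v, huv⟩ := hp'.coprime_iff_not_dvd.2 hy
    refine ⟨0, v, -u, ?_⟩
    linarith
  · obtain ⟨u, v, huv⟩ := hp'.coprime_iff_not_dvd.2 hx
    refine ⟨v, 0, -u, ?_⟩
    linarith

theorem aeq_sl {p : ℕ} (hp : p.Prime) {x y x' y' : ℤ} (h : ¬ ((p : ℤ) ∣ x ∧ (p : ℤ) ∣ y))
    (h' : ¬ ((p : ℤ) ∣ x' ∧ (p : ℤ) ∣ y')) : ∃ m : ℤ × ℤ × ℤ × ℤ,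
      (p : ℤ) ∣ m.1 * m.2.2.2 - m.2.1 * m.2.2.1 - 1 ∧ (p : ℤ) ∣ m.1 * x + m.2.1 * y - x' ∧
        (p : ℤ) ∣ m.2.2.1 * x + m.2.2.2 * y - y' := by
  obtain ⟨r, s, k, hk⟩ := aeq_bez hp h
  obtain ⟨r', s', k', hk'⟩ := aeq_bez hp h'
  refine ⟨(x' * r + s' * y, x' * s - s' * x, y' * r - r' * y, y' * s + r' * x),
    ⟨k * (x' * r' + y' * s') + k', ?_⟩, ⟨x' * k, ?_⟩, ⟨y' * k, ?_⟩⟩
  · show (x' * r + s' * y) * (y' * s + r' * x) - (x' * s - s' * x) * (y' * r - r' * y) - 1 = _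
    linear_combination (x' * r' + y' * s') * hk + hk'
  · show (x' * r + s' * y) * x + (x' * s - s' * x) * y - x' = _
    linear_combination x' * hk
  · show (y' * r - r' * y) * x + (y' * s + r' * x) * y - y' = _
    linear_combination y' * hk

theorem aeq_mod {p : ℕ} {x t : ℤ} (h0 : 0 ≤ t) (h1 : t < p) :
    x % (p : ℤ) = t ↔ (p : ℤ) ∣ x - t := by
  have ht : t % (p : ℤ) = t := Int.emod_eq_of_lt h0 h1
  constructor
  · intro h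
    rw [← ht] at h
    exact Int.modEq_iff_dvd.1 (show t ≡ x [ZMOD p] from h.symm)
  · intro h
    have h2 : t ≡ x [ZMOD p] := Int.modEq_iff_dvd.2 h
    rw [← ht]
    exact h2.symm

theorem aeq_Ep {p : ℕ} {t : ℤ × ℤ} : t ∈ Ep p ↔ t ≠ (0, 0) ∧ (0 ≤ t.1 ∧ t.1 < p) ∧
    0 ≤ t.2 ∧ t.2 < p := by
  rw [Ep, Finset.mem_erase, Finset.mem_product, Finset.mem_Ico, Finset.mem_Ico]

theorem aeq_Ep_not {p : ℕ} {t : ℤ × ℤ} (h : t ∈ Ep p) : ¬ ((p : ℤ) ∣ t.1 ∧ (p : ℤ) ∣ t.2) := by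
  rintro ⟨h1, h2⟩
  rw [aeq_Ep] at h
  obtain ⟨h0, ⟨h3, h4⟩, h5, h6⟩ := h
  have e1 : t.1 = 0 := Int.eq_zero_of_dvd_of_nonneg_of_lt h3 h4 h1
  have e2 : t.2 = 0 := Int.eq_zero_of_dvd_of_nonneg_of_lt h5 h6 h2
  exact h0 (Prod.ext e1 e2)

/-- the reduction modulo `q` -/
def aeqR (q : ℕ) (z : G) : G := ⟨z.re % (q : ℤ), z.im % (q : ℤ)⟩

theorem aeq_red (q : ℕ) (z : G) : (q : G) ∣ z - aeqR q z := by
  rw [aeq_dvd]
  constructor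
  · show (q : ℤ) ∣ z.re - z.re % (q : ℤ)
    exact Int.dvd_self_sub_emod
  · show (q : ℤ) ∣ z.im - z.im % (q : ℤ)
    exact Int.dvd_self_sub_emod

/-- reduced elements -/
def aeqI (q : ℕ) (z : G) : Prop := (0 ≤ z.re ∧ z.re < (q : ℤ)) ∧ 0 ≤ z.im ∧ z.im < (q : ℤ)

theorem aeq_int {q : ℕ} (hq : 0 < q) (z : G) : aeqI q (aeqR q z) := by
  have h : (0 : ℤ) < q := by exact_mod_cast hq
  exact ⟨⟨Int.emod_nonneg _ h.ne', Int.emod_lt_of_pos _ h⟩,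
    ⟨Int.emod_nonneg _ h.ne', Int.emod_lt_of_pos _ h⟩⟩

theorem aeq_uniq {q : ℕ} {z w : G} (hz : aeqI q z) (hw : aeqI q w) (h : (q : G) ∣ z - w) :
    z = w := by
  rw [aeq_dvd] at h
  obtain ⟨h1, h2⟩ := h
  have k1 : (q : ℤ) ∣ z.re - w.re := h1
  have k2 : (q : ℤ) ∣ z.im - w.im := h2
  obtain ⟨⟨a1, a2⟩, a3, a4⟩ := hz
  obtain ⟨⟨b1, b2⟩, b3, b4⟩ := hw
  refine Zsqrtd.ext ?_ ?_
  · have h3 : (z.re : ℤ) % q = w.re := (aeq_mod b1 b2).2 k1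
    rwa [Int.emod_eq_of_lt a1 a2] at h3
  · have h3 : (z.im : ℤ) % q = w.im := (aeq_mod b3 b4).2 k2
    rwa [Int.emod_eq_of_lt a3 a4] at h3

theorem aeq_det {q : ℕ} {z z' w w' : G} (h : (q : G) ∣ z - z') (h' : (q : G) ∣ w - w') :
    (q : ℤ) ∣ det z w - det z' w' := by
  rw [aeq_dvd] at h h'
  obtain ⟨h1, h2⟩ := h
  obtain ⟨h3, h4⟩ := h'
  obtain ⟨a, ha⟩ : (q : ℤ) ∣ z.re - z'.re := h1
  obtain ⟨b, hb⟩ : (q : ℤ) ∣ z.im - z'.im := h2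
  obtain ⟨c, hc⟩ : (q : ℤ) ∣ w.re - w'.re := h3
  obtain ⟨d, hd⟩ : (q : ℤ) ∣ w.im - w'.im := h4
  refine ⟨a * w.im + z'.re * d - b * w.re - z'.im * c, ?_⟩
  show z.re * w.im - z.im * w.re - (z'.re * w'.im - z'.im * w'.re) = _
  linear_combination w.im * ha + z'.re * hd - w.re * hb - z'.im * hc

theorem aeq_box {q : ℕ} {z : G} (h : aeqI q z) : z ∈ box q := by
  obtain ⟨⟨h1, h2⟩, h3, h4⟩ := h
  rw [box, Finset.mem_map]
  refine ⟨(z.re, z.im), ?_, rfl⟩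
  rw [Finset.mem_product, Finset.mem_Icc, Finset.mem_Icc]
  exact ⟨⟨by linarith, h2.le⟩, by linarith, h4.le⟩

open Classical in
/-- the classes of the pairs of determinant one with a given frame -/
noncomputable def aeqC (Q : Finset ℕ) (q : ℕ) (t : Q → ℤ × ℤ) : Finset (G × G) :=
  ((box q) ×ˢ (box q)).filter (fun c => (aeqI q c.1 ∧ aeqI q c.2) ∧ (q : ℤ) ∣ det c.1 c.2 - 1 ∧
    ∀ p : Q, det (pel (p : ℕ)) c.1 % ((p : ℕ) : ℤ) = (t p).1 ∧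
      det (pel (p : ℕ)) c.2 % ((p : ℕ) : ℤ) = (t p).2)

theorem aeq_mem {Q : Finset ℕ} {q : ℕ} {t : Q → ℤ × ℤ} {c : G × G} : c ∈ aeqC Q q t ↔
    (aeqI q c.1 ∧ aeqI q c.2) ∧ (q : ℤ) ∣ det c.1 c.2 - 1 ∧
    ∀ p : Q, det (pel (p : ℕ)) c.1 % ((p : ℕ) : ℤ) = (t p).1 ∧
      det (pel (p : ℕ)) c.2 % ((p : ℕ) : ℤ) = (t p).2 := by
  classical
  rw [aeqC, Finset.mem_filter, Finset.mem_product]
  exact ⟨fun h => h.2, fun h => ⟨⟨aeq_box h.1.1, aeq_box h.1.2⟩, h⟩⟩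

theorem aeq_dvd_prod {Q : Finset ℕ} (hQ : Pset Q) {x : ℤ} (h : ∀ p ∈ Q, (p : ℤ) ∣ x) :
    ((∏ p ∈ Q, p : ℕ) : ℤ) ∣ x := by
  push_cast
  refine Finset.prod_dvd_of_coprime ?_ h
  intro p hp q hq hpq
  show IsCoprime (p : ℤ) (q : ℤ)
  rw [Nat.isCoprime_iff_coprime]
  exact (Nat.coprime_primes (hQ p hp).1 (hQ q hq).1).2 hpq

theorem aeq_pdvd {Q : Finset ℕ} {p : ℕ} (hp : p ∈ Q) : (p : ℤ) ∣ ((∏ p ∈ Q, p : ℕ) : ℤ) := by
  exact_mod_cast Finset.dvd_prod_of_mem (fun p : ℕ => p) hp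

theorem aeq_gdvd {p q : ℕ} (h : (p : ℤ) ∣ (q : ℤ)) {z : G} (hz : (q : G) ∣ z) : (p : G) ∣ z := by
  rw [aeq_dvd] at hz ⊢
  exact ⟨h.trans hz.1, h.trans hz.2⟩

theorem aeq_frame {p q : ℕ} (h : (p : ℤ) ∣ (q : ℤ)) {z w : G} (hz : (q : G) ∣ z - w) :
    det (pel p) z % (p : ℤ) = det (pel p) w % (p : ℤ) := by
  have h1 := aeq_det (q := p) (z := pel p) (z' := pel p) (by rw [sub_self]; exact dvd_zero _)
    (aeq_gdvd h hz)
  exact (Int.modEq_iff_dvd.2 h1).symm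

theorem aeq_card_le {Q : Finset ℕ} (hQ : Pset Q) {t t' : Q → ℤ × ℤ}
    (ht : ∀ p : Q, t p ∈ Ep (p : ℕ)) (ht' : ∀ p : Q, t' p ∈ Ep (p : ℕ)) :
    (aeqC Q (∏ p ∈ Q, p) t).card ≤ (aeqC Q (∏ p ∈ Q, p) t').card := by
  classical
  set q : ℕ := ∏ p ∈ Q, p with hq
  have hq0 : 0 < q := Finset.prod_pos fun p hp => (hQ p hp).1.pos
  have hM : ∀ p : Q, ∃ m : ℤ × ℤ × ℤ × ℤ,
      ((p : ℕ) : ℤ) ∣ m.1 * m.2.2.2 - m.2.1 * m.2.2.1 - 1 ∧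
      ((p : ℕ) : ℤ) ∣ m.1 * (t p).1 + m.2.1 * (t p).2 - (t' p).1 ∧
        ((p : ℕ) : ℤ) ∣ m.2.2.1 * (t p).1 + m.2.2.2 * (t p).2 - (t' p).2 := fun p =>
    aeq_sl (hQ _ p.2).1 (aeq_Ep_not (ht p)) (aeq_Ep_not (ht' p))
  choose m hm using hM
  obtain ⟨A, hA⟩ := aeq_crt Q hQ (fun p => if h : p ∈ Q then (m ⟨p, h⟩).1 else 0)
  obtain ⟨B, hB⟩ := aeq_crt Q hQ (fun p => if h : p ∈ Q then (m ⟨p, h⟩).2.1 else 0)
  obtain ⟨C, hC⟩ := aeq_crt Q hQ (fun p => if h : p ∈ Q then (m ⟨p, h⟩).2.2.1 else 0)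
  obtain ⟨D, hD⟩ := aeq_crt Q hQ (fun p => if h : p ∈ Q then (m ⟨p, h⟩).2.2.2 else 0)
  have hA' : ∀ p : Q, ((p : ℕ) : ℤ) ∣ A - (m p).1 := fun p => by
    have h := hA p p.2
    rwa [dif_pos p.2] at h
  have hB' : ∀ p : Q, ((p : ℕ) : ℤ) ∣ B - (m p).2.1 := fun p => by
    have h := hB p p.2
    rwa [dif_pos p.2] at h
  have hC' : ∀ p : Q, ((p : ℕ) : ℤ) ∣ C - (m p).2.2.1 := fun p => by
    have h := hC p p.2
    rwa [dif_pos p.2] at h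
  have hD' : ∀ p : Q, ((p : ℕ) : ℤ) ∣ D - (m p).2.2.2 := fun p => by
    have h := hD p p.2
    rwa [dif_pos p.2] at h
  clear hA hB hC hD
  have hdet : (q : ℤ) ∣ A * D - B * C - 1 := by
    refine aeq_dvd_prod hQ fun p hp => ?_
    obtain ⟨a, ha⟩ := hA' ⟨p, hp⟩
    obtain ⟨b, hb⟩ := hB' ⟨p, hp⟩
    obtain ⟨c, hc⟩ := hC' ⟨p, hp⟩
    obtain ⟨d, hd⟩ := hD' ⟨p, hp⟩
    obtain ⟨e, he⟩ := (hm ⟨p, hp⟩).1
    simp only at ha hb hc hd he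
    refine ⟨a * D + (m ⟨p, hp⟩).1 * d - b * C - (m ⟨p, hp⟩).2.1 * c + e, ?_⟩
    linear_combination D * ha + (m ⟨p, hp⟩).1 * hd - C * hb - (m ⟨p, hp⟩).2.1 * hc + he
  have hf1 : ∀ p : Q, ((p : ℕ) : ℤ) ∣ A * (t p).1 + B * (t p).2 - (t' p).1 := by
    intro p
    obtain ⟨a, ha⟩ := hA' p
    obtain ⟨b, hb⟩ := hB' p
    obtain ⟨e, he⟩ := (hm p).2.1
    refine ⟨a * (t p).1 + b * (t p).2 + e, ?_⟩
    linear_combination (t p).1 * ha + (t p).2 * hb + he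
  have hf2 : ∀ p : Q, ((p : ℕ) : ℤ) ∣ C * (t p).1 + D * (t p).2 - (t' p).2 := by
    intro p
    obtain ⟨a, ha⟩ := hC' p
    obtain ⟨b, hb⟩ := hD' p
    obtain ⟨e, he⟩ := (hm p).2.2
    refine ⟨a * (t p).1 + b * (t p).2 + e, ?_⟩
    linear_combination (t p).1 * ha + (t p).2 * hb + he
  let f : G × G → G × G := fun c =>
    (aeqR q ((A : G) * c.1 + (B : G) * c.2), aeqR q ((C : G) * c.1 + (D : G) * c.2))
  have hlin : ∀ (x y : ℤ) (u v w : G), det u ((x : G) * v + (y : G) * w) =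
      x * det u v + y * det u w := by
    intro x y u v w
    simp only [det, Zsqrtd.re_add, Zsqrtd.im_add, Zsqrtd.re_mul, Zsqrtd.im_mul,
      Zsqrtd.re_intCast, Zsqrtd.im_intCast]
    ring
  have hframe : ∀ (x y : ℤ) (c : G × G), c ∈ aeqC Q q t → ∀ (p : Q) (s : ℤ), 0 ≤ s →
      s < ((p : ℕ) : ℤ) → ((p : ℕ) : ℤ) ∣ x * (t p).1 + y * (t p).2 - s →
      det (pel (p : ℕ)) (aeqR q ((x : G) * c.1 + (y : G) * c.2)) % ((p : ℕ) : ℤ) = s := by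
    intro x y c hc p s hs0 hs1 hs
    rw [← aeq_frame (aeq_pdvd p.2) (aeq_red q _), aeq_mod hs0 hs1, hlin]
    have h1 := (aeq_mem.1 hc).2.2 p
    have ht1 := aeq_Ep.1 (ht p)
    obtain ⟨a, ha⟩ := (aeq_mod ht1.2.1.1 ht1.2.1.2).1 h1.1
    obtain ⟨b, hb⟩ := (aeq_mod ht1.2.2.1 ht1.2.2.2).1 h1.2
    obtain ⟨e, he⟩ := hs
    refine ⟨x * a + y * b + e, ?_⟩
    linear_combination x * ha + y * hb + he
  refine Finset.card_le_card_of_injOn f ?_ ?_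
  · intro c hc
    have hc' : c ∈ aeqC Q q t := hc
    have hcm := aeq_mem.1 hc'
    refine aeq_mem.2 ⟨⟨aeq_int hq0 _, aeq_int hq0 _⟩, ?_, fun p => ⟨?_, ?_⟩⟩
    · have h1 := aeq_det (aeq_red q ((A : G) * c.1 + (B : G) * c.2))
        (aeq_red q ((C : G) * c.1 + (D : G) * c.2))
      obtain ⟨k1, hk1⟩ := h1
      obtain ⟨k2, hk2⟩ := hdet
      obtain ⟨k3, hk3⟩ := hcm.2.1
      have h2 : det ((A : G) * c.1 + (B : G) * c.2) ((C : G) * c.1 + (D : G) * c.2) =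
          (A * D - B * C) * det c.1 c.2 := by
        simp only [det, Zsqrtd.re_add, Zsqrtd.im_add, Zsqrtd.re_mul, Zsqrtd.im_mul,
          Zsqrtd.re_intCast, Zsqrtd.im_intCast]
        ring
      refine ⟨-k1 + k2 * det c.1 c.2 + k3, ?_⟩
      show det (aeqR q ((A : G) * c.1 + (B : G) * c.2)) (aeqR q ((C : G) * c.1 + (D : G) * c.2)) -
        1 = _
      rw [h2] at hk1
      linear_combination -hk1 + det c.1 c.2 * hk2 + hk3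
    · have h1 := aeq_Ep.1 (ht' p)
      exact hframe A B c hc' p _ h1.2.1.1 h1.2.1.2 (hf1 p)
    · have h1 := aeq_Ep.1 (ht' p)
      exact hframe C D c hc' p _ h1.2.2.1 h1.2.2.2 (hf2 p)
  · intro c hc c' hc' h
    have hcm := aeq_mem.1 (show c ∈ aeqC Q q t from hc)
    have hcm' := aeq_mem.1 (show c' ∈ aeqC Q q t from hc')
    have h1 : aeqR q ((A : G) * c.1 + (B : G) * c.2) = aeqR q ((A : G) * c'.1 + (B : G) * c'.2) :=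
      congrArg Prod.fst h
    have h2 : aeqR q ((C : G) * c.1 + (D : G) * c.2) = aeqR q ((C : G) * c'.1 + (D : G) * c'.2) :=
      congrArg Prod.snd h
    have e1 : (q : G) ∣ (A : G) * (c.1 - c'.1) + (B : G) * (c.2 - c'.2) := by
      have k1 := aeq_red q ((A : G) * c.1 + (B : G) * c.2)
      have k2 := aeq_red q ((A : G) * c'.1 + (B : G) * c'.2)
      rw [← h1] at k2
      have k3 := dvd_sub k1 k2
      have e : (A : G) * c.1 + (B : G) * c.2 - aeqR q ((A : G) * c.1 + (B : G) * c.2) -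
        ((A : G) * c'.1 + (B : G) * c'.2 - aeqR q ((A : G) * c.1 + (B : G) * c.2)) =
        (A : G) * (c.1 - c'.1) + (B : G) * (c.2 - c'.2) := by ring
      rwa [e] at k3
    have e2 : (q : G) ∣ (C : G) * (c.1 - c'.1) + (D : G) * (c.2 - c'.2) := by
      have k1 := aeq_red q ((C : G) * c.1 + (D : G) * c.2)
      have k2 := aeq_red q ((C : G) * c'.1 + (D : G) * c'.2)
      rw [← h2] at k2
      have k3 := dvd_sub k1 k2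
      have e : (C : G) * c.1 + (D : G) * c.2 - aeqR q ((C : G) * c.1 + (D : G) * c.2) -
        ((C : G) * c'.1 + (D : G) * c'.2 - aeqR q ((C : G) * c.1 + (D : G) * c.2)) =
        (C : G) * (c.1 - c'.1) + (D : G) * (c.2 - c'.2) := by ring
      rwa [e] at k3
    obtain ⟨k, hk⟩ := hdet
    have hkG : (A : G) * D - B * C - 1 = (q : G) * (k : G) := by
      have := congrArg (fun z : ℤ => (z : G)) hk
      push_cast at this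
      exact this
    obtain ⟨g1, hg1⟩ := e1
    obtain ⟨g2, hg2⟩ := e2
    have d1 : (q : G) ∣ c.1 - c'.1 := by
      refine ⟨(D : G) * g1 - B * g2 - k * (c.1 - c'.1), ?_⟩
      linear_combination (D : G) * hg1 - (B : G) * hg2 - (c.1 - c'.1) * hkG
    have d2 : (q : G) ∣ c.2 - c'.2 := by
      refine ⟨(A : G) * g2 - C * g1 - k * (c.2 - c'.2), ?_⟩
      linear_combination (A : G) * hg2 - (C : G) * hg1 - (c.2 - c'.2) * hkG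
    exact Prod.ext (aeq_uniq hcm.1.1 hcm'.1.1 d1) (aeq_uniq hcm.1.2 hcm'.1.2 d2)

theorem aeq_ne (Q : Finset ℕ) (hQ : Pset Q) : ∃ t : Q → ℤ × ℤ, (∀ p : Q, t p ∈ Ep (p : ℕ)) ∧
    1 ≤ (aeqC Q (∏ p ∈ Q, p) t).card := by
  classical
  set q : ℕ := ∏ p ∈ Q, p with hq
  have hq0 : 0 < q := Finset.prod_pos fun p hp => (hQ p hp).1.pos
  refine ⟨fun p => (det (pel (p : ℕ)) 1 % ((p : ℕ) : ℤ), det (pel (p : ℕ)) ui % ((p : ℕ) : ℤ)),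
    fun p => ?_, ?_⟩
  · have hp := (hQ _ p.2).1
    have h4 := (hQ _ p.2).2
    have hp0 : (0 : ℤ) < ((p : ℕ) : ℤ) := by exact_mod_cast hp.pos
    rw [aeq_Ep]
    refine ⟨?_, ⟨Int.emod_nonneg _ hp0.ne', Int.emod_lt_of_pos _ hp0⟩,
      Int.emod_nonneg _ hp0.ne', Int.emod_lt_of_pos _ hp0⟩
    intro h
    have h2 : det (pel (p : ℕ)) ui % ((p : ℕ) : ℤ) = 0 := congrArg Prod.snd h
    have h3 : det (pel (p : ℕ)) ui = (pel (p : ℕ)).re := by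
      show (pel (p : ℕ)).re * 1 - (pel (p : ℕ)).im * 0 = _
      ring
    rw [h3] at h2
    obtain ⟨s1, s2, s3⟩ := pel_spec hp h4
    have h5 := nn_cast (pel (p : ℕ))
    rw [s1] at h5
    have hre : (pel (p : ℕ)).re < ((p : ℕ) : ℤ) := by nlinarith
    rw [Int.emod_eq_of_lt (by linarith) hre] at h2
    linarith
  · rw [Nat.one_le_iff_ne_zero, Finset.card_ne_zero]
    refine ⟨(aeqR q 1, aeqR q ui), aeq_mem.2 ⟨⟨aeq_int hq0 _, aeq_int hq0 _⟩, ?_, fun p =>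
      ⟨?_, ?_⟩⟩⟩
    · obtain ⟨k, hk⟩ := aeq_det (aeq_red q 1) (aeq_red q ui)
      have h1 : det 1 ui = 1 := by
        show (1 : ℤ) * 1 - 0 * 0 = 1
        ring
      refine ⟨-k, ?_⟩
      show det (aeqR q 1) (aeqR q ui) - 1 = _
      rw [h1] at hk
      linarith
    · exact (aeq_frame (aeq_pdvd p.2) (aeq_red q _)).symm
    · exact (aeq_frame (aeq_pdvd p.2) (aeq_red q _)).symm

theorem aeq_union {Q : Finset ℕ} (hQ : Pset Q) (t : Q → ℤ × ℤ)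
    (a b ξ₁ ξ₂ Y : ℝ) (ha : 0 ≤ a) (hY : 0 ≤ Y) :
    (RegF Q t a b ξ₁ ξ₂ Y).ncard = ∑ c ∈ aeqC Q (∏ p ∈ Q, p) t,
      (Reg (∏ p ∈ Q, p) c.1 c.2 a b ξ₁ ξ₂ Y).ncard := by
  classical
  set q : ℕ := ∏ p ∈ Q, p with hq
  have hq0 : 0 < q := Finset.prod_pos fun p hp => (hQ p hp).1.pos
  have hfin : ∀ c : G × G, (Reg q c.1 c.2 a b ξ₁ ξ₂ Y).Finite := fun c =>
    reg_finite q c.1 c.2 a b ξ₁ ξ₂ Y ha hY
  have hU : RegF Q t a b ξ₁ ξ₂ Y =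
      (((aeqC Q q t).biUnion fun c => (hfin c).toFinset : Finset (G × G)) : Set (G × G)) := by
    ext s
    rw [Finset.mem_coe, Finset.mem_biUnion]
    constructor
    · rintro ⟨h1, h2, h3, h4, h5, h6⟩
      refine ⟨(aeqR q s.1, aeqR q s.2), aeq_mem.2 ⟨⟨aeq_int hq0 _, aeq_int hq0 _⟩, ?_, fun p =>
        ⟨?_, ?_⟩⟩, ?_⟩
      · obtain ⟨k, hk⟩ := aeq_det (aeq_red q s.1) (aeq_red q s.2)
        rw [h1] at hk
        refine ⟨-k, ?_⟩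
        show det (aeqR q s.1) (aeqR q s.2) - 1 = _
        linarith
      · rw [← (h2 p).1]
        exact (aeq_frame (aeq_pdvd p.2) (aeq_red q _)).symm
      · rw [← (h2 p).2]
        exact (aeq_frame (aeq_pdvd p.2) (aeq_red q _)).symm
      · rw [Set.Finite.mem_toFinset]
        exact ⟨h1, aeq_red q _, aeq_red q _, h3, h4, h5, h6⟩
    · rintro ⟨c, hc, hs⟩
      rw [Set.Finite.mem_toFinset] at hs
      obtain ⟨h1, h2, h2', h3, h4, h5, h6⟩ := hs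
      have hcm := aeq_mem.1 hc
      refine ⟨h1, fun p => ⟨?_, ?_⟩, h3, h4, h5, h6⟩
      · rw [← (hcm.2.2 p).1]
        exact aeq_frame (aeq_pdvd p.2) h2
      · rw [← (hcm.2.2 p).2]
        exact aeq_frame (aeq_pdvd p.2) h2'
  rw [hU, Set.ncard_coe_finset, Finset.card_biUnion]
  · refine Finset.sum_congr rfl fun c _ => ?_
    rw [Set.ncard_eq_toFinset_card _ (hfin c)]
  · intro c hc c' hc' hne
    rw [Function.onFun, Finset.disjoint_left]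
    intro s hs hs'
    rw [Set.Finite.mem_toFinset] at hs hs'
    have hcm := aeq_mem.1 hc
    have hcm' := aeq_mem.1 hc'
    refine hne (Prod.ext (aeq_uniq hcm.1.1 hcm'.1.1 ?_) (aeq_uniq hcm.1.2 hcm'.1.2 ?_))
    · have h := dvd_sub hs'.2.1 hs.2.1
      have e : s.1 - c'.1 - (s.1 - c.1) = c.1 - c'.1 := by ring
      rwa [e] at h
    · have h := dvd_sub hs'.2.2.1 hs.2.2.1
      have e : s.2 - c'.2 - (s.2 - c.2) = c.2 - c'.2 := by ring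
      rwa [e] at h

theorem equi_fr_pr (Q : Finset ℕ) (hQ : Pset Q) : ∃ c : ℝ, 0 < c ∧
    ∀ t : Q → ℤ × ℤ, (∀ p : Q, t p ∈ Ep (p : ℕ)) → ∀ a b ξ₁ ξ₂ : ℝ, 0 ≤ a → a ≤ b → ξ₁ ≤ ξ₂ →
      Tendsto (fun Y : ℝ => ((RegF Q t a b ξ₁ ξ₂ Y).ncard : ℝ) / Y) atTop
        (𝓝 (c * (b - a) * (ξ₂ - ξ₁))) := by
  classical
  have hq0 : 0 < ∏ p ∈ Q, p := Finset.prod_pos fun p hp => (hQ p hp).1.pos
  obtain ⟨c, hc0, hc⟩ := equi (∏ p ∈ Q, p) hq0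
  obtain ⟨t₁, ht₁, hn₁⟩ := aeq_ne Q hQ
  refine ⟨((aeqC Q (∏ p ∈ Q, p) t₁).card : ℝ) * c, mul_pos (by exact_mod_cast hn₁) hc0,
    fun t ht a b ξ₁ ξ₂ ha hab hξ => ?_⟩
  have hcard : (aeqC Q (∏ p ∈ Q, p) t₁).card = (aeqC Q (∏ p ∈ Q, p) t).card :=
    le_antisymm (aeq_card_le hQ ht₁ ht) (aeq_card_le hQ ht ht₁)
  have h1 : Tendsto (fun Y : ℝ => ∑ e ∈ aeqC Q (∏ p ∈ Q, p) t,
      ((Reg (∏ p ∈ Q, p) e.1 e.2 a b ξ₁ ξ₂ Y).ncard : ℝ) / Y) atTop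
      (𝓝 (∑ e ∈ aeqC Q (∏ p ∈ Q, p) t, c * (b - a) * (ξ₂ - ξ₁))) := by
    refine tendsto_finsetSum _ fun e he => ?_
    exact hc e.1 e.2 (aeq_mem.1 he).2.1 a b ξ₁ ξ₂ ha hab hξ
  rw [Finset.sum_const, nsmul_eq_mul, ← hcard] at h1
  rw [show ((aeqC Q (∏ p ∈ Q, p) t₁).card : ℝ) * c * (b - a) * (ξ₂ - ξ₁) =
    ((aeqC Q (∏ p ∈ Q, p) t₁).card : ℝ) * (c * (b - a) * (ξ₂ - ξ₁)) by ring]
  refine h1.congr' ?_
  filter_upwards [eventually_ge_atTop (0 : ℝ)] with Y hY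
  rw [aeq_union hQ t a b ξ₁ ξ₂ Y ha hY, Nat.cast_sum, Finset.sum_div]

end Pool.Agent.T2


namespace Pool.Agent.T2

theorem regF_finite : type_of% @regF_finite_pr := @regF_finite_pr
theorem equi_fr : type_of% @equi_fr_pr := @equi_fr_pr

end Pool.Agent.T2
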