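import Pool.Agent.Lib_helper39.TA.Defs
import Pool.Agent.Lib_helper10.T2F.BAS

/-!
# T2, block ANX: the next primitive element
-/

namespace Pool.Agent.T2

open Filter Topology

theorem mem_PN_pr {Y : ℕ} {u : G} : u ∈ PN Y ↔ Prm u ∧ nn u ≤ Y := by
  unfold PN
  rw [mem_PB]
  simp only [Nat.cast_le]

theorem anx_det_add (u v w : G) : det u (v + w) = det u v + det u w := by
  unfold det
  simp only [Zsqrtd.re_add, Zsqrtd.im_add]
  ring

theorem anx_det_comm (u v : G) : det u v = - det v u := by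
  unfold det
  ring

theorem anx_det_self (u : G) : det u u = 0 := by
  unfold det
  ring

theorem anx_ip_add (u v w : G) : ip u (v + w) = ip u v + ip u w := by
  unfold ip
  simp only [Zsqrtd.re_add, Zsqrtd.im_add]
  ring

theorem anx_ip_self (u : G) : ip u u = (nn u : ℤ) := by
  rw [nn_cast]
  unfold ip
  ring

theorem anx_re (j : ℤ) (u : G) : ((j : G) * u).re = j * u.re := by
  rw [Zsqrtd.re_mul, Zsqrtd.re_intCast, Zsqrtd.im_intCast]
  ring

theorem anx_im (j : ℤ) (u : G) : ((j : G) * u).im = j * u.im := by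
  rw [Zsqrtd.im_mul, Zsqrtd.re_intCast, Zsqrtd.im_intCast]
  ring

theorem anx_det_smul (j : ℤ) (u v : G) : det u ((j : G) * v) = j * det u v := by
  unfold det
  rw [anx_re, anx_im]
  ring

theorem anx_ip_smul (j : ℤ) (u v : G) : ip u ((j : G) * v) = j * ip u v := by
  unfold ip
  rw [anx_re, anx_im]
  ring

theorem anx_nn_add (u v : G) : (nn (u + v) : ℤ) = nn u + 2 * ip u v + nn v := by
  rw [nn_cast, nn_cast, nn_cast]
  unfold ip
  simp only [Zsqrtd.re_add, Zsqrtd.im_add]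
  ring

theorem anx_nn_smul (j : ℤ) (v : G) : (nn ((j : G) * v) : ℤ) = j ^ 2 * nn v := by
  rw [nn_cast, nn_cast, anx_re, anx_im]
  ring

/-- an element with a determinant one partner is primitive -/
theorem anx_prm {u w : G} (h : det u w = 1) : Prm w := by
  unfold Prm
  unfold det at h
  rw [← Int.isCoprime_iff_gcd_eq_one]
  exact ⟨-u.im, u.re, by linarith⟩

theorem anx_prm' {u w : G} (h : det u w = 1) : Prm u := by
  unfold Prm
  unfold det at h
  rw [← Int.isCoprime_iff_gcd_eq_one]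
  exact ⟨w.im, -w.re, by linarith⟩

/-- the multiples of a primitive element -/
theorem anx_mult {u z : G} (hu : Prm u) (h : det u z = 0) : ∃ j : ℤ, z = (j : G) * u := by
  unfold Prm at hu
  rw [← Int.isCoprime_iff_gcd_eq_one] at hu
  obtain ⟨a, b, hab⟩ := hu
  unfold det at h
  refine ⟨a * z.re + b * z.im, ?_⟩
  apply Zsqrtd.ext
  · rw [anx_re]
    linear_combination (-z.re) * hab - b * h
  · rw [anx_im]
    linear_combination (-z.im) * hab + a * h

theorem anx_pos {u : G} (hu : Prm u) : (1 : ℤ) ≤ nn u := by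
  have := nn_pos.mpr (prm_ne hu)
  exact_mod_cast this

/-- convexity of the norm along a line -/
theorem anx_conv {Y : ℕ} {a b : G} {j : ℤ} (hj : 1 ≤ j) (h0 : nn a ≤ Y)
    (h1 : nn (a + (j : G) * b) ≤ Y) : nn (a + b) ≤ Y := by
  by_contra hc
  push Not at hc
  have h0' : (nn a : ℤ) ≤ Y := by exact_mod_cast h0
  have h1' : (nn (a + (j : G) * b) : ℤ) ≤ Y := by exact_mod_cast h1
  have hc' : (Y : ℤ) < nn (a + b) := by exact_mod_cast hc
  rw [anx_nn_add, anx_ip_smul, anx_nn_smul] at h1'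
  rw [anx_nn_add] at hc'
  have hb : (0 : ℤ) ≤ nn b := by positivity
  have h3 : 0 < 2 * ip a b + nn b := by linarith
  have h4 : 0 ≤ (j - 1) * (2 * ip a b + nn b) := mul_nonneg (by linarith) h3.le
  have h5 : 0 ≤ j * (j - 1) * (nn b : ℤ) := mul_nonneg (mul_nonneg (by linarith) (by linarith)) hb
  nlinarith

/-- the partner with inner product in `[0, nn u)` -/
theorem anx_small {u : G} (hu : Prm u) : ∃ w : G, det u w = 1 ∧ 0 ≤ ip u w ∧ nn w ≤ nn u := by
  have hu' := hu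
  unfold Prm at hu'
  rw [← Int.isCoprime_iff_gcd_eq_one] at hu'
  obtain ⟨a, b, hab⟩ := hu'
  set w₀ : G := ⟨-b, a⟩ with hw₀
  have hd : det u w₀ = 1 := by
    unfold det
    rw [hw₀]
    simp only
    linarith
  have hn := anx_pos hu
  set j : ℤ := - (ip u w₀ / (nn u : ℤ)) with hj
  have hip : ip u (w₀ + (j : G) * u) = ip u w₀ % (nn u : ℤ) := by
    rw [anx_ip_add, anx_ip_smul, anx_ip_self, hj, Int.emod_def]
    ring
  have hdet : det u (w₀ + (j : G) * u) = 1 := by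
    rw [anx_det_add, anx_det_smul, anx_det_self, hd]
    ring
  refine ⟨w₀ + (j : G) * u, hdet, ?_, ?_⟩
  · rw [hip]
    exact Int.emod_nonneg _ (by linarith)
  · have h1 := ip_sq_add u (w₀ + (j : G) * u)
    rw [hdet, hip] at h1
    have h2 : 0 ≤ ip u w₀ % (nn u : ℤ) := Int.emod_nonneg _ (by linarith)
    have h3 : ip u w₀ % (nn u : ℤ) < nn u := Int.emod_lt_of_pos _ (by linarith)
    set r := ip u w₀ % (nn u : ℤ)
    have h4 : (nn u : ℤ) * nn (w₀ + (j : G) * u) ≤ (nn u : ℤ) * nn u := by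
      rw [h1]
      nlinarith
    have h5 : (nn (w₀ + (j : G) * u) : ℤ) ≤ nn u := le_of_mul_le_mul_left h4 (by linarith)
    exact_mod_cast h5

theorem anx_ex {Y : ℕ} {u : G} (hu : u ∈ PN Y) : ∃ w : G, w ∈ PN Y ∧ det u w = 1 ∧
    ∀ w' ∈ PN Y, det u w' = 1 → ip u w' ≤ ip u w := by
  classical
  obtain ⟨w, hw1, hw2, hw3⟩ := anx_small (mem_PN_pr.mp hu).1
  have hne : ((PN Y).filter (fun w => det u w = 1)).Nonempty :=
    ⟨w, Finset.mem_filter.mpr ⟨mem_PN_pr.mpr ⟨anx_prm hw1, hw3.trans (mem_PN_pr.mp hu).2⟩, hw1⟩⟩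
  obtain ⟨x, hx, hmax⟩ := Finset.exists_max_image _ (fun w => ip u w) hne
  rw [Finset.mem_filter] at hx
  exact ⟨x, hx.1, hx.2, fun w' hw' h => hmax w' (Finset.mem_filter.mpr ⟨hw', h⟩)⟩

theorem anx_spec {Y : ℕ} {u : G} (hu : u ∈ PN Y) : nx Y u ∈ PN Y ∧ det u (nx Y u) = 1 ∧
    ∀ w' ∈ PN Y, det u w' = 1 → ip u w' ≤ ip u (nx Y u) := by
  classical
  have h := anx_ex hu
  unfold nx
  rw [dif_pos h]
  exact h.choose_spec

theorem nx_mem_pr {Y : ℕ} {u : G} (hu : u ∈ PN Y) : nx Y u ∈ PN Y := (anx_spec hu).1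

theorem nx_det_pr {Y : ℕ} {u : G} (hu : u ∈ PN Y) : det u (nx Y u) = 1 := (anx_spec hu).2.1

theorem nx_max_pr {Y : ℕ} {u w : G} (hu : u ∈ PN Y) (hw : w ∈ PN Y) (h : det u w = 1) :
    ip u w ≤ ip u (nx Y u) := (anx_spec hu).2.2 w hw h

theorem nx_ip_pr {Y : ℕ} {u : G} (hu : u ∈ PN Y) : 0 ≤ ip u (nx Y u) := by
  obtain ⟨w, hw1, hw2, hw3⟩ := anx_small (mem_PN_pr.mp hu).1
  exact hw2.trans (nx_max_pr hu (mem_PN_pr.mpr ⟨anx_prm hw1, hw3.trans (mem_PN_pr.mp hu).2⟩) hw1)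

theorem nx_add_pr {Y : ℕ} {u : G} (hu : u ∈ PN Y) : Y < nn (u + nx Y u) := by
  by_contra hc
  push Not at hc
  have hd : det u (u + nx Y u) = 1 := by
    rw [anx_det_add, anx_det_self, nx_det_pr hu, zero_add]
  have h1 := nx_max_pr hu (mem_PN_pr.mpr ⟨anx_prm hd, hc⟩) hd
  rw [anx_ip_add, anx_ip_self] at h1
  have := anx_pos (mem_PN_pr.mp hu).1
  linarith

theorem nx_char_pr {Y : ℕ} {u w : G} (hu : u ∈ PN Y) (hw : w ∈ PN Y) (h : det u w = 1)
    (h2 : Y < nn (u + w)) : nx Y u = w := by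
  have hd : det u (nx Y u - w) = 0 := by
    have h1 := anx_det_add u (nx Y u - w) w
    rw [sub_add_cancel, nx_det_pr hu, h] at h1
    linarith
  obtain ⟨j, hj⟩ := anx_mult (mem_PN_pr.mp hu).1 hd
  have hj' : nx Y u = w + (j : G) * u := by rw [← hj]; ring
  have hmax := nx_max_pr hu hw h
  have hpos := anx_pos (mem_PN_pr.mp hu).1
  have hj0 : 0 ≤ j := by
    rw [hj', anx_ip_add, anx_ip_smul, anx_ip_self] at hmax
    by_contra hc
    push Not at hc
    nlinarith
  rcases hj0.lt_or_eq with hj1 | hj1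
  · exfalso
    have hm := (mem_PN_pr.mp (nx_mem_pr hu)).2
    rw [hj'] at hm
    have := anx_conv (by omega : 1 ≤ j) (mem_PN_pr.mp hw).2 hm
    rw [add_comm] at this
    omega
  · rw [hj', ← hj1]
    simp

theorem nx_inj_pr (Y : ℕ) : Set.InjOn (nx Y) (PN Y : Set G) := by
  intro u hu u' hu' h
  rw [Finset.mem_coe] at hu hu'
  have key : ∀ a ∈ PN Y, ∀ j : ℤ, 1 ≤ j → nn (a + (j : G) * nx Y a) ≤ Y → False := by
    intro a ha j hj hle
    have h1 := anx_conv hj (mem_PN_pr.mp ha).2 hle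
    have h2 := nx_add_pr ha
    omega
  have hd : det (nx Y u) (u' - u) = 0 := by
    have h1 := anx_det_add (nx Y u) (u' - u) u
    rw [sub_add_cancel, anx_det_comm (nx Y u) u, nx_det_pr hu] at h1
    have h2 := nx_det_pr hu'
    rw [← h, anx_det_comm] at h2
    linarith
  obtain ⟨j, hj⟩ := anx_mult (mem_PN_pr.mp (nx_mem_pr hu)).1 hd
  rcases lt_trichotomy j 0 with h0 | h0 | h0
  · exfalso
    refine key u' hu' (-j) (by omega) ?_
    have : u' + ((-j : ℤ) : G) * nx Y u' = u := by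
      rw [← h]
      push_cast
      have : u' = u + (j : G) * nx Y u := by rw [← hj]; ring
      rw [this]
      ring
    rw [this]
    exact (mem_PN_pr.mp hu).2
  · rw [h0] at hj
    simp only [Int.cast_zero, zero_mul] at hj
    exact (sub_eq_zero.mp hj).symm
  · exfalso
    refine key u hu j (by omega) ?_
    have : u + (j : G) * nx Y u = u' := by rw [← hj]; ring
    rw [this]
    exact (mem_PN_pr.mp hu').2

theorem nx_rec_pr {Y : ℕ} {u : G} (hu : u ∈ PN Y) :
    nx Y (nx Y u) = (kk Y u : G) * nx Y u - u := by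
  have hv := nx_mem_pr hu
  have hd : det (nx Y u) (nx Y (nx Y u) + u) = 0 := by
    rw [anx_det_add, nx_det_pr hv, anx_det_comm, nx_det_pr hu]
    norm_num
  obtain ⟨j, hj⟩ := anx_mult (mem_PN_pr.mp hv).1 hd
  have hk : kk Y u = j := by
    unfold kk
    have h1 := anx_det_add u (nx Y (nx Y u)) u
    rw [hj, anx_det_smul, nx_det_pr hu, anx_det_self] at h1
    linarith
  rw [hk, ← hj]
  ring

theorem nx_large_pr {Y : ℕ} {u : G} (hu : u ∈ PN Y) : Y < 4 * nn u ∨ Y < 4 * nn (nx Y u) := by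
  by_contra hc
  push Not at hc
  obtain ⟨h1, h2⟩ := hc
  have h3 := nx_add_pr hu
  have h3' : (Y : ℤ) < nn (u + nx Y u) := by exact_mod_cast h3
  have h1' : 4 * (nn u : ℤ) ≤ Y := by exact_mod_cast h1
  have h2' : 4 * (nn (nx Y u) : ℤ) ≤ Y := by exact_mod_cast h2
  have h4 : (nn (u + nx Y u) : ℤ) ≤ 2 * nn u + 2 * nn (nx Y u) := by
    rw [nn_cast, nn_cast, nn_cast]
    simp only [Zsqrtd.re_add, Zsqrtd.im_add]
    nlinarith [sq_nonneg (u.re - (nx Y u).re), sq_nonneg (u.im - (nx Y u).im)]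
  linarith

end Pool.Agent.T2


namespace Pool.Agent.T2

theorem mem_PN : type_of% @mem_PN_pr := @mem_PN_pr
theorem nx_mem : type_of% @nx_mem_pr := @nx_mem_pr
theorem nx_det : type_of% @nx_det_pr := @nx_det_pr
theorem nx_max : type_of% @nx_max_pr := @nx_max_pr
theorem nx_ip : type_of% @nx_ip_pr := @nx_ip_pr
theorem nx_add : type_of% @nx_add_pr := @nx_add_pr
theorem nx_char : type_of% @nx_char_pr := @nx_char_pr
theorem nx_inj : type_of% @nx_inj_pr := @nx_inj_pr
theorem nx_rec : type_of% @nx_rec_pr := @nx_rec_pr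
theorem nx_large : type_of% @nx_large_pr := @nx_large_pr

end Pool.Agent.T2
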