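import Pool.Agent.Lib_helper39.TA.Defs
import Pool.Agent.Lib_helper10.T2F.ANX
import Pool.Agent.Lib_helper10.T2F.BAS
import Pool.Agent.Lib_helper10.T2F.CNT

/-! T2, package A, block AIT: iterates of the next primitive element -/

namespace Pool.Agent.T2

open Filter Topology

theorem it_zero_pr (Y : ℕ) (u : G) : it Y 0 u = u := rfl

theorem it_succ_pr (Y i : ℕ) (u : G) : it Y (i + 1) u = nx Y (it Y i u) := by
  unfold it
  rw [Function.iterate_succ_apply']

theorem it_add_pr (Y i j : ℕ) (u : G) : it Y (i + j) u = it Y i (it Y j u) := by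
  unfold it
  rw [Function.iterate_add_apply]

theorem it_mem_pr {Y : ℕ} {u : G} (hu : u ∈ PN Y) (i : ℕ) : it Y i u ∈ PN Y := by
  induction i with
  | zero => exact hu
  | succ i ih =>
    rw [it_succ_pr]
    exact nx_mem ih

theorem it_inj_pr (Y i : ℕ) : Set.InjOn (it Y i) (PN Y : Set G) := by
  induction i with
  | zero =>
    intro a _ b _ h
    exact h
  | succ i ih =>
    intro a ha b hb h
    rw [it_succ_pr, it_succ_pr] at h
    exact ih ha hb (nx_inj Y (Finset.mem_coe.2 (it_mem_pr (Finset.mem_coe.1 ha) i))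
      (Finset.mem_coe.2 (it_mem_pr (Finset.mem_coe.1 hb) i)) h)

open Classical in
theorem ait_image (Y i : ℕ) : (PN Y).image (it Y i) = PN Y := by
  apply Finset.eq_of_subset_of_card_le
  · intro w hw
    obtain ⟨u, hu, rfl⟩ := Finset.mem_image.1 hw
    exact it_mem_pr hu i
  · rw [Finset.card_image_of_injOn (it_inj_pr Y i)]

theorem sum_it_pr (Y i : ℕ) (f : G → ℝ) : ∑ u ∈ PN Y, f (it Y i u) = ∑ u ∈ PN Y, f u := by
  classical
  conv_rhs => rw [← ait_image Y i]
  rw [Finset.sum_image (fun a ha b hb h => it_inj_pr Y i ha hb h)]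

open Classical in
theorem card_it_pr (Y i : ℕ) (p : G → Prop) :
    ((PN Y).filter (fun u => p (it Y i u))).card = ((PN Y).filter p).card := by
  have h := sum_it_pr Y i (fun u => if p u then (1 : ℝ) else 0)
  rw [Finset.sum_boole, Finset.sum_boole] at h
  exact_mod_cast h

theorem PN_le_pr : ∃ C : ℝ, 1 ≤ C ∧ ∀ Y : ℕ, ((PN Y).card : ℝ) ≤ C * Y := by
  obtain ⟨C, hC, h⟩ := ball_le
  refine ⟨C, hC, fun Y => ?_⟩
  have h1 := h (Y : ℝ) (Nat.cast_nonneg Y)
  have h2 : (PN Y).card ≤ (Bl (Y : ℝ)).card := by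
    apply Finset.card_le_card
    intro u hu
    have h4 := mem_PB.1 hu
    exact mem_Bl.2 ⟨prm_ne h4.1, h4.2⟩
  have h3 : ((PN Y).card : ℝ) ≤ ((Bl (Y : ℝ)).card : ℝ) := by exact_mod_cast h2
  linarith

end Pool.Agent.T2


namespace Pool.Agent.T2

theorem it_zero : type_of% @it_zero_pr := @it_zero_pr
theorem it_succ : type_of% @it_succ_pr := @it_succ_pr
theorem it_add : type_of% @it_add_pr := @it_add_pr
theorem it_mem : type_of% @it_mem_pr := @it_mem_pr
theorem it_inj : type_of% @it_inj_pr := @it_inj_pr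
theorem sum_it : type_of% @sum_it_pr := @sum_it_pr
theorem card_it : type_of% @card_it_pr := @card_it_pr
theorem PN_le : type_of% @PN_le_pr := @PN_le_pr

end Pool.Agent.T2
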