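import Pool.Agent.Lib_helper39.TA.Defs
import Pool.Agent.Lib_helper10.T2F.AIT
import Pool.Agent.Lib_helper10.T2F.ANX
import Pool.Agent.Lib_helper10.T2F.BAS

/-!
# T2, block AWI: windows
-/

namespace Pool.Agent.T2

open Filter Topology

theorem awi_det (a b c : G) : det a c * nn b = det a b * ip b c + ip a b * det b c := by
  rw [nn_cast]
  unfold det ip
  ring

theorem awi_ip (a b c : G) : ip a c * nn b = ip a b * ip b c - det a b * det b c := by
  rw [nn_cast]
  unfold det ip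
  ring

theorem awi_pos {Y : ℕ} {u : G} (hu : u ∈ PN Y) (i : ℕ) : (0 : ℤ) < nn (it Y i u) := by
  have := nn_pos.mpr (prm_ne (mem_PN.mp (it_mem hu i)).1)
  exact_mod_cast this

theorem awi_posR {Y : ℕ} {u : G} (hu : u ∈ PN Y) (i : ℕ) : (0 : ℝ) < nn (it Y i u) := by
  have := awi_pos hu i
  exact_mod_cast this

theorem awi_step {Y : ℕ} {u : G} (hu : u ∈ PN Y) (i : ℕ) :
    det (it Y i u) (it Y (i + 1) u) = 1 := by
  rw [it_succ]
  exact nx_det (it_mem hu i)

theorem awi_ipabs (a b : G) : |(ip a b : ℝ)| ≤ Real.sqrt (nn a) * Real.sqrt (nn b) := by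
  rw [← Real.sqrt_mul (Nat.cast_nonneg _)]
  apply Real.abs_le_sqrt
  have h := ip_sq_add a b
  have h' : ((nn a : ℝ)) * nn b = (ip a b : ℝ) ^ 2 + (det a b : ℝ) ^ 2 := by exact_mod_cast h
  nlinarith [sq_nonneg (det a b : ℝ)]

theorem sin_sum_pr {Y : ℕ} {u : G} (hu : u ∈ PN Y) (i j : ℕ) (hij : i ≤ j) :
    |(det (it Y i u) (it Y j u) : ℝ)| ≤
      Real.sqrt ((nn (it Y i u) : ℝ) * (nn (it Y j u) : ℝ)) *
        ∑ l ∈ Finset.Ico i j,
          1 / Real.sqrt ((nn (it Y l u) : ℝ) * (nn (it Y (l + 1) u) : ℝ)) := by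
  induction j, hij using Nat.le_induction with
  | base =>
    have : det (it Y i u) (it Y i u) = 0 := by
      unfold det
      ring
    rw [this]
    simp
  | succ j hij ih =>
    rw [Finset.sum_Ico_succ_top hij]
    set a := it Y i u with ha
    set b := it Y j u with hb
    set c := it Y (j + 1) u with hc
    set S := ∑ l ∈ Finset.Ico i j,
          1 / Real.sqrt ((nn (it Y l u) : ℝ) * (nn (it Y (l + 1) u) : ℝ)) with hS
    have hA : 0 < Real.sqrt (nn a : ℝ) := Real.sqrt_pos.mpr (awi_posR hu i)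
    have hB : 0 < Real.sqrt (nn b : ℝ) := Real.sqrt_pos.mpr (awi_posR hu j)
    have hC : 0 < Real.sqrt (nn c : ℝ) := Real.sqrt_pos.mpr (awi_posR hu (j + 1))
    have hB2 : (nn b : ℝ) = Real.sqrt (nn b : ℝ) ^ 2 := (Real.sq_sqrt (Nat.cast_nonneg _)).symm
    rw [Real.sqrt_mul (Nat.cast_nonneg _)] at ih ⊢
    rw [Real.sqrt_mul (Nat.cast_nonneg (nn b))]
    have h1 := awi_det a b c
    have h2 : det b c = 1 := awi_step hu j
    rw [h2, mul_one] at h1
    have h1' : (det a c : ℝ) * (nn b : ℝ) = (det a b : ℝ) * (ip b c : ℝ) + (ip a b : ℝ) := by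
      exact_mod_cast h1
    have h3 : |(det a c : ℝ)| * (nn b : ℝ) ≤ |(det a b : ℝ)| *
        (Real.sqrt (nn b : ℝ) * Real.sqrt (nn c : ℝ)) +
          Real.sqrt (nn a : ℝ) * Real.sqrt (nn b : ℝ) := by
      calc |(det a c : ℝ)| * (nn b : ℝ) = |(det a c : ℝ) * (nn b : ℝ)| := by
            rw [abs_mul, abs_of_nonneg (Nat.cast_nonneg (nn b) : (0 : ℝ) ≤ (nn b : ℝ))]
        _ = |(det a b : ℝ) * (ip b c : ℝ) + (ip a b : ℝ)| := by rw [h1']
        _ ≤ |(det a b : ℝ)| * |(ip b c : ℝ)| + |(ip a b : ℝ)| := by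
            rw [← abs_mul]
            exact abs_add_le _ _
        _ ≤ _ := add_le_add (mul_le_mul_of_nonneg_left (awi_ipabs b c) (abs_nonneg _))
            (awi_ipabs a b)
    have h4 : |(det a c : ℝ)| * (nn b : ℝ) ≤
        (Real.sqrt (nn a : ℝ) * Real.sqrt (nn c : ℝ) * (S + 1 / (Real.sqrt (nn b : ℝ) *
          Real.sqrt (nn c : ℝ)))) * (nn b : ℝ) := by
      refine h3.trans ?_
      have h5 := mul_le_mul_of_nonneg_right ih
        (mul_nonneg hB.le hC.le)
      have h6 : (Real.sqrt (nn a : ℝ) * Real.sqrt (nn c : ℝ) * (S + 1 / (Real.sqrt (nn b : ℝ) *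
          Real.sqrt (nn c : ℝ)))) * (nn b : ℝ) =
          Real.sqrt (nn a : ℝ) * Real.sqrt (nn b : ℝ) * S *
            (Real.sqrt (nn b : ℝ) * Real.sqrt (nn c : ℝ)) +
          Real.sqrt (nn a : ℝ) * Real.sqrt (nn b : ℝ) := by
        rw [hB2, Real.sqrt_sq hB.le]
        field_simp
      rw [h6]
      linarith
    exact le_of_mul_le_mul_right h4 (awi_posR hu j)

/-- the sines are at most `1/2` -/
theorem awi_half {Y : ℕ} {u : G} (hu : u ∈ PN Y) (L : ℕ) (hL : 16 * (L + 1) ^ 2 ≤ Y) (i j : ℕ)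
    (hij : i ≤ j) (hj : j ≤ L) :
    4 * det (it Y i u) (it Y j u) ^ 2 ≤ (nn (it Y i u) : ℤ) * (nn (it Y j u) : ℤ) := by
  have h1 := sin_sum_pr hu i j hij
  have hL' : 16 * ((L : ℝ) + 1) ^ 2 ≤ Y := by exact_mod_cast hL
  have h2 : ∀ l ∈ Finset.Ico i j,
      1 / Real.sqrt ((nn (it Y l u) : ℝ) * (nn (it Y (l + 1) u) : ℝ)) ≤
        1 / (2 * ((L : ℝ) + 1)) := by
    intro l _
    apply one_div_le_one_div_of_le (by positivity)
    apply Real.le_sqrt_of_sq_le
    have h3 := nx_large (it_mem hu l)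
    rw [← it_succ] at h3
    have ha : (1 : ℝ) ≤ nn (it Y l u) := by
      have := awi_pos hu l
      exact_mod_cast this
    have hb : (1 : ℝ) ≤ nn (it Y (l + 1) u) := by
      have := awi_pos hu (l + 1)
      exact_mod_cast this
    rcases h3 with h3 | h3
    · have h3' : (Y : ℝ) < 4 * nn (it Y l u) := by exact_mod_cast h3
      nlinarith
    · have h3' : (Y : ℝ) < 4 * nn (it Y (l + 1) u) := by exact_mod_cast h3
      nlinarith
  have h4 : ∑ l ∈ Finset.Ico i j,
          1 / Real.sqrt ((nn (it Y l u) : ℝ) * (nn (it Y (l + 1) u) : ℝ)) ≤ 1 / 2 := by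
    refine (Finset.sum_le_card_nsmul _ _ _ h2).trans ?_
    rw [Nat.card_Ico, nsmul_eq_mul]
    have h5 : ((j - i : ℕ) : ℝ) ≤ L + 1 := by
      have : j - i ≤ L + 1 := by omega
      exact_mod_cast this
    calc ((j - i : ℕ) : ℝ) * (1 / (2 * ((L : ℝ) + 1))) ≤ (L + 1) * (1 / (2 * ((L : ℝ) + 1))) :=
          mul_le_mul_of_nonneg_right h5 (by positivity)
      _ = 1 / 2 := by field_simp
  have h0 : (0 : ℝ) ≤ (nn (it Y i u) : ℝ) * (nn (it Y j u) : ℝ) := by positivity
  have h6 : 2 * |(det (it Y i u) (it Y j u) : ℝ)| ≤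
      Real.sqrt ((nn (it Y i u) : ℝ) * (nn (it Y j u) : ℝ)) := by
    have := mul_le_mul_of_nonneg_left h4 (Real.sqrt_nonneg
      ((nn (it Y i u) : ℝ) * (nn (it Y j u) : ℝ)))
    linarith
  have h7 : (2 * |(det (it Y i u) (it Y j u) : ℝ)|) ^ 2 ≤
      (nn (it Y i u) : ℝ) * (nn (it Y j u) : ℝ) := by
    have := pow_le_pow_left₀ (by positivity) h6 2
    rwa [Real.sq_sqrt h0] at this
  rw [mul_pow, sq_abs] at h7
  have h8 : (4 : ℝ) * (det (it Y i u) (it Y j u) : ℝ) ^ 2 ≤
      (nn (it Y i u) : ℝ) * (nn (it Y j u) : ℝ) := by linarith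
  exact_mod_cast h8

theorem awi_base {Y : ℕ} {u : G} (hu : u ∈ PN Y) (L : ℕ) (hL : 16 * (L + 1) ^ 2 ≤ Y) (i : ℕ)
    (hi : i + 1 ≤ L) : 1 < ip (it Y i u) (it Y (i + 1) u) := by
  have h1 := awi_half hu L hL i (i + 1) (by omega) hi
  have h2 := ip_sq_add (it Y i u) (it Y (i + 1) u)
  rw [awi_step hu i] at h1 h2
  have h3 : 0 ≤ ip (it Y i u) (it Y (i + 1) u) := by
    rw [it_succ]
    exact nx_ip (it_mem hu i)
  nlinarith

theorem nx_window_pr {Y : ℕ} {u : G} (hu : u ∈ PN Y) (L : ℕ) (hL : 16 * (L + 1) ^ 2 ≤ Y)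
    (i j : ℕ) (hij : i < j) (hj : j ≤ L) : 0 < det (it Y i u) (it Y j u) ∧
      0 < ip (it Y i u) (it Y j u) ∧
      4 * det (it Y i u) (it Y j u) ^ 2 ≤ (nn (it Y i u) : ℤ) * (nn (it Y j u) : ℤ) := by
  have key : ∀ j : ℕ, i + 1 ≤ j → j ≤ L → 0 < det (it Y i u) (it Y j u) ∧
      0 < ip (it Y i u) (it Y j u) := by
    intro j hij
    induction j, hij using Nat.le_induction with
    | base =>
      intro hj
      refine ⟨?_, ?_⟩
      · rw [awi_step hu i]
        norm_num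
      · have := awi_base hu L hL i hj
        linarith
    | succ j hij ih =>
      intro hj
      obtain ⟨ih1, ih2⟩ := ih (by omega)
      have hd := awi_det (it Y i u) (it Y j u) (it Y (j + 1) u)
      have hi := awi_ip (it Y i u) (it Y j u) (it Y (j + 1) u)
      rw [awi_step hu j, mul_one] at hd hi
      have hb := awi_base hu L hL j hj
      have hh := awi_half hu L hL i j (by omega) (by omega)
      have hs := ip_sq_add (it Y i u) (it Y j u)
      have hp := awi_pos hu j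
      have h1 : det (it Y i u) (it Y j u) < ip (it Y i u) (it Y j u) := by
        nlinarith
      constructor
      · by_contra hc
        push Not at hc
        have : det (it Y i u) (it Y (j + 1) u) * (nn (it Y j u) : ℤ) ≤ 0 :=
          mul_nonpos_of_nonpos_of_nonneg hc hp.le
        rw [hd] at this
        nlinarith
      · by_contra hc
        push Not at hc
        have : ip (it Y i u) (it Y (j + 1) u) * (nn (it Y j u) : ℤ) ≤ 0 :=
          mul_nonpos_of_nonpos_of_nonneg hc hp.le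
        rw [hi] at this
        nlinarith
  exact ⟨(key j hij hj).1, (key j hij hj).2, awi_half hu L hL i j hij.le hj⟩

end Pool.Agent.T2


namespace Pool.Agent.T2

theorem sin_sum : type_of% @sin_sum_pr := @sin_sum_pr
theorem nx_window : type_of% @nx_window_pr := @nx_window_pr

end Pool.Agent.T2
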