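import Pool.Agent.Lib_helper39.TA.Defs
import Pool.Agent.Lib_helper10.T2F.AIT
import Pool.Agent.Lib_helper10.T2F.ANX
import Pool.Agent.Lib_helper10.T2F.AWI
import Pool.Agent.Lib_helper10.T2F.BAS

/-!
# T2, block AFH: bounds for the quantised correlation
-/

namespace Pool.Agent.T2

open Filter Topology

theorem wt_le_pr (α β : ℝ) {B N c₁ c₂ : ℕ} (hB : 1 ≤ B) : 0 ≤ wt α β B N c₁ c₂ ∧
    wt α β B N c₁ c₂ ≤ (B : ℝ) ^ 2 := by
  classical
  have hB' : (1 : ℝ) ≤ B := by exact_mod_cast hB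
  unfold wt
  split_ifs with h
  · refine ⟨by positivity, ?_⟩
    obtain ⟨h1, -, h3, -, -⟩ := h
    have h1' : (N : ℝ) ≤ B * c₁ := by exact_mod_cast h1
    have h3' : (N : ℝ) ≤ (B : ℝ) ^ 2 * c₂ := by exact_mod_cast h3
    rcases (Real.sqrt_nonneg ((c₁ : ℝ) * c₂)).eq_or_lt with h0 | h0
    · rw [← h0, div_zero]
      positivity
    · rw [div_le_iff₀ h0]
      have hN : (0 : ℝ) ≤ N := Nat.cast_nonneg _
      have hc : (0 : ℝ) ≤ (c₁ : ℝ) * c₂ := by positivity
      have h4 : (N : ℝ) ^ 2 ≤ ((B : ℝ) ^ 2 * Real.sqrt ((c₁ : ℝ) * c₂)) ^ 2 := by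
        rw [mul_pow, Real.sq_sqrt hc]
        have h5 : (N : ℝ) * N ≤ (B * c₁) * ((B : ℝ) ^ 2 * c₂) :=
          mul_le_mul h1' h3' hN (by positivity)
        have h6 : (0 : ℝ) ≤ ((B : ℝ) - 1) * ((B : ℝ) ^ 3 * ((c₁ : ℝ) * c₂)) :=
          mul_nonneg (by linarith) (by positivity)
        nlinarith
      exact le_of_sq_le_sq h4 (by positivity)
  · exact ⟨le_refl _, by positivity⟩

theorem afh_wt_ne {α β : ℝ} {B N c₁ c₂ : ℕ} (h : wt α β B N c₁ c₂ ≠ 0) : N ≤ B * c₁ := by
  classical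
  unfold wt at h
  by_contra hc
  rw [if_neg (fun h' => hc h'.1)] at h
  exact h rfl

theorem FH_ne_pr (α β : ℝ) {B N L Y p : ℕ} {u : G} (h : FH α β B N L Y p u ≠ 0) :
    N ≤ B * ce N Y u := by
  classical
  unfold FH at h
  obtain ⟨m, _, hm⟩ := Finset.exists_ne_zero_of_sum_ne_zero h
  split_ifs at hm with hd
  · exact afh_wt_ne (left_ne_zero_of_mul hm)
  · exact absurd rfl hm

/-- the multiples of a primitive element -/
theorem afh_mult {u z : G} (hu : Prm u) (h : det u z = 0) : ∃ j : ℤ, z = (j : G) * u := by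
  unfold Prm at hu
  rw [← Int.isCoprime_iff_gcd_eq_one] at hu
  obtain ⟨a, b, hab⟩ := hu
  unfold det at h
  refine ⟨a * z.re + b * z.im, ?_⟩
  apply Zsqrtd.ext
  · rw [Zsqrtd.re_mul, Zsqrtd.re_intCast, Zsqrtd.im_intCast]
    linear_combination (-z.re) * hab - b * h
  · rw [Zsqrtd.im_mul, Zsqrtd.re_intCast, Zsqrtd.im_intCast]
    linear_combination (-z.im) * hab + a * h

theorem afh_ip (j : ℤ) (u w : G) : ip u (w + (j : G) * u) = ip u w + j * nn u := by
  rw [nn_cast]
  unfold ip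
  simp only [Zsqrtd.re_add, Zsqrtd.im_add, Zsqrtd.re_mul, Zsqrtd.im_mul, Zsqrtd.re_intCast,
    Zsqrtd.im_intCast]
  ring

theorem FH_le_pr (α β : ℝ) {B N L Y p : ℕ} {u : G} (hB : 1 ≤ B) (hN : 1 ≤ N)
    (hL : 16 * (L + 1) ^ 2 ≤ Y) (hu : u ∈ PN Y) :
    |FH α β B N L Y p u| ≤ 2 * (B : ℝ) ^ 3 := by
  classical
  have hB' : (1 : ℝ) ≤ B := by exact_mod_cast hB
  have hnu : (0 : ℤ) < nn u := by
    have := nn_pos.mpr (prm_ne (mem_PN.mp hu).1)
    exact_mod_cast this
  have hwin : ∀ m ∈ Finset.Icc 1 (L / 2), 0 < det u (it Y m u) ∧ 0 < ip u (it Y m u) := by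
    intro m hm
    rw [Finset.mem_Icc] at hm
    have h := nx_window hu L hL 0 m (by omega) (by omega)
    rw [it_zero] at h
    exact ⟨h.1, h.2.1⟩
  unfold FH
  set S := (Finset.Icc 1 (L / 2)).filter (fun m => det u (it Y m u) = (p : ℤ) ∧
    wt α β B N (ce N Y u) (ce N Y (it Y m u)) ≠ 0) with hS
  have h1 : |∑ m ∈ Finset.Icc 1 (L / 2), if det u (it Y m u) = (p : ℤ) then
      wt α β B N (ce N Y u) (ce N Y (it Y m u)) * (gl u * gl (it Y m u)) else 0| ≤
      ∑ m ∈ Finset.Icc 1 (L / 2), (if det u (it Y m u) = (p : ℤ) ∧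
        wt α β B N (ce N Y u) (ce N Y (it Y m u)) ≠ 0 then (B : ℝ) ^ 2 else 0) := by
    refine (Finset.abs_sum_le_sum_abs _ _).trans (Finset.sum_le_sum fun m _ => ?_)
    by_cases hd : det u (it Y m u) = (p : ℤ)
    · rw [if_pos hd]
      by_cases hw : wt α β B N (ce N Y u) (ce N Y (it Y m u)) = 0
      · rw [hw]
        simp
      · rw [if_pos ⟨hd, hw⟩, abs_mul, abs_mul]
        obtain ⟨h2, h3⟩ := wt_le_pr α β (N := N) (c₁ := ce N Y u) (c₂ := ce N Y (it Y m u)) hB
        rw [abs_of_nonneg h2]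
        have h4 : |gl u| * |gl (it Y m u)| ≤ 1 :=
          mul_le_one₀ (gl_abs u) (abs_nonneg _) (gl_abs _)
        calc wt α β B N (ce N Y u) (ce N Y (it Y m u)) * (|gl u| * |gl (it Y m u)|) ≤
            (B : ℝ) ^ 2 * 1 := mul_le_mul h3 h4 (by positivity) (by positivity)
          _ = (B : ℝ) ^ 2 := mul_one _
    · rw [if_neg hd, if_neg (fun h => hd h.1)]
      simp
  refine h1.trans ?_
  rw [← Finset.sum_filter, Finset.sum_const, nsmul_eq_mul]
  have hcard : S.card ≤ B + 1 := by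
    rw [← Finset.card_range (B + 1)]
    refine Finset.card_le_card_of_injOn
      (fun m => (ip u (it Y m u) / (nn u : ℤ)).toNat) ?_ ?_
    · intro m hm
      rw [Finset.mem_coe, hS, Finset.mem_filter] at hm
      obtain ⟨hm1, hd, hw⟩ := hm
      rw [Finset.coe_range, Set.mem_Iio]
      have hi := (hwin m hm1).2
      have h2 : N ≤ B * ce N Y u := afh_wt_ne hw
      -- `Y ≤ B nn u`
      have hYB : (Y : ℤ) ≤ B * nn u := by
        have h3 : ce N Y u * Y ≤ N * nn u := by
          unfold ce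
          exact Nat.div_mul_le_self _ _
        have h4 : N * Y ≤ N * (B * nn u) := by
          calc N * Y ≤ B * ce N Y u * Y := Nat.mul_le_mul_right _ h2
            _ = B * (ce N Y u * Y) := by ring
            _ ≤ B * (N * nn u) := Nat.mul_le_mul_left _ h3
            _ = N * (B * nn u) := by ring
        have h5 := Nat.le_of_mul_le_mul_left h4 (by omega)
        exact_mod_cast h5
      have hipY : ip u (it Y m u) ≤ Y := by
        have h6 := ip_sq_add u (it Y m u)
        have h7 : (nn u : ℤ) ≤ Y := by exact_mod_cast (mem_PN.mp hu).2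
        have h8 : (nn (it Y m u) : ℤ) ≤ Y := by exact_mod_cast (mem_PN.mp (it_mem hu m)).2
        have h9 : (nn u : ℤ) * nn (it Y m u) ≤ Y * Y :=
          mul_le_mul h7 h8 (by positivity) (by positivity)
        have h10 : ip u (it Y m u) ^ 2 ≤ (Y : ℤ) ^ 2 := by nlinarith [sq_nonneg (det u (it Y m u))]
        exact abs_le_of_sq_le_sq' h10 (by positivity) |>.2
      have h11 : ip u (it Y m u) / (nn u : ℤ) ≤ B := by
        refine (Int.ediv_le_ediv hnu (hipY.trans hYB)).trans ?_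
        rw [Int.mul_ediv_cancel _ hnu.ne']
      show (ip u (it Y m u) / (nn u : ℤ)).toNat < B + 1
      omega
    · intro m hm m' hm' heq
      rw [Finset.mem_coe, hS, Finset.mem_filter] at hm hm'
      obtain ⟨hm1, hd, hw⟩ := hm
      obtain ⟨hm1', hd', hw'⟩ := hm'
      have hi := (hwin m hm1).2
      have hi' := (hwin m' hm1').2
      simp only at heq
      have hq : ip u (it Y m u) / (nn u : ℤ) = ip u (it Y m' u) / (nn u : ℤ) := by
        have h2 : 0 ≤ ip u (it Y m u) / (nn u : ℤ) := Int.ediv_nonneg hi.le hnu.le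
        have h3 : 0 ≤ ip u (it Y m' u) / (nn u : ℤ) := Int.ediv_nonneg hi'.le hnu.le
        omega
      have hz : det u (it Y m u - it Y m' u) = 0 := by
        have : det u (it Y m u - it Y m' u) = det u (it Y m u) - det u (it Y m' u) := by
          unfold det
          simp only [Zsqrtd.re_sub, Zsqrtd.im_sub]
          ring
        rw [this, hd, hd', sub_self]
      obtain ⟨j, hj⟩ := afh_mult (mem_PN.mp hu).1 hz
      have hj' : it Y m u = it Y m' u + (j : G) * u := by rw [← hj]; ring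
      rw [hj', afh_ip, Int.add_mul_ediv_right _ _ hnu.ne'] at hq
      have hj0 : j = 0 := by linarith
      rw [hj0] at hj'
      simp only [Int.cast_zero, zero_mul, add_zero] at hj'
      rw [Finset.mem_Icc] at hm1 hm1'
      have hself : ∀ a : G, det a a = 0 := by
        intro a
        unfold det
        ring
      rcases lt_trichotomy m m' with h | h | h
      · have := (nx_window hu L hL m m' h (by omega)).1
        rw [hj', hself] at this
        exact absurd this (lt_irrefl 0)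
      · exact h
      · have := (nx_window hu L hL m' m h (by omega)).1
        rw [hj', hself] at this
        exact absurd this (lt_irrefl 0)
  have hcard' : (S.card : ℝ) ≤ B + 1 := by exact_mod_cast hcard
  calc (S.card : ℝ) * (B : ℝ) ^ 2 ≤ (B + 1) * (B : ℝ) ^ 2 :=
        mul_le_mul_of_nonneg_right hcard' (by positivity)
    _ ≤ 2 * (B : ℝ) ^ 3 := by nlinarith [sq_nonneg (B : ℝ)]

end Pool.Agent.T2


namespace Pool.Agent.T2

theorem wt_le : type_of% @wt_le_pr := @wt_le_pr
theorem FH_ne : type_of% @FH_ne_pr := @FH_ne_pr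
theorem FH_le : type_of% @FH_le_pr := @FH_le_pr

end Pool.Agent.T2
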