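import Pool.Agent.Lib_helper39.TA.Defs
import Pool.Agent.Lib_helper10.T2F.ANX
import Pool.Agent.Lib_helper10.T2F.BAS
import Pool.Agent.Lib_helper10.T2F.PEL

/-! T2, package A, block AFR: frames. -/

namespace Pool.Agent.T2

open Filter Topology

theorem afr_mul_re (z w : G) : (z * w).re = z.re * w.re - z.im * w.im := by
  rw [Zsqrtd.re_mul]; ring

theorem afr_mul_im (z w : G) : (z * w).im = z.re * w.im + z.im * w.re := by
  rw [Zsqrtd.im_mul]

theorem pel_dvd_pr {p : ℕ} (hp : p.Prime) (h4 : p % 4 = 1) (z : G) :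
    pel p ∣ z ↔ (p : ℤ) ∣ det (pel p) z := by
  obtain ⟨h1, -, -⟩ := pel_spec hp h4
  have h2 : (p : ℤ) = (pel p).re ^ 2 + (pel p).im ^ 2 := by rw [← nn_cast, h1]
  have hp' : Prime (p : ℤ) := Nat.prime_iff_prime_int.mp hp
  have hp0 : (p : ℤ) ≠ 0 := hp'.ne_zero
  constructor
  · rintro ⟨w, rfl⟩
    refine ⟨w.im, ?_⟩
    rw [det, afr_mul_re, afr_mul_im, h2]
    ring
  · rintro ⟨d, hd⟩
    rw [det] at hd
    have h3 : (p : ℤ) ∣ ((pel p).re * z.re + (pel p).im * z.im) ^ 2 := by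
      refine ⟨(z.re ^ 2 + z.im ^ 2) - p * d ^ 2, ?_⟩
      have h4 : ((pel p).re * z.re + (pel p).im * z.im) ^ 2 =
          ((pel p).re ^ 2 + (pel p).im ^ 2) * (z.re ^ 2 + z.im ^ 2) -
            ((pel p).re * z.im - (pel p).im * z.re) ^ 2 := by ring
      rw [h4, hd, ← h2]; ring
    obtain ⟨c, hc⟩ := hp'.dvd_of_dvd_pow h3
    refine ⟨⟨c, d⟩, ?_⟩
    apply Zsqrtd.ext
    · rw [afr_mul_re]
      apply mul_left_cancel₀ hp0
      have : (p : ℤ) * ((pel p).re * c - (pel p).im * d) =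
          (pel p).re * (p * c) - (pel p).im * (p * d) := by ring
      show (p : ℤ) * z.re = (p : ℤ) * ((pel p).re * c - (pel p).im * d)
      rw [this, ← hc, ← hd]
      nth_rewrite 1 [h2]
      ring
    · rw [afr_mul_im]
      apply mul_left_cancel₀ hp0
      have : (p : ℤ) * ((pel p).re * d + (pel p).im * c) =
          (pel p).re * (p * d) + (pel p).im * (p * c) := by ring
      show (p : ℤ) * z.im = (p : ℤ) * ((pel p).re * d + (pel p).im * c)
      rw [this, ← hc, ← hd]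
      nth_rewrite 1 [h2]
      ring

theorem det_decomp_pr {Y : ℕ} {u : G} (hu : u ∈ PN Y) (z : G) :
    z = (det z (nx Y u) : G) * u + (det u z : G) * nx Y u := by
  have h := nx_det hu
  rw [det] at h
  apply Zsqrtd.ext
  · rw [Zsqrtd.re_add, afr_mul_re, afr_mul_re]
    simp only [Zsqrtd.re_intCast, Zsqrtd.im_intCast, det]
    linear_combination (-z.re) * h
  · rw [Zsqrtd.im_add, afr_mul_im, afr_mul_im]
    simp only [Zsqrtd.re_intCast, Zsqrtd.im_intCast, det]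
    linear_combination (-z.im) * h

theorem afr_det_decomp {Y : ℕ} {u : G} (hu : u ∈ PN Y) (x z : G) :
    det x z = det z (nx Y u) * det x u + det u z * det x (nx Y u) := by
  have h := nx_det hu
  simp only [det] at h ⊢
  linear_combination (-(x.re * z.im - x.im * z.re)) * h

theorem fr_mem_pr {Q : Finset ℕ} (hQ : Pset Q) {Y : ℕ} {u : G} (hu : u ∈ PN Y) (p : Q) :
    fr Q Y u p ∈ Ep (p : ℕ) := by
  obtain ⟨hp, h4⟩ := hQ p.1 p.2
  obtain ⟨h1, h2, h3⟩ := pel_spec hp h4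
  have hp0 : (0 : ℤ) < ((p : ℕ) : ℤ) := by exact_mod_cast hp.pos
  rw [Ep, Finset.mem_erase]
  refine ⟨?_, ?_⟩
  · intro h0
    have e1 : det (pel (p : ℕ)) u % ((p : ℕ) : ℤ) = 0 := congrArg Prod.fst h0
    have e2 : det (pel (p : ℕ)) (nx Y u) % ((p : ℕ) : ℤ) = 0 := congrArg Prod.snd h0
    have d1 : ((p : ℕ) : ℤ) ∣ det (pel (p : ℕ)) u := Int.dvd_of_emod_eq_zero e1
    have d2 : ((p : ℕ) : ℤ) ∣ det (pel (p : ℕ)) (nx Y u) := Int.dvd_of_emod_eq_zero e2
    have hdec := det_decomp_pr hu (pel (p : ℕ))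
    have him := congrArg Zsqrtd.im hdec
    rw [Zsqrtd.im_add, afr_mul_im, afr_mul_im] at him
    simp only [Zsqrtd.re_intCast, Zsqrtd.im_intCast, zero_mul, add_zero] at him
    have d3 : ((p : ℕ) : ℤ) ∣ (pel (p : ℕ)).im := by
      rw [him]
      refine dvd_add (Dvd.dvd.mul_right d2 _) (Dvd.dvd.mul_right ?_ _)
      have : det u (pel (p : ℕ)) = - det (pel (p : ℕ)) u := by simp only [det]; ring
      rw [this]
      exact (dvd_neg).mpr d1
    have h5 := Int.le_of_dvd h2 d3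
    have h6 : (((p : ℕ) : ℕ) : ℤ) = (pel (p : ℕ)).re ^ 2 + (pel (p : ℕ)).im ^ 2 := by
      rw [← nn_cast, h1]
    nlinarith
  · rw [Finset.mem_product, Finset.mem_Ico, Finset.mem_Ico]
    exact ⟨⟨Int.emod_nonneg _ hp0.ne', Int.emod_lt_of_pos _ hp0⟩,
      ⟨Int.emod_nonneg _ hp0.ne', Int.emod_lt_of_pos _ hp0⟩⟩

theorem fr_next_pr {Q : Finset ℕ} {N Y : ℕ} {u u' : G} (hu : u ∈ PN Y) (hu' : u' ∈ PN Y)
    (h : ltr N Y u = ltr N Y u') (hf : fr Q Y u = fr Q Y u') :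
    fr Q Y (nx Y u) = fr Q Y (nx Y u') := by
  have hk : kk Y u = kk Y u' := congrArg Prod.fst h
  funext p
  have hfp := congrFun hf p
  have e1 : det (pel (p : ℕ)) u % ((p : ℕ) : ℤ) = det (pel (p : ℕ)) u' % ((p : ℕ) : ℤ) :=
    congrArg Prod.fst hfp
  have e2 : det (pel (p : ℕ)) (nx Y u) % ((p : ℕ) : ℤ) =
    det (pel (p : ℕ)) (nx Y u') % ((p : ℕ) : ℤ) := congrArg Prod.snd hfp
  have key : ∀ v : G, v ∈ PN Y → det (pel (p : ℕ)) (nx Y (nx Y v)) =
      kk Y v * det (pel (p : ℕ)) (nx Y v) - det (pel (p : ℕ)) v := by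
    intro v hv
    rw [nx_rec hv]
    simp only [det, Zsqrtd.re_sub, Zsqrtd.im_sub, afr_mul_re, afr_mul_im, Zsqrtd.re_intCast,
      Zsqrtd.im_intCast]
    ring
  refine Prod.ext e2 ?_
  show det (pel (p : ℕ)) (nx Y (nx Y u)) % ((p : ℕ) : ℤ) =
    det (pel (p : ℕ)) (nx Y (nx Y u')) % ((p : ℕ) : ℤ)
  rw [key u hu, key u' hu', hk]
  exact Int.ModEq.sub (Int.ModEq.mul_left _ e2) e1

theorem fr_div_pr {Q : Finset ℕ} (hQ : Pset Q) {Y : ℕ} {u : G} (hu : u ∈ PN Y) (p : Q) (z : G) :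
    (((p : ℕ) : ℤ) ∣ det z (nx Y u) * (fr Q Y u p).1 + det u z * (fr Q Y u p).2) ↔
      pel (p : ℕ) ∣ z := by
  obtain ⟨hp, h4⟩ := hQ p.1 p.2
  rw [pel_dvd_pr hp h4, afr_det_decomp hu (pel (p : ℕ)) z]
  have h1 : det z (nx Y u) * (fr Q Y u p).1 + det u z * (fr Q Y u p).2 ≡
      det z (nx Y u) * det (pel (p : ℕ)) u + det u z * det (pel (p : ℕ)) (nx Y u)
        [ZMOD ((p : ℕ) : ℤ)] :=
    Int.ModEq.add (Int.ModEq.mul_left _ (Int.mod_modEq _ _))
      (Int.ModEq.mul_left _ (Int.mod_modEq _ _))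
  exact h1.dvd_iff

open Classical in
theorem Ep_count_pr {p : ℕ} (hp : p.Prime) (A B : ℤ) (hAB : IsCoprime A B) :
    (Ep p).card = p ^ 2 - 1 ∧
    ((Ep p).filter (fun t => (p : ℤ) ∣ A * t.1 + B * t.2)).card = p - 1 := by
  have hp0 : (0 : ℤ) < (p : ℤ) := by exact_mod_cast hp.pos
  constructor
  · rw [Ep, Finset.card_erase_of_mem, Finset.card_product, Int.card_Ico, sub_zero, Int.toNat_natCast,
      sq]
    rw [Finset.mem_product, Finset.mem_Ico]
    exact ⟨⟨le_refl _, hp0⟩, ⟨le_refl _, hp0⟩⟩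
  · obtain ⟨c, d, hcd⟩ := hAB
    have hcard : p - 1 = (Finset.Ico (1 : ℤ) (p : ℤ)).card := by
      rw [Int.card_Ico]
      omega
    rw [hcard]
    refine (Finset.card_bij (fun s _ => ((B * s) % (p : ℤ), (-(A * s)) % (p : ℤ))) ?_ ?_ ?_).symm
    · intro s hs
      rw [Finset.mem_Ico] at hs
      rw [Finset.mem_filter, Ep, Finset.mem_erase, Finset.mem_product, Finset.mem_Ico,
        Finset.mem_Ico]
      refine ⟨⟨?_, ⟨Int.emod_nonneg _ hp0.ne', Int.emod_lt_of_pos _ hp0⟩,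
        ⟨Int.emod_nonneg _ hp0.ne', Int.emod_lt_of_pos _ hp0⟩⟩, ?_⟩
      · intro h0
        have e1 : (B * s) % (p : ℤ) = 0 := congrArg Prod.fst h0
        have e2 : (-(A * s)) % (p : ℤ) = 0 := congrArg Prod.snd h0
        have d1 := Int.dvd_of_emod_eq_zero e1
        have d2 := Int.dvd_of_emod_eq_zero e2
        have d3 : (p : ℤ) ∣ s := by
          have : s = d * (B * s) - c * (-(A * s)) := by linear_combination (-s) * hcd
          rw [this]
          exact dvd_sub (Dvd.dvd.mul_left d1 _) (Dvd.dvd.mul_left d2 _)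
        have := Int.le_of_dvd (by omega) d3
        omega
      · have h1 : A * (B * s % (p : ℤ)) + B * (-(A * s) % (p : ℤ)) ≡
            A * (B * s) + B * (-(A * s)) [ZMOD (p : ℤ)] :=
          Int.ModEq.add (Int.ModEq.mul_left _ (Int.mod_modEq _ _))
            (Int.ModEq.mul_left _ (Int.mod_modEq _ _))
        refine h1.dvd_iff.mpr ?_
        have : A * (B * s) + B * (-(A * s)) = 0 := by ring
        rw [this]
        exact dvd_zero _
    · intro s hs s' hs' h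
      rw [Finset.mem_Ico] at hs hs'
      have e1 : (B * s) ≡ (B * s') [ZMOD (p : ℤ)] := congrArg Prod.fst h
      have e2 : (-(A * s)) ≡ (-(A * s')) [ZMOD (p : ℤ)] := congrArg Prod.snd h
      have e3 : s ≡ s' [ZMOD (p : ℤ)] := by
        have h1 : s = d * (B * s) - c * (-(A * s)) := by linear_combination (-s) * hcd
        have h2 : s' = d * (B * s') - c * (-(A * s')) := by linear_combination (-s') * hcd
        rw [h1, h2]
        exact Int.ModEq.sub (Int.ModEq.mul_left _ e1) (Int.ModEq.mul_left _ e2)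
      have e4 : s % (p : ℤ) = s' % (p : ℤ) := e3
      rwa [Int.emod_eq_of_lt (by omega) hs.2, Int.emod_eq_of_lt (by omega) hs'.2] at e4
    · rintro ⟨t1, t2⟩ ht
      rw [Finset.mem_filter, Ep, Finset.mem_erase, Finset.mem_product, Finset.mem_Ico,
        Finset.mem_Ico] at ht
      obtain ⟨⟨h0, ⟨h1, h2⟩, ⟨h3, h4⟩⟩, hd⟩ := ht
      simp only at h1 h2 h3 h4 hd
      obtain ⟨e, he⟩ := hd
      have k1 : B * ((d * t1 - c * t2) % (p : ℤ)) ≡ t1 [ZMOD (p : ℤ)] := by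
        have h5 : B * ((d * t1 - c * t2) % (p : ℤ)) ≡ B * (d * t1 - c * t2) [ZMOD (p : ℤ)] :=
          Int.ModEq.mul_left _ (Int.mod_modEq _ _)
        refine h5.trans ?_
        have h6 : B * (d * t1 - c * t2) = t1 + (p : ℤ) * (-(c * e)) := by
          linear_combination t1 * hcd - c * he
        rw [h6]
        exact Int.modEq_iff_dvd.mpr ⟨c * e, by ring⟩
      have k2 : -(A * ((d * t1 - c * t2) % (p : ℤ))) ≡ t2 [ZMOD (p : ℤ)] := by
        have h5 : -(A * ((d * t1 - c * t2) % (p : ℤ))) ≡ -(A * (d * t1 - c * t2)) [ZMOD (p : ℤ)] :=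
          Int.ModEq.neg (Int.ModEq.mul_left _ (Int.mod_modEq _ _))
        refine h5.trans ?_
        have h6 : -(A * (d * t1 - c * t2)) = t2 + (p : ℤ) * (-(d * e)) := by
          linear_combination t2 * hcd - d * he
        rw [h6]
        exact Int.modEq_iff_dvd.mpr ⟨d * e, by ring⟩
      refine ⟨(d * t1 - c * t2) % (p : ℤ), ?_, ?_⟩
      · rw [Finset.mem_Ico]
        have h5 := Int.emod_nonneg (d * t1 - c * t2) hp0.ne'
        refine ⟨?_, Int.emod_lt_of_pos _ hp0⟩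
        by_contra hlt
        have h6 : (d * t1 - c * t2) % (p : ℤ) = 0 := by omega
        rw [h6, mul_zero] at k1
        rw [h6, mul_zero, neg_zero] at k2
        apply h0
        have k1' : (0 : ℤ) % (p : ℤ) = t1 % (p : ℤ) := k1
        have k2' : (0 : ℤ) % (p : ℤ) = t2 % (p : ℤ) := k2
        rw [Int.zero_emod, Int.emod_eq_of_lt h1 h2] at k1'
        rw [Int.zero_emod, Int.emod_eq_of_lt h3 h4] at k2'
        rw [← k1', ← k2']
      · refine Prod.ext ?_ ?_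
        · show (B * ((d * t1 - c * t2) % (p : ℤ))) % (p : ℤ) = t1
          have : (B * ((d * t1 - c * t2) % (p : ℤ))) % (p : ℤ) = t1 % (p : ℤ) := k1
          rw [this, Int.emod_eq_of_lt h1 h2]
        · show (-(A * ((d * t1 - c * t2) % (p : ℤ)))) % (p : ℤ) = t2
          have : (-(A * ((d * t1 - c * t2) % (p : ℤ)))) % (p : ℤ) = t2 % (p : ℤ) := k2
          rw [this, Int.emod_eq_of_lt h3 h4]

theorem Ep_pair_pr {p : ℕ} (hp : p.Prime) {t : ℤ × ℤ} (ht : t ∈ Ep p) {A B A' B' : ℤ}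
    (h : (p : ℤ) ∣ A * t.1 + B * t.2) (h' : (p : ℤ) ∣ A' * t.1 + B' * t.2) :
    (p : ℤ) ∣ A * B' - B * A' := by
  have hp' : Prime (p : ℤ) := Nat.prime_iff_prime_int.mp hp
  rw [Ep, Finset.mem_erase, Finset.mem_product, Finset.mem_Ico, Finset.mem_Ico] at ht
  obtain ⟨h0, ⟨h1, h2⟩, ⟨h3, h4⟩⟩ := ht
  have k1 : (p : ℤ) ∣ (A * B' - B * A') * t.1 := by
    have : (A * B' - B * A') * t.1 = B' * (A * t.1 + B * t.2) - B * (A' * t.1 + B' * t.2) := by
      ring
    rw [this]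
    exact dvd_sub (Dvd.dvd.mul_left h _) (Dvd.dvd.mul_left h' _)
  have k2 : (p : ℤ) ∣ (A * B' - B * A') * t.2 := by
    have : (A * B' - B * A') * t.2 = A * (A' * t.1 + B' * t.2) - A' * (A * t.1 + B * t.2) := by
      ring
    rw [this]
    exact dvd_sub (Dvd.dvd.mul_left h' _) (Dvd.dvd.mul_left h _)
  rcases hp'.dvd_or_dvd k1 with k | k
  · exact k
  rcases hp'.dvd_or_dvd k2 with k' | k'
  · exact k'
  exfalso
  apply h0
  have e1 : t.1 = 0 := by
    have : t.1 % (p : ℤ) = 0 := Int.emod_eq_zero_of_dvd k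
    rwa [Int.emod_eq_of_lt h1 h2] at this
  have e2 : t.2 = 0 := by
    have : t.2 % (p : ℤ) = 0 := Int.emod_eq_zero_of_dvd k'
    rwa [Int.emod_eq_of_lt h3 h4] at this
  exact Prod.ext e1 e2

end Pool.Agent.T2


namespace Pool.Agent.T2

theorem pel_dvd : type_of% @pel_dvd_pr := @pel_dvd_pr
theorem det_decomp : type_of% @det_decomp_pr := @det_decomp_pr
theorem fr_mem : type_of% @fr_mem_pr := @fr_mem_pr
theorem fr_next : type_of% @fr_next_pr := @fr_next_pr
theorem fr_div : type_of% @fr_div_pr := @fr_div_pr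
theorem Ep_count : type_of% @Ep_count_pr := @Ep_count_pr
theorem Ep_pair : type_of% @Ep_pair_pr := @Ep_pair_pr

end Pool.Agent.T2
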