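import Pool.Agent.Lib_helper39.TA.Defs
import Pool.Agent.Lib_helper90.PNT.WienerIkehara

/-! T2, block APC (helper90): the number of primes, and the size of the space of frames.
`apc_theta` is taken from block MER (helper47). -/

namespace Pool.Agent.T2

open Filter Topology

theorem apc_mem {P Q : ℝ} {p : ℕ} : p ∈ pr1 P Q ↔
    p.Prime ∧ p % 4 = 1 ∧ P < (p : ℝ) ∧ (p : ℝ) ≤ Q := by
  classical
  unfold pr1
  rw [Finset.mem_filter, Finset.mem_range]
  constructor
  · rintro ⟨-, h⟩; exact h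
  · intro h
    refine ⟨?_, h⟩
    rw [Nat.lt_succ_iff]
    exact Nat.le_floor h.2.2.2

/-- the sum of the logarithms over the primes `1 mod 4` in `(t, 2t]` -/
theorem apc_theta : ∃ T₀ : ℝ, ∀ t : ℝ, T₀ ≤ t →
    0.45 * t ≤ ∑ p ∈ pr1 t (2 * t), Real.log p := by
  classical
  have h := Pool.Agent.Lib_helper90.PNT.pnt_residueClass (q := 4) (a := 1) isUnit_one
  have htot : ((Nat.totient 4 : ℕ) : ℝ)⁻¹ = 1 / 2 := by
    have : Nat.totient 4 = 2 := by decide
    rw [this]; norm_num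
  rw [htot] at h
  set R : ℕ → ℝ := ArithmeticFunction.vonMangoldt.residueClass (1 : ZMod 4) with hR
  set A : ℝ → ℝ := fun x => ∑ k ∈ Finset.Icc 1 ⌊x⌋₊, R k with hA
  obtain ⟨C, hC⟩ := Chebyshev.psi_sub_theta_le_mul_sqrt
  -- eventually A x / x within 0.01 of 1/2
  have h1 : ∀ᶠ x : ℝ in atTop, 0.49 * x ≤ A x ∧ A x ≤ 0.51 * x := by
    have h2 := h.eventually (Ioo_mem_nhds (show (0.49 : ℝ) < 1 / 2 by norm_num)
      (show (1 / 2 : ℝ) < 0.51 by norm_num))
    filter_upwards [h2, eventually_gt_atTop 0] with x hx hx0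
    rw [lt_div_iff₀ hx0, div_lt_iff₀ hx0] at hx
    exact ⟨hx.1.le, hx.2.le⟩
  obtain ⟨T₁, hT₁⟩ := eventually_atTop.1 h1
  -- the key inequality
  have key : ∀ t : ℝ, 1 ≤ t → A (2 * t) - A t ≤
      ∑ p ∈ pr1 t (2 * t), Real.log p + C * Real.sqrt (2 * t) := by
    intro t ht
    have hfl : ⌊t⌋₊ ≤ ⌊2 * t⌋₊ := Nat.floor_le_floor (by linarith)
    have hsplit : A (2 * t) - A t = ∑ k ∈ Finset.Ioc ⌊t⌋₊ ⌊2 * t⌋₊, R k := by
      simp only [hA]
      rw [sub_eq_iff_eq_add, ← Finset.sum_union]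
      · apply Finset.sum_congr _ (fun _ _ => rfl)
        ext k
        simp only [Finset.mem_union, Finset.mem_Ioc, Finset.mem_Icc]
        omega
      · rw [Finset.disjoint_left]
        intro k
        simp only [Finset.mem_Ioc, Finset.mem_Icc]
        omega
    rw [hsplit, ← Finset.sum_filter_add_sum_filter_not _ (fun k : ℕ => k.Prime)]
    have hp1 : ∑ k ∈ (Finset.Ioc ⌊t⌋₊ ⌊2 * t⌋₊).filter (fun k : ℕ => k.Prime), R k ≤
        ∑ p ∈ pr1 t (2 * t), Real.log p := by
      have hsub : pr1 t (2 * t) ⊆ (Finset.Ioc ⌊t⌋₊ ⌊2 * t⌋₊).filter (fun k : ℕ => k.Prime) := by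
        intro p hp
        rw [apc_mem] at hp
        rw [Finset.mem_filter, Finset.mem_Ioc]
        exact ⟨⟨(Nat.floor_lt (by linarith)).2 hp.2.2.1, Nat.le_floor hp.2.2.2⟩, hp.1⟩
      rw [← Finset.sum_subset hsub]
      · apply Finset.sum_le_sum
        intro p hp
        rw [apc_mem] at hp
        refine (ArithmeticFunction.vonMangoldt.residueClass_le _ _).trans (le_of_eq ?_)
        exact ArithmeticFunction.vonMangoldt_apply_prime hp.1
      · intro p hp hnp
        rw [Finset.mem_filter, Finset.mem_Ioc] at hp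
        rw [apc_mem] at hnp
        have h4 : p % 4 ≠ 1 := by
          intro h4
          apply hnp
          refine ⟨hp.2, h4, ?_, ?_⟩
          · exact (Nat.floor_lt (by linarith)).1 hp.1.1
          · exact (Nat.le_floor_iff (by linarith)).1 hp.1.2
        rw [hR]
        unfold ArithmeticFunction.vonMangoldt.residueClass
        rw [Set.indicator_of_notMem]
        intro hmem
        apply h4
        rw [Set.mem_ofPred_eq] at hmem
        have h5 : ((p : ℕ) : ZMod 4) = ((1 : ℕ) : ZMod 4) := by rw [hmem]; simp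
        rw [ZMod.natCast_eq_natCast_iff] at h5
        exact h5
    have hp2 : ∑ k ∈ (Finset.Ioc ⌊t⌋₊ ⌊2 * t⌋₊).filter (fun k : ℕ => ¬ k.Prime), R k ≤
        C * Real.sqrt (2 * t) := by
      refine le_trans ?_ (hC (2 * t))
      rw [Chebyshev.psi_sub_theta_eq_sum_not_prime]
      refine le_trans (Finset.sum_le_sum (fun k _ =>
        ArithmeticFunction.vonMangoldt.residueClass_le (1 : ZMod 4) k)) ?_
      apply Finset.sum_le_sum_of_subset_of_nonneg
      · intro k hk
        simp only [Finset.mem_filter, Finset.mem_Ioc] at hk ⊢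
        exact ⟨⟨by omega, hk.1.2⟩, hk.2⟩
      · intro k _ _
        exact ArithmeticFunction.vonMangoldt_nonneg
    linarith
  -- square root is small
  have h3 : ∀ᶠ t : ℝ in atTop, C * Real.sqrt (2 * t) ≤ 0.02 * t := by
    have h4 : ∀ᶠ t : ℝ in atTop, (100 * (|C| + 1)) ^ 2 ≤ t := eventually_ge_atTop _
    filter_upwards [h4, eventually_ge_atTop 1] with t ht ht1
    have h5 : Real.sqrt (2 * t) ≤ 2 * Real.sqrt t := by
      rw [Real.sqrt_mul (by norm_num)]
      have : Real.sqrt 2 ≤ 2 := by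
        rw [Real.sqrt_le_left (by norm_num)]; norm_num
      exact mul_le_mul_of_nonneg_right this (Real.sqrt_nonneg _)
    have h6 : 100 * (|C| + 1) ≤ Real.sqrt t := by
      apply Real.le_sqrt_of_sq_le ht
    have h7 : Real.sqrt t * Real.sqrt t = t := Real.mul_self_sqrt (by linarith)
    have h8 : 0 ≤ Real.sqrt t := Real.sqrt_nonneg _
    have h9 : C ≤ |C| := le_abs_self C
    have h10 : 0 ≤ |C| := abs_nonneg C
    calc C * Real.sqrt (2 * t) ≤ |C| * (2 * Real.sqrt t) :=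
          mul_le_mul h9 h5 (Real.sqrt_nonneg _) h10
      _ ≤ 0.02 * (Real.sqrt t * Real.sqrt t) := by nlinarith
      _ = 0.02 * t := by rw [h7]
  obtain ⟨T₂, hT₂⟩ := eventually_atTop.1 h3
  refine ⟨max (max T₁ T₂) 1, fun t ht => ?_⟩
  have ht1 : T₁ ≤ t := le_trans (le_trans (le_max_left _ _) (le_max_left _ _)) ht
  have ht2 : T₂ ≤ t := le_trans (le_trans (le_max_right _ _) (le_max_left _ _)) ht
  have ht3 : 1 ≤ t := le_trans (le_max_right _ _) ht
  have e1 := hT₁ t ht1
  have e2 := hT₁ (2 * t) (by linarith)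
  have e3 := hT₂ t ht2
  have e4 := key t ht3
  have e5 : 0.45 * t ≤ 0.49 * (2 * t) - 0.51 * t - 0.02 * t := by linarith
  linarith [e1.2, e2.1]


theorem apc_PP_mem {P p : ℕ} : p ∈ PP P ↔ (P < p ∧ p ≤ 2 * P) ∧ p.Prime ∧ p % 4 = 1 := by
  unfold PP
  rw [Finset.mem_filter, Finset.mem_Ioc]

theorem PP_set_pr (P : ℕ) : Pset (PP P) := by
  intro p hp
  rw [apc_PP_mem] at hp
  exact hp.2

theorem PP_card_pr : ∃ c : ℝ, 0 < c ∧ ∃ P₁ : ℕ, 2 ≤ P₁ ∧ ∀ P : ℕ, P₁ ≤ P →
    c * (P / Real.log P) ≤ (PP P).card := by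
  obtain ⟨T₀, hT⟩ := apc_theta
  refine ⟨0.2, by norm_num, max 2 ⌈T₀⌉₊, le_max_left _ _, fun P hP => ?_⟩
  have hP2 : 2 ≤ P := (le_max_left _ _).trans hP
  have hPT : T₀ ≤ (P : ℝ) := (Nat.le_ceil _).trans (Nat.cast_le.2 ((le_max_right _ _).trans hP))
  have h1 := hT P hPT
  have hP2r : (2 : ℝ) ≤ P := by exact_mod_cast hP2
  have hl2 : Real.log 2 ≤ Real.log P := Real.log_le_log (by norm_num) hP2r
  have hlP : 0 < Real.log P := Real.log_pos (by linarith)
  have h2 : ∑ p ∈ pr1 P (2 * P), Real.log p ≤ (PP P).card * (2 * Real.log P) := by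
    have hsub : pr1 (P : ℝ) (2 * P) ⊆ PP P := by
      intro p hp
      rw [apc_mem] at hp
      rw [apc_PP_mem]
      refine ⟨⟨by exact_mod_cast hp.2.2.1, by exact_mod_cast hp.2.2.2⟩, hp.1, hp.2.1⟩
    have h3 : ∑ p ∈ pr1 (P : ℝ) (2 * P), Real.log p ≤ ∑ p ∈ PP P, Real.log p := by
      refine Finset.sum_le_sum_of_subset_of_nonneg hsub fun p hp _ => ?_
      rw [apc_PP_mem] at hp
      exact Real.log_nonneg (by exact_mod_cast hp.2.1.one_lt.le)
    refine h3.trans ?_
    rw [← nsmul_eq_mul]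
    refine Finset.sum_le_card_nsmul _ _ _ fun p hp => ?_
    rw [apc_PP_mem] at hp
    have hp0 : (0 : ℝ) < p := by exact_mod_cast hp.2.1.pos
    have h4 : (p : ℝ) ≤ 2 * P := by exact_mod_cast hp.1.2
    have h5 := Real.log_le_log hp0 h4
    rw [Real.log_mul (by norm_num) (by linarith)] at h5
    linarith
  rw [mul_div_assoc', div_le_iff₀ hlP]
  nlinarith

open Classical in
theorem log_frames_pr (P L : ℕ) (h : 6 * P ≤ L) :
    Real.log ((Fintype.piFinset (fun p : PP P => Ep (p : ℕ))).card : ℝ) ≤ L := by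
  have hL : (6 : ℝ) * P ≤ L := by exact_mod_cast h
  rw [Fintype.card_piFinset]
  rcases Nat.eq_zero_or_pos (∏ p : PP P, (Ep (p : ℕ)).card) with h0 | h0
  · rw [h0, Nat.cast_zero, Real.log_zero]
    exact Nat.cast_nonneg _
  have h1 : ∏ p : PP P, (Ep (p : ℕ)).card ≤ primorial (2 * P) ^ 2 := by
    have h2 : ∀ p : ℕ, (Ep p).card ≤ p ^ 2 := by
      intro p
      unfold Ep
      refine (Finset.card_le_card (Finset.erase_subset _ _)).trans ?_
      rw [Finset.card_product, Int.card_Ico]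
      simp [sq]
    calc ∏ p : PP P, (Ep (p : ℕ)).card ≤ ∏ p : PP P, (p : ℕ) ^ 2 :=
          Finset.prod_le_prod' fun p _ => h2 _
      _ = (∏ p ∈ PP P, p) ^ 2 := by
          rw [← Finset.prod_pow, ← Finset.prod_coe_sort (PP P) (fun p => p ^ 2)]
      _ ≤ primorial (2 * P) ^ 2 := by
          refine Nat.pow_le_pow_left ?_ 2
          unfold primorial
          refine Finset.prod_le_prod_of_subset_of_one_le' ?_ ?_
          · intro p hp
            rw [apc_PP_mem] at hp
            rw [Finset.mem_filter, Finset.mem_range]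
            exact ⟨by omega, hp.2.1⟩
          · intro p hp _
            rw [Finset.mem_filter] at hp
            exact hp.2.one_lt.le
  have h2 : primorial (2 * P) ^ 2 ≤ (4 ^ (2 * P)) ^ 2 :=
    Nat.pow_le_pow_left (primorial_le_four_pow _) 2
  have h3 : ((∏ p : PP P, (Ep (p : ℕ)).card : ℕ) : ℝ) ≤ 4 ^ (4 * P) := by
    have h4 : ((∏ p : PP P, (Ep (p : ℕ)).card : ℕ) : ℝ) ≤ (((4 ^ (2 * P)) ^ 2 : ℕ) : ℝ) :=
      Nat.cast_le.2 (h1.trans h2)
    refine h4.trans (le_of_eq ?_)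
    push_cast
    rw [← pow_mul]
    congr 1
    ring
  have h5 := Real.log_le_log (Nat.cast_pos.2 h0) h3
  rw [Real.log_pow] at h5
  have h6 : Real.log 4 = 2 * Real.log 2 := by
    rw [show (4 : ℝ) = 2 ^ 2 by norm_num, Real.log_pow]; norm_num
  have h7 := Real.log_two_lt_d9
  push_cast at h5 ⊢
  have hP0 : (0 : ℝ) ≤ P := Nat.cast_nonneg _
  rw [h6] at h5
  nlinarith

end Pool.Agent.T2


namespace Pool.Agent.T2

theorem PP_card : type_of% @PP_card_pr := @PP_card_pr
theorem PP_set : type_of% @PP_set_pr := @PP_set_pr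
theorem log_frames : type_of% @log_frames_pr := @log_frames_pr

end Pool.Agent.T2
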