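import Pool.Agent.Lib_helper39.TA.Defs
import Pool.Agent.Lib_helper10.T2F.AIT
import Pool.Agent.Lib_helper10.T2F.ANX
import Pool.Agent.Lib_helper10.T2F.BAS

/-! T2, package A, block ARE. -/

namespace Pool.Agent.T2

open Filter Topology

theorem are_plucker (u w z z' : G) :
    det z w * det u z' - det u z * det z' w = det u w * det z z' := by
  simp only [det]
  ring

theorem are_norm (u w z : G) : det u w ^ 2 * (nn z : ℤ) =
    det z w ^ 2 * (nn u : ℤ) + det u z ^ 2 * (nn w : ℤ) + 2 * (det z w * det u z) * ip u w := by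
  simp only [nn_cast, det, ip]
  ring

/-- the bound for the coordinates of the elements of the sector -/
theorem are_bound {Y : ℕ} {u w z : G} (hu : u ∈ PN Y) (hz : z ∈ PN Y) (D B : ℕ)
    (hB : 1 ≤ B) (hd : det u w = (D : ℤ)) (hi : 0 ≤ ip u w) (h1 : Y ≤ B * nn u)
    (h2 : Y ≤ B * nn w) (ha : 0 ≤ det z w) (hb : 0 ≤ det u z) :
    (det z w + det u z) ^ 2 ≤ 2 * B * (D : ℤ) ^ 2 := by
  have hY : 0 < (Y : ℤ) := by
    rw [mem_PN] at hu
    have h3 : 0 < nn u := nn_pos.mpr (prm_ne hu.1)
    omega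
  have hzY : (nn z : ℤ) ≤ Y := by
    rw [mem_PN] at hz
    exact_mod_cast hz.2
  have e := are_norm u w z
  rw [hd] at e
  have h1' : (Y : ℤ) ≤ B * nn u := by exact_mod_cast h1
  have h2' : (Y : ℤ) ≤ B * nn w := by exact_mod_cast h2
  have hB0 : (0 : ℤ) < B := by exact_mod_cast hB
  obtain ⟨x, hx⟩ : ∃ x, x = det z w := ⟨_, rfl⟩
  obtain ⟨y, hy⟩ : ∃ y, y = det u z := ⟨_, rfl⟩
  rw [← hx, ← hy] at e ⊢
  rw [← hx] at ha
  rw [← hy] at hb
  have h3 : Y * (x ^ 2 + y ^ 2) ≤ B * ((D : ℤ) ^ 2 * Y) := by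
    have e1 : x ^ 2 * (Y : ℤ) ≤ x ^ 2 * (B * nn u) := mul_le_mul_of_nonneg_left h1' (sq_nonneg x)
    have e2 : y ^ 2 * (Y : ℤ) ≤ y ^ 2 * (B * nn w) := mul_le_mul_of_nonneg_left h2' (sq_nonneg y)
    have e3 : 0 ≤ B * (2 * (x * y) * ip u w) := by positivity
    have e4 : B * ((D : ℤ) ^ 2 * nn z) ≤ B * ((D : ℤ) ^ 2 * Y) := by
      apply mul_le_mul_of_nonneg_left _ hB0.le
      exact mul_le_mul_of_nonneg_left hzY (sq_nonneg _)
    rw [e] at e4
    linarith
  have h4 : Y * (x ^ 2 + y ^ 2) ≤ Y * (B * (D : ℤ) ^ 2) := by linarith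
  have h5 : x ^ 2 + y ^ 2 ≤ B * (D : ℤ) ^ 2 := le_of_mul_le_mul_left h4 hY
  nlinarith [sq_nonneg (x - y)]

/-- one step -/
theorem are_step {Y : ℕ} {w z : G} (hz : z ∈ PN Y) (hw : w ∈ PN Y) (ha : 1 ≤ det z w) :
    0 ≤ det (nx Y z) w := by
  by_contra hcon
  rw [not_le] at hcon
  have hdet := nx_det hz
  have hip := nx_ip hz
  have hadd := nx_add hz
  have hwY : (nn w : ℤ) ≤ Y := by
    rw [mem_PN] at hw
    exact_mod_cast hw.2
  have hadd' : (Y : ℤ) < nn (z + nx Y z) := by exact_mod_cast hadd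
  have e := are_norm z (nx Y z) w
  rw [hdet] at e
  have e2 : (nn (z + nx Y z) : ℤ) = nn z + nn (nx Y z) + 2 * ip z (nx Y z) := by
    simp only [nn_cast, ip, Zsqrtd.re_add, Zsqrtd.im_add]
    ring
  have e3 : det w (nx Y z) = -det (nx Y z) w := by
    simp only [det]
    ring
  have hx : 1 ≤ det w (nx Y z) := by
    rw [e3]
    omega
  obtain ⟨x, hx'⟩ : ∃ x, x = det w (nx Y z) := ⟨_, rfl⟩
  obtain ⟨y, hy'⟩ : ∃ y, y = det z w := ⟨_, rfl⟩
  rw [← hx'] at e hx
  rw [← hy'] at e ha
  have hn1 : (0 : ℤ) ≤ nn z := Int.natCast_nonneg _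
  have hn2 : (0 : ℤ) ≤ nn (nx Y z) := Int.natCast_nonneg _
  have i1 : 1 * (nn z : ℤ) ≤ x ^ 2 * nn z := mul_le_mul_of_nonneg_right (by nlinarith) hn1
  have i2 : 1 * (nn (nx Y z) : ℤ) ≤ y ^ 2 * nn (nx Y z) :=
    mul_le_mul_of_nonneg_right (by nlinarith) hn2
  have i3 : 1 * ip z (nx Y z) ≤ (x * y) * ip z (nx Y z) :=
    mul_le_mul_of_nonneg_right (by nlinarith) hip
  nlinarith

theorem nx_reach_pr {Y : ℕ} {u w : G} (hu : u ∈ PN Y) (hw : w ∈ PN Y) (D B : ℕ) (hD : 1 ≤ D)
    (hB : 1 ≤ B) (hd : det u w = (D : ℤ)) (hi : 0 ≤ ip u w) (h1 : Y ≤ B * nn u)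
    (h2 : Y ≤ B * nn w) : ∃ m : ℕ, 1 ≤ m ∧ m ≤ 2 * D * B ∧ it Y m u = w := by
  have hD0 : (0 : ℤ) < D := by exact_mod_cast hD
  have hB0 : (0 : ℤ) < B := by exact_mod_cast hB
  have key : ∀ i : ℕ, (∃ m : ℕ, 1 ≤ m ∧ m ≤ i ∧ it Y m u = w) ∨
      (1 ≤ det (it Y i u) w ∧ 0 ≤ det u (it Y i u) ∧
        (i : ℤ) * (det (it Y i u) w + det u (it Y i u)) ≤
          2 * B * D * det u (it Y i u)) := by
    intro i
    induction i with
    | zero =>
      right
      rw [it_zero, hd]
      refine ⟨by omega, ?_, ?_⟩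
      · simp only [det]
        have : u.re * u.im - u.im * u.re = 0 := by ring
        rw [this]
      · have : det u u = 0 := by
          simp only [det]
          ring
        rw [this]
        simp
    | succ i ih =>
      rcases ih with ⟨m, hm1, hm2, hm3⟩ | ⟨ha, hb, hg⟩
      · left
        exact ⟨m, hm1, by omega, hm3⟩
      · have hz := it_mem hu i
        have hz' := nx_mem hz
        have ha' := are_step hz hw ha
        have hP := are_plucker u w (it Y i u) (nx Y (it Y i u))
        rw [hd, nx_det hz, mul_one] at hP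
        rw [it_succ]
        have hB1 := are_bound hu hz D B hB hd hi h1 h2 (by omega) hb
        obtain ⟨x, hx⟩ : ∃ x, x = det (it Y i u) w := ⟨_, rfl⟩
        obtain ⟨y, hy⟩ : ∃ y, y = det u (it Y i u) := ⟨_, rfl⟩
        obtain ⟨x', hx'⟩ : ∃ x', x' = det (nx Y (it Y i u)) w := ⟨_, rfl⟩
        obtain ⟨y', hy'⟩ : ∃ y', y' = det u (nx Y (it Y i u)) := ⟨_, rfl⟩
        have hyp : 0 < y' := by
          rw [← hx, ← hy, ← hx', ← hy'] at hP
          rw [← hx] at ha
          rw [← hy] at hb
          rw [← hx'] at ha'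
          have h5 : 0 < x * y' := by nlinarith [mul_nonneg hb ha']
          exact (mul_pos_iff_of_pos_left (by omega)).mp h5
        have hB2 := are_bound hu hz' D B hB hd hi h1 h2 ha' (by rw [← hy']; omega)
        rw [← hx, ← hy] at hB1 hg
        rw [← hx', ← hy'] at hB2
        rw [← hx, ← hy, ← hx', ← hy'] at hP
        rw [← hx] at ha
        rw [← hy] at hb
        rw [← hx'] at ha'
        rcases eq_or_lt_of_le ha' with h0 | h0
        · -- the element is reached
          left
          refine ⟨i + 1, by omega, le_refl _, ?_⟩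
          rw [it_succ]
          -- `D z' = y' w`
          have hre : (D : ℤ) * (nx Y (it Y i u)).re = y' * w.re := by
            have e : det u w * (nx Y (it Y i u)).re = det (nx Y (it Y i u)) w * u.re +
                det u (nx Y (it Y i u)) * w.re := by
              simp only [det]
              ring
            rw [hd, ← hx', ← hy', ← h0] at e
            linarith
          have him : (D : ℤ) * (nx Y (it Y i u)).im = y' * w.im := by
            have e : det u w * (nx Y (it Y i u)).im = det (nx Y (it Y i u)) w * u.im +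
                det u (nx Y (it Y i u)) * w.im := by
              simp only [det]
              ring
            rw [hd, ← hx', ← hy', ← h0] at e
            linarith
          obtain ⟨n, hn⟩ : ∃ n : ℕ, (n : ℤ) = y' := ⟨y'.toNat, Int.toNat_of_nonneg hyp.le⟩
          have heq : ((D : ℕ) : G) * nx Y (it Y i u) = ((n : ℕ) : G) * w := by
            apply Zsqrtd.ext
            · simp only [Zsqrtd.re_mul, Zsqrtd.re_natCast, Zsqrtd.im_natCast]
              rw [hn]
              linarith
            · simp only [Zsqrtd.im_mul, Zsqrtd.re_natCast, Zsqrtd.im_natCast]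
              rw [hn]
              linarith
          rw [mem_PN] at hz' hw
          exact (content_unique hD (by omega) hz'.1 hw.1 heq).2
        · right
          rw [← hx', ← hy']
          refine ⟨by omega, by omega, ?_⟩
          have hs : 0 < x + y := by omega
          have hss : (x + y) * (x' + y') ≤ 2 * B * (D : ℤ) ^ 2 := by
            nlinarith [sq_nonneg ((x + y) - (x' + y'))]
          have hs' : 0 ≤ x' + y' := by omega
          have h6 : (x + y) * (((i + 1 : ℕ) : ℤ) * (x' + y')) ≤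
              (x + y) * (2 * B * D * y') := by
            push_cast
            have h7 : (i : ℤ) * (x + y) * (x' + y') ≤ 2 * B * D * y * (x' + y') :=
              mul_le_mul_of_nonneg_right hg hs'
            have h8 : (x + y) * (2 * B * D * y') =
                2 * B * D * y * (x' + y') + 2 * B * (D : ℤ) ^ 2 := by
              linear_combination (2 * (B : ℤ) * D) * hP
            rw [h8]
            nlinarith
          exact le_of_mul_le_mul_left h6 hs
  rcases key (2 * D * B) with h | ⟨ha, hb, hg⟩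
  · exact h
  · exfalso
    push_cast at hg
    have h3 : 0 < 2 * (D : ℤ) * B := by positivity
    nlinarith

end Pool.Agent.T2


namespace Pool.Agent.T2

theorem nx_reach : type_of% @nx_reach_pr := @nx_reach_pr

end Pool.Agent.T2
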