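import Pool.Agent.Lib_helper39.TA.Defs
import Pool.Agent.Lib_helper10.T2F.AIT
import Pool.Agent.Lib_helper10.T2F.ARE
import Pool.Agent.Lib_helper10.T2F.AWI

/-! T2, package A, block AQA (helper57) -/

namespace Pool.Agent.T2

open Filter Topology

theorem aqa_ce {B N Y : ℕ} {u : G} (hN : 1 ≤ N) (h : N ≤ B * ce N Y u) : Y ≤ B * nn u := by
  unfold ce at h
  have h1 : N * nn u / Y * Y ≤ N * nn u := Nat.div_mul_le_self _ _
  have h2 : N * Y ≤ N * (B * nn u) := by
    calc N * Y ≤ (B * (N * nn u / Y)) * Y := Nat.mul_le_mul_right _ h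
      _ = B * (N * nn u / Y * Y) := by ring
      _ ≤ B * (N * nn u) := Nat.mul_le_mul_left _ h1
      _ = N * (B * nn u) := by ring
  exact Nat.le_of_mul_le_mul_left h2 (by omega)

open Classical in
theorem aqa_FH (α β : ℝ) {B N L Y p : ℕ} (hB : 1 ≤ B) (hN : 1 ≤ N) (hp : 1 ≤ p)
    (hpL : 2 * p * B ^ 2 ≤ L / 2) (hL : 16 * (L + 1) ^ 2 ≤ Y) {u : G} (hu : u ∈ PN Y) :
    FH α β B N L Y p u =
      ∑ w ∈ (PN Y).filter (fun w => det u w = (p : ℤ) ∧ 0 < ip u w),
        wt α β B N (ce N Y u) (ce N Y w) * (gl u * gl w) := by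
  have hinj : Set.InjOn (fun m => it Y m u)
      (((Finset.Icc 1 (L / 2)).filter (fun m => det u (it Y m u) = (p : ℤ)) : Finset ℕ) : Set ℕ) := by
    have key : ∀ m m' : ℕ, m < m' → m' ≤ L → it Y m u ≠ it Y m' u := by
      intro m m' h1 h2 h3
      have := (nx_window hu L hL m m' h1 h2).1
      rw [h3] at this
      have h0 : det (it Y m' u) (it Y m' u) = 0 := by unfold det; ring
      omega
    intro m hm m' hm' h
    simp only [Finset.coe_filter, Finset.mem_Icc, Set.mem_ofPred_eq] at hm hm'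
    have hL2 : L / 2 ≤ L := Nat.div_le_self _ _
    rcases lt_trichotomy m m' with h1 | h1 | h1
    · exact absurd h (key m m' h1 (by omega))
    · exact h1
    · exact absurd h.symm (key m' m h1 (by omega))
  unfold FH
  rw [← Finset.sum_filter]
  rw [← Finset.sum_image (s := (Finset.Icc 1 (L / 2)).filter (fun m => det u (it Y m u) = (p : ℤ)))
    (g := fun m => it Y m u) (f := fun w => wt α β B N (ce N Y u) (ce N Y w) * (gl u * gl w)) hinj]
  apply Finset.sum_subset
  · intro w hw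
    rw [Finset.mem_image] at hw
    obtain ⟨m, hm, rfl⟩ := hw
    rw [Finset.mem_filter, Finset.mem_Icc] at hm
    rw [Finset.mem_filter]
    refine ⟨it_mem hu m, hm.2, ?_⟩
    have hL2 : L / 2 ≤ L := Nat.div_le_self _ _
    have := (nx_window hu L hL 0 m (by omega) (by omega)).2.1
    rwa [it_zero] at this
  · intro w hw hw'
    rw [Finset.mem_filter] at hw
    obtain ⟨hw1, hw2, hw3⟩ := hw
    by_contra hne
    have hwt : wt α β B N (ce N Y u) (ce N Y w) ≠ 0 := by
      intro h0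
      apply hne
      rw [h0, zero_mul]
    unfold wt at hwt
    split_ifs at hwt with hc
    · have h1 : Y ≤ B * nn u := aqa_ce hN hc.1
      have h2 : Y ≤ B ^ 2 * nn w := aqa_ce hN hc.2.2.1
      have h1' : Y ≤ B ^ 2 * nn u := by
        refine h1.trans (Nat.mul_le_mul_right _ ?_)
        nlinarith
      obtain ⟨m, hm1, hm2, hm3⟩ := nx_reach hu hw1 p (B ^ 2) hp (Nat.one_le_pow _ _ hB) hw2 hw3.le
        h1' h2
      apply hw'
      rw [Finset.mem_image]
      refine ⟨m, ?_, hm3⟩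
      rw [Finset.mem_filter, Finset.mem_Icc]
      refine ⟨⟨hm1, hm2.trans hpL⟩, ?_⟩
      rw [hm3]; exact hw2
    · exact hwt rfl

open Classical in
theorem FH_pairs_pr (α β : ℝ) {B N L Y p : ℕ} (hB : 1 ≤ B) (hN : 1 ≤ N) (hp : 1 ≤ p)
    (hpL : 2 * p * B ^ 2 ≤ L / 2) (hL : 16 * (L + 1) ^ 2 ≤ Y) (θ : G → ℝ) :
    ∑ u ∈ PN Y, θ u * FH α β B N L Y p u =
      ∑ t ∈ (PN Y ×ˢ PN Y).filter (fun t => det t.1 t.2 = (p : ℤ) ∧ 0 < ip t.1 t.2),
        θ t.1 * (wt α β B N (ce N Y t.1) (ce N Y t.2) * (gl t.1 * gl t.2)) := by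
  rw [Finset.sum_filter, Finset.sum_product]
  apply Finset.sum_congr rfl
  intro u hu
  rw [aqa_FH α β hB hN hp hpL hL hu, Finset.mul_sum, Finset.sum_filter]

end Pool.Agent.T2


namespace Pool.Agent.T2

theorem FH_pairs : type_of% @FH_pairs_pr := @FH_pairs_pr

end Pool.Agent.T2
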