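import Pool.Agent.Lib_helper39.TA.Defs
import Pool.Agent.Lib_helper10.T2F.ANX
import Pool.Agent.Lib_helper10.T2F.AWB
import Pool.Agent.Lib_helper10.T2F.BAS

/-! T2, package A, block AQB (helper57) -/

namespace Pool.Agent.T2

open Filter Topology

/-- the elementary estimate -/
theorem aqb_core {x y P e M B c₁ c₂ : ℝ} (hB : 1 ≤ B) (hM : 0 < M) (hx1 : 1 ≤ x) (hxB : x ≤ B)
    (hy1 : 1 / B ≤ y) (hyB : y ≤ B) (hP : 0 < P) (he : 0 ≤ e) (he2 : e ≤ 1 / (2 * B))
    (hMe : M * e ≤ 1) (hxy : x * y = P ^ 2 + e ^ 2) (h1 : c₁ ≤ M * x) (h1' : M * x - 1 ≤ c₁)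
    (h1'' : M * x / 2 ≤ c₁) (h2 : c₂ ≤ M * y) (h2' : M * y - 1 ≤ c₂) (h2'' : M * y / 2 ≤ c₂) :
    |Real.sqrt (c₁ * c₂) - M * P| ≤ 2 * B ^ 2 + 1 ∧ 1 / (2 * B) ≤ P ∧
      M / (2 * B) ≤ Real.sqrt (c₁ * c₂) := by
  have hB0 : (0 : ℝ) < B := by linarith
  have hy0 : 0 < y := lt_of_lt_of_le (by positivity) hy1
  have hx0 : 0 < x := by linarith
  have hMx : 0 < M * x := by positivity
  have hMy : 0 < M * y := by positivity
  have hc1 : 0 ≤ c₁ := by linarith
  have hc2 : 0 ≤ c₂ := by linarith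
  set s := Real.sqrt (c₁ * c₂) with hs
  set r := Real.sqrt (x * y) with hr
  have hs0 : 0 ≤ s := Real.sqrt_nonneg _
  have hr0 : 0 ≤ r := Real.sqrt_nonneg _
  have hs2 : s ^ 2 = c₁ * c₂ := Real.sq_sqrt (by positivity)
  have hr2 : r ^ 2 = x * y := Real.sq_sqrt (by positivity)
  have hBy : 1 ≤ B * y := by
    have := mul_le_mul_of_nonneg_left hy1 hB0.le
    rwa [mul_one_div_cancel hB0.ne'] at this
  have hr1 : 1 / B ≤ r := by
    apply Real.le_sqrt_of_sq_le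
    have h3 : (1 / B) ^ 2 ≤ 1 / B := by
      have h4 : 1 / B ≤ 1 := by rw [div_le_one hB0]; exact hB
      have h5 : 0 < 1 / B := by positivity
      nlinarith
    calc (1 / B) ^ 2 ≤ 1 / B := h3
      _ ≤ y := hy1
      _ ≤ x * y := by nlinarith
  -- s ≤ M r
  have hsr : s ≤ M * r := by
    apply abs_le_of_sq_le_sq' _ (by positivity) |>.2
    rw [mul_pow, hs2, hr2]
    calc c₁ * c₂ ≤ (M * x) * (M * y) := mul_le_mul h1 h2 hc2 hMx.le
      _ = M ^ 2 * (x * y) := by ring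
  have hsr2 : M * r / 2 ≤ s := by
    apply abs_le_of_sq_le_sq' _ hs0 |>.2
    rw [div_pow, mul_pow, hs2, hr2]
    calc M ^ 2 * (x * y) / 2 ^ 2 = (M * x / 2) * (M * y / 2) := by ring
      _ ≤ c₁ * c₂ := mul_le_mul h1'' h2'' (by positivity) hc1
  have hrP : P ≤ r := by
    apply Real.le_sqrt_of_sq_le
    rw [hxy]; nlinarith
  have hrP2 : r ≤ P + e := by
    apply abs_le_of_sq_le_sq' _ (by positivity) |>.2
    rw [hr2, hxy]; nlinarith
  have hBr : 1 ≤ B * r := by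
    have := mul_le_mul_of_nonneg_left hr1 hB0.le
    rwa [mul_one_div_cancel hB0.ne'] at this
  have hdiff : M * r - s ≤ 2 * B ^ 2 := by
    have h3 : (M * r - s) * (M * r + s) ≤ 2 * B * M := by
      have h4 : (M * r - s) * (M * r + s) = (M * x) * (M * y - c₂) + c₂ * (M * x - c₁) := by
        have : (M * r - s) * (M * r + s) = M ^ 2 * r ^ 2 - s ^ 2 := by ring
        rw [this, hs2, hr2]; ring
      rw [h4]
      have h5 : (M * x) * (M * y - c₂) ≤ (M * x) * 1 :=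
        mul_le_mul_of_nonneg_left (by linarith) hMx.le
      have h6 : c₂ * (M * x - c₁) ≤ (M * y) * 1 :=
        mul_le_mul h2 (by linarith) (by linarith) hMy.le
      have h7 : M * x ≤ M * B := mul_le_mul_of_nonneg_left hxB hM.le
      have h8 : M * y ≤ M * B := mul_le_mul_of_nonneg_left hyB hM.le
      linarith
    have h9 : M ≤ B * (M * r + s) := by
      have : M * 1 ≤ M * (B * r) := mul_le_mul_of_nonneg_left hBr hM.le
      have : 0 ≤ B * s := by positivity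
      nlinarith
    have h10 : (M * r - s) * M ≤ 2 * B ^ 2 * M := by
      calc (M * r - s) * M ≤ (M * r - s) * (B * (M * r + s)) :=
            mul_le_mul_of_nonneg_left h9 (by linarith)
        _ = B * ((M * r - s) * (M * r + s)) := by ring
        _ ≤ B * (2 * B * M) := mul_le_mul_of_nonneg_left h3 hB0.le
        _ = 2 * B ^ 2 * M := by ring
    exact le_of_mul_le_mul_right h10 hM
  refine ⟨?_, ?_, ?_⟩
  · rw [abs_le]
    have h3 : M * P ≤ M * r := mul_le_mul_of_nonneg_left hrP hM.le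
    have h4 : M * r ≤ M * P + M * e := by
      rw [← mul_add]; exact mul_le_mul_of_nonneg_left hrP2 hM.le
    constructor
    · nlinarith
    · nlinarith
  · have : 1 / (2 * B) = 1 / B - 1 / (2 * B) := by field_simp; norm_num
    rw [this]; linarith
  · have h3 : M / (2 * B) = M * (1 / B) / 2 := by ring
    rw [h3]
    refine le_trans ?_ hsr2
    have := mul_le_mul_of_nonneg_left hr1 hM.le
    linarith

theorem aqb_ce {B N' k : ℕ} (hB : 1 ≤ B) (v : G) :
    ce (B ^ 2 * N') (B * 4 ^ k) v = B * N' * nn v / 4 ^ k := by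
  unfold ce
  rw [show B ^ 2 * N' * nn v = B * (B * N' * nn v) by ring, Nat.mul_div_mul_left _ _ (by omega)]

theorem aqb_fl {m n : ℕ} (hn : 0 < n) : ((m / n : ℕ) : ℝ) ≤ (m : ℝ) / n ∧
    (m : ℝ) / n - 1 ≤ ((m / n : ℕ) : ℝ) ∧ (n ≤ m → (m : ℝ) / n / 2 ≤ ((m / n : ℕ) : ℝ)) := by
  have hn' : (0 : ℝ) < n := by exact_mod_cast hn
  have h1 : (m : ℝ) / n - 1 ≤ ((m / n : ℕ) : ℝ) := by
    have h2 : m < n * (m / n + 1) := Nat.lt_mul_div_succ m hn
    have h3 : (m : ℝ) < n * (((m / n : ℕ) : ℝ) + 1) := by exact_mod_cast h2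
    have h4 : (m : ℝ) / n < ((m / n : ℕ) : ℝ) + 1 := by
      rw [div_lt_iff₀ hn']; linarith
    linarith
  refine ⟨Nat.cast_div_le, h1, fun h => ?_⟩
  have h5 : 1 ≤ m / n := (Nat.one_le_div_iff hn).2 h
  have h6 : (1 : ℝ) ≤ ((m / n : ℕ) : ℝ) := by exact_mod_cast h5
  linarith

theorem aqb_ca {B N' k n : ℕ} (hB : 1 ≤ B) (hN : 1 ≤ N') :
    B ^ 2 * N' ≤ B * (B * N' * n / 4 ^ k) ↔ 4 ^ k ≤ n := by
  have hk : 0 < 4 ^ k := by positivity
  have hBN : 0 < B * N' := by positivity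
  rw [show B ^ 2 * N' = B * (B * N') by ring, Nat.mul_le_mul_left_iff (by omega),
    Nat.le_div_iff_mul_le hk, Nat.mul_le_mul_left_iff hBN]

theorem aqb_cb {B N' k n : ℕ} (hB : 1 ≤ B) (hN : 1 ≤ N') :
    B * (B * N' * n / 4 ^ k) < 4 * (B ^ 2 * N') ↔ n < 4 ^ (k + 1) := by
  have hk : 0 < 4 ^ k := by positivity
  have hBN : 0 < B * N' := by positivity
  rw [show 4 * (B ^ 2 * N') = B * (4 * (B * N')) by ring, Nat.mul_lt_mul_left (by omega),
    Nat.div_lt_iff_lt_mul hk, show 4 * (B * N') * 4 ^ k = B * N' * 4 ^ (k + 1) by ring,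
    Nat.mul_lt_mul_left hBN]

theorem aqb_cc {B N' k n : ℕ} (hB : 1 ≤ B) (hN : 1 ≤ N') :
    B ^ 2 * N' ≤ B ^ 2 * (B * N' * n / 4 ^ k) ↔ 4 ^ k ≤ B * n := by
  have hk : 0 < 4 ^ k := by positivity
  rw [Nat.mul_le_mul_left_iff (by positivity), Nat.le_div_iff_mul_le hk,
    show B * N' * n = N' * (B * n) by ring, Nat.mul_le_mul_left_iff (by omega)]

/-- the situation in which the exact or the quantised weight is not zero -/
theorem aqb_sit {B N' p k : ℕ} (hB : 4 ≤ B) (hN : 1 ≤ N') (hk : 2 * B * N' * p ≤ 4 ^ k)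
    {v w : G} (hv : v ∈ PN (B * 4 ^ k)) (hw : w ∈ PN (B * 4 ^ k)) (hd : det v w = (p : ℤ))
    (hi : 0 < ip v w) (h1 : 4 ^ k ≤ nn v) (h3 : 4 ^ k ≤ B * nn w) :
    ∃ x P M : ℝ, x = (nn v : ℝ) / 4 ^ k ∧ P = (ip v w : ℝ) / 4 ^ k ∧ M = (B : ℝ) * N' ∧ 1 ≤ x ∧
      0 < P ∧ 0 < M ∧
      ((B * N' * nn v / 4 ^ k : ℕ) : ℝ) ≤ M * x ∧ M * x - 1 ≤ ((B * N' * nn v / 4 ^ k : ℕ) : ℝ) ∧
      |Real.sqrt (((B * N' * nn v / 4 ^ k : ℕ) : ℝ) * ((B * N' * nn w / 4 ^ k : ℕ) : ℝ)) - M * P| ≤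
        2 * (B : ℝ) ^ 2 + 1 ∧ 1 / (2 * (B : ℝ)) ≤ P ∧
      M / (2 * (B : ℝ)) ≤
        Real.sqrt (((B * N' * nn v / 4 ^ k : ℕ) : ℝ) * ((B * N' * nn w / 4 ^ k : ℕ) : ℝ)) := by
  have hq : (0 : ℝ) < 4 ^ k := by positivity
  have hqn : 0 < 4 ^ k := by positivity
  have hB1 : (4 : ℝ) ≤ B := by exact_mod_cast hB
  have hB0 : (0 : ℝ) < B := by linarith
  have hN1 : (1 : ℝ) ≤ N' := by exact_mod_cast hN
  have hM : (0 : ℝ) < (B : ℝ) * N' := by positivity
  have hi' : (0 : ℝ) < (ip v w : ℝ) := by exact_mod_cast hi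
  have hP : (0 : ℝ) < (ip v w : ℝ) / 4 ^ k := by positivity
  have hx1 : 1 ≤ (nn v : ℝ) / 4 ^ k := by
    rw [one_le_div hq]; exact_mod_cast h1
  have hxB : (nn v : ℝ) / 4 ^ k ≤ B := by
    rw [div_le_iff₀ hq]
    have := (mem_PN.1 hv).2
    exact_mod_cast this
  have hy1 : 1 / (B : ℝ) ≤ (nn w : ℝ) / 4 ^ k := by
    rw [div_le_div_iff₀ hB0 hq]
    have : (4 : ℝ) ^ k ≤ B * nn w := by exact_mod_cast h3
    linarith
  have hyB : (nn w : ℝ) / 4 ^ k ≤ B := by
    rw [div_le_iff₀ hq]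
    have := (mem_PN.1 hw).2
    exact_mod_cast this
  have hkr : 2 * (B : ℝ) * N' * p ≤ 4 ^ k := by exact_mod_cast hk
  have he2 : (p : ℝ) / 4 ^ k ≤ 1 / (2 * B) := by
    rw [div_le_div_iff₀ hq (by positivity)]
    have h5 : (p : ℝ) * (2 * B) * 1 ≤ (p : ℝ) * (2 * B) * N' :=
      mul_le_mul_of_nonneg_left hN1 (by positivity)
    linarith
  have hMe : (B : ℝ) * N' * ((p : ℝ) / 4 ^ k) ≤ 1 := by
    rw [← mul_div_assoc, div_le_one hq]
    have : 0 ≤ (B : ℝ) * N' * p := by positivity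
    linarith
  have hxy : (nn v : ℝ) / 4 ^ k * ((nn w : ℝ) / 4 ^ k) =
      ((ip v w : ℝ) / 4 ^ k) ^ 2 + ((p : ℝ) / 4 ^ k) ^ 2 := by
    have h5 := ip_sq_add v w
    rw [hd] at h5
    have h6 : (nn v : ℝ) * nn w = (ip v w : ℝ) ^ 2 + (p : ℝ) ^ 2 := by exact_mod_cast h5
    field_simp
    linarith
  have hf1 := aqb_fl (m := B * N' * nn v) (n := 4 ^ k) hqn
  have hf2 := aqb_fl (m := B * N' * nn w) (n := 4 ^ k) hqn
  have e1 : ((B * N' * nn v : ℕ) : ℝ) / ((4 ^ k : ℕ) : ℝ) = (B : ℝ) * N' * ((nn v : ℝ) / 4 ^ k) := by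
    push_cast; ring
  have e2 : ((B * N' * nn w : ℕ) : ℝ) / ((4 ^ k : ℕ) : ℝ) = (B : ℝ) * N' * ((nn w : ℝ) / 4 ^ k) := by
    push_cast; ring
  rw [e1] at hf1
  rw [e2] at hf2
  have g1 : 4 ^ k ≤ B * N' * nn v := by
    calc 4 ^ k ≤ nn v := h1
      _ = 1 * nn v := (one_mul _).symm
      _ ≤ B * N' * nn v := Nat.mul_le_mul_right _ (by nlinarith)
  have g2 : 4 ^ k ≤ B * N' * nn w := by
    calc 4 ^ k ≤ B * nn w := h3
      _ = B * 1 * nn w := by ring
      _ ≤ B * N' * nn w := Nat.mul_le_mul_right _ (Nat.mul_le_mul_left _ hN)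
  have hcore := aqb_core (B := (B : ℝ)) (by linarith) hM hx1 hxB hy1 hyB hP (by positivity) he2 hMe
    hxy hf1.1 hf1.2.1 (hf1.2.2 g1) hf2.1 hf2.2.1 (hf2.2.2 g2)
  exact ⟨_, _, _, rfl, rfl, rfl, hx1, hP, hM, hf1.1, hf1.2.1, hcore.1, hcore.2.1, hcore.2.2⟩

open Classical in
theorem wt_close_pr (α β : ℝ) (hα : 0 < α) (hβ : α < β) : ∃ B₀ : ℕ, ∀ B : ℕ, B₀ ≤ B →
    ∃ C : ℝ, 1 ≤ C ∧ ∀ N' p : ℕ, 1 ≤ N' → 1 ≤ p → ∃ k₀ : ℕ, ∀ k : ℕ, k₀ ≤ k →
      (∀ t ∈ PW α β p k, t.1 ∈ PN (B * 4 ^ k) ∧ t.2 ∈ PN (B * 4 ^ k)) ∧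
      ∀ v ∈ PN (B * 4 ^ k), ∀ w ∈ PN (B * 4 ^ k), det v w = (p : ℤ) → 0 < ip v w →
        (wt α β B (B ^ 2 * N') (ce (B ^ 2 * N') (B * 4 ^ k) v)
          (ce (B ^ 2 * N') (B * 4 ^ k) w) ≠ 0 → 4 ^ k ≤ nn v) ∧
        |(if (v, w) ∈ PW α β p k then 1 / (ip v w : ℝ) else 0) -
          wt α β B (B ^ 2 * N') (ce (B ^ 2 * N') (B * 4 ^ k) v)
            (ce (B ^ 2 * N') (B * 4 ^ k) w) / ((B : ℝ) * 4 ^ k)| ≤
          C / 4 ^ k * (1 / N' + if |(ip v w : ℝ) / (nn v : ℝ) - 1 / α| ≤ C / N' ∨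
            |(ip v w : ℝ) / (nn v : ℝ) - 1 / β| ≤ C / N' then 1 else 0) := by
  have hβ0 : 0 < β := hα.trans hβ
  refine ⟨max (max 4 (⌈β ^ 2⌉₊)) (⌈4 / α ^ 2⌉₊ + 1), fun B hB => ?_⟩
  have hB4 : 4 ≤ B := le_trans (le_trans (le_max_left _ _) (le_max_left _ _)) hB
  have hBβ : β ^ 2 ≤ B := by
    have h1 : ⌈β ^ 2⌉₊ ≤ B := le_trans (le_trans (le_max_right _ _) (le_max_left _ _)) hB
    exact (Nat.le_ceil _).trans (by exact_mod_cast h1)
  have hBα : 4 / α ^ 2 + 1 ≤ B := by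
    have h1 : ⌈4 / α ^ 2⌉₊ + 1 ≤ B := le_trans (le_max_right _ _) hB
    have h2 : ((⌈4 / α ^ 2⌉₊ : ℕ) : ℝ) + 1 ≤ B := by exact_mod_cast h1
    have h3 := Nat.le_ceil (4 / α ^ 2)
    linarith
  have hB1 : (4 : ℝ) ≤ B := by exact_mod_cast hB4
  have hB0 : (0 : ℝ) < B := by linarith
  set C2 : ℝ := 2 * (B : ℝ) ^ 2 + 1 with hC2
  have hC2p : 0 < C2 := by positivity
  have hα' : 0 < 1 / α := by positivity
  have hβ' : 0 < 1 / β := by positivity
  refine ⟨4 * B * C2 + 1 / α + 1 / β + C2 + 1, ?_, fun N' p hN' hp => ?_⟩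
  · have : 0 < 4 * B * C2 := by positivity
    linarith
  set C : ℝ := 4 * B * C2 + 1 / α + 1 / β + C2 + 1 with hC
  have hBC2 : 0 < B * C2 := by positivity
  have hC0 : 0 < C := by rw [hC]; linarith
  have hN1 : (1 : ℝ) ≤ N' := by exact_mod_cast hN'
  have hN0 : (0 : ℝ) < N' := by linarith
  refine ⟨2 * B * N' * p, fun k hk => ?_⟩
  have hk4 : 2 * B * N' * p ≤ 4 ^ k := hk.trans (Nat.lt_pow_self (by norm_num)).le
  have hq : (0 : ℝ) < 4 ^ k := by positivity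
  have hqn : 0 < 4 ^ k := by positivity
  constructor
  · intro t ht
    rw [mem_PW hα] at ht
    obtain ⟨t1, t2, t3, t4, t5, t6, t7, t8⟩ := ht
    rw [mem_PN, mem_PN]
    refine ⟨⟨t1, ?_⟩, t2, ?_⟩
    · have : 4 ^ (k + 1) ≤ B * 4 ^ k := by
        rw [pow_succ, mul_comm]; exact Nat.mul_le_mul_right _ hB4
      omega
    · have hpk : (p : ℝ) ≤ 4 ^ k := by
        have : p ≤ 4 ^ k := by
          refine le_trans ?_ hk4
          have : 1 ≤ 2 * B * N' := by
            have : 0 < 2 * B * N' := by positivity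
            omega
          nlinarith
        exact_mod_cast this
      have h5 := ip_sq_add t.1 t.2
      rw [t3] at h5
      have h6 : (nn t.1 : ℝ) * nn t.2 = (ip t.1 t.2 : ℝ) ^ 2 + (p : ℝ) ^ 2 := by exact_mod_cast h5
      have h7 : (4 : ℝ) ^ k ≤ nn t.1 := by exact_mod_cast t5
      have h8 : (nn t.1 : ℝ) < 4 ^ (k + 1) := by exact_mod_cast t6
      have hx0 : (0 : ℝ) < nn t.1 := by linarith
      have hi0 : (0 : ℝ) < (ip t.1 t.2 : ℝ) := by exact_mod_cast t4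
      have h9 : (ip t.1 t.2 : ℝ) ^ 2 ≤ (nn t.1 : ℝ) ^ 2 / α ^ 2 := by
        rw [le_div_iff₀ (by positivity)]
        have : (α * (ip t.1 t.2 : ℝ)) ^ 2 ≤ (nn t.1 : ℝ) ^ 2 :=
          pow_le_pow_left₀ (by positivity) t7.le 2
        nlinarith
      have h10 : (p : ℝ) ^ 2 ≤ (nn t.1 : ℝ) * 4 ^ k := by
        calc (p : ℝ) ^ 2 = p * p := by ring
          _ ≤ 4 ^ k * 4 ^ k := mul_le_mul hpk hpk (by positivity) hq.le
          _ ≤ nn t.1 * 4 ^ k := mul_le_mul_of_nonneg_right h7 hq.le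
      have h11 : (nn t.1 : ℝ) * nn t.2 ≤ nn t.1 * (nn t.1 / α ^ 2 + 4 ^ k) := by
        rw [h6]
        calc (ip t.1 t.2 : ℝ) ^ 2 + (p : ℝ) ^ 2 ≤ (nn t.1 : ℝ) ^ 2 / α ^ 2 + nn t.1 * 4 ^ k :=
              add_le_add h9 h10
          _ = nn t.1 * (nn t.1 / α ^ 2 + 4 ^ k) := by ring
      have h12 : (nn t.2 : ℝ) ≤ nn t.1 / α ^ 2 + 4 ^ k := le_of_mul_le_mul_left h11 hx0
      have h13 : (nn t.1 : ℝ) / α ^ 2 ≤ 4 / α ^ 2 * 4 ^ k := by
        rw [div_mul_eq_mul_div]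
        apply div_le_div_of_nonneg_right _ (by positivity)
        rw [pow_succ] at h8; linarith
      have h14 : (nn t.2 : ℝ) ≤ B * 4 ^ k := by
        calc (nn t.2 : ℝ) ≤ 4 / α ^ 2 * 4 ^ k + 4 ^ k := by linarith
          _ = (4 / α ^ 2 + 1) * 4 ^ k := by ring
          _ ≤ B * 4 ^ k := mul_le_mul_of_nonneg_right hBα hq.le
      exact_mod_cast h14
  · intro v hv w hw hd hi
    have hi' : (0 : ℝ) < (ip v w : ℝ) := by exact_mod_cast hi
    have hB1' : 1 ≤ B := by omega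
    have hPW : (v, w) ∈ PW α β p k ↔ (4 ^ k ≤ nn v ∧ nn v < 4 ^ (k + 1)) ∧
        α * (ip v w : ℝ) < (nn v : ℝ) ∧ (nn v : ℝ) ≤ β * (ip v w : ℝ) := by
      rw [mem_PW hα]
      have a1 := (mem_PN.1 hv).1
      have a2 := (mem_PN.1 hw).1
      tauto
    rw [aqb_ce hB1' v, aqb_ce hB1' w]
    set c₁ := B * N' * nn v / 4 ^ k with hc₁
    set c₂ := B * N' * nn w / 4 ^ k with hc₂
    have hcond : (B ^ 2 * N' ≤ B * c₁ ∧ B * c₁ < 4 * (B ^ 2 * N') ∧ B ^ 2 * N' ≤ B ^ 2 * c₂ ∧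
      α * Real.sqrt ((c₁ : ℝ) * (c₂ : ℝ)) < (c₁ : ℝ) ∧
      (c₁ : ℝ) ≤ β * Real.sqrt ((c₁ : ℝ) * (c₂ : ℝ))) ↔ (4 ^ k ≤ nn v ∧ nn v < 4 ^ (k + 1)) ∧
        4 ^ k ≤ B * nn w ∧ α * Real.sqrt ((c₁ : ℝ) * (c₂ : ℝ)) < (c₁ : ℝ) ∧
      (c₁ : ℝ) ≤ β * Real.sqrt ((c₁ : ℝ) * (c₂ : ℝ)) := by
      rw [hc₁, hc₂, aqb_ca hB1' hN', aqb_cb hB1' hN', aqb_cc hB1' hN']
      tauto
    have hite : ∀ (Q : Prop) [Decidable Q], (0 : ℝ) ≤ if Q then (1 : ℝ) else 0 := by
      intro Q _; split_ifs <;> norm_num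
    have hCN : 0 ≤ C / 4 ^ k * (1 / N') := by positivity
    unfold wt
    constructor
    · intro hne
      split_ifs at hne with hc
      · exact (hcond.1 hc).1.1
      · exact absurd rfl hne
    by_cases hbase : (4 ^ k ≤ nn v ∧ nn v < 4 ^ (k + 1)) ∧ 4 ^ k ≤ B * nn w
    swap
    · -- both weights vanish
      have n2 : ¬ (B ^ 2 * N' ≤ B * c₁ ∧ B * c₁ < 4 * (B ^ 2 * N') ∧ B ^ 2 * N' ≤ B ^ 2 * c₂ ∧
          α * Real.sqrt ((c₁ : ℝ) * (c₂ : ℝ)) < (c₁ : ℝ) ∧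
          (c₁ : ℝ) ≤ β * Real.sqrt ((c₁ : ℝ) * (c₂ : ℝ))) := by
        rw [hcond]; tauto
      have n1 : ¬ (v, w) ∈ PW α β p k := by
        rw [hPW]
        intro h
        apply hbase
        refine ⟨h.1, ?_⟩
        -- 4^k ≤ B nn w
        have h5 := ip_sq_add v w
        have h6 : (nn v : ℝ) * nn w = (ip v w : ℝ) ^ 2 + (det v w : ℝ) ^ 2 := by exact_mod_cast h5
        have h7 : (4 : ℝ) ^ k ≤ nn v := by exact_mod_cast h.1.1
        have hx0 : (0 : ℝ) < nn v := by linarith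
        have h8 : (nn v : ℝ) * nn v ≤ nn v * (β ^ 2 * nn w) := by
          calc (nn v : ℝ) * nn v = (nn v : ℝ) ^ 2 := by ring
            _ ≤ (β * (ip v w : ℝ)) ^ 2 := pow_le_pow_left₀ hx0.le h.2.2 2
            _ = β ^ 2 * (ip v w : ℝ) ^ 2 := by ring
            _ ≤ β ^ 2 * (nn v * nn w) := by
                apply mul_le_mul_of_nonneg_left _ (by positivity)
                rw [h6]; nlinarith [sq_nonneg (det v w : ℝ)]
            _ = nn v * (β ^ 2 * nn w) := by ring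
        have h9 : (nn v : ℝ) ≤ β ^ 2 * nn w := le_of_mul_le_mul_left h8 hx0
        have h10 : (4 : ℝ) ^ k ≤ B * nn w := by
          calc (4 : ℝ) ^ k ≤ nn v := h7
            _ ≤ β ^ 2 * nn w := h9
            _ ≤ B * nn w := mul_le_mul_of_nonneg_right hBβ (by positivity)
        exact_mod_cast h10
      rw [if_neg n1, if_neg n2, zero_div, sub_zero, abs_zero]
      exact mul_nonneg (by positivity) (add_nonneg (by positivity) (hite _))
    obtain ⟨x, P, M, hx, hP, hM, hx1, hP0, hM0, f1, f2, g1, g2, g3⟩ :=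
      aqb_sit hB4 hN' hk4 hv hw hd hi hbase.1.1 hbase.2
    rw [← hc₁] at f1 f2 g1 g3
    rw [← hc₂] at g1 g3
    set s := Real.sqrt ((c₁ : ℝ) * (c₂ : ℝ)) with hs
    have hs0 : 0 < s := lt_of_lt_of_le (by positivity) g3
    have hip : (ip v w : ℝ) = P * 4 ^ k := by rw [hP]; field_simp
    have hnn : (nn v : ℝ) = x * 4 ^ k := by rw [hx]; field_simp
    have hx0 : 0 < x := by linarith
    have hratio : (ip v w : ℝ) / (nn v : ℝ) = P / x := by
      rw [hip, hnn]; field_simp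
    have hwt : ((B ^ 2 * N' : ℕ) : ℝ) / s / ((B : ℝ) * 4 ^ k) = (1 / 4 ^ k) * (M / s) := by
      rw [hM]; push_cast; field_simp
    have hPi : 1 / (ip v w : ℝ) = (1 / 4 ^ k) * (1 / P) := by
      rw [hip]; field_simp
    have hMB : M / (2 * B) = N' / 2 := by rw [hM]; field_simp
    have hMN : (N' : ℝ) ≤ M := by rw [hM]; nlinarith
    -- the bounds for single terms
    have b1 : 1 / P ≤ 2 * B := by
      rw [div_le_iff₀ hP0]
      have := mul_le_mul_of_nonneg_left g2 (show (0 : ℝ) ≤ 2 * B by positivity)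
      rwa [mul_one_div_cancel (by positivity)] at this
    have b2 : M / s ≤ 2 * B := by
      rw [div_le_iff₀ hs0]
      have := mul_le_mul_of_nonneg_left g3 (show (0 : ℝ) ≤ 2 * B by positivity)
      rwa [mul_div_cancel₀ _ (by positivity)] at this
    have hC2B : 2 * (B : ℝ) ≤ C := by
      rw [hC]
      have : (B : ℝ) * 1 ≤ B * C2 := mul_le_mul_of_nonneg_left (by rw [hC2]; nlinarith) hB0.le
      linarith
    have b3 : |1 / P - M / s| ≤ C * (1 / N') := by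
      have e1 : 1 / P - M / s = (s - M * P) / (P * s) := by field_simp
      rw [e1, abs_div, abs_of_pos (mul_pos hP0 hs0), div_le_iff₀ (mul_pos hP0 hs0)]
      have e2 : 1 / (2 * (B : ℝ)) * (N' / 2) ≤ P * s := by
        apply mul_le_mul g2 _ (by positivity) hP0.le
        rw [← hMB]; exact g3
      calc |s - M * P| ≤ C2 := g1
        _ = 4 * B * C2 * (1 / N') * (1 / (2 * (B : ℝ)) * (N' / 2)) := by field_simp; norm_num
        _ ≤ 4 * B * C2 * (1 / N') * (P * s) := mul_le_mul_of_nonneg_left e2 (by positivity)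
        _ ≤ C * (1 / N') * (P * s) := by
            apply mul_le_mul_of_nonneg_right _ (mul_pos hP0 hs0).le
            apply mul_le_mul_of_nonneg_right _ (by positivity)
            rw [hC]; linarith
    have hg1 := abs_le.1 g1
    -- the mismatch bounds
    have mis : ∀ γ : ℝ, 0 < γ → |γ * P - x| ≤ (1 + γ * C2) / M → 1 / γ + C2 ≤ C →
        |P / x - 1 / γ| ≤ C / N' := by
      intro γ hγ h hle
      have e1 : P / x - 1 / γ = (γ * P - x) / (γ * x) := by field_simp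
      rw [e1, abs_div, abs_of_pos (mul_pos hγ hx0), div_le_iff₀ (mul_pos hγ hx0)]
      calc |γ * P - x| ≤ (1 + γ * C2) / M := h
        _ = (1 / γ + C2) * γ / M := by field_simp
        _ ≤ C * γ / M := by
            apply div_le_div_of_nonneg_right _ hM0.le
            exact mul_le_mul_of_nonneg_right hle hγ.le
        _ ≤ C * γ / N' := div_le_div_of_nonneg_left (by positivity) hN0 hMN
        _ = C / N' * (γ * 1) := by ring
        _ ≤ C / N' * (γ * x) := by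
            apply mul_le_mul_of_nonneg_left _ (by positivity)
            exact mul_le_mul_of_nonneg_left hx1 hγ.le
    have ca : 1 / α + C2 ≤ C := by rw [hC]; linarith
    have cb : 1 / β + C2 ≤ C := by rw [hC]; linarith
    have fin1 : ∀ T : ℝ, |T| ≤ 2 * B → (|P / x - 1 / α| ≤ C / N' ∨ |P / x - 1 / β| ≤ C / N') →
        |1 / 4 ^ k * T| ≤ C / 4 ^ k * (1 / N' + if |(ip v w : ℝ) / (nn v : ℝ) - 1 / α| ≤ C / N' ∨
            |(ip v w : ℝ) / (nn v : ℝ) - 1 / β| ≤ C / N' then 1 else 0) := by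
      intro T hT hor
      rw [hratio, if_pos hor, abs_mul, abs_of_pos (by positivity : (0 : ℝ) < 1 / 4 ^ k)]
      calc 1 / 4 ^ k * |T| ≤ 1 / 4 ^ k * C :=
            mul_le_mul_of_nonneg_left (hT.trans hC2B) (by positivity)
        _ = C / 4 ^ k * (0 + 1) := by ring
        _ ≤ C / 4 ^ k * (1 / N' + 1) := by
            apply mul_le_mul_of_nonneg_left _ (by positivity)
            have : (0 : ℝ) ≤ 1 / N' := by positivity
            linarith
    by_cases hex : α * (ip v w : ℝ) < (nn v : ℝ) ∧ (nn v : ℝ) ≤ β * (ip v w : ℝ)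
    · rw [if_pos (hPW.2 ⟨hbase.1, hex⟩)]
      by_cases hqu : α * s < (c₁ : ℝ) ∧ (c₁ : ℝ) ≤ β * s
      · rw [if_pos (hcond.2 ⟨hbase.1, hbase.2, hqu⟩), hwt, hPi, ← mul_sub, abs_mul,
          abs_of_pos (by positivity : (0 : ℝ) < 1 / 4 ^ k)]
        calc 1 / 4 ^ k * |1 / P - M / s| ≤ 1 / 4 ^ k * (C * (1 / N')) :=
              mul_le_mul_of_nonneg_left b3 (by positivity)
          _ = C / 4 ^ k * (1 / N' + 0) := by ring
          _ ≤ _ := by
              apply mul_le_mul_of_nonneg_left _ (by positivity)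
              have := hite (|(ip v w : ℝ) / (nn v : ℝ) - 1 / α| ≤ C / N' ∨
                |(ip v w : ℝ) / (nn v : ℝ) - 1 / β| ≤ C / N')
              linarith
      · rw [if_neg (by rw [hcond]; tauto), zero_div, sub_zero, hPi]
        apply fin1
        · rw [abs_of_pos (by positivity)]; exact b1
        · rw [hip, hnn] at hex
          have x1 : α * P < x := by
            have : α * P * 4 ^ k < x * 4 ^ k := by linarith [hex.1]
            exact lt_of_mul_lt_mul_right this hq.le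
          have x2 : x ≤ β * P := by
            have : x * 4 ^ k ≤ β * P * 4 ^ k := by linarith [hex.2]
            exact le_of_mul_le_mul_right this hq
          rw [not_and_or, not_lt, not_le] at hqu
          rcases hqu with h | h
          · left
            apply mis α hα _ ca
            rw [abs_of_neg (by linarith), le_div_iff₀ hM0]
            have : α * s ≤ α * (M * P + C2) := mul_le_mul_of_nonneg_left (by linarith) hα.le
            nlinarith
          · right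
            apply mis β hβ0 _ cb
            rw [abs_of_nonneg (by linarith), le_div_iff₀ hM0]
            have : β * (M * P - C2) ≤ β * s := mul_le_mul_of_nonneg_left (by linarith) hβ0.le
            nlinarith
    · rw [if_neg (by rw [hPW]; tauto)]
      by_cases hqu : α * s < (c₁ : ℝ) ∧ (c₁ : ℝ) ≤ β * s
      · rw [if_pos (hcond.2 ⟨hbase.1, hbase.2, hqu⟩), hwt, zero_sub, ← mul_neg]
        apply fin1
        · rw [abs_neg, abs_of_pos (by positivity)]; exact b2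
        · rw [hip, hnn, not_and_or, not_lt, not_le] at hex
          rcases hex with h | h
          · left
            have x1 : x ≤ α * P := by
              have : x * 4 ^ k ≤ α * P * 4 ^ k := by linarith
              exact le_of_mul_le_mul_right this hq
            apply mis α hα _ ca
            rw [abs_of_nonneg (by linarith), le_div_iff₀ hM0]
            have : α * (M * P - C2) ≤ α * s := mul_le_mul_of_nonneg_left (by linarith) hα.le
            nlinarith [hqu.1]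
          · right
            have x2 : β * P < x := by
              have : β * P * 4 ^ k < x * 4 ^ k := by linarith
              exact lt_of_mul_lt_mul_right this hq.le
            apply mis β hβ0 _ cb
            rw [abs_of_neg (by linarith), le_div_iff₀ hM0]
            have : β * s ≤ β * (M * P + C2) := mul_le_mul_of_nonneg_left (by linarith) hβ0.le
            nlinarith [hqu.2]
      · rw [if_neg (by rw [hcond]; tauto), zero_div, sub_zero, abs_zero]
        exact mul_nonneg (by positivity) (add_nonneg (by positivity) (hite _))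

end Pool.Agent.T2


namespace Pool.Agent.T2

theorem wt_close : type_of% @wt_close_pr := @wt_close_pr

end Pool.Agent.T2
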