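import Pool.Agent.Lib_helper39.TA.Defs
import Pool.Agent.Lib_helper10.T2F.ABY
import Pool.Agent.Lib_helper10.T2F.AFR
import Pool.Agent.Lib_helper10.T2F.ANX
import Pool.Agent.Lib_helper10.T2F.AQA
import Pool.Agent.Lib_helper10.T2F.AQB
import Pool.Agent.Lib_helper10.T2F.AWB
import Pool.Agent.Lib_helper10.T2F.BAS
import Pool.Agent.Lib_helper10.T2F.CNT
import Pool.Agent.Lib_helper10.T2F.PEL

/-! T2, package A, block AQT: quantisation. -/

namespace Pool.Agent.T2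

open Filter Topology

theorem aqt_ip_mul (z u v : G) : ip (z * u) (z * v) = nn z * ip u v := by
  rw [nn_cast]
  unfold ip
  simp only [Zsqrtd.re_mul, Zsqrtd.im_mul]
  ring

theorem aqt_ip_le {Y : ℕ} {v w : G} (hv : nn v ≤ Y) (hw : nn w ≤ Y) (h : 0 < ip v w) :
    ip v w ≤ Y := by
  have h1 := ip_sq_add v w
  have h2 : ((nn v : ℤ)) * nn w ≤ (Y : ℤ) * Y := by
    have h3 : (nn v : ℤ) ≤ Y := by exact_mod_cast hv
    have h4 : (nn w : ℤ) ≤ Y := by exact_mod_cast hw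
    exact mul_le_mul h3 h4 (by positivity) (by positivity)
  nlinarith [sq_nonneg (det v w)]

theorem aqt_fibre {B Y : ℕ} {v : G} (hv : v ∈ PN Y) (hB : Y ≤ B * nn v) (D : ℤ) (S : Finset G)
    (hS : ∀ w ∈ S, w ∈ PN Y ∧ det v w = D ∧ 0 < ip v w) : S.card ≤ B + 1 := by
  have hn : 0 < (nn v : ℤ) := by exact_mod_cast nn_pos.2 (prm_ne (mem_PN.1 hv).1)
  have hmaps : ∀ w ∈ S, (ip v w / (nn v : ℤ)).toNat ∈ Finset.range (B + 1) := by
    intro w hw
    obtain ⟨h1, -, h3⟩ := hS w hw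
    have h4 := aqt_ip_le (mem_PN.1 hv).2 (mem_PN.1 h1).2 h3
    rw [Finset.mem_range]
    have h5 : ip v w / (nn v : ℤ) ≤ B := by
      refine Int.ediv_le_of_le_mul hn ?_
      have : (Y : ℤ) ≤ B * nn v := by exact_mod_cast hB
      linarith
    have h6 : (ip v w / (nn v : ℤ)).toNat ≤ B := by
      rw [Int.toNat_le]
      exact h5
    omega
  have hinj : Set.InjOn (fun w => (ip v w / (nn v : ℤ)).toNat) (S : Set G) := by
    intro w hw w' hw' he
    obtain ⟨-, h2, h3⟩ := hS w hw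
    obtain ⟨-, h2', h3'⟩ := hS w' hw'
    simp only at he
    have h4 : 0 ≤ ip v w / (nn v : ℤ) := Int.ediv_nonneg h3.le hn.le
    have h4' : 0 ≤ ip v w' / (nn v : ℤ) := Int.ediv_nonneg h3'.le hn.le
    have h5 : ip v w / (nn v : ℤ) = ip v w' / (nn v : ℤ) := by omega
    have h6 := det_decomp hv (w - w')
    have h7 : det v (w - w') = 0 := by
      have : det v (w - w') = det v w - det v w' := by
        unfold det
        simp only [Zsqrtd.re_sub, Zsqrtd.im_sub]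
        ring
      rw [this, h2, h2', sub_self]
    rw [h7] at h6
    set j := det (w - w') (nx Y v) with hj
    have h8 : w - w' = (j : G) * v := by
      rw [h6]
      simp
    have h9 : ip v w - ip v w' = j * nn v := by
      have e1 : ip v w - ip v w' = ip v (w - w') := by
        unfold ip
        simp only [Zsqrtd.re_sub, Zsqrtd.im_sub]
        ring
      rw [e1, h8, nn_cast]
      unfold ip
      simp only [Zsqrtd.re_mul, Zsqrtd.im_mul, Zsqrtd.re_intCast, Zsqrtd.im_intCast]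
      ring
    have h10 := Int.emod_add_mul_ediv (ip v w) (nn v : ℤ)
    have h11 := Int.emod_add_mul_ediv (ip v w') (nn v : ℤ)
    have h12 := Int.emod_nonneg (ip v w) hn.ne'
    have h13 := Int.emod_lt_of_pos (ip v w) hn
    have h14 := Int.emod_nonneg (ip v w') hn.ne'
    have h15 := Int.emod_lt_of_pos (ip v w') hn
    have h16 : j = 0 := by
      rw [h5] at h10
      have h17 : j * (nn v : ℤ) = ip v w % (nn v : ℤ) - ip v w' % (nn v : ℤ) := by linarith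
      have h18 : j * (nn v : ℤ) < 1 * (nn v : ℤ) := by linarith
      have h19 : (-1) * (nn v : ℤ) < j * (nn v : ℤ) := by linarith
      have h20 := lt_of_mul_lt_mul_right h18 hn.le
      have h21 := lt_of_mul_lt_mul_right h19 hn.le
      omega
    rw [h16] at h8
    have h22 : w - w' = 0 := by simpa using h8
    exact sub_eq_zero.1 h22
  calc S.card ≤ (Finset.range (B + 1)).card :=
        Finset.card_le_card_of_injOn _ hmaps hinj
    _ = B + 1 := Finset.card_range _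

theorem aqt_card {B Y : ℕ} (D : ℤ) (T : Finset (G × G)) (V : Finset G)
    (hT : ∀ t ∈ T, t.1 ∈ V ∧ t.1 ∈ PN Y ∧ t.2 ∈ PN Y ∧ det t.1 t.2 = D ∧ 0 < ip t.1 t.2 ∧
      Y ≤ B * nn t.1) : T.card ≤ (B + 1) * V.card := by
  classical
  refine Finset.card_le_mul_card_image_of_maps_to (f := Prod.fst) (fun t ht => (hT t ht).1) _
    fun v _ => ?_
  rcases Finset.eq_empty_or_nonempty (T.filter (fun t => t.1 = v)) with h | ⟨t₀, ht₀⟩
  · rw [h]; simp
  · rw [Finset.mem_filter] at ht₀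
    obtain ⟨ht₀, rfl⟩ := ht₀
    obtain ⟨-, h1, -, -, -, h2⟩ := hT t₀ ht₀
    have h3 : (T.filter (fun t => t.1 = t₀.1)).card =
        ((T.filter (fun t => t.1 = t₀.1)).image Prod.snd).card := by
      rw [Finset.card_image_of_injOn]
      intro t ht t' ht' he
      rw [Finset.mem_coe, Finset.mem_filter] at ht ht'
      exact Prod.ext (ht.2.trans ht'.2.symm) he
    rw [h3]
    refine aqt_fibre h1 h2 D _ fun w hw => ?_
    rw [Finset.mem_image] at hw
    obtain ⟨t, ht, rfl⟩ := hw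
    rw [Finset.mem_filter] at ht
    obtain ⟨-, -, g2, g3, g4, -⟩ := hT t ht.1
    rw [ht.2] at g3 g4
    exact ⟨g2, g3, g4⟩

/-- divisibility of the second element -/
theorem aqt_div {p : ℕ} (hp : p.Prime) (h4 : p % 4 = 1) {v w : G} (hv : Prm v)
    (hd : det v w = (p : ℤ)) (h : pel p ∣ v) : pel p ∣ w := by
  have hπ := pel_prime hp h4
  obtain ⟨v', rfl⟩ := h
  have hnn := (pel_spec hp h4).1
  -- `p` divides the inner product
  have h1 := ip_sq_add (pel p * v') w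
  rw [hd, nn_mul, hnn] at h1
  have h2 : (p : ℤ) ∣ ip (pel p * v') w ^ 2 := by
    refine ⟨(nn v' : ℤ) * nn w - p, ?_⟩
    push_cast at h1
    linarith
  have h3 : (p : ℤ) ∣ ip (pel p * v') w := (Nat.prime_iff_prime_int.1 hp).dvd_of_dvd_pow h2
  obtain ⟨j, hj⟩ := h3
  -- `conj v * w = ip + i det`
  have h5 : star (pel p * v') * w = (p : G) * ((j : G) + ui) := by
    have e1 : star (pel p * v') * w = ⟨ip (pel p * v') w, det (pel p * v') w⟩ := by
      rw [Zsqrtd.ext_iff]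
      unfold ip det
      simp only [Zsqrtd.re_mul, Zsqrtd.im_mul, Zsqrtd.re_star, Zsqrtd.im_star]
      constructor <;> ring
    rw [e1, hd, hj, Zsqrtd.ext_iff]
    simp [ui]
  rw [← pel_mul_star hp h4, star_mul, mul_comm (pel p) (star (pel p))] at h5
  have h6 : star v' * w = pel p * ((j : G) + ui) := by
    have h7 : star (pel p) * (star v' * w) = star (pel p) * (pel p * ((j : G) + ui)) := by
      rw [← mul_assoc, ← mul_assoc, mul_comm (star (pel p)) (star v')]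
      rw [mul_assoc (star (pel p)) (pel p)] at h5
      rw [h5]
      ring
    exact mul_left_cancel₀ (pel_star_prime hp h4).ne_zero h7
  rcases hπ.dvd_or_dvd (⟨_, h6⟩ : pel p ∣ star v' * w) with h7 | h7
  · exfalso
    obtain ⟨c, hc⟩ := h7
    have h8 : v' = star (pel p) * star c := by
      rw [← star_star v', hc, star_mul, mul_comm]
    have h9 : (p : G) ∣ pel p * v' := by
      rw [h8, ← mul_assoc, pel_mul_star hp h4]
      exact Dvd.intro _ rfl
    have h10 := prm_iff.1 hv p h9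
    exact hp.one_lt.ne' h10
  · exact h7

theorem aqt_multiples {p : ℕ} (hp : p.Prime) (h4 : p % 4 = 1) {C : ℝ}
    (hC : ∀ x : ℝ, 0 ≤ x → ((Bl x).card : ℝ) ≤ C * x) (Y : ℕ) (V : Finset G)
    (hV : ∀ v ∈ V, v ∈ PN Y ∧ pel p ∣ v) : (V.card : ℝ) ≤ C * (Y / p) := by
  classical
  have hp0 : (0 : ℝ) < p := by exact_mod_cast hp.pos
  have h1 : V ⊆ (Bl ((Y : ℝ) / p)).image (fun w => pel p * w) := by
    intro v hv
    obtain ⟨h2, w, rfl⟩ := hV v hv
    rw [Finset.mem_image]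
    refine ⟨w, ?_, rfl⟩
    obtain ⟨h3, h5⟩ := mem_PN.1 h2
    rw [mem_Bl]
    refine ⟨fun h => prm_ne h3 (by rw [h, mul_zero]), ?_⟩
    rw [nn_mul, (pel_spec hp h4).1] at h5
    rw [le_div_iff₀ hp0, mul_comm]
    exact_mod_cast h5
  calc (V.card : ℝ) ≤ ((Bl ((Y : ℝ) / p)).image (fun w => pel p * w)).card := by
        exact_mod_cast Finset.card_le_card h1
    _ ≤ (Bl ((Y : ℝ) / p)).card := by exact_mod_cast Finset.card_image_le
    _ ≤ _ := hC _ (by positivity)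

/-- the pairs near the boundary whose first element is a multiple of `pel p` -/
theorem aqt_strip {p : ℕ} (hp : p.Prime) (h4 : p % 4 = 1) {C r δ Y₀ : ℝ}
    (hC : ∀ Y : ℝ, Y₀ ≤ Y → ∀ S : Finset (G × G), (∀ t ∈ S, Prm t.1 ∧
      det t.1 t.2 = ((1 : ℕ) : ℤ) ∧ (nn t.1 : ℝ) ≤ Y ∧
      |(ip t.1 t.2 : ℝ) / (nn t.1 : ℝ) - r| ≤ δ) → (S.card : ℝ) ≤ C * δ * Y) (Y : ℕ)
    (hY : Y₀ ≤ (Y : ℝ) / p) (T : Finset (G × G))
    (hT : ∀ t ∈ T, Prm t.1 ∧ det t.1 t.2 = (p : ℤ) ∧ nn t.1 ≤ Y ∧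
      |(ip t.1 t.2 : ℝ) / (nn t.1 : ℝ) - r| ≤ δ ∧ pel p ∣ t.1) :
    (T.card : ℝ) ≤ C * δ * (Y / p) := by
  classical
  have hp0 : (0 : ℝ) < p := by exact_mod_cast hp.pos
  have hex : ∀ t : G × G, ∃ s : G × G, t ∈ T → t = (pel p * s.1, pel p * s.2) := by
    intro t
    by_cases ht : t ∈ T
    · obtain ⟨h1, h2, -, -, h5⟩ := hT t ht
      obtain ⟨w', hw'⟩ := aqt_div hp h4 h1 h2 h5
      obtain ⟨v', hv'⟩ := h5
      exact ⟨(v', w'), fun _ => Prod.ext hv' hw'⟩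
    · exact ⟨t, fun h => absurd h ht⟩
  choose φ hφ using hex
  have hinj : Set.InjOn φ (T : Set (G × G)) := by
    intro t ht t' ht' he
    rw [hφ t ht, hφ t' ht', he]
  rw [← Finset.card_image_of_injOn hinj]
  refine hC _ hY _ fun s hs => ?_
  rw [Finset.mem_image] at hs
  obtain ⟨t, ht, rfl⟩ := hs
  obtain ⟨h1, h2, h3, h5, -⟩ := hT t ht
  have e := hφ t ht
  have e1 : t.1 = pel p * (φ t).1 := congrArg Prod.fst e
  have e2 : t.2 = pel p * (φ t).2 := congrArg Prod.snd e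
  have hnn := (pel_spec hp h4).1
  have hpz : (p : ℤ) ≠ 0 := by exact_mod_cast hp.ne_zero
  rw [e1, e2] at h2 h5
  rw [e1] at h1 h3
  rw [det_mul, hnn] at h2
  rw [aqt_ip_mul, nn_mul, hnn] at h5
  rw [nn_mul, hnn] at h3
  refine ⟨?_, ?_, ?_, ?_⟩
  · rw [mul_comm] at h1
    exact prm_mul_left h1
  · have h6 : (p : ℤ) * det (φ t).1 (φ t).2 = p * 1 := by rw [h2, mul_one]
    exact_mod_cast mul_left_cancel₀ hpz h6
  · rw [le_div_iff₀ hp0, mul_comm]
    exact_mod_cast h3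
  · have h6 : (((p : ℤ) * ip (φ t).1 (φ t).2 : ℤ) : ℝ) / ((p * nn (φ t).1 : ℕ) : ℝ) =
        (ip (φ t).1 (φ t).2 : ℝ) / (nn (φ t).1 : ℝ) := by
      push_cast
      exact mul_div_mul_left _ _ hp0.ne'
    rw [h6] at h5
    exact h5

theorem aqt_th (p : ℕ) (u : G) [Decidable (pel p ∣ u)] :
    |th p u| ≤ 1 + (if pel p ∣ u then (p : ℝ) + 1 else 0) := by
  unfold th
  have hp : (0 : ℝ) ≤ p := Nat.cast_nonneg p
  by_cases h : pel p ∣ u
  · rw [if_pos h, if_pos h, abs_le]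
    constructor <;> linarith
  · rw [if_neg h, if_neg h, abs_le]
    constructor <;> linarith

open Classical in
/-- the error sum -/
theorem aqt_sum (T : Finset (G × G)) (p : ℕ) (e : ℝ) (M : G × G → Prop) :
    ∑ t ∈ T, |th p t.1| * (e + if M t then 1 else 0) ≤
      ∑ t ∈ T, (1 + (if pel p ∣ t.1 then (p : ℝ) + 1 else 0)) * (|e| + if M t then 1 else 0) := by
  refine Finset.sum_le_sum fun t _ => ?_
  have h1 := aqt_th p t.1
  have h2 : e ≤ |e| := le_abs_self e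
  have h3 : (0 : ℝ) ≤ if M t then 1 else 0 := by split_ifs <;> norm_num
  have h4 := abs_nonneg (th p t.1)
  have h5 := abs_nonneg e
  exact mul_le_mul_of_nonneg_left (by linarith) h4 |>.trans
    (mul_le_mul_of_nonneg_right h1 (by linarith))

theorem aqt_main (α β : ℝ) {B Y N L p k : ℕ} (hB : 1 ≤ B) (hN : 1 ≤ N)
    (hp : p.Prime) (hpL : 2 * p * B ^ 2 ≤ L / 2)
    (hL : 16 * (L + 1) ^ 2 ≤ Y) (hα : 0 < α)
    (hPW : ∀ t ∈ PW α β p k, t.1 ∈ PN Y ∧ t.2 ∈ PN Y) (y : ℝ) (S : Finset (G × G))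
    (hS : ∀ t, t ∈ S ↔ t.1 ∈ PN Y ∧ t.2 ∈ PN Y ∧ det t.1 t.2 = (p : ℤ) ∧ 0 < ip t.1 t.2)
    [DecidablePred fun t : G × G => t ∈ PW α β p k] :
    ((p : ℝ) + 1) * BDp α β p k - BD α β p k - (1 / y) *
      ∑ u ∈ PN Y, FH α β B N L Y p u * th p u =
    ∑ t ∈ S, th p t.1 * (gl t.1 * gl t.2) * ((if t ∈ PW α β p k then 1 / (ip t.1 t.2 : ℝ) else 0) -
      wt α β B N (ce N Y t.1) (ce N Y t.2) / y) := by
  classical
  have h1 := FH_pairs α β (B := B) (N := N) (L := L) (Y := Y) (p := p) hB hN hp.one_le hpL hL (th p)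
  have hSe : (PN Y ×ˢ PN Y).filter (fun t => det t.1 t.2 = (p : ℤ) ∧ 0 < ip t.1 t.2) = S := by
    ext t
    rw [hS, Finset.mem_filter, Finset.mem_product]
    tauto
  have e1 : ∑ u ∈ PN Y, FH α β B N L Y p u * th p u = ∑ u ∈ PN Y, th p u * FH α β B N L Y p u :=
    Finset.sum_congr rfl fun u _ => mul_comm _ _
  rw [e1, h1, hSe]
  have hsub : PW α β p k ⊆ S := by
    intro t ht
    rw [hS]
    have h2 := (mem_PW hα).1 ht
    exact ⟨(hPW t ht).1, (hPW t ht).2, h2.2.2.1, h2.2.2.2.1⟩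
  have e2 : ((p : ℝ) + 1) * BDp α β p k - BD α β p k =
      ∑ t ∈ S, if t ∈ PW α β p k then th p t.1 * (gl t.1 * gl t.2) * (1 / (ip t.1 t.2 : ℝ)) else 0 := by
    have e3 : ∑ t ∈ S, (if t ∈ PW α β p k then
        th p t.1 * (gl t.1 * gl t.2) * (1 / (ip t.1 t.2 : ℝ)) else 0) =
        ∑ t ∈ PW α β p k, th p t.1 * (gl t.1 * gl t.2) * (1 / (ip t.1 t.2 : ℝ)) := by
      rw [← Finset.sum_filter]
      congr 1
      ext t
      rw [Finset.mem_filter]
      exact ⟨fun h => h.2, fun h => ⟨hsub h, h⟩⟩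
    rw [e3]
    unfold BDp BD
    rw [Finset.sum_filter, Finset.mul_sum, ← Finset.sum_sub_distrib]
    refine Finset.sum_congr rfl fun t _ => ?_
    unfold th
    split_ifs <;> ring
  rw [e2, Finset.mul_sum, ← Finset.sum_sub_distrib]
  refine Finset.sum_congr rfl fun t _ => ?_
  split_ifs <;> ring

/-- block AQT -/
theorem quant_pr (α β : ℝ) (hα : 0 < α) (hβ : α < β) : ∃ B : ℕ, 1 ≤ B ∧ ∃ C : ℝ, 1 ≤ C ∧
    ∀ N' L p : ℕ, 1 ≤ N' → p.Prime → p % 4 = 1 → 2 * p * B ^ 2 ≤ L / 2 →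
      ∃ k₀ : ℕ, ∀ k : ℕ, k₀ ≤ k →
        |((p : ℝ) + 1) * BDp α β p k - BD α β p k - (1 / ((B : ℝ) * 4 ^ k)) *
          ∑ u ∈ PN (B * 4 ^ k), FH α β B (B ^ 2 * N') L (B * 4 ^ k) p u * th p u| ≤
          C / N' := by
  classical
  obtain ⟨B₀, hw⟩ := wt_close α β hα hβ
  obtain ⟨C₁, hC₁, hw⟩ := hw (max B₀ 1) (le_max_left _ _)
  set B := max B₀ 1 with hBdef
  have hB : 1 ≤ B := le_max_right _ _
  obtain ⟨Cb, hCb, hb⟩ := ball_le
  obtain ⟨Cc, hCc, hc⟩ := boundary_count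
  have hBr : (1 : ℝ) ≤ B := by exact_mod_cast hB
  refine ⟨B, hB, C₁ * B * (3 * (B + 1) * Cb + 6 * Cc * C₁), ?_, ?_⟩
  · have h1 : 1 ≤ C₁ * B := by nlinarith
    have h2 : 1 ≤ 3 * ((B : ℝ) + 1) * Cb + 6 * Cc * C₁ := by
      have h3 : 0 ≤ 6 * Cc * C₁ := by positivity
      nlinarith
    nlinarith
  intro N' L p hN' hp h4 hpL
  have hN'r : (1 : ℝ) ≤ N' := by exact_mod_cast hN'
  have hN'0 : (0 : ℝ) < N' := by linarith
  set δ : ℝ := C₁ / N' with hδ
  have hδ0 : 0 < δ := by positivity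
  obtain ⟨k₁, hk₁⟩ := hw N' p hN' hp.one_le
  obtain ⟨Y₁, hY₁⟩ := hc p hp.one_le (1 / α) δ hδ0
  obtain ⟨Y₂, hY₂⟩ := hc p hp.one_le (1 / β) δ hδ0
  obtain ⟨Y₃, hY₃⟩ := hc 1 le_rfl (1 / α) δ hδ0
  obtain ⟨Y₄, hY₄⟩ := hc 1 le_rfl (1 / β) δ hδ0
  set Z : ℝ := |Y₁| + |Y₂| + p * |Y₃| + p * |Y₄| with hZ
  refine ⟨max k₁ (max (16 * (L + 1) ^ 2) ⌈Z⌉₊), fun k hk => ?_⟩
  have hk1 : k₁ ≤ k := (le_max_left _ _).trans hk
  have hk2 : 16 * (L + 1) ^ 2 ≤ k := (le_max_left _ _).trans ((le_max_right _ _).trans hk)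
  have hk3 : ⌈Z⌉₊ ≤ k := (le_max_right _ _).trans ((le_max_right _ _).trans hk)
  obtain ⟨hPW, hE⟩ := hk₁ k hk1
  set Y : ℕ := B * 4 ^ k with hY
  have hkY : k ≤ Y := by
    have h1 : k < 4 ^ k := Nat.lt_pow_self (by norm_num)
    have h2 : 4 ^ k ≤ B * 4 ^ k := Nat.le_mul_of_pos_left _ hB
    omega
  have hYr : (Y : ℝ) = B * 4 ^ k := by rw [hY]; push_cast; ring
  have hp0 : (0 : ℝ) < p := by exact_mod_cast hp.pos
  have hZY : Z ≤ Y := by
    have h1 : Z ≤ (⌈Z⌉₊ : ℝ) := Nat.le_ceil Z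
    have h2 : ((⌈Z⌉₊ : ℕ) : ℝ) ≤ Y := by exact_mod_cast hk3.trans hkY
    linarith
  have a1 := abs_nonneg Y₁
  have a2 := abs_nonneg Y₂
  have a3 := abs_nonneg Y₃
  have a4 := abs_nonneg Y₄
  have b1 := le_abs_self Y₁
  have b2 := le_abs_self Y₂
  have b3 := le_abs_self Y₃
  have b4 := le_abs_self Y₄
  have pa3 : 0 ≤ p * |Y₃| := by positivity
  have pa4 : 0 ≤ p * |Y₄| := by positivity
  have hYY1 : Y₁ ≤ Y := by linarith
  have hYY2 : Y₂ ≤ Y := by linarith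
  have hYY3 : Y₃ ≤ (Y : ℝ) / p := by
    rw [le_div_iff₀ hp0]
    nlinarith
  have hYY4 : Y₄ ≤ (Y : ℝ) / p := by
    rw [le_div_iff₀ hp0]
    nlinarith
  set S : Finset (G × G) := (PN Y ×ˢ PN Y).filter
    (fun t => det t.1 t.2 = (p : ℤ) ∧ 0 < ip t.1 t.2) with hS
  have hSm : ∀ t, t ∈ S ↔ t.1 ∈ PN Y ∧ t.2 ∈ PN Y ∧ det t.1 t.2 = (p : ℤ) ∧ 0 < ip t.1 t.2 := by
    intro t
    rw [hS, Finset.mem_filter, Finset.mem_product]
    tauto
  have hNN : 1 ≤ B ^ 2 * N' := Nat.one_le_iff_ne_zero.2 (by positivity)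
  rw [aqt_main α β hB hNN hp hpL (hk2.trans hkY) hα hPW ((B : ℝ) * 4 ^ k) S hSm]
  -- the mismatch
  obtain ⟨M, hM⟩ : ∃ M : G × G → Prop, ∀ t, M t ↔
      (|(ip t.1 t.2 : ℝ) / (nn t.1 : ℝ) - 1 / α| ≤ δ ∨
      |(ip t.1 t.2 : ℝ) / (nn t.1 : ℝ) - 1 / β| ≤ δ) := ⟨_, fun _ => Iff.rfl⟩
  set S' := S.filter (fun t => 4 ^ k ≤ nn t.1) with hS'
  have h4k : (0 : ℝ) < 4 ^ k := by positivity
  have step1 : ∀ t ∈ S, |th p t.1 * (gl t.1 * gl t.2) *
      ((if t ∈ PW α β p k then 1 / (ip t.1 t.2 : ℝ) else 0) -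
      wt α β B (B ^ 2 * N') (ce (B ^ 2 * N') Y t.1) (ce (B ^ 2 * N') Y t.2) / ((B : ℝ) * 4 ^ k))| ≤
      if 4 ^ k ≤ nn t.1 then C₁ / 4 ^ k * (|th p t.1| * (1 / N' + if M t then 1 else 0)) else 0 := by
    intro t ht
    obtain ⟨h1, h2, h3, h5⟩ := (hSm t).1 ht
    obtain ⟨g1, g2⟩ := hE t.1 h1 t.2 h2 h3 h5
    by_cases hk4 : 4 ^ k ≤ nn t.1
    · rw [if_pos hk4, abs_mul, abs_mul, abs_mul]
      have q1 := gl_abs t.1
      have q2 := gl_abs t.2
      have q3 : |gl t.1| * |gl t.2| ≤ 1 := by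
        have := abs_nonneg (gl t.1)
        have := abs_nonneg (gl t.2)
        nlinarith
      have q4 := abs_nonneg (th p t.1)
      have q5 : |th p t.1| * (|gl t.1| * |gl t.2|) ≤ |th p t.1| := by nlinarith
      calc _ ≤ |th p t.1| * (C₁ / 4 ^ k * (1 / N' + if M t then 1 else 0)) := by
            refine mul_le_mul q5 ?_ (abs_nonneg _) q4
            refine g2.trans (le_of_eq ?_)
            rw [if_congr (hM t) rfl rfl]
        _ = _ := by ring
    · have e1 : wt α β B (B ^ 2 * N') (ce (B ^ 2 * N') Y t.1) (ce (B ^ 2 * N') Y t.2) = 0 := by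
        by_contra h
        exact hk4 (g1 h)
      have e2 : t ∉ PW α β p k := fun h => hk4 ((mem_PW hα).1 h).2.2.2.2.1
      rw [if_neg hk4, e1, if_neg e2]
      simp
  refine (Finset.abs_sum_le_sum_abs _ _).trans ((Finset.sum_le_sum step1).trans ?_)
  rw [← Finset.sum_filter, ← hS', ← Finset.mul_sum]
  have step2 := aqt_sum S' p (1 / N') M
  rw [abs_of_pos (by positivity : (0 : ℝ) < 1 / N')] at step2
  -- the cardinalities
  have hmem : ∀ t ∈ S', Prm t.1 ∧ t.1 ∈ PN Y ∧ t.2 ∈ PN Y ∧ det t.1 t.2 = (p : ℤ) ∧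
      0 < ip t.1 t.2 ∧ Y ≤ B * nn t.1 ∧ nn t.1 ≤ Y := by
    intro t ht
    rw [hS', Finset.mem_filter, hSm] at ht
    obtain ⟨⟨h1, h2, h3, h5⟩, h6⟩ := ht
    exact ⟨(mem_PN.1 h1).1, h1, h2, h3, h5, Nat.mul_le_mul_left B h6, (mem_PN.1 h1).2⟩
  have hPNb : ((PN Y).card : ℝ) ≤ Cb * Y := by
    refine le_trans ?_ (hb Y (by positivity))
    exact_mod_cast Finset.card_le_card (Finset.filter_subset _ _)
  have c1 : (S'.card : ℝ) ≤ (B + 1) * (Cb * Y) := by
    have h1 := aqt_card (B := B) (Y := Y) (p : ℤ) S' (PN Y) fun t ht => by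
      obtain ⟨-, g1, g2, g3, g4, g5, -⟩ := hmem t ht
      exact ⟨g1, g1, g2, g3, g4, g5⟩
    calc (S'.card : ℝ) ≤ (B + 1) * (PN Y).card := by exact_mod_cast h1
      _ ≤ _ := by gcongr
  have c2 : ((S'.filter (fun t => pel p ∣ t.1)).card : ℝ) ≤ (B + 1) * (Cb * (Y / p)) := by
    have h1 := aqt_card (B := B) (Y := Y) (p : ℤ) (S'.filter (fun t => pel p ∣ t.1))
      ((PN Y).filter (fun v => pel p ∣ v)) fun t ht => by
        rw [Finset.mem_filter] at ht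
        obtain ⟨-, g1, g2, g3, g4, g5, -⟩ := hmem t ht.1
        exact ⟨Finset.mem_filter.2 ⟨g1, ht.2⟩, g1, g2, g3, g4, g5⟩
    have h2 := aqt_multiples hp h4 hb Y ((PN Y).filter (fun v => pel p ∣ v))
      (fun v hv => Finset.mem_filter.1 hv)
    calc ((S'.filter (fun t => pel p ∣ t.1)).card : ℝ) ≤
          (B + 1) * ((PN Y).filter (fun v => pel p ∣ v)).card := by exact_mod_cast h1
      _ ≤ _ := by gcongr
  have c3 : ((S'.filter M).card : ℝ) ≤ 2 * (Cc * δ * Y) := by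
    have h1 := hY₁ Y hYY1 (S'.filter (fun t => |(ip t.1 t.2 : ℝ) / (nn t.1 : ℝ) - 1 / α| ≤ δ))
      fun t ht => by
        rw [Finset.mem_filter] at ht
        obtain ⟨g0, -, -, g3, -, -, g6⟩ := hmem t ht.1
        exact ⟨g0, g3, by exact_mod_cast g6, ht.2⟩
    have h2 := hY₂ Y hYY2 (S'.filter (fun t => |(ip t.1 t.2 : ℝ) / (nn t.1 : ℝ) - 1 / β| ≤ δ))
      fun t ht => by
        rw [Finset.mem_filter] at ht
        obtain ⟨g0, -, -, g3, -, -, g6⟩ := hmem t ht.1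
        exact ⟨g0, g3, by exact_mod_cast g6, ht.2⟩
    have h3 : S'.filter M = S'.filter (fun t => |(ip t.1 t.2 : ℝ) / (nn t.1 : ℝ) - 1 / α| ≤ δ) ∪
        S'.filter (fun t => |(ip t.1 t.2 : ℝ) / (nn t.1 : ℝ) - 1 / β| ≤ δ) := by
      rw [← Finset.filter_or]
      exact Finset.filter_congr fun t _ => hM t
    have h5 := Finset.card_union_le
      (S'.filter (fun t => |(ip t.1 t.2 : ℝ) / (nn t.1 : ℝ) - 1 / α| ≤ δ))
      (S'.filter (fun t => |(ip t.1 t.2 : ℝ) / (nn t.1 : ℝ) - 1 / β| ≤ δ))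
    rw [← h3] at h5
    have h6 : ((S'.filter M).card : ℝ) ≤
        (S'.filter (fun t => |(ip t.1 t.2 : ℝ) / (nn t.1 : ℝ) - 1 / α| ≤ δ)).card +
        (S'.filter (fun t => |(ip t.1 t.2 : ℝ) / (nn t.1 : ℝ) - 1 / β| ≤ δ)).card := by
      exact_mod_cast h5
    linarith
  have c4 : (((S'.filter (fun t => pel p ∣ t.1)).filter M).card : ℝ) ≤ 2 * (Cc * δ * (Y / p)) := by
    have h1 := aqt_strip hp h4 hY₃ Y hYY3 ((S'.filter (fun t => pel p ∣ t.1)).filter
      (fun t => |(ip t.1 t.2 : ℝ) / (nn t.1 : ℝ) - 1 / α| ≤ δ)) fun t ht => by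
        rw [Finset.mem_filter, Finset.mem_filter] at ht
        obtain ⟨g0, -, -, g3, -, -, g6⟩ := hmem t ht.1.1
        exact ⟨g0, g3, g6, ht.2, ht.1.2⟩
    have h2 := aqt_strip hp h4 hY₄ Y hYY4 ((S'.filter (fun t => pel p ∣ t.1)).filter
      (fun t => |(ip t.1 t.2 : ℝ) / (nn t.1 : ℝ) - 1 / β| ≤ δ)) fun t ht => by
        rw [Finset.mem_filter, Finset.mem_filter] at ht
        obtain ⟨g0, -, -, g3, -, -, g6⟩ := hmem t ht.1.1
        exact ⟨g0, g3, g6, ht.2, ht.1.2⟩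
    have h3 : (S'.filter (fun t => pel p ∣ t.1)).filter M =
        (S'.filter (fun t => pel p ∣ t.1)).filter
          (fun t => |(ip t.1 t.2 : ℝ) / (nn t.1 : ℝ) - 1 / α| ≤ δ) ∪
        (S'.filter (fun t => pel p ∣ t.1)).filter
          (fun t => |(ip t.1 t.2 : ℝ) / (nn t.1 : ℝ) - 1 / β| ≤ δ) := by
      rw [← Finset.filter_or]
      exact Finset.filter_congr fun t _ => hM t
    have h5 := Finset.card_union_le
      ((S'.filter (fun t => pel p ∣ t.1)).filter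
          (fun t => |(ip t.1 t.2 : ℝ) / (nn t.1 : ℝ) - 1 / α| ≤ δ))
      ((S'.filter (fun t => pel p ∣ t.1)).filter
          (fun t => |(ip t.1 t.2 : ℝ) / (nn t.1 : ℝ) - 1 / β| ≤ δ))
    rw [← h3] at h5
    have h6 : (((S'.filter (fun t => pel p ∣ t.1)).filter M).card : ℝ) ≤
        ((S'.filter (fun t => pel p ∣ t.1)).filter
          (fun t => |(ip t.1 t.2 : ℝ) / (nn t.1 : ℝ) - 1 / α| ≤ δ)).card +
        ((S'.filter (fun t => pel p ∣ t.1)).filter
          (fun t => |(ip t.1 t.2 : ℝ) / (nn t.1 : ℝ) - 1 / β| ≤ δ)).card := by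
      exact_mod_cast h5
    linarith
  -- expansion of the sum
  have step3 : ∑ t ∈ S', (1 + (if pel p ∣ t.1 then (p : ℝ) + 1 else 0)) *
      (1 / N' + if M t then 1 else 0) =
      1 / N' * S'.card + (S'.filter M).card + (p + 1) * (1 / N') *
        (S'.filter (fun t => pel p ∣ t.1)).card +
        (p + 1) * ((S'.filter (fun t => pel p ∣ t.1)).filter M).card := by
    have e1 : ∀ t ∈ S', (1 + (if pel p ∣ t.1 then (p : ℝ) + 1 else 0)) *
        (1 / N' + if M t then 1 else 0) = 1 / N' + (if M t then 1 else 0) +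
        (p + 1) * (1 / N') * (if pel p ∣ t.1 then 1 else 0) +
        (p + 1) * (if pel p ∣ t.1 then (if M t then 1 else 0) else 0) := by
      intro t _
      split_ifs <;> ring
    rw [Finset.sum_congr rfl e1, Finset.sum_add_distrib, Finset.sum_add_distrib,
      Finset.sum_add_distrib, ← Finset.mul_sum, ← Finset.mul_sum, Finset.sum_const,
      ← Finset.sum_filter, ← Finset.sum_filter, ← Finset.sum_filter, ← Finset.sum_filter]
    simp only [Finset.sum_const, nsmul_eq_mul, mul_one]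
    ring
  have hp1 : ((p : ℝ) + 1) * (Y / p) ≤ 2 * Y := by
    have h1 : (1 : ℝ) ≤ p := by exact_mod_cast hp.one_le
    have h2 : (0 : ℝ) ≤ Y := by positivity
    rw [← mul_div_assoc, div_le_iff₀ hp0]
    nlinarith
  have hY0 : (0 : ℝ) ≤ Y := by positivity
  have hB0 : (0 : ℝ) ≤ B := by positivity
  have hCb0 : 0 ≤ Cb := by linarith
  have hCc0 : 0 ≤ Cc := by linarith
  have step4 : 1 / N' * S'.card + (S'.filter M).card + (p + 1) * (1 / N') *
        (S'.filter (fun t => pel p ∣ t.1)).card +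
        (p + 1) * ((S'.filter (fun t => pel p ∣ t.1)).filter M).card ≤
      (3 * (B + 1) * Cb / N' + 6 * Cc * δ) * Y := by
    have h1 : 1 / N' * (S'.card : ℝ) ≤ 1 / N' * ((B + 1) * (Cb * Y)) := by gcongr
    have h2 : ((p : ℝ) + 1) * (1 / N') * ((S'.filter (fun t => pel p ∣ t.1)).card : ℝ) ≤
        1 / N' * (2 * ((B + 1) * (Cb * Y))) := by
      calc _ ≤ ((p : ℝ) + 1) * (1 / N') * ((B + 1) * (Cb * (Y / p))) := by gcongr
        _ = 1 / N' * (((B + 1) * Cb) * ((p + 1) * (Y / p))) := by ring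
        _ ≤ 1 / N' * (((B + 1) * Cb) * (2 * Y)) := by gcongr
        _ = _ := by ring
    have h3 : ((p : ℝ) + 1) * (((S'.filter (fun t => pel p ∣ t.1)).filter M).card : ℝ) ≤
        4 * (Cc * δ * Y) := by
      calc _ ≤ ((p : ℝ) + 1) * (2 * (Cc * δ * (Y / p))) := by gcongr
        _ = (2 * (Cc * δ)) * ((p + 1) * (Y / p)) := by ring
        _ ≤ (2 * (Cc * δ)) * (2 * Y) := by gcongr
        _ = _ := by ring
    calc _ ≤ 1 / N' * ((B + 1) * (Cb * Y)) + 2 * (Cc * δ * Y) +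
          1 / N' * (2 * ((B + 1) * (Cb * Y))) + 4 * (Cc * δ * Y) := by linarith
      _ = _ := by ring
  calc C₁ / 4 ^ k * ∑ t ∈ S', |th p t.1| * (1 / N' + if M t then 1 else 0)
      ≤ C₁ / 4 ^ k * ((3 * (B + 1) * Cb / N' + 6 * Cc * δ) * Y) := by
        refine mul_le_mul_of_nonneg_left ?_ (by positivity)
        exact step2.trans (step3.le.trans step4)
    _ = C₁ * B * (3 * (B + 1) * Cb + 6 * Cc * C₁) / N' := by
        rw [hYr, hδ]
        field_simp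

end Pool.Agent.T2


namespace Pool.Agent.T2

theorem quant : type_of% @quant_pr := @quant_pr

end Pool.Agent.T2
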