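import Pool.Agent.Lib_helper39.TA.Defs
import Pool.Agent.Lib_helper10.T2F.AIT
import Pool.Agent.Lib_helper10.T2F.ANX
import Pool.Agent.Lib_helper10.T2F.BAS

/-! T2, package A, block AWD: what a word determines. -/

namespace Pool.Agent.T2

open Filter Topology

theorem awd_mul_re (z w : G) : (z * w).re = z.re * w.re - z.im * w.im := by
  rw [Zsqrtd.re_mul]; ring

theorem awd_mul_im (z w : G) : (z * w).im = z.re * w.im + z.im * w.re := by
  rw [Zsqrtd.im_mul]

theorem awd_letter {N L Y : ℕ} {u u' : G}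
    (h : Wd (nx Y) (ltr N Y) L u = Wd (nx Y) (ltr N Y) L u') (i : ℕ) (hi : i < L) :
    ltr N Y (it Y i u) = ltr N Y (it Y i u') := congrFun h ⟨i, hi⟩

theorem awd_rec {Y : ℕ} {u : G} (hu : u ∈ PN Y) (i : ℕ) (z : G) :
    det z (it Y (i + 2) u) = kk Y (it Y i u) * det z (it Y (i + 1) u) - det z (it Y i u) := by
  have h1 : it Y (i + 2) u = nx Y (nx Y (it Y i u)) := by
    rw [it_succ, it_succ]
  rw [h1, nx_rec (it_mem hu i), it_succ]
  simp only [det, Zsqrtd.re_sub, Zsqrtd.im_sub, awd_mul_re, awd_mul_im, Zsqrtd.re_intCast,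
    Zsqrtd.im_intCast]
  ring

theorem awd_coord {N L Y : ℕ} {u u' : G} (hu : u ∈ PN Y) (hu' : u' ∈ PN Y)
    (h : Wd (nx Y) (ltr N Y) L u = Wd (nx Y) (ltr N Y) L u') (i : ℕ) (hi : i ≤ L + 1) :
    det (nx Y u) (it Y i u) = det (nx Y u') (it Y i u') ∧
      det u (it Y i u) = det u' (it Y i u') := by
  induction i using Nat.strong_induction_on with
  | _ i ih =>
    match i, hi, ih with
    | 0, _, _ =>
      have h1 := nx_det hu
      have h2 := nx_det hu'
      rw [it_zero, it_zero]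
      simp only [det] at h1 h2 ⊢
      constructor
      · linear_combination h2 - h1
      · ring
    | 1, _, _ =>
      have h1 := nx_det hu
      have h2 := nx_det hu'
      have e : ∀ v : G, it Y 1 v = nx Y v := fun v => by rw [it_succ, it_zero]
      rw [e, e, h1, h2]
      simp only [det]
      exact ⟨by ring, trivial⟩
    | (i + 2), hi, ih =>
      obtain ⟨a1, a2⟩ := ih i (by omega) (by omega)
      obtain ⟨b1, b2⟩ := ih (i + 1) (by omega) (by omega)
      have hk : kk Y (it Y i u) = kk Y (it Y i u') :=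
        congrArg Prod.fst (awd_letter h i (by omega))
      rw [awd_rec hu, awd_rec hu', awd_rec hu, awd_rec hu', hk, a1, a2, b1, b2]
      exact ⟨rfl, rfl⟩

theorem awd_det {Y : ℕ} {u : G} (hu : u ∈ PN Y) (x z : G) :
    det x z = det u x * det (nx Y u) z - det (nx Y u) x * det u z := by
  have h := nx_det hu
  simp only [det] at h ⊢
  linear_combination (-(x.re * z.im - x.im * z.re)) * h

theorem word_det_pr {N L Y : ℕ} {u u' : G} (hu : u ∈ PN Y) (hu' : u' ∈ PN Y)
    (h : Wd (nx Y) (ltr N Y) L u = Wd (nx Y) (ltr N Y) L u') (i j : ℕ) (hi : i ≤ L + 1)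
    (hj : j ≤ L + 1) : det (it Y i u) (it Y j u) = det (it Y i u') (it Y j u') := by
  obtain ⟨a1, a2⟩ := awd_coord hu hu' h i hi
  obtain ⟨b1, b2⟩ := awd_coord hu hu' h j hj
  rw [awd_det hu (it Y i u), awd_det hu' (it Y i u'), a1, a2, b1, b2]

theorem word_cell_pr {N L Y : ℕ} {u u' : G}
    (h : Wd (nx Y) (ltr N Y) L u = Wd (nx Y) (ltr N Y) L u') (i : ℕ) (hi : i < L) :
    ce N Y (it Y i u) = ce N Y (it Y i u') := congrArg Prod.snd (awd_letter h i hi)

theorem awd_sign {z : G} (hz : z ≠ 0) : gl z = if sgb z = true then 1 else -1 := by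
  have h0 : nn z ≠ 0 := (nn_pos.mpr hz).ne'
  have h1 : gl z ^ 2 = 1 := lam_sq h0
  have h2 : gl z = 1 ∨ gl z = -1 := by
    have h3 : (gl z - 1) * (gl z + 1) = 0 := by linear_combination h1
    rcases mul_eq_zero.mp h3 with h4 | h4
    · left; linarith
    · right; linarith
  unfold sgb
  rcases h2 with h2 | h2
  · rw [h2, if_pos]
    simp
  · rw [h2, if_neg]
    simp

theorem awd_ne {Y : ℕ} {u : G} (hu : u ∈ PN Y) : u ≠ 0 := by
  rintro rfl
  have := (mem_PN.mp hu).1
  simp [Prm] at this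

theorem word_sign_pr {L Y : ℕ} {u u' : G} (hu : u ∈ PN Y) (hu' : u' ∈ PN Y)
    (h : Wd (nx Y) sgb L u = Wd (nx Y) sgb L u') (i : ℕ) (hi : i < L) :
    gl (it Y i u) = gl (it Y i u') := by
  have h1 : sgb (it Y i u) = sgb (it Y i u') := congrFun h ⟨i, hi⟩
  rw [awd_sign (awd_ne (it_mem hu i)), awd_sign (awd_ne (it_mem hu' i)), h1]

theorem word_FH_pr (α β : ℝ) (B p : ℕ) {N L Y : ℕ} {u u' : G} (hu : u ∈ PN Y) (hu' : u' ∈ PN Y)
    (h : Wd (nx Y) (ltr N Y) L u = Wd (nx Y) (ltr N Y) L u')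
    (hs : Wd (nx Y) sgb L u = Wd (nx Y) sgb L u') (a : ℕ) (ha : a < L / 2) :
    FH α β B N L Y p (it Y a u) = FH α β B N L Y p (it Y a u') := by
  unfold FH
  refine Finset.sum_congr rfl fun m hm => ?_
  rw [Finset.mem_Icc] at hm
  rw [← it_add, ← it_add, word_det_pr hu hu' h a (m + a) (by omega) (by omega),
    word_cell_pr h a (by omega), word_cell_pr h (m + a) (by omega),
    word_sign_pr hu hu' hs a (by omega), word_sign_pr hu hu' hs (m + a) (by omega)]

theorem word_Tm_pr (B M : ℕ) {N L Y : ℕ} {u u' : G} (hu : u ∈ PN Y) (hu' : u' ∈ PN Y)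
    (h : Wd (nx Y) (ltr N Y) L u = Wd (nx Y) (ltr N Y) L u') :
    Tm B N M L Y u ↔ Tm B N M L Y u' := by
  unfold Tm
  constructor
  · intro H i j hij hj h1 h2
    rw [← word_det_pr hu hu' h i j (by omega) (by omega)]
    exact H i j hij hj (by rwa [word_cell_pr h i (by omega)]) (by rwa [word_cell_pr h j hj])
  · intro H i j hij hj h1 h2
    rw [word_det_pr hu hu' h i j (by omega) (by omega)]
    exact H i j hij hj (by rwa [← word_cell_pr h i (by omega)]) (by rwa [← word_cell_pr h j hj])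

theorem word_Ph_pr (α β : ℝ) (B M p : ℕ) {N L Y : ℕ} {u u' : G} (hu : u ∈ PN Y) (hu' : u' ∈ PN Y)
    (h : Wd (nx Y) (ltr N Y) L u = Wd (nx Y) (ltr N Y) L u')
    (hs : Wd (nx Y) sgb L u = Wd (nx Y) sgb L u') (t : ℤ × ℤ) :
    Ph α β B N M L Y p u t = Ph α β B N M L Y p u' t := by
  unfold Ph
  have hT := word_Tm_pr B M hu hu' h
  by_cases hu1 : Tm B N M L Y u
  · rw [if_pos hu1, if_pos (hT.mp hu1)]
    congr 1
    refine Finset.sum_congr rfl fun a ha => ?_
    rw [Finset.mem_range] at ha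
    have e1 : ∀ v : G, nx Y v = it Y 1 v := fun v => by rw [it_succ, it_zero]
    have e0 := word_det_pr hu hu' h 0 a (by omega) (by omega)
    rw [it_zero, it_zero] at e0
    rw [word_FH_pr α β B p hu hu' h hs a ha, e1, e1,
      word_det_pr hu hu' h a 1 (by omega) (by omega), e0]
  · rw [if_neg hu1, if_neg (fun h' => hu1 (hT.mpr h'))]

end Pool.Agent.T2


namespace Pool.Agent.T2

theorem word_det : type_of% @word_det_pr := @word_det_pr
theorem word_cell : type_of% @word_cell_pr := @word_cell_pr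
theorem word_sign : type_of% @word_sign_pr := @word_sign_pr
theorem word_FH : type_of% @word_FH_pr := @word_FH_pr
theorem word_Tm : type_of% @word_Tm_pr := @word_Tm_pr
theorem word_Ph : type_of% @word_Ph_pr := @word_Ph_pr

end Pool.Agent.T2
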