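import Pool.Agent.Lib_helper39.TA.Defs
import Pool.Agent.Lib_helper10.T2F.AFR
import Pool.Agent.Lib_helper10.T2F.AIT
import Pool.Agent.Lib_helper10.T2F.ANX
import Pool.Agent.Lib_helper10.T2F.AWD
import Pool.Agent.Lib_helper10.T2F.BAS

/-! T2, block ANM: the windows which are not tame -/

namespace Pool.Agent.T2

open Filter Topology

theorem anm_coprime {Y : ℕ} {u : G} (hu : u ∈ PN Y) (a : ℕ) :
    IsCoprime (det (it Y a u) (nx Y u)) (det u (it Y a u)) := by
  have hprm : Prm (it Y a u) := (mem_PN.1 (it_mem hu a)).1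
  have hdec := det_decomp hu (it Y a u)
  set A := det (it Y a u) (nx Y u)
  set B := det u (it Y a u)
  rw [Int.isCoprime_iff_gcd_eq_one]
  have h1 := prm_iff.1 hprm (Int.gcd A B)
  refine h1 ?_
  rw [hdec]
  have hA : ((Int.gcd A B : ℕ) : G) ∣ (A : G) := by
    obtain ⟨c, hc⟩ := Int.gcd_dvd_left A B
    refine ⟨(c : G), ?_⟩
    have := congrArg (fun z : ℤ => (z : G)) hc
    push_cast at this
    exact this
  have hB : ((Int.gcd A B : ℕ) : G) ∣ (B : G) := by
    obtain ⟨c, hc⟩ := Int.gcd_dvd_right A B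
    refine ⟨(c : G), ?_⟩
    have := congrArg (fun z : ℤ => (z : G)) hc
    push_cast at this
    exact this
  exact dvd_add (Dvd.dvd.mul_right hA _) (Dvd.dvd.mul_right hB _)

open Classical in
theorem anm_card {Q : Finset ℕ} (hQ : Pset Q) (p : Q) (A B : ℤ) (hAB : IsCoprime A B) :
    ((p : ℕ) + 1) * ((Fintype.piFinset (fun p : Q => Ep (p : ℕ))).filter
      (fun t => ((p : ℕ) : ℤ) ∣ A * (t p).1 + B * (t p).2)).card =
      (Fintype.piFinset (fun p : Q => Ep (p : ℕ))).card := by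
  have hp := (hQ _ p.2).1
  obtain ⟨h1, h2⟩ := Ep_count hp A B hAB
  let E' : Q → Finset (ℤ × ℤ) := fun q =>
    if q = p then (Ep (p : ℕ)).filter (fun t => ((p : ℕ) : ℤ) ∣ A * t.1 + B * t.2) else Ep (q : ℕ)
  have hE : (Fintype.piFinset (fun p : Q => Ep (p : ℕ))).filter
      (fun t => ((p : ℕ) : ℤ) ∣ A * (t p).1 + B * (t p).2) = Fintype.piFinset E' := by
    ext t
    rw [Finset.mem_filter, Fintype.mem_piFinset, Fintype.mem_piFinset]
    constructor
    · rintro ⟨k1, k2⟩ q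
      show t q ∈ (if q = p then _ else _)
      split_ifs with hq
      · subst hq
        exact Finset.mem_filter.2 ⟨k1 q, k2⟩
      · exact k1 q
    · intro k
      refine ⟨fun q => ?_, ?_⟩
      · have hk := k q
        by_cases hq : q = p
        · subst hq
          have hk' : t q ∈ (if q = q then _ else Ep (q : ℕ)) := hk
          rw [if_pos rfl] at hk'
          exact (Finset.mem_filter.1 hk').1
        · have hk' : t q ∈ (if q = p then _ else Ep (q : ℕ)) := hk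
          rwa [if_neg hq] at hk'
      · have hk' : t p ∈ (if p = p then _ else Ep (p : ℕ)) := k p
        rw [if_pos rfl] at hk'
        exact (Finset.mem_filter.1 hk').2
  rw [hE, Fintype.card_piFinset, Fintype.card_piFinset,
    ← Finset.mul_prod_erase Finset.univ (fun q => (E' q).card) (Finset.mem_univ p),
    ← Finset.mul_prod_erase Finset.univ (fun q : Q => (Ep (q : ℕ)).card) (Finset.mem_univ p)]
  have e1 : (E' p).card = (p : ℕ) - 1 := by
    show (if p = p then _ else Ep (p : ℕ)).card = _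
    rw [if_pos rfl, h2]
  have e2 : ∏ q ∈ Finset.univ.erase p, (E' q).card =
      ∏ q ∈ Finset.univ.erase p, (Ep (q : ℕ)).card := by
    refine Finset.prod_congr rfl fun q hq => ?_
    show (if q = p then _ else Ep (q : ℕ)).card = _
    rw [if_neg (Finset.ne_of_mem_erase hq)]
  rw [e1, e2, h1, ← mul_assoc]
  congr 1
  have h3 : 1 ≤ (p : ℕ) := hp.one_lt.le
  have h4 : 1 ≤ (p : ℕ) ^ 2 := Nat.one_le_pow _ _ hp.pos
  zify [h3, h4]
  ring

open Classical in
theorem anm_abs {α σ ι τ : Type*} [Fintype ι] (Ω : Finset α) (h : α → σ) (y : α → ι → τ)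
    (E : ι → Finset τ) (P W : α → Prop) (D : α → Finset (ι → τ)) (c : ℝ) (hc : 0 < c)
    (hDs : ∀ x ∈ Ω, D x ⊆ Fintype.piFinset E)
    (hD : ∀ x ∈ Ω, c * ((D x).card : ℝ) = ((Fintype.piFinset E).card : ℝ))
    (hW : ∀ x ∈ Ω, ∀ z ∈ Ω, h z = h x → W z → W x)
    (hP : ∀ x ∈ Ω, ∀ z ∈ Ω, h z = h x → (P z ↔ y z ∈ D x)) :
    c * ((Ω.filter (fun u => W u ∧ P u)).card : ℝ) ≤ ((Ω.filter W).card : ℝ) + c * TV Ω h y E := by
  have hfib : ∀ x ∈ Ω, ((Ω.filter (fun z => h z = h x ∧ P z)).card : ℝ) =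
      ∑ t ∈ D x, ((Ω.filter (fun z => h z = h x ∧ y z = t)).card : ℝ) := by
    intro x hx
    have hmap : ∀ z ∈ Ω.filter (fun z => h z = h x ∧ P z), y z ∈ D x := by
      intro z hz
      obtain ⟨hz1, hz2, hz3⟩ := Finset.mem_filter.1 hz
      exact (hP x hx z hz1 hz2).1 hz3
    rw [Finset.card_eq_sum_card_fiberwise hmap, Nat.cast_sum]
    refine Finset.sum_congr rfl fun t ht => ?_
    congr 2
    ext z
    rw [Finset.mem_filter, Finset.mem_filter, Finset.mem_filter]
    constructor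
    · rintro ⟨⟨h1, h2, h3⟩, h4⟩
      exact ⟨h1, h2, h4⟩
    · rintro ⟨h1, h2, h4⟩
      exact ⟨⟨h1, h2, (hP x hx z h1 h2).2 (by rw [h4]; exact ht)⟩, h4⟩
  have hfbpos : ∀ z ∈ Ω, (0 : ℝ) < (fb Ω h z : ℝ) := by
    intro z hz
    have : 0 < fb Ω h z := Finset.card_pos.2 ⟨z, Finset.mem_filter.2 ⟨hz, rfl⟩⟩
    exact_mod_cast this
  have hdc : ((Ω.filter (fun u => W u ∧ P u)).card : ℝ) =
      ∑ x ∈ Ω.filter W,
        ((Ω.filter (fun z => h z = h x ∧ P z)).card : ℝ) / (fb Ω h x : ℝ) := by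
    have e1 : ∀ x ∈ Ω.filter W,
        ((Ω.filter (fun z => h z = h x ∧ P z)).card : ℝ) / (fb Ω h x : ℝ) =
        ∑ z ∈ Ω.filter (fun z => h z = h x ∧ P z), 1 / (fb Ω h x : ℝ) := by
      intro x _
      rw [Finset.sum_const, nsmul_eq_mul, mul_one_div]
    rw [Finset.sum_congr rfl e1]
    rw [Finset.sum_comm' (s' := fun z => Ω.filter (fun x => h x = h z))
      (t' := Ω.filter (fun u => W u ∧ P u))]
    · rw [Finset.card_eq_sum_ones, Nat.cast_sum]
      refine Finset.sum_congr rfl fun z hz => ?_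
      have hz1 := (Finset.mem_filter.1 hz).1
      have e2 : ∀ x ∈ Ω.filter (fun x => h x = h z), 1 / (fb Ω h x : ℝ) = 1 / (fb Ω h z : ℝ) := by
        intro x hx
        have hx2 := (Finset.mem_filter.1 hx).2
        unfold fb
        rw [hx2]
      rw [Finset.sum_congr rfl e2, Finset.sum_const, nsmul_eq_mul]
      have e3 : ((Ω.filter (fun x => h x = h z)).card : ℝ) = (fb Ω h z : ℝ) := rfl
      rw [e3, mul_one_div, div_self (hfbpos z hz1).ne', Nat.cast_one]
    · intro x z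
      rw [Finset.mem_filter, Finset.mem_filter, Finset.mem_filter, Finset.mem_filter]
      constructor
      · rintro ⟨⟨h1, h2⟩, h3, h4, h5⟩
        exact ⟨⟨h1, h4.symm⟩, h3, hW z h3 x h1 h4.symm h2, h5⟩
      · rintro ⟨⟨h1, h2⟩, h3, h4, h5⟩
        exact ⟨⟨h1, hW x h1 z h3 h2.symm h4⟩, h3, h2.symm, h5⟩
  have hone : ∀ x ∈ Ω, c *
      (((Ω.filter (fun z => h z = h x ∧ P z)).card : ℝ) / (fb Ω h x : ℝ)) ≤
      1 + c * ∑ t ∈ Fintype.piFinset E,
        |((Ω.filter (fun z => h z = h x ∧ y z = t)).card : ℝ) / (fb Ω h x : ℝ) -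
          1 / ((Fintype.piFinset E).card : ℝ)| := by
    intro x hx
    rw [hfib x hx, Finset.sum_div]
    have e1 : ∑ t ∈ D x, ((Ω.filter (fun z => h z = h x ∧ y z = t)).card : ℝ) /
        (fb Ω h x : ℝ) ≤ ∑ t ∈ D x, (1 / ((Fintype.piFinset E).card : ℝ) +
          |((Ω.filter (fun z => h z = h x ∧ y z = t)).card : ℝ) / (fb Ω h x : ℝ) -
          1 / ((Fintype.piFinset E).card : ℝ)|) := by
      refine Finset.sum_le_sum fun t _ => ?_
      have := le_abs_self (((Ω.filter (fun z => h z = h x ∧ y z = t)).card : ℝ) /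
        (fb Ω h x : ℝ) - 1 / ((Fintype.piFinset E).card : ℝ))
      linarith
    rw [Finset.sum_add_distrib, Finset.sum_const, nsmul_eq_mul] at e1
    have e2 : ∑ t ∈ D x, |((Ω.filter (fun z => h z = h x ∧ y z = t)).card : ℝ) /
        (fb Ω h x : ℝ) - 1 / ((Fintype.piFinset E).card : ℝ)| ≤
        ∑ t ∈ Fintype.piFinset E, |((Ω.filter (fun z => h z = h x ∧ y z = t)).card : ℝ) /
        (fb Ω h x : ℝ) - 1 / ((Fintype.piFinset E).card : ℝ)| :=
      Finset.sum_le_sum_of_subset_of_nonneg (hDs x hx)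
        fun t _ _ => abs_nonneg _
    have e3 : c * (((D x).card : ℝ) * (1 / ((Fintype.piFinset E).card : ℝ))) ≤
        1 := by
      rw [← mul_assoc, hD x hx, mul_one_div]
      exact div_self_le_one _
    have e4 : c * ∑ t ∈ D x, ((Ω.filter (fun z => h z = h x ∧ y z = t)).card : ℝ) /
        (fb Ω h x : ℝ) ≤ c * (((D x).card : ℝ) *
          (1 / ((Fintype.piFinset E).card : ℝ)) + ∑ t ∈ Fintype.piFinset E,
            |((Ω.filter (fun z => h z = h x ∧ y z = t)).card : ℝ) /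
            (fb Ω h x : ℝ) - 1 / ((Fintype.piFinset E).card : ℝ)|) :=
      mul_le_mul_of_nonneg_left (by linarith) hc.le
    rw [mul_add] at e4
    linarith
  rw [hdc]
  have s1 : c * ∑ x ∈ Ω.filter W,
      (((Ω.filter (fun z => h z = h x ∧ P z)).card : ℝ) / (fb Ω h x : ℝ))
      ≤ ((Ω.filter W).card : ℝ) + c * ∑ x ∈ Ω.filter W,
        ∑ t ∈ Fintype.piFinset E,
        |((Ω.filter (fun z => h z = h x ∧ y z = t)).card : ℝ) / (fb Ω h x : ℝ) -
          1 / ((Fintype.piFinset E).card : ℝ)| := by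
    rw [Finset.mul_sum]
    refine (Finset.sum_le_sum fun x hx => hone x (Finset.mem_filter.1 hx).1).trans_eq ?_
    rw [Finset.sum_add_distrib, Finset.sum_const, nsmul_eq_mul, mul_one, Finset.mul_sum]
  have s2 : ∑ x ∈ Ω.filter W, ∑ t ∈ Fintype.piFinset E,
        |((Ω.filter (fun z => h z = h x ∧ y z = t)).card : ℝ) / (fb Ω h x : ℝ) -
          1 / ((Fintype.piFinset E).card : ℝ)| ≤ TV Ω h y E := by
    refine Finset.sum_le_sum_of_subset_of_nonneg (Finset.filter_subset _ _) ?_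
    intro x _ _
    exact Finset.sum_nonneg fun t _ => abs_nonneg _
  have s3 := mul_le_mul_of_nonneg_left s2 hc.le
  linarith

open Classical in
theorem nontame_div_pr {Q : Finset ℕ} (hQ : Pset Q) (B N M L Y : ℕ) (p : Q) (a : ℕ) (ha : a ≤ L) :
    ((p : ℕ) + 1 : ℝ) *
      (((PN Y).filter (fun u => ¬ Tm B N M L Y u ∧ pel (p : ℕ) ∣ it Y a u)).card : ℝ) ≤
      (((PN Y).filter (fun u => ¬ Tm B N M L Y u)).card : ℝ) +
        ((p : ℕ) + 1 : ℝ) * TV (PN Y) (Wd (nx Y) (ltr N Y) L) (fr Q Y)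
          (fun p : Q => Ep (p : ℕ)) := by
  have hdet : ∀ x ∈ PN Y, ∀ z ∈ PN Y, Wd (nx Y) (ltr N Y) L z = Wd (nx Y) (ltr N Y) L x →
      det (it Y a z) (nx Y z) = det (it Y a x) (nx Y x) ∧
      det z (it Y a z) = det x (it Y a x) := by
    intro x hx z hz hzx
    constructor
    · have h1 := word_det hz hx hzx a 1 (by omega) (by omega)
      have e : ∀ w : G, it Y 1 w = nx Y w := fun w => by
        rw [it_succ, it_zero]
      rwa [e, e] at h1
    · have h1 := word_det hz hx hzx 0 a (by omega) (by omega)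
      rwa [it_zero, it_zero] at h1
  have key := anm_abs (PN Y) (Wd (nx Y) (ltr N Y) L) (fr Q Y) (fun p : Q => Ep (p : ℕ))
    (fun u => pel (p : ℕ) ∣ it Y a u) (fun u => ¬ Tm B N M L Y u)
    (fun x => (Fintype.piFinset (fun p : Q => Ep (p : ℕ))).filter
      (fun t => ((p : ℕ) : ℤ) ∣ det (it Y a x) (nx Y x) * (t p).1 + det x (it Y a x) * (t p).2))
    ((p : ℕ) + 1 : ℝ) (by positivity) ?_ ?_ ?_ ?_
  · have e1 : ∀ (P : G → Prop) (i j : DecidablePred P),
        (@Finset.filter G P i (PN Y)).card = (@Finset.filter G P j (PN Y)).card :=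
      fun P i j => by rw [Subsingleton.elim i j]
    refine (le_of_eq ?_).trans (key.trans (le_of_eq ?_))
    · exact congrArg (fun m : ℕ => (((p : ℕ) : ℝ) + 1) * (m : ℝ)) (e1 _ _ _)
    · exact congrArg (fun m : ℕ => (m : ℝ) + (((p : ℕ) : ℝ) + 1) *
        TV (PN Y) (Wd (nx Y) (ltr N Y) L) (fr Q Y) (fun p : Q => Ep (p : ℕ))) (e1 _ _ _)
  · intro x _ t ht
    have h1 := (Finset.mem_filter.1 ht).1
    have e1 : ∀ i j : DecidableEq Q,
        @Fintype.piFinset Q i _ (fun _ => ℤ × ℤ) (fun p : Q => Ep (p : ℕ)) =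
        @Fintype.piFinset Q j _ (fun _ => ℤ × ℤ) (fun p : Q => Ep (p : ℕ)) :=
      fun i j => by rw [Subsingleton.elim i j]
    exact (e1 _ _) ▸ h1
  · intro x hx
    have h1 := anm_card hQ p _ _ (anm_coprime hx a)
    have h2 : ((((p : ℕ) + 1) * ((Fintype.piFinset (fun p : Q => Ep (p : ℕ))).filter
      (fun t => ((p : ℕ) : ℤ) ∣ det (it Y a x) (nx Y x) * (t p).1 +
        det x (it Y a x) * (t p).2)).card : ℕ) : ℝ) =
      (((Fintype.piFinset (fun p : Q => Ep (p : ℕ))).card : ℕ) : ℝ) := by rw [h1]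
    rw [Nat.cast_mul, Nat.cast_add, Nat.cast_one] at h2
    have e1 : ∀ i j : DecidableEq Q,
        @Fintype.piFinset Q i _ (fun _ => ℤ × ℤ) (fun p : Q => Ep (p : ℕ)) =
        @Fintype.piFinset Q j _ (fun _ => ℤ × ℤ) (fun p : Q => Ep (p : ℕ)) :=
      fun i j => by rw [Subsingleton.elim i j]
    exact h2.trans (congrArg (fun T : Finset (Q → ℤ × ℤ) => ((T.card : ℕ) : ℝ)) (e1 _ _))
  · intro x hx z hz hzx h1 h2
    exact h1 ((word_Tm B M hx hz hzx.symm).1 h2)
  · intro x hx z hz hzx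
    rw [Finset.mem_filter, ← (hdet x hx z hz hzx).1, ← (hdet x hx z hz hzx).2,
      fr_div hQ hz p (it Y a z)]
    exact ⟨fun h => ⟨Fintype.mem_piFinset.2 fun q => fr_mem hQ hz q, h⟩, fun h => h.2⟩

end Pool.Agent.T2


namespace Pool.Agent.T2

theorem nontame_div : type_of% @nontame_div_pr := @nontame_div_pr

end Pool.Agent.T2
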