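import Pool.Agent.Lib_helper39.TA.Defs
import Pool.Agent.Lib_helper10.T2F.AIT
import Pool.Agent.Lib_helper10.T2F.ANX
import Pool.Agent.Lib_helper10.T2F.AWI
import Pool.Agent.Lib_helper10.T2F.BAS
import Pool.Agent.Lib_helper10.T2F.CNT

/-! T2, package A, block ANT: most windows are tame -/

namespace Pool.Agent.T2

open Filter Topology

open Classical in
theorem ant_layer {C : ℝ} (hb : ∀ x : ℝ, 0 ≤ x → ((Bl x).card : ℝ) ≤ C * x) (Y j : ℕ) :
    (((PN Y).filter (fun u => 4 ^ j * nn u ≤ Y)).card : ℝ) ≤ C * (Y / 4 ^ j) := by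
  have h1 : (PN Y).filter (fun u => 4 ^ j * nn u ≤ Y) ⊆ Bl ((Y : ℝ) / 4 ^ j) := by
    intro u hu
    obtain ⟨hu1, hu2⟩ := Finset.mem_filter.1 hu
    have hp := (mem_PN.1 hu1).1
    refine mem_Bl.2 ⟨prm_ne hp, ?_⟩
    rw [le_div_iff₀ (by positivity)]
    have : ((4 ^ j * nn u : ℕ) : ℝ) ≤ (Y : ℝ) := by exact_mod_cast hu2
    push_cast at this
    linarith
  have h2 := Finset.card_le_card h1
  have h3 := hb ((Y : ℝ) / 4 ^ j) (by positivity)
  have h4 : (((PN Y).filter (fun u => 4 ^ j * nn u ≤ Y)).card : ℝ) ≤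
      ((Bl ((Y : ℝ) / 4 ^ j)).card : ℝ) := by exact_mod_cast h2
  linarith

theorem ant_point {Y n : ℕ} (hn : 1 ≤ n) (hY : n ≤ Y) :
    1 / Real.sqrt n ≤ 2 / Real.sqrt Y *
      ∑ j ∈ Finset.range (Y + 1), (if 4 ^ j * n ≤ Y then (2 : ℝ) ^ j else 0) := by
  have hYn : Y / n ≠ 0 := by
    have := Nat.div_pos hY (by omega)
    omega
  set j := Nat.log 4 (Y / n) with hj
  have h1 : 4 ^ j ≤ Y / n := Nat.pow_log_le_self 4 hYn
  have h2 : Y / n < 4 ^ (j + 1) := Nat.lt_pow_succ_log_self (by norm_num) _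
  have h3 : 4 ^ j * n ≤ Y := by
    calc 4 ^ j * n ≤ (Y / n) * n := Nat.mul_le_mul_right _ h1
      _ ≤ Y := Nat.div_mul_le_self _ _
  have h4 : Y < 4 ^ (j + 1) * n := (Nat.div_lt_iff_lt_mul (by omega)).1 h2
  have hjY : j < Y + 1 := by
    have : j < 4 ^ j := Nat.lt_pow_self (by norm_num)
    have h5 : 4 ^ j ≤ Y := le_trans (Nat.le_mul_of_pos_right _ (by omega)) h3
    omega
  have h6 : (2 : ℝ) ^ j ≤ ∑ j ∈ Finset.range (Y + 1),
      (if 4 ^ j * n ≤ Y then (2 : ℝ) ^ j else 0) := by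
    have h7 : (if 4 ^ j * n ≤ Y then (2 : ℝ) ^ j else 0) ≤ ∑ j ∈ Finset.range (Y + 1),
        (if 4 ^ j * n ≤ Y then (2 : ℝ) ^ j else 0) := by
      apply Finset.single_le_sum (f := fun j => if 4 ^ j * n ≤ Y then (2 : ℝ) ^ j else 0)
      · intro i _
        split_ifs <;> positivity
      · exact Finset.mem_range.2 hjY
    rwa [if_pos h3] at h7
  have hn0 : (0 : ℝ) < n := by exact_mod_cast hn
  have hY0 : (0 : ℝ) < Y := by exact_mod_cast (le_trans hn hY)
  have hsn : 0 < Real.sqrt n := Real.sqrt_pos.2 hn0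
  have hsY : 0 < Real.sqrt Y := Real.sqrt_pos.2 hY0
  have h8 : Real.sqrt Y ≤ 2 ^ (j + 1) * Real.sqrt n := by
    rw [show (2 : ℝ) ^ (j + 1) * Real.sqrt n = Real.sqrt ((2 ^ (j + 1)) ^ 2 * n) by
      rw [Real.sqrt_mul (by positivity), Real.sqrt_sq (by positivity)]]
    apply Real.sqrt_le_sqrt
    have h9 : ((2 : ℝ) ^ (j + 1)) ^ 2 = 4 ^ (j + 1) := by
      rw [← pow_mul, mul_comm, pow_mul]; norm_num
    rw [h9]
    have : (Y : ℝ) ≤ ((4 ^ (j + 1) * n : ℕ) : ℝ) := by exact_mod_cast h4.le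
    push_cast at this
    linarith
  calc 1 / Real.sqrt n ≤ 2 / Real.sqrt Y * 2 ^ j := by
        rw [div_mul_eq_mul_div, div_le_div_iff₀ hsn hsY]
        have : (2 : ℝ) ^ (j + 1) = 2 * 2 ^ j := by ring
        rw [this] at h8
        linarith
    _ ≤ _ := by
        apply mul_le_mul_of_nonneg_left h6
        positivity

theorem ant_recip : ∃ C : ℝ, 1 ≤ C ∧ ∀ Y : ℕ, 1 ≤ Y →
    ∑ u ∈ PN Y, 1 / Real.sqrt (nn u : ℝ) ≤ C * Real.sqrt Y := by
  classical
  obtain ⟨C, hC, hb⟩ := ball_le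
  refine ⟨4 * C, by linarith, fun Y hY => ?_⟩
  have hY0 : (0 : ℝ) < Y := by exact_mod_cast hY
  have hsY : 0 < Real.sqrt Y := Real.sqrt_pos.2 hY0
  have h1 : ∑ u ∈ PN Y, 1 / Real.sqrt (nn u : ℝ) ≤
      ∑ u ∈ PN Y, 2 / Real.sqrt Y *
        ∑ j ∈ Finset.range (Y + 1), (if 4 ^ j * nn u ≤ Y then (2 : ℝ) ^ j else 0) := by
    apply Finset.sum_le_sum
    intro u hu
    obtain ⟨hp, hl⟩ := mem_PN.1 hu
    exact ant_point (nn_pos.2 (prm_ne hp)) hl
  refine h1.trans ?_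
  rw [← Finset.mul_sum, Finset.sum_comm]
  have h2 : ∑ j ∈ Finset.range (Y + 1), ∑ u ∈ PN Y,
      (if 4 ^ j * nn u ≤ Y then (2 : ℝ) ^ j else 0) ≤
      ∑ j ∈ Finset.range (Y + 1), C * Y * (1 / 2 : ℝ) ^ j := by
    apply Finset.sum_le_sum
    intro j _
    rw [← Finset.sum_filter, Finset.sum_const, nsmul_eq_mul]
    have h3 := ant_layer hb Y j
    have h4 : (2 : ℝ) ^ j * 2 ^ j = 4 ^ j := by
      rw [← mul_pow]; norm_num
    calc (((PN Y).filter (fun u => 4 ^ j * nn u ≤ Y)).card : ℝ) * 2 ^ j ≤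
          C * (Y / 4 ^ j) * 2 ^ j := by
            apply mul_le_mul_of_nonneg_right h3; positivity
      _ = C * Y * (1 / 2 : ℝ) ^ j := by
            rw [← h4, one_div, inv_pow]
            field_simp
  have h5 : ∑ j ∈ Finset.range (Y + 1), C * Y * (1 / 2 : ℝ) ^ j ≤ C * Y * 2 := by
    rw [← Finset.mul_sum]
    apply mul_le_mul_of_nonneg_left _ (by positivity)
    have := sum_geometric_two_le (Y + 1)
    simpa using this
  calc 2 / Real.sqrt Y * ∑ j ∈ Finset.range (Y + 1), ∑ u ∈ PN Y,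
        (if 4 ^ j * nn u ≤ Y then (2 : ℝ) ^ j else 0) ≤ 2 / Real.sqrt Y * (C * Y * 2) := by
          apply mul_le_mul_of_nonneg_left (h2.trans h5); positivity
    _ = 4 * C * Real.sqrt Y := by
          have h6 : Real.sqrt Y * Real.sqrt Y = Y := Real.mul_self_sqrt hY0.le
          rw [div_mul_eq_mul_div, div_eq_iff hsY.ne']
          calc 2 * (C * Y * 2) = 4 * C * Y := by ring
            _ = 4 * C * (Real.sqrt Y * Real.sqrt Y) := by rw [h6]
            _ = _ := by ring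

theorem sine_total_pr : ∃ C : ℝ, 1 ≤ C ∧ ∀ Y : ℕ, 1 ≤ Y →
    ∑ u ∈ PN Y, 1 / Real.sqrt ((nn u : ℝ) * (nn (nx Y u) : ℝ)) ≤ C := by
  obtain ⟨C, hC, hr⟩ := ant_recip
  refine ⟨4 * C, by linarith, fun Y hY => ?_⟩
  have hY0 : (0 : ℝ) < Y := by exact_mod_cast hY
  have hsY : 0 < Real.sqrt Y := Real.sqrt_pos.2 hY0
  have key : ∀ u ∈ PN Y, 1 / Real.sqrt ((nn u : ℝ) * (nn (nx Y u) : ℝ)) ≤
      2 / Real.sqrt Y * (1 / Real.sqrt (nn u : ℝ) + 1 / Real.sqrt (nn (nx Y u) : ℝ)) := by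
    intro u hu
    have ha : (0 : ℝ) < nn u := by exact_mod_cast (nn_pos.2 (prm_ne (mem_PN.1 hu).1))
    have hb : (0 : ℝ) < nn (nx Y u) := by
      exact_mod_cast (nn_pos.2 (prm_ne (mem_PN.1 (nx_mem hu)).1))
    have hsa := Real.sqrt_pos.2 ha
    have hsb := Real.sqrt_pos.2 hb
    have aux : ∀ t : ℕ, Y < 4 * t → 1 / Real.sqrt (t : ℝ) ≤ 2 / Real.sqrt Y := by
      intro t ht
      have ht0 : (0 : ℝ) < t := by
        have : 0 < t := by omega
        exact_mod_cast this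
      rw [div_le_div_iff₀ (Real.sqrt_pos.2 ht0) hsY, one_mul]
      rw [show (2 : ℝ) * Real.sqrt t = Real.sqrt (2 ^ 2 * t) by
        rw [Real.sqrt_mul (by positivity), Real.sqrt_sq (by positivity)]]
      apply Real.sqrt_le_sqrt
      have : (Y : ℝ) ≤ ((4 * t : ℕ) : ℝ) := by exact_mod_cast ht.le
      push_cast at this
      linarith
    rw [Real.sqrt_mul ha.le, ← one_div_mul_one_div]
    have hA : 0 ≤ 1 / Real.sqrt (nn u : ℝ) := one_div_nonneg.2 (Real.sqrt_nonneg _)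
    have hB : 0 ≤ 1 / Real.sqrt (nn (nx Y u) : ℝ) := one_div_nonneg.2 (Real.sqrt_nonneg _)
    have hD : 0 ≤ 2 / Real.sqrt (Y : ℝ) := div_nonneg (by norm_num) (Real.sqrt_nonneg _)
    rcases nx_large hu with h | h
    · have h1 := aux _ h
      calc 1 / Real.sqrt (nn u : ℝ) * (1 / Real.sqrt (nn (nx Y u) : ℝ)) ≤
            2 / Real.sqrt Y * (1 / Real.sqrt (nn (nx Y u) : ℝ)) :=
              mul_le_mul_of_nonneg_right h1 hB
        _ ≤ _ := by
              apply mul_le_mul_of_nonneg_left _ hD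
              linarith
    · have h1 := aux _ h
      calc 1 / Real.sqrt (nn u : ℝ) * (1 / Real.sqrt (nn (nx Y u) : ℝ)) ≤
            1 / Real.sqrt (nn u : ℝ) * (2 / Real.sqrt Y) :=
              mul_le_mul_of_nonneg_left h1 hA
        _ = 2 / Real.sqrt Y * (1 / Real.sqrt (nn u : ℝ)) := by ring
        _ ≤ _ := by
              apply mul_le_mul_of_nonneg_left _ hD
              linarith
  have h1 := Finset.sum_le_sum key
  refine h1.trans ?_
  rw [← Finset.mul_sum, Finset.sum_add_distrib]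
  have h2 : ∑ u ∈ PN Y, 1 / Real.sqrt (nn (nx Y u) : ℝ) =
      ∑ u ∈ PN Y, 1 / Real.sqrt (nn u : ℝ) := by
    have := sum_it Y 1 (fun u => 1 / Real.sqrt (nn u : ℝ))
    simpa [it_succ, it_zero] using this
  rw [h2]
  have h3 := hr Y hY
  calc 2 / Real.sqrt Y * (∑ u ∈ PN Y, 1 / Real.sqrt (nn u : ℝ) +
        ∑ u ∈ PN Y, 1 / Real.sqrt (nn u : ℝ)) ≤ 2 / Real.sqrt Y * (2 * (C * Real.sqrt Y)) := by
          apply mul_le_mul_of_nonneg_left _ (by positivity)
          linarith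
    _ = 4 * C := by field_simp; ring

open Classical in
theorem nontame_count_pr : ∃ C : ℝ, 1 ≤ C ∧ ∀ B N M L Y : ℕ, 1 ≤ M → 1 ≤ Y →
    (((PN Y).filter (fun u => ¬ Tm B N M L Y u)).card : ℝ) ≤ C * Y / M := by
  obtain ⟨C, hC, hs⟩ := sine_total_pr
  refine ⟨C, hC, fun B N M L Y hM hY => ?_⟩
  have hM0 : (0 : ℝ) < M := by exact_mod_cast hM
  have hY0 : (0 : ℝ) < Y := by exact_mod_cast hY
  set f : G → ℝ := fun u => 1 / Real.sqrt ((nn u : ℝ) * (nn (nx Y u) : ℝ)) with hf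
  have hf0 : ∀ u, 0 ≤ f u := fun u => one_div_nonneg.2 (Real.sqrt_nonneg _)
  rcases Nat.eq_zero_or_pos L with hL | hL
  · have he : (PN Y).filter (fun u => ¬ Tm B N M L Y u) = ∅ := by
      apply Finset.filter_eq_empty_iff.2
      intro u _ h
      apply h
      intro i j _ hj
      omega
    rw [he]
    simp only [Finset.card_empty, Nat.cast_zero]
    positivity
  have hL0 : (0 : ℝ) < L := by exact_mod_cast hL
  have key : ∀ u ∈ (PN Y).filter (fun u => ¬ Tm B N M L Y u),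
      (M : ℝ) * L ≤ Y * ∑ l ∈ Finset.range L, f (it Y l u) := by
    intro u hu
    obtain ⟨hu1, hu2⟩ := Finset.mem_filter.1 hu
    unfold Tm at hu2
    push Not at hu2
    obtain ⟨i, j, hij, hj, _, _, hd⟩ := hu2
    have h1 := sin_sum hu1 i j hij.le
    have h2 : ((M : ℝ) * L) ≤ |(det (it Y i u) (it Y j u) : ℝ)| := by
      have : (((M * L : ℕ) : ℤ) : ℝ) ≤ ((det (it Y i u) (it Y j u) : ℤ) : ℝ) := by
        exact_mod_cast hd.le
      push_cast at this
      exact this.trans (le_abs_self _)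
    have h3 : ∑ l ∈ Finset.Ico i j,
        1 / Real.sqrt ((nn (it Y l u) : ℝ) * (nn (it Y (l + 1) u) : ℝ)) ≤
        ∑ l ∈ Finset.range L, f (it Y l u) := by
      have h4 : ∑ l ∈ Finset.Ico i j,
          1 / Real.sqrt ((nn (it Y l u) : ℝ) * (nn (it Y (l + 1) u) : ℝ)) =
          ∑ l ∈ Finset.Ico i j, f (it Y l u) := by
        apply Finset.sum_congr rfl
        intro l _
        rw [hf, it_succ]
      rw [h4]
      apply Finset.sum_le_sum_of_subset_of_nonneg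
      · intro l hl
        rw [Finset.mem_Ico] at hl
        rw [Finset.mem_range]
        omega
      · intro l _ _
        exact hf0 _
    have h5 : Real.sqrt ((nn (it Y i u) : ℝ) * (nn (it Y j u) : ℝ)) ≤ Y := by
      rw [show (Y : ℝ) = Real.sqrt (Y * Y) by rw [Real.sqrt_mul_self hY0.le]]
      apply Real.sqrt_le_sqrt
      have ha : (nn (it Y i u) : ℝ) ≤ Y := by
        exact_mod_cast (mem_PN.1 (it_mem hu1 i)).2
      have hb : (nn (it Y j u) : ℝ) ≤ Y := by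
        exact_mod_cast (mem_PN.1 (it_mem hu1 j)).2
      have hc : (0 : ℝ) ≤ (nn (it Y j u) : ℝ) := Nat.cast_nonneg _
      calc _ ≤ (Y : ℝ) * (nn (it Y j u) : ℝ) := mul_le_mul_of_nonneg_right ha hc
        _ ≤ _ := mul_le_mul_of_nonneg_left hb hY0.le
    have h6 : 0 ≤ ∑ l ∈ Finset.Ico i j,
        1 / Real.sqrt ((nn (it Y l u) : ℝ) * (nn (it Y (l + 1) u) : ℝ)) :=
      Finset.sum_nonneg (fun l _ => one_div_nonneg.2 (Real.sqrt_nonneg _))
    calc (M : ℝ) * L ≤ _ := h2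
      _ ≤ _ := h1
      _ ≤ (Y : ℝ) * ∑ l ∈ Finset.Ico i j,
        1 / Real.sqrt ((nn (it Y l u) : ℝ) * (nn (it Y (l + 1) u) : ℝ)) :=
          mul_le_mul_of_nonneg_right h5 h6
      _ ≤ _ := mul_le_mul_of_nonneg_left h3 hY0.le
  have h1 := Finset.sum_le_sum key
  rw [Finset.sum_const, nsmul_eq_mul] at h1
  have h2 : ∑ u ∈ (PN Y).filter (fun u => ¬ Tm B N M L Y u),
      (Y : ℝ) * ∑ l ∈ Finset.range L, f (it Y l u) ≤ Y * (L * C) := by
    rw [← Finset.mul_sum]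
    apply mul_le_mul_of_nonneg_left _ hY0.le
    calc ∑ u ∈ (PN Y).filter (fun u => ¬ Tm B N M L Y u), ∑ l ∈ Finset.range L, f (it Y l u) ≤
          ∑ u ∈ PN Y, ∑ l ∈ Finset.range L, f (it Y l u) := by
            apply Finset.sum_le_sum_of_subset_of_nonneg (Finset.filter_subset _ _)
            intro u _ _
            exact Finset.sum_nonneg (fun l _ => hf0 _)
      _ = ∑ l ∈ Finset.range L, ∑ u ∈ PN Y, f (it Y l u) := Finset.sum_comm
      _ = ∑ l ∈ Finset.range L, ∑ u ∈ PN Y, f u := by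
            apply Finset.sum_congr rfl
            intro l _
            exact sum_it Y l f
      _ ≤ ∑ l ∈ Finset.range L, C := Finset.sum_le_sum (fun l _ => hs Y hY)
      _ = L * C := by simp
  have h3 := h1.trans h2
  rw [le_div_iff₀ hM0]
  have h4 : (((PN Y).filter (fun u => ¬ Tm B N M L Y u)).card : ℝ) * M * L ≤ C * Y * L := by
    nlinarith
  exact le_of_mul_le_mul_right h4 hL0

end Pool.Agent.T2


namespace Pool.Agent.T2

theorem sine_total : type_of% @sine_total_pr := @sine_total_pr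
theorem nontame_count : type_of% @nontame_count_pr := @nontame_count_pr

end Pool.Agent.T2
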