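import Pool.Agent.Lib_helper39.TA.Defs
import Pool.Agent.Lib_helper10.T2F.AIT
import Pool.Agent.Lib_helper10.T2F.ANX
import Pool.Agent.Lib_helper10.T2F.AWI
import Pool.Agent.Lib_helper10.T2F.BAS

/-! T2, block APK: packing_pr -/

namespace Pool.Agent.T2

open Filter Topology

/-- the lower bound for the norm from the cell -/
theorem apk_cell {B N Y : ℕ} (hN : 1 ≤ N) {z : G} (h : N ≤ B * ce N Y z) : Y ≤ B * nn z := by
  have h1 : ce N Y z * Y ≤ N * nn z := Nat.div_mul_le_self _ _
  have h2 : N * Y ≤ N * (B * nn z) := by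
    calc N * Y ≤ (B * ce N Y z) * Y := Nat.mul_le_mul_right _ h
      _ = B * (ce N Y z * Y) := by ring
      _ ≤ B * (N * nn z) := Nat.mul_le_mul_left _ h1
      _ = N * (B * nn z) := by ring
  exact Nat.le_of_mul_le_mul_left h2 hN

theorem apk_ident (z v w : G) : det z w * ip z v - det z v * ip z w = (nn z : ℤ) * det v w := by
  rw [nn_cast]
  simp only [det, ip]
  ring

theorem apk_self (z : G) : det z z = 0 ∧ ip z z = (nn z : ℤ) := by
  rw [nn_cast]
  constructor
  · simp only [det]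
    ring
  · simp only [ip]
    ring

theorem packing_pr {B N M L Y p : ℕ} {u : G} (hB : 1 ≤ B) (hN : 1 ≤ N) (hp : 1 ≤ p)
    (hL : 16 * (L + 1) ^ 2 ≤ Y) (hu : u ∈ PN Y) (hT : Tm B N M L Y u) (S : Finset ℕ)
    (hS : ∀ i ∈ S, i < L ∧ N ≤ B * ce N Y (it Y i u))
    (hd : ∀ i ∈ S, ∀ j ∈ S, (p : ℤ) ∣ det (it Y i u) (it Y j u)) :
    (S.card : ℝ) ≤ 1 + 2 * B * M * L / p := by
  classical
  rcases S.eq_empty_or_nonempty with rfl | hne
  · rw [Finset.card_empty, Nat.cast_zero]
    positivity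
  have hpR : (0 : ℝ) < p := by exact_mod_cast hp
  have hYn : 0 < Y := lt_of_lt_of_le (by positivity) hL
  have hY : (0 : ℝ) < Y := by exact_mod_cast hYn
  have hBR : (1 : ℝ) ≤ B := by exact_mod_cast hB
  set i₀ := S.min' hne with hi₀
  have hi₀S : i₀ ∈ S := S.min'_mem hne
  set z := it Y i₀ u with hz
  have hzP : z ∈ PN Y := it_mem hu _
  have hzn : (0 : ℝ) < nn z := by
    have : 0 < nn z := nn_pos.2 (prm_ne (mem_PN.1 hzP).1)
    exact_mod_cast this
  -- basic facts
  have hnY : ∀ i, (nn (it Y i u) : ℝ) ≤ Y := fun i => by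
    exact_mod_cast (mem_PN.1 (it_mem hu i)).2
  have hnB : ∀ i ∈ S, (Y : ℝ) ≤ B * nn (it Y i u) := fun i hi => by
    exact_mod_cast apk_cell hN (hS i hi).2
  have hsq : ∀ i : ℕ, (nn z : ℝ) * nn (it Y i u) = (ip z (it Y i u) : ℝ) ^ 2 +
      (det z (it Y i u) : ℝ) ^ 2 := fun i => by
    have := ip_sq_add z (it Y i u)
    exact_mod_cast this
  -- the inner product is large
  have hip : ∀ i ∈ S, (Y : ℝ) ≤ 2 * B * (ip z (it Y i u) : ℝ) := by
    intro i hi
    rcases (S.min'_le i hi).eq_or_lt with h | h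
    · have e : it Y i u = z := by rw [hz, ← h]
      rw [e, (apk_self z).2]
      have h1 := hnB i₀ hi₀S
      rw [← hz] at h1
      push_cast
      nlinarith
    · obtain ⟨h1, h2, h3⟩ := nx_window hu L hL i₀ i h (hS i hi).1.le
      rw [← hz] at h1 h2 h3
      have h2' : (0 : ℝ) < ip z (it Y i u) := by exact_mod_cast h2
      have h3' : 4 * (det z (it Y i u) : ℝ) ^ 2 ≤ (nn z : ℝ) * nn (it Y i u) := by
        exact_mod_cast h3
      have h4 := hsq i
      have h5 := hnB i hi
      have h6 := hnB i₀ hi₀S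
      rw [← hz] at h6
      have h7 : (Y : ℝ) ^ 2 ≤ (B : ℝ) ^ 2 * ((nn z : ℝ) * nn (it Y i u)) := by
        have := mul_le_mul h6 h5 hY.le (by positivity)
        nlinarith
      have h8 : (Y : ℝ) ^ 2 ≤ (2 * B * (ip z (it Y i u) : ℝ)) ^ 2 := by
        have h9 : (nn z : ℝ) * nn (it Y i u) ≤ 4 * (ip z (it Y i u) : ℝ) ^ 2 := by
          linarith [sq_nonneg (ip z (it Y i u) : ℝ)]
        calc (Y : ℝ) ^ 2 ≤ (B : ℝ) ^ 2 * ((nn z : ℝ) * nn (it Y i u)) := h7
          _ ≤ (B : ℝ) ^ 2 * (4 * (ip z (it Y i u) : ℝ) ^ 2) :=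
            mul_le_mul_of_nonneg_left h9 (by positivity)
          _ = _ := by ring
      exact (pow_le_pow_iff_left₀ hY.le (by positivity) two_ne_zero).1 h8
  have hipp : ∀ i ∈ S, (0 : ℝ) < ip z (it Y i u) := by
    intro i hi
    have h1 := hip i hi
    by_contra h2
    push Not at h2
    have : 2 * (B : ℝ) * (ip z (it Y i u) : ℝ) ≤ 0 :=
      mul_nonpos_of_nonneg_of_nonpos (by positivity) h2
    linarith
  let s : ℕ → ℝ := fun i => (det z (it Y i u) : ℝ) / (ip z (it Y i u) : ℝ)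
  -- the slopes are in a short interval
  have hs0 : ∀ i ∈ S, 0 ≤ s i ∧ s i ≤ 2 * B * M * L / Y := by
    intro i hi
    rcases (S.min'_le i hi).eq_or_lt with h | h
    · have e : it Y i u = z := by rw [hz, ← h]
      show 0 ≤ (det z (it Y i u) : ℝ) / _ ∧ (det z (it Y i u) : ℝ) / _ ≤ _
      rw [e, (apk_self z).1]
      simp only [Int.cast_zero, zero_div]
      exact ⟨le_rfl, by positivity⟩
    · have h1 := (nx_window hu L hL i₀ i h (hS i hi).1.le).1
      rw [← hz] at h1
      have h1' : (0 : ℝ) < det z (it Y i u) := by exact_mod_cast h1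
      have h2 := hT i₀ i h (hS i hi).1 (hS i₀ hi₀S).2 (hS i hi).2
      rw [← hz] at h2
      have h2' : (det z (it Y i u) : ℝ) ≤ M * L := by exact_mod_cast h2
      refine ⟨(div_pos h1' (hipp i hi)).le, ?_⟩
      show (det z (it Y i u) : ℝ) / (ip z (it Y i u) : ℝ) ≤ _
      rw [div_le_div_iff₀ (hipp i hi) hY]
      calc (det z (it Y i u) : ℝ) * Y ≤ (M * L) * (2 * B * (ip z (it Y i u) : ℝ)) :=
          mul_le_mul h2' (hip i hi) hY.le (by positivity)
        _ = _ := by ring
  -- the slopes are well spaced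
  have hgap : ∀ i ∈ S, ∀ j ∈ S, i < j → s i + p / Y ≤ s j := by
    intro i hi j hj hij
    have hw := (nx_window hu L hL i j hij (hS j hj).1.le).1
    have hdiv := hd i hi j hj
    have h1 : (p : ℤ) ≤ det (it Y i u) (it Y j u) := Int.le_of_dvd hw hdiv
    have h1' : (p : ℝ) ≤ det (it Y i u) (it Y j u) := by exact_mod_cast h1
    have h2 : (det z (it Y j u) : ℝ) * ip z (it Y i u) - det z (it Y i u) * ip z (it Y j u) =
        (nn z : ℝ) * det (it Y i u) (it Y j u) := by
      have := apk_ident z (it Y i u) (it Y j u)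
      exact_mod_cast this
    have hi' := hipp i hi
    have hj' := hipp j hj
    have e : s j - s i = (nn z : ℝ) * det (it Y i u) (it Y j u) /
        ((ip z (it Y i u) : ℝ) * ip z (it Y j u)) := by
      show (det z (it Y j u) : ℝ) / (ip z (it Y j u) : ℝ) -
        (det z (it Y i u) : ℝ) / (ip z (it Y i u) : ℝ) = _
      rw [← h2]
      field_simp
    have h3 : (ip z (it Y i u) : ℝ) ^ 2 ≤ nn z * Y := by
      have := hsq i
      have h4 := mul_le_mul_of_nonneg_left (hnY i) hzn.le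
      nlinarith [sq_nonneg (det z (it Y i u) : ℝ)]
    have h3' : (ip z (it Y j u) : ℝ) ^ 2 ≤ nn z * Y := by
      have := hsq j
      have h4 := mul_le_mul_of_nonneg_left (hnY j) hzn.le
      nlinarith [sq_nonneg (det z (it Y j u) : ℝ)]
    have h5 : (ip z (it Y i u) : ℝ) * ip z (it Y j u) ≤ nn z * Y := by
      nlinarith [sq_nonneg ((ip z (it Y i u) : ℝ) - ip z (it Y j u))]
    have h6 : (p : ℝ) / Y ≤ s j - s i := by
      rw [e, div_le_div_iff₀ hY (mul_pos hi' hj')]
      calc (p : ℝ) * ((ip z (it Y i u) : ℝ) * ip z (it Y j u)) ≤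
          (det (it Y i u) (it Y j u) : ℝ) * (nn z * Y) :=
            mul_le_mul h1' h5 (mul_pos hi' hj').le (by linarith)
        _ = _ := by ring
    linarith
  -- the counting
  let f : ℕ → ℕ := fun i => ⌊s i * Y / p⌋₊
  have hmaps : ∀ i ∈ S, f i ∈ Finset.range (⌊2 * (B : ℝ) * M * L / p⌋₊ + 1) := by
    intro i hi
    rw [Finset.mem_range, Nat.lt_succ_iff]
    refine Nat.floor_le_floor ?_
    have h1 := (hs0 i hi).2
    have h2 : s i * Y ≤ 2 * B * M * L := by
      rw [le_div_iff₀ hY] at h1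
      exact h1
    exact div_le_div_of_nonneg_right h2 hpR.le
  have hlt : ∀ i ∈ S, ∀ j ∈ S, i < j → f i < f j := by
    intro i hi j hj hij
    have h1 := hgap i hi j hj hij
    have h2 : s i * Y / p + 1 ≤ s j * Y / p := by
      rw [div_add_one hpR.ne']
      refine div_le_div_of_nonneg_right ?_ hpR.le
      have h3 := mul_le_mul_of_nonneg_right h1 hY.le
      rw [add_mul, div_mul_cancel₀ _ hY.ne'] at h3
      exact h3
    show ⌊s i * Y / p⌋₊ < ⌊s j * Y / p⌋₊
    have h3 : 0 ≤ s i * Y / p := by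
      have := (hs0 i hi).1
      positivity
    rw [← Nat.succ_le_iff, ← Nat.add_one, ← Nat.floor_add_one h3]
    exact Nat.floor_le_floor h2
  have hinj : Set.InjOn f S := by
    intro i hi j hj h
    rcases lt_trichotomy i j with h1 | h1 | h1
    · exact absurd h (hlt i hi j hj h1).ne
    · exact h1
    · exact absurd h (hlt j hj i hi h1).ne'
  have hc := Finset.card_le_card_of_injOn f hmaps hinj
  rw [Finset.card_range] at hc
  have hc' : (S.card : ℝ) ≤ (⌊2 * (B : ℝ) * M * L / p⌋₊ : ℝ) + 1 := by exact_mod_cast hc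
  have hfl : (⌊2 * (B : ℝ) * M * L / p⌋₊ : ℝ) ≤ 2 * B * M * L / p := Nat.floor_le (by positivity)
  linarith

end Pool.Agent.T2


namespace Pool.Agent.T2

theorem packing : type_of% @packing_pr := @packing_pr

end Pool.Agent.T2
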