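import Pool.Agent.Lib_helper39.TA.Defs
import Pool.Agent.Lib_helper10.T2F.AFH
import Pool.Agent.Lib_helper10.T2F.AFR
import Pool.Agent.Lib_helper10.T2F.AIT
import Pool.Agent.Lib_helper10.T2F.ANX
import Pool.Agent.Lib_helper10.T2F.APK
import Pool.Agent.Lib_helper10.T2F.BAS

/-!
# T2, package A, block APH: the observable is bounded and has mean zero
-/

namespace Pool.Agent.T2

open Filter Topology

theorem aph_det_lin (a b c d : ℤ) (u w : G) :
    det ((a : G) * u + (b : G) * w) ((c : G) * u + (d : G) * w) = (a * d - b * c) * det u w := by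
  unfold det
  simp only [Zsqrtd.re_add, Zsqrtd.im_add, Zsqrtd.re_mul, Zsqrtd.im_mul, Zsqrtd.re_intCast,
    Zsqrtd.im_intCast]
  ring

theorem aph_det {Y : ℕ} {u : G} (hu : u ∈ PN Y) (z z' : G) :
    det z z' = det z (nx Y u) * det u z' - det u z * det z' (nx Y u) := by
  conv_lhs => rw [det_decomp hu z, det_decomp hu z']
  rw [aph_det_lin, nx_det hu]
  ring

theorem aph_coprime {Y : ℕ} {u z : G} (hu : u ∈ PN Y) (hz : z ∈ PN Y) :
    IsCoprime (det z (nx Y u)) (det u z) := by
  rw [Int.isCoprime_iff_gcd_eq_one]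
  have h1 := (mem_PN.1 hz).1
  refine (prm_iff.1 h1) _ ?_
  obtain ⟨a, ha⟩ := Int.gcd_dvd_left (a := det z (nx Y u)) (b := det u z)
  obtain ⟨b, hb⟩ := Int.gcd_dvd_right (a := det z (nx Y u)) (b := det u z)
  have h2 := det_decomp hu z
  refine ⟨(a : G) * u + (b : G) * nx Y u, ?_⟩
  have ha' : ((det z (nx Y u) : ℤ) : G) =
      ((Int.gcd (det z (nx Y u)) (det u z) : ℕ) : G) * (a : G) := by
    conv_lhs => rw [ha]
    push_cast
    ring
  have hb' : ((det u z : ℤ) : G) =
      ((Int.gcd (det z (nx Y u)) (det u z) : ℕ) : G) * (b : G) := by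
    conv_lhs => rw [hb]
    push_cast
    ring
  conv_lhs => rw [h2, ha', hb']
  ring

theorem Ph_zero_pr (α β : ℝ) {B N M L Y p : ℕ} {u : G} (hp : p.Prime) (hu : u ∈ PN Y) :
    ∑ t ∈ Ep p, Ph α β B N M L Y p u t = 0 := by
  classical
  unfold Ph
  by_cases hT : Tm B N M L Y u
  · simp only [hT, if_true]
    rw [← Finset.mul_sum, Finset.sum_comm]
    have h : ∀ a ∈ Finset.range (L / 2), ∑ t ∈ Ep p, FH α β B N L Y p (it Y a u) *
      ((if (p : ℤ) ∣ det (it Y a u) (nx Y u) * t.1 + det u (it Y a u) * t.2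
        then (p : ℝ) + 1 else 0) - 1) = 0 := by
      intro a _
      rw [← Finset.mul_sum, Finset.sum_sub_distrib, ← Finset.sum_filter, Finset.sum_const,
        Finset.sum_const]
      have hc := aph_coprime hu (it_mem hu a)
      obtain ⟨h1, h2⟩ := Ep_count hp _ _ hc
      have h2' : ((Ep p).filter (fun t : ℤ × ℤ => (p : ℤ) ∣ det (it Y a u) (nx Y u) * t.1 +
          det u (it Y a u) * t.2)).card = p - 1 := by
        convert h2
      rw [h1, h2']
      have hp1 : 1 ≤ p := hp.one_lt.le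
      have hp2 : 1 ≤ p ^ 2 := Nat.one_le_pow _ _ hp1
      rw [nsmul_eq_mul, nsmul_eq_mul, Nat.cast_sub hp1, Nat.cast_sub hp2]
      push_cast
      ring
    rw [Finset.sum_eq_zero h, mul_zero]
  · simp only [hT, if_false, Finset.sum_const_zero]

open Classical in
theorem Ph_value_pr (α β : ℝ) {B N M L Y : ℕ} {Q : Finset ℕ} (hQ : Pset Q) {u : G}
    (hu : u ∈ PN Y) (p : Q) : Ph α β B N M L Y (p : ℕ) u (fr Q Y u p) =
      if Tm B N M L Y u then (1 / ((L / 2 : ℕ) : ℝ)) * ∑ a ∈ Finset.range (L / 2),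
        FH α β B N L Y (p : ℕ) (it Y a u) * th (p : ℕ) (it Y a u) else 0 := by
  unfold Ph th
  simp only [fr_div hQ hu p]

theorem Ph_le_pr (α β : ℝ) {B N M L Y p : ℕ} {u : G} (hB : 1 ≤ B) (hN : 1 ≤ N) (hM : 1 ≤ M)
    (hL2 : 2 ≤ L) (hp : p.Prime) (hpL : p ≤ L) (hL : 16 * (L + 1) ^ 2 ≤ Y) (hu : u ∈ PN Y)
    {t : ℤ × ℤ} (ht : t ∈ Ep p) : |Ph α β B N M L Y p u t| ≤ 100 * (B : ℝ) ^ 4 * M := by
  classical
  have hB1 : (1 : ℝ) ≤ B := by exact_mod_cast hB
  have hM1 : (1 : ℝ) ≤ M := by exact_mod_cast hM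
  unfold Ph
  by_cases hT : Tm B N M L Y u
  · rw [if_pos hT]
    set H : ℕ := L / 2 with hH
    have hH1 : 1 ≤ H := by omega
    have hLH : L ≤ 3 * H := by omega
    have hHr : (1 : ℝ) ≤ H := by exact_mod_cast hH1
    have hLr : (L : ℝ) ≤ 3 * H := by exact_mod_cast hLH
    have hpr : (p : ℝ) ≤ 3 * H := le_trans (by exact_mod_cast hpL) hLr
    have hp0 : (0 : ℝ) < p := by exact_mod_cast hp.pos
    have hp1 : (1 : ℝ) ≤ p := by exact_mod_cast hp.one_lt.le
    set D : ℕ → Prop := fun a => (p : ℤ) ∣ det (it Y a u) (nx Y u) * t.1 +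
      det u (it Y a u) * t.2 with hD
    set S : Finset ℕ := (Finset.range H).filter
      (fun a => D a ∧ FH α β B N L Y p (it Y a u) ≠ 0) with hS
    have hpack := packing hB hN hp.one_lt.le hL hu hT S
      (by
        intro i hi
        rw [hS, Finset.mem_filter, Finset.mem_range] at hi
        exact ⟨by omega, FH_ne α β hi.2.2⟩)
      (by
        intro i hi j hj
        rw [hS, Finset.mem_filter, Finset.mem_range] at hi hj
        rw [aph_det hu]
        exact Ep_pair hp ht hi.2.1 hj.2.1)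
    have hterm : ∀ a ∈ Finset.range H, |FH α β B N L Y p (it Y a u) *
        ((if D a then (p : ℝ) + 1 else 0) - 1)| ≤
        2 * (B : ℝ) ^ 3 + if (D a ∧ FH α β B N L Y p (it Y a u) ≠ 0) then 2 * (B : ℝ) ^ 3 * p
          else 0 := by
      intro a ha
      have h1 := FH_le α β (p := p) hB hN hL (it_mem hu a)
      have h0 : (0 : ℝ) ≤ 2 * (B : ℝ) ^ 3 := by positivity
      rw [abs_mul]
      by_cases hDa : D a
      · by_cases hF : FH α β B N L Y p (it Y a u) = 0
        · rw [hF]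
          simp only [abs_zero, zero_mul, ne_eq, not_true_eq_false, and_false, if_false, add_zero]
          exact h0
        · rw [if_pos hDa, if_pos ⟨hDa, hF⟩]
          have h2 : |(p : ℝ) + 1 - 1| = p := by
            rw [add_sub_cancel_right, abs_of_pos hp0]
          rw [h2]
          have h3 := mul_le_mul_of_nonneg_right h1 hp0.le
          linarith
      · rw [if_neg hDa, if_neg (fun h => hDa h.1)]
        have h2 : |(0 : ℝ) - 1| = 1 := by norm_num
        rw [h2, mul_one, add_zero]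
        exact h1
    have hsum : |∑ a ∈ Finset.range H, FH α β B N L Y p (it Y a u) *
        ((if D a then (p : ℝ) + 1 else 0) - 1)| ≤
        H * (2 * (B : ℝ) ^ 3) + S.card * (2 * (B : ℝ) ^ 3 * p) := by
      refine (Finset.abs_sum_le_sum_abs _ _).trans ((Finset.sum_le_sum hterm).trans ?_)
      rw [Finset.sum_add_distrib, ← Finset.sum_filter, Finset.sum_const, Finset.sum_const,
        Finset.card_range, nsmul_eq_mul, nsmul_eq_mul]
    have hSp : (S.card : ℝ) * p ≤ p + 2 * B * M * L := by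
      have h3 := mul_le_mul_of_nonneg_right hpack hp0.le
      refine h3.trans (le_of_eq ?_)
      field_simp
    have hfin : H * (2 * (B : ℝ) ^ 3) + S.card * (2 * (B : ℝ) ^ 3 * p) ≤
        100 * (B : ℝ) ^ 4 * M * H := by
      have h4 : S.card * (2 * (B : ℝ) ^ 3 * p) = 2 * (B : ℝ) ^ 3 * (S.card * p) := by ring
      rw [h4]
      have h5 : 2 * (B : ℝ) ^ 3 * (S.card * p) ≤ 2 * (B : ℝ) ^ 3 * (3 * H + 2 * B * M * (3 * H)) := by
        apply mul_le_mul_of_nonneg_left _ (by positivity)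
        have h6 : 2 * (B : ℝ) * M * L ≤ 2 * B * M * (3 * H) :=
          mul_le_mul_of_nonneg_left hLr (by positivity)
        linarith
      have h7 : (1 : ℝ) ≤ B * M := by nlinarith
      have h8 : 0 ≤ (B : ℝ) ^ 3 * H := by positivity
      have h9 : (B : ℝ) ^ 3 * H ≤ (B : ℝ) ^ 3 * H * (B * M) := by nlinarith
      nlinarith
    rw [abs_mul, abs_of_nonneg (by positivity)]
    have h10 : (1 / (H : ℝ)) * |∑ a ∈ Finset.range H, FH α β B N L Y p (it Y a u) *
        ((if D a then (p : ℝ) + 1 else 0) - 1)| ≤ (1 / (H : ℝ)) * (100 * (B : ℝ) ^ 4 * M * H) :=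
      mul_le_mul_of_nonneg_left (hsum.trans hfin) (by positivity)
    refine h10.trans (le_of_eq ?_)
    field_simp
  · rw [if_neg hT, abs_zero]
    positivity

end Pool.Agent.T2


namespace Pool.Agent.T2

theorem Ph_le : type_of% @Ph_le_pr := @Ph_le_pr
theorem Ph_zero : type_of% @Ph_zero_pr := @Ph_zero_pr
theorem Ph_value : type_of% @Ph_value_pr := @Ph_value_pr

end Pool.Agent.T2
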