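import Pool.Agent.Lib_helper39.TA.Defs
import Pool.Agent.Lib_helper10.T2F.AIT
import Pool.Agent.Lib_helper10.T2F.ANX
import Pool.Agent.Lib_helper10.T2F.BAS

/-! T2, package A, block APU: near a good point the word is constant. -/

namespace Pool.Agent.T2

open Filter Topology

/-- the coefficients of the recurrence -/
def apu_c (k : ℕ → ℤ) (a b : ℤ) : ℕ → ℤ
  | 0 => a
  | 1 => b
  | (n + 2) => k n * apu_c k a b (n + 1) - apu_c k a b n

theorem apu_c_bd (k : ℕ → ℤ) (a b : ℤ) (ha : |a| ≤ 1) (hb : |b| ≤ 1) (D m : ℕ)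
    (hk : ∀ i, i ≤ m → |k i| ≤ (D : ℤ)) (i : ℕ) :
    (i ≤ m + 2 → |apu_c k a b i| ≤ ((D : ℤ) + 1) ^ i) ∧
    (i + 1 ≤ m + 2 → |apu_c k a b (i + 1)| ≤ ((D : ℤ) + 1) ^ (i + 1)) := by
  have hD : (1 : ℤ) ≤ (D : ℤ) + 1 := by
    have : (0 : ℤ) ≤ (D : ℤ) := Int.natCast_nonneg D
    linarith
  induction i with
  | zero =>
    refine ⟨fun _ => by simpa [apu_c] using ha, fun _ => ?_⟩
    simp only [apu_c, zero_add, pow_one]
    linarith
  | succ i ih =>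
    refine ⟨ih.2, ?_⟩
    intro h
    have h1 := ih.1 (by omega)
    have h2 := ih.2 (by omega)
    have h3 := hk i (by omega)
    have h4 : |k i * apu_c k a b (i + 1) - apu_c k a b i| ≤
        |k i| * |apu_c k a b (i + 1)| + |apu_c k a b i| := by
      rw [← abs_mul]
      exact abs_sub _ _
    show |k i * apu_c k a b (i + 1) - apu_c k a b i| ≤ _
    have h5 : |k i| * |apu_c k a b (i + 1)| ≤ (D : ℤ) * ((D : ℤ) + 1) ^ (i + 1) :=
      mul_le_mul h3 h2 (abs_nonneg _) (Int.natCast_nonneg D)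
    have h6 : ((D : ℤ) + 1) ^ i ≤ ((D : ℤ) + 1) ^ (i + 1) := pow_le_pow_right₀ hD (Nat.le_succ i)
    have h7 : ((D : ℤ) + 1) ^ (i + 1 + 1) = (D : ℤ) * ((D : ℤ) + 1) ^ (i + 1) +
      ((D : ℤ) + 1) ^ (i + 1) := by ring
    rw [h7]
    linarith

theorem apu_it {Y : ℕ} {u : G} (hu : u ∈ PN Y) (i : ℕ) :
    (it Y i u = ((apu_c (fun j => kk Y (it Y j u)) 1 0 i : ℤ) : G) * u +
      ((apu_c (fun j => kk Y (it Y j u)) 0 1 i : ℤ) : G) * nx Y u) ∧
    (it Y (i + 1) u = ((apu_c (fun j => kk Y (it Y j u)) 1 0 (i + 1) : ℤ) : G) * u +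
      ((apu_c (fun j => kk Y (it Y j u)) 0 1 (i + 1) : ℤ) : G) * nx Y u) := by
  induction i with
  | zero =>
    constructor
    · rw [it_zero]
      simp [apu_c]
    · rw [it_succ, it_zero]
      simp [apu_c]
  | succ i ih =>
    refine ⟨ih.2, ?_⟩
    have h1 : it Y (i + 1 + 1) u = (kk Y (it Y i u) : G) * it Y (i + 1) u - it Y i u := by
      rw [it_succ Y (i + 1), it_succ Y i]
      exact nx_rec (it_mem hu i)
    rw [h1]
    simp only [apu_c]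
    push_cast
    linear_combination ((kk Y (it Y i u) : ℤ) : G) * ih.2 - ih.1

theorem apu_det (A B A' B' : ℤ) (u w : G) :
    det ((A : G) * u + (B : G) * w) ((A' : G) * u + (B' : G) * w) = (A * B' - B * A') * det u w := by
  simp [det]
  ring

theorem apu_nn (A B : ℤ) (u w : G) (h : det u w = 1) (hu : 0 < nn u) :
    (nn ((A : G) * u + (B : G) * w) : ℝ) =
      (nn u : ℝ) * ((A : ℝ) + B * ((ip u w : ℝ) / (nn u : ℝ))) ^ 2 + (B : ℝ) ^ 2 / (nn u : ℝ) := by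
  have h1 : (nn ((A : G) * u + (B : G) * w) : ℤ) =
      A ^ 2 * nn u + 2 * A * B * ip u w + B ^ 2 * nn w := by
    rw [nn_cast, nn_cast, nn_cast]
    simp [ip]
    ring
  have h2 : (nn ((A : G) * u + (B : G) * w) : ℝ) =
      (A : ℝ) ^ 2 * nn u + 2 * A * B * ip u w + (B : ℝ) ^ 2 * nn w := by exact_mod_cast h1
  have h3 := ip_sq_add u w
  rw [h] at h3
  have h4 : (nn u : ℝ) * nn w = (ip u w : ℝ) ^ 2 + 1 := by exact_mod_cast h3
  have hu' : (0 : ℝ) < (nn u : ℝ) := by exact_mod_cast hu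
  rw [h2]
  field_simp
  linear_combination (B : ℝ) ^ 2 * h4

theorem apu_est (X M a0 x0 a' x' r A B : ℝ) (h0 : 0 ≤ a0) (h1 : a0 ≤ 1) (hX : |x0| ≤ X)
    (hX' : |x'| ≤ X + 1) (ha : |a' - a0| ≤ r) (hx : |x' - x0| ≤ r) (hA : |A| ≤ M) (hB : |B| ≤ M) :
    |a' * (A + B * x') ^ 2 - a0 * (A + B * x0) ^ 2| ≤
      r * (M ^ 2 * ((X + 2) ^ 2 + (2 * X + 3))) := by
  have hM : 0 ≤ M := (abs_nonneg A).trans hA
  have hr : 0 ≤ r := (abs_nonneg _).trans ha
  have hX0 : 0 ≤ X := (abs_nonneg _).trans hX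
  have e : a' * (A + B * x') ^ 2 - a0 * (A + B * x0) ^ 2 =
      (a' - a0) * (A + B * x') ^ 2 + a0 * (B * (x' - x0) * (2 * A + B * (x' + x0))) := by ring
  have b1 : |A + B * x'| ≤ M * (X + 2) := by
    calc |A + B * x'| ≤ |A| + |B| * |x'| := by rw [← abs_mul]; exact abs_add_le _ _
      _ ≤ M + M * (X + 1) := add_le_add hA (mul_le_mul hB hX' (abs_nonneg _) hM)
      _ = M * (X + 2) := by ring
  have b2 : |2 * A + B * (x' + x0)| ≤ M * (2 * X + 3) := by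
    calc |2 * A + B * (x' + x0)| ≤ 2 * |A| + |B| * (|x'| + |x0|) := by
          refine (abs_add_le _ _).trans (add_le_add (by rw [abs_mul]; norm_num) ?_)
          rw [abs_mul]
          exact mul_le_mul_of_nonneg_left (abs_add_le _ _) (abs_nonneg _)
      _ ≤ 2 * M + M * (X + 1 + X) := add_le_add (by linarith)
          (mul_le_mul hB (add_le_add hX' hX) (by positivity) hM)
      _ = M * (2 * X + 3) := by ring
  have b3 : |(a' - a0) * (A + B * x') ^ 2| ≤ r * (M * (X + 2)) ^ 2 := by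
    rw [abs_mul, abs_pow]
    exact mul_le_mul ha (pow_le_pow_left₀ (abs_nonneg _) b1 2) (by positivity) hr
  have b4 : |a0 * (B * (x' - x0) * (2 * A + B * (x' + x0)))| ≤
      1 * (M * r * (M * (2 * X + 3))) := by
    rw [abs_mul, abs_mul, abs_mul, abs_of_nonneg h0]
    exact mul_le_mul h1 (mul_le_mul (mul_le_mul hB hx (abs_nonneg _) hM) b2 (abs_nonneg _)
      (by positivity)) (by positivity) zero_le_one
  rw [e]
  calc _ ≤ _ := abs_add_le _ _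
    _ ≤ r * (M * (X + 2)) ^ 2 + 1 * (M * r * (M * (2 * X + 3))) := add_le_add b3 b4
    _ = _ := by ring

/-- the difference of the norms -/
theorem apu_diff (a X M η : ℝ) (ha : 0 < a) (hM : 1 ≤ M)
    (R Y : ℕ) (hR1 : 1 ≤ R)
    (hRa : 1 / (R : ℝ) ≤ a / 2)
    (hR : 1 / (R : ℝ) * (M ^ 2 * ((X + 2) ^ 2 + (2 * X + 3))) ≤ η / 2)
    (hY1 : 1 ≤ Y) (hY : 2 * M ^ 2 / (a * Y) ≤ η / 2) {u w u' w' : G} (h : det u w = 1)
    (h' : det u' w' = 1) (hua : a * (Y : ℝ) ≤ (nn u : ℝ)) (huY : nn u ≤ Y)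
    (hX : |(ip u w : ℝ) / (nn u : ℝ)| ≤ X)
    (h1 : |(nn u' : ℝ) / Y - (nn u : ℝ) / Y| ≤ 1 / R)
    (h2 : |(ip u' w' : ℝ) / (nn u' : ℝ) - (ip u w : ℝ) / (nn u : ℝ)| ≤ 1 / R)
    (A B : ℤ) (hA : |(A : ℝ)| ≤ M) (hB : |(B : ℝ)| ≤ M) :
    |(nn ((A : G) * u' + (B : G) * w') : ℝ) / Y - (nn ((A : G) * u + (B : G) * w) : ℝ) / Y| ≤ η := by
  have hYr : (1 : ℝ) ≤ (Y : ℝ) := by exact_mod_cast hY1
  have hRr : (1 : ℝ) ≤ (R : ℝ) := by exact_mod_cast hR1
  have hY0 : (0 : ℝ) < (Y : ℝ) := by linarith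
  have hR1' : 1 / (R : ℝ) ≤ 1 := by
    rw [div_le_one (by linarith)]; exact hRr
  have hu0 : (0 : ℝ) < (nn u : ℝ) := lt_of_lt_of_le (by positivity) hua
  have hu0' : 0 < nn u := by exact_mod_cast hu0
  have h3 : a / 2 ≤ (nn u' : ℝ) / Y := by
    have h4 := (abs_le.1 h1).1
    have h5 : a ≤ (nn u : ℝ) / Y := by rw [le_div_iff₀ hY0]; exact hua
    linarith
  have h3' : a / 2 * Y ≤ (nn u' : ℝ) := by rwa [le_div_iff₀ hY0] at h3
  have hv0 : (0 : ℝ) < (nn u' : ℝ) := lt_of_lt_of_le (by positivity) h3'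
  have hv0' : 0 < nn u' := by exact_mod_cast hv0
  rw [apu_nn A B u' w' h' hv0', apu_nn A B u w h hu0']
  set x' : ℝ := (ip u' w' : ℝ) / (nn u' : ℝ) with hx'
  set x0 : ℝ := (ip u w : ℝ) / (nn u : ℝ) with hx0
  have hX' : |x'| ≤ X + 1 := by
    have : x' = (x' - x0) + x0 := by ring
    rw [this]
    refine (abs_add_le _ _).trans ?_
    linarith
  have e1 := apu_est X M ((nn u : ℝ) / Y) x0 ((nn u' : ℝ) / Y) x' (1 / R) A B (by positivity)
    (by rw [div_le_one hY0]; exact_mod_cast huY) hX hX' h1 h2 hA hB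
  have hB2 : (B : ℝ) ^ 2 ≤ M ^ 2 := by
    rw [← sq_abs (B : ℝ)]
    exact pow_le_pow_left₀ (abs_nonneg _) hB 2
  have e2 : |(B : ℝ) ^ 2 / (nn u' : ℝ) / Y - (B : ℝ) ^ 2 / (nn u : ℝ) / Y| ≤
      2 * M ^ 2 / (a * Y) := by
    have f1 : 0 ≤ (B : ℝ) ^ 2 / (nn u' : ℝ) / Y := by positivity
    have f2 : 0 ≤ (B : ℝ) ^ 2 / (nn u : ℝ) / Y := by positivity
    have f3 : ∀ t : ℝ, 0 < t → a / 2 * Y ≤ t → (B : ℝ) ^ 2 / t / Y ≤ 2 * M ^ 2 / (a * Y) := by
      intro t ht ht2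
      rw [div_div]
      rw [div_le_div_iff₀ (by positivity) (by positivity)]
      have g1 : (B : ℝ) ^ 2 * (a * Y) ≤ M ^ 2 * (a * Y) :=
        mul_le_mul_of_nonneg_right hB2 (by positivity)
      have g2 : M ^ 2 * (a * Y) ≤ 2 * M ^ 2 * (t * Y) := by
        have g3 : a * Y ≤ 2 * (t * Y) := by
          have : a / 2 * Y * 1 ≤ t * Y := mul_le_mul ht2 hYr zero_le_one ht.le
          linarith
        calc M ^ 2 * (a * Y) ≤ M ^ 2 * (2 * (t * Y)) :=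
              mul_le_mul_of_nonneg_left g3 (by positivity)
          _ = _ := by ring
      linarith
    have f4 := f3 _ hv0 h3'
    have f5 := f3 _ hu0 (le_trans (by nlinarith [mul_pos ha hY0]) hua)
    rw [abs_le]
    constructor <;> linarith
  have e3 : ((nn u' : ℝ) * ((A : ℝ) + B * x') ^ 2 + (B : ℝ) ^ 2 / (nn u' : ℝ)) / Y -
      ((nn u : ℝ) * ((A : ℝ) + B * x0) ^ 2 + (B : ℝ) ^ 2 / (nn u : ℝ)) / Y =
      ((nn u' : ℝ) / Y * ((A : ℝ) + B * x') ^ 2 - (nn u : ℝ) / Y * ((A : ℝ) + B * x0) ^ 2) +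
      ((B : ℝ) ^ 2 / (nn u' : ℝ) / Y - (B : ℝ) ^ 2 / (nn u : ℝ) / Y) := by ring
  rw [e3]
  refine (abs_add_le _ _).trans ?_
  linarith

theorem apu_prm {z w : G} (h : det z w = 1) : Prm z := by
  unfold Prm
  have h1 : ((Int.gcd z.re z.im : ℕ) : ℤ) ∣ det z w := by
    unfold det
    exact dvd_sub (Dvd.dvd.mul_right (Int.gcd_dvd_left ..) _)
      (Dvd.dvd.mul_right (Int.gcd_dvd_right ..) _)
  rw [h] at h1
  have h2 := Int.eq_one_of_dvd_one (Int.natCast_nonneg _) h1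
  exact_mod_cast h2

/-- equality of the cells -/
theorem apu_cell (N Y : ℕ) (hY : 1 ≤ Y) (m n : ℕ) (δ : ℝ)
    (h1 : (N : ℝ) * |(m : ℝ) / Y - (n : ℝ) / Y| ≤ δ)
    (h2 : ∀ j : ℤ, δ < |(N : ℝ) * (n : ℝ) / (Y : ℝ) - (j : ℝ)|) :
    N * m / Y = N * n / Y ∧ (n ≤ Y → m ≤ Y) := by
  have hYr : (0 : ℝ) < (Y : ℝ) := by exact_mod_cast hY
  set p : ℝ := (N : ℝ) * (m : ℝ) / (Y : ℝ) with hp
  set q : ℝ := (N : ℝ) * (n : ℝ) / (Y : ℝ) with hq
  have h3 : |p - q| ≤ δ := by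
    have : p - q = (N : ℝ) * ((m : ℝ) / Y - (n : ℝ) / Y) := by rw [hp, hq]; ring
    rw [this, abs_mul, abs_of_nonneg (Nat.cast_nonneg N)]
    exact h1
  have h4 : ∀ j : ℤ, (j : ℝ) ≤ p ↔ (j : ℝ) ≤ q := by
    intro j
    have h5 := h2 j
    have h6 := abs_le.1 h3
    rw [lt_abs] at h5
    constructor
    · intro h7
      rcases h5 with h5 | h5 <;> linarith
    · intro h7
      rcases h5 with h5 | h5 <;> linarith
  have h5 : ⌊p⌋ = ⌊q⌋ := by
    apply le_antisymm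
    · rw [Int.le_floor, ← h4]; exact Int.floor_le p
    · rw [Int.le_floor, h4]; exact Int.floor_le q
  constructor
  · have e1 : ⌊p⌋ = ((N * m / Y : ℕ) : ℤ) := by
      have : p = ((N * m : ℕ) : ℝ) / (Y : ℝ) := by rw [hp]; push_cast; ring
      rw [this]
      have := Nat.floor_div_eq_div (K := ℝ) (N * m) Y
      rw [← this, Int.natCast_floor_eq_floor (by positivity)]
    have e2 : ⌊q⌋ = ((N * n / Y : ℕ) : ℤ) := by
      have : q = ((N * n : ℕ) : ℝ) / (Y : ℝ) := by rw [hq]; push_cast; ring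
      rw [this]
      have := Nat.floor_div_eq_div (K := ℝ) (N * n) Y
      rw [← this, Int.natCast_floor_eq_floor (by positivity)]
    rw [e1, e2] at h5
    exact_mod_cast h5
  · intro hn
    by_contra hm
    push Not at hm
    rcases Nat.eq_zero_or_pos N with h0 | h0
    · have := h2 0
      rw [hq] at this
      subst h0
      simp at this
      have h7 : (0 : ℝ) ≤ δ := (abs_nonneg _).trans h3
      linarith
    · have h6 : ((N : ℤ) : ℝ) ≤ p := by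
        rw [hp, le_div_iff₀ hYr]
        push_cast
        have : (Y : ℝ) ≤ (m : ℝ) := by exact_mod_cast hm.le
        exact mul_le_mul_of_nonneg_left this (Nat.cast_nonneg N)
      have h7 := (h4 (N : ℤ)).1 h6
      have h8 : q ≤ ((N : ℤ) : ℝ) := by
        rw [hq, div_le_iff₀ hYr]
        push_cast
        have : (n : ℝ) ≤ (Y : ℝ) := by exact_mod_cast hn
        exact mul_le_mul_of_nonneg_left this (Nat.cast_nonneg N)
      have h9 := h2 (N : ℤ)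
      have h10 : q - ((N : ℤ) : ℝ) = 0 := by linarith
      rw [h10, abs_zero] at h9
      have h7 : (0 : ℝ) ≤ δ := (abs_nonneg _).trans h3
      linarith

theorem apu_x0 {Y : ℕ} {u : G} (hu : u ∈ PN Y) (a : ℝ) (ha : 0 < a) (hY : 1 ≤ Y)
    (hua : a * (Y : ℝ) ≤ (nn u : ℝ)) :
    |(ip u (nx Y u) : ℝ) / (nn u : ℝ)| ≤ 1 / a + 1 := by
  have hYr : (1 : ℝ) ≤ (Y : ℝ) := by exact_mod_cast hY
  have hu0 : (0 : ℝ) < (nn u : ℝ) := lt_of_lt_of_le (by positivity) hua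
  have h1 := ip_sq_add u (nx Y u)
  rw [nx_det hu] at h1
  have h2 : (nn u : ℝ) * nn (nx Y u) = (ip u (nx Y u) : ℝ) ^ 2 + 1 := by exact_mod_cast h1
  have h3 : (nn (nx Y u) : ℝ) ≤ (Y : ℝ) := by exact_mod_cast (mem_PN.1 (nx_mem hu)).2
  set x0 : ℝ := (ip u (nx Y u) : ℝ) / (nn u : ℝ) with hx0
  have h4 : (ip u (nx Y u) : ℝ) = x0 * nn u := by rw [hx0, div_mul_cancel₀ _ hu0.ne']
  have h5 : x0 ^ 2 * (nn u : ℝ) ≤ Y := by
    have h6 : (x0 ^ 2 * (nn u : ℝ)) * nn u ≤ Y * nn u := by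
      rw [h4] at h2
      have : (nn u : ℝ) * nn (nx Y u) ≤ nn u * Y := mul_le_mul_of_nonneg_left h3 hu0.le
      nlinarith
    exact le_of_mul_le_mul_right h6 hu0
  have h7 : x0 ^ 2 ≤ 1 / a := by
    rw [le_div_iff₀ ha]
    have h8 : x0 ^ 2 * (a * Y) ≤ Y := le_trans (mul_le_mul_of_nonneg_left hua (sq_nonneg _)) h5
    have h9 : (x0 ^ 2 * a) * Y ≤ 1 * Y := by linarith
    exact le_of_mul_le_mul_right h9 (by linarith)
  rw [abs_le]
  constructor <;> nlinarith [sq_nonneg (x0 - 1), sq_nonneg (x0 + 1)]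

theorem pure_box_pr (N L D : ℕ) (hN : 1 ≤ N) (a δ : ℝ) (ha : 0 < a) (hδ : 0 < δ) :
    ∃ R Y₀ : ℕ, 1 ≤ R ∧ ∀ Y : ℕ, Y₀ ≤ Y → ∀ u ∈ PN Y, Gd N L D a δ Y u →
      ∀ u' w' : G, det u' w' = 1 → |(nn u' : ℝ) / Y - (nn u : ℝ) / Y| ≤ 1 / R →
      |(ip u' w' : ℝ) / (nn u' : ℝ) - (ip u (nx Y u) : ℝ) / (nn u : ℝ)| ≤ 1 / R →
      u' ∈ PN Y ∧ nx Y u' = w' ∧
        Wd (nx Y) (ltr N Y) L u' = Wd (nx Y) (ltr N Y) L u := by
  have hNr : (1 : ℝ) ≤ (N : ℝ) := by exact_mod_cast hN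
  obtain ⟨M, hMdef⟩ : ∃ M : ℝ, M = 2 * ((D : ℝ) + 1) ^ (L + 2) := ⟨_, rfl⟩
  obtain ⟨X, hXdef⟩ : ∃ X : ℝ, X = 1 / a + 1 := ⟨_, rfl⟩
  obtain ⟨C, hCdef⟩ : ∃ C : ℝ, C = M ^ 2 * ((X + 2) ^ 2 + (2 * X + 3)) := ⟨_, rfl⟩
  obtain ⟨η, hηdef⟩ : ∃ η : ℝ, η = δ / N := ⟨_, rfl⟩
  have hη : 0 < η := by rw [hηdef]; positivity
  have hX0 : 0 ≤ X := by rw [hXdef]; positivity
  have hD1 : (1 : ℝ) ≤ (D : ℝ) + 1 := by
    have : (0 : ℝ) ≤ (D : ℝ) := Nat.cast_nonneg D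
    linarith
  have hM1 : 1 ≤ M := by
    have := one_le_pow₀ hD1 (n := L + 2)
    rw [hMdef]; linarith
  have hC0 : 0 ≤ C := by rw [hCdef]; positivity
  refine ⟨max 1 (max ⌈2 / a⌉₊ ⌈2 * C / η⌉₊), max 1 ⌈4 * M ^ 2 / (a * η)⌉₊, le_max_left _ _, ?_⟩
  intro Y hYY u hu hg u' w' hd' h1 h2
  set R : ℕ := max 1 (max ⌈2 / a⌉₊ ⌈2 * C / η⌉₊) with hRdef
  have hR1 : 1 ≤ R := le_max_left _ _
  have hRr : (1 : ℝ) ≤ (R : ℝ) := by exact_mod_cast hR1
  have hRpos : (0 : ℝ) < (R : ℝ) := by linarith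
  have hRa : 1 / (R : ℝ) ≤ a / 2 := by
    have h3 : 2 / a ≤ (R : ℝ) := (Nat.le_ceil _).trans (by
      exact_mod_cast (le_max_left _ _).trans (le_max_right 1 _))
    rw [div_le_iff₀ hRpos]
    rw [div_le_iff₀ ha] at h3
    nlinarith
  have hRC : 1 / (R : ℝ) * (M ^ 2 * ((X + 2) ^ 2 + (2 * X + 3))) ≤ η / 2 := by
    rw [← hCdef]
    have h3 : 2 * C / η ≤ (R : ℝ) := (Nat.le_ceil _).trans (by
      exact_mod_cast (le_max_right _ _).trans (le_max_right 1 _))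
    rw [div_le_iff₀ hη] at h3
    rw [one_div, inv_mul_le_iff₀ hRpos]
    linarith
  have hY1 : 1 ≤ Y := (le_max_left _ _).trans hYY
  have hYr : (1 : ℝ) ≤ (Y : ℝ) := by exact_mod_cast hY1
  have hYM : 2 * M ^ 2 / (a * Y) ≤ η / 2 := by
    have h3 : 4 * M ^ 2 / (a * η) ≤ (Y : ℝ) := (Nat.le_ceil _).trans (by
      exact_mod_cast (le_max_right _ _).trans hYY)
    rw [div_le_iff₀ (by positivity)] at h3
    rw [div_le_iff₀ (by positivity)]
    nlinarith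
  obtain ⟨hua, hg⟩ := hg
  have huY : nn u ≤ Y := (mem_PN.1 hu).2
  have hX := apu_x0 hu a ha hY1 hua
  rw [← hXdef] at hX
  -- coefficients
  obtain ⟨A, hAdef⟩ : ∃ A : ℕ → ℤ, A = apu_c (fun j => kk Y (it Y j u)) 1 0 := ⟨_, rfl⟩
  obtain ⟨B, hBdef⟩ : ∃ B : ℕ → ℤ, B = apu_c (fun j => kk Y (it Y j u)) 0 1 := ⟨_, rfl⟩
  have hit : ∀ i, it Y i u = ((A i : ℤ) : G) * u + ((B i : ℤ) : G) * nx Y u := by
    intro i
    rw [hAdef, hBdef]
    exact (apu_it hu i).1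
  have hpow : ∀ i, i ≤ L + 2 → ((D : ℝ) + 1) ^ i ≤ M / 2 := by
    intro i hi
    rw [hMdef]
    have := pow_le_pow_right₀ hD1 hi
    linarith
  have hAb : ∀ i, i ≤ L + 2 → |(A i : ℝ)| ≤ M / 2 := by
    intro i hi
    have h3 := (apu_c_bd (fun j => kk Y (it Y j u)) 1 0 (by norm_num) (by norm_num) D L
      (fun j hj => (hg j (by omega)).1) i).1 hi
    rw [← hAdef] at h3
    have h4 : |(A i : ℝ)| ≤ ((D : ℝ) + 1) ^ i := by exact_mod_cast h3
    exact h4.trans (hpow i hi)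
  have hBb : ∀ i, i ≤ L + 2 → |(B i : ℝ)| ≤ M / 2 := by
    intro i hi
    have h3 := (apu_c_bd (fun j => kk Y (it Y j u)) 0 1 (by norm_num) (by norm_num) D L
      (fun j hj => (hg j (by omega)).1) i).1 hi
    rw [← hBdef] at h3
    have h4 : |(B i : ℝ)| ≤ ((D : ℝ) + 1) ^ i := by exact_mod_cast h3
    exact h4.trans (hpow i hi)
  obtain ⟨z, hz⟩ : ∃ z : ℕ → G, ∀ i, z i = ((A i : ℤ) : G) * u' + ((B i : ℤ) : G) * w' :=
    ⟨_, fun i => rfl⟩
  have hM0 : 0 ≤ M := by linarith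
  have hdiff : ∀ i, i ≤ L + 2 → |(nn (z i) : ℝ) / Y - (nn (it Y i u) : ℝ) / Y| ≤ η := by
    intro i hi
    rw [hz, hit]
    exact apu_diff a X M η ha hM1 R Y hR1 hRa hRC hY1 hYM (nx_det hu) hd' hua huY hX h1 h2
      _ _ ((hAb i hi).trans (by linarith)) ((hBb i hi).trans (by linarith))
  have hsum : ∀ i, i ≤ L + 1 →
      |(nn (z i + z (i + 1)) : ℝ) / Y - (nn (it Y i u + it Y (i + 1) u) : ℝ) / Y| ≤ η := by
    intro i hi
    have e1 : z i + z (i + 1) = ((A i + A (i + 1) : ℤ) : G) * u' + ((B i + B (i + 1) : ℤ) : G) * w' := by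
      rw [hz, hz]; push_cast; ring
    have e2 : it Y i u + it Y (i + 1) u =
        ((A i + A (i + 1) : ℤ) : G) * u + ((B i + B (i + 1) : ℤ) : G) * nx Y u := by
      rw [hit i, hit (i + 1)]; push_cast; ring
    rw [e1, e2]
    refine apu_diff a X M η ha hM1 R Y hR1 hRa hRC hY1 hYM (nx_det hu) hd' hua huY hX h1 h2
      _ _ ?_ ?_
    · push_cast
      have := hAb i (by omega)
      have := hAb (i + 1) (by omega)
      exact (abs_add_le _ _).trans (by linarith)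
    · push_cast
      have := hBb i (by omega)
      have := hBb (i + 1) (by omega)
      exact (abs_add_le _ _).trans (by linarith)
  have hdet : ∀ i j, det (z i) (z j) = det (it Y i u) (it Y j u) := by
    intro i j
    rw [hz, hz, hit i, hit j, apu_det, apu_det, hd', nx_det hu]
  have hdet1 : ∀ i, det (z i) (z (i + 1)) = 1 := by
    intro i
    rw [hdet, it_succ]
    exact nx_det (it_mem hu i)
  have hNη : (N : ℝ) * η = δ := by
    rw [hηdef, mul_div_cancel₀]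
    linarith
  have hcell : ∀ i, i ≤ L + 1 → N * nn (z i) / Y = N * nn (it Y i u) / Y ∧ nn (z i) ≤ Y := by
    intro i hi
    have h3 := apu_cell N Y hY1 (nn (z i)) (nn (it Y i u)) δ (by
      calc (N : ℝ) * |(nn (z i) : ℝ) / Y - (nn (it Y i u) : ℝ) / Y| ≤ N * η :=
            mul_le_mul_of_nonneg_left (hdiff i (by omega)) (by linarith)
        _ = δ := hNη) (hg i hi).2.1
    exact ⟨h3.1, h3.2 (mem_PN.1 (it_mem hu i)).2⟩
  have hzP : ∀ i, i ≤ L + 1 → z i ∈ PN Y := fun i hi =>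
    mem_PN.2 ⟨apu_prm (hdet1 i), (hcell i hi).2⟩
  have hlt : ∀ i, i ≤ L + 1 → Y < nn (z i + z (i + 1)) := by
    intro i hi
    have h3 := (hg i hi).2.2
    have h4 := (abs_le.1 (hsum i hi)).1
    have h5 : 1 + δ < (nn (it Y i u + it Y (i + 1) u) : ℝ) / Y := by
      rw [lt_div_iff₀ (by linarith)]; exact h3
    have h6 : η ≤ δ := by
      rw [hηdef]; exact div_le_self hδ.le hNr
    have h7 : 1 < (nn (z i + z (i + 1)) : ℝ) / Y := by linarith
    rw [lt_div_iff₀ (by linarith), one_mul] at h7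
    exact_mod_cast h7
  have hnx : ∀ i, i ≤ L → nx Y (z i) = z (i + 1) := fun i hi =>
    nx_char (hzP i (by omega)) (hzP (i + 1) (by omega)) (hdet1 i) (hlt i (by omega))
  have hz0 : z 0 = u' := by rw [hz, hAdef, hBdef]; simp [apu_c]
  have hz1 : z 1 = w' := by rw [hz, hAdef, hBdef]; simp [apu_c]
  have hiter : ∀ i, i ≤ L + 1 → it Y i u' = z i := by
    intro i
    induction i with
    | zero => intro _; rw [it_zero, hz0]
    | succ i ih =>
      intro hi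
      rw [it_succ, ih (by omega), hnx i (by omega)]
  refine ⟨?_, ?_, ?_⟩
  · rw [← hz0]; exact hzP 0 (by omega)
  · have := hnx 0 (by omega)
    rw [hz0] at this
    rw [this, zero_add, hz1]
  · funext i
    have hi := i.2
    show ltr N Y (it Y (i : ℕ) u') = ltr N Y (it Y (i : ℕ) u)
    unfold ltr
    rw [hiter i (by omega)]
    have e1 : kk Y (z (i : ℕ)) = kk Y (it Y (i : ℕ) u) := by
      unfold kk
      rw [hnx i (by omega), hnx (i + 1) (by omega), ← it_succ, ← it_succ, hdet]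
    have e2 : ce N Y (z (i : ℕ)) = ce N Y (it Y (i : ℕ) u) := (hcell i (by omega)).1
    rw [e1, e2]

end Pool.Agent.T2


namespace Pool.Agent.T2

theorem pure_box : type_of% @pure_box_pr := @pure_box_pr

end Pool.Agent.T2
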