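import Pool.Agent.Lib_helper39.TA.Defs
import Pool.Agent.Lib_helper10.T2F.AIT
import Pool.Agent.Lib_helper10.T2F.ANX
import Pool.Agent.Lib_helper10.T2F.BAS
import Pool.Agent.Lib_helper10.T2F.CNT

/-! T2, package A, block AST: few points are close to the boundaries (helper2) -/

namespace Pool.Agent.T2

open Filter Topology

theorem ast_nn_add (u w : G) : nn (u + w) ≤ 2 * (nn u + nn w) := by
  have h1 := nn_cast (u + w)
  have h2 := nn_cast u
  have h3 := nn_cast w
  have e1 : (u + w).re = u.re + w.re := rfl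
  have e2 : (u + w).im = u.im + w.im := rfl
  rw [e1, e2] at h1
  have : ((nn (u + w) : ℕ) : ℤ) ≤ 2 * ((nn u : ℤ) + nn w) := by
    rw [h1, h2, h3]
    nlinarith [sq_nonneg (u.re - w.re), sq_nonneg (u.im - w.im)]
  exact_mod_cast this

theorem ast_nn_add_eq (u w : G) : (nn (u + w) : ℤ) = nn u + 2 * ip u w + nn w := by
  have h1 := nn_cast (u + w)
  have h2 := nn_cast u
  have h3 := nn_cast w
  have e1 : (u + w).re = u.re + w.re := rfl
  have e2 : (u + w).im = u.im + w.im := rfl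
  rw [e1, e2] at h1
  rw [h1, h2, h3]
  unfold ip
  ring

theorem ast_aux (A B D Y : ℕ) (k : ℤ) (h : A * B ≤ 4 * Y) (hk : (A : ℤ) = k ^ 2)
    (hD : (D : ℤ) ≤ |k|) : (D : ℝ) ^ 2 * B ≤ 4 * Y := by
  have hn' : (A : ℤ) * (B : ℤ) ≤ 4 * (Y : ℤ) := by exact_mod_cast h
  rw [hk] at hn'
  have hk2 : (D : ℤ) ^ 2 ≤ k ^ 2 := by
    rw [← sq_abs k]
    exact pow_le_pow_left₀ (by positivity) hD 2
  have h3 : (D : ℤ) ^ 2 * (B : ℤ) ≤ 4 * (Y : ℤ) :=
    le_trans (mul_le_mul_of_nonneg_right hk2 (by positivity)) hn'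
  exact_mod_cast h3

theorem ast_nn_int (k : ℤ) : (nn (k : G) : ℤ) = k ^ 2 := by
  rw [nn_cast]
  simp

theorem ast_card_le_of_inj {S : Finset G} {T : Finset G} (f : G → G) (hf : ∀ u ∈ S, f u ∈ T)
    (hi : Set.InjOn f (S : Set G)) : S.card ≤ T.card :=
  Finset.card_le_card_of_injOn f hf hi

open Classical in
theorem kk_count_pr : ∃ C : ℝ, 1 ≤ C ∧ ∀ Y D : ℕ, 1 ≤ D →
    (((PN Y).filter (fun u => (D : ℤ) ≤ |kk Y u|)).card : ℝ) ≤ C * Y / D ^ 2 := by
  obtain ⟨C, hC, hb⟩ := ball_le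
  refine ⟨4 * C, by linarith, fun Y D hD => ?_⟩
  have hD0 : (0 : ℝ) < (D : ℝ) := by exact_mod_cast hD
  have hD2 : (0 : ℝ) < (D : ℝ) ^ 2 := by positivity
  have hx0 : (0 : ℝ) ≤ 4 * (Y : ℝ) / (D : ℝ) ^ 2 := by positivity
  have hle : ((PN Y).filter (fun u => (D : ℤ) ≤ |kk Y u|)).card ≤
      (Bl (4 * (Y : ℝ) / (D : ℝ) ^ 2)).card := by
    apply ast_card_le_of_inj (nx Y)
    · intro u hu
      rw [Finset.mem_filter] at hu
      obtain ⟨hu, hk⟩ := hu
      have h1 := nx_mem hu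
      have h2 := nx_mem h1
      have hrec := nx_rec hu
      rw [mem_Bl]
      refine ⟨prm_ne (mem_PN.1 h1).1, ?_⟩
      have e : (kk Y u : G) * nx Y u = nx Y (nx Y u) + u := by rw [hrec]; ring
      have hn : nn ((kk Y u : G) * nx Y u) ≤ 4 * Y := by
        rw [e]
        have := ast_nn_add (nx Y (nx Y u)) u
        have a1 := (mem_PN.1 h2).2
        have a2 := (mem_PN.1 hu).2
        omega
      rw [nn_mul] at hn
      have h4 := ast_aux _ _ D Y _ hn (ast_nn_int _) hk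
      rw [le_div_iff₀ hD2]
      linarith
    · intro u hu w hw h
      have hu' := (Finset.mem_filter.1 (Finset.mem_coe.1 hu)).1
      have hw' := (Finset.mem_filter.1 (Finset.mem_coe.1 hw)).1
      exact nx_inj Y (Finset.mem_coe.2 hu') (Finset.mem_coe.2 hw') h
  have hle' : (((PN Y).filter (fun u => (D : ℤ) ≤ |kk Y u|)).card : ℝ) ≤
      ((Bl (4 * (Y : ℝ) / (D : ℝ) ^ 2)).card : ℝ) := by exact_mod_cast hle
  calc (((PN Y).filter (fun u => (D : ℤ) ≤ |kk Y u|)).card : ℝ)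
      ≤ ((Bl (4 * (Y : ℝ) / (D : ℝ) ^ 2)).card : ℝ) := hle'
    _ ≤ C * (4 * (Y : ℝ) / (D : ℝ) ^ 2) := hb _ hx0
    _ = 4 * C * Y / D ^ 2 := by ring

open Classical in
theorem ast_ann : ∃ C : ℝ, 1 ≤ C ∧ ∀ Y : ℝ, 1 ≤ Y → ∀ x₁ x₂ : ℝ, x₁ ≤ x₂ → x₂ ≤ 4 * Y →
    (((Bl x₂).filter (fun z => x₁ < (nn z : ℝ))).card : ℝ) ≤ 4 * (x₂ - x₁) +
      C * Real.sqrt Y := by
  obtain ⟨C, hC, hb⟩ := ball_count
  refine ⟨4 + 4 * C, by linarith, fun Y hY x₁ x₂ h12 h2 => ?_⟩
  have hs1 : 1 ≤ Real.sqrt Y := by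
    rw [Real.one_le_sqrt]; exact hY
  have hpi : Real.pi ≤ 4 := Real.pi_le_four
  have hpi0 : 0 < Real.pi := Real.pi_pos
  have hsq : ∀ x : ℝ, x ≤ 4 * Y → Real.sqrt x ≤ 2 * Real.sqrt Y := by
    intro x hx
    calc Real.sqrt x ≤ Real.sqrt (4 * Y) := Real.sqrt_le_sqrt hx
      _ = 2 * Real.sqrt Y := by
        rw [show (4 : ℝ) = 2 ^ 2 by norm_num, Real.sqrt_mul (by norm_num), Real.sqrt_sq (by norm_num)]
  by_cases hx2 : x₂ < 1
  · have : (Bl x₂).filter (fun z => x₁ < (nn z : ℝ)) = ∅ := by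
      rw [Finset.filter_eq_empty_iff]
      intro z hz
      rw [mem_Bl] at hz
      exfalso
      have : (1 : ℝ) ≤ (nn z : ℝ) := by exact_mod_cast nn_pos.2 hz.1
      linarith [hz.2]
    rw [this]
    simp only [Finset.card_empty, Nat.cast_zero]
    have : 0 ≤ (4 + 4 * C) * Real.sqrt Y := by positivity
    linarith
  · push Not at hx2
    have b2 := (abs_le.1 (hb x₂ hx2)).2
    by_cases hx1 : x₁ < 1
    · have hc : (((Bl x₂).filter (fun z => x₁ < (nn z : ℝ))).card : ℝ) ≤ ((Bl x₂).card : ℝ) := by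
        exact_mod_cast Finset.card_filter_le _ _
      have := hsq x₂ h2
      have h5 : C * Real.sqrt x₂ ≤ C * (2 * Real.sqrt Y) :=
        mul_le_mul_of_nonneg_left this (by linarith)
      have h6 : Real.pi * x₂ ≤ 4 * (x₂ - x₁) + 4 := by
        have : Real.pi * x₂ = Real.pi * (x₂ - x₁) + Real.pi * x₁ := by ring
        rw [this]
        have i1 : Real.pi * (x₂ - x₁) ≤ 4 * (x₂ - x₁) :=
          mul_le_mul_of_nonneg_right hpi (by linarith)
        have i2 : Real.pi * x₁ ≤ 4 := by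
          calc Real.pi * x₁ ≤ Real.pi * 1 := mul_le_mul_of_nonneg_left hx1.le hpi0.le
            _ ≤ 4 := by linarith
        linarith
      nlinarith
    · push Not at hx1
      have b1 := (abs_le.1 (hb x₁ hx1)).1
      have hsub : Bl x₁ ⊆ Bl x₂ := by
        intro z hz
        rw [mem_Bl] at hz ⊢
        exact ⟨hz.1, hz.2.trans h12⟩
      have heq : (Bl x₂).filter (fun z => x₁ < (nn z : ℝ)) = Bl x₂ \ Bl x₁ := by
        ext z
        rw [Finset.mem_filter, Finset.mem_sdiff]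
        constructor
        · rintro ⟨h, h'⟩
          refine ⟨h, fun h'' => ?_⟩
          rw [mem_Bl] at h''
          linarith [h''.2]
        · rintro ⟨h, h'⟩
          refine ⟨h, ?_⟩
          by_contra hc
          push Not at hc
          apply h'
          rw [mem_Bl]
          exact ⟨(mem_Bl.1 h).1, hc⟩
      have hcard : ((Bl x₂ \ Bl x₁).card : ℝ) = (Bl x₂).card - (Bl x₁).card := by
        rw [Finset.card_sdiff_of_subset hsub, Nat.cast_sub (Finset.card_le_card hsub)]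
      rw [heq, hcard]
      have h5 : C * Real.sqrt x₂ ≤ C * (2 * Real.sqrt Y) :=
        mul_le_mul_of_nonneg_left (hsq x₂ h2) (by linarith)
      have h6 : C * Real.sqrt x₁ ≤ C * (2 * Real.sqrt Y) :=
        mul_le_mul_of_nonneg_left (hsq x₁ (h12.trans h2)) (by linarith)
      have i1 : Real.pi * (x₂ - x₁) ≤ 4 * (x₂ - x₁) :=
        mul_le_mul_of_nonneg_right hpi (by linarith)
      nlinarith

/-- `C √Y ≤ δ Y` for large `Y` -/
theorem ast_sqrt_le (C δ : ℝ) (hδ : 0 < δ) : ∃ Y₀ : ℕ, 1 ≤ Y₀ ∧ ∀ Y : ℕ, Y₀ ≤ Y →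
    C * Real.sqrt (Y : ℝ) ≤ δ * Y := by
  obtain ⟨n, hn⟩ := exists_nat_ge ((|C| / δ) ^ 2)
  refine ⟨max n 1, le_max_right _ _, fun Y hY => ?_⟩
  have hY1 : n ≤ Y := (le_max_left _ _).trans hY
  have hY2 : (|C| / δ) ^ 2 ≤ (Y : ℝ) := hn.trans (by exact_mod_cast hY1)
  have h1 : |C| / δ ≤ Real.sqrt Y := Real.le_sqrt_of_sq_le hY2
  have h2 : |C| ≤ δ * Real.sqrt Y := by
    rw [div_le_iff₀ hδ] at h1; linarith
  have h3 : Real.sqrt (Y : ℝ) * Real.sqrt Y = Y := Real.mul_self_sqrt (by positivity)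
  calc C * Real.sqrt (Y : ℝ) ≤ |C| * Real.sqrt Y :=
        mul_le_mul_of_nonneg_right (le_abs_self C) (Real.sqrt_nonneg _)
    _ ≤ δ * Real.sqrt Y * Real.sqrt Y := mul_le_mul_of_nonneg_right h2 (Real.sqrt_nonneg _)
    _ = δ * Y := by rw [mul_assoc, h3]

open Classical in
theorem cell_strip_pr : ∃ C : ℝ, 1 ≤ C ∧ ∀ N : ℕ, 1 ≤ N → ∀ δ : ℝ, 0 < δ → δ ≤ 1 →
    ∃ Y₀ : ℕ, ∀ Y : ℕ, Y₀ ≤ Y →
      (((PN Y).filter (fun u => ∃ j : ℤ,
        |(N : ℝ) * (nn u : ℝ) / (Y : ℝ) - (j : ℝ)| ≤ δ)).card : ℝ) ≤ C * δ * Y := by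
  obtain ⟨C, hC, ha⟩ := ast_ann
  refine ⟨49, by norm_num, fun N hN δ hδ hδ1 => ?_⟩
  obtain ⟨Y₀, hY₀, hs⟩ := ast_sqrt_le (((N : ℝ) + 3) * C) δ hδ
  refine ⟨Y₀, fun Y hY => ?_⟩
  have hYpos : 1 ≤ Y := hY₀.trans hY
  have hYr : (1 : ℝ) ≤ (Y : ℝ) := by exact_mod_cast hYpos
  have hNr : (1 : ℝ) ≤ (N : ℝ) := by exact_mod_cast hN
  have hN0 : (0 : ℝ) < (N : ℝ) := by linarith
  have hY0 : (0 : ℝ) < (Y : ℝ) := by linarith
  set J : Finset ℤ := Finset.Icc (-1) ((N : ℤ) + 1) with hJ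
  set x₂ : ℤ → ℝ := fun j => ((j : ℝ) + δ) * Y / N with hx2
  set x₁ : ℤ → ℝ := fun j => ((j : ℝ) - 2 * δ) * Y / N with hx1
  have hsub : (PN Y).filter (fun u => ∃ j : ℤ,
        |(N : ℝ) * (nn u : ℝ) / (Y : ℝ) - (j : ℝ)| ≤ δ) ⊆
      J.biUnion (fun j => (Bl (x₂ j)).filter (fun z => x₁ j < (nn z : ℝ))) := by
    intro u hu
    rw [Finset.mem_filter] at hu
    obtain ⟨hu, j, hj⟩ := hu
    have hup := mem_PN.1 hu
    have hune := prm_ne hup.1
    have hnpos : (1 : ℝ) ≤ (nn u : ℝ) := by exact_mod_cast nn_pos.2 hune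
    have hnle : (nn u : ℝ) ≤ Y := by exact_mod_cast hup.2
    have hj' := abs_le.1 hj
    have hxle : (N : ℝ) * (nn u : ℝ) / (Y : ℝ) ≤ N := by
      rw [div_le_iff₀ hY0]
      exact mul_le_mul_of_nonneg_left hnle hN0.le
    have hx0 : 0 < (N : ℝ) * (nn u : ℝ) / (Y : ℝ) := by positivity
    rw [Finset.mem_biUnion]
    refine ⟨j, ?_, ?_⟩
    · rw [hJ, Finset.mem_Icc]
      constructor
      · have : (-2 : ℝ) < (j : ℝ) := by linarith
        have : (-2 : ℤ) < j := by exact_mod_cast this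
        omega
      · have : (j : ℝ) ≤ N + 1 := by linarith
        exact_mod_cast this
    · rw [Finset.mem_filter, mem_Bl]
      have e : (N : ℝ) * (nn u : ℝ) / (Y : ℝ) * Y = N * nn u := by field_simp
      refine ⟨⟨hune, ?_⟩, ?_⟩
      · rw [hx2]
        simp only
        rw [le_div_iff₀ hN0]
        have : (N : ℝ) * (nn u : ℝ) / (Y : ℝ) * Y ≤ ((j : ℝ) + δ) * Y :=
          mul_le_mul_of_nonneg_right (by linarith) hY0.le
        rw [e] at this
        linarith
      · rw [hx1]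
        simp only
        rw [div_lt_iff₀ hN0]
        have : ((j : ℝ) - 2 * δ) * Y < (N : ℝ) * (nn u : ℝ) / (Y : ℝ) * Y :=
          mul_lt_mul_of_pos_right (by linarith) hY0
        rw [e] at this
        linarith
  have hcardJ : (J.card : ℝ) = N + 3 := by
    rw [hJ, Int.card_Icc]
    have : ((N : ℤ) + 1 + 1 - (-1)).toNat = N + 3 := by omega
    rw [this]
    push_cast
    ring
  have hone : ∀ j ∈ J, (((Bl (x₂ j)).filter (fun z => x₁ j < (nn z : ℝ))).card : ℝ) ≤
      12 * δ * Y / N + C * Real.sqrt Y := by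
    intro j hj
    rw [hJ, Finset.mem_Icc] at hj
    have hjr : (j : ℝ) ≤ N + 1 := by exact_mod_cast hj.2
    have hdiff : x₂ j - x₁ j = 3 * δ * Y / N := by
      rw [hx2, hx1]; simp only; ring
    have hle : x₁ j ≤ x₂ j := by
      have : 0 ≤ 3 * δ * Y / N := by positivity
      linarith
    have h4 : x₂ j ≤ 4 * Y := by
      rw [hx2]; simp only
      rw [div_le_iff₀ hN0]
      nlinarith
    have := ha Y hYr (x₁ j) (x₂ j) hle h4
    rw [hdiff] at this
    calc _ ≤ _ := this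
      _ = 12 * δ * Y / N + C * Real.sqrt Y := by ring
  have hfin : (((PN Y).filter (fun u => ∃ j : ℤ,
        |(N : ℝ) * (nn u : ℝ) / (Y : ℝ) - (j : ℝ)| ≤ δ)).card : ℝ) ≤
      ∑ j ∈ J, (((Bl (x₂ j)).filter (fun z => x₁ j < (nn z : ℝ))).card : ℝ) := by
    have h1 := Finset.card_le_card hsub
    have h2 : (J.biUnion (fun j => (Bl (x₂ j)).filter (fun z => x₁ j < (nn z : ℝ)))).card ≤
      ∑ j ∈ J, ((Bl (x₂ j)).filter (fun z => x₁ j < (nn z : ℝ))).card :=
      Finset.card_biUnion_le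
    exact_mod_cast h1.trans h2
  have hsum := Finset.sum_le_sum hone
  rw [Finset.sum_const, nsmul_eq_mul, hcardJ] at hsum
  have hs' := hs Y hY
  have h3 : ((N : ℝ) + 3) * (12 * δ * Y / N) ≤ 48 * δ * Y := by
    rw [mul_div_assoc', div_le_iff₀ hN0]
    nlinarith [mul_pos hδ hY0]
  nlinarith

open Classical in
theorem sum_strip_pr : ∃ C : ℝ, 1 ≤ C ∧ ∀ δ : ℝ, 0 < δ → δ ≤ 1 → ∃ Y₀ : ℕ, ∀ Y : ℕ, Y₀ ≤ Y →
    (((PN Y).filter (fun u => (nn (u + nx Y u) : ℝ) ≤ (1 + δ) * Y)).card : ℝ) ≤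
      C * δ * Y := by
  obtain ⟨C, hC, ha⟩ := ast_ann
  refine ⟨5, by norm_num, fun δ hδ hδ1 => ?_⟩
  obtain ⟨Y₀, hY₀, hs⟩ := ast_sqrt_le C δ hδ
  refine ⟨Y₀, fun Y hY => ?_⟩
  have hYpos : 1 ≤ Y := hY₀.trans hY
  have hYr : (1 : ℝ) ≤ (Y : ℝ) := by exact_mod_cast hYpos
  have hle : ((PN Y).filter (fun u => (nn (u + nx Y u) : ℝ) ≤ (1 + δ) * Y)).card ≤
      ((Bl ((1 + δ) * Y)).filter (fun z => (Y : ℝ) < (nn z : ℝ))).card := by
    apply ast_card_le_of_inj (fun u => u + nx Y u)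
    · intro u hu
      rw [Finset.mem_filter] at hu
      obtain ⟨hu, hk⟩ := hu
      rw [Finset.mem_filter, mem_Bl]
      have h1 := nx_add hu
      have h2 : (Y : ℝ) < (nn (u + nx Y u) : ℝ) := by exact_mod_cast h1
      refine ⟨⟨?_, hk⟩, h2⟩
      have : 0 < nn (u + nx Y u) := by omega
      exact nn_pos.1 this
    · intro u hu w hw h
      have hu' := (Finset.mem_filter.1 (Finset.mem_coe.1 hu)).1
      have hw' := (Finset.mem_filter.1 (Finset.mem_coe.1 hw)).1
      simp only at h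
      -- z
      set z : G := u + nx Y u with hz
      have hdu : det u z = 1 := by
        have := nx_det hu'
        have e : det u z = det u (nx Y u) := by
          rw [hz]; unfold det
          have e1 : (u + nx Y u).re = u.re + (nx Y u).re := rfl
          have e2 : (u + nx Y u).im = u.im + (nx Y u).im := rfl
          rw [e1, e2]; ring
        rw [e, this]
      have hdw : det w z = 1 := by
        have := nx_det hw'
        have e : det w z = det w (nx Y w) := by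
          rw [h]; unfold det
          have e1 : (w + nx Y w).re = w.re + (nx Y w).re := rfl
          have e2 : (w + nx Y w).im = w.im + (nx Y w).im := rfl
          rw [e1, e2]; ring
        rw [e, this]
      have hzY : Y < nn z := by rw [hz]; exact nx_add hu'
      have hiu : 0 < ip u z := by
        have h0 := nx_ip hu'
        have e : ip u z = (nn u : ℤ) + ip u (nx Y u) := by
          rw [hz, nn_cast]; unfold ip
          have e1 : (u + nx Y u).re = u.re + (nx Y u).re := rfl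
          have e2 : (u + nx Y u).im = u.im + (nx Y u).im := rfl
          rw [e1, e2]; ring
        have : (0 : ℤ) < nn u := by exact_mod_cast nn_pos.2 (prm_ne (mem_PN.1 hu').1)
        linarith
      have hiw : 0 < ip w z := by
        have h0 := nx_ip hw'
        have e : ip w z = (nn w : ℤ) + ip w (nx Y w) := by
          rw [h, nn_cast]; unfold ip
          have e1 : (w + nx Y w).re = w.re + (nx Y w).re := rfl
          have e2 : (w + nx Y w).im = w.im + (nx Y w).im := rfl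
          rw [e1, e2]; ring
        have : (0 : ℤ) < nn w := by exact_mod_cast nn_pos.2 (prm_ne (mem_PN.1 hw').1)
        linarith
      -- u - w = j z
      have hre : u.re - w.re = - det u w * z.re := by
        unfold det at hdu hdw ⊢
        linear_combination w.re * hdu - u.re * hdw
      have him : u.im - w.im = - det u w * z.im := by
        unfold det at hdu hdw ⊢
        linear_combination w.im * hdu - u.im * hdw
      generalize hj : - det u w = j at hre him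
      have hnu : (nn u : ℤ) = nn w + 2 * j * ip w z + j ^ 2 * nn z := by
        rw [nn_cast, nn_cast, nn_cast]
        have a1 : u.re = w.re + j * z.re := by linarith
        have a2 : u.im = w.im + j * z.im := by linarith
        rw [a1, a2]
        unfold ip
        ring
      have hnw : (nn w : ℤ) = nn u + 2 * (-j) * ip u z + j ^ 2 * nn z := by
        rw [nn_cast, nn_cast, nn_cast]
        have a1 : w.re = u.re - j * z.re := by linarith
        have a2 : w.im = u.im - j * z.im := by linarith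
        rw [a1, a2]
        unfold ip
        ring
      have hnule : (nn u : ℤ) ≤ Y := by exact_mod_cast (mem_PN.1 hu').2
      have hnwle : (nn w : ℤ) ≤ Y := by exact_mod_cast (mem_PN.1 hw').2
      have hzY' : (Y : ℤ) < nn z := by exact_mod_cast hzY
      have hnu0 : (0 : ℤ) ≤ nn u := by positivity
      have hnw0 : (0 : ℤ) ≤ nn w := by positivity
      have hj0 : j = 0 := by
        by_contra hne
        have hj2 : 1 ≤ j ^ 2 := by
          have : 0 < j ^ 2 := by positivity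
          omega
        have hz2 : (nn z : ℤ) ≤ j ^ 2 * nn z := by
          nlinarith
        rcases lt_or_gt_of_ne hne with hjn | hjp
        · have : 0 ≤ 2 * (-j) * ip u z := by
            have : 0 ≤ -j := by omega
            positivity
          linarith
        · have : 0 ≤ 2 * j * ip w z := by positivity
          linarith
      subst hj0
      apply Zsqrtd.ext
      · linarith
      · linarith
  have hle' : (((PN Y).filter (fun u => (nn (u + nx Y u) : ℝ) ≤ (1 + δ) * Y)).card : ℝ) ≤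
      ((Bl ((1 + δ) * Y)).filter (fun z => (Y : ℝ) < (nn z : ℝ))).card := by exact_mod_cast hle
  have h5 := ha Y hYr (Y : ℝ) ((1 + δ) * Y) (by nlinarith) (by nlinarith)
  have h6 := hs Y hY
  calc _ ≤ _ := hle'
    _ ≤ _ := h5
    _ ≤ 5 * δ * Y := by nlinarith

open Classical in
theorem good_most_pr (N L : ℕ) (hN : 1 ≤ N) (ε : ℝ) (hε : 0 < ε) : ∃ (D : ℕ) (a δ : ℝ), 1 ≤ D ∧
    0 < a ∧ 0 < δ ∧ ∃ Y₀ : ℕ, ∀ Y : ℕ, Y₀ ≤ Y →
      (((PN Y).filter (fun u => ¬ Gd N L D a δ Y u)).card : ℝ) ≤ ε * Y := by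
  obtain ⟨C₀, hC₀, h0⟩ := ball_le
  obtain ⟨C₁, hC₁, h1⟩ := kk_count_pr
  obtain ⟨C₂, hC₂, h2⟩ := cell_strip_pr
  obtain ⟨C₃, hC₃, h3⟩ := sum_strip_pr
  have hL0 : (0 : ℝ) < (L : ℝ) + 2 := by positivity
  -- choice of the parameters
  obtain ⟨D, hD⟩ := exists_nat_ge (((L : ℝ) + 2) * C₁ * 4 / ε)
  set a : ℝ := ε / (4 * C₀) with ha
  have ha0 : 0 < a := by positivity
  set δ : ℝ := min 1 (ε / (4 * ((L : ℝ) + 2) * (C₂ + C₃))) with hδ
  have hδ0 : 0 < δ := by
    rw [hδ]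
    exact lt_min one_pos (by positivity)
  have hδ1 : δ ≤ 1 := min_le_left _ _
  have hδ2 : δ * (4 * ((L : ℝ) + 2) * (C₂ + C₃)) ≤ ε := by
    have : δ ≤ ε / (4 * ((L : ℝ) + 2) * (C₂ + C₃)) := min_le_right _ _
    rwa [le_div_iff₀ (by positivity)] at this
  obtain ⟨Y₂, hY₂⟩ := h2 N hN δ hδ0 hδ1
  obtain ⟨Y₃, hY₃⟩ := h3 δ hδ0 hδ1
  refine ⟨D + 1, a, δ, by omega, ha0, hδ0, max Y₂ Y₃, fun Y hY => ?_⟩
  have hYY2 : Y₂ ≤ Y := (le_max_left _ _).trans hY
  have hYY3 : Y₃ ≤ Y := (le_max_right _ _).trans hY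
  have hYnn : (0 : ℝ) ≤ (Y : ℝ) := by positivity
  set P1 : G → Prop := fun u => ((D + 1 : ℕ) : ℤ) ≤ |kk Y u| with hP1
  set P2 : G → Prop := fun u => ∃ j : ℤ, |(N : ℝ) * (nn u : ℝ) / (Y : ℝ) - (j : ℝ)| ≤ δ with hP2
  set P3 : G → Prop := fun u => (nn (u + nx Y u) : ℝ) ≤ (1 + δ) * Y with hP3
  have hsub : (PN Y).filter (fun u => ¬ Gd N L (D + 1) a δ Y u) ⊆
      Bl (a * Y) ∪ (Finset.range (L + 2)).biUnion (fun i =>
        ((PN Y).filter (fun u => P1 (it Y i u)) ∪ (PN Y).filter (fun u => P2 (it Y i u))) ∪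
          (PN Y).filter (fun u => P3 (it Y i u))) := by
    intro u hu
    rw [Finset.mem_filter] at hu
    obtain ⟨hu, hg⟩ := hu
    by_contra hcon
    apply hg
    rw [Finset.mem_union, not_or] at hcon
    obtain ⟨c1, c2⟩ := hcon
    have hune := prm_ne (mem_PN.1 hu).1
    refine ⟨?_, ?_⟩
    · by_contra hlt
      push Not at hlt
      exact c1 (mem_Bl.2 ⟨hune, hlt.le⟩)
    · intro i hi
      have hni : ¬ (P1 (it Y i u) ∨ P2 (it Y i u) ∨ P3 (it Y i u)) := by
        intro hor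
        apply c2
        rw [Finset.mem_biUnion]
        refine ⟨i, Finset.mem_range.2 (by omega), ?_⟩
        rw [Finset.mem_union, Finset.mem_union, Finset.mem_filter, Finset.mem_filter,
          Finset.mem_filter]
        rcases hor with h | h | h
        · exact Or.inl (Or.inl ⟨hu, h⟩)
        · exact Or.inl (Or.inr ⟨hu, h⟩)
        · exact Or.inr ⟨hu, h⟩
      rw [not_or, not_or] at hni
      obtain ⟨n1, n2, n3⟩ := hni
      refine ⟨?_, ?_, ?_⟩
      · rw [hP1] at n1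
        simp only [not_le] at n1
        exact n1.le
      · intro j
        rw [hP2] at n2
        push Not at n2
        exact n2 j
      · rw [hP3] at n3
        simp only [not_le] at n3
        rw [it_succ]
        exact n3
  have hc : (((PN Y).filter (fun u => ¬ Gd N L (D + 1) a δ Y u)).card : ℝ) ≤
      ((Bl (a * Y)).card : ℝ) + ∑ i ∈ Finset.range (L + 2),
        ((((PN Y).filter (fun u => P1 (it Y i u))).card : ℝ) +
          (((PN Y).filter (fun u => P2 (it Y i u))).card : ℝ) +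
          (((PN Y).filter (fun u => P3 (it Y i u))).card : ℝ)) := by
    have e1 := (Finset.card_le_card hsub).trans (Finset.card_union_le _ _)
    have e2 : ((Finset.range (L + 2)).biUnion (fun i =>
        ((PN Y).filter (fun u => P1 (it Y i u)) ∪ (PN Y).filter (fun u => P2 (it Y i u))) ∪
          (PN Y).filter (fun u => P3 (it Y i u)))).card ≤ ∑ i ∈ Finset.range (L + 2),
        (((PN Y).filter (fun u => P1 (it Y i u))).card +
          ((PN Y).filter (fun u => P2 (it Y i u))).card +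
          ((PN Y).filter (fun u => P3 (it Y i u))).card) := by
      refine Finset.card_biUnion_le.trans (Finset.sum_le_sum fun i _ => ?_)
      refine (Finset.card_union_le _ _).trans ?_
      have := Finset.card_union_le ((PN Y).filter (fun u => P1 (it Y i u)))
        ((PN Y).filter (fun u => P2 (it Y i u)))
      omega
    have e3 := e1.trans (Nat.add_le_add_left e2 _)
    exact_mod_cast e3
  have hD1 : (0 : ℝ) < ((D + 1 : ℕ) : ℝ) := by positivity
  have b0 : ((Bl (a * Y)).card : ℝ) ≤ ε / 4 * Y := by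
    have := h0 (a * Y) (by positivity)
    calc _ ≤ _ := this
      _ = ε / 4 * Y := by rw [ha]; field_simp
  have b1 : ∀ i ∈ Finset.range (L + 2), ((((PN Y).filter (fun u => P1 (it Y i u))).card : ℝ) +
          (((PN Y).filter (fun u => P2 (it Y i u))).card : ℝ) +
          (((PN Y).filter (fun u => P3 (it Y i u))).card : ℝ)) ≤
        C₁ * Y / ((D + 1 : ℕ) : ℝ) ^ 2 + C₂ * δ * Y + C₃ * δ * Y := by
    intro i _
    have q1 := card_it Y i P1
    have q2 := card_it Y i P2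
    have q3 := card_it Y i P3
    have r1 := h1 Y (D + 1) (by omega)
    have r2 := hY₂ Y hYY2
    have r3 := hY₃ Y hYY3
    have s1 : (((PN Y).filter (fun u => P1 (it Y i u))).card : ℝ) ≤
        C₁ * Y / ((D + 1 : ℕ) : ℝ) ^ 2 := by
      refine le_trans (le_of_eq ?_) r1
      congr 1
      convert q1
    have s2 : (((PN Y).filter (fun u => P2 (it Y i u))).card : ℝ) ≤ C₂ * δ * Y := by
      refine le_trans (le_of_eq ?_) r2
      congr 1
    have s3 : (((PN Y).filter (fun u => P3 (it Y i u))).card : ℝ) ≤ C₃ * δ * Y := by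
      refine le_trans (le_of_eq ?_) r3
      congr 1
    exact add_le_add (add_le_add s1 s2) s3
  have b2 := Finset.sum_le_sum b1
  rw [Finset.sum_const, Finset.card_range, nsmul_eq_mul] at b2
  have hkey : ((L + 2 : ℕ) : ℝ) * (C₁ * Y / ((D + 1 : ℕ) : ℝ) ^ 2) ≤ ε / 4 * Y := by
    have hDD : ((D + 1 : ℕ) : ℝ) ≤ ((D + 1 : ℕ) : ℝ) ^ 2 := by
      have : (1 : ℝ) ≤ ((D + 1 : ℕ) : ℝ) := by
        push_cast; linarith [Nat.cast_nonneg (α := ℝ) D]
      nlinarith
    have hD' : ((L : ℝ) + 2) * C₁ * 4 ≤ ε * ((D + 1 : ℕ) : ℝ) ^ 2 := by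
      rw [div_le_iff₀ hε] at hD
      have : (D : ℝ) * ε ≤ ((D + 1 : ℕ) : ℝ) ^ 2 * ε := by
        apply mul_le_mul_of_nonneg_right _ hε.le
        refine le_trans ?_ hDD
        push_cast; linarith
      linarith
    have e : ((L + 2 : ℕ) : ℝ) * (C₁ * Y / ((D + 1 : ℕ) : ℝ) ^ 2) =
        (((L : ℝ) + 2) * C₁ * Y) / ((D + 1 : ℕ) : ℝ) ^ 2 := by push_cast; ring
    rw [e, div_le_iff₀ (by positivity)]
    nlinarith
  have hkey2 : ((L + 2 : ℕ) : ℝ) * (C₂ * δ * Y + C₃ * δ * Y) ≤ ε / 4 * Y := by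
    have e : ((L + 2 : ℕ) : ℝ) * (C₂ * δ * Y + C₃ * δ * Y) =
      (δ * (4 * ((L : ℝ) + 2) * (C₂ + C₃))) / 4 * Y := by push_cast; ring
    rw [e]
    apply mul_le_mul_of_nonneg_right _ hYnn
    linarith
  have e : ((L + 2 : ℕ) : ℝ) * (C₁ * Y / ((D + 1 : ℕ) : ℝ) ^ 2 + C₂ * δ * Y + C₃ * δ * Y) =
    ((L + 2 : ℕ) : ℝ) * (C₁ * Y / ((D + 1 : ℕ) : ℝ) ^ 2) +
      ((L + 2 : ℕ) : ℝ) * (C₂ * δ * Y + C₃ * δ * Y) := by ring
  have hεY : 0 ≤ ε * Y := by positivity
  linarith

end Pool.Agent.T2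


namespace Pool.Agent.T2

theorem kk_count : type_of% @kk_count_pr := @kk_count_pr
theorem cell_strip : type_of% @cell_strip_pr := @cell_strip_pr
theorem sum_strip : type_of% @sum_strip_pr := @sum_strip_pr
theorem good_most : type_of% @good_most_pr := @good_most_pr

end Pool.Agent.T2
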