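import Pool.Agent.Lib_helper39.TA.Defs
import Pool.Agent.Lib_helper10.T2F.AEQ
import Pool.Agent.Lib_helper10.T2F.AFR
import Pool.Agent.Lib_helper10.T2F.ANX
import Pool.Agent.Lib_helper10.T2F.APU
import Pool.Agent.Lib_helper10.T2F.AST
import Pool.Agent.Lib_helper10.T2F.BAS

/-!
# T2, block ATV: the frames are nearly independent of the words
-/

namespace Pool.Agent.T2

open Filter Topology

section General

variable {α σ β ι τ : Type*} [Fintype ι]

open Classical in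
theorem atv_fiber (Ω : Finset α) (h : α → σ) (g : σ → ℝ) :
    ∑ x ∈ Ω, g (h x) / (fb Ω h x : ℝ) = ∑ s ∈ Ω.image h, g s := by
  rw [← Finset.sum_fiberwise_of_maps_to (g := h) (t := Ω.image h)
    (fun x hx => Finset.mem_image_of_mem h hx)]
  refine Finset.sum_congr rfl fun s hs => ?_
  obtain ⟨x₀, hx₀, rfl⟩ := Finset.mem_image.1 hs
  have h1 : ∀ x ∈ Ω.filter (fun x => h x = h x₀),
      g (h x) / (fb Ω h x : ℝ) = g (h x₀) / (fb Ω h x₀ : ℝ) := by
    intro x hx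
    have e := (Finset.mem_filter.1 hx).2
    unfold fb
    rw [e]
  rw [Finset.sum_congr rfl h1, Finset.sum_const, nsmul_eq_mul]
  have h2 : (fb Ω h x₀ : ℝ) = ((Ω.filter (fun x => h x = h x₀)).card : ℝ) := rfl
  have hpos : ((Ω.filter (fun x => h x = h x₀)).card : ℝ) ≠ 0 := by
    rw [Nat.cast_ne_zero, Finset.card_ne_zero]
    exact ⟨x₀, Finset.mem_filter.2 ⟨hx₀, rfl⟩⟩
  rw [h2]
  field_simp

open Classical in
/-- the deviation for the value `s` -/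
noncomputable def atv_g (Ω : Finset α) (h : α → σ) (y : α → ι → τ) (E : ι → Finset τ) (s : σ) : ℝ :=
  ∑ t ∈ Fintype.piFinset E, |((Ω.filter (fun z => h z = s ∧ y z = t)).card : ℝ) -
    ((Ω.filter (fun z => h z = s)).card : ℝ) / ((Fintype.piFinset E).card : ℝ)|

open Classical in
theorem atv_fb_pos (Ω : Finset α) (h : α → σ) {x : α} (hx : x ∈ Ω) : 0 < (fb Ω h x : ℝ) := by
  rw [Nat.cast_pos]
  exact Finset.card_pos.2 ⟨x, Finset.mem_filter.2 ⟨hx, rfl⟩⟩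

open Classical in
theorem atv_term (Ω : Finset α) (h : α → σ) (y : α → ι → τ) (E : ι → Finset τ) {x : α}
    (hx : x ∈ Ω) : ∑ t ∈ Fintype.piFinset E,
      |((Ω.filter (fun z => h z = h x ∧ y z = t)).card : ℝ) / (fb Ω h x : ℝ) -
        1 / ((Fintype.piFinset E).card : ℝ)| = atv_g Ω h y E (h x) / (fb Ω h x : ℝ) := by
  have hpos := atv_fb_pos Ω h hx
  unfold atv_g
  rw [Finset.sum_div]
  refine Finset.sum_congr rfl fun t _ => ?_
  have h2 : ((Ω.filter (fun z => h z = h x)).card : ℝ) = (fb Ω h x : ℝ) := rfl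
  rw [h2]
  have h3 : ((Ω.filter (fun z => h z = h x ∧ y z = t)).card : ℝ) / (fb Ω h x : ℝ) -
      1 / ((Fintype.piFinset E).card : ℝ) =
      (((Ω.filter (fun z => h z = h x ∧ y z = t)).card : ℝ) -
        (fb Ω h x : ℝ) / ((Fintype.piFinset E).card : ℝ)) / (fb Ω h x : ℝ) := by
    rw [sub_div, div_div, mul_comm ((Fintype.piFinset E).card : ℝ), ← div_div,
      div_self hpos.ne']
  rw [h3, abs_div, abs_of_pos hpos]

open Classical in
theorem atv_eq (Ω : Finset α) (h : α → σ) (y : α → ι → τ) (E : ι → Finset τ) :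
    TV Ω h y E = ∑ s ∈ Ω.image h, atv_g Ω h y E s := by
  rw [← atv_fiber]
  unfold TV
  exact Finset.sum_congr rfl fun x hx => atv_term Ω h y E hx

open Classical in
/-- a finer partition has a larger deviation -/
theorem atv_refine (Ω : Finset α) (h : α → σ) (k : α → β) (f : β → σ)
    (hf : ∀ z ∈ Ω, f (k z) = h z) (y : α → ι → τ) (E : ι → Finset τ) :
    TV Ω h y E ≤ TV Ω k y E := by
  rw [atv_eq, atv_eq]
  obtain ⟨e, he⟩ : ∃ e : ℝ, e = ((Fintype.piFinset E).card : ℝ) := ⟨_, rfl⟩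
  have hmaps : ∀ u ∈ Ω.image k, f u ∈ Ω.image h := by
    intro u hu
    obtain ⟨x, hx, rfl⟩ := Finset.mem_image.1 hu
    rw [hf x hx]
    exact Finset.mem_image_of_mem h hx
  rw [← Finset.sum_fiberwise_of_maps_to hmaps]
  refine Finset.sum_le_sum fun s _ => ?_
  have hmaps2 : ∀ z ∈ Ω.filter (fun z => h z = s),
      k z ∈ (Ω.image k).filter (fun u => f u = s) := by
    intro z hz
    obtain ⟨hz1, hz2⟩ := Finset.mem_filter.1 hz
    exact Finset.mem_filter.2 ⟨Finset.mem_image_of_mem k hz1, by rw [hf z hz1, hz2]⟩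
  unfold atv_g
  rw [← he, Finset.sum_comm]
  refine Finset.sum_le_sum fun t _ => ?_
  have e1 : ((Ω.filter (fun z => h z = s ∧ y z = t)).card : ℝ) =
      ∑ u ∈ (Ω.image k).filter (fun u => f u = s),
        ((Ω.filter (fun z => k z = u ∧ y z = t)).card : ℝ) := by
    rw [Finset.card_eq_sum_card_fiberwise (f := k) (t := (Ω.image k).filter (fun u => f u = s))
      (fun x hx => hmaps2 x (Finset.mem_filter.2 ⟨(Finset.mem_filter.1 hx).1,
        (Finset.mem_filter.1 hx).2.1⟩))]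
    push_cast
    refine Finset.sum_congr rfl fun c hc => ?_
    congr 2
    ext z
    simp only [Finset.mem_filter]
    constructor
    · rintro ⟨⟨h1, h2, h3⟩, h4⟩
      exact ⟨h1, h4, h3⟩
    · rintro ⟨h1, h4, h3⟩
      exact ⟨⟨h1, by rw [← hf z h1, h4, (Finset.mem_filter.1 hc).2], h3⟩, h4⟩
  have e2 : ((Ω.filter (fun z => h z = s)).card : ℝ) =
      ∑ u ∈ (Ω.image k).filter (fun u => f u = s),
        ((Ω.filter (fun z => k z = u)).card : ℝ) := by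
    rw [Finset.card_eq_sum_card_fiberwise (f := k) (t := (Ω.image k).filter (fun u => f u = s))
      (fun x hx => hmaps2 x hx)]
    push_cast
    refine Finset.sum_congr rfl fun c hc => ?_
    congr 2
    ext z
    simp only [Finset.mem_filter]
    constructor
    · rintro ⟨⟨h1, h2⟩, h4⟩
      exact ⟨h1, h4⟩
    · rintro ⟨h1, h4⟩
      exact ⟨⟨h1, by rw [← hf z h1, h4, (Finset.mem_filter.1 hc).2]⟩, h4⟩
  rw [e1, e2, Finset.sum_div, ← Finset.sum_sub_distrib]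
  exact Finset.abs_sum_le_sum_abs _ _

open Classical in
/-- the number of elements of `∏ E i` -/
noncomputable def atv_e (E : ι → Finset τ) : ℝ := ((Fintype.piFinset E).card : ℝ)

open Classical in
theorem atv_inv_sum (Ω : Finset α) (b : α → β) (PU : α → Prop) (BX : Finset β)
    (hb : ∀ x ∈ Ω, PU x → b x ∈ BX) :
    ∑ x ∈ Ω.filter PU, 1 / (fb Ω b x : ℝ) ≤ BX.card := by
  have hmaps : ∀ x ∈ Ω.filter PU, b x ∈ BX := fun x hx =>
    hb x (Finset.mem_filter.1 hx).1 (Finset.mem_filter.1 hx).2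
  rw [← Finset.sum_fiberwise_of_maps_to hmaps]
  have h1 : ∀ u ∈ BX, ∑ x ∈ (Ω.filter PU).filter (fun x => b x = u), 1 / (fb Ω b x : ℝ) ≤ 1 := by
    intro u _
    have h2 : ∀ x ∈ (Ω.filter PU).filter (fun x => b x = u), 1 / (fb Ω b x : ℝ) =
        1 / ((Ω.filter (fun y => b y = u)).card : ℝ) := by
      intro x hx
      unfold fb
      rw [(Finset.mem_filter.1 hx).2]
    rw [Finset.sum_congr rfl h2, Finset.sum_const, nsmul_eq_mul, mul_one_div]
    refine div_le_one_of_le₀ ?_ (Nat.cast_nonneg _)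
    refine Nat.cast_le.2 (Finset.card_le_card ?_)
    intro x hx
    obtain ⟨hx1, hx2⟩ := Finset.mem_filter.1 hx
    exact Finset.mem_filter.2 ⟨(Finset.mem_filter.1 hx1).1, hx2⟩
  refine (Finset.sum_le_sum h1).trans ?_
  rw [Finset.sum_const, nsmul_eq_mul, mul_one]

open Classical in
theorem atv_main (Ω : Finset α) (k : α → σ) (b : α → β) (y : α → ι → τ) (E : ι → Finset τ)
    (PU : α → Prop) (BX : Finset β) (c ε : ℝ) (hε : 0 ≤ ε) (hy : ∀ x ∈ Ω, ∀ i, y x i ∈ E i)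
    (hb : ∀ x ∈ Ω, PU x → b x ∈ BX)
    (hk : ∀ x ∈ Ω, PU x → ∀ z ∈ Ω, (k z = k x ↔ b z = b x))
    (hc : ∀ x ∈ Ω, PU x → ∀ t : ι → τ, (∀ i, t i ∈ E i) → ∀ S : Finset α,
      (∀ z, z ∈ S ↔ z ∈ Ω ∧ b z = b x ∧ y z = t) → |(S.card : ℝ) - c| ≤ ε) :
    TV Ω k y E ≤ 2 * ((Ω.filter (fun x => ¬ PU x)).card : ℝ) +
      BX.card * (atv_e E * (2 * ε)) := by
  have hE : ∀ x ∈ Ω, y x ∈ Fintype.piFinset E := fun x hx => Fintype.mem_piFinset.2 (hy x hx)
  have he : ∀ x ∈ Ω, 0 < atv_e E := fun x hx =>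
    Nat.cast_pos.2 (Finset.card_pos.2 ⟨y x, hE x hx⟩)
  -- the sum of the numbers over `t`
  have hsum : ∀ x ∈ Ω, ∑ t ∈ Fintype.piFinset E,
      ((Ω.filter (fun z => k z = k x ∧ y z = t)).card : ℝ) = (fb Ω k x : ℝ) := by
    intro x _
    unfold fb
    rw [Finset.card_eq_sum_card_fiberwise (f := y) (t := Fintype.piFinset E)
      (fun z hz => hE z (Finset.mem_filter.1 hz).1)]
    push_cast
    refine Finset.sum_congr rfl fun t _ => ?_
    congr 2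
    ext z
    simp only [Finset.mem_filter]
    tauto
  have hbad : ∀ x ∈ Ω, ∑ t ∈ Fintype.piFinset E,
      |((Ω.filter (fun z => k z = k x ∧ y z = t)).card : ℝ) / (fb Ω k x : ℝ) -
        1 / ((Fintype.piFinset E).card : ℝ)| ≤ 2 := by
    intro x hx
    have hpos := atv_fb_pos Ω k hx
    have hpos' := he x hx
    have h1 : ∀ t ∈ Fintype.piFinset E,
        |((Ω.filter (fun z => k z = k x ∧ y z = t)).card : ℝ) / (fb Ω k x : ℝ) -
          1 / ((Fintype.piFinset E).card : ℝ)| ≤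
        ((Ω.filter (fun z => k z = k x ∧ y z = t)).card : ℝ) / (fb Ω k x : ℝ) +
          1 / ((Fintype.piFinset E).card : ℝ) := by
      intro t _
      refine (abs_sub _ _).trans (le_of_eq ?_)
      rw [abs_of_nonneg (by positivity), abs_of_nonneg (by positivity)]
    refine (Finset.sum_le_sum h1).trans (le_of_eq ?_)
    rw [Finset.sum_add_distrib, ← Finset.sum_div, hsum x hx, div_self hpos.ne', Finset.sum_const,
      nsmul_eq_mul, mul_one_div_cancel (by exact hpos'.ne')]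
    norm_num
  have hgood : ∀ x ∈ Ω, PU x → ∑ t ∈ Fintype.piFinset E,
      |((Ω.filter (fun z => k z = k x ∧ y z = t)).card : ℝ) / (fb Ω k x : ℝ) -
        1 / ((Fintype.piFinset E).card : ℝ)| ≤ (atv_e E * (2 * ε)) * (1 / (fb Ω b x : ℝ)) := by
    intro x hx hP
    have hpos := atv_fb_pos Ω k hx
    have hpos' := he x hx
    have hfb : (fb Ω k x : ℝ) = (fb Ω b x : ℝ) := by
      unfold fb
      congr 2
      ext z
      simp only [Finset.mem_filter]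
      constructor
      · rintro ⟨h1, h2⟩
        exact ⟨h1, (hk x hx hP z h1).1 h2⟩
      · rintro ⟨h1, h2⟩
        exact ⟨h1, (hk x hx hP z h1).2 h2⟩
    have hr : ∀ t ∈ Fintype.piFinset E,
        |((Ω.filter (fun z => k z = k x ∧ y z = t)).card : ℝ) - c| ≤ ε := by
      intro t ht
      refine hc x hx hP t (Fintype.mem_piFinset.1 ht) _ fun z => ?_
      rw [Finset.mem_filter]
      constructor
      · rintro ⟨h1, h2, h3⟩
        exact ⟨h1, (hk x hx hP z h1).1 h2, h3⟩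
      · rintro ⟨h1, h2, h3⟩
        exact ⟨h1, (hk x hx hP z h1).2 h2, h3⟩
    have hmean : |(fb Ω k x : ℝ) / atv_e E - c| ≤ ε := by
      have h1 : (fb Ω k x : ℝ) / atv_e E - c = (∑ t ∈ Fintype.piFinset E,
          (((Ω.filter (fun z => k z = k x ∧ y z = t)).card : ℝ) - c)) / atv_e E := by
        rw [Finset.sum_sub_distrib, hsum x hx, Finset.sum_const, nsmul_eq_mul, sub_div]
        congr 1
        rw [show ((Fintype.piFinset E).card : ℝ) = atv_e E from rfl]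
        field_simp
      rw [h1, abs_div, abs_of_pos hpos', div_le_iff₀ hpos']
      refine (Finset.abs_sum_le_sum_abs _ _).trans ?_
      refine (Finset.sum_le_sum hr).trans (le_of_eq ?_)
      rw [Finset.sum_const, nsmul_eq_mul, mul_comm]
      rfl
    have h2 : ∀ t ∈ Fintype.piFinset E,
        |((Ω.filter (fun z => k z = k x ∧ y z = t)).card : ℝ) / (fb Ω k x : ℝ) -
          1 / ((Fintype.piFinset E).card : ℝ)| ≤ 2 * ε * (1 / (fb Ω b x : ℝ)) := by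
      intro t ht
      have h3 : ((Ω.filter (fun z => k z = k x ∧ y z = t)).card : ℝ) / (fb Ω k x : ℝ) -
          1 / ((Fintype.piFinset E).card : ℝ) =
          ((((Ω.filter (fun z => k z = k x ∧ y z = t)).card : ℝ) - c) -
            ((fb Ω k x : ℝ) / atv_e E - c)) / (fb Ω k x : ℝ) := by
        rw [show ((Fintype.piFinset E).card : ℝ) = atv_e E from rfl]
        field_simp
        ring
      rw [h3, abs_div, abs_of_pos hpos, hfb, mul_one_div]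
      rw [hfb] at hpos
      refine div_le_div_of_nonneg_right ?_ hpos.le
      rw [← hfb]
      refine (abs_sub _ _).trans ?_
      linarith [hr t ht]
    refine (Finset.sum_le_sum h2).trans (le_of_eq ?_)
    rw [Finset.sum_const, nsmul_eq_mul]
    rw [show ((Fintype.piFinset E).card : ℝ) = atv_e E from rfl]
    ring
  unfold TV
  rw [← Finset.sum_filter_add_sum_filter_not Ω PU, add_comm]
  refine add_le_add ?_ ?_
  · refine (Finset.sum_le_sum (fun x hx => hbad x (Finset.mem_filter.1 hx).1)).trans (le_of_eq ?_)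
    rw [Finset.sum_const, nsmul_eq_mul, mul_comm]
  · refine (Finset.sum_le_sum (fun x hx => hgood x (Finset.mem_filter.1 hx).1
      (Finset.mem_filter.1 hx).2)).trans ?_
    rw [← Finset.mul_sum, mul_comm (BX.card : ℝ)]
    refine mul_le_mul_of_nonneg_left (atv_inv_sum Ω b PU BX hb) ?_
    exact mul_nonneg (Nat.cast_nonneg _) (by positivity)

end General

/-- the box of an element -/
noncomputable def atv_b (R Y : ℕ) (z : G) : ℤ × ℤ :=
  (⌈(R : ℝ) * (nn z : ℝ) / (Y : ℝ)⌉, ⌊(R : ℝ) * (ip z (nx Y z) : ℝ) / (nn z : ℝ)⌋)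

theorem atv_close_ceil {x y : ℝ} (h : ⌈x⌉ = ⌈y⌉) : |x - y| ≤ 1 := by
  have h1 := Int.ceil_lt_add_one x
  have h2 := Int.le_ceil x
  have h3 := Int.ceil_lt_add_one y
  have h4 := Int.le_ceil y
  rw [h] at h1 h2
  rw [abs_le]
  constructor <;> linarith

theorem atv_close_floor {x y : ℝ} (h : ⌊x⌋ = ⌊y⌋) : |x - y| ≤ 1 := by
  have h1 := Int.floor_le x
  have h2 := Int.lt_floor_add_one x
  have h3 := Int.floor_le y
  have h4 := Int.lt_floor_add_one y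
  rw [h] at h1 h2
  rw [abs_le]
  constructor <;> linarith

theorem atv_nn_pos {Y : ℕ} {u : G} (hu : u ∈ PN Y) : (0 : ℝ) < nn u := by
  rw [Nat.cast_pos]
  exact nn_pos.2 (prm_ne (mem_PN.1 hu).1)

theorem atv_ceil {R Y : ℝ} (hR : 0 < R) (hY : 0 < Y) (x : ℝ) (j : ℤ) :
    ⌈R * x / Y⌉ = j ↔ ((j : ℝ) - 1) / R * Y < x ∧ x ≤ (j : ℝ) / R * Y := by
  rw [Int.ceil_eq_iff, lt_div_iff₀ hY, div_le_iff₀ hY, div_mul_eq_mul_div, div_mul_eq_mul_div,
    div_lt_iff₀ hR, le_div_iff₀ hR, mul_comm x R]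

theorem atv_floor {R n : ℝ} (hR : 0 < R) (hn : 0 < n) (x : ℝ) (i : ℤ) :
    ⌊R * x / n⌋ = i ↔ (i : ℝ) / R * n ≤ x ∧ x < ((i : ℝ) + 1) / R * n := by
  rw [Int.floor_eq_iff, le_div_iff₀ hn, div_lt_iff₀ hn, div_mul_eq_mul_div, div_mul_eq_mul_div,
    div_le_iff₀ hR, lt_div_iff₀ hR, mul_comm x R]

/-- all pairs in the box of `u` are consecutive, with the same word -/
def atv_P (N L R Y : ℕ) (u : G) : Prop :=
  ∀ u' w' : G, det u' w' = 1 → |(nn u' : ℝ) / Y - (nn u : ℝ) / Y| ≤ 1 / R →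
    |(ip u' w' : ℝ) / (nn u' : ℝ) - (ip u (nx Y u) : ℝ) / (nn u : ℝ)| ≤ 1 / R →
    u' ∈ PN Y ∧ nx Y u' = w' ∧ Wd (nx Y) (ltr N Y) L u' = Wd (nx Y) (ltr N Y) L u

theorem atv_scale {R : ℝ} (hR : 0 < R) {x y : ℝ} (h : |R * x - R * y| ≤ 1) : |x - y| ≤ 1 / R := by
  rw [← mul_sub, abs_mul, abs_of_pos hR] at h
  rw [le_div_iff₀ hR]
  linarith

/-- elements in the box of `u` -/
theorem atv_in {N L R Y : ℕ} (hR : 1 ≤ R) {u : G} (hP : atv_P N L R Y u)
    {u' w' : G} (hd : det u' w' = 1)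
    (h1 : ⌈(R : ℝ) * (nn u' : ℝ) / (Y : ℝ)⌉ = (atv_b R Y u).1)
    (h2 : ⌊(R : ℝ) * (ip u' w' : ℝ) / (nn u' : ℝ)⌋ = (atv_b R Y u).2) :
    u' ∈ PN Y ∧ nx Y u' = w' ∧ Wd (nx Y) (ltr N Y) L u' = Wd (nx Y) (ltr N Y) L u := by
  have hR' : (0 : ℝ) < R := by exact_mod_cast hR
  refine hP u' w' hd (atv_scale hR' ?_) (atv_scale hR' ?_)
  · have h3 := atv_close_ceil (x := (R : ℝ) * (nn u' : ℝ) / (Y : ℝ))
      (y := (R : ℝ) * (nn u : ℝ) / (Y : ℝ)) h1
    rwa [mul_div_assoc, mul_div_assoc] at h3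
  · have h3 := atv_close_floor (x := (R : ℝ) * (ip u' w' : ℝ) / (nn u' : ℝ))
      (y := (R : ℝ) * (ip u (nx Y u) : ℝ) / (nn u : ℝ)) h2
    rwa [mul_div_assoc, mul_div_assoc] at h3

theorem atv_word {N L R Y : ℕ} (hR : 1 ≤ R) {u : G} (hP : atv_P N L R Y u) {z : G}
    (hz : z ∈ PN Y) (h : atv_b R Y z = atv_b R Y u) :
    Wd (nx Y) (ltr N Y) L z = Wd (nx Y) (ltr N Y) L u := by
  have h1 := congrArg Prod.fst h
  have h2 := congrArg Prod.snd h
  exact (atv_in hR hP (nx_det hz) h1 h2).2.2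

/-- the pairs in the box of `u` with given frames -/
theorem atv_reg (Q : Finset ℕ) {N L R Y : ℕ} (hR : 1 ≤ R) (hY : 1 ≤ Y) {u : G} (hu : u ∈ PN Y)
    (hP : atv_P N L R Y u) (t : Q → ℤ × ℤ) (S : Finset G)
    (hS : ∀ z, z ∈ S ↔ z ∈ PN Y ∧ atv_b R Y z = atv_b R Y u ∧ fr Q Y z = t) :
    (S.card : ℝ) = ((RegF Q t ((((atv_b R Y u).1 : ℝ) - 1) / R) (((atv_b R Y u).1 : ℝ) / R)
      (((atv_b R Y u).2 : ℝ) / R) ((((atv_b R Y u).2 : ℝ) + 1) / R) (Y : ℝ)).ncard : ℝ) := by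
  have hR' : (0 : ℝ) < R := by exact_mod_cast hR
  have hY' : (0 : ℝ) < Y := by exact_mod_cast hY
  have hj : 1 ≤ (atv_b R Y u).1 := by
    show 1 ≤ ⌈(R : ℝ) * (nn u : ℝ) / (Y : ℝ)⌉
    rw [Int.one_le_ceil_iff]
    have := atv_nn_pos hu
    positivity
  have hj' : (1 : ℝ) ≤ ((atv_b R Y u).1 : ℝ) := by exact_mod_cast hj
  have hset : RegF Q t ((((atv_b R Y u).1 : ℝ) - 1) / R) (((atv_b R Y u).1 : ℝ) / R)
      (((atv_b R Y u).2 : ℝ) / R) ((((atv_b R Y u).2 : ℝ) + 1) / R) (Y : ℝ) =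
      (fun z => (z, nx Y z)) '' (S : Set G) := by
    ext s
    constructor
    · rintro ⟨h1, h2, h3, h4, h5, h6⟩
      have hn : (0 : ℝ) < (nn s.1 : ℝ) := by
        refine lt_of_le_of_lt ?_ h3
        exact mul_nonneg (div_nonneg (by linarith) hR'.le) hY'.le
      have hb1 := (atv_ceil hR' hY' (nn s.1 : ℝ) (atv_b R Y u).1).2 ⟨h3, h4⟩
      have hb2 := (atv_floor hR' hn (ip s.1 s.2 : ℝ) (atv_b R Y u).2).2 ⟨h5, h6⟩
      obtain ⟨k1, k2, -⟩ := atv_in hR hP h1 hb1 hb2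
      refine ⟨s.1, ?_, Prod.ext rfl k2⟩
      rw [Finset.mem_coe, hS]
      refine ⟨k1, ?_, ?_⟩
      · refine Prod.ext hb1 ?_
        show ⌊(R : ℝ) * (ip s.1 (nx Y s.1) : ℝ) / (nn s.1 : ℝ)⌋ = _
        rw [k2]
        exact hb2
      · funext p
        show (det (pel (p : ℕ)) s.1 % ((p : ℕ) : ℤ),
          det (pel (p : ℕ)) (nx Y s.1) % ((p : ℕ) : ℤ)) = t p
        rw [k2]
        exact Prod.ext (h2 p).1 (h2 p).2
    · rintro ⟨z, hz, rfl⟩
      rw [Finset.mem_coe, hS] at hz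
      obtain ⟨k1, k2, k3⟩ := hz
      have hb1 := congrArg Prod.fst k2
      have hb2 := congrArg Prod.snd k2
      have l1 := (atv_ceil hR' hY' (nn z : ℝ) (atv_b R Y u).1).1 hb1
      have l2 := (atv_floor hR' (atv_nn_pos k1) (ip z (nx Y z) : ℝ) (atv_b R Y u).2).1 hb2
      refine ⟨nx_det k1, fun p => ?_, l1.1, l1.2, l2.1, l2.2⟩
      rw [← k3]
      exact ⟨rfl, rfl⟩
  rw [hset, Set.ncard_image_of_injective _ (fun x y hxy => congrArg Prod.fst hxy),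
    Set.ncard_coe_finset]

/-- the box of a good element is one of finitely many boxes -/
theorem atv_box {N L D R Y : ℕ} {a δ : ℝ} (ha : 0 < a) (hR : 1 ≤ R) (hY : 1 ≤ Y) {u : G}
    (hu : u ∈ PN Y) (hg : Gd N L D a δ Y u) :
    1 ≤ (atv_b R Y u).1 ∧ (atv_b R Y u).1 ≤ R ∧ 0 ≤ (atv_b R Y u).2 ∧
      (atv_b R Y u).2 ≤ ⌈(R : ℝ) / a⌉ := by
  have hR' : (0 : ℝ) < R := by exact_mod_cast hR
  have hY' : (0 : ℝ) < Y := by exact_mod_cast hY
  have hn := atv_nn_pos hu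
  have hle : (nn u : ℝ) ≤ Y := by exact_mod_cast (mem_PN.1 hu).2
  have hge := hg.1
  refine ⟨?_, ?_, ?_, ?_⟩
  · show 1 ≤ ⌈(R : ℝ) * (nn u : ℝ) / (Y : ℝ)⌉
    rw [Int.one_le_ceil_iff]
    positivity
  · show ⌈(R : ℝ) * (nn u : ℝ) / (Y : ℝ)⌉ ≤ R
    rw [Int.ceil_le, div_le_iff₀ hY', Int.cast_natCast]
    exact mul_le_mul_of_nonneg_left hle hR'.le
  · show 0 ≤ ⌊(R : ℝ) * (ip u (nx Y u) : ℝ) / (nn u : ℝ)⌋
    rw [Int.floor_nonneg]
    have h1 : (0 : ℝ) ≤ (ip u (nx Y u) : ℝ) := by exact_mod_cast nx_ip hu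
    positivity
  · show ⌊(R : ℝ) * (ip u (nx Y u) : ℝ) / (nn u : ℝ)⌋ ≤ ⌈(R : ℝ) / a⌉
    refine (Int.floor_le_ceil _).trans (Int.ceil_le_ceil ?_)
    rw [mul_div_assoc, div_eq_mul_inv (R : ℝ) a]
    refine mul_le_mul_of_nonneg_left ?_ hR'.le
    rw [div_le_iff₀ hn]
    have h1 : (0 : ℝ) ≤ (ip u (nx Y u) : ℝ) := by exact_mod_cast nx_ip hu
    have h2 : ((ip u (nx Y u) : ℝ)) ^ 2 ≤ (nn u : ℝ) * Y := by
      have h3 := ip_sq_add u (nx Y u)
      have h4 : (nn (nx Y u) : ℝ) ≤ Y := by exact_mod_cast (mem_PN.1 (nx_mem hu)).2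
      have h5 : ((nn u : ℝ)) * (nn (nx Y u) : ℝ) =
          (ip u (nx Y u) : ℝ) ^ 2 + (det u (nx Y u) : ℝ) ^ 2 := by exact_mod_cast h3
      nlinarith [sq_nonneg (det u (nx Y u) : ℝ), mul_le_mul_of_nonneg_left h4 hn.le]
    have h6 : (Y : ℝ) ≤ a⁻¹ * nn u := by
      rw [inv_mul_eq_div, le_div_iff₀ ha]
      linarith
    have h7 : 1 ≤ a⁻¹ := by
      rw [one_le_inv₀ ha]
      have : a * Y ≤ 1 * Y := by linarith
      exact le_of_mul_le_mul_right this hY'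
    have h8 : ((ip u (nx Y u) : ℝ)) ^ 2 ≤ (a⁻¹ * nn u) ^ 2 := by
      calc ((ip u (nx Y u) : ℝ)) ^ 2 ≤ (nn u : ℝ) * Y := h2
        _ ≤ (nn u : ℝ) * (a⁻¹ * nn u) := mul_le_mul_of_nonneg_left h6 hn.le
        _ ≤ a⁻¹ * ((nn u : ℝ) * (a⁻¹ * nn u)) := le_mul_of_one_le_left (by positivity) h7
        _ = (a⁻¹ * nn u) ^ 2 := by ring
    exact (pow_le_pow_iff_left₀ h1 (by positivity) two_ne_zero).1 h8

open Classical in
theorem tv_small_pr (Q : Finset ℕ) (hQ : Pset Q) (N L : ℕ) (hN : 1 ≤ N) (δ : ℝ) (hδ : 0 < δ) :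
    ∃ Y₀ : ℕ, ∀ Y : ℕ, Y₀ ≤ Y → TV (PN Y) (Wd (nx Y) (ltr N Y) L) (fr Q Y)
      (fun p : Q => Ep (p : ℕ)) ≤ δ * Y := by
  obtain ⟨D, a, δ', hD, ha, hδ', Y₁, hY₁⟩ := good_most N L hN (δ / 4) (by positivity)
  obtain ⟨R, Y₂, hR, hY₂⟩ := pure_box N L D hN a δ' ha hδ'
  obtain ⟨c, hc, hequi⟩ := equi_fr Q hQ
  have hR' : (0 : ℝ) < R := by exact_mod_cast hR
  obtain ⟨BX, hBX⟩ : ∃ BX : Finset (ℤ × ℤ),
    BX = Finset.Icc (1 : ℤ) R ×ˢ Finset.Icc (0 : ℤ) ⌈(R : ℝ) / a⌉ := ⟨_, rfl⟩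
  obtain ⟨EE, hEE⟩ : ∃ EE : Finset (Q → ℤ × ℤ),
    EE = Fintype.piFinset (fun p : Q => Ep (p : ℕ)) := ⟨_, rfl⟩
  obtain ⟨e, he⟩ : ∃ e : ℝ, e = atv_e (fun p : Q => Ep (p : ℕ)) := ⟨_, rfl⟩
  have he0 : 0 ≤ e := by
    rw [he]
    exact Nat.cast_nonneg _
  obtain ⟨ε', hε', hε''⟩ : ∃ ε' : ℝ, 0 < ε' ∧ (BX.card : ℝ) * (e * (2 * ε')) ≤ δ / 2 := by
    refine ⟨δ / (4 * ((BX.card : ℝ) * e + 1)), by positivity, ?_⟩
    have h1 : (0 : ℝ) < (BX.card : ℝ) * e + 1 := by positivity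
    rw [show (BX.card : ℝ) * (e * (2 * (δ / (4 * ((BX.card : ℝ) * e + 1))))) =
      ((BX.card : ℝ) * e) * δ / (2 * ((BX.card : ℝ) * e + 1)) by
        field_simp
        ring]
    rw [div_le_div_iff₀ (by positivity) (by norm_num)]
    nlinarith
  -- equidistribution in all boxes
  have hev : ∀ᶠ Y : ℝ in atTop, ∀ x ∈ BX ×ˢ EE, |((RegF Q x.2 (((x.1.1 : ℝ) - 1) / R)
      ((x.1.1 : ℝ) / R) ((x.1.2 : ℝ) / R) (((x.1.2 : ℝ) + 1) / R) Y).ncard : ℝ) / Y -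
        c * (1 / R) * (1 / R)| < ε' := by
    rw [Filter.eventually_all_finset]
    rintro ⟨⟨j, i⟩, t⟩ hx
    rw [Finset.mem_product, hBX, Finset.mem_product, Finset.mem_Icc, Finset.mem_Icc, hEE,
      Fintype.mem_piFinset] at hx
    obtain ⟨⟨⟨hj1, hj2⟩, hi1, hi2⟩, ht⟩ := hx
    have hj1' : (1 : ℝ) ≤ (j : ℝ) := by exact_mod_cast hj1
    have h1 := hequi t ht (((j : ℝ) - 1) / R) ((j : ℝ) / R) ((i : ℝ) / R) (((i : ℝ) + 1) / R)
      (div_nonneg (by linarith) hR'.le) (div_le_div_of_nonneg_right (by linarith) hR'.le)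
      (div_le_div_of_nonneg_right (by linarith) hR'.le)
    have h2 : c * ((j : ℝ) / R - ((j : ℝ) - 1) / R) * (((i : ℝ) + 1) / R - (i : ℝ) / R) =
        c * (1 / R) * (1 / R) := by
      rw [← sub_div, ← sub_div]
      congr 3
      · ring
      · ring
    rw [h2] at h1
    have h3 := (Metric.tendsto_nhds.1 h1) ε' hε'
    filter_upwards [h3] with Y hY
    rwa [Real.dist_eq] at hY
  obtain ⟨Y₃, hY₃⟩ := Filter.eventually_atTop.1 hev
  refine ⟨max (max Y₁ Y₂) (max ⌈Y₃⌉₊ 1), fun Y hY => ?_⟩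
  have hYa : Y₁ ≤ Y := (le_max_left _ _).trans ((le_max_left _ _).trans hY)
  have hYb : Y₂ ≤ Y := (le_max_right _ _).trans ((le_max_left _ _).trans hY)
  have hYc : Y₃ ≤ (Y : ℝ) := Nat.ceil_le.1 ((le_max_left _ _).trans ((le_max_right _ _).trans hY))
  have hYd : 1 ≤ Y := (le_max_right _ _).trans ((le_max_right _ _).trans hY)
  have hY' : (0 : ℝ) < Y := by exact_mod_cast hYd
  have hcount := hY₁ Y hYa
  have hreg := hY₃ (Y : ℝ) hYc
  obtain ⟨h, hh⟩ : ∃ h : G → (Fin L → ℤ × ℕ), h = Wd (nx Y) (ltr N Y) L := ⟨_, rfl⟩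
  rw [← hh]
  refine (atv_refine (PN Y) h (fun z => (h z, atv_b R Y z)) Prod.fst (fun _ _ => rfl) _ _).trans ?_
  obtain ⟨PU, hPU⟩ : ∃ PU : G → Prop, ∀ x, PU x ↔ ∃ u ∈ PN Y, Gd N L D a δ' Y u ∧
    atv_b R Y x = atv_b R Y u := ⟨_, fun _ => Iff.rfl⟩
  have hpure : ∀ u ∈ PN Y, Gd N L D a δ' Y u → atv_P N L R Y u := fun u hu hg => hY₂ Y hYb u hu hg
  refine (atv_main (PN Y) (fun z => (h z, atv_b R Y z)) (atv_b R Y) (fr Q Y) _ PU BX
    (c * (1 / R) * (1 / R) * Y) (ε' * Y) (by positivity) (fun x hx p => fr_mem hQ hx p)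
    ?_ ?_ ?_).trans ?_
  · intro x _ hP
    obtain ⟨u, hu, hg, hxu⟩ := (hPU x).1 hP
    obtain ⟨h1, h2, h3, h4⟩ := atv_box ha hR hYd hu hg
    rw [hxu, hBX, Finset.mem_product, Finset.mem_Icc, Finset.mem_Icc]
    exact ⟨⟨h1, h2⟩, h3, h4⟩
  · intro x hx hP z hz
    obtain ⟨u, hu, hg, hxu⟩ := (hPU x).1 hP
    constructor
    · intro h1
      exact congrArg Prod.snd h1
    · intro h1
      refine Prod.ext ?_ h1
      show h z = h x
      rw [hh, atv_word hR (hpure u hu hg) hz (h1.trans hxu), atv_word hR (hpure u hu hg) hx hxu]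
  · intro x hx hP t ht S hS
    obtain ⟨u, hu, hg, hxu⟩ := (hPU x).1 hP
    obtain ⟨h1, h2, h3, h4⟩ := atv_box ha hR hYd hu hg
    have hmem : (atv_b R Y u, t) ∈ BX ×ˢ EE := by
      rw [Finset.mem_product, hBX, Finset.mem_product, Finset.mem_Icc, Finset.mem_Icc, hEE,
        Fintype.mem_piFinset]
      exact ⟨⟨⟨h1, h2⟩, h3, h4⟩, ht⟩
    have h5 := hreg _ hmem
    rw [atv_reg Q hR hYd hu (hpure u hu hg) t S (fun z => by rw [hS, hxu])]
    obtain ⟨n, hn⟩ : ∃ n : ℝ, n = ((RegF Q t ((((atv_b R Y u).1 : ℝ) - 1) / R)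
      (((atv_b R Y u).1 : ℝ) / R) (((atv_b R Y u).2 : ℝ) / R)
      ((((atv_b R Y u).2 : ℝ) + 1) / R) (Y : ℝ)).ncard : ℝ) := ⟨_, rfl⟩
    rw [← hn] at h5 ⊢
    have h6 : n - c * (1 / R) * (1 / R) * Y = (n / Y - c * (1 / R) * (1 / R)) * Y := by
      rw [sub_mul, div_mul_cancel₀ _ hY'.ne']
    rw [h6, abs_mul, abs_of_pos hY']
    exact mul_le_mul_of_nonneg_right h5.le hY'.le
  · have h1 : (((PN Y).filter (fun x => ¬ PU x)).card : ℝ) ≤ δ / 4 * Y := by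
      refine le_trans ?_ hcount
      refine Nat.cast_le.2 (Finset.card_le_card ?_)
      intro x hx
      obtain ⟨hx1, hx2⟩ := Finset.mem_filter.1 hx
      refine Finset.mem_filter.2 ⟨hx1, fun hg => hx2 ((hPU x).2 ⟨x, hx1, hg, rfl⟩)⟩
    rw [← he]
    have h2 : (BX.card : ℝ) * (e * (2 * (ε' * Y))) = (BX.card : ℝ) * (e * (2 * ε')) * Y := by ring
    rw [h2]
    have h3 := mul_le_mul_of_nonneg_right hε'' hY'.le
    linarith

end Pool.Agent.T2


namespace Pool.Agent.T2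

theorem tv_small : type_of% @tv_small_pr := @tv_small_pr

end Pool.Agent.T2
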