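import Pool.Agent.Lib_helper39.TA.Defs
import Pool.Agent.Lib_helper10.T2F.ADV
import Pool.Agent.Lib_helper10.T2F.AEN
import Pool.Agent.Lib_helper10.T2F.AFH
import Pool.Agent.Lib_helper10.T2F.AFR
import Pool.Agent.Lib_helper10.T2F.AIT
import Pool.Agent.Lib_helper10.T2F.ANM
import Pool.Agent.Lib_helper10.T2F.ANT
import Pool.Agent.Lib_helper10.T2F.APH
import Pool.Agent.Lib_helper10.T2F.ATV
import Pool.Agent.Lib_helper10.T2F.AWD

/-!
# T2, package A, block ASB: the bound at one scale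
-/

namespace Pool.Agent.T2

open Filter Topology

theorem asb_avg (Y H : ℕ) (hH : 1 ≤ H) (F : G → ℝ) :
    ∑ u ∈ PN Y, (1 / (H : ℝ)) * ∑ a ∈ Finset.range H, F (it Y a u) = ∑ u ∈ PN Y, F u := by
  have hH0 : (H : ℝ) ≠ 0 := by
    have : H ≠ 0 := by omega
    exact_mod_cast this
  rw [← Finset.mul_sum, Finset.sum_comm]
  simp only [sum_it]
  rw [Finset.sum_const, Finset.card_range, nsmul_eq_mul]
  field_simp

theorem asb_MI (Q : Finset ℕ) (N L Y : ℕ) : 0 ≤ MI Q N L Y := by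
  unfold MI
  rw [sub_nonneg]
  exact cE_cond_le _ _ _ _ (fun x _ y _ h => congrArg Prod.snd h)

theorem asb_TV (Q : Finset ℕ) (N L Y : ℕ) : 0 ≤ TV (PN Y) (Wd (nx Y) (ltr N Y) L) (fr Q Y)
    (fun p : Q => Ep (p : ℕ)) := by
  unfold TV
  exact Finset.sum_nonneg fun _ _ => Finset.sum_nonneg fun _ _ => abs_nonneg _

theorem asb_th (p : ℕ) (u : G) : |th p u| ≤ 1 + (open scoped Classical in
    if pel p ∣ u then (p : ℝ) + 1 else 0) := by
  classical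
  unfold th
  have hp : (0 : ℝ) ≤ p := by positivity
  by_cases h : pel p ∣ u
  · simp only [h, if_true]
    rw [abs_le]
    constructor <;> linarith
  · simp only [h, if_false]
    norm_num

open Classical in
/-- the part of the points which are not tame, one prime -/
theorem asb_nt (α β : ℝ) {B N M L Y : ℕ} {Q : Finset ℕ} (hB : 1 ≤ B) (hN : 1 ≤ N)
    (hL2 : 2 ≤ L) (hQ : Pset Q) (hL : 16 * (L + 1) ^ 2 ≤ Y) (p : Q) :
    ∑ u ∈ (PN Y).filter (fun u => ¬ Tm B N M L Y u),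
      |(1 / ((L / 2 : ℕ) : ℝ)) * ∑ a ∈ Finset.range (L / 2),
        FH α β B N L Y (p : ℕ) (it Y a u) * th (p : ℕ) (it Y a u)| ≤
      2 * (B : ℝ) ^ 3 * (2 * (((PN Y).filter (fun u => ¬ Tm B N M L Y u)).card : ℝ) +
        ((p : ℕ) + 1 : ℝ) * TV (PN Y) (Wd (nx Y) (ltr N Y) L) (fr Q Y)
          (fun p : Q => Ep (p : ℕ))) := by
  set H : ℕ := L / 2 with hH
  have hH1 : 1 ≤ H := by omega
  have hHr : (0 : ℝ) < H := by
    have : 0 < H := by omega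
    exact_mod_cast this
  set NT := (PN Y).filter (fun u => ¬ Tm B N M L Y u) with hNT
  set V := TV (PN Y) (Wd (nx Y) (ltr N Y) L) (fr Q Y) (fun p : Q => Ep (p : ℕ)) with hV
  have h1 : ∀ u ∈ NT, |(1 / (H : ℝ)) * ∑ a ∈ Finset.range H,
      FH α β B N L Y (p : ℕ) (it Y a u) * th (p : ℕ) (it Y a u)| ≤
      (1 / (H : ℝ)) * ∑ a ∈ Finset.range H, 2 * (B : ℝ) ^ 3 *
        (1 + if pel (p : ℕ) ∣ it Y a u then ((p : ℕ) : ℝ) + 1 else 0) := by
    intro u hu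
    rw [hNT, Finset.mem_filter] at hu
    rw [abs_mul, abs_of_nonneg (by positivity : (0 : ℝ) ≤ 1 / (H : ℝ))]
    apply mul_le_mul_of_nonneg_left _ (by positivity)
    refine (Finset.abs_sum_le_sum_abs _ _).trans (Finset.sum_le_sum fun a _ => ?_)
    rw [abs_mul]
    apply mul_le_mul (FH_le α β hB hN hL (it_mem hu.1 a)) (asb_th _ _) (abs_nonneg _)
      (by positivity)
  refine (Finset.sum_le_sum h1).trans ?_
  rw [← Finset.mul_sum, Finset.sum_comm]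
  have h2 : ∀ a ∈ Finset.range H, ∑ u ∈ NT, 2 * (B : ℝ) ^ 3 *
        (1 + if pel (p : ℕ) ∣ it Y a u then ((p : ℕ) : ℝ) + 1 else 0) ≤
      2 * (B : ℝ) ^ 3 * (2 * (NT.card : ℝ) + ((p : ℕ) + 1 : ℝ) * V) := by
    intro a ha
    rw [Finset.mem_range] at ha
    rw [← Finset.mul_sum]
    apply mul_le_mul_of_nonneg_left _ (by positivity)
    rw [Finset.sum_add_distrib, ← Finset.sum_filter, Finset.sum_const, Finset.sum_const,
      nsmul_eq_mul, nsmul_eq_mul, mul_one]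
    have h3 := nontame_div hQ B N M L Y p a (by omega)
    rw [hNT, Finset.filter_filter]
    rw [← hNT]
    rw [← hNT, ← hV] at h3
    linarith
  have h4 := Finset.sum_le_sum h2
  rw [Finset.sum_const, Finset.card_range, nsmul_eq_mul] at h4
  have h5 := mul_le_mul_of_nonneg_left h4 (by positivity : (0 : ℝ) ≤ 1 / (H : ℝ))
  refine h5.trans (le_of_eq ?_)
  field_simp

open Classical in
/-- the whole sum -/
theorem asb_split (α β : ℝ) {B N M L Y : ℕ} {Q : Finset ℕ} (hB : 1 ≤ B) (hN : 1 ≤ N)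
    (hL2 : 2 ≤ L) (hQ : Pset Q) (hL : 16 * (L + 1) ^ 2 ≤ Y) (hQL : ∀ p ∈ Q, p ≤ L) :
    |∑ p ∈ Q, ∑ u ∈ PN Y, FH α β B N L Y p u * th p u| ≤
      |∑ u ∈ PN Y, ∑ p : Q, Ph α β B N M L Y (p : ℕ) u (fr Q Y u p)| +
      (Q.card : ℝ) * (2 * (B : ℝ) ^ 3 * (2 * (((PN Y).filter (fun u => ¬ Tm B N M L Y u)).card : ℝ) +
        ((L : ℝ) + 1) * TV (PN Y) (Wd (nx Y) (ltr N Y) L) (fr Q Y)
          (fun p : Q => Ep (p : ℕ)))) := by
  have hH1 : 1 ≤ L / 2 := by omega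
  set V := TV (PN Y) (Wd (nx Y) (ltr N Y) L) (fr Q Y) (fun p : Q => Ep (p : ℕ)) with hV
  have hV0 : 0 ≤ V := asb_TV Q N L Y
  set NT := (PN Y).filter (fun u => ¬ Tm B N M L Y u) with hNT
  have e1 : ∑ p ∈ Q, ∑ u ∈ PN Y, FH α β B N L Y p u * th p u =
      ∑ u ∈ PN Y, ∑ p : Q, Ph α β B N M L Y (p : ℕ) u (fr Q Y u p) +
      ∑ p : Q, ∑ u ∈ NT, (1 / ((L / 2 : ℕ) : ℝ)) * ∑ a ∈ Finset.range (L / 2),
        FH α β B N L Y (p : ℕ) (it Y a u) * th (p : ℕ) (it Y a u) := by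
    rw [← Finset.sum_coe_sort Q, Finset.sum_comm (s := PN Y), ← Finset.sum_add_distrib]
    refine Finset.sum_congr rfl fun p _ => ?_
    rw [← asb_avg Y (L / 2) hH1 (fun u => FH α β B N L Y (p : ℕ) u * th (p : ℕ) u)]
    rw [← Finset.sum_filter_add_sum_filter_not (PN Y) (fun u => Tm B N M L Y u)]
    congr 1
    rw [Finset.sum_filter]
    refine Finset.sum_congr rfl fun u hu => ?_
    rw [Ph_value α β hQ hu p]
  rw [e1]
  refine (abs_add_le _ _).trans (add_le_add le_rfl ?_)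
  refine (Finset.abs_sum_le_sum_abs _ _).trans ?_
  have h2 : ∀ p ∈ (Finset.univ : Finset Q), |∑ u ∈ NT, (1 / ((L / 2 : ℕ) : ℝ)) *
      ∑ a ∈ Finset.range (L / 2),
        FH α β B N L Y (p : ℕ) (it Y a u) * th (p : ℕ) (it Y a u)| ≤
      2 * (B : ℝ) ^ 3 * (2 * (NT.card : ℝ) + ((L : ℝ) + 1) * V) := by
    intro p _
    refine (Finset.abs_sum_le_sum_abs _ _).trans ((asb_nt α β hB hN hL2 hQ hL p).trans ?_)
    apply mul_le_mul_of_nonneg_left _ (by positivity)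
    have h3 : ((p : ℕ) : ℝ) ≤ L := by exact_mod_cast hQL p p.2
    have h4 : (((p : ℕ) : ℝ) + 1) * V ≤ ((L : ℝ) + 1) * V :=
      mul_le_mul_of_nonneg_right (by linarith) hV0
    rw [← hNT, ← hV]
    linarith
  refine (Finset.sum_le_sum h2).trans (le_of_eq ?_)
  rw [Finset.sum_const, Finset.card_univ, Fintype.card_coe, nsmul_eq_mul]

theorem scale_bound_pr (α β : ℝ) : ∃ C : ℝ, 1 ≤ C ∧ ∀ (B N M L : ℕ) (Q : Finset ℕ), 1 ≤ B → 1 ≤ N →
    1 ≤ M → 2 ≤ L → Pset Q → (∀ p ∈ Q, p ≤ L) → ∀ l δ : ℝ, 0 < l → 0 < δ →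
    ∃ Y₀ : ℕ, ∀ Y : ℕ, Y₀ ≤ Y →
      |∑ p ∈ Q, ∑ u ∈ PN Y, FH α β B N L Y p u * th p u| ≤
        C * Y * (MI Q N L Y / l + l * (100 * (B : ℝ) ^ 4 * M) ^ 2 * Q.card +
          (Q.card : ℝ) * (B : ℝ) ^ 3 / M + δ) := by
  classical
  obtain ⟨C₁, hC₁, hPN⟩ := PN_le
  obtain ⟨C₂, hC₂, hNT⟩ := nontame_count
  refine ⟨C₁ + 4 * C₂, by linarith, ?_⟩
  intro B N M L Q hB hN hM hL2 hQ hQL l δ hl hδ
  have hB1 : (1 : ℝ) ≤ B := by exact_mod_cast hB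
  have hM1 : (1 : ℝ) ≤ M := by exact_mod_cast hM
  set B' : ℝ := 100 * (B : ℝ) ^ 4 * M with hB'
  have hB'0 : 0 ≤ B' := by positivity
  set E₁ : ℝ := Real.exp (l * B' * Q.card) / l with hE₁
  have hE₁0 : 0 ≤ E₁ := by positivity
  set E₂ : ℝ := (Q.card : ℝ) * (2 * (B : ℝ) ^ 3 * ((L : ℝ) + 1)) with hE₂
  have hE₂0 : 0 ≤ E₂ := by positivity
  set δ' : ℝ := δ / (E₁ + E₂ + 1) with hδ'
  have hδ'0 : 0 < δ' := by positivity
  obtain ⟨Y₀, hY₀⟩ := tv_small Q hQ N L hN δ' hδ'0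
  refine ⟨max (max Y₀ (16 * (L + 1) ^ 2)) 1, fun Y hY => ?_⟩
  have hY1 : Y₀ ≤ Y := le_trans (le_trans (le_max_left _ _) (le_max_left _ _)) hY
  have hY2 : 16 * (L + 1) ^ 2 ≤ Y := le_trans (le_trans (le_max_right _ _) (le_max_left _ _)) hY
  have hY3 : 1 ≤ Y := le_trans (le_max_right _ _) hY
  have hYr : (0 : ℝ) < Y := by
    have : 0 < Y := by omega
    exact_mod_cast this
  have htv := hY₀ Y hY1
  have hsp := asb_split α β (M := M) hB hN hL2 hQ hY2 hQL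
  set V := TV (PN Y) (Wd (nx Y) (ltr N Y) L) (fr Q Y) (fun p : Q => Ep (p : ℕ)) with hV
  have hV0 : 0 ≤ V := asb_TV Q N L Y
  have hnt := hNT B N M L Y hM hY3
  have hMI := asb_MI Q N L Y
  have hdv := dv_bound (PN Y) (Wd (nx Y) sgb L) (Wd (nx Y) (ltr N Y) L) (fr Q Y)
    (fun p : Q => Ep (p : ℕ)) (fun x hx i => fr_mem hQ hx i)
    (fun (p : Q) u t => Ph α β B N M L Y (p : ℕ) u t)
    (fun i x hx x' hx' hf hh t _ => word_Ph α β B M (i : ℕ) hx hx' hh hf t)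
    B' hB'0
    (fun i x hx t ht => Ph_le α β hB hN hM hL2 (hQ i i.2).1 (hQL i i.2) hY2 hx ht)
    (fun i x hx => Ph_zero α β (hQ i i.2).1 hx) l hl
  rw [Fintype.card_coe] at hdv
  have hMIe : cE (PN Y) (Wd (nx Y) sgb L) (Wd (nx Y) (ltr N Y) L) -
    cE (PN Y) (Wd (nx Y) sgb L) (fun u => (fr Q Y u, Wd (nx Y) (ltr N Y) L u)) = MI Q N L Y := rfl
  rw [hMIe, ← hV, ← hE₁] at hdv
  have h1 : ((PN Y).card : ℝ) * (MI Q N L Y / l + l * B' ^ 2 * Q.card / 2) ≤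
      C₁ * Y * (MI Q N L Y / l + l * B' ^ 2 * Q.card) := by
    apply mul_le_mul (hPN Y) _ (by positivity) (by positivity)
    have : 0 ≤ l * B' ^ 2 * Q.card := by positivity
    linarith
  have h2 : E₁ * V + (Q.card : ℝ) * (2 * (B : ℝ) ^ 3 * (((L : ℝ) + 1) * V)) ≤ δ * Y := by
    have h3 : E₁ * V + (Q.card : ℝ) * (2 * (B : ℝ) ^ 3 * (((L : ℝ) + 1) * V)) =
        (E₁ + E₂) * V := by rw [hE₂]; ring
    rw [h3]
    have h4 : (E₁ + E₂) * V ≤ (E₁ + E₂) * (δ' * Y) := mul_le_mul_of_nonneg_left htv (by positivity)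
    have h5 : (E₁ + E₂) * (δ' * Y) ≤ (E₁ + E₂ + 1) * (δ' * Y) :=
      mul_le_mul_of_nonneg_right (by linarith) (by positivity)
    have h6 : (E₁ + E₂ + 1) * (δ' * Y) = δ * Y := by
      rw [hδ']
      field_simp
    linarith
  have h7 : (Q.card : ℝ) * (2 * (B : ℝ) ^ 3 *
      (2 * (((PN Y).filter (fun u => ¬ Tm B N M L Y u)).card : ℝ))) ≤
      4 * C₂ * Y * ((Q.card : ℝ) * (B : ℝ) ^ 3 / M) := by
    have h8 : (Q.card : ℝ) * (2 * (B : ℝ) ^ 3 *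
      (2 * (((PN Y).filter (fun u => ¬ Tm B N M L Y u)).card : ℝ))) =
      (4 * (Q.card : ℝ) * (B : ℝ) ^ 3) * (((PN Y).filter (fun u => ¬ Tm B N M L Y u)).card : ℝ) := by
      ring
    rw [h8]
    refine (mul_le_mul_of_nonneg_left hnt (by positivity)).trans (le_of_eq ?_)
    ring
  have hK1 : 0 ≤ MI Q N L Y / l := by positivity
  have hK2 : 0 ≤ l * B' ^ 2 * Q.card := by positivity
  have hK3 : 0 ≤ (Q.card : ℝ) * (B : ℝ) ^ 3 / M := by positivity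
  have hfin1 : C₁ * Y * (MI Q N L Y / l + l * B' ^ 2 * Q.card) ≤
      (C₁ + 4 * C₂) * Y * (MI Q N L Y / l + l * B' ^ 2 * Q.card) := by
    apply mul_le_mul_of_nonneg_right _ (by positivity)
    apply mul_le_mul_of_nonneg_right _ hYr.le
    linarith
  have hfin2 : 4 * C₂ * Y * ((Q.card : ℝ) * (B : ℝ) ^ 3 / M) ≤
      (C₁ + 4 * C₂) * Y * ((Q.card : ℝ) * (B : ℝ) ^ 3 / M) := by
    apply mul_le_mul_of_nonneg_right _ hK3
    apply mul_le_mul_of_nonneg_right _ hYr.le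
    linarith
  have hfin3 : δ * Y ≤ (C₁ + 4 * C₂) * Y * δ := by
    have : 0 ≤ Y * δ := by positivity
    nlinarith
  calc |∑ p ∈ Q, ∑ u ∈ PN Y, FH α β B N L Y p u * th p u|
      ≤ _ := hsp
    _ ≤ (C₁ + 4 * C₂) * Y * (MI Q N L Y / l + l * B' ^ 2 * Q.card +
          (Q.card : ℝ) * (B : ℝ) ^ 3 / M + δ) := by
        have e : (C₁ + 4 * C₂) * Y * (MI Q N L Y / l + l * B' ^ 2 * Q.card +
          (Q.card : ℝ) * (B : ℝ) ^ 3 / M + δ) =
          (C₁ + 4 * C₂) * Y * (MI Q N L Y / l + l * B' ^ 2 * Q.card) +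
          (C₁ + 4 * C₂) * Y * ((Q.card : ℝ) * (B : ℝ) ^ 3 / M) + (C₁ + 4 * C₂) * Y * δ := by ring
        rw [e]
        have e2 : (Q.card : ℝ) * (2 * (B : ℝ) ^ 3 *
            (2 * (((PN Y).filter (fun u => ¬ Tm B N M L Y u)).card : ℝ) + ((L : ℝ) + 1) * V)) =
            (Q.card : ℝ) * (2 * (B : ℝ) ^ 3 *
              (2 * (((PN Y).filter (fun u => ¬ Tm B N M L Y u)).card : ℝ))) +
            (Q.card : ℝ) * (2 * (B : ℝ) ^ 3 * (((L : ℝ) + 1) * V)) := by ring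
        rw [e2]
        linarith

end Pool.Agent.T2


namespace Pool.Agent.T2

theorem scale_bound : type_of% @scale_bound_pr := @scale_bound_pr

end Pool.Agent.T2
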