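import Pool.Agent.Lib_helper39.TA.Defs

/-! Block ASL of package A: the choice of the scale. -/

set_option autoImplicit false

namespace Pool.Agent.T2

open Finset Filter Topology

/-- the scales -/
noncomputable def asl_L (ε : ℝ) (L₀ : ℕ) : ℕ → ℕ
  | 0 => max L₀ 3
  | n + 1 => (⌈2 * Real.log (asl_L ε L₀ n) / ε⌉₊ + 2) * asl_L ε L₀ n

theorem asl_ge (ε : ℝ) (L₀ : ℕ) (n : ℕ) : max L₀ 3 ≤ asl_L ε L₀ n := by
  induction n with
  | zero => exact le_rfl
  | succ n ih =>
    refine ih.trans ?_
    show _ ≤ (⌈2 * Real.log (asl_L ε L₀ n) / ε⌉₊ + 2) * asl_L ε L₀ n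
    exact Nat.le_mul_of_pos_left _ (by omega)

theorem asl_phi {C x h : ℝ} (hC : 0 < C) (hx : 1 ≤ x) (hh : 0 ≤ h) (hhC : h ≤ C + Real.log x) :
    Real.log (C + Real.log (x + h)) ≤ Real.log (C + Real.log x) + 1 / x := by
  have hx0 : 0 < x := by linarith
  have hlx : 0 ≤ Real.log x := Real.log_nonneg hx
  have h1 : Real.log (x + h) ≤ Real.log x + h / x := by
    have e : x + h = x * (1 + h / x) := by field_simp
    have hp : 0 < 1 + h / x := by positivity
    rw [e, Real.log_mul hx0.ne' hp.ne']
    have := Real.log_le_sub_one_of_pos hp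
    linarith
  have hCl : 0 < C + Real.log x := by linarith
  have hlxh : 0 ≤ Real.log (x + h) := Real.log_nonneg (by linarith)
  have h2 : Real.log (C + Real.log (x + h)) ≤ Real.log ((C + Real.log x) * (1 + 1 / x)) := by
    apply Real.log_le_log (by linarith)
    have h3 : h / x ≤ (C + Real.log x) * (1 / x) := by
      rw [mul_one_div]
      exact div_le_div_of_nonneg_right hhC hx0.le
    linarith
  refine h2.trans ?_
  have hp : 0 < 1 + 1 / x := by positivity
  rw [Real.log_mul hCl.ne' hp.ne']
  have := Real.log_le_sub_one_of_pos hp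
  linarith

theorem scale_list_pr (ε : ℝ) (hε : 0 < ε) (L₀ : ℕ) : ∃ S : Finset ℕ, (∀ L ∈ S, L₀ ≤ L) ∧
    ∀ a I : ℕ → ℝ, (∀ L, 0 ≤ a L) → (∀ L, a L ≤ 1) →
      (∀ m L : ℕ, 1 ≤ m → 1 ≤ L → a (m * L) ≤ a L - I L / L + 1 / m) →
      ∃ L ∈ S, I L ≤ ε * (L / Real.log L) := by
  set Ls : ℕ → ℕ := asl_L ε L₀ with hLs
  set x : ℕ → ℝ := fun n => Real.log (Ls n) with hx
  have hL3 : ∀ n, 3 ≤ Ls n := fun n => (le_max_right _ _).trans (asl_ge ε L₀ n)
  have hL3' : ∀ n, (3 : ℝ) ≤ Ls n := fun n => by exact_mod_cast hL3 n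
  have hx1 : ∀ n, 1 ≤ x n := fun n => by
    have h1 : Real.exp 1 ≤ Ls n := by
      have := Real.exp_one_lt_d9
      have := hL3' n
      linarith
    have h2 := Real.log_le_log (Real.exp_pos 1) h1
    rwa [Real.log_exp] at h2
  set m : ℕ → ℕ := fun n => ⌈2 * x n / ε⌉₊ + 2 with hm
  have hrec : ∀ n, Ls (n + 1) = m n * Ls n := fun n => rfl
  have hxrec : ∀ n, x (n + 1) = x n + Real.log (m n) := fun n => by
    have h1 : (m n : ℝ) ≠ 0 := by
      have : 0 < m n := by simp only [hm]; omega
      exact_mod_cast this.ne'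
    have h2 : (Ls n : ℝ) ≠ 0 := by
      have := hL3' n
      intro h; linarith
    simp only [hx]
    rw [hrec, Nat.cast_mul, Real.log_mul h1 h2, add_comm]
  set C : ℝ := Real.log (2 / ε + 3) with hC
  have hC0 : 0 < C := by
    apply Real.log_pos
    have : 0 < 2 / ε := by positivity
    linarith
  have hm2 : ∀ n, (2 : ℝ) ≤ m n := fun n => by
    have : 2 ≤ m n := by simp only [hm]; omega
    exact_mod_cast this
  have hmup : ∀ n, Real.log (m n) ≤ C + Real.log (x n) := fun n => by
    have h0 := hx1 n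
    have h1 : (m n : ℝ) ≤ (2 / ε + 3) * x n := by
      have h2 : ((⌈2 * x n / ε⌉₊ : ℕ) : ℝ) < 2 * x n / ε + 1 :=
        Nat.ceil_lt_add_one (by positivity)
      have h3 : (m n : ℝ) = ((⌈2 * x n / ε⌉₊ : ℕ) : ℝ) + 2 := by
        simp only [hm]; push_cast; rfl
      rw [h3]
      have h4 : (2 / ε + 3) * x n = 2 * x n / ε + 3 * x n := by ring
      rw [h4]
      linarith
    have h2 := Real.log_le_log (by have := hm2 n; linarith) h1
    rw [Real.log_mul (by positivity) (by linarith)] at h2
    exact h2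
  have hphi : ∀ n, Real.log (C + Real.log (x (n + 1))) ≤
      Real.log (C + Real.log (x n)) + 1 / x n := fun n => by
    rw [hxrec]
    exact asl_phi hC0 (hx1 n) (Real.log_nonneg (by have := hm2 n; linarith)) (hmup n)
  have hsum : ∀ n, Real.log (C + Real.log (x n)) ≤
      Real.log (C + Real.log (x 0)) + ∑ i ∈ range n, 1 / x i := fun n => by
    induction n with
    | zero => simp
    | succ n ih =>
      rw [Finset.sum_range_succ]
      have := hphi n
      linarith
  have hxlow : ∀ n : ℕ, (n : ℝ) * Real.log 2 ≤ x n := fun n => by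
    induction n with
    | zero =>
      have := hx1 0
      simp only [Nat.cast_zero, zero_mul]
      linarith
    | succ n ih =>
      rw [hxrec]
      have h1 : Real.log 2 ≤ Real.log (m n) := Real.log_le_log (by norm_num) (hm2 n)
      push_cast
      linarith
  have hxtop : Tendsto x atTop atTop := by
    apply tendsto_atTop_mono hxlow
    exact tendsto_natCast_atTop_atTop.atTop_mul_const (Real.log_pos (by norm_num))
  have hphitop : Tendsto (fun n => Real.log (C + Real.log (x n))) atTop atTop := by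
    apply Real.tendsto_log_atTop.comp
    apply tendsto_atTop_add_const_left
    exact Real.tendsto_log_atTop.comp hxtop
  obtain ⟨n, hn⟩ := (hphitop.eventually_gt_atTop
    (Real.log (C + Real.log (x 0)) + 2 / ε)).exists
  refine ⟨(range n).image Ls, fun L hL => ?_, fun a I ha0 ha1 haI => ?_⟩
  · rw [Finset.mem_image] at hL
    obtain ⟨i, _, rfl⟩ := hL
    exact (le_max_left _ _).trans (asl_ge ε L₀ i)
  · by_contra hcon
    push Not at hcon
    have hcon' : ∀ i < n, ε * (Ls i / x i) < I (Ls i) := fun i hi =>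
      hcon (Ls i) (Finset.mem_image.2 ⟨i, Finset.mem_range.2 hi, rfl⟩)
    have hstep : ∀ i < n, a (Ls (i + 1)) ≤ a (Ls i) - ε / 2 * (1 / x i) := by
      intro i hi
      have h0 := hx1 i
      have hxi : 0 < x i := by linarith
      have hLi : (0 : ℝ) < Ls i := by have := hL3' i; linarith
      have h1 := haI (m i) (Ls i) (by
        have : 2 ≤ m i := by simp only [hm]; omega
        omega) (by have := hL3 i; omega)
      rw [← hrec] at h1
      have h2 : ε * (1 / x i) ≤ I (Ls i) / Ls i := by
        rw [le_div_iff₀ hLi]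
        have := (hcon' i hi).le
        calc ε * (1 / x i) * Ls i = ε * (Ls i / x i) := by ring
          _ ≤ I (Ls i) := this
      have h3 : (1 : ℝ) / m i ≤ ε / 2 * (1 / x i) := by
        have h4 : 2 * x i / ε ≤ m i := by
          have h5 : 2 * x i / ε ≤ (⌈2 * x i / ε⌉₊ : ℕ) := Nat.le_ceil _
          have h6 : (m i : ℝ) = ((⌈2 * x i / ε⌉₊ : ℕ) : ℝ) + 2 := by
            simp only [hm]; push_cast; rfl
          rw [h6]; linarith
        have h7 : 0 < 2 * x i / ε := by positivity
        calc (1 : ℝ) / m i ≤ 1 / (2 * x i / ε) := one_div_le_one_div_of_le h7 h4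
          _ = ε / 2 * (1 / x i) := by field_simp
      linarith
    have htel : ∀ k ≤ n, a (Ls k) ≤ a (Ls 0) - ε / 2 * ∑ i ∈ range k, 1 / x i := by
      intro k hk
      induction k with
      | zero => simp
      | succ k ih =>
        rw [Finset.sum_range_succ, mul_add]
        have h1 := ih (by omega)
        have h2 := hstep k (by omega)
        linarith
    have h1 := htel n le_rfl
    have h2 := hsum n
    have h3 := ha0 (Ls n)
    have h4 := ha1 (Ls 0)
    have h5 : 2 / ε < ∑ i ∈ range n, 1 / x i := by linarith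
    have h6 : ε / 2 * (2 / ε) < ε / 2 * ∑ i ∈ range n, 1 / x i :=
      mul_lt_mul_of_pos_left h5 (by positivity)
    have h7 : ε / 2 * (2 / ε) = 1 := by field_simp
    linarith

end Pool.Agent.T2


namespace Pool.Agent.T2

theorem scale_list : type_of% @scale_list_pr := @scale_list_pr

end Pool.Agent.T2
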