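import Pool.Agent.Lib_helper39.TA.Defs
import Pool.Agent.Lib_helper10.T2F.ADI
import Pool.Agent.Lib_helper10.T2F.ADS
import Pool.Agent.Lib_helper10.T2F.AEN
import Pool.Agent.Lib_helper10.T2F.AFR
import Pool.Agent.Lib_helper10.T2F.ANX
import Pool.Agent.Lib_helper10.T2F.APC
import Pool.Agent.Lib_helper10.T2F.AQT
import Pool.Agent.Lib_helper10.T2F.ASB
import Pool.Agent.Lib_helper10.T2F.ASL
import Pool.Agent.Lib_helper10.T2F.AWB

/-! T2, block AFI: the theorem of package A -/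

namespace Pool.Agent.T2

open Filter Topology

theorem afi_MI_nonneg (Q : Finset ℕ) (N L Y : ℕ) : 0 ≤ MI Q N L Y := by
  unfold MI
  have := cE_cond_le (PN Y) (Wd (nx Y) sgb L) (Wd (nx Y) (ltr N Y) L)
    (fun u => (fr Q Y u, Wd (nx Y) (ltr N Y) L u)) (by
      intro x _ y _ h
      exact (Prod.mk.inj h).2)
  linarith

theorem afi_cE_le (N L Y : ℕ) :
    cE (PN Y) (Wd (nx Y) sgb L) (Wd (nx Y) (ltr N Y) L) ≤ L := by
  have h := cE_le_log (PN Y) (Wd (nx Y) sgb L) (Wd (nx Y) (ltr N Y) L)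
    (Finset.univ : Finset (Fin L → Bool)) (fun x _ => Finset.mem_univ _)
  have h2 : ((Finset.univ : Finset (Fin L → Bool)).card : ℝ) = 2 ^ L := by
    rw [Finset.card_univ, Fintype.card_fun, Fintype.card_bool, Fintype.card_fin]
    push_cast
    rfl
  rw [h2, Real.log_pow] at h
  have h3 : Real.log 2 ≤ 1 := by
    have := Real.log_two_lt_d9
    linarith
  have h4 : (L : ℝ) * Real.log 2 ≤ L := by
    have : (0 : ℝ) ≤ L := Nat.cast_nonneg L
    nlinarith
  linarith

open Classical in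
theorem afi_step (N Y P m L : ℕ) (hP : 6 * P ≤ L) :
    cE (PN Y) (Wd (nx Y) sgb (m * L)) (Wd (nx Y) (ltr N Y) (m * L)) ≤
      L + m * (cE (PN Y) (Wd (nx Y) sgb L) (Wd (nx Y) (ltr N Y) L) - MI (PP P) N L Y) := by
  have h := dec_step (PN Y) (nx Y) (fun x hx => nx_mem hx) (nx_inj Y) (ltr N Y) sgb
    (fr (PP P) Y) (Fintype.piFinset (fun p : PP P => Ep (p : ℕ))) (by
      intro x hx
      rw [Fintype.mem_piFinset]
      intro p
      exact fr_mem (PP_set P) hx p) (by
      intro x hx x' hx' h1 h2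
      exact fr_next hx hx' h1 h2) m L
  have h2 := log_frames P L hP
  have e1 : cE (PN Y) (Wd (nx Y) sgb L) (Wd (nx Y) (ltr N Y) L) - MI (PP P) N L Y =
      cE (PN Y) (Wd (nx Y) sgb L) (fun u => (fr (PP P) Y u, Wd (nx Y) (ltr N Y) L u)) := by
    unfold MI
    ring
  rw [e1]
  linarith

/-- exchange of averages and the triangle inequality -/
theorem afi_split (K n : ℕ) (hK : 1 ≤ K) (Q : Finset ℕ) (hn : Q.card = n) (hn1 : 1 ≤ n)
    (b : ℕ → ℝ) (x y : ℕ → ℕ → ℝ) (E₁ : ℝ) (F : ℕ → ℝ)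
    (h1 : ∀ p ∈ Q, |∑ k ∈ Finset.range K, b k - ∑ k ∈ Finset.range K, x p k| ≤ K * E₁)
    (h2 : ∀ k ∈ Finset.range K, |∑ p ∈ Q, (x p k - y p k)| ≤ n * F k) :
    |(1 / (K : ℝ)) * ∑ k ∈ Finset.range K, b k -
      (1 / (K : ℝ)) * ∑ k ∈ Finset.range K, (1 / (n : ℝ)) * ∑ p ∈ Q, y p k| ≤
      E₁ + (1 / (K : ℝ)) * ∑ k ∈ Finset.range K, F k := by
  have hK0 : (0 : ℝ) < K := by exact_mod_cast hK
  have hn0 : (0 : ℝ) < n := by exact_mod_cast hn1
  have e1 : (1 / (K : ℝ)) * ∑ k ∈ Finset.range K, b k -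
      (1 / (K : ℝ)) * ∑ k ∈ Finset.range K, (1 / (n : ℝ)) * ∑ p ∈ Q, y p k =
      (1 / (K : ℝ)) * ((1 / (n : ℝ)) *
        ∑ p ∈ Q, (∑ k ∈ Finset.range K, b k - ∑ k ∈ Finset.range K, x p k)) +
      (1 / (K : ℝ)) * ∑ k ∈ Finset.range K, (1 / (n : ℝ)) * ∑ p ∈ Q, (x p k - y p k) := by
    have s1 : ∑ p ∈ Q, (∑ k ∈ Finset.range K, b k - ∑ k ∈ Finset.range K, x p k) =
        n * ∑ k ∈ Finset.range K, b k - ∑ k ∈ Finset.range K, ∑ p ∈ Q, x p k := by
      rw [Finset.sum_sub_distrib, Finset.sum_const, nsmul_eq_mul, hn, Finset.sum_comm]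
    have s2 : ∑ k ∈ Finset.range K, (1 / (n : ℝ)) * ∑ p ∈ Q, (x p k - y p k) =
        (1 / (n : ℝ)) * ∑ k ∈ Finset.range K, ∑ p ∈ Q, x p k -
          ∑ k ∈ Finset.range K, (1 / (n : ℝ)) * ∑ p ∈ Q, y p k := by
      rw [Finset.mul_sum, ← Finset.sum_sub_distrib]
      refine Finset.sum_congr rfl (fun k _ => ?_)
      rw [Finset.sum_sub_distrib]
      ring
    rw [s1, s2]
    field_simp
    ring
  rw [e1]
  have t1 : |(1 / (K : ℝ)) * ((1 / (n : ℝ)) *
        ∑ p ∈ Q, (∑ k ∈ Finset.range K, b k - ∑ k ∈ Finset.range K, x p k))| ≤ E₁ := by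
    rw [abs_mul, abs_mul, abs_of_pos (by positivity : (0 : ℝ) < 1 / K),
      abs_of_pos (by positivity : (0 : ℝ) < 1 / n)]
    have : |∑ p ∈ Q, (∑ k ∈ Finset.range K, b k - ∑ k ∈ Finset.range K, x p k)| ≤
        n * (K * E₁) := by
      refine le_trans (Finset.abs_sum_le_sum_abs _ _) ?_
      refine le_trans (Finset.sum_le_sum h1) ?_
      rw [Finset.sum_const, nsmul_eq_mul, hn]
    calc 1 / (K : ℝ) * (1 / (n : ℝ) * _) ≤ 1 / (K : ℝ) * (1 / (n : ℝ) * (n * (K * E₁))) := by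
          gcongr
      _ = E₁ := by field_simp
  have t2 : |(1 / (K : ℝ)) * ∑ k ∈ Finset.range K, (1 / (n : ℝ)) * ∑ p ∈ Q, (x p k - y p k)| ≤
      (1 / (K : ℝ)) * ∑ k ∈ Finset.range K, F k := by
    rw [abs_mul, abs_of_pos (by positivity : (0 : ℝ) < 1 / K)]
    refine mul_le_mul_of_nonneg_left ?_ (by positivity)
    refine le_trans (Finset.abs_sum_le_sum_abs _ _) ?_
    refine Finset.sum_le_sum (fun k hk => ?_)
    rw [abs_mul, abs_of_pos (by positivity : (0 : ℝ) < 1 / n)]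
    calc 1 / (n : ℝ) * _ ≤ 1 / (n : ℝ) * (n * F k) := by
          have := h2 k hk
          gcongr
      _ = F k := by field_simp
  exact le_trans (abs_add_le _ _) (add_le_add t1 t2)

theorem afi_nat (C ε : ℝ) (hε : 0 < ε) : ∃ n : ℕ, 1 ≤ n ∧ ∀ m : ℕ, n ≤ m → C / m ≤ ε := by
  obtain ⟨n, hn⟩ := exists_nat_ge (|C| / ε)
  refine ⟨n + 1, by omega, fun m hm => ?_⟩
  have hm0 : (0 : ℝ) < m := by
    have : 0 < m := by omega
    exact_mod_cast this
  rw [div_le_iff₀ hm0]
  have h1 : (n : ℝ) ≤ m := by exact_mod_cast (by omega : n ≤ m)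
  have h2 : |C| ≤ ε * m := by
    have := (div_le_iff₀ hε).1 (le_trans hn h1)
    linarith
  exact le_trans (le_abs_self C) h2

theorem part_A_pr (α β : ℝ) (hα : 0 < α) (hβ : α < β) (ε : ℝ) (hε : 0 < ε) (P₀ : ℕ) :
    ∃ (Q : Finset ℕ) (K₀ : ℕ), (∀ P ∈ Q, P₀ ≤ P) ∧ ∀ K : ℕ, K₀ ≤ K → ∃ P ∈ Q,
      |(1 / (K : ℝ)) * ∑ k ∈ Finset.range K, BD α β 1 k -
        (1 / (K : ℝ)) * ∑ k ∈ Finset.range K,
          (1 / ((PP P).card : ℝ)) * ∑ p ∈ PP P, BD α β p k| ≤ ε := by
  obtain ⟨B, hB, Cq, hCq, hquant⟩ := quant α β hα hβ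
  obtain ⟨Cd, hCd, hdil⟩ := dilation α β hα hβ
  obtain ⟨Cs, hCs, hsb⟩ := scale_bound α β
  obtain ⟨Cb, hCb, hBD⟩ := BD_le α β hα hβ
  obtain ⟨Cp, hCp, hBDp⟩ := BDp_le α β hα hβ
  obtain ⟨c, hc, P₁, hP₁2, hPP⟩ := PP_card
  have hB0 : (0 : ℝ) < B := by exact_mod_cast hB
  have hCs0 : 0 < Cs := by linarith
  obtain ⟨N', hN'1, hN'⟩ := afi_nat Cq (ε / 8) (by positivity)
  obtain ⟨M, hM1, hM⟩ := afi_nat (Cs * (B : ℝ) ^ 3) (ε / 8) (by positivity)
  obtain ⟨P₂, hP₂1, hP₂⟩ := afi_nat Cd (ε / 16) (by positivity)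
  have hM0 : (0 : ℝ) < M := by exact_mod_cast hM1
  set R : ℝ := 100 * (B : ℝ) ^ 4 * M with hR
  have hR0 : 0 < R := by positivity
  set l : ℝ := ε / (8 * Cs * R ^ 2) with hl
  have hl0 : 0 < l := by positivity
  have hlR : Cs * (l * R ^ 2) = ε / 8 := by
    rw [hl]
    field_simp
  set εI : ℝ := ε * c * l / (256 * Cs * (B : ℝ) ^ 2) with hεI
  have hεI0 : 0 < εI := by positivity
  set δ : ℝ := ε / (8 * Cs) with hδ
  have hδ0 : 0 < δ := by positivity
  have hB2 : 1 ≤ B ^ 2 := Nat.one_le_pow _ _ hB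
  obtain ⟨S, hSL, hS⟩ := scale_list εI hεI0 (16 * B ^ 2 * (P₀ + P₁ + P₂ + 2))
  set N : ℕ := B ^ 2 * N' with hN
  have hN1 : 1 ≤ N := by
    rw [hN]
    exact Nat.mul_pos hB2 hN'1
  -- facts about `L ∈ S`
  have hPbig : ∀ L ∈ S, P₀ + P₁ + P₂ + 2 ≤ L / (16 * B ^ 2) := by
    intro L hL
    rw [Nat.le_div_iff_mul_le (by positivity)]
    have := hSL L hL
    linarith
  -- the thresholds
  have hY : ∀ L : ℕ, ∃ Y₀ : ℕ, L ∈ S → ∀ Y : ℕ, Y₀ ≤ Y →
      |∑ p ∈ PP (L / (16 * B ^ 2)), ∑ u ∈ PN Y, FH α β B N L Y p u * th p u| ≤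
        Cs * Y * (MI (PP (L / (16 * B ^ 2))) N L Y / l + l * R ^ 2 *
          (PP (L / (16 * B ^ 2))).card +
          ((PP (L / (16 * B ^ 2))).card : ℝ) * (B : ℝ) ^ 3 / M + δ) := by
    intro L
    by_cases hL : L ∈ S
    · have h1 := hPbig L hL
      have h2 : 2 ≤ L := by
        have h3 := Nat.div_le_self L (16 * B ^ 2)
        omega
      obtain ⟨Y₀, hY₀⟩ := hsb B N M L (PP (L / (16 * B ^ 2))) hB hN1 hM1 h2 (PP_set _) (by
        intro p hp
        simp only [PP, Finset.mem_filter, Finset.mem_Ioc] at hp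
        have h3 : L / (16 * B ^ 2) * (16 * B ^ 2) ≤ L := Nat.div_mul_le_self L _
        nlinarith [hp.1.2, hB2, h3]) l δ hl0 hδ0
      exact ⟨Y₀, fun _ => hY₀⟩
    · exact ⟨0, fun h => absurd h hL⟩
  choose Y₀ hY₀ using hY
  have hk : ∀ L p : ℕ, ∃ k₀ : ℕ, L ∈ S → p ∈ PP (L / (16 * B ^ 2)) → ∀ k : ℕ, k₀ ≤ k →
      |((p : ℝ) + 1) * BDp α β p k - BD α β p k - (1 / ((B : ℝ) * 4 ^ k)) *
          ∑ u ∈ PN (B * 4 ^ k), FH α β B N L (B * 4 ^ k) p u * th p u| ≤ Cq / N' := by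
    intro L p
    by_cases hL : L ∈ S
    · by_cases hp : p ∈ PP (L / (16 * B ^ 2))
      · have hp' := hp
        simp only [PP, Finset.mem_filter, Finset.mem_Ioc] at hp'
        obtain ⟨k₀, hk₀⟩ := hquant N' L p hN'1 hp'.2.1 hp'.2.2 (by
          rw [Nat.le_div_iff_mul_le (by norm_num)]
          have h3 : L / (16 * B ^ 2) * (16 * B ^ 2) ≤ L := Nat.div_mul_le_self L _
          calc 2 * p * B ^ 2 * 2 ≤ 2 * (2 * (L / (16 * B ^ 2))) * B ^ 2 * 2 := by
                gcongr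
                exact hp'.1.2
            _ ≤ L / (16 * B ^ 2) * (16 * B ^ 2) := by
                nlinarith [Nat.zero_le (L / (16 * B ^ 2) * B ^ 2)]
            _ ≤ L := h3)
        exact ⟨k₀, fun _ _ => hk₀⟩
      · exact ⟨0, fun _ h => absurd h hp⟩
    · exact ⟨0, fun h => absurd h hL⟩
  choose k₁ hk₁ using hk
  set k₀ : ℕ := ∑ L ∈ S, (Y₀ L + ∑ p ∈ PP (L / (16 * B ^ 2)), k₁ L p) with hk₀
  have hk₀Y : ∀ L ∈ S, Y₀ L ≤ k₀ := by
    intro L hL
    have := Finset.single_le_sum (f := fun L => Y₀ L + ∑ p ∈ PP (L / (16 * B ^ 2)), k₁ L p)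
      (fun i _ => Nat.zero_le _) hL
    omega
  have hk₀k : ∀ L ∈ S, ∀ p ∈ PP (L / (16 * B ^ 2)), k₁ L p ≤ k₀ := by
    intro L hL p hp
    have h1 := Finset.single_le_sum (f := fun L => Y₀ L + ∑ p ∈ PP (L / (16 * B ^ 2)), k₁ L p)
      (fun i _ => Nat.zero_le _) hL
    have h2 := Finset.single_le_sum (f := fun p => k₁ L p) (fun i _ => Nat.zero_le _) hp
    omega
  set A : ℝ := 2 * Cp + Cb with hA
  have hA0 : 0 < A := by linarith
  obtain ⟨K₁, hK₁1, hK₁⟩ := afi_nat (A * k₀) (ε / 8) (by positivity)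
  obtain ⟨K₂, hK₂1, hK₂⟩ := afi_nat (Cd * (∑ L ∈ S, 2 * L : ℕ)) (ε / 16) (by positivity)
  refine ⟨S.image (fun L => L / (16 * B ^ 2)), K₁ + K₂, ?_, ?_⟩
  · intro P hP
    rw [Finset.mem_image] at hP
    obtain ⟨L, hL, rfl⟩ := hP
    have := hPbig L hL
    omega
  intro K hK
  have hK1 : 1 ≤ K := by omega
  have hK0 : (0 : ℝ) < K := by exact_mod_cast hK1
  obtain ⟨L, hL, hI⟩ := hS
    (fun L => (1 / (K : ℝ)) * ∑ k ∈ Finset.range K,
      cE (PN (B * 4 ^ k)) (Wd (nx (B * 4 ^ k)) sgb L)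
        (Wd (nx (B * 4 ^ k)) (ltr N (B * 4 ^ k)) L) / L)
    (fun L => (1 / (K : ℝ)) * ∑ k ∈ Finset.range K, MI (PP (L / (16 * B ^ 2))) N L (B * 4 ^ k))
    (by
      intro L
      refine mul_nonneg (by positivity) (Finset.sum_nonneg (fun k _ => ?_))
      exact div_nonneg (cE_nonneg _ _ _) (Nat.cast_nonneg _))
    (by
      intro L
      have h1 : ∑ k ∈ Finset.range K, cE (PN (B * 4 ^ k)) (Wd (nx (B * 4 ^ k)) sgb L)
          (Wd (nx (B * 4 ^ k)) (ltr N (B * 4 ^ k)) L) / L ≤ K := by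
        calc _ ≤ ∑ k ∈ Finset.range K, (1 : ℝ) := by
              refine Finset.sum_le_sum (fun k _ => ?_)
              rcases Nat.eq_zero_or_pos L with h0 | h0
              · subst h0
                simp
              · rw [div_le_one (by exact_mod_cast h0)]
                exact afi_cE_le N L _
          _ = K := by simp
      calc _ ≤ 1 / (K : ℝ) * K := by
            refine mul_le_mul_of_nonneg_left h1 (by positivity)
        _ = 1 := by field_simp)
    (by
      intro m L hm hL1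
      have hm0 : (0 : ℝ) < m := by exact_mod_cast hm
      have hL0 : (0 : ℝ) < L := by exact_mod_cast hL1
      have h6 : 6 * (L / (16 * B ^ 2)) ≤ L := by
        have h3 : L / (16 * B ^ 2) * (16 * B ^ 2) ≤ L := Nat.div_mul_le_self L _
        nlinarith [hB2]
      have key : ∀ k ∈ Finset.range K,
          cE (PN (B * 4 ^ k)) (Wd (nx (B * 4 ^ k)) sgb (m * L))
            (Wd (nx (B * 4 ^ k)) (ltr N (B * 4 ^ k)) (m * L)) / ((m * L : ℕ) : ℝ) ≤
          cE (PN (B * 4 ^ k)) (Wd (nx (B * 4 ^ k)) sgb L)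
            (Wd (nx (B * 4 ^ k)) (ltr N (B * 4 ^ k)) L) / L -
            MI (PP (L / (16 * B ^ 2))) N L (B * 4 ^ k) / L + 1 / m := by
        intro k _
        have h := afi_step N (B * 4 ^ k) (L / (16 * B ^ 2)) m L h6
        rw [div_le_iff₀ (by push_cast; positivity)]
        refine le_trans h (le_of_eq ?_)
        push_cast
        field_simp
        ring
      calc (1 / (K : ℝ)) * ∑ k ∈ Finset.range K,
            cE (PN (B * 4 ^ k)) (Wd (nx (B * 4 ^ k)) sgb (m * L))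
            (Wd (nx (B * 4 ^ k)) (ltr N (B * 4 ^ k)) (m * L)) / ((m * L : ℕ) : ℝ)
          ≤ (1 / (K : ℝ)) * ∑ k ∈ Finset.range K,
            (cE (PN (B * 4 ^ k)) (Wd (nx (B * 4 ^ k)) sgb L)
            (Wd (nx (B * 4 ^ k)) (ltr N (B * 4 ^ k)) L) / L -
            MI (PP (L / (16 * B ^ 2))) N L (B * 4 ^ k) / L + 1 / m) :=
            mul_le_mul_of_nonneg_left (Finset.sum_le_sum key) (by positivity)
        _ = _ := by
            rw [Finset.sum_add_distrib, Finset.sum_sub_distrib, Finset.sum_const,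
              Finset.card_range, nsmul_eq_mul, ← Finset.sum_div (s := Finset.range K)
                (f := fun k => MI (PP (L / (16 * B ^ 2))) N L (B * 4 ^ k))]
            field_simp)
  set P : ℕ := L / (16 * B ^ 2) with hP
  have hPb := hPbig L hL
  rw [← hP] at hPb
  refine ⟨P, Finset.mem_image.2 ⟨L, hL, rfl⟩, ?_⟩
  have hPpos : (0 : ℝ) < P := by
    have : 0 < P := by omega
    exact_mod_cast this
  have hP2 : (2 : ℝ) ≤ P := by
    have : 2 ≤ P := by omega
    exact_mod_cast this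
  have hlogP : 0 < Real.log P := Real.log_pos (by linarith)
  have hcard := hPP P (by omega)
  have hn0 : (0 : ℝ) < (PP P).card := lt_of_lt_of_le (by positivity) hcard
  have hn1 : 1 ≤ (PP P).card := by
    have : 0 < (PP P).card := by exact_mod_cast hn0
    omega
  have hn1' : (1 : ℝ) ≤ (PP P).card := by exact_mod_cast hn1
  have hPL : P ≤ L := by
    rw [hP]
    exact Nat.div_le_self _ _
  have hLP : (L : ℝ) ≤ 32 * (B : ℝ) ^ 2 * P := by
    have h1 : L < 16 * B ^ 2 * (P + 1) := by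
      rw [hP]
      exact Nat.lt_mul_div_succ L (by positivity)
    have h2 : (L : ℝ) < 16 * (B : ℝ) ^ 2 * (P + 1) := by exact_mod_cast h1
    have h3 : (P : ℝ) + 1 ≤ 2 * P := by linarith
    have h4 : (0 : ℝ) < 16 * (B : ℝ) ^ 2 := by positivity
    nlinarith
  have hLP2 : (L : ℝ) / Real.log L ≤ 32 * (B : ℝ) ^ 2 * (P / Real.log P) := by
    have hL1 : (P : ℝ) ≤ L := by exact_mod_cast hPL
    have h1 : Real.log P ≤ Real.log L := Real.log_le_log hPpos hL1
    calc (L : ℝ) / Real.log L ≤ (32 * (B : ℝ) ^ 2 * P) / Real.log P := by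
          gcongr
      _ = _ := by ring
  -- the mutual information
  have hI2 : Cs / (l * (PP P).card) * ((1 / (K : ℝ)) *
      ∑ k ∈ Finset.range K, MI (PP P) N L (B * 4 ^ k)) ≤ ε / 8 := by
    have h1 : (1 / (K : ℝ)) * ∑ k ∈ Finset.range K, MI (PP P) N L (B * 4 ^ k) ≤
        εI * (32 * (B : ℝ) ^ 2 * ((PP P).card / c)) := by
      refine le_trans hI ?_
      refine mul_le_mul_of_nonneg_left (le_trans hLP2 ?_) hεI0.le
      refine mul_le_mul_of_nonneg_left ?_ (by positivity)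
      rw [le_div_iff₀ hc]
      linarith
    calc _ ≤ Cs / (l * (PP P).card) * (εI * (32 * (B : ℝ) ^ 2 * ((PP P).card / c))) :=
          mul_le_mul_of_nonneg_left h1 (by positivity)
      _ = ε / 8 := by
          rw [hεI]
          field_simp
          norm_num
  -- the dilation step
  have h1 : ∀ p ∈ PP P, |∑ k ∈ Finset.range K, BD α β 1 k -
      ∑ k ∈ Finset.range K, ((p : ℝ) + 1) * BDp α β p k| ≤ K * (ε / 8) := by
    intro p hp
    have hp' := hp
    simp only [PP, Finset.mem_filter, Finset.mem_Ioc] at hp'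
    have h := hdil p K hp'.2.1 hp'.2.2
    rw [Finset.mul_sum] at h
    refine le_trans h ?_
    have hpP : (P : ℝ) ≤ p := by exact_mod_cast hp'.1.1.le
    have hp0 : (0 : ℝ) < p := lt_of_lt_of_le hPpos hpP
    have e1 : Cd * ((K : ℝ) / p) ≤ K * (ε / 16) := by
      have : Cd / p ≤ ε / 16 := by
        refine le_trans ?_ (hP₂ P (by omega))
        gcongr
      calc Cd * ((K : ℝ) / p) = K * (Cd / p) := by ring
        _ ≤ K * (ε / 16) := by gcongr
    have e2 : Cd * Real.log p ≤ K * (ε / 16) := by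
      have h3 := hK₂ K (by omega)
      rw [div_le_iff₀ hK0] at h3
      have h4 : Real.log p ≤ ((∑ L ∈ S, 2 * L : ℕ) : ℝ) := by
        have h5 : Real.log p ≤ (p : ℝ) := by
          have := Real.log_le_sub_one_of_pos hp0
          linarith
        have h6 : p ≤ ∑ L ∈ S, 2 * L := by
          have h7 := Finset.single_le_sum (f := fun L => 2 * L) (fun i _ => Nat.zero_le _) hL
          have h8 := hp'.1.2
          omega
        have h9 : (p : ℝ) ≤ ((∑ L ∈ S, 2 * L : ℕ) : ℝ) := by exact_mod_cast h6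
        linarith
      calc Cd * Real.log p ≤ Cd * ((∑ L ∈ S, 2 * L : ℕ) : ℝ) := by gcongr
        _ ≤ ε / 16 * K := h3
        _ = K * (ε / 16) := by ring
    calc Cd * ((K : ℝ) / p + Real.log p) = Cd * ((K : ℝ) / p) + Cd * Real.log p := by ring
      _ ≤ K * (ε / 16) + K * (ε / 16) := add_le_add e1 e2
      _ = K * (ε / 8) := by ring
  -- the estimate at each scale
  have h2 : ∀ k ∈ Finset.range K, |∑ p ∈ PP P, (((p : ℝ) + 1) * BDp α β p k - BD α β p k)| ≤
      ((PP P).card : ℝ) * ((if k < k₀ then A else 0) + ε / 2 +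
        Cs / (l * (PP P).card) * MI (PP P) N L (B * 4 ^ k)) := by
    intro k _
    have hMI := afi_MI_nonneg (PP P) N L (B * 4 ^ k)
    by_cases hkk : k < k₀
    · rw [if_pos hkk]
      have h3 : |∑ p ∈ PP P, (((p : ℝ) + 1) * BDp α β p k - BD α β p k)| ≤
          ((PP P).card : ℝ) * A := by
        refine le_trans (Finset.abs_sum_le_sum_abs _ _) ?_
        have b8 : ((PP P).card : ℝ) * A = (PP P).card • A := (nsmul_eq_mul _ _).symm
        rw [b8]
        refine Finset.sum_le_card_nsmul _ _ _ (fun p hp => ?_)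
        simp only [PP, Finset.mem_filter, Finset.mem_Ioc] at hp
        have hp1 : (1 : ℝ) ≤ p := by exact_mod_cast hp.2.1.one_lt.le
        have a1 : |((p : ℝ) + 1) * BDp α β p k| ≤ 2 * Cp := by
          rw [abs_mul, abs_of_pos (by linarith : (0 : ℝ) < (p : ℝ) + 1)]
          have := hBDp p k hp.2.1 hp.2.2
          calc ((p : ℝ) + 1) * |BDp α β p k| ≤ (2 * p) * (Cp / p) := by
                gcongr
                linarith
            _ = 2 * Cp := by field_simp
        have a2 := hBD p k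
        have a3 := abs_sub (((p : ℝ) + 1) * BDp α β p k) (BD α β p k)
        rw [hA]
        linarith
      refine le_trans h3 (mul_le_mul_of_nonneg_left ?_ hn0.le)
      have : 0 ≤ Cs / (l * (PP P).card) * MI (PP P) N L (B * 4 ^ k) :=
        mul_nonneg (by positivity) hMI
      linarith
    · rw [if_neg hkk]
      push Not at hkk
      have hYk : Y₀ L ≤ B * 4 ^ k := by
        have a1 := hk₀Y L hL
        have a2 : k < 4 ^ k := Nat.lt_pow_self (by norm_num)
        have a3 : 4 ^ k ≤ B * 4 ^ k := Nat.le_mul_of_pos_left _ hB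
        omega
      have b1 := hY₀ L hL (B * 4 ^ k) hYk
      rw [← hP] at b1
      have b2 : ∀ p ∈ PP P, |((p : ℝ) + 1) * BDp α β p k - BD α β p k -
          (1 / ((B : ℝ) * 4 ^ k)) *
          ∑ u ∈ PN (B * 4 ^ k), FH α β B N L (B * 4 ^ k) p u * th p u| ≤ ε / 8 := by
        intro p hp
        exact le_trans (hk₁ L p hL hp k (le_trans (hk₀k L hL p hp) hkk)) (hN' N' le_rfl)
      have b3 : |∑ p ∈ PP P, (((p : ℝ) + 1) * BDp α β p k - BD α β p k -
          (1 / ((B : ℝ) * 4 ^ k)) *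
          ∑ u ∈ PN (B * 4 ^ k), FH α β B N L (B * 4 ^ k) p u * th p u)| ≤
          ((PP P).card : ℝ) * (ε / 8) := by
        refine le_trans (Finset.abs_sum_le_sum_abs _ _) ?_
        have b7 := Finset.sum_le_card_nsmul _ _ _ b2
        rw [nsmul_eq_mul] at b7
        exact b7
      have hY4 : (0 : ℝ) < (B : ℝ) * 4 ^ k := by positivity
      have b4 : |(1 / ((B : ℝ) * 4 ^ k)) * ∑ p ∈ PP P, ∑ u ∈ PN (B * 4 ^ k),
          FH α β B N L (B * 4 ^ k) p u * th p u| ≤
          Cs * (MI (PP P) N L (B * 4 ^ k) / l + l * R ^ 2 * (PP P).card +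
          ((PP P).card : ℝ) * (B : ℝ) ^ 3 / M + δ) := by
        rw [abs_mul, abs_of_pos (by positivity : (0 : ℝ) < 1 / ((B : ℝ) * 4 ^ k))]
        calc _ ≤ 1 / ((B : ℝ) * 4 ^ k) * (Cs * ((B * 4 ^ k : ℕ) : ℝ) *
              (MI (PP P) N L (B * 4 ^ k) / l + l * R ^ 2 * (PP P).card +
              ((PP P).card : ℝ) * (B : ℝ) ^ 3 / M + δ)) :=
              mul_le_mul_of_nonneg_left b1 (by positivity)
          _ = _ := by
              push_cast
              field_simp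
      have b5 : ∑ p ∈ PP P, (((p : ℝ) + 1) * BDp α β p k - BD α β p k) =
          ∑ p ∈ PP P, (((p : ℝ) + 1) * BDp α β p k - BD α β p k -
          (1 / ((B : ℝ) * 4 ^ k)) *
          ∑ u ∈ PN (B * 4 ^ k), FH α β B N L (B * 4 ^ k) p u * th p u) +
          (1 / ((B : ℝ) * 4 ^ k)) * ∑ p ∈ PP P, ∑ u ∈ PN (B * 4 ^ k),
          FH α β B N L (B * 4 ^ k) p u * th p u := by
        rw [Finset.mul_sum, ← Finset.sum_add_distrib]
        refine Finset.sum_congr rfl (fun p _ => ?_)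
        ring
      rw [b5]
      refine le_trans (abs_add_le _ _) ?_
      have b6 : Cs * (MI (PP P) N L (B * 4 ^ k) / l + l * R ^ 2 * (PP P).card +
          ((PP P).card : ℝ) * (B : ℝ) ^ 3 / M + δ) ≤
          ((PP P).card : ℝ) * (3 * (ε / 8) +
            Cs / (l * (PP P).card) * MI (PP P) N L (B * 4 ^ k)) := by
        have c1 : Cs * (MI (PP P) N L (B * 4 ^ k) / l) = ((PP P).card : ℝ) *
            (Cs / (l * (PP P).card) * MI (PP P) N L (B * 4 ^ k)) := by
          field_simp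
        have c2 : Cs * (l * R ^ 2 * (PP P).card) = ((PP P).card : ℝ) * (ε / 8) := by
          rw [← hlR]
          ring
        have c3 : Cs * (((PP P).card : ℝ) * (B : ℝ) ^ 3 / M) ≤ ((PP P).card : ℝ) * (ε / 8) := by
          calc Cs * (((PP P).card : ℝ) * (B : ℝ) ^ 3 / M) =
                ((PP P).card : ℝ) * (Cs * (B : ℝ) ^ 3 / M) := by ring
            _ ≤ _ := mul_le_mul_of_nonneg_left (hM M le_rfl) hn0.le
        have c4 : Cs * δ ≤ ((PP P).card : ℝ) * (ε / 8) := by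
          have : Cs * δ = ε / 8 := by
            rw [hδ]
            field_simp
          rw [this]
          nlinarith
        calc _ = Cs * (MI (PP P) N L (B * 4 ^ k) / l) + Cs * (l * R ^ 2 * (PP P).card) +
              Cs * (((PP P).card : ℝ) * (B : ℝ) ^ 3 / M) + Cs * δ := by ring
          _ ≤ ((PP P).card : ℝ) *
              (Cs / (l * (PP P).card) * MI (PP P) N L (B * 4 ^ k)) +
              ((PP P).card : ℝ) * (ε / 8) + ((PP P).card : ℝ) * (ε / 8) +
              ((PP P).card : ℝ) * (ε / 8) := by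
              rw [c1, c2]
              linarith
          _ = _ := by ring
      calc _ ≤ ((PP P).card : ℝ) * (ε / 8) + ((PP P).card : ℝ) * (3 * (ε / 8) +
            Cs / (l * (PP P).card) * MI (PP P) N L (B * 4 ^ k)) :=
            add_le_add b3 (le_trans b4 b6)
        _ = _ := by ring
  have hfin := afi_split K (PP P).card hK1 (PP P) rfl hn1 (fun k => BD α β 1 k)
    (fun p k => ((p : ℝ) + 1) * BDp α β p k) (fun p k => BD α β p k) (ε / 8)
    (fun k => (if k < k₀ then A else 0) + ε / 2 +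
        Cs / (l * (PP P).card) * MI (PP P) N L (B * 4 ^ k)) h1 h2
  refine le_trans hfin ?_
  have s1 : (1 / (K : ℝ)) * ∑ k ∈ Finset.range K, ((if k < k₀ then A else 0) + ε / 2 +
        Cs / (l * (PP P).card) * MI (PP P) N L (B * 4 ^ k)) =
      (1 / (K : ℝ)) * ∑ k ∈ Finset.range K, (if k < k₀ then A else 0) + ε / 2 +
      Cs / (l * (PP P).card) * ((1 / (K : ℝ)) *
        ∑ k ∈ Finset.range K, MI (PP P) N L (B * 4 ^ k)) := by
    rw [Finset.sum_add_distrib, Finset.sum_add_distrib, Finset.sum_const, Finset.card_range,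
      nsmul_eq_mul, ← Finset.mul_sum]
    field_simp
  have s2 : (1 / (K : ℝ)) * ∑ k ∈ Finset.range K, (if k < k₀ then A else 0) ≤ ε / 8 := by
    have d1 : ∑ k ∈ Finset.range K, (if k < k₀ then A else 0) ≤ A * k₀ := by
      rw [← Finset.sum_filter, Finset.sum_const, nsmul_eq_mul]
      have d2 : ((Finset.range K).filter (fun k => k < k₀)).card ≤ k₀ := by
        calc _ ≤ (Finset.range k₀).card := by
              refine Finset.card_le_card (fun x hx => ?_)
              rw [Finset.mem_filter] at hx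
              exact Finset.mem_range.2 hx.2
          _ = k₀ := Finset.card_range _
      have d3 : (((Finset.range K).filter (fun k => k < k₀)).card : ℝ) ≤ k₀ := by
        exact_mod_cast d2
      nlinarith
    calc _ ≤ (1 / (K : ℝ)) * (A * k₀) := mul_le_mul_of_nonneg_left d1 (by positivity)
      _ = A * k₀ / K := by ring
      _ ≤ ε / 8 := hK₁ K (by omega)
  rw [s1]
  linarith

end Pool.Agent.T2


namespace Pool.Agent.T2

theorem part_A : type_of% @part_A_pr := @part_A_pr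

end Pool.Agent.T2
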