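import Pool.Agent.Lib_helper10.T2.DefsB

/-! T2, package B, block BKP -/

namespace Pool.Agent.T2

open Filter Topology

theorem bkp_bez {w : G} (hw : Prm w) : ∃ s t : ℤ, s * w.re + t * w.im = 1 := by
  unfold Prm at hw
  have h := Int.gcd_eq_gcd_ab w.re w.im
  rw [hw] at h
  exact ⟨Int.gcdA w.re w.im, Int.gcdB w.re w.im, by push_cast at h; linarith⟩

theorem bkp_dvd_mul {w : G} (hw : Prm w) (n m : ℤ) : ((n : ℤ) : G) ∣ ((m : ℤ) : G) * w ↔ n ∣ m := by
  obtain ⟨s, t, hst⟩ := bkp_bez hw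
  rw [Zsqrtd.intCast_dvd]
  constructor
  · rintro ⟨h1, h2⟩
    simp only [Zsqrtd.re_mul, Zsqrtd.im_mul, Zsqrtd.re_intCast, Zsqrtd.im_intCast] at h1 h2
    have h3 : n ∣ s * (m * w.re + -1 * 0 * w.im) + t * (m * w.im + 0 * w.re) :=
      dvd_add (Dvd.dvd.mul_left h1 s) (Dvd.dvd.mul_left h2 t)
    have h4 : s * (m * w.re + -1 * 0 * w.im) + t * (m * w.im + 0 * w.re) = m := by
      linear_combination m * hst
    rwa [h4] at h3
  · intro h
    simp only [Zsqrtd.re_mul, Zsqrtd.im_mul, Zsqrtd.re_intCast, Zsqrtd.im_intCast]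
    constructor
    · have : m * w.re + -1 * 0 * w.im = m * w.re := by ring
      rw [this]
      exact Dvd.dvd.mul_right h _
    · have : m * w.im + 0 * w.re = m * w.im := by ring
      rw [this]
      exact Dvd.dvd.mul_right h _

theorem bkp_ex {w w' : G} (hw : Prm w) : ∃ κ : ℤ, ((det w w' : ℤ) : G) ∣ w' - ((κ : ℤ) : G) * w := by
  obtain ⟨s, t, hst⟩ := bkp_bez hw
  refine ⟨s * w'.re + t * w'.im, ?_⟩
  rw [Zsqrtd.intCast_dvd]
  simp only [Zsqrtd.re_sub, Zsqrtd.im_sub, Zsqrtd.re_mul, Zsqrtd.im_mul, Zsqrtd.re_intCast,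
    Zsqrtd.im_intCast, det]
  constructor
  · refine ⟨-t, ?_⟩
    linear_combination (-w'.re) * hst
  · refine ⟨s, ?_⟩
    linear_combination (-w'.im) * hst

theorem kappa_exists_pr {w w' : G} (hw : Prm w) (hD : det w w' ≠ 0) : ∃! κ : ℕ,
    κ < (det w w').natAbs ∧ ((det w w' : ℤ) : G) ∣ w' - (κ : G) * w := by
  obtain ⟨κ₀, hκ⟩ := bkp_ex (w' := w') hw
  have hn : 0 ≤ κ₀ % det w w' := Int.emod_nonneg _ hD
  have hl : κ₀ % det w w' < |det w w'| := Int.emod_lt_abs _ hD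
  refine ⟨(κ₀ % det w w').toNat, ⟨?_, ?_⟩, ?_⟩
  · zify
    rw [Int.toNat_of_nonneg hn]
    exact hl
  · have h1 : (((κ₀ % det w w').toNat : ℕ) : G) = ((κ₀ % det w w' : ℤ) : G) := by
      have : (((κ₀ % det w w').toNat : ℕ) : ℤ) = κ₀ % det w w' := Int.toNat_of_nonneg hn
      rw [← this]
      push_cast
      rfl
    rw [h1]
    have h2 : w' - ((κ₀ % det w w' : ℤ) : G) * w =
        (w' - ((κ₀ : ℤ) : G) * w) + ((κ₀ - κ₀ % det w w' : ℤ) : G) * w := by
      push_cast; ring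
    rw [h2]
    refine dvd_add hκ ((bkp_dvd_mul hw _ _).mpr ?_)
    exact Int.dvd_self_sub_emod
  · rintro y ⟨hy1, hy2⟩
    have h3 : ((det w w' : ℤ) : G) ∣ ((κ₀ - y : ℤ) : G) * w := by
      have : ((κ₀ - y : ℤ) : G) * w = (w' - (y : G) * w) - (w' - ((κ₀ : ℤ) : G) * w) := by
        push_cast; ring
      rw [this]
      exact dvd_sub hy2 hκ
    have h4 := (bkp_dvd_mul hw _ _).mp h3
    have h5 : κ₀ % det w w' = (y : ℤ) % det w w' := by
      have h7 : (y : ℤ) ≡ κ₀ [ZMOD det w w'] := Int.modEq_iff_dvd.mpr h4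
      exact h7.symm
    have h6 : (y : ℤ) % det w w' = y := by
      rw [← Int.emod_abs]
      refine Int.emod_eq_of_lt (by positivity) ?_
      zify at hy1
      exact hy1
    rw [h5, h6]
    simp

theorem kappa_rel_pr {w w' : G} {κ : ℤ} (hw : Prm w) (hw' : Prm w')
    (h : ((det w w' : ℤ) : G) ∣ w' - (κ : G) * w) : IsCoprime κ (det w w') ∧
    ∀ (B : Finset ℕ) (d : ℕ), (d : ℤ) ∣ det w w' → NP B (d : ℤ) w w' = ND B d κ := by
  constructor
  · obtain ⟨s', t', hst'⟩ := bkp_bez hw'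
    rw [Zsqrtd.intCast_dvd] at h
    simp only [Zsqrtd.re_sub, Zsqrtd.im_sub, Zsqrtd.re_mul, Zsqrtd.im_mul, Zsqrtd.re_intCast,
      Zsqrtd.im_intCast] at h
    obtain ⟨⟨a, ha⟩, ⟨b, hb⟩⟩ := h
    refine ⟨s' * w.re + t' * w.im, s' * a + t' * b, ?_⟩
    linear_combination hst' - s' * ha - t' * hb
  · intro B d hd
    unfold NP ND
    refine congrArg (Nat.cast : ℕ → ℝ) (congrArg Finset.card ?_)
    ext t
    simp only [Finset.mem_filter]
    refine and_congr_right fun _ => ?_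
    have hd' : ((d : ℤ) : G) ∣ ((det w w' : ℤ) : G) := by
      obtain ⟨e, he⟩ := hd
      rw [he]
      exact ⟨((e : ℤ) : G), by push_cast; ring⟩
    have h1 : ((d : ℤ) : G) ∣ w' - (κ : G) * w := hd'.trans h
    have h2 : (t.2 : G) * w - (t.1 : G) * w' =
        ((((t.2 : ℤ) - κ * (t.1 : ℤ) : ℤ)) : G) * w - (t.1 : G) * (w' - (κ : G) * w) := by
      push_cast; ring
    rw [h2, dvd_sub_left (Dvd.dvd.mul_left h1 _)]
    exact bkp_dvd_mul hw _ _

example : type_of% @kappa_exists_pr := @kappa_exists_pr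
example : type_of% @kappa_rel_pr := @kappa_rel_pr

end Pool.Agent.T2


namespace Pool.Agent.T2

theorem kappa_exists : type_of% @kappa_exists_pr := @kappa_exists_pr
theorem kappa_rel : type_of% @kappa_rel_pr := @kappa_rel_pr

end Pool.Agent.T2
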