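import Pool.Agent.Lib_helper10.T2.DefsB
import Pool.Agent.Lib_helper10.T2F.BPR

/-! T2, block BMU (helper34): the expected value is small -/

namespace Pool.Agent.T2

theorem bmu_nd (B : Finset ℕ) (g : ℕ) (κ : ℤ) (b : ℝ)
    (h : ∀ c : ℤ, ((B.filter (fun p : ℕ => (g : ℤ) ∣ (p : ℤ) - c)).card : ℝ) ≤ b) :
    ND B g κ ≤ B.card * b := by
  classical
  have h1 : ((B ×ˢ B).filter (fun t : ℕ × ℕ => (g : ℤ) ∣ (t.2 : ℤ) - κ * t.1)).card =
      ∑ p ∈ B, (B.filter (fun p' : ℕ => (g : ℤ) ∣ (p' : ℤ) - κ * p)).card := by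
    rw [Finset.card_filter, Finset.sum_product]
    apply Finset.sum_congr rfl
    intro p _
    rw [Finset.card_filter]
  rw [ND]
  have h2 : ((((B ×ˢ B).filter (fun t : ℕ × ℕ => (g : ℤ) ∣ (t.2 : ℤ) - κ * t.1)).card : ℕ) : ℝ) ≤
      B.card * b := by
    rw [h1]
    push_cast
    have h3 : ∑ p ∈ B, ((B.filter (fun p' : ℕ => (g : ℤ) ∣ (p' : ℤ) - κ * p)).card : ℝ) ≤
        ∑ p ∈ B, b := Finset.sum_le_sum fun p _ => h (κ * (p : ℤ))
    refine h3.trans ?_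
    rw [Finset.sum_const, nsmul_eq_mul]
  exact h2

theorem md_le_pr (R₀ : ℕ) (η : ℝ) (hη : 0 < η) (hη1 : η ≤ 1) : ∃ P₀ : ℕ, ∀ P : ℕ, P₀ ≤ P →
    ∀ (D : ℕ) (κ : ℤ), 1 ≤ D → MD (QP η P) R₀ D κ ≤
      3 * ((QP η P).card : ℝ) ^ 2 / Nat.totient D := by
  classical
  have h := fun (d : ℕ) (hd : 1 ≤ d) => qp_class d hd η hη hη1
  choose f hf using h
  refine ⟨(Finset.Icc 1 R₀.factorial).sup (fun d => if hd : 1 ≤ d then f d hd else 0), ?_⟩
  intro P hP D κ hD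
  set g : ℕ := Nat.gcd D R₀.factorial with hg
  have hg1 : 1 ≤ g := Nat.gcd_pos_of_pos_left _ hD
  have hgle : g ≤ R₀.factorial := Nat.gcd_le_right _ (Nat.factorial_pos _)
  have hfg : f g hg1 ≤ P := by
    have := Finset.le_sup (f := fun d => if hd : 1 ≤ d then f d hd else 0)
      (Finset.mem_Icc.2 ⟨hg1, hgle⟩)
    simp only [dif_pos hg1] at this
    exact this.trans hP
  have h1 := bmu_nd (QP η P) g κ _ (hf g hg1 P hfg)
  have hφg : (0 : ℝ) < Nat.totient g := by exact_mod_cast Nat.totient_pos.2 hg1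
  have hφD : (0 : ℝ) < Nat.totient D := by exact_mod_cast Nat.totient_pos.2 hD
  rw [MD, ← hg]
  calc (Nat.totient g : ℝ) / Nat.totient D * ND (QP η P) g κ
      ≤ (Nat.totient g : ℝ) / Nat.totient D *
        ((QP η P).card * (3 / (Nat.totient g : ℝ) * (QP η P).card)) := by gcongr
    _ = _ := by field_simp

end Pool.Agent.T2


namespace Pool.Agent.T2

theorem md_le : type_of% @md_le_pr := @md_le_pr

end Pool.Agent.T2
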