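import Pool.Agent.Lib_helper10.T2.DefsE
import Pool.Agent.Lib_helper10.T2F.BAS
import Pool.Agent.Lib_helper10.T2F.EPK

namespace Pool.Agent.T2

open Filter Topology

theorem regs_finite_pr (D κ : ℤ) (r₀ τ : ℝ) (φ : ℝ → ℝ) (Y : ℝ) (hr : 0 < r₀) (hY : 0 < Y) :
    (RegS D κ r₀ τ φ Y).Finite := by
  classical
  have hsub : RegS D κ r₀ τ φ Y ⊆ ↑((Bl Y).biUnion (fun v =>
      (Bl (Y * (|φ (Real.sqrt (nn v / Y))| + |τ|) ^ 2)).image (fun w => (v, w)))) := by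
    rintro ⟨v, w⟩ ⟨_, _, hip, hn, hr0, hs⟩
    simp only at hip hn hr0 hs
    have hv : v ≠ 0 := by
      rintro rfl
      have : nn (0 : G) = 0 := by
        have := (nn_pos (z := (0 : G))).not.mpr (by simp)
        omega
      rw [this] at hr0
      simp at hr0
      linarith
    have hw : w ≠ 0 := by
      rintro rfl
      simp [ip] at hip
    rw [Finset.mem_coe, Finset.mem_biUnion]
    refine ⟨v, mem_Bl.mpr ⟨hv, hn⟩, ?_⟩
    rw [Finset.mem_image]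
    refine ⟨w, mem_Bl.mpr ⟨hw, ?_⟩, rfl⟩
    have h1 : Real.sqrt (nn w / Y) ≤ |φ (Real.sqrt (nn v / Y))| + |τ| := by
      have h2 := (abs_le.mp hs).2
      have h3 := le_abs_self (φ (Real.sqrt (nn v / Y)))
      have h4 := le_abs_self τ
      linarith
    have h5 : (nn w : ℝ) / Y ≤ (|φ (Real.sqrt (nn v / Y))| + |τ|) ^ 2 := by
      have h6 : (0 : ℝ) ≤ (nn w : ℝ) / Y := by positivity
      calc (nn w : ℝ) / Y = Real.sqrt (nn w / Y) ^ 2 := (Real.sq_sqrt h6).symm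
        _ ≤ _ := by
          apply pow_le_pow_left₀ (Real.sqrt_nonneg _) h1
    rw [div_le_iff₀ hY] at h5
    linarith
  exact (Finset.finite_toSet _).subset hsub

theorem est_key {D κ : ℤ} {r₀ τ L F : ℝ} {φ : ℝ → ℝ} {Y : ℝ} {n : ℕ} (hr₀ : 0 < r₀) (hr1 : r₀ ≤ 1)
    (hτ : 0 < τ) (hL : 0 ≤ L) (hφ : ∀ x y, |φ x - φ y| ≤ L * |x - y|) (hF : F = |φ 0| + L)
    (hn : 1 ≤ n) (hn2 : ((F + 2 * τ) / r₀ + L) / r₀ ≤ τ * n) (hY : 0 < Y)
    (hY2 : |(D : ℝ)| / r₀ ≤ τ * Y) {v w : G} (h : (v, w) ∈ RegS D κ r₀ τ φ Y) :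
    ∃ i < n, r₀ ≤ Real.sqrt (((i : ℝ) + 1) / n) ∧
      (v, w) ∈ RegK D κ ((i : ℝ) / n) (((i : ℝ) + 1) / n)
        ((φ (Real.sqrt (((i : ℝ) + 1) / n)) - 3 * τ) / Real.sqrt (((i : ℝ) + 1) / n))
        ((φ (Real.sqrt (((i : ℝ) + 1) / n)) + 4 * τ) / Real.sqrt (((i : ℝ) + 1) / n)) Y := by
  obtain ⟨hdet, hdvd, hip, hnn, hr0, hs⟩ := h
  simp only at hdet hdvd hip hnn hr0 hs
  have hn0 : (0 : ℝ) < n := by exact_mod_cast hn
  set r := Real.sqrt (nn v / Y) with hr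
  have hrpos : 0 < r := lt_of_lt_of_le hr₀ hr0
  have ht : (nn v : ℝ) / Y = r ^ 2 := by
    rw [hr, Real.sq_sqrt (by positivity)]
  have hvpos : 0 < (nn v : ℝ) := by
    have : (nn v : ℝ) = r ^ 2 * Y := by rw [← ht]; field_simp
    rw [this]; positivity
  have ht1 : (nn v : ℝ) / Y ≤ 1 := by rw [div_le_one hY]; exact hnn
  have ht0 : 0 < (nn v : ℝ) / Y := by positivity
  have hr1' : r ≤ 1 := by
    rw [hr]; exact Real.sqrt_le_one.mpr ht1
  -- the index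
  set m := ⌈(nn v : ℝ) / Y * n⌉₊ with hm
  have hm0 : 0 < m := Nat.ceil_pos.mpr (by positivity)
  have hm1 : (nn v : ℝ) / Y * n ≤ m := Nat.le_ceil _
  have hm2 : (m : ℝ) < (nn v : ℝ) / Y * n + 1 := Nat.ceil_lt_add_one (by positivity)
  have hmn : m ≤ n := by
    rw [hm]; apply Nat.ceil_le.mpr
    calc (nn v : ℝ) / Y * n ≤ 1 * n := by gcongr
      _ = n := one_mul _
  obtain ⟨i, hi⟩ : ∃ i, m = i + 1 := ⟨m - 1, by omega⟩
  have hmi : (m : ℝ) = (i : ℝ) + 1 := by rw [hi]; push_cast; ring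
  refine ⟨i, by omega, ?_⟩
  set ρ := Real.sqrt (((i : ℝ) + 1) / n) with hρ
  have hρ2 : ρ ^ 2 = ((i : ℝ) + 1) / n := by
    rw [hρ, Real.sq_sqrt (by positivity)]
  have hle1 : (nn v : ℝ) / Y ≤ ((i : ℝ) + 1) / n := by
    rw [le_div_iff₀ hn0]; linarith
  have hle2 : (i : ℝ) / n < (nn v : ℝ) / Y := by
    rw [div_lt_iff₀ hn0]; linarith
  have hrρ : r ≤ ρ := by
    rw [hr, hρ]; exact Real.sqrt_le_sqrt hle1
  have hρpos : 0 < ρ := lt_of_lt_of_le hrpos hrρ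
  have hρr : ρ - r ≤ 1 / (n * r₀) := by
    have h1 : ρ ^ 2 - r ^ 2 ≤ 1 / n := by
      rw [hρ2, ← ht]
      have : ((i : ℝ) + 1) / n = (i : ℝ) / n + 1 / n := by ring
      linarith
    have h2 : (ρ - r) * r₀ ≤ 1 / n := by
      have h3 : (ρ - r) * r₀ ≤ (ρ - r) * (ρ + r) := by
        apply mul_le_mul_of_nonneg_left _ (by linarith)
        linarith
      nlinarith
    rw [le_div_iff₀ (by positivity)]
    rw [le_div_iff₀ hn0] at h2
    linarith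
  refine ⟨le_trans hr0 hrρ, ?_⟩
  -- the ratio
  set ξ := (ip v w : ℝ) / nn v with hξ
  have hipr : (0 : ℝ) < (ip v w : ℝ) := by exact_mod_cast hip
  have hξ0 : 0 < ξ := by positivity
  have hsum : (nn w : ℝ) / Y = (ξ * r) ^ 2 + (D : ℝ) ^ 2 / (nn v * Y) := by
    have h1 := ip_sq_add v w
    rw [hdet] at h1
    have h2 : (nn v : ℝ) * nn w = (ip v w : ℝ) ^ 2 + (D : ℝ) ^ 2 := by exact_mod_cast h1
    rw [mul_pow, ← ht, hξ]
    field_simp
    linarith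
  have hr'1 : ξ * r ≤ Real.sqrt (nn w / Y) := by
    rw [hsum]
    apply Real.le_sqrt_of_sq_le
    have : 0 ≤ (D : ℝ) ^ 2 / (nn v * Y) := by positivity
    linarith
  have hr'2 : Real.sqrt (nn w / Y) ≤ ξ * r + τ := by
    apply Real.sqrt_le_iff.mpr
    refine ⟨by positivity, ?_⟩
    rw [hsum]
    have h1 : (D : ℝ) ^ 2 / (nn v * Y) ≤ τ ^ 2 := by
      have h2 : (|(D : ℝ)| / r₀) ^ 2 ≤ (τ * Y) ^ 2 := by
        apply pow_le_pow_left₀ (by positivity) hY2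
      rw [div_pow, sq_abs] at h2
      have h3 : r₀ ^ 2 * Y ≤ nn v := by
        have : (nn v : ℝ) = r ^ 2 * Y := by rw [← ht]; field_simp
        rw [this]
        apply mul_le_mul_of_nonneg_right _ hY.le
        apply pow_le_pow_left₀ hr₀.le hr0
      rw [div_le_iff₀ (by positivity)]
      rw [div_le_iff₀ (by positivity)] at h2
      calc (D : ℝ) ^ 2 ≤ (τ * Y) ^ 2 * r₀ ^ 2 := h2
        _ = τ ^ 2 * ((r₀ ^ 2 * Y) * Y) := by ring
        _ ≤ τ ^ 2 * (nn v * Y) := by gcongr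
    nlinarith [mul_pos (mul_pos hξ0 hrpos) hτ]
  have h2τ : |ξ * r - φ r| ≤ 2 * τ := by
    rw [abs_le] at hs ⊢
    constructor <;> linarith [hs.1, hs.2]
  have hFr : |φ r| ≤ F := by
    have h1 := hφ r 0
    rw [sub_zero, abs_of_pos hrpos] at h1
    have h2 : |φ r| ≤ |φ r - φ 0| + |φ 0| := by
      have := abs_add_le (φ r - φ 0) (φ 0)
      simpa using this
    have h3 : L * r ≤ L := by nlinarith
    linarith
  have hξF : ξ ≤ (F + 2 * τ) / r₀ := by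
    rw [le_div_iff₀ hr₀]
    have h1 := (abs_le.mp h2τ).2
    have h2 := (abs_le.mp hFr).2
    have h3 : ξ * r₀ ≤ ξ * r := by gcongr
    linarith
  have h3τ : |ξ * ρ - φ ρ| ≤ 3 * τ := by
    have h1 : ξ * ρ - φ ρ = (ξ * r - φ r) + ξ * (ρ - r) + (φ r - φ ρ) := by ring
    have h2 : |ξ * (ρ - r)| ≤ (F + 2 * τ) / r₀ * (1 / (n * r₀)) := by
      rw [abs_mul, abs_of_pos hξ0, abs_of_nonneg (by linarith)]
      exact mul_le_mul hξF hρr (by linarith) (le_trans hξ0.le hξF)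
    have h3 : |φ r - φ ρ| ≤ L * (1 / (n * r₀)) := by
      refine (hφ r ρ).trans ?_
      rw [abs_sub_comm, abs_of_nonneg (by linarith)]
      gcongr
    have h4 : (F + 2 * τ) / r₀ * (1 / (n * r₀)) + L * (1 / (n * r₀)) ≤ τ := by
      have h5 : (F + 2 * τ) / r₀ * (1 / (n * r₀)) + L * (1 / (n * r₀)) =
          (((F + 2 * τ) / r₀ + L) / r₀) / n := by
        field_simp
      rw [h5, div_le_iff₀ hn0]
      exact hn2
    rw [h1]
    calc |(ξ * r - φ r) + ξ * (ρ - r) + (φ r - φ ρ)|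
        ≤ |(ξ * r - φ r) + ξ * (ρ - r)| + |φ r - φ ρ| := abs_add_le _ _
      _ ≤ |ξ * r - φ r| + |ξ * (ρ - r)| + |φ r - φ ρ| := by
        gcongr
        exact abs_add_le _ _
      _ ≤ 3 * τ := by linarith
  refine ⟨hdet, hdvd, ?_, ?_, ?_, ?_⟩
  · simp only
    rw [lt_div_iff₀ hY] at hle2
    exact hle2
  · simp only
    rw [div_le_iff₀ hY] at hle1
    exact hle1
  · simp only
    have h1 := (abs_le.mp h3τ).1
    have h2 : (φ ρ - 3 * τ) / ρ ≤ ξ := by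
      rw [div_le_iff₀ hρpos]
      linarith
    have h3 : ξ * (nn v : ℝ) = (ip v w : ℝ) := by rw [hξ]; field_simp
    calc (φ ρ - 3 * τ) / ρ * (nn v : ℝ) ≤ ξ * nn v := by gcongr
      _ = _ := h3
  · simp only
    have h1 := (abs_le.mp h3τ).2
    have h2 : ξ < (φ ρ + 4 * τ) / ρ := by
      rw [lt_div_iff₀ hρpos]
      linarith
    have h3 : ξ * (nn v : ℝ) = (ip v w : ℝ) := by rw [hξ]; field_simp
    calc (ip v w : ℝ) = ξ * nn v := h3.symm
      _ < (φ ρ + 4 * τ) / ρ * nn v := by gcongr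

theorem strip_count_pr : ∃ C : ℝ, 1 ≤ C ∧ ∀ D κ : ℤ, D ≠ 0 → ∀ r₀ τ L : ℝ, 0 < r₀ → 0 < τ →
    0 ≤ L → ∀ φ : ℝ → ℝ, (∀ x y, |φ x - φ y| ≤ L * |x - y|) → ∃ Y₀ : ℝ, ∀ Y : ℝ, Y₀ ≤ Y →
      ((RegS D κ r₀ τ φ Y).ncard : ℝ) ≤ C * (τ / r₀) * Y / |(D : ℝ)| := by
  classical
  obtain ⟨c, hc, he⟩ := equi_det
  refine ⟨7 * c + 1, by linarith, ?_⟩
  intro D κ hD r₀ τ L hr₀ hτ hL φ hφ
  have hD0 : (0 : ℝ) < |(D : ℝ)| := by
    rw [abs_pos]; exact_mod_cast hD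
  by_cases hr1 : 1 < r₀
  · refine ⟨1, fun Y hY => ?_⟩
    have hY0 : 0 < Y := by linarith
    have : RegS D κ r₀ τ φ Y = ∅ := by
      ext ⟨v, w⟩
      simp only [Set.mem_empty_iff_false, iff_false]
      rintro ⟨_, _, _, hn, hr0, _⟩
      simp only at hn hr0
      have h1 : Real.sqrt (nn v / Y) ≤ 1 := by
        apply Real.sqrt_le_one.mpr
        rw [div_le_one hY0]; exact hn
      linarith
    rw [this]
    simp only [Set.ncard_empty, Nat.cast_zero]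
    positivity
  have hr1 : r₀ ≤ 1 := not_lt.mp hr1
  set F := |φ 0| + L with hF
  have hF0 : 0 ≤ F := by positivity
  obtain ⟨n, hn⟩ := exists_nat_ge ((((F + 2 * τ) / r₀ + L) / r₀) / τ + 1)
  have hq0 : 0 ≤ (((F + 2 * τ) / r₀ + L) / r₀) / τ := by positivity
  have hn0 : (0 : ℝ) < n := by linarith
  have hn1 : 1 ≤ n := by exact_mod_cast hn0
  have hn2 : ((F + 2 * τ) / r₀ + L) / r₀ ≤ τ * n := by
    have h1 : (((F + 2 * τ) / r₀ + L) / r₀) / τ ≤ n := by linarith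
    rw [div_le_iff₀ hτ] at h1
    linarith
  set ρ : ℕ → ℝ := fun i => Real.sqrt (((i : ℝ) + 1) / n) with hρ
  set s := (Finset.range n).filter (fun i => r₀ ≤ ρ i) with hs
  have hev : ∀ i ∈ s, ∀ᶠ Y : ℝ in atTop,
      ((RegK D κ ((i : ℝ) / n) (((i : ℝ) + 1) / n) ((φ (ρ i) - 3 * τ) / ρ i)
        ((φ (ρ i) + 4 * τ) / ρ i) Y).ncard : ℝ) / Y < (7 * c + 1) * (τ / r₀) / (n * |(D : ℝ)|) := by
    intro i hi
    have hρi : r₀ ≤ ρ i := (Finset.mem_filter.mp hi).2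
    have hρpos : 0 < ρ i := lt_of_lt_of_le hr₀ hρi
    have h1 := he D κ hD ((i : ℝ) / n) (((i : ℝ) + 1) / n) ((φ (ρ i) - 3 * τ) / ρ i)
      ((φ (ρ i) + 4 * τ) / ρ i) (by positivity) (by gcongr; linarith)
      (by gcongr; linarith)
    refine h1.eventually_lt_const ?_
    have h2 : c * (((i : ℝ) + 1) / n - (i : ℝ) / n) *
        ((φ (ρ i) + 4 * τ) / ρ i - (φ (ρ i) - 3 * τ) / ρ i) / |(D : ℝ)| =
        7 * c * (τ / ρ i) / (n * |(D : ℝ)|) := by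
      field_simp
      ring
    rw [h2]
    apply div_lt_div_of_pos_right _ (by positivity)
    have h3 : τ / ρ i ≤ τ / r₀ := by gcongr
    have h4 : 0 < τ / r₀ := by positivity
    calc 7 * c * (τ / ρ i) ≤ 7 * c * (τ / r₀) := by gcongr
      _ < (7 * c + 1) * (τ / r₀) := by nlinarith
  have hev2 : ∀ᶠ Y : ℝ in atTop, ∀ i ∈ s,
      ((RegK D κ ((i : ℝ) / n) (((i : ℝ) + 1) / n) ((φ (ρ i) - 3 * τ) / ρ i)
        ((φ (ρ i) + 4 * τ) / ρ i) Y).ncard : ℝ) / Y <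
        (7 * c + 1) * (τ / r₀) / (n * |(D : ℝ)|) :=
    (Filter.eventually_all_finset s).mpr hev
  obtain ⟨Y₁, hY₁⟩ := Filter.eventually_atTop.mp hev2
  refine ⟨max (max Y₁ 1) (|(D : ℝ)| / r₀ / τ), fun Y hY => ?_⟩
  have hYa : Y₁ ≤ Y := le_trans (le_trans (le_max_left _ _) (le_max_left _ _)) hY
  have hYb : 1 ≤ Y := le_trans (le_trans (le_max_right _ _) (le_max_left _ _)) hY
  have hYc : |(D : ℝ)| / r₀ / τ ≤ Y := le_trans (le_max_right _ _) hY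
  have hY0 : 0 < Y := by linarith
  have hY2 : |(D : ℝ)| / r₀ ≤ τ * Y := by
    rw [div_le_iff₀ hτ] at hYc; linarith
  set R : ℕ → Set (G × G) := fun i => RegK D κ ((i : ℝ) / n) (((i : ℝ) + 1) / n)
    ((φ (ρ i) - 3 * τ) / ρ i) ((φ (ρ i) + 4 * τ) / ρ i) Y with hR
  have hfin : ∀ i, (R i).Finite := fun i => regk_finite D κ _ _ _ _ Y (by positivity) hY0.le
  have hsub : RegS D κ r₀ τ φ Y ⊆ ↑(s.biUnion (fun i => (hfin i).toFinset)) := by
    rintro ⟨v, w⟩ hvw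
    obtain ⟨i, hi, hri, hmem⟩ := est_key hr₀ hr1 hτ hL hφ hF hn1 hn2 hY0 hY2 hvw
    rw [Finset.mem_coe, Finset.mem_biUnion]
    refine ⟨i, ?_, ?_⟩
    · rw [hs, Finset.mem_filter]
      exact ⟨Finset.mem_range.mpr hi, hri⟩
    · rw [Set.Finite.mem_toFinset]
      exact hmem
  have hcard : (RegS D κ r₀ τ φ Y).ncard ≤ ∑ i ∈ s, (R i).ncard := by
    calc (RegS D κ r₀ τ φ Y).ncard ≤
        (↑(s.biUnion (fun i => (hfin i).toFinset)) : Set (G × G)).ncard :=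
          Set.ncard_le_ncard hsub (Finset.finite_toSet _)
      _ = (s.biUnion (fun i => (hfin i).toFinset)).card := Set.ncard_coe_finset _
      _ ≤ ∑ i ∈ s, ((hfin i).toFinset).card := Finset.card_biUnion_le
      _ = ∑ i ∈ s, (R i).ncard := by
        refine Finset.sum_congr rfl fun i _ => ?_
        rw [Set.ncard_eq_toFinset_card _ (hfin i)]
  calc ((RegS D κ r₀ τ φ Y).ncard : ℝ) ≤ ((∑ i ∈ s, (R i).ncard : ℕ) : ℝ) := by
        exact_mod_cast hcard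
    _ = ∑ i ∈ s, ((R i).ncard : ℝ) := by push_cast; rfl
    _ ≤ ∑ i ∈ s, (7 * c + 1) * (τ / r₀) / (n * |(D : ℝ)|) * Y := by
        refine Finset.sum_le_sum fun i hi => ?_
        have h1 := hY₁ Y hYa i hi
        rw [div_lt_iff₀ hY0] at h1
        exact h1.le
    _ = s.card * ((7 * c + 1) * (τ / r₀) / (n * |(D : ℝ)|) * Y) := by
        rw [Finset.sum_const, nsmul_eq_mul]
    _ ≤ n * ((7 * c + 1) * (τ / r₀) / (n * |(D : ℝ)|) * Y) := by
        gcongr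
        calc s.card ≤ (Finset.range n).card := Finset.card_filter_le _ _
          _ = n := Finset.card_range n
    _ = (7 * c + 1) * (τ / r₀) * Y / |(D : ℝ)| := by
        field_simp

end Pool.Agent.T2


namespace Pool.Agent.T2

theorem regs_finite : type_of% @regs_finite_pr := @regs_finite_pr
theorem strip_count : type_of% @strip_count_pr := @strip_count_pr

end Pool.Agent.T2
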