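import Pool.Agent.Lib_helper10.T2.DefsB
import Pool.Agent.Lib_helper10.T2F.BAS
import Pool.Agent.Lib_helper10.T2F.BKP
import Pool.Agent.Lib_helper10.T2F.EPK
import Pool.Agent.Lib_helper10.T2F.EST

/-! T2, block BPL: numbers of pairs -/

namespace Pool.Agent.T2

open Filter Topology

theorem bpl_mem {a b Y : ℝ} {w : G} (h : w ∈ Cel a b Y) :
    Prm w ∧ (nn w : ℝ) ≤ Y ∧ a * Y < (nn w : ℝ) ∧ (nn w : ℝ) ≤ b * Y := by
  classical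
  unfold Cel at h
  rw [Finset.mem_filter, mem_PB] at h
  exact ⟨h.1.1, h.1.2, h.2.1, h.2.2⟩

theorem bpl_ratio {a' Y : ℝ} (ha' : 0 < a') (hY : 0 < Y) {w w' : G} (hw : w ∈ Cel a' 1 Y)
    (hw' : w' ∈ Cel a' 1 Y) : (ip w w' : ℝ) < (1 / Real.sqrt a' + 1) * (nn w : ℝ) := by
  obtain ⟨-, h1, h2, -⟩ := bpl_mem hw
  obtain ⟨-, h3, h4, -⟩ := bpl_mem hw'
  have hs : 0 < Real.sqrt a' := Real.sqrt_pos.2 ha'
  have hn : 0 < (nn w : ℝ) := (mul_pos ha' hY).trans h2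
  have h5 : (ip w w' : ℝ) ^ 2 ≤ (nn w : ℝ) * nn w' := by
    have h := ip_sq_add w w'
    have h' : (nn w : ℝ) * nn w' = (ip w w' : ℝ) ^ 2 + (det w w' : ℝ) ^ 2 := by exact_mod_cast h
    rw [h']
    nlinarith [sq_nonneg (det w w' : ℝ)]
  have h6 : (nn w : ℝ) * nn w' < ((1 / Real.sqrt a' + 1) * (nn w : ℝ)) ^ 2 := by
    have h7 : (nn w' : ℝ) * a' ≤ nn w := by nlinarith
    have h8 : (nn w' : ℝ) ≤ (1 / Real.sqrt a') ^ 2 * nn w := by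
      rw [div_pow, one_pow, Real.sq_sqrt ha'.le, one_div, inv_mul_eq_div, le_div_iff₀ ha']
      exact h7
    have h9 : (1 / Real.sqrt a') ^ 2 < (1 / Real.sqrt a' + 1) ^ 2 := by
      have : 0 < 1 / Real.sqrt a' := by positivity
      nlinarith
    calc (nn w : ℝ) * nn w' ≤ nn w * ((1 / Real.sqrt a') ^ 2 * nn w) :=
          mul_le_mul_of_nonneg_left h8 hn.le
      _ = (1 / Real.sqrt a') ^ 2 * ((nn w : ℝ) * nn w) := by ring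
      _ < (1 / Real.sqrt a' + 1) ^ 2 * ((nn w : ℝ) * nn w) :=
          mul_lt_mul_of_pos_right h9 (mul_pos hn hn)
      _ = ((1 / Real.sqrt a' + 1) * (nn w : ℝ)) ^ 2 := by ring
  exact lt_of_pow_lt_pow_left₀ 2 (by positivity) (h5.trans_lt h6)

theorem bpl_empty {a' Y : ℝ} (ha' : 1 < a') (hY : 0 ≤ Y) : Cel a' 1 Y = ∅ := by
  rw [Finset.eq_empty_iff_forall_notMem]
  intro w hw
  obtain ⟨-, h1, h2, -⟩ := bpl_mem hw
  nlinarith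

open Classical in
theorem pair_le_pr (a' : ℝ) (ha' : 0 < a') : ∃ C : ℝ, 1 ≤ C ∧ ∀ D κ : ℤ, D ≠ 0 → ∃ Y₀ : ℝ,
    ∀ Y : ℝ, Y₀ ≤ Y → (((Cel a' 1 Y ×ˢ Cel a' 1 Y).filter (fun p => det p.1 p.2 = D ∧
      (D : G) ∣ p.2 - (κ : G) * p.1 ∧ 0 < ip p.1 p.2)).card : ℝ) ≤ C * Y / |(D : ℝ)| := by
  by_cases h1 : 1 < a'
  · refine ⟨1, le_rfl, fun D κ hD => ⟨0, fun Y hY => ?_⟩⟩
    rw [bpl_empty h1 hY]
    simp only [Finset.empty_product, Finset.filter_empty, Finset.card_empty, Nat.cast_zero]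
    positivity
  rw [not_lt] at h1
  obtain ⟨c, hc, heq⟩ := equi_det
  set ξ : ℝ := 1 / Real.sqrt a' + 1 with hξ
  have hs : 0 < Real.sqrt a' := Real.sqrt_pos.2 ha'
  have hξ0 : 0 ≤ ξ := by positivity
  refine ⟨c * (1 - a') * (ξ - 0) + 1, ?_, fun D κ hD => ?_⟩
  · have : 0 ≤ c * (1 - a') * (ξ - 0) :=
      mul_nonneg (mul_nonneg hc.le (by linarith)) (by linarith)
    linarith
  have hD' : 0 < |(D : ℝ)| := abs_pos.2 (Int.cast_ne_zero.2 hD)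
  have h2 := heq D κ hD a' 1 0 ξ ha'.le h1 hξ0
  have h3 : c * (1 - a') * (ξ - 0) / |(D : ℝ)| < (c * (1 - a') * (ξ - 0) + 1) / |(D : ℝ)| :=
    div_lt_div_of_pos_right (by linarith) hD'
  have h4 := h2.eventually_lt_const h3
  rw [eventually_atTop] at h4
  obtain ⟨Y₁, hY₁⟩ := h4
  refine ⟨max Y₁ 1, fun Y hY => ?_⟩
  have hY0 : 0 < Y := lt_of_lt_of_le one_pos (le_of_max_le_right hY)
  have h5 := hY₁ Y (le_of_max_le_left hY)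
  rw [div_lt_iff₀ hY0] at h5
  refine le_trans ?_ (h5.le.trans (le_of_eq (by ring)))
  rw [Nat.cast_le, ← Set.ncard_coe_finset]
  refine Set.ncard_le_ncard ?_ (regk_finite D κ a' 1 0 ξ Y ha'.le hY0.le)
  intro p hp
  rw [Finset.mem_coe, Finset.mem_filter, Finset.mem_product] at hp
  obtain ⟨⟨hp1, hp2⟩, hd, hk, hip⟩ := hp
  obtain ⟨-, g1, g2, g3⟩ := bpl_mem hp1
  refine ⟨hd, hk, g2, g3, ?_, bpl_ratio ha' hY0 hp1 hp2⟩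
  rw [zero_mul]
  exact_mod_cast hip.le

open Classical in
theorem strip_le_pr (a' : ℝ) (ha' : 0 < a') : ∃ C : ℝ, 1 ≤ C ∧ ∀ (D κ : ℤ) (τ t : ℝ), D ≠ 0 →
    0 < τ → ∃ Y₀ : ℝ, ∀ Y : ℝ, Y₀ ≤ Y → (((Cel a' 1 Y ×ˢ Cel a' 1 Y).filter (fun p =>
      det p.1 p.2 = D ∧ (D : G) ∣ p.2 - (κ : G) * p.1 ∧ 0 < ip p.1 p.2 ∧
      |Real.sqrt (nn p.1 / Y) - Real.sqrt (nn p.2 / Y) - t| ≤ τ)).card : ℝ) ≤
        C * τ * Y / |(D : ℝ)| := by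
  obtain ⟨C, hC, hst⟩ := strip_count
  have hs : 0 < Real.sqrt a' := Real.sqrt_pos.2 ha'
  refine ⟨max 1 (C / Real.sqrt a'), le_max_left _ _, fun D κ τ t hD hτ => ?_⟩
  have hD' : 0 < |(D : ℝ)| := abs_pos.2 (Int.cast_ne_zero.2 hD)
  obtain ⟨Y₁, hY₁⟩ := hst D κ hD (Real.sqrt a') τ 1 hs hτ zero_le_one (fun r => r - t)
    (fun x y => by rw [sub_sub_sub_cancel_right, one_mul])
  refine ⟨max Y₁ 1, fun Y hY => ?_⟩
  have hY0 : 0 < Y := lt_of_lt_of_le one_pos (le_of_max_le_right hY)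
  have h5 := hY₁ Y (le_of_max_le_left hY)
  have h6 : C * (τ / Real.sqrt a') * Y / |(D : ℝ)| ≤
      max 1 (C / Real.sqrt a') * τ * Y / |(D : ℝ)| := by
    refine div_le_div_of_nonneg_right ?_ hD'.le
    refine mul_le_mul_of_nonneg_right ?_ hY0.le
    rw [mul_div_assoc', ← div_mul_eq_mul_div]
    exact mul_le_mul_of_nonneg_right (le_max_right _ _) hτ.le
  refine le_trans ?_ (h5.trans h6)
  rw [Nat.cast_le, ← Set.ncard_coe_finset]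
  refine Set.ncard_le_ncard ?_ (regs_finite D κ (Real.sqrt a') τ _ Y hs hY0)
  intro p hp
  rw [Finset.mem_coe, Finset.mem_filter, Finset.mem_product] at hp
  obtain ⟨⟨hp1, hp2⟩, hd, hk, hip, hr⟩ := hp
  obtain ⟨-, g1, g2, g3⟩ := bpl_mem hp1
  refine ⟨hd, hk, hip, g1, ?_, ?_⟩
  · refine Real.sqrt_le_sqrt ?_
    rw [le_div_iff₀ hY0]
    exact g2.le
  · rw [abs_sub_comm]
    have e : Real.sqrt (nn p.1 / Y) - t - Real.sqrt (nn p.2 / Y) =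
      Real.sqrt (nn p.1 / Y) - Real.sqrt (nn p.2 / Y) - t := by ring
    show |Real.sqrt (nn p.1 / Y) - t - Real.sqrt (nn p.2 / Y)| ≤ τ
    rw [e]
    exact hr

open Classical in
theorem bpl_tot {a' Y M : ℝ} {D : ℤ} (hD : D ≠ 0) (R : G × G → Prop)
    (h : ∀ κ : ℕ, κ < D.natAbs → (((Cel a' 1 Y ×ˢ Cel a' 1 Y).filter (fun p => det p.1 p.2 = D ∧
      (D : G) ∣ p.2 - ((κ : ℤ) : G) * p.1 ∧ 0 < ip p.1 p.2 ∧ R p)).card : ℝ) ≤ M / |(D : ℝ)|) :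
    (((Cel a' 1 Y ×ˢ Cel a' 1 Y).filter (fun p => det p.1 p.2 = D ∧
      0 < ip p.1 p.2 ∧ R p)).card : ℝ) ≤ M := by
  have hD' : 0 < |(D : ℝ)| := abs_pos.2 (Int.cast_ne_zero.2 hD)
  have h1 : (Cel a' 1 Y ×ˢ Cel a' 1 Y).filter (fun p => det p.1 p.2 = D ∧
      0 < ip p.1 p.2 ∧ R p) ⊆ (Finset.range D.natAbs).biUnion (fun κ =>
        (Cel a' 1 Y ×ˢ Cel a' 1 Y).filter (fun p => det p.1 p.2 = D ∧
      (D : G) ∣ p.2 - ((κ : ℤ) : G) * p.1 ∧ 0 < ip p.1 p.2 ∧ R p)) := by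
    intro p hp
    rw [Finset.mem_filter, Finset.mem_product] at hp
    obtain ⟨⟨hp1, hp2⟩, hd, hip, hR⟩ := hp
    obtain ⟨κ, ⟨hκ, hκ'⟩, -⟩ := kappa_exists (bpl_mem hp1).1 (w' := p.2) (by rw [hd]; exact hD)
    rw [hd] at hκ hκ'
    rw [Finset.mem_biUnion]
    refine ⟨κ, Finset.mem_range.2 hκ, ?_⟩
    rw [Finset.mem_filter, Finset.mem_product]
    refine ⟨⟨hp1, hp2⟩, hd, ?_, hip, hR⟩
    rw [Int.cast_natCast]
    exact hκ'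
  have h2 : (((Cel a' 1 Y ×ˢ Cel a' 1 Y).filter (fun p => det p.1 p.2 = D ∧
      0 < ip p.1 p.2 ∧ R p)).card : ℝ) ≤ ∑ κ ∈ Finset.range D.natAbs,
        (((Cel a' 1 Y ×ˢ Cel a' 1 Y).filter (fun p => det p.1 p.2 = D ∧
      (D : G) ∣ p.2 - ((κ : ℤ) : G) * p.1 ∧ 0 < ip p.1 p.2 ∧ R p)).card : ℝ) := by
    have := (Finset.card_le_card h1).trans Finset.card_biUnion_le
    exact_mod_cast this
  refine h2.trans ((Finset.sum_le_sum fun κ hκ => h κ (Finset.mem_range.1 hκ)).trans ?_)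
  rw [Finset.sum_const, Finset.card_range, nsmul_eq_mul]
  have h3 : ((D.natAbs : ℕ) : ℝ) = |(D : ℝ)| := by
    rw [Nat.cast_natAbs, Int.cast_abs]
  rw [h3, mul_div_cancel₀ _ hD'.ne']

theorem bpl_max (n : ℕ) (P : ℕ → ℝ → Prop) (h : ∀ κ : ℕ, ∃ Y₀ : ℝ, ∀ Y : ℝ, Y₀ ≤ Y → P κ Y) :
    ∃ Y₀ : ℝ, ∀ Y : ℝ, Y₀ ≤ Y → ∀ κ < n, P κ Y := by
  choose f hf using h
  induction n with
  | zero => exact ⟨0, fun Y _ κ hκ => absurd hκ (Nat.not_lt_zero _)⟩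
  | succ n ih =>
    obtain ⟨Y₁, hY₁⟩ := ih
    refine ⟨max Y₁ (f n), fun Y hY κ hκ => ?_⟩
    rcases Nat.lt_succ_iff_lt_or_eq.1 hκ with h | rfl
    · exact hY₁ Y (le_of_max_le_left hY) κ h
    · exact hf κ Y (le_of_max_le_right hY)

open Classical in
theorem pair_tot_pr (a' : ℝ) (ha' : 0 < a') : ∃ C : ℝ, 1 ≤ C ∧ ∀ D : ℤ, D ≠ 0 → ∃ Y₀ : ℝ,
    ∀ Y : ℝ, Y₀ ≤ Y → (((Cel a' 1 Y ×ˢ Cel a' 1 Y).filter (fun p => det p.1 p.2 = D ∧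
      0 < ip p.1 p.2)).card : ℝ) ≤ C * Y := by
  obtain ⟨C, hC, h⟩ := pair_le_pr a' ha'
  refine ⟨C, hC, fun D hD => ?_⟩
  obtain ⟨Y₀, hY₀⟩ := bpl_max D.natAbs _ (fun κ => h D (κ : ℤ) hD)
  refine ⟨Y₀, fun Y hY => ?_⟩
  have h1 := bpl_tot (a' := a') (Y := Y) (M := C * Y) hD (fun _ => True) (fun κ hκ => by
    simpa only [and_true] using hY₀ Y hY κ hκ)
  simpa only [and_true] using h1

open Classical in
theorem strip_tot_pr (a' : ℝ) (ha' : 0 < a') : ∃ C : ℝ, 1 ≤ C ∧ ∀ (D : ℤ) (τ t : ℝ), D ≠ 0 →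
    0 < τ → ∃ Y₀ : ℝ, ∀ Y : ℝ, Y₀ ≤ Y → (((Cel a' 1 Y ×ˢ Cel a' 1 Y).filter (fun p =>
      det p.1 p.2 = D ∧ 0 < ip p.1 p.2 ∧
      |Real.sqrt (nn p.1 / Y) - Real.sqrt (nn p.2 / Y) - t| ≤ τ)).card : ℝ) ≤
        C * τ * Y := by
  obtain ⟨C, hC, h⟩ := strip_le_pr a' ha'
  refine ⟨C, hC, fun D τ t hD hτ => ?_⟩
  obtain ⟨Y₀, hY₀⟩ := bpl_max D.natAbs _ (fun κ => h D (κ : ℤ) τ t hD hτ)
  refine ⟨Y₀, fun Y hY => ?_⟩
  exact bpl_tot (a' := a') (Y := Y) (M := C * τ * Y) hD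
    (fun p => |Real.sqrt (nn p.1 / Y) - Real.sqrt (nn p.2 / Y) - t| ≤ τ)
    (fun κ hκ => hY₀ Y hY κ hκ)

end Pool.Agent.T2


namespace Pool.Agent.T2

theorem pair_le : type_of% @pair_le_pr := @pair_le_pr
theorem strip_le : type_of% @strip_le_pr := @strip_le_pr
theorem pair_tot : type_of% @pair_tot_pr := @pair_tot_pr
theorem strip_tot : type_of% @strip_tot_pr := @strip_tot_pr

end Pool.Agent.T2
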