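import Pool.Agent.Lib_helper10.T2.DefsB
import Pool.Agent.Lib_helper10.T2F.BAS
import Pool.Agent.Lib_helper10.T2F.BKP
import Pool.Agent.Lib_helper10.T2F.BMU
import Pool.Agent.Lib_helper10.T2F.BPL

/-!
# T2, block BBD: determinants with a prime factor in the interval
-/

namespace Pool.Agent.T2

open Filter Topology

theorem bbd_dvd (D : ℤ) (x : G) : ((D : ℤ) : G) ∣ x ↔ (((D.natAbs : ℕ) : ℤ) : G) ∣ x := by
  rcases Int.natAbs_eq D with h | h
  · rw [← h]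
  · conv_lhs => rw [h]
    rw [Int.cast_neg, neg_dvd]

theorem bbd_np (B : Finset ℕ) (D : ℤ) (w w' : G) : NP B D w w' = NP B ((D.natAbs : ℕ) : ℤ) w w' := by
  classical
  unfold NP
  congr 2
  ext t
  simp only [Finset.mem_filter]
  rw [bbd_dvd]

open Classical in
/-- the number `κ` with `w' = κ w` modulo `det w w'` -/
noncomputable def bbd_kap (w w' : G) : ℕ :=
  if h : Prm w ∧ det w w' ≠ 0 then (kappa_exists h.1 h.2).choose else 0

theorem bbd_kap_spec {w w' : G} (hw : Prm w) (hD : det w w' ≠ 0) :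
    bbd_kap w w' < (det w w').natAbs ∧
      ((det w w' : ℤ) : G) ∣ w' - (bbd_kap w w' : G) * w := by
  have h : Prm w ∧ det w w' ≠ 0 := ⟨hw, hD⟩
  unfold bbd_kap
  rw [dif_pos h]
  exact (kappa_exists h.1 h.2).choose_spec.1

theorem bbd_kap_cop {w w' : G} (hw : Prm w) (hw' : Prm w') (hD : det w w' ≠ 0) :
    Nat.Coprime (bbd_kap w w') (det w w').natAbs ∧
    ∀ (B : Finset ℕ) (d : ℕ), d ∣ (det w w').natAbs →
      NP B (d : ℤ) w w' = ND B d (bbd_kap w w' : ℤ) := by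
  have h1 := bbd_kap_spec hw hD
  have h2 : ((det w w' : ℤ) : G) ∣ w' - (((bbd_kap w w' : ℕ) : ℤ) : G) * w := by
    rw [Int.cast_natCast]
    exact h1.2
  obtain ⟨hc, hN⟩ := kappa_rel hw hw' h2
  constructor
  · have h3 := Int.isCoprime_iff_gcd_eq_one.1 hc
    rw [Int.gcd_eq_natAbs, Int.natAbs_natCast] at h3
    exact h3
  · intro B d hd
    exact hN B d (Int.natCast_dvd.2 hd)

open Classical in
/-- sums over the pairs, by determinants and ratios -/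
theorem bbd_pairs (a' : ℝ) (ha' : 0 < a') : ∃ C : ℝ, 1 ≤ C ∧ ∀ N : ℕ, ∃ Y₀ : ℝ, 0 ≤ Y₀ ∧
    ∀ Y : ℝ, Y₀ ≤ Y → ∀ (S : Finset (G × G)) (g : G × G → ℝ) (F : ℕ → ℕ → ℝ),
    (∀ D κ, 0 ≤ F D κ) →
    (∀ p ∈ S, p.1 ∈ Cel a' 1 Y ∧ p.2 ∈ Cel a' 1 Y ∧ det p.1 p.2 ≠ 0 ∧
      (det p.1 p.2).natAbs ≤ N ∧ 0 < ip p.1 p.2 ∧
      g p ≤ F (det p.1 p.2).natAbs (bbd_kap p.1 p.2)) →
    ∑ p ∈ S, g p ≤ ∑ d ∈ Finset.Icc 1 N,
      ∑ κ ∈ (Finset.range d).filter (fun κ => Nat.Coprime κ d), 2 * C * Y / d * F d κ := by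
  obtain ⟨C, hC1, hC⟩ := pair_le a' ha'
  refine ⟨C, hC1, fun N => ?_⟩
  have hex : ∀ t : ℤ × ℕ, ∃ Y₀ : ℝ, t.1 ≠ 0 → ∀ Y : ℝ, Y₀ ≤ Y →
      (((Cel a' 1 Y ×ˢ Cel a' 1 Y).filter (fun p => det p.1 p.2 = t.1 ∧
        ((t.1 : ℤ) : G) ∣ p.2 - (((t.2 : ℕ) : ℤ) : G) * p.1 ∧ 0 < ip p.1 p.2)).card : ℝ) ≤
          C * Y / |(t.1 : ℝ)| := by
    intro t
    by_cases ht : t.1 = 0
    · exact ⟨0, fun h => absurd ht h⟩
    · obtain ⟨Y₀, hY₀⟩ := hC t.1 (t.2 : ℤ) ht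
      exact ⟨Y₀, fun _ => hY₀⟩
  choose Yg hYg using hex
  obtain ⟨T0, hT0⟩ : ∃ T0 : Finset (ℤ × ℕ),
    T0 = Finset.Icc (-(N : ℤ)) N ×ˢ Finset.range (N + 1) := ⟨_, rfl⟩
  obtain ⟨Y₀, hY₀, hY₀'⟩ : ∃ Y₀ : ℝ, 0 ≤ Y₀ ∧ ∀ t ∈ T0, Yg t ≤ Y₀ :=
    ⟨∑ t ∈ T0, |Yg t|, Finset.sum_nonneg fun _ _ => abs_nonneg _, fun t ht =>
      (le_abs_self _).trans (Finset.single_le_sum (f := fun t => |Yg t|)
        (fun _ _ => abs_nonneg _) ht)⟩
  refine ⟨Y₀, hY₀, fun Y hY S g F hF hS => ?_⟩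
  have hY0 : 0 ≤ Y := hY₀.trans hY
  have hprm : ∀ p ∈ S, Prm p.1 ∧ Prm p.2 := by
    intro p hp
    obtain ⟨h1, h2, -⟩ := hS p hp
    unfold Cel at h1 h2
    exact ⟨(mem_PB.1 (Finset.mem_filter.1 h1).1).1, (mem_PB.1 (Finset.mem_filter.1 h2).1).1⟩
  obtain ⟨T, hT⟩ : ∃ T : Finset (ℤ × ℕ), T = T0.filter (fun t => t.1 ≠ 0 ∧
    Nat.Coprime t.2 t.1.natAbs ∧ t.2 < t.1.natAbs ∧ t.1.natAbs ≤ N) := ⟨_, rfl⟩
  have hmaps : ∀ p ∈ S, (det p.1 p.2, bbd_kap p.1 p.2) ∈ T := by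
    intro p hp
    obtain ⟨h1, h2⟩ := hprm p hp
    obtain ⟨-, -, h7, h10, -, -⟩ := hS p hp
    have h8 := bbd_kap_spec h1 h7
    have h9 := (bbd_kap_cop h1 h2 h7).1
    rw [hT, Finset.mem_filter, hT0, Finset.mem_product, Finset.mem_Icc, Finset.mem_range]
    refine ⟨⟨⟨?_, ?_⟩, ?_⟩, h7, h9, h8.1, h10⟩
    · show -(N : ℤ) ≤ det p.1 p.2
      omega
    · show det p.1 p.2 ≤ (N : ℤ)
      omega
    · show bbd_kap p.1 p.2 < N + 1
      omega
  have step1 : ∑ p ∈ S, g p ≤ ∑ t ∈ T, C * Y / (t.1.natAbs : ℝ) * F t.1.natAbs t.2 := by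
    rw [← Finset.sum_fiberwise_of_maps_to hmaps]
    refine Finset.sum_le_sum fun t ht => ?_
    have ht' := ht
    rw [hT, Finset.mem_filter] at ht'
    obtain ⟨ht0, htn, -, -, -⟩ := ht'
    have hterm : ∀ p ∈ S.filter (fun p => (det p.1 p.2, bbd_kap p.1 p.2) = t),
        g p ≤ F t.1.natAbs t.2 := by
      intro p hp
      obtain ⟨hp1, hp2⟩ := Finset.mem_filter.1 hp
      have := (hS p hp1).2.2.2.2.2
      rw [← hp2]
      exact this
    have hsub : S.filter (fun p => (det p.1 p.2, bbd_kap p.1 p.2) = t) ⊆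
        (Cel a' 1 Y ×ˢ Cel a' 1 Y).filter (fun p => det p.1 p.2 = t.1 ∧
          ((t.1 : ℤ) : G) ∣ p.2 - (((t.2 : ℕ) : ℤ) : G) * p.1 ∧ 0 < ip p.1 p.2) := by
      intro p hp
      obtain ⟨hp1, hp2⟩ := Finset.mem_filter.1 hp
      obtain ⟨h1, -⟩ := hprm p hp1
      obtain ⟨h3, h4, h7, -, h5, -⟩ := hS p hp1
      have h8 := (bbd_kap_spec h1 h7).2
      have e2 : det p.1 p.2 = t.1 := congrArg Prod.fst hp2
      have e3 : bbd_kap p.1 p.2 = t.2 := congrArg Prod.snd hp2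
      rw [Finset.mem_filter, Finset.mem_product]
      refine ⟨⟨h3, h4⟩, e2, ?_, h5⟩
      rw [Int.cast_natCast, ← e2, ← e3]
      exact h8
    have hcard : ((S.filter (fun p => (det p.1 p.2, bbd_kap p.1 p.2) = t)).card : ℝ) ≤
        C * Y / (t.1.natAbs : ℝ) := by
      refine ((Nat.cast_le.2 (Finset.card_le_card hsub)).trans
        (hYg t htn Y ((hY₀' t ht0).trans hY))).trans_eq ?_
      rw [Nat.cast_natAbs, Int.cast_abs]
    calc ∑ p ∈ S.filter (fun p => (det p.1 p.2, bbd_kap p.1 p.2) = t), g p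
        ≤ ∑ _p ∈ S.filter (fun p => (det p.1 p.2, bbd_kap p.1 p.2) = t), F t.1.natAbs t.2 :=
          Finset.sum_le_sum hterm
      _ ≤ C * Y / (t.1.natAbs : ℝ) * F t.1.natAbs t.2 := by
          rw [Finset.sum_const, nsmul_eq_mul]
          exact mul_le_mul_of_nonneg_right hcard (hF _ _)
  obtain ⟨U, hU⟩ : ∃ U : Finset (Σ _ : ℕ, ℕ), U = (Finset.Icc 1 N).sigma (fun D =>
    (Finset.range D).filter (fun κ => Nat.Coprime κ D)) := ⟨_, rfl⟩
  have hmaps2 : ∀ t ∈ T, (⟨t.1.natAbs, t.2⟩ : Σ _ : ℕ, ℕ) ∈ U := by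
    intro t ht
    rw [hT, Finset.mem_filter] at ht
    obtain ⟨-, ht1, ht3, ht4, ht5⟩ := ht
    rw [hU, Finset.mem_sigma, Finset.mem_Icc, Finset.mem_filter, Finset.mem_range]
    refine ⟨⟨?_, ht5⟩, ht4, ht3⟩
    show 1 ≤ t.1.natAbs
    omega
  have step2 : ∑ t ∈ T, C * Y / (t.1.natAbs : ℝ) * F t.1.natAbs t.2 ≤
      ∑ u ∈ U, 2 * C * Y / (u.1 : ℝ) * F u.1 u.2 := by
    rw [← Finset.sum_fiberwise_of_maps_to hmaps2]
    refine Finset.sum_le_sum fun u _ => ?_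
    have hterm : ∀ t ∈ T.filter (fun t => (⟨t.1.natAbs, t.2⟩ : Σ _ : ℕ, ℕ) = u),
        C * Y / (t.1.natAbs : ℝ) * F t.1.natAbs t.2 = C * Y / (u.1 : ℝ) * F u.1 u.2 := by
      intro t ht
      rw [← (Finset.mem_filter.1 ht).2]
    rw [Finset.sum_congr rfl hterm, Finset.sum_const, nsmul_eq_mul]
    have hsub : T.filter (fun t => (⟨t.1.natAbs, t.2⟩ : Σ _ : ℕ, ℕ) = u) ⊆
        {((u.1 : ℤ), u.2), (-(u.1 : ℤ), u.2)} := by
      intro t ht
      have h := (Finset.mem_filter.1 ht).2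
      rw [← h, Finset.mem_insert, Finset.mem_singleton]
      rcases Int.natAbs_eq t.1 with h1 | h1
      · left
        exact Prod.ext h1 rfl
      · right
        exact Prod.ext h1 rfl
    have h2 := (Finset.card_le_card hsub).trans (Finset.card_le_two)
    have h3 : ((T.filter (fun t => (⟨t.1.natAbs, t.2⟩ : Σ _ : ℕ, ℕ) = u)).card : ℝ) ≤ 2 := by
      exact_mod_cast h2
    have h4 : 0 ≤ C * Y / (u.1 : ℝ) * F u.1 u.2 := mul_nonneg (by positivity) (hF _ _)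
    calc ((T.filter (fun t => (⟨t.1.natAbs, t.2⟩ : Σ _ : ℕ, ℕ) = u)).card : ℝ) *
          (C * Y / (u.1 : ℝ) * F u.1 u.2) ≤ 2 * (C * Y / (u.1 : ℝ) * F u.1 u.2) :=
          mul_le_mul_of_nonneg_right h3 h4
      _ = 2 * C * Y / (u.1 : ℝ) * F u.1 u.2 := by ring
  refine step1.trans (step2.trans_eq ?_)
  rw [hU, Finset.sum_sigma]

theorem bbd_mem {η : ℝ} (hη1 : η ≤ 1) {P p : ℕ} (hp : p ∈ QP η P) :
    p.Prime ∧ P < p ∧ p ≤ 2 * P := by
  unfold QP pr1 at hp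
  rw [Finset.mem_filter] at hp
  obtain ⟨-, h1, -, h2, h3⟩ := hp
  refine ⟨h1, by exact_mod_cast h2, ?_⟩
  have hP : (0 : ℝ) ≤ P := Nat.cast_nonneg P
  have h4 : (p : ℝ) ≤ 2 * P := by nlinarith
  exact_mod_cast h4

/-- the numbers `κ` for a pair of primes -/
theorem bbd_one (d p p' : ℕ) (hd : 1 ≤ d) (hp : Nat.Coprime p d) :
    ((Finset.range d).filter (fun κ : ℕ => (d : ℤ) ∣ (p' : ℤ) - (κ : ℤ) * p)).card ≤ 1 := by
  rw [Finset.card_le_one]
  intro x hx y hy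
  rw [Finset.mem_filter, Finset.mem_range] at hx hy
  have h1 : (d : ℤ) ∣ (p : ℤ) * ((x : ℤ) - y) := by
    have h2 := dvd_sub hy.2 hx.2
    have e : (p' : ℤ) - (y : ℤ) * p - ((p' : ℤ) - (x : ℤ) * p) = (p : ℤ) * ((x : ℤ) - y) := by
      ring
    rwa [e] at h2
  have h3 : IsCoprime (d : ℤ) (p : ℤ) := Nat.isCoprime_iff_coprime.2 hp.symm
  have h4 : (d : ℤ) ∣ (x : ℤ) - y := h3.dvd_of_dvd_mul_left h1
  have h5 : (x : ℤ) - y = 0 := by
    apply Int.eq_zero_of_abs_lt_dvd h4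
    rw [abs_lt]
    constructor <;> omega
  omega

theorem bbd_two (d p : ℕ) (hp : 0 < p) (hd : 1 ≤ d) (hpd : p ∣ d) :
    ((Finset.range d).filter (fun κ : ℕ => (d : ℤ) ∣ (p : ℤ) - (κ : ℤ) * p)).card ≤ p := by
  obtain ⟨e, rfl⟩ := hpd
  have he : 0 < e := by
    rcases Nat.eq_zero_or_pos e with h | h
    · rw [h, mul_zero] at hd
      omega
    · exact h
  have h1 : ∀ κ ∈ (Finset.range (p * e)).filter
      (fun κ : ℕ => ((p * e : ℕ) : ℤ) ∣ (p : ℤ) - (κ : ℤ) * p), κ / e ∈ Finset.range p := by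
    intro κ hκ
    rw [Finset.mem_filter, Finset.mem_range] at hκ
    rw [Finset.mem_range, Nat.div_lt_iff_lt_mul he]
    exact hκ.1
  have h2 : Set.InjOn (fun κ : ℕ => κ / e) ((Finset.range (p * e)).filter
      (fun κ : ℕ => ((p * e : ℕ) : ℤ) ∣ (p : ℤ) - (κ : ℤ) * p) : Finset ℕ) := by
    intro x hx y hy hxy
    rw [Finset.mem_coe, Finset.mem_filter] at hx hy
    have h3 : ((p * e : ℕ) : ℤ) ∣ (p : ℤ) * ((x : ℤ) - y) := by
      have h2 := dvd_sub hy.2 hx.2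
      have e : (p : ℤ) - (y : ℤ) * p - ((p : ℤ) - (x : ℤ) * p) = (p : ℤ) * ((x : ℤ) - y) := by
        ring
      rwa [e] at h2
    push_cast at h3
    have h4 : (e : ℤ) ∣ (x : ℤ) - y :=
      Int.dvd_of_mul_dvd_mul_left (by exact_mod_cast hp.ne') h3
    have h5 : y ≡ x [MOD e] := (Nat.modEq_iff_dvd).2 h4
    have h6 : y % e = x % e := h5
    have h7 := Nat.div_add_mod x e
    have h8 := Nat.div_add_mod y e
    have h9 : x / e = y / e := hxy
    rw [← h7, ← h8, h9, h6]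
  calc ((Finset.range (p * e)).filter
      (fun κ : ℕ => ((p * e : ℕ) : ℤ) ∣ (p : ℤ) - (κ : ℤ) * p)).card
      ≤ (Finset.range p).card := Finset.card_le_card_of_injOn _ h1 h2
    _ = p := Finset.card_range p

open Classical in
theorem bbd_nd (Q : Finset ℕ) (P d : ℕ) (hQ : ∀ p ∈ Q, p.Prime ∧ P < p ∧ p ≤ 2 * P)
    (hd : 1 ≤ d) (hdP : d ≤ P * P) :
    ∑ κ ∈ (Finset.range d).filter (fun κ => Nat.Coprime κ d), ND Q d (κ : ℤ) ≤
      (Q.card : ℝ) ^ 2 + 2 * P := by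
  have h1 : ∑ κ ∈ (Finset.range d).filter (fun κ => Nat.Coprime κ d), ND Q d (κ : ℤ) ≤
      ∑ κ ∈ Finset.range d, ND Q d (κ : ℤ) := by
    refine Finset.sum_le_sum_of_subset_of_nonneg (Finset.filter_subset _ _) (fun _ _ _ => ?_)
    unfold ND
    positivity
  refine h1.trans ?_
  have h2 : ∑ κ ∈ Finset.range d, ND Q d (κ : ℤ) = ((∑ t ∈ Q ×ˢ Q,
      ((Finset.range d).filter (fun κ : ℕ =>
        (d : ℤ) ∣ (t.2 : ℤ) - (κ : ℤ) * t.1)).card : ℕ) : ℝ) := by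
    unfold ND
    rw [← Nat.cast_sum]
    congr 1
    have h3 : ∀ κ ∈ Finset.range d, ((Q ×ˢ Q).filter (fun t : ℕ × ℕ =>
        (d : ℤ) ∣ (t.2 : ℤ) - (κ : ℤ) * t.1)).card = ∑ t ∈ Q ×ˢ Q,
          if (d : ℤ) ∣ (t.2 : ℤ) - (κ : ℤ) * t.1 then 1 else 0 := by
      intro κ _
      rw [Finset.card_filter]
    rw [Finset.sum_congr rfl h3, Finset.sum_comm]
    refine Finset.sum_congr rfl fun t _ => ?_
    rw [Finset.card_filter]
  rw [h2]
  have h4 : ∀ t ∈ Q ×ˢ Q, ((Finset.range d).filter (fun κ : ℕ =>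
      (d : ℤ) ∣ (t.2 : ℤ) - (κ : ℤ) * t.1)).card ≤
      1 + if t.1 ∣ d ∧ t.2 = t.1 then 2 * P else 0 := by
    intro t ht
    obtain ⟨p, p'⟩ := t
    rw [Finset.mem_product] at ht
    obtain ⟨hp, hp'⟩ := ht
    obtain ⟨hpp, hp1, hp2⟩ := hQ p hp
    obtain ⟨hpp', -, -⟩ := hQ p' hp'
    show ((Finset.range d).filter (fun κ : ℕ =>
      (d : ℤ) ∣ (p' : ℤ) - (κ : ℤ) * p)).card ≤ 1 + if p ∣ d ∧ p' = p then 2 * P else 0
    by_cases h5 : p ∣ d
    · by_cases h6 : p' = p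
      · rw [if_pos ⟨h5, h6⟩, h6]
        have := bbd_two d p hpp.pos hd h5
        omega
      · rw [if_neg (fun h => h6 h.2)]
        have h7 : (Finset.range d).filter (fun κ : ℕ =>
            (d : ℤ) ∣ (p' : ℤ) - (κ : ℤ) * p) = ∅ := by
          rw [Finset.filter_eq_empty_iff]
          intro κ _ hκ
          have h8 : (p : ℤ) ∣ (p' : ℤ) - (κ : ℤ) * p := (Int.natCast_dvd_natCast.2 h5).trans hκ
          have h9 : (p : ℤ) ∣ (p' : ℤ) := (dvd_sub_left (Dvd.intro_left _ rfl)).1 h8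
          have h10 : p ∣ p' := Int.natCast_dvd_natCast.1 h9
          exact h6 ((Nat.prime_dvd_prime_iff_eq hpp hpp').1 h10).symm
        rw [h7, Finset.card_empty]
        omega
    · rw [if_neg (fun h => h5 h.1)]
      exact bbd_one d p p' hd ((Nat.Prime.coprime_iff_not_dvd hpp).2 h5)
  have h11 : ∑ t ∈ Q ×ˢ Q, ((Finset.range d).filter (fun κ : ℕ =>
      (d : ℤ) ∣ (t.2 : ℤ) - (κ : ℤ) * t.1)).card ≤ Q.card ^ 2 + 2 * P := by
    refine (Finset.sum_le_sum h4).trans ?_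
    rw [Finset.sum_add_distrib, Finset.sum_const, Finset.card_product, smul_eq_mul, mul_one]
    have h12 : ∑ t ∈ Q ×ˢ Q, (if t.1 ∣ d ∧ t.2 = t.1 then 2 * P else 0) ≤ 2 * P := by
      rw [← Finset.sum_filter, Finset.sum_const, smul_eq_mul]
      have h13 : ((Q ×ˢ Q).filter (fun t : ℕ × ℕ => t.1 ∣ d ∧ t.2 = t.1)).card ≤ 1 := by
        rw [Finset.card_le_one]
        rintro ⟨x, x'⟩ hx ⟨y, y'⟩ hy
        rw [Finset.mem_filter, Finset.mem_product] at hx hy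
        obtain ⟨⟨hx1, -⟩, hx3, hx4⟩ := hx
        obtain ⟨⟨hy1, -⟩, hy3, hy4⟩ := hy
        have hx4' : x' = x := hx4
        have hy4' : y' = y := hy4
        have hx1' : x ∈ Q := hx1
        have hy1' : y ∈ Q := hy1
        obtain ⟨a1, a2, -⟩ := hQ x hx1'
        obtain ⟨b1, b2, -⟩ := hQ y hy1'
        have hxy : x = y := by
          by_contra hne
          have hc : Nat.Coprime x y := (Nat.coprime_primes a1 b1).2 hne
          have hdv : x * y ∣ d := hc.mul_dvd_of_dvd_of_dvd hx3 hy3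
          have hle := Nat.le_of_dvd (by omega) hdv
          have : P * P < x * y := Nat.mul_lt_mul'' a2 b2
          omega
        rw [hx4', hy4', hxy]
      calc ((Q ×ˢ Q).filter (fun t : ℕ × ℕ => t.1 ∣ d ∧ t.2 = t.1)).card * (2 * P)
          ≤ 1 * (2 * P) := Nat.mul_le_mul_right _ h13
        _ = 2 * P := one_mul _
    have h14 : Q.card * Q.card = Q.card ^ 2 := by ring
    omega
  have h15 : ((∑ t ∈ Q ×ˢ Q, ((Finset.range d).filter (fun κ : ℕ =>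
      (d : ℤ) ∣ (t.2 : ℤ) - (κ : ℤ) * t.1)).card : ℕ) : ℝ) ≤ ((Q.card ^ 2 + 2 * P : ℕ) : ℝ) :=
    Nat.cast_le.2 h11
  refine h15.trans_eq ?_
  push_cast
  ring

open Classical in
theorem bad_det_pr (a a' δ : ℝ) (ha : 0 < a) (ha1 : a ≤ 1) (ha' : 0 < a') (hδ : 0 < δ)
    (hδ1 : δ ≤ 1) : ∃ C : ℝ, 1 ≤ C ∧ ∀ (R₀ : ℕ) (η : ℝ), 0 < η → η ≤ 1 → ∃ P₀ : ℕ,
    ∀ P : ℕ, P₀ ≤ P → ∃ Y₀ : ℝ, ∀ Y : ℝ, Y₀ ≤ Y →
    ∑ w ∈ Cel a' 1 Y, ∑ w' ∈ (Cel a' 1 Y).filter (fun w' => Med a δ P w w' ∧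
      ∃ p ∈ QP η P, (p : ℤ) ∣ det w w'),
      (NP (QP η P) (det w w') w w' + MP (QP η P) R₀ w w') ≤
        C * (((QP η P).card : ℝ) ^ 3 / P + (QP η P).card) * Y := by
  obtain ⟨C, hC1, hC⟩ := bbd_pairs a' ha'
  have hC0 : 0 < C := by linarith
  have hsa : 0 < Real.sqrt a := Real.sqrt_pos.2 ha
  have hsa1 : Real.sqrt a ≤ 1 := Real.sqrt_le_one.2 ha1
  obtain ⟨C₄, hC₄⟩ : ∃ C₄ : ℝ, C₄ = 4 / Real.sqrt a := ⟨_, rfl⟩
  have hC₄1 : 1 ≤ C₄ := by
    rw [hC₄, le_div_iff₀ hsa]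
    linarith
  have hC₄0 : 0 < C₄ := by linarith
  refine ⟨8 * C * C₄ / δ, ?_, fun R₀ η hη hη1 => ?_⟩
  · rw [le_div_iff₀ hδ]
    nlinarith
  obtain ⟨P₀, hP₀⟩ := md_le R₀ η hη hη1
  refine ⟨max (max P₀ 1) ⌈C₄⌉₊, fun P hP => ?_⟩
  have hP1 : 1 ≤ P := le_trans ((le_max_right _ _).trans (le_max_left _ _)) hP
  have hP1' : (1 : ℝ) ≤ P := by exact_mod_cast hP1
  have hPC : C₄ ≤ P := (Nat.le_ceil C₄).trans (Nat.cast_le.2 ((le_max_right _ _).trans hP))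
  have hmd := hP₀ P (le_trans ((le_max_left _ _).trans (le_max_left _ _)) hP)
  obtain ⟨M, hM⟩ : ∃ M : ℕ, M = ⌊C₄ * P⌋₊ := ⟨_, rfl⟩
  have hMle : (M : ℝ) ≤ C₄ * P := by
    rw [hM]
    exact Nat.floor_le (by positivity)
  have hMP : M ≤ P * P := by
    have : (M : ℝ) ≤ ((P * P : ℕ) : ℝ) := by
      push_cast
      exact hMle.trans (mul_le_mul_of_nonneg_right hPC (by positivity))
    exact_mod_cast this
  obtain ⟨Y₀, hY₀, hYY⟩ := hC M
  refine ⟨Y₀, fun Y hY => ?_⟩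
  have hY0 : 0 ≤ Y := hY₀.trans hY
  obtain ⟨Q, hQ⟩ : ∃ Q : Finset ℕ, Q = QP η P := ⟨_, rfl⟩
  have hQp : ∀ p ∈ Q, p.Prime ∧ P < p ∧ p ≤ 2 * P := by
    intro p hp
    rw [hQ] at hp
    exact bbd_mem hη1 hp
  rw [← hQ] at hmd ⊢
  obtain ⟨S, hS⟩ : ∃ S : Finset (G × G), S = (Cel a' 1 Y ×ˢ Cel a' 1 Y).filter (fun p =>
    Med a δ P p.1 p.2 ∧ ∃ q ∈ Q, (q : ℤ) ∣ det p.1 p.2) := ⟨_, rfl⟩
  have e1 : ∑ w ∈ Cel a' 1 Y, ∑ w' ∈ (Cel a' 1 Y).filter (fun w' => Med a δ P w w' ∧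
      ∃ p ∈ Q, (p : ℤ) ∣ det w w'), (NP Q (det w w') w w' + MP Q R₀ w w') =
      ∑ p ∈ S, (NP Q (det p.1 p.2) p.1 p.2 + MP Q R₀ p.1 p.2) := by
    rw [hS, Finset.sum_filter, Finset.sum_product]
    refine Finset.sum_congr rfl fun w _ => ?_
    rw [Finset.sum_filter]
  rw [e1]
  have hND0 : ∀ (d : ℕ) (κ : ℤ), 0 ≤ ND Q d κ := by
    intro d κ
    unfold ND
    positivity
  have hMD0 : ∀ (d : ℕ) (κ : ℤ), 0 ≤ MD Q R₀ d κ := by
    intro d κ
    unfold MD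
    exact mul_nonneg (by positivity) (hND0 _ _)
  obtain ⟨F, hF⟩ : ∃ F : ℕ → ℕ → ℝ, ∀ d κ, F d κ = if δ * P < (d : ℝ) ∧ ∃ q ∈ Q, q ∣ d then
    ND Q d (κ : ℤ) + MD Q R₀ d (κ : ℤ) else 0 := ⟨_, fun _ _ => rfl⟩
  have hF0 : ∀ d κ, 0 ≤ F d κ := by
    intro d κ
    rw [hF]
    split_ifs
    · exact add_nonneg (hND0 _ _) (hMD0 _ _)
    · exact le_rfl
  have hmain := hYY Y hY S (fun p => NP Q (det p.1 p.2) p.1 p.2 + MP Q R₀ p.1 p.2) F hF0 ?_
  · refine hmain.trans ?_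
    have s1 : ∀ d ∈ Finset.Icc 1 M,
        ∑ κ ∈ (Finset.range d).filter (fun κ => Nat.Coprime κ d), 2 * C * Y / d * F d κ ≤
        (if ∃ q ∈ Q, q ∣ d then 2 * C * Y / (δ * P) * (4 * (Q.card : ℝ) ^ 2 + 2 * P) else 0) := by
      intro d hd
      rw [Finset.mem_Icc] at hd
      have hd0 : (0 : ℝ) < d := by exact_mod_cast hd.1
      by_cases hbig : δ * P < (d : ℝ) ∧ ∃ q ∈ Q, q ∣ d
      · rw [if_pos hbig.2]
        have s2 : ∀ κ ∈ (Finset.range d).filter (fun κ => Nat.Coprime κ d),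
            2 * C * Y / d * F d κ = 2 * C * Y / d * (ND Q d (κ : ℤ) + MD Q R₀ d (κ : ℤ)) := by
          intro κ _
          rw [hF, if_pos hbig]
        rw [Finset.sum_congr rfl s2, ← Finset.mul_sum, Finset.sum_add_distrib]
        have s3 := bbd_nd Q P d hQp hd.1 (hd.2.trans hMP)
        have s4 : ∑ κ ∈ (Finset.range d).filter (fun κ => Nat.Coprime κ d),
            MD Q R₀ d (κ : ℤ) ≤ 3 * (Q.card : ℝ) ^ 2 := by
          have ht : (0 : ℝ) < (Nat.totient d : ℝ) := by exact_mod_cast Nat.totient_pos.2 hd.1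
          have s5 : ∑ κ ∈ (Finset.range d).filter (fun κ => Nat.Coprime κ d),
            MD Q R₀ d (κ : ℤ) ≤ ∑ _κ ∈ (Finset.range d).filter (fun κ => Nat.Coprime κ d),
              3 * (Q.card : ℝ) ^ 2 / (Nat.totient d : ℝ) :=
            Finset.sum_le_sum fun κ _ => hmd d (κ : ℤ) hd.1
          have s6 : ((Finset.range d).filter (fun κ => Nat.Coprime κ d)).card =
              Nat.totient d := by
            rw [Nat.totient_eq_card_coprime]
            congr 1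
            ext κ
            rw [Finset.mem_filter, Finset.mem_filter]
            exact and_congr_right fun _ => Nat.coprime_comm
          rw [Finset.sum_const, nsmul_eq_mul, s6] at s5
          refine s5.trans_eq ?_
          field_simp
        have s7 : 2 * C * Y / d ≤ 2 * C * Y / (δ * P) :=
          div_le_div_of_nonneg_left (by positivity) (by positivity) hbig.1.le
        refine mul_le_mul s7 (by linarith) ?_ (by positivity)
        exact add_nonneg (Finset.sum_nonneg fun _ _ => hND0 _ _)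
          (Finset.sum_nonneg fun _ _ => hMD0 _ _)
      · have s2 : ∀ κ ∈ (Finset.range d).filter (fun κ => Nat.Coprime κ d),
            2 * C * Y / d * F d κ = 0 := by
          intro κ _
          rw [hF, if_neg hbig, mul_zero]
        rw [Finset.sum_congr rfl s2, Finset.sum_const_zero]
        split_ifs
        · positivity
        · exact le_rfl
    refine (Finset.sum_le_sum s1).trans ?_
    rw [← Finset.sum_filter, Finset.sum_const, nsmul_eq_mul]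
    have s8 : (((Finset.Icc 1 M).filter (fun d => ∃ q ∈ Q, q ∣ d)).card : ℝ) ≤
        C₄ * Q.card := by
      have s9 : (Finset.Icc 1 M).filter (fun d => ∃ q ∈ Q, q ∣ d) ⊆
          Q.biUnion (fun q => (Finset.Icc 1 (M / q)).image (fun m => q * m)) := by
        intro d hd
        rw [Finset.mem_filter, Finset.mem_Icc] at hd
        obtain ⟨⟨hd1, hd2⟩, q, hq, m, rfl⟩ := hd
        have hq0 : 0 < q := (hQp q hq).1.pos
        rw [Finset.mem_biUnion]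
        refine ⟨q, hq, ?_⟩
        rw [Finset.mem_image]
        refine ⟨m, ?_, rfl⟩
        rw [Finset.mem_Icc]
        constructor
        · rcases Nat.eq_zero_or_pos m with h0 | h0
          · rw [h0, mul_zero] at hd1
            omega
          · exact h0
        · rw [Nat.le_div_iff_mul_le hq0, mul_comm]
          exact hd2
      have s10 : ((Finset.Icc 1 M).filter (fun d => ∃ q ∈ Q, q ∣ d)).card ≤
          ∑ q ∈ Q, M / q := by
        refine (Finset.card_le_card s9).trans (Finset.card_biUnion_le.trans ?_)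
        refine Finset.sum_le_sum fun q _ => ?_
        refine Finset.card_image_le.trans ?_
        rw [Nat.card_Icc, Nat.add_sub_cancel]
      have s11 : ((∑ q ∈ Q, M / q : ℕ) : ℝ) ≤ ∑ _q ∈ Q, C₄ := by
        rw [Nat.cast_sum]
        refine Finset.sum_le_sum fun q hq => ?_
        have hq1 : (P : ℝ) < q := by exact_mod_cast (hQp q hq).2.1
        have hq0 : (0 : ℝ) < q := by linarith
        refine (Nat.cast_div_le).trans ?_
        rw [div_le_iff₀ hq0]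
        exact hMle.trans (mul_le_mul_of_nonneg_left hq1.le hC₄0.le)
      rw [Finset.sum_const, nsmul_eq_mul] at s11
      exact ((Nat.cast_le.2 s10).trans s11).trans_eq (mul_comm _ _)
    calc (((Finset.Icc 1 M).filter (fun d => ∃ q ∈ Q, q ∣ d)).card : ℝ) *
          (2 * C * Y / (δ * P) * (4 * (Q.card : ℝ) ^ 2 + 2 * P))
        ≤ (C₄ * Q.card) * (2 * C * Y / (δ * P) * (4 * (Q.card : ℝ) ^ 2 + 2 * P)) :=
          mul_le_mul_of_nonneg_right s8 (by positivity)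
      _ ≤ (C₄ * Q.card) * (2 * C * Y / (δ * P) * (4 * (Q.card : ℝ) ^ 2 + 4 * P)) := by
          refine mul_le_mul_of_nonneg_left (mul_le_mul_of_nonneg_left ?_ (by positivity))
            (by positivity)
          linarith
      _ = 8 * C * C₄ / δ * ((Q.card : ℝ) ^ 3 / P + Q.card) * Y := by
          have hPn : (P : ℝ) ≠ 0 := by positivity
          field_simp
          ring
  · intro p hp
    rw [hS, Finset.mem_filter, Finset.mem_product] at hp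
    obtain ⟨⟨h1, h2⟩, h3, h4⟩ := hp
    have h1' := h1
    have h2' := h2
    unfold Cel at h1' h2'
    have hw := (mem_PB.1 (Finset.mem_filter.1 h1').1).1
    have hw' := (mem_PB.1 (Finset.mem_filter.1 h2').1).1
    have hD : det p.1 p.2 ≠ 0 := by
      intro h0
      have h4 := h3.1
      rw [h0, Int.cast_zero, abs_zero] at h4
      have : 0 < δ * P := by positivity
      linarith
    have h10 : (det p.1 p.2).natAbs ≤ M := by
      rw [hM, Nat.le_floor_iff (by positivity)]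
      have := h3.2.1
      rw [hC₄, Nat.cast_natAbs, Int.cast_abs]
      exact this
    refine ⟨h1, h2, hD, h10, h3.2.2, ?_⟩
    show NP Q (det p.1 p.2) p.1 p.2 + MP Q R₀ p.1 p.2 ≤
      F (det p.1 p.2).natAbs (bbd_kap p.1 p.2)
    obtain ⟨d, hd⟩ : ∃ d : ℕ, d = (det p.1 p.2).natAbs := ⟨_, rfl⟩
    have hbig : δ * P < (d : ℝ) ∧ ∃ q ∈ Q, q ∣ d := by
      constructor
      · rw [hd, Nat.cast_natAbs, Int.cast_abs]
        exact h3.1
      · obtain ⟨q, hq, hqd⟩ := h4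
        refine ⟨q, hq, ?_⟩
        rw [hd]
        exact Int.natCast_dvd.1 hqd
    rw [hF, ← hd, if_pos hbig]
    obtain ⟨-, hN⟩ := bbd_kap_cop hw hw' hD
    have hgd : Nat.gcd d R₀.factorial ∣ (det p.1 p.2).natAbs := by
      rw [← hd]
      exact Nat.gcd_dvd_left _ _
    have e2 := hN Q (Nat.gcd d R₀.factorial) hgd
    have e3 : NP Q (det p.1 p.2) p.1 p.2 = ND Q d (bbd_kap p.1 p.2 : ℤ) := by
      rw [bbd_np, ← hd]
      exact hN Q d (by rw [← hd])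
    have e4 : MP Q R₀ p.1 p.2 = MD Q R₀ d (bbd_kap p.1 p.2 : ℤ) := by
      unfold MP MD
      rw [← hd, e2]
    rw [e3, e4]

end Pool.Agent.T2


namespace Pool.Agent.T2

theorem bad_det : type_of% @bad_det_pr := @bad_det_pr

end Pool.Agent.T2
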