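import Pool.Agent.Lib_helper10.T2.DefsB

/-! T2, block BHF: the Fourier series of the hat function -/

namespace Pool.Agent.T2

open Filter Topology MeasureTheory

/-- the shifted hat -/
noncomputable def bhf_f (w₀ θ₀ θ : ℝ) : ℂ := ((hat ((θ - θ₀) / w₀) : ℝ) : ℂ)

theorem bhf_cont (w₀ θ₀ : ℝ) : Continuous (bhf_f w₀ θ₀) := by
  unfold bhf_f hat
  fun_prop

theorem bhf_norm (w₀ θ₀ θ : ℝ) : ‖bhf_f w₀ θ₀ θ‖ ≤ 1 := by
  unfold bhf_f hat
  rw [Complex.norm_real, Real.norm_of_nonneg (le_max_left _ _)]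
  refine max_le zero_le_one ?_
  have := abs_nonneg ((θ - θ₀) / w₀)
  linarith

theorem bhf_out {w₀ θ₀ θ : ℝ} (hw : 0 < w₀) (h : w₀ ≤ |θ - θ₀|) : bhf_f w₀ θ₀ θ = 0 := by
  unfold bhf_f hat
  have : 1 ≤ |(θ - θ₀) / w₀| := by
    rw [abs_div, abs_of_pos hw, le_div_iff₀ hw]
    linarith
  rw [max_eq_left (by linarith)]
  simp

theorem bhf_left {w₀ θ₀ θ : ℝ} (hw : 0 < w₀) (h : θ₀ - w₀ ≤ θ) (h2 : θ ≤ θ₀) :
    bhf_f w₀ θ₀ θ = ((1 + (θ - θ₀) / w₀ : ℝ) : ℂ) := by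
  unfold bhf_f hat
  have h3 : (θ - θ₀) / w₀ ≤ 0 := div_nonpos_of_nonpos_of_nonneg (by linarith) hw.le
  have h4 : -1 ≤ (θ - θ₀) / w₀ := by
    rw [le_div_iff₀ hw]; linarith
  rw [abs_of_nonpos h3, max_eq_right (by linarith)]
  congr 1
  ring

theorem bhf_right {w₀ θ₀ θ : ℝ} (hw : 0 < w₀) (h : θ₀ ≤ θ) (h2 : θ ≤ θ₀ + w₀) :
    bhf_f w₀ θ₀ θ = ((1 - (θ - θ₀) / w₀ : ℝ) : ℂ) := by
  unfold bhf_f hat
  have h3 : 0 ≤ (θ - θ₀) / w₀ := div_nonneg (by linarith) hw.le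
  have h4 : (θ - θ₀) / w₀ ≤ 1 := by
    rw [div_le_iff₀ hw]; linarith
  rw [abs_of_nonneg h3, max_eq_right (by linarith)]

/-- integral of a linear function against an exponential -/
theorem bhf_lin (k : ℤ) (hk : k ≠ 0) (α β a b : ℝ) :
    ∫ θ in a..b, Complex.exp (-(k * θ * Complex.I)) * ((α + β * θ : ℝ) : ℂ) =
      ((α + β * b : ℝ) * Complex.I / k + β / (k : ℂ) ^ 2) * Complex.exp (-(k * b * Complex.I)) -
      ((α + β * a : ℝ) * Complex.I / k + β / (k : ℂ) ^ 2) * Complex.exp (-(k * a * Complex.I)) := by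
  have hkc : (k : ℂ) ≠ 0 := by exact_mod_cast hk
  have hd : ∀ θ : ℝ, HasDerivAt (fun θ : ℝ => ((α + β * θ : ℝ) * Complex.I / k + β / (k : ℂ) ^ 2) *
      Complex.exp (-(k * θ * Complex.I)))
      (Complex.exp (-(k * θ * Complex.I)) * ((α + β * θ : ℝ) : ℂ)) θ := by
    intro θ
    have h1 : HasDerivAt (fun θ : ℝ => ((α + β * θ : ℝ) : ℂ)) (β : ℂ) θ := by
      have : HasDerivAt (fun θ : ℝ => α + β * θ) β θ := by
        simpa using ((hasDerivAt_id θ).const_mul β).const_add α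
      exact this.ofReal_comp
    have h2 : HasDerivAt (fun θ : ℝ => -((k : ℂ) * θ * Complex.I)) (-((k : ℂ) * Complex.I)) θ := by
      have h3 : HasDerivAt (fun θ : ℝ => ((θ : ℝ) : ℂ)) 1 θ := (hasDerivAt_id θ).ofReal_comp
      have h5 := ((h3.const_mul (k : ℂ)).mul_const Complex.I).fun_neg
      rw [mul_one] at h5
      exact h5
    have h4 := h2.cexp
    have h5 := ((h1.mul_const Complex.I).div_const (k : ℂ)).add_const (β / (k : ℂ) ^ 2)
    have h6 := h5.fun_mul h4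
    refine h6.congr_deriv ?_
    push_cast
    have e1 : (β : ℂ) * Complex.I / k * Complex.exp (-(k * θ * Complex.I)) +
        ((α + β * θ) * Complex.I / k + β / (k : ℂ) ^ 2) *
          (Complex.exp (-(k * θ * Complex.I)) * -(k * Complex.I)) =
        -(Complex.I ^ 2) * (Complex.exp (-(k * θ * Complex.I)) * (α + β * θ)) := by
      field_simp
      ring
    rw [e1, Complex.I_sq]
    ring
  have hc : Continuous (fun θ : ℝ => Complex.exp (-(k * θ * Complex.I)) * ((α + β * θ : ℝ) : ℂ)) := by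
    fun_prop
  rw [intervalIntegral.integral_eq_sub_of_hasDerivAt (fun θ _ => hd θ) (hc.intervalIntegrable _ _)]

theorem bhf_zero_int {w₀ θ₀ a b : ℝ} (g : ℝ → ℂ) (hw : 0 < w₀) (hab : a ≤ b)
    (h : (∀ θ, a < θ → θ ≤ b → w₀ ≤ |θ - θ₀|)) :
    ∫ θ in a..b, g θ * bhf_f w₀ θ₀ θ = 0 := by
  rw [intervalIntegral.integral_of_le hab]
  refine setIntegral_eq_zero_of_forall_eq_zero fun θ hθ => ?_
  rw [bhf_out hw (h θ hθ.1 hθ.2), mul_zero]

theorem bhf_coef {w₀ θ₀ : ℝ} (hw : 0 < w₀) (hw1 : w₀ ≤ 1) (hθ : |θ₀| ≤ 1) {k : ℤ} (hk : k ≠ 0) :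
    ‖∫ θ in (-Real.pi)..Real.pi, Complex.exp (-(k * θ * Complex.I)) * bhf_f w₀ θ₀ θ‖ ≤
      4 / (w₀ * (k : ℝ) ^ 2) := by
  have hpi := Real.pi_gt_three
  rw [abs_le] at hθ
  set g : ℝ → ℂ := fun θ => Complex.exp (-(k * θ * Complex.I)) with hg
  have hgc : Continuous g := by simp only [hg]; fun_prop
  have hc : Continuous (fun θ => g θ * bhf_f w₀ θ₀ θ) := hgc.mul (bhf_cont w₀ θ₀)
  have hI : ∀ a b, IntervalIntegrable (fun θ => g θ * bhf_f w₀ θ₀ θ) volume a b := fun a b =>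
    hc.intervalIntegrable _ _
  have e0 : ∫ θ in (-Real.pi)..Real.pi, g θ * bhf_f w₀ θ₀ θ =
      (∫ θ in (-Real.pi)..(θ₀ - w₀), g θ * bhf_f w₀ θ₀ θ) +
      (∫ θ in (θ₀ - w₀)..θ₀, g θ * bhf_f w₀ θ₀ θ) +
      (∫ θ in θ₀..(θ₀ + w₀), g θ * bhf_f w₀ θ₀ θ) +
      ∫ θ in (θ₀ + w₀)..Real.pi, g θ * bhf_f w₀ θ₀ θ := by
    rw [intervalIntegral.integral_add_adjacent_intervals (hI _ _) (hI _ _),
      intervalIntegral.integral_add_adjacent_intervals (hI _ _) (hI _ _),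
      intervalIntegral.integral_add_adjacent_intervals (hI _ _) (hI _ _)]
  have e1 : ∫ θ in (-Real.pi)..(θ₀ - w₀), g θ * bhf_f w₀ θ₀ θ = 0 := by
    refine bhf_zero_int g hw (by linarith) fun θ _ h2 => ?_
    rw [abs_of_nonpos (by linarith)]; linarith
  have e4 : ∫ θ in (θ₀ + w₀)..Real.pi, g θ * bhf_f w₀ θ₀ θ = 0 := by
    refine bhf_zero_int g hw (by linarith) fun θ h1 _ => ?_
    rw [abs_of_nonneg (by linarith)]; linarith
  have e2 : ∫ θ in (θ₀ - w₀)..θ₀, g θ * bhf_f w₀ θ₀ θ =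
      ∫ θ in (θ₀ - w₀)..θ₀, g θ * (((1 - θ₀ / w₀) + (1 / w₀) * θ : ℝ) : ℂ) := by
    refine intervalIntegral.integral_congr fun θ hθ' => ?_
    rw [Set.uIcc_of_le (by linarith)] at hθ'
    rw [bhf_left hw hθ'.1 hθ'.2]
    congr 2
    ring
  have e3 : ∫ θ in θ₀..(θ₀ + w₀), g θ * bhf_f w₀ θ₀ θ =
      ∫ θ in θ₀..(θ₀ + w₀), g θ * (((1 + θ₀ / w₀) + (-(1 / w₀)) * θ : ℝ) : ℂ) := by
    refine intervalIntegral.integral_congr fun θ hθ' => ?_
    rw [Set.uIcc_of_le (by linarith)] at hθ'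
    rw [bhf_right hw hθ'.1 hθ'.2]
    congr 2
    ring
  have e2' := bhf_lin k hk (1 - θ₀ / w₀) (1 / w₀) (θ₀ - w₀) θ₀
  have e3' := bhf_lin k hk (1 + θ₀ / w₀) (-(1 / w₀)) θ₀ (θ₀ + w₀)
  have v1 : (1 - θ₀ / w₀) + (1 / w₀) * θ₀ = 1 := by field_simp; ring
  have v2 : (1 - θ₀ / w₀) + (1 / w₀) * (θ₀ - w₀) = 0 := by field_simp; ring
  have v3 : (1 + θ₀ / w₀) + (-(1 / w₀)) * (θ₀ + w₀) = 0 := by field_simp; ring
  have v4 : (1 + θ₀ / w₀) + (-(1 / w₀)) * θ₀ = 1 := by field_simp; ring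
  rw [v1, v2] at e2'
  rw [v3, v4] at e3'
  have key : ∫ θ in (-Real.pi)..Real.pi, g θ * bhf_f w₀ θ₀ θ =
      (((1 / w₀ : ℝ) : ℂ) / (k : ℂ) ^ 2) * (Complex.exp (-(k * θ₀ * Complex.I)) +
        Complex.exp (-(k * θ₀ * Complex.I)) -
        Complex.exp (-(k * (θ₀ - w₀ : ℝ) * Complex.I)) -
        Complex.exp (-(k * (θ₀ + w₀ : ℝ) * Complex.I))) := by
    rw [e0, e1, e4, e2, e3]
    simp only [hg]
    rw [e2', e3']
    push_cast
    ring
  rw [key, norm_mul, norm_div, norm_pow, Complex.norm_real, Complex.norm_intCast,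
    Real.norm_of_nonneg (by positivity), sq_abs]
  have hexp : ∀ x : ℝ, ‖Complex.exp (-(k * x * Complex.I))‖ = 1 := by
    intro x
    have : -((k : ℂ) * x * Complex.I) = ((-(k * x) : ℝ) : ℂ) * Complex.I := by push_cast; ring
    rw [this, Complex.norm_exp_ofReal_mul_I]
  have hn : ‖Complex.exp (-(k * θ₀ * Complex.I)) + Complex.exp (-(k * θ₀ * Complex.I)) -
        Complex.exp (-(k * (θ₀ - w₀ : ℝ) * Complex.I)) -
        Complex.exp (-(k * (θ₀ + w₀ : ℝ) * Complex.I))‖ ≤ 4 := by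
    refine (norm_sub_le _ _).trans ?_
    rw [hexp]
    have h1 := norm_sub_le (Complex.exp (-(k * θ₀ * Complex.I)) +
      Complex.exp (-(k * θ₀ * Complex.I))) (Complex.exp (-(k * (θ₀ - w₀ : ℝ) * Complex.I)))
    have h2 := norm_add_le (Complex.exp (-(k * θ₀ * Complex.I)))
      (Complex.exp (-(k * θ₀ * Complex.I)))
    rw [hexp] at h1 h2
    linarith
  calc 1 / w₀ / (k : ℝ) ^ 2 * _ ≤ 1 / w₀ / (k : ℝ) ^ 2 * 4 :=
        mul_le_mul_of_nonneg_left hn (by positivity)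
    _ = 4 / (w₀ * (k : ℝ) ^ 2) := by
        have : (k : ℝ) ≠ 0 := by exact_mod_cast hk
        field_simp

theorem bhf_coef_all {w₀ θ₀ : ℝ} (hw : 0 < w₀) (hw1 : w₀ ≤ 1) (hθ : |θ₀| ≤ 1) (k : ℤ) :
    ‖∫ θ in (-Real.pi)..Real.pi, Complex.exp (-(k * θ * Complex.I)) * bhf_f w₀ θ₀ θ‖ ≤
      2 * w₀ := by
  have hpi := Real.pi_gt_three
  rw [abs_le] at hθ
  set g : ℝ → ℂ := fun θ => Complex.exp (-(k * θ * Complex.I)) with hg
  have hgc : Continuous g := by simp only [hg]; fun_prop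
  have hc : Continuous (fun θ => g θ * bhf_f w₀ θ₀ θ) := hgc.mul (bhf_cont w₀ θ₀)
  have hI : ∀ a b, IntervalIntegrable (fun θ => g θ * bhf_f w₀ θ₀ θ) volume a b := fun a b =>
    hc.intervalIntegrable _ _
  have e0 : ∫ θ in (-Real.pi)..Real.pi, g θ * bhf_f w₀ θ₀ θ =
      (∫ θ in (-Real.pi)..(θ₀ - w₀), g θ * bhf_f w₀ θ₀ θ) +
      (∫ θ in (θ₀ - w₀)..(θ₀ + w₀), g θ * bhf_f w₀ θ₀ θ) +
      ∫ θ in (θ₀ + w₀)..Real.pi, g θ * bhf_f w₀ θ₀ θ := by
    rw [intervalIntegral.integral_add_adjacent_intervals (hI _ _) (hI _ _),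
      intervalIntegral.integral_add_adjacent_intervals (hI _ _) (hI _ _)]
  have e1 : ∫ θ in (-Real.pi)..(θ₀ - w₀), g θ * bhf_f w₀ θ₀ θ = 0 := by
    refine bhf_zero_int g hw (by linarith) fun θ _ h2 => ?_
    rw [abs_of_nonpos (by linarith)]; linarith
  have e4 : ∫ θ in (θ₀ + w₀)..Real.pi, g θ * bhf_f w₀ θ₀ θ = 0 := by
    refine bhf_zero_int g hw (by linarith) fun θ h1 _ => ?_
    rw [abs_of_nonneg (by linarith)]; linarith
  have hexp : ∀ x : ℝ, ‖g x‖ = 1 := by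
    intro x
    have : -((k : ℂ) * x * Complex.I) = ((-(k * x) : ℝ) : ℂ) * Complex.I := by push_cast; ring
    simp only [hg]
    rw [this, Complex.norm_exp_ofReal_mul_I]
  rw [e0, e1, e4, zero_add, add_zero]
  have := intervalIntegral.norm_integral_le_of_norm_le_const
    (a := θ₀ - w₀) (b := θ₀ + w₀) (C := 1) (f := fun θ => g θ * bhf_f w₀ θ₀ θ) (fun θ _ => by
      rw [norm_mul, hexp, one_mul]; exact bhf_norm w₀ θ₀ θ)
  refine this.trans (le_of_eq ?_)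
  rw [abs_of_nonneg (by linarith)]
  ring

theorem hat_fourier_pr (w₀ θ₀ : ℝ) (hw : 0 < w₀) (hw1 : w₀ ≤ 1) (hθ : |θ₀| ≤ 1) : ∃ c : ℤ → ℂ,
    Summable (fun k => ‖c k‖) ∧ (∀ k, ‖c k‖ ≤ w₀) ∧ (∀ k : ℤ, ‖c k‖ * (k : ℝ) ^ 2 ≤ 1 / w₀) ∧
    ∀ z : ℂ, ‖z‖ = 1 → ((hat ((Complex.arg z - θ₀) / w₀) : ℝ) : ℂ) = ∑' k : ℤ, c k * z ^ k := by
  have hpi := Real.pi_gt_three
  have hpi0 := Real.pi_pos
  have hT : Fact (0 < 2 * Real.pi) := ⟨by positivity⟩
  have hab := abs_le.1 hθ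
  have hend : bhf_f w₀ θ₀ (-Real.pi) = bhf_f w₀ θ₀ (-Real.pi + 2 * Real.pi) := by
    rw [bhf_out hw, bhf_out hw]
    · rw [abs_of_nonneg (by linarith)]; linarith
    · rw [abs_of_nonpos (by linarith)]; linarith
  have hcont : Continuous (AddCircle.liftIoc (2 * Real.pi) (-Real.pi) (bhf_f w₀ θ₀)) :=
    AddCircle.liftIoc_continuous hend (bhf_cont w₀ θ₀).continuousOn
  set F : C(AddCircle (2 * Real.pi), ℂ) :=
    ⟨AddCircle.liftIoc (2 * Real.pi) (-Real.pi) (bhf_f w₀ θ₀), hcont⟩ with hF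
  set c : ℤ → ℂ := fun k => fourierCoeff F k with hc
  have hcval : ∀ k : ℤ, c k = ((1 / (2 * Real.pi) : ℝ) : ℂ) *
      ∫ θ in (-Real.pi)..Real.pi, Complex.exp (-(k * θ * Complex.I)) * bhf_f w₀ θ₀ θ := by
    intro k
    have h1 : c k = fourierCoeffOn (lt_add_of_pos_right (-Real.pi) hT.out) (bhf_f w₀ θ₀) k :=
      fourierCoeff_liftIoc_eq (T := 2 * Real.pi) (a := -Real.pi) (bhf_f w₀ θ₀) k
    rw [h1, fourierCoeffOn_eq_integral, Complex.real_smul]
    have e1 : (-Real.pi + 2 * Real.pi - -Real.pi : ℝ) = 2 * Real.pi := by ring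
    have e2 : (-Real.pi + 2 * Real.pi : ℝ) = Real.pi := by ring
    have e3 : ∀ x : ℝ, fourier (-k) (x : AddCircle (-Real.pi + 2 * Real.pi - -Real.pi)) •
        bhf_f w₀ θ₀ x = Complex.exp (-(k * x * Complex.I)) * bhf_f w₀ θ₀ x := by
      intro x
      rw [fourier_coe_apply, smul_eq_mul]
      congr 2
      have hp : (Real.pi : ℂ) ≠ 0 := by exact_mod_cast hpi0.ne'
      push_cast
      have : (-(Real.pi : ℂ) + 2 * Real.pi - -Real.pi) = 2 * Real.pi := by ring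
      rw [this]
      field_simp
    simp only [e3]
    rw [e1, e2]
  have hb1 : ∀ k, ‖c k‖ ≤ w₀ := by
    intro k
    rw [hcval, norm_mul, Complex.norm_real, Real.norm_of_nonneg (by positivity)]
    calc _ ≤ 1 / (2 * Real.pi) * (2 * w₀) :=
          mul_le_mul_of_nonneg_left (bhf_coef_all hw hw1 hθ k) (by positivity)
      _ = w₀ / Real.pi := by field_simp
      _ ≤ w₀ := div_le_self hw.le (by linarith)
  have hb2 : ∀ k : ℤ, ‖c k‖ * (k : ℝ) ^ 2 ≤ 1 / w₀ := by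
    intro k
    by_cases hk : k = 0
    · subst hk; simp; positivity
    · have hk' : (0 : ℝ) < (k : ℝ) ^ 2 := by
        have : (k : ℝ) ≠ 0 := by exact_mod_cast hk
        positivity
      rw [hcval, norm_mul, Complex.norm_real, Real.norm_of_nonneg (by positivity)]
      calc _ ≤ 1 / (2 * Real.pi) * (4 / (w₀ * (k : ℝ) ^ 2)) * (k : ℝ) ^ 2 := by
            refine mul_le_mul_of_nonneg_right ?_ hk'.le
            exact mul_le_mul_of_nonneg_left (bhf_coef hw hw1 hθ hk) (by positivity)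
        _ = 2 / Real.pi * (1 / w₀) := by
            field_simp
            ring
        _ ≤ 1 * (1 / w₀) := by
            refine mul_le_mul_of_nonneg_right ?_ (by positivity)
            rw [div_le_one hpi0]; linarith
        _ = 1 / w₀ := one_mul _
  have hsum : Summable (fun k => ‖c k‖) := by
    have hs1 : Summable (fun k : ℤ => (1 / w₀) * (1 / (k : ℝ) ^ 2)) :=
      (Real.summable_one_div_int_pow.2 (by norm_num)).mul_left _
    have hs2 : Summable (fun k : ℤ => if k = 0 then w₀ else 0) :=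
      summable_of_ne_finset_zero (s := {0}) fun k hk => by
        rw [Finset.mem_singleton] at hk
        simp [hk]
    refine Summable.of_nonneg_of_le (fun _ => norm_nonneg _) (fun k => ?_) (hs1.add hs2)
    by_cases hk : k = 0
    · subst hk; simpa using hb1 0
    · have hk' : (0 : ℝ) < (k : ℝ) ^ 2 := by
        have : (k : ℝ) ≠ 0 := by exact_mod_cast hk
        positivity
      simp only [hk, if_false, add_zero]
      have := hb2 k
      rw [mul_one_div, le_div_iff₀ hk']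
      exact this
  refine ⟨c, hsum, hb1, hb2, fun z hz => ?_⟩
  have hsummable : Summable (fourierCoeff F) := hsum.of_norm
  have hpt := has_pointwise_sum_fourier_series_of_summable hsummable
    ((Complex.arg z : ℝ) : AddCircle (2 * Real.pi))
  have hval : F ((Complex.arg z : ℝ) : AddCircle (2 * Real.pi)) = bhf_f w₀ θ₀ (Complex.arg z) := by
    have h1 : Complex.arg z ∈ Set.Ioc (-Real.pi) (-Real.pi + 2 * Real.pi) := by
      have h2 := Complex.arg_mem_Ioc z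
      exact ⟨h2.1, by linarith [h2.2]⟩
    rw [hF]
    exact AddCircle.liftIoc_coe_apply (f := bhf_f w₀ θ₀) h1
  rw [hval] at hpt
  have hz' : z = Complex.exp (Complex.arg z * Complex.I) := by
    have := Complex.norm_mul_exp_arg_mul_I z
    rw [hz] at this
    simpa using this.symm
  have hterm : ∀ k : ℤ, fourierCoeff F k • fourier k ((Complex.arg z : ℝ) :
      AddCircle (2 * Real.pi)) = c k * z ^ k := by
    intro k
    rw [fourier_coe_apply, smul_eq_mul]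
    congr 1
    conv_rhs => rw [hz', ← Complex.exp_int_mul]
    congr 1
    have hp : (Real.pi : ℂ) ≠ 0 := by exact_mod_cast hpi0.ne'
    push_cast
    field_simp
  have hpt2 : HasSum (fun k => c k * z ^ k) (bhf_f w₀ θ₀ (Complex.arg z)) :=
    hpt.congr_fun fun k => (hterm k).symm
  exact hpt2.tsum_eq.symm

end Pool.Agent.T2


namespace Pool.Agent.T2

theorem hat_fourier : type_of% @hat_fourier_pr := @hat_fourier_pr

end Pool.Agent.T2
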