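import Pool.Agent.Lib_helper10.T2.DefsB
import Pool.Agent.Lib_helper10.T2F.BAS
import Pool.Agent.Lib_helper10.T2F.BHF
import Pool.Agent.Lib_helper10.T2F.CNT
import Pool.Agent.Lib_helper10.T2F.LSG

/-! T2, block BHS (helper81): bilinear forms with the hat function. -/

set_option autoImplicit false

namespace Pool.Agent.T2

open Filter Topology

/-- the Fourier expansion for a pair -/
theorem bhs_pair {c : ℤ → ℂ} {w₀ θ₀ : ℝ}
    (hc : ∀ z : ℂ, ‖z‖ = 1 → ((hat ((Complex.arg z - θ₀) / w₀) : ℝ) : ℂ) = ∑' k : ℤ, c k * z ^ k)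
    {w w' : G} (hw : w ≠ 0) (hw' : w' ≠ 0) :
    ((hat ((ag w w' - θ₀) / w₀) : ℝ) : ℂ) = ∑' k : ℤ, c k * (ang (-k) w * ang k w') := by
  have h1 : (w : ℂ) ≠ 0 := by
    intro h; exact hw (GaussianInt.toComplex_eq_zero.1 h)
  have h2 : (w' : ℂ) ≠ 0 := by
    intro h; exact hw' (GaussianInt.toComplex_eq_zero.1 h)
  have n1 : 0 < ‖(w : ℂ)‖ := norm_pos_iff.2 h1
  have n2 : 0 < ‖(w' : ℂ)‖ := norm_pos_iff.2 h2
  set z : ℂ := ((‖(w : ℂ)‖ / ‖(w' : ℂ)‖ : ℝ) : ℂ) * ((w' : ℂ) / (w : ℂ)) with hz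
  have hzn : ‖z‖ = 1 := by
    rw [hz, norm_mul, norm_div, Complex.norm_real, norm_div, norm_norm, norm_norm]
    field_simp
  have harg : Complex.arg z = ag w w' := by
    rw [hz, Complex.arg_real_mul _ (div_pos n1 n2)]
    rfl
  have h3 := hc z hzn
  rw [harg] at h3
  rw [h3]
  congr 1
  ext k
  congr 1
  unfold ang
  have m1 : (w : ℂ) / (‖(w : ℂ)‖ : ℂ) ≠ 0 := div_ne_zero h1 (by exact_mod_cast n1.ne')
  rw [zpow_neg, ← inv_zpow, ← mul_zpow]
  congr 1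
  rw [hz]
  have m2 : (‖(w : ℂ)‖ : ℂ) ≠ 0 := by exact_mod_cast n1.ne'
  have m3 : (‖(w' : ℂ)‖ : ℂ) ≠ 0 := by exact_mod_cast n2.ne'
  push_cast
  field_simp

/-- the tail -/
theorem bhs_tail {C : ℝ} (hC : 1 ≤ C) (e : ℤ → ℝ) (he : ∀ k, 0 ≤ e k) {Y D : ℝ} (hY : 1 ≤ Y)
    (hD : 0 ≤ D) (hls : ∀ K : ℝ, 0 ≤ K → ∑ k ∈ Ks K, e k ≤ C * (K + Y) * D)
    {g : ℤ → ℝ} {w₀ : ℝ} (hw : 0 < w₀) (hg : ∀ k : ℤ, g k * (k : ℝ) ^ 2 ≤ 1 / w₀) {K : ℝ}
    (hK : 1 ≤ K) (n : ℕ) :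
    ∑ k ∈ Ks (2 ^ n * K) \ Ks K, g k * e k ≤ C * D / w₀ * ((4 - 4 * (1 / 2) ^ n) / K +
      (4 / 3) * (1 - (1 / 4) ^ n) * Y / K ^ 2) := by
  classical
  induction n with
  | zero =>
    rw [pow_zero, one_mul, Finset.sdiff_self, Finset.sum_empty]
    simp
  | succ n ih =>
    have hK0 : 0 < K := by linarith
    have hp : (0 : ℝ) < 2 ^ n := by positivity
    have hsub : Ks (2 ^ (n + 1) * K) \ Ks K ⊆
        (Ks (2 ^ n * K) \ Ks K) ∪ (Ks (2 ^ (n + 1) * K) \ Ks (2 ^ n * K)) := by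
      intro k hk
      rw [Finset.mem_sdiff] at hk
      rw [Finset.mem_union, Finset.mem_sdiff, Finset.mem_sdiff]
      by_cases h : k ∈ Ks (2 ^ n * K)
      · exact Or.inl ⟨h, hk.2⟩
      · exact Or.inr ⟨hk.1, h⟩
    have hsub2 : (Ks (2 ^ n * K) \ Ks K) ∪ (Ks (2 ^ (n + 1) * K) \ Ks (2 ^ n * K)) =
        Ks (2 ^ (n + 1) * K) \ Ks K := by
      apply Finset.Subset.antisymm _ hsub
      intro k hk
      rw [Finset.mem_union, Finset.mem_sdiff, Finset.mem_sdiff] at hk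
      rw [Finset.mem_sdiff]
      rcases hk with hk | hk
      · refine ⟨?_, hk.2⟩
        rw [mem_Ks] at hk ⊢
        have : (2 : ℝ) ^ (n + 1) = 2 * 2 ^ n := pow_succ' _ _
        rw [this]
        have := mul_pos hp hK0
        linarith [hk.1]
      · refine ⟨hk.1, ?_⟩
        intro h
        apply hk.2
        rw [mem_Ks] at h ⊢
        have : (1 : ℝ) ≤ 2 ^ n := one_le_pow₀ (by norm_num)
        nlinarith
    have hdisj : Disjoint (Ks (2 ^ n * K) \ Ks K) (Ks (2 ^ (n + 1) * K) \ Ks (2 ^ n * K)) := by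
      rw [Finset.disjoint_left]
      intro k hk hk'
      rw [Finset.mem_sdiff] at hk hk'
      exact hk'.2 hk.1
    rw [← hsub2, Finset.sum_union hdisj]
    have hstep : ∑ k ∈ Ks (2 ^ (n + 1) * K) \ Ks (2 ^ n * K), g k * e k ≤
        C * D / w₀ * (2 * (1 / 2) ^ n / K + (1 / 4) ^ n * Y / K ^ 2) := by
      have h1 : ∀ k ∈ Ks (2 ^ (n + 1) * K) \ Ks (2 ^ n * K),
          g k * e k ≤ 1 / (w₀ * (2 ^ n * K) ^ 2) * e k := by
        intro k hk
        rw [Finset.mem_sdiff, mem_Ks, mem_Ks, not_le] at hk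
        apply mul_le_mul_of_nonneg_right _ (he k)
        have h2 : (2 ^ n * K) ^ 2 ≤ (k : ℝ) ^ 2 := by
          rw [← sq_abs (k : ℝ)]
          exact pow_le_pow_left₀ (by positivity) hk.2.le 2
        have h3 : (0 : ℝ) < (2 ^ n * K) ^ 2 := by positivity
        by_cases hgk : g k ≤ 0
        · exact hgk.trans (by positivity)
        · rw [not_le] at hgk
          rw [le_div_iff₀ (by positivity)]
          have h4 := hg k
          rw [le_div_iff₀ hw] at h4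
          calc g k * (w₀ * (2 ^ n * K) ^ 2) = g k * (2 ^ n * K) ^ 2 * w₀ := by ring
            _ ≤ g k * (k : ℝ) ^ 2 * w₀ := by gcongr
            _ ≤ 1 := h4
      refine (Finset.sum_le_sum h1).trans ?_
      rw [← Finset.mul_sum]
      have h5 : ∑ k ∈ Ks (2 ^ (n + 1) * K) \ Ks (2 ^ n * K), e k ≤
          C * (2 ^ (n + 1) * K + Y) * D := by
        refine le_trans ?_ (hls (2 ^ (n + 1) * K) (by positivity))
        exact Finset.sum_le_sum_of_subset_of_nonneg Finset.sdiff_subset (fun k _ _ => he k)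
      refine (mul_le_mul_of_nonneg_left h5 (by positivity)).trans (le_of_eq ?_)
      have e1 : ((1 : ℝ) / 2) ^ n = 1 / 2 ^ n := by rw [one_div_pow]
      have e2 : ((1 : ℝ) / 4) ^ n = 1 / (2 ^ n * 2 ^ n) := by
        rw [one_div_pow, ← mul_pow]; norm_num
      rw [e1, e2, pow_succ]
      field_simp
      ring
    refine (add_le_add ih hstep).trans (le_of_eq ?_)
    have e1 : ((1 : ℝ) / 2) ^ (n + 1) = (1 / 2) ^ n / 2 := by rw [pow_succ]; ring
    have e2 : ((1 : ℝ) / 4) ^ (n + 1) = (1 / 4) ^ n / 4 := by rw [pow_succ]; ring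
    rw [e1, e2]
    ring

/-- the sum of the indicator weights -/
theorem bhs_ls : ∃ C : ℝ, 1 ≤ C ∧ ∀ (Y : ℝ) (S : Finset G), 1 ≤ Y → S ⊆ PB Y → ∀ K : ℝ, 0 ≤ K →
    ∑ k ∈ Ks K, ‖∑ w ∈ S, (gl w : ℂ) * ang k w‖ ^ 2 ≤ C * (K + Y) * Y := by
  classical
  obtain ⟨C₁, hC₁, h1⟩ := large_sieve
  obtain ⟨C₂, hC₂, h2⟩ := ball_le
  refine ⟨C₁ * C₂, by nlinarith, fun Y S hY hS K hK => ?_⟩
  have h3 := h1 K Y hK hY (fun z => if z ∈ S then (gl z : ℂ) else 0)
  have h4 : ∀ k : ℤ, ∑ z ∈ PB Y, (if z ∈ S then (gl z : ℂ) else 0) * ang k z =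
      ∑ w ∈ S, (gl w : ℂ) * ang k w := by
    intro k
    rw [← Finset.sum_subset hS]
    · apply Finset.sum_congr rfl
      intro z hz
      rw [if_pos hz]
    · intro z _ hz
      rw [if_neg hz, zero_mul]
  simp only [h4] at h3
  refine h3.trans ?_
  have h5 : ∑ z ∈ PB Y, ‖(if z ∈ S then (gl z : ℂ) else 0)‖ ^ 2 ≤ C₂ * Y := by
    have h6 : ∑ z ∈ PB Y, ‖(if z ∈ S then (gl z : ℂ) else 0)‖ ^ 2 ≤ ∑ z ∈ PB Y, (1 : ℝ) := by
      apply Finset.sum_le_sum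
      intro z _
      split_ifs
      · rw [Complex.norm_real, Real.norm_eq_abs, sq_abs]
        have := gl_abs z
        rw [← sq_abs]
        nlinarith [abs_nonneg (gl z)]
      · simp
    refine h6.trans ?_
    rw [Finset.sum_const, nsmul_eq_mul, mul_one]
    refine le_trans ?_ (h2 Y (by linarith))
    exact_mod_cast Finset.card_le_card (Finset.filter_subset _ _)
  calc C₁ * (K + Y) * ∑ z ∈ PB Y, ‖(if z ∈ S then (gl z : ℂ) else 0)‖ ^ 2
      ≤ C₁ * (K + Y) * (C₂ * Y) := mul_le_mul_of_nonneg_left h5 (by positivity)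
    _ = C₁ * C₂ * (K + Y) * Y := by ring

theorem hat_sum_pr : ∃ C : ℝ, 1 ≤ C ∧ ∀ (Y K w₀ θ₀ : ℝ) (S S' : Finset G), 1 ≤ Y → 1 ≤ K →
    0 < w₀ → w₀ ≤ 1 → |θ₀| ≤ 1 → S ⊆ PB Y → S' ⊆ PB Y →
    |∑ w ∈ S, ∑ w' ∈ S', gl w * gl w' * hat ((ag w w' - θ₀) / w₀)| ≤
      w₀ * ∑ k ∈ Ks K, (‖∑ w ∈ S, (gl w : ℂ) * ang k w‖ ^ 2 +
        ‖∑ w ∈ S', (gl w : ℂ) * ang k w‖ ^ 2) + C * (1 / (w₀ * K) + Y / (w₀ * K ^ 2)) * Y := by
  classical
  obtain ⟨C, hC, hls⟩ := bhs_ls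
  refine ⟨4 * C, by linarith, fun Y K w₀ θ₀ S S' hY hK hw hw1 hθ hS hS' => ?_⟩
  obtain ⟨c, hc1, hc2, hc3, hc4⟩ := hat_fourier w₀ θ₀ hw hw1 hθ
  set A : ℤ → ℂ := fun k => ∑ w ∈ S, (gl w : ℂ) * ang k w with hA
  set B : ℤ → ℂ := fun k => ∑ w ∈ S', (gl w : ℂ) * ang k w with hB
  set A' : ℤ → ℂ := fun k => ∑ w ∈ S, (gl w : ℂ) * ang (-k) w with hA'
  have hne : ∀ {z : G} {T : Finset G}, T ⊆ PB Y → z ∈ T → z ≠ 0 := by
    intro z T hT hz
    exact prm_ne (mem_PB.1 (hT hz)).1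
  have hAA : ∀ k, ‖A' k‖ = ‖A k‖ := by
    intro k
    have : A' k = (starRingEnd ℂ) (A k) := by
      simp only [hA, hA']
      rw [map_sum]
      apply Finset.sum_congr rfl
      intro w hw
      rw [map_mul, Complex.conj_ofReal, ang_conj k (hne hS hw)]
    rw [this, RCLike.norm_conj]
  -- the summability of each pair
  have hsp : ∀ w ∈ S, ∀ w' ∈ S', Summable (fun k : ℤ => c k * (ang (-k) w * ang k w')) := by
    intro w hw w' hw'
    apply Summable.of_norm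
    refine Summable.of_nonneg_of_le (fun k => norm_nonneg _) (fun k => ?_) hc1
    rw [norm_mul, norm_mul]
    have h1 := ang_le (-k) w
    have h2 := ang_le k w'
    have h3 : ‖ang (-k) w‖ * ‖ang k w'‖ ≤ 1 := mul_le_one₀ h1 (norm_nonneg _) h2
    calc ‖c k‖ * (‖ang (-k) w‖ * ‖ang k w'‖) ≤ ‖c k‖ * 1 :=
          mul_le_mul_of_nonneg_left h3 (norm_nonneg _)
      _ = ‖c k‖ := mul_one _
  -- the sum as a series
  have hser : ((∑ w ∈ S, ∑ w' ∈ S', gl w * gl w' * hat ((ag w w' - θ₀) / w₀) : ℝ) : ℂ) =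
      ∑' k : ℤ, c k * (A' k * B k) := by
    have h1 : ((∑ w ∈ S, ∑ w' ∈ S', gl w * gl w' * hat ((ag w w' - θ₀) / w₀) : ℝ) : ℂ) =
        ∑ w ∈ S, ∑ w' ∈ S', ∑' k : ℤ, (gl w : ℂ) * gl w' * (c k * (ang (-k) w * ang k w')) := by
      push_cast
      apply Finset.sum_congr rfl
      intro w hw'
      apply Finset.sum_congr rfl
      intro w' hw''
      rw [tsum_mul_left, ← bhs_pair hc4 (hne hS hw') (hne hS' hw'')]
    rw [h1]
    have h2 : ∀ w ∈ S, ∑ w' ∈ S', ∑' k : ℤ,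
        (gl w : ℂ) * gl w' * (c k * (ang (-k) w * ang k w')) =
        ∑' k : ℤ, ∑ w' ∈ S', (gl w : ℂ) * gl w' * (c k * (ang (-k) w * ang k w')) := by
      intro w hw'
      rw [Summable.tsum_finsetSum]
      intro w' hw''
      exact (hsp w hw' w' hw'').mul_left _
    rw [Finset.sum_congr rfl h2, ← Summable.tsum_finsetSum]
    · congr 1
      ext k
      simp only [hA', hB]
      rw [Finset.sum_mul_sum, Finset.mul_sum]
      apply Finset.sum_congr rfl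
      intro w _
      rw [Finset.mul_sum]
      apply Finset.sum_congr rfl
      intro w' _
      ring
    · intro w hw'
      apply summable_sum
      intro w' hw''
      exact (hsp w hw' w' hw'').mul_left _
  -- bounds for the coefficients
  set e : ℤ → ℝ := fun k => (‖A k‖ ^ 2 + ‖B k‖ ^ 2) / 2 with he
  have he0 : ∀ k, 0 ≤ e k := fun k => by simp only [he]; positivity
  have hterm : ∀ k, ‖c k * (A' k * B k)‖ ≤ ‖c k‖ * e k := by
    intro k
    rw [norm_mul, norm_mul, hAA k]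
    apply mul_le_mul_of_nonneg_left _ (norm_nonneg _)
    simp only [he]
    nlinarith [sq_nonneg (‖A k‖ - ‖B k‖)]
  have hls2 : ∀ K : ℝ, 0 ≤ K → ∑ k ∈ Ks K, e k ≤ C * (K + Y) * Y := by
    intro K hK
    have h1 := hls Y S hY hS K hK
    have h2 := hls Y S' hY hS' K hK
    simp only [he]
    rw [← Finset.sum_div, Finset.sum_add_distrib]
    linarith
  -- finite sums
  set R : ℝ := w₀ * ∑ k ∈ Ks K, (‖A k‖ ^ 2 + ‖B k‖ ^ 2) +
    4 * C * (1 / (w₀ * K) + Y / (w₀ * K ^ 2)) * Y with hR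
  have hfin : ∀ F : Finset ℤ, ∑ k ∈ F, ‖c k‖ * e k ≤ R := by
    intro F
    -- choose `n`
    obtain ⟨n, hn⟩ : ∃ n : ℕ, F ⊆ Ks (2 ^ n * K) := by
      obtain ⟨M, hM⟩ : ∃ M : ℝ, ∀ k ∈ F, |(k : ℝ)| ≤ M := by
        refine ⟨∑ k ∈ F, |(k : ℝ)|, fun k hk => ?_⟩
        exact Finset.single_le_sum (f := fun k : ℤ => |(k : ℝ)|) (fun _ _ => abs_nonneg _) hk
      obtain ⟨n, hn⟩ := pow_unbounded_of_one_lt M (show (1 : ℝ) < 2 by norm_num)
      refine ⟨n, fun k hk => ?_⟩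
      rw [mem_Ks]
      have : (0 : ℝ) < 2 ^ n := by positivity
      nlinarith [hM k hk]
    have h1 : ∑ k ∈ F, ‖c k‖ * e k ≤ ∑ k ∈ Ks K ∪ (Ks (2 ^ n * K) \ Ks K), ‖c k‖ * e k := by
      apply Finset.sum_le_sum_of_subset_of_nonneg
      · intro k hk
        rw [Finset.mem_union, Finset.mem_sdiff]
        by_cases h : k ∈ Ks K
        · exact Or.inl h
        · exact Or.inr ⟨hn hk, h⟩
      · intro k _ _
        exact mul_nonneg (norm_nonneg _) (he0 k)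
    refine h1.trans ?_
    rw [Finset.sum_union Finset.disjoint_sdiff]
    have h2 : ∑ k ∈ Ks K, ‖c k‖ * e k ≤ w₀ * ∑ k ∈ Ks K, (‖A k‖ ^ 2 + ‖B k‖ ^ 2) := by
      rw [Finset.mul_sum]
      apply Finset.sum_le_sum
      intro k _
      calc ‖c k‖ * e k ≤ w₀ * e k := mul_le_mul_of_nonneg_right (hc2 k) (he0 k)
        _ ≤ w₀ * (‖A k‖ ^ 2 + ‖B k‖ ^ 2) := by
          apply mul_le_mul_of_nonneg_left _ hw.le
          simp only [he]
          have : 0 ≤ ‖A k‖ ^ 2 + ‖B k‖ ^ 2 := by positivity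
          linarith
    have h3 := bhs_tail hC e he0 hY (show 0 ≤ Y by linarith) hls2 hw hc3 hK n
    have h4 : C * Y / w₀ * ((4 - 4 * (1 / 2) ^ n) / K + (4 / 3) * (1 - (1 / 4) ^ n) * Y / K ^ 2) ≤
        4 * C * (1 / (w₀ * K) + Y / (w₀ * K ^ 2)) * Y := by
      have e1 : 4 * C * (1 / (w₀ * K) + Y / (w₀ * K ^ 2)) * Y =
          C * Y / w₀ * (4 / K + 4 * Y / K ^ 2) := by
        field_simp
      rw [e1]
      have hK0 : 0 < K := by linarith
      have hY0 : 0 < Y := by linarith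
      have hCY : 0 ≤ C * Y / w₀ := by positivity
      apply mul_le_mul_of_nonneg_left _ hCY
      have p1 : (0 : ℝ) ≤ (1 / 2) ^ n := by positivity
      have p2 : (0 : ℝ) ≤ (1 / 4) ^ n := by positivity
      apply add_le_add
      · apply div_le_div_of_nonneg_right _ hK0.le
        linarith
      · apply div_le_div_of_nonneg_right _ (by positivity)
        apply mul_le_mul_of_nonneg_right _ hY0.le
        linarith
    rw [hR]
    linarith
  -- conclusion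
  have hsumm : Summable (fun k => ‖c k‖ * e k) :=
    summable_of_sum_le (fun k => mul_nonneg (norm_nonneg _) (he0 k)) hfin
  have h1 : |∑ w ∈ S, ∑ w' ∈ S', gl w * gl w' * hat ((ag w w' - θ₀) / w₀)| =
      ‖∑' k : ℤ, c k * (A' k * B k)‖ := by
    rw [← hser, Complex.norm_real, Real.norm_eq_abs]
  rw [h1]
  have h2 : Summable (fun k => ‖c k * (A' k * B k)‖) :=
    Summable.of_nonneg_of_le (fun k => norm_nonneg _) hterm hsumm
  calc ‖∑' k : ℤ, c k * (A' k * B k)‖ ≤ ∑' k : ℤ, ‖c k * (A' k * B k)‖ := norm_tsum_le_tsum_norm h2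
    _ ≤ ∑' k : ℤ, ‖c k‖ * e k := Summable.tsum_le_tsum hterm h2 hsumm
    _ ≤ R := hsumm.tsum_le_of_sum_le hfin

end Pool.Agent.T2


namespace Pool.Agent.T2

theorem hat_sum : type_of% @hat_sum_pr := @hat_sum_pr

end Pool.Agent.T2
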