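import Pool.Agent.Lib_helper10.T2.Defs
import Pool.Agent.Lib_helper10.T2F.BAS
import Pool.Agent.Lib_helper10.T2F.MRT

/-! T2, block CLS: the theorem for residue classes -/

namespace Pool.Agent.T2

open Filter Topology MeasureTheory

/-! characters of finite rings -/

theorem cls_unit_norm {R : Type} [CommRing R] [Finite R] (χ : MulChar R ℂ) {a : R}
    (ha : IsUnit a) : ‖χ a‖ = 1 := by
  obtain ⟨u, rfl⟩ := ha
  have h1 : (u : R) ^ (Nat.card Rˣ) = 1 := by
    rw [← Units.val_pow_eq_pow_val, pow_card_eq_one', Units.val_one]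
  have h2 : χ (u : R) ^ (Nat.card Rˣ) = 1 := by
    rw [← map_pow, h1, map_one]
  exact Complex.norm_eq_one_of_pow_eq_one h2 Nat.card_pos.ne'

open Classical in
theorem cls_orth {R : Type} [CommRing R] [Finite R] [Fintype (MulChar R ℂ)] (a : R) :
    ∑ χ : MulChar R ℂ, χ a = if a = 1 then (Nat.card Rˣ : ℂ) else 0 := by
  have : NeZero (Monoid.exponent Rˣ) := ⟨Monoid.exponent_ne_zero_of_finite⟩
  have : NeZero ((Monoid.exponent Rˣ : ℕ) : ℂ) := ⟨by
    exact_mod_cast Monoid.exponent_ne_zero_of_finite (G := Rˣ)⟩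
  split_ifs with ha
  · rw [ha]
    simp only [map_one, Finset.sum_const, nsmul_eq_mul, mul_one]
    rw [Finset.card_univ, ← Nat.card_eq_fintype_card]
    exact congrArg Nat.cast (MulChar.card_eq_card_units_of_hasEnoughRootsOfUnity R ℂ)
  · obtain ⟨χ, hχ⟩ := MulChar.exists_apply_ne_one_of_hasEnoughRootsOfUnity R ℂ ha
    refine eq_zero_of_mul_eq_self_left hχ ?_
    simp only [Finset.mul_sum, ← MulChar.mul_apply]
    exact Fintype.sum_bijective _ (Group.mulLeft_bijective χ) _ _ fun χ' ↦ rfl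

theorem cls_expand {R : Type} [CommRing R] [Finite R] [Fintype (MulChar R ℂ)] (φ : R → ℂ)
    (hb : ∀ r, ‖φ r‖ ≤ 1) (h0 : ∀ r, ¬ IsUnit r → φ r = 0) :
    ∃ b : MulChar R ℂ → ℂ, (∀ χ, ‖b χ‖ ≤ 1) ∧ ∀ r, φ r = ∑ χ : MulChar R ℂ, b χ * χ r := by
  classical
  let _ : Fintype Rˣ := Fintype.ofFinite _
  have hN : (0 : ℝ) < Nat.card Rˣ := by exact_mod_cast Nat.card_pos
  have hNc : (Nat.card Rˣ : ℂ) ≠ 0 := by exact_mod_cast hN.ne'
  refine ⟨fun χ => (1 / (Nat.card Rˣ : ℂ)) * ∑ a : Rˣ, φ a * χ ((a⁻¹ : Rˣ) : R), fun χ => ?_,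
    fun r => ?_⟩
  · rw [norm_mul, norm_div, norm_one, Complex.norm_natCast, div_mul_eq_mul_div, one_mul,
      div_le_iff₀ hN, one_mul]
    refine le_trans (norm_sum_le _ _) ?_
    refine le_trans (Finset.sum_le_sum (g := fun _ => (1 : ℝ)) fun a _ => ?_) ?_
    · rw [norm_mul, cls_unit_norm χ (Units.isUnit _), mul_one]
      exact hb _
    · simp
  · by_cases hr : IsUnit r
    · obtain ⟨u, rfl⟩ := hr
      have h1 : ∀ a : Rˣ, ∑ χ : MulChar R ℂ, χ ((a⁻¹ : Rˣ) : R) * χ (u : R) =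
          if a = u then (Nat.card Rˣ : ℂ) else 0 := by
        intro a
        simp only [← map_mul]
        rw [cls_orth]
        have h2 : (((a⁻¹ : Rˣ) : R) * (u : R) = 1) ↔ a = u := by
          rw [← Units.val_mul, Units.val_eq_one, inv_mul_eq_one]
        simp only [h2]
      calc φ u = (1 / (Nat.card Rˣ : ℂ)) * ∑ a : Rˣ, φ a *
            (if a = u then (Nat.card Rˣ : ℂ) else 0) := by
            simp only [mul_ite, mul_zero, Finset.sum_ite_eq', Finset.mem_univ, if_true]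
            field_simp
        _ = (1 / (Nat.card Rˣ : ℂ)) * ∑ a : Rˣ, φ a *
            ∑ χ : MulChar R ℂ, χ ((a⁻¹ : Rˣ) : R) * χ (u : R) := by
            simp only [h1]
        _ = _ := by
            simp only [Finset.mul_sum, Finset.sum_mul]
            rw [Finset.sum_comm]
            refine Finset.sum_congr rfl fun χ _ => Finset.sum_congr rfl fun a _ => ?_
            ring
    · rw [h0 r hr]
      symm
      refine Finset.sum_eq_zero fun χ _ => ?_
      rw [χ.map_nonunit hr, mul_zero]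

/-! the quotient ring -/

theorem cls_finite {m : G} (hm : m ≠ 0) : Finite (G ⧸ Ideal.span {m}) := by
  set N : ℕ := nn m with hN
  have hN0 : 0 < N := nn_pos.2 hm
  have hNm : (N : G) = m * star m := by
    have h1 := Zsqrtd.norm_eq_mul_conj m
    have h2 : ((nn m : ℕ) : ℤ) = m.norm := by
      rw [nn]
      exact Int.natAbs_of_nonneg (GaussianInt.norm_nonneg m)
    rw [← h1, ← h2]
    simp [hN]
  refine Finite.of_surjective (α := Fin N × Fin N)
    (fun p => Ideal.Quotient.mk (Ideal.span {m}) (⟨(p.1 : ℕ), (p.2 : ℕ)⟩ : G)) ?_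
  intro r
  obtain ⟨z, rfl⟩ := Ideal.Quotient.mk_surjective r
  have h1 := Int.emod_lt_of_pos z.re (b := (N : ℤ)) (by exact_mod_cast hN0)
  have h2 := Int.emod_lt_of_pos z.im (b := (N : ℤ)) (by exact_mod_cast hN0)
  have h3 := Int.emod_nonneg z.re (b := (N : ℤ)) (by positivity)
  have h4 := Int.emod_nonneg z.im (b := (N : ℤ)) (by positivity)
  refine ⟨(⟨(z.re % N).toNat, by omega⟩, ⟨(z.im % N).toNat, by omega⟩), ?_⟩
  rw [Ideal.Quotient.mk_eq_mk_iff_sub_mem, Ideal.mem_span_singleton]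
  have h5 : (⟨((z.re % N).toNat : ℕ), ((z.im % N).toNat : ℕ)⟩ : G) - z =
      (N : G) * ⟨-(z.re / N), -(z.im / N)⟩ := by
    have e1 := Int.emod_add_mul_ediv z.re N
    have e2 := Int.emod_add_mul_ediv z.im N
    ext
    · simp only [Zsqrtd.re_sub, Zsqrtd.re_mul, Zsqrtd.re_natCast, Zsqrtd.im_natCast,
        Int.toNat_of_nonneg h3]
      linarith
    · simp only [Zsqrtd.im_sub, Zsqrtd.im_mul, Zsqrtd.re_natCast, Zsqrtd.im_natCast,
        Int.toNat_of_nonneg h4]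
      linarith
  rw [h5, hNm, mul_assoc]
  exact dvd_mul_right _ _

theorem cls_isUnit {m : G} (z : G) :
    IsUnit (Ideal.Quotient.mk (Ideal.span {m}) z) ↔ IsCoprime z m := by
  constructor
  · intro h
    obtain ⟨r, hr⟩ := h.exists_right_inv
    obtain ⟨w, rfl⟩ := Ideal.Quotient.mk_surjective r
    rw [← map_mul, ← map_one (Ideal.Quotient.mk (Ideal.span {m})),
      Ideal.Quotient.mk_eq_mk_iff_sub_mem, Ideal.mem_span_singleton] at hr
    obtain ⟨v, hv⟩ := hr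
    refine ⟨w, -v, ?_⟩
    have : m * v = z * w - 1 := hv.symm
    linear_combination -this
  · rintro ⟨a, b, hab⟩
    refine IsUnit.of_mul_eq_one (Ideal.Quotient.mk (Ideal.span {m}) a) ?_
    rw [← map_mul, ← map_one (Ideal.Quotient.mk (Ideal.span {m})),
      Ideal.Quotient.mk_eq_mk_iff_sub_mem, Ideal.mem_span_singleton]
    exact ⟨-b, by linear_combination hab⟩

/-- the character of the quotient ring as a character modulo `m` -/
noncomputable def cls_char {m : G} (hm : m ≠ 0) (χ : MulChar (G ⧸ Ideal.span {m}) ℂ) : MChar m where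
  f z := χ (Ideal.Quotient.mk _ z)
  one := by simp
  mul z w := by rw [map_mul, map_mul]
  per z w := by
    congr 1
    rw [Ideal.Quotient.mk_eq_mk_iff_sub_mem, Ideal.mem_span_singleton]
    exact ⟨w, by ring⟩
  zero z hz := χ.map_nonunit (fun h => hz ((cls_isUnit z).1 h))
  nrm z hz := by
    have := cls_finite hm
    exact cls_unit_norm χ ((cls_isUnit z).2 hz)

/-! primitive elements -/

theorem cls_nn_mul_star (z : G) : (nn z : G) = z * star z := by
  have h1 := Zsqrtd.norm_eq_mul_conj z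
  have h2 : ((nn z : ℕ) : ℤ) = z.norm := by
    rw [nn]
    exact Int.natAbs_of_nonneg (GaussianInt.norm_nonneg z)
  rw [← h1, ← h2]
  simp

theorem cls_unit_of_nn {z : G} (h : nn z = 1) : IsUnit z := by
  refine IsUnit.of_mul_eq_one (star z) ?_
  rw [← cls_nn_mul_star, h]
  simp

theorem cls_prm {g w : G} (hg : Prm g) : Prm (g * w) ↔ Prm w ∧ IsCoprime w (star g) := by
  constructor
  · intro h
    refine ⟨prm_mul_left (w := g) (by rwa [mul_comm]), ?_⟩
    rw [← EuclideanDomain.gcd_isUnit_iff]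
    set d := EuclideanDomain.gcd w (star g) with hd
    have h1 : d ∣ w := EuclideanDomain.gcd_dvd_left _ _
    have h2 : d ∣ star g := EuclideanDomain.gcd_dvd_right _ _
    have h3 : star d ∣ g := by
      obtain ⟨v, hv⟩ := h2
      refine ⟨star v, ?_⟩
      rw [← star_star g, hv, star_mul']
    apply cls_unit_of_nn
    refine prm_iff.1 h _ ?_
    rw [cls_nn_mul_star, mul_comm]
    exact mul_dvd_mul h3 h1
  · rintro ⟨hw, a, b, hab⟩
    rw [prm_iff]
    intro n hn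
    have h1 : (Int.gcd (n : ℤ) (nn g : ℤ)) = 1 := by
      set e : ℕ := Int.gcd (n : ℤ) (nn g : ℤ) with he
      have he1 : (e : G) ∣ (n : G) := by
        have : (e : ℤ) ∣ (n : ℤ) := Int.gcd_dvd_left _ _
        obtain ⟨v, hv⟩ := this
        refine ⟨(v : G), ?_⟩
        have := congrArg (fun t : ℤ => (t : G)) hv
        simpa using this
      have he2 : (e : G) ∣ (nn g : G) := by
        have : (e : ℤ) ∣ (nn g : ℤ) := Int.gcd_dvd_right _ _
        obtain ⟨v, hv⟩ := this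
        refine ⟨(v : G), ?_⟩
        have := congrArg (fun t : ℤ => (t : G)) hv
        simpa using this
      refine prm_iff.1 hg e ?_
      have h2 : g = a * (g * w) + b * (nn g : G) := by
        rw [cls_nn_mul_star]
        linear_combination -g * hab
      rw [h2]
      exact dvd_add (Dvd.dvd.mul_left (he1.trans hn) a) (Dvd.dvd.mul_left he2 b)
    have h2 : IsCoprime (n : ℤ) (nn g : ℤ) := Int.isCoprime_iff_gcd_eq_one.2 h1
    have h3 : IsCoprime (n : G) (nn g : G) := by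
      have := h2.map (Int.castRingHom G)
      simpa using this
    have h4 : (n : G) ∣ (nn g : G) * w := by
      rw [cls_nn_mul_star]
      have : g * star g * w = star g * (g * w) := by ring
      rw [this]
      exact Dvd.dvd.mul_left hn _
    exact prm_iff.1 hw n (h3.dvd_of_dvd_mul_left h4)

/-! the reduction to characters -/

theorem cls_PB_floor (x : ℝ) : PB x = PB (⌊x⌋₊ : ℝ) := by
  ext z
  rw [mem_PB, mem_PB]
  constructor
  · rintro ⟨h1, h2⟩
    exact ⟨h1, by exact_mod_cast Nat.le_floor h2⟩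
  · rintro ⟨h1, h2⟩
    refine ⟨h1, ?_⟩
    have h3 : nn z ≤ ⌊x⌋₊ := by exact_mod_cast h2
    have h4 : 0 < nn z := nn_pos.2 (prm_ne h1)
    rcases le_or_gt 0 x with hu | hu
    · exact le_trans (by exact_mod_cast h3) (Nat.floor_le hu)
    · rw [Nat.floor_of_nonpos hu.le] at h3
      omega

theorem cls_reduce (m : ℕ) (hm : 1 ≤ m) (c : G) : (∀ k x, Acl m c k x = 0) ∨
    ∃ (m₂ : G) (r : ℝ) (s : Finset (MChar m₂)), m₂ ≠ 0 ∧ 0 < r ∧
      ∀ k x, ‖Acl m c k x‖ ≤ ∑ χ ∈ s, ‖Sm χ k (x / r)‖ := by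
  classical
  have hmG : (m : G) ≠ 0 := by
    have : m ≠ 0 := by omega
    exact_mod_cast this
  set g : G := EuclideanDomain.gcd c (m : G) with hg
  have hg0 : g ≠ 0 := by
    intro h
    exact hmG (EuclideanDomain.gcd_eq_zero_iff.1 h).2
  obtain ⟨c₁, hc₁⟩ : g ∣ c := EuclideanDomain.gcd_dvd_left _ _
  obtain ⟨m₁, hm₁⟩ : g ∣ (m : G) := EuclideanDomain.gcd_dvd_right _ _
  have hm₁0 : m₁ ≠ 0 := by
    rintro rfl
    rw [mul_zero] at hm₁
    exact hmG hm₁
  have hcop : IsCoprime c₁ m₁ := by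
    have h1 := EuclideanDomain.gcd_eq_gcd_ab c (m : G)
    refine ⟨EuclideanDomain.gcdA c (m : G), EuclideanDomain.gcdB c (m : G), ?_⟩
    apply mul_left_cancel₀ hg0
    have h2 : g = c * EuclideanDomain.gcdA c (m : G) + (m : G) * EuclideanDomain.gcdB c (m : G) := h1
    linear_combination -EuclideanDomain.gcdA c (m : G) * hc₁ -
      EuclideanDomain.gcdB c (m : G) * hm₁ - h2
  by_cases hprm : Prm g
  swap
  · left
    intro k x
    rw [Acl]
    refine Finset.sum_eq_zero fun z hz => ?_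
    exfalso
    rw [Finset.mem_filter, mem_PB] at hz
    obtain ⟨⟨h1, _⟩, v, hv⟩ := hz
    apply hprm
    refine prm_mul_left (w := c₁ + m₁ * v) ?_
    have : g * (c₁ + m₁ * v) = z := by
      linear_combination -hc₁ - v * hm₁ - hv
    rwa [this]
  right
  have hgs : star g ≠ 0 := by
    intro h
    exact hg0 (by rw [← star_star g, h, star_zero])
  set m₂ : G := m₁ * star g with hm₂
  have hm₂0 : m₂ ≠ 0 := mul_ne_zero hm₁0 hgs
  have hfin := cls_finite hm₂0
  let R := G ⧸ Ideal.span {m₂}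
  let _ : Fintype (MulChar R ℂ) := Fintype.ofFinite _
  have hnn : (0 : ℝ) < nn g := by exact_mod_cast nn_pos.2 hg0
  -- the condition on `w`
  set P : G → Prop := fun w => m₁ ∣ w - c₁ ∧ IsCoprime w (star g) with hP
  have hPinv : ∀ w w', m₂ ∣ w - w' → P w → P w' := by
    rintro w w' ⟨v, hv⟩ ⟨⟨a, ha⟩, b, d, hbd⟩
    refine ⟨⟨a - star g * v, ?_⟩, b, d + b * (m₁ * v), ?_⟩
    · rw [hm₂] at hv
      linear_combination ha - hv
    · rw [hm₂] at hv
      linear_combination hbd - b * hv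
  have hPcop : ∀ w, P w → IsCoprime w m₂ := by
    rintro w ⟨⟨a, ha⟩, hb⟩
    refine IsCoprime.mul_right ?_ hb
    obtain ⟨u, v, huv⟩ := hcop
    refine ⟨u, v - u * a, ?_⟩
    linear_combination huv + u * ha
  let φ : R → ℂ := fun r => if ∃ w, Ideal.Quotient.mk (Ideal.span {m₂}) w = r ∧ P w then 1 else 0
  have hφ : ∀ w, φ (Ideal.Quotient.mk (Ideal.span {m₂}) w) = if P w then 1 else 0 := by
    intro w
    have : (∃ w', Ideal.Quotient.mk (Ideal.span {m₂}) w' = Ideal.Quotient.mk (Ideal.span {m₂}) w ∧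
        P w') ↔ P w := by
      constructor
      · rintro ⟨w', h1, h2⟩
        rw [Ideal.Quotient.mk_eq_mk_iff_sub_mem, Ideal.mem_span_singleton] at h1
        exact hPinv _ _ h1 h2
      · exact fun h => ⟨w, rfl, h⟩
    simp only [φ, this]
  obtain ⟨b, hb1, hb2⟩ := cls_expand φ (fun r => by
    simp only [φ]
    split_ifs <;> simp) (fun r hr => by
    simp only [φ]
    rw [if_neg]
    rintro ⟨w, rfl, hw⟩
    exact hr ((cls_isUnit w).2 (hPcop w hw)))
  refine ⟨m₂, nn g, Finset.univ.image (fun χ : MulChar R ℂ => cls_char hm₂0 χ), hm₂0, hnn,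
    fun k x => ?_⟩
  have hset : (PB x).filter (fun z => (m : G) ∣ z - c) =
      ((PB (x / nn g)).filter P).image (fun w => g * w) := by
    ext z
    simp only [Finset.mem_filter, Finset.mem_image, mem_PB, hP]
    constructor
    · rintro ⟨⟨h1, h2⟩, v, hv⟩
      have h3 : g * (c₁ + m₁ * v) = z := by
        linear_combination -hc₁ - v * hm₁ - hv
      rw [← h3] at h1 h2
      have h4 := (cls_prm hprm).1 h1
      refine ⟨c₁ + m₁ * v, ⟨⟨h4.1, ?_⟩, ⟨v, by ring⟩, h4.2⟩, h3⟩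
      rw [nn_mul] at h2
      push_cast at h2
      rw [le_div_iff₀ hnn]
      linarith
    · rintro ⟨w, ⟨⟨h1, h2⟩, ⟨v, hv⟩, h4⟩, rfl⟩
      refine ⟨⟨(cls_prm hprm).2 ⟨h1, h4⟩, ?_⟩, v, ?_⟩
      · rw [nn_mul]
        push_cast
        rw [le_div_iff₀ hnn] at h2
        linarith
      · linear_combination g * hv - hc₁ - v * hm₁
  have hinj : ∀ w ∈ (PB (x / nn g)).filter P, ∀ w' ∈ (PB (x / nn g)).filter P,
      g * w = g * w' → w = w' := fun w _ w' _ h => mul_left_cancel₀ hg0 h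
  have hA : Acl m c k x = ((gl g : ℂ) * ang k g) *
      ∑ χ : MulChar R ℂ, b χ * Sm (cls_char hm₂0 χ) k (x / nn g) := by
    rw [Acl, hset, Finset.sum_image hinj]
    have h1 : ∀ w ∈ (PB (x / nn g)).filter P, (gl (g * w) : ℂ) * ang k (g * w) =
        ((gl g : ℂ) * ang k g) * ((gl w : ℂ) * ang k w) := by
      intro w _
      rw [gl_mul, ang_mul]
      push_cast
      ring
    rw [Finset.sum_congr rfl h1, ← Finset.mul_sum]
    congr 1
    rw [Finset.sum_filter]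
    simp only [Sm, Finset.mul_sum]
    rw [Finset.sum_comm]
    refine Finset.sum_congr rfl fun w _ => ?_
    have h2 : (if P w then (gl w : ℂ) * ang k w else 0) =
        φ (Ideal.Quotient.mk (Ideal.span {m₂}) w) * ((gl w : ℂ) * ang k w) := by
      rw [hφ]
      split_ifs <;> simp
    rw [h2, hb2, Finset.sum_mul]
    refine Finset.sum_congr rfl fun χ _ => ?_
    simp only [xi, cls_char]
    ring
  rw [hA, norm_mul]
  have hu : ‖(gl g : ℂ) * ang k g‖ ≤ 1 := by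
    rw [norm_mul, Complex.norm_real, Real.norm_eq_abs]
    calc |gl g| * ‖ang k g‖ ≤ 1 * 1 := mul_le_mul (gl_abs g) (ang_le k g) (norm_nonneg _) zero_le_one
      _ = 1 := one_mul 1
  have hcinj : Function.Injective (fun χ : MulChar R ℂ => cls_char hm₂0 χ) := by
    intro χ χ' h
    have h1 : (cls_char hm₂0 χ).f = (cls_char hm₂0 χ').f := congrArg MChar.f h
    apply MulChar.ext'
    intro r
    obtain ⟨w, rfl⟩ := Ideal.Quotient.mk_surjective r
    exact congrFun h1 w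
  rw [Finset.sum_image (fun χ _ χ' _ h => hcinj h)]
  refine le_trans (mul_le_of_le_one_left (norm_nonneg _) hu) (le_trans (norm_sum_le _ _) ?_)
  refine Finset.sum_le_sum fun χ _ => ?_
  rw [norm_mul]
  exact mul_le_of_le_one_left (norm_nonneg _) (hb1 χ)

/-! rescaling -/

theorem cls_fib (ζ : ℝ) (hζ : 0 < ζ) (n y : ℕ) :
    (((Finset.Icc 1 n).filter (fun Y : ℕ => ⌊ζ * Y⌋₊ = y)).card : ℝ) ≤ 1 / ζ + 1 := by
  classical
  set S := (Finset.Icc 1 n).filter (fun Y : ℕ => ⌊ζ * Y⌋₊ = y) with hS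
  rcases S.eq_empty_or_nonempty with h | h
  · rw [h]
    simp only [Finset.card_empty, Nat.cast_zero]
    positivity
  · have h1 : S ⊆ Finset.Icc (S.min' h) (S.max' h) := fun Y hY =>
      Finset.mem_Icc.2 ⟨S.min'_le Y hY, S.le_max' Y hY⟩
    have h2 := Finset.card_le_card h1
    rw [Nat.card_Icc] at h2
    have h3 := Finset.mem_filter.1 (S.min'_mem h)
    have h4 := Finset.mem_filter.1 (S.max'_mem h)
    have h5 : (y : ℝ) ≤ ζ * (S.min' h : ℕ) := by
      rw [← h3.2]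
      exact Nat.floor_le (by positivity)
    have h6 : ζ * (S.max' h : ℕ) < y + 1 := by
      rw [← h4.2]
      exact Nat.lt_floor_add_one _
    have h7 : S.min' h ≤ S.max' h := S.min'_le_max' h
    have h8 : (S.card : ℝ) ≤ (S.max' h : ℕ) - (S.min' h : ℕ) + 1 := by
      have : S.card + S.min' h ≤ S.max' h + 1 := by omega
      have : ((S.card + S.min' h : ℕ) : ℝ) ≤ ((S.max' h + 1 : ℕ) : ℝ) := by exact_mod_cast this
      push_cast at this
      linarith
    have h9 : ((S.max' h : ℕ) : ℝ) - (S.min' h : ℕ) ≤ 1 / ζ := by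
      rw [le_div_iff₀ hζ]
      nlinarith
    linarith

theorem cls_scale {m : G} (hm : m ≠ 0) (χ : MChar m) (ζ ε : ℝ) (hζ : 0 < ζ) (hε : 0 < ε) :
    ∃ H X₀ : ℝ, 1 ≤ H ∧ ∀ X : ℝ, X₀ ≤ X → ∀ H' : ℝ, H ≤ H' →
      ∑ Y ∈ Finset.Icc 1 ⌊X⌋₊, (∑ k ∈ Ks (Y / H'), ‖Sm χ k (ζ * Y)‖ ^ 2) / (Y : ℝ) ^ 3 ≤
        ε * Real.log X := by
  classical
  set K : ℝ := ζ ^ 3 * (1 / ζ + 1) with hK
  have hK0 : 0 < K := by positivity
  obtain ⟨H₁, X₁, hH₁, hX₁⟩ := mr_main hm χ (ε / (2 * K)) (by positivity)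
  refine ⟨max 1 (2 * H₁ / ζ), max (max 1 ζ) (X₁ / ζ), le_max_left _ _, fun X hX H' hH' => ?_⟩
  have hX1 : 1 ≤ X := le_trans (le_trans (le_max_left _ _) (le_max_left _ _)) hX
  have hXζ : ζ ≤ X := le_trans (le_trans (le_max_right _ _) (le_max_left _ _)) hX
  have hXX : X₁ ≤ ζ * X := by
    have := le_trans (le_max_right _ _) hX
    rwa [div_le_iff₀ hζ, mul_comm] at this
  have hH'1 : 1 ≤ H' := le_trans (le_max_left _ _) hH'
  have hH'2 : 2 * H₁ / ζ ≤ H' := le_trans (le_max_right _ _) hH'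
  set F : ℕ → ℝ := fun y => (∑ k ∈ Ks (y / H₁), ‖Sm χ k y‖ ^ 2) / (y : ℝ) ^ 3 with hF
  have hF0 : ∀ y, 0 ≤ F y := fun y => by
    rw [hF]; positivity
  have hstep : ∀ Y ∈ Finset.Icc 1 ⌊X⌋₊,
      (∑ k ∈ Ks (Y / H'), ‖Sm χ k (ζ * Y)‖ ^ 2) / (Y : ℝ) ^ 3 ≤
        if 1 ≤ ⌊ζ * Y⌋₊ then ζ ^ 3 * F ⌊ζ * Y⌋₊ else 0 := by
    intro Y hY
    rw [Finset.mem_Icc] at hY
    have hY1 : (1 : ℝ) ≤ Y := by exact_mod_cast hY.1
    have hfl : ∀ k, Sm χ k (ζ * Y) = Sm χ k (⌊ζ * Y⌋₊ : ℝ) := by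
      intro k
      rw [Sm, cls_PB_floor, Sm]
    split_ifs with h1
    · set y := ⌊ζ * (Y : ℝ)⌋₊ with hy
      have hy1 : (1 : ℝ) ≤ y := by exact_mod_cast h1
      have hyle : (y : ℝ) ≤ ζ * Y := Nat.floor_le (by positivity)
      have hylt : ζ * Y < y + 1 := Nat.lt_floor_add_one _
      have hsub : Ks ((Y : ℝ) / H') ⊆ Ks ((y : ℝ) / H₁) := by
        intro k hk
        rw [mem_Ks] at hk ⊢
        refine hk.trans ?_
        rw [div_le_div_iff₀ (by linarith) (by linarith)]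
        have h2 : 2 * H₁ ≤ H' * ζ := by rwa [div_le_iff₀ hζ] at hH'2
        have h3 : ζ * Y ≤ 2 * y := by linarith
        have h4 : (2 * H₁) * Y ≤ (H' * ζ) * Y := mul_le_mul_of_nonneg_right h2 (by linarith)
        have h5 : H' * (ζ * Y) ≤ H' * (2 * y) := mul_le_mul_of_nonneg_left h3 (by linarith)
        nlinarith
      have hnum : ∑ k ∈ Ks ((Y : ℝ) / H'), ‖Sm χ k (ζ * Y)‖ ^ 2 ≤
          ∑ k ∈ Ks ((y : ℝ) / H₁), ‖Sm χ k y‖ ^ 2 := by
        simp only [hfl]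
        exact Finset.sum_le_sum_of_subset_of_nonneg hsub (fun k _ _ => by positivity)
      have hnum0 : 0 ≤ ∑ k ∈ Ks ((y : ℝ) / H₁), ‖Sm χ k y‖ ^ 2 := by positivity
      have hy3 : (y : ℝ) ^ 3 ≤ ζ ^ 3 * (Y : ℝ) ^ 3 := by
        rw [← mul_pow]
        exact pow_le_pow_left₀ (by linarith) hyle 3
      rw [hF]
      simp only
      rw [← mul_div_assoc, div_le_div_iff₀ (by positivity) (by positivity)]
      calc (∑ k ∈ Ks ((Y : ℝ) / H'), ‖Sm χ k (ζ * Y)‖ ^ 2) * (y : ℝ) ^ 3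
          ≤ (∑ k ∈ Ks ((y : ℝ) / H₁), ‖Sm χ k y‖ ^ 2) * (ζ ^ 3 * (Y : ℝ) ^ 3) :=
            mul_le_mul hnum hy3 (by positivity) hnum0
        _ = _ := by ring
    · have h2 : ⌊ζ * (Y : ℝ)⌋₊ = 0 := by omega
      have h3 : PB ((⌊ζ * (Y : ℝ)⌋₊ : ℕ) : ℝ) = ∅ := by
        rw [h2]
        ext z
        simp only [mem_PB, Finset.notMem_empty, iff_false, not_and, not_le]
        intro hz
        have := nn_pos.2 (prm_ne hz)
        exact_mod_cast this
      have h4 : ∀ k, Sm χ k (ζ * Y) = 0 := by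
        intro k
        rw [hfl, Sm, h3, Finset.sum_empty]
      simp [h4]
  refine le_trans (Finset.sum_le_sum hstep) ?_
  rw [← Finset.sum_filter]
  have hmaps : ∀ Y ∈ (Finset.Icc 1 ⌊X⌋₊).filter (fun Y : ℕ => 1 ≤ ⌊ζ * (Y : ℝ)⌋₊),
      ⌊ζ * (Y : ℝ)⌋₊ ∈ Finset.Icc 1 ⌊ζ * X⌋₊ := by
    intro Y hY
    rw [Finset.mem_filter, Finset.mem_Icc] at hY
    rw [Finset.mem_Icc]
    refine ⟨hY.2, Nat.floor_le_floor ?_⟩
    refine mul_le_mul_of_nonneg_left ?_ hζ.le
    exact le_trans (by exact_mod_cast hY.1.2) (Nat.floor_le (by linarith))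
  rw [← Finset.sum_fiberwise_of_maps_to hmaps]
  have hin : ∀ y ∈ Finset.Icc 1 ⌊ζ * X⌋₊, ∑ Y ∈ ((Finset.Icc 1 ⌊X⌋₊).filter
      (fun Y : ℕ => 1 ≤ ⌊ζ * (Y : ℝ)⌋₊)).filter (fun Y : ℕ => ⌊ζ * (Y : ℝ)⌋₊ = y),
      ζ ^ 3 * F ⌊ζ * (Y : ℝ)⌋₊ ≤ K * F y := by
    intro y _
    rw [Finset.sum_congr rfl (fun Y hY => by rw [(Finset.mem_filter.1 hY).2]), Finset.sum_const,
      nsmul_eq_mul]
    have h1 : ((((Finset.Icc 1 ⌊X⌋₊).filter (fun Y : ℕ => 1 ≤ ⌊ζ * (Y : ℝ)⌋₊)).filter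
        (fun Y : ℕ => ⌊ζ * (Y : ℝ)⌋₊ = y)).card : ℝ) ≤ 1 / ζ + 1 := by
      refine le_trans ?_ (cls_fib ζ hζ ⌊X⌋₊ y)
      exact_mod_cast Finset.card_le_card (Finset.filter_subset_filter _ (Finset.filter_subset _ _))
    calc _ ≤ (1 / ζ + 1) * (ζ ^ 3 * F y) :=
          mul_le_mul_of_nonneg_right h1 (mul_nonneg (by positivity) (hF0 y))
      _ = K * F y := by rw [hK]; ring
  refine le_trans (Finset.sum_le_sum hin) ?_
  rw [← Finset.mul_sum]
  have h1 := hX₁ (ζ * X) hXX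
  have hlog : Real.log (ζ * X) ≤ 2 * Real.log X := by
    have h2 : ζ * X ≤ X ^ 2 := by nlinarith
    calc Real.log (ζ * X) ≤ Real.log (X ^ 2) := Real.log_le_log (by positivity) h2
      _ = 2 * Real.log X := by rw [Real.log_pow]; norm_num
  calc K * ∑ y ∈ Finset.Icc 1 ⌊ζ * X⌋₊, F y ≤ K * (ε / (2 * K) * Real.log (ζ * X)) :=
        mul_le_mul_of_nonneg_left h1 hK0.le
    _ ≤ K * (ε / (2 * K) * (2 * Real.log X)) := by
        refine mul_le_mul_of_nonneg_left (mul_le_mul_of_nonneg_left hlog (by positivity)) hK0.le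
    _ = ε * Real.log X := by field_simp

theorem mr_class_pr (m : ℕ) (hm : 1 ≤ m) (c : G) (z ε : ℝ) (hz : 0 < z) (hε : 0 < ε) :
    ∃ H X₀ : ℝ, 1 ≤ H ∧ ∀ X : ℝ, X₀ ≤ X → ∑ Y ∈ Finset.Icc 1 ⌊X⌋₊,
      (∑ k ∈ Ks (Y / H), ‖Acl m c k (z * Y)‖ ^ 2) / (Y : ℝ) ^ 3 ≤ ε * Real.log X := by
  classical
  rcases cls_reduce m hm c with h0 | ⟨m₂, r, s, hm₂, hr, hs⟩
  · refine ⟨1, 1, le_rfl, fun X hX => ?_⟩
    simp only [h0]
    simp only [norm_zero, ne_eq, OfNat.ofNat_ne_zero, not_false_eq_true, zero_pow,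
      Finset.sum_const_zero, zero_div]
    exact mul_nonneg hε.le (Real.log_nonneg hX)
  · set M : ℝ := (s.card : ℝ) + 1 with hM
    have hM0 : 0 < M := by positivity
    have hch := fun χ : MChar m₂ => cls_scale hm₂ χ (z / r) (ε / M ^ 2) (by positivity)
      (by positivity)
    choose H X₀ hH hX₀ using hch
    refine ⟨1 + ∑ χ ∈ s, |H χ|, 1 + ∑ χ ∈ s, |X₀ χ|, ?_, fun X hX => ?_⟩
    · have : 0 ≤ ∑ χ ∈ s, |H χ| := Finset.sum_nonneg fun χ _ => abs_nonneg _
      linarith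
    set H' : ℝ := 1 + ∑ χ ∈ s, |H χ| with hH'
    have hX1 : 1 ≤ X := by
      have : 0 ≤ ∑ χ ∈ s, |X₀ χ| := Finset.sum_nonneg fun χ _ => abs_nonneg _
      linarith
    have hlog := Real.log_nonneg hX1
    have hterm : ∀ Y ∈ Finset.Icc 1 ⌊X⌋₊,
        (∑ k ∈ Ks (Y / H'), ‖Acl m c k (z * Y)‖ ^ 2) / (Y : ℝ) ^ 3 ≤
        M * ∑ χ ∈ s, (∑ k ∈ Ks (Y / H'), ‖Sm χ k (z / r * Y)‖ ^ 2) / (Y : ℝ) ^ 3 := by
      intro Y _
      rw [← Finset.sum_div, ← mul_div_assoc]
      refine div_le_div_of_nonneg_right ?_ (by positivity)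
      rw [Finset.sum_comm, Finset.mul_sum]
      refine Finset.sum_le_sum fun k _ => ?_
      have h1 : z * Y / r = z / r * Y := by ring
      have h2 := hs k (z * Y)
      rw [h1] at h2
      calc ‖Acl m c k (z * Y)‖ ^ 2 ≤ (∑ χ ∈ s, ‖Sm χ k (z / r * Y)‖) ^ 2 :=
            pow_le_pow_left₀ (norm_nonneg _) h2 2
        _ ≤ s.card * ∑ χ ∈ s, ‖Sm χ k (z / r * Y)‖ ^ 2 := sq_sum_le_card_mul_sum_sq
        _ ≤ M * ∑ χ ∈ s, ‖Sm χ k (z / r * Y)‖ ^ 2 := by
            refine mul_le_mul_of_nonneg_right (by rw [hM]; linarith) ?_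
            exact Finset.sum_nonneg fun χ _ => by positivity
    refine le_trans (Finset.sum_le_sum hterm) ?_
    rw [← Finset.mul_sum, Finset.sum_comm]
    have hsum : ∀ χ ∈ s, ∑ Y ∈ Finset.Icc 1 ⌊X⌋₊,
        (∑ k ∈ Ks (Y / H'), ‖Sm χ k (z / r * Y)‖ ^ 2) / (Y : ℝ) ^ 3 ≤ ε / M ^ 2 * Real.log X := by
      intro χ hχ
      refine hX₀ χ X ?_ H' ?_
      · have h1 : |X₀ χ| ≤ ∑ χ ∈ s, |X₀ χ| :=
          Finset.single_le_sum (f := fun χ => |X₀ χ|) (fun χ _ => abs_nonneg _) hχ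
        linarith [le_abs_self (X₀ χ)]
      · have h1 : |H χ| ≤ ∑ χ ∈ s, |H χ| :=
          Finset.single_le_sum (f := fun χ => |H χ|) (fun χ _ => abs_nonneg _) hχ
        rw [hH']
        linarith [le_abs_self (H χ)]
    refine le_trans (mul_le_mul_of_nonneg_left (Finset.sum_le_sum hsum) hM0.le) ?_
    rw [Finset.sum_const, nsmul_eq_mul]
    have h3 : (s.card : ℝ) ≤ M := by rw [hM]; linarith
    calc M * ((s.card : ℝ) * (ε / M ^ 2 * Real.log X)) ≤ M * (M * (ε / M ^ 2 * Real.log X)) := by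
          refine mul_le_mul_of_nonneg_left (mul_le_mul_of_nonneg_right h3 ?_) hM0.le
          exact mul_nonneg (by positivity) hlog
      _ = ε * Real.log X := by field_simp

end Pool.Agent.T2


namespace Pool.Agent.T2

theorem mr_class : type_of% @mr_class_pr := @mr_class_pr

end Pool.Agent.T2
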