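import Pool.Agent.Lib_helper10.T2.DefsB
import Pool.Agent.Lib_helper10.T2F.BAS
import Pool.Agent.Lib_helper10.T2F.BHS
import Pool.Agent.Lib_helper10.T2F.CLS

/-! T2, block BHM: the kernel sums are small (helper6) -/

namespace Pool.Agent.T2

open Filter Topology

open Classical in
theorem bhm_split (m : ℕ) (c : G) (β₁ β₂ Y : ℝ) (h2 : β₁ < β₂) (h3 : β₂ ≤ 1)
    (hY : 0 < Y) (k : ℤ) :
    ∑ w ∈ (Cel β₁ β₂ Y).filter (fun w => (m : G) ∣ w - c), (gl w : ℂ) * ang k w =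
      Acl m c k (β₂ * Y) - Acl m c k (β₁ * Y) := by
  rw [Acl, Acl]
  have hsub : (PB (β₁ * Y)).filter (fun z => (m : G) ∣ z - c) ⊆
      (PB (β₂ * Y)).filter (fun z => (m : G) ∣ z - c) := by
    intro z hz
    rw [Finset.mem_filter, mem_PB] at hz ⊢
    refine ⟨⟨hz.1.1, hz.1.2.trans ?_⟩, hz.2⟩
    exact mul_le_mul_of_nonneg_right h2.le hY.le
  rw [← Finset.sum_sdiff_eq_sub hsub]
  refine Finset.sum_congr ?_ fun _ _ => rfl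
  ext z
  rw [Finset.mem_filter, Cel, Finset.mem_filter, mem_PB, Finset.mem_sdiff, Finset.mem_filter,
    Finset.mem_filter, mem_PB, mem_PB]
  constructor
  · rintro ⟨⟨⟨h4, h5⟩, h6, h7⟩, h8⟩
    exact ⟨⟨⟨h4, h7⟩, h8⟩, fun h9 => absurd h9.1.2 (not_le.2 h6)⟩
  · rintro ⟨⟨⟨h4, h7⟩, h8⟩, h9⟩
    refine ⟨⟨⟨h4, h7.trans ?_⟩, ?_, h7⟩, h8⟩
    · calc β₂ * Y ≤ 1 * Y := mul_le_mul_of_nonneg_right h3 hY.le
        _ = Y := one_mul Y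
    · by_contra h10
      exact h9 ⟨⟨h4, not_lt.1 h10⟩, h8⟩

open Classical in
theorem bhm_sub (β₁ β₂ Y : ℝ) (m : ℕ) (c : G) :
    (Cel β₁ β₂ Y).filter (fun w => (m : G) ∣ w - c) ⊆ PB Y :=
  (Finset.filter_subset _ _).trans (Finset.filter_subset _ _)

theorem bhm_sq (a b : ℂ) : ‖a - b‖ ^ 2 ≤ 2 * (‖a‖ ^ 2 + ‖b‖ ^ 2) := by
  have h1 := norm_sub_le a b
  have h2 := norm_nonneg (a - b)
  nlinarith [sq_nonneg (‖a‖ - ‖b‖), norm_nonneg a, norm_nonneg b]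

open Classical in
/-- one value of `Y` -/
theorem bhm_one : ∃ C : ℝ, 1 ≤ C ∧ ∀ (m : ℕ) (c c' : G) (β₁ β₂ γ₁ γ₂ A x₀ h : ℝ), 
    β₁ < β₂ → β₂ ≤ 1 → γ₁ < γ₂ → γ₂ ≤ 1 → 0 < A → 0 < h → ∀ (P : ℕ) (Y H : ℝ), 1 ≤ P → 1 ≤ Y →
    1 ≤ H → H ≤ Y → h * P / A ≤ Y → |x₀| * P / A ≤ Y →
    (1 / (P : ℝ)) *
      |∑ w ∈ (Cel β₁ β₂ Y).filter (fun w => (m : G) ∣ w - c),
        ∑ w' ∈ (Cel γ₁ γ₂ Y).filter (fun w' => (m : G) ∣ w' - c'),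
          gl w * gl w' * hat ((A * (ag w w' * Y / P) - x₀) / h)| / (Y : ℝ) ^ 2 ≤
    (2 * h / A) * ((∑ k ∈ Ks (Y / H), ‖Acl m c k (β₁ * Y)‖ ^ 2) / Y ^ 3 +
      (∑ k ∈ Ks (Y / H), ‖Acl m c k (β₂ * Y)‖ ^ 2) / Y ^ 3 +
      (∑ k ∈ Ks (Y / H), ‖Acl m c' k (γ₁ * Y)‖ ^ 2) / Y ^ 3 +
      (∑ k ∈ Ks (Y / H), ‖Acl m c' k (γ₂ * Y)‖ ^ 2) / Y ^ 3) +
      C * A * (H + H ^ 2) / (h * P ^ 2) * (1 / Y) := by
  obtain ⟨C, hC1, hC⟩ := hat_sum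
  refine ⟨C, hC1, ?_⟩
  intro m c c' β₁ β₂ γ₁ γ₂ A x₀ h hβ hβ1 hγ hγ1 hA hh P Y H hP hY hH hHY h1 h2
  have hP0 : (0 : ℝ) < P := by exact_mod_cast (lt_of_lt_of_le one_pos hP)
  have hP1 : (1 : ℝ) ≤ P := by exact_mod_cast hP
  have hY0 : 0 < Y := by linarith
  have hH0 : 0 < H := by linarith
  set w₀ : ℝ := h * P / (A * Y) with hw₀
  set θ₀ : ℝ := x₀ * P / (A * Y) with hθ₀
  have hw0 : 0 < w₀ := by positivity
  have hw1 : w₀ ≤ 1 := by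
    rw [hw₀, div_le_one (by positivity)]
    rw [div_le_iff₀ hA] at h1
    linarith
  have hθ1 : |θ₀| ≤ 1 := by
    rw [hθ₀, abs_div, abs_mul, Nat.abs_cast, abs_of_pos (by positivity : 0 < A * Y),
      div_le_one (by positivity)]
    rw [div_le_iff₀ hA] at h2
    linarith
  have hK : 1 ≤ Y / H := by rwa [le_div_iff₀ hH0, one_mul]
  have hhat : ∀ w w' : G, hat ((A * (ag w w' * Y / P) - x₀) / h) =
      hat ((ag w w' - θ₀) / w₀) := by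
    intro w w'
    congr 1
    rw [hw₀, hθ₀]
    field_simp
  simp only [hhat]
  have hmain := hC Y (Y / H) w₀ θ₀ ((Cel β₁ β₂ Y).filter (fun w => (m : G) ∣ w - c))
    ((Cel γ₁ γ₂ Y).filter (fun w' => (m : G) ∣ w' - c')) hY hK hw0 hw1 hθ1
    (bhm_sub _ _ _ _ _) (bhm_sub _ _ _ _ _)
  simp only [bhm_split m c β₁ β₂ Y hβ hβ1 hY0, bhm_split m c' γ₁ γ₂ Y hγ hγ1 hY0] at hmain
  set T : ℝ := |∑ w ∈ (Cel β₁ β₂ Y).filter (fun w => (m : G) ∣ w - c),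
        ∑ w' ∈ (Cel γ₁ γ₂ Y).filter (fun w' => (m : G) ∣ w' - c'),
          gl w * gl w' * hat ((ag w w' - θ₀) / w₀)| with hT
  set B₁ : ℝ := ∑ k ∈ Ks (Y / H), ‖Acl m c k (β₁ * Y)‖ ^ 2 with hB₁
  set B₂ : ℝ := ∑ k ∈ Ks (Y / H), ‖Acl m c k (β₂ * Y)‖ ^ 2 with hB₂
  set B₃ : ℝ := ∑ k ∈ Ks (Y / H), ‖Acl m c' k (γ₁ * Y)‖ ^ 2 with hB₃
  set B₄ : ℝ := ∑ k ∈ Ks (Y / H), ‖Acl m c' k (γ₂ * Y)‖ ^ 2 with hB₄
  have hsum : ∑ k ∈ Ks (Y / H), (‖Acl m c k (β₂ * Y) - Acl m c k (β₁ * Y)‖ ^ 2 +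
      ‖Acl m c' k (γ₂ * Y) - Acl m c' k (γ₁ * Y)‖ ^ 2) ≤ 2 * (B₁ + B₂ + B₃ + B₄) := by
    rw [hB₁, hB₂, hB₃, hB₄, ← Finset.sum_add_distrib, ← Finset.sum_add_distrib,
      ← Finset.sum_add_distrib, Finset.mul_sum]
    refine Finset.sum_le_sum fun k _ => ?_
    have e1 := bhm_sq (Acl m c k (β₂ * Y)) (Acl m c k (β₁ * Y))
    have e2 := bhm_sq (Acl m c' k (γ₂ * Y)) (Acl m c' k (γ₁ * Y))
    linarith
  have hT2 : T ≤ w₀ * (2 * (B₁ + B₂ + B₃ + B₄)) +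
      C * (1 / (w₀ * (Y / H)) + Y / (w₀ * (Y / H) ^ 2)) * Y := by
    refine hmain.trans ?_
    gcongr
  calc (1 / (P : ℝ)) * T / Y ^ 2 ≤ (1 / (P : ℝ)) * (w₀ * (2 * (B₁ + B₂ + B₃ + B₄)) +
      C * (1 / (w₀ * (Y / H)) + Y / (w₀ * (Y / H) ^ 2)) * Y) / Y ^ 2 := by gcongr
    _ = _ := by
      rw [hw₀]
      field_simp

open Classical in
theorem hat_small_pr (m : ℕ) (hm : 1 ≤ m) (c c' : G) (β₁ β₂ γ₁ γ₂ A x₀ h ε : ℝ) (hβ₁ : 0 < β₁)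
    (hβ₂ : β₁ < β₂) (hβ₃ : β₂ ≤ 1) (hγ₁ : 0 < γ₁) (hγ₂ : γ₁ < γ₂) (hγ₃ : γ₂ ≤ 1) (hA : 0 < A)
    (hh : 0 < h) (hε : 0 < ε) : ∃ P₀ : ℕ, ∀ P : ℕ, P₀ ≤ P → ∃ X₀ : ℝ, ∀ X : ℝ, X₀ ≤ X →
    ∑ Y ∈ Finset.Icc 1 ⌊X⌋₊, (1 / (P : ℝ)) *
      |∑ w ∈ (Cel β₁ β₂ Y).filter (fun w => (m : G) ∣ w - c),
        ∑ w' ∈ (Cel γ₁ γ₂ Y).filter (fun w' => (m : G) ∣ w' - c'),
          gl w * gl w' * hat ((A * (ag w w' * Y / P) - x₀) / h)| / (Y : ℝ) ^ 2 ≤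
      ε * Real.log X := by
  obtain ⟨C, hC1, hC⟩ := bhm_one
  have hβ2p : 0 < β₂ := hβ₁.trans hβ₂
  have hγ2p : 0 < γ₂ := hγ₁.trans hγ₂
  set ε' : ℝ := ε * A / (32 * h) with hε'
  have hε'0 : 0 < ε' := by positivity
  obtain ⟨H₁, X₁, hH₁, hX₁⟩ := mr_class m hm c β₁ ε' hβ₁ hε'0
  obtain ⟨H₂, X₂, hH₂, hX₂⟩ := mr_class m hm c β₂ ε' hβ2p hε'0
  obtain ⟨H₃, X₃, hH₃, hX₃⟩ := mr_class m hm c' γ₁ ε' hγ₁ hε'0
  obtain ⟨H₄, X₄, hH₄, hX₄⟩ := mr_class m hm c' γ₂ ε' hγ2p hε'0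
  set H : ℝ := max (max H₁ H₂) (max H₃ H₄) with hH
  have hHH₁ : H₁ ≤ H := le_trans (le_max_left _ _) (le_max_left _ _)
  have hHH₂ : H₂ ≤ H := le_trans (le_max_right _ _) (le_max_left _ _)
  have hHH₃ : H₃ ≤ H := le_trans (le_max_left _ _) (le_max_right _ _)
  have hHH₄ : H₄ ≤ H := le_trans (le_max_right _ _) (le_max_right _ _)
  have hH1 : 1 ≤ H := hH₁.trans hHH₁
  have hH0 : 0 < H := by linarith
  -- the sums decrease in `H`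
  have hdec : ∀ (c : G) (z H' : ℝ), 1 ≤ H' → H' ≤ H → ∀ X : ℝ,
      ∑ Y ∈ Finset.Icc 1 ⌊X⌋₊, (∑ k ∈ Ks (Y / H), ‖Acl m c k (z * Y)‖ ^ 2) / (Y : ℝ) ^ 3 ≤
      ∑ Y ∈ Finset.Icc 1 ⌊X⌋₊, (∑ k ∈ Ks (Y / H'), ‖Acl m c k (z * Y)‖ ^ 2) / (Y : ℝ) ^ 3 := by
    intro c z H' hH'1 hH' X
    refine Finset.sum_le_sum fun Y _ => ?_
    refine div_le_div_of_nonneg_right ?_ (by positivity)
    refine Finset.sum_le_sum_of_subset_of_nonneg ?_ fun _ _ _ => by positivity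
    intro k hk
    rw [mem_Ks] at hk ⊢
    refine hk.trans ?_
    exact div_le_div_of_nonneg_left (Nat.cast_nonneg Y) (by linarith) hH'
  set E : ℝ := 8 * (C * A * (H + H ^ 2)) / (h * ε) with hE
  refine ⟨⌈max 1 E⌉₊, fun P hP => ?_⟩
  have hPE : max 1 E ≤ P := (Nat.le_ceil _).trans (by exact_mod_cast hP)
  have hP1 : (1 : ℝ) ≤ P := (le_max_left _ _).trans hPE
  have hP1' : 1 ≤ P := by exact_mod_cast hP1
  have hP0 : (0 : ℝ) < P := by linarith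
  set Tm : ℕ → ℝ := fun Y => (1 / (P : ℝ)) *
      |∑ w ∈ (Cel β₁ β₂ Y).filter (fun w => (m : G) ∣ w - c),
        ∑ w' ∈ (Cel γ₁ γ₂ Y).filter (fun w' => (m : G) ∣ w' - c'),
          gl w * gl w' * hat ((A * (ag w w' * Y / P) - x₀) / h)| / (Y : ℝ) ^ 2 with hTm
  have hTm0 : ∀ Y, 0 ≤ Tm Y := fun Y => by rw [hTm]; positivity
  set Y₁ : ℕ := ⌈max (max 1 H) (max (h * P / A) (|x₀| * P / A))⌉₊ with hY₁
  have hY₁' : max (max 1 H) (max (h * P / A) (|x₀| * P / A)) ≤ Y₁ := Nat.le_ceil _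
  set F : ℝ := ∑ Y ∈ Finset.Icc 1 Y₁, Tm Y with hF
  have hF0 : 0 ≤ F := Finset.sum_nonneg fun Y _ => hTm0 Y
  refine ⟨max (max (max X₁ X₂) (max X₃ X₄)) (Real.exp (max 1 (4 * F / ε))), fun X hX => ?_⟩
  have hXX : max (max X₁ X₂) (max X₃ X₄) ≤ X := (le_max_left _ _).trans hX
  have hXe : Real.exp (max 1 (4 * F / ε)) ≤ X := (le_max_right _ _).trans hX
  have hX0 : 0 < X := lt_of_lt_of_le (Real.exp_pos _) hXe
  have hlog : max 1 (4 * F / ε) ≤ Real.log X := by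
    rw [Real.le_log_iff_exp_le hX0]
    exact hXe
  have hlog1 : 1 ≤ Real.log X := (le_max_left _ _).trans hlog
  have hlogF : F ≤ ε / 4 * Real.log X := by
    have h1 : 4 * F / ε ≤ Real.log X := (le_max_right _ _).trans hlog
    rw [div_le_iff₀ hε] at h1
    linarith
  have hX1 : 1 ≤ X := by
    have h1 : Real.exp 0 ≤ Real.exp (max 1 (4 * F / ε)) :=
      Real.exp_le_exp.2 (le_trans zero_le_one (le_max_left _ _))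
    rw [Real.exp_zero] at h1
    linarith
  -- the four sums
  set S₁ : ℕ → ℝ := fun Y => (∑ k ∈ Ks (Y / H), ‖Acl m c k (β₁ * Y)‖ ^ 2) / (Y : ℝ) ^ 3 with hS₁
  set S₂ : ℕ → ℝ := fun Y => (∑ k ∈ Ks (Y / H), ‖Acl m c k (β₂ * Y)‖ ^ 2) / (Y : ℝ) ^ 3 with hS₂
  set S₃ : ℕ → ℝ := fun Y => (∑ k ∈ Ks (Y / H), ‖Acl m c' k (γ₁ * Y)‖ ^ 2) / (Y : ℝ) ^ 3 with hS₃
  set S₄ : ℕ → ℝ := fun Y => (∑ k ∈ Ks (Y / H), ‖Acl m c' k (γ₂ * Y)‖ ^ 2) / (Y : ℝ) ^ 3 with hS₄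
  have b1 : ∑ Y ∈ Finset.Icc 1 ⌊X⌋₊, S₁ Y ≤ ε' * Real.log X :=
    (hdec c β₁ H₁ hH₁ hHH₁ X).trans
      (hX₁ X (((le_max_left _ _).trans (le_max_left _ _)).trans hXX))
  have b2 : ∑ Y ∈ Finset.Icc 1 ⌊X⌋₊, S₂ Y ≤ ε' * Real.log X :=
    (hdec c β₂ H₂ hH₂ hHH₂ X).trans
      (hX₂ X (((le_max_right _ _).trans (le_max_left _ _)).trans hXX))
  have b3 : ∑ Y ∈ Finset.Icc 1 ⌊X⌋₊, S₃ Y ≤ ε' * Real.log X :=
    (hdec c' γ₁ H₃ hH₃ hHH₃ X).trans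
      (hX₃ X (((le_max_left _ _).trans (le_max_right _ _)).trans hXX))
  have b4 : ∑ Y ∈ Finset.Icc 1 ⌊X⌋₊, S₄ Y ≤ ε' * Real.log X :=
    (hdec c' γ₂ H₄ hH₄ hHH₄ X).trans
      (hX₄ X (((le_max_right _ _).trans (le_max_right _ _)).trans hXX))
  set E' : ℝ := C * A * (H + H ^ 2) / (h * P ^ 2) with hE'
  have hE'0 : 0 ≤ E' := by positivity
  have hE'le : E' ≤ ε / 8 := by
    have h1 : E ≤ P := (le_max_right _ _).trans hPE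
    have h2 : E ≤ (P : ℝ) ^ 2 := by nlinarith
    rw [hE, div_le_iff₀ (by positivity)] at h2
    rw [hE', div_le_iff₀ (by positivity)]
    nlinarith
  have hterm : ∀ Y ∈ Finset.Icc 1 ⌊X⌋₊, Tm Y ≤ (if Y ≤ Y₁ then Tm Y else 0) +
      ((2 * h / A) * (S₁ Y + S₂ Y + S₃ Y + S₄ Y) + E' * (1 / (Y : ℝ))) := by
    intro Y hY
    rw [Finset.mem_Icc] at hY
    have hY1 : (1 : ℝ) ≤ Y := by exact_mod_cast hY.1
    by_cases hc : Y ≤ Y₁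
    · rw [if_pos hc]
      have : 0 ≤ (2 * h / A) * (S₁ Y + S₂ Y + S₃ Y + S₄ Y) + E' * (1 / (Y : ℝ)) := by
        rw [hS₁, hS₂, hS₃, hS₄]
        positivity
      linarith
    · rw [if_neg hc, zero_add]
      have hc' : (Y₁ : ℝ) ≤ Y := by
        have : Y₁ ≤ Y := by omega
        exact_mod_cast this
      have hYY := hY₁'.trans hc'
      have g1 : H ≤ Y := ((le_max_right _ _).trans (le_max_left _ _)).trans hYY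
      have g2 : h * P / A ≤ Y := ((le_max_left _ _).trans (le_max_right _ _)).trans hYY
      have g3 : |x₀| * P / A ≤ Y := ((le_max_right _ _).trans (le_max_right _ _)).trans hYY
      exact hC m c c' β₁ β₂ γ₁ γ₂ A x₀ h hβ₂ hβ₃ hγ₂ hγ₃ hA hh P Y H hP1' hY1 hH1 g1 g2 g3
  refine (Finset.sum_le_sum hterm).trans ?_
  rw [Finset.sum_add_distrib, Finset.sum_add_distrib, ← Finset.mul_sum, ← Finset.mul_sum,
    Finset.sum_add_distrib, Finset.sum_add_distrib, Finset.sum_add_distrib]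
  have hs1 : ∑ Y ∈ Finset.Icc 1 ⌊X⌋₊, (if Y ≤ Y₁ then Tm Y else 0) ≤ F := by
    rw [← Finset.sum_filter, hF]
    refine Finset.sum_le_sum_of_subset_of_nonneg ?_ fun Y _ _ => hTm0 Y
    intro Y hY
    rw [Finset.mem_filter, Finset.mem_Icc] at hY
    rw [Finset.mem_Icc]
    exact ⟨hY.1.1, hY.2⟩
  have hharm : ∑ Y ∈ Finset.Icc 1 ⌊X⌋₊, (1 / (Y : ℝ)) ≤ 1 + Real.log X := by
    have h1 := harmonic_floor_le_one_add_log X hX1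
    have h2 : ((harmonic ⌊X⌋₊ : ℚ) : ℝ) = ∑ Y ∈ Finset.Icc 1 ⌊X⌋₊, (1 / (Y : ℝ)) := by
      rw [harmonic_eq_sum_Icc]
      push_cast
      exact Finset.sum_congr rfl fun Y _ => by rw [one_div]
    rw [← h2]
    exact h1
  have hs2 : (2 * h / A) * (∑ Y ∈ Finset.Icc 1 ⌊X⌋₊, S₁ Y + ∑ Y ∈ Finset.Icc 1 ⌊X⌋₊, S₂ Y +
      ∑ Y ∈ Finset.Icc 1 ⌊X⌋₊, S₃ Y + ∑ Y ∈ Finset.Icc 1 ⌊X⌋₊, S₄ Y) ≤
      ε / 4 * Real.log X := by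
    calc _ ≤ (2 * h / A) * (4 * (ε' * Real.log X)) := by
          refine mul_le_mul_of_nonneg_left ?_ (by positivity)
          linarith
      _ = ε / 4 * Real.log X := by
          rw [hε']
          field_simp
          ring
  have hs3 : E' * ∑ Y ∈ Finset.Icc 1 ⌊X⌋₊, (1 / (Y : ℝ)) ≤ ε / 4 * Real.log X := by
    calc _ ≤ E' * (1 + Real.log X) := mul_le_mul_of_nonneg_left hharm hE'0
      _ ≤ (ε / 8) * (1 + Real.log X) := mul_le_mul_of_nonneg_right hE'le (by linarith)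
      _ ≤ (ε / 8) * (2 * Real.log X) := mul_le_mul_of_nonneg_left (by linarith) (by linarith)
      _ = ε / 4 * Real.log X := by ring
  have hpos : 0 ≤ ε / 4 * Real.log X := by positivity
  linarith

end Pool.Agent.T2


namespace Pool.Agent.T2

theorem hat_small : type_of% @hat_small_pr := @hat_small_pr

end Pool.Agent.T2
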