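import Pool.Agent.Lib_helper10.T2.DefsB

/-! T2, block BKL: approximation of the kernel, real variables -/

namespace Pool.Agent.T2

open Filter Topology

theorem bkl_hat_nonneg (t : ℝ) : 0 ≤ hat t := le_max_left _ _

theorem bkl_hat_zero {t : ℝ} (h : 1 ≤ |t|) : hat t = 0 := by
  unfold hat
  exact max_eq_left (by linarith)

theorem bkl_hat_lt {t : ℝ} (h : hat t ≠ 0) : |t| < 1 := by
  by_contra hc
  exact h (bkl_hat_zero (not_lt.1 hc))

theorem bkl_sum_eq (t : ℝ) (s : Finset ℤ) (h0 : ⌊t⌋ ∈ s) (h1 : ⌊t⌋ + 1 ∈ s) :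
    ∑ m ∈ s, hat (t - (m : ℝ)) = 1 := by
  have hsub : ({⌊t⌋, ⌊t⌋ + 1} : Finset ℤ) ⊆ s := by
    intro m hm
    rw [Finset.mem_insert, Finset.mem_singleton] at hm
    rcases hm with rfl | rfl
    · exact h0
    · exact h1
  have hf0 := Int.floor_le t
  have hf1 := Int.lt_floor_add_one t
  rw [← Finset.sum_subset hsub]
  · rw [Finset.sum_pair (by omega)]
    have e1 : hat (t - (⌊t⌋ : ℝ)) = 1 - (t - ⌊t⌋) := by
      unfold hat
      rw [abs_of_nonneg (by linarith)]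
      exact max_eq_right (by linarith)
    have e2 : hat (t - ((⌊t⌋ + 1 : ℤ) : ℝ)) = 1 - ((⌊t⌋ : ℝ) + 1 - t) := by
      unfold hat
      push_cast
      rw [abs_of_nonpos (by linarith)]
      rw [max_eq_right (by linarith)]
      ring
    rw [e1, e2]
    ring
  · intro m _ hm
    rw [Finset.mem_insert, Finset.mem_singleton, not_or] at hm
    apply bkl_hat_zero
    rcases lt_or_gt_of_ne hm.1 with h | h
    · have : (m : ℝ) ≤ ⌊t⌋ - 1 := by
        have : m ≤ ⌊t⌋ - 1 := by omega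
        exact_mod_cast this
      rw [le_abs]
      left
      linarith
    · have : (⌊t⌋ : ℝ) + 2 ≤ m := by
        have h2 := hm.2
        have : ⌊t⌋ + 2 ≤ m := by omega
        exact_mod_cast this
      rw [le_abs]
      right
      linarith

theorem bkl_sum_le (t : ℝ) (s : Finset ℤ) : ∑ m ∈ s, hat (t - (m : ℝ)) ≤ 1 := by
  classical
  calc ∑ m ∈ s, hat (t - (m : ℝ)) ≤ ∑ m ∈ s ∪ {⌊t⌋, ⌊t⌋ + 1}, hat (t - (m : ℝ)) :=
        Finset.sum_le_sum_of_subset_of_nonneg Finset.subset_union_left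
          (fun m _ _ => bkl_hat_nonneg _)
    _ = 1 := bkl_sum_eq t _ (by simp) (by simp)

/-- the kernel -/
noncomputable def bkl_f (s₁ s₂ δ C₄ d x : ℝ) : ℝ :=
  if δ < |x| ∧ |x| ≤ C₄ ∧ s₁ ≤ d / x ∧ d / x ≤ s₂ then 1 / |x| else 0

theorem bkl_f_nonneg (s₁ s₂ δ C₄ d x : ℝ) : 0 ≤ bkl_f s₁ s₂ δ C₄ d x := by
  unfold bkl_f
  split_ifs
  · positivity
  · exact le_refl _

theorem bkl_f_le (s₁ s₂ δ C₄ d x : ℝ) (hδ : 0 < δ) : bkl_f s₁ s₂ δ C₄ d x ≤ 1 / δ := by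
  unfold bkl_f
  split_ifs with h
  · exact one_div_le_one_div_of_le hδ h.1.le
  · positivity

theorem bkl_iff {u v ρ : ℝ} (h : |u - v| ≤ ρ) (hu : ρ < |u|) : (0 ≤ u ↔ 0 ≤ v) ∧ (u ≤ 0 ↔ v ≤ 0) ∧
    (0 < u ↔ 0 < v) := by
  rw [abs_le] at h
  rcases lt_abs.1 hu with h1 | h1
  · have h0 : 0 ≤ |u - v| := abs_nonneg _
    have : 0 ≤ ρ := by
      by_contra hc
      push Not at hc
      linarith [h.1, h.2]
    exact ⟨⟨fun _ => by linarith [h.2], fun _ => by linarith⟩,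
      ⟨fun _ => by linarith, fun hv => by exfalso; linarith [h.2]⟩,
      ⟨fun _ => by linarith [h.2], fun _ => by linarith⟩⟩
  · have : 0 ≤ ρ := by
      by_contra hc
      push Not at hc
      linarith [h.1, h.2]
    exact ⟨⟨fun _ => by exfalso; linarith, fun hv => by exfalso; linarith [h.1]⟩,
      ⟨fun _ => by linarith [h.1], fun _ => by linarith⟩,
      ⟨fun _ => by exfalso; linarith, fun hv => by exfalso; linarith [h.1]⟩⟩

theorem bkl_close {s₁ s₂ δ C₄ ρ ε η κ d d' x x' : ℝ} (hδ : 0 < δ) (hx : |x - x'| ≤ η)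
    (hd : |d - d'| ≤ κ) (h1 : η ≤ δ / 2) (h2 : η ≤ ρ) (h3 : κ + |s₁| * η ≤ ρ)
    (h4 : κ + |s₂| * η ≤ ρ) (h5 : η ≤ ε * δ ^ 2) (hε : 0 ≤ ε)
    (g1 : ρ < |(|x| - δ)|) (g2 : ρ < |(|x| - C₄)|) (g3 : ρ < |d - s₁ * x|) (g4 : ρ < |d - s₂ * x|) :
    |bkl_f s₁ s₂ δ C₄ d x - bkl_f s₁ s₂ δ C₄ d' x'| ≤ ε := by
  have hab : |(|x| - |x'|)| ≤ η := (abs_abs_sub_abs_le x x').trans hx
  have i1 : δ < |x| ↔ δ < |x'| := by
    have := (bkl_iff (u := |x| - δ) (v := |x'| - δ) (ρ := ρ) (by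
      rw [show |x| - δ - (|x'| - δ) = |x| - |x'| by ring]; linarith) g1).2.2
    constructor
    · intro h
      have := this.1 (by linarith)
      linarith
    · intro h
      have := this.2 (by linarith)
      linarith
  have i2 : |x| ≤ C₄ ↔ |x'| ≤ C₄ := by
    have := (bkl_iff (u := |x| - C₄) (v := |x'| - C₄) (ρ := ρ) (by
      rw [show |x| - C₄ - (|x'| - C₄) = |x| - |x'| by ring]; linarith) g2).2.1
    constructor
    · intro h
      have := this.1 (by linarith)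
      linarith
    · intro h
      have := this.2 (by linarith)
      linarith
  have hs : ∀ s : ℝ, κ + |s| * η ≤ ρ → |(d - s * x) - (d' - s * x')| ≤ ρ := by
    intro s hs
    have e : (d - s * x) - (d' - s * x') = (d - d') - s * (x - x') := by ring
    rw [e]
    calc |(d - d') - s * (x - x')| ≤ |d - d'| + |s * (x - x')| := abs_sub _ _
      _ ≤ κ + |s| * η := by
          rw [abs_mul]
          exact add_le_add hd (mul_le_mul_of_nonneg_left hx (abs_nonneg _))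
      _ ≤ ρ := hs
  have j1 := bkl_iff (hs s₁ h3) g3
  have j2 := bkl_iff (hs s₂ h4) g4
  by_cases hc : δ < |x|
  · have hc' := i1.1 hc
    have i3 : (s₁ ≤ d / x ∧ d / x ≤ s₂) ↔ (s₁ ≤ d' / x' ∧ d' / x' ≤ s₂) := by
      rw [abs_le] at hx
      rcases lt_or_ge 0 x with h0 | h0
      · have hxx : δ < x := by rwa [abs_of_pos h0] at hc
        have h0' : 0 < x' := by linarith [hx.2]
        rw [le_div_iff₀ h0, le_div_iff₀ h0', div_le_iff₀ h0, div_le_iff₀ h0']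
        constructor
        · rintro ⟨a, b⟩
          have a' := j1.1.1 (by linarith)
          have b' := j2.2.1.1 (by linarith)
          exact ⟨by linarith, by linarith⟩
        · rintro ⟨a, b⟩
          have a' := j1.1.2 (by linarith)
          have b' := j2.2.1.2 (by linarith)
          exact ⟨by linarith, by linarith⟩
      · have hxx : δ < -x := by rwa [abs_of_nonpos h0] at hc
        have h0 : x < 0 := by linarith
        have h0' : x' < 0 := by linarith [hx.1]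
        rw [le_div_iff_of_neg h0, le_div_iff_of_neg h0', div_le_iff_of_neg h0, div_le_iff_of_neg h0']
        constructor
        · rintro ⟨a, b⟩
          have a' := j1.2.1.1 (by linarith)
          have b' := j2.1.1 (by linarith)
          exact ⟨by linarith, by linarith⟩
        · rintro ⟨a, b⟩
          have a' := j1.2.1.2 (by linarith)
          have b' := j2.1.2 (by linarith)
          exact ⟨by linarith, by linarith⟩
    unfold bkl_f
    by_cases hall : δ < |x| ∧ |x| ≤ C₄ ∧ s₁ ≤ d / x ∧ d / x ≤ s₂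
    · have hall' : δ < |x'| ∧ |x'| ≤ C₄ ∧ s₁ ≤ d' / x' ∧ d' / x' ≤ s₂ :=
        ⟨hc', i2.1 hall.2.1, i3.1 hall.2.2⟩
      rw [if_pos hall, if_pos hall']
      have p1 : 0 < |x| := by linarith
      have p2 : 0 < |x'| := by linarith
      rw [div_sub_div _ _ p1.ne' p2.ne', abs_div, abs_of_pos (mul_pos p1 p2), one_mul, mul_one,
        div_le_iff₀ (mul_pos p1 p2), abs_sub_comm]
      have q : δ ^ 2 ≤ |x| * |x'| := by
        rw [sq]
        exact mul_le_mul hc.le hc'.le hδ.le p1.le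
      calc |(|x| - |x'|)| ≤ η := hab
        _ ≤ ε * δ ^ 2 := h5
        _ ≤ ε * (|x| * |x'|) := mul_le_mul_of_nonneg_left q hε
    · have hall' : ¬ (δ < |x'| ∧ |x'| ≤ C₄ ∧ s₁ ≤ d' / x' ∧ d' / x' ≤ s₂) := by
        intro h
        exact hall ⟨hc, i2.2 h.2.1, i3.2 h.2.2⟩
      rw [if_neg hall, if_neg hall']
      simpa using hε
  · have hc' : ¬ δ < |x'| := fun h => hc (i1.2 h)
    unfold bkl_f
    rw [if_neg (fun h => hc h.1), if_neg (fun h => hc' h.1)]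
    simpa using hε

theorem bkl_zx {ra κ h a b r r' x y : ℝ} (hra : 0 < ra) (hκ8 : κ ≤ ra / 8) (hκ : 0 < κ)
    (ha : ra ≤ a) (har : a < r) (hra' : r ≤ a + κ) (hr1 : r ≤ 1)
    (hb : ra ≤ b) (hbr : b < r') (hrb' : r' ≤ b + κ) (hr1' : r' ≤ 1)
    (hy : |y - x / (r * r')| ≤ h) : |a * b * y - x| ≤ h + 2 * κ * |x| / ra := by
  have r0 : 0 < r := by linarith
  have r0' : 0 < r' := by linarith
  have a0 : 0 < a := by linarith
  have b0 : 0 < b := by linarith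
  have hrr : 0 < r * r' := mul_pos r0 r0'
  have h0 : 0 ≤ h := (abs_nonneg _).trans hy
  have e : a * b * y - x = a * b * (y - x / (r * r')) - x * ((r * r' - a * b) / (r * r')) := by
    field_simp
    ring
  have ab1 : a * b ≤ 1 := by nlinarith
  have ab0 : 0 ≤ a * b := by positivity
  have p1 : |a * b * (y - x / (r * r'))| ≤ h := by
    rw [abs_mul, abs_of_nonneg ab0]
    calc a * b * |y - x / (r * r')| ≤ 1 * h := mul_le_mul ab1 hy (abs_nonneg _) (by norm_num)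
      _ = h := one_mul _
  have q0 : 0 ≤ (r * r' - a * b) / (r * r') := by
    apply div_nonneg _ hrr.le
    have : a * b ≤ r * r' := mul_le_mul har.le hbr.le b0.le r0.le
    linarith
  have q1 : (r * r' - a * b) / (r * r') ≤ 2 * κ / ra := by
    rw [div_le_div_iff₀ hrr hra]
    have w1 : (r - κ) * (r' - κ) ≤ a * b := mul_le_mul (by linarith) (by linarith) (by linarith) a0.le
    have w2 : r * r' - a * b ≤ κ * (r + r') := by nlinarith
    have w3 : ra * (r + r') ≤ 2 * (r * r') := by nlinarith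
    calc (r * r' - a * b) * ra ≤ κ * (r + r') * ra := mul_le_mul_of_nonneg_right w2 hra.le
      _ = κ * (ra * (r + r')) := by ring
      _ ≤ κ * (2 * (r * r')) := mul_le_mul_of_nonneg_left w3 hκ.le
      _ = 2 * κ * (r * r') := by ring
  have p2 : |x * ((r * r' - a * b) / (r * r'))| ≤ 2 * κ * |x| / ra := by
    rw [abs_mul, abs_of_nonneg q0]
    calc |x| * ((r * r' - a * b) / (r * r')) ≤ |x| * (2 * κ / ra) :=
          mul_le_mul_of_nonneg_left q1 (abs_nonneg _)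
      _ = 2 * κ * |x| / ra := by ring
  rw [e]
  exact (abs_sub _ _).trans (add_le_add p1 p2)

theorem bkl_cell {s₁ s₂ δ C₄ ra ρ ε θ κ h a b r r' x y : ℝ} (M : ℕ) (hδ : 0 < δ) (hC : δ ≤ C₄)
    (hra : 0 < ra) (hε : 0 < ε) (hκ : 0 < κ) (hκ8 : κ ≤ ra / 8) (hκθ : κ ≤ θ)
    (hκC : 8 * κ * C₄ ≤ θ * ra) (hh : h = θ / 4) (hθδ : θ ≤ δ / 2) (hθε : θ ≤ ε * δ ^ 2)
    (hθρ : (1 + |s₁| + |s₂|) * θ ≤ ρ) (hM : 3 * C₄ + 2 * h ≤ M * h)
    (ha : ra ≤ a) (har : a < r) (hra' : r ≤ a + κ) (hr1 : r ≤ 1)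
    (hb : ra ≤ b) (hbr : b < r') (hrb' : r' ≤ b + κ) (hr1' : r' ≤ 1)
    (hy : |y - x / (r * r')| ≤ h) (S : ℝ)
    (hS : S = ∑ m ∈ Finset.Icc (-(M : ℤ)) M, bkl_f s₁ s₂ δ C₄ (a - b) ((m : ℝ) * h) *
      hat ((a * b * y - (m : ℝ) * h) / h)) :
    0 ≤ S ∧ S ≤ 1 / δ ∧ (|x| ≤ δ / 2 → S = 0) ∧ (2 * C₄ ≤ |x| → S = 0) ∧
      (ρ < |(|x| - δ)| → ρ < |(|x| - C₄)| → ρ < |(r - r') - s₁ * x| → ρ < |(r - r') - s₂ * x| →
        |bkl_f s₁ s₂ δ C₄ (r - r') x - S| ≤ ε) := by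
  have hθ : 0 < θ := by linarith
  have h0 : 0 < h := by linarith
  have hC0 : 0 < C₄ := by linarith
  have hzx := bkl_zx hra hκ8 hκ ha har hra' hr1 hb hbr hrb' hr1' hy
  have hS2 : S = ∑ m ∈ Finset.Icc (-(M : ℤ)) M, bkl_f s₁ s₂ δ C₄ (a - b) ((m : ℝ) * h) *
      hat (a * b * y / h - (m : ℝ)) := by
    rw [hS]
    refine Finset.sum_congr rfl fun m _ => ?_
    congr 2
    field_simp
  have hact : ∀ m : ℤ, hat (a * b * y / h - (m : ℝ)) ≠ 0 →
      |x - (m : ℝ) * h| ≤ 2 * h + 2 * κ * |x| / ra := by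
    intro m hm
    have h1 := bkl_hat_lt hm
    have h2 : |a * b * y - (m : ℝ) * h| < h := by
      have e : a * b * y - (m : ℝ) * h = h * (a * b * y / h - (m : ℝ)) := by field_simp
      rw [e, abs_mul, abs_of_pos h0]
      nlinarith
    have e : x - (m : ℝ) * h = (a * b * y - (m : ℝ) * h) - (a * b * y - x) := by ring
    rw [e]
    refine (abs_sub _ _).trans ?_
    linarith
  have hzero : (∀ m : ℤ, hat (a * b * y / h - (m : ℝ)) ≠ 0 →
      bkl_f s₁ s₂ δ C₄ (a - b) ((m : ℝ) * h) = 0) → S = 0 := by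
    intro H
    rw [hS2]
    refine Finset.sum_eq_zero fun m _ => ?_
    by_cases hm : hat (a * b * y / h - (m : ℝ)) = 0
    · rw [hm, mul_zero]
    · rw [H m hm, zero_mul]
  have c4 : 2 * C₄ ≤ |x| → S = 0 := by
    intro hx
    apply hzero
    intro m hm
    have h1 := hact m hm
    have h2 : 2 * κ * |x| / ra ≤ |x| / 4 := by
      rw [div_le_iff₀ hra]
      nlinarith [abs_nonneg x]
    have h3 : |x| - |(m : ℝ) * h| ≤ |x - (m : ℝ) * h| := abs_sub_abs_le_abs_sub _ _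
    have h4 : C₄ < |(m : ℝ) * h| := by linarith
    unfold bkl_f
    rw [if_neg]
    intro h5
    linarith [h5.2.1]
  refine ⟨?_, ?_, ?_, c4, ?_⟩
  · rw [hS2]
    exact Finset.sum_nonneg fun m _ => mul_nonneg (bkl_f_nonneg _ _ _ _ _ _) (bkl_hat_nonneg _)
  · rw [hS2]
    calc ∑ m ∈ Finset.Icc (-(M : ℤ)) M, bkl_f s₁ s₂ δ C₄ (a - b) ((m : ℝ) * h) *
          hat (a * b * y / h - (m : ℝ))
        ≤ ∑ m ∈ Finset.Icc (-(M : ℤ)) M, 1 / δ * hat (a * b * y / h - (m : ℝ)) :=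
          Finset.sum_le_sum fun m _ => mul_le_mul_of_nonneg_right (bkl_f_le _ _ _ _ _ _ hδ)
            (bkl_hat_nonneg _)
      _ = 1 / δ * ∑ m ∈ Finset.Icc (-(M : ℤ)) M, hat (a * b * y / h - (m : ℝ)) := by
          rw [Finset.mul_sum]
      _ ≤ 1 / δ * 1 := mul_le_mul_of_nonneg_left (bkl_sum_le _ _) (by positivity)
      _ = 1 / δ := mul_one _
  · intro hx
    apply hzero
    intro m hm
    have h1 := hact m hm
    have h2 : 2 * κ * |x| / ra ≤ θ / 8 := by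
      rw [div_le_iff₀ hra]
      nlinarith [abs_nonneg x]
    have h3 : |(m : ℝ) * h| - |x| ≤ |x - (m : ℝ) * h| := by
      rw [abs_sub_comm]
      exact abs_sub_abs_le_abs_sub _ _
    unfold bkl_f
    rw [if_neg]
    intro h5
    linarith [h5.1]
  · intro g1 g2 g3 g4
    by_cases hx : 2 * C₄ ≤ |x|
    · rw [c4 hx]
      unfold bkl_f
      rw [if_neg]
      · simpa using hε.le
      · intro h5
        linarith [h5.2.1]
    · push Not at hx
      have hη : ∀ m : ℤ, hat (a * b * y / h - (m : ℝ)) ≠ 0 → |x - (m : ℝ) * h| ≤ θ := by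
        intro m hm
        refine (hact m hm).trans ?_
        have h2 : 2 * κ * |x| / ra ≤ θ / 2 := by
          rw [div_le_iff₀ hra]
          nlinarith [abs_nonneg x]
        linarith
      have hsum : ∑ m ∈ Finset.Icc (-(M : ℤ)) M, hat (a * b * y / h - (m : ℝ)) = 1 := by
        have h2 : 2 * κ * |x| / ra ≤ C₄ / 2 := by
          rw [div_le_iff₀ hra]
          nlinarith [abs_nonneg x]
        have h3 : |a * b * y| ≤ 3 * C₄ := by
          have : |a * b * y| ≤ |a * b * y - x| + |x| := by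
            have := abs_add_le (a * b * y - x) x
            rwa [sub_add_cancel] at this
          linarith
        have h4 : |a * b * y / h| ≤ M - 2 := by
          rw [abs_div, abs_of_pos h0, div_le_iff₀ h0]
          linarith
        rw [abs_le] at h4
        apply bkl_sum_eq
        · rw [Finset.mem_Icc]
          constructor
          · apply Int.le_floor.2
            push_cast
            linarith [h4.1]
          · have : (⌊a * b * y / h⌋ : ℝ) ≤ M := by linarith [Int.floor_le (a * b * y / h), h4.2]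
            exact_mod_cast this
        · rw [Finset.mem_Icc]
          constructor
          · have : -(M : ℤ) ≤ ⌊a * b * y / h⌋ := by
              apply Int.le_floor.2
              push_cast
              linarith [h4.1]
            omega
          · have : ((⌊a * b * y / h⌋ + 1 : ℤ) : ℝ) ≤ M := by
              push_cast
              linarith [Int.floor_le (a * b * y / h), h4.2]
            exact_mod_cast this
      have e : bkl_f s₁ s₂ δ C₄ (r - r') x - S = ∑ m ∈ Finset.Icc (-(M : ℤ)) M,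
          (bkl_f s₁ s₂ δ C₄ (r - r') x - bkl_f s₁ s₂ δ C₄ (a - b) ((m : ℝ) * h)) *
            hat (a * b * y / h - (m : ℝ)) := by
        rw [hS2]
        simp only [sub_mul, Finset.sum_sub_distrib]
        rw [← Finset.mul_sum, hsum, mul_one]
      rw [e]
      have hdd : |(r - r') - (a - b)| ≤ κ := by
        rw [abs_le]
        constructor <;> linarith
      have b1 : κ + |s₁| * θ ≤ ρ := by
        have := mul_nonneg (abs_nonneg s₂) hθ.le
        nlinarith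
      have b2 : κ + |s₂| * θ ≤ ρ := by
        have := mul_nonneg (abs_nonneg s₁) hθ.le
        nlinarith
      have b3 : θ ≤ ρ := by
        have := mul_nonneg (abs_nonneg s₂) hθ.le
        have := mul_nonneg (abs_nonneg s₁) hθ.le
        nlinarith
      calc |∑ m ∈ Finset.Icc (-(M : ℤ)) M,
            (bkl_f s₁ s₂ δ C₄ (r - r') x - bkl_f s₁ s₂ δ C₄ (a - b) ((m : ℝ) * h)) *
              hat (a * b * y / h - (m : ℝ))|
          ≤ ∑ m ∈ Finset.Icc (-(M : ℤ)) M,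
            |(bkl_f s₁ s₂ δ C₄ (r - r') x - bkl_f s₁ s₂ δ C₄ (a - b) ((m : ℝ) * h)) *
              hat (a * b * y / h - (m : ℝ))| := Finset.abs_sum_le_sum_abs _ _
        _ ≤ ∑ m ∈ Finset.Icc (-(M : ℤ)) M, ε * hat (a * b * y / h - (m : ℝ)) := by
            refine Finset.sum_le_sum fun m _ => ?_
            by_cases hm : hat (a * b * y / h - (m : ℝ)) = 0
            · rw [hm, mul_zero, mul_zero, abs_zero]
            · rw [abs_mul, abs_of_nonneg (bkl_hat_nonneg _)]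
              exact mul_le_mul_of_nonneg_right (bkl_close hδ (hη m hm) hdd hθδ b3 b1 b2 hθε hε.le
                g1 g2 g3 g4) (bkl_hat_nonneg _)
        _ = ε := by rw [← Finset.mul_sum, hsum, mul_one]

theorem bkl_idx (N : ℕ) (ra κ : ℝ) (hκ : 0 < κ) (hN : ra + κ * N = 1) (r : ℝ) (h1 : ra < r)
    (h2 : r ≤ 1) : ∃ i : Fin N, (ra + κ * (i : ℕ) < r ∧ r ≤ ra + κ * ((i : ℕ) + 1)) ∧
      ∀ j : Fin N, j ≠ i → ¬ (ra + κ * (j : ℕ) < r ∧ r ≤ ra + κ * ((j : ℕ) + 1)) := by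
  have c0 : 0 < (r - ra) / κ := div_pos (by linarith) hκ
  have c1 : 0 < ⌈(r - ra) / κ⌉₊ := Nat.ceil_pos.2 c0
  have c2 : ⌈(r - ra) / κ⌉₊ ≤ N := by
    apply Nat.ceil_le.2
    rw [div_le_iff₀ hκ]
    linarith
  have c3 := Nat.le_ceil ((r - ra) / κ)
  have c4 := Nat.ceil_lt_add_one c0.le
  obtain ⟨k, hk⟩ : ∃ k, ⌈(r - ra) / κ⌉₊ = k + 1 := ⟨⌈(r - ra) / κ⌉₊ - 1, by omega⟩
  rw [hk] at c3 c4
  push_cast at c3 c4
  rw [div_le_iff₀ hκ] at c3
  have c5 : (k : ℝ) < (r - ra) / κ := by linarith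
  rw [lt_div_iff₀ hκ] at c5
  refine ⟨⟨k, by omega⟩, ⟨by simp only; linarith, by simp only; linarith⟩, ?_⟩
  intro j hj hh
  apply hj
  have e1 : (j : ℕ) < k + 1 := by
    have : κ * (j : ℕ) < κ * ((k : ℝ) + 1) := by linarith [hh.1]
    have := lt_of_mul_lt_mul_left this hκ.le
    exact_mod_cast this
  have e2 : k < (j : ℕ) + 1 := by
    have : κ * (k : ℝ) < κ * ((j : ℕ) + 1) := by linarith [hh.2]
    have := lt_of_mul_lt_mul_left this hκ.le
    exact_mod_cast this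
  apply Fin.ext
  simp only
  omega

theorem ker_real_pr (s₁ s₂ δ C₄ ra ρ ε : ℝ) (hδ : 0 < δ) (hC : δ ≤ C₄) (hra : 0 < ra) (hra1 : ra < 1)
    (hρ : 0 < ρ) (hε : 0 < ε) : ∃ (n : ℕ) (α β₁ β₂ γ₁ γ₂ A x₀ : Fin n → ℝ) (h : ℝ), 0 < h ∧
    (∀ i, 0 ≤ α i ∧ 0 < β₁ i ∧ β₁ i < β₂ i ∧ β₂ i ≤ 1 ∧ 0 < γ₁ i ∧ γ₁ i < γ₂ i ∧ γ₂ i ≤ 1 ∧
      0 < A i ∧ A i ≤ 1) ∧
    ∀ r r' x y : ℝ, ra < r → r ≤ 1 → ra < r' → r' ≤ 1 → |y - x / (r * r')| ≤ h →
      let S := ∑ i, α i * (if β₁ i < r ^ 2 ∧ r ^ 2 ≤ β₂ i ∧ γ₁ i < r' ^ 2 ∧ r' ^ 2 ≤ γ₂ i then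
        hat ((A i * y - x₀ i) / h) else 0)
      let f := if δ < |x| ∧ |x| ≤ C₄ ∧ s₁ ≤ (r - r') / x ∧ (r - r') / x ≤ s₂ then 1 / |x| else 0
      0 ≤ S ∧ S ≤ 1 / δ ∧ (|x| ≤ δ / 2 → S = 0) ∧ (2 * C₄ ≤ |x| → S = 0) ∧
      (ρ < |(|x| - δ)| → ρ < |(|x| - C₄)| → ρ < |(r - r') - s₁ * x| → ρ < |(r - r') - s₂ * x| →
        |f - S| ≤ ε) := by
  have hC0 : 0 < C₄ := by linarith
  have hs0 : 0 < 1 + |s₁| + |s₂| := by positivity
  obtain ⟨θ, hθ, hθδ, hθε, hθρ'⟩ : ∃ θ : ℝ, 0 < θ ∧ θ ≤ δ / 2 ∧ θ ≤ ε * δ ^ 2 ∧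
      θ ≤ ρ / (1 + |s₁| + |s₂|) :=
    ⟨min (δ / 2) (min (ε * δ ^ 2) (ρ / (1 + |s₁| + |s₂|))), by positivity, min_le_left _ _,
      (min_le_right _ _).trans (min_le_left _ _), (min_le_right _ _).trans (min_le_right _ _)⟩
  have hθρ : (1 + |s₁| + |s₂|) * θ ≤ ρ := by
    rw [le_div_iff₀ hs0] at hθρ'
    linarith
  obtain ⟨N, hN⟩ := exists_nat_gt (1 / θ + 8 / ra + 8 * C₄ / (ra * θ))
  have n1 : 0 < 1 / θ := by positivity
  have n2 : 0 < 8 / ra := by positivity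
  have n3 : 0 < 8 * C₄ / (ra * θ) := by positivity
  have hN0 : (0 : ℝ) < N := by linarith
  obtain ⟨κ, hκd⟩ : ∃ κ : ℝ, κ = (1 - ra) / N := ⟨_, rfl⟩
  have hκ : 0 < κ := by rw [hκd]; exact div_pos (by linarith) hN0
  have hκN : κ * N = 1 - ra := by rw [hκd]; field_simp
  have hκ1 : κ * N ≤ 1 := by linarith
  have hκθ : κ ≤ θ := by
    have h1 : 1 / θ * κ ≤ 1 := by nlinarith
    rw [div_mul_eq_mul_div, one_mul, div_le_iff₀ hθ] at h1
    linarith
  have hκ8 : κ ≤ ra / 8 := by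
    have h1 : 8 / ra * κ ≤ 1 := by nlinarith
    rw [div_mul_eq_mul_div, div_le_iff₀ hra] at h1
    linarith
  have hκC : 8 * κ * C₄ ≤ θ * ra := by
    have h1 : 8 * C₄ / (ra * θ) * κ ≤ 1 := by nlinarith
    rw [div_mul_eq_mul_div, div_le_iff₀ (by positivity)] at h1
    linarith
  obtain ⟨h, hh⟩ : ∃ h : ℝ, h = θ / 4 := ⟨_, rfl⟩
  have h0 : 0 < h := by linarith
  obtain ⟨M, hM'⟩ := exists_nat_gt ((3 * C₄ + 2 * h) / h)
  have hM : 3 * C₄ + 2 * h ≤ M * h := by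
    rw [div_lt_iff₀ h0] at hM'
    exact hM'.le
  have hNr : ra + κ * N = 1 := by linarith
  -- the index set
  let ι := Fin N × Fin N × (Finset.Icc (-(M : ℤ)) M)
  let e : ι ≃ Fin (Fintype.card ι) := Fintype.equivFin ι
  have hr0 : ∀ i : Fin N, 0 < ra + κ * (i : ℕ) := fun i => by positivity
  have hr1 : ∀ i : Fin N, ra + κ * ((i : ℕ) + 1) ≤ 1 := by
    intro i
    rw [← hNr]
    have : ((i : ℕ) : ℝ) + 1 ≤ N := by exact_mod_cast i.2
    nlinarith
  refine ⟨Fintype.card ι,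
    fun k => bkl_f s₁ s₂ δ C₄ ((ra + κ * ((e.symm k).1 : ℕ)) - (ra + κ * ((e.symm k).2.1 : ℕ)))
      ((((e.symm k).2.2 : ℤ) : ℝ) * h),
    fun k => (ra + κ * ((e.symm k).1 : ℕ)) ^ 2,
    fun k => (ra + κ * (((e.symm k).1 : ℕ) + 1)) ^ 2,
    fun k => (ra + κ * ((e.symm k).2.1 : ℕ)) ^ 2,
    fun k => (ra + κ * (((e.symm k).2.1 : ℕ) + 1)) ^ 2,
    fun k => (ra + κ * ((e.symm k).1 : ℕ)) * (ra + κ * ((e.symm k).2.1 : ℕ)),
    fun k => (((e.symm k).2.2 : ℤ) : ℝ) * h, h, h0, ?_, ?_⟩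
  · intro k
    have a1 := hr0 (e.symm k).1
    have a2 := hr1 (e.symm k).1
    have b1 := hr0 (e.symm k).2.1
    have b2 := hr1 (e.symm k).2.1
    refine ⟨bkl_f_nonneg _ _ _ _ _ _, by positivity, ?_, ?_, by positivity, ?_, ?_, by positivity, ?_⟩
    · exact pow_lt_pow_left₀ (by linarith) a1.le (by norm_num)
    · exact pow_le_one₀ (by linarith) a2
    · exact pow_lt_pow_left₀ (by linarith) b1.le (by norm_num)
    · exact pow_le_one₀ (by linarith) b2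
    · have c1 : ra + κ * ((e.symm k).1 : ℕ) ≤ 1 := by linarith
      have c2 : ra + κ * ((e.symm k).2.1 : ℕ) ≤ 1 := by linarith
      nlinarith
  · intro r r' x y hr hr1' hr' hr1'' hy
    intro S f
    obtain ⟨i, ⟨i1, i2⟩, i3⟩ := bkl_idx N ra κ hκ hNr r hr hr1'
    obtain ⟨j, ⟨j1, j2⟩, j3⟩ := bkl_idx N ra κ hκ hNr r' hr' hr1''
    have r0 : 0 < r := by linarith
    have r0' : 0 < r' := by linarith
    have hcond : ∀ p : ι, ((ra + κ * (p.1 : ℕ)) ^ 2 < r ^ 2 ∧ r ^ 2 ≤ (ra + κ * ((p.1 : ℕ) + 1)) ^ 2 ∧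
        (ra + κ * (p.2.1 : ℕ)) ^ 2 < r' ^ 2 ∧ r' ^ 2 ≤ (ra + κ * ((p.2.1 : ℕ) + 1)) ^ 2) ↔
        ((ra + κ * (p.1 : ℕ) < r ∧ r ≤ ra + κ * ((p.1 : ℕ) + 1)) ∧
          (ra + κ * (p.2.1 : ℕ) < r' ∧ r' ≤ ra + κ * ((p.2.1 : ℕ) + 1))) := by
      intro p
      have a1 := hr0 p.1
      have b1 := hr0 p.2.1
      rw [sq_lt_sq₀ a1.le r0.le, sq_le_sq₀ r0.le (by linarith), sq_lt_sq₀ b1.le r0'.le,
        sq_le_sq₀ r0'.le (by linarith)]
      tauto
    have hS : S = ∑ m ∈ Finset.Icc (-(M : ℤ)) M, bkl_f s₁ s₂ δ C₄ ((ra + κ * (i : ℕ)) - (ra + κ * (j : ℕ)))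
        ((m : ℝ) * h) * hat (((ra + κ * (i : ℕ)) * (ra + κ * (j : ℕ)) * y - (m : ℝ) * h) / h) := by
      have e1 : S = ∑ p : ι, bkl_f s₁ s₂ δ C₄ ((ra + κ * (p.1 : ℕ)) - (ra + κ * (p.2.1 : ℕ)))
          (((p.2.2 : ℤ) : ℝ) * h) * (if (ra + κ * (p.1 : ℕ)) ^ 2 < r ^ 2 ∧
            r ^ 2 ≤ (ra + κ * ((p.1 : ℕ) + 1)) ^ 2 ∧
            (ra + κ * (p.2.1 : ℕ)) ^ 2 < r' ^ 2 ∧ r' ^ 2 ≤ (ra + κ * ((p.2.1 : ℕ) + 1)) ^ 2 then
            hat (((ra + κ * (p.1 : ℕ)) * (ra + κ * (p.2.1 : ℕ)) * y - ((p.2.2 : ℤ) : ℝ) * h) / h) else 0) :=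
        Equiv.sum_comp e.symm (fun p : ι => bkl_f s₁ s₂ δ C₄ ((ra + κ * (p.1 : ℕ)) - (ra + κ * (p.2.1 : ℕ)))
          (((p.2.2 : ℤ) : ℝ) * h) * (if (ra + κ * (p.1 : ℕ)) ^ 2 < r ^ 2 ∧
            r ^ 2 ≤ (ra + κ * ((p.1 : ℕ) + 1)) ^ 2 ∧
            (ra + κ * (p.2.1 : ℕ)) ^ 2 < r' ^ 2 ∧ r' ^ 2 ≤ (ra + κ * ((p.2.1 : ℕ) + 1)) ^ 2 then
            hat (((ra + κ * (p.1 : ℕ)) * (ra + κ * (p.2.1 : ℕ)) * y - ((p.2.2 : ℤ) : ℝ) * h) / h) else 0))
      rw [e1, Fintype.sum_prod_type, Finset.sum_eq_single i, Fintype.sum_prod_type,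
        Finset.sum_eq_single j]
      · rw [← Finset.sum_coe_sort (Finset.Icc (-(M : ℤ)) M)]
        refine Finset.sum_congr rfl fun m _ => ?_
        rw [if_pos ((hcond (i, j, m)).2 ⟨⟨i1, i2⟩, ⟨j1, j2⟩⟩)]
      · intro j' _ hj'
        refine Finset.sum_eq_zero fun m _ => ?_
        rw [if_neg (fun hc => j3 j' hj' ((hcond (i, j', m)).1 hc).2), mul_zero]
      · intro hc
        exact absurd (Finset.mem_univ _) hc
      · intro i' _ hi'
        refine Finset.sum_eq_zero fun q _ => ?_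
        rw [if_neg (fun hc => i3 i' hi' ((hcond (i', q)).1 hc).1), mul_zero]
      · intro hc
        exact absurd (Finset.mem_univ _) hc
    exact bkl_cell M hδ hC hra hε hκ hκ8 hκθ hκC hh hθδ hθε hθρ hM (by nlinarith [Nat.cast_nonneg (α := ℝ) (i : ℕ)]) i1
      (by linarith) hr1' (by nlinarith [Nat.cast_nonneg (α := ℝ) (j : ℕ)]) j1 (by linarith) hr1'' hy S hS

end Pool.Agent.T2


namespace Pool.Agent.T2

theorem ker_real : type_of% @ker_real_pr := @ker_real_pr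

end Pool.Agent.T2
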