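import Pool.Agent.Lib_helper10.T2.DefsB
import Pool.Agent.Lib_helper10.T2F.BAS
import Pool.Agent.Lib_helper10.T2F.BKL
import Pool.Agent.Lib_helper10.T2F.BPL

/-! T2, block BKC: approximation of the kernel, sums over pairs (helper6) -/

namespace Pool.Agent.T2

open Filter Topology

/-! trigonometry -/

theorem bkc_det {w w' : G} (hw : w ≠ 0) (hw' : w' ≠ 0) :
    (det w w' : ℝ) = ‖(w : ℂ)‖ * ‖(w' : ℂ)‖ * Real.sin (ag w w') ∧
    (ip w w' : ℝ) = ‖(w : ℂ)‖ * ‖(w' : ℂ)‖ * Real.cos (ag w w') := by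
  have hwc : (w : ℂ) ≠ 0 := by
    rw [Ne, GaussianInt.toComplex_eq_zero]
    exact hw
  have hwc' : (w' : ℂ) ≠ 0 := by
    rw [Ne, GaussianInt.toComplex_eq_zero]
    exact hw'
  have hn : ‖(w : ℂ)‖ ≠ 0 := norm_ne_zero_iff.2 hwc
  have hn' : ‖(w' : ℂ)‖ ≠ 0 := norm_ne_zero_iff.2 hwc'
  have hz : (w' : ℂ) / w ≠ 0 := div_ne_zero hwc' hwc
  have hsq : ‖(w : ℂ)‖ ^ 2 = (w.re : ℝ) ^ 2 + (w.im : ℝ) ^ 2 := by
    rw [← nn_norm]
    exact_mod_cast congrArg (fun t : ℤ => (t : ℝ)) (nn_cast w)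
  rw [ag, Complex.sin_arg, Complex.cos_arg hz, norm_div]
  have him : ((w' : ℂ) / w).im = (det w w' : ℝ) / ‖(w : ℂ)‖ ^ 2 := by
    rw [Complex.div_im, hsq, Complex.normSq_apply]
    simp only [← GaussianInt.intCast_re, ← GaussianInt.intCast_im, det]
    push_cast
    ring
  have hre : ((w' : ℂ) / w).re = (ip w w' : ℝ) / ‖(w : ℂ)‖ ^ 2 := by
    rw [Complex.div_re, hsq, Complex.normSq_apply]
    simp only [← GaussianInt.intCast_re, ← GaussianInt.intCast_im, ip]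
    push_cast
    ring
  rw [him, hre]
  constructor <;> field_simp

theorem bkc_ag (w w' : G) : |ag w w'| ≤ Real.pi := Complex.abs_arg_le_pi _

theorem bkc_trig {θ : ℝ} (h1 : |θ| ≤ Real.pi) (hc : 0 < Real.cos θ) :
    |θ| ≤ Real.pi / 2 * |Real.sin θ| := by
  have h2 : |θ| < Real.pi / 2 := by
    by_contra h
    rw [not_lt] at h
    have h3 : Real.cos |θ| ≤ 0 :=
      Real.cos_nonpos_of_pi_div_two_le_of_le h (by linarith [Real.pi_pos])
    rw [Real.cos_abs] at h3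
    linarith
  have h4 := Real.mul_le_sin (abs_nonneg θ) h2.le
  have h5 : Real.sin |θ| ≤ |Real.sin θ| := by
    rcases abs_cases θ with ⟨h, _⟩ | ⟨h, _⟩
    · rw [h]; exact le_abs_self _
    · rw [h, Real.sin_neg]; exact neg_le_abs _
  have hpi := Real.pi_pos
  calc |θ| = Real.pi / 2 * (2 / Real.pi * |θ|) := by field_simp
    _ ≤ Real.pi / 2 * |Real.sin θ| := by
        refine mul_le_mul_of_nonneg_left (h4.trans h5) (by positivity)

theorem bkc_sin {θ : ℝ} (h1 : |θ| ≤ 1) : |θ - Real.sin θ| ≤ |θ| ^ 3 := by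
  have key : ∀ t : ℝ, 0 ≤ t → t ≤ 1 → |t - Real.sin t| ≤ t ^ 3 := by
    intro t h0 h2
    rcases h0.eq_or_lt with h | h
    · rw [← h]; simp
    · have h3 := Real.sin_lt h
      have h4 := Real.sin_gt_sub_cube h
      rw [abs_of_nonneg (by linarith)]
      have : 0 ≤ t ^ 3 := by positivity
      linarith
  rcases abs_cases θ with ⟨h, h0⟩ | ⟨h, h0⟩
  · rw [h] at h1 ⊢
    exact key θ h0 h1
  · rw [h] at h1 ⊢
    have h5 := key (-θ) (by linarith) h1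
    rw [Real.sin_neg] at h5
    have h6 : |θ - Real.sin θ| = |-θ - -Real.sin θ| := by
      rw [← abs_neg]; congr 1; ring
    rw [h6]
    exact h5

/-! the kernel -/

/-- the sum -/
noncomputable def bkc_S {n : ℕ} (α β₁ β₂ γ₁ γ₂ A x₀ : Fin n → ℝ) (h : ℝ) (r r' y : ℝ) : ℝ :=
  ∑ i, α i * (if β₁ i < r ^ 2 ∧ r ^ 2 ≤ β₂ i ∧ γ₁ i < r' ^ 2 ∧ r' ^ 2 ≤ γ₂ i then
        hat ((A i * y - x₀ i) / h) else 0)

/-- the function -/
noncomputable def bkc_f (s₁ s₂ δ C₄ r r' x : ℝ) : ℝ :=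
  if δ < |x| ∧ |x| ≤ C₄ ∧ s₁ ≤ (r - r') / x ∧ (r - r') / x ≤ s₂ then 1 / |x| else 0

/-- the conclusion of `ker_real` -/
def bkc_K {n : ℕ} (α β₁ β₂ γ₁ γ₂ A x₀ : Fin n → ℝ) (h s₁ s₂ δ C₄ ra ρ ε : ℝ) : Prop :=
  ∀ r r' x y : ℝ, ra < r → r ≤ 1 → ra < r' → r' ≤ 1 → |y - x / (r * r')| ≤ h →
      0 ≤ bkc_S α β₁ β₂ γ₁ γ₂ A x₀ h r r' y ∧ bkc_S α β₁ β₂ γ₁ γ₂ A x₀ h r r' y ≤ 1 / δ ∧
      (|x| ≤ δ / 2 → bkc_S α β₁ β₂ γ₁ γ₂ A x₀ h r r' y = 0) ∧
      (2 * C₄ ≤ |x| → bkc_S α β₁ β₂ γ₁ γ₂ A x₀ h r r' y = 0) ∧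
      (ρ < |(|x| - δ)| → ρ < |(|x| - C₄)| → ρ < |(r - r') - s₁ * x| → ρ < |(r - r') - s₂ * x| →
        |bkc_f s₁ s₂ δ C₄ r r' x - bkc_S α β₁ β₂ γ₁ γ₂ A x₀ h r r' y| ≤ ε)

theorem bkc_real (s₁ s₂ δ C₄ ra ρ ε : ℝ) (hδ : 0 < δ) (hC : δ ≤ C₄) (hra : 0 < ra) (hra1 : ra < 1)
    (hρ : 0 < ρ) (hε : 0 < ε) : ∃ (n : ℕ) (α β₁ β₂ γ₁ γ₂ A x₀ : Fin n → ℝ) (h : ℝ), 0 < h ∧
    (∀ i, 0 ≤ α i ∧ 0 < β₁ i ∧ β₁ i < β₂ i ∧ β₂ i ≤ 1 ∧ 0 < γ₁ i ∧ γ₁ i < γ₂ i ∧ γ₂ i ≤ 1 ∧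
      0 < A i ∧ A i ≤ 1) ∧ bkc_K α β₁ β₂ γ₁ γ₂ A x₀ h s₁ s₂ δ C₄ ra ρ ε :=
  ker_real s₁ s₂ δ C₄ ra ρ ε hδ hC hra hra1 hρ hε

open Classical in
/-- the sum for a pair -/
noncomputable def bkc_T {n : ℕ} (α β₁ β₂ γ₁ γ₂ A x₀ : Fin n → ℝ) (h : ℝ) (P : ℕ) (Y : ℝ)
    (w w' : G) : ℝ :=
  ∑ i, α i * (if w ∈ Cel (β₁ i) (β₂ i) Y ∧ w' ∈ Cel (γ₁ i) (γ₂ i) Y then
          hat ((A i * (ag w w' * Y / P) - x₀ i) / h) else 0)

open Classical in
theorem bkc_mem {a b Y : ℝ} (hY : 0 < Y) {w : G} (hw : w ∈ PB Y) :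
    w ∈ Cel a b Y ↔ a < Real.sqrt (nn w / Y) ^ 2 ∧ Real.sqrt (nn w / Y) ^ 2 ≤ b := by
  rw [Cel, Finset.mem_filter, Real.sq_sqrt (by positivity), lt_div_iff₀ hY, div_le_iff₀ hY]
  exact ⟨fun h => h.2, fun h => ⟨hw, h⟩⟩

theorem bkc_T_eq {n : ℕ} (α β₁ β₂ γ₁ γ₂ A x₀ : Fin n → ℝ) (h : ℝ) (P : ℕ) {Y : ℝ} (hY : 0 < Y)
    {w w' : G} (hw : w ∈ PB Y) (hw' : w' ∈ PB Y) :
    bkc_T α β₁ β₂ γ₁ γ₂ A x₀ h P Y w w' = bkc_S α β₁ β₂ γ₁ γ₂ A x₀ h
      (Real.sqrt (nn w / Y)) (Real.sqrt (nn w' / Y)) (ag w w' * Y / P) := by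
  classical
  rw [bkc_T, bkc_S]
  refine Finset.sum_congr rfl fun i _ => ?_
  have e : (w ∈ Cel (β₁ i) (β₂ i) Y ∧ w' ∈ Cel (γ₁ i) (γ₂ i) Y) ↔
      (β₁ i < Real.sqrt (nn w / Y) ^ 2 ∧ Real.sqrt (nn w / Y) ^ 2 ≤ β₂ i ∧
        γ₁ i < Real.sqrt (nn w' / Y) ^ 2 ∧ Real.sqrt (nn w' / Y) ^ 2 ≤ γ₂ i) := by
    rw [bkc_mem hY hw, bkc_mem hY hw', and_assoc]
  by_cases hc : w ∈ Cel (β₁ i) (β₂ i) Y ∧ w' ∈ Cel (γ₁ i) (γ₂ i) Y
  · rw [if_pos hc, if_pos (e.1 hc)]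
  · rw [if_neg hc, if_neg (fun h => hc (e.2 h))]

/-- one of the four boundary conditions -/
def bkc_B (δ C₄ s₁ s₂ ρ : ℝ) (P : ℕ) (Y : ℝ) (w w' : G) : Prop :=
  |(|(det w w' : ℝ) / P| - δ)| ≤ ρ ∨ |(|(det w w' : ℝ) / P| - C₄)| ≤ ρ ∨
  |Real.sqrt (nn w / Y) - Real.sqrt (nn w' / Y) - s₁ * ((det w w' : ℝ) / P)| ≤ ρ ∨
  |Real.sqrt (nn w / Y) - Real.sqrt (nn w' / Y) - s₂ * ((det w w' : ℝ) / P)| ≤ ρ

open Classical in
/-- one pair -/
theorem bkc_pair {n : ℕ} {α β₁ β₂ γ₁ γ₂ A x₀ : Fin n → ℝ} {h a b a' δ τ ρ ε : ℝ}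
    (ha : 0 < a) (ha' : 0 < a') (hδ : 0 < δ) (hh : 0 < h) (hε : 0 ≤ ε)
    (hK : bkc_K α β₁ β₂ γ₁ γ₂ A x₀ h (Real.sqrt a + τ) (Real.sqrt b - τ) δ (4 / Real.sqrt a)
      (Real.sqrt a') ρ ε) {P : ℕ} (hP : 1 ≤ P) {Y : ℝ} (hY1 : 1 ≤ Y)
    (hY2 : Real.pi * (4 / Real.sqrt a) * P / a' ≤ Y)
    (hY3 : (Real.pi * (4 / Real.sqrt a) * P / a') ^ 3 / h ≤ Y)
    {w w' : G} (hw : w ∈ Cel a' 1 Y) (hw' : w' ∈ Cel a' 1 Y) :
    |(if Core a b δ τ P Y w w' then 1 / |(det w w' : ℝ)| else 0) -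
        (1 / (P : ℝ)) * bkc_T α β₁ β₂ γ₁ γ₂ A x₀ h P Y w w'| ≤
      if 0 < ip w w' ∧ det w w' ≠ 0 ∧ |(det w w' : ℝ)| ≤ 2 * (4 / Real.sqrt a) * P then
        ε / P + 1 / (δ * P) * (if bkc_B δ (4 / Real.sqrt a) (Real.sqrt a + τ)
          (Real.sqrt b - τ) ρ P Y w w' then 1 else 0) else 0 := by
  have hP0 : (0 : ℝ) < P := by exact_mod_cast (lt_of_lt_of_le one_pos hP)
  have hP1 : (1 : ℝ) ≤ P := by exact_mod_cast hP
  have hY0 : 0 < Y := by linarith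
  have hsa : 0 < Real.sqrt a := Real.sqrt_pos.2 ha
  set C₄ : ℝ := 4 / Real.sqrt a with hC₄
  have hC0 : 0 < C₄ := by positivity
  have hwm : w ∈ PB Y := (Finset.mem_filter.1 hw).1
  have hwm' : w' ∈ PB Y := (Finset.mem_filter.1 hw').1
  have hw0 : w ≠ 0 := prm_ne (mem_PB.1 hwm).1
  have hw0' : w' ≠ 0 := prm_ne (mem_PB.1 hwm').1
  have hn1 := (Finset.mem_filter.1 hw).2
  have hn1' := (Finset.mem_filter.1 hw').2
  rw [one_mul] at hn1 hn1'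
  rw [bkc_T_eq α β₁ β₂ γ₁ γ₂ A x₀ h P hY0 hwm hwm']
  set W : ℝ := ‖(w : ℂ)‖ with hW
  set W' : ℝ := ‖(w' : ℂ)‖ with hW'
  have hWsq : (nn w : ℝ) = W ^ 2 := nn_norm w
  have hWsq' : (nn w' : ℝ) = W' ^ 2 := nn_norm w'
  have hWp : 0 ≤ W := norm_nonneg _
  have hWp' : 0 ≤ W' := norm_nonneg _
  set r : ℝ := Real.sqrt (nn w / Y) with hr
  set r' : ℝ := Real.sqrt (nn w' / Y) with hr'
  have hrlt : Real.sqrt a' < r := by
    rw [hr]
    refine Real.sqrt_lt_sqrt ha'.le ?_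
    rw [lt_div_iff₀ hY0]
    exact hn1.1
  have hrlt' : Real.sqrt a' < r' := by
    rw [hr']
    refine Real.sqrt_lt_sqrt ha'.le ?_
    rw [lt_div_iff₀ hY0]
    exact hn1'.1
  have hr1 : r ≤ 1 := by
    rw [hr, Real.sqrt_le_one, div_le_one hY0]
    exact hn1.2
  have hr1' : r' ≤ 1 := by
    rw [hr', Real.sqrt_le_one, div_le_one hY0]
    exact hn1'.2
  have hrp : 0 < r := lt_of_le_of_lt (Real.sqrt_nonneg _) hrlt
  have hrp' : 0 < r' := lt_of_le_of_lt (Real.sqrt_nonneg _) hrlt'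
  have hrr : r * r' = W * W' / Y := by
    have h1 : r = W / Real.sqrt Y := by
      rw [hr, hWsq, Real.sqrt_div (by positivity), Real.sqrt_sq hWp]
    have h2 : r' = W' / Real.sqrt Y := by
      rw [hr', hWsq', Real.sqrt_div (by positivity), Real.sqrt_sq hWp']
    rw [h1, h2, div_mul_div_comm, Real.mul_self_sqrt hY0.le]
  have hrr0 : 0 < r * r' := mul_pos hrp hrp'
  have hWW : a' * Y ≤ W * W' := by
    have h1 : a' ≤ r * r' := by
      calc a' = Real.sqrt a' * Real.sqrt a' := (Real.mul_self_sqrt ha'.le).symm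
        _ ≤ r * r' := mul_le_mul hrlt.le hrlt'.le (Real.sqrt_nonneg _) hrp.le
    rw [hrr, le_div_iff₀ hY0] at h1
    exact h1
  have hWW0 : 0 < W * W' := lt_of_lt_of_le (by positivity) hWW
  set θ : ℝ := ag w w' with hθ
  obtain ⟨hdet, hip⟩ := bkc_det hw0 hw0'
  rw [← hW, ← hW', ← hθ] at hdet hip
  set y : ℝ := θ * Y / P with hy
  set xt : ℝ := y * (r * r') with hxt
  have hxt' : xt = θ * (W * W') / P := by
    rw [hxt, hy, hrr]
    field_simp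
  have hfirst := hK r r' xt y hrlt hr1 hrlt' hr1' (by
    rw [hxt, mul_div_assoc, div_self hrr0.ne', mul_one, sub_self, abs_zero]
    exact hh.le)
  obtain ⟨hS0, hS1, hSz, hSb, _⟩ := hfirst
  set S : ℝ := bkc_S α β₁ β₂ γ₁ γ₂ A x₀ h r r' y with hS
  have hpi := Real.pi_pos
  have hpi2 : 2 < Real.pi := by linarith [Real.pi_gt_three]
  have hWne : W ≠ 0 := left_ne_zero_of_mul hWW0.ne'
  have hWne' : W' ≠ 0 := right_ne_zero_of_mul hWW0.ne'
  by_cases hipp : 0 < ip w w'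
  swap
  · -- the inner product is not positive
    have hnc : ¬ Core a b δ τ P Y w w' := fun hc => hipp hc.1.2.2
    rw [if_neg hnc, if_neg (fun hc => hipp hc.1)]
    have hcos : Real.cos θ ≤ 0 := by
      have h1 : (ip w w' : ℝ) ≤ 0 := by exact_mod_cast not_lt.1 hipp
      rw [hip] at h1
      by_contra h2
      have := mul_pos hWW0 (not_le.1 h2)
      linarith
    have hθ2 : Real.pi / 2 ≤ |θ| := by
      by_contra h2
      rw [not_le] at h2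
      have h3 : 0 < Real.cos |θ| :=
        Real.cos_pos_of_mem_Ioo ⟨by linarith [abs_nonneg θ], h2⟩
      rw [Real.cos_abs] at h3
      linarith
    have hbig : 2 * C₄ ≤ |xt| := by
      rw [hxt', abs_div, abs_mul, abs_of_pos hWW0, abs_of_pos hP0, le_div_iff₀ hP0]
      have h3 : Real.pi * C₄ * P ≤ a' * Y := by
        rw [div_le_iff₀ ha'] at hY2
        linarith
      calc 2 * C₄ * P ≤ 1 * (Real.pi * C₄ * P) := by
            rw [one_mul]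
            have := mul_pos hC0 hP0
            nlinarith
        _ ≤ |θ| * (W * W') := by
            refine mul_le_mul (by linarith) (h3.trans hWW) (by positivity) (abs_nonneg θ)
    rw [hSb hbig]
    simp
  by_cases hD0 : det w w' = 0
  · -- determinant zero
    have hnc : ¬ Core a b δ τ P Y w w' := by
      intro hc
      have := hc.1.1
      rw [hD0] at this
      simp only [Int.cast_zero, abs_zero] at this
      have := mul_pos hδ hP0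
      linarith
    rw [if_neg hnc, if_neg (fun hc => hc.2.1 hD0)]
    have hcos : 0 < Real.cos θ := by
      have h1 : (0 : ℝ) < ip w w' := by exact_mod_cast hipp
      rw [hip] at h1
      exact (mul_pos_iff_of_pos_left hWW0).1 h1
    have hsin : Real.sin θ = 0 := by
      rw [hD0] at hdet
      simp only [Int.cast_zero] at hdet
      rcases mul_eq_zero.1 hdet.symm with h1 | h1
      · exact absurd h1 hWW0.ne'
      · exact h1
    have h2 := bkc_trig (bkc_ag w w') hcos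
    rw [← hθ, hsin, abs_zero, mul_zero] at h2
    have h3 : θ = 0 := abs_eq_zero.1 (le_antisymm h2 (abs_nonneg _))
    have h4 : xt = 0 := by rw [hxt', h3]; simp
    rw [hSz (by rw [h4, abs_zero]; positivity)]
    simp
  have hcos : 0 < Real.cos θ := by
    have h1 : (0 : ℝ) < ip w w' := by exact_mod_cast hipp
    rw [hip] at h1
    exact (mul_pos_iff_of_pos_left hWW0).1 h1
  by_cases hDl : |(det w w' : ℝ)| ≤ 2 * C₄ * P
  swap
  · -- large determinant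
    have hnc : ¬ Core a b δ τ P Y w w' := by
      intro hc
      apply hDl
      refine hc.1.2.1.trans ?_
      rw [← hC₄]
      have := mul_pos hC0 hP0
      nlinarith
    rw [if_neg hnc, if_neg (fun hc => hDl hc.2.2)]
    have hbig : 2 * C₄ ≤ |xt| := by
      rw [hxt', abs_div, abs_mul, abs_of_pos hWW0, abs_of_pos hP0, le_div_iff₀ hP0]
      refine (not_le.1 hDl).le.trans ?_
      rw [hdet, abs_mul, abs_of_pos hWW0, mul_comm]
      refine mul_le_mul_of_nonneg_right ?_ hWW0.le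
      exact Real.abs_sin_le_abs
    rw [hSb hbig]
    simp
  -- the main case
  rw [if_pos (show 0 < ip w w' ∧ det w w' ≠ 0 ∧ |(det w w' : ℝ)| ≤ 2 * C₄ * P from
    ⟨hipp, hD0, hDl⟩)]
  set x : ℝ := (det w w' : ℝ) / P with hx
  have hθb : |θ| ≤ Real.pi * C₄ * P / a' / Y := by
    have h1 := bkc_trig (bkc_ag w w') hcos
    rw [← hθ] at h1
    refine h1.trans ?_
    have h2 : |Real.sin θ| * (W * W') ≤ 2 * C₄ * P := by
      rw [hdet, abs_mul, abs_of_pos hWW0, mul_comm] at hDl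
      exact hDl
    have h3 : |Real.sin θ| * (a' * Y) ≤ 2 * C₄ * P :=
      (mul_le_mul_of_nonneg_left hWW (abs_nonneg _)).trans h2
    rw [div_div, le_div_iff₀ (by positivity)]
    calc Real.pi / 2 * |Real.sin θ| * (a' * Y) = Real.pi / 2 * (|Real.sin θ| * (a' * Y)) := by ring
      _ ≤ Real.pi / 2 * (2 * C₄ * P) := mul_le_mul_of_nonneg_left h3 (by positivity)
      _ = Real.pi * C₄ * P := by ring
  set M : ℝ := Real.pi * C₄ * P / a' with hM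
  have hM0 : 0 < M := by positivity
  have hθ1 : |θ| ≤ 1 := hθb.trans (by rw [div_le_one hY0]; exact hY2)
  have happ : |y - x / (r * r')| ≤ h := by
    have h1 : y - x / (r * r') = (Y / P) * (θ - Real.sin θ) := by
      rw [hy, hx, hrr, hdet]
      field_simp
    rw [h1, abs_mul, abs_of_pos (by positivity)]
    have h2 : |θ| ^ 3 ≤ (M / Y) ^ 3 := pow_le_pow_left₀ (abs_nonneg θ) hθb 3
    calc Y / P * |θ - Real.sin θ| ≤ Y / 1 * (M / Y) ^ 3 := by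
          refine mul_le_mul ?_ ((bkc_sin hθ1).trans h2) (abs_nonneg _) (by positivity)
          exact div_le_div_of_nonneg_left hY0.le one_pos hP1
      _ = M ^ 3 / Y ^ 2 := by field_simp
      _ ≤ M ^ 3 / Y := by
          refine div_le_div_of_nonneg_left (by positivity) hY0 ?_
          nlinarith
      _ ≤ h := by
          rw [div_le_iff₀ hY0]
          rw [div_le_iff₀ hh] at hY3
          linarith
  obtain ⟨_, _, _, _, hfar⟩ := hK r r' x y hrlt hr1 hrlt' hr1' happ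
  have hx0 : x ≠ 0 := by
    rw [hx]
    refine div_ne_zero ?_ hP0.ne'
    exact_mod_cast hD0
  have hxabs : |x| = |(det w w' : ℝ)| / P := by rw [hx, abs_div, abs_of_pos hP0]
  have hff : (if Core a b δ τ P Y w w' then 1 / |(det w w' : ℝ)| else 0) =
      (1 / (P : ℝ)) * bkc_f (Real.sqrt a + τ) (Real.sqrt b - τ) δ C₄ r r' x := by
    have hiff : Core a b δ τ P Y w w' ↔ (δ < |x| ∧ |x| ≤ C₄ ∧
        Real.sqrt a + τ ≤ (r - r') / x ∧ (r - r') / x ≤ Real.sqrt b - τ) := by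
      have hsr : sr P Y w w' = (r - r') / x := by
        rw [sr, hx, ← hr, ← hr']
        field_simp
      rw [Core, Med, hsr, hxabs, lt_div_iff₀ hP0, div_le_iff₀ hP0, ← hC₄]
      constructor
      · rintro ⟨⟨h1, h2, _⟩, h3, h4⟩
        exact ⟨h1, h2, h3, h4⟩
      · rintro ⟨h1, h2, h3, h4⟩
        exact ⟨⟨h1, h2, hipp⟩, h3, h4⟩
    rw [bkc_f]
    by_cases hc : Core a b δ τ P Y w w'
    · rw [if_pos hc, if_pos (hiff.1 hc), hxabs]
      field_simp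
    · rw [if_neg hc, if_neg (fun h => hc (hiff.2 h)), mul_zero]
  rw [hff, ← mul_sub, abs_mul, abs_of_pos (by positivity)]
  set f : ℝ := bkc_f (Real.sqrt a + τ) (Real.sqrt b - τ) δ C₄ r r' x with hf
  have hf0 : 0 ≤ f := by
    rw [hf, bkc_f]
    split_ifs
    · positivity
    · exact le_rfl
  have hf1 : f ≤ 1 / δ := by
    rw [hf, bkc_f]
    split_ifs with hc
    · exact one_div_le_one_div_of_le hδ hc.1.le
    · positivity
  by_cases hB : bkc_B δ C₄ (Real.sqrt a + τ) (Real.sqrt b - τ) ρ P Y w w'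
  · rw [if_pos hB, mul_one]
    have h1 : |f - S| ≤ 1 / δ := by
      rw [abs_le]
      constructor <;> linarith
    calc 1 / (P : ℝ) * |f - S| ≤ 1 / (P : ℝ) * (1 / δ) :=
          mul_le_mul_of_nonneg_left h1 (by positivity)
      _ = 1 / (δ * P) := by field_simp
      _ ≤ ε / P + 1 / (δ * P) := by
          have : 0 ≤ ε / P := by positivity
          linarith
  · rw [if_neg hB, mul_zero, add_zero]
    rw [bkc_B, not_or, not_or, not_or, not_le, not_le, not_le, not_le] at hB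
    have h1 := hfar hB.1 hB.2.1 hB.2.2.1 hB.2.2.2
    calc 1 / (P : ℝ) * |f - S| ≤ 1 / (P : ℝ) * ε := mul_le_mul_of_nonneg_left h1 (by positivity)
      _ = ε / P := by field_simp

/-! counting -/

theorem bkc_count (c L : ℝ) (hL : 0 ≤ L) (S : Finset ℤ) (h : ∀ n ∈ S, |(n : ℝ) - c| ≤ L) :
    (S.card : ℝ) ≤ 2 * L + 1 := by
  rcases S.eq_empty_or_nonempty with h0 | h0
  · rw [h0]
    simp only [Finset.card_empty, Nat.cast_zero]
    linarith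
  · have h1 : S ⊆ Finset.Icc (S.min' h0) (S.max' h0) := fun n hn =>
      Finset.mem_Icc.2 ⟨S.min'_le n hn, S.le_max' n hn⟩
    have h2 := Finset.card_le_card h1
    rw [Int.card_Icc] at h2
    have h3 := abs_le.1 (h _ (S.min'_mem h0))
    have h4 := abs_le.1 (h _ (S.max'_mem h0))
    have h5 : S.min' h0 ≤ S.max' h0 := S.min'_le_max' h0
    have h6 : (S.card : ℤ) ≤ S.max' h0 + 1 - S.min' h0 := by omega
    have h7 : (S.card : ℝ) ≤ (S.max' h0 : ℝ) + 1 - (S.min' h0 : ℝ) := by exact_mod_cast h6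
    linarith

theorem bkc_count2 (c ρ P : ℝ) (hρ : 0 ≤ ρ) (hP : 0 < P) (S : Finset ℤ)
    (h : ∀ n ∈ S, |(|(n : ℝ) / P| - c)| ≤ ρ) : (S.card : ℝ) ≤ 2 * (2 * ρ * P + 1) := by
  classical
  have h1 : S ⊆ S.filter (fun n => |(n : ℝ) - c * P| ≤ ρ * P) ∪
      S.filter (fun n => |(n : ℝ) - -(c * P)| ≤ ρ * P) := by
    intro n hn
    have h2 := h n hn
    rw [Finset.mem_union, Finset.mem_filter, Finset.mem_filter]
    rcases le_or_gt 0 (n : ℝ) with h3 | h3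
    · left
      refine ⟨hn, ?_⟩
      rw [abs_of_nonneg (div_nonneg h3 hP.le)] at h2
      have h4 : (n : ℝ) - c * P = ((n : ℝ) / P - c) * P := by field_simp
      rw [h4, abs_mul, abs_of_pos hP]
      exact mul_le_mul_of_nonneg_right h2 hP.le
    · right
      refine ⟨hn, ?_⟩
      rw [abs_of_neg (div_neg_of_neg_of_pos h3 hP)] at h2
      have h4 : (n : ℝ) - -(c * P) = -((-((n : ℝ) / P) - c) * P) := by field_simp; ring
      rw [h4, abs_neg, abs_mul, abs_of_pos hP]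
      exact mul_le_mul_of_nonneg_right h2 hP.le
  have hL : 0 ≤ ρ * P := mul_nonneg hρ hP.le
  have h5 := bkc_count (c * P) (ρ * P) hL (S.filter (fun n => |(n : ℝ) - c * P| ≤ ρ * P))
    (fun n hn => (Finset.mem_filter.1 hn).2)
  have h6 := bkc_count (-(c * P)) (ρ * P) hL (S.filter (fun n => |(n : ℝ) - -(c * P)| ≤ ρ * P))
    (fun n hn => (Finset.mem_filter.1 hn).2)
  have h7 := (Finset.card_le_card h1).trans (Finset.card_union_le _ _)
  have h8 : (S.card : ℝ) ≤ ((S.filter (fun n : ℤ => |(n : ℝ) - c * P| ≤ ρ * P)).card : ℝ) +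
      ((S.filter (fun n : ℤ => |(n : ℝ) - -(c * P)| ≤ ρ * P)).card : ℝ) := by exact_mod_cast h7
  linarith

open Classical in
theorem ker_pairs_pr (a b a' δ τ ε : ℝ) (ha : 0 < a) (ha1 : a ≤ 1) (ha' : 0 < a') (ha1' : a' < 1)
    (hδ : 0 < δ) (hδ1 : δ ≤ 1) (hε : 0 < ε) :
    ∃ (n : ℕ) (α β₁ β₂ γ₁ γ₂ A x₀ : Fin n → ℝ) (h : ℝ), 0 < h ∧
    (∀ i, 0 ≤ α i ∧ 0 < β₁ i ∧ β₁ i < β₂ i ∧ β₂ i ≤ 1 ∧ 0 < γ₁ i ∧ γ₁ i < γ₂ i ∧ γ₂ i ≤ 1 ∧
      0 < A i ∧ A i ≤ 1) ∧ ∃ P₀ : ℕ, ∀ P : ℕ, P₀ ≤ P → ∃ Y₀ : ℝ, ∀ Y : ℝ, Y₀ ≤ Y →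
    ∑ w ∈ Cel a' 1 Y, ∑ w' ∈ Cel a' 1 Y,
      |(if Core a b δ τ P Y w w' then 1 / |(det w w' : ℝ)| else 0) -
        (1 / (P : ℝ)) * ∑ i, α i * (if w ∈ Cel (β₁ i) (β₂ i) Y ∧ w' ∈ Cel (γ₁ i) (γ₂ i) Y then
          hat ((A i * (ag w w' * Y / P) - x₀ i) / h) else 0)| ≤ ε * Y := by
  obtain ⟨C₁, hC₁1, hC₁⟩ := pair_tot a' ha'
  obtain ⟨C₂, hC₂1, hC₂⟩ := strip_tot a' ha'
  have hsa : 0 < Real.sqrt a := Real.sqrt_pos.2 ha
  have hsa1 : Real.sqrt a ≤ 1 := by rw [Real.sqrt_le_one]; exact ha1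
  set C₄ : ℝ := 4 / Real.sqrt a with hC₄
  have hC₄1 : 1 ≤ C₄ := by
    rw [hC₄, le_div_iff₀ hsa]
    linarith
  have hC₄0 : 0 < C₄ := by linarith
  have hC₁0 : 0 < C₁ := by linarith
  have hC₂0 : 0 < C₂ := by linarith
  set s₁ : ℝ := Real.sqrt a + τ with hs₁
  set s₂ : ℝ := Real.sqrt b - τ with hs₂
  set ε' : ℝ := ε / (16 * C₄ * C₁) with hε'
  have hε'0 : 0 < ε' := by positivity
  set ρ : ℝ := ε * δ / (32 * C₄ * (C₁ * C₂)) with hρ
  have hρ0 : 0 < ρ := by positivity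
  have hra1 : Real.sqrt a' < 1 := by
    rw [← Real.sqrt_one]
    exact Real.sqrt_lt_sqrt ha'.le ha1'
  obtain ⟨n, α, β₁, β₂, γ₁, γ₂, A, x₀, h, hh, hpar, hK⟩ := bkc_real s₁ s₂ δ C₄ (Real.sqrt a') ρ ε'
    hδ (hδ1.trans hC₄1) (Real.sqrt_pos.2 ha') hra1 hρ0 hε'0
  refine ⟨n, α, β₁, β₂, γ₁, γ₂, A, x₀, h, hh, hpar, ⌈max 1 (16 * C₁ / (δ * ε))⌉₊,
    fun P hP => ?_⟩
  have hPm : max 1 (16 * C₁ / (δ * ε)) ≤ P := (Nat.le_ceil _).trans (by exact_mod_cast hP)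
  have hP1 : (1 : ℝ) ≤ P := (le_max_left _ _).trans hPm
  have hP1' : 1 ≤ P := by exact_mod_cast hP1
  have hP0 : (0 : ℝ) < P := by linarith
  have hPb : 4 * C₁ / (δ * P) ≤ ε / 4 := by
    have h1 := (le_max_right _ _).trans hPm
    rw [div_le_iff₀ (by positivity)] at h1 ⊢
    nlinarith
  have hq1 : ∀ D : ℤ, D ≠ 0 → ∃ Y₀ : ℝ, ∀ Y : ℝ, Y₀ ≤ Y →
    (((Cel a' 1 Y ×ˢ Cel a' 1 Y).filter (fun p => det p.1 p.2 = D ∧
      0 < ip p.1 p.2)).card : ℝ) ≤ C₁ * Y := hC₁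
  have hq2 : ∀ D : ℤ, D ≠ 0 → ∃ Y₀ : ℝ, ∀ Y : ℝ, Y₀ ≤ Y →
    (((Cel a' 1 Y ×ˢ Cel a' 1 Y).filter (fun p => det p.1 p.2 = D ∧ 0 < ip p.1 p.2 ∧
      |Real.sqrt (nn p.1 / Y) - Real.sqrt (nn p.2 / Y) - s₁ * ((D : ℝ) / P)| ≤ ρ)).card : ℝ) ≤
        C₂ * ρ * Y := fun D hD => hC₂ D ρ _ hD hρ0
  have hq3 : ∀ D : ℤ, D ≠ 0 → ∃ Y₀ : ℝ, ∀ Y : ℝ, Y₀ ≤ Y →
    (((Cel a' 1 Y ×ˢ Cel a' 1 Y).filter (fun p => det p.1 p.2 = D ∧ 0 < ip p.1 p.2 ∧
      |Real.sqrt (nn p.1 / Y) - Real.sqrt (nn p.2 / Y) - s₂ * ((D : ℝ) / P)| ≤ ρ)).card : ℝ) ≤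
        C₂ * ρ * Y := fun D hD => hC₂ D ρ _ hD hρ0
  choose! Y1 hY1 using hq1
  choose! Y2 hY2 using hq2
  choose! Y3 hY3 using hq3
  set K : ℤ := ⌊2 * C₄ * P⌋ with hKd
  have hK0 : 0 ≤ K := Int.floor_nonneg.2 (by positivity)
  set Ds : Finset ℤ := (Finset.Icc (-K) K).erase 0 with hDs
  have hDcard : (Ds.card : ℝ) ≤ 4 * C₄ * P := by
    have h1 : Ds.card = (2 * K).toNat := by
      rw [hDs, Finset.card_erase_of_mem (by rw [Finset.mem_Icc]; omega), Int.card_Icc]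
      omega
    have h2 : (Ds.card : ℤ) = 2 * K := by
      rw [h1]
      omega
    have h3 : (Ds.card : ℝ) = 2 * (K : ℝ) := by exact_mod_cast h2
    have h4 : (K : ℝ) ≤ 2 * C₄ * P := Int.floor_le _
    rw [h3]
    linarith
  set M : ℝ := Real.pi * C₄ * P / a' with hM
  refine ⟨max (max 1 M) (max (M ^ 3 / h) (∑ D ∈ Ds, (|Y1 D| + |Y2 D| + |Y3 D|))),
    fun Y hY => ?_⟩
  have hYa : 1 ≤ Y := ((le_max_left _ _).trans (le_max_left _ _)).trans hY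
  have hYb : M ≤ Y := ((le_max_right _ _).trans (le_max_left _ _)).trans hY
  have hYc : M ^ 3 / h ≤ Y := ((le_max_left _ _).trans (le_max_right _ _)).trans hY
  have hYd : ∑ D ∈ Ds, (|Y1 D| + |Y2 D| + |Y3 D|) ≤ Y :=
    ((le_max_right _ _).trans (le_max_right _ _)).trans hY
  have hY0 : 0 < Y := by linarith
  have hYD : ∀ D ∈ Ds, |Y1 D| + |Y2 D| + |Y3 D| ≤ Y := fun D hD =>
    (Finset.single_le_sum (f := fun D => |Y1 D| + |Y2 D| + |Y3 D|)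
      (fun D _ => by positivity) hD).trans hYd
  have hDne : ∀ D ∈ Ds, D ≠ 0 := fun D hD => (Finset.mem_erase.1 hD).1
  set Gf : G × G → ℤ → ℝ := fun p D =>
    (if det p.1 p.2 = D ∧ 0 < ip p.1 p.2 then ε' / P + 1 / (δ * P) *
      ((if |(|(D : ℝ) / P| - δ)| ≤ ρ then 1 else 0) +
        (if |(|(D : ℝ) / P| - C₄)| ≤ ρ then 1 else 0)) else 0) +
    ((if det p.1 p.2 = D ∧ 0 < ip p.1 p.2 ∧
      |Real.sqrt (nn p.1 / Y) - Real.sqrt (nn p.2 / Y) - s₁ * ((D : ℝ) / P)| ≤ ρ then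
        1 / (δ * P) else 0) +
    (if det p.1 p.2 = D ∧ 0 < ip p.1 p.2 ∧
      |Real.sqrt (nn p.1 / Y) - Real.sqrt (nn p.2 / Y) - s₂ * ((D : ℝ) / P)| ≤ ρ then
        1 / (δ * P) else 0)) with hGf
  have hδP : 0 < δ * P := by positivity
  have hG0 : ∀ p D, 0 ≤ Gf p D := by
    intro p D
    simp only [hGf]
    refine add_nonneg ?_ (add_nonneg ?_ ?_)
    · split_ifs <;> positivity
    · split_ifs <;> positivity
    · split_ifs <;> positivity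
  have hpt : ∀ p ∈ Cel a' 1 Y ×ˢ Cel a' 1 Y,
      |(if Core a b δ τ P Y p.1 p.2 then 1 / |(det p.1 p.2 : ℝ)| else 0) -
        (1 / (P : ℝ)) * ∑ i, α i * (if p.1 ∈ Cel (β₁ i) (β₂ i) Y ∧ p.2 ∈ Cel (γ₁ i) (γ₂ i) Y then
          hat ((A i * (ag p.1 p.2 * Y / P) - x₀ i) / h) else 0)| ≤ ∑ D ∈ Ds, Gf p D := by
    intro p hp
    rw [Finset.mem_product] at hp
    refine (bkc_pair (b := b) (τ := τ) ha ha' hδ hh hε'0.le hK hP1' hYa hYb hYc hp.1 hp.2).trans ?_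
    split_ifs with hc hB
    · -- boundary
      have hmem : det p.1 p.2 ∈ Ds := by
        rw [hDs, Finset.mem_erase, Finset.mem_Icc]
        refine ⟨hc.2.1, ?_⟩
        have h1 := abs_le.1 hc.2.2
        have h2 : det p.1 p.2 ≤ K := Int.le_floor.2 h1.2
        have h3 : -det p.1 p.2 ≤ K := Int.le_floor.2 (by push_cast; linarith [h1.1])
        omega
      refine le_trans ?_ (Finset.single_le_sum (f := fun D => Gf p D) (fun D _ => hG0 p D) hmem)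
      rw [hGf]
      beta_reduce
      have hdi : 0 ≤ 1 / (δ * P) := by positivity
      have hn1 : (0 : ℝ) ≤ (if |(|(det p.1 p.2 : ℝ) / P| - δ)| ≤ ρ then 1 else 0) := by
        split_ifs <;> norm_num
      have hn2 : (0 : ℝ) ≤ (if |(|(det p.1 p.2 : ℝ) / P| - C₄)| ≤ ρ then 1 else 0) := by
        split_ifs <;> norm_num
      rw [if_pos (show det p.1 p.2 = det p.1 p.2 ∧ 0 < ip p.1 p.2 from ⟨rfl, hc.1⟩)]
      have hn3 : (0 : ℝ) ≤ (if det p.1 p.2 = det p.1 p.2 ∧ 0 < ip p.1 p.2 ∧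
        |Real.sqrt (nn p.1 / Y) - Real.sqrt (nn p.2 / Y) - s₁ * ((det p.1 p.2 : ℝ) / P)| ≤ ρ then
        1 / (δ * P) else 0) := by split_ifs <;> positivity
      have hn4 : (0 : ℝ) ≤ (if det p.1 p.2 = det p.1 p.2 ∧ 0 < ip p.1 p.2 ∧
        |Real.sqrt (nn p.1 / Y) - Real.sqrt (nn p.2 / Y) - s₂ * ((det p.1 p.2 : ℝ) / P)| ≤ ρ then
        1 / (δ * P) else 0) := by split_ifs <;> positivity
      rcases hB with hB | hB | hB | hB
      · rw [if_pos hB]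
        have := mul_nonneg hdi hn2
        nlinarith
      · rw [if_pos (show |(|(det p.1 p.2 : ℝ) / P| - C₄)| ≤ ρ from hB)]
        have := mul_nonneg hdi hn1
        nlinarith
      · rw [if_pos (show det p.1 p.2 = det p.1 p.2 ∧ 0 < ip p.1 p.2 ∧
          |Real.sqrt (nn p.1 / Y) - Real.sqrt (nn p.2 / Y) - s₁ * ((det p.1 p.2 : ℝ) / P)| ≤ ρ
          from ⟨rfl, hc.1, hB⟩)]
        have h1 := mul_nonneg hdi hn1
        have h2 := mul_nonneg hdi hn2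
        nlinarith
      · rw [if_pos (show det p.1 p.2 = det p.1 p.2 ∧ 0 < ip p.1 p.2 ∧
          |Real.sqrt (nn p.1 / Y) - Real.sqrt (nn p.2 / Y) - s₂ * ((det p.1 p.2 : ℝ) / P)| ≤ ρ
          from ⟨rfl, hc.1, hB⟩)]
        have h1 := mul_nonneg hdi hn1
        have h2 := mul_nonneg hdi hn2
        nlinarith
    · -- away from the boundary
      have hmem : det p.1 p.2 ∈ Ds := by
        rw [hDs, Finset.mem_erase, Finset.mem_Icc]
        refine ⟨hc.2.1, ?_⟩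
        have h1 := abs_le.1 hc.2.2
        have h2 : det p.1 p.2 ≤ K := Int.le_floor.2 h1.2
        have h3 : -det p.1 p.2 ≤ K := Int.le_floor.2 (by push_cast; linarith [h1.1])
        omega
      refine le_trans ?_ (Finset.single_le_sum (f := fun D => Gf p D) (fun D _ => hG0 p D) hmem)
      rw [hGf]
      beta_reduce
      rw [if_pos (show det p.1 p.2 = det p.1 p.2 ∧ 0 < ip p.1 p.2 from ⟨rfl, hc.1⟩), mul_zero,
        add_zero, add_assoc]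
      refine le_add_of_nonneg_right (add_nonneg ?_ (add_nonneg ?_ ?_))
      · refine mul_nonneg (by positivity) (add_nonneg ?_ ?_) <;> split_ifs <;> norm_num
      · split_ifs <;> positivity
      · split_ifs <;> positivity
    · exact Finset.sum_nonneg fun D _ => hG0 p D
  rw [← Finset.sum_product' (s := Cel a' 1 Y) (t := Cel a' 1 Y) (f := fun w w' =>
      |(if Core a b δ τ P Y w w' then 1 / |(det w w' : ℝ)| else 0) -
        (1 / (P : ℝ)) * ∑ i, α i * (if w ∈ Cel (β₁ i) (β₂ i) Y ∧ w' ∈ Cel (γ₁ i) (γ₂ i) Y then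
          hat ((A i * (ag w w' * Y / P) - x₀ i) / h) else 0)|)]
  refine (Finset.sum_le_sum hpt).trans ?_
  rw [Finset.sum_comm]
  set i1 : ℤ → ℝ := fun D => if |(|(D : ℝ) / P| - δ)| ≤ ρ then 1 else 0 with hi1
  set i2 : ℤ → ℝ := fun D => if |(|(D : ℝ) / P| - C₄)| ≤ ρ then 1 else 0 with hi2
  have hi1n : ∀ D, 0 ≤ i1 D := fun D => by simp only [hi1]; split_ifs <;> norm_num
  have hi2n : ∀ D, 0 ≤ i2 D := fun D => by simp only [hi2]; split_ifs <;> norm_num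
  have hD : ∀ D ∈ Ds, ∑ p ∈ Cel a' 1 Y ×ˢ Cel a' 1 Y, Gf p D ≤
      (ε' / P + 1 / (δ * P) * (i1 D + i2 D)) * (C₁ * Y) + 1 / (δ * P) * (2 * (C₂ * ρ * Y)) := by
    intro D hD
    have hne := hDne D hD
    have hYD' := hYD D hD
    have e1 := hY1 D hne Y (by linarith [le_abs_self (Y1 D), abs_nonneg (Y2 D), abs_nonneg (Y3 D)])
    have e2 := hY2 D hne Y (by linarith [le_abs_self (Y2 D), abs_nonneg (Y1 D), abs_nonneg (Y3 D)])
    have e3 := hY3 D hne Y (by linarith [le_abs_self (Y3 D), abs_nonneg (Y1 D), abs_nonneg (Y2 D)])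
    simp only [hGf]
    rw [Finset.sum_add_distrib, Finset.sum_add_distrib, ← Finset.sum_filter, ← Finset.sum_filter,
      ← Finset.sum_filter, Finset.sum_const, Finset.sum_const, Finset.sum_const, nsmul_eq_mul,
      nsmul_eq_mul, nsmul_eq_mul]
    have h1 : 0 ≤ ε' / P + 1 / (δ * P) * (i1 D + i2 D) :=
      add_nonneg (by positivity) (mul_nonneg (by positivity) (add_nonneg (hi1n D) (hi2n D)))
    have h2 : (0 : ℝ) ≤ 1 / (δ * P) := by positivity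
    have g1 := mul_le_mul_of_nonneg_right e1 h1
    have g2 := mul_le_mul_of_nonneg_right e2 h2
    have g3 := mul_le_mul_of_nonneg_right e3 h2
    refine (add_le_add g1 (add_le_add g2 g3)).trans (le_of_eq ?_)
    ring
  refine (Finset.sum_le_sum hD).trans ?_
  have hI1 : ∑ D ∈ Ds, i1 D ≤ 2 * (2 * ρ * P + 1) := by
    simp only [hi1]
    rw [← Finset.sum_filter, Finset.sum_const, nsmul_eq_mul, mul_one]
    exact bkc_count2 δ ρ P hρ0.le hP0 _ (fun n hn => (Finset.mem_filter.1 hn).2)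
  have hI2 : ∑ D ∈ Ds, i2 D ≤ 2 * (2 * ρ * P + 1) := by
    simp only [hi2]
    rw [← Finset.sum_filter, Finset.sum_const, nsmul_eq_mul, mul_one]
    exact bkc_count2 C₄ ρ P hρ0.le hP0 _ (fun n hn => (Finset.mem_filter.1 hn).2)
  have hsum : ∑ D ∈ Ds, ((ε' / P + 1 / (δ * P) * (i1 D + i2 D)) * (C₁ * Y) +
      1 / (δ * P) * (2 * (C₂ * ρ * Y))) =
      (Ds.card : ℝ) * (ε' / P * (C₁ * Y) + 1 / (δ * P) * (2 * (C₂ * ρ * Y))) +
        1 / (δ * P) * (C₁ * Y) * (∑ D ∈ Ds, i1 D + ∑ D ∈ Ds, i2 D) := by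
    rw [← Finset.sum_add_distrib, Finset.mul_sum, ← nsmul_eq_mul, ← Finset.sum_const,
      ← Finset.sum_add_distrib]
    refine Finset.sum_congr rfl fun D _ => ?_
    ring
  rw [hsum]
  have hx1 : (Ds.card : ℝ) * (ε' / P * (C₁ * Y) + 1 / (δ * P) * (2 * (C₂ * ρ * Y))) ≤
      4 * C₄ * P * (ε' / P * (C₁ * Y) + 1 / (δ * P) * (2 * (C₂ * ρ * Y))) :=
    mul_le_mul_of_nonneg_right hDcard (by positivity)
  have hx2 : 1 / (δ * P) * (C₁ * Y) * (∑ D ∈ Ds, i1 D + ∑ D ∈ Ds, i2 D) ≤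
      1 / (δ * P) * (C₁ * Y) * (4 * (2 * ρ * P + 1)) :=
    mul_le_mul_of_nonneg_left (by linarith) (by positivity)
  refine (add_le_add hx1 hx2).trans ?_
  have t1 : 4 * C₄ * P * (ε' / P * (C₁ * Y)) = ε / 4 * Y := by
    rw [hε']
    field_simp
    ring
  have t2 : 4 * C₄ * P * (1 / (δ * P) * (2 * (C₂ * ρ * Y))) ≤ ε / 4 * Y := by
    have h1 : 4 * C₄ * P * (1 / (δ * P) * (2 * (C₂ * ρ * Y))) = ε / 4 * Y / C₁ := by
      rw [hρ]
      field_simp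
      ring
    rw [h1]
    exact div_le_self (by positivity) hC₁1
  have t3 : 1 / (δ * P) * (C₁ * Y) * (4 * (2 * ρ * P)) ≤ ε / 4 * Y := by
    have h1 : 1 / (δ * P) * (C₁ * Y) * (4 * (2 * ρ * P)) = ε / 4 * Y / (C₄ * C₂) := by
      rw [hρ]
      field_simp
      ring
    rw [h1]
    refine div_le_self (by positivity) ?_
    nlinarith
  have t4 : 1 / (δ * P) * (C₁ * Y) * 4 ≤ ε / 4 * Y := by
    have h1 : 1 / (δ * P) * (C₁ * Y) * 4 = 4 * C₁ / (δ * P) * Y := by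
      field_simp
    rw [h1]
    exact mul_le_mul_of_nonneg_right hPb hY0.le
  calc _ = 4 * C₄ * P * (ε' / P * (C₁ * Y)) + 4 * C₄ * P * (1 / (δ * P) * (2 * (C₂ * ρ * Y))) +
        1 / (δ * P) * (C₁ * Y) * (4 * (2 * ρ * P)) + 1 / (δ * P) * (C₁ * Y) * 4 := by ring
    _ ≤ ε * Y := by linarith

end Pool.Agent.T2


namespace Pool.Agent.T2

theorem ker_pairs : type_of% @ker_pairs_pr := @ker_pairs_pr

end Pool.Agent.T2
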