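import Pool.Agent.Lib_helper10.T2.DefsB
import Pool.Agent.Lib_helper10.T2F.BHM
import Pool.Agent.Lib_helper10.T2F.BKC

/-!
# T2, block BCM: the main term is small
-/

namespace Pool.Agent.T2

open Filter Topology

open Classical in
/-- the function of the residue classes -/
noncomputable def bcm_A (B : Finset ℕ) (R₀ R₁ : ℕ) (u v : G) : ℝ :=
  (Nat.totient (Nat.gcd (det u v).natAbs R₀.factorial) : ℝ) *
    (∑ r ∈ (Finset.Icc 1 R₁).filter (fun r => Squarefree r ∧ r ∣ (det u v).natAbs),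
      1 / (Nat.totient r : ℝ)) *
    NP B ((Nat.gcd (det u v).natAbs R₀.factorial : ℕ) : ℤ) u v

theorem bcm_MT (B : Finset ℕ) (R₀ R₁ : ℕ) (w w' : G) :
    MT B R₀ R₁ w w' = bcm_A B R₀ R₁ w w' * (1 / |(det w w' : ℝ)|) := by
  unfold MT trn bcm_A
  have h : (((det w w').natAbs : ℕ) : ℝ) = |(det w w' : ℝ)| := by
    rw [Nat.cast_natAbs, Int.cast_abs]
  rw [h]
  ring

theorem bcm_NP_le (B : Finset ℕ) (D : ℤ) (w w' : G) : NP B D w w' ≤ (B.card : ℝ) ^ 2 := by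
  classical
  unfold NP
  have h := Finset.card_filter_le (B ×ˢ B)
    (fun t => (D : G) ∣ (t.2 : G) * w - (t.1 : G) * w')
  rw [Finset.card_product] at h
  have h2 : ((((B ×ˢ B).filter (fun t => (D : G) ∣ (t.2 : G) * w - (t.1 : G) * w')).card : ℕ) : ℝ) ≤
      ((B.card * B.card : ℕ) : ℝ) := by exact_mod_cast h
  push_cast at h2
  rw [sq]
  exact h2

theorem bcm_A_nonneg (B : Finset ℕ) (R₀ R₁ : ℕ) (u v : G) : 0 ≤ bcm_A B R₀ R₁ u v := by
  unfold bcm_A NP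
  positivity

theorem bcm_A_le (B : Finset ℕ) (R₀ R₁ : ℕ) (u v : G) :
    bcm_A B R₀ R₁ u v ≤ (R₀.factorial * R₁ : ℝ) * (B.card : ℝ) ^ 2 := by
  classical
  unfold bcm_A
  have h1 : (Nat.totient (Nat.gcd (det u v).natAbs R₀.factorial) : ℝ) ≤ R₀.factorial := by
    have h2 := Nat.totient_le (Nat.gcd (det u v).natAbs R₀.factorial)
    have h3 := Nat.le_of_dvd (Nat.factorial_pos R₀)
      (Nat.gcd_dvd_right (det u v).natAbs R₀.factorial)
    exact_mod_cast h2.trans h3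
  have h2 : (∑ r ∈ (Finset.Icc 1 R₁).filter (fun r => Squarefree r ∧ r ∣ (det u v).natAbs),
      1 / (Nat.totient r : ℝ)) ≤ R₁ := by
    calc (∑ r ∈ (Finset.Icc 1 R₁).filter (fun r => Squarefree r ∧ r ∣ (det u v).natAbs),
        1 / (Nat.totient r : ℝ)) ≤ ∑ r ∈ Finset.Icc 1 R₁, (1 : ℝ) := by
          refine (Finset.sum_le_sum_of_subset_of_nonneg (Finset.filter_subset _ _)
            fun r _ _ => by positivity).trans ?_
          refine Finset.sum_le_sum fun r hr => ?_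
          have hr1 : 1 ≤ r := (Finset.mem_Icc.1 hr).1
          have h3 : (1 : ℝ) ≤ Nat.totient r := by exact_mod_cast Nat.totient_pos.mpr hr1
          rw [div_le_one (by linarith)]
          exact h3
      _ = R₁ := by rw [Finset.sum_const, Nat.card_Icc, nsmul_eq_mul, mul_one, Nat.add_sub_cancel]
  refine mul_le_mul (mul_le_mul h1 h2 ?_ (Nat.cast_nonneg _)) (bcm_NP_le _ _ _ _) ?_ ?_
  · exact Finset.sum_nonneg fun r _ => by positivity
  · unfold NP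
    positivity
  · positivity

theorem bcm_dvd {M : ℕ} {z : G} : (M : G) ∣ z ↔ (M : ℤ) ∣ z.re ∧ (M : ℤ) ∣ z.im := by
  have h := Zsqrtd.intCast_dvd (M : ℤ) z
  rw [Int.cast_natCast] at h
  exact h

/-- the determinants modulo `M` -/
theorem bcm_det {M : ℕ} {u v u₀ v₀ : G} (hu : (M : G) ∣ u - u₀) (hv : (M : G) ∣ v - v₀) :
    (M : ℤ) ∣ det u v - det u₀ v₀ := by
  rw [bcm_dvd] at hu hv
  obtain ⟨⟨a, ha⟩, ⟨b, hb⟩⟩ := hu
  obtain ⟨⟨c, hc⟩, ⟨d, hd⟩⟩ := hv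
  rw [Zsqrtd.re_sub] at ha hc
  rw [Zsqrtd.im_sub] at hb hd
  refine ⟨a * v.im + u₀.re * d - b * v.re - u₀.im * c, ?_⟩
  unfold det
  have e1 : u.re = u₀.re + M * a := by linarith
  have e2 : u.im = u₀.im + M * b := by linarith
  have e3 : v.re = v₀.re + M * c := by linarith
  have e4 : v.im = v₀.im + M * d := by linarith
  rw [e1, e2, e3, e4]
  ring

theorem bcm_dvd_iff {M r : ℕ} (hr : r ∣ M) {D D₀ : ℤ} (h : (M : ℤ) ∣ D - D₀) :
    r ∣ D.natAbs ↔ r ∣ D₀.natAbs := by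
  have h1 : (r : ℤ) ∣ D - D₀ := (Int.natCast_dvd_natCast.2 hr).trans h
  rw [← Int.natCast_dvd, ← Int.natCast_dvd]
  exact dvd_iff_dvd_of_dvd_sub h1

theorem bcm_gcd {M R : ℕ} (hR : R ∣ M) {D D₀ : ℤ} (h : (M : ℤ) ∣ D - D₀) :
    Nat.gcd D.natAbs R = Nat.gcd D₀.natAbs R := by
  refine Nat.dvd_antisymm (Nat.dvd_gcd ?_ (Nat.gcd_dvd_right _ _))
    (Nat.dvd_gcd ?_ (Nat.gcd_dvd_right _ _))
  · rw [← bcm_dvd_iff ((Nat.gcd_dvd_right _ _).trans hR) h]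
    exact Nat.gcd_dvd_left _ _
  · rw [bcm_dvd_iff ((Nat.gcd_dvd_right _ _).trans hR) h]
    exact Nat.gcd_dvd_left _ _

theorem bcm_A_per (B : Finset ℕ) {R₀ R₁ : ℕ} (hR : R₀ ≤ R₁) {u v u₀ v₀ : G}
    (hu : (R₁.factorial : G) ∣ u - u₀) (hv : (R₁.factorial : G) ∣ v - v₀) :
    bcm_A B R₀ R₁ u v = bcm_A B R₀ R₁ u₀ v₀ := by
  classical
  have hD := bcm_det hu hv
  have hg := bcm_gcd (Nat.factorial_dvd_factorial hR) hD
  unfold bcm_A
  rw [hg]
  congr 1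
  · congr 1
    refine Finset.sum_congr (Finset.filter_congr fun r hr => ?_) fun _ _ => rfl
    rw [Finset.mem_Icc] at hr
    have h1 : r ∣ R₁.factorial := Nat.dvd_factorial hr.1 hr.2
    rw [bcm_dvd_iff h1 hD]
  · set g := Nat.gcd (det u₀ v₀).natAbs R₀.factorial with hgdef
    have hgM : g ∣ R₁.factorial :=
      (Nat.gcd_dvd_right _ _).trans (Nat.factorial_dvd_factorial hR)
    have hgG : (((g : ℕ) : ℤ) : G) ∣ (R₁.factorial : G) := by
      rw [Int.cast_natCast]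
      obtain ⟨k, hk⟩ := hgM
      exact ⟨(k : G), by rw [hk, Nat.cast_mul]⟩
    unfold NP
    congr 2
    refine Finset.filter_congr fun t _ => ?_
    have h1 : (((g : ℕ) : ℤ) : G) ∣ ((t.2 : G) * u - (t.1 : G) * v) -
        ((t.2 : G) * u₀ - (t.1 : G) * v₀) := by
      have e : ((t.2 : G) * u - (t.1 : G) * v) - ((t.2 : G) * u₀ - (t.1 : G) * v₀) =
        (t.2 : G) * (u - u₀) - (t.1 : G) * (v - v₀) := by ring
      rw [e]
      exact dvd_sub ((hgG.trans hu).mul_left _) ((hgG.trans hv).mul_left _)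
    exact dvd_iff_dvd_of_dvd_sub h1

/-- the residue class -/
def bcm_cl (M : ℕ) (w : G) : G := ⟨w.re % M, w.im % M⟩

/-- representatives -/
noncomputable def bcm_rep (M : ℕ) : Finset G :=
  ((Finset.range M) ×ˢ (Finset.range M)).map
    ⟨fun p => (⟨p.1, p.2⟩ : G), fun p q h => by
      have h1 := congrArg Zsqrtd.re h
      have h2 := congrArg Zsqrtd.im h
      simp only at h1 h2
      exact Prod.ext (by exact_mod_cast h1) (by exact_mod_cast h2)⟩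

theorem bcm_cl_mem {M : ℕ} (hM : 0 < M) (w : G) : bcm_cl M w ∈ bcm_rep M := by
  unfold bcm_rep
  rw [Finset.mem_map]
  have hM' : (0 : ℤ) < M := by exact_mod_cast hM
  have h1 := Int.emod_nonneg w.re hM'.ne'
  have h2 := Int.emod_lt_of_pos w.re hM'
  have h3 := Int.emod_nonneg w.im hM'.ne'
  have h4 := Int.emod_lt_of_pos w.im hM'
  refine ⟨((w.re % M).toNat, (w.im % M).toNat), ?_, ?_⟩
  · rw [Finset.mem_product, Finset.mem_range, Finset.mem_range]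
    constructor
    · simp only
      omega
    · simp only
      omega
  · show (⟨(((w.re % M).toNat : ℕ) : ℤ), (((w.im % M).toNat : ℕ) : ℤ)⟩ : G) = bcm_cl M w
    rw [Int.toNat_of_nonneg h1, Int.toNat_of_nonneg h3]
    rfl

theorem bcm_cl_dvd (M : ℕ) (w : G) : (M : G) ∣ w - bcm_cl M w := by
  rw [bcm_dvd]
  refine ⟨?_, ?_⟩
  · rw [Zsqrtd.re_sub]
    exact Int.dvd_self_sub_emod
  · rw [Zsqrtd.im_sub]
    exact Int.dvd_self_sub_emod

theorem bcm_cl_iff {M : ℕ} (hM : 0 < M) {c : G} (hc : c ∈ bcm_rep M) (w : G) :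
    bcm_cl M w = c ↔ (M : G) ∣ w - c := by
  constructor
  · rintro rfl
    exact bcm_cl_dvd M w
  · intro h
    unfold bcm_rep at hc
    rw [Finset.mem_map] at hc
    obtain ⟨⟨p, q⟩, hpq, rfl⟩ := hc
    rw [Finset.mem_product, Finset.mem_range, Finset.mem_range] at hpq
    simp only at hpq
    rw [bcm_dvd] at h
    obtain ⟨h1, h2⟩ := h
    have h1' : (M : ℤ) ∣ w.re - (p : ℤ) := h1
    have h2' : (M : ℤ) ∣ w.im - (q : ℤ) := h2
    have hp1 : ((p : ℕ) : ℤ) < M := by exact_mod_cast hpq.1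
    have hq1 : ((q : ℕ) : ℤ) < M := by exact_mod_cast hpq.2
    have e1 : w.re % M = (p : ℤ) := by
      obtain ⟨k, hk⟩ := h1'
      have e : w.re = (p : ℤ) + M * k := by linarith
      rw [e, Int.add_mul_emod_self_left, Int.emod_eq_of_lt (by positivity) hp1]
    have e2 : w.im % M = (q : ℤ) := by
      obtain ⟨k, hk⟩ := h2'
      have e : w.im = (q : ℤ) + M * k := by linarith
      rw [e, Int.add_mul_emod_self_left, Int.emod_eq_of_lt (by positivity) hq1]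
    show (⟨w.re % M, w.im % M⟩ : G) = ⟨(p : ℤ), (q : ℤ)⟩
    rw [e1, e2]

open Classical in
/-- the double sum over residue classes with the hat function -/
noncomputable def bcm_H (M : ℕ) (c c' : G) (β₁ β₂ γ₁ γ₂ A x₀ h : ℝ) (P : ℕ) (Y : ℝ) : ℝ :=
  ∑ w ∈ (Cel β₁ β₂ Y).filter (fun w => (M : G) ∣ w - c),
    ∑ w' ∈ (Cel γ₁ γ₂ Y).filter (fun w' => (M : G) ∣ w' - c'),
      gl w * gl w' * hat ((A * (ag w w' * Y / P) - x₀) / h)

theorem bcm_cel_inter (a' b' β₁ β₂ Y : ℝ) (w : G) :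
    w ∈ Cel a' b' Y ∧ w ∈ Cel β₁ β₂ Y ↔ 0 < Y ∧ w ∈ Cel (max a' β₁) (min b' β₂) Y ∨
      ¬ 0 < Y ∧ w ∈ Cel a' b' Y ∧ w ∈ Cel β₁ β₂ Y := by
  classical
  by_cases hY : 0 < Y
  · unfold Cel
    simp only [Finset.mem_filter, hY, true_and, not_true, false_and, or_false]
    constructor
    · rintro ⟨⟨h1, h2, h3⟩, -, h4, h5⟩
      refine ⟨h1, ?_, ?_⟩
      · rw [max_mul_of_nonneg _ _ hY.le]
        exact max_lt h2 h4
      · rw [min_mul_of_nonneg _ _ hY.le]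
        exact le_min h3 h5
    · rintro ⟨h1, h2, h3⟩
      rw [max_mul_of_nonneg _ _ hY.le, max_lt_iff] at h2
      rw [min_mul_of_nonneg _ _ hY.le, le_min_iff] at h3
      exact ⟨⟨h1, h2.1, h3.1⟩, h1, h2.2, h3.2⟩
  · simp [hY]

open Classical in
/-- the sum with the kernel, split into residue classes -/
theorem bcm_split (B : Finset ℕ) {R₀ R₁ : ℕ} (hR : R₀ ≤ R₁) (a' b' β₁ β₂ γ₁ γ₂ A x₀ h : ℝ)
    (P : ℕ) (Y : ℝ) (hY : 0 < Y) :
    ∑ w ∈ Cel a' b' Y, ∑ w' ∈ Cel a' b' Y, gl w * gl w' * bcm_A B R₀ R₁ w w' *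
      (if w ∈ Cel β₁ β₂ Y ∧ w' ∈ Cel γ₁ γ₂ Y then
        hat ((A * (ag w w' * Y / P) - x₀) / h) else 0) =
    ∑ c ∈ bcm_rep R₁.factorial, ∑ c' ∈ bcm_rep R₁.factorial, bcm_A B R₀ R₁ c c' *
      bcm_H R₁.factorial c c' (max a' β₁) (min b' β₂) (max a' γ₁) (min b' γ₂) A x₀ h P Y := by
  have hM : 0 < R₁.factorial := Nat.factorial_pos R₁
  set S := Cel (max a' β₁) (min b' β₂) Y with hS
  set S' := Cel (max a' γ₁) (min b' γ₂) Y with hS'
  set F : G → G → ℝ := fun w w' => gl w * gl w' * bcm_A B R₀ R₁ w w' *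
    hat ((A * (ag w w' * Y / P) - x₀) / h) with hF
  have h1 : ∑ w ∈ Cel a' b' Y, ∑ w' ∈ Cel a' b' Y, gl w * gl w' * bcm_A B R₀ R₁ w w' *
      (if w ∈ Cel β₁ β₂ Y ∧ w' ∈ Cel γ₁ γ₂ Y then
        hat ((A * (ag w w' * Y / P) - x₀) / h) else 0) = ∑ w ∈ S, ∑ w' ∈ S', F w w' := by
    have e1 : S = (Cel a' b' Y).filter (fun w => w ∈ Cel β₁ β₂ Y) := by
      ext w
      rw [Finset.mem_filter, bcm_cel_inter]
      simp [hY, hS]
    have e2 : S' = (Cel a' b' Y).filter (fun w => w ∈ Cel γ₁ γ₂ Y) := by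
      ext w
      rw [Finset.mem_filter, bcm_cel_inter]
      simp [hY, hS']
    rw [e1, e2, Finset.sum_filter]
    refine Finset.sum_congr rfl fun w _ => ?_
    split_ifs with hw
    · rw [Finset.sum_filter]
      refine Finset.sum_congr rfl fun w' _ => ?_
      by_cases hw' : w' ∈ Cel γ₁ γ₂ Y
      · rw [if_pos ⟨hw, hw'⟩, if_pos hw']
      · rw [if_neg (fun h => hw' h.2), if_neg hw', mul_zero]
    · refine Finset.sum_eq_zero fun w' _ => ?_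
      rw [if_neg (fun h => hw h.1), mul_zero]
  rw [h1]
  have hfib : ∀ (T : Finset G) (f : G → ℝ), ∑ w ∈ T, f w =
      ∑ c ∈ bcm_rep R₁.factorial, ∑ w ∈ T.filter (fun w => (R₁.factorial : G) ∣ w - c), f w := by
    intro T f
    rw [← Finset.sum_fiberwise_of_maps_to (g := bcm_cl R₁.factorial)
      (t := bcm_rep R₁.factorial) (fun w _ => bcm_cl_mem hM w)]
    refine Finset.sum_congr rfl fun c hc => ?_
    refine Finset.sum_congr (Finset.filter_congr fun w _ => bcm_cl_iff hM hc w) fun _ _ => rfl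
  rw [hfib S]
  refine Finset.sum_congr rfl fun c hc => ?_
  have h2 : ∀ w ∈ S.filter (fun w => (R₁.factorial : G) ∣ w - c), ∑ w' ∈ S', F w w' =
      ∑ c' ∈ bcm_rep R₁.factorial, ∑ w' ∈ S'.filter (fun w' => (R₁.factorial : G) ∣ w' - c'),
        F w w' := fun w _ => hfib S' (F w)
  rw [Finset.sum_congr rfl h2, Finset.sum_comm]
  refine Finset.sum_congr rfl fun c' hc' => ?_
  unfold bcm_H
  rw [Finset.mul_sum]
  refine Finset.sum_congr rfl fun w hw => ?_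
  rw [Finset.mul_sum]
  refine Finset.sum_congr rfl fun w' hw' => ?_
  rw [Finset.mem_filter] at hw hw'
  simp only [hF]
  rw [bcm_A_per B hR hw.2 hw'.2]
  ring

theorem bcm_gl (z : G) : |gl z| ≤ 1 := by
  unfold gl lam
  split_ifs
  · simp
  · rw [abs_pow, abs_neg, abs_one, one_pow]

theorem bcm_sub {a' b' Y : ℝ} (hb : b' ≤ 1) (hY : 0 ≤ Y) : Cel a' b' Y ⊆ Cel a' 1 Y := by
  classical
  intro w hw
  unfold Cel at hw ⊢
  rw [Finset.mem_filter] at hw ⊢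
  refine ⟨hw.1, hw.2.1, hw.2.2.trans ?_⟩
  exact mul_le_mul_of_nonneg_right hb hY

open Classical in
/-- the kernel -/
noncomputable def bcm_ker {n : ℕ} (α β₁ β₂ γ₁ γ₂ A x₀ : Fin n → ℝ) (h : ℝ) (P : ℕ) (Y : ℝ)
    (w w' : G) : ℝ :=
  (1 / (P : ℝ)) * ∑ i, α i * (if w ∈ Cel (β₁ i) (β₂ i) Y ∧ w' ∈ Cel (γ₁ i) (γ₂ i) Y then
    hat ((A i * (ag w w' * Y / P) - x₀ i) / h) else 0)

open Classical in
/-- the error of the approximation -/
noncomputable def bcm_E (a b a' δ τ : ℝ) {n : ℕ} (α β₁ β₂ γ₁ γ₂ A x₀ : Fin n → ℝ) (h : ℝ)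
    (P : ℕ) (Y : ℝ) : ℝ :=
  ∑ w ∈ Cel a' 1 Y, ∑ w' ∈ Cel a' 1 Y,
    |(if Core a b δ τ P Y w w' then 1 / |(det w w' : ℝ)| else 0) -
      bcm_ker α β₁ β₂ γ₁ γ₂ A x₀ h P Y w w'|

open Classical in
theorem bcm_one (a b a' b' δ τ : ℝ) {R₀ R₁ : ℕ} (hb' : b' ≤ 1) (hR : R₀ ≤ R₁)
    {n : ℕ} (α β₁ β₂ γ₁ γ₂ A x₀ : Fin n → ℝ) (hα : ∀ i, 0 ≤ α i) (h : ℝ) (P : ℕ) (B : Finset ℕ)
    (Y : ℝ) (hY : 0 < Y) :
    |∑ w ∈ Cel a' b' Y, ∑ w' ∈ (Cel a' b' Y).filter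
      (fun w' => Core a b δ τ P Y w w'), gl w * gl w' * MT B R₀ R₁ w w'| ≤
    ((R₀.factorial * R₁ : ℝ) * (B.card : ℝ) ^ 2) * (bcm_E a b a' δ τ α β₁ β₂ γ₁ γ₂ A x₀ h P Y +
      ∑ i, α i * ∑ c ∈ bcm_rep R₁.factorial, ∑ c' ∈ bcm_rep R₁.factorial,
        ((1 / (P : ℝ)) * |bcm_H R₁.factorial c c' (max a' (β₁ i)) (min b' (β₂ i))
          (max a' (γ₁ i)) (min b' (γ₂ i)) (A i) (x₀ i) h P Y|)) := by
  set U : ℝ := (R₀.factorial * R₁ : ℝ) * (B.card : ℝ) ^ 2 with hU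
  have hU0 : 0 ≤ U := by positivity
  set cv : G → G → ℝ := fun w w' =>
    if Core a b δ τ P Y w w' then 1 / |(det w w' : ℝ)| else 0 with hcv
  set kr : G → G → ℝ := bcm_ker α β₁ β₂ γ₁ γ₂ A x₀ h P Y with hkr
  have h1 : ∑ w ∈ Cel a' b' Y, ∑ w' ∈ (Cel a' b' Y).filter
      (fun w' => Core a b δ τ P Y w w'), gl w * gl w' * MT B R₀ R₁ w w' =
      ∑ w ∈ Cel a' b' Y, ∑ w' ∈ Cel a' b' Y, gl w * gl w' * bcm_A B R₀ R₁ w w' *
        (cv w w' - kr w w') +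
      ∑ w ∈ Cel a' b' Y, ∑ w' ∈ Cel a' b' Y, gl w * gl w' * bcm_A B R₀ R₁ w w' * kr w w' := by
    rw [← Finset.sum_add_distrib]
    refine Finset.sum_congr rfl fun w _ => ?_
    rw [← Finset.sum_add_distrib, Finset.sum_filter]
    refine Finset.sum_congr rfl fun w' _ => ?_
    simp only [hcv]
    split_ifs with hc
    · rw [bcm_MT]
      ring
    · ring
  have h2 : |∑ w ∈ Cel a' b' Y, ∑ w' ∈ Cel a' b' Y, gl w * gl w' * bcm_A B R₀ R₁ w w' *
        (cv w w' - kr w w')| ≤ U * bcm_E a b a' δ τ α β₁ β₂ γ₁ γ₂ A x₀ h P Y := by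
    calc |∑ w ∈ Cel a' b' Y, ∑ w' ∈ Cel a' b' Y, gl w * gl w' * bcm_A B R₀ R₁ w w' *
          (cv w w' - kr w w')|
        ≤ ∑ w ∈ Cel a' b' Y, ∑ w' ∈ Cel a' b' Y, U * |cv w w' - kr w w'| := by
          refine (Finset.abs_sum_le_sum_abs _ _).trans (Finset.sum_le_sum fun w _ => ?_)
          refine (Finset.abs_sum_le_sum_abs _ _).trans (Finset.sum_le_sum fun w' _ => ?_)
          rw [abs_mul, abs_mul, abs_mul, abs_of_nonneg (bcm_A_nonneg B R₀ R₁ w w')]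
          refine mul_le_mul_of_nonneg_right ?_ (abs_nonneg _)
          have e1 : |gl w| * |gl w'| ≤ 1 := mul_le_one₀ (bcm_gl w) (abs_nonneg _) (bcm_gl w')
          calc |gl w| * |gl w'| * bcm_A B R₀ R₁ w w' ≤ 1 * bcm_A B R₀ R₁ w w' :=
                mul_le_mul_of_nonneg_right e1 (bcm_A_nonneg _ _ _ _ _)
            _ ≤ U := by
                rw [one_mul]
                exact bcm_A_le B R₀ R₁ w w'
      _ ≤ ∑ w ∈ Cel a' 1 Y, ∑ w' ∈ Cel a' 1 Y, U * |cv w w' - kr w w'| := by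
          have hs := bcm_sub (a' := a') hb' hY.le
          refine (Finset.sum_le_sum fun w _ => Finset.sum_le_sum_of_subset_of_nonneg hs
            fun _ _ _ => mul_nonneg hU0 (abs_nonneg _)).trans ?_
          exact Finset.sum_le_sum_of_subset_of_nonneg hs fun w _ _ =>
            Finset.sum_nonneg fun _ _ => mul_nonneg hU0 (abs_nonneg _)
      _ = U * bcm_E a b a' δ τ α β₁ β₂ γ₁ γ₂ A x₀ h P Y := by
          unfold bcm_E
          rw [Finset.mul_sum]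
          refine Finset.sum_congr rfl fun w _ => ?_
          rw [Finset.mul_sum]
  have h3 : ∑ w ∈ Cel a' b' Y, ∑ w' ∈ Cel a' b' Y, gl w * gl w' * bcm_A B R₀ R₁ w w' *
      kr w w' = ∑ i, α i * ∑ c ∈ bcm_rep R₁.factorial, ∑ c' ∈ bcm_rep R₁.factorial,
        ((1 / (P : ℝ)) * (bcm_A B R₀ R₁ c c' * bcm_H R₁.factorial c c' (max a' (β₁ i))
          (min b' (β₂ i)) (max a' (γ₁ i)) (min b' (γ₂ i)) (A i) (x₀ i) h P Y)) := by
    have e1 : ∀ i, α i * ∑ c ∈ bcm_rep R₁.factorial, ∑ c' ∈ bcm_rep R₁.factorial,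
        ((1 / (P : ℝ)) * (bcm_A B R₀ R₁ c c' * bcm_H R₁.factorial c c' (max a' (β₁ i))
          (min b' (β₂ i)) (max a' (γ₁ i)) (min b' (γ₂ i)) (A i) (x₀ i) h P Y)) =
        ∑ w ∈ Cel a' b' Y, ∑ w' ∈ Cel a' b' Y, α i * ((1 / (P : ℝ)) *
          (gl w * gl w' * bcm_A B R₀ R₁ w w' *
            (if w ∈ Cel (β₁ i) (β₂ i) Y ∧ w' ∈ Cel (γ₁ i) (γ₂ i) Y then
              hat ((A i * (ag w w' * Y / P) - x₀ i) / h) else 0))) := by
      intro i
      have e2 := bcm_split B hR a' b' (β₁ i) (β₂ i) (γ₁ i) (γ₂ i) (A i) (x₀ i) h P Y hY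
      simp only [← Finset.mul_sum]
      rw [← e2]
    symm
    rw [Finset.sum_congr rfl (fun i (_ : i ∈ (Finset.univ : Finset (Fin n))) => e1 i),
      Finset.sum_comm]
    refine Finset.sum_congr rfl fun w _ => ?_
    rw [Finset.sum_comm]
    refine Finset.sum_congr rfl fun w' _ => ?_
    simp only [hkr, bcm_ker]
    rw [Finset.mul_sum, Finset.mul_sum]
    refine Finset.sum_congr rfl fun i _ => ?_
    ring
  have h4 : |∑ w ∈ Cel a' b' Y, ∑ w' ∈ Cel a' b' Y, gl w * gl w' * bcm_A B R₀ R₁ w w' *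
      kr w w'| ≤ U * ∑ i, α i * ∑ c ∈ bcm_rep R₁.factorial, ∑ c' ∈ bcm_rep R₁.factorial,
        ((1 / (P : ℝ)) * |bcm_H R₁.factorial c c' (max a' (β₁ i)) (min b' (β₂ i))
          (max a' (γ₁ i)) (min b' (γ₂ i)) (A i) (x₀ i) h P Y|) := by
    rw [h3, Finset.mul_sum]
    refine (Finset.abs_sum_le_sum_abs _ _).trans (Finset.sum_le_sum fun i _ => ?_)
    rw [abs_mul, abs_of_nonneg (hα i), mul_left_comm]
    refine mul_le_mul_of_nonneg_left ?_ (hα i)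
    rw [Finset.mul_sum]
    refine (Finset.abs_sum_le_sum_abs _ _).trans (Finset.sum_le_sum fun c _ => ?_)
    rw [Finset.mul_sum]
    refine (Finset.abs_sum_le_sum_abs _ _).trans (Finset.sum_le_sum fun c' _ => ?_)
    rw [abs_mul, abs_mul, abs_of_nonneg (bcm_A_nonneg B R₀ R₁ c c'), mul_left_comm,
      abs_of_nonneg (by positivity : (0 : ℝ) ≤ 1 / (P : ℝ))]
    refine mul_le_mul_of_nonneg_right (bcm_A_le B R₀ R₁ c c') (by positivity)
  rw [h1]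
  refine (abs_add_le _ _).trans ?_
  rw [mul_add]
  exact add_le_add h2 h4

theorem bcm_cel_empty {a b Y : ℝ} (hY : 0 ≤ Y) (h : b ≤ a) : Cel a b Y = ∅ := by
  classical
  rw [Finset.eq_empty_iff_forall_notMem]
  intro w hw
  unfold Cel at hw
  rw [Finset.mem_filter] at hw
  have := mul_le_mul_of_nonneg_right h hY
  linarith [hw.2.1, hw.2.2]

/-- the sums with the hat function -/
theorem bcm_hat (m : ℕ) (hm : 1 ≤ m) (c c' : G) (a' b' β₁ β₂ γ₁ γ₂ A x₀ h ε : ℝ)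
    (ha' : 0 < a') (hb' : b' ≤ 1) (hA : 0 < A) (hh : 0 < h) (hε : 0 < ε) :
    ∀ᶠ P : ℕ in atTop, ∀ᶠ X : ℝ in atTop, ∑ Y ∈ Finset.Icc 1 ⌊X⌋₊, (1 / (P : ℝ)) *
      |bcm_H m c c' (max a' β₁) (min b' β₂) (max a' γ₁) (min b' γ₂) A x₀ h P Y| / (Y : ℝ) ^ 2 ≤
      ε * Real.log X := by
  classical
  by_cases h1 : max a' β₁ < min b' β₂
  · by_cases h2 : max a' γ₁ < min b' γ₂
    · obtain ⟨P₀, hP⟩ := hat_small m hm c c' (max a' β₁) (min b' β₂) (max a' γ₁) (min b' γ₂)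
        A x₀ h ε (lt_max_of_lt_left ha') h1 ((min_le_left _ _).trans hb')
        (lt_max_of_lt_left ha') h2 ((min_le_left _ _).trans hb') hA hh hε
      filter_upwards [eventually_ge_atTop P₀] with P hPP
      obtain ⟨X₀, hX⟩ := hP P hPP
      filter_upwards [eventually_ge_atTop X₀] with X hXX
      exact hX X hXX
    · refine Eventually.of_forall fun P => ?_
      filter_upwards [eventually_ge_atTop 1] with X hX
      have h3 : ∑ Y ∈ Finset.Icc 1 ⌊X⌋₊, (1 / (P : ℝ)) *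
        |bcm_H m c c' (max a' β₁) (min b' β₂) (max a' γ₁) (min b' γ₂) A x₀ h P Y| /
          (Y : ℝ) ^ 2 = 0 := by
        refine Finset.sum_eq_zero fun Y _ => ?_
        unfold bcm_H
        rw [bcm_cel_empty (Nat.cast_nonneg Y) (not_lt.1 h2)]
        simp
      rw [h3]
      exact mul_nonneg hε.le (Real.log_nonneg hX)
  · refine Eventually.of_forall fun P => ?_
    filter_upwards [eventually_ge_atTop 1] with X hX
    have h3 : ∑ Y ∈ Finset.Icc 1 ⌊X⌋₊, (1 / (P : ℝ)) *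
      |bcm_H m c c' (max a' β₁) (min b' β₂) (max a' γ₁) (min b' γ₂) A x₀ h P Y| /
        (Y : ℝ) ^ 2 = 0 := by
      refine Finset.sum_eq_zero fun Y _ => ?_
      unfold bcm_H
      rw [bcm_cel_empty (Nat.cast_nonneg Y) (not_lt.1 h1)]
      simp
    rw [h3]
    exact mul_nonneg hε.le (Real.log_nonneg hX)

/-- the sum of the errors -/
theorem bcm_log (E : ℕ → ℝ) (e : ℝ) (he : 0 < e) (Y₀ : ℝ)
    (hE : ∀ Y : ℕ, Y₀ ≤ Y → E Y ≤ e * Y) : ∀ᶠ X : ℝ in atTop,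
    ∑ Y ∈ Finset.Icc 1 ⌊X⌋₊, E Y / (Y : ℝ) ^ 2 ≤ 2 * e * Real.log X := by
  set N := ⌈Y₀⌉₊ with hN
  set K := ∑ Y ∈ Finset.Icc 1 N, |E Y / (Y : ℝ) ^ 2| with hK
  have hlog : Tendsto (fun X : ℝ => e * Real.log X) atTop atTop :=
    Real.tendsto_log_atTop.const_mul_atTop he
  filter_upwards [hlog.eventually_ge_atTop (K + e), eventually_ge_atTop 1] with X hX hX1
  have h1 : ∀ Y ∈ Finset.Icc 1 ⌊X⌋₊, E Y / (Y : ℝ) ^ 2 ≤
      (if Y ≤ N then |E Y / (Y : ℝ) ^ 2| else 0) + e * (1 / (Y : ℝ)) := by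
    intro Y hY
    have hY1 : 1 ≤ Y := (Finset.mem_Icc.1 hY).1
    have hY0 : (0 : ℝ) < Y := by exact_mod_cast hY1
    split_ifs with hYN
    · have := le_abs_self (E Y / (Y : ℝ) ^ 2)
      have h2 : 0 ≤ e * (1 / (Y : ℝ)) := by positivity
      linarith
    · have h2 : Y₀ ≤ Y := by
        have h3 := Nat.le_ceil Y₀
        have h4 : ((N : ℕ) : ℝ) ≤ Y := by exact_mod_cast (not_le.1 hYN).le
        linarith
      have h3 := hE Y h2
      rw [zero_add, div_le_iff₀ (by positivity)]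
      calc E Y ≤ e * Y := h3
        _ = e * (1 / (Y : ℝ)) * (Y : ℝ) ^ 2 := by field_simp
  refine (Finset.sum_le_sum h1).trans ?_
  rw [Finset.sum_add_distrib, ← Finset.mul_sum]
  have h2 : ∑ Y ∈ Finset.Icc 1 ⌊X⌋₊, (if Y ≤ N then |E Y / (Y : ℝ) ^ 2| else 0) ≤ K := by
    rw [← Finset.sum_filter]
    refine Finset.sum_le_sum_of_subset_of_nonneg ?_ fun _ _ _ => abs_nonneg _
    intro Y hY
    rw [Finset.mem_filter, Finset.mem_Icc] at hY
    rw [Finset.mem_Icc]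
    exact ⟨hY.1.1, hY.2⟩
  have h3 : ∑ Y ∈ Finset.Icc 1 ⌊X⌋₊, 1 / (Y : ℝ) ≤ 1 + Real.log X := by
    have h4 := harmonic_floor_le_one_add_log X hX1
    have h5 : ((harmonic ⌊X⌋₊ : ℚ) : ℝ) = ∑ Y ∈ Finset.Icc 1 ⌊X⌋₊, 1 / (Y : ℝ) := by
      rw [harmonic_eq_sum_Icc]
      push_cast
      refine Finset.sum_congr rfl fun Y _ => ?_
      rw [one_div]
    rw [← h5]
    exact h4
  nlinarith

open Classical in
theorem core_small_pr (a b a' b' δ τ ε : ℝ) (R₀ R₁ : ℕ) (ha : 0 < a) (hab : a < b) (hb : b ≤ 1)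
    (ha' : 0 < a') (hab' : a' < b') (hb' : b' ≤ 1) (hδ : 0 < δ) (hδ1 : δ ≤ 1) (hR : R₀ ≤ R₁)
    (hε : 0 < ε) : ∃ P₀ : ℕ, ∀ P : ℕ, P₀ ≤ P → ∀ B : Finset ℕ, ∃ X₀ : ℝ, ∀ X : ℝ, X₀ ≤ X →
    ∑ Y ∈ Finset.Icc 1 ⌊X⌋₊, |∑ w ∈ Cel a' b' Y, ∑ w' ∈ (Cel a' b' Y).filter
      (fun w' => Core a b δ τ P Y w w'), gl w * gl w' * MT B R₀ R₁ w w'| / (Y : ℝ) ^ 2 ≤
      ε * (B.card : ℝ) ^ 2 * Real.log X := by
  set U : ℝ := (R₀.factorial * R₁ : ℝ) with hU
  have hU0 : 0 ≤ U := by positivity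
  set ε₁ : ℝ := ε / (4 * (U + 1)) with hε₁
  have hε₁0 : 0 < ε₁ := by positivity
  obtain ⟨n, α, β₁, β₂, γ₁, γ₂, A, x₀, h, hh, hpar, Pk, hk⟩ :=
    ker_pairs a b a' δ τ ε₁ ha (by linarith) ha' (by linarith) hδ hδ1 hε₁0
  have hα : ∀ i, 0 ≤ α i := fun i => (hpar i).1
  have hα0 : 0 ≤ ∑ i, α i := Finset.sum_nonneg fun i _ => hα i
  set Rp := bcm_rep R₁.factorial with hRp
  set ε₂ : ℝ := ε / (2 * (U + 1) * (∑ i, α i + 1) * ((Rp.card : ℝ) ^ 2 + 1)) with hε₂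
  have hε₂0 : 0 < ε₂ := by positivity
  have hev : ∀ᶠ P : ℕ in atTop, ∀ t ∈ (Finset.univ : Finset (Fin n)) ×ˢ Rp ×ˢ Rp,
      ∀ᶠ X : ℝ in atTop, ∑ Y ∈ Finset.Icc 1 ⌊X⌋₊, (1 / (P : ℝ)) *
        |bcm_H R₁.factorial t.2.1 t.2.2 (max a' (β₁ t.1)) (min b' (β₂ t.1)) (max a' (γ₁ t.1))
          (min b' (γ₂ t.1)) (A t.1) (x₀ t.1) h P Y| / (Y : ℝ) ^ 2 ≤ ε₂ * Real.log X := by
    rw [Filter.eventually_all_finset]
    intro t _
    exact bcm_hat R₁.factorial (Nat.factorial_pos R₁) t.2.1 t.2.2 a' b' _ _ _ _ _ _ h ε₂ ha' hb'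
      (hpar t.1).2.2.2.2.2.2.2.1 hh hε₂0
  obtain ⟨P₁, hP₁⟩ := eventually_atTop.1 hev
  refine ⟨max Pk P₁, fun P hP B => ?_⟩
  obtain ⟨Y₀, hY₀⟩ := hk P ((le_max_left _ _).trans hP)
  have h1 := hP₁ P ((le_max_right _ _).trans hP)
  have h2 : ∀ᶠ X : ℝ in atTop, ∀ t ∈ (Finset.univ : Finset (Fin n)) ×ˢ Rp ×ˢ Rp,
      ∑ Y ∈ Finset.Icc 1 ⌊X⌋₊, (1 / (P : ℝ)) *
        |bcm_H R₁.factorial t.2.1 t.2.2 (max a' (β₁ t.1)) (min b' (β₂ t.1)) (max a' (γ₁ t.1))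
          (min b' (γ₂ t.1)) (A t.1) (x₀ t.1) h P Y| / (Y : ℝ) ^ 2 ≤ ε₂ * Real.log X := by
    rw [Filter.eventually_all_finset]
    exact h1
  have h3 := bcm_log (fun Y => bcm_E a b a' δ τ α β₁ β₂ γ₁ γ₂ A x₀ h P Y) ε₁ hε₁0 Y₀
    (fun Y hY => hY₀ Y hY)
  obtain ⟨X₀, hX₀⟩ := eventually_atTop.1 (h2.and (h3.and (eventually_ge_atTop 1)))
  refine ⟨X₀, fun X hX => ?_⟩
  obtain ⟨hH, hE, hX1⟩ := hX₀ X hX
  have hl : 0 ≤ Real.log X := Real.log_nonneg hX1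
  set V : ℝ := U * (B.card : ℝ) ^ 2 with hV
  have hV0 : 0 ≤ V := by positivity
  calc ∑ Y ∈ Finset.Icc 1 ⌊X⌋₊, |∑ w ∈ Cel a' b' Y, ∑ w' ∈ (Cel a' b' Y).filter
          (fun w' => Core a b δ τ P Y w w'), gl w * gl w' * MT B R₀ R₁ w w'| / (Y : ℝ) ^ 2
      ≤ ∑ Y ∈ Finset.Icc 1 ⌊X⌋₊, (V * (bcm_E a b a' δ τ α β₁ β₂ γ₁ γ₂ A x₀ h P Y +
      ∑ i, α i * ∑ c ∈ Rp, ∑ c' ∈ Rp,
        ((1 / (P : ℝ)) * |bcm_H R₁.factorial c c' (max a' (β₁ i)) (min b' (β₂ i))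
          (max a' (γ₁ i)) (min b' (γ₂ i)) (A i) (x₀ i) h P Y|))) / (Y : ℝ) ^ 2 := by
        refine Finset.sum_le_sum fun Y hY => ?_
        have hY1 : 1 ≤ Y := (Finset.mem_Icc.1 hY).1
        have hY0 : (0 : ℝ) < Y := by exact_mod_cast hY1
        exact div_le_div_of_nonneg_right
          (bcm_one a b a' b' δ τ hb' hR α β₁ β₂ γ₁ γ₂ A x₀ hα h P B Y hY0) (by positivity)
    _ = V * (∑ Y ∈ Finset.Icc 1 ⌊X⌋₊, bcm_E a b a' δ τ α β₁ β₂ γ₁ γ₂ A x₀ h P Y / (Y : ℝ) ^ 2 +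
        ∑ i, α i * ∑ c ∈ Rp, ∑ c' ∈ Rp, ∑ Y ∈ Finset.Icc 1 ⌊X⌋₊,
        ((1 / (P : ℝ)) * |bcm_H R₁.factorial c c' (max a' (β₁ i)) (min b' (β₂ i))
          (max a' (γ₁ i)) (min b' (γ₂ i)) (A i) (x₀ i) h P Y| / (Y : ℝ) ^ 2)) := by
        have e1 : ∑ i, α i * ∑ c ∈ Rp, ∑ c' ∈ Rp, ∑ Y ∈ Finset.Icc 1 ⌊X⌋₊,
          ((1 / (P : ℝ)) * |bcm_H R₁.factorial c c' (max a' (β₁ i)) (min b' (β₂ i))
            (max a' (γ₁ i)) (min b' (γ₂ i)) (A i) (x₀ i) h P Y| / (Y : ℝ) ^ 2) =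
            ∑ Y ∈ Finset.Icc 1 ⌊X⌋₊, ∑ i, α i * ∑ c ∈ Rp, ∑ c' ∈ Rp,
          ((1 / (P : ℝ)) * |bcm_H R₁.factorial c c' (max a' (β₁ i)) (min b' (β₂ i))
            (max a' (γ₁ i)) (min b' (γ₂ i)) (A i) (x₀ i) h P Y| / (Y : ℝ) ^ 2) := by
          rw [Finset.sum_comm]
          refine Finset.sum_congr rfl fun i _ => ?_
          rw [← Finset.mul_sum]
          congr 1
          symm
          rw [Finset.sum_comm]
          refine Finset.sum_congr rfl fun c _ => ?_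
          exact Finset.sum_comm
        rw [e1, ← Finset.sum_add_distrib, Finset.mul_sum]
        refine Finset.sum_congr rfl fun Y _ => ?_
        rw [mul_div_assoc, add_div, Finset.sum_div]
        congr 2
        refine Finset.sum_congr rfl fun i _ => ?_
        rw [mul_div_assoc, Finset.sum_div]
        congr 1
        refine Finset.sum_congr rfl fun c _ => ?_
        rw [Finset.sum_div]
    _ ≤ V * (2 * ε₁ * Real.log X + ∑ i, α i * ∑ c ∈ Rp, ∑ c' ∈ Rp, ε₂ * Real.log X) := by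
        refine mul_le_mul_of_nonneg_left (add_le_add hE ?_) hV0
        refine Finset.sum_le_sum fun i _ => mul_le_mul_of_nonneg_left ?_ (hα i)
        refine Finset.sum_le_sum fun c hc => Finset.sum_le_sum fun c' hc' => ?_
        exact hH (i, c, c') (Finset.mem_product.2 ⟨Finset.mem_univ _,
          Finset.mem_product.2 ⟨hc, hc'⟩⟩)
    _ = V * (2 * ε₁ + (∑ i, α i) * ((Rp.card : ℝ) ^ 2) * ε₂) * Real.log X := by
        simp only [Finset.sum_const, nsmul_eq_mul]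
        rw [← Finset.sum_mul]
        ring
    _ ≤ ε * (B.card : ℝ) ^ 2 * Real.log X := by
        refine mul_le_mul_of_nonneg_right ?_ hl
        have e1 : U * (2 * ε₁) ≤ ε / 2 := by
          have : U / (U + 1) ≤ 1 := by
            rw [div_le_one (by linarith)]
            linarith
          calc U * (2 * ε₁) = U / (U + 1) * (ε / 2) := by
                rw [hε₁]
                field_simp
                ring
            _ ≤ 1 * (ε / 2) := by gcongr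
            _ = ε / 2 := one_mul _
        have e2 : U * ((∑ i, α i) * ((Rp.card : ℝ) ^ 2) * ε₂) ≤ ε / 2 := by
          set a1 := ∑ i, α i
          set r2 := (Rp.card : ℝ) ^ 2
          have hr2 : 0 ≤ r2 := by positivity
          have f1 : U / (U + 1) ≤ 1 := by
            rw [div_le_one (by linarith)]
            linarith
          have f2 : a1 / (a1 + 1) ≤ 1 := by
            rw [div_le_one (by linarith)]
            linarith
          have f3 : r2 / (r2 + 1) ≤ 1 := by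
            rw [div_le_one (by linarith)]
            linarith
          calc U * (a1 * r2 * ε₂) = (U / (U + 1)) * (a1 / (a1 + 1)) * (r2 / (r2 + 1)) * (ε / 2) := by
                rw [hε₂]
                field_simp
            _ ≤ 1 * 1 * 1 * (ε / 2) := by gcongr
            _ = ε / 2 := by ring
        calc V * (2 * ε₁ + (∑ i, α i) * ((Rp.card : ℝ) ^ 2) * ε₂) =
            (U * (2 * ε₁) + U * ((∑ i, α i) * ((Rp.card : ℝ) ^ 2) * ε₂)) * (B.card : ℝ) ^ 2 := by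
              rw [hV]
              ring
          _ ≤ (ε / 2 + ε / 2) * (B.card : ℝ) ^ 2 := by
              refine mul_le_mul_of_nonneg_right (add_le_add e1 e2) (by positivity)
          _ = ε * (B.card : ℝ) ^ 2 := by ring

end Pool.Agent.T2


namespace Pool.Agent.T2

theorem core_small : type_of% @core_small_pr := @core_small_pr

end Pool.Agent.T2
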