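import Pool.Agent.Lib_helper10.T2.DefsB
import Pool.Agent.Lib_helper10.T2F.BAS
import Pool.Agent.Lib_helper10.T2F.CNT

/-! Block BCS of package B: Cauchy-Schwarz. -/

set_option autoImplicit false

namespace Pool.Agent.T2

open Filter Topology Finset

open Classical in
/-- the condition on the pair -/
def bcs_c (B : Finset ℕ) (u w : G) : Prop := 0 < ip u w ∧ ∃ p ∈ B, det u w = (p : ℤ)

open Classical in
/-- the inner sum -/
noncomputable def bcs_T (a' b' : ℝ) (B : Finset ℕ) (Y : ℝ) (u : G) : ℝ :=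
  ∑ w ∈ Cel a' b' Y, if bcs_c B u w then gl w else 0

theorem cs_bound_pr : ∃ C : ℝ, 1 ≤ C ∧ ∀ (a b a' b' : ℝ) (B : Finset ℕ) (Y : ℝ), 1 ≤ Y →
    BQ a b a' b' B Y ^ 2 ≤ C * Y * ∑ w ∈ Cel a' b' Y, ∑ w' ∈ Cel a' b' Y,
      gl w * gl w' * NN a b B Y w w' := by
  classical
  obtain ⟨C, hC, hball⟩ := ball_le
  refine ⟨C, hC, fun a b a' b' B Y hY => ?_⟩
  set U : Finset G := (Bl Y).filter (fun u => a * Y < (nn u : ℝ) ∧ (nn u : ℝ) ≤ b * Y) with hU
  have hsub : Cel a b Y ⊆ U := by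
    intro u hu
    unfold Cel PB at hu
    rw [Finset.mem_filter, Finset.mem_filter] at hu
    rw [hU, Finset.mem_filter]
    exact ⟨hu.1.1, hu.2⟩
  have hcard : ((Cel a b Y).card : ℝ) ≤ C * Y := by
    refine le_trans ?_ (hball Y (by linarith))
    have h1 : Cel a b Y ⊆ Bl Y := hsub.trans (Finset.filter_subset _ _)
    exact_mod_cast Finset.card_le_card h1
  have hBQ : BQ a b a' b' B Y = ∑ u ∈ Cel a b Y, gl u * bcs_T a' b' B Y u := by
    unfold BQ bcs_T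
    refine Finset.sum_congr rfl fun u _ => ?_
    rw [Finset.sum_filter, Finset.mul_sum]
    refine Finset.sum_congr rfl fun w _ => ?_
    unfold bcs_c
    split_ifs <;> simp
  have hcs : (∑ u ∈ Cel a b Y, gl u * bcs_T a' b' B Y u) ^ 2 ≤
      (∑ u ∈ Cel a b Y, gl u ^ 2) * ∑ u ∈ Cel a b Y, bcs_T a' b' B Y u ^ 2 :=
    Finset.sum_mul_sq_le_sq_mul_sq _ _ _
  have hgl : ∑ u ∈ Cel a b Y, gl u ^ 2 ≤ C * Y := by
    calc ∑ u ∈ Cel a b Y, gl u ^ 2 ≤ ∑ u ∈ Cel a b Y, (1 : ℝ) := by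
          refine Finset.sum_le_sum fun u _ => ?_
          rw [← sq_abs]
          exact pow_le_one₀ (abs_nonneg _) (gl_abs u)
      _ = ((Cel a b Y).card : ℝ) := by simp
      _ ≤ C * Y := hcard
  have hT : ∑ u ∈ Cel a b Y, bcs_T a' b' B Y u ^ 2 ≤ ∑ u ∈ U, bcs_T a' b' B Y u ^ 2 :=
    Finset.sum_le_sum_of_subset_of_nonneg hsub fun _ _ _ => sq_nonneg _
  have hexp : ∑ u ∈ U, bcs_T a' b' B Y u ^ 2 = ∑ w ∈ Cel a' b' Y, ∑ w' ∈ Cel a' b' Y,
      gl w * gl w' * NN a b B Y w w' := by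
    have h1 : ∀ u, bcs_T a' b' B Y u ^ 2 = ∑ w ∈ Cel a' b' Y, ∑ w' ∈ Cel a' b' Y,
        gl w * gl w' * (if bcs_c B u w ∧ bcs_c B u w' then 1 else 0) := by
      intro u
      unfold bcs_T
      rw [sq, Finset.sum_mul_sum]
      refine Finset.sum_congr rfl fun w _ => Finset.sum_congr rfl fun w' _ => ?_
      by_cases h : bcs_c B u w <;> by_cases h' : bcs_c B u w' <;> simp [h, h']
    simp_rw [h1]
    rw [Finset.sum_comm]
    refine Finset.sum_congr rfl fun w _ => ?_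
    rw [Finset.sum_comm]
    refine Finset.sum_congr rfl fun w' _ => ?_
    rw [← Finset.mul_sum]
    congr 1
    rw [Finset.sum_boole]
    unfold NN
    congr 1
    rw [hU, Finset.filter_filter]
    congr 1
    apply Finset.filter_congr
    intro u _
    unfold bcs_c
    tauto
  rw [hBQ]
  refine hcs.trans ?_
  calc _ ≤ (C * Y) * ∑ u ∈ Cel a b Y, bcs_T a' b' B Y u ^ 2 :=
        mul_le_mul_of_nonneg_right hgl (Finset.sum_nonneg fun _ _ => sq_nonneg _)
    _ ≤ (C * Y) * ∑ u ∈ U, bcs_T a' b' B Y u ^ 2 :=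
        mul_le_mul_of_nonneg_left hT (by positivity)
    _ = _ := by rw [hexp]

end Pool.Agent.T2


namespace Pool.Agent.T2

theorem cs_bound : type_of% @cs_bound_pr := @cs_bound_pr

end Pool.Agent.T2
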