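import Pool.Agent.Lib_helper10.T2.DefsB
import Pool.Agent.Lib_helper10.T2F.BAS

/-! T2, block BG1: geometry, soft part -/

namespace Pool.Agent.T2

open Filter Topology

theorem bg1_cramer (u w w' : G) :
    ((det w w' : ℤ) : G) * u = ((det u w' : ℤ) : G) * w - ((det u w : ℤ) : G) * w' := by
  apply Zsqrtd.ext
  · simp [det]
    ring
  · simp [det]
    ring

theorem bg1_ip (u w w' : G) : (nn u : ℤ) * ip w w' = ip u w * ip u w' + det u w * det u w' := by
  rw [nn_cast]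
  unfold ip det
  ring

theorem nn_le_np_pr (a b : ℝ) (B : Finset ℕ) (Y : ℝ) (w w' : G) (hD : det w w' ≠ 0) :
    NN a b B Y w w' ≤ NP B (det w w') w w' := by
  classical
  unfold NN NP
  rw [Nat.cast_le]
  refine Finset.card_le_card_of_injOn (fun u => ((det u w).toNat, (det u w').toNat)) ?_ ?_
  · intro u hu
    simp only [Finset.coe_filter, Set.mem_ofPred_eq] at hu
    obtain ⟨-, -, -, -, -, ⟨p, hp, hpu⟩, ⟨p', hp', hpu'⟩⟩ := hu
    simp only [Finset.coe_filter, Set.mem_ofPred_eq, Finset.mem_product, hpu, hpu', Int.toNat_natCast]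
    refine ⟨⟨hp, hp'⟩, ⟨u, ?_⟩⟩
    have h := bg1_cramer u w w'
    rw [hpu, hpu'] at h
    rw [h]
    push_cast
    rfl
  · intro u hu v hv h
    simp only [Finset.coe_filter, Set.mem_ofPred_eq] at hu hv
    obtain ⟨-, -, -, -, -, ⟨p, hp, hpu⟩, ⟨p', hp', hpu'⟩⟩ := hu
    obtain ⟨-, -, -, -, -, ⟨q, hq, hqv⟩, ⟨q', hq', hqv'⟩⟩ := hv
    simp only [Prod.mk.injEq, hpu, hpu', hqv, hqv', Int.toNat_natCast] at h
    obtain ⟨rfl, rfl⟩ := h
    have h1 := bg1_cramer u w w'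
    have h2 := bg1_cramer v w w'
    rw [hpu, hpu'] at h1
    rw [hqv, hqv'] at h2
    have h3 : ((det w w' : ℤ) : G) * u = ((det w w' : ℤ) : G) * v := by rw [h1, h2]
    exact mul_left_cancel₀ (by exact_mod_cast hD) h3

theorem nn_far_pr (a b : ℝ) (ha : 0 < a) (B : Finset ℕ) (P : ℕ) (hB : ∀ p ∈ B, p ≤ 2 * P) (Y : ℝ)
    (hY : 0 < Y) (w w' : G) (hw : (nn w : ℝ) ≤ Y) (hw' : (nn w' : ℝ) ≤ Y)
    (hD : 4 / Real.sqrt a * P < |(det w w' : ℝ)|) : NN a b B Y w w' = 0 := by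
  classical
  unfold NN
  rw [Nat.cast_eq_zero, Finset.card_eq_zero, Finset.filter_eq_empty_iff]
  rintro u - ⟨hua, -, -, -, ⟨p, hp, hpu⟩, ⟨p', hp', hpu'⟩⟩
  have h := bg1_cramer u w w'
  rw [hpu, hpu'] at h
  have h1 : ‖(((det w w' : ℤ) : G) * u : G) |>.toComplex‖ ≤ 4 * P * Real.sqrt Y := by
    rw [h]
    have e : (((((p' : ℕ) : ℤ) : G) * w - (((p : ℕ) : ℤ) : G) * w' : G)).toComplex =
        (p' : ℂ) * w.toComplex - (p : ℂ) * w'.toComplex := by
      rw [map_sub, map_mul, map_mul]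
      congr 1
      · congr 1
        exact map_intCast GaussianInt.toComplex _ |>.trans (by push_cast; rfl)
      · congr 1
        exact map_intCast GaussianInt.toComplex _ |>.trans (by push_cast; rfl)
    rw [e]
    have hn : ∀ {z : G}, (nn z : ℝ) ≤ Y → ‖z.toComplex‖ ≤ Real.sqrt Y := by
      intro z hz
      rw [nn_norm] at hz
      exact Real.le_sqrt_of_sq_le hz
    have hP : ∀ {q : ℕ}, q ∈ B → (q : ℝ) ≤ 2 * P := fun hq => by exact_mod_cast hB _ hq
    calc ‖(p' : ℂ) * w.toComplex - (p : ℂ) * w'.toComplex‖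
        ≤ ‖(p' : ℂ) * w.toComplex‖ + ‖(p : ℂ) * w'.toComplex‖ := norm_sub_le _ _
      _ = p' * ‖w.toComplex‖ + p * ‖w'.toComplex‖ := by
          rw [norm_mul, norm_mul, Complex.norm_natCast, Complex.norm_natCast]
      _ ≤ (2 * P) * Real.sqrt Y + (2 * P) * Real.sqrt Y := by
          refine add_le_add ?_ ?_
          · exact mul_le_mul (hP hp') (hn hw) (norm_nonneg _) (by positivity)
          · exact mul_le_mul (hP hp) (hn hw') (norm_nonneg _) (by positivity)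
      _ = 4 * P * Real.sqrt Y := by ring
  have h2 : ‖(((det w w' : ℤ) : G) * u : G) |>.toComplex‖ = |(det w w' : ℝ)| * ‖u.toComplex‖ := by
    rw [map_mul, norm_mul, map_intCast, Complex.norm_intCast]
  have h3 : Real.sqrt a * Real.sqrt Y < ‖u.toComplex‖ := by
    rw [← Real.sqrt_mul ha.le, Real.sqrt_lt' (by
      rw [nn_norm] at hua
      have : 0 < a * Y := mul_pos ha hY
      have h5 : 0 < ‖u.toComplex‖ ^ 2 := this.trans hua
      exact lt_of_le_of_ne (norm_nonneg _) (fun h0 => by rw [← h0] at h5; simp at h5))]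
    rw [nn_norm] at hua
    exact hua
  have hsa : 0 < Real.sqrt a := Real.sqrt_pos.2 ha
  have hsY : 0 < Real.sqrt Y := Real.sqrt_pos.2 hY
  have h4 : 0 < |(det w w' : ℝ)| := lt_of_le_of_lt (by positivity) hD
  rw [h2] at h1
  have h5 : |(det w w' : ℝ)| * (Real.sqrt a * Real.sqrt Y) < 4 * P * Real.sqrt Y :=
    lt_of_lt_of_le (mul_lt_mul_of_pos_left h3 h4) h1
  have h6 : 4 * P * Real.sqrt Y < |(det w w' : ℝ)| * (Real.sqrt a * Real.sqrt Y) := by
    have h7 : 4 * (P : ℝ) < |(det w w' : ℝ)| * Real.sqrt a := by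
      rw [div_mul_eq_mul_div, div_lt_iff₀ hsa] at hD
      exact hD
    calc 4 * P * Real.sqrt Y < (|(det w w' : ℝ)| * Real.sqrt a) * Real.sqrt Y :=
          mul_lt_mul_of_pos_right h7 hsY
      _ = |(det w w' : ℝ)| * (Real.sqrt a * Real.sqrt Y) := by ring
  exact lt_irrefl _ (h5.trans h6)

theorem nn_ip_pr (a b : ℝ) (B : Finset ℕ) (Y : ℝ) (w w' : G) (h : NN a b B Y w w' ≠ 0) :
    0 < ip w w' := by
  classical
  unfold NN at h
  rw [Nat.cast_ne_zero, ← Nat.pos_iff_ne_zero, Finset.card_pos] at h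
  obtain ⟨u, hu⟩ := h
  rw [Finset.mem_filter] at hu
  obtain ⟨-, -, -, h1, h2, ⟨p, hp, hpu⟩, ⟨p', hp', hpu'⟩⟩ := hu
  have h3 := bg1_ip u w w'
  rw [hpu, hpu'] at h3
  have h4 : 0 < (nn u : ℤ) * ip w w' := by
    rw [h3]
    have := mul_pos h1 h2
    positivity
  by_contra hc
  exact absurd h4 (not_lt.2 (mul_nonpos_of_nonneg_of_nonpos (Int.natCast_nonneg _) (not_lt.1 hc)))

end Pool.Agent.T2


namespace Pool.Agent.T2

theorem nn_le_np : type_of% @nn_le_np_pr := @nn_le_np_pr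
theorem nn_far : type_of% @nn_far_pr := @nn_far_pr
theorem nn_ip : type_of% @nn_ip_pr := @nn_ip_pr

end Pool.Agent.T2
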