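import Pool.Agent.Lib_helper10.T2.DefsB
import Pool.Agent.Lib_helper10.T2F.BAS
import Pool.Agent.Lib_helper10.T2F.BG1

/-! T2, block BG2: geometry, strips and core -/

namespace Pool.Agent.T2

open Filter Topology

theorem bg2_mem {η : ℝ} {P p : ℕ} (h : p ∈ QP η P) : (P : ℝ) < p ∧ (p : ℝ) ≤ (1 + η) * P := by
  unfold QP pr1 at h
  rw [Finset.mem_filter] at h
  exact ⟨h.2.2.2.1, h.2.2.2.2⟩

theorem bg2_id1 (u w w' : G) : (nn u : ℤ) * det w w' ^ 2 =
    det u w' ^ 2 * nn w + det u w ^ 2 * nn w' - 2 * det u w * det u w' * ip w w' := by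
  rw [nn_cast, nn_cast, nn_cast]
  unfold det ip
  ring

theorem bg2_id2 (u w w' : G) : ip u w * det w w' = det u w' * nn w - det u w * ip w w' := by
  rw [nn_cast]
  unfold det ip
  ring

theorem bg2_id3 (u w w' : G) : ip u w' * det w w' = det u w' * ip w w' - det u w * nn w' := by
  rw [nn_cast]
  unfold det ip
  ring

/-- the excess -/
theorem bg2_e {a' Y r r' i D : ℝ} (ha' : 0 < a') (hY : 0 < Y) (hr : √a' ≤ r) (hr' : √a' ≤ r')
    (hi : 0 < i) (hD : D ≠ 0) (h : (r * r' * Y) ^ 2 = i ^ 2 + D ^ 2) :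
    ∃ e : ℝ, 0 ≤ e ∧ e * (a' * Y) ≤ 1 ∧ i = r * r' * Y - e * D ^ 2 := by
  have hs : 0 < √a' := Real.sqrt_pos.mpr ha'
  have hss : √a' * √a' = a' := Real.mul_self_sqrt ha'.le
  have hrr : a' ≤ r * r' := by
    rw [← hss]; exact mul_le_mul hr hr' hs.le (hs.le.trans hr)
  have hG : a' * Y ≤ r * r' * Y := mul_le_mul_of_nonneg_right hrr hY.le
  have haY : 0 < a' * Y := mul_pos ha' hY
  have hD2 : 0 < D ^ 2 := by positivity
  have hiG : i < r * r' * Y := by
    by_contra hc
    rw [not_lt] at hc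
    nlinarith
  refine ⟨(r * r' * Y - i) / D ^ 2, div_nonneg (by linarith) hD2.le, ?_, ?_⟩
  · rw [div_mul_eq_mul_div, div_le_one hD2]
    have : (r * r' * Y - i) * (r * r' * Y + i) = D ^ 2 := by nlinarith
    rw [← this]
    exact mul_le_mul_of_nonneg_left (by linarith) (by linarith)
  · field_simp
    ring

/-- the comparison of `S` and `sr` -/
theorem bg2_S {η P D p p' r r' : ℝ} (hP : 0 < P) (hη : 0 < η) (hp : P ≤ p)
    (hp2 : p ≤ (1 + η) * P) (hp' : P ≤ p') (hp2' : p' ≤ (1 + η) * P) (hr : 0 ≤ r) (hr1 : r ≤ 1)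
    (hr' : 0 ≤ r') (hr1' : r' ≤ 1) :
    |(p' * r - p * r') / D - (r - r') * P / D| ≤ η * P / |D| := by
  rw [← sub_div, abs_div]
  apply div_le_div_of_nonneg_right _ (abs_nonneg D)
  have e : p' * r - p * r' - (r - r') * P = (p' - P) * r - (p - P) * r' := by ring
  rw [e, abs_le]
  have h1 : 0 ≤ (p' - P) * r := mul_nonneg (by linarith) hr
  have h2 : 0 ≤ (p - P) * r' := mul_nonneg (by linarith) hr'
  have h3 : (p' - P) * r ≤ η * P := by
    calc (p' - P) * r ≤ (η * P) * 1 := mul_le_mul (by linarith) hr1 hr (by positivity)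
      _ = η * P := mul_one _
  have h4 : (p - P) * r' ≤ η * P := by
    calc (p - P) * r' ≤ (η * P) * 1 := mul_le_mul (by linarith) hr1' hr' (by positivity)
      _ = η * P := mul_one _
  constructor <;> linarith

theorem bg2_q1 {s t a S : ℝ} (hs : 0 < s) (ht : 0 < t) (hss : s * s = a) (hS : 0 < S)
    (h : S < s - t) (h2 : a < S ^ 2 + t * s) : False := by
  have h3 : S ^ 2 < (s - t) ^ 2 := pow_lt_pow_left₀ h hS.le (by norm_num)
  have h4 : t * t < t * s := mul_lt_mul_of_pos_left (by linarith) ht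
  have h5 : (s - t) ^ 2 = s * s - 2 * (t * s) + t * t := by ring
  linarith

theorem bg2_q2 {s t a S : ℝ} (hs : 0 < s) (ht : 0 < t) (hss : s * s = a) (h : s + t ≤ S) :
    a < S ^ 2 := by
  have h3 : s ^ 2 < S ^ 2 := pow_lt_pow_left₀ (by linarith) hs.le (by norm_num)
  have h4 : s ^ 2 = s * s := by ring
  linarith

theorem bg2_q3 {s t r b S : ℝ} (hs : 0 < s) (hsr : s ≤ r) (ht : 0 < t) (hrr : r * r = b)
    (hS : 0 < S) (h : S ≤ r - t) : S ^ 2 + t * s ≤ b := by
  have h3 : S ^ 2 ≤ (r - t) ^ 2 := pow_le_pow_left₀ hS.le h 2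
  have h4 : t * t ≤ t * r := mul_le_mul_of_nonneg_left (by linarith) ht.le
  have h6 : t * s ≤ t * r := mul_le_mul_of_nonneg_left hsr ht.le
  have h5 : (r - t) ^ 2 = r * r - 2 * (t * r) + t * t := by ring
  linarith

theorem nn_core_pr (a b a' η δ : ℝ) (ha : 0 < a) (hab : a < b) (hb : b ≤ 1) (ha' : 0 < a')
    (hη : 0 < η) (hη1 : η ≤ 1) (hδ : 0 < δ) (P : ℕ) (hP : 1 ≤ P) : ∃ Y₀ : ℝ, ∀ Y : ℝ, Y₀ ≤ Y →
    ∀ w ∈ Cel a' 1 Y, ∀ w' ∈ Cel a' 1 Y, δ * P < |(det w w' : ℝ)| →
      (NN a b (QP η P) Y w w' ≠ 0 → Real.sqrt a - 2 * η / δ ≤ sr P Y w w' ∧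
        sr P Y w w' ≤ Real.sqrt b + 2 * η / δ) ∧
      (Core a b δ (2 * η / δ) P Y w w' →
        NN a b (QP η P) Y w w' = NP (QP η P) (det w w') w w') := by
  classical
  have hPr : (1 : ℝ) ≤ P := by exact_mod_cast hP
  have hP0 : (0 : ℝ) < P := by linarith
  have h2P : (1 + η) * (P : ℝ) ≤ 2 * P := mul_le_mul_of_nonneg_right (by linarith) hP0.le
  set t : ℝ := η / δ with ht
  have ht0 : 0 < t := div_pos hη hδ
  have h2t : 2 * η / δ = 2 * t := by rw [ht]; ring
  have hsa : 0 < √a := Real.sqrt_pos.mpr ha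
  have hsa' : 0 < √a' := Real.sqrt_pos.mpr ha'
  have hsab : √a ≤ √b := Real.sqrt_le_sqrt hab.le
  have hsaa : √a * √a = a := Real.mul_self_sqrt ha.le
  have hsbb : √b * √b = b := Real.mul_self_sqrt (ha.trans hab).le
  refine ⟨max 1 (max (8 * P ^ 2 / (a' * t * √a)) (8 * P ^ 2 / (a' * √a * √a' * √a) + 1)), ?_⟩
  intro Y hY w hw w' hw' hDb
  have hY1 : 1 ≤ Y := (le_max_left _ _).trans hY
  have hY2 : 8 * P ^ 2 / (a' * t * √a) ≤ Y := (le_max_left _ _).trans ((le_max_right _ _).trans hY)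
  have hY3 : 8 * P ^ 2 / (a' * √a * √a' * √a) + 1 ≤ Y :=
    (le_max_right _ _).trans ((le_max_right _ _).trans hY)
  have hY0 : 0 < Y := by linarith
  -- the data of `w`, `w'`
  unfold Cel at hw hw'
  rw [Finset.mem_filter, mem_PB] at hw hw'
  obtain ⟨⟨hwp, hwY⟩, hw1, -⟩ := hw
  obtain ⟨⟨hwp', hwY'⟩, hw1', -⟩ := hw'
  set D : ℝ := (det w w' : ℝ) with hDdef
  have hD0 : 0 < |D| := lt_trans (by positivity) hDb
  have hD : D ≠ 0 := abs_pos.mp hD0
  have hDz : det w w' ≠ 0 := by
    intro h0; apply hD; rw [hDdef, h0]; simp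
  set r : ℝ := √(nn w / Y) with hrdef
  set r' : ℝ := √(nn w' / Y) with hrdef'
  have hr2 : r ^ 2 * Y = nn w := by
    rw [hrdef, Real.sq_sqrt (by positivity)]; field_simp
  have hr2' : r' ^ 2 * Y = nn w' := by
    rw [hrdef', Real.sq_sqrt (by positivity)]; field_simp
  have hra : √a' ≤ r := by
    apply Real.sqrt_le_sqrt; rw [le_div_iff₀ hY0]; exact hw1.le
  have hra' : √a' ≤ r' := by
    apply Real.sqrt_le_sqrt; rw [le_div_iff₀ hY0]; exact hw1'.le
  have hr1 : r ≤ 1 := by
    rw [hrdef, Real.sqrt_le_one]; rw [div_le_one hY0]; exact hwY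
  have hr1' : r' ≤ 1 := by
    rw [hrdef', Real.sqrt_le_one]; rw [div_le_one hY0]; exact hwY'
  have hr0 : 0 < r := hsa'.trans_le hra
  have hr0' : 0 < r' := hsa'.trans_le hra'
  have hGD : (r * r' * Y) ^ 2 = (ip w w' : ℝ) ^ 2 + D ^ 2 := by
    have h1 := ip_sq_add w w'
    have h2 : ((nn w : ℝ)) * nn w' = (ip w w' : ℝ) ^ 2 + D ^ 2 := by
      rw [hDdef]; exact_mod_cast h1
    rw [← h2, ← hr2, ← hr2']; ring
  have hsr : sr P Y w w' = (r - r') * P / D := rfl
  have hηD : η * P / |D| < t := by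
    rw [ht, div_lt_div_iff₀ hD0 hδ]
    calc η * P * δ = η * (δ * P) := by ring
      _ < η * |D| := mul_lt_mul_of_pos_left hDb hη
  -- the smallness conditions
  have hs1 : ∀ e x : ℝ, 0 ≤ e → e * (a' * Y) ≤ 1 → x ≤ 8 * P ^ 2 * e → x ≤ t * √a * Y := by
    intro e x he0 he1 hx
    have hk : 0 < a' * t * √a := by positivity
    rw [div_le_iff₀ hk] at hY2
    have h1 : e ≤ 1 / (a' * Y) := by rw [le_div_iff₀ (by positivity)]; exact he1
    have h2 : 8 * P ^ 2 * e ≤ 8 * P ^ 2 * (1 / (a' * Y)) :=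
      mul_le_mul_of_nonneg_left h1 (by positivity)
    have h3 : 8 * (P : ℝ) ^ 2 * (1 / (a' * Y)) ≤ (Y * (a' * t * √a)) * (1 / (a' * Y)) :=
      mul_le_mul_of_nonneg_right hY2 (by positivity)
    have h4 : (Y * (a' * t * √a)) * (1 / (a' * Y)) = t * √a := by field_simp
    have h5 : t * √a ≤ t * √a * Y := le_mul_of_one_le_right (by positivity) hY1
    linarith
  constructor
  · intro hN
    have hip : 0 < ip w w' := nn_ip a b _ Y w w' hN
    have hipr : (0 : ℝ) < (ip w w' : ℝ) := by exact_mod_cast hip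
    have hne : ((Bl Y).filter (fun u => a * Y < (nn u : ℝ) ∧ (nn u : ℝ) ≤ b * Y ∧ 0 < ip u w ∧
        0 < ip u w' ∧ (∃ p ∈ QP η P, det u w = (p : ℤ)) ∧ ∃ p ∈ QP η P, det u w' = (p : ℤ))).Nonempty := by
      by_contra hc
      rw [Finset.not_nonempty_iff_eq_empty] at hc
      apply hN
      unfold NN
      rw [hc]
      simp
    obtain ⟨u, hu⟩ := hne
    rw [Finset.mem_filter] at hu
    obtain ⟨-, hu1, hu2, hu3, hu4, ⟨p, hp, hpd⟩, ⟨p', hp', hpd'⟩⟩ := hu
    obtain ⟨hp1, hp2⟩ := bg2_mem hp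
    obtain ⟨hp1', hp2'⟩ := bg2_mem hp'
    obtain ⟨e, he0, he1, hei⟩ := bg2_e ha' hY0 hra hra' hipr hD hGD
    set S : ℝ := ((p' : ℝ) * r - p * r') / D with hS
    have hSD : S * D = (p' : ℝ) * r - p * r' := by rw [hS]; field_simp
    have hSs : |S - (r - r') * P / D| ≤ η * P / |D| :=
      bg2_S hP0 hη hp1.le hp2 hp1'.le hp2' hr0.le hr1 hr0'.le hr1'
    have hpos : (0 : ℝ) < p := hP0.trans hp1
    have hpos' : (0 : ℝ) < p' := hP0.trans hp1'
    have hple : (p : ℝ) ≤ 2 * P := hp2.trans h2P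
    have hple' : (p' : ℝ) ≤ 2 * P := hp2'.trans h2P
    -- the identities over the reals
    have j1 : (nn u : ℝ) * D ^ 2 = (p' : ℝ) ^ 2 * nn w + (p : ℝ) ^ 2 * nn w' -
        2 * p * p' * (ip w w' : ℝ) := by
      have := bg2_id1 u w w'
      rw [hpd, hpd'] at this
      rw [hDdef]; exact_mod_cast this
    have j2 : (ip u w : ℝ) * D = (p' : ℝ) * nn w - p * (ip w w' : ℝ) := by
      have := bg2_id2 u w w'
      rw [hpd, hpd'] at this
      rw [hDdef]; exact_mod_cast this
    have j3 : (ip u w' : ℝ) * D = (p' : ℝ) * (ip w w' : ℝ) - p * nn w' := by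
      have := bg2_id3 u w w'
      rw [hpd, hpd'] at this
      rw [hDdef]; exact_mod_cast this
    have k1 : (nn u : ℝ) = Y * S ^ 2 + 2 * p * p' * e := by
      have : (nn u : ℝ) * D ^ 2 = (Y * S ^ 2 + 2 * p * p' * e) * D ^ 2 := by
        rw [j1, ← hr2, ← hr2', hei]
        have : (Y * S ^ 2 + 2 * p * p' * e) * D ^ 2 = Y * (S * D) ^ 2 + 2 * p * p' * e * D ^ 2 := by
          ring
        rw [this, hSD]; ring
      exact mul_right_cancel₀ (pow_ne_zero 2 hD) this
    have k2 : (ip u w : ℝ) = r * Y * S + p * e * D := by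
      apply mul_right_cancel₀ hD
      rw [j2, ← hr2, hei]
      have : (r * Y * S + p * e * D) * D = r * Y * (S * D) + p * e * D ^ 2 := by ring
      rw [this, hSD]; ring
    have k3 : (ip u w' : ℝ) = r' * Y * S - p' * e * D := by
      apply mul_right_cancel₀ hD
      rw [j3, ← hr2', hei]
      have : (r' * Y * S - p' * e * D) * D = r' * Y * (S * D) - p' * e * D ^ 2 := by ring
      rw [this, hSD]; ring
    have hu3r : (0 : ℝ) < ip u w := by exact_mod_cast hu3
    have hu4r : (0 : ℝ) < ip u w' := by exact_mod_cast hu4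
    have hS0 : 0 < S := by
      rcases lt_or_gt_of_ne hD with hneg | hposD
      · have h1 : p * e * D ≤ 0 := mul_nonpos_of_nonneg_of_nonpos (by positivity) hneg.le
        rw [k2] at hu3r
        have h2 : 0 < r * Y * S := by linarith
        exact (mul_pos_iff_of_pos_left (by positivity)).mp h2
      · have h1 : 0 ≤ p' * e * D := by positivity
        rw [k3] at hu4r
        have h2 : 0 < r' * Y * S := by linarith
        exact (mul_pos_iff_of_pos_left (by positivity)).mp h2
    have hppe : 2 * p * p' * e ≤ 8 * P ^ 2 * e := by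
      have : (p : ℝ) * p' ≤ (2 * P) * (2 * P) := mul_le_mul hple hple' hpos'.le (by positivity)
      have h2 := mul_le_mul_of_nonneg_right this he0
      linarith
    have hsm : 2 * p * p' * e ≤ t * √a * Y := hs1 e _ he0 he1 hppe
    have hSb : S ≤ √b := by
      have h1 : Y * S ^ 2 ≤ b * Y := by
        have : 0 ≤ 2 * p * p' * e := by positivity
        rw [k1] at hu2; linarith
      have h2 : S ^ 2 ≤ b := by
        have : S ^ 2 * Y ≤ b * Y := by linarith
        exact le_of_mul_le_mul_right this hY0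
      exact Real.le_sqrt_of_sq_le h2
    have hSa : √a - t ≤ S := by
      by_contra hc
      rw [not_le] at hc
      have h1 : a * Y < Y * S ^ 2 + t * √a * Y := by rw [k1] at hu1; linarith
      have h2 : a < S ^ 2 + t * √a := by
        have : a * Y < (S ^ 2 + t * √a) * Y := by linarith
        exact lt_of_mul_lt_mul_right this hY0.le
      exact bg2_q1 hsa ht0 hsaa hS0 hc h2
    rw [hsr, h2t]
    have := abs_le.mp (hSs.trans hηD.le)
    constructor <;> linarith [this.1, this.2]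
  · intro hC
    obtain ⟨⟨-, hD2, hip⟩, hC1, hC2⟩ := hC
    have hipr : (0 : ℝ) < (ip w w' : ℝ) := by exact_mod_cast hip
    rw [hsr, h2t] at hC1 hC2
    apply le_antisymm (nn_le_np a b _ Y w w' hDz)
    unfold NN NP
    rw [Nat.cast_le]
    apply Finset.card_le_card_of_surjOn (fun u : G => ((det u w).toNat, (det u w').toNat))
    rintro ⟨p, p'⟩ hpp
    rw [Finset.mem_coe, Finset.mem_filter, Finset.mem_product] at hpp
    obtain ⟨⟨hp, hp'⟩, hdvd⟩ := hpp
    simp only at hp hp' hdvd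
    obtain ⟨u, hu⟩ := hdvd
    obtain ⟨hp1, hp2⟩ := bg2_mem hp
    obtain ⟨hp1', hp2'⟩ := bg2_mem hp'
    have hure : (det w w') * u.re = (p' : ℤ) * w.re - p * w'.re := by
      have := congrArg Zsqrtd.re hu
      simp at this
      linarith
    have huim : (det w w') * u.im = (p' : ℤ) * w.im - p * w'.im := by
      have := congrArg Zsqrtd.im hu
      simp at this
      linarith
    have hpd : det u w = (p : ℤ) := by
      apply mul_left_cancel₀ hDz
      have : det w w' * det u w = (det w w' * u.re) * w.im - (det w w' * u.im) * w.re := by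
        conv_lhs => rw [det.eq_1 u w]
        ring
      rw [this, hure, huim]
      unfold det
      ring
    have hpd' : det u w' = (p' : ℤ) := by
      apply mul_left_cancel₀ hDz
      have : det w w' * det u w' = (det w w' * u.re) * w'.im - (det w w' * u.im) * w'.re := by
        conv_lhs => rw [det.eq_1 u w']
        ring
      rw [this, hure, huim]
      unfold det
      ring
    obtain ⟨e, he0, he1, hei⟩ := bg2_e ha' hY0 hra hra' hipr hD hGD
    set S : ℝ := ((p' : ℝ) * r - p * r') / D with hS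
    have hSD : S * D = (p' : ℝ) * r - p * r' := by rw [hS]; field_simp
    have hSs : |S - (r - r') * P / D| ≤ η * P / |D| :=
      bg2_S hP0 hη hp1.le hp2 hp1'.le hp2' hr0.le hr1 hr0'.le hr1'
    have hpos : (0 : ℝ) < p := hP0.trans hp1
    have hpos' : (0 : ℝ) < p' := hP0.trans hp1'
    have hple : (p : ℝ) ≤ 2 * P := hp2.trans h2P
    have hple' : (p' : ℝ) ≤ 2 * P := hp2'.trans h2P
    have j1 : (nn u : ℝ) * D ^ 2 = (p' : ℝ) ^ 2 * nn w + (p : ℝ) ^ 2 * nn w' -
        2 * p * p' * (ip w w' : ℝ) := by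
      have := bg2_id1 u w w'
      rw [hpd, hpd'] at this
      rw [hDdef]; exact_mod_cast this
    have j2 : (ip u w : ℝ) * D = (p' : ℝ) * nn w - p * (ip w w' : ℝ) := by
      have := bg2_id2 u w w'
      rw [hpd, hpd'] at this
      rw [hDdef]; exact_mod_cast this
    have j3 : (ip u w' : ℝ) * D = (p' : ℝ) * (ip w w' : ℝ) - p * nn w' := by
      have := bg2_id3 u w w'
      rw [hpd, hpd'] at this
      rw [hDdef]; exact_mod_cast this
    have k1 : (nn u : ℝ) = Y * S ^ 2 + 2 * p * p' * e := by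
      have : (nn u : ℝ) * D ^ 2 = (Y * S ^ 2 + 2 * p * p' * e) * D ^ 2 := by
        rw [j1, ← hr2, ← hr2', hei]
        have : (Y * S ^ 2 + 2 * p * p' * e) * D ^ 2 = Y * (S * D) ^ 2 + 2 * p * p' * e * D ^ 2 := by
          ring
        rw [this, hSD]; ring
      exact mul_right_cancel₀ (pow_ne_zero 2 hD) this
    have k2 : (ip u w : ℝ) = r * Y * S + p * e * D := by
      apply mul_right_cancel₀ hD
      rw [j2, ← hr2, hei]
      have : (r * Y * S + p * e * D) * D = r * Y * (S * D) + p * e * D ^ 2 := by ring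
      rw [this, hSD]; ring
    have k3 : (ip u w' : ℝ) = r' * Y * S - p' * e * D := by
      apply mul_right_cancel₀ hD
      rw [j3, ← hr2', hei]
      have : (r' * Y * S - p' * e * D) * D = r' * Y * (S * D) - p' * e * D ^ 2 := by ring
      rw [this, hSD]; ring
    have hppe : 2 * p * p' * e ≤ 8 * P ^ 2 * e := by
      have : (p : ℝ) * p' ≤ (2 * P) * (2 * P) := mul_le_mul hple hple' hpos'.le (by positivity)
      have h2 := mul_le_mul_of_nonneg_right this he0
      linarith
    have hsm : 2 * p * p' * e ≤ t * √a * Y := hs1 e _ he0 he1 hppe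
    have hSab := abs_le.mp (hSs.trans hηD.le)
    have hSa : √a + t ≤ S := by linarith [hSab.1, hSab.2]
    have hSb : S ≤ √b - t := by linarith [hSab.1, hSab.2]
    have hS0 : 0 < S := by linarith
    have hS2 : a < S ^ 2 := bg2_q2 hsa ht0 hsaa hSa
    have hn1 : a * Y < (nn u : ℝ) := by
      rw [k1]
      have h1 : 0 ≤ 2 * p * p' * e := by positivity
      have h2 : a * Y < S ^ 2 * Y := mul_lt_mul_of_pos_right hS2 hY0
      linarith
    have hn2 : (nn u : ℝ) ≤ b * Y := by
      rw [k1]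
      have h2 : S ^ 2 + t * √a ≤ b := bg2_q3 hsa hsab ht0 hsbb hS0 hSb
      have h3 : (S ^ 2 + t * √a) * Y ≤ b * Y := mul_le_mul_of_nonneg_right h2 hY0.le
      linarith
    -- the signs of the inner products
    have hbig : ∀ q : ℝ, 0 ≤ q → q ≤ 2 * P → q * e * |D| < √a' * Y * √a := by
      intro q hq0 hq
      have hk : 0 < a' * √a * √a' * √a := by positivity
      have h1 : 8 * P ^ 2 / (a' * √a * √a' * √a) < Y := by linarith
      rw [div_lt_iff₀ hk] at h1
      have he2 : e ≤ 1 / (a' * Y) := by rw [le_div_iff₀ (by positivity)]; exact he1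
      have h2 : q * e * |D| ≤ (2 * P) * (1 / (a' * Y)) * (4 / √a * P) := by
        apply mul_le_mul (mul_le_mul hq he2 he0 (by positivity)) hD2 (abs_nonneg _) (by positivity)
      have h3 : (2 * P) * (1 / (a' * Y)) * (4 / √a * P) = (8 * P ^ 2) * (1 / (a' * Y * √a)) := by
        field_simp; ring
      have h4 : (8 * (P : ℝ) ^ 2) * (1 / (a' * Y * √a)) <
          (Y * (a' * √a * √a' * √a)) * (1 / (a' * Y * √a)) :=
        mul_lt_mul_of_pos_right h1 (by positivity)
      have h5 : (Y * (a' * √a * √a' * √a)) * (1 / (a' * Y * √a)) = √a' * √a := by field_simp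
      have h6 : √a' * √a ≤ √a' * √a * Y := le_mul_of_one_le_right (by positivity) hY1
      linarith
    have hrYS : √a' * Y * √a ≤ r * Y * S := by
      apply mul_le_mul (mul_le_mul_of_nonneg_right hra hY0.le) (by linarith) hsa.le (by positivity)
    have hrYS' : √a' * Y * √a ≤ r' * Y * S := by
      apply mul_le_mul (mul_le_mul_of_nonneg_right hra' hY0.le) (by linarith) hsa.le (by positivity)
    have hx : 0 < ip u w := by
      have h1 := hbig p hpos.le hple
      have h2 : -(p * e * |D|) ≤ p * e * D := by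
        have := mul_le_mul_of_nonneg_left (neg_abs_le D) (mul_nonneg hpos.le he0)
        linarith
      have : (0 : ℝ) < ip u w := by rw [k2]; linarith
      exact_mod_cast this
    have hy : 0 < ip u w' := by
      have h1 := hbig p' hpos'.le hple'
      have h2 : p' * e * D ≤ p' * e * |D| :=
        mul_le_mul_of_nonneg_left (le_abs_self D) (mul_nonneg hpos'.le he0)
      have : (0 : ℝ) < ip u w' := by rw [k3]; linarith
      exact_mod_cast this
    refine ⟨u, ?_, ?_⟩
    · rw [Finset.mem_coe, Finset.mem_filter, mem_Bl]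
      refine ⟨⟨?_, ?_⟩, hn1, hn2, hx, hy, ⟨p, hp, hpd⟩, ⟨p', hp', hpd'⟩⟩
      · rw [← nn_pos]
        have : (0 : ℝ) < nn u := lt_trans (by positivity) hn1
        exact_mod_cast this
      · have : b * Y ≤ 1 * Y := mul_le_mul_of_nonneg_right hb hY0.le
        linarith
    · simp only [hpd, hpd', Int.toNat_natCast]


end Pool.Agent.T2


namespace Pool.Agent.T2

theorem nn_core : type_of% @nn_core_pr := @nn_core_pr

end Pool.Agent.T2
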