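import Pool.Agent.Lib_helper10.T2.DefsB

/-! T2, block BV1: the variance through characters -/

namespace Pool.Agent.T2

open Filter Topology

/-- the character sum -/
noncomputable def bv1_T {D : ℕ} (B : Finset ℕ) (χ : DirichletCharacter ℂ D) : ℂ :=
  ∑ p ∈ B, χ (p : ZMod D)

theorem bv1_inv {D : ℕ} [NeZero D] (χ : DirichletCharacter ℂ D) {a : ZMod D} (ha : IsUnit a) :
    χ a⁻¹ = (starRingEnd ℂ) (χ a) := by
  have h1 : χ a⁻¹ * χ a = 1 := by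
    rw [← map_mul, ZMod.inv_mul_of_unit a ha, map_one]
  obtain ⟨u, rfl⟩ := ha
  have h2 : ‖χ (u : ZMod D)‖ = 1 := χ.unit_norm_eq_one u
  have h3 : χ (u : ZMod D) * (starRingEnd ℂ) (χ (u : ZMod D)) = 1 := by
    rw [Complex.mul_conj, Complex.normSq_eq_norm_sq, h2]
    norm_num
  calc χ (u : ZMod D)⁻¹ = χ (u : ZMod D)⁻¹ * (χ (u : ZMod D) * (starRingEnd ℂ) (χ (u : ZMod D))) := by
        rw [h3, mul_one]
    _ = (χ (u : ZMod D)⁻¹ * χ (u : ZMod D)) * (starRingEnd ℂ) (χ (u : ZMod D)) := by ring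
    _ = (starRingEnd ℂ) (χ (u : ZMod D)) := by rw [h1, one_mul]

theorem bv1_T_sq {D : ℕ} (B : Finset ℕ) (χ : DirichletCharacter ℂ D) :
    ∑ t ∈ B ×ˢ B, (starRingEnd ℂ) (χ (t.1 : ZMod D)) * χ (t.2 : ZMod D) = ((‖bv1_T B χ‖ ^ 2 : ℝ) : ℂ) := by
  rw [Finset.sum_product]
  have e : ∑ x ∈ B, ∑ y ∈ B, (starRingEnd ℂ) (χ (x : ZMod D)) * χ (y : ZMod D)
      = (∑ x ∈ B, (starRingEnd ℂ) (χ (x : ZMod D))) * ∑ y ∈ B, χ (y : ZMod D) := by
    rw [Finset.sum_mul_sum]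
  rw [e, ← map_sum]
  unfold bv1_T
  rw [mul_comm, Complex.mul_conj, Complex.normSq_eq_norm_sq]

open Classical in
theorem bv1_nd (D : ℕ) (hD : 1 ≤ D) (B : Finset ℕ) (hB : ∀ p ∈ B, Nat.Coprime p D) (κ : ℕ)
    (hκ : Nat.Coprime κ D) :
    ((ND B D (κ : ℤ) : ℝ) : ℂ) * (Nat.totient D : ℂ) =
      ∑ χ : DirichletCharacter ℂ D, (starRingEnd ℂ) (χ (κ : ZMod D)) * ((‖bv1_T B χ‖ ^ 2 : ℝ) : ℂ) := by
  have : NeZero D := ⟨by omega⟩
  have hu : ∀ p, Nat.Coprime p D → IsUnit ((p : ℕ) : ZMod D) := fun p hp =>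
    (ZMod.isUnit_iff_coprime p D).2 hp
  have e1 : ((ND B D (κ : ℤ) : ℝ) : ℂ) * (Nat.totient D : ℂ) =
      ∑ t ∈ B ×ˢ B, (if (κ : ZMod D) * (t.1 : ZMod D) = (t.2 : ZMod D) then (Nat.totient D : ℂ) else 0) := by
    unfold ND
    rw [Finset.card_filter]
    push_cast
    rw [Finset.sum_mul]
    refine Finset.sum_congr rfl fun t _ => ?_
    have h : (D : ℤ) ∣ (t.2 : ℤ) - (κ : ℤ) * t.1 ↔ (κ : ZMod D) * (t.1 : ZMod D) = (t.2 : ZMod D) := by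
      rw [← ZMod.intCast_zmod_eq_zero_iff_dvd]
      push_cast
      rw [sub_eq_zero]
      exact eq_comm
    by_cases hc : (κ : ZMod D) * (t.1 : ZMod D) = (t.2 : ZMod D)
    · rw [if_pos (h.2 hc), if_pos hc]; simp
    · rw [if_neg (fun h' => hc (h.1 h')), if_neg hc]; simp
  rw [e1]
  have e2 : ∀ t ∈ B ×ˢ B, (if (κ : ZMod D) * (t.1 : ZMod D) = (t.2 : ZMod D) then (Nat.totient D : ℂ) else 0)
      = ∑ χ : DirichletCharacter ℂ D, (starRingEnd ℂ) (χ (κ : ZMod D)) *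
        ((starRingEnd ℂ) (χ (t.1 : ZMod D)) * χ (t.2 : ZMod D)) := by
    intro t ht
    rw [Finset.mem_product] at ht
    have h1 : IsUnit ((κ : ZMod D) * (t.1 : ZMod D)) := (hu κ hκ).mul (hu _ (hB _ ht.1))
    rw [← DirichletCharacter.sum_char_inv_mul_char_eq ℂ h1 (t.2 : ZMod D)]
    refine Finset.sum_congr rfl fun χ _ => ?_
    rw [bv1_inv χ h1, map_mul, map_mul]
    ring
  rw [Finset.sum_congr rfl e2, Finset.sum_comm]
  refine Finset.sum_congr rfl fun χ _ => ?_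
  rw [← bv1_T_sq, Finset.mul_sum]

open Classical in
theorem bv1_md (D R₀ : ℕ) (hD : 1 ≤ D) (B : Finset ℕ) (hB : ∀ p ∈ B, Nat.Coprime p D) (κ : ℕ)
    (hκ : Nat.Coprime κ D) :
    ((MD B R₀ D (κ : ℤ) : ℝ) : ℂ) * (Nat.totient D : ℂ) =
      ∑ χ ∈ (Finset.univ : Finset (DirichletCharacter ℂ D)).filter (fun χ => χ.conductor ∣ R₀.factorial),
        (starRingEnd ℂ) (χ (κ : ZMod D)) * ((‖bv1_T B χ‖ ^ 2 : ℝ) : ℂ) := by
  have : NeZero D := ⟨by omega⟩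
  obtain ⟨g, hg⟩ : ∃ g, g = Nat.gcd D R₀.factorial := ⟨_, rfl⟩
  have hgD : g ∣ D := hg ▸ Nat.gcd_dvd_left _ _
  have hgR : g ∣ R₀.factorial := hg ▸ Nat.gcd_dvd_right _ _
  have hg1 : 1 ≤ g := Nat.pos_of_dvd_of_pos hgD hD
  have : NeZero g := ⟨by omega⟩
  have hcg : ∀ n, Nat.Coprime n D → Nat.Coprime n g := fun n hn => Nat.Coprime.coprime_dvd_right hgD hn
  have hnd := bv1_nd g hg1 B (fun p hp => hcg p (hB p hp)) κ (hcg κ hκ)
  have hphi : (Nat.totient D : ℂ) ≠ 0 := by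
    have := Nat.totient_pos.2 hD
    exact_mod_cast this.ne'
  have e1 : ((MD B R₀ D (κ : ℤ) : ℝ) : ℂ) * (Nat.totient D : ℂ) =
      ((ND B g (κ : ℤ) : ℝ) : ℂ) * (Nat.totient g : ℂ) := by
    unfold MD
    rw [← hg]
    push_cast
    field_simp
  rw [e1, hnd]
  have hlev : ∀ (ψ : DirichletCharacter ℂ g) (n : ℕ), Nat.Coprime n D →
      (DirichletCharacter.changeLevel hgD ψ) (n : ZMod D) = ψ (n : ZMod g) := by
    intro ψ n hn
    have := DirichletCharacter.changeLevel_eq_cast_of_dvd' ψ hgD (a := (n : ℤ)) (Nat.isCoprime_iff_coprime.2 hn)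
    push_cast at this
    exact this
  refine Finset.sum_nbij (fun ψ => DirichletCharacter.changeLevel hgD ψ) ?_ ?_ ?_ ?_
  · intro ψ _
    rw [Finset.mem_filter]
    refine ⟨Finset.mem_univ _, ?_⟩
    rw [DirichletCharacter.conductor_changeLevel]
    exact (DirichletCharacter.conductor_dvd_level ψ).trans hgR
  · intro ψ _ ψ' _ h
    exact DirichletCharacter.changeLevel_injective hgD h
  · intro χ hχ
    rw [Finset.mem_coe, Finset.mem_filter] at hχ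
    have h1 : χ.conductor ∣ g := by
      rw [hg]
      exact Nat.dvd_gcd (DirichletCharacter.conductor_dvd_level χ) hχ.2
    have h2 := (DirichletCharacter.mem_conductorSet_iff_conductor_dvd χ hgD).2 h1
    obtain ⟨h3, χ₀, h4⟩ := h2
    exact ⟨χ₀, by simp, h4.symm⟩
  · intro ψ _
    rw [hlev ψ κ hκ]
    congr 3
    unfold bv1_T
    congr 1
    refine Finset.sum_congr rfl fun p hp => ?_
    rw [hlev ψ p (hB p hp)]

theorem bv1_range {D : ℕ} [NeZero D] (F : ZMod D → ℂ) :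
    ∑ κ ∈ Finset.range D, F (κ : ZMod D) = ∑ a : ZMod D, F a := by
  refine Finset.sum_bij' (fun κ _ => (κ : ZMod D)) (fun a _ => a.val) ?_ ?_ ?_ ?_ ?_
  · intro κ _; exact Finset.mem_univ _
  · intro a _; exact Finset.mem_range.2 (ZMod.val_lt a)
  · intro κ hκ; exact ZMod.val_cast_of_lt (Finset.mem_range.1 hκ)
  · intro a _; exact ZMod.natCast_zmod_val a
  · intro κ _; rfl

theorem bv1_orth {D : ℕ} [NeZero D] (χ ψ : DirichletCharacter ℂ D) :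
    ∑ a : ZMod D, (starRingEnd ℂ) (χ a) * ψ a = if χ = ψ then (Nat.totient D : ℂ) else 0 := by
  classical
  have e : ∀ a : ZMod D, (starRingEnd ℂ) (χ a) * ψ a = (χ⁻¹ * ψ) a := by
    intro a
    rw [MulChar.mul_apply]
    congr 1
    exact MulChar.star_apply' χ a
  rw [Finset.sum_congr rfl fun a _ => e a]
  by_cases h : χ = ψ
  · rw [if_pos h, h, inv_mul_cancel, MulChar.sum_one_eq_card_units, ZMod.card_units_eq_totient]
  · rw [if_neg h]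
    apply MulChar.sum_eq_zero_of_ne_one
    intro h2
    apply h
    exact (inv_mul_eq_one.1 h2)

open Classical in
theorem bv1_parseval {D : ℕ} [NeZero D] (A : Finset (DirichletCharacter ℂ D)) (c : DirichletCharacter ℂ D → ℝ) :
    ∑ κ ∈ (Finset.range D).filter (fun κ => Nat.Coprime κ D),
      (∑ χ ∈ A, (starRingEnd ℂ) (χ (κ : ZMod D)) * (c χ : ℂ)) *
        (starRingEnd ℂ) (∑ χ ∈ A, (starRingEnd ℂ) (χ (κ : ZMod D)) * (c χ : ℂ)) =
    (Nat.totient D : ℂ) * ∑ χ ∈ A, ((c χ ^ 2 : ℝ) : ℂ) := by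
  have e1 : ∀ κ : ℕ, (∑ χ ∈ A, (starRingEnd ℂ) (χ (κ : ZMod D)) * (c χ : ℂ)) *
        (starRingEnd ℂ) (∑ χ ∈ A, (starRingEnd ℂ) (χ (κ : ZMod D)) * (c χ : ℂ)) =
      ∑ χ ∈ A, ∑ ψ ∈ A, (c χ : ℂ) * (c ψ : ℂ) * ((starRingEnd ℂ) (χ (κ : ZMod D)) * ψ (κ : ZMod D)) := by
    intro κ
    rw [map_sum, Finset.sum_mul_sum]
    refine Finset.sum_congr rfl fun χ _ => Finset.sum_congr rfl fun ψ _ => ?_
    rw [map_mul, Complex.conj_conj, Complex.conj_ofReal]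
    ring
  rw [Finset.sum_congr rfl fun κ _ => e1 κ, Finset.sum_comm, Finset.mul_sum]
  refine Finset.sum_congr rfl fun χ hχ => ?_
  rw [Finset.sum_comm]
  have e2 : ∀ ψ ∈ A, ∑ κ ∈ (Finset.range D).filter (fun κ => Nat.Coprime κ D),
      (c χ : ℂ) * (c ψ : ℂ) * ((starRingEnd ℂ) (χ (κ : ZMod D)) * ψ (κ : ZMod D)) =
      if χ = ψ then (Nat.totient D : ℂ) * ((c χ ^ 2 : ℝ) : ℂ) else 0 := by
    intro ψ _
    rw [← Finset.mul_sum]
    have e3 : ∑ κ ∈ (Finset.range D).filter (fun κ => Nat.Coprime κ D),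
        ((starRingEnd ℂ) (χ (κ : ZMod D)) * ψ (κ : ZMod D)) =
        ∑ κ ∈ Finset.range D, ((starRingEnd ℂ) (χ (κ : ZMod D)) * ψ (κ : ZMod D)) := by
      refine Finset.sum_subset (Finset.filter_subset _ _) ?_
      intro κ hκ h
      have h2 : ¬ IsUnit (κ : ZMod D) := by
        intro h3
        exact h (Finset.mem_filter.2 ⟨hκ, (ZMod.isUnit_iff_coprime κ D).1 h3⟩)
      rw [MulChar.map_nonunit ψ h2, mul_zero]
    rw [e3, bv1_range (fun a => (starRingEnd ℂ) (χ a) * ψ a), bv1_orth]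
    by_cases h : χ = ψ
    · rw [if_pos h, if_pos h, ← h]
      push_cast
      ring
    · rw [if_neg h, if_neg h, mul_zero]
  rw [Finset.sum_congr rfl e2, Finset.sum_ite_eq, if_pos hχ]

open Classical in
theorem var_char_pr (D R₀ : ℕ) (hD : 1 ≤ D) (B : Finset ℕ) (hB : ∀ p ∈ B, Nat.Coprime p D) :
    ∑ κ ∈ (Finset.range D).filter (fun κ => Nat.Coprime κ D),
      (ND B D (κ : ℤ) - MD B R₀ D (κ : ℤ)) ^ 2 =
    (1 / (Nat.totient D : ℝ)) * ∑ χ ∈ (Finset.univ : Finset (DirichletCharacter ℂ D)).filter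
      (fun χ => ¬ χ.conductor ∣ R₀.factorial), ‖∑ p ∈ B, χ (p : ZMod D)‖ ^ 4 := by
  have : NeZero D := ⟨by omega⟩
  have hphi : (Nat.totient D : ℝ) ≠ 0 := by
    have := Nat.totient_pos.2 hD
    exact_mod_cast this.ne'
  have hphic : (Nat.totient D : ℂ) ≠ 0 := by exact_mod_cast hphi
  obtain ⟨A, hA⟩ : ∃ A, A = (Finset.univ : Finset (DirichletCharacter ℂ D)).filter
      (fun χ => ¬ χ.conductor ∣ R₀.factorial) := ⟨_, rfl⟩
  have key : ∀ κ : ℕ, Nat.Coprime κ D →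
      (((ND B D (κ : ℤ) - MD B R₀ D (κ : ℤ) : ℝ)) : ℂ) * (Nat.totient D : ℂ) =
      ∑ χ ∈ A, (starRingEnd ℂ) (χ (κ : ZMod D)) * ((‖bv1_T B χ‖ ^ 2 : ℝ) : ℂ) := by
    intro κ hκ
    have h1 := bv1_nd D hD B hB κ hκ
    have h2 := bv1_md D R₀ hD B hB κ hκ
    have h3 := Finset.sum_filter_add_sum_filter_not (Finset.univ : Finset (DirichletCharacter ℂ D))
      (fun χ => χ.conductor ∣ R₀.factorial)
      (fun χ => (starRingEnd ℂ) (χ (κ : ZMod D)) * ((‖bv1_T B χ‖ ^ 2 : ℝ) : ℂ))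
    rw [← hA, ← h1, ← h2] at h3
    rw [Complex.ofReal_sub, sub_mul]
    rw [← h3]
    ring
  have hP := bv1_parseval A (fun χ => ‖bv1_T B χ‖ ^ 2)
  have e1 : ∑ κ ∈ (Finset.range D).filter (fun κ => Nat.Coprime κ D),
      (∑ χ ∈ A, (starRingEnd ℂ) (χ (κ : ZMod D)) * ((‖bv1_T B χ‖ ^ 2 : ℝ) : ℂ)) *
        (starRingEnd ℂ) (∑ χ ∈ A, (starRingEnd ℂ) (χ (κ : ZMod D)) * ((‖bv1_T B χ‖ ^ 2 : ℝ) : ℂ)) =
      ∑ κ ∈ (Finset.range D).filter (fun κ => Nat.Coprime κ D),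
        ((((ND B D (κ : ℤ) - MD B R₀ D (κ : ℤ)) ^ 2 : ℝ)) : ℂ) * (Nat.totient D : ℂ) ^ 2 := by
    refine Finset.sum_congr rfl fun κ hκ => ?_
    rw [← key κ (Finset.mem_filter.1 hκ).2, map_mul, Complex.conj_ofReal, Complex.conj_natCast]
    push_cast
    ring
  rw [e1, ← Finset.sum_mul] at hP
  have e2 : ∑ κ ∈ (Finset.range D).filter (fun κ => Nat.Coprime κ D),
      ((((ND B D (κ : ℤ) - MD B R₀ D (κ : ℤ)) ^ 2 : ℝ)) : ℂ) * (Nat.totient D : ℂ) =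
      ∑ χ ∈ A, (((‖bv1_T B χ‖ ^ 2) ^ 2 : ℝ) : ℂ) := by
    apply mul_left_cancel₀ hphic
    rw [← hP, ← Finset.sum_mul]
    ring
  have e3 : (∑ κ ∈ (Finset.range D).filter (fun κ => Nat.Coprime κ D),
      (ND B D (κ : ℤ) - MD B R₀ D (κ : ℤ)) ^ 2) * (Nat.totient D : ℝ) =
      ∑ χ ∈ A, (‖bv1_T B χ‖ ^ 2) ^ 2 := by
    have : (((∑ κ ∈ (Finset.range D).filter (fun κ => Nat.Coprime κ D),
      (ND B D (κ : ℤ) - MD B R₀ D (κ : ℤ)) ^ 2) * (Nat.totient D : ℝ) : ℝ) : ℂ) =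
      ((∑ χ ∈ A, (‖bv1_T B χ‖ ^ 2) ^ 2 : ℝ) : ℂ) := by
      push_cast
      push_cast at e2
      rw [← e2, Finset.sum_mul]
    exact_mod_cast this
  rw [eq_comm, one_div, inv_mul_eq_div, div_eq_iff hphi, e3, ← hA]
  refine Finset.sum_congr rfl fun χ _ => ?_
  rw [← pow_mul]
  rfl

end Pool.Agent.T2


namespace Pool.Agent.T2

theorem var_char : type_of% @var_char_pr := @var_char_pr

end Pool.Agent.T2
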