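import Pool.Agent.Lib_helper10.T2.DefsB

/-!
# T2, block BV2: grouping characters by primitive characters (MP_892e4c_nt)
-/

namespace Pool.Agent.T2

open Finset

/-- a character agrees with its primitive character at units -/
theorem bv2_eval (D : ℕ) (χ : DirichletCharacter ℂ D) (p : ℕ) (hp : Nat.Coprime p D) :
    χ (p : ZMod D) = χ.primitiveCharacter (p : ZMod χ.conductor) := by
  have h1 : χ = DirichletCharacter.changeLevel χ.conductor_dvd_level χ.primitiveCharacter :=
    χ.factorsThrough_conductor.eq_changeLevel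
  have h2 : ((ZMod.unitOfCoprime p hp : (ZMod D)ˣ) : ZMod D) = (p : ZMod D) :=
    ZMod.coe_unitOfCoprime p hp
  conv_lhs => rw [h1, ← h2]
  rw [DirichletCharacter.changeLevel_eq_cast_of_dvd, h2, ZMod.cast_natCast χ.conductor_dvd_level]

open Classical in
theorem var_group_pr (D R₀ : ℕ) (hD : 1 ≤ D) (B : Finset ℕ) (hB : ∀ p ∈ B, Nat.Coprime p D) :
    ∑ χ ∈ (Finset.univ : Finset (DirichletCharacter ℂ D)).filter
      (fun χ => ¬ χ.conductor ∣ R₀.factorial), ‖∑ p ∈ B, χ (p : ZMod D)‖ ^ 4 ≤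
    ∑ r ∈ D.divisors.filter (fun r => R₀ < r), ∑ χ ∈ Pch r, ‖∑ p ∈ B, χ (p : ZMod r)‖ ^ 4 := by
  set e : DirichletCharacter ℂ D → (Σ r : ℕ, DirichletCharacter ℂ r) :=
    fun χ => ⟨χ.conductor, χ.primitiveCharacter⟩ with he
  set g : (Σ r : ℕ, DirichletCharacter ℂ r) → DirichletCharacter ℂ D :=
    fun t => if h : t.1 ∣ D then DirichletCharacter.changeLevel h t.2 else 1 with hg
  set G : (Σ r : ℕ, DirichletCharacter ℂ r) → ℝ :=
    fun t => ‖∑ p ∈ B, t.2 (p : ZMod t.1)‖ ^ 4 with hG
  have hge : ∀ χ, g (e χ) = χ := by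
    intro χ
    simp only [hg, he]
    rw [dif_pos χ.conductor_dvd_level]
    exact χ.factorsThrough_conductor.eq_changeLevel.symm
  have hinj : Function.Injective e := fun a b hab => by
    rw [← hge a, ← hge b, hab]
  rw [Finset.sum_sigma']
  have h1 : ∑ χ ∈ (Finset.univ : Finset (DirichletCharacter ℂ D)).filter
      (fun χ => ¬ χ.conductor ∣ R₀.factorial), ‖∑ p ∈ B, χ (p : ZMod D)‖ ^ 4 =
      ∑ t ∈ ((Finset.univ : Finset (DirichletCharacter ℂ D)).filter
      (fun χ => ¬ χ.conductor ∣ R₀.factorial)).image e, G t := by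
    rw [Finset.sum_image (fun a _ b _ hab => hinj hab)]
    apply Finset.sum_congr rfl
    intro χ _
    simp only [hG, he]
    congr 2
    apply Finset.sum_congr rfl
    intro p hp
    exact bv2_eval D χ p (hB p hp)
  rw [h1]
  apply Finset.sum_le_sum_of_subset_of_nonneg
  · intro t ht
    rw [Finset.mem_image] at ht
    obtain ⟨χ, hχ, rfl⟩ := ht
    rw [Finset.mem_filter] at hχ
    have hdvd : χ.conductor ∣ D := χ.conductor_dvd_level
    have hpos : 0 < χ.conductor := Nat.pos_of_dvd_of_pos hdvd hD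
    rw [Finset.mem_sigma, Finset.mem_filter, Nat.mem_divisors]
    refine ⟨⟨⟨hdvd, by omega⟩, ?_⟩, ?_⟩
    · by_contra hle
      exact hχ.2 (Nat.dvd_factorial hpos (Nat.le_of_not_lt hle))
    · simp only [Pch]
      rw [Finset.mem_filter]
      exact ⟨Finset.mem_univ _, χ.primitiveCharacter_isPrimitive⟩
  · intro t _ _
    positivity

end Pool.Agent.T2


namespace Pool.Agent.T2

theorem var_group : type_of% @var_group_pr := @var_group_pr

end Pool.Agent.T2
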