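import Pool.Agent.Lib_helper10.T2.DefsB
import Pool.Agent.Lib_helper73.Var.LS

/-!
# T2, block BV3: large moduli
-/

namespace Pool.Agent.T2

open Filter Topology

theorem bv3_pch (d : ℕ) : Pch d = Pool.Agent.Var73.Pr d := by
  classical
  ext ψ
  rw [Pool.Agent.Var73.mem_Pr]
  unfold Pch
  simp

open Classical in
/-- the number of representations as a product of two elements of `B` -/
noncomputable def bv3_a (B : Finset ℕ) (n : ℕ) : ℕ :=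
  ((B ×ˢ B).filter (fun t => t.1 * t.2 = n)).card

theorem bv3_le {P : ℕ} {B : Finset ℕ} (hB : ∀ p ∈ B, p.Prime ∧ P < p ∧ p ≤ 2 * P) (n : ℕ) :
    bv3_a B n ≤ 2 := by
  classical
  unfold bv3_a
  by_cases h : ((B ×ˢ B).filter (fun t => t.1 * t.2 = n)) = ∅
  · rw [h]
    simp
  · obtain ⟨⟨p, q⟩, ht⟩ := Finset.nonempty_of_ne_empty h
    rw [Finset.mem_filter, Finset.mem_product] at ht
    obtain ⟨⟨hp, hq⟩, hpq⟩ := ht
    simp only at hp hq hpq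
    have hsub : ((B ×ˢ B).filter (fun t => t.1 * t.2 = n)) ⊆ {(p, q), (q, p)} := by
      rintro ⟨a, b⟩ hab
      rw [Finset.mem_filter, Finset.mem_product] at hab
      obtain ⟨⟨ha, hb⟩, hab⟩ := hab
      simp only at ha hb hab
      have ha' := (hB a ha).1
      have hd : a ∣ p * q := by rw [hpq, ← hab]; exact dvd_mul_right a b
      rcases (Nat.Prime.dvd_mul ha').mp hd with h1 | h1
      · have h2 := (Nat.prime_dvd_prime_iff_eq ha' (hB p hp).1).mp h1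
        subst h2
        have h3 : b = q := Nat.eq_of_mul_eq_mul_left ha'.pos (by rw [hab, hpq])
        subst h3
        simp
      · have h2 := (Nat.prime_dvd_prime_iff_eq ha' (hB q hq).1).mp h1
        subst h2
        have h3 : b = p := Nat.eq_of_mul_eq_mul_left ha'.pos (by rw [hab, ← hpq, mul_comm])
        subst h3
        simp
    exact (Finset.card_le_card hsub).trans Finset.card_le_two

theorem bv3_mem {P : ℕ} {B : Finset ℕ} (hB : ∀ p ∈ B, p.Prime ∧ P < p ∧ p ≤ 2 * P) (t : ℕ × ℕ)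
    (ht : t ∈ B ×ˢ B) : t.1 * t.2 ∈ Finset.Ioc (P ^ 2) (P ^ 2 + 3 * P ^ 2) := by
  rw [Finset.mem_product] at ht
  obtain ⟨_, h1, h2⟩ := hB _ ht.1
  obtain ⟨_, h3, h4⟩ := hB _ ht.2
  rw [Finset.mem_Ioc]
  constructor
  · rw [pow_two]
    exact Nat.mul_lt_mul_of_lt_of_le h1 h3.le (by omega)
  · calc t.1 * t.2 ≤ (2 * P) * (2 * P) := Nat.mul_le_mul h2 h4
      _ = P ^ 2 + 3 * P ^ 2 := by ring

theorem bv3_sum {P : ℕ} {B : Finset ℕ} (hB : ∀ p ∈ B, p.Prime ∧ P < p ∧ p ≤ 2 * P) {M : Type*}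
    [CommSemiring M] (f : ℕ → M) : ∑ n ∈ Finset.Ioc (P ^ 2) (P ^ 2 + 3 * P ^ 2),
      (bv3_a B n : M) * f n = ∑ t ∈ B ×ˢ B, f (t.1 * t.2) := by
  classical
  rw [← Finset.sum_fiberwise_of_maps_to (g := fun t : ℕ × ℕ => t.1 * t.2)
    (t := Finset.Ioc (P ^ 2) (P ^ 2 + 3 * P ^ 2)) (bv3_mem hB)]
  refine Finset.sum_congr rfl fun n _ => ?_
  rw [Finset.sum_congr rfl (fun t ht => by rw [(Finset.mem_filter.mp ht).2] :
    ∀ t ∈ (B ×ˢ B).filter (fun t : ℕ × ℕ => t.1 * t.2 = n), f (t.1 * t.2) = f n)]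
  rw [Finset.sum_const, nsmul_eq_mul]
  rfl

theorem large_moduli_pr : ∃ C : ℝ, 1 ≤ C ∧ ∀ (P R : ℕ) (B : Finset ℕ), 1 ≤ R →
    (∀ p ∈ B, p.Prime ∧ P < p ∧ p ≤ 2 * P) →
    ∑ r ∈ Finset.Ioc R (2 * R), (1 / (Nat.totient r : ℝ)) *
      ∑ χ ∈ Pch r, ‖∑ p ∈ B, χ (p : ZMod r)‖ ^ 4 ≤
        C * ((P : ℝ) ^ 2 / R + R) * (B.card : ℝ) ^ 2 := by
  refine ⟨176, by norm_num, fun P R B hR hB => ?_⟩
  have hR' : (0 : ℝ) < R := by exact_mod_cast hR
  have h1 := Pool.Agent.Var73.mlsP (Finset.Ioc R (2 * R)) (2 * R)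
    (fun d hd => by rw [Finset.mem_Ioc] at hd; omega) (by omega) (fun n => (bv3_a B n : ℂ))
    (P ^ 2) (3 * P ^ 2)
  have h2 : ∑ m ∈ Finset.Ioc (P ^ 2) (P ^ 2 + 3 * P ^ 2), ‖((bv3_a B m : ℕ) : ℂ)‖ ^ 2 ≤
      2 * (B.card : ℝ) ^ 2 := by
    have h3 : ∀ m ∈ Finset.Ioc (P ^ 2) (P ^ 2 + 3 * P ^ 2), ‖((bv3_a B m : ℕ) : ℂ)‖ ^ 2 ≤
        2 * ((bv3_a B m : ℕ) : ℝ) * 1 := by
      intro m _
      rw [Complex.norm_natCast]
      have h4 : ((bv3_a B m : ℕ) : ℝ) ≤ 2 := by exact_mod_cast bv3_le hB m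
      have h5 : (0 : ℝ) ≤ ((bv3_a B m : ℕ) : ℝ) := Nat.cast_nonneg _
      nlinarith
    refine (Finset.sum_le_sum h3).trans ?_
    have h6 := bv3_sum hB (fun _ => (1 : ℝ))
    simp only [mul_assoc] at h6 ⊢
    rw [← Finset.mul_sum, h6]
    simp only [Finset.sum_const, Finset.card_product, nsmul_eq_mul, mul_one]
    push_cast
    ring_nf
    exact le_refl _
  have h7 : ∀ r ∈ Finset.Ioc R (2 * R), (1 / (Nat.totient r : ℝ)) *
      ∑ χ ∈ Pch r, ‖∑ p ∈ B, χ (p : ZMod r)‖ ^ 4 ≤ (1 / (R : ℝ)) *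
        ∑ ψ ∈ Pool.Agent.Var73.Pr r, ((r : ℝ) / Nat.totient r) *
          ‖∑ m ∈ Finset.Ioc (P ^ 2) (P ^ 2 + 3 * P ^ 2), (bv3_a B m : ℂ) * ψ (m : ZMod r)‖ ^ 2 := by
    intro r hr
    rw [Finset.mem_Ioc] at hr
    have hφ : (0 : ℝ) < Nat.totient r := by exact_mod_cast Nat.totient_pos.mpr (by omega)
    have hrR : (R : ℝ) ≤ r := by exact_mod_cast hr.1.le
    rw [bv3_pch, Finset.mul_sum, Finset.mul_sum]
    refine Finset.sum_le_sum fun ψ _ => ?_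
    have h8 : ∑ m ∈ Finset.Ioc (P ^ 2) (P ^ 2 + 3 * P ^ 2), (bv3_a B m : ℂ) * ψ (m : ZMod r) =
        (∑ p ∈ B, ψ (p : ZMod r)) ^ 2 := by
      rw [bv3_sum hB (fun n => ψ (n : ZMod r)), pow_two, Finset.sum_mul_sum,
        ← Finset.sum_product']
      refine Finset.sum_congr rfl fun t _ => ?_
      push_cast
      rw [map_mul]
    rw [h8, norm_pow, ← pow_mul]
    have h9 : (0 : ℝ) ≤ ‖∑ p ∈ B, ψ (p : ZMod r)‖ ^ 4 := by positivity
    have h10 : (1 : ℝ) / Nat.totient r ≤ 1 / R * (r / Nat.totient r) := by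
      rw [div_mul_div_comm, one_mul, div_le_div_iff₀ hφ (by positivity)]
      nlinarith
    calc (1 : ℝ) / Nat.totient r * ‖∑ p ∈ B, ψ (p : ZMod r)‖ ^ 4 ≤
        (1 / R * (r / Nat.totient r)) * ‖∑ p ∈ B, ψ (p : ZMod r)‖ ^ 4 :=
          mul_le_mul_of_nonneg_right h10 h9
      _ = _ := by ring
  refine (Finset.sum_le_sum h7).trans ?_
  rw [← Finset.mul_sum]
  refine (mul_le_mul_of_nonneg_left (h1.trans (mul_le_mul_of_nonneg_left h2 (by positivity)))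
    (by positivity)).trans ?_
  push_cast
  have hB2 : (0 : ℝ) ≤ (B.card : ℝ) ^ 2 := by positivity
  have h11 : (1 : ℝ) / R * (22 * (3 * (P : ℝ) ^ 2 + (2 * (R : ℝ)) ^ 2) * (2 * (B.card : ℝ) ^ 2)) =
      (132 * ((P : ℝ) ^ 2 / R) + 176 * R) * (B.card : ℝ) ^ 2 := by
    field_simp
    ring
  rw [h11]
  apply mul_le_mul_of_nonneg_right _ hB2
  have : (0 : ℝ) ≤ (P : ℝ) ^ 2 / R := by positivity
  linarith

end Pool.Agent.T2


namespace Pool.Agent.T2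

theorem large_moduli : type_of% @large_moduli_pr := @large_moduli_pr

end Pool.Agent.T2
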