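import Pool.Agent.Lib_helper10.T2.DefsB
import Pool.Agent.Lib_helper10.T2F.BPR
import Pool.Agent.Lib_helper10.T2F.SLW

/-! T2, block BV4: small moduli -/

namespace Pool.Agent.T2

open Filter Topology ComplexConjugate

/-! ### characters -/

theorem bv4_lift {r N : ℕ} (hr : r ∣ N) (χ : DirichletCharacter ℂ r) (n : ℕ)
    (hn : Nat.Coprime n N) :
    DirichletCharacter.changeLevel hr χ (n : ZMod N) = χ (n : ZMod r) := by
  have := DirichletCharacter.changeLevel_eq_cast_of_dvd' χ hr (a := (n : ℤ))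
    (Nat.isCoprime_iff_coprime.mpr hn)
  simpa using this

theorem bv4_sum_zmod (N : ℕ) [NeZero N] (F : ZMod N → ℂ) :
    ∑ n ∈ Finset.range N, F (n : ZMod N) = ∑ x : ZMod N, F x := by
  refine Finset.sum_nbij' (fun n => (n : ZMod N)) ZMod.val ?_ ?_ ?_ ?_ ?_
  · intro n _; exact Finset.mem_univ _
  · intro x _; exact Finset.mem_range.mpr (ZMod.val_lt x)
  · intro n hn; exact ZMod.val_cast_of_lt (Finset.mem_range.mp hn)
  · intro x _; exact ZMod.natCast_zmod_val x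
  · intro n _; rfl

theorem bv4_char {r s : ℕ} (hr : 1 ≤ r) (hs : 1 ≤ s) (χ : DirichletCharacter ℂ r)
    (ψ : DirichletCharacter ℂ s) (hχ : χ.IsPrimitive) (hψ : ψ.IsPrimitive)
    (hne : (⟨r, χ⟩ : Σ r : ℕ, DirichletCharacter ℂ r) ≠ ⟨s, ψ⟩) :
    ∑ n ∈ Finset.range (r * s), χ (n : ZMod r) * conj (ψ (n : ZMod s)) = 0 := by
  have hN : r * s ≠ 0 := by positivity
  have : NeZero (r * s) := ⟨hN⟩
  have h1 : r ∣ r * s := dvd_mul_right _ _
  have h2 : s ∣ r * s := dvd_mul_left _ _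
  set χ' := DirichletCharacter.changeLevel h1 χ with hχ'
  set ψ' := DirichletCharacter.changeLevel h2 ψ with hψ'
  have hne' : χ' ≠ ψ' := by
    intro he
    have c1 : χ'.conductor = r := by
      rw [hχ', DirichletCharacter.conductor_changeLevel]; exact hχ
    have c2 : ψ'.conductor = s := by
      rw [hψ', DirichletCharacter.conductor_changeLevel]; exact hψ
    have hrs : r = s := c1.symm.trans ((congrArg (fun x => x.conductor) he).trans c2)
    subst hrs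
    apply hne
    have := DirichletCharacter.changeLevel_injective h1 he
    rw [this]
  have hθ : χ' * ψ'⁻¹ ≠ 1 := by
    intro h
    exact hne' (mul_inv_eq_one.mp h)
  have hsum := MulChar.sum_eq_zero_of_ne_one hθ
  rw [← bv4_sum_zmod (r * s) (fun x => (χ' * ψ'⁻¹) x)] at hsum
  rw [← hsum]
  refine Finset.sum_congr rfl fun n _ => ?_
  by_cases hn : Nat.Coprime n (r * s)
  · have e1 := bv4_lift h1 χ n hn
    have e2 := bv4_lift h2 ψ n hn
    rw [MulChar.mul_apply, ← MulChar.star_apply', hχ', hψ', e1, e2]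
    rfl
  · have hz : (χ' * ψ'⁻¹) (n : ZMod (r * s)) = 0 := by
      apply MulChar.map_nonunit
      rw [ZMod.isUnit_iff_coprime]
      exact hn
    rw [hz]
    have : ¬ (Nat.Coprime n r ∧ Nat.Coprime n s) := by
      rintro ⟨a, b⟩
      exact hn (Nat.Coprime.mul_right a b)
    by_cases hnr : Nat.Coprime n r
    · have hns : ¬ Nat.Coprime n s := fun h => this ⟨hnr, h⟩
      have : ψ (n : ZMod s) = 0 := by
        apply MulChar.map_nonunit
        rw [ZMod.isUnit_iff_coprime]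
        exact hns
      rw [this]; simp
    · have : χ (n : ZMod r) = 0 := by
        apply MulChar.map_nonunit
        rw [ZMod.isUnit_iff_coprime]
        exact hnr
      rw [this]; simp

/-! ### periodic functions -/

theorem bv4_interval (N : ℕ) (hN : 1 ≤ N) (f : ℕ → ℂ) (hper : ∀ n, f (n + N) = f n)
    (hb : ∀ n, ‖f n‖ ≤ 1) (h0 : ∑ n ∈ Finset.range N, f n = 0) (A B : ℕ) :
    ‖∑ n ∈ Finset.Ioc A B, f n‖ ≤ N := by
  have hshift : ∀ n, f (n % N) = f n := by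
    have : Function.Periodic f N := hper
    intro n
    exact this.map_mod_nat n
  set g : ℕ → ℂ := fun n => ∑ m ∈ Finset.range (n + 1), f m with hg
  have hgp : Function.Periodic g N := by
    intro n
    simp only [hg]
    induction n with
    | zero =>
      rw [show 0 + N + 1 = N + 1 by ring, Finset.sum_range_succ, h0, zero_add]
      simp only [zero_add, Finset.sum_range_one]
      have := hper 0
      rwa [zero_add] at this
    | succ k ih =>
      rw [show k + 1 + N + 1 = (k + N + 1) + 1 by ring, Finset.sum_range_succ, ih,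
        Finset.sum_range_succ _ (k + 1)]
      congr 1
      rw [show k + N + 1 = (k + 1) + N by ring]
      exact hper _
  by_cases hAB : A ≤ B
  · have hdiff : ∀ a b : ℕ, a ≤ b → ∑ n ∈ Finset.Ioc a b, f n = g b - g a := by
      intro a b hab
      simp only [hg]
      rw [← Finset.Ico_add_one_add_one_eq_Ioc, Finset.sum_Ico_eq_sub _ (by omega)]
    have hIoc : ∀ a b : ℕ, b < N → ‖∑ n ∈ Finset.Ioc a b, f n‖ ≤ N := by
      intro a b hb'
      calc ‖∑ n ∈ Finset.Ioc a b, f n‖ ≤ ∑ n ∈ Finset.Ioc a b, ‖f n‖ := norm_sum_le _ _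
        _ ≤ ∑ n ∈ Finset.Ioc a b, (1 : ℝ) := Finset.sum_le_sum fun n _ => hb n
        _ = ((b - a : ℕ) : ℝ) := by simp
        _ ≤ N := by
          have : b - a ≤ N := by omega
          exact_mod_cast this
    rw [hdiff A B hAB, ← hgp.map_mod_nat B, ← hgp.map_mod_nat A]
    rcases le_total (A % N) (B % N) with h | h
    · rw [← hdiff _ _ h]
      exact hIoc _ _ (Nat.mod_lt _ (by omega))
    · rw [norm_sub_rev, ← hdiff _ _ h]
      exact hIoc _ _ (Nat.mod_lt _ (by omega))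
  · rw [Finset.Ioc_eq_empty (by omega)]
    simp

/-! ### duality -/

theorem bv4_dual {ι : Type*} (I : Finset ι) (A B : Finset ℕ) (hAB : A ⊆ B) (ν : ℕ → ℝ)
    (hν : ∀ n ∈ B, 0 ≤ ν n) (hν1 : ∀ n ∈ A, ν n = 1) (f : ι → ℕ → ℂ) (K : ℝ) (hK : 0 ≤ K)
    (h : ∀ i ∈ I, ∑ j ∈ I, ‖∑ n ∈ B, (ν n : ℂ) * (f i n * conj (f j n))‖ ≤ K) :
    ∑ i ∈ I, ‖∑ p ∈ A, f i p‖ ^ 2 ≤ A.card * K := by
  set S : ι → ℂ := fun i => ∑ p ∈ A, f i p with hS
  set T : ℝ := ∑ i ∈ I, ‖S i‖ ^ 2 with hT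
  set g : ℕ → ℂ := fun n => ∑ i ∈ I, conj (S i) * f i n with hg
  have hT0 : 0 ≤ T := Finset.sum_nonneg fun i _ => by positivity
  have e1 : (T : ℂ) = ∑ p ∈ A, g p := by
    simp only [hg]
    rw [Finset.sum_comm, hT]
    push_cast
    refine Finset.sum_congr rfl fun i _ => ?_
    rw [← Finset.mul_sum]
    change ((‖S i‖ : ℂ)) ^ 2 = conj (S i) * S i
    rw [← Complex.normSq_eq_conj_mul_self, Complex.normSq_eq_norm_sq]
    push_cast
    rfl
  have e2 : T ≤ ∑ p ∈ A, ‖g p‖ := by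
    calc T = ‖(T : ℂ)‖ := by rw [Complex.norm_real, Real.norm_of_nonneg hT0]
      _ = ‖∑ p ∈ A, g p‖ := by rw [e1]
      _ ≤ _ := norm_sum_le _ _
  have e3 : T ^ 2 ≤ A.card * ∑ p ∈ A, ‖g p‖ ^ 2 := by
    calc T ^ 2 ≤ (∑ p ∈ A, ‖g p‖) ^ 2 := by gcongr
      _ ≤ A.card * ∑ p ∈ A, ‖g p‖ ^ 2 := sq_sum_le_card_mul_sum_sq
  have e4 : ∑ p ∈ A, ‖g p‖ ^ 2 ≤ ∑ n ∈ B, ν n * ‖g n‖ ^ 2 := by
    calc ∑ p ∈ A, ‖g p‖ ^ 2 = ∑ p ∈ A, ν p * ‖g p‖ ^ 2 := by
          refine Finset.sum_congr rfl fun p hp => ?_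
          rw [hν1 p hp, one_mul]
      _ ≤ _ := Finset.sum_le_sum_of_subset_of_nonneg hAB
          fun n hn _ => mul_nonneg (hν n hn) (by positivity)
  set κ : ι → ι → ℂ := fun i j => ∑ n ∈ B, (ν n : ℂ) * (f i n * conj (f j n)) with hκ
  have e5 : ((∑ n ∈ B, ν n * ‖g n‖ ^ 2 : ℝ) : ℂ) =
      ∑ i ∈ I, ∑ j ∈ I, conj (S i) * S j * κ i j := by
    simp only [hκ, Finset.mul_sum]
    have : ∀ n, ((ν n * ‖g n‖ ^ 2 : ℝ) : ℂ) =
        ∑ i ∈ I, ∑ j ∈ I, conj (S i) * S j * ((ν n : ℂ) * (f i n * conj (f j n))) := by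
      intro n
      have : ((‖g n‖ ^ 2 : ℝ) : ℂ) = g n * conj (g n) := by
        rw [Complex.mul_conj, Complex.normSq_eq_norm_sq]
      rw [Complex.ofReal_mul, this]
      simp only [hg, map_sum, map_mul, Complex.conj_conj]
      rw [Finset.sum_mul_sum, Finset.mul_sum]
      refine Finset.sum_congr rfl fun i _ => ?_
      rw [Finset.mul_sum]
      refine Finset.sum_congr rfl fun j _ => ?_
      ring
    rw [Complex.ofReal_sum, Finset.sum_congr rfl fun n _ => this n, Finset.sum_comm]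
    refine Finset.sum_congr rfl fun i _ => ?_
    rw [Finset.sum_comm]
  have hsymm : ∀ i j, ‖κ i j‖ = ‖κ j i‖ := by
    intro i j
    have : κ i j = conj (κ j i) := by
      simp only [hκ, map_sum, map_mul, Complex.conj_conj, Complex.conj_ofReal]
      refine Finset.sum_congr rfl fun n _ => ?_
      ring
    rw [this, Complex.norm_conj]
  have e6 : ∑ n ∈ B, ν n * ‖g n‖ ^ 2 ≤ K * T := by
    have h0 : 0 ≤ ∑ n ∈ B, ν n * ‖g n‖ ^ 2 :=
      Finset.sum_nonneg fun n hn => mul_nonneg (hν n hn) (by positivity)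
    calc ∑ n ∈ B, ν n * ‖g n‖ ^ 2 = ‖((∑ n ∈ B, ν n * ‖g n‖ ^ 2 : ℝ) : ℂ)‖ := by
          rw [Complex.norm_real, Real.norm_of_nonneg h0]
      _ = ‖∑ i ∈ I, ∑ j ∈ I, conj (S i) * S j * κ i j‖ := by rw [e5]
      _ ≤ ∑ i ∈ I, ∑ j ∈ I, ‖conj (S i) * S j * κ i j‖ :=
          (norm_sum_le _ _).trans (Finset.sum_le_sum fun i _ => norm_sum_le _ _)
      _ ≤ ∑ i ∈ I, ∑ j ∈ I, (‖S i‖ ^ 2 / 2 * ‖κ i j‖ + ‖S j‖ ^ 2 / 2 * ‖κ j i‖) := by
          refine Finset.sum_le_sum fun i _ => Finset.sum_le_sum fun j _ => ?_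
          rw [norm_mul, norm_mul, Complex.norm_conj, hsymm j i]
          have := sq_nonneg (‖S i‖ - ‖S j‖)
          have hk := norm_nonneg (κ i j)
          nlinarith
      _ = ∑ i ∈ I, ‖S i‖ ^ 2 * ∑ j ∈ I, ‖κ i j‖ := by
          simp only [Finset.sum_add_distrib]
          rw [Finset.sum_comm (f := fun i j => ‖S j‖ ^ 2 / 2 * ‖κ j i‖)]
          rw [← Finset.sum_add_distrib]
          refine Finset.sum_congr rfl fun i _ => ?_
          rw [← Finset.mul_sum]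
          ring
      _ ≤ ∑ i ∈ I, ‖S i‖ ^ 2 * K :=
          Finset.sum_le_sum fun i hi => mul_le_mul_of_nonneg_left (h i hi) (by positivity)
      _ = K * T := by rw [← Finset.sum_mul, mul_comm]
  have e7 : T * T ≤ (A.card * K) * T := by
    have hc : (0 : ℝ) ≤ A.card := by positivity
    calc T * T = T ^ 2 := by ring
      _ ≤ A.card * ∑ p ∈ A, ‖g p‖ ^ 2 := e3
      _ ≤ A.card * (K * T) := by
          apply mul_le_mul_of_nonneg_left (e4.trans e6) hc
      _ = _ := by ring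
  rcases hT0.eq_or_lt with h0 | h0
  · rw [← h0]; positivity
  · exact le_of_mul_le_mul_right e7 h0

/-! ### the sieve weights -/

theorem bv4_nu {θ : ℕ → ℝ} {D : ℕ} (hθ : ∀ d, θ d ≠ 0 → 1 ≤ d ∧ d ≤ D) (n : ℕ) (hn : 1 ≤ n) :
    ∑ d ∈ n.divisors, θ d = ∑ d ∈ (Finset.Icc 1 D).filter (fun d => d ∣ n), θ d := by
  symm
  have h1 : ∑ d ∈ (Finset.Icc 1 D).filter (fun d => d ∣ n), θ d =
      ∑ d ∈ n.divisors.filter (fun d => 1 ≤ d ∧ d ≤ D), θ d := by
    congr 1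
    ext d
    simp only [Finset.mem_filter, Finset.mem_Icc, Nat.mem_divisors]
    constructor
    · rintro ⟨⟨a, b⟩, c⟩; exact ⟨⟨c, by omega⟩, a, b⟩
    · rintro ⟨⟨c, _⟩, a, b⟩; exact ⟨⟨a, b⟩, c⟩
  rw [h1]
  refine Finset.sum_subset (Finset.filter_subset _ _) fun d hd hd' => ?_
  by_contra hne
  exact hd' (Finset.mem_filter.mpr ⟨hd, hθ d hne⟩)

theorem bv4_mult (d P N : ℕ) (hd : 1 ≤ d) (F : ℕ → ℂ) :
    ∑ n ∈ (Finset.Ioc P N).filter (fun n => d ∣ n), F n =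
      ∑ m ∈ Finset.Ioc (P / d) (N / d), F (d * m) := by
  refine Finset.sum_nbij' (fun n => n / d) (fun m => d * m) ?_ ?_ ?_ ?_ ?_
  · intro n hn
    rw [Finset.mem_filter, Finset.mem_Ioc] at hn
    obtain ⟨⟨h1, h2⟩, k, rfl⟩ := hn
    rw [Finset.mem_Ioc, Nat.mul_div_cancel_left _ (by omega)]
    constructor
    · rw [Nat.div_lt_iff_lt_mul (by omega)]; rwa [mul_comm]
    · rw [Nat.le_div_iff_mul_le (by omega)]; rwa [mul_comm]
  · intro m hm
    rw [Finset.mem_Ioc] at hm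
    rw [Finset.mem_filter, Finset.mem_Ioc]
    refine ⟨⟨?_, ?_⟩, dvd_mul_right _ _⟩
    · have := hm.1
      rw [Nat.div_lt_iff_lt_mul (by omega)] at this
      rwa [mul_comm]
    · have := hm.2
      rw [Nat.le_div_iff_mul_le (by omega)] at this
      rwa [mul_comm]
  · intro n hn
    rw [Finset.mem_filter] at hn
    exact Nat.mul_div_cancel' hn.2
  · intro m hm
    exact Nat.mul_div_cancel_left _ (by omega)
  · intro n hn
    rw [Finset.mem_filter] at hn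
    rw [Nat.mul_div_cancel' hn.2]

theorem bv4_swap {θ : ℕ → ℝ} {D : ℕ} (hθ : ∀ d, θ d ≠ 0 → 1 ≤ d ∧ d ≤ D) (P N : ℕ)
    (F : ℕ → ℂ) :
    ∑ n ∈ Finset.Ioc P N, ((∑ d ∈ n.divisors, θ d : ℝ) : ℂ) * F n =
      ∑ d ∈ Finset.Icc 1 D, (θ d : ℂ) * ∑ m ∈ Finset.Ioc (P / d) (N / d), F (d * m) := by
  have h1 : ∀ n ∈ Finset.Ioc P N, ((∑ d ∈ n.divisors, θ d : ℝ) : ℂ) * F n =
      ∑ d ∈ Finset.Icc 1 D, if d ∣ n then (θ d : ℂ) * F n else 0 := by
    intro n hn
    rw [Finset.mem_Ioc] at hn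
    rw [bv4_nu hθ n (by omega), ← Finset.sum_filter, Complex.ofReal_sum, Finset.sum_mul]
  rw [Finset.sum_congr rfl h1, Finset.sum_comm]
  refine Finset.sum_congr rfl fun d hd => ?_
  rw [Finset.mem_Icc] at hd
  rw [← Finset.sum_filter, ← Finset.mul_sum, bv4_mult d P N hd.1 F]

/-! ### the mass -/

theorem bv4_harm (N : ℕ) : ∑ n ∈ Finset.Icc 1 N, (1 : ℝ) / n ≤
    2 * ∑ a ∈ (Finset.Icc 1 N).filter (fun a => Squarefree a), (1 : ℝ) / a := by
  classical
  have hex : ∀ n : ℕ, ∃ t : ℕ × ℕ, t.1 ^ 2 * t.2 = n ∧ Squarefree t.2 := by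
    intro n
    obtain ⟨a, b, h1, h2⟩ := Nat.sq_mul_squarefree n
    exact ⟨(b, a), h1, h2⟩
  choose e he1 he2 using hex
  set G : ℕ × ℕ → ℝ := fun t => (1 / (t.1 : ℝ) ^ 2) * (1 / t.2) with hG
  set T : Finset (ℕ × ℕ) :=
    (Finset.Icc 1 N) ×ˢ ((Finset.Icc 1 N).filter (fun a => Squarefree a)) with hT
  have hinj : Set.InjOn e (Finset.Icc 1 N : Finset ℕ) := by
    intro x _ y _ hxy
    rw [← he1 x, ← he1 y, hxy]
  have hsub : (Finset.Icc 1 N).image e ⊆ T := by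
    intro t ht
    rw [Finset.mem_image] at ht
    obtain ⟨n, hn, rfl⟩ := ht
    rw [Finset.mem_Icc] at hn
    have h1 := he1 n
    have hb : 1 ≤ (e n).1 := by
      rcases Nat.eq_zero_or_pos (e n).1 with h | h
      · rw [h] at h1; simp at h1; omega
      · exact h
    have ha : 1 ≤ (e n).2 := by
      rcases Nat.eq_zero_or_pos (e n).2 with h | h
      · rw [h] at h1; simp at h1; omega
      · exact h
    rw [hT, Finset.mem_product, Finset.mem_filter, Finset.mem_Icc, Finset.mem_Icc]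
    refine ⟨⟨hb, ?_⟩, ⟨ha, ?_⟩, he2 n⟩
    · calc (e n).1 ≤ (e n).1 ^ 2 * (e n).2 := by nlinarith
        _ ≤ N := by rw [h1]; exact hn.2
    · calc (e n).2 ≤ (e n).1 ^ 2 * (e n).2 := by
            have : 1 ≤ (e n).1 ^ 2 := Nat.one_le_pow _ _ hb
            nlinarith
        _ ≤ N := by rw [h1]; exact hn.2
  have h1 : ∑ n ∈ Finset.Icc 1 N, (1 : ℝ) / n = ∑ t ∈ (Finset.Icc 1 N).image e, G t := by
    rw [Finset.sum_image hinj]
    refine Finset.sum_congr rfl fun n _ => ?_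
    simp only [hG]
    have := he1 n
    have h2 : (n : ℝ) = ((e n).1 : ℝ) ^ 2 * (e n).2 := by exact_mod_cast this.symm
    rw [h2]
    rw [one_div_mul_one_div]
  have hsq : ∑ b ∈ Finset.Icc 1 N, 1 / (b : ℝ) ^ 2 ≤ 2 := by
    rcases Nat.eq_zero_or_pos N with h | h
    · rw [h]; simp
    · rw [← Finset.add_sum_Ioc_eq_sum_Icc h]
      have := sum_Ioc_inv_sq_le_sub (α := ℝ) (k := 1) (n := N) one_ne_zero h
      simp only [one_div]
      have hN : (0 : ℝ) ≤ (N : ℝ)⁻¹ := by positivity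
      have h1 : (((1 : ℕ) : ℝ) ^ 2)⁻¹ = 1 := by norm_num
      have h2 : ((1 : ℕ) : ℝ)⁻¹ = 1 := by norm_num
      rw [h1]
      rw [h2] at this
      linarith
  have hA0 : 0 ≤ ∑ a ∈ (Finset.Icc 1 N).filter (fun a => Squarefree a), (1 : ℝ) / a :=
    Finset.sum_nonneg fun a _ => by positivity
  calc ∑ n ∈ Finset.Icc 1 N, (1 : ℝ) / n = ∑ t ∈ (Finset.Icc 1 N).image e, G t := h1
    _ ≤ ∑ t ∈ T, G t := Finset.sum_le_sum_of_subset_of_nonneg hsub
        fun t _ _ => by simp only [hG]; positivity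
    _ = (∑ b ∈ Finset.Icc 1 N, 1 / (b : ℝ) ^ 2) *
        ∑ a ∈ (Finset.Icc 1 N).filter (fun a => Squarefree a), (1 : ℝ) / a := by
        rw [hT, Finset.sum_product, Finset.sum_mul_sum]
    _ ≤ _ := mul_le_mul_of_nonneg_right hsq hA0

open Classical in
theorem bv4_mass (R : ℝ) (hR : 1 ≤ R) : Real.log R / 2 ≤
    ∑ d ∈ (Finset.Icc 1 ⌊R⌋₊).filter (fun d : ℕ => Squarefree d ∧
      ∀ p : ℕ, p.Prime → p ∣ d → p ∈ (Finset.range (⌊R⌋₊ + 1)).filter Nat.Prime),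
      ∏ p ∈ d.primeFactors, (1 / (p : ℝ)) / (1 - 1 / (p : ℝ)) := by
  have h1 : Real.log R ≤ ∑ n ∈ Finset.Icc 1 ⌊R⌋₊, (1 : ℝ) / n := by
    have := log_le_harmonic_floor R (by linarith)
    rw [harmonic_eq_sum_Icc] at this
    push_cast at this
    simpa only [one_div] using this
  have h2 := bv4_harm ⌊R⌋₊
  have h3 : ∑ a ∈ (Finset.Icc 1 ⌊R⌋₊).filter (fun a => Squarefree a), (1 : ℝ) / a ≤
      ∑ d ∈ (Finset.Icc 1 ⌊R⌋₊).filter (fun d : ℕ => Squarefree d ∧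
      ∀ p : ℕ, p.Prime → p ∣ d → p ∈ (Finset.range (⌊R⌋₊ + 1)).filter Nat.Prime),
      ∏ p ∈ d.primeFactors, (1 / (p : ℝ)) / (1 - 1 / (p : ℝ)) := by
    have hset : (Finset.Icc 1 ⌊R⌋₊).filter (fun d : ℕ => Squarefree d ∧
      ∀ p : ℕ, p.Prime → p ∣ d → p ∈ (Finset.range (⌊R⌋₊ + 1)).filter Nat.Prime) =
      (Finset.Icc 1 ⌊R⌋₊).filter (fun a => Squarefree a) := by
      refine Finset.filter_congr fun d hd => ?_
      rw [Finset.mem_Icc] at hd
      constructor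
      · exact fun h => h.1
      · intro h
        refine ⟨h, fun p hp hpd => ?_⟩
        rw [Finset.mem_filter, Finset.mem_range]
        have := Nat.le_of_dvd (by omega) hpd
        exact ⟨by omega, hp⟩
    rw [hset]
    refine Finset.sum_le_sum fun d hd => ?_
    rw [Finset.mem_filter] at hd
    have hp := Nat.prod_primeFactors_of_squarefree hd.2
    have : (1 : ℝ) / d = ∏ p ∈ d.primeFactors, (1 / (p : ℝ)) := by
      conv_lhs => rw [← hp]
      push_cast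
      rw [one_div, ← Finset.prod_inv_distrib]
      simp only [one_div]
    rw [this]
    refine Finset.prod_le_prod (fun p _ => by positivity) fun p hp => ?_
    have hp2 : (2 : ℝ) ≤ p := by exact_mod_cast (Nat.prime_of_mem_primeFactors hp).two_le
    have hpos : 0 < 1 - 1 / (p : ℝ) := by
      have : 1 / (p : ℝ) ≤ 1 / 2 := by gcongr
      linarith
    rw [le_div_iff₀ hpos]
    have : 0 < 1 / (p : ℝ) := by positivity
    nlinarith
  linarith

theorem bv4_three (d : ℕ) (hd : 1 ≤ d) : (3 : ℝ) ^ d.primeFactors.card ≤ (d : ℝ) ^ 2 := by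
  have h1 : 3 ^ d.primeFactors.card ≤ d ^ 2 := by
    calc 3 ^ d.primeFactors.card = ∏ p ∈ d.primeFactors, 3 := by rw [Finset.prod_const]
      _ ≤ ∏ p ∈ d.primeFactors, p ^ 2 := by
          refine Finset.prod_le_prod' fun p hp => ?_
          have := (Nat.prime_of_mem_primeFactors hp).two_le
          nlinarith
      _ = (∏ p ∈ d.primeFactors, p) ^ 2 := by rw [Finset.prod_pow]
      _ ≤ d ^ 2 := by
          have := Nat.le_of_dvd (by omega) (Nat.prod_primeFactors_dvd d)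
          exact Nat.pow_le_pow_left this 2
  exact_mod_cast h1

/-! ### the number of characters -/

theorem bv4_card (r : ℕ) (hr : 1 ≤ r) : (Pch r).card ≤ r := by
  classical
  have : NeZero r := ⟨by omega⟩
  unfold Pch
  calc _ ≤ (Finset.univ : Finset (DirichletCharacter ℂ r)).card := Finset.card_filter_le _ _
    _ = Nat.card (DirichletCharacter ℂ r) := by rw [Finset.card_univ, Nat.card_eq_fintype_card]
    _ = r.totient := DirichletCharacter.card_eq_totient_of_hasEnoughRootsOfUnity ℂ r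
    _ ≤ r := Nat.totient_le r

/-! ### sums with the sieve weights -/

theorem bv4_abs {θ : ℕ → ℝ} {D : ℕ} (hθ3 : ∀ d, |θ d| ≤ 3 ^ d.primeFactors.card) :
    ∑ d ∈ Finset.Icc 1 D, |θ d| ≤ (D : ℝ) ^ 3 := by
  calc ∑ d ∈ Finset.Icc 1 D, |θ d| ≤ ∑ d ∈ Finset.Icc 1 D, (D : ℝ) ^ 2 := by
        refine Finset.sum_le_sum fun d hd => ?_
        rw [Finset.mem_Icc] at hd
        have h1 : (d : ℝ) ≤ D := by exact_mod_cast hd.2
        calc |θ d| ≤ 3 ^ d.primeFactors.card := hθ3 d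
          _ ≤ (d : ℝ) ^ 2 := bv4_three d hd.1
          _ ≤ (D : ℝ) ^ 2 := by gcongr
    _ = (D : ℝ) ^ 3 := by
        rw [Finset.sum_const, Nat.card_Icc, nsmul_eq_mul]
        push_cast [Nat.add_sub_cancel]
        ring

theorem bv4_off {θ : ℕ → ℝ} {D : ℕ} (hθ : ∀ d, θ d ≠ 0 → 1 ≤ d ∧ d ≤ D)
    (hθ3 : ∀ d, |θ d| ≤ 3 ^ d.primeFactors.card) (P N : ℕ) (F : ℕ → ℂ)
    (hmul : ∀ m n, F (m * n) = F m * F n) (hb : ∀ n, ‖F n‖ ≤ 1) (L : ℝ)
    (hL : ∀ A B, ‖∑ n ∈ Finset.Ioc A B, F n‖ ≤ L) :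
    ‖∑ n ∈ Finset.Ioc P N, ((∑ d ∈ n.divisors, θ d : ℝ) : ℂ) * F n‖ ≤ (D : ℝ) ^ 3 * L := by
  have hL0 : 0 ≤ L := (norm_nonneg _).trans (hL 0 0)
  rw [bv4_swap hθ]
  calc ‖∑ d ∈ Finset.Icc 1 D, (θ d : ℂ) * ∑ m ∈ Finset.Ioc (P / d) (N / d), F (d * m)‖
      ≤ ∑ d ∈ Finset.Icc 1 D, ‖(θ d : ℂ) * ∑ m ∈ Finset.Ioc (P / d) (N / d), F (d * m)‖ :=
        norm_sum_le _ _
    _ ≤ ∑ d ∈ Finset.Icc 1 D, |θ d| * L := by
        refine Finset.sum_le_sum fun d _ => ?_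
        rw [norm_mul, Complex.norm_real, Real.norm_eq_abs]
        refine mul_le_mul_of_nonneg_left ?_ (abs_nonneg _)
        simp only [hmul, ← Finset.mul_sum]
        rw [norm_mul]
        calc ‖F d‖ * ‖∑ m ∈ Finset.Ioc (P / d) (N / d), F m‖ ≤ 1 * L := by
              apply mul_le_mul (hb d) (hL _ _) (norm_nonneg _) zero_le_one
          _ = L := one_mul L
    _ = (∑ d ∈ Finset.Icc 1 D, |θ d|) * L := by rw [Finset.sum_mul]
    _ ≤ (D : ℝ) ^ 3 * L := mul_le_mul_of_nonneg_right (bv4_abs hθ3) hL0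

theorem bv4_diag {θ : ℕ → ℝ} {D : ℕ} (hθ : ∀ d, θ d ≠ 0 → 1 ≤ d ∧ d ≤ D)
    (hθ3 : ∀ d, |θ d| ≤ 3 ^ d.primeFactors.card) (P : ℕ) (η : ℝ) (hη : 0 < η) :
    ∑ n ∈ Finset.Ioc P ⌊(1 + η) * P⌋₊, ∑ d ∈ n.divisors, θ d ≤
      η * P * (∑ d ∈ Finset.Icc 1 D, θ d / d) + 2 * (D : ℝ) ^ 3 := by
  set N := ⌊(1 + η) * P⌋₊ with hN
  have hP0 : (0 : ℝ) ≤ P := by positivity
  have hN1 : (N : ℝ) ≤ (1 + η) * P := Nat.floor_le (by positivity)
  have hN2 : (1 + η) * P < N + 1 := Nat.lt_floor_add_one _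
  have h1 := bv4_swap hθ P N (fun _ => 1)
  have h2 : ∑ n ∈ Finset.Ioc P N, ∑ d ∈ n.divisors, θ d =
      ∑ d ∈ Finset.Icc 1 D, θ d * ((N / d - P / d : ℕ) : ℝ) := by
    have : ((∑ n ∈ Finset.Ioc P N, ∑ d ∈ n.divisors, θ d : ℝ) : ℂ) =
      ((∑ d ∈ Finset.Icc 1 D, θ d * ((N / d - P / d : ℕ) : ℝ) : ℝ) : ℂ) := by
      simp only [mul_one, Finset.sum_const, Nat.card_Ioc, nsmul_eq_mul] at h1
      rw [Complex.ofReal_sum, h1]
      push_cast
      rfl
    exact_mod_cast this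
  rw [h2]
  have h3 : ∀ d ∈ Finset.Icc 1 D, θ d * ((N / d - P / d : ℕ) : ℝ) ≤
      η * P * (θ d / d) + 2 * |θ d| := by
    intro d hd
    rw [Finset.mem_Icc] at hd
    have hd0 : (0 : ℝ) < d := by exact_mod_cast hd.1
    have hd1 : (1 : ℝ) ≤ d := by exact_mod_cast hd.1
    have hNP : P ≤ N := by
      rw [hN]
      apply Nat.le_floor
      nlinarith
    have hle : P / d ≤ N / d := Nat.div_le_div_right hNP
    have hcast : ((N / d - P / d : ℕ) : ℝ) = ((N / d : ℕ) : ℝ) - ((P / d : ℕ) : ℝ) := by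
      push_cast [Nat.cast_sub hle]
      ring
    have a1 : ((N / d : ℕ) : ℝ) ≤ N / d := Nat.cast_div_le
    have a2 : ((P / d : ℕ) : ℝ) ≤ P / d := Nat.cast_div_le
    have a3 : (N : ℝ) / d < ((N / d : ℕ) : ℝ) + 1 := by
      rw [div_lt_iff₀ hd0]
      have := Nat.lt_div_mul_add (a := N) (b := d) (by omega)
      have h : (N : ℝ) < ((N / d : ℕ) : ℝ) * d + d := by exact_mod_cast this
      linarith
    have a4 : (P : ℝ) / d < ((P / d : ℕ) : ℝ) + 1 := by
      rw [div_lt_iff₀ hd0]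
      have := Nat.lt_div_mul_add (a := P) (b := d) (by omega)
      have h : (P : ℝ) < ((P / d : ℕ) : ℝ) * d + d := by exact_mod_cast this
      linarith
    have b1 : (N : ℝ) / d ≤ (1 + η) * P / d := by gcongr
    have b2 : (1 + η) * P / d ≤ N / d + 1 := by
      rw [div_le_iff₀ hd0]
      have : ((N : ℝ) / d + 1) * d = N + d := by field_simp
      rw [this]; linarith
    have hdev : |((N / d - P / d : ℕ) : ℝ) - η * P / d| ≤ 2 := by
      rw [hcast, abs_le]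
      have e : (1 + η) * P / d = P / d + η * P / d := by ring
      constructor <;> linarith
    have : θ d * ((N / d - P / d : ℕ) : ℝ) =
        η * P * (θ d / d) + θ d * (((N / d - P / d : ℕ) : ℝ) - η * P / d) := by ring
    rw [this]
    have h4 : θ d * (((N / d - P / d : ℕ) : ℝ) - η * P / d) ≤ 2 * |θ d| := by
      calc θ d * (((N / d - P / d : ℕ) : ℝ) - η * P / d)
          ≤ |θ d * (((N / d - P / d : ℕ) : ℝ) - η * P / d)| := le_abs_self _
        _ = |θ d| * |((N / d - P / d : ℕ) : ℝ) - η * P / d| := abs_mul _ _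
        _ ≤ |θ d| * 2 := mul_le_mul_of_nonneg_left hdev (abs_nonneg _)
        _ = 2 * |θ d| := mul_comm _ _
    linarith
  calc ∑ d ∈ Finset.Icc 1 D, θ d * ((N / d - P / d : ℕ) : ℝ)
      ≤ ∑ d ∈ Finset.Icc 1 D, (η * P * (θ d / d) + 2 * |θ d|) := Finset.sum_le_sum h3
    _ = η * P * (∑ d ∈ Finset.Icc 1 D, θ d / d) + 2 * ∑ d ∈ Finset.Icc 1 D, |θ d| := by
        rw [Finset.sum_add_distrib, ← Finset.mul_sum, ← Finset.mul_sum]
    _ ≤ _ := by
        have := bv4_abs (θ := θ) (D := D) hθ3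
        linarith

theorem bv4_asym (η : ℝ) (hη : 0 < η) : ∃ P₀ : ℕ, 3 ≤ P₀ ∧ ∀ P : ℕ, P₀ ≤ P →
    1 ≤ Real.log P ∧ 3 * Real.log P ^ 13 ≤ η * (P : ℝ) ^ (5 / 8 : ℝ) := by
  have h1 := isLittleO_log_rpow_rpow_atTop 13 (s := 5 / 8) (by norm_num)
  have h2 := h1.def (c := η / 3) (by positivity)
  have h3 : Tendsto (fun n : ℕ => (n : ℝ)) atTop atTop := tendsto_natCast_atTop_atTop
  have h4 := h3.eventually h2
  have h5 := h3.eventually (Real.tendsto_log_atTop.eventually_ge_atTop 1)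
  obtain ⟨P₀, hP₀⟩ := Filter.eventually_atTop.mp (h4.and h5)
  refine ⟨max P₀ 3, le_max_right _ _, fun P hP => ?_⟩
  obtain ⟨a, b⟩ := hP₀ P (le_trans (le_max_left _ _) hP)
  refine ⟨b, ?_⟩
  have hl : 0 ≤ Real.log P := by linarith
  rw [Real.norm_of_nonneg (Real.rpow_nonneg hl _),
    Real.norm_of_nonneg (Real.rpow_nonneg (by positivity) _)] at a
  have e : Real.log P ^ (13 : ℝ) = Real.log P ^ 13 := by
    rw [← Real.rpow_natCast]; norm_num
  rw [e] at a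
  linarith

/-- the inequality for one value of `P` -/
theorem bv4_one (η : ℝ) (hη : 0 < η) (P : ℕ) (hP3 : 3 ≤ P) (hlog : 1 ≤ Real.log P)
    (hbig : 3 * Real.log P ^ 13 ≤ η * (P : ℝ) ^ (5 / 8 : ℝ)) :
    ∑ r ∈ Finset.Icc 1 ⌊Real.log P ^ 3⌋₊, ∑ χ ∈ Pch r, ‖∑ p ∈ QP η P, χ (p : ZMod r)‖ ^ 2 ≤
      ((QP η P).card : ℝ) * (33 * (η * P / Real.log P)) := by
  classical
  set L := Real.log P with hL
  set M := ⌊L ^ 3⌋₊ with hM
  have hL0 : 0 < L := by linarith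
  have hPr : (3 : ℝ) ≤ P := by exact_mod_cast hP3
  have hP0 : (0 : ℝ) < P := by linarith
  set R : ℝ := (P : ℝ) ^ (1 / 16 : ℝ) with hRdef
  have hR1 : 1 ≤ R := Real.one_le_rpow (by linarith) (by norm_num)
  have hR0 : 0 < R := by linarith
  have hlogR : Real.log R = L / 16 := by
    rw [hRdef, Real.log_rpow hP0]; ring
  have hR6 : R ^ 6 = (P : ℝ) ^ (3 / 8 : ℝ) := by
    rw [hRdef, ← Real.rpow_natCast, ← Real.rpow_mul hP0.le]
    norm_num
  have hR2 : R ^ 2 ≤ P := by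
    rw [hRdef, ← Real.rpow_natCast, ← Real.rpow_mul hP0.le]
    calc (P : ℝ) ^ (1 / 16 * ((2 : ℕ) : ℝ)) ≤ (P : ℝ) ^ (1 : ℝ) :=
          Real.rpow_le_rpow_of_exponent_le (by linarith) (by norm_num)
      _ = P := Real.rpow_one _
  set S : Finset ℕ := (Finset.range (⌊R⌋₊ + 1)).filter Nat.Prime with hS
  obtain ⟨θ, t1, t2, t3, t4, t5⟩ := selberg_weights S
    (fun p hp => (Finset.mem_filter.mp hp).2) (fun p => 1 / (p : ℝ))
    (fun p hp => by
      have h2 : (2 : ℝ) ≤ p := by exact_mod_cast (Finset.mem_filter.mp hp).2.two_le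
      constructor
      · positivity
      · rw [div_lt_one (by linarith)]; linarith) R hR1
  set D := ⌊R ^ 2⌋₊ with hD
  have hDR : (D : ℝ) ≤ R ^ 2 := Nat.floor_le (by positivity)
  have hD3 : (D : ℝ) ^ 3 ≤ R ^ 6 := by
    calc (D : ℝ) ^ 3 ≤ (R ^ 2) ^ 3 := by gcongr
      _ = R ^ 6 := by ring
  have hθ : ∀ d, θ d ≠ 0 → 1 ≤ d ∧ d ≤ D := by
    intro d hd
    obtain ⟨h1, _, h3⟩ := t1 d hd
    refine ⟨Nat.pos_of_ne_zero h1.ne_zero, Nat.le_floor h3⟩
  have hmass := bv4_mass R hR1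
  have hsum : ∑ d ∈ Finset.Icc 1 D, θ d / d ≤ 32 / L := by
    have e1 : ∑ d ∈ Finset.Icc 1 D, θ d / d =
        ∑ d ∈ Finset.Icc 1 D, θ d * ∏ p ∈ d.primeFactors, (1 / (p : ℝ)) := by
      refine Finset.sum_congr rfl fun d _ => ?_
      by_cases h0 : θ d = 0
      · rw [h0]; simp
      · have hp := Nat.prod_primeFactors_of_squarefree (t1 d h0).1
        have : (1 : ℝ) / d = ∏ p ∈ d.primeFactors, (1 / (p : ℝ)) := by
          conv_lhs => rw [← hp]
          push_cast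
          rw [one_div, ← Finset.prod_inv_distrib]
          simp only [one_div]
        rw [← this]; ring
    rw [e1]
    refine t5.trans ?_
    have hpos : 0 < Real.log R / 2 := by rw [hlogR]; positivity
    calc _ ≤ 1 / (Real.log R / 2) := one_div_le_one_div_of_le hpos hmass
      _ = 32 / L := by rw [hlogR]; field_simp; norm_num
  set N := ⌊(1 + η) * P⌋₊ with hN
  set ν : ℕ → ℝ := fun n => ∑ d ∈ n.divisors, θ d with hν
  set I : Finset (Σ r : ℕ, DirichletCharacter ℂ r) :=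
    (Finset.Icc 1 M).sigma (fun r => Pch r) with hI
  set f : (Σ r : ℕ, DirichletCharacter ℂ r) → ℕ → ℂ := fun i n => i.2 (n : ZMod i.1) with hf
  have hM3 : (M : ℝ) ≤ L ^ 3 := Nat.floor_le (by positivity)
  have hM0 : (0 : ℝ) ≤ M := by positivity
  have hIcard : (I.card : ℝ) ≤ (M : ℝ) ^ 2 := by
    have : I.card ≤ M ^ 2 := by
      rw [hI, Finset.card_sigma]
      calc ∑ r ∈ Finset.Icc 1 M, (Pch r).card ≤ ∑ r ∈ Finset.Icc 1 M, M := by
            refine Finset.sum_le_sum fun r hr => ?_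
            rw [Finset.mem_Icc] at hr
            exact (bv4_card r hr.1).trans hr.2
        _ = M ^ 2 := by
            rw [Finset.sum_const, Nat.card_Icc, smul_eq_mul]
            simp [sq]
    exact_mod_cast this
  have hf1 : ∀ i n, ‖f i n‖ ≤ 1 := fun i n => DirichletCharacter.norm_le_one _ _
  have hfm : ∀ i m n, f i (m * n) = f i m * f i n := by
    intro i m n
    simp only [hf]
    push_cast
    rw [map_mul]
  have hmemI : ∀ i ∈ I, 1 ≤ i.1 ∧ i.1 ≤ M ∧ i.2.IsPrimitive := by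
    intro i hi
    rw [hI, Finset.mem_sigma, Finset.mem_Icc] at hi
    refine ⟨hi.1.1, hi.1.2, ?_⟩
    have := hi.2
    unfold Pch at this
    rw [Finset.mem_filter] at this
    exact this.2
  -- the off-diagonal terms
  have hoff : ∀ i ∈ I, ∀ j ∈ I, i ≠ j →
      ‖∑ n ∈ Finset.Ioc P N, (ν n : ℂ) * (f i n * conj (f j n))‖ ≤ R ^ 6 * (M : ℝ) ^ 2 := by
    intro i hi j hj hij
    obtain ⟨i1, i2, i3⟩ := hmemI i hi
    obtain ⟨j1, j2, j3⟩ := hmemI j hj
    have hprod : 1 ≤ i.1 * j.1 := Nat.mul_pos i1 j1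
    have hper : ∀ n, (fun n => f i n * conj (f j n)) (n + i.1 * j.1) =
        (fun n => f i n * conj (f j n)) n := by
      intro n
      simp only [hf]
      congr 2
      · push_cast
        simp
      · push_cast
        simp
    have hb : ∀ n, ‖(fun n => f i n * conj (f j n)) n‖ ≤ 1 := by
      intro n
      simp only
      rw [norm_mul, Complex.norm_conj]
      calc ‖f i n‖ * ‖f j n‖ ≤ 1 * 1 := mul_le_mul (hf1 i n) (hf1 j n) (norm_nonneg _) zero_le_one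
        _ = 1 := one_mul 1
    have hz : ∑ n ∈ Finset.range (i.1 * j.1), (fun n => f i n * conj (f j n)) n = 0 :=
      bv4_char i1 j1 i.2 j.2 i3 j3 hij
    have hint : ∀ A B, ‖∑ n ∈ Finset.Ioc A B, (fun n => f i n * conj (f j n)) n‖ ≤
        (M : ℝ) ^ 2 := by
      intro A B
      refine (bv4_interval (i.1 * j.1) hprod _ hper hb hz A B).trans ?_
      have : i.1 * j.1 ≤ M ^ 2 := by
        rw [sq]; exact Nat.mul_le_mul i2 j2
      exact_mod_cast this
    have hmul : ∀ m n, (fun n => f i n * conj (f j n)) (m * n) =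
        (fun n => f i n * conj (f j n)) m * (fun n => f i n * conj (f j n)) n := by
      intro m n
      simp only [hfm, map_mul]
      ring
    have := bv4_off hθ t2 P N (fun n => f i n * conj (f j n)) hmul hb _ hint
    refine this.trans ?_
    gcongr
  have hνnn : ∀ n ∈ Finset.Ioc P N, 0 ≤ ν n := by
    intro n hn
    rw [Finset.mem_Ioc] at hn
    exact t4 n (by omega)
  have hdiag : ∀ i ∈ I, ‖∑ n ∈ Finset.Ioc P N, (ν n : ℂ) * (f i n * conj (f i n))‖ ≤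
      η * P * (32 / L) + 2 * R ^ 6 := by
    intro i _
    calc ‖∑ n ∈ Finset.Ioc P N, (ν n : ℂ) * (f i n * conj (f i n))‖
        ≤ ∑ n ∈ Finset.Ioc P N, ‖(ν n : ℂ) * (f i n * conj (f i n))‖ := norm_sum_le _ _
      _ ≤ ∑ n ∈ Finset.Ioc P N, ν n := by
          refine Finset.sum_le_sum fun n hn => ?_
          rw [norm_mul, norm_mul, Complex.norm_conj, Complex.norm_real,
            Real.norm_of_nonneg (hνnn n hn)]
          have h1 : ‖f i n‖ * ‖f i n‖ ≤ 1 := by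
            calc ‖f i n‖ * ‖f i n‖ ≤ 1 * 1 :=
                  mul_le_mul (hf1 i n) (hf1 i n) (norm_nonneg _) zero_le_one
              _ = 1 := one_mul 1
          calc ν n * (‖f i n‖ * ‖f i n‖) ≤ ν n * 1 :=
                mul_le_mul_of_nonneg_left h1 (hνnn n hn)
            _ = ν n := mul_one _
      _ ≤ η * P * (∑ d ∈ Finset.Icc 1 D, θ d / d) + 2 * (D : ℝ) ^ 3 := bv4_diag hθ t2 P η hη
      _ ≤ η * P * (32 / L) + 2 * R ^ 6 := by
          have : 0 ≤ η * P := by positivity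
          have h1 := mul_le_mul_of_nonneg_left hsum this
          linarith
  set K : ℝ := η * P * (32 / L) + 2 * R ^ 6 + (M : ℝ) ^ 2 * (R ^ 6 * (M : ℝ) ^ 2) with hK
  have hK0 : 0 ≤ K := by positivity
  have hKi : ∀ i ∈ I, ∑ j ∈ I, ‖∑ n ∈ Finset.Ioc P N, (ν n : ℂ) * (f i n * conj (f j n))‖ ≤ K := by
    intro i hi
    rw [← Finset.add_sum_erase I _ hi]
    have h1 := hdiag i hi
    have h2 : ∑ j ∈ I.erase i, ‖∑ n ∈ Finset.Ioc P N, (ν n : ℂ) * (f i n * conj (f j n))‖ ≤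
        (M : ℝ) ^ 2 * (R ^ 6 * (M : ℝ) ^ 2) := by
      calc _ ≤ ∑ j ∈ I.erase i, R ^ 6 * (M : ℝ) ^ 2 := by
            refine Finset.sum_le_sum fun j hj => ?_
            rw [Finset.mem_erase] at hj
            exact hoff i hi j hj.2 (Ne.symm hj.1)
        _ = ((I.erase i).card : ℝ) * (R ^ 6 * (M : ℝ) ^ 2) := by
            rw [Finset.sum_const, nsmul_eq_mul]
        _ ≤ (M : ℝ) ^ 2 * (R ^ 6 * (M : ℝ) ^ 2) := by
            have h3 : ((I.erase i).card : ℝ) ≤ I.card := by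
              exact_mod_cast Finset.card_erase_le
            gcongr
            exact h3.trans hIcard
    rw [hK]
    linarith
  have hsub : QP η P ⊆ Finset.Ioc P N := by
    intro p hp
    unfold QP pr1 at hp
    rw [Finset.mem_filter, Finset.mem_range] at hp
    rw [Finset.mem_Ioc]
    refine ⟨by exact_mod_cast hp.2.2.2.1, ?_⟩
    have := hp.1
    omega
  have hν1 : ∀ p ∈ QP η P, ν p = 1 := by
    intro p hp
    unfold QP pr1 at hp
    rw [Finset.mem_filter] at hp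
    have hpr : p.Prime := hp.2.1
    simp only [hν]
    rw [hpr.divisors, Finset.sum_pair hpr.one_lt.ne, t3]
    have : θ p = 0 := by
      by_contra hne
      have h1 := (t1 p hne).2.2
      have h2 := hp.2.2.2.1
      linarith
    rw [this, add_zero]
  have hmain := bv4_dual I (QP η P) (Finset.Ioc P N) hsub ν hνnn hν1 f K hK0 hKi
  have hconv : ∑ r ∈ Finset.Icc 1 M, ∑ χ ∈ Pch r, ‖∑ p ∈ QP η P, χ (p : ZMod r)‖ ^ 2 =
      ∑ i ∈ I, ‖∑ p ∈ QP η P, f i p‖ ^ 2 := by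
    rw [hI, Finset.sum_sigma]
  rw [hconv]
  refine hmain.trans ?_
  have hKle : K ≤ 33 * (η * P / L) := by
    have e1 : η * P * (32 / L) = 32 * (η * P / L) := by ring
    have e2 : (M : ℝ) ^ 2 * (R ^ 6 * (M : ℝ) ^ 2) ≤ R ^ 6 * L ^ 12 := by
      calc (M : ℝ) ^ 2 * (R ^ 6 * (M : ℝ) ^ 2) = R ^ 6 * (M : ℝ) ^ 4 := by ring
        _ ≤ R ^ 6 * (L ^ 3) ^ 4 := by gcongr
        _ = R ^ 6 * L ^ 12 := by ring
    have e3 : (1 : ℝ) ≤ L ^ 12 := one_le_pow₀ hlog
    have e4 : 2 * R ^ 6 + R ^ 6 * L ^ 12 ≤ R ^ 6 * (3 * L ^ 12) := by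
      have : 0 ≤ R ^ 6 := by positivity
      nlinarith
    have e5 : R ^ 6 * (3 * L ^ 12) ≤ η * P / L := by
      rw [le_div_iff₀ hL0]
      calc R ^ 6 * (3 * L ^ 12) * L = R ^ 6 * (3 * L ^ 13) := by ring
        _ ≤ R ^ 6 * (η * (P : ℝ) ^ (5 / 8 : ℝ)) := by gcongr
        _ = η * ((P : ℝ) ^ (3 / 8 : ℝ) * (P : ℝ) ^ (5 / 8 : ℝ)) := by rw [hR6]; ring
        _ = η * P := by
            rw [← Real.rpow_add hP0]
            norm_num
    rw [hK, e1]
    linarith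
  have hc : (0 : ℝ) ≤ ((QP η P).card : ℝ) := by positivity
  exact mul_le_mul_of_nonneg_left hKle hc

theorem char_hm_pr : ∃ C : ℝ, 1 ≤ C ∧ ∀ η : ℝ, 0 < η → η ≤ 1 → ∃ P₀ : ℕ, ∀ P : ℕ, P₀ ≤ P →
    ∑ r ∈ Finset.Icc 1 ⌊Real.log P ^ 3⌋₊, ∑ χ ∈ Pch r, ‖∑ p ∈ QP η P, χ (p : ZMod r)‖ ^ 2 ≤
      C * ((QP η P).card : ℝ) ^ 2 := by
  obtain ⟨c, hc, h⟩ := qp_lower
  refine ⟨max 1 (33 / c), le_max_left _ _, fun η hη hη1 => ?_⟩
  obtain ⟨P₁, h⟩ := h η hη hη1
  obtain ⟨P₂, hP₂, h2⟩ := bv4_asym η hη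
  refine ⟨max P₁ P₂, fun P hP => ?_⟩
  have q1 := h P (le_trans (le_max_left _ _) hP)
  obtain ⟨q2, q3⟩ := h2 P (le_trans (le_max_right _ _) hP)
  have hP3 : 3 ≤ P := le_trans hP₂ (le_trans (le_max_right _ _) hP)
  refine (bv4_one η hη P hP3 q2 q3).trans ?_
  have hQ : (0 : ℝ) ≤ ((QP η P).card : ℝ) := by positivity
  have e1 : 33 * (η * P / Real.log P) ≤ 33 / c * ((QP η P).card : ℝ) := by
    have : η * P / Real.log P ≤ ((QP η P).card : ℝ) / c := by
      rw [le_div_iff₀ hc]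
      calc η * P / Real.log P * c = c * η * P / Real.log P := by ring
        _ ≤ _ := q1
    calc 33 * (η * P / Real.log P) ≤ 33 * (((QP η P).card : ℝ) / c) := by gcongr
      _ = _ := by ring
  calc ((QP η P).card : ℝ) * (33 * (η * P / Real.log P))
      ≤ ((QP η P).card : ℝ) * (33 / c * ((QP η P).card : ℝ)) :=
        mul_le_mul_of_nonneg_left e1 hQ
    _ = 33 / c * ((QP η P).card : ℝ) ^ 2 := by ring
    _ ≤ max 1 (33 / c) * ((QP η P).card : ℝ) ^ 2 := by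
        gcongr
        exact le_max_right _ _

end Pool.Agent.T2


namespace Pool.Agent.T2

theorem char_hm : type_of% @char_hm_pr := @char_hm_pr

end Pool.Agent.T2
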