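import Pool.Agent.Lib_helper10.T2.DefsB
import Pool.Agent.Lib_helper92.SQA.RSUM2
import Pool.Agent.Lib_helper10.T2F.BPR
import Pool.Agent.Lib_helper10.T2F.BV1
import Pool.Agent.Lib_helper10.T2F.BV2
import Pool.Agent.Lib_helper10.T2F.BV3
import Pool.Agent.Lib_helper10.T2F.BV4

/-!
# T2, block BVR: the variance_pr
-/

namespace Pool.Agent.T2

open Filter Topology

theorem bvr_ratio_one {m : ℕ} (hm : 1 ≤ m) : 1 ≤ (m : ℝ) / Nat.totient m := by
  have h1 : (0 : ℝ) < Nat.totient m := by exact_mod_cast Nat.totient_pos.mpr hm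
  rw [le_div_iff₀ h1, one_mul]
  exact_mod_cast Nat.totient_le m

/-- the mean value of `m/φ(m)` is bounded -/
theorem bvr_mean : ∃ C : ℝ, 1 ≤ C ∧ ∀ N : ℕ,
    ∑ m ∈ Finset.Icc 1 N, (m : ℝ) / Nat.totient m ≤ C * N := by
  obtain ⟨C, hC, h⟩ := SQ.rsum2_pr
  have hsum : Summable (fun d : ℕ => (d : ℝ) ^ (-(3 / 2) : ℝ)) :=
    Real.summable_nat_rpow.2 (by norm_num)
  set Z := ∑' d : ℕ, (d : ℝ) ^ (-(3 / 2) : ℝ) with hZ
  have hZ0 : 0 ≤ Z := tsum_nonneg fun d => by positivity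
  refine ⟨C * Z + 1, by nlinarith [mul_nonneg hC hZ0], fun N => ?_⟩
  have h1 : ∑ m ∈ Finset.Icc 1 N, (m : ℝ) / Nat.totient m ≤
      ∑ m ∈ Finset.Icc 1 N, C * ∑ d ∈ m.divisors, (√(d : ℝ))⁻¹ := by
    refine Finset.sum_le_sum fun m hm => ?_
    have hm1 : 1 ≤ m := (Finset.mem_Icc.1 hm).1
    refine le_trans ?_ (h m hm1)
    exact le_self_pow₀ (bvr_ratio_one hm1) (by norm_num)
  have h2 : ∑ m ∈ Finset.Icc 1 N, ∑ d ∈ m.divisors, (√(d : ℝ))⁻¹ =
      ∑ d ∈ Finset.Icc 1 N, ∑ m ∈ (Finset.Ioc 0 N).filter (fun m => d ∣ m), (√(d : ℝ))⁻¹ := by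
    refine Finset.sum_comm' fun m d => ?_
    simp only [Finset.mem_Icc, Nat.mem_divisors, Finset.mem_filter, Finset.mem_Ioc]
    constructor
    · rintro ⟨⟨h1, h2⟩, h3, h4⟩
      have h5 := Nat.le_of_dvd h1 h3
      have h6 := Nat.pos_of_dvd_of_pos h3 h1
      exact ⟨⟨⟨h1, h2⟩, h3⟩, h6, by omega⟩
    · rintro ⟨⟨⟨h1, h2⟩, h3⟩, h4, h5⟩
      exact ⟨⟨h1, h2⟩, h3, by omega⟩
  have h3 : ∑ d ∈ Finset.Icc 1 N, ∑ m ∈ (Finset.Ioc 0 N).filter (fun m => d ∣ m),
      (√(d : ℝ))⁻¹ ≤ N * Z := by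
    calc ∑ d ∈ Finset.Icc 1 N, ∑ m ∈ (Finset.Ioc 0 N).filter (fun m => d ∣ m), (√(d : ℝ))⁻¹
        = ∑ d ∈ Finset.Icc 1 N, ((N / d : ℕ) : ℝ) * (√(d : ℝ))⁻¹ := by
          refine Finset.sum_congr rfl fun d _ => ?_
          rw [Finset.sum_const, Nat.Ioc_filter_dvd_card_eq_div, nsmul_eq_mul]
      _ ≤ ∑ d ∈ Finset.Icc 1 N, (N : ℝ) * (d : ℝ) ^ (-(3 / 2) : ℝ) := by
          refine Finset.sum_le_sum fun d hd => ?_
          have hd1 : 1 ≤ d := (Finset.mem_Icc.1 hd).1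
          have hd0 : (0 : ℝ) < d := by exact_mod_cast hd1
          have e1 : ((N / d : ℕ) : ℝ) ≤ (N : ℝ) / d := Nat.cast_div_le
          have e2 : (d : ℝ) ^ (-(3 / 2) : ℝ) = (d : ℝ)⁻¹ * (√(d : ℝ))⁻¹ := by
            rw [Real.sqrt_eq_rpow, ← Real.rpow_neg hd0.le, ← Real.rpow_neg_one,
              ← Real.rpow_add hd0]
            norm_num
          rw [e2, ← mul_assoc]
          have e3 : 0 ≤ (√(d : ℝ))⁻¹ := by positivity
          refine mul_le_mul_of_nonneg_right ?_ e3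
          rw [← div_eq_mul_inv]
          exact e1
      _ = (N : ℝ) * ∑ d ∈ Finset.Icc 1 N, (d : ℝ) ^ (-(3 / 2) : ℝ) := by rw [Finset.mul_sum]
      _ ≤ N * Z := by
          refine mul_le_mul_of_nonneg_left ?_ (Nat.cast_nonneg N)
          exact hsum.sum_le_tsum _ fun d _ => by positivity
  rw [← Finset.mul_sum, h2] at h1
  have hN : (0 : ℝ) ≤ N := Nat.cast_nonneg N
  nlinarith [mul_le_mul_of_nonneg_left h3 hC]

/-- the sum over the multiples of `r` -/
theorem bvr_mult (δ C₄ : ℝ) (hδ : 0 < δ) (hC : 1 ≤ C₄) : ∃ K : ℝ, 0 < K ∧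
    ∀ (r : ℕ) (X : ℝ), 1 ≤ r → 0 < X →
    ∑ D ∈ (Finset.Icc 1 ⌊C₄ * X⌋₊).filter (fun D : ℕ => δ * X < (D : ℝ) ∧ r ∣ D),
      1 / (Nat.totient D : ℝ) ≤ K / Nat.totient r := by
  obtain ⟨C, hC1, hm⟩ := bvr_mean
  refine ⟨C * C₄ / δ, by positivity, fun r X hr hX => ?_⟩
  have hr0 : (0 : ℝ) < r := by exact_mod_cast hr
  have hφ : (0 : ℝ) < Nat.totient r := by exact_mod_cast Nat.totient_pos.mpr hr
  set N := ⌊C₄ * X / r⌋₊ with hN
  have hsub : (Finset.Icc 1 ⌊C₄ * X⌋₊).filter (fun D : ℕ => δ * X < (D : ℝ) ∧ r ∣ D) =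
      ((Finset.Icc 1 N).filter (fun m : ℕ => δ * X < (r : ℝ) * m)).image (fun m => r * m) := by
    ext D
    simp only [Finset.mem_filter, Finset.mem_Icc, Finset.mem_image]
    constructor
    · rintro ⟨⟨h1, h2⟩, h3, m, rfl⟩
      refine ⟨m, ⟨⟨Nat.pos_of_mul_pos_left h1, ?_⟩, ?_⟩, rfl⟩
      · rw [hN]
        refine Nat.le_floor ?_
        rw [le_div_iff₀ hr0]
        have h4 : ((r * m : ℕ) : ℝ) ≤ C₄ * X := (Nat.le_floor_iff (by positivity)).1 h2
        push_cast at h4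
        linarith
      · push_cast at h3
        exact h3
    · rintro ⟨m, ⟨⟨h1, h2⟩, h3⟩, rfl⟩
      refine ⟨⟨Nat.mul_pos hr h1, ?_⟩, ?_, dvd_mul_right _ _⟩
      · refine Nat.le_floor ?_
        have h4 : (m : ℝ) ≤ C₄ * X / r := (Nat.le_floor_iff (by positivity)).1 h2
        rw [le_div_iff₀ hr0] at h4
        push_cast
        linarith
      · push_cast
        exact h3
  rw [hsub, Finset.sum_image (fun a _ b _ hab => Nat.eq_of_mul_eq_mul_left hr hab)]
  calc ∑ m ∈ (Finset.Icc 1 N).filter (fun m : ℕ => δ * X < (r : ℝ) * m),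
        1 / (Nat.totient (r * m) : ℝ)
      ≤ ∑ m ∈ (Finset.Icc 1 N).filter (fun m : ℕ => δ * X < (r : ℝ) * m),
        (1 / (Nat.totient r : ℝ)) * (r / (δ * X)) * ((m : ℝ) / Nat.totient m) := by
        refine Finset.sum_le_sum fun m hm => ?_
        rw [Finset.mem_filter, Finset.mem_Icc] at hm
        obtain ⟨⟨hm1, -⟩, hm3⟩ := hm
        have hφm : (0 : ℝ) < Nat.totient m := by exact_mod_cast Nat.totient_pos.mpr hm1
        have e1 : (Nat.totient r : ℝ) * Nat.totient m ≤ Nat.totient (r * m) := by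
          exact_mod_cast Nat.totient_super_multiplicative r m
        have e2 : 1 / (Nat.totient (r * m) : ℝ) ≤ 1 / (Nat.totient r * Nat.totient m) :=
          one_div_le_one_div_of_le (by positivity) e1
        refine e2.trans ?_
        have e3 : 1 ≤ (r : ℝ) / (δ * X) * m := by
          rw [div_mul_eq_mul_div, le_div_iff₀ (by positivity)]
          linarith
        calc 1 / ((Nat.totient r : ℝ) * Nat.totient m) =
              (1 / (Nat.totient r * Nat.totient m)) * 1 := by ring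
          _ ≤ (1 / (Nat.totient r * Nat.totient m)) * ((r : ℝ) / (δ * X) * m) :=
              mul_le_mul_of_nonneg_left e3 (by positivity)
          _ = _ := by field_simp
    _ ≤ ∑ m ∈ Finset.Icc 1 N,
        (1 / (Nat.totient r : ℝ)) * (r / (δ * X)) * ((m : ℝ) / Nat.totient m) :=
        Finset.sum_le_sum_of_subset_of_nonneg (Finset.filter_subset _ _)
          fun m _ _ => by positivity
    _ = (1 / (Nat.totient r : ℝ)) * (r / (δ * X)) *
        ∑ m ∈ Finset.Icc 1 N, (m : ℝ) / Nat.totient m := by rw [← Finset.mul_sum]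
    _ ≤ (1 / (Nat.totient r : ℝ)) * (r / (δ * X)) * (C * N) :=
        mul_le_mul_of_nonneg_left (hm N) (by positivity)
    _ ≤ (1 / (Nat.totient r : ℝ)) * (r / (δ * X)) * (C * (C₄ * X / r)) := by
        have e1 : (N : ℝ) ≤ C₄ * X / r := Nat.floor_le (by positivity)
        gcongr
    _ = C * C₄ / δ / Nat.totient r := by field_simp

/-- `1/φ(r)` is small -/
theorem bvr_small (e : ℝ) (he : 0 < e) : ∃ R₀ : ℕ, 1 ≤ R₀ ∧ ∀ r : ℕ, R₀ < r →
    1 / (Nat.totient r : ℝ) ≤ e := by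
  obtain ⟨C, hC, h⟩ := SQ.rsum2_pr
  refine ⟨⌈C / e ^ 4⌉₊ + 1, by omega, fun r hr => ?_⟩
  have hr1 : 1 ≤ r := by omega
  have hr0 : (0 : ℝ) < r := by exact_mod_cast hr1
  have hφ : (0 : ℝ) < Nat.totient r := by exact_mod_cast Nat.totient_pos.mpr hr1
  have h1 := h r hr1
  have h2 : ∑ d ∈ r.divisors, (√(d : ℝ))⁻¹ ≤ r := by
    calc ∑ d ∈ r.divisors, (√(d : ℝ))⁻¹ ≤ ∑ d ∈ r.divisors, (1 : ℝ) := by
          refine Finset.sum_le_sum fun d hd => ?_
          have hd1 : (1 : ℝ) ≤ d := by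
            exact_mod_cast Nat.pos_of_mem_divisors hd
          exact inv_le_one_of_one_le₀ (Real.one_le_sqrt.2 hd1)
      _ = r.divisors.card := by rw [Finset.sum_const, nsmul_eq_mul, mul_one]
      _ ≤ r := by exact_mod_cast Nat.card_divisors_le_self r
  have h3 : ((r : ℝ) / Nat.totient r) ^ 4 ≤ C * r := h1.trans (mul_le_mul_of_nonneg_left h2 hC)
  have h4 : C / e ^ 4 ≤ r := by
    have e1 := Nat.le_ceil (C / e ^ 4)
    have e2 : ((⌈C / e ^ 4⌉₊ + 1 : ℕ) : ℝ) < r := by exact_mod_cast hr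
    push_cast at e2
    linarith
  rw [div_le_iff₀ (by positivity)] at h4
  have h5 : (1 / (Nat.totient r : ℝ)) ^ 4 ≤ e ^ 4 := by
    have e1 : ((r : ℝ) / Nat.totient r) ^ 4 = (r : ℝ) ^ 4 * (1 / (Nat.totient r : ℝ)) ^ 4 := by
      rw [← mul_pow]
      congr 1
      ring
    rw [e1] at h3
    have e2 : C * r ≤ (r : ℝ) ^ 4 * e ^ 4 := by
      have e3 : (r : ℝ) * e ^ 4 * r ≤ (r : ℝ) ^ 4 * e ^ 4 := by
        have e4 : (1 : ℝ) ≤ r := by exact_mod_cast hr1
        have e5 : (r : ℝ) ^ 2 ≤ (r : ℝ) ^ 4 := pow_le_pow_right₀ e4 (by norm_num)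
        have e6 : 0 ≤ e ^ 4 := by positivity
        nlinarith [mul_le_mul_of_nonneg_right e5 e6]
      have e7 := mul_le_mul_of_nonneg_right h4 hr0.le
      linarith
    exact le_of_mul_le_mul_left (h3.trans e2) (by positivity)
  exact le_of_pow_le_pow_left₀ (by norm_num) he.le h5

/-- a dyadic decomposition -/
theorem bvr_dyadic (f : ℕ → ℝ) (hf : ∀ r, 0 ≤ f r) (L : ℕ) (hL : 1 ≤ L) (A B : ℝ) (hA : 0 ≤ A)
    (hB : 0 ≤ B) (h : ∀ R : ℕ, 1 ≤ R → ∑ r ∈ Finset.Ioc R (2 * R), f r ≤ A / R + B * R) (M : ℕ) :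
    ∑ r ∈ Finset.Ioc L M, f r ≤ 2 * A / L + 2 * B * M := by
  have hL0 : (0 : ℝ) < L := by exact_mod_cast hL
  rcases Nat.lt_or_ge L M with hLM | hLM
  · have key : ∀ J : ℕ, ∑ r ∈ Finset.Ioc L (2 ^ J * L), f r ≤
        (2 - 2 / 2 ^ J) * A / L + B * (2 ^ J - 1) * L := by
      intro J
      induction J with
      | zero => simp
      | succ J ih =>
        have h1 : L ≤ 2 ^ J * L := Nat.le_mul_of_pos_left _ (by positivity)
        have h2 : 2 ^ J * L ≤ 2 ^ (J + 1) * L := by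
          rw [pow_succ, mul_assoc, mul_comm 2 L, ← mul_assoc]
          omega
        rw [← Finset.sum_Ioc_consecutive _ h1 h2]
        have h3 := h (2 ^ J * L) (Nat.mul_pos (by positivity) hL)
        have e1 : 2 * (2 ^ J * L) = 2 ^ (J + 1) * L := by ring
        rw [e1] at h3
        refine (add_le_add ih h3).trans (le_of_eq ?_)
        push_cast
        field_simp
        ring
    have hex : ∃ J : ℕ, M ≤ 2 ^ J * L := by
      refine ⟨M, ?_⟩
      have h1 : M ≤ 2 ^ M := Nat.lt_two_pow_self.le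
      exact h1.trans (Nat.le_mul_of_pos_right _ hL)
    classical
    set J := Nat.find hex with hJ
    have hJ1 : M ≤ 2 ^ J * L := Nat.find_spec hex
    have hJ0 : J ≠ 0 := by
      intro h0
      rw [h0] at hJ1
      omega
    obtain ⟨j, hj⟩ := Nat.exists_eq_succ_of_ne_zero hJ0
    have hJ2 : 2 ^ j * L < M := by
      have := Nat.find_min hex (m := j) (by omega)
      omega
    have h1 : ∑ r ∈ Finset.Ioc L M, f r ≤ ∑ r ∈ Finset.Ioc L (2 ^ J * L), f r :=
      Finset.sum_le_sum_of_subset_of_nonneg (Finset.Ioc_subset_Ioc_right hJ1) fun r _ _ => hf r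
    refine h1.trans ((key J).trans ?_)
    have e1 : ((2 : ℝ) ^ j * L) ≤ M := by exact_mod_cast hJ2.le
    have e2 : (2 : ℝ) ^ J * L ≤ 2 * M := by
      rw [hj, pow_succ]
      linarith
    have e3 : (2 - 2 / (2 : ℝ) ^ J) * A / L ≤ 2 * A / L := by
      have : 0 ≤ 2 / (2 : ℝ) ^ J := by positivity
      gcongr
      linarith
    have e4 : B * (2 ^ J - 1) * L ≤ 2 * B * M := by
      have e5 : ((2 : ℝ) ^ J - 1) * L ≤ 2 * M := by nlinarith
      nlinarith [mul_le_mul_of_nonneg_left e5 hB]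
    linarith
  · rw [Finset.Ioc_eq_empty_of_le hLM, Finset.sum_empty]
    positivity

/-- elementary asymptotics -/
theorem bvr_asymp (κ c : ℝ) (hc : 0 < c) : ∀ᶠ P : ℕ in atTop,
    κ * (P : ℝ) ^ 2 / Real.log P ^ 3 + κ * P ≤ c * (P : ℝ) ^ 2 / Real.log P ^ 2 := by
  have hlog : Tendsto (fun P : ℕ => Real.log P) atTop atTop :=
    Real.tendsto_log_atTop.comp tendsto_natCast_atTop_atTop
  have h1 : Tendsto (fun P : ℕ => κ * (Real.log P)⁻¹) atTop (𝓝 0) := by
    have := (tendsto_inv_atTop_zero.comp hlog).const_mul κ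
    simpa using this
  have h2 : Tendsto (fun P : ℕ => κ * (Real.log P ^ 2 / P)) atTop (𝓝 0) := by
    have h3 : Tendsto (fun x : ℝ => Real.log x ^ 2 / x) atTop (𝓝 0) := by
      have h4 := isLittleO_log_rpow_rpow_atTop (s := 1) 2 (by norm_num)
      have h5 := h4.tendsto_div_nhds_zero
      refine h5.congr fun x => ?_
      rw [Real.rpow_one, Real.rpow_two]
    have := (h3.comp tendsto_natCast_atTop_atTop).const_mul κ
    simpa using this
  have h3 := (h1.add h2).eventually_lt_const (u := c) (by simpa using hc)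
  filter_upwards [h3, hlog.eventually_gt_atTop 0, eventually_gt_atTop 0] with P hP hl hP0
  have hP1 : (0 : ℝ) < P := by exact_mod_cast hP0
  have e1 : κ * (P : ℝ) ^ 2 / Real.log P ^ 3 + κ * P =
      (κ * (Real.log P)⁻¹ + κ * (Real.log P ^ 2 / P)) * ((P : ℝ) ^ 2 / Real.log P ^ 2) := by
    field_simp
  rw [e1]
  have e2 : 0 ≤ (P : ℝ) ^ 2 / Real.log P ^ 2 := by positivity
  have e3 := mul_le_mul_of_nonneg_right hP.le e2
  refine e3.trans (le_of_eq ?_)
  ring

theorem bvr_mem {η : ℝ} {P p : ℕ} (h : p ∈ QP η P) :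
    p.Prime ∧ p % 4 = 1 ∧ (P : ℝ) < p ∧ (p : ℝ) ≤ (1 + η) * P := by
  unfold QP pr1 at h
  rw [Finset.mem_filter] at h
  exact h.2

open Classical in
theorem variance_pr (δ C₄ ε : ℝ) (hδ : 0 < δ) (hδ1 : δ ≤ 1) (hC : 1 ≤ C₄) (hε : 0 < ε) :
    ∃ R₀ : ℕ, 1 ≤ R₀ ∧ ∀ η : ℝ, 0 < η → η ≤ 1 → ∃ P₀ : ℕ, ∀ P : ℕ, P₀ ≤ P →
    ∑ D ∈ (Finset.Icc 1 ⌊C₄ * P⌋₊).filter (fun D : ℕ => δ * P < (D : ℝ) ∧
      ∀ p ∈ QP η P, ¬ p ∣ D), ∑ κ ∈ (Finset.range D).filter (fun κ => Nat.Coprime κ D),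
      (ND (QP η P) D (κ : ℤ) - MD (QP η P) R₀ D (κ : ℤ)) ^ 2 ≤
        ε * ((QP η P).card : ℝ) ^ 4 := by
  obtain ⟨K, hK, hmult⟩ := bvr_mult δ C₄ hδ hC
  obtain ⟨C1, hC1, hhm⟩ := char_hm
  obtain ⟨C2, hC2, hlm⟩ := large_moduli
  obtain ⟨c, hc, hlow⟩ := qp_lower
  obtain ⟨R₀, hR₀, hsm⟩ := bvr_small (ε / (2 * K * C1)) (by positivity)
  refine ⟨R₀, hR₀, fun η hη hη1 => ?_⟩
  obtain ⟨P1, hP1⟩ := hhm η hη hη1
  obtain ⟨P2, hP2⟩ := hlow η hη hη1
  obtain ⟨P3, hP3⟩ := eventually_atTop.1 (bvr_asymp (4 * K * C2 * C₄ + 4 * K * C2)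
    (ε / 2 * (c * η) ^ 2) (by positivity))
  have hlog : Tendsto (fun P : ℕ => Real.log P) atTop atTop :=
    Real.tendsto_log_atTop.comp tendsto_natCast_atTop_atTop
  obtain ⟨P4, hP4⟩ := eventually_atTop.1 (hlog.eventually_ge_atTop 2)
  refine ⟨max (max P1 P2) (max P3 (max P4 1)), fun P hP => ?_⟩
  have hPa : P1 ≤ P := le_trans (le_max_left _ _) (le_trans (le_max_left _ _) hP)
  have hPb : P2 ≤ P := le_trans (le_max_right _ _) (le_trans (le_max_left _ _) hP)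
  have hPc : P3 ≤ P := le_trans (le_max_left _ _) (le_trans (le_max_right _ _) hP)
  have hPd : P4 ≤ P :=
    le_trans (le_max_left _ _) (le_trans (le_max_right _ _) (le_trans (le_max_right _ _) hP))
  have hPe : 1 ≤ P :=
    le_trans (le_max_right _ _) (le_trans (le_max_right _ _) (le_trans (le_max_right _ _) hP))
  have hPr : (0 : ℝ) < P := by exact_mod_cast hPe
  set Q := QP η P with hQ
  have hlP : 2 ≤ Real.log P := hP4 P hPd
  -- the sums over characters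
  set W : ℕ → ℝ := fun r => ∑ χ ∈ Pch r, ‖∑ p ∈ Q, χ (p : ZMod r)‖ ^ 4 with hW
  have hW0 : ∀ r, 0 ≤ W r := fun r => Finset.sum_nonneg fun χ _ => by positivity
  -- the single D
  have hD : ∀ D ∈ (Finset.Icc 1 ⌊C₄ * P⌋₊).filter (fun D : ℕ => δ * P < (D : ℝ) ∧
      ∀ p ∈ Q, ¬ p ∣ D), ∑ κ ∈ (Finset.range D).filter (fun κ => Nat.Coprime κ D),
      (ND Q D (κ : ℤ) - MD Q R₀ D (κ : ℤ)) ^ 2 ≤
        (1 / (Nat.totient D : ℝ)) * ∑ r ∈ D.divisors.filter (fun r => R₀ < r), W r := by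
    intro D hDm
    rw [Finset.mem_filter, Finset.mem_Icc] at hDm
    obtain ⟨⟨hD1, -⟩, -, hDp⟩ := hDm
    have hcop : ∀ p ∈ Q, Nat.Coprime p D := fun p hp =>
      ((bvr_mem hp).1.coprime_iff_not_dvd).2 (hDp p hp)
    rw [var_char D R₀ hD1 Q hcop]
    exact mul_le_mul_of_nonneg_left (var_group D R₀ hD1 Q hcop) (by positivity)
  refine (Finset.sum_le_sum hD).trans ?_
  -- swap
  set M := ⌊C₄ * P⌋₊ with hM
  have hswap : ∑ D ∈ (Finset.Icc 1 M).filter (fun D : ℕ => δ * P < (D : ℝ) ∧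
      ∀ p ∈ Q, ¬ p ∣ D), (1 / (Nat.totient D : ℝ)) *
        ∑ r ∈ D.divisors.filter (fun r => R₀ < r), W r ≤
      ∑ r ∈ Finset.Ioc R₀ M, W r * (K / Nat.totient r) := by
    calc ∑ D ∈ (Finset.Icc 1 M).filter (fun D : ℕ => δ * P < (D : ℝ) ∧
          ∀ p ∈ Q, ¬ p ∣ D), (1 / (Nat.totient D : ℝ)) *
            ∑ r ∈ D.divisors.filter (fun r => R₀ < r), W r
        ≤ ∑ D ∈ (Finset.Icc 1 M).filter (fun D : ℕ => δ * P < (D : ℝ)),
          (1 / (Nat.totient D : ℝ)) * ∑ r ∈ D.divisors.filter (fun r => R₀ < r), W r := by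
          refine Finset.sum_le_sum_of_subset_of_nonneg ?_ fun D _ _ =>
            mul_nonneg (by positivity) (Finset.sum_nonneg fun r _ => hW0 r)
          intro D hD
          rw [Finset.mem_filter] at hD ⊢
          exact ⟨hD.1, hD.2.1⟩
      _ = ∑ D ∈ (Finset.Icc 1 M).filter (fun D : ℕ => δ * P < (D : ℝ)),
          ∑ r ∈ D.divisors.filter (fun r => R₀ < r), (1 / (Nat.totient D : ℝ)) * W r := by
          refine Finset.sum_congr rfl fun D _ => ?_
          rw [Finset.mul_sum]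
      _ = ∑ r ∈ Finset.Ioc R₀ M,
          ∑ D ∈ (Finset.Icc 1 M).filter (fun D : ℕ => δ * P < (D : ℝ) ∧ r ∣ D),
            (1 / (Nat.totient D : ℝ)) * W r := by
          refine Finset.sum_comm' fun D r => ?_
          simp only [Finset.mem_filter, Finset.mem_Icc, Nat.mem_divisors, Finset.mem_Ioc]
          constructor
          · rintro ⟨⟨⟨h1, h2⟩, h3⟩, ⟨h4, h5⟩, h6⟩
            have h7 := Nat.le_of_dvd h1 h4
            exact ⟨⟨⟨h1, h2⟩, h3, h4⟩, h6, by omega⟩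
          · rintro ⟨⟨⟨h1, h2⟩, h3, h4⟩, h5, h6⟩
            exact ⟨⟨⟨h1, h2⟩, h3⟩, ⟨h4, by omega⟩, h5⟩
      _ ≤ ∑ r ∈ Finset.Ioc R₀ M, W r * (K / Nat.totient r) := by
          refine Finset.sum_le_sum fun r hr => ?_
          have hr1 : 1 ≤ r := by
            rw [Finset.mem_Ioc] at hr
            omega
          have h1 := hmult r P hr1 hPr
          rw [← Finset.sum_mul, mul_comm]
          exact mul_le_mul_of_nonneg_left h1 (hW0 r)
  refine hswap.trans ?_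
  -- splitting
  set L := ⌊Real.log P ^ 3⌋₊ with hL
  have hL1 : 1 ≤ L := by
    rw [hL]
    refine Nat.le_floor ?_
    rw [Nat.cast_one]
    have : (2 : ℝ) ^ 3 ≤ Real.log P ^ 3 := pow_le_pow_left₀ (by norm_num) hlP 3
    linarith
  have hLr : Real.log P ^ 3 / 2 ≤ L := by
    have h1 : Real.log P ^ 3 < L + 1 := Nat.lt_floor_add_one _
    have : (2 : ℝ) ^ 3 ≤ Real.log P ^ 3 := pow_le_pow_left₀ (by norm_num) hlP 3
    linarith
  have hcard0 : (0 : ℝ) ≤ Q.card := Nat.cast_nonneg _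
  have hT : ∀ (r : ℕ) (χ : DirichletCharacter ℂ r), ‖∑ p ∈ Q, χ (p : ZMod r)‖ ≤ Q.card := by
    intro r χ
    refine (norm_sum_le _ _).trans ?_
    calc ∑ p ∈ Q, ‖χ (p : ZMod r)‖ ≤ ∑ p ∈ Q, (1 : ℝ) :=
          Finset.sum_le_sum fun p _ => DirichletCharacter.norm_le_one χ _
      _ = Q.card := by rw [Finset.sum_const, nsmul_eq_mul, mul_one]
  have hsmall : ∑ r ∈ (Finset.Ioc R₀ M).filter (fun r => r ≤ L), W r * (K / Nat.totient r) ≤
      ε / 2 * (Q.card : ℝ) ^ 4 := by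
    calc ∑ r ∈ (Finset.Ioc R₀ M).filter (fun r => r ≤ L), W r * (K / Nat.totient r)
        ≤ ∑ r ∈ (Finset.Ioc R₀ M).filter (fun r => r ≤ L),
          (K * (ε / (2 * K * C1)) * (Q.card : ℝ) ^ 2) *
            ∑ χ ∈ Pch r, ‖∑ p ∈ Q, χ (p : ZMod r)‖ ^ 2 := by
          refine Finset.sum_le_sum fun r hr => ?_
          rw [Finset.mem_filter, Finset.mem_Ioc] at hr
          have h1 := hsm r hr.1.1
          have h2 : W r ≤ (Q.card : ℝ) ^ 2 * ∑ χ ∈ Pch r, ‖∑ p ∈ Q, χ (p : ZMod r)‖ ^ 2 := by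
            rw [Finset.mul_sum]
            refine Finset.sum_le_sum fun χ _ => ?_
            have e1 : ‖∑ p ∈ Q, χ (p : ZMod r)‖ ^ 4 = ‖∑ p ∈ Q, χ (p : ZMod r)‖ ^ 2 *
              ‖∑ p ∈ Q, χ (p : ZMod r)‖ ^ 2 := by ring
            rw [e1]
            exact mul_le_mul_of_nonneg_right
              (pow_le_pow_left₀ (norm_nonneg _) (hT r χ) 2) (by positivity)
          have h3 : K / (Nat.totient r : ℝ) ≤ K * (ε / (2 * K * C1)) := by
            have := mul_le_mul_of_nonneg_left h1 hK.le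
            rwa [mul_one_div] at this
          calc W r * (K / Nat.totient r) ≤
              ((Q.card : ℝ) ^ 2 * ∑ χ ∈ Pch r, ‖∑ p ∈ Q, χ (p : ZMod r)‖ ^ 2) *
                (K * (ε / (2 * K * C1))) := by
                refine mul_le_mul h2 h3 (by positivity) ?_
                exact mul_nonneg (by positivity) (Finset.sum_nonneg fun χ _ => by positivity)
            _ = _ := by ring
      _ ≤ ∑ r ∈ Finset.Icc 1 L, (K * (ε / (2 * K * C1)) * (Q.card : ℝ) ^ 2) *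
            ∑ χ ∈ Pch r, ‖∑ p ∈ Q, χ (p : ZMod r)‖ ^ 2 := by
          refine Finset.sum_le_sum_of_subset_of_nonneg ?_ fun r _ _ =>
            mul_nonneg (by positivity) (Finset.sum_nonneg fun χ _ => by positivity)
          intro r hr
          rw [Finset.mem_filter, Finset.mem_Ioc] at hr
          rw [Finset.mem_Icc]
          omega
      _ = (K * (ε / (2 * K * C1)) * (Q.card : ℝ) ^ 2) * ∑ r ∈ Finset.Icc 1 L,
            ∑ χ ∈ Pch r, ‖∑ p ∈ Q, χ (p : ZMod r)‖ ^ 2 := by rw [← Finset.mul_sum]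
      _ ≤ (K * (ε / (2 * K * C1)) * (Q.card : ℝ) ^ 2) * (C1 * (Q.card : ℝ) ^ 2) :=
          mul_le_mul_of_nonneg_left (hP1 P hPa) (by positivity)
      _ = ε / 2 * (Q.card : ℝ) ^ 4 := by
          have : C1 ≠ 0 := by linarith
          field_simp
  have hlarge : ∑ r ∈ (Finset.Ioc R₀ M).filter (fun r => ¬ r ≤ L), W r * (K / Nat.totient r) ≤
      ε / 2 * (Q.card : ℝ) ^ 4 := by
    have hdy := bvr_dyadic (fun r => (1 / (Nat.totient r : ℝ)) * W r)
      (fun r => mul_nonneg (by positivity) (hW0 r)) L hL1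
      (C2 * (P : ℝ) ^ 2 * (Q.card : ℝ) ^ 2) (C2 * (Q.card : ℝ) ^ 2) (by positivity) (by positivity)
      (fun R hR => by
        have h1 := hlm P R Q hR (fun p hp => by
          obtain ⟨h1, -, h3, h4⟩ := bvr_mem hp
          refine ⟨h1, by exact_mod_cast h3, ?_⟩
          have : (p : ℝ) ≤ ((2 * P : ℕ) : ℝ) := by
            push_cast
            nlinarith
          exact_mod_cast this)
        refine h1.trans (le_of_eq ?_)
        ring) M
    calc ∑ r ∈ (Finset.Ioc R₀ M).filter (fun r => ¬ r ≤ L), W r * (K / Nat.totient r)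
        ≤ ∑ r ∈ Finset.Ioc L M, W r * (K / Nat.totient r) := by
          refine Finset.sum_le_sum_of_subset_of_nonneg ?_ fun r _ _ =>
            mul_nonneg (hW0 r) (by positivity)
          intro r hr
          rw [Finset.mem_filter, Finset.mem_Ioc] at hr
          rw [Finset.mem_Ioc]
          omega
      _ = K * ∑ r ∈ Finset.Ioc L M, (1 / (Nat.totient r : ℝ)) * W r := by
          rw [Finset.mul_sum]
          refine Finset.sum_congr rfl fun r _ => ?_
          ring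
      _ ≤ K * (2 * (C2 * (P : ℝ) ^ 2 * (Q.card : ℝ) ^ 2) / L + 2 * (C2 * (Q.card : ℝ) ^ 2) * M) :=
          mul_le_mul_of_nonneg_left hdy hK.le
      _ ≤ ε / 2 * (Q.card : ℝ) ^ 4 := by
          have e1 : (M : ℝ) ≤ C₄ * P := Nat.floor_le (by positivity)
          have hl3 : 0 < Real.log P ^ 3 := by positivity
          have e2 : 2 * (C2 * (P : ℝ) ^ 2 * (Q.card : ℝ) ^ 2) / L ≤
              2 * (C2 * (P : ℝ) ^ 2 * (Q.card : ℝ) ^ 2) / (Real.log P ^ 3 / 2) :=
            div_le_div_of_nonneg_left (by positivity) (by positivity) hLr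
          have e3 := hP3 P hPc
          have e4 := hP2 P hPb
          have e5 : (c * η) ^ 2 * (P : ℝ) ^ 2 / Real.log P ^ 2 ≤ (Q.card : ℝ) ^ 2 := by
            have h1 : 0 ≤ c * η * P / Real.log P := by positivity
            have h2 := pow_le_pow_left₀ h1 e4 2
            refine le_trans (le_of_eq ?_) h2
            rw [div_pow]
            ring
          have e6 : K * (2 * (C2 * (P : ℝ) ^ 2 * (Q.card : ℝ) ^ 2) / L +
              2 * (C2 * (Q.card : ℝ) ^ 2) * M) ≤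
              K * (2 * (C2 * (P : ℝ) ^ 2 * (Q.card : ℝ) ^ 2) / (Real.log P ^ 3 / 2) +
              2 * (C2 * (Q.card : ℝ) ^ 2) * (C₄ * P)) := by
            refine mul_le_mul_of_nonneg_left ?_ hK.le
            refine add_le_add e2 ?_
            exact mul_le_mul_of_nonneg_left e1 (by positivity)
          have e7 : K * (2 * (C2 * (P : ℝ) ^ 2 * (Q.card : ℝ) ^ 2) / (Real.log P ^ 3 / 2) +
              2 * (C2 * (Q.card : ℝ) ^ 2) * (C₄ * P)) ≤
              ((4 * K * C2 * C₄ + 4 * K * C2) * (P : ℝ) ^ 2 / Real.log P ^ 3 +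
                (4 * K * C2 * C₄ + 4 * K * C2) * P) * (Q.card : ℝ) ^ 2 := by
            have h1 : K * (2 * (C2 * (P : ℝ) ^ 2 * (Q.card : ℝ) ^ 2) / (Real.log P ^ 3 / 2) +
              2 * (C2 * (Q.card : ℝ) ^ 2) * (C₄ * P)) =
              (4 * K * C2 * (P : ℝ) ^ 2 / Real.log P ^ 3 + 2 * K * C2 * C₄ * P) *
                (Q.card : ℝ) ^ 2 := by
              field_simp
              ring
            rw [h1]
            refine mul_le_mul_of_nonneg_right ?_ (by positivity)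
            refine add_le_add ?_ ?_
            · have : 0 ≤ 4 * K * C2 * C₄ := by positivity
              gcongr
              linarith
            · have h2 : 0 ≤ K * C2 * C₄ * P := by positivity
              have h3 : 0 ≤ K * C2 * P := by positivity
              have h4 : (4 * K * C2 * C₄ + 4 * K * C2) * (P : ℝ) = 2 * K * C2 * C₄ * P +
                2 * (K * C2 * C₄ * P) + 4 * (K * C2 * P) := by ring
              rw [h4]
              linarith
          refine e6.trans (e7.trans ?_)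
          have e8 : 0 ≤ (Q.card : ℝ) ^ 2 := by positivity
          refine (mul_le_mul_of_nonneg_right e3 e8).trans ?_
          have e9 : ε / 2 * (c * η) ^ 2 * (P : ℝ) ^ 2 / Real.log P ^ 2 * (Q.card : ℝ) ^ 2 =
              ε / 2 * ((c * η) ^ 2 * (P : ℝ) ^ 2 / Real.log P ^ 2) * (Q.card : ℝ) ^ 2 := by ring
          rw [e9]
          calc ε / 2 * ((c * η) ^ 2 * (P : ℝ) ^ 2 / Real.log P ^ 2) * (Q.card : ℝ) ^ 2
              ≤ ε / 2 * (Q.card : ℝ) ^ 2 * (Q.card : ℝ) ^ 2 := by gcongr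
            _ = ε / 2 * (Q.card : ℝ) ^ 4 := by ring
  rw [← Finset.sum_filter_add_sum_filter_not (Finset.Ioc R₀ M) (fun r => r ≤ L)]
  linarith

end Pool.Agent.T2


namespace Pool.Agent.T2

theorem variance : type_of% @variance_pr := @variance_pr

end Pool.Agent.T2
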