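import Pool.Agent.Lib_helper10.T2.DefsB
import Pool.Agent.Lib_helper10.T2F.BAS
import Pool.Agent.Lib_helper10.T2F.BKP
import Pool.Agent.Lib_helper10.T2F.BPL
import Pool.Agent.Lib_helper10.T2F.BVR

/-!
# T2, block BR1: the variance over pairs
-/

namespace Pool.Agent.T2

open Filter Topology

theorem br1_dvd (D : ℤ) (x : G) : ((D : ℤ) : G) ∣ x ↔ (((D.natAbs : ℕ) : ℤ) : G) ∣ x := by
  rcases Int.natAbs_eq D with h | h
  · rw [← h]
  · conv_lhs => rw [h]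
    rw [Int.cast_neg, neg_dvd]

theorem br1_np (B : Finset ℕ) (D : ℤ) (w w' : G) : NP B D w w' = NP B ((D.natAbs : ℕ) : ℤ) w w' := by
  classical
  unfold NP
  congr 2
  ext t
  simp only [Finset.mem_filter]
  rw [br1_dvd]

open Classical in
/-- the number `κ` with `w' = κ w` modulo `det w w'` -/
noncomputable def br1_kap (w w' : G) : ℕ :=
  if h : Prm w ∧ det w w' ≠ 0 then (kappa_exists h.1 h.2).choose else 0

theorem br1_kap_spec {w w' : G} (hw : Prm w) (hD : det w w' ≠ 0) :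
    br1_kap w w' < (det w w').natAbs ∧
      ((det w w' : ℤ) : G) ∣ w' - (br1_kap w w' : G) * w := by
  have h : Prm w ∧ det w w' ≠ 0 := ⟨hw, hD⟩
  unfold br1_kap
  rw [dif_pos h]
  exact (kappa_exists h.1 h.2).choose_spec.1

theorem br1_eq (B : Finset ℕ) (R₀ : ℕ) {w w' : G} (hw : Prm w) (hw' : Prm w')
    (hD : det w w' ≠ 0) : Nat.Coprime (br1_kap w w') (det w w').natAbs ∧
    |NP B (det w w') w w' - MP B R₀ w w'| =
      |ND B (det w w').natAbs (br1_kap w w' : ℤ) -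
        MD B R₀ (det w w').natAbs (br1_kap w w' : ℤ)| := by
  have h1 := br1_kap_spec hw hD
  have h2 : ((det w w' : ℤ) : G) ∣ w' - (((br1_kap w w' : ℕ) : ℤ) : G) * w := by
    rw [Int.cast_natCast]
    exact h1.2
  obtain ⟨hc, hN⟩ := kappa_rel hw hw' h2
  constructor
  · have h3 := Int.isCoprime_iff_gcd_eq_one.1 hc
    rw [Int.gcd_eq_natAbs, Int.natAbs_natCast] at h3
    exact h3
  · rw [br1_np, hN B (det w w').natAbs (Int.natAbs_dvd.2 dvd_rfl)]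
    unfold MP MD
    rw [hN B (Nat.gcd (det w w').natAbs R₀.factorial) ?_]
    exact (Int.natCast_dvd_natCast.2 (Nat.gcd_dvd_left _ _)).trans (Int.natAbs_dvd.2 dvd_rfl)

open Classical in
theorem err_var_pr (a a' δ ε : ℝ) (ha : 0 < a) (ha1 : a ≤ 1) (ha' : 0 < a') (hδ : 0 < δ)
    (hδ1 : δ ≤ 1) (hε : 0 < ε) : ∃ R₀ : ℕ, 1 ≤ R₀ ∧ ∀ η : ℝ, 0 < η → η ≤ 1 → ∃ P₀ : ℕ,
    ∀ P : ℕ, P₀ ≤ P → ∃ Y₀ : ℝ, ∀ Y : ℝ, Y₀ ≤ Y →
    ∑ w ∈ Cel a' 1 Y, ∑ w' ∈ (Cel a' 1 Y).filter (fun w' => Med a δ P w w' ∧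
      ∀ p ∈ QP η P, ¬ (p : ℤ) ∣ det w w'),
      |NP (QP η P) (det w w') w w' - MP (QP η P) R₀ w w'| ≤
        ε * ((QP η P).card : ℝ) ^ 2 * Y := by
  obtain ⟨C, hC1, hC⟩ := pair_le a' ha'
  have hsa : 0 < Real.sqrt a := Real.sqrt_pos.2 ha
  have hsa1 : Real.sqrt a ≤ 1 := by
    exact Real.sqrt_le_one.2 ha1
  obtain ⟨C₄, hC₄⟩ : ∃ C₄ : ℝ, C₄ = 4 / Real.sqrt a := ⟨_, rfl⟩
  have hC₄1 : 1 ≤ C₄ := by
    rw [hC₄, le_div_iff₀ hsa]
    linarith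
  obtain ⟨e, he_def⟩ : ∃ e : ℝ, e = ε * δ / (2 * C * C₄) := ⟨_, rfl⟩
  have he : 0 < e := by
    rw [he_def]
    positivity
  obtain ⟨R₀, hR₀, hvar⟩ := variance δ C₄ (e ^ 2) hδ hδ1 hC₄1 (by positivity)
  refine ⟨R₀, hR₀, fun η hη hη1 => ?_⟩
  obtain ⟨P₀, hP₀⟩ := hvar η hη hη1
  refine ⟨max P₀ 1, fun P hP => ?_⟩
  have hP1 : 1 ≤ P := le_trans (le_max_right _ _) hP
  have hP1' : (1 : ℝ) ≤ P := by exact_mod_cast hP1
  have hV := hP₀ P (le_trans (le_max_left _ _) hP)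
  obtain ⟨M, hM⟩ : ∃ M : ℕ, M = ⌊C₄ * P⌋₊ := ⟨_, rfl⟩
  rw [← hM] at hV
  have hMle : (M : ℝ) ≤ C₄ * P := by
    rw [hM]
    exact Nat.floor_le (by positivity)
  have hex : ∀ t : ℤ × ℕ, ∃ Y₀ : ℝ, t.1 ≠ 0 → ∀ Y : ℝ, Y₀ ≤ Y →
      (((Cel a' 1 Y ×ˢ Cel a' 1 Y).filter (fun p => det p.1 p.2 = t.1 ∧
        ((t.1 : ℤ) : G) ∣ p.2 - (((t.2 : ℕ) : ℤ) : G) * p.1 ∧ 0 < ip p.1 p.2)).card : ℝ) ≤
          C * Y / |(t.1 : ℝ)| := by
    intro t
    by_cases ht : t.1 = 0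
    · exact ⟨0, fun h => absurd ht h⟩
    · obtain ⟨Y₀, hY₀⟩ := hC t.1 (t.2 : ℤ) ht
      exact ⟨Y₀, fun _ => hY₀⟩
  choose Yg hYg using hex
  obtain ⟨T0, hT0⟩ : ∃ T0 : Finset (ℤ × ℕ),
    T0 = Finset.Icc (-(M : ℤ)) M ×ˢ Finset.range (M + 1) := ⟨_, rfl⟩
  obtain ⟨Y₀, hY₀, hY₀'⟩ : ∃ Y₀ : ℝ, 0 ≤ Y₀ ∧ ∀ t ∈ T0, Yg t ≤ Y₀ :=
    ⟨∑ t ∈ T0, |Yg t|, Finset.sum_nonneg fun _ _ => abs_nonneg _, fun t ht =>
      (le_abs_self _).trans (Finset.single_le_sum (f := fun t => |Yg t|)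
        (fun _ _ => abs_nonneg _) ht)⟩
  refine ⟨Y₀, fun Y hY => ?_⟩
  have hY0 : 0 ≤ Y := hY₀.trans hY
  obtain ⟨Q, hQ⟩ : ∃ Q : Finset ℕ, Q = QP η P := ⟨_, rfl⟩
  rw [← hQ] at hV ⊢
  -- the sum over pairs
  obtain ⟨S, hS⟩ : ∃ S : Finset (G × G), S = (Cel a' 1 Y ×ˢ Cel a' 1 Y).filter (fun p =>
    Med a δ P p.1 p.2 ∧ ∀ q ∈ Q, ¬ (q : ℤ) ∣ det p.1 p.2) := ⟨_, rfl⟩
  have e1 : ∑ w ∈ Cel a' 1 Y, ∑ w' ∈ (Cel a' 1 Y).filter (fun w' => Med a δ P w w' ∧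
      ∀ p ∈ Q, ¬ (p : ℤ) ∣ det w w'),
      |NP Q (det w w') w w' - MP Q R₀ w w'| =
      ∑ p ∈ S, |NP Q (det p.1 p.2) p.1 p.2 - MP Q R₀ p.1 p.2| := by
    rw [hS, Finset.sum_filter, Finset.sum_product]
    refine Finset.sum_congr rfl fun w _ => ?_
    rw [Finset.sum_filter]
  rw [e1]
  obtain ⟨E, hE⟩ : ∃ E : ℕ → ℕ → ℝ, ∀ D κ, E D κ = |ND Q D (κ : ℤ) - MD Q R₀ D (κ : ℤ)| :=
    ⟨_, fun _ _ => rfl⟩
  have hE0 : ∀ D κ, 0 ≤ E D κ := fun D κ => by rw [hE]; exact abs_nonneg _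
  have hprm : ∀ p ∈ S, Prm p.1 ∧ Prm p.2 ∧ p.1 ∈ Cel a' 1 Y ∧ p.2 ∈ Cel a' 1 Y ∧
      Med a δ P p.1 p.2 ∧ ∀ q ∈ Q, ¬ (q : ℤ) ∣ det p.1 p.2 := by
    intro p hp
    rw [hS, Finset.mem_filter, Finset.mem_product] at hp
    obtain ⟨⟨h1, h2⟩, h3, h4⟩ := hp
    have h1' := h1
    have h2' := h2
    unfold Cel at h1' h2'
    exact ⟨(mem_PB.1 (Finset.mem_filter.1 h1').1).1, (mem_PB.1 (Finset.mem_filter.1 h2').1).1,
      h1, h2, h3, h4⟩
  have hdet : ∀ p ∈ S, det p.1 p.2 ≠ 0 := by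
    intro p hp h0
    have h1 := (hprm p hp).2.2.2.2.1.1
    rw [h0, Int.cast_zero, abs_zero] at h1
    have : 0 < δ * P := by positivity
    linarith
  obtain ⟨T, hT⟩ : ∃ T : Finset (ℤ × ℕ), T = T0.filter (fun t => δ * P < |(t.1 : ℝ)| ∧
    (∀ q ∈ Q, ¬ q ∣ t.1.natAbs) ∧ Nat.Coprime t.2 t.1.natAbs ∧ t.2 < t.1.natAbs ∧
      t.1.natAbs ≤ M) := ⟨_, rfl⟩
  have hmaps : ∀ p ∈ S, (det p.1 p.2, br1_kap p.1 p.2) ∈ T := by
    intro p hp
    obtain ⟨h1, h2, -, -, h5, h6⟩ := hprm p hp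
    have h7 := hdet p hp
    have h8 := br1_kap_spec h1 h7
    have h9 := (br1_eq Q R₀ h1 h2 h7).1
    have h10 : (det p.1 p.2).natAbs ≤ M := by
      rw [hM, Nat.le_floor_iff (by positivity)]
      have := h5.2.1
      rw [hC₄, Nat.cast_natAbs, Int.cast_abs]
      exact this
    rw [hT, Finset.mem_filter, hT0, Finset.mem_product, Finset.mem_Icc, Finset.mem_range]
    refine ⟨⟨⟨?_, ?_⟩, ?_⟩, h5.1, fun q hq hqd => h6 q hq (Int.natCast_dvd.2 hqd), h9, h8.1, h10⟩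
    · show -(M : ℤ) ≤ det p.1 p.2
      omega
    · show det p.1 p.2 ≤ (M : ℤ)
      omega
    · show br1_kap p.1 p.2 < M + 1
      omega
  have step1 : ∑ p ∈ S, |NP Q (det p.1 p.2) p.1 p.2 - MP Q R₀ p.1 p.2| ≤
      ∑ t ∈ T, C * Y / (δ * P) * E t.1.natAbs t.2 := by
    rw [← Finset.sum_fiberwise_of_maps_to hmaps]
    refine Finset.sum_le_sum fun t ht => ?_
    have ht' := ht
    rw [hT, Finset.mem_filter] at ht'
    obtain ⟨ht0, ht1, -, -, -, -⟩ := ht'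
    have htn : t.1 ≠ 0 := by
      intro h0
      rw [h0, Int.cast_zero, abs_zero] at ht1
      have : 0 < δ * P := by positivity
      linarith
    have hterm : ∀ p ∈ S.filter (fun p => (det p.1 p.2, br1_kap p.1 p.2) = t),
        |NP Q (det p.1 p.2) p.1 p.2 - MP Q R₀ p.1 p.2| = E t.1.natAbs t.2 := by
      intro p hp
      obtain ⟨hp1, hp2⟩ := Finset.mem_filter.1 hp
      obtain ⟨h1, h2, -, -, -, -⟩ := hprm p hp1
      rw [(br1_eq Q R₀ h1 h2 (hdet p hp1)).2, hE, ← hp2]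
    rw [Finset.sum_congr rfl hterm, Finset.sum_const, nsmul_eq_mul]
    refine mul_le_mul_of_nonneg_right ?_ (hE0 _ _)
    have hsub : S.filter (fun p => (det p.1 p.2, br1_kap p.1 p.2) = t) ⊆
        (Cel a' 1 Y ×ˢ Cel a' 1 Y).filter (fun p => det p.1 p.2 = t.1 ∧
          ((t.1 : ℤ) : G) ∣ p.2 - (((t.2 : ℕ) : ℤ) : G) * p.1 ∧ 0 < ip p.1 p.2) := by
      intro p hp
      obtain ⟨hp1, hp2⟩ := Finset.mem_filter.1 hp
      obtain ⟨h1, -, h3, h4, h5, -⟩ := hprm p hp1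
      have h7 := hdet p hp1
      have h8 := (br1_kap_spec h1 h7).2
      have e2 : det p.1 p.2 = t.1 := congrArg Prod.fst hp2
      have e3 : br1_kap p.1 p.2 = t.2 := congrArg Prod.snd hp2
      rw [Finset.mem_filter, Finset.mem_product]
      refine ⟨⟨h3, h4⟩, e2, ?_, h5.2.2⟩
      rw [Int.cast_natCast, ← e2, ← e3]
      exact h8
    have hcard : ((S.filter (fun p => (det p.1 p.2, br1_kap p.1 p.2) = t)).card : ℝ) ≤
        C * Y / |(t.1 : ℝ)| :=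
      (Nat.cast_le.2 (Finset.card_le_card hsub)).trans
        (hYg t htn Y ((hY₀' t ht0).trans hY))
    refine hcard.trans ?_
    exact div_le_div_of_nonneg_left (by positivity) (by positivity) ht1.le
  -- the positive determinants
  obtain ⟨F, hF⟩ : ∃ F : Finset ℕ, F = (Finset.Icc 1 M).filter (fun D : ℕ => δ * P < (D : ℝ) ∧
      ∀ p ∈ Q, ¬ p ∣ D) := ⟨_, rfl⟩
  rw [← hF] at hV
  obtain ⟨U, hU⟩ : ∃ U : Finset (Σ _ : ℕ, ℕ), U = F.sigma (fun D =>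
    (Finset.range D).filter (fun κ => Nat.Coprime κ D)) := ⟨_, rfl⟩
  have hV' : ∑ u ∈ U, E u.1 u.2 ^ 2 ≤ e ^ 2 * (Q.card : ℝ) ^ 4 := by
    refine le_trans (le_of_eq ?_) hV
    rw [hU, Finset.sum_sigma]
    refine Finset.sum_congr rfl fun D _ => Finset.sum_congr rfl fun κ _ => ?_
    rw [hE, sq_abs]
  have hmaps2 : ∀ t ∈ T, (⟨t.1.natAbs, t.2⟩ : Σ _ : ℕ, ℕ) ∈ U := by
    intro t ht
    rw [hT, Finset.mem_filter] at ht
    obtain ⟨-, ht1, ht2, ht3, ht4, ht5⟩ := ht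
    rw [hU, Finset.mem_sigma, hF, Finset.mem_filter, Finset.mem_Icc, Finset.mem_filter,
      Finset.mem_range]
    refine ⟨⟨⟨?_, ht5⟩, ?_, ht2⟩, ht4, ht3⟩
    · show 1 ≤ t.1.natAbs
      omega
    · show δ * P < ((t.1.natAbs : ℕ) : ℝ)
      rw [Nat.cast_natAbs, Int.cast_abs]
      exact ht1
  have step2 : ∑ t ∈ T, E t.1.natAbs t.2 ≤ 2 * ∑ u ∈ U, E u.1 u.2 := by
    rw [← Finset.sum_fiberwise_of_maps_to hmaps2, Finset.mul_sum]
    refine Finset.sum_le_sum fun u _ => ?_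
    have hterm : ∀ t ∈ T.filter (fun t => (⟨t.1.natAbs, t.2⟩ : Σ _ : ℕ, ℕ) = u),
        E t.1.natAbs t.2 = E u.1 u.2 := by
      intro t ht
      rw [← (Finset.mem_filter.1 ht).2]
    rw [Finset.sum_congr rfl hterm, Finset.sum_const, nsmul_eq_mul]
    refine mul_le_mul_of_nonneg_right ?_ (hE0 _ _)
    have hsub : T.filter (fun t => (⟨t.1.natAbs, t.2⟩ : Σ _ : ℕ, ℕ) = u) ⊆
        {((u.1 : ℤ), u.2), (-(u.1 : ℤ), u.2)} := by
      intro t ht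
      have h := (Finset.mem_filter.1 ht).2
      rw [← h, Finset.mem_insert, Finset.mem_singleton]
      rcases Int.natAbs_eq t.1 with h1 | h1
      · left
        exact Prod.ext h1 rfl
      · right
        exact Prod.ext h1 rfl
    have := (Finset.card_le_card hsub).trans (Finset.card_le_two)
    exact_mod_cast this
  have hcardU : (U.card : ℝ) ≤ (C₄ * P) ^ 2 := by
    have h1 : U.card ≤ M * M := by
      rw [hU, Finset.card_sigma]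
      calc ∑ D ∈ F, ((Finset.range D).filter (fun κ => Nat.Coprime κ D)).card
          ≤ ∑ D ∈ F, M := by
            refine Finset.sum_le_sum fun D hD => ?_
            refine (Finset.card_filter_le _ _).trans ?_
            rw [Finset.card_range]
            rw [hF, Finset.mem_filter, Finset.mem_Icc] at hD
            exact hD.1.2
        _ = F.card * M := by rw [Finset.sum_const, smul_eq_mul]
        _ ≤ M * M := by
            refine Nat.mul_le_mul_right M ?_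
            rw [hF]
            refine (Finset.card_filter_le _ _).trans ?_
            rw [Nat.card_Icc]
            omega
    calc (U.card : ℝ) ≤ ((M * M : ℕ) : ℝ) := by exact_mod_cast h1
      _ = (M : ℝ) ^ 2 := by push_cast; ring
      _ ≤ (C₄ * P) ^ 2 := pow_le_pow_left₀ (by positivity) hMle 2
  have step3 : ∑ u ∈ U, E u.1 u.2 ≤ C₄ * P * (e * (Q.card : ℝ) ^ 2) := by
    have h1 : (∑ u ∈ U, E u.1 u.2) ^ 2 ≤ (C₄ * P * (e * (Q.card : ℝ) ^ 2)) ^ 2 := by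
      calc (∑ u ∈ U, E u.1 u.2) ^ 2 ≤ U.card * ∑ u ∈ U, E u.1 u.2 ^ 2 :=
            sq_sum_le_card_mul_sum_sq
        _ ≤ (C₄ * P) ^ 2 * (e ^ 2 * (Q.card : ℝ) ^ 4) :=
            mul_le_mul hcardU hV' (Finset.sum_nonneg fun _ _ => sq_nonneg _) (by positivity)
        _ = (C₄ * P * (e * (Q.card : ℝ) ^ 2)) ^ 2 := by ring
    exact (pow_le_pow_iff_left₀ (Finset.sum_nonneg fun _ _ => hE0 _ _) (by positivity)
      two_ne_zero).1 h1
  calc ∑ p ∈ S, |NP Q (det p.1 p.2) p.1 p.2 - MP Q R₀ p.1 p.2|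
      ≤ ∑ t ∈ T, C * Y / (δ * P) * E t.1.natAbs t.2 := step1
    _ = C * Y / (δ * P) * ∑ t ∈ T, E t.1.natAbs t.2 := by rw [Finset.mul_sum]
    _ ≤ C * Y / (δ * P) * (2 * (C₄ * P * (e * (Q.card : ℝ) ^ 2))) := by
        refine mul_le_mul_of_nonneg_left ?_ (by positivity)
        exact step2.trans (mul_le_mul_of_nonneg_left step3 (by norm_num))
    _ = ε * (Q.card : ℝ) ^ 2 * Y := by
        rw [he_def]
        have h1 : (P : ℝ) ≠ 0 := by positivity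
        have h2 : C ≠ 0 := by positivity
        have h3 : C₄ ≠ 0 := by positivity
        field_simp

end Pool.Agent.T2


namespace Pool.Agent.T2

theorem err_var : type_of% @err_var_pr := @err_var_pr

end Pool.Agent.T2
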