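import Pool.Agent.Lib_helper10.T2.DefsB
import Pool.Agent.Lib_helper10.T2F.BAS
import Pool.Agent.Lib_helper10.T2F.BKP
import Pool.Agent.Lib_helper10.T2F.BMU
import Pool.Agent.Lib_helper10.T2F.BPL

/-! T2, block BR2: the expected value on a strip -/

namespace Pool.Agent.T2

open Filter Topology

theorem br2_prm {a b Y : ℝ} {w : G} (h : w ∈ Cel a b Y) : Prm w := by
  classical
  unfold Cel at h
  exact (mem_PB.1 (Finset.mem_of_mem_filter w h)).1

/-- the expected value of a pair -/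
theorem br2_mp {R₀ : ℕ} {B : Finset ℕ} {w w' : G} {κ : ℤ} (hw : Prm w) (hw' : Prm w')
    (h : ((det w w' : ℤ) : G) ∣ w' - (κ : G) * w) :
    MP B R₀ w w' = MD B R₀ (det w w').natAbs κ := by
  have h1 := (kappa_rel hw hw' h).2 B (Nat.gcd (det w w').natAbs R₀.factorial)
    (Int.natCast_dvd.2 (Nat.gcd_dvd_left _ _))
  unfold MP MD
  rw [h1]

open Classical in
theorem mp_strip_pr (a a' δ : ℝ) (ha : 0 < a) (ha1 : a ≤ 1) (ha' : 0 < a') (hδ : 0 < δ)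
    (hδ1 : δ ≤ 1) : ∃ C : ℝ, 1 ≤ C ∧ ∀ (R₀ : ℕ) (η τ c : ℝ), 0 < η → η ≤ 1 → 0 < τ →
    ∃ P₀ : ℕ, ∀ P : ℕ, P₀ ≤ P → ∃ Y₀ : ℝ, ∀ Y : ℝ, Y₀ ≤ Y →
    ∑ w ∈ Cel a' 1 Y, ∑ w' ∈ (Cel a' 1 Y).filter (fun w' => Med a δ P w w' ∧
      |sr P Y w w' - c| ≤ τ), MP (QP η P) R₀ w w' ≤
        C * τ * ((QP η P).card : ℝ) ^ 2 * Y := by
  obtain ⟨C₁, hC₁, hstrip⟩ := strip_le a' ha'
  set C₄ : ℝ := 4 / Real.sqrt a with hC₄
  have hsa : 0 < Real.sqrt a := Real.sqrt_pos.2 ha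
  have hsa1 : Real.sqrt a ≤ 1 := by
    calc Real.sqrt a ≤ Real.sqrt 1 := Real.sqrt_le_sqrt ha1
      _ = 1 := Real.sqrt_one
  have hC₄4 : 4 ≤ C₄ := by
    rw [hC₄, le_div_iff₀ hsa]; linarith
  have hC₄0 : 0 < C₄ := by linarith
  have hC₁0 : 0 < C₁ := by linarith
  refine ⟨9 * C₁ * C₄ ^ 2 / δ, ?_, ?_⟩
  · rw [le_div_iff₀ hδ]
    have : 1 ≤ C₄ ^ 2 := by nlinarith
    nlinarith
  intro R₀ η τ c hη hη1 hτ
  obtain ⟨P₀, hP₀⟩ := md_le R₀ η hη hη1
  refine ⟨max P₀ 1, fun P hP => ?_⟩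
  have hPP : P₀ ≤ P := (le_max_left _ _).trans hP
  have hP1 : (1 : ℝ) ≤ P := by exact_mod_cast (le_max_right P₀ 1).trans hP
  have hP0 : (0 : ℝ) < P := by linarith
  have hmd := hP₀ P hPP
  set Q : ℝ := ((QP η P).card : ℝ) with hQ
  set Ds : Finset ℤ := (Finset.Icc (-⌊C₄ * P⌋) ⌊C₄ * P⌋).filter (fun D => δ * P < |(D : ℝ)|)
    with hDs
  have hDs0 : ∀ D ∈ Ds, D ≠ 0 := by
    intro D hD h0
    rw [hDs, Finset.mem_filter] at hD
    rw [h0] at hD
    have : 0 < δ * P := by positivity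
    simp at hD
    linarith
  -- choose the bounds
  have hex : ∀ D κ : ℤ, ∃ Y₀ : ℝ, D ≠ 0 → ∀ Y : ℝ, Y₀ ≤ Y →
      (((Cel a' 1 Y ×ˢ Cel a' 1 Y).filter (fun p =>
      det p.1 p.2 = D ∧ (D : G) ∣ p.2 - (κ : G) * p.1 ∧ 0 < ip p.1 p.2 ∧
      |Real.sqrt (nn p.1 / Y) - Real.sqrt (nn p.2 / Y) - c * D / P| ≤ C₄ * τ)).card : ℝ) ≤
        C₁ * (C₄ * τ) * Y / |(D : ℝ)| := by
    intro D κ
    by_cases hD : D = 0
    · exact ⟨0, fun h => absurd hD h⟩
    · obtain ⟨Y₀, h⟩ := hstrip D κ (C₄ * τ) (c * D / P) hD (by positivity)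
      exact ⟨Y₀, fun _ => h⟩
  choose Yf hYf using hex
  set K : ℤ → Finset ℕ := fun D => (Finset.range D.natAbs).filter (D.natAbs.Coprime) with hK
  set Y₀ : ℝ := ∑ D ∈ Ds, ∑ κ ∈ K D, |Yf D κ| with hY₀
  refine ⟨max Y₀ 1, fun Y hY => ?_⟩
  have hY1 : 1 ≤ Y := (le_max_right _ _).trans hY
  have hY0 : 0 < Y := by linarith
  have hYle : ∀ D ∈ Ds, ∀ κ ∈ K D, Yf D κ ≤ Y := by
    intro D hD κ hκ
    have h1 : |Yf D κ| ≤ ∑ κ ∈ K D, |Yf D κ| :=
      Finset.single_le_sum (f := fun κ : ℕ => |Yf D κ|) (fun _ _ => abs_nonneg _) hκ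
    have h2 : ∑ κ ∈ K D, |Yf D κ| ≤ Y₀ :=
      Finset.single_le_sum (f := fun D => ∑ κ ∈ K D, |Yf D κ|)
        (fun _ _ => Finset.sum_nonneg fun _ _ => abs_nonneg _) hD
    exact (le_abs_self _).trans (h1.trans (h2.trans ((le_max_left _ _).trans hY)))
  set T : ℤ → ℕ → Finset (G × G) := fun D κ => (Cel a' 1 Y ×ˢ Cel a' 1 Y).filter (fun p =>
      det p.1 p.2 = D ∧ (D : G) ∣ p.2 - ((κ : ℤ) : G) * p.1 ∧ 0 < ip p.1 p.2 ∧
      |Real.sqrt (nn p.1 / Y) - Real.sqrt (nn p.2 / Y) - c * D / P| ≤ C₄ * τ) with hT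
  set u : ℤ → ℝ := fun D => 3 * Q ^ 2 / (Nat.totient D.natAbs : ℝ) with hu
  have hu0 : ∀ D, 0 ≤ u D := fun D => by simp only [hu]; positivity
  -- the pointwise bound
  have hpt : ∀ w ∈ Cel a' 1 Y, ∀ w' ∈ Cel a' 1 Y, Med a δ P w w' → |sr P Y w w' - c| ≤ τ →
      MP (QP η P) R₀ w w' ≤ ∑ D ∈ Ds, ∑ κ ∈ K D, if (w, w') ∈ T D κ then u D else 0 := by
    intro w hw w' hw' hmed hsr
    obtain ⟨hm1, hm2, hip⟩ := hmed
    have hpw := br2_prm hw
    have hpw' := br2_prm hw'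
    set D : ℤ := det w w' with hD
    have hDpos : 0 < |(D : ℝ)| := lt_trans (by positivity) hm1
    have hD0 : D ≠ 0 := by
      intro h; rw [h] at hDpos; simp at hDpos
    have hDR : (D : ℝ) ≠ 0 := by exact_mod_cast hD0
    obtain ⟨κ, ⟨hκ1, hκ2⟩, _⟩ := kappa_exists (w' := w') hpw hD0
    have hκ2' : ((D : ℤ) : G) ∣ w' - ((κ : ℤ) : G) * w := by
      rw [Int.cast_natCast]; exact hκ2
    have hrel := (kappa_rel hpw hpw' hκ2').1
    have hDin : D ∈ Ds := by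
      rw [hDs, Finset.mem_filter, Finset.mem_Icc]
      have h3 : |D| ≤ ⌊C₄ * P⌋ := by
        rw [Int.le_floor]; push_cast; exact hm2
      exact ⟨abs_le.1 h3, hm1⟩
    have hκin : κ ∈ K D := by
      simp only [hK, Finset.mem_filter, Finset.mem_range]
      refine ⟨hκ1, ?_⟩
      have h4 := Int.isCoprime_iff_gcd_eq_one.1 hrel
      rw [Nat.coprime_comm]
      simpa [Int.gcd] using h4
    have hTin : (w, w') ∈ T D κ := by
      simp only [hT, Finset.mem_filter, Finset.mem_product]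
      refine ⟨⟨hw, hw'⟩, rfl, hκ2', hip, ?_⟩
      have e1 : Real.sqrt (nn w / Y) - Real.sqrt (nn w' / Y) - c * D / P =
          (D : ℝ) / P * (sr P Y w w' - c) := by
        unfold sr
        rw [← hD]
        field_simp
      rw [e1, abs_mul, abs_div, abs_of_pos hP0]
      have h5 : |(D : ℝ)| / P ≤ C₄ := by
        rw [div_le_iff₀ hP0]; exact hm2
      exact mul_le_mul h5 hsr (abs_nonneg _) hC₄0.le
    have hval : MP (QP η P) R₀ w w' ≤ u D := by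
      rw [br2_mp hpw hpw' hκ2']
      exact hmd D.natAbs κ (Int.natAbs_pos.2 hD0)
    have h6 : u D ≤ ∑ κ ∈ K D, if (w, w') ∈ T D κ then u D else 0 := by
      have := Finset.single_le_sum (f := fun κ : ℕ => if (w, w') ∈ T D κ then u D else 0)
        (fun κ _ => by split_ifs <;> simp [hu0]) hκin
      simpa [hTin] using this
    have h7 : (∑ κ ∈ K D, if (w, w') ∈ T D κ then u D else 0) ≤
        ∑ D ∈ Ds, ∑ κ ∈ K D, if (w, w') ∈ T D κ then u D else 0 :=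
      Finset.single_le_sum (f := fun D => ∑ κ ∈ K D, if (w, w') ∈ T D κ then u D else 0)
        (fun D _ => Finset.sum_nonneg fun κ _ => by split_ifs <;> simp [hu0]) hDin
    linarith
  -- the number of the `D`
  have hcard : (Ds.card : ℝ) ≤ 3 * (C₄ * P) := by
    have h1 : Ds.card ≤ (Finset.Icc (-⌊C₄ * P⌋) ⌊C₄ * P⌋).card := Finset.card_filter_le _ _
    have hCP : 1 ≤ C₄ * P := by nlinarith
    have hfl : 0 ≤ ⌊C₄ * P⌋ := Int.floor_nonneg.2 (by linarith)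
    have h2 : ((Finset.Icc (-⌊C₄ * P⌋) ⌊C₄ * P⌋).card : ℝ) = 2 * (⌊C₄ * P⌋ : ℝ) + 1 := by
      rw [Int.card_Icc]
      have h3 : ((⌊C₄ * P⌋ + 1 - -⌊C₄ * P⌋).toNat : ℤ) = 2 * ⌊C₄ * P⌋ + 1 := by
        rw [Int.toNat_of_nonneg (by linarith)]; ring
      exact_mod_cast congrArg (Int.cast : ℤ → ℝ) h3
    have h4 : (⌊C₄ * P⌋ : ℝ) ≤ C₄ * P := Int.floor_le _
    have h5 : (Ds.card : ℝ) ≤ ((Finset.Icc (-⌊C₄ * P⌋) ⌊C₄ * P⌋).card : ℝ) := by
      exact_mod_cast h1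
    rw [h2] at h5
    linarith
  calc ∑ w ∈ Cel a' 1 Y, ∑ w' ∈ (Cel a' 1 Y).filter (fun w' => Med a δ P w w' ∧
      |sr P Y w w' - c| ≤ τ), MP (QP η P) R₀ w w'
      ≤ ∑ w ∈ Cel a' 1 Y, ∑ w' ∈ Cel a' 1 Y,
          ∑ D ∈ Ds, ∑ κ ∈ K D, (if (w, w') ∈ T D κ then u D else 0) := by
        refine Finset.sum_le_sum fun w hw => ?_
        rw [Finset.sum_filter]
        refine Finset.sum_le_sum fun w' hw' => ?_
        split_ifs with h
        · exact hpt w hw w' hw' h.1 h.2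
        · exact Finset.sum_nonneg fun D _ => Finset.sum_nonneg fun κ _ => by
            split_ifs <;> simp [hu0]
    _ = ∑ D ∈ Ds, ∑ κ ∈ K D, ((T D κ).card : ℝ) * u D := by
        rw [← Finset.sum_product', Finset.sum_comm]
        refine Finset.sum_congr rfl fun D _ => ?_
        rw [Finset.sum_comm]
        refine Finset.sum_congr rfl fun κ _ => ?_
        have h8 : ∀ p ∈ Cel a' 1 Y ×ˢ Cel a' 1 Y,
            (if (p.1, p.2) ∈ T D κ then u D else 0) = if p ∈ T D κ then u D else 0 := by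
          intro p _; rfl
        rw [Finset.sum_congr rfl h8, ← Finset.sum_filter, Finset.sum_const, nsmul_eq_mul]
        congr 3
        ext p
        rw [Finset.mem_filter]
        refine ⟨fun h => h.2, fun h => ⟨?_, h⟩⟩
        simp only [hT] at h
        exact Finset.mem_of_mem_filter p h
    _ ≤ ∑ D ∈ Ds, ∑ κ ∈ K D, (C₁ * (C₄ * τ) * Y / |(D : ℝ)|) * u D := by
        refine Finset.sum_le_sum fun D hD => Finset.sum_le_sum fun κ hκ => ?_
        exact mul_le_mul_of_nonneg_right (hYf D κ (hDs0 D hD) Y (hYle D hD κ hκ)) (hu0 D)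
    _ = ∑ D ∈ Ds, 3 * C₁ * C₄ * τ * Q ^ 2 * Y * (1 / |(D : ℝ)|) := by
        refine Finset.sum_congr rfl fun D hD => ?_
        have hD0 := hDs0 D hD
        have hcK : ((K D).card : ℝ) = (Nat.totient D.natAbs : ℝ) := by
          simp only [hK]
          rw [Nat.totient_eq_card_coprime]
        have htp : (0 : ℝ) < (Nat.totient D.natAbs : ℝ) := by
          exact_mod_cast Nat.totient_pos.2 (Int.natAbs_pos.2 hD0)
        have hDR : (D : ℝ) ≠ 0 := by exact_mod_cast hD0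
        have hDa : |(D : ℝ)| ≠ 0 := abs_ne_zero.2 hDR
        rw [Finset.sum_const, nsmul_eq_mul, hcK]
        simp only [hu]
        field_simp
    _ ≤ ∑ D ∈ Ds, 3 * C₁ * C₄ * τ * Q ^ 2 * Y * (1 / (δ * P)) := by
        refine Finset.sum_le_sum fun D hD => ?_
        rw [hDs, Finset.mem_filter] at hD
        refine mul_le_mul_of_nonneg_left ?_ (by positivity)
        exact one_div_le_one_div_of_le (by positivity) hD.2.le
    _ = (Ds.card : ℝ) * (3 * C₁ * C₄ * τ * Q ^ 2 * Y * (1 / (δ * P))) := by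
        rw [Finset.sum_const, nsmul_eq_mul]
    _ ≤ (3 * (C₄ * P)) * (3 * C₁ * C₄ * τ * Q ^ 2 * Y * (1 / (δ * P))) :=
        mul_le_mul_of_nonneg_right hcard (by positivity)
    _ = 9 * C₁ * C₄ ^ 2 / δ * τ * Q ^ 2 * Y := by
        field_simp
        ring

end Pool.Agent.T2


namespace Pool.Agent.T2

theorem mp_strip : type_of% @mp_strip_pr := @mp_strip_pr

end Pool.Agent.T2
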