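import Pool.Agent.Lib_helper10.T2.DefsB
import Pool.Agent.Lib_helper10.T2F.BAS
import Pool.Agent.Lib_helper10.T2F.CNT
import Pool.Agent.Lib_helper10.T2F.EQU

/-! T2, block BSM: small determinants (MP_892e4c_nt) -/

namespace Pool.Agent.T2

open Filter Topology

theorem bsm_class (s : Finset ℤ) (N : ℕ) (hN : 1 ≤ N) (α β : ℝ) (hab : α ≤ β)
    (hs : ∀ x ∈ s, α ≤ (x : ℝ) ∧ (x : ℝ) ≤ β) (hc : ∀ x ∈ s, ∀ y ∈ s, (N : ℤ) ∣ x - y) :
    (s.card : ℝ) ≤ (β - α) / N + 1 := by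
  have hNr : (0 : ℝ) < N := by exact_mod_cast hN
  have hNz : (N : ℤ) ≠ 0 := by exact_mod_cast (by omega : N ≠ 0)
  have h0 : 0 ≤ (β - α) / N := div_nonneg (by linarith) hNr.le
  rcases s.eq_empty_or_nonempty with h | h
  · subst h
    simp only [Finset.card_empty, Nat.cast_zero]
    linarith
  · have hmem : s.min' h ∈ s := s.min'_mem h
    have hcard : s.card ≤ (Finset.range (⌊(β - α) / N⌋₊ + 1)).card := by
      apply Finset.card_le_card_of_injOn (fun x => ((x - s.min' h) / N).toNat)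
      · intro x hx
        have hx' : x ∈ s := hx
        rw [Finset.coe_range, Set.mem_Iio, Nat.lt_succ_iff]
        obtain ⟨c, hc'⟩ := hc x hx' _ hmem
        have hle : s.min' h ≤ x := s.min'_le x hx'
        have hNp : (0 : ℤ) < N := by exact_mod_cast hN
        have hc0 : 0 ≤ c := by
          by_contra hneg
          have : (N : ℤ) * c < 0 := mul_neg_of_pos_of_neg hNp (by omega)
          omega
        show ((x - s.min' h) / N).toNat ≤ _
        rw [hc', Int.mul_ediv_cancel_left _ hNz]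
        apply Nat.le_floor
        rw [le_div_iff₀ hNr]
        have e1 : ((c.toNat : ℕ) : ℝ) = (c : ℝ) := by
          have : ((c.toNat : ℕ) : ℤ) = c := Int.toNat_of_nonneg hc0
          exact_mod_cast this
        rw [e1]
        have e2 : ((x : ℝ) - (s.min' h : ℝ)) = N * c := by exact_mod_cast hc'
        have := hs x hx'
        have := hs _ hmem
        nlinarith
      · intro x hx y hy hxy
        have hx' : x ∈ s := hx
        have hy' : y ∈ s := hy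
        obtain ⟨c, hcx⟩ := hc x hx' _ hmem
        obtain ⟨d, hdy⟩ := hc y hy' _ hmem
        have hNp : (0 : ℤ) < N := by exact_mod_cast hN
        have hlex : s.min' h ≤ x := s.min'_le x hx'
        have hley : s.min' h ≤ y := s.min'_le y hy'
        have hc0 : 0 ≤ c := by
          by_contra hneg
          have : (N : ℤ) * c < 0 := mul_neg_of_pos_of_neg hNp (by omega)
          omega
        have hd0 : 0 ≤ d := by
          by_contra hneg
          have : (N : ℤ) * d < 0 := mul_neg_of_pos_of_neg hNp (by omega)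
          omega
        have hxy' : ((x - s.min' h) / N).toNat = ((y - s.min' h) / N).toNat := hxy
        rw [hcx, hdy, Int.mul_ediv_cancel_left _ hNz, Int.mul_ediv_cancel_left _ hNz] at hxy'
        have : c = d := by omega
        subst this
        omega
    rw [Finset.card_range] at hcard
    have h1 : (s.card : ℝ) ≤ (⌊(β - α) / N⌋₊ : ℝ) + 1 := by exact_mod_cast hcard
    have h2 := Nat.floor_le h0
    linarith

theorem bsm_det0 {u z : G} (hu : Prm u) (h : det u z = 0) : ∃ t : ℤ, z = (t : G) * u := by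
  have hg : Int.gcd u.re u.im = 1 := hu
  have hb := Int.gcd_eq_gcd_ab u.re u.im
  rw [hg] at hb
  push_cast at hb
  have hd : u.re * z.im = u.im * z.re := by unfold det at h; linarith
  refine ⟨Int.gcdA u.re u.im * z.re + Int.gcdB u.re u.im * z.im, ?_⟩
  apply Zsqrtd.ext
  · simp
    linear_combination z.re * hb - Int.gcdB u.re u.im * hd
  · simp
    linear_combination z.im * hb + Int.gcdA u.re u.im * hd

theorem bsm_vex {u : G} (hu : Prm u) : ∃ v : G, det u v = 1 ∧ 0 ≤ ip u v ∧ ip u v < nn u := by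
  have hg : Int.gcd u.re u.im = 1 := hu
  have hb := Int.gcd_eq_gcd_ab u.re u.im
  rw [hg] at hb
  push_cast at hb
  have hN : (0 : ℤ) < nn u := by exact_mod_cast nn_pos.2 (prm_ne hu)
  obtain ⟨v0, hv0⟩ : ∃ v0 : G, v0 = ⟨-Int.gcdB u.re u.im, Int.gcdA u.re u.im⟩ := ⟨_, rfl⟩
  have hdet : det u v0 = 1 := by rw [hv0]; unfold det; simp only; linear_combination -hb
  obtain ⟨t, ht⟩ : ∃ t : ℤ, t = ip u v0 / nn u := ⟨_, rfl⟩
  have e : ip u ⟨v0.re - t * u.re, v0.im - t * u.im⟩ = ip u v0 % nn u := by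
    rw [Int.emod_def, ← ht, nn_cast]; unfold ip; simp only; ring
  refine ⟨⟨v0.re - t * u.re, v0.im - t * u.im⟩, ?_, ?_, ?_⟩
  · unfold det at hdet ⊢; simp only; linear_combination hdet
  · rw [e]; exact Int.emod_nonneg _ hN.ne'
  · rw [e]; exact Int.emod_lt_of_pos _ hN

open Classical in
noncomputable def bsm_v (u : G) : G :=
  if h : ∃ v : G, det u v = 1 ∧ 0 ≤ ip u v ∧ ip u v < nn u then h.choose else 0

theorem bsm_v_spec {u : G} (hu : Prm u) :
    det u (bsm_v u) = 1 ∧ 0 ≤ ip u (bsm_v u) ∧ ip u (bsm_v u) < nn u := by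
  unfold bsm_v
  rw [dif_pos (bsm_vex hu)]
  exact (bsm_vex hu).choose_spec

theorem bsm_jex {u : G} (hu : Prm u) (w : G) :
    ∃ j : ℤ, w = ((det u w : ℤ) : G) * bsm_v u - (j : G) * u := by
  have hv := (bsm_v_spec hu).1
  obtain ⟨t, ht⟩ := bsm_det0 hu (z := ((det u w : ℤ) : G) * bsm_v u - w) (by
    unfold det at hv ⊢
    simp
    linear_combination (u.re * w.im - u.im * w.re) * hv)
  exact ⟨t, by rw [← ht]; ring⟩

open Classical in
noncomputable def bsm_j (u w : G) : ℤ :=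
  if h : ∃ j : ℤ, w = ((det u w : ℤ) : G) * bsm_v u - (j : G) * u then h.choose else 0

theorem bsm_j_spec {u : G} (hu : Prm u) (w : G) :
    w = ((det u w : ℤ) : G) * bsm_v u - (bsm_j u w : G) * u := by
  conv_rhs => rw [bsm_j, dif_pos (bsm_jex hu w)]
  exact (bsm_jex hu w).choose_spec

theorem bsm_ip_lin (u v z : G) (m j : ℤ) :
    ip u ((m : G) * v - (j : G) * z) = m * ip u v - j * ip u z := by
  unfold ip
  simp
  ring

theorem bsm_det_lin (u v : G) (m j m' j' : ℤ) :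
    det ((m : G) * v - (j : G) * u) ((m' : G) * v - (j' : G) * u) =
      (m * j' - m' * j) * det u v := by
  unfold det
  simp
  ring

theorem bsm_ip_self (u : G) : ip u u = nn u := by
  rw [nn_cast]; unfold ip; ring

theorem bsm_ip_le {u w : G} {L Y : ℝ} (hL : 0 ≤ L) (hY : Y ≤ L ^ 2 * nn u)
    (hw : (nn w : ℝ) ≤ Y) : |(ip u w : ℝ)| ≤ L * nn u := by
  apply abs_le_of_sq_le_sq _ (by positivity)
  have h1 : ((nn u : ℤ) * nn w : ℤ) = ip u w ^ 2 + det u w ^ 2 := ip_sq_add u w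
  have h2 : (nn u : ℝ) * nn w = (ip u w : ℝ) ^ 2 + (det u w : ℝ) ^ 2 := by exact_mod_cast h1
  have h3 : (0 : ℝ) ≤ nn u := Nat.cast_nonneg _
  nlinarith [sq_nonneg (det u w : ℝ), mul_le_mul_of_nonneg_left (hw.trans hY) h3]

theorem bsm_fib {u : G} (hu : Prm u) (m : ℤ) (Y Z : ℝ) (hZ : 0 ≤ Z) (hY : Y ≤ Z ^ 2 * nn u)
    (W : Finset G) (hW : ∀ w ∈ W, (nn w : ℝ) ≤ Y ∧ det u w = m) :
    (W.card : ℝ) ≤ 2 * Z + 1 := by
  classical
  have hN : 0 < nn u := nn_pos.2 (prm_ne hu)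
  have hNr : (0 : ℝ) < nn u := by exact_mod_cast hN
  have hdiff : ∀ w ∈ W, ∀ w' ∈ W, ∃ t : ℤ, w - w' = (t : G) * u := by
    intro w hw w' hw'
    apply bsm_det0 hu
    have h1 := (hW w hw).2
    have h2 := (hW w' hw').2
    unfold det at h1 h2 ⊢
    simp
    linarith
  have hipd : ∀ (w w' : G) (t : ℤ), w - w' = (t : G) * u → ip u w - ip u w' = t * nn u := by
    intro w w' t h
    have h1 : ip u w - ip u w' = ip u (w - w') := by unfold ip; simp; ring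
    rw [h1, h, ← bsm_ip_self]
    unfold ip
    simp
    ring
  have hinj : Set.InjOn (fun w => ip u w) (W : Set G) := by
    intro w hw w' hw' h
    obtain ⟨t, ht⟩ := hdiff w hw w' hw'
    have h1 := hipd w w' t ht
    have h2 : ip u w = ip u w' := h
    have h3 : t * (nn u : ℤ) = 0 := by rw [← h1, h2]; ring
    have h4 : t = 0 := by
      rcases mul_eq_zero.1 h3 with h | h
      · exact h
      · exfalso; have : nn u = 0 := by exact_mod_cast h
        omega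
    rw [h4] at ht
    simpa [sub_eq_zero] using ht
  have hcard : (W.image (fun w => ip u w)).card = W.card := Finset.card_image_of_injOn hinj
  rw [← hcard]
  have h := bsm_class (W.image (fun w => ip u w)) (nn u) hN (-(Z * nn u)) (Z * nn u)
    (by nlinarith [mul_nonneg hZ hNr.le]) (by
      intro x hx
      obtain ⟨w, hw, rfl⟩ := Finset.mem_image.1 hx
      exact abs_le.1 (bsm_ip_le hZ hY (hW w hw).1)) (by
      intro x hx y hy
      obtain ⟨w, hw, rfl⟩ := Finset.mem_image.1 hx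
      obtain ⟨w', hw', rfl⟩ := Finset.mem_image.1 hy
      obtain ⟨t, ht⟩ := hdiff w hw w' hw'
      exact ⟨t, by rw [hipd w w' t ht]; ring⟩)
  have e : (Z * nn u - -(Z * nn u)) / nn u = 2 * Z := by field_simp; ring
  rw [e] at h
  exact h

theorem bsm_L {a : ℝ} (ha : 0 < a) {Y : ℝ} {u : G} (hu : a * Y < (nn u : ℝ)) :
    Y ≤ (1 / Real.sqrt a) ^ 2 * nn u := by
  rw [div_pow, one_pow, Real.sq_sqrt ha.le, one_div, inv_mul_eq_div, le_div_iff₀ ha]
  linarith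

theorem bsm_s1 (a : ℝ) (ha : 0 < a) : ∃ C : ℝ, 0 ≤ C ∧ ∀ (B : Finset ℕ) (Y : ℝ), 0 ≤ Y →
    ∀ S : Finset (G × G × G), (∀ t ∈ S, Prm t.2.2 ∧ t.2.1 = t.1 ∧ (nn t.1 : ℝ) ≤ Y ∧
      a * Y < (nn t.2.2 : ℝ) ∧ (nn t.2.2 : ℝ) ≤ Y ∧ ∃ p ∈ B, det t.2.2 t.1 = (p : ℤ)) →
    (S.card : ℝ) ≤ C * (B.card * Y) := by
  classical
  obtain ⟨Cb, hCb, hball⟩ := ball_le
  have hL : 0 < 1 / Real.sqrt a := by have := Real.sqrt_pos.2 ha; positivity
  refine ⟨(2 * (1 / Real.sqrt a) + 1) * Cb, by positivity, ?_⟩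
  intro B Y hY S hS
  have hmaps : ∀ t ∈ S, ((det t.2.2 t.1).toNat, t.2.2) ∈ B ×ˢ Bl Y := by
    intro t ht
    obtain ⟨h1, h2, h3, h4, h5, p, hp, h6⟩ := hS t ht
    rw [Finset.mem_product]
    refine ⟨?_, mem_Bl.2 ⟨prm_ne h1, h5⟩⟩
    show (det t.2.2 t.1).toNat ∈ B
    rw [h6]; simpa using hp
  have hcard := Finset.card_eq_sum_card_fiberwise (f := fun t : G × G × G =>
    ((det t.2.2 t.1).toNat, t.2.2)) (s := S) (t := B ×ˢ Bl Y) hmaps
  have hfib : ∀ i ∈ B ×ˢ Bl Y, ((S.filter (fun t => ((det t.2.2 t.1).toNat, t.2.2) = i)).card : ℝ) ≤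
      2 * (1 / Real.sqrt a) + 1 := by
    intro i hi
    by_cases hne : (S.filter (fun t => ((det t.2.2 t.1).toNat, t.2.2) = i)).Nonempty
    · obtain ⟨t₀, ht₀⟩ := hne
      rw [Finset.mem_filter] at ht₀
      obtain ⟨ht₀S, ht₀e⟩ := ht₀
      obtain ⟨h1, h2, h3, h4, h5, p, hp, h6⟩ := hS t₀ ht₀S
      have hinj : Set.InjOn (fun t : G × G × G => t.1)
          (S.filter (fun t => ((det t.2.2 t.1).toNat, t.2.2) = i) : Set (G × G × G)) := by
        intro t ht t' ht' h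
        rw [Finset.mem_coe, Finset.mem_filter] at ht ht'
        have e1 := (hS t ht.1).2.1
        have e2 := (hS t' ht'.1).2.1
        have e3 : t.2.2 = t'.2.2 := by
          have := ht.2.trans ht'.2.symm
          exact (Prod.ext_iff.1 this).2
        have h' : t.1 = t'.1 := h
        refine Prod.ext h' (Prod.ext ?_ e3)
        rw [e1, e2, h']
      rw [← Finset.card_image_of_injOn hinj]
      apply bsm_fib h1 (p : ℤ) Y _ hL.le (bsm_L ha h4)
      intro w hw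
      obtain ⟨t, ht, rfl⟩ := Finset.mem_image.1 hw
      rw [Finset.mem_filter] at ht
      obtain ⟨g1, g2, g3, g4, g5, q, hq, g6⟩ := hS t ht.1
      have e := ht.2.trans ht₀e.symm
      have e4 := (Prod.ext_iff.1 e).1
      have e5 := (Prod.ext_iff.1 e).2
      simp only at e4 e5
      refine ⟨g3, ?_⟩
      rw [g6, h6] at e4
      simp at e4
      rw [← e5, g6, e4]
    · rw [Finset.not_nonempty_iff_eq_empty] at hne
      rw [hne]
      simp
      positivity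
  calc (S.card : ℝ) = ∑ i ∈ B ×ˢ Bl Y,
        ((S.filter (fun t => ((det t.2.2 t.1).toNat, t.2.2) = i)).card : ℝ) := by
        rw [hcard]; push_cast; rfl
    _ ≤ ∑ i ∈ B ×ˢ Bl Y, (2 * (1 / Real.sqrt a) + 1) := Finset.sum_le_sum hfib
    _ = (B.card * (Bl Y).card) * (2 * (1 / Real.sqrt a) + 1) := by
        rw [Finset.sum_const, Finset.card_product, nsmul_eq_mul]; push_cast; ring
    _ ≤ (B.card * (Cb * Y)) * (2 * (1 / Real.sqrt a) + 1) := by
        gcongr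
        exact hball Y hY
    _ = _ := by ring

theorem bsm_det_nat (n : ℕ) (u w : G) : det ((n : G) * u) w = n * det u w := by
  unfold det
  simp
  ring

theorem bsm_s2 (a : ℝ) (ha : 0 < a) : ∃ C : ℝ, 0 ≤ C ∧ ∀ (B : Finset ℕ) (Y : ℝ), 0 ≤ Y →
    (∀ p ∈ B, p.Prime) →
    ∀ S : Finset (G × G × G), (∀ t ∈ S, ¬ Prm t.2.2 ∧ t.2.2 ≠ 0 ∧ (nn t.1 : ℝ) ≤ Y ∧
      (nn t.2.1 : ℝ) ≤ Y ∧ a * Y < (nn t.2.2 : ℝ) ∧ (nn t.2.2 : ℝ) ≤ Y ∧
      (∃ p ∈ B, det t.2.2 t.1 = (p : ℤ)) ∧ ∃ p ∈ B, det t.2.2 t.2.1 = (p : ℤ)) →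
    (S.card : ℝ) ≤ C * (B.card * Y) := by
  classical
  obtain ⟨Cb, hCb, hball⟩ := ball_le
  have hL : 0 < 1 / Real.sqrt a := by have := Real.sqrt_pos.2 ha; positivity
  refine ⟨(2 * (1 / Real.sqrt a) + 1) ^ 2 * Cb, by positivity, ?_⟩
  intro B Y hY hB S hS
  have hex : ∀ t ∈ S, ∃ q : ℕ × G, q.1 ∈ B ∧ Prm q.2 ∧ t.2.2 = (q.1 : G) * q.2 ∧
      det q.2 t.1 = 1 ∧ det q.2 t.2.1 = 1 := by
    intro t ht
    obtain ⟨h1, h2, h3, h4, h5, h6, ⟨p, hp, h7⟩, p', hp', h8⟩ := hS t ht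
    obtain ⟨n, w, hn, hw, hnw⟩ := content h2
    have hn1 : n ≠ 1 := by
      rintro rfl
      apply h1
      rw [hnw]; simpa using hw
    have hdp : n ∣ p := by
      have : (n : ℤ) ∣ (p : ℤ) := ⟨det w t.1, by rw [← h7, hnw, bsm_det_nat]⟩
      exact_mod_cast this
    have hdp' : n ∣ p' := by
      have : (n : ℤ) ∣ (p' : ℤ) := ⟨det w t.2.1, by rw [← h8, hnw, bsm_det_nat]⟩
      exact_mod_cast this
    have e1 : n = p := ((Nat.dvd_prime (hB p hp)).1 hdp).resolve_left hn1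
    have e2 : n = p' := ((Nat.dvd_prime (hB p' hp')).1 hdp').resolve_left hn1
    have hn0 : (n : ℤ) ≠ 0 := by exact_mod_cast (by omega : n ≠ 0)
    refine ⟨(n, w), by rw [e1]; exact hp, hw, hnw, ?_, ?_⟩
    · rw [hnw, bsm_det_nat, ← e1] at h7
      exact mul_left_cancel₀ hn0 (by rw [h7]; ring)
    · rw [hnw, bsm_det_nat, ← e2] at h8
      exact mul_left_cancel₀ hn0 (by rw [h8]; ring)
  choose! f hf using hex
  have hmaps : ∀ t ∈ S, (f t).1 ∈ B := fun t ht => (hf t ht).1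
  have hcard := Finset.card_eq_sum_card_fiberwise (f := fun t : G × G × G => (f t).1)
    (s := S) (t := B) hmaps
  have hp_bound : ∀ p ∈ B, ((S.filter (fun t => (f t).1 = p)).card : ℝ) ≤
      (2 * (1 / Real.sqrt a) + 1) ^ 2 * Cb * Y := by
    intro p hp
    have hp1 : 1 ≤ p := (hB p hp).one_lt.le
    have hp1r : (1 : ℝ) ≤ p := by exact_mod_cast hp1
    have hpp : (0 : ℝ) < p := by linarith
    have hmaps2 : ∀ t ∈ S.filter (fun t => (f t).1 = p), (f t).2 ∈ Bl (Y / (p : ℝ) ^ 2) := by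
      intro t ht
      rw [Finset.mem_filter] at ht
      obtain ⟨g1, g2, g3, g4, g5⟩ := hf t ht.1
      obtain ⟨h1, h2, h3, h4, h5, h6, -⟩ := hS t ht.1
      rw [mem_Bl]
      refine ⟨prm_ne g2, ?_⟩
      rw [le_div_iff₀ (by positivity)]
      rw [g3, ht.2, nn_mul, nn_nat] at h6
      push_cast at h6
      linarith
    have hcard2 := Finset.card_eq_sum_card_fiberwise (f := fun t : G × G × G => (f t).2)
      (s := S.filter (fun t => (f t).1 = p)) (t := Bl (Y / (p : ℝ) ^ 2)) hmaps2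
    have hfib : ∀ u ∈ Bl (Y / (p : ℝ) ^ 2),
        (((S.filter (fun t => (f t).1 = p)).filter (fun t => (f t).2 = u)).card : ℝ) ≤
        ((2 * (1 / Real.sqrt a) + 1) * p) ^ 2 := by
      intro u hu
      set F := (S.filter (fun t => (f t).1 = p)).filter (fun t => (f t).2 = u) with hF
      by_cases hne : F.Nonempty
      · obtain ⟨t₀, ht₀⟩ := hne
        have hmem : ∀ t ∈ F, t ∈ S ∧ (f t).1 = p ∧ (f t).2 = u := by
          intro t ht
          rw [hF, Finset.mem_filter, Finset.mem_filter] at ht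
          exact ⟨ht.1.1, ht.1.2, ht.2⟩
        obtain ⟨ht1, ht2, ht3⟩ := hmem t₀ ht₀
        have hup : Prm u := by rw [← ht3]; exact (hf t₀ ht1).2.1
        have hYu : Y ≤ ((1 / Real.sqrt a) * p) ^ 2 * nn u := by
          have h5 := (hS t₀ ht1).2.2.2.2.1
          have h6 := bsm_L ha h5
          rw [(hf t₀ ht1).2.2.1, ht2, ht3, nn_mul, nn_nat] at h6
          push_cast at h6
          linarith
        have hZ : 0 ≤ (1 / Real.sqrt a) * p := by positivity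
        have hW1 : ((F.image (fun t => t.1)).card : ℝ) ≤ 2 * ((1 / Real.sqrt a) * p) + 1 := by
          apply bsm_fib hup 1 Y _ hZ hYu
          intro w hw
          obtain ⟨t, ht, rfl⟩ := Finset.mem_image.1 hw
          obtain ⟨g1, g2, g3⟩ := hmem t ht
          exact ⟨(hS t g1).2.2.1, by rw [← g3]; exact (hf t g1).2.2.2.1⟩
        have hW2 : ((F.image (fun t => t.2.1)).card : ℝ) ≤ 2 * ((1 / Real.sqrt a) * p) + 1 := by
          apply bsm_fib hup 1 Y _ hZ hYu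
          intro w hw
          obtain ⟨t, ht, rfl⟩ := Finset.mem_image.1 hw
          obtain ⟨g1, g2, g3⟩ := hmem t ht
          exact ⟨(hS t g1).2.2.2.1, by rw [← g3]; exact (hf t g1).2.2.2.2⟩
        have hFc : F.card ≤ ((F.image (fun t => t.1)) ×ˢ (F.image (fun t => t.2.1))).card := by
          apply Finset.card_le_card_of_injOn (fun t => (t.1, t.2.1))
          · intro t ht
            rw [Finset.mem_coe, Finset.mem_product]
            exact ⟨Finset.mem_image_of_mem _ ht, Finset.mem_image_of_mem _ ht⟩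
          · intro t ht t' ht' h
            obtain ⟨g1, g2, g3⟩ := hmem t ht
            obtain ⟨g1', g2', g3'⟩ := hmem t' ht'
            have e1 := (Prod.ext_iff.1 h).1
            have e2 := (Prod.ext_iff.1 h).2
            simp only at e1 e2
            refine Prod.ext e1 (Prod.ext e2 ?_)
            rw [(hf t g1).2.2.1, (hf t' g1').2.2.1, g2, g3, g2', g3']
        rw [Finset.card_product] at hFc
        have hFr : (F.card : ℝ) ≤ (F.image (fun t => t.1)).card * (F.image (fun t => t.2.1)).card := by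
          exact_mod_cast hFc
        have hb : 2 * ((1 / Real.sqrt a) * p) + 1 ≤ (2 * (1 / Real.sqrt a) + 1) * p := by
          nlinarith
        calc (F.card : ℝ) ≤ _ := hFr
          _ ≤ (2 * ((1 / Real.sqrt a) * p) + 1) * (2 * ((1 / Real.sqrt a) * p) + 1) := by
              gcongr
          _ ≤ ((2 * (1 / Real.sqrt a) + 1) * p) * ((2 * (1 / Real.sqrt a) + 1) * p) := by
              gcongr
          _ = _ := by ring
      · rw [Finset.not_nonempty_iff_eq_empty] at hne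
        rw [hne]
        simp only [Finset.card_empty, Nat.cast_zero]
        positivity
    calc ((S.filter (fun t => (f t).1 = p)).card : ℝ) = ∑ u ∈ Bl (Y / (p : ℝ) ^ 2),
          (((S.filter (fun t => (f t).1 = p)).filter (fun t => (f t).2 = u)).card : ℝ) := by
          rw [hcard2]; push_cast; rfl
      _ ≤ ∑ u ∈ Bl (Y / (p : ℝ) ^ 2), ((2 * (1 / Real.sqrt a) + 1) * p) ^ 2 :=
          Finset.sum_le_sum hfib
      _ = ((Bl (Y / (p : ℝ) ^ 2)).card : ℝ) * ((2 * (1 / Real.sqrt a) + 1) * p) ^ 2 := by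
          rw [Finset.sum_const, nsmul_eq_mul]
      _ ≤ (Cb * (Y / (p : ℝ) ^ 2)) * ((2 * (1 / Real.sqrt a) + 1) * p) ^ 2 := by
          gcongr
          exact hball _ (by positivity)
      _ = _ := by field_simp
  calc (S.card : ℝ) = ∑ p ∈ B, ((S.filter (fun t => (f t).1 = p)).card : ℝ) := by
        rw [hcard]; push_cast; rfl
    _ ≤ ∑ p ∈ B, ((2 * (1 / Real.sqrt a) + 1) ^ 2 * Cb * Y) := Finset.sum_le_sum hp_bound
    _ = _ := by rw [Finset.sum_const, nsmul_eq_mul]; ring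

theorem bsm_mem_QP {η : ℝ} {P p : ℕ} (h : p ∈ QP η P) :
    p.Prime ∧ P < p ∧ (p : ℝ) ≤ (1 + η) * P := by
  unfold QP pr1 at h
  rw [Finset.mem_filter] at h
  exact ⟨h.2.1, by exact_mod_cast h.2.2.2.1, h.2.2.2.2⟩

/-- the data attached to a triple -/
theorem bsm_data {a : ℝ} (ha : 0 < a) {Y : ℝ} {u w : G} (hu : Prm u) (p : ℕ)
    (hp : det u w = (p : ℤ)) (hY : a * Y < (nn u : ℝ)) (hw : (nn w : ℝ) ≤ Y) (hip : 0 < ip u w) :
    -(1 / Real.sqrt a) ≤ (bsm_j u w : ℝ) ∧ bsm_j u w ≤ (p : ℤ) ∧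
    (bsm_j u w : ℝ) / p * nn u ≤ (ip u (bsm_v u) : ℝ) * (if p = 0 then 0 else 1) ∧
    (ip u (bsm_v u) : ℝ) * p ≤ ((bsm_j u w : ℝ) + 1 / Real.sqrt a) * nn u ∧
    (bsm_j u w : ℝ) * nn u ≤ (ip u (bsm_v u) : ℝ) * p := by
  have hL : 0 < 1 / Real.sqrt a := by have := Real.sqrt_pos.2 ha; positivity
  have hN : (0 : ℝ) < nn u := by exact_mod_cast nn_pos.2 (prm_ne hu)
  obtain ⟨hv1, hv2, hv3⟩ := bsm_v_spec hu
  have hj := bsm_j_spec hu w
  have e1 : ip u w = p * ip u (bsm_v u) - bsm_j u w * nn u := by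
    conv_lhs => rw [hj]
    rw [bsm_ip_lin, hp, bsm_ip_self]
  have e2 : (ip u w : ℝ) = p * (ip u (bsm_v u) : ℝ) - bsm_j u w * nn u := by exact_mod_cast e1
  have h1 := abs_le.1 (bsm_ip_le hL.le (bsm_L ha hY) hw)
  have hip' : (0 : ℝ) < ip u w := by exact_mod_cast hip
  have hv2' : (0 : ℝ) ≤ ip u (bsm_v u) := by exact_mod_cast hv2
  have hv3' : (ip u (bsm_v u) : ℝ) < nn u := by exact_mod_cast hv3
  have hp0 : (0 : ℝ) ≤ p := Nat.cast_nonneg p
  have hC : (bsm_j u w : ℝ) * nn u ≤ (ip u (bsm_v u) : ℝ) * p := by linarith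
  refine ⟨?_, ?_, ?_, by linarith, hC⟩
  · by_contra hcon
    push Not at hcon
    have : (bsm_j u w : ℝ) * nn u < -(1 / Real.sqrt a) * nn u :=
      mul_lt_mul_of_pos_right hcon hN
    nlinarith [mul_nonneg hp0 hv2']
  · by_contra hcon
    push Not at hcon
    have hcon' : (p : ℝ) < bsm_j u w := by exact_mod_cast hcon
    have : (p : ℝ) * nn u < (bsm_j u w : ℝ) * nn u := mul_lt_mul_of_pos_right hcon' hN
    nlinarith [mul_le_mul_of_nonneg_left hv3'.le hp0]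
  · by_cases h0 : p = 0
    · subst h0; simp
    · have hpp : (0 : ℝ) < p := by exact_mod_cast Nat.pos_of_ne_zero h0
      rw [if_neg h0, mul_one, div_mul_eq_mul_div, div_le_iff₀ hpp]
      exact hC

theorem bsm_s3 (a b : ℝ) (ha : 0 < a) (hab : a < b) : ∃ C : ℝ, 0 ≤ C ∧ ∀ η δ : ℝ, 0 < η →
    η ≤ 1 → 0 < δ → δ ≤ 1 → ∀ P : ℕ, 1 ≤ P → ∃ Y₀ : ℝ, ∀ Y : ℝ, Y₀ ≤ Y → 0 ≤ Y →
    ∀ S : Finset (G × G × G), (∀ t ∈ S, Prm t.2.2 ∧ det t.1 t.2.1 ≠ 0 ∧
      |(det t.1 t.2.1 : ℝ)| ≤ δ * P ∧ (nn t.1 : ℝ) ≤ Y ∧ (nn t.2.1 : ℝ) ≤ Y ∧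
      a * Y < (nn t.2.2 : ℝ) ∧ (nn t.2.2 : ℝ) ≤ b * Y ∧ 0 < ip t.2.2 t.1 ∧ 0 < ip t.2.2 t.2.1 ∧
      (∃ p ∈ QP η P, det t.2.2 t.1 = (p : ℤ)) ∧ ∃ p ∈ QP η P, det t.2.2 t.2.1 = (p : ℤ)) →
    (S.card : ℝ) ≤ C * (δ * ((QP η P).card : ℝ) ^ 2 * Y) := by
  classical
  obtain ⟨c, hc, hequi⟩ := equi 1 le_rfl
  obtain ⟨L, hLdef⟩ : ∃ L : ℝ, L = 1 / Real.sqrt a := ⟨_, rfl⟩
  have hL : 0 < L := by rw [hLdef]; have := Real.sqrt_pos.2 ha; positivity
  have hba : 0 < b - a := by linarith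
  obtain ⟨C₁, hC₁⟩ : ∃ C₁ : ℝ, C₁ = c * (b - a) * (L + 1) + 1 := ⟨_, rfl⟩
  have hC₁0 : 0 < C₁ := by rw [hC₁]; positivity
  refine ⟨2 * (2 + L) * C₁, by positivity, ?_⟩
  intro η δ hη hη1 hδ hδ1 P hP
  have hPr : (1 : ℝ) ≤ P := by exact_mod_cast hP
  -- uniform bound over finitely many intervals
  have hev : ∀ q ∈ (QP η P) ×ˢ (Finset.Icc (-⌈L⌉) (2 * P : ℤ)), ∀ᶠ Y : ℝ in atTop,
      ((Reg 1 0 0 a b ((q.2 : ℝ) / q.1) (((q.2 : ℝ) + L + 1) / q.1) Y).ncard : ℝ) / Y ≤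
        C₁ / q.1 := by
    intro q hq
    rw [Finset.mem_product] at hq
    have hq1 := bsm_mem_QP hq.1
    have hqp : (0 : ℝ) < q.1 := by exact_mod_cast hq1.1.pos
    have ht := hequi 0 0 (by simp) a b ((q.2 : ℝ) / q.1) (((q.2 : ℝ) + L + 1) / q.1) ha.le hab.le
      (by gcongr; linarith)
    have hlt : c * (b - a) * (((q.2 : ℝ) + L + 1) / q.1 - (q.2 : ℝ) / q.1) < C₁ / q.1 := by
      have : c * (b - a) * (((q.2 : ℝ) + L + 1) / q.1 - (q.2 : ℝ) / q.1) =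
        (c * (b - a) * (L + 1)) / q.1 := by field_simp; ring
      rw [this]
      gcongr
      rw [hC₁]; linarith
    exact (ht.eventually (gt_mem_nhds hlt)).mono (fun Y hY => hY.le)
  have hall := (Filter.eventually_all_finset _).2 hev
  obtain ⟨Y₁, hY₁⟩ := Filter.eventually_atTop.1 hall
  refine ⟨max Y₁ 1, ?_⟩
  intro Y hY hY0 S hS
  have hYY₁ : Y₁ ≤ Y := le_trans (le_max_left _ _) hY
  have hY1 : 1 ≤ Y := le_trans (le_max_right _ _) hY
  have hYp : 0 < Y := by linarith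
  obtain ⟨Ds, hDs⟩ : ∃ Ds : Finset ℤ, Ds = (Finset.Icc (-⌊δ * P⌋) ⌊δ * P⌋).erase 0 := ⟨_, rfl⟩
  have hδP : 0 ≤ δ * P := by positivity
  have hfl : 0 ≤ ⌊δ * P⌋ := Int.floor_nonneg.2 hδP
  have hDcard : (Ds.card : ℝ) ≤ 2 * (δ * P) := by
    have h1 : Ds.card = (2 * ⌊δ * P⌋).toNat := by
      rw [hDs, Finset.card_erase_of_mem (by rw [Finset.mem_Icc]; omega), Int.card_Icc]
      omega
    have h2 : ((Ds.card : ℤ) : ℝ) = ((2 * ⌊δ * P⌋ : ℤ) : ℝ) := by
      have : (Ds.card : ℤ) = 2 * ⌊δ * P⌋ := by rw [h1]; exact Int.toNat_of_nonneg (by omega)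
      rw [this]
    have h3 : (Ds.card : ℝ) = 2 * (⌊δ * P⌋ : ℝ) := by
      push_cast at h2
      exact h2
    rw [h3]
    have := Int.floor_le (δ * P)
    linarith
  obtain ⟨Js, hJs⟩ : ∃ Js : Finset ℤ, Js = Finset.Icc (-⌈L⌉) (2 * P : ℤ) := ⟨_, rfl⟩
  obtain ⟨I, hI⟩ : ∃ I : Finset (((ℕ × ℕ) × ℤ) × ℤ), I =
      ((((QP η P) ×ˢ (QP η P)) ×ˢ Ds) ×ˢ Js).filter (fun i =>
        i.1.1.1 ≠ i.1.1.2 ∧ (i.1.1.1 : ℤ) ∣ i.1.2 + i.1.1.2 * i.2 ∧ -L ≤ (i.2 : ℝ) ∧
          i.2 ≤ (i.1.1.1 : ℤ)) := ⟨_, rfl⟩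
  -- the number of indices
  have hIcard : (I.card : ℝ) ≤ ((QP η P).card : ℝ) ^ 2 * (2 * (δ * P)) * (2 + L) := by
    have hm : ∀ i ∈ I, i.1 ∈ ((QP η P) ×ˢ (QP η P)) ×ˢ Ds := by
      intro i hi
      rw [hI, Finset.mem_filter, Finset.mem_product] at hi
      exact hi.1.1
    have hcard := Finset.card_eq_sum_card_fiberwise (f := fun i : ((ℕ × ℕ) × ℤ) × ℤ => i.1)
      (s := I) (t := ((QP η P) ×ˢ (QP η P)) ×ˢ Ds) hm
    have hfib : ∀ k ∈ ((QP η P) ×ˢ (QP η P)) ×ˢ Ds,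
        ((I.filter (fun i => i.1 = k)).card : ℝ) ≤ 2 + L := by
      intro k hk
      rw [Finset.mem_product, Finset.mem_product] at hk
      have hp := bsm_mem_QP hk.1.1
      have hp' := bsm_mem_QP hk.1.2
      have hp1 : 1 ≤ k.1.1 := hp.1.one_lt.le
      have hp1r : (1 : ℝ) ≤ k.1.1 := by exact_mod_cast hp1
      by_cases hkk : k.1.1 = k.1.2
      · have : I.filter (fun i => i.1 = k) = ∅ := by
          apply Finset.filter_eq_empty_iff.2
          intro i hi hik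
          rw [hI, Finset.mem_filter] at hi
          apply hi.2.1
          rw [hik]; exact hkk
        rw [this]
        simp only [Finset.card_empty, Nat.cast_zero]
        linarith
      have hinj : Set.InjOn (fun i : ((ℕ × ℕ) × ℤ) × ℤ => i.2)
          (I.filter (fun i => i.1 = k) : Set (((ℕ × ℕ) × ℤ) × ℤ)) := by
        intro i hi i' hi' h
        rw [Finset.mem_coe, Finset.mem_filter] at hi hi'
        exact Prod.ext (hi.2.trans hi'.2.symm) h
      rw [← Finset.card_image_of_injOn hinj]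
      have h := bsm_class ((I.filter (fun i => i.1 = k)).image (fun i => i.2)) k.1.1 hp1 (-L)
        k.1.1 (by linarith) (by
          intro x hx
          obtain ⟨i, hi, rfl⟩ := Finset.mem_image.1 hx
          rw [Finset.mem_filter, hI, Finset.mem_filter] at hi
          refine ⟨hi.1.2.2.2.1, ?_⟩
          have := hi.1.2.2.2.2
          rw [hi.2] at this
          exact_mod_cast this) (by
          intro x hx y hy
          obtain ⟨i, hi, rfl⟩ := Finset.mem_image.1 hx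
          obtain ⟨i', hi', rfl⟩ := Finset.mem_image.1 hy
          rw [Finset.mem_filter, hI, Finset.mem_filter] at hi hi'
          have h1 := hi.1.2.2.1
          have h2 := hi'.1.2.2.1
          rw [hi.2] at h1
          rw [hi'.2] at h2
          have h3 : (k.1.1 : ℤ) ∣ (k.1.2 : ℤ) * (i.2 - i'.2) := by
            have := dvd_sub h1 h2
            have e : (k.2 + (k.1.2 : ℤ) * i.2) - (k.2 + (k.1.2 : ℤ) * i'.2) =
              (k.1.2 : ℤ) * (i.2 - i'.2) := by ring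
            rwa [e] at this
          have hcop : IsCoprime (k.1.1 : ℤ) (k.1.2 : ℤ) :=
            Nat.isCoprime_iff_coprime.2 ((Nat.coprime_primes hp.1 hp'.1).2 hkk)
          exact hcop.dvd_of_dvd_mul_left h3)
      refine h.trans ?_
      have : ((k.1.1 : ℝ) - -L) / k.1.1 ≤ 1 + L := by
        rw [div_le_iff₀ (by linarith)]
        nlinarith
      linarith
    calc (I.card : ℝ) = ∑ k ∈ ((QP η P) ×ˢ (QP η P)) ×ˢ Ds,
          ((I.filter (fun i => i.1 = k)).card : ℝ) := by rw [hcard]; push_cast; rfl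
      _ ≤ ∑ k ∈ ((QP η P) ×ˢ (QP η P)) ×ˢ Ds, (2 + L) := Finset.sum_le_sum hfib
      _ = ((QP η P).card : ℝ) ^ 2 * (Ds.card : ℝ) * (2 + L) := by
          rw [Finset.sum_const, Finset.card_product, Finset.card_product, nsmul_eq_mul]
          push_cast; ring
      _ ≤ _ := by gcongr
  -- the map to the indices
  obtain ⟨f, hf⟩ : ∃ f : G × G × G → ((ℕ × ℕ) × ℤ) × ℤ, f = fun t =>
    ((((det t.2.2 t.1).toNat, (det t.2.2 t.2.1).toNat), det t.1 t.2.1), bsm_j t.2.2 t.1) :=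
    ⟨_, rfl⟩
  have hdet : ∀ t ∈ S, ∀ p p' : ℕ, det t.2.2 t.1 = (p : ℤ) → det t.2.2 t.2.1 = (p' : ℤ) →
      det t.1 t.2.1 = p * bsm_j t.2.2 t.2.1 - p' * bsm_j t.2.2 t.1 := by
    intro t ht p p' hp hp'
    have hu := (hS t ht).1
    have h1 := bsm_j_spec hu t.1
    have h2 := bsm_j_spec hu t.2.1
    rw [hp] at h1
    rw [hp'] at h2
    conv_lhs => rw [h1, h2]
    rw [bsm_det_lin, (bsm_v_spec hu).1]
    ring
  have hmaps : ∀ t ∈ S, f t ∈ I := by
    intro t ht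
    obtain ⟨h1, h2, h3, h4, h5, h6, h7, h8, h9, ⟨p, hp, h10⟩, p', hp', h11⟩ := hS t ht
    have hd := hdet t ht p p' h10 h11
    obtain ⟨d1, d2, -, -, -⟩ := bsm_data ha h1 p h10 h6 h4 h8
    rw [← hLdef] at d1
    have hpq := bsm_mem_QP hp
    have hpq' := bsm_mem_QP hp'
    have hp2 : p ≤ 2 * P := by
      have : (p : ℝ) ≤ 2 * P := hpq.2.2.trans (by nlinarith)
      exact_mod_cast this
    rw [hI, Finset.mem_filter, hf]
    simp only [Finset.mem_product, h10, h11, Int.toNat_natCast]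
    refine ⟨⟨⟨⟨hp, hp'⟩, ?_⟩, ?_⟩, ?_, ?_, d1, d2⟩
    · rw [hDs, Finset.mem_erase, Finset.mem_Icc]
      have h3' := abs_le.1 h3
      refine ⟨h2, ?_, ?_⟩
      · rw [neg_le]
        apply Int.le_floor.2
        push_cast
        linarith [h3'.1]
      · exact Int.le_floor.2 h3'.2
    · rw [hJs, Finset.mem_Icc]
      constructor
      · rw [neg_le]
        have : ((-bsm_j t.2.2 t.1 : ℤ) : ℝ) ≤ (⌈L⌉ : ℝ) := by
          have := Int.le_ceil L
          push_cast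
          linarith
        exact_mod_cast this
      · have : (p : ℤ) ≤ 2 * P := by exact_mod_cast hp2
        linarith
    · rintro rfl
      have hdv : (p : ℤ) ∣ det t.1 t.2.1 := ⟨bsm_j t.2.2 t.2.1 - bsm_j t.2.2 t.1, by rw [hd]; ring⟩
      have h12 := Int.le_of_dvd (abs_pos.2 h2) ((dvd_abs _ _).2 hdv)
      have h13 : (p : ℝ) ≤ |(det t.1 t.2.1 : ℝ)| := by exact_mod_cast h12
      have h14 : (P : ℝ) < p := by exact_mod_cast hpq.2.1
      nlinarith
    · exact ⟨bsm_j t.2.2 t.2.1, by rw [hd]; ring⟩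
  have hcard := Finset.card_eq_sum_card_fiberwise (f := f) (s := S) (t := I) hmaps
  have hfib : ∀ i ∈ I, ((S.filter (fun t => f t = i)).card : ℝ) ≤ C₁ / P * Y := by
    intro i hi
    rw [hI, Finset.mem_filter] at hi
    obtain ⟨hi1, hi2, hi3, hi4, hi5⟩ := hi
    rw [Finset.mem_product, Finset.mem_product, Finset.mem_product] at hi1
    have hpq := bsm_mem_QP hi1.1.1.1
    have hpq' := bsm_mem_QP hi1.1.1.2
    have hpp : (0 : ℝ) < i.1.1.1 := by exact_mod_cast hpq.1.pos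
    have hb := hY₁ Y hYY₁ (i.1.1.1, i.2) (by
      rw [Finset.mem_product]; exact ⟨hi1.1.1.1, by rw [← hJs]; exact hi1.2⟩)
    simp only at hb
    rw [div_le_iff₀ hYp] at hb
    have hfin := reg_finite 1 0 0 a b ((i.2 : ℝ) / i.1.1.1) (((i.2 : ℝ) + L + 1) / i.1.1.1) Y
      ha.le hY0
    have hmem : ∀ t ∈ S.filter (fun t => f t = i), t ∈ S ∧
        det t.2.2 t.1 = (i.1.1.1 : ℤ) ∧ det t.2.2 t.2.1 = (i.1.1.2 : ℤ) ∧
        det t.1 t.2.1 = i.1.2 ∧ bsm_j t.2.2 t.1 = i.2 := by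
      intro t ht
      rw [Finset.mem_filter, hf] at ht
      obtain ⟨ht1, ht2⟩ := ht
      obtain ⟨-, -, -, -, -, -, -, -, -, ⟨p, hp, h10⟩, p', hp', h11⟩ := hS t ht1
      simp only at ht2
      rw [h10, h11] at ht2
      simp only [Int.toNat_natCast] at ht2
      have e := Prod.ext_iff.1 ht2
      have e1 := Prod.ext_iff.1 e.1
      have e2 := Prod.ext_iff.1 e1.1
      refine ⟨ht1, ?_, ?_, e1.2, e.2⟩
      · rw [h10]; exact_mod_cast e2.1
      · rw [h11]; exact_mod_cast e2.2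
    have hinj : Set.InjOn (fun t : G × G × G => (t.2.2, bsm_v t.2.2))
        (S.filter (fun t => f t = i) : Set (G × G × G)) := by
      intro t ht t' ht' h
      obtain ⟨g1, g2, g3, g4, g5⟩ := hmem t ht
      obtain ⟨g1', g2', g3', g4', g5'⟩ := hmem t' ht'
      have hu : t.2.2 = t'.2.2 := (Prod.ext_iff.1 h).1
      have hPu := (hS t g1).1
      have hPu' := (hS t' g1').1
      have e1 : t.1 = t'.1 := by
        rw [bsm_j_spec hPu t.1, bsm_j_spec hPu' t'.1, g2, g2', g5, g5', hu]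
      have hj' : bsm_j t.2.2 t.2.1 = bsm_j t'.2.2 t'.2.1 := by
        have k1 := hdet t g1 _ _ g2 g3
        have k2 := hdet t' g1' _ _ g2' g3'
        rw [g4, g5] at k1
        rw [g4', g5'] at k2
        have hne : (i.1.1.1 : ℤ) ≠ 0 := by exact_mod_cast hpq.1.ne_zero
        exact mul_left_cancel₀ hne (by linarith)
      have e2 : t.2.1 = t'.2.1 := by
        rw [bsm_j_spec hPu t.2.1, bsm_j_spec hPu' t'.2.1, g3, g3', hj', hu]
      exact Prod.ext e1 (Prod.ext e2 hu)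
    rw [← Finset.card_image_of_injOn hinj]
    have hsub : (((S.filter (fun t => f t = i)).image
        (fun t : G × G × G => (t.2.2, bsm_v t.2.2)) : Finset (G × G)) : Set (G × G)) ⊆
        Reg 1 0 0 a b ((i.2 : ℝ) / i.1.1.1) (((i.2 : ℝ) + L + 1) / i.1.1.1) Y := by
      intro x hx
      rw [Finset.mem_coe] at hx
      obtain ⟨t, ht, rfl⟩ := Finset.mem_image.1 hx
      obtain ⟨g1, g2, g3, g4, g5⟩ := hmem t ht
      obtain ⟨h1, h2, h3, h4, h5, h6, h7, h8, h9, -⟩ := hS t g1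
      obtain ⟨d1, d2, d3, d4, d5⟩ := bsm_data ha h1 _ g2 h6 h4 h8
      rw [← hLdef, g5] at d4
      rw [g5] at d5
      have hN : (0 : ℝ) < nn t.2.2 := by exact_mod_cast nn_pos.2 (prm_ne h1)
      refine ⟨(bsm_v_spec h1).1, by simp, by simp, h6, h7, ?_, ?_⟩
      · rw [div_mul_eq_mul_div, div_le_iff₀ hpp]
        exact d5
      · rw [div_mul_eq_mul_div, lt_div_iff₀ hpp]
        nlinarith
    have hle : (((S.filter (fun t => f t = i)).image
        (fun t : G × G × G => (t.2.2, bsm_v t.2.2))).card : ℝ) ≤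
        ((Reg 1 0 0 a b ((i.2 : ℝ) / i.1.1.1) (((i.2 : ℝ) + L + 1) / i.1.1.1) Y).ncard : ℝ) := by
      rw [← Set.ncard_coe_finset]
      exact_mod_cast Set.ncard_le_ncard hsub hfin
    refine hle.trans (hb.trans ?_)
    have hPp : (P : ℝ) < i.1.1.1 := by exact_mod_cast hpq.2.1
    gcongr
  calc (S.card : ℝ) = ∑ i ∈ I, ((S.filter (fun t => f t = i)).card : ℝ) := by
        rw [hcard]; push_cast; rfl
    _ ≤ ∑ i ∈ I, (C₁ / P * Y) := Finset.sum_le_sum hfib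
    _ = (I.card : ℝ) * (C₁ / P * Y) := by rw [Finset.sum_const, nsmul_eq_mul]
    _ ≤ (((QP η P).card : ℝ) ^ 2 * (2 * (δ * P)) * (2 + L)) * (C₁ / P * Y) := by gcongr
    _ = _ := by field_simp

open Classical in
theorem bsm_sum (A U : Finset G) (q : G → G → Prop) (r : G → G → G → Prop) :
    ∑ w ∈ A, ∑ w' ∈ A.filter (fun w' => q w w'), ((U.filter (fun u => r w w' u)).card : ℝ) =
    (((A ×ˢ (A ×ˢ U)).filter (fun t => q t.1 t.2.1 ∧ r t.1 t.2.1 t.2.2)).card : ℝ) := by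
  rw [Finset.card_filter, Finset.sum_product]
  push_cast
  apply Finset.sum_congr rfl
  intro w _
  rw [Finset.sum_product, Finset.sum_filter]
  apply Finset.sum_congr rfl
  intro w' _
  by_cases h : q w w'
  · simp [h]
  · simp [h]

theorem bsm_eq {u w w' : G} (hw : Prm w) (hw' : Prm w') (hd : det w w' = 0) (h : 0 < ip u w)
    (h' : 0 < ip u w') : w' = w := by
  obtain ⟨t, ht⟩ := bsm_det0 hw hd
  have e1 : ip u w' = t * ip u w := by
    rw [ht]; unfold ip; simp; ring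
  have ht0 : 0 < t := by
    by_contra hcon
    push Not at hcon
    have : t * ip u w ≤ 0 := mul_nonpos_of_nonpos_of_nonneg hcon h.le
    omega
  have hg : Int.gcd w'.re w'.im = 1 := hw'
  have hre : w'.re = t * w.re := by rw [ht]; simp
  have him : w'.im = t * w.im := by rw [ht]; simp
  have hgw : Int.gcd w.re w.im = 1 := hw
  rw [hre, him, Int.gcd_mul_left, hgw, mul_one] at hg
  have : t = 1 := by omega
  rw [ht, this]; simp

open Classical in
theorem small_det_pr (a b a' : ℝ) (ha : 0 < a) (hab : a < b) (hb : b ≤ 1) (ha' : 0 < a') :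
    ∃ C : ℝ, 1 ≤ C ∧ ∀ η δ : ℝ, 0 < η → η ≤ 1 → 0 < δ → δ ≤ 1 → ∀ P : ℕ, 1 ≤ P →
    ∃ Y₀ : ℝ, ∀ Y : ℝ, Y₀ ≤ Y → ∑ w ∈ Cel a' 1 Y, ∑ w' ∈ (Cel a' 1 Y).filter
      (fun w' => |(det w w' : ℝ)| ≤ δ * P), NN a b (QP η P) Y w w' ≤
        C * (δ * ((QP η P).card : ℝ) ^ 2 + (QP η P).card) * Y := by
  obtain ⟨C1, hC1, h1⟩ := bsm_s1 a ha
  obtain ⟨C2, hC2, h2⟩ := bsm_s2 a ha
  obtain ⟨C3, hC3, h3⟩ := bsm_s3 a b ha hab
  refine ⟨C1 + C2 + C3 + 1, by linarith, ?_⟩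
  intro η δ hη hη1 hδ hδ1 P hP
  obtain ⟨Y₀, hY₀⟩ := h3 η δ hη hη1 hδ hδ1 P hP
  refine ⟨max Y₀ 0, ?_⟩
  intro Y hY
  have hYY : Y₀ ≤ Y := le_trans (le_max_left _ _) hY
  have hY0 : 0 ≤ Y := le_trans (le_max_right _ _) hY
  have hsum := bsm_sum (Cel a' 1 Y) (Bl Y) (fun w w' => |(det w w' : ℝ)| ≤ δ * P)
    (fun w w' u => a * Y < (nn u : ℝ) ∧ (nn u : ℝ) ≤ b * Y ∧ 0 < ip u w ∧ 0 < ip u w' ∧
      (∃ p ∈ QP η P, det u w = (p : ℤ)) ∧ ∃ p ∈ QP η P, det u w' = (p : ℤ))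
  obtain ⟨S, hS⟩ : ∃ S : Finset (G × G × G), S = (Cel a' 1 Y ×ˢ (Cel a' 1 Y ×ˢ Bl Y)).filter
      (fun t => |(det t.1 t.2.1 : ℝ)| ≤ δ * P ∧ (a * Y < (nn t.2.2 : ℝ) ∧
        (nn t.2.2 : ℝ) ≤ b * Y ∧ 0 < ip t.2.2 t.1 ∧ 0 < ip t.2.2 t.2.1 ∧
        (∃ p ∈ QP η P, det t.2.2 t.1 = (p : ℤ)) ∧ ∃ p ∈ QP η P, det t.2.2 t.2.1 = (p : ℤ))) :=
    ⟨_, rfl⟩
  have hmem : ∀ t ∈ S, Prm t.1 ∧ (nn t.1 : ℝ) ≤ Y ∧ Prm t.2.1 ∧ (nn t.2.1 : ℝ) ≤ Y ∧
      t.2.2 ≠ 0 ∧ (nn t.2.2 : ℝ) ≤ Y ∧ |(det t.1 t.2.1 : ℝ)| ≤ δ * P ∧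
      a * Y < (nn t.2.2 : ℝ) ∧
      (nn t.2.2 : ℝ) ≤ b * Y ∧ 0 < ip t.2.2 t.1 ∧ 0 < ip t.2.2 t.2.1 ∧
        (∃ p ∈ QP η P, det t.2.2 t.1 = (p : ℤ)) ∧ ∃ p ∈ QP η P, det t.2.2 t.2.1 = (p : ℤ) := by
    intro t ht
    rw [hS, Finset.mem_filter, Finset.mem_product, Finset.mem_product] at ht
    obtain ⟨⟨g1, g2, g3⟩, g4⟩ := ht
    unfold Cel at g1 g2
    rw [Finset.mem_filter, mem_PB] at g1 g2
    rw [mem_Bl] at g3
    exact ⟨g1.1.1, g1.1.2, g2.1.1, g2.1.2, g3.1, g3.2, g4⟩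
  have hlhs : ∑ w ∈ Cel a' 1 Y, ∑ w' ∈ (Cel a' 1 Y).filter
      (fun w' => |(det w w' : ℝ)| ≤ δ * P), NN a b (QP η P) Y w w' = (S.card : ℝ) := by
    rw [hS]
    unfold NN
    convert hsum
  rw [hlhs]
  have hcov : S ⊆ (S.filter (fun t => Prm t.2.2 ∧ det t.1 t.2.1 = 0)) ∪
      (S.filter (fun t => ¬ Prm t.2.2)) ∪
      (S.filter (fun t => Prm t.2.2 ∧ det t.1 t.2.1 ≠ 0)) := by
    intro t ht
    simp only [Finset.mem_union, Finset.mem_filter]
    by_cases g1 : Prm t.2.2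
    · by_cases g2 : det t.1 t.2.1 = 0
      · exact Or.inl (Or.inl ⟨ht, g1, g2⟩)
      · exact Or.inr ⟨ht, g1, g2⟩
    · exact Or.inl (Or.inr ⟨ht, g1⟩)
  have hc := (Finset.card_le_card hcov).trans ((Finset.card_union_le _ _).trans
    (Nat.add_le_add_right (Finset.card_union_le _ _) _))
  have hcr : (S.card : ℝ) ≤ ((S.filter (fun t => Prm t.2.2 ∧ det t.1 t.2.1 = 0)).card : ℝ) +
      ((S.filter (fun t => ¬ Prm t.2.2)).card : ℝ) +
      ((S.filter (fun t => Prm t.2.2 ∧ det t.1 t.2.1 ≠ 0)).card : ℝ) := by exact_mod_cast hc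
  have b1 := h1 (QP η P) Y hY0 (S.filter (fun t => Prm t.2.2 ∧ det t.1 t.2.1 = 0)) (by
    intro t ht
    rw [Finset.mem_filter] at ht
    obtain ⟨g1, g2, g3, g4, g5, g6, g7, g8, g9, g10, g11, g12, g13⟩ := hmem t ht.1
    exact ⟨ht.2.1, bsm_eq g1 g3 ht.2.2 g10 g11, g2, g8, g6, g12⟩)
  have b2 := h2 (QP η P) Y hY0 (fun p hp => (bsm_mem_QP hp).1) (S.filter (fun t => ¬ Prm t.2.2)) (by
    intro t ht
    rw [Finset.mem_filter] at ht
    obtain ⟨g1, g2, g3, g4, g5, g6, g7, g8, g9, g10, g11, g12, g13⟩ := hmem t ht.1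
    exact ⟨ht.2, g5, g2, g4, g8, g6, g12, g13⟩)
  have b3 := hY₀ Y hYY hY0 (S.filter (fun t => Prm t.2.2 ∧ det t.1 t.2.1 ≠ 0)) (by
    intro t ht
    rw [Finset.mem_filter] at ht
    obtain ⟨g1, g2, g3, g4, g5, g6, g7, g8, g9, g10, g11, g12, g13⟩ := hmem t ht.1
    exact ⟨ht.2.1, ht.2.2, g7, g2, g4, g8, g9, g10, g11, g12, g13⟩)
  have q0 : (0 : ℝ) ≤ ((QP η P).card : ℝ) * Y := by positivity
  have q1 : (0 : ℝ) ≤ δ * ((QP η P).card : ℝ) ^ 2 * Y := by positivity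
  have e : (C1 + C2 + C3 + 1) * (δ * ((QP η P).card : ℝ) ^ 2 + (QP η P).card) * Y =
      (C1 + C2 + C3 + 1) * (δ * ((QP η P).card : ℝ) ^ 2 * Y) +
      (C1 + C2 + C3 + 1) * ((QP η P).card * Y) := by ring
  rw [e]
  linarith [mul_nonneg hC3 q0, mul_nonneg hC1 q1, mul_nonneg hC2 q1, q0, q1]

end Pool.Agent.T2


namespace Pool.Agent.T2

theorem small_det : type_of% @small_det_pr := @small_det_pr

end Pool.Agent.T2
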