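import Pool.Agent.Lib_helper10.T2.DefsB
import Pool.Agent.Lib_helper10.T2F.BBD
import Pool.Agent.Lib_helper10.T2F.BG1
import Pool.Agent.Lib_helper10.T2F.BG2
import Pool.Agent.Lib_helper10.T2F.BPR
import Pool.Agent.Lib_helper10.T2F.BR1
import Pool.Agent.Lib_helper10.T2F.BR2
import Pool.Agent.Lib_helper10.T2F.BSM

/-! T2, block BRD: the main reduction -/

namespace Pool.Agent.T2

open Filter Topology

theorem brd_cel {a' b' Y : ℝ} (hb' : b' ≤ 1) (hY : 0 ≤ Y) : Cel a' b' Y ⊆ Cel a' 1 Y := by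
  classical
  intro w hw
  unfold Cel at *
  rw [Finset.mem_filter] at *
  refine ⟨hw.1, hw.2.1, ?_⟩
  nlinarith [hw.2.2]

theorem brd_lam (n : ℕ) : |lam n| ≤ 1 := by
  unfold lam
  split_ifs
  · simp
  · rw [abs_pow]; simp

theorem brd_gl (z : G) : |gl z| ≤ 1 := brd_lam _

theorem brd_np (B : Finset ℕ) (D : ℤ) (w w' : G) : 0 ≤ NP B D w w' := by
  unfold NP; positivity

theorem brd_nn (a b : ℝ) (B : Finset ℕ) (Y : ℝ) (w w' : G) : 0 ≤ NN a b B Y w w' := by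
  unfold NN; positivity

theorem brd_mp (B : Finset ℕ) (R₀ : ℕ) (w w' : G) : 0 ≤ MP B R₀ w w' := by
  unfold MP
  exact mul_nonneg (by positivity) (brd_np _ _ _ _)

theorem brd_le {η : ℝ} (hη1 : η ≤ 1) {P p : ℕ} (hp : p ∈ QP η P) : p ≤ 2 * P := by
  classical
  unfold QP pr1 at hp
  rw [Finset.mem_filter] at hp
  have h := hp.2.2.2.2
  have : (p : ℝ) ≤ 2 * P := by
    have hP : (0 : ℝ) ≤ P := by positivity
    nlinarith
  exact_mod_cast this

theorem brd_nnY {a' Y : ℝ} {w : G} (hw : w ∈ Cel a' 1 Y) : (nn w : ℝ) ≤ Y := by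
  classical
  unfold Cel at hw
  rw [Finset.mem_filter] at hw
  linarith [hw.2.2]

theorem brd_sum5 (S : Finset G) (f₁ f₂ f₃ f₄ f₅ : G → G → ℝ) {c₁ c₂ c₃ c₄ c₅ : ℝ}
    (h₁ : ∑ w ∈ S, ∑ w' ∈ S, f₁ w w' ≤ c₁) (h₂ : ∑ w ∈ S, ∑ w' ∈ S, f₂ w w' ≤ c₂)
    (h₃ : ∑ w ∈ S, ∑ w' ∈ S, f₃ w w' ≤ c₃) (h₄ : ∑ w ∈ S, ∑ w' ∈ S, f₄ w w' ≤ c₄)
    (h₅ : ∑ w ∈ S, ∑ w' ∈ S, f₅ w w' ≤ c₅) :
    ∑ w ∈ S, ∑ w' ∈ S, (f₁ w w' + f₂ w w' + f₃ w w' + f₄ w w' + f₅ w w') ≤
      c₁ + c₂ + c₃ + c₄ + c₅ := by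
  simp only [Finset.sum_add_distrib]
  linarith

open Classical in
/-- the pointwise bound -/
theorem brd_point (a b a' η δ : ℝ) (ha : 0 < a) (hδ : 0 < δ) (hη1 : η ≤ 1) (P : ℕ) (hP : 1 ≤ P)
    (R₀ : ℕ) (Y : ℝ) (hY : 0 < Y) (w w' : G) (hw : w ∈ Cel a' 1 Y) (hw' : w' ∈ Cel a' 1 Y)
    (h1 : δ * P < |(det w w' : ℝ)| →
      (NN a b (QP η P) Y w w' ≠ 0 → Real.sqrt a - 2 * η / δ ≤ sr P Y w w' ∧
        sr P Y w w' ≤ Real.sqrt b + 2 * η / δ) ∧
      (Core a b δ (2 * η / δ) P Y w w' →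
        NN a b (QP η P) Y w w' = NP (QP η P) (det w w') w w')) :
    |NN a b (QP η P) Y w w' -
      (if Core a b δ (2 * η / δ) P Y w w' then MP (QP η P) R₀ w w' else 0)| ≤
    (if |(det w w' : ℝ)| ≤ δ * P then NN a b (QP η P) Y w w' else 0) +
    (if (Med a δ P w w' ∧ ∀ p ∈ QP η P, ¬ (p : ℤ) ∣ det w w') then
      |NP (QP η P) (det w w') w w' - MP (QP η P) R₀ w w'| else 0) +
    (if (Med a δ P w w' ∧ ∃ p ∈ QP η P, (p : ℤ) ∣ det w w') then
      (NP (QP η P) (det w w') w w' + MP (QP η P) R₀ w w') else 0) +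
    (if (Med a δ P w w' ∧ |sr P Y w w' - Real.sqrt a| ≤ 2 * η / δ) then
      MP (QP η P) R₀ w w' else 0) +
    (if (Med a δ P w w' ∧ |sr P Y w w' - Real.sqrt b| ≤ 2 * η / δ) then
      MP (QP η P) R₀ w w' else 0) := by
  set n := NN a b (QP η P) Y w w' with hn
  set np := NP (QP η P) (det w w') w w' with hnp
  set mp := MP (QP η P) R₀ w w' with hmp
  have n0 : 0 ≤ n := brd_nn _ _ _ _ _ _
  have np0 : 0 ≤ np := brd_np _ _ _ _
  have mp0 : 0 ≤ mp := brd_mp _ _ _ _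
  by_cases hD : |(det w w' : ℝ)| ≤ δ * P
  · have hM : ¬ Med a δ P w w' := by
      intro h; exact absurd h.1 (not_lt.mpr hD)
    have hC : ¬ Core a b δ (2 * η / δ) P Y w w' := by
      intro h; exact hM h.1
    simp only [hC, hD, hM, if_false, if_true, false_and, sub_zero, add_zero]
    rw [abs_of_nonneg n0]
  · have hD' : δ * P < |(det w w' : ℝ)| := not_le.mp hD
    have hPr : (1 : ℝ) ≤ P := by exact_mod_cast hP
    have hD0 : det w w' ≠ 0 := by
      intro h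
      rw [h] at hD'
      simp only [Int.cast_zero, abs_zero] at hD'
      nlinarith
    have hnle : n ≤ np := nn_le_np a b _ Y w w' hD0
    by_cases hM : Med a δ P w w'
    · by_cases hbad : ∃ p ∈ QP η P, (p : ℤ) ∣ det w w'
      · have hgood : ¬ ∀ p ∈ QP η P, ¬ (p : ℤ) ∣ det w w' := by
          push Not
          exact hbad
        simp only [hD, hM, hbad, hgood, if_false, and_false, true_and, if_true]
        have hc : 0 ≤ (if Core a b δ (2 * η / δ) P Y w w' then mp else 0) ∧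
            (if Core a b δ (2 * η / δ) P Y w w' then mp else 0) ≤ mp := by
          split_ifs
          · exact ⟨mp0, le_refl _⟩
          · exact ⟨le_refl _, mp0⟩
        have hs1 : 0 ≤ (if |sr P Y w w' - Real.sqrt a| ≤ 2 * η / δ then mp else 0) := by
          split_ifs <;> [exact mp0; exact le_refl _]
        have hs2 : 0 ≤ (if |sr P Y w w' - Real.sqrt b| ≤ 2 * η / δ then mp else 0) := by
          split_ifs <;> [exact mp0; exact le_refl _]
        have : |n - (if Core a b δ (2 * η / δ) P Y w w' then mp else 0)| ≤ np + mp := by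
          rw [abs_le]
          constructor
          · linarith [hc.2]
          · linarith [hc.1]
        linarith
      · have hgood : ∀ p ∈ QP η P, ¬ (p : ℤ) ∣ det w w' := by
          push Not at hbad
          exact hbad
        have hgood' : (Med a δ P w w' ∧ ∀ p ∈ QP η P, ¬ (p : ℤ) ∣ det w w') := ⟨hM, hgood⟩
        have hbad' : ¬ (Med a δ P w w' ∧ ∃ p ∈ QP η P, (p : ℤ) ∣ det w w') := by
          intro h; exact hbad h.2
        rw [if_neg hD, if_pos hgood', if_neg hbad']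
        have hs1 : 0 ≤ (if (Med a δ P w w' ∧ |sr P Y w w' - Real.sqrt a| ≤ 2 * η / δ) then
          mp else 0) := by
          split_ifs <;> [exact mp0; exact le_refl _]
        have hs2 : 0 ≤ (if (Med a δ P w w' ∧ |sr P Y w w' - Real.sqrt b| ≤ 2 * η / δ) then
          mp else 0) := by
          split_ifs <;> [exact mp0; exact le_refl _]
        by_cases hC : Core a b δ (2 * η / δ) P Y w w'
        · rw [if_pos hC]
          have he : n = np := (h1 hD').2 hC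
          rw [he]
          linarith
        · rw [if_neg hC, sub_zero, abs_of_nonneg n0]
          by_cases hn0 : n = 0
          · rw [hn0]
            have := abs_nonneg (np - mp)
            linarith
          · obtain ⟨ha1, hb1⟩ := (h1 hD').1 hn0
            have hor : sr P Y w w' < Real.sqrt a + 2 * η / δ ∨
                Real.sqrt b - 2 * η / δ < sr P Y w w' := by
              by_contra hcon
              push Not at hcon
              exact hC ⟨hM, hcon.1, hcon.2⟩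
            have hle : np ≤ |np - mp| + mp := by
              have := le_abs_self (np - mp)
              linarith
            rcases hor with h | h
            · have hst : (Med a δ P w w' ∧ |sr P Y w w' - Real.sqrt a| ≤ 2 * η / δ) := by
                refine ⟨hM, ?_⟩
                rw [abs_le]
                constructor <;> linarith
              rw [if_pos hst]
              rw [if_pos hst] at hs1
              linarith
            · have hst : (Med a δ P w w' ∧ |sr P Y w w' - Real.sqrt b| ≤ 2 * η / δ) := by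
                refine ⟨hM, ?_⟩
                rw [abs_le]
                constructor <;> linarith
              rw [if_pos hst]
              rw [if_pos hst] at hs2
              linarith
    · have hC : ¬ Core a b δ (2 * η / δ) P Y w w' := by
        intro h; exact hM h.1
      have hn0 : n = 0 := by
        by_contra hne
        have hip : 0 < ip w w' := nn_ip a b _ Y w w' hne
        have hfar : 4 / Real.sqrt a * P < |(det w w' : ℝ)| := by
          by_contra hcon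
          exact hM ⟨hD', not_lt.mp hcon, hip⟩
        exact hne (nn_far a b ha (QP η P) P (fun p hp => brd_le hη1 hp) Y hY w w'
          (brd_nnY hw) (brd_nnY hw') hfar)
      simp only [hC, hD, hM, if_false, false_and, add_zero, hn0]
      simp

theorem brd_asym (c C η K ε : ℝ) (hc : 0 < c) (hC : 1 ≤ C) (hη : 0 < η) (hη1 : η ≤ 1)
    (hε : 0 < ε) : ∃ P₁ : ℕ, 3 ≤ P₁ ∧ ∀ P : ℕ, P₁ ≤ P → K ≤ c * η * P / Real.log P ∧
      C * η * P / Real.log P ≤ ε * P := by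
  have h1 : Tendsto (fun P : ℕ => (P : ℝ) / Real.log P) atTop atTop := by
    have h : Tendsto (fun x : ℝ => x / Real.log x) atTop atTop := by
      have h2 : Tendsto (fun x : ℝ => Real.log x / x) atTop (𝓝[>] 0) := by
        rw [tendsto_nhdsWithin_iff]
        refine ⟨?_, ?_⟩
        · have := Real.isLittleO_log_id_atTop.tendsto_div_nhds_zero
          simpa using this
        · filter_upwards [eventually_gt_atTop (1 : ℝ)] with x hx
          exact div_pos (Real.log_pos hx) (by linarith)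
      have h3 := h2.inv_tendsto_nhdsGT_zero
      refine h3.congr ?_
      intro x
      simp
    exact h.comp tendsto_natCast_atTop_atTop
  have h2 : Tendsto (fun P : ℕ => Real.log (P : ℝ)) atTop atTop :=
    Real.tendsto_log_atTop.comp tendsto_natCast_atTop_atTop
  have e1 := h1.eventually_ge_atTop (K / (c * η))
  have e2 := h2.eventually_ge_atTop (C / ε)
  obtain ⟨P₁, hP₁⟩ := Filter.eventually_atTop.mp ((e1.and e2).and (eventually_ge_atTop 3))
  refine ⟨max P₁ 3, le_max_right _ _, fun P hP => ?_⟩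
  obtain ⟨⟨e1, e2⟩, e3⟩ := hP₁ P (le_trans (le_max_left _ _) hP)
  have hP3 : (3 : ℝ) ≤ P := by exact_mod_cast e3
  have hl : 0 < Real.log P := Real.log_pos (by linarith)
  constructor
  · rw [div_le_iff₀ (by positivity)] at e1
    calc K ≤ (P : ℝ) / Real.log P * (c * η) := e1
      _ = c * η * P / Real.log P := by ring
  · rw [div_le_iff₀ hε] at e2
    rw [div_le_iff₀ hl]
    have : C * η * P ≤ C * P := by
      have : C * η ≤ C := by nlinarith
      nlinarith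
    nlinarith

open Classical in
theorem main_reduction_pr (a b a' b' ε : ℝ) (ha : 0 < a) (hab : a < b) (hb : b ≤ 1) (ha' : 0 < a')
    (hab' : a' < b') (hb' : b' ≤ 1) (hε : 0 < ε) : ∃ δ η₀ : ℝ, 0 < δ ∧ δ ≤ 1 ∧ 0 < η₀ ∧ η₀ ≤ 1 ∧
    ∀ η : ℝ, 0 < η → η ≤ η₀ → ∃ R₀ P₀ : ℕ, 1 ≤ R₀ ∧ ∀ P : ℕ, P₀ ≤ P → ∃ Y₀ : ℝ, ∀ Y : ℝ, Y₀ ≤ Y →
    |∑ w ∈ Cel a' b' Y, ∑ w' ∈ Cel a' b' Y, gl w * gl w' * NN a b (QP η P) Y w w' -
      ∑ w ∈ Cel a' b' Y, ∑ w' ∈ (Cel a' b' Y).filter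
        (fun w' => Core a b δ (2 * η / δ) P Y w w'), gl w * gl w' * MP (QP η P) R₀ w w'| ≤
      ε * ((QP η P).card : ℝ) ^ 2 * Y := by
  obtain ⟨C₁, hC₁, h1⟩ := small_det a b a' ha hab hb ha'
  have ha1 : a ≤ 1 := by linarith
  set δ : ℝ := min 1 (ε / (8 * C₁)) with hδ
  have hδ0 : 0 < δ := lt_min one_pos (by positivity)
  have hδ1 : δ ≤ 1 := min_le_left _ _
  have hδε : C₁ * δ ≤ ε / 8 := by
    have : δ ≤ ε / (8 * C₁) := min_le_right _ _
    rw [le_div_iff₀ (by positivity)] at this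
    linarith
  obtain ⟨R₀, hR₀, h2⟩ := err_var a a' δ (ε / 8) ha ha1 ha' hδ0 hδ1 (by positivity)
  obtain ⟨C₃, hC₃, h3⟩ := bad_det a a' δ ha ha1 ha' hδ0 hδ1
  obtain ⟨C₂, hC₂, h4⟩ := mp_strip a a' δ ha ha1 ha' hδ0 hδ1
  obtain ⟨c, hc, h5⟩ := qp_lower
  obtain ⟨C, hC, h6⟩ := qp_upper
  set η₀ : ℝ := min 1 (ε * δ / (32 * C₂)) with hη₀
  have hη₀0 : 0 < η₀ := lt_min one_pos (by positivity)
  refine ⟨δ, η₀, hδ0, hδ1, hη₀0, min_le_left _ _, fun η hη hηle => ?_⟩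
  have hη1 : η ≤ 1 := le_trans hηle (min_le_left _ _)
  set τ : ℝ := 2 * η / δ with hτ
  have hτ0 : 0 < τ := by positivity
  have hτε : C₂ * τ ≤ ε / 16 := by
    have h : η ≤ ε * δ / (32 * C₂) := le_trans hηle (min_le_right _ _)
    rw [le_div_iff₀ (by positivity)] at h
    rw [hτ, ← mul_div_assoc, div_le_iff₀ hδ0]
    linarith
  obtain ⟨P2, h2⟩ := h2 η hη hη1
  obtain ⟨P3, h3⟩ := h3 R₀ η hη hη1
  obtain ⟨P4, h4a⟩ := h4 R₀ η τ (Real.sqrt a) hη hη1 hτ0
  obtain ⟨P4', h4b⟩ := h4 R₀ η τ (Real.sqrt b) hη hη1 hτ0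
  obtain ⟨P5, h5⟩ := h5 η hη hη1
  obtain ⟨P6, h6⟩ := h6 η hη hη1
  obtain ⟨P7, hP7, h7⟩ := brd_asym c C η (max (8 * C₁ / ε) (8 * C₃ / ε)) (ε / (8 * C₃)) hc hC
    hη hη1 (by positivity)
  refine ⟨R₀, max (max (max P2 P3) (max P4 P4')) (max (max P5 P6) P7), hR₀, fun P hP => ?_⟩
  simp only [max_le_iff] at hP
  obtain ⟨⟨⟨q2, q3⟩, ⟨q4, q4'⟩⟩, ⟨⟨q5, q6⟩, q7⟩⟩ := hP
  have hP1 : 1 ≤ P := by omega
  obtain ⟨Y1, h1⟩ := h1 η δ hη hη1 hδ0 hδ1 P hP1
  obtain ⟨Y2, h2⟩ := h2 P q2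
  obtain ⟨Y3, h3⟩ := h3 P q3
  obtain ⟨Y4, h4a⟩ := h4a P q4
  obtain ⟨Y4', h4b⟩ := h4b P q4'
  obtain ⟨Y5, h8⟩ := nn_core a b a' η δ ha hab hb ha' hη hη1 hδ0 P hP1
  have h5 := h5 P q5
  have h6 := h6 P q6
  obtain ⟨h7a, h7b⟩ := h7 P q7
  refine ⟨max (max (max Y1 Y2) (max Y3 Y4)) (max (max Y4' Y5) 1), fun Y hY => ?_⟩
  simp only [max_le_iff] at hY
  obtain ⟨⟨⟨y1, y2⟩, ⟨y3, y4⟩⟩, ⟨⟨y4', y5⟩, y6⟩⟩ := hY
  have hY0 : 0 < Y := by linarith
  have h1 := h1 Y y1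
  have h2 := h2 Y y2
  have h3 := h3 Y y3
  have h4a := h4a Y y4
  have h4b := h4b Y y4'
  have h8 := h8 Y y5
  set Q : ℝ := ((QP η P).card : ℝ) with hQ
  have hQ1 : 8 * C₁ / ε ≤ Q := le_trans (le_max_left _ _) (le_trans h7a h5)
  have hQ3 : 8 * C₃ / ε ≤ Q := le_trans (le_max_right _ _) (le_trans h7a h5)
  have hQP : Q ≤ ε / (8 * C₃) * P := le_trans h6 h7b
  have hQ0 : 0 ≤ Q := by positivity
  have hPr : (0 : ℝ) < P := by exact_mod_cast hP1
  -- the left-hand side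
  have hcomb : ∑ w ∈ Cel a' b' Y, ∑ w' ∈ Cel a' b' Y, gl w * gl w' * NN a b (QP η P) Y w w' -
      ∑ w ∈ Cel a' b' Y, ∑ w' ∈ (Cel a' b' Y).filter
        (fun w' => Core a b δ τ P Y w w'), gl w * gl w' * MP (QP η P) R₀ w w' =
      ∑ w ∈ Cel a' b' Y, ∑ w' ∈ Cel a' b' Y, gl w * gl w' * (NN a b (QP η P) Y w w' -
        (if Core a b δ τ P Y w w' then MP (QP η P) R₀ w w' else 0)) := by
    rw [← Finset.sum_sub_distrib]
    refine Finset.sum_congr rfl fun w _ => ?_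
    rw [Finset.sum_filter, ← Finset.sum_sub_distrib]
    refine Finset.sum_congr rfl fun w' _ => ?_
    split_ifs <;> ring
  rw [hcomb]
  set F : G → G → ℝ := fun w w' =>
    (if |(det w w' : ℝ)| ≤ δ * P then NN a b (QP η P) Y w w' else 0) +
    (if (Med a δ P w w' ∧ ∀ p ∈ QP η P, ¬ (p : ℤ) ∣ det w w') then
      |NP (QP η P) (det w w') w w' - MP (QP η P) R₀ w w'| else 0) +
    (if (Med a δ P w w' ∧ ∃ p ∈ QP η P, (p : ℤ) ∣ det w w') then
      (NP (QP η P) (det w w') w w' + MP (QP η P) R₀ w w') else 0) +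
    (if (Med a δ P w w' ∧ |sr P Y w w' - Real.sqrt a| ≤ τ) then
      MP (QP η P) R₀ w w' else 0) +
    (if (Med a δ P w w' ∧ |sr P Y w w' - Real.sqrt b| ≤ τ) then
      MP (QP η P) R₀ w w' else 0) with hF
  have hF0 : ∀ w w', 0 ≤ F w w' := by
    intro w w'
    simp only [hF]
    have e1 : 0 ≤ (if |(det w w' : ℝ)| ≤ δ * P then NN a b (QP η P) Y w w' else 0) := by
      split_ifs <;> [exact brd_nn _ _ _ _ _ _; exact le_refl _]
    have e2 : 0 ≤ (if (Med a δ P w w' ∧ ∀ p ∈ QP η P, ¬ (p : ℤ) ∣ det w w') then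
      |NP (QP η P) (det w w') w w' - MP (QP η P) R₀ w w'| else 0) := by
      split_ifs <;> [exact abs_nonneg _; exact le_refl _]
    have e3 : 0 ≤ (if (Med a δ P w w' ∧ ∃ p ∈ QP η P, (p : ℤ) ∣ det w w') then
      (NP (QP η P) (det w w') w w' + MP (QP η P) R₀ w w') else 0) := by
      split_ifs <;> [exact add_nonneg (brd_np _ _ _ _) (brd_mp _ _ _ _); exact le_refl _]
    have e4 : 0 ≤ (if (Med a δ P w w' ∧ |sr P Y w w' - Real.sqrt a| ≤ τ) then
      MP (QP η P) R₀ w w' else 0) := by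
      split_ifs <;> [exact brd_mp _ _ _ _; exact le_refl _]
    have e5 : 0 ≤ (if (Med a δ P w w' ∧ |sr P Y w w' - Real.sqrt b| ≤ τ) then
      MP (QP η P) R₀ w w' else 0) := by
      split_ifs <;> [exact brd_mp _ _ _ _; exact le_refl _]
    linarith
  have hsub : Cel a' b' Y ⊆ Cel a' 1 Y := brd_cel hb' hY0.le
  have hstep1 : |∑ w ∈ Cel a' b' Y, ∑ w' ∈ Cel a' b' Y, gl w * gl w' *
      (NN a b (QP η P) Y w w' - (if Core a b δ τ P Y w w' then MP (QP η P) R₀ w w' else 0))| ≤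
      ∑ w ∈ Cel a' 1 Y, ∑ w' ∈ Cel a' 1 Y, F w w' := by
    calc |∑ w ∈ Cel a' b' Y, ∑ w' ∈ Cel a' b' Y, gl w * gl w' *
      (NN a b (QP η P) Y w w' - (if Core a b δ τ P Y w w' then MP (QP η P) R₀ w w' else 0))|
        ≤ ∑ w ∈ Cel a' b' Y, |∑ w' ∈ Cel a' b' Y, gl w * gl w' *
      (NN a b (QP η P) Y w w' - (if Core a b δ τ P Y w w' then MP (QP η P) R₀ w w' else 0))| :=
          Finset.abs_sum_le_sum_abs _ _
      _ ≤ ∑ w ∈ Cel a' b' Y, ∑ w' ∈ Cel a' b' Y, |gl w * gl w' *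
      (NN a b (QP η P) Y w w' - (if Core a b δ τ P Y w w' then MP (QP η P) R₀ w w' else 0))| :=
          Finset.sum_le_sum fun w _ => Finset.abs_sum_le_sum_abs _ _
      _ ≤ ∑ w ∈ Cel a' b' Y, ∑ w' ∈ Cel a' b' Y, F w w' := by
          refine Finset.sum_le_sum fun w hw => Finset.sum_le_sum fun w' hw' => ?_
          rw [abs_mul, abs_mul]
          have g1 := brd_gl w
          have g2 := brd_gl w'
          have hp := brd_point a b a' η δ ha hδ0 hη1 P hP1 R₀ Y hY0 w w' (hsub hw) (hsub hw')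
            (h8 w (hsub hw) w' (hsub hw'))
          calc |gl w| * |gl w'| * |NN a b (QP η P) Y w w' -
              (if Core a b δ τ P Y w w' then MP (QP η P) R₀ w w' else 0)|
              ≤ 1 * 1 * |NN a b (QP η P) Y w w' -
              (if Core a b δ τ P Y w w' then MP (QP η P) R₀ w w' else 0)| := by
                gcongr
            _ = |NN a b (QP η P) Y w w' -
              (if Core a b δ τ P Y w w' then MP (QP η P) R₀ w w' else 0)| := by ring
            _ ≤ F w w' := hp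
      _ ≤ ∑ w ∈ Cel a' b' Y, ∑ w' ∈ Cel a' 1 Y, F w w' :=
          Finset.sum_le_sum fun w _ => Finset.sum_le_sum_of_subset_of_nonneg hsub
            fun w' _ _ => hF0 w w'
      _ ≤ ∑ w ∈ Cel a' 1 Y, ∑ w' ∈ Cel a' 1 Y, F w w' :=
          Finset.sum_le_sum_of_subset_of_nonneg hsub
            fun w _ _ => Finset.sum_nonneg fun w' _ => hF0 w w'
  have hstep2 : ∑ w ∈ Cel a' 1 Y, ∑ w' ∈ Cel a' 1 Y, F w w' ≤
      C₁ * (δ * Q ^ 2 + Q) * Y + ε / 8 * Q ^ 2 * Y + C₃ * (Q ^ 3 / P + Q) * Y +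
      C₂ * τ * Q ^ 2 * Y + C₂ * τ * Q ^ 2 * Y := by
    simp only [Finset.sum_filter] at h1 h2 h3 h4a h4b
    exact brd_sum5 (Cel a' 1 Y) _ _ _ _ _ h1 h2 h3 h4a h4b
  refine le_trans hstep1 (le_trans hstep2 ?_)
  have t1 : C₁ * (δ * Q ^ 2 + Q) ≤ ε / 4 * Q ^ 2 := by
    have e1 : C₁ * Q ≤ ε / 8 * Q ^ 2 := by
      rw [div_le_iff₀ hε] at hQ1
      have := mul_le_mul_of_nonneg_right hQ1 hQ0
      linarith
    have e2 : C₁ * δ * Q ^ 2 ≤ ε / 8 * Q ^ 2 :=
      mul_le_mul_of_nonneg_right hδε (sq_nonneg Q)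
    linarith
  have t3 : C₃ * (Q ^ 3 / P + Q) ≤ ε / 4 * Q ^ 2 := by
    have e1 : C₃ * Q ≤ ε / 8 * Q ^ 2 := by
      rw [div_le_iff₀ hε] at hQ3
      have := mul_le_mul_of_nonneg_right hQ3 hQ0
      linarith
    have e2 : C₃ * (Q ^ 3 / P) ≤ ε / 8 * Q ^ 2 := by
      have : Q / P ≤ ε / (8 * C₃) := by
        rw [div_le_iff₀ hPr]; exact hQP
      have e3 : C₃ * (Q / P) ≤ ε / 8 := by
        calc C₃ * (Q / P) ≤ C₃ * (ε / (8 * C₃)) := by gcongr
          _ = ε / 8 := by field_simp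
      calc C₃ * (Q ^ 3 / P) = C₃ * (Q / P) * Q ^ 2 := by ring
        _ ≤ ε / 8 * Q ^ 2 := by gcongr
    linarith
  have t4 : C₂ * τ * Q ^ 2 ≤ ε / 16 * Q ^ 2 := by gcongr
  have t : C₁ * (δ * Q ^ 2 + Q) + ε / 8 * Q ^ 2 + C₃ * (Q ^ 3 / P + Q) +
      C₂ * τ * Q ^ 2 + C₂ * τ * Q ^ 2 ≤ ε * Q ^ 2 := by
    have := mul_nonneg hε.le (sq_nonneg Q)
    linarith
  calc C₁ * (δ * Q ^ 2 + Q) * Y + ε / 8 * Q ^ 2 * Y + C₃ * (Q ^ 3 / P + Q) * Y +
      C₂ * τ * Q ^ 2 * Y + C₂ * τ * Q ^ 2 * Y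
      = (C₁ * (δ * Q ^ 2 + Q) + ε / 8 * Q ^ 2 + C₃ * (Q ^ 3 / P + Q) +
      C₂ * τ * Q ^ 2 + C₂ * τ * Q ^ 2) * Y := by ring
    _ ≤ ε * Q ^ 2 * Y := by gcongr

end Pool.Agent.T2


namespace Pool.Agent.T2

theorem main_reduction : type_of% @main_reduction_pr := @main_reduction_pr

end Pool.Agent.T2
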