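import Pool.Agent.Lib_helper10.T2.DefsB
import Pool.Agent.Lib_helper10.T2F.BAS
import Pool.Agent.Lib_helper10.T2F.BKP
import Pool.Agent.Lib_helper10.T2F.BMU
import Pool.Agent.Lib_helper10.T2F.BPL

/-!
# T2, block BTR: truncation
-/

namespace Pool.Agent.T2

open Filter Topology

theorem btr_dvd (D : ℤ) (x : G) : ((D : ℤ) : G) ∣ x ↔ (((D.natAbs : ℕ) : ℤ) : G) ∣ x := by
  rcases Int.natAbs_eq D with h | h
  · rw [← h]
  · conv_lhs => rw [h]
    rw [Int.cast_neg, neg_dvd]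

theorem btr_np (B : Finset ℕ) (D : ℤ) (w w' : G) : NP B D w w' = NP B ((D.natAbs : ℕ) : ℤ) w w' := by
  classical
  unfold NP
  congr 2
  ext t
  simp only [Finset.mem_filter]
  rw [btr_dvd]

open Classical in
/-- the number `κ` with `w' = κ w` modulo `det w w'` -/
noncomputable def btr_kap (w w' : G) : ℕ :=
  if h : Prm w ∧ det w w' ≠ 0 then (kappa_exists h.1 h.2).choose else 0

theorem btr_kap_spec {w w' : G} (hw : Prm w) (hD : det w w' ≠ 0) :
    btr_kap w w' < (det w w').natAbs ∧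
      ((det w w' : ℤ) : G) ∣ w' - (btr_kap w w' : G) * w := by
  have h : Prm w ∧ det w w' ≠ 0 := ⟨hw, hD⟩
  unfold btr_kap
  rw [dif_pos h]
  exact (kappa_exists h.1 h.2).choose_spec.1

theorem btr_kap_cop {w w' : G} (hw : Prm w) (hw' : Prm w') (hD : det w w' ≠ 0) :
    Nat.Coprime (btr_kap w w') (det w w').natAbs ∧
    ∀ (B : Finset ℕ) (d : ℕ), d ∣ (det w w').natAbs →
      NP B (d : ℤ) w w' = ND B d (btr_kap w w' : ℤ) := by
  have h1 := btr_kap_spec hw hD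
  have h2 : ((det w w' : ℤ) : G) ∣ w' - (((btr_kap w w' : ℕ) : ℤ) : G) * w := by
    rw [Int.cast_natCast]
    exact h1.2
  obtain ⟨hc, hN⟩ := kappa_rel hw hw' h2
  constructor
  · have h3 := Int.isCoprime_iff_gcd_eq_one.1 hc
    rw [Int.gcd_eq_natAbs, Int.natAbs_natCast] at h3
    exact h3
  · intro B d hd
    exact hN B d (Int.natCast_dvd.2 hd)

open Classical in
/-- sums over the pairs, by determinants and ratios -/
theorem btr_pairs (a' : ℝ) (ha' : 0 < a') : ∃ C : ℝ, 1 ≤ C ∧ ∀ N : ℕ, ∃ Y₀ : ℝ, 0 ≤ Y₀ ∧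
    ∀ Y : ℝ, Y₀ ≤ Y → ∀ (S : Finset (G × G)) (g : G × G → ℝ) (F : ℕ → ℕ → ℝ),
    (∀ D κ, 0 ≤ F D κ) →
    (∀ p ∈ S, p.1 ∈ Cel a' 1 Y ∧ p.2 ∈ Cel a' 1 Y ∧ det p.1 p.2 ≠ 0 ∧
      (det p.1 p.2).natAbs ≤ N ∧ 0 < ip p.1 p.2 ∧
      g p ≤ F (det p.1 p.2).natAbs (btr_kap p.1 p.2)) →
    ∑ p ∈ S, g p ≤ ∑ d ∈ Finset.Icc 1 N,
      ∑ κ ∈ (Finset.range d).filter (fun κ => Nat.Coprime κ d), 2 * C * Y / d * F d κ := by
  obtain ⟨C, hC1, hC⟩ := pair_le a' ha'
  refine ⟨C, hC1, fun N => ?_⟩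
  have hex : ∀ t : ℤ × ℕ, ∃ Y₀ : ℝ, t.1 ≠ 0 → ∀ Y : ℝ, Y₀ ≤ Y →
      (((Cel a' 1 Y ×ˢ Cel a' 1 Y).filter (fun p => det p.1 p.2 = t.1 ∧
        ((t.1 : ℤ) : G) ∣ p.2 - (((t.2 : ℕ) : ℤ) : G) * p.1 ∧ 0 < ip p.1 p.2)).card : ℝ) ≤
          C * Y / |(t.1 : ℝ)| := by
    intro t
    by_cases ht : t.1 = 0
    · exact ⟨0, fun h => absurd ht h⟩
    · obtain ⟨Y₀, hY₀⟩ := hC t.1 (t.2 : ℤ) ht
      exact ⟨Y₀, fun _ => hY₀⟩
  choose Yg hYg using hex
  obtain ⟨T0, hT0⟩ : ∃ T0 : Finset (ℤ × ℕ),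
    T0 = Finset.Icc (-(N : ℤ)) N ×ˢ Finset.range (N + 1) := ⟨_, rfl⟩
  obtain ⟨Y₀, hY₀, hY₀'⟩ : ∃ Y₀ : ℝ, 0 ≤ Y₀ ∧ ∀ t ∈ T0, Yg t ≤ Y₀ :=
    ⟨∑ t ∈ T0, |Yg t|, Finset.sum_nonneg fun _ _ => abs_nonneg _, fun t ht =>
      (le_abs_self _).trans (Finset.single_le_sum (f := fun t => |Yg t|)
        (fun _ _ => abs_nonneg _) ht)⟩
  refine ⟨Y₀, hY₀, fun Y hY S g F hF hS => ?_⟩
  have hY0 : 0 ≤ Y := hY₀.trans hY
  have hprm : ∀ p ∈ S, Prm p.1 ∧ Prm p.2 := by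
    intro p hp
    obtain ⟨h1, h2, -⟩ := hS p hp
    unfold Cel at h1 h2
    exact ⟨(mem_PB.1 (Finset.mem_filter.1 h1).1).1, (mem_PB.1 (Finset.mem_filter.1 h2).1).1⟩
  obtain ⟨T, hT⟩ : ∃ T : Finset (ℤ × ℕ), T = T0.filter (fun t => t.1 ≠ 0 ∧
    Nat.Coprime t.2 t.1.natAbs ∧ t.2 < t.1.natAbs ∧ t.1.natAbs ≤ N) := ⟨_, rfl⟩
  have hmaps : ∀ p ∈ S, (det p.1 p.2, btr_kap p.1 p.2) ∈ T := by
    intro p hp
    obtain ⟨h1, h2⟩ := hprm p hp
    obtain ⟨-, -, h7, h10, -, -⟩ := hS p hp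
    have h8 := btr_kap_spec h1 h7
    have h9 := (btr_kap_cop h1 h2 h7).1
    rw [hT, Finset.mem_filter, hT0, Finset.mem_product, Finset.mem_Icc, Finset.mem_range]
    refine ⟨⟨⟨?_, ?_⟩, ?_⟩, h7, h9, h8.1, h10⟩
    · show -(N : ℤ) ≤ det p.1 p.2
      omega
    · show det p.1 p.2 ≤ (N : ℤ)
      omega
    · show btr_kap p.1 p.2 < N + 1
      omega
  have step1 : ∑ p ∈ S, g p ≤ ∑ t ∈ T, C * Y / (t.1.natAbs : ℝ) * F t.1.natAbs t.2 := by
    rw [← Finset.sum_fiberwise_of_maps_to hmaps]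
    refine Finset.sum_le_sum fun t ht => ?_
    have ht' := ht
    rw [hT, Finset.mem_filter] at ht'
    obtain ⟨ht0, htn, -, -, -⟩ := ht'
    have hterm : ∀ p ∈ S.filter (fun p => (det p.1 p.2, btr_kap p.1 p.2) = t),
        g p ≤ F t.1.natAbs t.2 := by
      intro p hp
      obtain ⟨hp1, hp2⟩ := Finset.mem_filter.1 hp
      have := (hS p hp1).2.2.2.2.2
      rw [← hp2]
      exact this
    have hsub : S.filter (fun p => (det p.1 p.2, btr_kap p.1 p.2) = t) ⊆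
        (Cel a' 1 Y ×ˢ Cel a' 1 Y).filter (fun p => det p.1 p.2 = t.1 ∧
          ((t.1 : ℤ) : G) ∣ p.2 - (((t.2 : ℕ) : ℤ) : G) * p.1 ∧ 0 < ip p.1 p.2) := by
      intro p hp
      obtain ⟨hp1, hp2⟩ := Finset.mem_filter.1 hp
      obtain ⟨h1, -⟩ := hprm p hp1
      obtain ⟨h3, h4, h7, -, h5, -⟩ := hS p hp1
      have h8 := (btr_kap_spec h1 h7).2
      have e2 : det p.1 p.2 = t.1 := congrArg Prod.fst hp2
      have e3 : btr_kap p.1 p.2 = t.2 := congrArg Prod.snd hp2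
      rw [Finset.mem_filter, Finset.mem_product]
      refine ⟨⟨h3, h4⟩, e2, ?_, h5⟩
      rw [Int.cast_natCast, ← e2, ← e3]
      exact h8
    have hcard : ((S.filter (fun p => (det p.1 p.2, btr_kap p.1 p.2) = t)).card : ℝ) ≤
        C * Y / (t.1.natAbs : ℝ) := by
      refine ((Nat.cast_le.2 (Finset.card_le_card hsub)).trans
        (hYg t htn Y ((hY₀' t ht0).trans hY))).trans_eq ?_
      rw [Nat.cast_natAbs, Int.cast_abs]
    calc ∑ p ∈ S.filter (fun p => (det p.1 p.2, btr_kap p.1 p.2) = t), g p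
        ≤ ∑ _p ∈ S.filter (fun p => (det p.1 p.2, btr_kap p.1 p.2) = t), F t.1.natAbs t.2 :=
          Finset.sum_le_sum hterm
      _ ≤ C * Y / (t.1.natAbs : ℝ) * F t.1.natAbs t.2 := by
          rw [Finset.sum_const, nsmul_eq_mul]
          exact mul_le_mul_of_nonneg_right hcard (hF _ _)
  obtain ⟨U, hU⟩ : ∃ U : Finset (Σ _ : ℕ, ℕ), U = (Finset.Icc 1 N).sigma (fun D =>
    (Finset.range D).filter (fun κ => Nat.Coprime κ D)) := ⟨_, rfl⟩
  have hmaps2 : ∀ t ∈ T, (⟨t.1.natAbs, t.2⟩ : Σ _ : ℕ, ℕ) ∈ U := by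
    intro t ht
    rw [hT, Finset.mem_filter] at ht
    obtain ⟨-, ht1, ht3, ht4, ht5⟩ := ht
    rw [hU, Finset.mem_sigma, Finset.mem_Icc, Finset.mem_filter, Finset.mem_range]
    refine ⟨⟨?_, ht5⟩, ht4, ht3⟩
    show 1 ≤ t.1.natAbs
    omega
  have step2 : ∑ t ∈ T, C * Y / (t.1.natAbs : ℝ) * F t.1.natAbs t.2 ≤
      ∑ u ∈ U, 2 * C * Y / (u.1 : ℝ) * F u.1 u.2 := by
    rw [← Finset.sum_fiberwise_of_maps_to hmaps2]
    refine Finset.sum_le_sum fun u _ => ?_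
    have hterm : ∀ t ∈ T.filter (fun t => (⟨t.1.natAbs, t.2⟩ : Σ _ : ℕ, ℕ) = u),
        C * Y / (t.1.natAbs : ℝ) * F t.1.natAbs t.2 = C * Y / (u.1 : ℝ) * F u.1 u.2 := by
      intro t ht
      rw [← (Finset.mem_filter.1 ht).2]
    rw [Finset.sum_congr rfl hterm, Finset.sum_const, nsmul_eq_mul]
    have hsub : T.filter (fun t => (⟨t.1.natAbs, t.2⟩ : Σ _ : ℕ, ℕ) = u) ⊆
        {((u.1 : ℤ), u.2), (-(u.1 : ℤ), u.2)} := by
      intro t ht
      have h := (Finset.mem_filter.1 ht).2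
      rw [← h, Finset.mem_insert, Finset.mem_singleton]
      rcases Int.natAbs_eq t.1 with h1 | h1
      · left
        exact Prod.ext h1 rfl
      · right
        exact Prod.ext h1 rfl
    have h2 := (Finset.card_le_card hsub).trans (Finset.card_le_two)
    have h3 : ((T.filter (fun t => (⟨t.1.natAbs, t.2⟩ : Σ _ : ℕ, ℕ) = u)).card : ℝ) ≤ 2 := by
      exact_mod_cast h2
    have h4 : 0 ≤ C * Y / (u.1 : ℝ) * F u.1 u.2 := mul_nonneg (by positivity) (hF _ _)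
    calc ((T.filter (fun t => (⟨t.1.natAbs, t.2⟩ : Σ _ : ℕ, ℕ) = u)).card : ℝ) *
          (C * Y / (u.1 : ℝ) * F u.1 u.2) ≤ 2 * (C * Y / (u.1 : ℝ) * F u.1 u.2) :=
          mul_le_mul_of_nonneg_right h3 h4
      _ = 2 * C * Y / (u.1 : ℝ) * F u.1 u.2 := by ring
  refine step1.trans (step2.trans_eq ?_)
  rw [hU, Finset.sum_sigma]

/-! ## the totient function -/

theorem btr_totient_sq (n : ℕ) (hn : 0 < n) :
    n ≤ 2 * n.totient ^ 2 ∧ (¬ 2 ∣ n → n ≤ n.totient ^ 2) := by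
  induction n using Nat.recOnPosPrimePosCoprime with
  | prime_pow p k hp hk =>
    rw [Nat.totient_prime_pow hp hk]
    have hk1 : p ^ (k - 1) * p = p ^ k := by
      rw [← pow_succ]; congr 1; omega
    have hle : p ^ k ≤ p ^ (k - 1) * p ^ k := by
      exact Nat.le_mul_of_pos_left _ (pow_pos hp.pos _)
    have hodd : ¬ 2 ∣ p ^ k → p ^ k ≤ (p ^ (k - 1) * (p - 1)) ^ 2 := by
      intro h2
      have hp2 : p ≠ 2 := by
        rintro rfl
        exact h2 (dvd_pow_self 2 hk.ne')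
      have hp3 : 3 ≤ p := by
        have := hp.two_le
        omega
      obtain ⟨r, rfl⟩ : ∃ r, p = r + 3 := ⟨p - 3, by omega⟩
      have e : r + 3 - 1 = r + 2 := by omega
      rw [e]
      calc (r + 3) ^ k ≤ (r + 3) ^ (k - 1) * (r + 3) ^ k := hle
        _ = ((r + 3) ^ (k - 1)) ^ 2 * (r + 3) := by rw [← hk1]; ring
        _ ≤ ((r + 3) ^ (k - 1)) ^ 2 * (r + 2) ^ 2 := Nat.mul_le_mul_left _ (by nlinarith)
        _ = _ := by ring
    refine ⟨?_, hodd⟩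
    by_cases h2 : 2 ∣ p ^ k
    · have hp2 : p = 2 := ((Nat.prime_dvd_prime_iff_eq Nat.prime_two hp).1
        (Nat.prime_two.dvd_of_dvd_pow h2)).symm
      subst hp2
      have e : (2 : ℕ) - 1 = 1 := rfl
      rw [e, mul_one]
      calc 2 ^ k ≤ 2 ^ (k - 1) * 2 ^ k := hle
        _ = 2 * (2 ^ (k - 1)) ^ 2 := by rw [← hk1]; ring
    · exact (hodd h2).trans (Nat.le_mul_of_pos_left _ (by norm_num))
  | zero => omega
  | one => simp
  | coprime a b ha hb hab iha ihb =>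
    rw [Nat.totient_mul hab]
    obtain ⟨a1, a2⟩ := iha (by omega)
    obtain ⟨b1, b2⟩ := ihb (by omega)
    constructor
    · by_cases h2 : 2 ∣ a
      · have h3 : ¬ 2 ∣ b := by
          intro h3
          have := Nat.dvd_gcd h2 h3
          rw [hab] at this
          omega
        calc a * b ≤ (2 * a.totient ^ 2) * (b.totient ^ 2) := Nat.mul_le_mul a1 (b2 h3)
          _ = _ := by ring
      · calc a * b ≤ (a.totient ^ 2) * (2 * b.totient ^ 2) := Nat.mul_le_mul (a2 h2) b1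
          _ = _ := by ring
    · intro h2
      have h3 : ¬ 2 ∣ a := fun h => h2 (h.mul_right _)
      have h4 : ¬ 2 ∣ b := fun h => h2 (h.mul_left _)
      calc a * b ≤ (a.totient ^ 2) * (b.totient ^ 2) := Nat.mul_le_mul (a2 h3) (b2 h4)
        _ = _ := by ring

theorem btr_summable : Summable (fun r : ℕ => 1 / ((r : ℝ) * (Nat.totient r : ℝ))) := by
  have h1 : Summable (fun r : ℕ => Real.sqrt 2 * (1 / (r : ℝ) ^ (3 / 2 : ℝ))) :=
    (Real.summable_one_div_nat_rpow.2 (by norm_num)).mul_left _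
  refine Summable.of_nonneg_of_le (fun r => by positivity) (fun r => ?_) h1
  rcases Nat.eq_zero_or_pos r with h0 | h0
  · subst h0
    simp
  have h2 := (btr_totient_sq r h0).1
  have hr : (0 : ℝ) < r := by exact_mod_cast h0
  have ht : (0 : ℝ) < (Nat.totient r : ℝ) := by exact_mod_cast Nat.totient_pos.2 h0
  have h3 : (r : ℝ) ≤ 2 * (Nat.totient r : ℝ) ^ 2 := by exact_mod_cast h2
  have h4 : Real.sqrt r ≤ Real.sqrt 2 * (Nat.totient r : ℝ) := by
    rw [← Real.sqrt_sq ht.le, ← Real.sqrt_mul (by norm_num)]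
    exact Real.sqrt_le_sqrt h3
  have e1 : (r : ℝ) ^ (3 / 2 : ℝ) = r * Real.sqrt r := by
    rw [Real.sqrt_eq_rpow, show (3 / 2 : ℝ) = 1 + 1 / 2 by norm_num, Real.rpow_add hr,
      Real.rpow_one]
  rw [e1, ← mul_div_assoc, mul_one, div_le_div_iff₀ (by positivity) (by positivity), one_mul]
  calc (r : ℝ) * Real.sqrt r ≤ r * (Real.sqrt 2 * (Nat.totient r : ℝ)) :=
        mul_le_mul_of_nonneg_left h4 hr.le
    _ = Real.sqrt 2 * (r * (Nat.totient r : ℝ)) := by ring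

theorem btr_tail (e : ℝ) (he : 0 < e) (R₀ : ℕ) : ∃ R₁ : ℕ, R₀ ≤ R₁ ∧ ∀ N : ℕ,
    ∑ r ∈ (Finset.Icc 1 N).filter (fun r => R₁ < r),
      1 / ((r : ℝ) * (Nat.totient r : ℝ)) ≤ e := by
  have h1 := tendsto_sum_nat_add (fun r : ℕ => 1 / ((r : ℝ) * (Nat.totient r : ℝ)))
  have h2 := h1.eventually (gt_mem_nhds he)
  obtain ⟨K, hK⟩ := eventually_atTop.1 h2
  refine ⟨max K R₀, le_max_right _ _, fun N => ?_⟩
  have h3 := hK (max K R₀) (le_max_left _ _)
  refine le_trans ?_ h3.le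
  have hs : Summable (fun k : ℕ => 1 / (((k + max K R₀ : ℕ) : ℝ) *
      (Nat.totient (k + max K R₀) : ℝ))) :=
    (summable_nat_add_iff (max K R₀)).2 btr_summable
  have h4 : ∑ r ∈ (Finset.Icc 1 N).filter (fun r => max K R₀ < r),
      1 / ((r : ℝ) * (Nat.totient r : ℝ)) ≤
      ∑ k ∈ Finset.range (N + 1), 1 / (((k + max K R₀ : ℕ) : ℝ) *
      (Nat.totient (k + max K R₀) : ℝ)) := by
    have h5 : ∑ k ∈ Finset.range (N + 1), 1 / (((k + max K R₀ : ℕ) : ℝ) *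
      (Nat.totient (k + max K R₀) : ℝ)) =
      ∑ r ∈ (Finset.range (N + 1)).image (fun k => k + max K R₀),
        1 / ((r : ℝ) * (Nat.totient r : ℝ)) := by
      rw [Finset.sum_image]
      intro x _ y _ hxy
      exact Nat.add_right_cancel hxy
    rw [h5]
    refine Finset.sum_le_sum_of_subset_of_nonneg ?_ (fun _ _ _ => by positivity)
    intro r hr
    rw [Finset.mem_filter, Finset.mem_Icc] at hr
    rw [Finset.mem_image]
    refine ⟨r - max K R₀, ?_, ?_⟩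
    · rw [Finset.mem_range]
      omega
    · have := hr.2
      omega
  exact h4.trans (hs.sum_le_tsum _ (fun _ _ => by positivity))

theorem btr_rad (d : ℕ) (hd : 1 ≤ d) : (d : ℝ) / (Nat.totient d : ℝ) =
    ∑ r ∈ d.divisors.filter Squarefree, 1 / (Nat.totient r : ℝ) := by
  have hd0 : d ≠ 0 := by omega
  have hsq : Squarefree (UniqueFactorizationMonoid.radical d) :=
    UniqueFactorizationMonoid.squarefree_radical
  have e1 : d.divisors.filter Squarefree = (UniqueFactorizationMonoid.radical d).divisors := by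
    ext r
    rw [Finset.mem_filter, Nat.mem_divisors, Nat.mem_divisors]
    constructor
    · rintro ⟨⟨h1, -⟩, h2⟩
      exact ⟨(UniqueFactorizationMonoid.dvd_radical_iff h2.isRadical hd0).2 h1, hsq.ne_zero⟩
    · rintro ⟨h1, -⟩
      have h2 := hsq.squarefree_of_dvd h1
      exact ⟨⟨(UniqueFactorizationMonoid.dvd_radical_iff h2.isRadical hd0).1 h1, hd0⟩, h2⟩
  obtain ⟨f, hf⟩ : ∃ f : ArithmeticFunction ℝ, ∀ r, f r = 1 / (Nat.totient r : ℝ) :=
    ⟨⟨fun r => 1 / (Nat.totient r : ℝ), by simp⟩, fun _ => rfl⟩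
  have hfm : f.IsMultiplicative := by
    constructor
    · rw [hf]
      simp
    · intro m n hmn
      rw [hf, hf, hf, Nat.totient_mul hmn]
      push_cast
      rw [one_div_mul_one_div]
  have e2 := hfm.prodPrimeFactors_one_add_of_squarefree hsq
  rw [Nat.primeFactors_radical] at e2
  rw [e1, ← Finset.sum_congr rfl (fun r _ => hf r), ← e2]
  have e3 := Nat.totient_mul_prod_primeFactors d
  have e4 : (Nat.totient d : ℝ) * ∏ p ∈ d.primeFactors, (p : ℝ) =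
      d * ∏ p ∈ d.primeFactors, ((p - 1 : ℕ) : ℝ) := by
    have e6 := congrArg (Nat.cast : ℕ → ℝ) e3
    rwa [Nat.cast_mul, Nat.cast_mul, Nat.cast_prod, Nat.cast_prod] at e6
  have ht : (0 : ℝ) < (Nat.totient d : ℝ) := by exact_mod_cast Nat.totient_pos.2 hd
  have hprod : 0 < ∏ p ∈ d.primeFactors, ((p - 1 : ℕ) : ℝ) := by
    refine Finset.prod_pos fun p hp => ?_
    have := (Nat.prime_of_mem_primeFactors hp).two_le
    have h1 : 0 < p - 1 := by omega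
    exact_mod_cast h1
  have e5 : (d : ℝ) / (Nat.totient d : ℝ) =
      (∏ p ∈ d.primeFactors, (p : ℝ)) / ∏ p ∈ d.primeFactors, ((p - 1 : ℕ) : ℝ) := by
    rw [div_eq_div_iff ht.ne' hprod.ne', ← e4]
    ring
  rw [e5, ← Finset.prod_div_distrib]
  refine Finset.prod_congr rfl fun p hp => ?_
  have h2 := (Nat.prime_of_mem_primeFactors hp).two_le
  have h3 : ((p - 1 : ℕ) : ℝ) = (p : ℝ) - 1 := by
    rw [Nat.cast_sub (by omega), Nat.cast_one]
  have h4 : (0 : ℝ) < (p : ℝ) - 1 := by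
    have : (2 : ℝ) ≤ p := by exact_mod_cast h2
    linarith
  rw [hf, Nat.totient_prime (Nat.prime_of_mem_primeFactors hp), h3]
  field_simp
  ring

/-- the tail of the sum which gives `1/φ` -/
noncomputable def btr_T (R₁ d : ℕ) : ℝ :=
  ∑ r ∈ (Finset.Icc 1 d).filter (fun r => R₁ < r ∧ r ∣ d), 1 / (Nat.totient r : ℝ)

theorem btr_trn (R₁ d : ℕ) (hd : 1 ≤ d) :
    0 ≤ 1 / (Nat.totient d : ℝ) - trn R₁ d ∧
    1 / (Nat.totient d : ℝ) - trn R₁ d ≤ (1 / (d : ℝ)) * btr_T R₁ d := by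
  classical
  have hdr : (0 : ℝ) < d := by exact_mod_cast hd
  have ht : (0 : ℝ) < (Nat.totient d : ℝ) := by exact_mod_cast Nat.totient_pos.2 hd
  have e1 : 1 / (Nat.totient d : ℝ) = (1 / (d : ℝ)) *
      ∑ r ∈ d.divisors.filter Squarefree, 1 / (Nat.totient r : ℝ) := by
    rw [← btr_rad d hd]
    field_simp
  have e2 : ∑ r ∈ d.divisors.filter Squarefree, 1 / (Nat.totient r : ℝ) =
      ∑ r ∈ (d.divisors.filter Squarefree).filter (fun r => r ≤ R₁), 1 / (Nat.totient r : ℝ) +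
      ∑ r ∈ (d.divisors.filter Squarefree).filter (fun r => ¬ r ≤ R₁),
        1 / (Nat.totient r : ℝ) :=
    (Finset.sum_filter_add_sum_filter_not _ _ _).symm
  have e3 : (d.divisors.filter Squarefree).filter (fun r => r ≤ R₁) =
      (Finset.Icc 1 R₁).filter (fun r => Squarefree r ∧ r ∣ d) := by
    ext r
    rw [Finset.mem_filter, Finset.mem_filter, Nat.mem_divisors, Finset.mem_filter,
      Finset.mem_Icc]
    constructor
    · rintro ⟨⟨⟨h1, -⟩, h2⟩, h3⟩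
      exact ⟨⟨Nat.pos_of_dvd_of_pos h1 hd, h3⟩, h2, h1⟩
    · rintro ⟨⟨-, h1⟩, h2, h3⟩
      exact ⟨⟨⟨h3, by omega⟩, h2⟩, h1⟩
  have e4 : 1 / (Nat.totient d : ℝ) - trn R₁ d = (1 / (d : ℝ)) *
      ∑ r ∈ (d.divisors.filter Squarefree).filter (fun r => ¬ r ≤ R₁),
        1 / (Nat.totient r : ℝ) := by
    unfold trn
    rw [e1, e2, e3]
    ring_nf
  rw [e4]
  constructor
  · exact mul_nonneg (by positivity) (Finset.sum_nonneg fun _ _ => by positivity)
  · refine mul_le_mul_of_nonneg_left ?_ (by positivity)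
    unfold btr_T
    refine Finset.sum_le_sum_of_subset_of_nonneg ?_ (fun _ _ _ => by positivity)
    intro r hr
    rw [Finset.mem_filter, Finset.mem_filter, Nat.mem_divisors] at hr
    obtain ⟨⟨⟨h1, -⟩, h2⟩, h3⟩ := hr
    rw [Finset.mem_filter, Finset.mem_Icc]
    exact ⟨⟨Nat.pos_of_dvd_of_pos h1 hd, Nat.le_of_dvd hd h1⟩, by omega, h1⟩

/-- the average of the tails -/
theorem btr_avg (R₁ N : ℕ) (x : ℝ) (hx : 0 < x) :
    ∑ d ∈ (Finset.Icc 1 N).filter (fun d : ℕ => x < (d : ℝ)), (1 / (d : ℝ)) * btr_T R₁ d ≤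
      (N : ℝ) / x * ∑ r ∈ (Finset.Icc 1 N).filter (fun r => R₁ < r),
        1 / ((r : ℝ) * (Nat.totient r : ℝ)) := by
  classical
  have h1 : ∀ d ∈ (Finset.Icc 1 N).filter (fun d : ℕ => x < (d : ℝ)),
      (1 / (d : ℝ)) * btr_T R₁ d ≤ ∑ r ∈ (Finset.Icc 1 N).filter (fun r => R₁ < r),
        (if r ∣ d then (1 / x) * (1 / (Nat.totient r : ℝ)) else 0) := by
    intro d hd
    rw [Finset.mem_filter, Finset.mem_Icc] at hd
    obtain ⟨⟨hd1, hd2⟩, hd3⟩ := hd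
    have h2 : btr_T R₁ d ≤ ∑ r ∈ (Finset.Icc 1 N).filter (fun r => R₁ < r),
        (if r ∣ d then (1 / (Nat.totient r : ℝ)) else 0) := by
      rw [← Finset.sum_filter]
      unfold btr_T
      refine Finset.sum_le_sum_of_subset_of_nonneg ?_ (fun _ _ _ => by positivity)
      intro r hr
      rw [Finset.mem_filter, Finset.mem_Icc] at hr
      rw [Finset.mem_filter, Finset.mem_filter, Finset.mem_Icc]
      exact ⟨⟨⟨hr.1.1, hr.1.2.trans hd2⟩, hr.2.1⟩, hr.2.2⟩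
    have h3 : 0 ≤ btr_T R₁ d := Finset.sum_nonneg fun _ _ => by positivity
    calc (1 / (d : ℝ)) * btr_T R₁ d ≤ (1 / x) * btr_T R₁ d := by
          refine mul_le_mul_of_nonneg_right ?_ h3
          exact one_div_le_one_div_of_le hx hd3.le
      _ ≤ (1 / x) * ∑ r ∈ (Finset.Icc 1 N).filter (fun r => R₁ < r),
        (if r ∣ d then (1 / (Nat.totient r : ℝ)) else 0) :=
          mul_le_mul_of_nonneg_left h2 (by positivity)
      _ = _ := by
          rw [Finset.mul_sum]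
          refine Finset.sum_congr rfl fun r _ => ?_
          split_ifs <;> simp
  refine (Finset.sum_le_sum h1).trans ?_
  rw [Finset.sum_comm, Finset.mul_sum]
  refine Finset.sum_le_sum fun r hr => ?_
  rw [Finset.mem_filter, Finset.mem_Icc] at hr
  obtain ⟨⟨hr1, -⟩, -⟩ := hr
  have hr0 : (0 : ℝ) < r := by exact_mod_cast hr1
  have ht : (0 : ℝ) < (Nat.totient r : ℝ) := by exact_mod_cast Nat.totient_pos.2 hr1
  rw [← Finset.sum_filter, Finset.sum_const, nsmul_eq_mul]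
  have h4 : (((Finset.Icc 1 N).filter (fun d : ℕ => x < (d : ℝ))).filter
      (fun d => r ∣ d)).card ≤ N / r := by
    have h5 : ((Finset.Icc 1 N).filter (fun d : ℕ => x < (d : ℝ))).filter
        (fun d => r ∣ d) ⊆ (Finset.Icc 1 (N / r)).image (fun m => r * m) := by
      intro d hd
      rw [Finset.mem_filter, Finset.mem_filter, Finset.mem_Icc] at hd
      obtain ⟨⟨⟨hd1, hd2⟩, -⟩, m, rfl⟩ := hd
      rw [Finset.mem_image]
      refine ⟨m, ?_, rfl⟩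
      rw [Finset.mem_Icc]
      constructor
      · rcases Nat.eq_zero_or_pos m with h0 | h0
        · rw [h0, mul_zero] at hd1
          omega
        · exact h0
      · rw [Nat.le_div_iff_mul_le hr1, mul_comm]
        exact hd2
    refine (Finset.card_le_card h5).trans (Finset.card_image_le.trans ?_)
    rw [Nat.card_Icc, Nat.add_sub_cancel]
  have h6 : ((((Finset.Icc 1 N).filter (fun d : ℕ => x < (d : ℝ))).filter
      (fun d => r ∣ d)).card : ℝ) ≤ N / r :=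
    (Nat.cast_le.2 h4).trans Nat.cast_div_le
  calc ((((Finset.Icc 1 N).filter (fun d : ℕ => x < (d : ℝ))).filter
      (fun d => r ∣ d)).card : ℝ) * ((1 / x) * (1 / (Nat.totient r : ℝ)))
      ≤ N / r * ((1 / x) * (1 / (Nat.totient r : ℝ))) :=
        mul_le_mul_of_nonneg_right h6 (by positivity)
    _ = (N : ℝ) / x * (1 / ((r : ℝ) * (Nat.totient r : ℝ))) := by
        field_simp

open Classical in
theorem trunc_pr (a a' δ ε : ℝ) (R₀ : ℕ) (ha : 0 < a) (ha1 : a ≤ 1) (ha' : 0 < a') (hδ : 0 < δ)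
    (hδ1 : δ ≤ 1) (hε : 0 < ε) : ∃ R₁ : ℕ, R₀ ≤ R₁ ∧ ∀ η : ℝ, 0 < η → η ≤ 1 → ∃ P₀ : ℕ,
    ∀ P : ℕ, P₀ ≤ P → ∃ Y₀ : ℝ, ∀ Y : ℝ, Y₀ ≤ Y →
    ∑ w ∈ Cel a' 1 Y, ∑ w' ∈ (Cel a' 1 Y).filter (fun w' => Med a δ P w w'),
      |MP (QP η P) R₀ w w' - MT (QP η P) R₀ R₁ w w'| ≤
        ε * ((QP η P).card : ℝ) ^ 2 * Y := by
  obtain ⟨C, hC1, hC⟩ := btr_pairs a' ha'
  have hC0 : 0 < C := by linarith
  have hsa : 0 < Real.sqrt a := Real.sqrt_pos.2 ha
  obtain ⟨C₄, hC₄⟩ : ∃ C₄ : ℝ, C₄ = 4 / Real.sqrt a := ⟨_, rfl⟩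
  have hC₄0 : 0 < C₄ := by
    rw [hC₄]
    positivity
  obtain ⟨e, he_def⟩ : ∃ e : ℝ, e = ε * δ / (6 * C * C₄) := ⟨_, rfl⟩
  have he : 0 < e := by
    rw [he_def]
    positivity
  obtain ⟨R₁, hR₁, htail⟩ := btr_tail e he R₀
  refine ⟨R₁, hR₁, fun η hη hη1 => ?_⟩
  obtain ⟨P₀, hP₀⟩ := md_le R₀ η hη hη1
  refine ⟨max P₀ 1, fun P hP => ?_⟩
  have hP1 : 1 ≤ P := le_trans (le_max_right _ _) hP
  have hP1' : (1 : ℝ) ≤ P := by exact_mod_cast hP1
  have hmd := hP₀ P (le_trans (le_max_left _ _) hP)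
  obtain ⟨M, hM⟩ : ∃ M : ℕ, M = ⌊C₄ * P⌋₊ := ⟨_, rfl⟩
  have hMle : (M : ℝ) ≤ C₄ * P := by
    rw [hM]
    exact Nat.floor_le (by positivity)
  obtain ⟨Y₀, hY₀, hYY⟩ := hC M
  refine ⟨Y₀, fun Y hY => ?_⟩
  have hY0 : 0 ≤ Y := hY₀.trans hY
  obtain ⟨Q, hQ⟩ : ∃ Q : Finset ℕ, Q = QP η P := ⟨_, rfl⟩
  rw [← hQ] at hmd ⊢
  obtain ⟨S, hS⟩ : ∃ S : Finset (G × G), S = (Cel a' 1 Y ×ˢ Cel a' 1 Y).filter (fun p =>
    Med a δ P p.1 p.2) := ⟨_, rfl⟩
  have e1 : ∑ w ∈ Cel a' 1 Y, ∑ w' ∈ (Cel a' 1 Y).filter (fun w' => Med a δ P w w'),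
      |MP Q R₀ w w' - MT Q R₀ R₁ w w'| =
      ∑ p ∈ S, |MP Q R₀ p.1 p.2 - MT Q R₀ R₁ p.1 p.2| := by
    rw [hS, Finset.sum_filter, Finset.sum_product]
    refine Finset.sum_congr rfl fun w _ => ?_
    rw [Finset.sum_filter]
  rw [e1]
  obtain ⟨F, hF⟩ : ∃ F : ℕ → ℕ → ℝ, ∀ d κ, F d κ = if δ * P < (d : ℝ) then
    3 * (Q.card : ℝ) ^ 2 * ((1 / (d : ℝ)) * btr_T R₁ d) else 0 := ⟨_, fun _ _ => rfl⟩
  have hT0 : ∀ d, 0 ≤ btr_T R₁ d := fun d => Finset.sum_nonneg fun _ _ => by positivity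
  have hF0 : ∀ d κ, 0 ≤ F d κ := by
    intro d κ
    rw [hF]
    split_ifs
    · exact mul_nonneg (by positivity) (mul_nonneg (by positivity) (hT0 d))
    · exact le_rfl
  have hmain := hYY Y hY S (fun p => |MP Q R₀ p.1 p.2 - MT Q R₀ R₁ p.1 p.2|) F hF0 ?_
  · refine hmain.trans ?_
    have s1 : ∀ d ∈ Finset.Icc 1 M,
        ∑ κ ∈ (Finset.range d).filter (fun κ => Nat.Coprime κ d), 2 * C * Y / d * F d κ ≤
        (if δ * P < (d : ℝ) then 6 * C * Y * (Q.card : ℝ) ^ 2 *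
          ((1 / (d : ℝ)) * btr_T R₁ d) else 0) := by
      intro d hd
      rw [Finset.mem_Icc] at hd
      have hd0 : (0 : ℝ) < d := by exact_mod_cast hd.1
      have s2 : ∀ κ ∈ (Finset.range d).filter (fun κ => Nat.Coprime κ d),
          2 * C * Y / d * F d κ = 2 * C * Y / d * (if δ * P < (d : ℝ) then
            3 * (Q.card : ℝ) ^ 2 * ((1 / (d : ℝ)) * btr_T R₁ d) else 0) := by
        intro κ _
        rw [hF]
      rw [Finset.sum_congr rfl s2, Finset.sum_const, nsmul_eq_mul]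
      split_ifs with h
      · have s3 : (((Finset.range d).filter (fun κ => Nat.Coprime κ d)).card : ℝ) ≤ d := by
          have := Finset.card_filter_le (Finset.range d) (fun κ => Nat.Coprime κ d)
          rw [Finset.card_range] at this
          exact_mod_cast this
        have s4 : 0 ≤ (1 / (d : ℝ)) * btr_T R₁ d := mul_nonneg (by positivity) (hT0 d)
        have s5 : 0 ≤ 2 * C * Y / d * (3 * (Q.card : ℝ) ^ 2 * ((1 / (d : ℝ)) * btr_T R₁ d)) :=
          mul_nonneg (by positivity) (mul_nonneg (by positivity) s4)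
        calc (((Finset.range d).filter (fun κ => Nat.Coprime κ d)).card : ℝ) *
              (2 * C * Y / d * (3 * (Q.card : ℝ) ^ 2 * ((1 / (d : ℝ)) * btr_T R₁ d)))
            ≤ d * (2 * C * Y / d * (3 * (Q.card : ℝ) ^ 2 * ((1 / (d : ℝ)) * btr_T R₁ d))) :=
              mul_le_mul_of_nonneg_right s3 s5
          _ = 6 * C * Y * (Q.card : ℝ) ^ 2 * ((1 / (d : ℝ)) * btr_T R₁ d) := by
              field_simp
              ring
      · simp
    refine (Finset.sum_le_sum s1).trans ?_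
    rw [← Finset.sum_filter, ← Finset.mul_sum]
    have s6 := btr_avg R₁ M (δ * P) (by positivity)
    have s7 := htail M
    have s8 : (M : ℝ) / (δ * P) ≤ C₄ / δ := by
      rw [div_le_div_iff₀ (by positivity) hδ]
      calc (M : ℝ) * δ ≤ (C₄ * P) * δ := mul_le_mul_of_nonneg_right hMle hδ.le
        _ = C₄ * (δ * P) := by ring
    have s9 : (M : ℝ) / (δ * P) * ∑ r ∈ (Finset.Icc 1 M).filter (fun r => R₁ < r),
        1 / ((r : ℝ) * (Nat.totient r : ℝ)) ≤ C₄ / δ * e :=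
      mul_le_mul s8 s7 (Finset.sum_nonneg fun _ _ => by positivity) (by positivity)
    calc 6 * C * Y * (Q.card : ℝ) ^ 2 *
          ∑ d ∈ (Finset.Icc 1 M).filter (fun d : ℕ => δ * P < (d : ℝ)),
            ((1 / (d : ℝ)) * btr_T R₁ d) ≤ 6 * C * Y * (Q.card : ℝ) ^ 2 * (C₄ / δ * e) :=
          mul_le_mul_of_nonneg_left (s6.trans s9) (by positivity)
      _ = ε * (Q.card : ℝ) ^ 2 * Y := by
          rw [he_def]
          field_simp
  · intro p hp
    rw [hS, Finset.mem_filter, Finset.mem_product] at hp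
    obtain ⟨⟨h1, h2⟩, h3⟩ := hp
    have h1' := h1
    have h2' := h2
    unfold Cel at h1' h2'
    have hw := (mem_PB.1 (Finset.mem_filter.1 h1').1).1
    have hw' := (mem_PB.1 (Finset.mem_filter.1 h2').1).1
    have hD : det p.1 p.2 ≠ 0 := by
      intro h0
      have h4 := h3.1
      rw [h0, Int.cast_zero, abs_zero] at h4
      have : 0 < δ * P := by positivity
      linarith
    have h10 : (det p.1 p.2).natAbs ≤ M := by
      rw [hM, Nat.le_floor_iff (by positivity)]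
      have := h3.2.1
      rw [hC₄, Nat.cast_natAbs, Int.cast_abs]
      exact this
    refine ⟨h1, h2, hD, h10, h3.2.2, ?_⟩
    show |MP Q R₀ p.1 p.2 - MT Q R₀ R₁ p.1 p.2| ≤ F (det p.1 p.2).natAbs (btr_kap p.1 p.2)
    obtain ⟨d, hd⟩ : ∃ d : ℕ, d = (det p.1 p.2).natAbs := ⟨_, rfl⟩
    have hd1 : 1 ≤ d := by
      rw [hd]
      omega
    have hbig : δ * P < (d : ℝ) := by
      rw [hd, Nat.cast_natAbs, Int.cast_abs]
      exact h3.1
    rw [hF, ← hd, if_pos hbig]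
    obtain ⟨-, hN⟩ := btr_kap_cop hw hw' hD
    have hgd : Nat.gcd d R₀.factorial ∣ (det p.1 p.2).natAbs := by
      rw [← hd]
      exact Nat.gcd_dvd_left _ _
    have e2 := hN Q (Nat.gcd d R₀.factorial) hgd
    have ht : (0 : ℝ) < (Nat.totient d : ℝ) := by exact_mod_cast Nat.totient_pos.2 hd1
    have hm := hmd d (btr_kap p.1 p.2 : ℤ) hd1
    unfold MD at hm
    have hnn : 0 ≤ ND Q (Nat.gcd d R₀.factorial) (btr_kap p.1 p.2 : ℤ) := by
      unfold ND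
      positivity
    have hm2 : (Nat.totient (Nat.gcd d R₀.factorial) : ℝ) *
        ND Q (Nat.gcd d R₀.factorial) (btr_kap p.1 p.2 : ℤ) ≤ 3 * (Q.card : ℝ) ^ 2 := by
      rw [le_div_iff₀ ht] at hm
      refine le_trans (le_of_eq ?_) hm
      field_simp
    have hmn : 0 ≤ (Nat.totient (Nat.gcd d R₀.factorial) : ℝ) *
        ND Q (Nat.gcd d R₀.factorial) (btr_kap p.1 p.2 : ℤ) := mul_nonneg (by positivity) hnn
    obtain ⟨ht0, ht1⟩ := btr_trn R₁ d hd1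
    have e3 : MP Q R₀ p.1 p.2 - MT Q R₀ R₁ p.1 p.2 =
        ((Nat.totient (Nat.gcd d R₀.factorial) : ℝ) *
          ND Q (Nat.gcd d R₀.factorial) (btr_kap p.1 p.2 : ℤ)) *
          (1 / (Nat.totient d : ℝ) - trn R₁ d) := by
      unfold MP MT
      rw [← hd, e2]
      ring
    rw [e3, abs_of_nonneg (mul_nonneg hmn ht0)]
    exact mul_le_mul hm2 ht1 ht0 (by positivity)

end Pool.Agent.T2


namespace Pool.Agent.T2

theorem trunc : type_of% @trunc_pr := @trunc_pr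

end Pool.Agent.T2
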