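import Pool.Agent.Lib_helper10.T2.DefsB
import Pool.Agent.Lib_helper10.T2F.BAS
import Pool.Agent.Lib_helper10.T2F.BCM
import Pool.Agent.Lib_helper10.T2F.BCS
import Pool.Agent.Lib_helper10.T2F.BRD
import Pool.Agent.Lib_helper10.T2F.BTR

/-! T2, package B, block BFI: the bilinear_pr theorem (helper2) -/

namespace Pool.Agent.T2

open Filter Topology

theorem bfi_Cel_sub {a' b' Y : ℝ} (hb' : b' ≤ 1) (hY : 0 ≤ Y) : Cel a' b' Y ⊆ Cel a' 1 Y := by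
  intro w hw
  unfold Cel at hw ⊢
  rw [Finset.mem_filter] at hw ⊢
  exact ⟨hw.1, hw.2.1, hw.2.2.trans (mul_le_mul_of_nonneg_right hb' hY)⟩

theorem bfi_BQ_empty (a b a' b' Y : ℝ) : BQ a b a' b' ∅ Y = 0 := by
  unfold BQ
  simp

open Classical in
/-- the difference of the two main terms -/
theorem bfi_diff (a b a' b' δ τ : ℝ) (P : ℕ) (B : Finset ℕ) (R₀ R₁ : ℕ) (Y E : ℝ) (hb' : b' ≤ 1)
    (hY : 0 ≤ Y)
    (h : ∑ w ∈ Cel a' 1 Y, ∑ w' ∈ (Cel a' 1 Y).filter (fun w' => Med a δ P w w'),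
      |MP B R₀ w w' - MT B R₀ R₁ w w'| ≤ E) :
    ∑ w ∈ Cel a' b' Y, ∑ w' ∈ (Cel a' b' Y).filter (fun w' => Core a b δ τ P Y w w'),
        gl w * gl w' * MP B R₀ w w' ≤
      |∑ w ∈ Cel a' b' Y, ∑ w' ∈ (Cel a' b' Y).filter (fun w' => Core a b δ τ P Y w w'),
        gl w * gl w' * MT B R₀ R₁ w w'| + E := by
  have h1 : ∑ w ∈ Cel a' b' Y, ∑ w' ∈ (Cel a' b' Y).filter (fun w' => Core a b δ τ P Y w w'),
        gl w * gl w' * MP B R₀ w w' =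
      ∑ w ∈ Cel a' b' Y, ∑ w' ∈ (Cel a' b' Y).filter (fun w' => Core a b δ τ P Y w w'),
        gl w * gl w' * MT B R₀ R₁ w w' +
      ∑ w ∈ Cel a' b' Y, ∑ w' ∈ (Cel a' b' Y).filter (fun w' => Core a b δ τ P Y w w'),
        gl w * gl w' * (MP B R₀ w w' - MT B R₀ R₁ w w') := by
    rw [← Finset.sum_add_distrib]
    apply Finset.sum_congr rfl
    intro w _
    rw [← Finset.sum_add_distrib]
    apply Finset.sum_congr rfl
    intro w' _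
    ring
  have h2 : ∑ w ∈ Cel a' b' Y, ∑ w' ∈ (Cel a' b' Y).filter (fun w' => Core a b δ τ P Y w w'),
        gl w * gl w' * (MP B R₀ w w' - MT B R₀ R₁ w w') ≤
      ∑ w ∈ Cel a' b' Y, ∑ w' ∈ (Cel a' b' Y).filter (fun w' => Core a b δ τ P Y w w'),
        |MP B R₀ w w' - MT B R₀ R₁ w w'| := by
    apply Finset.sum_le_sum
    intro w _
    apply Finset.sum_le_sum
    intro w' _
    refine (le_abs_self _).trans ?_
    rw [abs_mul, abs_mul]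
    have g1 := gl_abs w
    have g2 := gl_abs w'
    have g3 : |gl w| * |gl w'| ≤ 1 := mul_le_one₀ g1 (abs_nonneg _) g2
    calc |gl w| * |gl w'| * |MP B R₀ w w' - MT B R₀ R₁ w w'|
        ≤ 1 * |MP B R₀ w w' - MT B R₀ R₁ w w'| :=
          mul_le_mul_of_nonneg_right g3 (abs_nonneg _)
      _ = _ := one_mul _
  have h3 : ∑ w ∈ Cel a' b' Y, ∑ w' ∈ (Cel a' b' Y).filter (fun w' => Core a b δ τ P Y w w'),
        |MP B R₀ w w' - MT B R₀ R₁ w w'| ≤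
      ∑ w ∈ Cel a' 1 Y, ∑ w' ∈ (Cel a' 1 Y).filter (fun w' => Med a δ P w w'),
        |MP B R₀ w w' - MT B R₀ R₁ w w'| := by
    have i1 : ∀ w ∈ Cel a' b' Y,
        ∑ w' ∈ (Cel a' b' Y).filter (fun w' => Core a b δ τ P Y w w'),
          |MP B R₀ w w' - MT B R₀ R₁ w w'| ≤
        ∑ w' ∈ (Cel a' 1 Y).filter (fun w' => Med a δ P w w'),
          |MP B R₀ w w' - MT B R₀ R₁ w w'| := by
      intro w _
      apply Finset.sum_le_sum_of_subset_of_nonneg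
      · intro w' hw'
        rw [Finset.mem_filter] at hw' ⊢
        exact ⟨bfi_Cel_sub hb' hY hw'.1, hw'.2.1⟩
      · intro _ _ _
        exact abs_nonneg _
    refine (Finset.sum_le_sum i1).trans ?_
    apply Finset.sum_le_sum_of_subset_of_nonneg (bfi_Cel_sub hb' hY)
    intro _ _ _
    exact Finset.sum_nonneg fun _ _ => abs_nonneg _
  have h4 := le_abs_self (∑ w ∈ Cel a' b' Y,
    ∑ w' ∈ (Cel a' b' Y).filter (fun w' => Core a b δ τ P Y w w'),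
        gl w * gl w' * MT B R₀ R₁ w w')
  linarith

theorem bfi_harm (X : ℝ) (hX : 1 ≤ X) :
    ∑ Y ∈ Finset.Icc 1 ⌊X⌋₊, 1 / (Y : ℝ) ≤ 1 + Real.log X := by
  have h := harmonic_le_one_add_log ⌊X⌋₊
  rw [harmonic_eq_sum_Icc] at h
  push_cast at h
  have h1 : Real.log (⌊X⌋₊ : ℝ) ≤ Real.log X := by
    have hf : 1 ≤ ⌊X⌋₊ := by
      rw [Nat.one_le_floor_iff]
      exact hX
    apply Real.log_le_log
    · exact_mod_cast hf
    · exact Nat.floor_le (by linarith)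
  have e : ∑ Y ∈ Finset.Icc 1 ⌊X⌋₊, 1 / (Y : ℝ) = ∑ x ∈ Finset.Icc 1 ⌊X⌋₊, ((x : ℝ))⁻¹ := by
    apply Finset.sum_congr rfl
    intro i _
    rw [one_div]
  rw [e]
  linarith

/-- the elementary part: Cauchy-Schwarz over `Y` -/
theorem bfi_final (C e q : ℝ) (hC : 1 ≤ C) (he : 0 < e) (hq : 0 < q) (F M : ℕ → ℝ) (Y₁ : ℕ)
    (hF : ∀ Y : ℕ, 1 ≤ Y → Y₁ ≤ Y → F Y ^ 2 ≤ C * Y * (|M Y| + 2 * (e * q ^ 2 * Y)))
    (hM : ∃ X₀ : ℝ, ∀ X : ℝ, X₀ ≤ X → ∑ Y ∈ Finset.Icc 1 ⌊X⌋₊, |M Y| / (Y : ℝ) ^ 2 ≤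
      e * q ^ 2 * Real.log X) :
    ∃ X₀ : ℝ, ∀ X : ℝ, X₀ ≤ X → (∑ Y ∈ Finset.Icc 1 ⌊X⌋₊, |F Y| / (Y : ℝ) ^ 2) ^ 2 ≤
      12 * C * e * q ^ 2 * Real.log X ^ 2 := by
  obtain ⟨X₀, hX₀⟩ := hM
  set K : ℝ := ∑ Y ∈ Finset.Icc 1 Y₁, F Y ^ 2 / (Y : ℝ) ^ 3 with hK
  have hK0 : 0 ≤ K := Finset.sum_nonneg fun _ _ => by positivity
  refine ⟨max X₀ (max (Real.exp 1) (Real.exp (K / (C * e * q ^ 2)))), fun X hX => ?_⟩
  have hXX0 : X₀ ≤ X := (le_max_left _ _).trans hX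
  have hXe : Real.exp 1 ≤ X := ((le_max_left _ _).trans (le_max_right _ _)).trans hX
  have hXK : Real.exp (K / (C * e * q ^ 2)) ≤ X :=
    ((le_max_right _ _).trans (le_max_right _ _)).trans hX
  have hX1 : 1 ≤ X := by
    have : (1 : ℝ) ≤ Real.exp 1 := by
      exact Real.one_le_exp zero_le_one
    linarith
  have hX0 : 0 < X := by linarith
  have hlog1 : 1 ≤ Real.log X := by
    rw [Real.le_log_iff_exp_le hX0]; exact hXe
  have hlogK : K / (C * e * q ^ 2) ≤ Real.log X := by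
    rw [Real.le_log_iff_exp_le hX0]; exact hXK
  have hCe : 0 < C * e * q ^ 2 := by positivity
  have hKle : K ≤ C * e * q ^ 2 * Real.log X := by
    rw [div_le_iff₀ hCe] at hlogK
    linarith
  set S := Finset.Icc 1 ⌊X⌋₊ with hS
  have hcs : (∑ Y ∈ S, |F Y| / (Y : ℝ) ^ 2) ^ 2 ≤
      (∑ Y ∈ S, 1 / (Y : ℝ)) * ∑ Y ∈ S, F Y ^ 2 / (Y : ℝ) ^ 3 := by
    apply Finset.sum_sq_le_sum_mul_sum_of_sq_le_mul
    · intro i _; positivity
    · intro i _; positivity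
    · intro i hi
      rw [hS, Finset.mem_Icc] at hi
      have hi0 : (0 : ℝ) < (i : ℝ) := by exact_mod_cast hi.1
      rw [div_pow, sq_abs]
      apply le_of_eq
      field_simp
  have hharm : ∑ Y ∈ S, 1 / (Y : ℝ) ≤ 2 * Real.log X := by
    have := bfi_harm X hX1
    rw [hS]
    linarith
  have hharm0 : 0 ≤ ∑ Y ∈ S, 1 / (Y : ℝ) := Finset.sum_nonneg fun _ _ => by positivity
  have hpt : ∀ Y ∈ S, F Y ^ 2 / (Y : ℝ) ^ 3 ≤ C * (|M Y| / (Y : ℝ) ^ 2) +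
      2 * C * e * q ^ 2 * (1 / (Y : ℝ)) + (if Y ≤ Y₁ then F Y ^ 2 / (Y : ℝ) ^ 3 else 0) := by
    intro Y hY
    rw [hS, Finset.mem_Icc] at hY
    have hY0 : (0 : ℝ) < (Y : ℝ) := by exact_mod_cast hY.1
    have hn1 : 0 ≤ C * (|M Y| / (Y : ℝ) ^ 2) := by positivity
    have hn2 : 0 ≤ 2 * C * e * q ^ 2 * (1 / (Y : ℝ)) := by positivity
    by_cases hc : Y ≤ Y₁
    · rw [if_pos hc]
      linarith
    · rw [if_neg hc]
      have := hF Y hY.1 (by omega)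
      rw [div_le_iff₀ (by positivity)]
      refine this.trans (le_of_eq ?_)
      field_simp
      ring
  have hsum := Finset.sum_le_sum hpt
  rw [Finset.sum_add_distrib, Finset.sum_add_distrib, ← Finset.mul_sum, ← Finset.mul_sum] at hsum
  have hKs : ∑ Y ∈ S, (if Y ≤ Y₁ then F Y ^ 2 / (Y : ℝ) ^ 3 else 0) ≤ K := by
    rw [← Finset.sum_filter]
    rw [hK]
    apply Finset.sum_le_sum_of_subset_of_nonneg
    · intro Y hY
      rw [Finset.mem_filter, hS, Finset.mem_Icc] at hY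
      rw [Finset.mem_Icc]
      exact ⟨hY.1.1, hY.2⟩
    · intro _ _ _
      positivity
  have hMs := hX₀ X hXX0
  rw [← hS] at hMs
  have hMs' : C * ∑ Y ∈ S, |M Y| / (Y : ℝ) ^ 2 ≤ C * (e * q ^ 2 * Real.log X) :=
    mul_le_mul_of_nonneg_left hMs (by linarith)
  have hh' : 2 * C * e * q ^ 2 * ∑ Y ∈ S, 1 / (Y : ℝ) ≤ 2 * C * e * q ^ 2 * (2 * Real.log X) :=
    mul_le_mul_of_nonneg_left hharm (by positivity)
  have htot : ∑ Y ∈ S, F Y ^ 2 / (Y : ℝ) ^ 3 ≤ 6 * C * e * q ^ 2 * Real.log X := by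
    nlinarith
  have htot0 : 0 ≤ ∑ Y ∈ S, F Y ^ 2 / (Y : ℝ) ^ 3 := Finset.sum_nonneg fun _ _ => by positivity
  calc (∑ Y ∈ S, |F Y| / (Y : ℝ) ^ 2) ^ 2 ≤ _ := hcs
    _ ≤ (2 * Real.log X) * (6 * C * e * q ^ 2 * Real.log X) :=
        mul_le_mul hharm htot htot0 (by positivity)
    _ = 12 * C * e * q ^ 2 * Real.log X ^ 2 := by ring

theorem bilinear_pr (a b a' b' ε : ℝ) (ha : 0 < a) (hab : a < b) (hb : b ≤ 1) (ha' : 0 < a')
    (hab' : a' < b') (hb' : b' ≤ 1) (hε : 0 < ε) : ∃ η₀ : ℝ, 0 < η₀ ∧ ∀ η : ℝ, 0 < η → η ≤ η₀ →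
    ∃ P₀ : ℕ, ∀ P : ℕ, P₀ ≤ P → ∃ X₀ : ℝ, ∀ X : ℝ, X₀ ≤ X →
    ∑ Y ∈ Finset.Icc 1 ⌊X⌋₊, |BQ a b a' b' (QP η P) Y| / (Y : ℝ) ^ 2 ≤
      ε * ((QP η P).card : ℝ) * Real.log X := by
  classical
  obtain ⟨C, hC, hcs⟩ := cs_bound
  set e : ℝ := ε ^ 2 / (12 * C) with he
  have hC0 : 0 < C := by linarith
  have he0 : 0 < e := by positivity
  obtain ⟨δ, η₀, hδ, hδ1, hη₀, hη₁, hmain⟩ :=
    main_reduction a b a' b' e ha hab hb ha' hab' hb' he0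
  refine ⟨η₀, hη₀, fun η hη hηle => ?_⟩
  have hη1 : η ≤ 1 := hηle.trans hη₁
  obtain ⟨R₀, P₁, hR₀, hP₁⟩ := hmain η hη hηle
  have ha1 : a ≤ 1 := (hab.le).trans hb
  obtain ⟨R₁, hR₁, htr⟩ := trunc a a' δ e R₀ ha ha1 ha' hδ hδ1 he0
  obtain ⟨P₂, hP₂⟩ := htr η hη hη1
  obtain ⟨P₃, hP₃⟩ := core_small a b a' b' δ (2 * η / δ) e R₀ R₁ ha hab hb ha' hab' hb' hδ hδ1
    hR₁ he0
  refine ⟨max P₁ (max P₂ P₃), fun P hP => ?_⟩
  have hPP1 : P₁ ≤ P := (le_max_left _ _).trans hP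
  have hPP2 : P₂ ≤ P := ((le_max_left _ _).trans (le_max_right _ _)).trans hP
  have hPP3 : P₃ ≤ P := ((le_max_right _ _).trans (le_max_right _ _)).trans hP
  by_cases hQ : QP η P = ∅
  · refine ⟨1, fun X _ => ?_⟩
    rw [hQ]
    simp only [bfi_BQ_empty]
    simp
  have hq : (0 : ℝ) < ((QP η P).card : ℝ) := by
    exact_mod_cast Finset.card_pos.2 (Finset.nonempty_iff_ne_empty.2 hQ)
  obtain ⟨Y₁, hY₁⟩ := hP₁ P hPP1
  obtain ⟨Y₂, hY₂⟩ := hP₂ P hPP2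
  obtain ⟨n, hn⟩ := exists_nat_ge (max Y₁ Y₂)
  have hX := hP₃ P hPP3 (QP η P)
  set M : ℕ → ℝ := fun Y => ∑ w ∈ Cel a' b' Y, ∑ w' ∈ (Cel a' b' Y).filter
      (fun w' => Core a b δ (2 * η / δ) P Y w w'), gl w * gl w' * MT (QP η P) R₀ R₁ w w' with hM
  obtain ⟨X₀, hX₀⟩ := bfi_final C e ((QP η P).card : ℝ) hC he0 hq
    (fun Y => BQ a b a' b' (QP η P) Y) M n (by
      intro Y hY1 hYn
      have hYr : (1 : ℝ) ≤ (Y : ℝ) := by exact_mod_cast hY1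
      have hYn' : (n : ℝ) ≤ (Y : ℝ) := by exact_mod_cast hYn
      have hYY1 : Y₁ ≤ (Y : ℝ) := ((le_max_left _ _).trans hn).trans hYn'
      have hYY2 : Y₂ ≤ (Y : ℝ) := ((le_max_right _ _).trans hn).trans hYn'
      have h1 := hcs a b a' b' (QP η P) (Y : ℝ) hYr
      have h2 := hY₁ (Y : ℝ) hYY1
      have h3 := hY₂ (Y : ℝ) hYY2
      have h4 := bfi_diff a b a' b' δ (2 * η / δ) P (QP η P) R₀ R₁ (Y : ℝ)
        (e * ((QP η P).card : ℝ) ^ 2 * Y) hb' (by linarith) h3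
      have h5 := (abs_le.1 h2).2
      refine h1.trans ?_
      apply mul_le_mul_of_nonneg_left _ (by positivity)
      rw [hM]
      simp only
      linarith) hX
  refine ⟨max X₀ 1, fun X hXX => ?_⟩
  have hXX0 : X₀ ≤ X := (le_max_left _ _).trans hXX
  have hXX1 : 1 ≤ X := (le_max_right _ _).trans hXX
  have hlog : 0 ≤ Real.log X := Real.log_nonneg hXX1
  have hfin := hX₀ X hXX0
  have hrhs : 0 ≤ ε * ((QP η P).card : ℝ) * Real.log X := by positivity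
  apply le_of_sq_le_sq _ hrhs
  refine hfin.trans (le_of_eq ?_)
  rw [he]
  field_simp

end Pool.Agent.T2


namespace Pool.Agent.T2

theorem bilinear : type_of% @bilinear_pr := @bilinear_pr

end Pool.Agent.T2
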