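import Pool.Agent.Lib_helper10.T2.DefsZ
import Pool.Agent.Lib_helper10.T2F.BAS
import Pool.Agent.Lib_helper10.T2F.BKP
import Pool.Agent.Lib_helper10.T2F.CNT
import Pool.Agent.Lib_helper10.T2F.EPK

/-! T2, block ZWC (helper34): pairs in a window -/

namespace Pool.Agent.T2

section

open Filter Topology

theorem win_count_pr : ∃ C : ℝ, 1 ≤ C ∧ ∀ (D : ℤ) (ξ₁ ξ₂ : ℝ), D ≠ 0 → ξ₁ < ξ₂ → ∃ Y₀ : ℝ,
    ∀ Y : ℝ, Y₀ ≤ Y → (({p : G × G | Prm p.1 ∧ det p.1 p.2 = D ∧ (nn p.1 : ℝ) ≤ Y ∧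
      ξ₁ * (nn p.1 : ℝ) ≤ (ip p.1 p.2 : ℝ) ∧ (ip p.1 p.2 : ℝ) < ξ₂ * (nn p.1 : ℝ)}.ncard : ℝ) ≤
        C * (ξ₂ - ξ₁) * Y) := by
  classical
  obtain ⟨c, hc, h⟩ := equi_det
  refine ⟨2 * c + 1, by linarith, ?_⟩
  intro D ξ₁ ξ₂ hD hξ
  have hD0 : (0 : ℝ) < |(D : ℝ)| := abs_pos.2 (by exact_mod_cast hD)
  have hξ0 : 0 < ξ₂ - ξ₁ := by linarith
  have hev : ∀ κ : ℕ, ∀ᶠ Y : ℝ in atTop, ((RegK D (κ : ℤ) 0 1 ξ₁ ξ₂ Y).ncard : ℝ) ≤
      2 * c * (ξ₂ - ξ₁) / |(D : ℝ)| * Y := by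
    intro κ
    have h1 := h D (κ : ℤ) hD 0 1 ξ₁ ξ₂ le_rfl zero_le_one hξ.le
    have h2 : c * (1 - 0) * (ξ₂ - ξ₁) / |(D : ℝ)| < 2 * c * (ξ₂ - ξ₁) / |(D : ℝ)| := by
      apply div_lt_div_of_pos_right _ hD0
      nlinarith
    filter_upwards [h1.eventually (gt_mem_nhds h2), eventually_gt_atTop (0 : ℝ)] with Y hY hY0
    rw [div_lt_iff₀ hY0] at hY
    exact hY.le
  have hall : ∀ᶠ Y : ℝ in atTop, ∀ κ ∈ Finset.range D.natAbs,
      ((RegK D (κ : ℤ) 0 1 ξ₁ ξ₂ Y).ncard : ℝ) ≤ 2 * c * (ξ₂ - ξ₁) / |(D : ℝ)| * Y := by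
    rw [Finset.eventually_all]
    intro κ _
    exact hev κ
  obtain ⟨Y₀, hY₀⟩ := eventually_atTop.1 (hall.and (eventually_ge_atTop (0 : ℝ)))
  refine ⟨Y₀, ?_⟩
  intro Y hY
  obtain ⟨hY1, hY2⟩ := hY₀ Y hY
  have hsub : {p : G × G | Prm p.1 ∧ det p.1 p.2 = D ∧ (nn p.1 : ℝ) ≤ Y ∧
      ξ₁ * (nn p.1 : ℝ) ≤ (ip p.1 p.2 : ℝ) ∧ (ip p.1 p.2 : ℝ) < ξ₂ * (nn p.1 : ℝ)} ⊆
      ⋃ κ ∈ Finset.range D.natAbs, RegK D (κ : ℤ) 0 1 ξ₁ ξ₂ Y := by
    rintro ⟨v, w⟩ ⟨h1, h2, h3, h4, h5⟩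
    simp only at h1 h2 h3 h4 h5
    have hdet : det v w ≠ 0 := by rw [h2]; exact hD
    obtain ⟨κ, ⟨hκ1, hκ2⟩, -⟩ := kappa_exists h1 hdet
    rw [h2] at hκ1 hκ2
    rw [Set.mem_iUnion₂]
    refine ⟨κ, Finset.mem_range.2 hκ1, h2, ?_, ?_, ?_, h4, h5⟩
    · have : (((κ : ℕ) : ℤ) : G) = ((κ : ℕ) : G) := by push_cast; rfl
      rw [this]
      exact hκ2
    · rw [zero_mul]
      exact_mod_cast nn_pos.2 (prm_ne h1)
    · rw [one_mul]; exact h3
  have hfin : (⋃ κ ∈ Finset.range D.natAbs, RegK D (κ : ℤ) 0 1 ξ₁ ξ₂ Y).Finite :=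
    Set.Finite.biUnion (Finset.finite_toSet _) fun κ _ => regk_finite D κ 0 1 ξ₁ ξ₂ Y le_rfl hY2
  have h6 := (Set.ncard_le_ncard hsub hfin).trans (Finset.set_ncard_biUnion_le _ _)
  have h7 : (({p : G × G | Prm p.1 ∧ det p.1 p.2 = D ∧ (nn p.1 : ℝ) ≤ Y ∧
      ξ₁ * (nn p.1 : ℝ) ≤ (ip p.1 p.2 : ℝ) ∧ (ip p.1 p.2 : ℝ) < ξ₂ * (nn p.1 : ℝ)}.ncard : ℕ) : ℝ) ≤
      ∑ κ ∈ Finset.range D.natAbs, ((RegK D (κ : ℤ) 0 1 ξ₁ ξ₂ Y).ncard : ℝ) := by
    exact_mod_cast h6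
  refine h7.trans ((Finset.sum_le_sum hY1).trans ?_)
  rw [Finset.sum_const, Finset.card_range, nsmul_eq_mul, Nat.cast_natAbs, Int.cast_abs]
  have h8 : |(D : ℝ)| * (2 * c * (ξ₂ - ξ₁) / |(D : ℝ)| * Y) = 2 * c * (ξ₂ - ξ₁) * Y := by
    field_simp
  rw [h8]
  have h9 : 0 ≤ (ξ₂ - ξ₁) * Y := by positivity
  nlinarith

theorem zwc_mult {v u : G} (hv : Prm v) (h : det v u = 0) : ∃ t : ℤ, u = (t : G) * v := by
  have h1 := Int.gcd_eq_gcd_ab v.re v.im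
  rw [Prm] at hv
  rw [hv] at h1
  set a := Int.gcdA v.re v.im
  set b := Int.gcdB v.re v.im
  push_cast at h1
  rw [det] at h
  refine ⟨a * u.re + b * u.im, ?_⟩
  apply Zsqrtd.ext
  · simp only [Zsqrtd.re_mul, Zsqrtd.re_intCast, Zsqrtd.im_intCast]
    linear_combination u.re * h1 - b * h
  · simp only [Zsqrtd.im_mul, Zsqrtd.re_intCast, Zsqrtd.im_intCast]
    linear_combination u.im * h1 + a * h

theorem bd_triv_pr (α β : ℝ) (hα : 0 < α) (hβ : α < β) : ∃ C : ℝ, 1 ≤ C ∧ ∀ D k : ℕ, 1 ≤ D →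
    ((PW α β D k).card : ℝ) ≤ C * 4 ^ k ∧ |BD α β D k| ≤ C := by
  classical
  obtain ⟨C₀, hC₀, hball⟩ := ball_le
  have hβ0 : 0 < β := by linarith
  set C₁ : ℝ := (2 / α + 1) * (4 * C₀) with hC₁
  have hC₁0 : 1 ≤ C₁ := by
    have h1 : (0 : ℝ) ≤ 2 / α := by positivity
    rw [hC₁]; nlinarith
  refine ⟨C₁ * (1 + β), by nlinarith, ?_⟩
  intro D k hD
  have h4k : (0 : ℝ) < 4 ^ k := by positivity
  -- membership
  have hmem : ∀ t ∈ PW α β D k, t.1 ∈ PB ((4 : ℝ) ^ (k + 1)) ∧ det t.1 t.2 = D ∧ 0 < ip t.1 t.2 ∧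
      4 ^ k ≤ nn t.1 ∧ α * (ip t.1 t.2 : ℝ) < (nn t.1 : ℝ) ∧
      (nn t.1 : ℝ) ≤ β * (ip t.1 t.2 : ℝ) := by
    intro t ht
    rw [PW, Finset.mem_filter, Finset.mem_product] at ht
    exact ⟨ht.1.1, ht.2.1, ht.2.2.1, ht.2.2.2.1, ht.2.2.2.2.2.1, ht.2.2.2.2.2.2⟩
  -- the count
  have hcount : ((PW α β D k).card : ℝ) ≤ C₁ * 4 ^ k := by
    set M : ℕ := ⌊1 / α⌋₊ with hM
    have hfib : ∀ v ∈ PB ((4 : ℝ) ^ (k + 1)),
        ((PW α β D k).filter (fun t => t.1 = v)).card ≤ 2 * M + 1 := by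
      intro v hv
      have hvP : Prm v := (mem_PB.1 hv).1
      have hv0 : (0 : ℝ) < nn v := by exact_mod_cast nn_pos.2 (prm_ne hvP)
      rcases ((PW α β D k).filter (fun t => t.1 = v)).eq_empty_or_nonempty with he | ⟨s, hs⟩
      · rw [he, Finset.card_empty]; omega
      · have hs1 := (Finset.mem_filter.1 hs).2
        obtain ⟨-, hs2, hs3, hs4, hs5, hs6⟩ := hmem s (Finset.mem_filter.1 hs).1
        rw [hs1] at hs2 hs3 hs5 hs6
        have hcardI : (Finset.Icc (-(M : ℤ)) M).card = 2 * M + 1 := by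
          rw [Int.card_Icc]; omega
        rw [← hcardI]
        have hex : ∀ t ∈ (PW α β D k).filter (fun t => t.1 = v),
            ∃ n : ℤ, n ∈ Finset.Icc (-(M : ℤ)) M ∧ t.2 = s.2 + (n : G) * v := by
          intro t ht
          have ht1 := (Finset.mem_filter.1 ht).2
          obtain ⟨-, ht2, ht3, ht4, ht5, ht6⟩ := hmem t (Finset.mem_filter.1 ht).1
          rw [ht1] at ht2 ht3 ht5 ht6
          have hdet : det v (t.2 - s.2) = 0 := by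
            have e1 : det v (t.2 - s.2) = det v t.2 - det v s.2 := by
              simp only [det, Zsqrtd.re_sub, Zsqrtd.im_sub]; ring
            rw [e1, ht2, hs2, sub_self]
          obtain ⟨n, hn⟩ := zwc_mult hvP hdet
          have ht2' : t.2 = s.2 + (n : G) * v := by rw [← hn]; ring
          refine ⟨n, ?_, ht2'⟩
          have hip : ip v t.2 = ip v s.2 + n * nn v := by
            rw [ht2', nn_cast]
            simp only [ip, Zsqrtd.re_add, Zsqrtd.im_add, Zsqrtd.re_mul, Zsqrtd.im_mul,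
              Zsqrtd.re_intCast, Zsqrtd.im_intCast]
            ring
          have hipr : (ip v t.2 : ℝ) = (ip v s.2 : ℝ) + n * (nn v : ℝ) := by
            rw [hip]; push_cast; rfl
          have hs3' : (0 : ℝ) < ip v s.2 := by exact_mod_cast hs3
          have ht3' : (0 : ℝ) < ip v t.2 := by exact_mod_cast ht3
          have hub : |(n : ℝ)| ≤ 1 / α := by
            have e1 : |(n : ℝ) * (nn v : ℝ)| ≤ 1 / α * nn v := by
              have e2 : (n : ℝ) * (nn v : ℝ) = ip v t.2 - ip v s.2 := by linarith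
              have e3 : (ip v t.2 : ℝ) ≤ 1 / α * nn v := by
                rw [one_div, inv_mul_eq_div, le_div_iff₀ hα]; linarith
              have e4 : (ip v s.2 : ℝ) ≤ 1 / α * nn v := by
                rw [one_div, inv_mul_eq_div, le_div_iff₀ hα]; linarith
              rw [e2, abs_le]
              constructor <;> linarith
            rw [abs_mul, abs_of_pos hv0] at e1
            exact le_of_mul_le_mul_right e1 hv0
          have hnat : ((n.natAbs : ℕ) : ℝ) ≤ 1 / α := by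
            rw [Nat.cast_natAbs, Int.cast_abs]; exact hub
          have hnM : n.natAbs ≤ M := Nat.le_floor hnat
          rw [Finset.mem_Icc]
          omega
        choose! F hF1 hF2 using hex
        apply Finset.card_le_card_of_injOn F
        · intro t ht
          exact hF1 t ht
        · intro t ht t' ht' hFF
          have e1 : t.2 = t'.2 := by rw [hF2 t ht, hF2 t' ht', hFF]
          have e2 : t.1 = t'.1 :=
            ((Finset.mem_filter.1 ht).2).trans ((Finset.mem_filter.1 ht').2).symm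
          exact Prod.ext e2 e1
    have h1 : (PW α β D k).card ≤ (2 * M + 1) * (PB ((4 : ℝ) ^ (k + 1))).card :=
      Finset.card_le_mul_card_image_of_maps_to (f := fun t => t.1) (fun t ht => (hmem t ht).1) _ hfib
    have hPB : ((PB ((4 : ℝ) ^ (k + 1))).card : ℝ) ≤ C₀ * (4 : ℝ) ^ (k + 1) := by
      refine le_trans ?_ (hball _ (by positivity))
      exact_mod_cast Finset.card_filter_le _ _
    have hMle : (M : ℝ) ≤ 1 / α := Nat.floor_le (by positivity)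
    have h2 : ((PW α β D k).card : ℝ) ≤ (2 * M + 1) * ((PB ((4 : ℝ) ^ (k + 1))).card : ℝ) := by
      exact_mod_cast h1
    calc ((PW α β D k).card : ℝ) ≤ (2 * M + 1) * ((PB ((4 : ℝ) ^ (k + 1))).card : ℝ) := h2
      _ ≤ (2 * (1 / α) + 1) * (C₀ * (4 : ℝ) ^ (k + 1)) := by gcongr
      _ = C₁ * 4 ^ k := by rw [hC₁]; ring
  have hC₁β : C₁ ≤ C₁ * (1 + β) := by nlinarith
  refine ⟨hcount.trans (mul_le_mul_of_nonneg_right hC₁β h4k.le), ?_⟩
  rw [BD]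
  refine (Finset.abs_sum_le_sum_abs _ _).trans ?_
  have hterm : ∀ t ∈ PW α β D k, |gl t.1 * gl t.2 / (ip t.1 t.2 : ℝ)| ≤ β / 4 ^ k := by
    intro t ht
    obtain ⟨-, h2, h3, h4, h5, h6⟩ := hmem t ht
    have hip : (0 : ℝ) < ip t.1 t.2 := by exact_mod_cast h3
    have h4' : (4 : ℝ) ^ k ≤ nn t.1 := by exact_mod_cast h4
    rw [abs_div, abs_mul, abs_of_pos hip]
    have h7 : |gl t.1| * |gl t.2| ≤ 1 :=
      mul_le_one₀ (gl_abs _) (abs_nonneg _) (gl_abs _)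
    rw [div_le_div_iff₀ hip h4k]
    nlinarith
  refine (Finset.sum_le_sum hterm).trans ?_
  rw [Finset.sum_const, nsmul_eq_mul]
  calc ((PW α β D k).card : ℝ) * (β / 4 ^ k) ≤ C₁ * 4 ^ k * (β / 4 ^ k) := by gcongr
    _ = C₁ * β := by field_simp
    _ ≤ C₁ * (1 + β) := by nlinarith

end

end Pool.Agent.T2


namespace Pool.Agent.T2

theorem win_count : type_of% @win_count_pr := @win_count_pr
theorem bd_triv : type_of% @bd_triv_pr := @bd_triv_pr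

end Pool.Agent.T2
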