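import Pool.Agent.Lib_helper10.T2.DefsZ
import Pool.Agent.Lib_helper10.T2F.AWB
import Pool.Agent.Lib_helper10.T2F.BAS
import Pool.Agent.Lib_helper10.T2F.ZWC

/-! T2, block ZCW: decomposition of the ratio window into cells -/

namespace Pool.Agent.T2

open Filter Topology

theorem zcw_tel_lower (A k : ℕ) (hA : 1 ≤ A) :
    1 / (A : ℝ) - 1 / ((A + k : ℕ) : ℝ) ≤ ∑ Y ∈ Finset.Ico A (A + k), 1 / (Y : ℝ) ^ 2 := by
  have hA' : (1 : ℝ) ≤ A := by exact_mod_cast hA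
  induction k with
  | zero => simp
  | succ k ih =>
    rw [← add_assoc, Finset.sum_Ico_succ_top (by omega)]
    have hk : (0 : ℝ) < ((A + k : ℕ) : ℝ) := by push_cast; positivity
    have : 1 / ((A + k : ℕ) : ℝ) - 1 / ((A + k + 1 : ℕ) : ℝ) ≤ 1 / ((A + k : ℕ) : ℝ) ^ 2 := by
      push_cast at hk ⊢
      rw [div_sub_div _ _ hk.ne' (by positivity), div_le_div_iff₀ (by positivity) (by positivity)]
      nlinarith
    linarith

theorem zcw_tel_upper (A k : ℕ) (hA : 1 ≤ A) :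
    ∑ Y ∈ Finset.Ico A (A + (k + 1)), 1 / (Y : ℝ) ^ 2 ≤
      1 / (A : ℝ) ^ 2 + 1 / (A : ℝ) - 1 / ((A + k : ℕ) : ℝ) := by
  have hA' : (1 : ℝ) ≤ A := by exact_mod_cast hA
  induction k with
  | zero => simp
  | succ k ih =>
    rw [← add_assoc, Finset.sum_Ico_succ_top (by omega)]
    have hk : (0 : ℝ) < ((A + k : ℕ) : ℝ) := by push_cast; positivity
    have : 1 / ((A + (k + 1) : ℕ) : ℝ) ^ 2 ≤
        1 / ((A + k : ℕ) : ℝ) - 1 / ((A + (k + 1) : ℕ) : ℝ) := by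
      push_cast at hk ⊢
      rw [div_sub_div _ _ hk.ne' (by positivity), div_le_div_iff₀ (by positivity) (by positivity)]
      nlinarith
    linarith

theorem zcw_inv (s t : ℝ) (hs : 0 < s) (hst : s ≤ t) :
    |∑ Y ∈ Finset.Ico ⌈s⌉₊ ⌈t⌉₊, 1 / (Y : ℝ) ^ 2 - (1 / s - 1 / t)| ≤ 1 / s ^ 2 := by
  have ht : 0 < t := lt_of_lt_of_le hs hst
  have hA : 1 ≤ ⌈s⌉₊ := Nat.one_le_iff_ne_zero.2 (by simpa using hs)
  have hA0 : (0 : ℝ) < (⌈s⌉₊ : ℝ) := by exact_mod_cast hA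
  have h1 : s ≤ (⌈s⌉₊ : ℝ) := Nat.le_ceil s
  have h2 : (⌈s⌉₊ : ℝ) < s + 1 := Nat.ceil_lt_add_one hs.le
  have h3 : ⌈s⌉₊ ≤ ⌈t⌉₊ := Nat.ceil_mono hst
  obtain ⟨k, hk⟩ := Nat.exists_eq_add_of_le h3
  have h4 : t ≤ (⌈t⌉₊ : ℝ) := Nat.le_ceil t
  have h5 : (⌈t⌉₊ : ℝ) < t + 1 := Nat.ceil_lt_add_one ht.le
  have h6 : 1 / s - 1 / s ^ 2 ≤ 1 / (⌈s⌉₊ : ℝ) := by
    have : 1 / (s + 1) ≤ 1 / (⌈s⌉₊ : ℝ) := one_div_le_one_div_of_le hA0 h2.le
    have h7 : 1 / s - 1 / s ^ 2 ≤ 1 / (s + 1) := by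
      rw [div_sub_div _ _ hs.ne' (by positivity), div_le_div_iff₀ (by positivity) (by positivity)]
      nlinarith [sq_nonneg s, mul_pos hs hs, mul_pos (mul_pos hs hs) hs]
    linarith
  have h8 : 1 / (⌈t⌉₊ : ℝ) ≤ 1 / t := one_div_le_one_div_of_le ht h4
  have hl := zcw_tel_lower ⌈s⌉₊ k hA
  rw [← hk] at hl
  have hs2 : 1 / (⌈s⌉₊ : ℝ) ≤ 1 / s := one_div_le_one_div_of_le hs h1
  have hs3 : 1 / (⌈s⌉₊ : ℝ) ^ 2 ≤ 1 / s ^ 2 :=
    one_div_le_one_div_of_le (by positivity) (by gcongr)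
  have hts : 1 / t ≤ 1 / s := one_div_le_one_div_of_le hs hst
  rw [abs_le]
  constructor
  · linarith
  · rcases Nat.eq_zero_or_pos k with rfl | hk0
    · rw [hk]
      simp only [add_zero, Finset.Ico_self, Finset.sum_empty]
      have : 0 < 1 / s ^ 2 := by positivity
      linarith
    · obtain ⟨j, rfl⟩ : ∃ j, k = j + 1 := ⟨k - 1, by omega⟩
      have hu := zcw_tel_upper ⌈s⌉₊ j hA
      rw [← hk] at hu
      have h9 : ((⌈s⌉₊ + j : ℕ) : ℝ) ≤ t := by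
        have : ((⌈s⌉₊ + j : ℕ) : ℝ) + 1 = (⌈t⌉₊ : ℝ) := by rw [hk]; push_cast; ring
        linarith
      have h10 : 1 / t ≤ 1 / ((⌈s⌉₊ + j : ℕ) : ℝ) :=
        one_div_le_one_div_of_le (by push_cast; positivity) h9
      linarith

/-- the weight of a pair of norms in a cell -/
noncomputable def zcw_V (a b a' b' : ℝ) (K N M : ℕ) : ℝ :=
  ∑ Y ∈ Finset.Icc 1 (4 ^ K : ℕ), if a * (Y : ℝ) < N ∧ (N : ℝ) ≤ b * Y ∧
    a' * (Y : ℝ) < M ∧ (M : ℝ) ≤ b' * Y then 1 / (Y : ℝ) ^ 2 else 0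

theorem zcw_V_nonneg (a b a' b' : ℝ) (K N M : ℕ) : 0 ≤ zcw_V a b a' b' K N M := by
  unfold zcw_V
  refine Finset.sum_nonneg fun Y _ => ?_
  split_ifs
  · positivity
  · exact le_rfl

theorem zcw_V_zero {a b a' b' : ℝ} {K N M : ℕ} (h : ∀ Y : ℝ, 0 < Y → a * Y < N → (N : ℝ) ≤ b * Y →
    a' * Y < M → (M : ℝ) ≤ b' * Y → False) : zcw_V a b a' b' K N M = 0 := by
  unfold zcw_V
  refine Finset.sum_eq_zero fun Y hY => ?_
  rw [if_neg]
  rintro ⟨h1, h2, h3, h4⟩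
  have : 1 ≤ Y := (Finset.mem_Icc.1 hY).1
  exact h Y (by exact_mod_cast this) h1 h2 h3 h4

theorem zcw_range {a b : ℝ} (ha : 0 < a) (hab : a < b) {N : ℕ} (hN : 1 ≤ N) (Y : ℕ) :
    (a * (Y : ℝ) < N ∧ (N : ℝ) ≤ b * Y) ↔ Y ∈ Finset.Ico ⌈(N : ℝ) / b⌉₊ ⌈(N : ℝ) / a⌉₊ := by
  have hb : 0 < b := ha.trans hab
  rw [Finset.mem_Ico, Nat.ceil_le, Nat.lt_ceil, div_le_iff₀ hb, lt_div_iff₀ ha, mul_comm (Y : ℝ) b,
    mul_comm (Y : ℝ) a]
  tauto

theorem zcw_V_le {a b a' b' : ℝ} {K N M : ℕ} (ha : 0 < a) (hab : a < b) (hN : 1 ≤ N) :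
    zcw_V a b a' b' K N M ≤ (b - a) / N + b ^ 2 / (N : ℝ) ^ 2 := by
  have hb : 0 < b := ha.trans hab
  have hN0 : (0 : ℝ) < N := by exact_mod_cast hN
  have h := zcw_inv ((N : ℝ) / b) ((N : ℝ) / a) (by positivity)
    (div_le_div_of_nonneg_left hN0.le ha hab.le)
  have h1 : zcw_V a b a' b' K N M ≤
      ∑ Y ∈ Finset.Ico ⌈(N : ℝ) / b⌉₊ ⌈(N : ℝ) / a⌉₊, 1 / (Y : ℝ) ^ 2 := by
    unfold zcw_V
    rw [← Finset.sum_filter]
    refine Finset.sum_le_sum_of_subset_of_nonneg ?_ (fun _ _ _ => by positivity)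
    intro Y hY
    rw [Finset.mem_filter] at hY
    exact (zcw_range ha hab hN Y).1 ⟨hY.2.1, hY.2.2.1⟩
  have h2 := (abs_le.1 h).2
  have h3 : 1 / ((N : ℝ) / b) - 1 / ((N : ℝ) / a) = (b - a) / N := by
    rw [one_div_div, one_div_div]; ring
  have h4 : 1 / ((N : ℝ) / b) ^ 2 = b ^ 2 / (N : ℝ) ^ 2 := by
    rw [div_pow, one_div_div]
  rw [h3, h4] at h2
  linarith

theorem zcw_V_full {a b a' b' : ℝ} {K N M : ℕ} (ha : 0 < a) (hab : a < b) (hN : 1 ≤ N)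
    (hK : (N : ℝ) ≤ a * 4 ^ K)
    (h : ∀ Y : ℝ, 0 < Y → a * Y < N → (N : ℝ) ≤ b * Y → a' * Y < M ∧ (M : ℝ) ≤ b' * Y) :
    |zcw_V a b a' b' K N M - (b - a) / N| ≤ b ^ 2 / (N : ℝ) ^ 2 := by
  have hb : 0 < b := ha.trans hab
  have hN0 : (0 : ℝ) < N := by exact_mod_cast hN
  have h0 := zcw_inv ((N : ℝ) / b) ((N : ℝ) / a) (by positivity)
    (div_le_div_of_nonneg_left hN0.le ha hab.le)
  have h1 : zcw_V a b a' b' K N M =
      ∑ Y ∈ Finset.Ico ⌈(N : ℝ) / b⌉₊ ⌈(N : ℝ) / a⌉₊, 1 / (Y : ℝ) ^ 2 := by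
    unfold zcw_V
    rw [← Finset.sum_filter]
    congr 1
    ext Y
    rw [Finset.mem_filter, ← zcw_range ha hab hN Y]
    constructor
    · rintro ⟨_, h1, h2, _⟩
      exact ⟨h1, h2⟩
    · rintro ⟨h1, h2⟩
      have hY0 : (0 : ℝ) < Y := by
        by_contra hc
        have : (Y : ℝ) ≤ 0 := not_lt.1 hc
        nlinarith
      have hY1 : 1 ≤ Y := by exact_mod_cast hY0
      have hY2 : (Y : ℝ) < 4 ^ K := by
        by_contra hc
        have := not_lt.1 hc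
        nlinarith
      refine ⟨Finset.mem_Icc.2 ⟨hY1, ?_⟩, h1, h2, h Y hY0 h1 h2⟩
      have : (Y : ℝ) ≤ ((4 ^ K : ℕ) : ℝ) := by push_cast; exact hY2.le
      exact_mod_cast this
  have h3 : 1 / ((N : ℝ) / b) - 1 / ((N : ℝ) / a) = (b - a) / N := by
    rw [one_div_div, one_div_div]; ring
  have h4 : 1 / ((N : ℝ) / b) ^ 2 = b ^ 2 / (N : ℝ) ^ 2 := by
    rw [div_pow, one_div_div]
  rw [h3, h4] at h0
  rw [h1]
  exact h0

open Classical in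
theorem zcw_BQ_sum (a b a' b' : ℝ) (B : Finset ℕ) (Y : ℝ) :
    BQ a b a' b' B Y = ∑ p ∈ B, BQ a b a' b' {p} Y := by
  unfold BQ
  rw [Finset.sum_comm]
  refine Finset.sum_congr rfl fun u _ => ?_
  simp_rw [Finset.sum_filter]
  rw [Finset.sum_comm]
  refine Finset.sum_congr rfl fun w _ => ?_
  by_cases h : 0 < ip u w ∧ ∃ p ∈ B, det u w = (p : ℤ)
  · obtain ⟨h0, p, hp, hd⟩ := h
    rw [if_pos ⟨h0, p, hp, hd⟩, Finset.sum_eq_single p]
    · rw [if_pos ⟨h0, p, by simp, hd⟩]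
    · intro q hq hqp
      rw [if_neg]
      rintro ⟨_, r, hr, hd'⟩
      rw [Finset.mem_singleton] at hr
      subst hr
      rw [hd] at hd'
      exact hqp (by exact_mod_cast hd'.symm)
    · intro hn
      exact absurd hp hn
  · rw [if_neg h]
    symm
    refine Finset.sum_eq_zero fun q hq => ?_
    rw [if_neg]
    rintro ⟨h0, r, hr, hd⟩
    rw [Finset.mem_singleton] at hr
    subst hr
    exact h ⟨h0, r, hq, hd⟩

/-- the condition of a cell -/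
def zcw_c (a b a' b' : ℝ) (Y : ℝ) (t : G × G) : Prop :=
  a * Y < (nn t.1 : ℝ) ∧ (nn t.1 : ℝ) ≤ b * Y ∧ a' * Y < (nn t.2 : ℝ) ∧ (nn t.2 : ℝ) ≤ b' * Y

open Classical in
theorem zcw_BQ_one {α β a b a' b' : ℝ} (hα : 0 < α) (hb : b < 1) (hb' : b' ≤ 1) {p K : ℕ} {Y : ℝ}
    (hY0 : 0 < Y) (hY : Y ≤ 4 ^ K)
    (H : ∀ t : G × G, Prm t.1 → Prm t.2 → det t.1 t.2 = p → 0 < ip t.1 t.2 →
      zcw_c a b a' b' Y t → α * (ip t.1 t.2 : ℝ) < (nn t.1 : ℝ) ∧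
        (nn t.1 : ℝ) ≤ β * (ip t.1 t.2 : ℝ)) :
    BQ a b a' b' {p} Y = ∑ k ∈ Finset.range K, ∑ t ∈ PW α β p k,
      if zcw_c a b a' b' Y t then gl t.1 * gl t.2 else 0 := by
  have h1 : BQ a b a' b' {p} Y = ∑ t ∈ (Cel a b Y ×ˢ Cel a' b' Y).filter
      (fun t => 0 < ip t.1 t.2 ∧ det t.1 t.2 = (p : ℤ)), gl t.1 * gl t.2 := by
    unfold BQ
    rw [Finset.sum_filter, Finset.sum_product]
    refine Finset.sum_congr rfl fun u _ => ?_
    rw [Finset.sum_filter]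
    refine Finset.sum_congr rfl fun w _ => ?_
    simp
  have hdis : ((Finset.range K : Finset ℕ) : Set ℕ).PairwiseDisjoint (fun k => PW α β p k) := by
    intro i _ j _ hij
    refine Finset.disjoint_left.2 fun t hti htj => hij ?_
    rw [mem_PW hα] at hti htj
    obtain ⟨_, _, _, _, h1, h2, _⟩ := hti
    obtain ⟨_, _, _, _, h3, h4, _⟩ := htj
    have h5 : 4 ^ i < 4 ^ (j + 1) := lt_of_le_of_lt h1 h4
    have h6 : 4 ^ j < 4 ^ (i + 1) := lt_of_le_of_lt h3 h2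
    have h7 := (Nat.pow_lt_pow_iff_right (by norm_num : 1 < 4)).1 h5
    have h8 := (Nat.pow_lt_pow_iff_right (by norm_num : 1 < 4)).1 h6
    omega
  rw [h1, ← Finset.sum_biUnion hdis, ← Finset.sum_filter]
  congr 1
  ext t
  rw [Finset.mem_filter, Finset.mem_filter, Finset.mem_product, Finset.mem_biUnion]
  unfold Cel
  rw [Finset.mem_filter, Finset.mem_filter, mem_PB, mem_PB]
  constructor
  · rintro ⟨⟨⟨⟨hp1, _⟩, hc1, hc2⟩, ⟨hp2, _⟩, hc3, hc4⟩, hip, hdet⟩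
    have hc : zcw_c a b a' b' Y t := ⟨hc1, hc2, hc3, hc4⟩
    refine ⟨?_, hc⟩
    have hn : 1 ≤ nn t.1 := nn_pos.2 (prm_ne hp1)
    have hlt : nn t.1 < 4 ^ K := by
      have h2 : (nn t.1 : ℝ) < 4 ^ K := by
        have : (0 : ℝ) < nn t.1 := by exact_mod_cast hn
        nlinarith
      exact_mod_cast h2
    have hw := H t hp1 hp2 hdet hip hc
    refine ⟨Nat.log 4 (nn t.1), ?_, ?_⟩
    · rw [Finset.mem_range]
      exact (Nat.log_lt_iff_lt_pow (by norm_num) (by omega)).2 hlt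
    · rw [mem_PW hα]
      exact ⟨hp1, hp2, hdet, hip, Nat.pow_log_le_self 4 (by omega),
        Nat.lt_pow_succ_log_self (by norm_num) _, hw.1, hw.2⟩
  · rintro ⟨⟨k, _, hk⟩, hc1, hc2, hc3, hc4⟩
    rw [mem_PW hα] at hk
    obtain ⟨hp1, hp2, hdet, hip, _⟩ := hk
    exact ⟨⟨⟨⟨hp1, by nlinarith⟩, hc1, hc2⟩, ⟨hp2, by nlinarith⟩, hc3, hc4⟩, hip, hdet⟩

/-- the weight in the definition of `BD` -/
noncomputable def zcw_W (β : ℝ) (N : ℕ) (n : ℤ) : ℝ := if (N : ℝ) ≤ β * (n : ℝ) then 1 / (n : ℝ) else 0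

theorem zcw_BD {α β β' : ℝ} (hα : 0 < α) (hβ : β ≤ β') (p k : ℕ) :
    BD α β p k = ∑ t ∈ PW α β' p k, gl t.1 * gl t.2 * zcw_W β (nn t.1) (ip t.1 t.2) := by
  classical
  unfold BD
  have hsub : PW α β p k ⊆ PW α β' p k := by
    intro t ht
    rw [mem_PW hα] at ht ⊢
    obtain ⟨h1, h2, h3, h4, h5, h6, h7, h8⟩ := ht
    refine ⟨h1, h2, h3, h4, h5, h6, h7, h8.trans ?_⟩
    have : (0 : ℝ) < ip t.1 t.2 := by exact_mod_cast h4
    nlinarith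
  rw [← Finset.sum_subset hsub (f := fun t => gl t.1 * gl t.2 * zcw_W β (nn t.1) (ip t.1 t.2))]
  · refine Finset.sum_congr rfl fun t ht => ?_
    rw [mem_PW hα] at ht
    unfold zcw_W
    rw [if_pos ht.2.2.2.2.2.2.2]
    ring
  · intro t ht hn
    rw [mem_PW hα] at ht hn
    unfold zcw_W
    rw [if_neg, mul_zero]
    intro h
    exact hn ⟨ht.1, ht.2.1, ht.2.2.1, ht.2.2.2.1, ht.2.2.2.2.1, ht.2.2.2.2.2.1,
      ht.2.2.2.2.2.2.1, h⟩

/-- the decomposition for one determinant -/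
theorem zcw_dec {α β β' : ℝ} (hα : 0 < α) (hβ : β ≤ β') {m : ℕ} (c a b a' b' : Fin m → ℝ)
    (hb : ∀ i, b i < 1) (hb' : ∀ i, b' i ≤ 1) (p K : ℕ)
    (H : ∀ i, ∀ Y : ℝ, 0 < Y → ∀ t : G × G, Prm t.1 → Prm t.2 → det t.1 t.2 = p → 0 < ip t.1 t.2 →
      zcw_c (a i) (b i) (a' i) (b' i) Y t → α * (ip t.1 t.2 : ℝ) < (nn t.1 : ℝ) ∧
        (nn t.1 : ℝ) ≤ β' * (ip t.1 t.2 : ℝ)) :
    |∑ k ∈ Finset.range K, BD α β p k - ∑ i, c i * ∑ Y ∈ Finset.Icc 1 (4 ^ K : ℕ),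
        BQ (a i) (b i) (a' i) (b' i) {p} Y / (Y : ℝ) ^ 2| ≤
      ∑ k ∈ Finset.range K, ∑ t ∈ PW α β' p k, |zcw_W β (nn t.1) (ip t.1 t.2) -
        ∑ i, c i * zcw_V (a i) (b i) (a' i) (b' i) K (nn t.1) (nn t.2)| := by
  classical
  have h1 : ∀ i, ∑ Y ∈ Finset.Icc 1 (4 ^ K : ℕ), BQ (a i) (b i) (a' i) (b' i) {p} Y / (Y : ℝ) ^ 2 =
      ∑ k ∈ Finset.range K, ∑ t ∈ PW α β' p k, gl t.1 * gl t.2 *
        zcw_V (a i) (b i) (a' i) (b' i) K (nn t.1) (nn t.2) := by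
    intro i
    have h2 : ∀ Y ∈ Finset.Icc 1 (4 ^ K : ℕ), BQ (a i) (b i) (a' i) (b' i) {p} Y / (Y : ℝ) ^ 2 =
        ∑ k ∈ Finset.range K, ∑ t ∈ PW α β' p k, gl t.1 * gl t.2 *
          (if zcw_c (a i) (b i) (a' i) (b' i) Y t then 1 / (Y : ℝ) ^ 2 else 0) := by
      intro Y hY
      rw [Finset.mem_Icc] at hY
      have hY0 : (0 : ℝ) < Y := by exact_mod_cast hY.1
      have hY1 : (Y : ℝ) ≤ 4 ^ K := by exact_mod_cast hY.2
      rw [zcw_BQ_one hα (hb i) (hb' i) hY0 hY1 (H i Y hY0), Finset.sum_div]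
      refine Finset.sum_congr rfl fun k _ => ?_
      rw [Finset.sum_div]
      refine Finset.sum_congr rfl fun t _ => ?_
      split_ifs
      · ring
      · simp
    rw [Finset.sum_congr rfl h2, Finset.sum_comm]
    refine Finset.sum_congr rfl fun k _ => ?_
    rw [Finset.sum_comm]
    refine Finset.sum_congr rfl fun t _ => ?_
    rw [← Finset.mul_sum]
    congr 1
    unfold zcw_V
    exact Finset.sum_congr rfl fun Y _ => if_congr Iff.rfl rfl rfl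
  have h3 : ∑ k ∈ Finset.range K, BD α β p k - ∑ i, c i * ∑ Y ∈ Finset.Icc 1 (4 ^ K : ℕ),
        BQ (a i) (b i) (a' i) (b' i) {p} Y / (Y : ℝ) ^ 2 =
      ∑ k ∈ Finset.range K, ∑ t ∈ PW α β' p k, gl t.1 * gl t.2 *
        (zcw_W β (nn t.1) (ip t.1 t.2) -
          ∑ i, c i * zcw_V (a i) (b i) (a' i) (b' i) K (nn t.1) (nn t.2)) := by
    simp_rw [h1, zcw_BD hα hβ, Finset.mul_sum]
    rw [Finset.sum_comm (s := Finset.univ), ← Finset.sum_sub_distrib]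
    refine Finset.sum_congr rfl fun k _ => ?_
    rw [Finset.sum_comm (s := Finset.univ), ← Finset.sum_sub_distrib]
    refine Finset.sum_congr rfl fun t _ => ?_
    rw [mul_sub, Finset.mul_sum]
    congr 1
    refine Finset.sum_congr rfl fun i _ => ?_
    ring
  rw [h3]
  refine (Finset.abs_sum_le_sum_abs _ _).trans (Finset.sum_le_sum fun k _ => ?_)
  refine (Finset.abs_sum_le_sum_abs _ _).trans (Finset.sum_le_sum fun t _ => ?_)
  rw [abs_mul, abs_mul]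
  have h4 := gl_abs t.1
  have h5 := gl_abs t.2
  have h6 : |gl t.1| * |gl t.2| ≤ 1 := by
    have := abs_nonneg (gl t.1)
    have := abs_nonneg (gl t.2)
    nlinarith
  calc |gl t.1| * |gl t.2| * _ ≤ 1 * _ := mul_le_mul_of_nonneg_right h6 (abs_nonneg _)
    _ = _ := one_mul _

/-- the parameters of the decomposition into cells -/
structure zcw_P (α β δ τ h a0 : ℝ) (m : ℕ) : Prop where
  hα : 0 < α
  hβ : 0 < β
  hδ : 0 < δ
  hτ : 0 < τ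
  hh : 0 < h
  ha : 0 < a0
  hm : 1 / β + m * δ = 1 / α
  hτ1 : τ ≤ 1 / (2 * β)
  hh1 : h ≤ 1
  hh2 : h ≤ α * τ / 2
  ha1 : a0 ≤ 1 / 4
  ha2 : a0 ≤ α ^ 2

/-- the grid -/
noncomputable def zcw_x (β δ : ℝ) (j : ℕ) : ℝ := 1 / β + j * δ

/-- the norms and the inner product of a pair -/
structure zcw_T (N M p : ℕ) (n : ℤ) : Prop where
  eq : (N : ℝ) * M = (n : ℝ) ^ 2 + (p : ℝ) ^ 2
  hn : (1 : ℝ) ≤ n
  hN : (1 : ℝ) ≤ N

variable {α β δ τ h a0 : ℝ} {m : ℕ}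

theorem zcw_x_succ (j : ℕ) : zcw_x β δ (j + 1) = zcw_x β δ j + δ := by
  unfold zcw_x; push_cast; ring

theorem zcw_x_ge (P : zcw_P α β δ τ h a0 m) (j : ℕ) : 1 / β ≤ zcw_x β δ j := by
  have := P.hδ
  unfold zcw_x
  have : 0 ≤ (j : ℝ) * δ := by positivity
  linarith

theorem zcw_x_pos (P : zcw_P α β δ τ h a0 m) (j : ℕ) : 0 < zcw_x β δ j :=
  lt_of_lt_of_le (by have := P.hβ; positivity) (zcw_x_ge P j)

theorem zcw_x_mono (P : zcw_P α β δ τ h a0 m) {i j : ℕ} (hij : i ≤ j) :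
    zcw_x β δ i ≤ zcw_x β δ j := by
  have := P.hδ
  unfold zcw_x
  have : (i : ℝ) ≤ j := by exact_mod_cast hij
  nlinarith

theorem zcw_x_le (P : zcw_P α β δ τ h a0 m) {j : ℕ} (hj : j ≤ m) : zcw_x β δ j ≤ 1 / α := by
  have h1 := zcw_x_mono P hj
  have h2 := P.hm
  unfold zcw_x at h1 ⊢
  linarith

theorem zcw_x_inv (P : zcw_P α β δ τ h a0 m) (j : ℕ) : 1 / zcw_x β δ j ≤ β := by
  have h1 := zcw_x_ge P j
  have h2 := P.hβ
  rw [div_le_iff₀ (zcw_x_pos P j)]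
  rw [div_le_iff₀ h2] at h1
  linarith

/-- the key inequality -/
theorem zcw_Q (P : zcw_P α β δ τ h a0 m) {N M p : ℕ} {n : ℤ} (T : zcw_T N M p n) {y : ℝ}
    (hy : 1 / β ≤ y) (hy' : y ≤ 1 / α) (h1 : (n : ℝ) ≤ (y - τ) * N)
    (hL : (p : ℝ) ^ 2 ≤ τ / (2 * β) * (N : ℝ) ^ 2) : (1 + h) * (M : ℝ) ≤ y ^ 2 * N := by
  have hα := P.hα
  have hβ := P.hβ
  have hτ := P.hτ
  have hh := P.hh
  have hN : (0 : ℝ) < N := lt_of_lt_of_le one_pos T.hN
  have hn : (0 : ℝ) < n := lt_of_lt_of_le one_pos T.hn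
  have hy0 : 0 < y := lt_of_lt_of_le (by positivity) hy
  have hyτ : 0 < y - τ := by
    by_contra hc
    have := not_lt.1 hc
    nlinarith
  have h2 : (n : ℝ) ^ 2 ≤ ((y - τ) * N) ^ 2 := by
    have : 0 ≤ (y - τ) * N := by positivity
    nlinarith
  have h3 : τ / (2 * β) ≤ τ * y / 2 := by
    have : τ / (2 * β) = τ * (1 / β) / 2 := by field_simp
    rw [this]
    nlinarith
  have h4 : h * y ≤ τ / 2 := by
    have h5 : h * y ≤ (α * τ / 2) * (1 / α) := by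
      have := P.hh2
      have : 0 < α * τ / 2 := by positivity
      nlinarith
    have h6 : (α * τ / 2) * (1 / α) = τ / 2 := by field_simp
    linarith
  have h5 : (N : ℝ) * M ≤ N * (N * ((y - τ) ^ 2 + τ * y / 2)) := by
    rw [T.eq]
    have : τ / (2 * β) * (N : ℝ) ^ 2 ≤ τ * y / 2 * (N : ℝ) ^ 2 :=
      mul_le_mul_of_nonneg_right h3 (by positivity)
    nlinarith
  have h6 : (M : ℝ) ≤ N * ((y - τ) ^ 2 + τ * y / 2) := le_of_mul_le_mul_left h5 hN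
  have h7 : (y - τ) ^ 2 + τ * y / 2 ≤ y ^ 2 - y * τ / 2 := by nlinarith
  have h8 : (1 + h) * (y ^ 2 - y * τ / 2) ≤ y ^ 2 := by
    have : h * y * y ≤ τ / 2 * y := mul_le_mul_of_nonneg_right h4 hy0.le
    have : 0 < h * y * τ := by positivity
    nlinarith
  calc (1 + h) * (M : ℝ) ≤ (1 + h) * (N * (y ^ 2 - y * τ / 2)) := by
        refine mul_le_mul_of_nonneg_left (h6.trans ?_) (by positivity)
        exact mul_le_mul_of_nonneg_left h7 hN.le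
    _ = ((1 + h) * (y ^ 2 - y * τ / 2)) * N := by ring
    _ ≤ y ^ 2 * N := mul_le_mul_of_nonneg_right h8 hN.le

theorem zcw_low {N M p : ℕ} {n : ℤ} (T : zcw_T N M p n) {y : ℝ} (hy : 0 < y)
    (h1 : y * (N : ℝ) ≤ n) : y ^ 2 * (N : ℝ) ≤ M := by
  have hN : (0 : ℝ) < N := lt_of_lt_of_le one_pos T.hN
  have h2 : N * (y ^ 2 * (N : ℝ)) ≤ N * M := by
    rw [T.eq]
    have h3 : (y * N) ^ 2 ≤ (n : ℝ) ^ 2 := by
      have : 0 < y * N := by positivity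
      nlinarith
    nlinarith [sq_nonneg (p : ℝ)]
  exact le_of_mul_le_mul_left h2 hN

/-- empty cells: the pair is below -/
theorem zcw_empty1 (P : zcw_P α β δ τ h a0 m) {N M : ℕ} (i : ℕ) {Y : ℝ} (hY : 0 < Y)
    (h0 : (1 + h) * (M : ℝ) ≤ zcw_x β δ i ^ 2 * N)
    (h2 : (N : ℝ) ≤ a0 * (1 + h) * Y)
    (h3 : a0 * zcw_x β δ i ^ 2 * Y < M) : False := by
  have hh := P.hh
  have hx := zcw_x_pos P i
  have h4 : zcw_x β δ i ^ 2 * N ≤ zcw_x β δ i ^ 2 * (a0 * (1 + h) * Y) :=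
    mul_le_mul_of_nonneg_left h2 (by positivity)
  have h5 : (1 + h) * (a0 * zcw_x β δ i ^ 2 * Y) < (1 + h) * M :=
    mul_lt_mul_of_pos_left h3 (by positivity)
  nlinarith

/-- empty cells: the pair is above -/
theorem zcw_empty2 (P : zcw_P α β δ τ h a0 m) {N M : ℕ} (i : ℕ) {Y : ℝ}
    (h0 : zcw_x β δ i ^ 2 * (N : ℝ) ≤ M)
    (h2 : a0 * Y < (N : ℝ))
    (h3 : (M : ℝ) ≤ a0 * zcw_x β δ i ^ 2 * Y) : False := by
  have hx := zcw_x_pos P i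
  have h4 : zcw_x β δ i ^ 2 * (a0 * Y) < zcw_x β δ i ^ 2 * N :=
    mul_lt_mul_of_pos_left h2 (by positivity)
  nlinarith

/-- the weight of the cell `i` -/
noncomputable def zcw_U (β δ h a0 : ℝ) (K N M : ℕ) (i : ℕ) : ℝ :=
  1 / (a0 * h * zcw_x β δ i) *
    zcw_V a0 (a0 * (1 + h)) (a0 * zcw_x β δ i ^ 2) (a0 * zcw_x β δ (i + 1) ^ 2) K N M

theorem zcw_U_nonneg (P : zcw_P α β δ τ h a0 m) (K N M i : ℕ) : 0 ≤ zcw_U β δ h a0 K N M i := by
  have := P.hh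
  have := P.ha
  have := zcw_x_pos P i
  unfold zcw_U
  exact mul_nonneg (by positivity) (zcw_V_nonneg _ _ _ _ _ _ _)

theorem zcw_cb (P : zcw_P α β δ τ h a0 m) (i : ℕ) {N : ℝ} (hN : 0 < N) :
    1 / (a0 * h * zcw_x β δ i) * ((a0 * (1 + h) - a0) / N) = 1 / (zcw_x β δ i * N) ∧
    1 / (a0 * h * zcw_x β δ i) * ((a0 * (1 + h)) ^ 2 / N ^ 2) ≤ 4 * a0 * β / h / N ^ 2 := by
  have hh := P.hh
  have ha := P.ha
  have hx := zcw_x_pos P i
  have hβ := P.hβ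
  constructor
  · field_simp
    ring
  · have h1 : 1 / (a0 * h * zcw_x β δ i) * ((a0 * (1 + h)) ^ 2 / N ^ 2) =
        a0 * (1 + h) ^ 2 * (1 / zcw_x β δ i) / h / N ^ 2 := by
      field_simp
    rw [h1]
    have h2 := zcw_x_inv P i
    have h3 : (1 + h) ^ 2 ≤ 4 := by have := P.hh1; nlinarith
    have h4 : (1 + h) ^ 2 * (1 / zcw_x β δ i) ≤ 4 * β := mul_le_mul h3 h2 (by positivity) (by norm_num)
    gcongr ?_ / h / N ^ 2
    calc a0 * (1 + h) ^ 2 * (1 / zcw_x β δ i) = a0 * ((1 + h) ^ 2 * (1 / zcw_x β δ i)) := by ring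
      _ ≤ a0 * (4 * β) := mul_le_mul_of_nonneg_left h4 ha.le
      _ = 4 * a0 * β := by ring

theorem zcw_U_le (P : zcw_P α β δ τ h a0 m) (K M i : ℕ) {N : ℕ} (hN : (1 : ℝ) ≤ N) :
    zcw_U β δ h a0 K N M i ≤ β / N + 4 * a0 * β / h / (N : ℝ) ^ 2 := by
  have hh := P.hh
  have ha := P.ha
  have hx := zcw_x_pos P i
  have hβ := P.hβ
  have hN0 : (0 : ℝ) < N := by linarith
  have h1 : zcw_V a0 (a0 * (1 + h)) (a0 * zcw_x β δ i ^ 2) (a0 * zcw_x β δ (i + 1) ^ 2) K N M ≤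
      (a0 * (1 + h) - a0) / N + (a0 * (1 + h)) ^ 2 / (N : ℝ) ^ 2 :=
    zcw_V_le ha (by nlinarith) (by exact_mod_cast hN)
  have h2 := zcw_cb P i hN0
  have h3 : 1 / (zcw_x β δ i * N) ≤ β / N := by
    have := zcw_x_inv P i
    have h4 : 1 / (zcw_x β δ i * N) = 1 / zcw_x β δ i / N := by field_simp
    rw [h4]
    gcongr
  unfold zcw_U
  calc _ ≤ 1 / (a0 * h * zcw_x β δ i) *
        ((a0 * (1 + h) - a0) / N + (a0 * (1 + h)) ^ 2 / (N : ℝ) ^ 2) :=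
        mul_le_mul_of_nonneg_left h1 (by positivity)
    _ ≤ _ := by rw [mul_add, h2.1]; linarith [h2.2]

theorem zcw_U_empty1 (P : zcw_P α β δ τ h a0 m) (K i : ℕ) {N M : ℕ}
    (h0 : (1 + h) * (M : ℝ) ≤ zcw_x β δ i ^ 2 * N) : zcw_U β δ h a0 K N M i = 0 := by
  unfold zcw_U
  rw [zcw_V_zero, mul_zero]
  intro Y hY _ h2 h3 _
  exact zcw_empty1 P i hY h0 h2 h3

theorem zcw_U_empty2 (P : zcw_P α β δ τ h a0 m) (K i : ℕ) {N M : ℕ}
    (h0 : zcw_x β δ (i + 1) ^ 2 * (N : ℝ) ≤ M) : zcw_U β δ h a0 K N M i = 0 := by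
  unfold zcw_U
  rw [zcw_V_zero, mul_zero]
  intro Y hY h1 _ _ h4
  exact zcw_empty2 P (i + 1) h0 h1 h4

theorem zcw_U_full (P : zcw_P α β δ τ h a0 m) (K i : ℕ) {N M : ℕ} (hN : (1 : ℝ) ≤ N)
    (h0 : zcw_x β δ i ^ 2 * (N : ℝ) ≤ M) (h1 : (1 + h) * (M : ℝ) ≤ zcw_x β δ (i + 1) ^ 2 * N)
    (hK : (N : ℝ) ≤ a0 * 4 ^ K) :
    |zcw_U β δ h a0 K N M i - 1 / (zcw_x β δ i * N)| ≤ 4 * a0 * β / h / (N : ℝ) ^ 2 := by
  have hh := P.hh
  have ha := P.ha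
  have hx := zcw_x_pos P i
  have hx' := zcw_x_pos P (i + 1)
  have hN0 : (0 : ℝ) < N := by linarith
  have h2 := zcw_cb P i hN0
  have h3 := zcw_V_full (a := a0) (b := a0 * (1 + h)) (a' := a0 * zcw_x β δ i ^ 2)
    (b' := a0 * zcw_x β δ (i + 1) ^ 2) (M := M) ha (by nlinarith) (by exact_mod_cast hN) hK (by
      intro Y hY hY1 hY2
      constructor
      · have : zcw_x β δ i ^ 2 * (a0 * Y) < zcw_x β δ i ^ 2 * N :=
          mul_lt_mul_of_pos_left hY1 (by positivity)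
        nlinarith
      · have h5 : (1 + h) * (M : ℝ) ≤ (1 + h) * (a0 * zcw_x β δ (i + 1) ^ 2 * Y) := by
          have : zcw_x β δ (i + 1) ^ 2 * N ≤ zcw_x β δ (i + 1) ^ 2 * (a0 * (1 + h) * Y) :=
            mul_le_mul_of_nonneg_left hY2 (by positivity)
          nlinarith
        exact le_of_mul_le_mul_left h5 (by positivity))
  have h4 : zcw_U β δ h a0 K N M i - 1 / (zcw_x β δ i * N) = 1 / (a0 * h * zcw_x β δ i) *
      (zcw_V a0 (a0 * (1 + h)) (a0 * zcw_x β δ i ^ 2) (a0 * zcw_x β δ (i + 1) ^ 2) K N M -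
        (a0 * (1 + h) - a0) / N) := by
    rw [mul_sub, h2.1]
    rfl
  rw [h4, abs_mul, abs_of_pos (by positivity : 0 < 1 / (a0 * h * zcw_x β δ i))]
  exact (mul_le_mul_of_nonneg_left h3 (by positivity)).trans h2.2

/-- the error of a pair -/
noncomputable def zcw_E (β δ h a0 : ℝ) (m K N M : ℕ) (n : ℤ) : ℝ :=
  |zcw_W β N n - ∑ i ∈ Finset.range m, zcw_U β δ h a0 K N M i|

theorem zcw_W_le (hβ : 0 < β) {N : ℕ} {n : ℤ} (hN : (1 : ℝ) ≤ N) (hn : (1 : ℝ) ≤ n) :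
    0 ≤ zcw_W β N n ∧ zcw_W β N n ≤ β / N := by
  have hN0 : (0 : ℝ) < N := by linarith
  have hn0 : (0 : ℝ) < n := by linarith
  unfold zcw_W
  split_ifs with h
  · refine ⟨by positivity, ?_⟩
    rw [div_le_div_iff₀ hn0 hN0]
    linarith
  · exact ⟨le_rfl, by positivity⟩

theorem zcw_E_le (P : zcw_P α β δ τ h a0 m) {K N M p : ℕ} {n : ℤ} (T : zcw_T N M p n) :
    zcw_E β δ h a0 m K N M n ≤ β / N + m * (β / N + 4 * a0 * β / h / (N : ℝ) ^ 2) := by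
  have h1 := zcw_W_le P.hβ T.hN T.hn
  have h2 : 0 ≤ ∑ i ∈ Finset.range m, zcw_U β δ h a0 K N M i :=
    Finset.sum_nonneg fun i _ => zcw_U_nonneg P K N M i
  have h3 : ∑ i ∈ Finset.range m, zcw_U β δ h a0 K N M i ≤
      m * (β / N + 4 * a0 * β / h / (N : ℝ) ^ 2) := by
    have := Finset.sum_le_card_nsmul (Finset.range m) (fun i => zcw_U β δ h a0 K N M i)
      (β / N + 4 * a0 * β / h / (N : ℝ) ^ 2) (fun i _ => zcw_U_le P K M i T.hN)
    rw [Finset.card_range, nsmul_eq_mul] at this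
    exact this
  unfold zcw_E
  rw [abs_le]
  constructor <;> linarith [h1.1, h1.2]

theorem zcw_E_low (P : zcw_P α β δ τ h a0 m) {K N M p : ℕ} {n : ℤ} (T : zcw_T N M p n)
    (hL : (p : ℝ) ^ 2 ≤ τ / (2 * β) * (N : ℝ) ^ 2) (h1 : (n : ℝ) ≤ (1 / β - τ) * N) :
    zcw_E β δ h a0 m K N M n = 0 := by
  have hβ := P.hβ
  have hN : (0 : ℝ) < N := lt_of_lt_of_le one_pos T.hN
  unfold zcw_E
  rw [Finset.sum_eq_zero, zcw_W, if_neg, sub_zero, abs_zero]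
  · intro h2
    have h3 : β * (n : ℝ) ≤ β * ((1 / β - τ) * N) := mul_le_mul_of_nonneg_left h1 hβ.le
    have h4 : β * ((1 / β - τ) * N) = N - β * τ * N := by field_simp
    have : 0 < β * τ * N := by have := P.hτ; positivity
    linarith
  · intro i hi
    refine zcw_U_empty1 P K i (zcw_Q P T (zcw_x_ge P i)
      (zcw_x_le P (Finset.mem_range.1 hi).le) (h1.trans ?_) hL)
    have := zcw_x_ge P i
    nlinarith

theorem zcw_E_good (P : zcw_P α β δ τ h a0 m) {K N M p : ℕ} {n : ℤ} (T : zcw_T N M p n)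
    (hL : (p : ℝ) ^ 2 ≤ τ / (2 * β) * (N : ℝ) ^ 2) {j : ℕ} (hj : j < m)
    (h1 : zcw_x β δ j * N ≤ n) (h2 : (n : ℝ) ≤ (zcw_x β δ (j + 1) - τ) * N)
    (hK : (N : ℝ) ≤ a0 * 4 ^ K) :
    zcw_E β δ h a0 m K N M n ≤ δ * β ^ 2 / N + 4 * a0 * β / h / (N : ℝ) ^ 2 := by
  have hβ := P.hβ
  have hτ := P.hτ
  have hδ := P.hδ
  have hN : (0 : ℝ) < N := lt_of_lt_of_le one_pos T.hN
  have hn : (0 : ℝ) < n := lt_of_lt_of_le one_pos T.hn
  have hx := zcw_x_pos P j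
  have hQ := zcw_Q P T (zcw_x_ge P (j + 1)) (zcw_x_le P hj) h2 hL
  have h3 : ∑ i ∈ Finset.range m, zcw_U β δ h a0 K N M i = zcw_U β δ h a0 K N M j := by
    refine Finset.sum_eq_single j ?_ (fun h => absurd (Finset.mem_range.2 hj) h)
    intro i hi hij
    rcases lt_or_gt_of_ne hij with h4 | h4
    · refine zcw_U_empty2 P K i (zcw_low T (zcw_x_pos P (i + 1)) (le_trans ?_ h1))
      exact mul_le_mul_of_nonneg_right (zcw_x_mono P h4) hN.le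
    · refine zcw_U_empty1 P K i (hQ.trans ?_)
      have h5 := zcw_x_mono P (show j + 1 ≤ i from h4)
      have := zcw_x_pos P (j + 1)
      gcongr
  have h4 := zcw_U_full P K j T.hN (zcw_low T hx h1) hQ hK
  have hge : 1 / β * N ≤ n := le_trans (mul_le_mul_of_nonneg_right (zcw_x_ge P j) hN.le) h1
  have hNn : (N : ℝ) ≤ β * n := by
    have := mul_le_mul_of_nonneg_left hge hβ.le
    have h6 : β * (1 / β * N) = N := by field_simp
    linarith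
  have hW : zcw_W β N n = 1 / n := by
    unfold zcw_W
    rw [if_pos hNn]
  have h5 : |1 / (n : ℝ) - 1 / (zcw_x β δ j * N)| ≤ δ * β ^ 2 / N := by
    have h6 : 1 / (zcw_x β δ j * N) - 1 / (n : ℝ) =
        (n - zcw_x β δ j * N) * (1 / zcw_x β δ j) * (1 / n) / N := by
      field_simp
    have h7 : 0 ≤ n - zcw_x β δ j * N := by linarith
    have h8 : n - zcw_x β δ j * N ≤ δ * N := by
      have := zcw_x_succ (β := β) (δ := δ) j
      rw [this] at h2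
      nlinarith
    have h9 := zcw_x_inv P j
    have h10 : 1 / (n : ℝ) ≤ β / N := by
      rw [div_le_div_iff₀ hn hN]; linarith
    rw [abs_sub_comm, h6, abs_of_nonneg (by positivity)]
    have h11 : (n - zcw_x β δ j * N) * (1 / zcw_x β δ j) * (1 / n) ≤ (δ * N) * β * (β / N) := by
      gcongr
    calc _ ≤ (δ * N) * β * (β / N) / N := by gcongr
      _ = δ * β ^ 2 / N := by field_simp
  unfold zcw_E
  rw [h3, hW]
  have h6 : 1 / (n : ℝ) - zcw_U β δ h a0 K N M j = (1 / (n : ℝ) - 1 / (zcw_x β δ j * N)) -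
      (zcw_U β δ h a0 K N M j - 1 / (zcw_x β δ j * N)) := by ring
  rw [h6]
  exact (abs_sub _ _).trans (add_le_add h5 h4)

theorem zcw_T_of (hα : 0 < α) {β' : ℝ} {p k : ℕ} {t : G × G} (ht : t ∈ PW α β' p k) :
    zcw_T (nn t.1) (nn t.2) p (ip t.1 t.2) := by
  rw [mem_PW hα] at ht
  obtain ⟨h1, h2, h3, h4, h5, h6, h7, h8⟩ := ht
  refine ⟨?_, by exact_mod_cast h4, by exact_mod_cast nn_pos.2 (prm_ne h1)⟩
  have := ip_sq_add t.1 t.2
  rw [h3] at this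
  exact_mod_cast this

theorem zcw_E_big (P : zcw_P α β δ τ h a0 m) {K N M p : ℕ} {n : ℤ} (T : zcw_T N M p n)
    (hL3 : 4 * a0 * β / h / (N : ℝ) ^ 2 ≤ 1 / N) :
    zcw_E β δ h a0 m K N M n ≤ (β + m * (β + 1)) / N := by
  refine (zcw_E_le P T).trans ?_
  have : (m : ℝ) * (β / N + 4 * a0 * β / h / (N : ℝ) ^ 2) ≤ m * (β / N + 1 / N) := by
    gcongr
  have h2 : (β + m * (β + 1)) / N = β / N + m * (β / N + 1 / N) := by ring
  rw [h2]
  linarith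

theorem zcw_case (P : zcw_P α β δ τ h a0 m) {K N M p : ℕ} {n : ℤ} (T : zcw_T N M p n)
    (hL : (p : ℝ) ^ 2 ≤ τ / (2 * β) * (N : ℝ) ^ 2)
    (hL2 : 4 * a0 * β / h / (N : ℝ) ^ 2 ≤ δ * β ^ 2 / N)
    (hL3 : 4 * a0 * β / h / (N : ℝ) ^ 2 ≤ 1 / N) (hK : (N : ℝ) ≤ a0 * 4 ^ K)
    (hw : α * (n : ℝ) < N) :
    zcw_E β δ h a0 m K N M n ≤ 2 * (δ * β ^ 2) / N + ∑ j ∈ Finset.range (m + 1),
      if (zcw_x β δ j - τ) * N ≤ n ∧ (n : ℝ) < zcw_x β δ j * N then (β + m * (β + 1)) / N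
        else 0 := by
  have hα := P.hα
  have hβ := P.hβ
  have hδ := P.hδ
  have hN : (0 : ℝ) < N := lt_of_lt_of_le one_pos T.hN
  have hnn : ∀ j ∈ Finset.range (m + 1), 0 ≤ if (zcw_x β δ j - τ) * N ≤ n ∧
      (n : ℝ) < zcw_x β δ j * N then (β + m * (β + 1)) / N else 0 := by
    intro j _
    split_ifs
    · positivity
    · exact le_rfl
  have hsum0 := Finset.sum_nonneg hnn
  have hpos : 0 ≤ 2 * (δ * β ^ 2) / N := by positivity
  have hxm : (n : ℝ) < zcw_x β δ m * N := by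
    have h1 : zcw_x β δ m = 1 / α := P.hm
    rw [h1, div_mul_eq_mul_div, one_mul, lt_div_iff₀ hα]
    linarith
  have hex : ∃ j, (n : ℝ) < zcw_x β δ j * N := ⟨m, hxm⟩
  classical
  obtain ⟨j, hj, hmin⟩ : ∃ j, (n : ℝ) < zcw_x β δ j * N ∧ ∀ i < j, ¬ (n : ℝ) < zcw_x β δ i * N :=
    ⟨Nat.find hex, Nat.find_spec hex, fun i hi => Nat.find_min hex hi⟩
  have hjm : j ≤ m := by
    by_contra hc
    exact hmin m (by omega) hxm
  by_cases hbad : (zcw_x β δ j - τ) * N ≤ n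
  · have h1 : (β + m * (β + 1)) / N ≤ ∑ j ∈ Finset.range (m + 1),
      if (zcw_x β δ j - τ) * N ≤ n ∧ (n : ℝ) < zcw_x β δ j * N then (β + m * (β + 1)) / N
        else 0 := by
      have := Finset.single_le_sum hnn (Finset.mem_range.2 (Nat.lt_succ_of_le hjm))
      rwa [if_pos ⟨hbad, hj⟩] at this
    have := zcw_E_big (K := K) P T hL3
    linarith
  · have hb := not_le.1 hbad
    rcases Nat.eq_zero_or_pos j with rfl | hj0
    · rw [zcw_E_low P T hL]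
      · positivity
      · have : zcw_x β δ 0 = 1 / β := by simp [zcw_x]
        rw [this] at hb
        exact hb.le
    · obtain ⟨i, rfl⟩ : ∃ i, j = i + 1 := ⟨j - 1, by omega⟩
      have h1 := not_lt.1 (hmin i (by omega))
      have := zcw_E_good P T hL (show i < m by omega) h1 hb.le hK
      have h2 : 2 * (δ * β ^ 2) / (N : ℝ) = δ * β ^ 2 / N + δ * β ^ 2 / N := by ring
      rw [h2]
      linarith

theorem zcw_win_fin (D : ℤ) (hD : D ≠ 0) (ξ₁ ξ₂ Y : ℝ) :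
    {p : G × G | Prm p.1 ∧ det p.1 p.2 = D ∧ (nn p.1 : ℝ) ≤ Y ∧
      ξ₁ * (nn p.1 : ℝ) ≤ (ip p.1 p.2 : ℝ) ∧ (ip p.1 p.2 : ℝ) < ξ₂ * (nn p.1 : ℝ)}.Finite := by
  refine Set.Finite.subset ((Bl Y ×ˢ Bl (((|ξ₁| + |ξ₂|) * Y) ^ 2 + (D : ℝ) ^ 2)).finite_toSet) ?_
  rintro ⟨u, w⟩ ⟨h1, h2, h3, h4, h5⟩
  simp only at h1 h2 h3 h4 h5
  rw [Finset.mem_coe, Finset.mem_product, mem_Bl, mem_Bl]
  have hu := prm_ne h1
  have hn : (1 : ℝ) ≤ nn u := by exact_mod_cast nn_pos.2 hu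
  refine ⟨⟨hu, h3⟩, ?_, ?_⟩
  · rintro rfl
    apply hD
    rw [← h2]
    simp [det]
  · have h6 : (nn u : ℝ) * nn w = (ip u w : ℝ) ^ 2 + (D : ℝ) ^ 2 := by
      have := ip_sq_add u w
      rw [h2] at this
      exact_mod_cast this
    have h7 : |(ip u w : ℝ)| ≤ (|ξ₁| + |ξ₂|) * Y := by
      have ha := abs_nonneg ξ₁
      have hb := abs_nonneg ξ₂
      have hc := neg_abs_le ξ₁
      have hd := le_abs_self ξ₂
      have hY : 0 ≤ Y := by linarith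
      rw [abs_le]
      constructor
      · have e1 : -|ξ₁| * (nn u : ℝ) ≤ ξ₁ * nn u := by gcongr
        have e2 : |ξ₁| * (nn u : ℝ) ≤ |ξ₁| * Y := by gcongr
        nlinarith [mul_nonneg hb hY]
      · have e1 : ξ₂ * (nn u : ℝ) ≤ |ξ₂| * nn u := by gcongr
        have e2 : |ξ₂| * (nn u : ℝ) ≤ |ξ₂| * Y := by gcongr
        nlinarith [mul_nonneg ha hY]
    have h8 : (ip u w : ℝ) ^ 2 ≤ ((|ξ₁| + |ξ₂|) * Y) ^ 2 := by
      rw [← sq_abs (ip u w : ℝ)]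
      exact pow_le_pow_left₀ (abs_nonneg _) h7 2
    have h9 : (nn w : ℝ) ≤ nn u * nn w := by
      have : (0 : ℝ) ≤ nn w := Nat.cast_nonneg _
      nlinarith
    simp only
    linarith

/-- the window condition -/
theorem zcw_H (P : zcw_P α β δ τ h a0 m) {p : ℕ} {N₁ β' : ℝ} (h1 : 2 * β ≤ β') (h2 : N₁ ≤ β')
    (hL : ∀ N : ℝ, N₁ ≤ N → (p : ℝ) ^ 2 ≤ τ / (2 * β) * N ^ 2) (i : ℕ) (hi : i < m) (Y : ℝ)
    (hY : 0 < Y) (t : G × G) (hp1 : Prm t.1) (hdet : det t.1 t.2 = p)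
    (hip : 0 < ip t.1 t.2)
    (hc : zcw_c a0 (a0 * (1 + h)) (a0 * zcw_x β δ i ^ 2) (a0 * zcw_x β δ (i + 1) ^ 2) Y t) :
    α * (ip t.1 t.2 : ℝ) < (nn t.1 : ℝ) ∧ (nn t.1 : ℝ) ≤ β' * (ip t.1 t.2 : ℝ) := by
  have hα := P.hα
  have hβ := P.hβ
  have hT : zcw_T (nn t.1) (nn t.2) p (ip t.1 t.2) := by
    refine ⟨?_, by exact_mod_cast hip, by exact_mod_cast nn_pos.2 (prm_ne hp1)⟩
    have := ip_sq_add t.1 t.2
    rw [hdet] at this
    exact_mod_cast this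
  obtain ⟨c1, c2, c3, c4⟩ := hc
  have hN : (0 : ℝ) < nn t.1 := lt_of_lt_of_le one_pos hT.hN
  have hn : (1 : ℝ) ≤ ip t.1 t.2 := hT.hn
  constructor
  · by_contra hc
    have h3 : (nn t.1 : ℝ) ≤ α * ip t.1 t.2 := not_lt.1 hc
    have h4 : zcw_x β δ (i + 1) * (nn t.1 : ℝ) ≤ ip t.1 t.2 := by
      have h5 := zcw_x_le P hi
      have h6 : zcw_x β δ (i + 1) * (nn t.1 : ℝ) ≤ 1 / α * (α * ip t.1 t.2) := by gcongr
      have h7 : 1 / α * (α * (ip t.1 t.2 : ℝ)) = ip t.1 t.2 := by field_simp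
      linarith
    exact zcw_empty2 P (i + 1) (zcw_low hT (zcw_x_pos P (i + 1)) h4) c1 c4
  · rcases le_or_gt N₁ (nn t.1 : ℝ) with h3 | h3
    · by_contra hc
      have h4 := not_le.1 hc
      have h5 : 2 * β * (ip t.1 t.2 : ℝ) < nn t.1 := by nlinarith
      have h6 : (ip t.1 t.2 : ℝ) ≤ (zcw_x β δ i - τ) * nn t.1 := by
        have e1 := zcw_x_ge P i
        have e2 := P.hτ1
        have e3 : 1 / (2 * β) ≤ zcw_x β δ i - τ := by
          have : 1 / β = 1 / (2 * β) + 1 / (2 * β) := by field_simp; norm_num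
          linarith
        have e4 : (ip t.1 t.2 : ℝ) ≤ 1 / (2 * β) * nn t.1 := by
          rw [div_mul_eq_mul_div, one_mul, le_div_iff₀ (by positivity)]
          linarith
        exact e4.trans (mul_le_mul_of_nonneg_right e3 hN.le)
      exact zcw_empty1 P i hY (zcw_Q P hT (zcw_x_ge P i) (zcw_x_le P hi.le) h6 (hL _ h3)) c2 c3
    · nlinarith

theorem zcw_blocks (P : zcw_P α β δ τ h a0 m) (hαβ : α < 2 * β) {s : ℕ} (hs : a0 = 1 / 4 ^ s) {C Cw : ℝ}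
    (hC1 : 1 ≤ C) (hCw1 : 1 ≤ Cw)
    (hC : ∀ (D : ℤ) (ξ₁ ξ₂ : ℝ), D ≠ 0 → ξ₁ < ξ₂ → ∃ Y₀ : ℝ,
      ∀ Y : ℝ, Y₀ ≤ Y → (({p : G × G | Prm p.1 ∧ det p.1 p.2 = D ∧ (nn p.1 : ℝ) ≤ Y ∧
      ξ₁ * (nn p.1 : ℝ) ≤ (ip p.1 p.2 : ℝ) ∧ (ip p.1 p.2 : ℝ) < ξ₂ * (nn p.1 : ℝ)}.ncard : ℝ) ≤
        C * (ξ₂ - ξ₁) * Y))
    (hCw : ∀ D k : ℕ, 1 ≤ D → ((PW α (2 * β) D k).card : ℝ) ≤ Cw * 4 ^ k) (p : ℕ) (hp : 1 ≤ p) :
    ∃ (β' L : ℝ) (k₁ : ℕ), β ≤ β' ∧ 0 ≤ L ∧ (∀ i < m, ∀ Y : ℝ, 0 < Y → ∀ t : G × G, Prm t.1 →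
      Prm t.2 → det t.1 t.2 = p → 0 < ip t.1 t.2 →
      zcw_c a0 (a0 * (1 + h)) (a0 * zcw_x β δ i ^ 2) (a0 * zcw_x β δ (i + 1) ^ 2) Y t →
      α * (ip t.1 t.2 : ℝ) < (nn t.1 : ℝ) ∧ (nn t.1 : ℝ) ≤ β' * (ip t.1 t.2 : ℝ)) ∧
      ∀ K k : ℕ, k < K → ∑ t ∈ PW α β' p k, zcw_E β δ h a0 m K (nn t.1) (nn t.2) (ip t.1 t.2) ≤
        (2 * (δ * β ^ 2) * Cw + 4 * ((m : ℝ) + 1) * (β + m * (β + 1)) * C * τ) +
          (if k < k₁ then L else 0) + if K ≤ k + s then L else 0 := by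
  classical
  have hα := P.hα
  have hβ := P.hβ
  have hτ := P.hτ
  have hδ := P.hδ
  have hh := P.hh
  have ha := P.ha
  have hp0 : (p : ℤ) ≠ 0 := by exact_mod_cast (by omega : p ≠ 0)
  -- thresholds
  have hwin : ∀ j : ℕ, ∃ Y₀ : ℝ, ∀ Y : ℝ, Y₀ ≤ Y → (({q : G × G | Prm q.1 ∧
      det q.1 q.2 = (p : ℤ) ∧ (nn q.1 : ℝ) ≤ Y ∧
      (zcw_x β δ j - τ) * (nn q.1 : ℝ) ≤ (ip q.1 q.2 : ℝ) ∧
      (ip q.1 q.2 : ℝ) < zcw_x β δ j * (nn q.1 : ℝ)}.ncard : ℝ) ≤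
        C * (zcw_x β δ j - (zcw_x β δ j - τ)) * Y) :=
    fun j => hC p _ _ hp0 (by linarith)
  choose Y₀ hY₀ using hwin
  set κ : ℝ := 4 * a0 * β / h with hκ
  have hκ0 : 0 < κ := by positivity
  set N₁ : ℝ := 1 + (p : ℝ) ^ 2 * (2 * β / τ) + κ + κ / (δ * β ^ 2) with hN₁
  have hq1 : 0 ≤ (p : ℝ) ^ 2 * (2 * β / τ) := by positivity
  have hq2 : 0 ≤ κ / (δ * β ^ 2) := by positivity
  have hN₁1 : 1 ≤ N₁ := by rw [hN₁]; linarith
  have hL1 : ∀ N : ℝ, N₁ ≤ N → (p : ℝ) ^ 2 ≤ τ / (2 * β) * N ^ 2 := by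
    intro N hN
    have h1 : (p : ℝ) ^ 2 * (2 * β / τ) ≤ N ^ 2 := by
      have : N ≤ N ^ 2 := by nlinarith
      linarith
    calc (p : ℝ) ^ 2 = τ / (2 * β) * ((p : ℝ) ^ 2 * (2 * β / τ)) := by field_simp
      _ ≤ _ := by gcongr
  have hL2 : ∀ N : ℝ, N₁ ≤ N → κ / N ^ 2 ≤ δ * β ^ 2 / N := by
    intro N hN
    have hN0 : 0 < N := by linarith
    rw [div_le_div_iff₀ (by positivity) hN0]
    have h1 : κ / (δ * β ^ 2) ≤ N := by linarith
    rw [div_le_iff₀ (by positivity)] at h1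
    nlinarith
  have hL3 : ∀ N : ℝ, N₁ ≤ N → κ / N ^ 2 ≤ 1 / N := by
    intro N hN
    have hN0 : 0 < N := by linarith
    rw [div_le_div_iff₀ (by positivity) hN0]
    have h1 : κ ≤ N := by linarith
    nlinarith
  obtain ⟨k₁, hk₁⟩ := pow_unbounded_of_one_lt (N₁ + ∑ j ∈ Finset.range (m + 1), |Y₀ j|)
    (by norm_num : (1 : ℝ) < 4)
  have hk₁N : N₁ ≤ 4 ^ k₁ := by
    have : 0 ≤ ∑ j ∈ Finset.range (m + 1), |Y₀ j| := Finset.sum_nonneg fun _ _ => abs_nonneg _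
    linarith
  have hk₁Y : ∀ j ∈ Finset.range (m + 1), Y₀ j ≤ 4 ^ k₁ := by
    intro j hj
    have e1 : |Y₀ j| ≤ ∑ j ∈ Finset.range (m + 1), |Y₀ j| :=
      Finset.single_le_sum (f := fun j => |Y₀ j|) (fun _ _ => abs_nonneg _) hj
    have e2 := le_abs_self (Y₀ j)
    linarith
  set β' : ℝ := max (2 * β) N₁ with hβ'
  have hb1 : 2 * β ≤ β' := le_max_left _ _
  have hb2 : N₁ ≤ β' := le_max_right _ _
  obtain ⟨C₅, hC₅1, hC₅⟩ := bd_triv α β' hα (by linarith)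
  set C₃ : ℝ := β + m * (β + 1) with hC₃
  have hC₃0 : 0 < C₃ := by positivity
  have hE0 : ∀ (K : ℕ) (t : G × G), 0 ≤ zcw_E β δ h a0 m K (nn t.1) (nn t.2) (ip t.1 t.2) :=
    fun K t => abs_nonneg _
  have hη0 : 0 ≤ 2 * (δ * β ^ 2) * Cw + 4 * ((m : ℝ) + 1) * C₃ * C * τ := by
    have : 0 ≤ C := by linarith
    have : 0 ≤ Cw := by linarith
    positivity
  refine ⟨β', C₅ * 4 ^ k₁ * (β + m * (β + κ)) + Cw * C₃, k₁, by linarith, by positivity, ?_, ?_⟩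
  · intro i hi Y hY t h1 _ h3 h4 h5
    exact zcw_H P hb1 hb2 hL1 i hi Y hY t h1 h3 h4 h5
  intro K k hkK
  have hL : 0 ≤ C₅ * 4 ^ k₁ * (β + m * (β + κ)) + Cw * C₃ := by positivity
  have hL' : 0 ≤ Cw * C₃ := by positivity
  have hL'' : 0 ≤ C₅ * 4 ^ k₁ * (β + m * (β + κ)) := by positivity
  by_cases hk : k < k₁
  · -- small scales
    have h1 : ∑ t ∈ PW α β' p k, zcw_E β δ h a0 m K (nn t.1) (nn t.2) (ip t.1 t.2) ≤
        C₅ * 4 ^ k₁ * (β + m * (β + κ)) := by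
      have h2 := Finset.sum_le_card_nsmul (PW α β' p k)
        (fun t => zcw_E β δ h a0 m K (nn t.1) (nn t.2) (ip t.1 t.2)) (β + m * (β + κ)) (by
          intro t ht
          have T := zcw_T_of hα ht
          refine (zcw_E_le P T).trans ?_
          have hN := T.hN
          have e1 : β / (nn t.1 : ℝ) ≤ β := div_le_self hβ.le hN
          have e2 : κ / (nn t.1 : ℝ) ^ 2 ≤ κ := div_le_self hκ0.le (one_le_pow₀ hN)
          gcongr)
      rw [nsmul_eq_mul] at h2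
      refine h2.trans (mul_le_mul_of_nonneg_right ((hC₅ p k hp).1.trans ?_) (by positivity))
      have : (4 : ℝ) ^ k ≤ 4 ^ k₁ := pow_le_pow_right₀ (by norm_num) hk.le
      gcongr
    rw [if_pos hk]
    have : 0 ≤ (if K ≤ k + s then C₅ * 4 ^ k₁ * (β + m * (β + κ)) + Cw * C₃ else 0) := by
      split_ifs
      · exact hL
      · exact le_rfl
    linarith
  · rw [if_neg hk, add_zero]
    have hkk := not_lt.1 hk
    have hpow : (4 : ℝ) ^ k₁ ≤ 4 ^ k := pow_le_pow_right₀ (by norm_num) hkk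
    have hNk : ∀ {b : ℝ} {t : G × G}, t ∈ PW α b p k → N₁ ≤ (nn t.1 : ℝ) ∧
        (4 : ℝ) ^ k ≤ nn t.1 ∧ (nn t.1 : ℝ) < 4 ^ (k + 1) ∧ α * (ip t.1 t.2 : ℝ) < (nn t.1 : ℝ) := by
      intro b t ht
      rw [mem_PW hα] at ht
      obtain ⟨h1, h2, h3, h4, h5, h6, h7, h8⟩ := ht
      have h5' : (4 : ℝ) ^ k ≤ nn t.1 := by exact_mod_cast h5
      have h6' : (nn t.1 : ℝ) < 4 ^ (k + 1) := by exact_mod_cast h6
      exact ⟨by linarith, h5', h6', h7⟩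
    -- reduction to the narrow window
    have hsub : PW α (2 * β) p k ⊆ PW α β' p k := by
      intro t ht
      rw [mem_PW hα] at ht ⊢
      obtain ⟨h1, h2, h3, h4, h5, h6, h7, h8⟩ := ht
      refine ⟨h1, h2, h3, h4, h5, h6, h7, h8.trans ?_⟩
      have : (0 : ℝ) < ip t.1 t.2 := by exact_mod_cast h4
      nlinarith
    have hred : ∑ t ∈ PW α β' p k, zcw_E β δ h a0 m K (nn t.1) (nn t.2) (ip t.1 t.2) =
        ∑ t ∈ PW α (2 * β) p k, zcw_E β δ h a0 m K (nn t.1) (nn t.2) (ip t.1 t.2) := by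
      symm
      refine Finset.sum_subset hsub fun t ht hn => ?_
      have T := zcw_T_of hα ht
      have hN := hNk ht
      refine zcw_E_low P T (hL1 _ hN.1) ?_
      have h1 : 2 * β * (ip t.1 t.2 : ℝ) < nn t.1 := by
        by_contra hc
        apply hn
        rw [mem_PW hα] at ht ⊢
        obtain ⟨h1, h2, h3, h4, h5, h6, h7, h8⟩ := ht
        exact ⟨h1, h2, h3, h4, h5, h6, h7, not_lt.1 hc⟩
      have e3 : 1 / (2 * β) ≤ 1 / β - τ := by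
        have := P.hτ1
        have : 1 / β = 1 / (2 * β) + 1 / (2 * β) := by field_simp; norm_num
        linarith
      have e4 : (ip t.1 t.2 : ℝ) ≤ 1 / (2 * β) * nn t.1 := by
        rw [div_mul_eq_mul_div, one_mul, le_div_iff₀ (by positivity)]
        linarith
      exact e4.trans (mul_le_mul_of_nonneg_right e3 (by linarith [T.hN]))
    rw [hred]
    have h4k : (0 : ℝ) < 4 ^ k := by positivity
    by_cases hs' : K ≤ k + s
    · rw [if_pos hs']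
      have h1 : ∑ t ∈ PW α (2 * β) p k, zcw_E β δ h a0 m K (nn t.1) (nn t.2) (ip t.1 t.2) ≤
          Cw * C₃ := by
        have h2 := Finset.sum_le_card_nsmul (PW α (2 * β) p k)
          (fun t => zcw_E β δ h a0 m K (nn t.1) (nn t.2) (ip t.1 t.2)) (C₃ / 4 ^ k) (by
            intro t ht
            have T := zcw_T_of hα ht
            have hN := hNk ht
            refine (zcw_E_big P T (hL3 _ hN.1)).trans ?_
            have := hN.2.1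
            gcongr)
        rw [nsmul_eq_mul] at h2
        refine h2.trans ((mul_le_mul_of_nonneg_right (hCw p k hp) (by positivity)).trans ?_)
        rw [mul_assoc, mul_div_cancel₀ _ h4k.ne']
      linarith
    · rw [if_neg hs', add_zero]
      have hKs := not_le.1 hs'
      have h1 : ∀ t ∈ PW α (2 * β) p k, zcw_E β δ h a0 m K (nn t.1) (nn t.2) (ip t.1 t.2) ≤
          2 * (δ * β ^ 2) / 4 ^ k + ∑ j ∈ Finset.range (m + 1),
            if (zcw_x β δ j - τ) * nn t.1 ≤ ip t.1 t.2 ∧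
              (ip t.1 t.2 : ℝ) < zcw_x β δ j * nn t.1 then C₃ / 4 ^ k else 0 := by
        intro t ht
        have T := zcw_T_of hα ht
        have hN := hNk ht
        have hK : (nn t.1 : ℝ) ≤ a0 * 4 ^ K := by
          have e1 : (4 : ℝ) ^ (k + 1 + s) ≤ 4 ^ K := pow_le_pow_right₀ (by norm_num) (by omega)
          have e2 : a0 * (4 : ℝ) ^ (k + 1 + s) = 4 ^ (k + 1) := by
            rw [hs, pow_add]; field_simp
          have e3 : a0 * (4 : ℝ) ^ (k + 1 + s) ≤ a0 * 4 ^ K := by gcongr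
          linarith [hN.2.2.1]
        refine (zcw_case P T (hL1 _ hN.1) (hL2 _ hN.1) (hL3 _ hN.1) hK hN.2.2.2).trans ?_
        have h5 := hN.2.1
        refine add_le_add (by gcongr) (Finset.sum_le_sum fun j _ => ?_)
        split_ifs
        · gcongr
        · exact le_rfl
      refine (Finset.sum_le_sum h1).trans ?_
      rw [Finset.sum_add_distrib, Finset.sum_const, nsmul_eq_mul, Finset.sum_comm]
      have h2 : ((PW α (2 * β) p k).card : ℝ) * (2 * (δ * β ^ 2) / 4 ^ k) ≤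
          2 * (δ * β ^ 2) * Cw := by
        refine (mul_le_mul_of_nonneg_right (hCw p k hp) (by positivity)).trans (le_of_eq ?_)
        field_simp
      have h3 : ∀ j ∈ Finset.range (m + 1), (∑ t ∈ PW α (2 * β) p k,
          if (zcw_x β δ j - τ) * nn t.1 ≤ ip t.1 t.2 ∧
            (ip t.1 t.2 : ℝ) < zcw_x β δ j * nn t.1 then C₃ / 4 ^ k else 0) ≤
          4 * C₃ * C * τ := by
        intro j hj
        rw [← Finset.sum_filter, Finset.sum_const, nsmul_eq_mul]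
        have h4 : (((PW α (2 * β) p k).filter (fun t : G × G =>
            (zcw_x β δ j - τ) * (nn t.1 : ℝ) ≤ (ip t.1 t.2 : ℝ) ∧
            (ip t.1 t.2 : ℝ) < zcw_x β δ j * (nn t.1 : ℝ))).card : ℝ) ≤
            C * τ * 4 ^ (k + 1) := by
          have h5 := hY₀ j (4 ^ (k + 1)) ((hk₁Y j hj).trans (hpow.trans
            (pow_le_pow_right₀ (by norm_num) (by omega))))
          rw [sub_sub_cancel] at h5
          refine le_trans ?_ h5
          rw [← Set.ncard_coe_finset]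
          have h6 := Set.ncard_le_ncard (s := (((PW α (2 * β) p k).filter (fun t : G × G =>
            (zcw_x β δ j - τ) * (nn t.1 : ℝ) ≤ (ip t.1 t.2 : ℝ) ∧
            (ip t.1 t.2 : ℝ) < zcw_x β δ j * (nn t.1 : ℝ)) : Finset (G × G)) : Set (G × G)))
            (t := {q : G × G | Prm q.1 ∧
            det q.1 q.2 = (p : ℤ) ∧ (nn q.1 : ℝ) ≤ 4 ^ (k + 1) ∧
            (zcw_x β δ j - τ) * (nn q.1 : ℝ) ≤ (ip q.1 q.2 : ℝ) ∧
            (ip q.1 q.2 : ℝ) < zcw_x β δ j * (nn q.1 : ℝ)}) (by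
              intro t ht
              rw [Finset.mem_coe, Finset.mem_filter] at ht
              have hN := hNk ht.1
              have ht1 := (mem_PW hα).1 ht.1
              exact ⟨ht1.1, ht1.2.2.1, hN.2.2.1.le, ht.2.1, ht.2.2⟩)
            (zcw_win_fin p hp0 _ _ _)
          exact_mod_cast h6
        refine (mul_le_mul_of_nonneg_right h4 (by positivity)).trans (le_of_eq ?_)
        rw [pow_succ]
        field_simp
      have h4 := Finset.sum_le_sum h3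
      rw [Finset.sum_const, Finset.card_range, nsmul_eq_mul] at h4
      push_cast at h4
      have h5 : 4 * ((m : ℝ) + 1) * C₃ * C * τ = (m + 1) * (4 * C₃ * C * τ) := by ring
      rw [h5]
      exact add_le_add h2 h4

theorem zcw_main (P : zcw_P α β δ τ h a0 m) (hαβ : α < 2 * β) {s : ℕ} (hs : a0 = 1 / 4 ^ s) {C Cw : ℝ}
    (hC1 : 1 ≤ C) (hCw1 : 1 ≤ Cw)
    (hC : ∀ (D : ℤ) (ξ₁ ξ₂ : ℝ), D ≠ 0 → ξ₁ < ξ₂ → ∃ Y₀ : ℝ,
      ∀ Y : ℝ, Y₀ ≤ Y → (({p : G × G | Prm p.1 ∧ det p.1 p.2 = D ∧ (nn p.1 : ℝ) ≤ Y ∧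
      ξ₁ * (nn p.1 : ℝ) ≤ (ip p.1 p.2 : ℝ) ∧ (ip p.1 p.2 : ℝ) < ξ₂ * (nn p.1 : ℝ)}.ncard : ℝ) ≤
        C * (ξ₂ - ξ₁) * Y))
    (hCw : ∀ D k : ℕ, 1 ≤ D → ((PW α (2 * β) D k).card : ℝ) ≤ Cw * 4 ^ k) {ε : ℝ}
    (hε : 2 * (δ * β ^ 2) * Cw + 4 * ((m : ℝ) + 1) * (β + m * (β + 1)) * C * τ < ε)
    (p : ℕ) (hp : 1 ≤ p) :
    ∀ᶠ K : ℕ in atTop, |∑ k ∈ Finset.range K, BD α β p k -
      ∑ i : Fin m, 1 / (a0 * h * zcw_x β δ i) * ∑ Y ∈ Finset.Icc 1 (4 ^ K : ℕ),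
        BQ a0 (a0 * (1 + h)) (a0 * zcw_x β δ i ^ 2) (a0 * zcw_x β δ (i + 1) ^ 2) {p} Y /
          (Y : ℝ) ^ 2| ≤ ε * K := by
  obtain ⟨β', G, k₁, hβ', hG, hH, hb⟩ := zcw_blocks P hαβ hs hC1 hCw1 hC hCw p hp
  set η := 2 * (δ * β ^ 2) * Cw + 4 * ((m : ℝ) + 1) * (β + m * (β + 1)) * C * τ with hη
  have hα := P.hα
  have ha := P.ha
  have hlim : ∀ᶠ K : ℕ in atTop, (k₁ * G + s * G) / (ε - η) ≤ (K : ℝ) :=
    tendsto_natCast_atTop_atTop.eventually_ge_atTop _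
  filter_upwards [hlim] with K hK
  rw [div_le_iff₀ (by linarith)] at hK
  have hb1 : a0 * (1 + h) < 1 := by
    have := P.ha1; have := P.hh1; nlinarith
  have hb2 : ∀ i : Fin m, a0 * zcw_x β δ ((i : ℕ) + 1) ^ 2 ≤ 1 := by
    intro i
    have h1 := zcw_x_le P (show (i : ℕ) + 1 ≤ m from i.2)
    have h2 := zcw_x_pos P ((i : ℕ) + 1)
    calc a0 * zcw_x β δ ((i : ℕ) + 1) ^ 2 ≤ α ^ 2 * (1 / α) ^ 2 := by
          have := P.ha2
          gcongr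
      _ = 1 := by field_simp
  refine (zcw_dec hα hβ' _ (fun _ => a0) (fun _ => a0 * (1 + h))
    (fun i => a0 * zcw_x β δ i ^ 2) (fun i => a0 * zcw_x β δ (i + 1) ^ 2)
    (fun _ => hb1) hb2 p K (fun i Y hY t h1 h2 h3 h4 h5 => hH i i.2 Y hY t h1 h2 h3 h4 h5)).trans ?_
  have h1 : ∀ k ∈ Finset.range K, ∑ t ∈ PW α β' p k, |zcw_W β (nn t.1) (ip t.1 t.2) -
      ∑ i : Fin m, 1 / (a0 * h * zcw_x β δ i) * zcw_V a0 (a0 * (1 + h)) (a0 * zcw_x β δ i ^ 2)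
        (a0 * zcw_x β δ (i + 1) ^ 2) K (nn t.1) (nn t.2)| ≤ η +
          (if k < k₁ then G else 0) + if K ≤ k + s then G else 0 := by
    intro k hk
    have h2 := hb K k (Finset.mem_range.1 hk)
    refine le_of_eq_of_le (Finset.sum_congr rfl fun t _ => ?_) h2
    unfold zcw_E
    rw [← Fin.sum_univ_eq_sum_range]
    rfl
  refine (Finset.sum_le_sum h1).trans ?_
  rw [Finset.sum_add_distrib, Finset.sum_add_distrib, Finset.sum_const, Finset.card_range,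
    nsmul_eq_mul, ← Finset.sum_filter, ← Finset.sum_filter, Finset.sum_const, Finset.sum_const,
    nsmul_eq_mul, nsmul_eq_mul]
  have c1 : (((Finset.range K).filter (fun k => k < k₁)).card : ℝ) ≤ k₁ := by
    have : ((Finset.range K).filter (fun k => k < k₁)).card ≤ (Finset.range k₁).card :=
      Finset.card_le_card fun k hk => Finset.mem_range.2 (Finset.mem_filter.1 hk).2
    rw [Finset.card_range] at this
    exact_mod_cast this
  have c2 : (((Finset.range K).filter (fun k => K ≤ k + s)).card : ℝ) ≤ s := by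
    have : ((Finset.range K).filter (fun k => K ≤ k + s)).card ≤ (Finset.Ico (K - s) K).card :=
      Finset.card_le_card fun k hk => by
        rw [Finset.mem_filter, Finset.mem_range] at hk
        rw [Finset.mem_Ico]
        omega
    rw [Nat.card_Ico] at this
    have : ((Finset.range K).filter (fun k => K ≤ k + s)).card ≤ s := by omega
    exact_mod_cast this
  have d1 := mul_le_mul_of_nonneg_right c1 hG
  have d2 := mul_le_mul_of_nonneg_right c2 hG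
  nlinarith

theorem cell_sum_pr (α β ε : ℝ) (hα : 0 < α) (hβ : α < β) (hε : 0 < ε) :
    ∃ (m : ℕ) (c a b a' b' : Fin m → ℝ), (∀ i, 0 ≤ c i ∧ 0 < a i ∧ a i < b i ∧ b i ≤ 1 ∧
      0 < a' i ∧ a' i < b' i ∧ b' i ≤ 1) ∧ ∀ B : Finset ℕ, Pset B → ∃ K₀ : ℕ, ∀ K : ℕ, K₀ ≤ K →
      |∑ p ∈ B, ∑ k ∈ Finset.range K, BD α β p k - ∑ i, c i * ∑ Y ∈ Finset.Icc 1 (4 ^ K : ℕ),
        BQ (a i) (b i) (a' i) (b' i) B Y / (Y : ℝ) ^ 2| ≤ ε * (B.card : ℝ) * K := by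
  have hβ0 : 0 < β := hα.trans hβ
  have hαβ : α < 2 * β := by linarith
  obtain ⟨C, hC1, hC⟩ := win_count
  obtain ⟨Cw, hCw1, hCw'⟩ := bd_triv α (2 * β) hα hαβ
  have hCw : ∀ D k : ℕ, 1 ≤ D → ((PW α (2 * β) D k).card : ℝ) ≤ Cw * 4 ^ k :=
    fun D k hD => (hCw' D k hD).1
  -- the number of cells
  obtain ⟨m, hm⟩ := exists_nat_gt (8 * (1 / α - 1 / β) * β ^ 2 * Cw / ε)
  have hd0 : 0 < 1 / α - 1 / β := by
    have := one_div_lt_one_div_of_lt hα hβ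
    linarith
  have hm0 : (0 : ℝ) < m := lt_of_le_of_lt (by positivity) hm
  set δ : ℝ := (1 / α - 1 / β) / m with hδ
  have hδ0 : 0 < δ := by positivity
  have hδ1 : 2 * (δ * β ^ 2) * Cw < ε / 4 := by
    rw [div_lt_iff₀ hε] at hm
    have : 2 * (δ * β ^ 2) * Cw = 8 * (1 / α - 1 / β) * β ^ 2 * Cw / m / 4 := by
      rw [hδ]; ring
    rw [this]
    have : 8 * (1 / α - 1 / β) * β ^ 2 * Cw / m < ε := by
      rw [div_lt_iff₀ hm0]; linarith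
    linarith
  -- the width of the bad windows
  set C₃ : ℝ := β + m * (β + 1) with hC₃
  have hC₃0 : 0 < C₃ := by positivity
  set τ : ℝ := min (1 / (2 * β)) (ε / (16 * ((m : ℝ) + 1) * C₃ * C)) with hτ
  have hτ0 : 0 < τ := by
    rw [hτ]
    have : 0 < C := by linarith
    positivity
  have hτ1 : τ ≤ 1 / (2 * β) := min_le_left _ _
  have hτ2 : 4 * ((m : ℝ) + 1) * C₃ * C * τ ≤ ε / 4 := by
    have h1 : τ ≤ ε / (16 * ((m : ℝ) + 1) * C₃ * C) := min_le_right _ _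
    have hC0 : 0 < C := by linarith
    rw [le_div_iff₀ (by positivity)] at h1
    linarith
  set h : ℝ := min 1 (α * τ / 2) with hh
  have hh0 : 0 < h := by rw [hh]; positivity
  obtain ⟨s, hs⟩ : ∃ s : ℕ, 1 / (4 : ℝ) ^ s < min (1 / 4) (α ^ 2) := by
    obtain ⟨s, hs⟩ := exists_pow_lt_of_lt_one (show 0 < min (1 / 4) (α ^ 2) by positivity)
      (show (1 / 4 : ℝ) < 1 by norm_num)
    exact ⟨s, by rwa [div_pow, one_pow] at hs⟩
  set a0 : ℝ := 1 / 4 ^ s with ha0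
  have ha : 0 < a0 := by positivity
  have P : zcw_P α β δ τ h a0 m :=
    { hα := hα
      hβ := hβ0
      hδ := hδ0
      hτ := hτ0
      hh := hh0
      ha := ha
      hm := by rw [hδ]; field_simp; ring
      hτ1 := hτ1
      hh1 := min_le_left _ _
      hh2 := min_le_right _ _
      ha1 := hs.le.trans (min_le_left _ _)
      ha2 := hs.le.trans (min_le_right _ _) }
  refine ⟨m, fun i => 1 / (a0 * h * zcw_x β δ i), fun _ => a0, fun _ => a0 * (1 + h),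
    fun i => a0 * zcw_x β δ i ^ 2, fun i => a0 * zcw_x β δ (i + 1) ^ 2, ?_, ?_⟩
  · intro i
    have h1 := zcw_x_pos P i
    have h2 := zcw_x_pos P ((i : ℕ) + 1)
    have h3 := zcw_x_le P (show (i : ℕ) + 1 ≤ m from i.2)
    refine ⟨by positivity, ha, by nlinarith, ?_, by positivity, ?_, ?_⟩
    · have := P.ha1; have := P.hh1; nlinarith
    · have h5 : zcw_x β δ i < zcw_x β δ ((i : ℕ) + 1) := by rw [zcw_x_succ]; linarith
      have h6 : zcw_x β δ i ^ 2 < zcw_x β δ ((i : ℕ) + 1) ^ 2 := by nlinarith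
      exact mul_lt_mul_of_pos_left h6 ha
    · calc a0 * zcw_x β δ ((i : ℕ) + 1) ^ 2 ≤ α ^ 2 * (1 / α) ^ 2 := by
            have := P.ha2
            gcongr
        _ = 1 := by field_simp
  · intro B hB
    have hev : ∀ᶠ K : ℕ in atTop, ∀ p ∈ B, |∑ k ∈ Finset.range K, BD α β p k -
      ∑ i : Fin m, 1 / (a0 * h * zcw_x β δ i) * ∑ Y ∈ Finset.Icc 1 (4 ^ K : ℕ),
        BQ a0 (a0 * (1 + h)) (a0 * zcw_x β δ i ^ 2) (a0 * zcw_x β δ (i + 1) ^ 2) {p} Y /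
          (Y : ℝ) ^ 2| ≤ ε * K := by
      rw [Filter.eventually_all_finset]
      intro p hp
      exact zcw_main P hαβ ha0 hC1 hCw1 hC hCw (by linarith) p (hB p hp).1.one_lt.le
    obtain ⟨K₀, hK₀⟩ := Filter.eventually_atTop.1 hev
    refine ⟨K₀, fun K hK => ?_⟩
    have h1 : ∑ p ∈ B, ∑ k ∈ Finset.range K, BD α β p k -
        ∑ i : Fin m, 1 / (a0 * h * zcw_x β δ i) * ∑ Y ∈ Finset.Icc 1 (4 ^ K : ℕ),
        BQ a0 (a0 * (1 + h)) (a0 * zcw_x β δ i ^ 2) (a0 * zcw_x β δ (i + 1) ^ 2) B Y /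
          (Y : ℝ) ^ 2 = ∑ p ∈ B, (∑ k ∈ Finset.range K, BD α β p k -
        ∑ i : Fin m, 1 / (a0 * h * zcw_x β δ i) * ∑ Y ∈ Finset.Icc 1 (4 ^ K : ℕ),
        BQ a0 (a0 * (1 + h)) (a0 * zcw_x β δ i ^ 2) (a0 * zcw_x β δ (i + 1) ^ 2) {p} Y /
          (Y : ℝ) ^ 2) := by
      rw [Finset.sum_sub_distrib]
      congr 1
      rw [Finset.sum_comm]
      refine Finset.sum_congr rfl fun i _ => ?_
      rw [← Finset.mul_sum, Finset.sum_comm]
      congr 1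
      refine Finset.sum_congr rfl fun Y _ => ?_
      rw [zcw_BQ_sum, Finset.sum_div]
    show |∑ p ∈ B, ∑ k ∈ Finset.range K, BD α β p k -
        ∑ i : Fin m, 1 / (a0 * h * zcw_x β δ i) * ∑ Y ∈ Finset.Icc 1 (4 ^ K : ℕ),
        BQ a0 (a0 * (1 + h)) (a0 * zcw_x β δ i ^ 2) (a0 * zcw_x β δ (i + 1) ^ 2) B Y /
          (Y : ℝ) ^ 2| ≤ _
    rw [h1]
    refine (Finset.abs_sum_le_sum_abs _ _).trans ?_
    refine (Finset.sum_le_sum fun p hp => hK₀ K hK p hp).trans ?_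
    rw [Finset.sum_const, nsmul_eq_mul]
    linarith

end Pool.Agent.T2


namespace Pool.Agent.T2

theorem cell_sum : type_of% @cell_sum_pr := @cell_sum_pr

end Pool.Agent.T2
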