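import Pool.Agent.Lib_helper10.T2.DefsZ
import Pool.Agent.Lib_helper10.T2F.BFI
import Pool.Agent.Lib_helper10.T2F.BPR
import Pool.Agent.Lib_helper10.T2F.ZCW
import Pool.Agent.Lib_helper10.T2F.ZWC

/-! T2, package 0, block ZBI: the correlation sums for large primes are small on average -/

namespace Pool.Agent.T2

open Filter Topology

open Classical in
theorem zbi_QP (η : ℝ) (hη : 0 ≤ η) (n : ℕ) : QP η n =
    (Finset.Ioc n ⌊(1 + η) * n⌋₊).filter (fun p => p.Prime ∧ p % 4 = 1) := by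
  have h0 : (0 : ℝ) ≤ (1 + η) * n := by positivity
  ext p
  unfold QP pr1
  simp only [Finset.mem_filter, Finset.mem_range, Finset.mem_Ioc]
  constructor
  · rintro ⟨h1, h2, h3, h4, h5⟩
    exact ⟨⟨by exact_mod_cast h4, by omega⟩, h2, h3⟩
  · rintro ⟨⟨h4, h1⟩, h2, h3⟩
    refine ⟨by omega, h2, h3, by exact_mod_cast h4, ?_⟩
    exact (Nat.le_floor_iff h0).1 h1

theorem zbi_PP (P : ℕ) : QP 1 P = PP P := by
  classical
  rw [zbi_QP 1 (by norm_num) P]
  unfold PP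
  have : ⌊(1 + 1 : ℝ) * P⌋₊ = 2 * P := by
    have h : (1 + 1 : ℝ) * P = ((2 * P : ℕ) : ℝ) := by push_cast; ring
    rw [h, Nat.floor_natCast]
  rw [this]

theorem zbi_Pset (η : ℝ) (hη : 0 ≤ η) (n : ℕ) : Pset (QP η n) := by
  classical
  intro p hp
  rw [zbi_QP η hη n, Finset.mem_filter] at hp
  exact hp.2

theorem zbi_min {m : ℕ} (f : Fin m → ℝ) (hf : ∀ i, 0 < f i) : ∃ δ : ℝ, 0 < δ ∧ ∀ i, δ ≤ f i := by
  rcases Nat.eq_zero_or_pos m with rfl | hm
  · exact ⟨1, one_pos, fun i => i.elim0⟩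
  · haveI : Nonempty (Fin m) := ⟨⟨0, hm⟩⟩
    obtain ⟨i₀, hi₀⟩ := Finite.exists_min f
    exact ⟨f i₀, hf i₀, hi₀⟩

theorem zbi_piece (α β ε : ℝ) (hα : 0 < α) (hβ : α < β) (hε : 0 < ε) : ∃ η₀ : ℝ, 0 < η₀ ∧
    ∀ η : ℝ, 0 < η → η ≤ η₀ → ∃ N₀ : ℕ, ∀ n : ℕ, N₀ ≤ n → ∃ K₁ : ℕ, ∀ K : ℕ, K₁ ≤ K →
      |∑ p ∈ QP η n, ∑ k ∈ Finset.range K, BD α β p k| ≤ ε / 2 * ((QP η n).card : ℝ) * K := by
  obtain ⟨m, c, a, b, a', b', hprop, hcell⟩ := cell_sum α β (ε / 4) hα hβ (by positivity)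
  have hεi : ∀ i : Fin m, 0 < ε / (8 * (m + 1) * (c i + 1)) := by
    intro i
    have := (hprop i).1
    positivity
  have hbil : ∀ i : Fin m, ∃ η₀ : ℝ, 0 < η₀ ∧ ∀ η : ℝ, 0 < η → η ≤ η₀ →
      ∃ P₀ : ℕ, ∀ P : ℕ, P₀ ≤ P → ∃ X₀ : ℝ, ∀ X : ℝ, X₀ ≤ X →
      ∑ Y ∈ Finset.Icc 1 ⌊X⌋₊, |BQ (a i) (b i) (a' i) (b' i) (QP η P) Y| / (Y : ℝ) ^ 2 ≤
        ε / (8 * (m + 1) * (c i + 1)) * ((QP η P).card : ℝ) * Real.log X := fun i =>
    bilinear (a i) (b i) (a' i) (b' i) _ (hprop i).2.1 (hprop i).2.2.1 (hprop i).2.2.2.1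
      (hprop i).2.2.2.2.1 (hprop i).2.2.2.2.2.1 (hprop i).2.2.2.2.2.2 (hεi i)
  choose f hf0 hf using hbil
  obtain ⟨δ, hδ, hδf⟩ := zbi_min f hf0
  refine ⟨δ, hδ, ?_⟩
  intro η hη hηδ
  have hf' : ∀ i : Fin m, ∃ P₀ : ℕ, ∀ P : ℕ, P₀ ≤ P → ∃ X₀ : ℝ, ∀ X : ℝ, X₀ ≤ X →
      ∑ Y ∈ Finset.Icc 1 ⌊X⌋₊, |BQ (a i) (b i) (a' i) (b' i) (QP η P) Y| / (Y : ℝ) ^ 2 ≤
        ε / (8 * (m + 1) * (c i + 1)) * ((QP η P).card : ℝ) * Real.log X := fun i =>
    hf i η hη (hηδ.trans (hδf i))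
  choose P₀ hP₀ using hf'
  refine ⟨∑ i, P₀ i, ?_⟩
  intro n hn
  have hf'' : ∀ i : Fin m, ∃ X₀ : ℝ, ∀ X : ℝ, X₀ ≤ X →
      ∑ Y ∈ Finset.Icc 1 ⌊X⌋₊, |BQ (a i) (b i) (a' i) (b' i) (QP η n) Y| / (Y : ℝ) ^ 2 ≤
        ε / (8 * (m + 1) * (c i + 1)) * ((QP η n).card : ℝ) * Real.log X := fun i =>
    hP₀ i n ((Finset.single_le_sum (f := P₀) (fun _ _ => Nat.zero_le _)
      (Finset.mem_univ i)).trans hn)
  choose X₀ hX₀ using hf''
  obtain ⟨K₀, hK₀⟩ := hcell (QP η n) (zbi_Pset η hη.le n)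
  refine ⟨K₀ + ∑ i, ⌈X₀ i⌉₊, ?_⟩
  intro K hK
  have h1 := hK₀ K (by omega)
  have hQ0 : (0 : ℝ) ≤ ((QP η n).card : ℝ) := by positivity
  have hlog : Real.log ((4 ^ K : ℕ) : ℝ) ≤ 2 * K := by
    push_cast
    rw [Real.log_pow]
    have : Real.log 4 ≤ 2 := by
      have h2 : Real.log 4 = 2 * Real.log 2 := by
        rw [show (4 : ℝ) = 2 ^ 2 by norm_num, Real.log_pow]; norm_num
      rw [h2]
      have := Real.log_two_lt_d9
      linarith
    have hK0 : (0 : ℝ) ≤ K := by positivity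
    nlinarith
  have h2 : ∀ i : Fin m, |c i * ∑ Y ∈ Finset.Icc 1 (4 ^ K : ℕ),
      BQ (a i) (b i) (a' i) (b' i) (QP η n) Y / (Y : ℝ) ^ 2| ≤
      ε / (8 * (m + 1)) * ((QP η n).card : ℝ) * (2 * K) := by
    intro i
    have hc := (hprop i).1
    have h3 := hX₀ i ((4 ^ K : ℕ) : ℝ) (by
      have e1 : ⌈X₀ i⌉₊ ≤ K := by
        have := Finset.single_le_sum (f := fun i => ⌈X₀ i⌉₊) (fun _ _ => Nat.zero_le _)
          (Finset.mem_univ i)
        have h9 : ⌈X₀ i⌉₊ ≤ ∑ i : Fin m, ⌈X₀ i⌉₊ := this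
        omega
      have e2 : K ≤ 4 ^ K := (Nat.lt_pow_self (by norm_num)).le
      calc X₀ i ≤ (⌈X₀ i⌉₊ : ℝ) := Nat.le_ceil _
        _ ≤ ((4 ^ K : ℕ) : ℝ) := by exact_mod_cast e1.trans e2)
    rw [Nat.floor_natCast] at h3
    rw [abs_mul, abs_of_nonneg hc]
    have h4 : |∑ Y ∈ Finset.Icc 1 (4 ^ K : ℕ),
        BQ (a i) (b i) (a' i) (b' i) (QP η n) Y / (Y : ℝ) ^ 2| ≤
        ∑ Y ∈ Finset.Icc 1 (4 ^ K : ℕ),
          |BQ (a i) (b i) (a' i) (b' i) (QP η n) Y| / (Y : ℝ) ^ 2 := by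
      refine (Finset.abs_sum_le_sum_abs _ _).trans (le_of_eq ?_)
      apply Finset.sum_congr rfl
      intro Y _
      rw [abs_div, abs_of_nonneg (by positivity : (0 : ℝ) ≤ (Y : ℝ) ^ 2)]
    have h5 : ε / (8 * (m + 1) * (c i + 1)) * ((QP η n).card : ℝ) *
        Real.log ((4 ^ K : ℕ) : ℝ) ≤
        ε / (8 * (m + 1) * (c i + 1)) * ((QP η n).card : ℝ) * (2 * K) :=
      mul_le_mul_of_nonneg_left hlog (mul_nonneg (hεi i).le hQ0)
    calc c i * |∑ Y ∈ Finset.Icc 1 (4 ^ K : ℕ),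
          BQ (a i) (b i) (a' i) (b' i) (QP η n) Y / (Y : ℝ) ^ 2|
        ≤ c i * (ε / (8 * (m + 1) * (c i + 1)) * ((QP η n).card : ℝ) * (2 * K)) :=
          mul_le_mul_of_nonneg_left (h4.trans (h3.trans h5)) hc
      _ = (c i / (c i + 1)) * (ε / (8 * (m + 1)) * ((QP η n).card : ℝ) * (2 * K)) := by
          have : c i + 1 ≠ 0 := by positivity
          field_simp
      _ ≤ 1 * (ε / (8 * (m + 1)) * ((QP η n).card : ℝ) * (2 * K)) := by
          apply mul_le_mul_of_nonneg_right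
          · rw [div_le_one (by positivity)]; linarith
          · positivity
      _ = _ := one_mul _
  have h6 : |∑ i, c i * ∑ Y ∈ Finset.Icc 1 (4 ^ K : ℕ),
      BQ (a i) (b i) (a' i) (b' i) (QP η n) Y / (Y : ℝ) ^ 2| ≤
      ε / 4 * ((QP η n).card : ℝ) * K := by
    refine (Finset.abs_sum_le_sum_abs _ _).trans ((Finset.sum_le_sum (fun i _ => h2 i)).trans ?_)
    rw [Finset.sum_const, Finset.card_univ, Fintype.card_fin, nsmul_eq_mul]
    have e1 : (m : ℝ) * (ε / (8 * (m + 1)) * ((QP η n).card : ℝ) * (2 * K)) =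
        (m / (m + 1)) * (ε / 4 * ((QP η n).card : ℝ) * K) := by
      have : (m : ℝ) + 1 ≠ 0 := by positivity
      field_simp
      ring
    rw [e1]
    calc ((m : ℝ) / (m + 1)) * (ε / 4 * ((QP η n).card : ℝ) * K)
        ≤ 1 * (ε / 4 * ((QP η n).card : ℝ) * K) := by
          apply mul_le_mul_of_nonneg_right
          · rw [div_le_one (by positivity)]; linarith
          · positivity
      _ = _ := one_mul _
  rw [abs_le] at h1 h6 ⊢
  constructor <;> linarith [h1.1, h1.2, h6.1, h6.2]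

open Classical in
/-- the primes `1 mod 4` in `(n, M]` -/
noncomputable def zbiR (n M : ℕ) : Finset ℕ :=
  (Finset.Ioc n M).filter (fun p => p.Prime ∧ p % 4 = 1)

theorem zbi_ind (η : ℝ) (hη : 0 < η) (P : ℕ) (hηP : 1 ≤ η * P) (F : ℕ → ℝ) (A E : ℝ)
    (h1 : ∀ n : ℕ, P ≤ n → n ≤ 2 * P → |∑ p ∈ QP η n, F p| ≤ A * ((QP η n).card : ℝ))
    (h2 : ∀ n : ℕ, P ≤ n → n ≤ 2 * P → ∀ S : Finset ℕ, S ⊆ QP η n → |∑ p ∈ S, F p| ≤ E) :
    ∀ d n : ℕ, P ≤ n → n ≤ 2 * P → 2 * P - n ≤ d →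
      |∑ p ∈ zbiR n (2 * P), F p| ≤ A * ((zbiR n (2 * P)).card : ℝ) + E := by
  classical
  have hE : 0 ≤ E := by
    have := h2 P le_rfl (by omega) ∅ (Finset.empty_subset _)
    simpa using this
  intro d
  induction d with
  | zero =>
    intro n hn hn2 hd
    have : n = 2 * P := by omega
    subst this
    have h3 : zbiR (2 * P) (2 * P) = ∅ := by
      unfold zbiR
      simp
    rw [h3]
    simpa using hE
  | succ d ih =>
    intro n hn hn2 hd
    set n' := ⌊(1 + η) * (n : ℝ)⌋₊ with hn'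
    have hηn : 1 ≤ η * n := by
      refine hηP.trans (mul_le_mul_of_nonneg_left ?_ hη.le)
      exact_mod_cast hn
    have hgt : n + 1 ≤ n' := by
      apply Nat.le_floor
      push_cast
      nlinarith
    rcases Nat.lt_or_ge (2 * P) n' with hlt | hge
    · -- everything is in one piece
      have hsub : zbiR n (2 * P) ⊆ QP η n := by
        rw [zbi_QP η hη.le n]
        unfold zbiR
        intro p hp
        rw [Finset.mem_filter, Finset.mem_Ioc] at hp ⊢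
        exact ⟨⟨hp.1.1, by omega⟩, hp.2⟩
      have h3 := h2 n hn hn2 _ hsub
      have hA : 0 ≤ A * ((zbiR n (2 * P)).card : ℝ) := by
        rcases Nat.eq_zero_or_pos (zbiR n (2 * P)).card with h0 | h0
        · rw [h0]; simp
        · have h4 : 0 < (QP η n).card := lt_of_lt_of_le h0 (Finset.card_le_card hsub)
          have h5 := h1 n hn hn2
          have h6 : 0 ≤ A * ((QP η n).card : ℝ) := (abs_nonneg _).trans h5
          have h7 : (0 : ℝ) < ((QP η n).card : ℝ) := by exact_mod_cast h4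
          have h8 : 0 ≤ A := by
            by_contra hneg
            rw [not_le] at hneg
            nlinarith
          positivity
      linarith
    · have hsplit : zbiR n (2 * P) = QP η n ∪ zbiR n' (2 * P) := by
        rw [zbi_QP η hη.le n]
        unfold zbiR
        ext p
        simp only [Finset.mem_union, Finset.mem_filter, Finset.mem_Ioc]
        constructor
        · rintro ⟨⟨h3, h4⟩, h5⟩
          rcases Nat.lt_or_ge n' p with h6 | h6
          · exact Or.inr ⟨⟨h6, h4⟩, h5⟩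
          · exact Or.inl ⟨⟨h3, h6⟩, h5⟩
        · rintro (⟨⟨h3, h4⟩, h5⟩ | ⟨⟨h3, h4⟩, h5⟩)
          · exact ⟨⟨h3, h4.trans hge⟩, h5⟩
          · exact ⟨⟨by omega, h4⟩, h5⟩
      have hdisj : Disjoint (QP η n) (zbiR n' (2 * P)) := by
        rw [zbi_QP η hη.le n]
        unfold zbiR
        rw [Finset.disjoint_left]
        intro p hp hq
        rw [Finset.mem_filter, Finset.mem_Ioc] at hp hq
        omega
      rw [hsplit, Finset.sum_union hdisj, Finset.card_union_of_disjoint hdisj]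
      have h3 := h1 n hn hn2
      have h4 := ih n' (by omega) hge (by omega)
      have h5 := abs_add_le (∑ p ∈ QP η n, F p) (∑ p ∈ zbiR n' (2 * P), F p)
      push_cast
      linarith

theorem bd_small_pr (α β ε : ℝ) (hα : 0 < α) (hβ : α < β) (hε : 0 < ε) : ∃ P₁ : ℕ, ∀ P : ℕ,
    P₁ ≤ P → 1 ≤ (PP P).card ∧ ∃ K₁ : ℕ, ∀ K : ℕ, K₁ ≤ K →
      |∑ p ∈ PP P, ∑ k ∈ Finset.range K, BD α β p k| ≤ ε * ((PP P).card : ℝ) * K := by
  classical
  obtain ⟨η₀, hη₀, hpiece⟩ := zbi_piece α β ε hα hβ hε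
  obtain ⟨D, hD, hBD⟩ := bd_triv α β hα hβ
  obtain ⟨cl, hcl, hlow⟩ := qp_lower
  obtain ⟨Cu, hCu, hup⟩ := qp_upper
  -- the choice of `η`
  set η := min (min η₀ 1) (ε * cl / (8 * D * Cu)) with hηdef
  have hη : 0 < η := by
    apply lt_min (lt_min hη₀ one_pos)
    positivity
  have hη1 : η ≤ η₀ := (min_le_left _ _).trans (min_le_left _ _)
  have hη2 : η ≤ 1 := (min_le_left _ _).trans (min_le_right _ _)
  have hη3 : η ≤ ε * cl / (8 * D * Cu) := min_le_right _ _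
  obtain ⟨N₀, hN₀⟩ := hpiece η hη hη1
  obtain ⟨P₂, hP₂⟩ := hlow 1 one_pos le_rfl
  obtain ⟨P₃, hP₃⟩ := hup η hη hη2
  refine ⟨N₀ + P₂ + P₃ + ⌈1 / η⌉₊ + 3, ?_⟩
  intro P hP
  have hP3 : 3 ≤ P := by omega
  have hPpos : (0 : ℝ) < P := by exact_mod_cast (by omega : 0 < P)
  have hlogP : 0 < Real.log P := Real.log_pos (by exact_mod_cast (by omega : 1 < P))
  have hcard : cl * P / Real.log P ≤ ((PP P).card : ℝ) := by
    have := hP₂ P (by omega)
    rw [zbi_PP, mul_one] at this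
    exact this
  have hcard1 : 1 ≤ (PP P).card := by
    have h1 : 0 < ((PP P).card : ℝ) := lt_of_lt_of_le (by positivity) hcard
    exact_mod_cast h1
  refine ⟨hcard1, ?_⟩
  have hηP : 1 ≤ η * P := by
    have h1 : 1 / η ≤ P := (Nat.le_ceil _).trans (by exact_mod_cast (by omega : ⌈1 / η⌉₊ ≤ P))
    rwa [div_le_iff₀ hη, mul_comm] at h1
  have hK : ∀ n : ℕ, ∃ K₁ : ℕ, P ≤ n → ∀ K : ℕ, K₁ ≤ K →
      |∑ p ∈ QP η n, ∑ k ∈ Finset.range K, BD α β p k| ≤
        ε / 2 * ((QP η n).card : ℝ) * K := by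
    intro n
    rcases Nat.lt_or_ge n P with h | h
    · exact ⟨0, fun h' => absurd h' (by omega)⟩
    · obtain ⟨K₁, hK₁⟩ := hN₀ n (by omega)
      exact ⟨K₁, fun _ => hK₁⟩
  choose κ hκ using hK
  refine ⟨∑ n ∈ Finset.Icc P (2 * P), κ n, ?_⟩
  intro K hKK
  have hK0 : (0 : ℝ) ≤ K := by positivity
  have hD0 : 0 ≤ D := by linarith
  set F : ℕ → ℝ := fun p => ∑ k ∈ Finset.range K, BD α β p k with hF
  have hFle : ∀ p : ℕ, 1 ≤ p → |F p| ≤ D * K := by
    intro p hp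
    refine (Finset.abs_sum_le_sum_abs _ _).trans ?_
    refine (Finset.sum_le_sum (g := fun _ => D) (fun k _ => (hBD p k hp).2)).trans ?_
    rw [Finset.sum_const, Finset.card_range, nsmul_eq_mul, mul_comm]
  have h1 : ∀ n : ℕ, P ≤ n → n ≤ 2 * P →
      |∑ p ∈ QP η n, F p| ≤ (ε / 2 * K) * ((QP η n).card : ℝ) := by
    intro n hn hn2
    have h2 : κ n ≤ K := (Finset.single_le_sum (f := κ) (fun _ _ => Nat.zero_le _)
      (Finset.mem_Icc.2 ⟨hn, hn2⟩)).trans hKK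
    have h3 := hκ n hn K h2
    calc |∑ p ∈ QP η n, F p| ≤ ε / 2 * ((QP η n).card : ℝ) * K := h3
      _ = (ε / 2 * K) * ((QP η n).card : ℝ) := by ring
  have h2 : ∀ n : ℕ, P ≤ n → n ≤ 2 * P → ∀ S : Finset ℕ, S ⊆ QP η n →
      |∑ p ∈ S, F p| ≤ ε / 4 * ((PP P).card : ℝ) * K := by
    intro n hn hn2 S hS
    have h3 : |∑ p ∈ S, F p| ≤ (S.card : ℝ) * (D * K) := by
      refine (Finset.abs_sum_le_sum_abs _ _).trans ?_
      refine (Finset.sum_le_sum (g := fun _ => D * K) (fun p hp => hFle p ?_)).trans ?_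
      · exact ((zbi_Pset η hη.le n) p (hS hp)).1.one_lt.le
      · rw [Finset.sum_const, nsmul_eq_mul]
    have h4 : (S.card : ℝ) ≤ Cu * η * n / Real.log n := by
      refine le_trans ?_ (hP₃ n (by omega))
      exact_mod_cast Finset.card_le_card hS
    have hnP : (P : ℝ) ≤ n := by exact_mod_cast hn
    have hn2P : (n : ℝ) ≤ 2 * P := by exact_mod_cast hn2
    have hlog : Real.log P ≤ Real.log n := Real.log_le_log hPpos hnP
    have h5 : Cu * η * n / Real.log n ≤ Cu * η * (2 * P) / Real.log P := by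
      have hCu0 : 0 ≤ Cu := by linarith
      apply div_le_div₀ (by positivity) _ hlogP hlog
      apply mul_le_mul_of_nonneg_left hn2P (by positivity)
    have h6 : Cu * η * (2 * P) / Real.log P ≤ ε / (4 * D) * (cl * P / Real.log P) := by
      have hCu0 : 0 < Cu := by linarith
      have hD1 : 0 < D := by linarith
      have h7 : Cu * η ≤ ε * cl / (8 * D) := by
        calc Cu * η ≤ Cu * (ε * cl / (8 * D * Cu)) := mul_le_mul_of_nonneg_left hη3 hCu0.le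
          _ = ε * cl / (8 * D) := by field_simp
      calc Cu * η * (2 * P) / Real.log P = (Cu * η) * (2 * P / Real.log P) := by ring
        _ ≤ (ε * cl / (8 * D)) * (2 * P / Real.log P) :=
            mul_le_mul_of_nonneg_right h7 (by positivity)
        _ = ε / (4 * D) * (cl * P / Real.log P) := by
            field_simp
            ring
    have h8 : (S.card : ℝ) ≤ ε / (4 * D) * ((PP P).card : ℝ) := by
      refine (h4.trans (h5.trans h6)).trans ?_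
      apply mul_le_mul_of_nonneg_left hcard
      positivity
    have hD1 : 0 < D := by linarith
    calc |∑ p ∈ S, F p| ≤ (S.card : ℝ) * (D * K) := h3
      _ ≤ (ε / (4 * D) * ((PP P).card : ℝ)) * (D * K) :=
          mul_le_mul_of_nonneg_right h8 (by positivity)
      _ = ε / 4 * ((PP P).card : ℝ) * K := by field_simp
  have h3 := zbi_ind η hη P hηP F _ _ h1 h2 (2 * P) P le_rfl (by omega) (by omega)
  have h4 : zbiR P (2 * P) = PP P := by
    unfold zbiR PP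
    rfl
  rw [h4] at h3
  have h5 : (0 : ℝ) ≤ ((PP P).card : ℝ) := by positivity
  calc |∑ p ∈ PP P, ∑ k ∈ Finset.range K, BD α β p k|
      ≤ ε / 2 * K * ((PP P).card : ℝ) + ε / 4 * ((PP P).card : ℝ) * K := h3
    _ = (3 / 4) * (ε * ((PP P).card : ℝ) * K) := by ring
    _ ≤ 1 * (ε * ((PP P).card : ℝ) * K) := by
        apply mul_le_mul_of_nonneg_right (by norm_num)
        positivity
    _ = _ := one_mul _

end Pool.Agent.T2


namespace Pool.Agent.T2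

theorem bd_small : type_of% @bd_small_pr := @bd_small_pr

end Pool.Agent.T2
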