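import Pool.Agent.Lib_helper10.T2.DefsZ
import Pool.Agent.Lib_helper10.T2F.BAS

/-! T2, block ZFR: the divisors of `n + i` -/

namespace Pool.Agent.T2

open Filter Topology

theorem zfr_mul_star (z : G) : z * star z = ((nn z : ℕ) : G) := by
  have h := nn_cast z
  apply Zsqrtd.ext
  · simp only [Zsqrtd.re_mul, Zsqrtd.re_star, Zsqrtd.im_star, Zsqrtd.re_natCast]
    rw [h]; ring
  · simp only [Zsqrtd.im_mul, Zsqrtd.re_star, Zsqrtd.im_star, Zsqrtd.im_natCast]
    ring

theorem zfr_unit {e : G} (h : nn e = 1) :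
    e = 1 ∨ e = -1 ∨ e = (⟨0, 1⟩ : G) ∨ e = (⟨0, -1⟩ : G) := by
  have h1 := nn_cast e
  rw [h] at h1
  obtain ⟨a, b⟩ := e
  replace h1 : (1 : ℤ) = a ^ 2 + b ^ 2 := by simpa using h1
  clear h
  have ha : a ≤ 1 := by nlinarith [sq_nonneg b]
  have ha' : -1 ≤ a := by nlinarith [sq_nonneg b]
  have hb : b ≤ 1 := by nlinarith [sq_nonneg a]
  have hb' : -1 ≤ b := by nlinarith [sq_nonneg a]
  interval_cases a <;> interval_cases b
  · exact absurd h1 (by norm_num)
  · right; left; rfl
  · exact absurd h1 (by norm_num)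
  · right; right; right; rfl
  · exact absurd h1 (by norm_num)
  · right; right; left; rfl
  · exact absurd h1 (by norm_num)
  · left; rfl
  · exact absurd h1 (by norm_num)

open Classical in
theorem four_reps_pr (n d : ℕ) (hd : d ∣ n ^ 2 + 1) :
    ((Bl (d : ℝ)).filter (fun v => nn v = d ∧ star v ∣ (⟨(n : ℤ), 1⟩ : G))).card = 4 := by
  set z : G := ⟨(n : ℤ), 1⟩ with hz
  have hd0 : d ≠ 0 := by
    rintro rfl
    rw [zero_dvd_iff] at hd
    omega
  set g : G := EuclideanDomain.gcd z (d : G) with hg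
  have hgz : g ∣ z := EuclideanDomain.gcd_dvd_left _ _
  have hgd : g ∣ (d : G) := EuclideanDomain.gcd_dvd_right _ _
  have hnz : nn z = n ^ 2 + 1 := by
    have h := nn_cast z
    have h2 : ((nn z : ℕ) : ℤ) = ((n ^ 2 + 1 : ℕ) : ℤ) := by
      rw [h, hz]; push_cast; ring
    exact_mod_cast h2
  -- `nn g ∣ d`
  have h1 : nn g ∣ d := by
    obtain ⟨u, hu⟩ := hgd
    obtain ⟨v, hv⟩ := hgz
    have h2 := det_mul g u v
    rw [← hu, ← hv] at h2
    have h3 : det (d : G) z = d := by
      rw [hz]
      simp [det]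
    rw [h3] at h2
    have h4 : ((nn g : ℕ) : ℤ) ∣ (d : ℤ) := ⟨_, h2⟩
    exact_mod_cast h4
  have h2 : d ∣ nn g := by
    have h3 : g = z * EuclideanDomain.gcdA z (d : G) + d * EuclideanDomain.gcdB z (d : G) :=
      EuclideanDomain.gcd_eq_gcd_ab _ _
    set x := EuclideanDomain.gcdA z (d : G)
    set y := EuclideanDomain.gcdB z (d : G)
    obtain ⟨m, hm⟩ := hd
    have h4 : z * star z = (d : G) * m := by
      rw [zfr_mul_star, hnz, hm]; push_cast; ring
    have h5 : ((nn g : ℕ) : G) = (d : G) * (m * x * star x + z * x * star y + star z * star x * y +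
        d * y * star y) := by
      rw [← zfr_mul_star, h3, star_add, star_mul', star_mul', star_natCast]
      linear_combination (x * star x) * h4
    have h6 := congrArg Zsqrtd.re h5
    rw [Zsqrtd.re_natCast] at h6
    set W := (m * x * star x + z * x * star y + star z * star x * y + d * y * star y : G)
    have h7 : ((d : G) * W).re = (d : ℤ) * W.re := by
      rw [Zsqrtd.re_mul, Zsqrtd.re_natCast, Zsqrtd.im_natCast]; ring
    rw [h7] at h6
    have h8 : (d : ℤ) ∣ ((nn g : ℕ) : ℤ) := ⟨_, h6⟩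
    exact_mod_cast h8
  have hng : nn g = d := Nat.dvd_antisymm h1 h2
  have hg0 : g ≠ 0 := by
    rw [← nn_pos, hng]; exact Nat.pos_of_ne_zero hd0
  have hsg0 : star g ≠ 0 := by
    rwa [Ne, star_eq_zero]
  have key : (Bl (d : ℝ)).filter (fun v => nn v = d ∧ star v ∣ z) =
      ({1, -1, (⟨0, 1⟩ : G), (⟨0, -1⟩ : G)} : Finset G).image (fun u => star g * u) := by
    ext v
    rw [Finset.mem_filter, mem_Bl, Finset.mem_image]
    constructor
    · rintro ⟨_, hv, hvz⟩
      have h3 : star v ∣ (d : G) := by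
        rw [← hv, ← zfr_mul_star]
        exact dvd_mul_left _ _
      obtain ⟨e, he⟩ := EuclideanDomain.dvd_gcd hvz h3
      have h4 : nn e = 1 := by
        have h5 : nn g = nn (star v) * nn e := by rw [← nn_mul, ← he]
        rw [hng, nn_star, hv] at h5
        exact Nat.eq_of_mul_eq_mul_left (Nat.pos_of_ne_zero hd0) (by rw [← h5, mul_one])
      refine ⟨e, ?_, ?_⟩
      · simp only [Finset.mem_insert, Finset.mem_singleton]
        exact zfr_unit h4
      · have h5 : e * star e = 1 := by rw [zfr_mul_star, h4, Nat.cast_one]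
        have h6 : star g = v * star e := by
          rw [hg, he, star_mul', star_star]
        rw [h6, mul_assoc, mul_comm (star e), h5, mul_one]
    · rintro ⟨u, hu, rfl⟩
      have hu1 : nn u = 1 := by
        simp only [Finset.mem_insert, Finset.mem_singleton] at hu
        rcases hu with rfl | rfl | rfl | rfl <;> decide
      have h3 : nn (star g * u) = d := by rw [nn_mul, nn_star, hng, hu1, mul_one]
      have hu0 : u ≠ 0 := by rw [← nn_pos, hu1]; exact one_pos
      refine ⟨⟨mul_ne_zero hsg0 hu0, by rw [h3]⟩, h3, ?_⟩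
      rw [star_mul', star_star]
      have h5 : u * star u = 1 := by rw [zfr_mul_star, hu1, Nat.cast_one]
      obtain ⟨w, hw⟩ := hgz
      refine ⟨u * w, ?_⟩
      rw [hw]
      linear_combination (-(g * w)) * h5
  rw [key, Finset.card_image_of_injective _ (mul_right_injective₀ hsg0)]
  decide

end Pool.Agent.T2


namespace Pool.Agent.T2

theorem four_reps : type_of% @four_reps_pr := @four_reps_pr

end Pool.Agent.T2
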