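import Pool.Agent.Lib_helper10.T2.DefsZ
import Pool.Agent.Lib_helper10.T2F.AWB
import Pool.Agent.Lib_helper10.T2F.BAS
import Pool.Agent.Lib_helper10.T2F.ZFR

/-! T2, package 0, block ZCO: the sum over `n` and the sum over pairs -/

namespace Pool.Agent.T2

open Filter Topology

/-- `star v * w` in coordinates -/
theorem zco_star_mul (v w : G) : star v * w = (⟨ip v w, det v w⟩ : G) := by
  apply Zsqrtd.ext
  · simp [ip, Zsqrtd.re_mul]
  · simp [det, Zsqrtd.im_mul]; ring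

theorem zco_terms {v w : G} {n : ℕ} (h1 : det v w = 1) (h2 : ip v w = n) :
    gl v * gl w = lam (n ^ 2 + 1) := by
  have h := ip_sq_add v w
  rw [h1, h2] at h
  have h3 : nn v * nn w = n ^ 2 + 1 := by
    have : ((nn v * nn w : ℕ) : ℤ) = ((n ^ 2 + 1 : ℕ) : ℤ) := by
      push_cast
      rw [h]; ring
    exact_mod_cast this
  unfold gl
  rw [← lam_mul, h3]

theorem zco_prm {v w : G} (h : det v w = 1) : Prm v ∧ Prm w := by
  constructor
  · unfold Prm
    rw [← Int.isCoprime_iff_gcd_eq_one]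
    refine ⟨w.im, -w.re, ?_⟩
    unfold det at h
    linarith
  · unfold Prm
    rw [← Int.isCoprime_iff_gcd_eq_one]
    refine ⟨-v.im, v.re, ?_⟩
    unfold det at h
    linarith

open Classical in
/-- the elements `v` with `star v ∣ n + i` in the window -/
noncomputable def zcoV (α β : ℝ) (n : ℕ) : Finset G :=
  (Bl (β * n)).filter (fun v => star v ∣ (⟨(n : ℤ), 1⟩ : G) ∧ α * n < (nn v : ℝ))

theorem zco_mem {α β : ℝ} {n : ℕ} {v : G} : v ∈ zcoV α β n ↔
    v ≠ 0 ∧ (nn v : ℝ) ≤ β * n ∧ star v ∣ (⟨(n : ℤ), 1⟩ : G) ∧ α * n < (nn v : ℝ) := by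
  classical
  unfold zcoV
  rw [Finset.mem_filter, mem_Bl]
  tauto

theorem zco_nn_z (n : ℕ) : nn (⟨(n : ℤ), 1⟩ : G) = n ^ 2 + 1 := by
  have h := nn_cast (⟨(n : ℤ), 1⟩ : G)
  have : ((nn (⟨(n : ℤ), 1⟩ : G) : ℕ) : ℤ) = ((n ^ 2 + 1 : ℕ) : ℤ) := by
    rw [h]; push_cast; ring
  exact_mod_cast this

theorem zco_nn_dvd {v z : G} (h : star v ∣ z) : nn v ∣ nn z := by
  obtain ⟨w, rfl⟩ := h
  rw [nn_mul, nn_star]
  exact Dvd.intro _ rfl

open Classical in
theorem zco_card4 (α β : ℝ) (n : ℕ) :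
    ((zcoV α β n).card : ℝ) = 4 * Wdiv α β n := by
  have hmaps : ∀ v ∈ zcoV α β n, nn v ∈ (n ^ 2 + 1).divisors.filter
      (fun d : ℕ => α * n < (d : ℝ) ∧ (d : ℝ) ≤ β * n) := by
    intro v hv
    rw [zco_mem] at hv
    rw [Finset.mem_filter, Nat.mem_divisors]
    refine ⟨⟨?_, by positivity⟩, hv.2.2.2, hv.2.1⟩
    rw [← zco_nn_z n]
    exact zco_nn_dvd hv.2.2.1
  have h := Finset.card_eq_sum_card_fiberwise hmaps
  rw [h]
  push_cast
  have h4 : ∀ d ∈ (n ^ 2 + 1).divisors.filter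
      (fun d : ℕ => α * n < (d : ℝ) ∧ (d : ℝ) ≤ β * n),
      ((((zcoV α β n).filter (fun v => nn v = d)).card : ℕ) : ℝ) = 4 := by
    intro d hd
    rw [Finset.mem_filter, Nat.mem_divisors] at hd
    have : (zcoV α β n).filter (fun v => nn v = d) =
        (Bl (d : ℝ)).filter (fun v => nn v = d ∧ star v ∣ (⟨(n : ℤ), 1⟩ : G)) := by
      ext v
      simp only [Finset.mem_filter, zco_mem, mem_Bl]
      constructor
      · rintro ⟨⟨h1, h2, h3, h4⟩, h5⟩
        exact ⟨⟨h1, by rw [h5]⟩, h5, h3⟩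
      · rintro ⟨⟨h1, h2⟩, h5, h3⟩
        exact ⟨⟨h1, by rw [h5]; exact hd.2.2, h3, by rw [h5]; exact hd.2.1⟩, h5⟩
    rw [this, four_reps n d hd.1.1]
    norm_num
  rw [Finset.sum_congr rfl h4, Finset.sum_const, nsmul_eq_mul]
  unfold Wdiv
  ring

open Classical in
theorem zco_fiber (α β : ℝ) (hα : 0 < α) (n k : ℕ) (hn : 1 ≤ n) :
    ((PW α β 1 k).filter (fun t => ip t.1 t.2 = n)).card =
      ((zcoV α β n).filter (fun v => Nat.log 4 (nn v) = k)).card := by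
  apply Finset.card_bij (fun t _ => t.1)
  · intro t ht
    rw [Finset.mem_filter, mem_PW hα] at ht
    obtain ⟨⟨h1, h2, h3, h4, h5, h6, h7, h8⟩, h9⟩ := ht
    rw [Finset.mem_filter, zco_mem]
    rw [h9] at h7 h8
    push_cast at h7 h8
    have h3' : det t.1 t.2 = 1 := by simpa using h3
    refine ⟨⟨prm_ne h1, h8, ?_, h7⟩, ?_⟩
    · refine ⟨t.2, ?_⟩
      rw [zco_star_mul, h9, h3']
    · exact (Nat.log_eq_iff (Or.inr ⟨by norm_num, (nn_pos.2 (prm_ne h1)).ne'⟩)).2 ⟨h5, h6⟩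
  · intro t ht s hs hts
    rw [Finset.mem_filter, mem_PW hα] at ht hs
    have h3t : det t.1 t.2 = 1 := by simpa using ht.1.2.2.1
    have h3s : det s.1 s.2 = 1 := by simpa using hs.1.2.2.1
    have e1 := zco_star_mul t.1 t.2
    have e2 := zco_star_mul s.1 s.2
    rw [ht.2, h3t] at e1
    rw [hs.2, h3s, ← hts] at e2
    have h0 : star t.1 ≠ 0 := by
      intro h
      apply prm_ne ht.1.1
      have := congrArg star h
      simpa using this
    have h5 : t.2 = s.2 := mul_left_cancel₀ h0 (e1.trans e2.symm)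
    exact Prod.ext hts h5
  · intro v hv
    rw [Finset.mem_filter, zco_mem] at hv
    obtain ⟨⟨h1, h2, ⟨w, hw⟩, h4⟩, h5⟩ := hv
    have e := zco_star_mul v w
    rw [← hw] at e
    have e1 : ip v w = n := (congrArg Zsqrtd.re e).symm
    have e2 : det v w = 1 := (congrArg Zsqrtd.im e).symm
    have hp := zco_prm e2
    have hnn : nn v ≠ 0 := (nn_pos.2 h1).ne'
    have h6 := (Nat.log_eq_iff (Or.inr ⟨by norm_num, hnn⟩)).1 h5
    refine ⟨(v, w), ?_, rfl⟩
    rw [Finset.mem_filter, mem_PW hα]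
    refine ⟨⟨hp.1, hp.2, by simpa using e2, ?_, h6.1, h6.2, ?_, ?_⟩, e1⟩
    · rw [e1]; exact_mod_cast hn
    · rw [e1]; exact_mod_cast h4
    · rw [e1]; exact_mod_cast h2

open Classical in
theorem zco_total (α β : ℝ) (hα : 0 < α) (n M : ℕ) (hn : 1 ≤ n) (hM : β * n < 4 ^ M) :
    (∑ k ∈ Finset.range M, (((PW α β 1 k).filter (fun t => ip t.1 t.2 = n)).card : ℝ)) =
      4 * Wdiv α β n := by
  rw [← zco_card4]
  have hmaps : ∀ v ∈ zcoV α β n, Nat.log 4 (nn v) ∈ Finset.range M := by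
    intro v hv
    rw [zco_mem] at hv
    rw [Finset.mem_range]
    have h1 : (nn v : ℝ) < 4 ^ M := lt_of_le_of_lt hv.2.1 hM
    have h2 : nn v < 4 ^ M := by exact_mod_cast h1
    exact Nat.log_lt_of_lt_pow (nn_pos.2 hv.1).ne' h2
  have h := Finset.card_eq_sum_card_fiberwise hmaps
  rw [h]
  push_cast
  apply Finset.sum_congr rfl
  intro k _
  rw [zco_fiber α β hα n k hn]

open Classical in
theorem zco_n (α β : ℝ) (hα : 0 < α) (n M : ℕ) (hn : 1 ≤ n) (hM : β * n < 4 ^ M) :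
    lam (n ^ 2 + 1) * Wdiv α β n / (n : ℝ) = (1 / 4) * ∑ k ∈ Finset.range M,
      ∑ t ∈ (PW α β 1 k).filter (fun t => ip t.1 t.2 = n),
        gl t.1 * gl t.2 / (ip t.1 t.2 : ℝ) := by
  have h1 : ∀ k ∈ Finset.range M, ∑ t ∈ (PW α β 1 k).filter (fun t => ip t.1 t.2 = n),
        gl t.1 * gl t.2 / (ip t.1 t.2 : ℝ) =
      (((PW α β 1 k).filter (fun t => ip t.1 t.2 = n)).card : ℝ) *
        (lam (n ^ 2 + 1) / (n : ℝ)) := by
    intro k _
    rw [← nsmul_eq_mul, ← Finset.sum_const]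
    apply Finset.sum_congr rfl
    intro t ht
    rw [Finset.mem_filter, mem_PW hα] at ht
    rw [zco_terms (by simpa using ht.1.2.2.1) ht.2, ht.2]
    push_cast
    rfl
  rw [Finset.sum_congr rfl h1, ← Finset.sum_mul, zco_total α β hα n M hn hM]
  ring

open Classical in
theorem zco_abs (α β : ℝ) (hα : 0 < α) (k : ℕ) (S : Finset (G × G)) (hS : S ⊆ PW α β 1 k) :
    |∑ t ∈ S, gl t.1 * gl t.2 / (ip t.1 t.2 : ℝ)| ≤
      ∑ t ∈ (PW α β 1 k).filter (fun t => (1 : G) ∣ t.1), 1 / (ip t.1 t.2 : ℝ) := by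
  have h1 : (PW α β 1 k).filter (fun t => (1 : G) ∣ t.1) = PW α β 1 k := by
    apply Finset.filter_true_of_mem
    intro t _
    exact one_dvd _
  rw [h1]
  have hpos : ∀ t ∈ PW α β 1 k, (0 : ℝ) < (ip t.1 t.2 : ℝ) := by
    intro t ht
    rw [mem_PW hα] at ht
    exact_mod_cast ht.2.2.2.1
  refine (Finset.abs_sum_le_sum_abs _ _).trans ?_
  refine (Finset.sum_le_sum (fun t ht => ?_)).trans
    (Finset.sum_le_sum_of_subset_of_nonneg hS (fun t ht _ => ?_))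
  · have h2 := hpos t (hS ht)
    rw [abs_div, abs_of_pos h2, abs_mul]
    apply div_le_div_of_nonneg_right _ h2.le
    calc |gl t.1| * |gl t.2| ≤ 1 * 1 :=
          mul_le_mul (gl_abs _) (gl_abs _) (abs_nonneg _) (by norm_num)
      _ = 1 := by norm_num
  · exact div_nonneg (by norm_num) (hpos t ht).le

open Classical in
theorem zco_swap (α β : ℝ) (hα : 0 < α) (x M : ℕ) (hβ0 : 0 < β)
    (hM : β * x < 4 ^ M) :
    ∑ n ∈ Finset.Icc 1 x, lam (n ^ 2 + 1) * Wdiv α β n / (n : ℝ) =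
      (1 / 4) * ∑ k ∈ Finset.range M, ∑ t ∈ (PW α β 1 k).filter (fun t => ip t.1 t.2 ≤ x),
        gl t.1 * gl t.2 / (ip t.1 t.2 : ℝ) := by
  have h1 : ∀ n ∈ Finset.Icc 1 x, lam (n ^ 2 + 1) * Wdiv α β n / (n : ℝ) =
      (1 / 4) * ∑ k ∈ Finset.range M,
      ∑ t ∈ (PW α β 1 k).filter (fun t => ip t.1 t.2 = n),
        gl t.1 * gl t.2 / (ip t.1 t.2 : ℝ) := by
    intro n hn
    rw [Finset.mem_Icc] at hn
    apply zco_n α β hα n M hn.1
    refine lt_of_le_of_lt ?_ hM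
    apply mul_le_mul_of_nonneg_left _ hβ0.le
    exact_mod_cast hn.2
  rw [Finset.sum_congr rfl h1, ← Finset.mul_sum, Finset.sum_comm]
  congr 1
  apply Finset.sum_congr rfl
  intro k _
  have h2 : ∀ t ∈ (PW α β 1 k).filter (fun t => ip t.1 t.2 ≤ x),
      (ip t.1 t.2).toNat ∈ Finset.Icc 1 x := by
    intro t ht
    rw [Finset.mem_filter, mem_PW hα] at ht
    rw [Finset.mem_Icc]
    have h3 := ht.1.2.2.2.1
    have h4 := ht.2
    omega
  rw [← Finset.sum_fiberwise_of_maps_to h2]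
  apply Finset.sum_congr rfl
  intro n hn
  rw [Finset.mem_Icc] at hn
  apply Finset.sum_congr _ (fun _ _ => rfl)
  ext t
  simp only [Finset.mem_filter]
  constructor
  · rintro ⟨h3, h4⟩
    refine ⟨⟨h3, ?_⟩, ?_⟩
    · rw [h4]; exact_mod_cast hn.2
    · rw [h4]; simp
  · rintro ⟨⟨h3, h4⟩, h5⟩
    refine ⟨h3, ?_⟩
    rw [mem_PW hα] at h3
    have := h3.2.2.2.1
    omega

theorem zco_few (K J : ℕ) (C : ℝ) (hC : 0 ≤ C) :
    ∑ k ∈ Finset.range K, (if K < k + 1 + J then C else 0) ≤ J * C := by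
  rw [← Finset.sum_filter, Finset.sum_const, nsmul_eq_mul]
  apply mul_le_mul_of_nonneg_right _ hC
  have : (Finset.range K).filter (fun k => K < k + 1 + J) ⊆ Finset.Ico (K - J) K := by
    intro k hk
    rw [Finset.mem_filter, Finset.mem_range] at hk
    rw [Finset.mem_Ico]
    omega
  have h2 := Finset.card_le_card this
  rw [Nat.card_Ico] at h2
  have h3 : K - (K - J) ≤ J := by omega
  exact_mod_cast h2.trans h3

open Classical in
theorem corr_pr (α β : ℝ) (hα : 0 < α) (hβ : α < β) : ∃ C : ℝ, 1 ≤ C ∧ ∀ x K : ℕ, 1 ≤ x →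
    4 ^ K ≤ x → x < 4 ^ (K + 1) →
    |∑ n ∈ Finset.Icc 1 x, lam (n ^ 2 + 1) * Wdiv α β n / (n : ℝ) -
      (1 / 4) * ∑ k ∈ Finset.range K, BD α β 1 k| ≤ C := by
  obtain ⟨C, hC, hPW⟩ := PW_div α β hα hβ
  have hβ0 : 0 < β := hα.trans hβ
  obtain ⟨J, hJ⟩ : ∃ J : ℕ, β < 4 ^ J := by
    obtain ⟨J, hJ⟩ := pow_unbounded_of_one_lt β (by norm_num : (1 : ℝ) < 4)
    exact ⟨J, hJ⟩
  obtain ⟨J', hJ'⟩ : ∃ J' : ℕ, 1 / α < 4 ^ J' := by
    obtain ⟨J', hJ'⟩ := pow_unbounded_of_one_lt (1 / α) (by norm_num : (1 : ℝ) < 4)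
    exact ⟨J', hJ'⟩
  have hC0 : 0 ≤ C := by linarith
  have hone : ∀ k, ∑ t ∈ (PW α β 1 k).filter (fun t => (1 : G) ∣ t.1),
      1 / (ip t.1 t.2 : ℝ) ≤ C := by
    intro k
    have h := hPW 1 k 1 one_ne_zero
    have h1 : (nn (1 : G) : ℝ) = 1 := by
      have := nn_nat 1
      simp at this
      rw [this]; norm_num
    rw [h1, div_one] at h
    exact h
  refine ⟨(J + 1) * C + J' * C + 1, ?_, ?_⟩
  · have : 0 ≤ (J + 1) * C + J' * C := by positivity
    linarith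
  intro x K hx hK1 hK2
  have hM : β * x < 4 ^ (K + 1 + J) := by
    have h1 : (x : ℝ) < 4 ^ (K + 1) := by exact_mod_cast hK2
    have h2 : (0 : ℝ) < x := by exact_mod_cast hx
    calc β * x < 4 ^ J * x := mul_lt_mul_of_pos_right hJ h2
      _ ≤ 4 ^ J * 4 ^ (K + 1) := mul_le_mul_of_nonneg_left h1.le (by positivity)
      _ = 4 ^ (K + 1 + J) := by rw [pow_add 4 (K + 1) J]; ring
  rw [zco_swap α β hα x (K + 1 + J) hβ0 hM]
  have hsplit : ∑ k ∈ Finset.range (K + 1 + J), ∑ t ∈ (PW α β 1 k).filter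
      (fun t => ip t.1 t.2 ≤ x), gl t.1 * gl t.2 / (ip t.1 t.2 : ℝ) =
      ∑ k ∈ Finset.range K, ∑ t ∈ (PW α β 1 k).filter
        (fun t => ip t.1 t.2 ≤ x), gl t.1 * gl t.2 / (ip t.1 t.2 : ℝ) +
      ∑ i ∈ Finset.range (J + 1), ∑ t ∈ (PW α β 1 (K + i)).filter
        (fun t => ip t.1 t.2 ≤ x), gl t.1 * gl t.2 / (ip t.1 t.2 : ℝ) := by
    rw [show K + 1 + J = K + (J + 1) by ring, Finset.sum_range_add]
  have hBD : ∑ k ∈ Finset.range K, BD α β 1 k = ∑ k ∈ Finset.range K,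
      (∑ t ∈ (PW α β 1 k).filter (fun t => ip t.1 t.2 ≤ x),
        gl t.1 * gl t.2 / (ip t.1 t.2 : ℝ) +
      ∑ t ∈ (PW α β 1 k).filter (fun t => ¬ ip t.1 t.2 ≤ x),
        gl t.1 * gl t.2 / (ip t.1 t.2 : ℝ)) := by
    apply Finset.sum_congr rfl
    intro k _
    rw [Finset.sum_filter_add_sum_filter_not]
    rfl
  rw [hsplit, hBD, Finset.sum_add_distrib]
  have b1 : |∑ i ∈ Finset.range (J + 1), ∑ t ∈ (PW α β 1 (K + i)).filter
        (fun t => ip t.1 t.2 ≤ x), gl t.1 * gl t.2 / (ip t.1 t.2 : ℝ)| ≤ (J + 1) * C := by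
    refine (Finset.abs_sum_le_sum_abs _ _).trans ?_
    refine (Finset.sum_le_sum (g := fun _ => C) (fun i _ =>
      (zco_abs α β hα (K + i) _ (Finset.filter_subset _ _)).trans (hone _))).trans (le_of_eq ?_)
    rw [Finset.sum_const, Finset.card_range, nsmul_eq_mul]
    push_cast
    ring
  have b2 : |∑ k ∈ Finset.range K, ∑ t ∈ (PW α β 1 k).filter
        (fun t => ¬ ip t.1 t.2 ≤ x), gl t.1 * gl t.2 / (ip t.1 t.2 : ℝ)| ≤ J' * C := by
    refine (Finset.abs_sum_le_sum_abs _ _).trans ?_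
    refine (Finset.sum_le_sum (fun k _ => ?_)).trans (zco_few K J' C hC0)
    split_ifs with hk
    · exact (zco_abs α β hα k _ (Finset.filter_subset _ _)).trans (hone _)
    · have hempty : (PW α β 1 k).filter (fun t => ¬ ip t.1 t.2 ≤ x) = ∅ := by
        apply Finset.filter_false_of_mem
        intro t ht
        rw [mem_PW hα] at ht
        obtain ⟨h1, h2, h3, h4, h5, h6, h7, h8⟩ := ht
        rw [not_not]
        by_contra hlt
        rw [not_le] at hlt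
        have e1 : (x : ℝ) < (ip t.1 t.2 : ℝ) := by exact_mod_cast hlt
        have e2 : (nn t.1 : ℝ) < 4 ^ (k + 1) := by exact_mod_cast h6
        have e3 : (4 : ℝ) ^ K ≤ x := by exact_mod_cast hK1
        have e4 : α * 4 ^ K < 4 ^ (k + 1) := by
          calc α * 4 ^ K ≤ α * x := mul_le_mul_of_nonneg_left e3 hα.le
            _ < α * (ip t.1 t.2 : ℝ) := mul_lt_mul_of_pos_left e1 hα
            _ < nn t.1 := h7
            _ < 4 ^ (k + 1) := e2
        have e5 : (4 : ℝ) ^ K < 4 ^ (k + 1 + J') := by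
          have h9 : 1 < 4 ^ J' * α := by
            rwa [div_lt_iff₀ hα] at hJ'
          calc (4 : ℝ) ^ K = 1 * 4 ^ K := by ring
            _ < (4 ^ J' * α) * 4 ^ K := mul_lt_mul_of_pos_right h9 (by positivity)
            _ = 4 ^ J' * (α * 4 ^ K) := by ring
            _ < 4 ^ J' * 4 ^ (k + 1) := mul_lt_mul_of_pos_left e4 (by positivity)
            _ = 4 ^ (k + 1 + J') := by rw [pow_add 4 (k + 1) J']; ring
        have e6 : K < k + 1 + J' := by
          rwa [pow_lt_pow_iff_right₀ (by norm_num : (1 : ℝ) < 4)] at e5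
        exact hk e6
      rw [hempty]
      simp
  set A := ∑ k ∈ Finset.range K, ∑ t ∈ (PW α β 1 k).filter
        (fun t => ip t.1 t.2 ≤ x), gl t.1 * gl t.2 / (ip t.1 t.2 : ℝ) with hA
  rw [abs_le] at b1 b2 ⊢
  constructor <;> linarith [b1.1, b1.2, b2.1, b2.2, mul_nonneg (by positivity : (0:ℝ) ≤ (J + 1)) hC0, mul_nonneg (by positivity : (0:ℝ) ≤ (J':ℝ)) hC0]

end Pool.Agent.T2


namespace Pool.Agent.T2

theorem corr : type_of% @corr_pr := @corr_pr

end Pool.Agent.T2
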