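import Pool.Agent.Lib_helper10.T2.DefsZ
import Pool.Agent.Lib_helper10.T2F.AFI
import Pool.Agent.Lib_helper10.T2F.ZBI
import Pool.Agent.Lib_helper10.T2F.ZCO

/-! T2, block ZFI: the final theorem from packages A and B -/

namespace Pool.Agent.T2

open Filter Topology

theorem zfi_bd (α β : ℝ) (hα : 0 < α) (hβ : α < β) (ε : ℝ) (hε : 0 < ε) : ∃ K₂ : ℕ,
    ∀ K : ℕ, K₂ ≤ K → |∑ k ∈ Finset.range K, BD α β 1 k| ≤ 2 * ε * K := by
  classical
  obtain ⟨P₁, hP₁⟩ := bd_small α β ε hα hβ hε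
  obtain ⟨Q, K₀, hQ, hA⟩ := part_A α β hα hβ ε hε P₁
  have h1 : ∀ P : ℕ, ∃ K₁ : ℕ, P₁ ≤ P → ∀ K : ℕ, K₁ ≤ K →
      |∑ p ∈ PP P, ∑ k ∈ Finset.range K, BD α β p k| ≤ ε * ((PP P).card : ℝ) * K := by
    intro P
    by_cases h : P₁ ≤ P
    · obtain ⟨K₁, hK₁⟩ := (hP₁ P h).2
      exact ⟨K₁, fun _ => hK₁⟩
    · exact ⟨0, fun h' => absurd h' h⟩
  choose K₁ hK₁ using h1
  refine ⟨max (max K₀ 1) (Q.sup K₁), fun K hK => ?_⟩
  have hK0 : K₀ ≤ K := le_trans (le_trans (le_max_left _ _) (le_max_left _ _)) hK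
  have hK1 : 1 ≤ K := le_trans (le_trans (le_max_right _ _) (le_max_left _ _)) hK
  obtain ⟨P, hP, hPA⟩ := hA K hK0
  have hP1 := hQ P hP
  have hK2 : K₁ P ≤ K := le_trans (le_trans (Finset.le_sup (f := K₁) hP) (le_max_right _ _)) hK
  have h2 := hK₁ P hP1 K hK2
  have hc := (hP₁ P hP1).1
  have hc0 : (0 : ℝ) < ((PP P).card : ℝ) := by exact_mod_cast hc
  have hKp : (0 : ℝ) < (K : ℝ) := by exact_mod_cast hK1
  set A := ∑ k ∈ Finset.range K, BD α β 1 k with hA'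
  have e : ∑ k ∈ Finset.range K, (1 / ((PP P).card : ℝ)) * ∑ p ∈ PP P, BD α β p k =
      (1 / ((PP P).card : ℝ)) * ∑ p ∈ PP P, ∑ k ∈ Finset.range K, BD α β p k := by
    rw [← Finset.mul_sum, Finset.sum_comm]
  rw [e] at hPA
  set D := ∑ p ∈ PP P, ∑ k ∈ Finset.range K, BD α β p k with hD
  have h3 : |(1 / (K : ℝ)) * ((1 / ((PP P).card : ℝ)) * D)| ≤ ε := by
    rw [abs_mul, abs_mul, abs_of_pos (by positivity : (0 : ℝ) < 1 / (K : ℝ)),
      abs_of_pos (by positivity : (0 : ℝ) < 1 / ((PP P).card : ℝ))]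
    calc (1 / (K : ℝ)) * ((1 / ((PP P).card : ℝ)) * |D|)
        ≤ (1 / (K : ℝ)) * ((1 / ((PP P).card : ℝ)) * (ε * ((PP P).card : ℝ) * K)) := by
          gcongr
      _ = ε := by field_simp
  have h4 : |(1 / (K : ℝ)) * A| ≤ 2 * ε := by
    have h5 : (1 / (K : ℝ)) * A = ((1 / (K : ℝ)) * A - (1 / (K : ℝ)) * ((1 / ((PP P).card : ℝ)) * D)) +
        (1 / (K : ℝ)) * ((1 / ((PP P).card : ℝ)) * D) := by ring
    rw [h5]
    refine (abs_add_le _ _).trans ?_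
    linarith
  rw [abs_mul, abs_of_pos (by positivity : (0 : ℝ) < 1 / (K : ℝ)), one_div, inv_mul_le_iff₀ hKp] at h4
  linarith

theorem t2_final_pr (α β : ℝ) (hα : 0 < α) (hβ : α < β) : Tendsto (fun x : ℕ =>
    (1 / Real.log x) * ∑ n ∈ Finset.Icc 1 x, lam (n ^ 2 + 1) * Wdiv α β n / (n : ℝ)) atTop
    (𝓝 0) := by
  obtain ⟨C, hC, hcorr⟩ := corr α β hα hβ
  rw [Metric.tendsto_atTop]
  intro ε hε
  obtain ⟨K₂, hK₂⟩ := zfi_bd α β hα hβ (ε / 2) (by positivity)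
  obtain ⟨N, hN⟩ := exists_nat_gt (max ((4 : ℝ) ^ K₂) (Real.exp (2 * C / ε)))
  refine ⟨max N 2, fun x hx => ?_⟩
  have hxN : N ≤ x := le_trans (le_max_left _ _) hx
  have hx2 : 2 ≤ x := le_trans (le_max_right _ _) hx
  have hx1 : 1 ≤ x := by omega
  have hNx : max ((4 : ℝ) ^ K₂) (Real.exp (2 * C / ε)) < (x : ℝ) :=
    lt_of_lt_of_le hN (by exact_mod_cast hxN)
  have h4x : (4 : ℝ) ^ K₂ < (x : ℝ) := lt_of_le_of_lt (le_max_left _ _) hNx
  have hex : Real.exp (2 * C / ε) < (x : ℝ) := lt_of_le_of_lt (le_max_right _ _) hNx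
  have hx0 : (0 : ℝ) < (x : ℝ) := by positivity
  have hlog : 2 * C / ε < Real.log x := by
    rw [Real.lt_log_iff_exp_lt hx0]; exact hex
  have hlog0 : 0 < Real.log x := lt_trans (by positivity) hlog
  set K := Nat.log 4 x with hK
  have hKle : 4 ^ K ≤ x := Nat.pow_log_le_self 4 (by omega)
  have hKlt : x < 4 ^ (K + 1) := Nat.lt_pow_succ_log_self (by norm_num) x
  have hK2 : K₂ ≤ K := by
    apply Nat.le_log_of_pow_le (by norm_num)
    have : ((4 ^ K₂ : ℕ) : ℝ) < (x : ℝ) := by push_cast; exact h4x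
    exact_mod_cast this.le
  have h1 := hcorr x K hx1 hKle hKlt
  have h2 := hK₂ K hK2
  set S := ∑ n ∈ Finset.Icc 1 x, lam (n ^ 2 + 1) * Wdiv α β n / (n : ℝ) with hS
  set A := ∑ k ∈ Finset.range K, BD α β 1 k with hA
  have hKlog : (K : ℝ) ≤ Real.log x := by
    have h3 : ((4 : ℝ) ^ K) ≤ x := by exact_mod_cast hKle
    have h4 := Real.log_le_log (by positivity) h3
    rw [Real.log_pow] at h4
    have h5 : 1 ≤ Real.log 4 := by
      rw [Real.le_log_iff_exp_le (by norm_num)]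
      have := Real.exp_one_lt_d9
      linarith
    have h6 : (0 : ℝ) ≤ K := Nat.cast_nonneg _
    nlinarith
  have h7 : |S| ≤ C + ε / 4 * Real.log x := by
    have h8 : S = (S - (1 / 4) * A) + (1 / 4) * A := by ring
    rw [h8]
    refine (abs_add_le _ _).trans ?_
    have h9 : |(1 / 4) * A| ≤ ε / 4 * Real.log x := by
      rw [abs_mul, abs_of_pos (by norm_num : (0 : ℝ) < 1 / 4)]
      have h10 : ε * (K : ℝ) ≤ ε * Real.log x := mul_le_mul_of_nonneg_left hKlog hε.le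
      linarith
    linarith
  rw [Real.dist_eq, sub_zero, abs_mul, abs_of_pos (by positivity : (0 : ℝ) < 1 / Real.log x), one_div,
    inv_mul_lt_iff₀ hlog0]
  rw [div_lt_iff₀ hε] at hlog
  linarith

end Pool.Agent.T2


namespace Pool.Agent.T2

theorem t2_final : type_of% @t2_final_pr := @t2_final_pr

end Pool.Agent.T2
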